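import Pool.Agent.Lib.MP_4eaecc_an.R1

/-! The moves are chains of flips. Flipped half-edges and final renaming `σ` (list of values):
`rho`: 2, 8, 14, then [5, 0, 2, 3, 1, 4, 17, 12, 14, 15, 13, 16, 11, 6, 8, 9, 7, 10];
`Tp`: 13, then [0, 1, 2, 3, 4, 5, 6, 7, 8, 9, 10, 11, 12, 14, 17, 13, 16, 15];
`Tm`: 14, then [0, 1, 2, 3, 4, 5, 6, 7, 8, 9, 10, 11, 12, 15, 17, 13, 16, 14];
`Sp`: 1, 5, 2, 8, then [0, 5, 9, 8, 4, 1, 6, 11, 3, 2, 10, 7, 12, 13, 14, 15, 16, 17];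
`Sm`: 2, 8, 1, 5, then [0, 7, 8, 9, 4, 11, 6, 1, 2, 3, 10, 5, 12, 13, 14, 15, 16, 17]. -/

namespace Pool.Agent.TW

open Matrix MeasureTheory Filter Topology
open scoped ENNReal NNReal

theorem isTri_raw {y : Pt} (h : y ∈ Cell) : IsTri (raw y) :=
  isTri_three (h 0) (h 1) (h 2)

theorem raw_vec (y : Pt) (h : Fin 18) : (raw y).2.2 h = hol y (al0 h) := by
  fin_cases h <;> simp [raw, three, al0, hol, vec, ev_four, add_comm]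

theorem LM.vecMul {S T : Raw × (Fin 18 → Z4)} (h : LM S T) (P : Mat) :
    LM (S.1, fun e => S.2 e ᵥ* P) (T.1, fun e => T.2 e ᵥ* P) := by
  obtain ⟨h1, h2, ⟨e, k1, k2, k3, k4⟩ | ⟨σ, k1, k2⟩⟩ := h
  · refine ⟨h1, h2, .inl ⟨e, k1, ?_, ?_, fun x a b => ?_⟩⟩
    · simp only [k2, add_vecMul]
    · simp only [k3, neg_vecMul]
    · simp only [k4 x a b]
  · exact ⟨h1, h2, .inr ⟨σ, k1, fun x => by simp only [k2 x]⟩⟩

def a1_n0 : Fin 18 → Fin 18 := ![1, 2, 0, 4, 5, 3, 7, 8, 6, 10, 11, 9, 13, 14, 12, 16, 17, 15]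

def a1_o : Fin 18 → Fin 18 := ![16, 11, 3, 2, 12, 7, 10, 5, 9, 8, 6, 1, 4, 17, 15, 14, 0, 13]

/-- The labelled triangulation of a table. -/
def a1_tb (y : Pt) (n : Fin 18 → Fin 18) (A : Fin 18 → Z4) : Raw × (Fin 18 → Z4) :=
  ((n, a1_o, fun h => hol y (A h)), A)

/-- Equality of two wedge products. -/
def a1_w (e f e' f' : Z4) : Prop := ∀ i j, e i * f j - e j * f i = e' i * f' j - e' j * f' i

instance (e f e' f' : Z4) : Decidable (a1_w e f e' f') := by unfold a1_w; infer_instance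

/-- The finite conditions on a table. -/
def a1_ok (g : Mat) (n : Fin 18 → Fin 18) (A : Fin 18 → Z4) : Prop :=
  (∀ h, n (n (n h)) = h) ∧ (∀ h i, A (a1_o h) i = -A h i) ∧
  (∀ h i, A h i + A (n h) i + A (n (n h)) i = 0) ∧
  (∀ h, ∃ i : Fin 3, a1_w (A h) (A (n h)) ((1 : Mat) (sp i)) ((1 : Mat) (sq i)) ∨
    a1_w (A h) (A (n h)) (g (sp i)) (g (sq i))) ∧
  ∀ h, ∃ m : Fin 18, (n ∘ a1_o)^[m.1] 0 = h

instance (g : Mat) (n : Fin 18 → Fin 18) (A : Fin 18 → Z4) : Decidable (a1_ok g n A) := by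
  unfold a1_ok; infer_instance

theorem a1_add (y : Pt) (e f : Z4) : hol y (e + f) = hol y e + hol y f := by
  simp [hol, add_ev]

theorem a1_neg (y : Pt) (e : Z4) : hol y (-e) = -hol y e := by
  simp [hol, neg_ev]

theorem a1_dt (y : Pt) (e f : Z4) : dt (hol y e) (hol y f) =
    ∑ i, ∑ j, ((e i * f j - e j * f i : ℤ) : ℝ) * (y.1 i * y.2 j) := by
  simp only [dt, hol, ev_four, Fin.sum_univ_four]
  push_cast
  ring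

theorem a1_w.dt {e f e' f' : Z4} (h : a1_w e f e' f') (y : Pt) :
    dt (hol y e) (hol y f) = dt (hol y e') (hol y f') := by
  simp only [a1_dt, h _ _]

theorem a1_tri {y : Pt} {g : Mat} (h : y ∈ Cell) (k : acP g y ∈ Cell) {n : Fin 18 → Fin 18}
    {A : Fin 18 → Z4} (H : a1_ok g n A) : IsTri (a1_tb y n A).1 := by
  obtain ⟨h1, h2, h3, h4, h5⟩ := H
  refine ⟨h1, show ∀ h, a1_o (a1_o h) = h by decide, fun e => ?_, fun e => ?_, fun e => ?_,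
    fun e => (h5 e).elim fun m hm => ⟨m.1, hm⟩⟩
  · exact (congrArg (hol y) (funext (h2 e))).trans (a1_neg y (A e))
  · show hol y _ + hol y _ + hol y _ = 0
    rw [← a1_add, ← a1_add]
    refine (congrArg (hol y) (funext (h3 e))).trans ?_
    simp [hol, ev]
  · obtain ⟨i, hi | hi⟩ := h4 e
    · rw [← acP_one y] at h
      exact (h i).trans_eq (hi.dt y).symm
    · exact (k i).trans_eq (hi.dt y).symm

/-- The finite conditions on a flip. -/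
def a1_fl (n n' : Fin 18 → Fin 18) (A A' : Fin 18 → Z4) (h : Fin 18) : Prop :=
  n' h = n (n h) ∧ n' (n (n h)) = n (a1_o h) ∧ n' (n (a1_o h)) = h ∧
  n' (a1_o h) = n (n (a1_o h)) ∧ n' (n (n (a1_o h))) = n h ∧ n' (n h) = a1_o h ∧
  (∀ e, e ≠ h → e ≠ n h → e ≠ n (n h) → e ≠ a1_o h → e ≠ n (a1_o h) → e ≠ n (n (a1_o h)) →
    n' e = n e) ∧
  (∀ i, A' h i = A (n (n (a1_o h))) i + A (n h) i) ∧
  ∀ e, e ≠ h → e ≠ a1_o h → ∀ i, A' e i = A e i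

set_option synthInstance.maxSize 2000 in
instance (n n' : Fin 18 → Fin 18) (A A' : Fin 18 → Z4) (h : Fin 18) :
    Decidable (a1_fl n n' A A' h) := by
  unfold a1_fl
  infer_instance

theorem a1_flip {y : Pt} {g : Mat} (h : y ∈ Cell) (k : acP g y ∈ Cell) {n n' : Fin 18 → Fin 18}
    {A A' : Fin 18 → Z4} (e : Fin 18) (H : a1_ok g n A ∧ a1_ok g n' A' ∧ a1_fl n n' A A' e) :
    LM (a1_tb y n A) (a1_tb y n' A') := by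
  obtain ⟨H1, H2, k1, k2, k3, k4, k5, k6, k7, k8, k9⟩ := H
  refine ⟨a1_tri h k H1, a1_tri h k H2, .inl ⟨e, ⟨rfl, k1, k2, k3, k4, k5, k6, k7, ?_,
    fun x a b => congrArg (hol y) (funext (k9 x a b))⟩, funext k8, funext (H2.2.1 e),
    fun x a b => funext (k9 x a b)⟩⟩
  exact (congrArg (hol y) (funext k8)).trans (a1_add y _ _)

theorem a1_rel {y : Pt} {g : Mat} (h : y ∈ Cell) (k : acP g y ∈ Cell) {n n' : Fin 18 → Fin 18}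
    {A A' : Fin 18 → Z4} (σ : Fin 18 → Fin 18) (H : a1_ok g n A ∧ a1_ok g n' A' ∧
      (∀ a b, σ a = σ b → a = b) ∧
      ∀ e, n' (σ e) = σ (n e) ∧ a1_o (σ e) = σ (a1_o e) ∧ ∀ i, A' (σ e) i = A e i) :
    LM (a1_tb y n A) (a1_tb y n' A') := by
  obtain ⟨H1, H2, k1, k2⟩ := H
  exact ⟨a1_tri h k H1, a1_tri h k H2,
    .inr ⟨Equiv.ofBijective σ (Finite.injective_iff_bijective.1 k1), fun e => ⟨(k2 e).1, (k2 e).2.1,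
      congrArg (hol y) (funext (k2 e).2.2)⟩, fun e => funext (k2 e).2.2⟩⟩

theorem a1_raw (y : Pt) (P : Mat) :
    (raw (acP P y), fun e => al0 e ᵥ* P) = a1_tb y a1_n0 fun e => al0 e ᵥ* P :=
  Prod.ext (Prod.ext rfl (Prod.ext rfl (funext fun e => (raw_vec _ e).trans (hol_acP P y _)))) rfl

theorem a1_raw0 (y : Pt) : (raw y, al0) = a1_tb y a1_n0 al0 :=
  Prod.ext (Prod.ext rfl (Prod.ext rfl (funext fun e => raw_vec _ e))) rfl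

def a1_nrho1 : Fin 18 → Fin 18 :=
  ![3, 4, 1, 5, 2, 0, 7, 8, 6, 10, 11, 9, 13, 14, 12, 16, 17, 15]

def a1_arho1 : Fin 18 → Z4 :=
  ![![1, 0, 0, 0], ![0, 0, 1, 0], ![1, 0, -1, 0], ![-1, 0, 1, 0], ![-1, 0, 0, 0], ![0, 0, -1, 0],
    ![0, 1, 0, 0], ![0, 0, 1, 0], ![0, -1, -1, 0], ![0, 1, 1, 0], ![0, -1, 0, 0], ![0, 0, -1, 0],
    ![1, 0, 0, 0], ![0, 0, 0, 1], ![-1, 0, 0, -1], ![1, 0, 0, 1], ![-1, 0, 0, 0], ![0, 0, 0, -1]]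

def a1_nrho2 : Fin 18 → Fin 18 :=
  ![3, 4, 1, 5, 2, 0, 9, 10, 7, 11, 8, 6, 13, 14, 12, 16, 17, 15]

def a1_arho2 : Fin 18 → Z4 :=
  ![![1, 0, 0, 0], ![0, 0, 1, 0], ![1, 0, -1, 0], ![-1, 0, 1, 0], ![-1, 0, 0, 0], ![0, 0, -1, 0],
    ![0, 1, 0, 0], ![0, 0, 1, 0], ![0, 1, -1, 0], ![0, -1, 1, 0], ![0, -1, 0, 0], ![0, 0, -1, 0],
    ![1, 0, 0, 0], ![0, 0, 0, 1], ![-1, 0, 0, -1], ![1, 0, 0, 1], ![-1, 0, 0, 0], ![0, 0, 0, -1]]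

def a1_nrho3 : Fin 18 → Fin 18 :=
  ![3, 4, 1, 5, 2, 0, 9, 10, 7, 11, 8, 6, 15, 16, 13, 17, 14, 12]

def a1_arho3 : Fin 18 → Z4 :=
  ![![1, 0, 0, 0], ![0, 0, 1, 0], ![1, 0, -1, 0], ![-1, 0, 1, 0], ![-1, 0, 0, 0], ![0, 0, -1, 0],
    ![0, 1, 0, 0], ![0, 0, 1, 0], ![0, 1, -1, 0], ![0, -1, 1, 0], ![0, -1, 0, 0], ![0, 0, -1, 0],
    ![1, 0, 0, 0], ![0, 0, 0, 1], ![1, 0, 0, -1], ![-1, 0, 0, 1], ![-1, 0, 0, 0], ![0, 0, 0, -1]]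

def a1_nTp1 : Fin 18 → Fin 18 :=
  ![1, 2, 0, 4, 5, 3, 7, 8, 6, 10, 11, 9, 15, 12, 17, 13, 14, 16]

def a1_aTp1 : Fin 18 → Z4 :=
  ![![1, 0, 0, 0], ![0, 0, 1, 0], ![-1, 0, -1, 0], ![1, 0, 1, 0], ![-1, 0, 0, 0], ![0, 0, -1, 0],
    ![0, 1, 0, 0], ![0, 0, 1, 0], ![0, -1, -1, 0], ![0, 1, 1, 0], ![0, -1, 0, 0], ![0, 0, -1, 0],
    ![1, 0, 0, 0], ![-2, 0, 0, -1], ![-1, 0, 0, -1], ![1, 0, 0, 1], ![-1, 0, 0, 0], ![2, 0, 0, 1]]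

def a1_nTm1 : Fin 18 → Fin 18 :=
  ![1, 2, 0, 4, 5, 3, 7, 8, 6, 10, 11, 9, 15, 16, 13, 17, 14, 12]

def a1_aTm1 : Fin 18 → Z4 :=
  ![![1, 0, 0, 0], ![0, 0, 1, 0], ![-1, 0, -1, 0], ![1, 0, 1, 0], ![-1, 0, 0, 0], ![0, 0, -1, 0],
    ![0, 1, 0, 0], ![0, 0, 1, 0], ![0, -1, -1, 0], ![0, 1, 1, 0], ![0, -1, 0, 0], ![0, 0, -1, 0],
    ![1, 0, 0, 0], ![0, 0, 0, 1], ![1, 0, 0, -1], ![-1, 0, 0, 1], ![-1, 0, 0, 0], ![0, 0, 0, -1]]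

def a1_nSp1 : Fin 18 → Fin 18 :=
  ![9, 0, 11, 4, 5, 3, 7, 8, 6, 1, 2, 10, 13, 14, 12, 16, 17, 15]

def a1_aSp1 : Fin 18 → Z4 :=
  ![![1, 0, 0, 0], ![-1, -1, -1, 0], ![-1, 0, -1, 0], ![1, 0, 1, 0], ![-1, 0, 0, 0],
    ![0, 0, -1, 0], ![0, 1, 0, 0], ![0, 0, 1, 0], ![0, -1, -1, 0], ![0, 1, 1, 0], ![0, -1, 0, 0],
    ![1, 1, 1, 0], ![1, 0, 0, 0], ![0, 0, 0, 1], ![-1, 0, 0, -1], ![1, 0, 0, 1], ![-1, 0, 0, 0],
    ![0, 0, 0, -1]]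

def a1_nSp2 : Fin 18 → Fin 18 :=
  ![9, 0, 11, 7, 8, 4, 3, 6, 5, 1, 2, 10, 13, 14, 12, 16, 17, 15]

def a1_aSp2 : Fin 18 → Z4 :=
  ![![1, 0, 0, 0], ![-1, -1, -1, 0], ![-1, 0, -1, 0], ![1, 0, 1, 0], ![-1, 0, 0, 0], ![1, 1, 1, 0],
    ![0, 1, 0, 0], ![-1, -1, -1, 0], ![0, -1, -1, 0], ![0, 1, 1, 0], ![0, -1, 0, 0], ![1, 1, 1, 0],
    ![1, 0, 0, 0], ![0, 0, 0, 1], ![-1, 0, 0, -1], ![1, 0, 0, 1], ![-1, 0, 0, 0], ![0, 0, 0, -1]]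

def a1_nSp3 : Fin 18 → Fin 18 :=
  ![9, 0, 10, 6, 8, 4, 11, 2, 5, 1, 7, 3, 13, 14, 12, 16, 17, 15]

def a1_aSp3 : Fin 18 → Z4 :=
  ![![1, 0, 0, 0], ![-1, -1, -1, 0], ![1, 2, 1, 0], ![-1, -2, -1, 0], ![-1, 0, 0, 0],
    ![1, 1, 1, 0], ![0, 1, 0, 0], ![-1, -1, -1, 0], ![0, -1, -1, 0], ![0, 1, 1, 0], ![0, -1, 0, 0],
    ![1, 1, 1, 0], ![1, 0, 0, 0], ![0, 0, 0, 1], ![-1, 0, 0, -1], ![1, 0, 0, 1], ![-1, 0, 0, 0],
    ![0, 0, 0, -1]]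

def a1_nSp4 : Fin 18 → Fin 18 :=
  ![5, 8, 10, 6, 1, 9, 11, 2, 4, 0, 7, 3, 13, 14, 12, 16, 17, 15]

def a1_aSp4 : Fin 18 → Z4 :=
  ![![1, 0, 0, 0], ![-1, -1, -1, 0], ![1, 2, 1, 0], ![-1, -2, -1, 0], ![-1, 0, 0, 0],
    ![1, 1, 1, 0], ![0, 1, 0, 0], ![-1, -1, -1, 0], ![2, 1, 1, 0], ![-2, -1, -1, 0],
    ![0, -1, 0, 0], ![1, 1, 1, 0], ![1, 0, 0, 0], ![0, 0, 0, 1], ![-1, 0, 0, -1], ![1, 0, 0, 1],
    ![-1, 0, 0, 0], ![0, 0, 0, -1]]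

def a1_nSm3 : Fin 18 → Fin 18 :=
  ![3, 2, 6, 5, 11, 0, 1, 10, 7, 4, 8, 9, 13, 14, 12, 16, 17, 15]

def a1_aSm3 : Fin 18 → Z4 :=
  ![![1, 0, 0, 0], ![-1, -1, 1, 0], ![1, 0, -1, 0], ![-1, 0, 1, 0], ![-1, 0, 0, 0], ![0, 0, -1, 0],
    ![0, 1, 0, 0], ![0, 0, 1, 0], ![0, 1, -1, 0], ![0, -1, 1, 0], ![0, -1, 0, 0], ![1, 1, -1, 0],
    ![1, 0, 0, 0], ![0, 0, 0, 1], ![-1, 0, 0, -1], ![1, 0, 0, 1], ![-1, 0, 0, 0], ![0, 0, 0, -1]]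

def a1_nSm4 : Fin 18 → Fin 18 :=
  ![7, 2, 6, 10, 11, 3, 1, 8, 0, 4, 5, 9, 13, 14, 12, 16, 17, 15]

def a1_aSm4 : Fin 18 → Z4 :=
  ![![1, 0, 0, 0], ![-1, -1, 1, 0], ![1, 0, -1, 0], ![-1, 0, 1, 0], ![-1, 0, 0, 0], ![1, 1, -1, 0],
    ![0, 1, 0, 0], ![-1, -1, 1, 0], ![0, 1, -1, 0], ![0, -1, 1, 0], ![0, -1, 0, 0], ![1, 1, -1, 0],
    ![1, 0, 0, 0], ![0, 0, 0, 1], ![-1, 0, 0, -1], ![1, 0, 0, 1], ![-1, 0, 0, 0], ![0, 0, 0, -1]]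

theorem a1_rho {y : Pt} (h : y ∈ Cell) (k : acP rho y ∈ Cell) :
    Relation.ReflTransGen LM (a1_tb y a1_n0 al0) (a1_tb y a1_n0 fun e => al0 e ᵥ* rho) :=
  .head (a1_flip h k (n' := a1_nrho1) (A' := a1_arho1) 2 (by decide +kernel)) <|
  .head (a1_flip h k (n' := a1_nrho2) (A' := a1_arho2) 8 (by decide +kernel)) <|
  .head (a1_flip h k (n' := a1_nrho3) (A' := a1_arho3) 14 (by decide +kernel)) <|
  .single (a1_rel h k ![5, 0, 2, 3, 1, 4, 17, 12, 14, 15, 13, 16, 11, 6, 8, 9, 7, 10]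
    (by decide +kernel))

theorem a1_Tp {y : Pt} (h : y ∈ Cell) (k : acP Tp y ∈ Cell) :
    Relation.ReflTransGen LM (a1_tb y a1_n0 al0) (a1_tb y a1_n0 fun e => al0 e ᵥ* Tp) :=
  .head (a1_flip h k (n' := a1_nTp1) (A' := a1_aTp1) 13 (by decide +kernel)) <|
  .single (a1_rel h k ![0, 1, 2, 3, 4, 5, 6, 7, 8, 9, 10, 11, 12, 14, 17, 13, 16, 15]
    (by decide +kernel))

theorem a1_Tm {y : Pt} (h : y ∈ Cell) (k : acP Tm y ∈ Cell) :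
    Relation.ReflTransGen LM (a1_tb y a1_n0 al0) (a1_tb y a1_n0 fun e => al0 e ᵥ* Tm) :=
  .head (a1_flip h k (n' := a1_nTm1) (A' := a1_aTm1) 14 (by decide +kernel)) <|
  .single (a1_rel h k ![0, 1, 2, 3, 4, 5, 6, 7, 8, 9, 10, 11, 12, 15, 17, 13, 16, 14]
    (by decide +kernel))

theorem a1_Sp {y : Pt} (h : y ∈ Cell) (k : acP Sp y ∈ Cell) :
    Relation.ReflTransGen LM (a1_tb y a1_n0 al0) (a1_tb y a1_n0 fun e => al0 e ᵥ* Sp) :=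
  .head (a1_flip h k (n' := a1_nSp1) (A' := a1_aSp1) 1 (by decide +kernel)) <|
  .head (a1_flip h k (n' := a1_nSp2) (A' := a1_aSp2) 5 (by decide +kernel)) <|
  .head (a1_flip h k (n' := a1_nSp3) (A' := a1_aSp3) 2 (by decide +kernel)) <|
  .head (a1_flip h k (n' := a1_nSp4) (A' := a1_aSp4) 8 (by decide +kernel)) <|
  .single (a1_rel h k ![0, 5, 9, 8, 4, 1, 6, 11, 3, 2, 10, 7, 12, 13, 14, 15, 16, 17]
    (by decide +kernel))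

theorem a1_Sm {y : Pt} (h : y ∈ Cell) (k : acP Sm y ∈ Cell) :
    Relation.ReflTransGen LM (a1_tb y a1_n0 al0) (a1_tb y a1_n0 fun e => al0 e ᵥ* Sm) :=
  .head (a1_flip h k (n' := a1_nrho1) (A' := a1_arho1) 2 (by decide +kernel)) <|
  .head (a1_flip h k (n' := a1_nrho2) (A' := a1_arho2) 8 (by decide +kernel)) <|
  .head (a1_flip h k (n' := a1_nSm3) (A' := a1_aSm3) 1 (by decide +kernel)) <|
  .head (a1_flip h k (n' := a1_nSm4) (A' := a1_aSm4) 5 (by decide +kernel)) <|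
  .single (a1_rel h k ![0, 7, 8, 9, 4, 11, 6, 1, 2, 3, 10, 5, 12, 13, 14, 15, 16, 17]
    (by decide +kernel))

theorem chain_gen {y : Pt} {g : Mat} (hg : IsGen g) (h : y ∈ Cell) (k : acP g y ∈ Cell) :
    Relation.ReflTransGen LM (raw y, al0) (raw (acP g y), fun e => al0 e ᵥ* g) := by
  rw [a1_raw, a1_raw0]
  rcases hg with rfl | rfl | rfl | rfl | rfl
  exacts [a1_rho h k, a1_Tp h k, a1_Tm h k, a1_Sp h k, a1_Sm h k]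

theorem chain {y : Pt} {P : Mat} (h : Reach y P) :
    Relation.ReflTransGen LM (raw y, al0) (raw (acP P y), fun e => al0 e ᵥ* P) := by
  induction h with
  | refl _ =>
    simp only [acP_one, vecMul_one]
    exact .refl
  | @step P g h hg k ih =>
    rw [acP_mul] at k ⊢
    refine ih.trans ?_
    have e := (chain_gen hg h.cell k).lift (fun S => (S.1, fun e => S.2 e ᵥ* P))
      fun _ _ h => h.vecMul P
    simpa only [Function.onFun, vecMul_vecMul] using e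

end Pool.Agent.TW
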