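import Pool.Agent.Lib.MP_4eaecc_an.A1

/-! The map from the cell to the stratum. -/

namespace Pool.Agent.TW

open Matrix MeasureTheory Filter Topology
open scoped ENNReal NNReal symmDiff

instance : BorelSpace H2 := ⟨rfl⟩

theorem one_cell : ((![1, 1, 0, 0], ![0, 0, 1, 1]) : Pt) ∈ Cell := by
  intro i
  fin_cases i <;> simp [ar, dt, vec, sp, sq]

open Classical in
noncomputable def pr (y : Pt) : H2 :=
  if h : y ∈ Cell then Quot.mk Move ⟨raw y, isTri_raw h⟩
  else Quot.mk Move ⟨raw (![1, 1, 0, 0], ![0, 0, 1, 1]), isTri_raw one_cell⟩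

theorem a2_pr {y : Pt} (h : y ∈ Cell) : pr y = Quot.mk Move ⟨raw y, isTri_raw h⟩ := by
  rw [pr, dif_pos h]

theorem a2_raw : Continuous raw := by
  have e : raw = fun y => (a1_n0, a1_o, fun h => hol y (al0 h)) :=
    funext fun y => congrArg Prod.fst (a1_raw0 y)
  rw [e]
  refine continuous_const.prodMk (continuous_const.prodMk (continuous_pi fun h => ?_))
  exact ((continuous_ev _).comp continuous_fst).prodMk ((continuous_ev _).comp continuous_snd)

theorem a2_mk : Continuous (Quot.mk Move : Tri → H2) := continuous_quot_mk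

theorem continuousOn_pr : ContinuousOn pr Cell := by
  rw [continuousOn_iff_continuous_domRestrict]
  have e : Cell.domRestrict pr = fun y : Cell => (Quot.mk Move ⟨raw y.1, isTri_raw y.2⟩ : H2) :=
    funext fun y => a2_pr y.2
  rw [e]
  exact a2_mk.comp ((a2_raw.comp continuous_subtype_val).subtype_mk _)

theorem measurable_pr : Measurable pr := by
  classical
  have e : pr = Cell.piecewise pr fun _ => pr (![1, 1, 0, 0], ![0, 0, 1, 1]) := by
    funext y
    by_cases h : y ∈ Cell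
    · rw [Set.piecewise_eq_of_mem _ _ _ h]
    · rw [Set.piecewise_eq_of_notMem _ _ _ h, a2_pr one_cell, pr, dif_neg h]
  rw [e]
  exact continuousOn_pr.measurable_piecewise continuousOn_const isOpen_cell.measurableSet

theorem a2_chain {S T : Raw × (Fin 18 → Z4)} (h : Relation.ReflTransGen LM S T) (hS : IsTri S.1) :
    ∀ hT : IsTri T.1, (Quot.mk Move ⟨S.1, hS⟩ : H2) = Quot.mk Move ⟨T.1, hT⟩ := by
  induction h with
  | refl => exact fun _ => rfl
  | tail _ k ih =>
    intro hT
    refine (ih k.1).trans (Quot.sound ?_)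
    obtain ⟨-, -, ⟨e, k1, -⟩ | ⟨σ, k1, -⟩⟩ := k
    · exact .inl ⟨e, k1⟩
    · exact .inr ⟨σ, k1⟩

theorem pr_reach {y : Pt} {P : Mat} (h : Reach y P) : pr (acP P y) = pr y := by
  rw [a2_pr h.cell, a2_pr h.cell0]
  exact (a2_chain (chain h) _ _).symm

theorem sl_cell (g : SpecialLinearGroup (Fin 2) ℝ) (y : Pt) : sl g y ∈ Cell ↔ y ∈ Cell := by
  have h := g.det_coe
  rw [Matrix.det_fin_two] at h
  simp only [Cell, Set.mem_ofPred_eq, sl, ar_lin, h, one_mul]

theorem pr_sl (g : SpecialLinearGroup (Fin 2) ℝ) {y : Pt} (h : y ∈ Cell) :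
    pr (sl g y) = act g (pr y) := by
  rw [a2_pr ((sl_cell g y).2 h), a2_pr h]
  refine congrArg (Quot.mk Move) (Subtype.ext (Prod.ext rfl (Prod.ext rfl (funext fun e => ?_))))
  show (raw (sl g y)).2.2 e = mv g ((raw y).2.2 e)
  rw [raw_vec, raw_vec]
  simp only [hol, sl, lin, mv, ev_add, ev_smul]

theorem continuous_act (g : SpecialLinearGroup (Fin 2) ℝ) : Continuous (act g) := by
  have hm : Continuous (mv g) := by unfold mv; fun_prop
  have hv : Continuous (fun T : Tri => T.1) := continuous_subtype_val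
  have ht : Continuous (Tri.act g) :=
    Continuous.subtype_mk (hv.fst.prodMk (hv.snd.fst.prodMk
      (continuous_pi fun h => hm.comp ((continuous_apply h).comp hv.snd.snd)))) _
  exact continuous_quot_lift _ (a2_mk.comp ht)

theorem act_mul (g k : SpecialLinearGroup (Fin 2) ℝ) (x : H2) :
    act (g * k) x = act g (act k x) := by
  induction x using Quot.ind with
  | mk T =>
    refine congrArg (Quot.mk Move) (Subtype.ext (Prod.ext rfl (Prod.ext rfl (funext fun e => ?_))))
    show mv (g * k) (T.1.2.2 e) = mv g (mv k (T.1.2.2 e))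
    ext <;> simp [mv, Matrix.mul_apply, Fin.sum_univ_two] <;> ring

theorem act_one (x : H2) : act 1 x = x := by
  induction x using Quot.ind with
  | mk T =>
    refine congrArg (Quot.mk Move) (Subtype.ext (Prod.ext rfl (Prod.ext rfl (funext fun e => ?_))))
    show mv 1 (T.1.2.2 e) = T.1.2.2 e
    ext <;> simp [mv]

theorem sl_geo (t : ℝ) (y : Pt) : sl (geo t) y = gt t y := by
  rw [gt_eq]
  rfl

theorem exists_par {a b h₁ h₂ : ℝ} (ha : 0 < a) (hb : 0 < b) (k₁ : 0 < h₁) (k₂ : 0 < h₂)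
    (hq : ∃ q : ℚ, a = q * b) : ∃ w : Par, w.a = a ∧ w.b = b ∧ w.h1 = h₁ ∧ w.h2 = h₂ := by
  obtain ⟨q, rfl⟩ := hq
  have q0 : (0 : ℝ) < q := (mul_pos_iff_of_pos_right hb).1 ha
  have q1 : 0 < q.num := Rat.num_pos.2 (by exact_mod_cast q0)
  have d0 : (0 : ℝ) < q.den := by exact_mod_cast q.den_pos
  have e : ((q.num.natAbs : ℕ) : ℝ) = (q.num : ℝ) := by
    rw [← Int.cast_natCast, Int.natAbs_of_nonneg q1.le]
  refine ⟨⟨q * b, b, h₁, h₂, b / q.den, q.num.natAbs, q.den, div_pos hb d0,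
    Int.natAbs_pos.2 q1.ne', q.den_pos, k₁, k₂, ?_, ?_, q.reduced⟩, rfl, rfl, rfl, rfl⟩
  · rw [e, Rat.cast_def]
    ring
  · field_simp

theorem pr_om (w : Par) (ha : 0 < w.a) (hb : 0 < w.b) (x : ℝ × ℝ) :
    pr (w.om x) = surf ha hb w.h10 w.h20 x.1 x.2 := by
  have h : w.om x ∈ Cell := by
    intro i
    have := mul_pos ha w.h10
    have := mul_pos hb w.h10
    have := mul_pos ha w.h20
    fin_cases i <;> simpa [ar, dt, vec, sp, sq, Par.om, Par.eta]
  rw [a2_pr h]
  rfl

end Pool.Agent.TW
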