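import Pool.Agent.Lib.MP_4eaecc_an.M6
import Pool.Agent.Lib.MP_4eaecc_an.A2

/-! The theorem in the coordinates of the cell. -/

namespace Pool.Agent.TW

open Matrix MeasureTheory Filter Topology
open scoped ENNReal NNReal symmDiff

/-- The limit measure: normalise the mass and the area. -/
noncomputable def mu (A : ℝ) : Measure Pt := ((mu1 A Set.univ)⁻¹ • mu1 A).map (nrm A)

theorem m7_cont : Continuous area := by
  unfold area Om
  fun_prop

theorem m7_pos {y : Pt} (h : y ∈ Cell) : 0 < area y := by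
  rw [area_eq]; exact add_pos (add_pos (h 0) (h 1)) (h 2)

theorem m7_c {A : ℝ} (hA : 0 < A) {y : Pt} (h : y ∈ Cell) : 0 < √(A / area y) :=
  Real.sqrt_pos.mpr (div_pos hA (m7_pos h))

theorem m7_reach {y : Pt} {P : Mat} (h : Reach y P) {c : ℝ} (hc : 0 < c) : Reach (c • y) P :=
  smul_eq_lin c y ▸ h.lin (by simpa using hc.ne')

theorem m7_cell {c : ℝ} (hc : 0 < c) (y : Pt) : c • y ∈ Cell ↔ y ∈ Cell :=
  ⟨fun h => inv_smul_smul₀ hc.ne' y ▸ (m7_reach (Reach.refl h) (inv_pos.mpr hc)).cell0,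
    fun h => (m7_reach (Reach.refl h) hc).cell0⟩

theorem m7_ncell {A : ℝ} (hA : 0 < A) {y : Pt} (h : y ∈ Cell) : nrm A y ∈ Cell :=
  (m7_cell (m7_c hA h) y).mpr h

theorem m7_smul (A : ℝ) {c : ℝ} (hc : 0 < c) (y : Pt) : nrm A (c • y) = nrm A y := by
  have e : area (c • y) = area y * (c * c) := by rw [smul_eq_lin, area_lin]; ring
  rw [nrm, nrm, e, smul_smul, ← div_div, Real.sqrt_div' _ (mul_self_nonneg c),
    Real.sqrt_mul_self hc.le, div_mul_cancel₀ _ hc.ne']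

theorem m7_acP (A : ℝ) {y : Pt} {P : Mat} (h : Reach y P) : nrm A (acP P y) = acP P (nrm A y) := by
  rw [nrm, nrm, h.area, smul_eq_lin, smul_eq_lin, acP_lin]

theorem m7_det (g : SpecialLinearGroup (Fin 2) ℝ) : g 0 0 * g 1 1 - g 0 1 * g 1 0 = 1 := by
  have h := g.det_coe
  rwa [Matrix.det_fin_two] at h

theorem m7_area (g : SpecialLinearGroup (Fin 2) ℝ) (y : Pt) : area (sl g y) = area y := by
  rw [sl, area_lin, m7_det, one_mul]

theorem m7_sl (A : ℝ) (g : SpecialLinearGroup (Fin 2) ℝ) (y : Pt) :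
    nrm A (sl g y) = sl g (nrm A y) := by
  rw [nrm, nrm, m7_area]
  simp only [sl, lin, Prod.smul_mk, Prod.smul_fst, Prod.smul_snd, smul_add, smul_comm (√_)]

theorem m7_om (w : Par) (g : SpecialLinearGroup (Fin 2) ℝ) (x : ℝ × ℝ) :
    nrm w.A (sl g (w.om x)) = sl g (w.om x) := by
  rw [nrm, m7_area, w.om_area, div_self w.A_pos.ne', Real.sqrt_one, one_smul]

theorem m7_con (A : ℝ) : ContinuousOn (nrm A) Cell :=
  ((continuousOn_const.div m7_cont.continuousOn fun _ h => (m7_pos h).ne').sqrt).smul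
    continuousOn_id

theorem measurable_nrm (A : ℝ) : Measurable (nrm A) := by
  have := m7_cont.measurable
  unfold nrm
  fun_prop

theorem nrm_pre {A : ℝ} (hA : 0 < A) {Y : Set Pt} (r : RInv Y) :
    RInv (Cell ∩ nrm A ⁻¹' Y) ∧ Rad (Cell ∩ nrm A ⁻¹' Y) := by
  refine ⟨fun y P h => ?_, fun c y hc => ?_⟩
  · simp only [Set.mem_inter_iff, Set.mem_preimage, h.cell, h.cell0, true_and, m7_acP A h]
    exact r _ _ (m7_reach h (m7_c hA h.cell0))
  · simp only [Set.mem_inter_iff, Set.mem_preimage, m7_cell hc, m7_smul A hc]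

theorem m7_meas (A : ℝ) {Y : Set Pt} (hY : MeasurableSet Y) : MeasurableSet (Cell ∩ nrm A ⁻¹' Y) :=
  isOpen_cell.measurableSet.inter (measurable_nrm A hY)

theorem m7_mu (A : ℝ) {Y : Set Pt} (hY : MeasurableSet Y) :
    mu A Y = (mu1 A Set.univ)⁻¹ * mu1 A (Cell ∩ nrm A ⁻¹' Y) := by
  rw [mu, Measure.map_apply (measurable_nrm A) hY, Measure.smul_apply, smul_eq_mul,
    Set.inter_comm, measure_inter_conull (mu1_cell A)]

theorem m7_zero {A : ℝ} (hA : 0 < A) {Y : Set Pt} (hY : MeasurableSet Y) (h : mu A Y = 0) :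
    mu1 A (Cell ∩ nrm A ⁻¹' Y) = 0 := by
  have := mu1_finite hA
  rw [m7_mu A hY] at h
  exact (mul_eq_zero.mp h).resolve_left (ENNReal.inv_ne_zero.mpr (measure_ne_top _ _))

theorem mu_prob {A : ℝ} (hA : 0 < A) : IsProbabilityMeasure (mu A) := by
  have := mu1_finite hA
  refine ⟨?_⟩
  rw [mu, Measure.map_apply (measurable_nrm A) MeasurableSet.univ, Set.preimage_univ,
    Measure.smul_apply, smul_eq_mul, ENNReal.inv_mul_cancel (mu1_ne hA) (measure_ne_top _ _)]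

theorem mu_cell {A : ℝ} (hA : 0 < A) : mu A Cellᶜ = 0 := by
  rw [m7_mu A isOpen_cell.measurableSet.compl,
    Set.eq_empty_of_forall_notMem (s := Cell ∩ nrm A ⁻¹' Cellᶜ) fun y h => h.2 (m7_ncell hA h.1),
    measure_empty, mul_zero]

theorem mu_inv {A : ℝ} (hA : 0 < A) (g : SpecialLinearGroup (Fin 2) ℝ) {Y : Set Pt}
    (hY : MeasurableSet Y) (r : RInv Y) : mu A (sl g ⁻¹' Y) = mu A Y := by
  have e : Cell ∩ nrm A ⁻¹' (sl g ⁻¹' Y) = sl g ⁻¹' (Cell ∩ nrm A ⁻¹' Y) := by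
    ext y
    simp only [Set.mem_inter_iff, Set.mem_preimage, sl_cell, m7_sl]
  rw [m7_mu A hY, m7_mu A (Y := sl g ⁻¹' Y) ((m1_cont _ _ _ _).measurable hY), e]
  exact congrArg _ (mu1_lin hA (m7_meas A hY) (nrm_pre hA r).1 (m7_det g))

theorem mu_erg {A : ℝ} (hA : 0 < A) {Y : Set Pt} (hY : MeasurableSet Y) (r : RInv Y)
    (h : ∀ g : SpecialLinearGroup (Fin 2) ℝ, ∀ y ∈ Cell, (sl g y ∈ Y ↔ y ∈ Y)) :
    mu A Y = 0 ∨ mu A Y = 1 := by
  have := mu1_finite hA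
  rw [m7_mu A hY]
  refine (erg_gt hA (m7_meas A hY) (nrm_pre hA r).1 (nrm_pre hA r).2 fun t => ?_).imp
    (fun k => by rw [k, mul_zero]) fun k => ?_
  · have e : gt t ⁻¹' (Cell ∩ nrm A ⁻¹' Y) = Cell ∩ nrm A ⁻¹' Y := by
      ext y
      simp only [Set.mem_inter_iff, Set.mem_preimage, ← sl_geo, sl_cell, m7_sl]
      exact and_congr_right fun hy => h _ _ (m7_ncell hA hy)
    rw [e, symmDiff_self]
    exact measure_empty
  · rw [← Set.univ_inter (Cell ∩ _), measure_inter_conull k,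
      ENNReal.inv_mul_cancel (mu1_ne hA) (measure_ne_top _ _)]

/-- After a shift of the twists the point is in the closure of `Dt .L`. -/
theorem mu_pos (w : Par) {O : Set Pt} (hO : IsOpen O) (r : RInv O)
    (g : SpecialLinearGroup (Fin 2) ℝ) (x : ℝ × ℝ) (h : sl g (w.om x) ∈ O) : mu w.A O ≠ 0 := by
  have hA := w.A_pos
  have hO' : IsOpen (sl g ⁻¹' O) := hO.preimage (m1_cont _ _ _ _)
  have r' : RInv (sl g ⁻¹' O) := fun y P k => by
    rw [Set.mem_preimage, Set.mem_preimage, sl, sl, ← acP_lin]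
    exact r _ _ (k.lin (by rw [m7_det]; exact one_pos))
  rw [← mu_inv hA g hO.measurableSet r]
  replace h : w.om x ∈ sl g ⁻¹' O := h
  generalize sl g ⁻¹' O = U at hO' r' h
  have ha : 0 < w.a := w.ap ▸ mul_pos (Nat.cast_pos.mpr w.p0) w.c0
  have hb : 0 < w.b := w.bq ▸ mul_pos (Nat.cast_pos.mpr w.q0) w.c0
  have sh : ∀ n : ℕ, w.om (x.1 - n * (w.a + w.b), x.2 - n * w.a) ∈ U := fun n => by
    induction n with
    | zero => simpa using h
    | succ n ih =>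
      rw [r' _ _ (w.om_S _).1, (w.om_S _).2, r' _ _ (w.om_T _).1, (w.om_T _).2]
      refine (congrArg (fun z => w.om z ∈ U) ?_).mp ih
      ext <;> simp <;> ring
  obtain ⟨n, hn⟩ := exists_nat_gt (max x.1 x.2 / w.a)
  rw [div_lt_iff₀ ha, max_lt_iff] at hn
  have hn0 : 0 ≤ (n : ℝ) * w.b := by positivity
  obtain ⟨z, hz, z1, z2⟩ : ∃ z : ℝ × ℝ, w.om z ∈ U ∧ z.1 < 0 ∧ z.2 < 0 :=
    ⟨_, sh n, by simp only; linarith, by simp only; linarith⟩
  have hN : IsOpen (Cell ∩ nrm w.A ⁻¹' U) := (m7_con _).isOpen_inter_preimage isOpen_cell hO'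
  have m0 : w.om z ∈ Cell ∩ nrm w.A ⁻¹' U := ⟨w.om_cell z, by
    rwa [Set.mem_preimage, nrm, w.om_area, div_self hA.ne', Real.sqrt_one, one_smul]⟩
  have t0 : Tendsto (fun s : ℝ => ls s (w.om z)) (𝓝[>] 0) (𝓝 (w.om z)) :=
    (Continuous.tendsto' (by unfold ls; fun_prop) 0 _ (by simp [ls])).mono_left nhdsWithin_le_nhds
  have t1 : ∀ {u v : ℝ}, 0 < u → ∀ᶠ s : ℝ in 𝓝[>] 0, 0 < u + s * v := fun {u v} hu =>
    ((Continuous.tendsto' (f := fun s : ℝ => u + s * v) (by fun_prop) 0 u (by simp)).mono_left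
      nhdsWithin_le_nhds).eventually (lt_mem_nhds hu)
  obtain ⟨s, ⟨⟨s0, s1⟩, s2⟩, s3⟩ := (((t0.eventually (hN.mem_nhds m0)).and
    (t1 (v := z.1) w.h10)).and (t1 (v := z.2) w.h20)).and self_mem_nhdsWithin |>.exists
  replace s3 : 0 < s := s3
  intro k
  refine (hN.inter (isOpen_Dt .L)).measure_ne_zero volume ⟨_, s0, fun b i => ?_, fun b i => ?_⟩
    ((mu1_null hA hN.measurableSet (nrm_pre hA r').1 (nrm_pre hA r').2).mp
      (m7_zero hA hO'.measurableSet k) .L)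
  · cases b <;> fin_cases i <;> simp [wd, eR, eL, ev_four, ls, Par.om, *]
  · cases b <;> fin_cases i <;> simp [ed, eR, eL, ev_four, ls, Par.om, Par.eta, *]

theorem mu_full (w : Par) {Z : Set Pt} (hZ : MeasurableSet Z) (c : ClosedIn Z) (r : RInv Z)
    (h : ∀ g : SpecialLinearGroup (Fin 2) ℝ, ∀ y ∈ Cell, (sl g y ∈ Z ↔ y ∈ Z))
    (k : ∀ x, w.om x ∈ Z) : mu w.A Z = 1 := by
  have hA := w.A_pos
  refine (mu_erg hA hZ r h).resolve_left fun h0 => ?_
  have v0 : 0 < volume (Metric.closedBall (0 : ℝ × ℝ) 1) * volume (Set.Icc 0 (Real.log 2)) :=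
    ENNReal.mul_pos (Metric.measure_closedBall_pos _ _ one_pos).ne' (by
      simpa using Real.log_pos one_lt_two)
  obtain ⟨ε, -, e1, e2⟩ := ENNReal.lt_iff_exists_real_btwn.mp v0
  obtain ⟨C, hC⟩ := thkX w 1 (ENNReal.ofReal_pos.mp e1)
  have cl : ClosedIn (Cell ∩ nrm w.A ⁻¹' Z) := fun K hK hc => by
    have e : Cell ∩ nrm w.A ⁻¹' Z ∩ K = K ∩ nrm w.A ⁻¹' (Z ∩ nrm w.A '' K) := by
      ext y
      exact ⟨fun p => ⟨p.2, p.1.2, y, p.2, rfl⟩, fun p => ⟨⟨hc p.1, p.2.1⟩, p.1⟩⟩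
    rw [e]
    refine ((m7_con _).mono hc).preimage_isClosed_of_isClosed hK.isClosed
      (c _ (hK.image_of_continuousOn ((m7_con _).mono hc)) ?_)
    rintro _ ⟨y, hy, rfl⟩
    exact m7_ncell hA (hc hy)
  obtain ⟨t, ht⟩ := (hC _ (m7_meas _ hZ) cl (nrm_pre hA r).1 (nrm_pre hA r).2).exists
  have e : ∀ τ, {x : ℝ × ℝ | ‖x‖ ≤ 1 ∧ gt (t + τ) (w.om x) ∈ Cell ∩ nrm w.A ⁻¹' Z} =
      Metric.closedBall 0 1 := fun τ => by
    ext x
    simp only [Set.mem_ofPred_eq, Set.mem_inter_iff, Set.mem_preimage, ← sl_geo, sl_cell, m7_om,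
      w.om_cell, h _ _ (w.om_cell x), k, and_true, mem_closedBall_zero_iff]
  simp only [e, m7_zero hA hZ h0, mul_zero, zero_add, setLIntegral_const] at ht
  exact absurd ht e2.not_ge

theorem m7_approx {G : ℝ → ℝ × ℝ → ℝ} (hG : ∀ t, Measurable (G t)) {M c : ℝ}
    (hM : ∀ t x, |G t x| ≤ M) (h : ∀ σ : ℝ × ℝ → ℝ, Continuous σ → HasCompactSupport σ →
      Tendsto (fun t => ∫ x, G t x * σ x) atTop (𝓝 ((∫ x, σ x) * c)))
    {ρ : ℝ × ℝ → ℝ} (hρ : Integrable ρ) :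
    Tendsto (fun t => ∫ x, G t x * ρ x) atTop (𝓝 ((∫ x, ρ x) * c)) := by
  have M0 : 0 ≤ M := (abs_nonneg _).trans (hM 0 0)
  refine Metric.tendsto_nhds.mpr fun ε hε => ?_
  obtain ⟨σ, h1, h2, h3, h4⟩ := hρ.exists_hasCompactSupport_integral_sub_le
    (ε := ε / 2 / (M + |c| + 1)) (by positivity)
  filter_upwards [Metric.tendsto_nhds.mp (h σ h3 h1) _ (half_pos hε)] with t ht
  have i : ∀ {f : ℝ × ℝ → ℝ}, Integrable f → Integrable fun x => G t x * f x := fun hf =>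
    hf.bdd_mul (hG t).aestronglyMeasurable (Eventually.of_forall (hM t))
  have k1 : ‖(∫ x, G t x * ρ x) - ∫ x, G t x * σ x‖ ≤ M * ∫ x, ‖ρ x - σ x‖ := by
    rw [← integral_sub (i hρ) (i h4), ← integral_const_mul]
    refine norm_integral_le_of_norm_le ((hρ.sub h4).norm.const_mul M)
      (Eventually.of_forall fun x => ?_)
    rw [← mul_sub, norm_mul]
    exact mul_le_mul_of_nonneg_right (hM t x) (norm_nonneg _)
  have k2 : ‖(∫ x, σ x) * c - (∫ x, ρ x) * c‖ ≤ |c| * ∫ x, ‖ρ x - σ x‖ := by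
    rw [← sub_mul, norm_mul, mul_comm, norm_sub_rev, ← integral_sub hρ h4]
    exact mul_le_mul_of_nonneg_left (norm_integral_le_integral_norm _) (norm_nonneg _)
  have k3 := dist_triangle4 (∫ x, G t x * ρ x) (∫ x, G t x * σ x) ((∫ x, σ x) * c)
    ((∫ x, ρ x) * c)
  have k4 : 0 ≤ ∫ x, ‖ρ x - σ x‖ := integral_nonneg fun x => norm_nonneg _
  rw [le_div_iff₀ (by positivity)] at h2
  rw [← dist_eq_norm] at k1 k2
  linarith

theorem mu_equi (w : Par) {F : Pt → ℝ} (hF : Measurable F) (c : ContinuousOn F Cell) {M : ℝ}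
    (hM : ∀ y, |F y| ≤ M) (r : RInvF F) {ρ : ℝ × ℝ → ℝ} (hρ : Integrable ρ) :
    Tendsto (fun t => ∫ x, F (gt t (w.om x)) * ρ x) atTop
      (𝓝 ((∫ x, ρ x) * ∫ y, F y ∂mu w.A)) := by
  have hA := w.A_pos
  have := mu1_finite hA
  have hom : Continuous w.om := by unfold Par.om; fun_prop
  have e : ∫ y, F y ∂mu w.A = (∫ y, F (nrm w.A y) ∂mu1 w.A) / (mu1 w.A).real Set.univ := by
    rw [mu, integral_map (measurable_nrm _).aemeasurable hF.aestronglyMeasurable,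
      integral_smul_measure, ENNReal.toReal_inv, smul_eq_mul, div_eq_inv_mul, measureReal_def]
  refine m7_approx (G := fun t x => F (gt t (w.om x))) (fun t => hF.comp ?_) (fun t x => hM _)
    (fun σ h1 h2 => ?_) hρ
  · rw [funext (gt_eq t)]
    exact ((m1_cont _ _ _ _).comp hom).measurable
  · have k := equi_cc w (F := fun y => F (nrm w.A y)) (hF.comp (measurable_nrm _))
      (c.comp (m7_con _) fun y hy => m7_ncell hA hy) (fun y => hM _)
      (fun y P h => (congrArg F (m7_acP _ h)).trans (r _ _ (m7_reach h (m7_c hA h.cell0))))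
      (fun c y hc => by rw [m7_smul _ hc]) h1 h2
    simpa only [e, ← sl_geo, m7_om] using k

end Pool.Agent.TW
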