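import Pool.Agent.Lib.MP_4eaecc_an.A2
import Pool.Agent.Lib.MP_4eaecc_an.M7

/-! The theorem. -/

namespace Pool.Agent.TW

open Matrix MeasureTheory Filter Topology
open scoped ENNReal NNReal symmDiff

theorem rinv_pr (B : Set H2) : RInv (Cell ∩ pr ⁻¹' B) := fun y P h => by
  simp only [Set.mem_inter_iff, Set.mem_preimage, pr_reach h, h.cell, h.cell0]

theorem meas_pr {B : Set H2} (hB : MeasurableSet B) : MeasurableSet (Cell ∩ pr ⁻¹' B) :=
  isOpen_cell.measurableSet.inter (measurable_pr hB)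

theorem map_pr {A : ℝ} (hA : 0 < A) {B : Set H2} (hB : MeasurableSet B) :
    (mu A).map pr B = mu A (Cell ∩ pr ⁻¹' B) := by
  rw [Measure.map_apply measurable_pr hB]
  refine (measure_congr ?_).symm
  have h : ∀ᵐ y ∂mu A, y ∈ Cell := mu_cell hA
  filter_upwards [h] with y hy
  exact propext ⟨fun k => k.2, fun k => ⟨hy, k⟩⟩

theorem pre_act (g : SpecialLinearGroup (Fin 2) ℝ) (B : Set H2) :
    Cell ∩ pr ⁻¹' (act g ⁻¹' B) = sl g ⁻¹' (Cell ∩ pr ⁻¹' B) := by
  ext y
  simp only [Set.mem_inter_iff, Set.mem_preimage, sl_cell]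
  exact and_congr_right fun hy => by rw [pr_sl g hy]

theorem aff_change (t : ℝ × ℝ) {h k : ℝ} (hh : 0 < h) (hk : 0 < k) :
    (∀ ρ : ℝ × ℝ → ℝ, Integrable ρ →
      Integrable fun x : ℝ × ℝ => ρ ((x.1 - t.1) / h, (x.2 - t.2) / k) / (h * k)) ∧
    ∀ G ρ : ℝ × ℝ → ℝ, ∫ s : ℝ × ℝ, G (t.1 + s.1 * h, t.2 + s.2 * k) * ρ s =
      ∫ x : ℝ × ℝ, G x * (ρ ((x.1 - t.1) / h, (x.2 - t.2) / k) / (h * k)) := by
  have one : ∀ (u c : ℝ), 0 < c → MeasurePreserving (fun x : ℝ => (x - u) / c) volume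
      (ENNReal.ofReal c • volume) := fun u c hc => by
    have a1 : MeasurePreserving (fun x : ℝ => x * c⁻¹) volume (ENNReal.ofReal c • volume) :=
      ⟨measurable_mul_const _, by
        rw [Real.map_volume_mul_right (inv_ne_zero hc.ne'), inv_inv, abs_of_pos hc]⟩
    have := a1.comp (measurePreserving_sub_right volume u)
    simpa [Function.comp_def, div_eq_mul_inv] using this
  let e : ℝ × ℝ ≃ᵐ ℝ × ℝ :=
    { toFun := fun x => ((x.1 - t.1) / h, (x.2 - t.2) / k)
      invFun := fun s => (t.1 + s.1 * h, t.2 + s.2 * k)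
      left_inv := fun x => by ext <;> simp <;> field_simp <;> ring
      right_inv := fun s => by ext <;> simp <;> field_simp
      measurable_toFun := by simp only [Equiv.coe_fn_mk]; fun_prop
      measurable_invFun := by simp only [Equiv.coe_fn_symm_mk]; fun_prop }
  have mp : MeasurePreserving e volume (ENNReal.ofReal (h * k) • volume) := by
    have := (one t.1 h hh).prod (one t.2 k hk)
    rw [Measure.prod_smul_left, Measure.prod_smul_right, smul_smul,
      ← ENNReal.ofReal_mul hh.le] at this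
    exact this
  refine ⟨fun ρ hρ => ?_, fun G ρ => ?_⟩
  · exact ((mp.integrable_comp_emb e.measurableEmbedding).2
      (hρ.smul_measure ENNReal.ofReal_ne_top)).div_const _
  · have := mp.integral_comp' fun s => G (t.1 + s.1 * h, t.2 + s.2 * k) * ρ s
    rw [integral_smul_measure, ENNReal.toReal_ofReal (mul_pos hh hk).le, smul_eq_mul] at this
    simp only [← mul_div_assoc]
    rw [integral_div, eq_div_iff (mul_pos hh hk).ne', mul_comm, ← this]
    refine integral_congr_ae (ae_of_all _ fun x => ?_)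
    have := e.left_inv x
    exact congrArg (fun u => G u * ρ (e x)) this

theorem main {a b h₁ h₂ : ℝ} (ha : 0 < a) (hb : 0 < b) (k₁ : 0 < h₁) (k₂ : 0 < h₂) (t₁ t₂ : ℝ)
    (hq : ∃ q : ℚ, a = q * b) :
    ∃ μ : Measure H2, IsProbabilityMeasure μ ∧ (∀ g, μ.map (act g) = μ) ∧
      (∀ Y, MeasurableSet Y → (∀ g, act g ⁻¹' Y = Y) → μ Y = 0 ∨ μ Y = 1) ∧
      μ.support = closure {x | ∃ (g : SpecialLinearGroup (Fin 2) ℝ) (s : ℝ × ℝ),
        x = act g (surf ha hb k₁ k₂ (t₁ + s.1 * h₁) (t₂ + s.2 * h₂))} ∧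
      ∀ ρ : ℝ × ℝ → ℝ, Integrable ρ → (∀ s, 0 ≤ ρ s) → ∫ s, ρ s = 1 →
        ∀ f : H2 → ℝ, Continuous f → (∃ M, ∀ x, |f x| ≤ M) →
          Tendsto (fun t => ∫ s : ℝ × ℝ,
            f (act (geo t) (surf ha hb k₁ k₂ (t₁ + s.1 * h₁) (t₂ + s.2 * h₂))) * ρ s)
            atTop (𝓝 (∫ x, f x ∂μ)) := by
  obtain ⟨w, rfl, rfl, rfl, rfl⟩ := exists_par ha hb k₁ k₂ hq
  have hA := w.A_pos
  have := mu_prob hA
  have h1 := w.h10
  have h2 := w.h20
  set S : Set H2 := {x | ∃ (g : SpecialLinearGroup (Fin 2) ℝ) (s : ℝ × ℝ),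
    x = act g (surf ha hb k₁ k₂ (t₁ + s.1 * w.h1) (t₂ + s.2 * w.h2))} with hS
  have hom : ∀ s : ℝ × ℝ, surf ha hb k₁ k₂ (t₁ + s.1 * w.h1) (t₂ + s.2 * w.h2) =
      pr (w.om (t₁ + s.1 * w.h1, t₂ + s.2 * w.h2)) := fun s =>
    (pr_om w ha hb (t₁ + s.1 * w.h1, t₂ + s.2 * w.h2)).symm
  refine ⟨(mu w.A).map pr, Measure.isProbabilityMeasure_map measurable_pr.aemeasurable,
    fun g => ?_, fun Y hY h => ?_, ?_, fun ρ hρ _ hi f hf ⟨M, hM⟩ => ?_⟩
  · ext B hB
    have hg := (continuous_act g).measurable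
    rw [Measure.map_apply hg hB, map_pr hA (hg hB), map_pr hA hB, pre_act,
      mu_inv hA g (meas_pr hB) (rinv_pr B)]
  · rw [map_pr hA hY]
    refine mu_erg hA (meas_pr hY) (rinv_pr Y) fun g y _ => ?_
    rw [← Set.mem_preimage, ← pre_act, h g]
  · have hinv : ∀ g, ∀ x ∈ closure S, act g x ∈ closure S := fun g x hx => by
      refine map_mem_closure (continuous_act g) hx ?_
      rintro _ ⟨k, s, rfl⟩
      exact ⟨g * k, s, (act_mul g k _).symm⟩
    have hZ : (mu w.A).map pr (closure S) = 1 := by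
      rw [map_pr hA isClosed_closure.measurableSet]
      refine mu_full w (meas_pr isClosed_closure.measurableSet) (fun K hK hc => ?_) (rinv_pr _)
        (fun g y hy => ?_) fun x => ⟨w.om_cell x, subset_closure ⟨1, ((x.1 - t₁) / w.h1,
          (x.2 - t₂) / w.h2), ?_⟩⟩
      · have e : Cell ∩ pr ⁻¹' closure S ∩ K = K ∩ pr ⁻¹' closure S := by
          ext y
          exact ⟨fun k => ⟨k.2, k.1.2⟩, fun k => ⟨⟨hc k.1, k.2⟩, k.1⟩⟩
        rw [e]
        exact (continuousOn_pr.mono hc).preimage_isClosed_of_isClosed hK.isClosed isClosed_closure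
      · simp only [Set.mem_inter_iff, Set.mem_preimage, sl_cell, hy, true_and, pr_sl g hy]
        refine ⟨fun k => ?_, hinv g _⟩
        have := hinv g⁻¹ _ k
        rwa [← act_mul, inv_mul_cancel, act_one] at this
      · rw [act_one, hom]
        congr 2
        ext <;> simp <;> field_simp <;> ring
    refine Set.Subset.antisymm (fun x hx => ?_) (closure_minimal ?_ Measure.isClosed_support)
    · by_contra hn
      have : IsProbabilityMeasure ((mu w.A).map pr) :=
        Measure.isProbabilityMeasure_map measurable_pr.aemeasurable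
      have h0 := (prob_compl_eq_zero_iff isClosed_closure.measurableSet).2 hZ
      have := (Measure.mem_support_iff_forall x).1 hx _
        (isClosed_closure.isOpen_compl.mem_nhds hn)
      exact this.ne' h0
    · rintro _ ⟨g, s, rfl⟩
      refine (Measure.mem_support_iff_forall _).2 fun U hU => ?_
      obtain ⟨O, hOU, hO, hx⟩ := mem_nhds_iff.1 hU
      refine lt_of_lt_of_le ?_ (measure_mono hOU)
      rw [map_pr hA hO.measurableSet, pos_iff_ne_zero]
      refine mu_pos w (continuousOn_pr.isOpen_inter_preimage isOpen_cell hO) (rinv_pr O) g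
        (t₁ + s.1 * w.h1, t₂ + s.2 * w.h2) ⟨(sl_cell g _).2 (w.om_cell _), ?_⟩
      rw [Set.mem_preimage, pr_sl g (w.om_cell _), ← hom]
      exact hx
  · rw [integral_map measurable_pr.aemeasurable hf.measurable.aestronglyMeasurable]
    obtain ⟨i1, i2⟩ := aff_change (t₁, t₂) h1 h2
    have hρ' := i1 ρ hρ
    have key := mu_equi w (F := fun y => f (pr y)) (hf.measurable.comp measurable_pr)
      (hf.comp_continuousOn continuousOn_pr) (fun y => hM _) (fun y P h => by
        simp only [pr_reach h]) hρ'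
    have e1 := i2 (fun _ => 1) ρ
    simp only [one_mul, hi] at e1
    rw [← e1, one_mul] at key
    refine key.congr fun t => ?_
    rw [← i2 (fun x => f (pr (gt t (w.om x)))) ρ]
    refine integral_congr_ae (ae_of_all _ fun s => ?_)
    simp only [hom, ← pr_sl _ (w.om_cell _), sl_geo]

end Pool.Agent.TW
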