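import Pool.Agent.Lib.MP_4eaecc_an.St

/-! Working definitions for the twist torus theorem in `H(2)`. Index `0, 1, 2, 3` stands for the
sides `r1, r2, l1, l3` of the three parallelograms `(r1, l1)`, `(r2, l1)`, `(r1, l3)`. -/

namespace Pool.Agent.TW

open Matrix MeasureTheory Filter Topology
open scoped ENNReal

abbrev V := Fin 4 → ℝ
abbrev Z4 := Fin 4 → ℤ
abbrev Mat := Matrix (Fin 4) (Fin 4) ℤ
/-- A point: widths (real parts) and heights (imaginary parts) of the four sides. -/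
abbrev Pt := V × V

def ip (p q : ℝ × ℝ) : ℝ := p.1 * q.1 + p.2 * q.2

/-- The intersection form on cocycles. -/
def Om (a b : V) : ℝ := (a 0 + a 1) * b 2 - (b 0 + b 1) * a 2 + a 0 * b 3 - b 0 * a 3

/-- Value of the cocycle `a` on the class `e`. -/
def ev (e : Z4) (a : V) : ℝ := ∑ i, (e i : ℝ) * a i

/-- Change of basis: the rows of `P` are the new sides in terms of the old ones. -/
def ac (P : Mat) (a : V) : V := fun i => ev (P i) a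

def acP (P : Mat) (y : Pt) : Pt := (ac P y.1, ac P y.2)

def cs (v : Z4) : V := fun i => (v i : ℝ)

def hol (y : Pt) (e : Z4) : ℝ × ℝ := (ev e y.1, ev e y.2)

def vec (y : Pt) (i : Fin 4) : ℝ × ℝ := (y.1 i, y.2 i)

def area (y : Pt) : ℝ := Om y.1 y.2

def sp : Fin 3 → Fin 4 := ![0, 1, 0]
def sq : Fin 3 → Fin 4 := ![2, 2, 3]

/-- Area of parallelogram `i`. -/
def ar (y : Pt) (i : Fin 3) : ℝ := dt (vec y (sp i)) (vec y (sq i))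

def Cell : Set Pt := {y | ∀ i, 0 < ar y i}

def rho : Mat := !![0, 0, 1, 0; 0, 0, 0, 1; -1, 0, 0, 0; 0, -1, 0, 0]
def Tp : Mat := !![1, 0, 0, 0; 0, 1, 0, 0; 0, 0, 1, 0; 1, 0, 0, 1]
def Tm : Mat := !![1, 0, 0, 0; 0, 1, 0, 0; 0, 0, 1, 0; -1, 0, 0, 1]
def Sp : Mat := !![1, 0, 0, 0; 0, 1, 0, 0; 1, 1, 1, 0; 0, 0, 0, 1]
def Sm : Mat := !![1, 0, 0, 0; 0, 1, 0, 0; -1, -1, 1, 0; 0, 0, 0, 1]
/-- `r2 += l1`, `r2 -= l1`, `r1 += l1 + l3`, `r1 -= l1 + l3`: conjugates of the above by `rho`. -/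
def Tq : Mat := !![1, 0, 0, 0; 0, 1, 1, 0; 0, 0, 1, 0; 0, 0, 0, 1]
def Tr : Mat := !![1, 0, 0, 0; 0, 1, -1, 0; 0, 0, 1, 0; 0, 0, 0, 1]
def Sq : Mat := !![1, 0, 1, 1; 0, 1, 0, 0; 0, 0, 1, 0; 0, 0, 0, 1]
def Sr : Mat := !![1, 0, -1, -1; 0, 1, 0, 0; 0, 0, 1, 0; 0, 0, 0, 1]
/-- `Nb = Tp * rho * Sp * Tp`, `Nc = rho * Tm * rho * Sm * Tm * rho`. -/
def Nb : Mat := !![1, 1, 1, 0; 1, 0, 0, 1; -1, 0, 0, 0; 1, 0, 1, 0]
def Nc : Mat := !![0, 0, -1, 0; 1, 0, 1, 0; 1, 0, 1, 1; 0, 1, 1, 0]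

def IsGen (g : Mat) : Prop := g = rho ∨ g = Tp ∨ g = Tm ∨ g = Sp ∨ g = Sm

/-- `P` is a chain of moves that stays in the cell: `acP P y` is the same surface as `y`. -/
inductive Reach (y : Pt) : Mat → Prop
  | refl : y ∈ Cell → Reach y 1
  | step {P g : Mat} : Reach y P → IsGen g → acP (g * P) y ∈ Cell → Reach y (g * P)

def Jm : Mat := !![0, 0, 1, 1; 0, 0, 1, 0; -1, -1, 0, 0; -1, 0, 0, 0]
def Ji : Mat := !![0, 0, 0, -1; 0, 0, -1, 1; 0, 1, 0, 0; 1, -1, 0, 0]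
def Symp (P : Mat) : Prop := Pᵀ * Jm * P = Jm
/-- The inverse of a symplectic matrix. -/
def sinv (P : Mat) : Mat := Ji * Pᵀ * Jm

def lin (a b c d : ℝ) (y : Pt) : Pt := (a • y.1 + b • y.2, c • y.1 + d • y.2)
def sl (g : SpecialLinearGroup (Fin 2) ℝ) (y : Pt) : Pt := lin (g 0 0) (g 0 1) (g 1 0) (g 1 1) y
noncomputable def gt (t : ℝ) (y : Pt) : Pt := (Real.exp t • y.1, Real.exp (-t) • y.2)
def us (s : ℝ) (y : Pt) : Pt := (y.1 + s • y.2, y.2)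
def ls (s : ℝ) (y : Pt) : Pt := (y.1, y.2 + s • y.1)

def RInv (Y : Set Pt) : Prop := ∀ y P, Reach y P → (y ∈ Y ↔ acP P y ∈ Y)
def RInvF (F : Pt → ℝ) : Prop := ∀ y P, Reach y P → F (acP P y) = F y
/-- Invariance under positive scalars. -/
def Rad (Y : Set Pt) : Prop := ∀ (c : ℝ) (y : Pt), 0 < c → (y ∈ Y ↔ c • y ∈ Y)

/-! ### The quadrangulation algorithm -/

inductive Ty : Type
  | L | B | C
  deriving DecidableEq, Fintype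

def eR : Ty → Fin 3 → Z4
  | .L => ![![1, 0, 0, 0], ![0, 1, 0, 0], ![1, 0, 0, 0]]
  | .B => ![![1, 0, 0, 0], ![0, 1, 0, 0], ![1, 0, 0, 0]]
  | .C => ![![1, 0, 1, 0], ![0, 1, 0, 0], ![1, 0, 0, 1]]

def eL : Ty → Fin 3 → Z4
  | .L => ![![0, 0, 1, 0], ![0, 0, 1, 0], ![0, 0, 0, 1]]
  | .B => ![![1, 0, 1, 0], ![0, 1, 1, 0], ![0, 0, 0, 1]]
  | .C => ![![0, 0, 1, 0], ![0, 0, 1, 0], ![0, 0, 0, 1]]

def dg : Ty → Fin 3 → Z4
  | .L => ![![1, 0, 1, 0], ![0, 1, 1, 0], ![1, 0, 0, 1]]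
  | .B => ![![1, 1, 1, 0], ![1, 1, 1, 0], ![1, 0, 0, 1]]
  | .C => ![![1, 0, 1, 1], ![0, 1, 1, 0], ![1, 0, 1, 1]]

/-- Right (`true`) and left (`false`) edges. -/
def ed (τ : Ty) : Bool → Fin 3 → Z4
  | true => eR τ
  | false => eL τ

/-- Absolute width of an edge. -/
def wd (τ : Ty) (ξ : V) : Bool → Fin 3 → ℝ
  | true => fun i => ev (eR τ i) ξ
  | false => fun i => -ev (eL τ i) ξ

/-- Signs of the widths of the diagonals. -/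
noncomputable def sg (τ : Ty) (ξ : V) : Fin 3 → Bool := fun i => decide (0 < ev (dg τ i) ξ)

def stepS : Ty → (Fin 3 → Bool) → Ty × Mat
  | .L, σ => if σ 2 = false then (.L, Tp) else if σ 1 = true then (.L, Tq)
      else if σ 0 = false then (.B, 1) else (.C, 1)
  | .B, σ => if σ 2 = false then (.B, Tp) else if σ 0 = false then (.L, Sp) else (.B, Nb)
  | .C, σ => if σ 1 = true then (.C, Tq) else if σ 0 = true then (.L, Sq) else (.C, Nc)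

/-- The path of the algorithm depends on the widths only. -/
noncomputable def path (τ : Ty) (ξ : V) : ℕ → Ty × Mat
  | 0 => (τ, 1)
  | n + 1 =>
    let p := path τ ξ n
    let q := stepS p.1 (sg p.1 (ac p.2 ξ))
    (q.1, q.2 * p.2)

def WV (τ : Ty) (ξ : V) : Prop := ∀ b i, 0 < wd τ ξ b i
def WVc (τ : Ty) (ξ : V) : Prop := ∀ b i, 0 ≤ wd τ ξ b i
def HV (τ : Ty) (η : V) : Prop := ∀ i, 0 ≤ ev (eR τ i) η ∧ 0 < ev (eL τ i) η
def NZ (τ : Ty) (ξ : V) : Prop := ∀ i, ev (dg τ i) ξ ≠ 0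
def Gen (τ : Ty) (ξ : V) : Prop := ∀ n, NZ (path τ ξ n).1 (ac (path τ ξ n).2 ξ)
/-- The path is valid up to step `n`. -/
def PV (τ : Ty) (ξ : V) (n : ℕ) : Prop :=
  ∀ k ≤ n, WV (path τ ξ k).1 (ac (path τ ξ k).2 ξ) ∧ NZ (path τ ξ k).1 (ac (path τ ξ k).2 ξ)
/-- The open cone of type `τ` and sign pattern `σ`. -/
def Sg (τ : Ty) (σ : Fin 3 → Bool) (ξ : V) : Prop :=
  WV τ ξ ∧ ∀ i, if σ i then 0 < ev (dg τ i) ξ else ev (dg τ i) ξ < 0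
def Low (τ : Ty) (η : V) (H : ℝ) : Prop := ∀ b i, ev (ed τ b i) η ≤ H

/-- The last step at which all heights are at most `H`. -/
noncomputable def stage (τ : Ty) (y : Pt) (H : ℝ) : ℕ :=
  sInf {n | ¬ Low (path τ y.1 (n + 1)).1 (ac (path τ y.1 (n + 1)).2 y.2) H}

noncomputable def St (τ : Ty) (y : Pt) (t : ℝ) : Ty × Mat := path τ y.1 (stage τ y (Real.exp t))

/-- The renormalised point at time `t`. -/
noncomputable def nst (τ : Ty) (y : Pt) (t : ℝ) : Pt := gt t (acP (St τ y t).2 y)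

def Gw (δ : ℝ) (τ : Ty) (σ : Fin 3 → Bool) (ξ : V) : Prop :=
  (∀ b i, δ ≤ wd τ ξ b i ∧ wd τ ξ b i ≤ δ⁻¹) ∧
    ∀ i, if σ i then δ ≤ ev (dg τ i) ξ else ev (dg τ i) ξ ≤ -δ
def Gh (δ : ℝ) (τ : Ty) (η : V) : Prop := ∀ b i, δ ≤ ev (ed τ b i) η ∧ ev (ed τ b i) η ≤ δ⁻¹
def Good (δ : ℝ) (τ : Ty) (y : Pt) : Prop := (∃ σ, Gw δ τ σ y.1) ∧ Gh δ τ y.2

/-- A valid generic start below height `e^t`. -/
def Base (τ : Ty) (y : Pt) (t : ℝ) : Prop :=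
  WV τ y.1 ∧ HV τ y.2 ∧ Gen τ y.1 ∧ Low τ y.2 (Real.exp t)

def GoodAt (δ : ℝ) (τ : Ty) (y : Pt) (t : ℝ) : Prop :=
  Base τ y t ∧ Good δ (St τ y t).1 (nst τ y t)

def sumW (τ : Ty) (ξ : V) : ℝ := ∑ b, ∑ i, wd τ ξ b i

/-- All entries of `P` are at most `K`. -/
def Mb (P : Mat) (K : ℝ) : Prop := ∀ i j, |(P i j : ℝ)| ≤ K

/-- `(τ', M, σ)` is the end of a path from type `τ`, for every point of the cone. -/
def Act (τ τ' : Ty) (M : Mat) (σ : Fin 3 → Bool) : Prop :=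
  Symp M ∧ (∀ ζ, WVc τ' (ac M ζ) → WVc τ ζ) ∧
    ∀ ζ, Sg τ' σ (ac M ζ) → ∃ n, PV τ ζ n ∧ path τ ζ n = (τ', M)

/-- `m η ≤ a ≤ M η` on all edges. -/
def Bnd (τ : Ty) (η a : V) (m M : ℝ) : Prop :=
  ∀ b i, m * ev (ed τ b i) η ≤ ev (ed τ b i) a ∧ ev (ed τ b i) a ≤ M * ev (ed τ b i) η
def BndAt (τ : Ty) (y : Pt) (t : ℝ) (a : V) (m M : ℝ) : Prop :=
  Bnd (St τ y t).1 (ac (St τ y t).2 y.2) (ac (St τ y t).2 a) m M

/-! ### Closed forms -/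

/-- The constant gradient on parallelogram `i` with the values of `a` on the sides. -/
noncomputable def grad (y : Pt) (i : Fin 3) (a : V) : ℝ × ℝ :=
  ((a (sp i) * y.2 (sq i) - a (sq i) * y.2 (sp i)) / ar y i,
   (a (sq i) * y.1 (sp i) - a (sp i) * y.1 (sq i)) / ar y i)

abbrev Sf := Fin 18 × (ℝ × ℝ)

/-- The surface of `y` as a measure space, with its bounded closed forms `F` (gradient field and
class) and, for each reachable `P`, the three parallelograms `C P` of the picture `acP P y`. -/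
structure WC (y : Pt) where
  m : Measure Sf
  F : Submodule ℝ ((Sf → ℝ × ℝ) × V)
  C : Mat → Sf → Fin 3
  fin : IsFiniteMeasure m
  bdd : ∀ p ∈ F, MemLp p.1 ⊤ m
  Q : ∀ p ∈ F, ∀ q ∈ F, ∫ x, dt (p.1 x) (q.1 x) ∂m = Om p.2 q.2
  Cm : ∀ P, Measurable (C P)
  Ca : ∀ P, Reach y P → ∀ i, m.real {x | C P x = i} = ar (acP P y) i
  whit : ∀ P, Reach y P → ∀ a : V, ((fun x => grad (acP P y) (C P x) (ac P a)), a) ∈ F
  L1 : ∀ P, Reach y P → ∀ p ∈ F, ∀ (i : Fin 3) (e : Z4), (e = eR .L i ∨ e = eL .L i ∨ e = dg .L i) →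
    ∀ K : ℝ, (∀ᵐ x ∂m, C P x = i → |ip (p.1 x) (hol (acP P y) e)| ≤ K) → |ev e (ac P p.2)| ≤ K
  L2 : ∀ P, Reach y P → ∀ p ∈ F, (∀ᵐ x ∂m, C P x = 2 → ip (p.1 x) (vec (acP P y) 0) = 0) →
    ac P p.2 3 * ar (acP P y) 2 = ∫ x in {x | C P x = 2}, ip (p.1 x) (vec (acP P y) 3) ∂m

/-- Square norm of a covector in the frame `g_t u_s`. -/
noncomputable def en (t s : ℝ) (G : ℝ × ℝ) : ℝ :=
  Real.exp (-2 * t) * G.1 ^ 2 + Real.exp (2 * t) * (G.2 - s * G.1) ^ 2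

/-- Classes of cores, crossings and sums of two cores, with all pieces of length at most `L`. -/
def Ecl (y : Pt) (L : ℝ) : Set Z4 :=
  {e | ∃ P, Reach y P ∧ ‖hol y (P 0)‖ ≤ L ∧ (e = P 0 ∨ (e = P 3 ∧ ‖hol y e‖ ≤ L) ∨
    (e = P 0 + P 2 ∧ ‖hol y (P 2)‖ ≤ L))}

/-! ### The family of the theorem -/

structure Par where
  a : ℝ
  b : ℝ
  h1 : ℝ
  h2 : ℝ
  c : ℝ
  p : ℕ
  q : ℕ
  c0 : 0 < c
  p0 : 0 < p
  q0 : 0 < q
  h10 : 0 < h1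
  h20 : 0 < h2
  ap : a = p * c
  bq : b = q * c
  cop : Nat.Coprime p q

def Par.E (w : Par) (z : Fin 3 → ℝ) : V := ![w.a * z 0, w.b * z 0, z 1, z 2]
def Par.eta (w : Par) : V := ![0, 0, w.h1, w.h2]
def Par.v0 (w : Par) : Z4 := ![0, 0, w.p, -(w.p + w.q : ℤ)]
def Par.y (w : Par) (z : Fin 3 → ℝ) : Pt := (w.E z, w.eta)
def Par.om (w : Par) (x : ℝ × ℝ) : Pt := (![w.a, w.b, x.1, x.2], w.eta)
def Par.A (w : Par) : ℝ := (w.a + w.b) * w.h1 + w.a * w.h2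
def ZR (R : ℝ) : Set (Fin 3 → ℝ) := {z | ‖z‖ ≤ R ∧ 1 ≤ z 0 ∧ z 0 ≤ 2}
/-- The integral class at time `t`. -/
noncomputable def Par.v (w : Par) (z : Fin 3 → ℝ) (t : ℝ) : Z4 := (St .L (w.y z) t).2 *ᵥ w.v0
noncomputable def Par.lev (w : Par) (z : Fin 3 → ℝ) (t : ℝ) : ℝ := ‖cs (w.v z t)‖

/-- Every integral vector not parallel to `v` has a two by two minor with `v` of size at least
`X`. -/
def Vbig (v : Z4) (X : ℝ) : Prop :=
  ∀ a : Z4, (∃ i l, v i * a l ≠ v l * a i) → ∃ i l, X ≤ |((v i * a l - v l * a i : ℤ) : ℝ)|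

noncomputable def ker (ρ s : ℝ) : ℝ := Real.exp (-s ^ 2 / (2 * ρ ^ 2)) / ρ

/-! ### The invariant measure -/

noncomputable def Sm' (F : Pt → ℝ≥0∞) (x : Pt) : ℝ≥0∞ :=
  ∑' P : Mat, {x | Reach x P}.indicator (fun x => F (acP P x)) x
noncomputable def ph (y : Pt) : ℝ≥0∞ := ENNReal.ofReal (Real.exp (-‖y‖))
noncomputable def wt (y : Pt) : ℝ≥0∞ := ph y / Sm' ph y
noncomputable def nu : Measure Pt := (volume.restrict Cell).withDensity wt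
def HP (τ : Ty) (η : V) : Prop := ∀ b i, 0 < ev (ed τ b i) η
def Dt (τ : Ty) : Set Pt := {y | WV τ y.1 ∧ HP τ y.2}
def S1 : Set Pt := {y | ∃ P τ, Reach y P ∧ acP P y ∈ Dt τ}
def Sh (A : ℝ) : Set Pt := {y | A ≤ area y ∧ area y ≤ 2 * A}
noncomputable def mu1 (A : ℝ) : Measure Pt := nu.restrict (S1 ∩ Sh A)
noncomputable def nrm (A : ℝ) (y : Pt) : Pt := Real.sqrt (A / area y) • y

/-- `Y` is closed in the cell. -/
def ClosedIn (Y : Set Pt) : Prop := ∀ K, IsCompact K → K ⊆ Cell → IsClosed (Y ∩ K)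

/-- Classes of the half-edges of `three`. -/
def al0 : Fin 18 → Z4 :=
  ![![1, 0, 0, 0], ![0, 0, 1, 0], ![-1, 0, -1, 0], ![1, 0, 1, 0], ![-1, 0, 0, 0], ![0, 0, -1, 0],
    ![0, 1, 0, 0], ![0, 0, 1, 0], ![0, -1, -1, 0], ![0, 1, 1, 0], ![0, -1, 0, 0], ![0, 0, -1, 0],
    ![1, 0, 0, 0], ![0, 0, 0, 1], ![-1, 0, 0, -1], ![1, 0, 0, 1], ![-1, 0, 0, 0], ![0, 0, 0, -1]]

/-- One move of labelled triangulations. -/
def LM (S T : Raw × (Fin 18 → Z4)) : Prop :=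
  IsTri S.1 ∧ IsTri T.1 ∧
    ((∃ h, FlipAt S.1 T.1 h ∧ T.2 h = S.2 (S.1.1 (S.1.1 (S.1.2.1 h))) + S.2 (S.1.1 h) ∧
      T.2 (S.1.2.1 h) = -T.2 h ∧ ∀ e, e ≠ h → e ≠ S.1.2.1 h → T.2 e = S.2 e) ∨
    ∃ σ, RelabBy S.1 T.1 σ ∧ ∀ h, T.2 (σ h) = S.2 h)

/-- The triangulated surface of a point. -/
def raw (y : Pt) : Raw := three (vec y 0) (vec y 1) (vec y 2) (vec y 3)

end Pool.Agent.TW
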