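import Pool.Agent.Lib.MP_4eaecc_an.U1

-- part Pool.Agent.Lib.MP_4eaecc_an.U2
section

/-! Paths and stages. -/

namespace Pool.Agent.TW

open Matrix MeasureTheory Filter Topology
open scoped ENNReal

theorem u2_succ (τ : Ty) (ξ : V) (n : ℕ) : path τ ξ (n + 1) =
    ((stepS (path τ ξ n).1 (sg (path τ ξ n).1 (ac (path τ ξ n).2 ξ))).1,
      (stepS (path τ ξ n).1 (sg (path τ ξ n).1 (ac (path τ ξ n).2 ξ))).2 * (path τ ξ n).2) := rfl

theorem u2_zero (τ : Ty) (ξ a : V) : ac (path τ ξ 0).2 a = a := ac_one a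

theorem u2_ind {P : Ty → V → Prop}
    (hP : ∀ τ σ a, P τ a → P (stepS τ σ).1 (ac (stepS τ σ).2 a)) {τ : Ty} {a : V} (h : P τ a)
    (ξ : V) (n : ℕ) : P (path τ ξ n).1 (ac (path τ ξ n).2 a) := by
  induction n with
  | zero => rw [u2_zero]; exact h
  | succ n ih => rw [u2_succ, ac_mul]; exact hP _ _ _ ih

theorem u2_sg (τ : Ty) (ξ : V) {c : ℝ} (hc : 0 < c) : sg τ (c • ξ) = sg τ ξ := by
  funext i; simp [sg, ev_smul, hc]

theorem u2_wv {τ : Ty} {ξ : V} {c : ℝ} (hc : 0 < c) : WV τ (c • ξ) ↔ WV τ ξ := by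
  refine forall₂_congr fun b i => ?_
  cases b
  · simp only [wd, ev_smul, ← mul_neg, mul_pos_iff_of_pos_left hc]
  · simp only [wd, ev_smul, mul_pos_iff_of_pos_left hc]

theorem u2_hv {τ : Ty} {η : V} {c : ℝ} (hc : 0 < c) : HV τ (c • η) ↔ HV τ η := by
  simp only [HV, ev_smul, mul_pos_iff_of_pos_left hc, mul_nonneg_iff_of_pos_left hc]

theorem u2_nz {τ : Ty} {ξ : V} {c : ℝ} (hc : 0 < c) : NZ τ (c • ξ) ↔ NZ τ ξ := by
  simp [NZ, ev_smul, hc.ne']

theorem u2_low {τ : Ty} {η : V} {c H : ℝ} (hc : 0 < c) : Low τ (c • η) (c * H) ↔ Low τ η H := by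
  simp only [Low, ev_smul, mul_le_mul_iff_right₀ hc]

theorem u2_pv {τ : Ty} {ξ : V} {n : ℕ} (h : PV τ ξ (n + 1)) : PV τ ξ n :=
  fun k hk => h k (hk.trans n.le_succ)

theorem u2_edge {τ τ' : Ty} {M : Mat} {b : Bool} {i j : Fin 3}
    (h : ed τ' b i ᵥ* M = ed τ b j ∨ ∃ k, ed τ' b i ᵥ* M = ed τ b j + ed τ (!b) k) (a : V) :
    ((∀ b i, 0 ≤ ev (ed τ b i) a) → ev (ed τ b j) a ≤ ev (ed τ' b i) (ac M a)) ∧
      (WV τ a → wd τ' (ac M a) b i ≤ wd τ a b j) := by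
  have e : ∀ τ a b i, wd τ a b i = (if b then 1 else -1) * ev (ed τ b i) a := fun τ a b i => by
    cases b <;> simp [wd, ed]
  rw [e, e, ← ev_vecMul]
  rcases h with h | ⟨k, h⟩
  · rw [h]; exact ⟨fun _ => le_rfl, fun _ => le_rfl⟩
  · rw [h, add_ev]
    refine ⟨fun p => le_add_of_nonneg_right (p _ _), fun p => ?_⟩
    have := p (!b) k
    rw [e] at this
    cases b <;> simp at this ⊢ <;> linarith

theorem u2_hv0 {τ : Ty} {η : V} (h : HV τ η) (b : Bool) (i : Fin 3) : 0 ≤ ev (ed τ b i) η := by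
  cases b
  · exact (h i).2.le
  · exact (h i).1

theorem u2_ge {τ : Ty} {a : V} {c : Bool → ℝ} (h : ∀ b i, 0 ≤ ev (ed τ b i) a)
    (k : ∀ b i, c b ≤ ev (ed τ b i) a) (ξ : V) (n : ℕ) :
    (∀ b i, 0 ≤ ev (ed (path τ ξ n).1 b i) (ac (path τ ξ n).2 a)) ∧
      ∀ b i, c b ≤ ev (ed (path τ ξ n).1 b i) (ac (path τ ξ n).2 a) := by
  refine u2_ind (P := fun τ a => (∀ b i, 0 ≤ ev (ed τ b i) a) ∧ ∀ b i, c b ≤ ev (ed τ b i) a)
    (fun τ σ a p => ⟨fun b i => ?_, fun b i => ?_⟩) ⟨h, k⟩ ξ n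
  all_goals obtain ⟨j, hj⟩ := step_new τ σ b i
  · exact (p.1 b j).trans ((u2_edge hj a).1 p.1)
  · exact (p.2 b j).trans ((u2_edge hj a).1 p.1)

theorem path_add (τ : Ty) (ξ : V) (n k : ℕ) :
    path τ ξ (n + k) = ((path (path τ ξ n).1 (ac (path τ ξ n).2 ξ) k).1,
      (path (path τ ξ n).1 (ac (path τ ξ n).2 ξ) k).2 * (path τ ξ n).2) := by
  induction k with
  | zero => simp [path]
  | succ k ih => rw [← add_assoc, u2_succ, ih, u2_succ, ac_mul, mul_assoc]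

theorem path_smul (τ : Ty) (ξ : V) {c : ℝ} (hc : 0 < c) (n : ℕ) :
    path τ (c • ξ) n = path τ ξ n := by
  induction n with
  | zero => rfl
  | succ n ih => rw [u2_succ, ih, ac_smul, u2_sg _ _ hc, u2_succ]

theorem path_symp (τ : Ty) (ξ : V) (n : ℕ) : Symp (path τ ξ n).2 := by
  induction n with
  | zero => exact Symp.one
  | succ n ih => exact (stepS_symp _ _).mul ih

theorem pv_of_gen {τ : Ty} {ξ : V} (h : WV τ ξ) (k : Gen τ ξ) (n : ℕ) : PV τ ξ n := by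
  refine fun m _ => ⟨?_, k m⟩
  induction m with
  | zero => rw [u2_zero]; exact h
  | succ m ih => rw [u2_succ, ac_mul]; exact step_wv (ih (by omega)) (k m)

theorem path_wvc {τ : Ty} {ξ ζ : V} {n : ℕ} (h : WVc (path τ ξ n).1 (ac (path τ ξ n).2 ζ)) :
    WVc τ ζ := by
  induction n with
  | zero => rwa [u2_zero] at h
  | succ n ih => rw [u2_succ, ac_mul] at h; exact ih (stepS_wvc _ _ _ h)

theorem u2_mark {τ : Ty} {ξ ζ : V} {n : ℕ} (e : path τ ζ n = path τ ξ n)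
    (hz : Sg (path τ ξ n).1 (sg (path τ ξ n).1 (ac (path τ ξ n).2 ξ)) (ac (path τ ξ n).2 ζ)) :
    (WV (path τ ζ n).1 (ac (path τ ζ n).2 ζ) ∧ NZ (path τ ζ n).1 (ac (path τ ζ n).2 ζ)) ∧
      path τ ζ (n + 1) = path τ ξ (n + 1) := by
  obtain ⟨h1, h2, h3⟩ := sg_iff.mp hz
  rw [u2_succ, u2_succ, e, h3]
  exact ⟨⟨h1, h2⟩, rfl⟩

theorem markov {τ : Ty} {ξ ζ : V} {n : ℕ} (h : PV τ ξ n)
    (hz : Sg (path τ ξ n).1 (sg (path τ ξ n).1 (ac (path τ ξ n).2 ξ)) (ac (path τ ξ n).2 ζ)) :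
    PV τ ζ n ∧ ∀ k ≤ n + 1, path τ ζ k = path τ ξ k := by
  induction n with
  | zero =>
    obtain ⟨h1, h2⟩ := u2_mark (n := 0) (ζ := ζ) (ξ := ξ) rfl hz
    refine ⟨fun k hk => by rw [Nat.le_zero.mp hk]; exact h1, fun k hk => ?_⟩
    rcases Nat.le_one_iff_eq_zero_or_eq_one.mp hk with rfl | rfl
    · rfl
    · exact h2
  | succ n ih =>
    have h0 := h (n + 1) le_rfl
    have hz' := hz
    rw [u2_succ, ac_mul] at h0
    rw [u2_succ, ac_mul, ac_mul] at hz'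
    obtain ⟨p1, p2⟩ := ih (u2_pv h) (step_markov (h n n.le_succ).1 (h n n.le_succ).2 h0.2 hz')
    obtain ⟨h1, h2⟩ := u2_mark (p2 _ le_rfl) hz
    refine ⟨fun k hk => ?_, fun k hk => ?_⟩
    · rcases Nat.le_succ_iff.mp hk with hk | rfl
      · exact p1 k hk
      · exact h1
    · rcases Nat.le_succ_iff.mp hk with hk | rfl
      · exact p2 k hk
      · exact h2

theorem act_of_pv {τ : Ty} {ξ : V} {n : ℕ} (h : PV τ ξ n) :
    Act τ (path τ ξ n).1 (path τ ξ n).2 (sg (path τ ξ n).1 (ac (path τ ξ n).2 ξ)) :=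
  ⟨path_symp _ _ _, fun _ => path_wvc, fun _ hz =>
    ⟨n, (markov h hz).1, (markov h hz).2 n n.le_succ⟩⟩

theorem path_nonneg {τ : Ty} {a : V} (h : ∀ b i, 0 ≤ ev (ed τ b i) a) (ξ : V) (n : ℕ) (b : Bool)
    (i : Fin 3) : 0 ≤ ev (ed (path τ ξ n).1 b i) (ac (path τ ξ n).2 a) :=
  (u2_ge (c := fun _ => 0) h h ξ n).1 b i

theorem path_hv {τ : Ty} {η : V} (h : HV τ η) (ξ : V) (n : ℕ) :
    HV (path τ ξ n).1 (ac (path τ ξ n).2 η) := by
  obtain ⟨j, hj⟩ := Finite.exists_min fun i => ev (eL τ i) η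
  have := u2_ge (c := fun b => if b then 0 else ev (eL τ j) η) (u2_hv0 h)
    (fun b i => by cases b; exacts [hj i, (h i).1]) ξ n
  exact fun i => ⟨this.1 true i, (h j).2.trans_le (this.2 false i)⟩

theorem path_hp {τ : Ty} {η : V} (h : HP τ η) (ξ : V) (n : ℕ) :
    HP (path τ ξ n).1 (ac (path τ ξ n).2 η) := by
  obtain ⟨j, hj⟩ := Finite.exists_min fun x : Bool × Fin 3 => ev (ed τ x.1 x.2) η
  exact fun b i => (h j.1 j.2).trans_le ((u2_ge (c := fun _ => ev (ed τ j.1 j.2) η)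
    (fun b i => (h b i).le) (fun b i => hj (b, i)) ξ n).2 b i)

theorem path_inv {τ : Ty} {h : V} {k : ℝ} (hk : 0 ≤ k) (H : Inv τ h k) (ξ : V) (n : ℕ) :
    Inv (path τ ξ n).1 (ac (path τ ξ n).2 h) k :=
  u2_ind (P := fun τ a => Inv τ a k) (fun _ σ _ p => step_inv hk p σ) H ξ n

theorem path_reach {τ : Ty} {ξ η : V} {n : ℕ} (h : PV τ ξ n) (k : HV τ η) :
    Reach (ξ, η) (path τ ξ n).2 := by
  induction n with
  | zero =>
    have := (h 0 le_rfl).1
    rw [u2_zero] at this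
    exact Reach.refl (cell_of_valid (τ := τ) this k)
  | succ n ih =>
    exact (ih (u2_pv h)).trans (step_reach (y := acP (path τ ξ n).2 (ξ, η)) (h n n.le_succ).1
      (h n n.le_succ).2 (path_hv k ξ n))

/-- Widths do not grow. -/
theorem path_wd_le {τ : Ty} {ξ : V} {n : ℕ} (h : PV τ ξ n) {W : ℝ} (k : ∀ b i, wd τ ξ b i ≤ W)
    (b : Bool) (i : Fin 3) : wd (path τ ξ n).1 (ac (path τ ξ n).2 ξ) b i ≤ W := by
  induction n generalizing b i with
  | zero => rw [u2_zero]; exact k b i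
  | succ n ih =>
    rw [u2_succ, ac_mul]
    obtain ⟨j, hj⟩ := step_new (path τ ξ n).1 (sg (path τ ξ n).1 (ac (path τ ξ n).2 ξ)) b i
    exact ((u2_edge hj _).2 (h n n.le_succ).1).trans (ih (u2_pv h) b j)

theorem path_wd_ge {τ : Ty} {ξ : V} {n : ℕ} (h : PV τ ξ n) {W : ℝ}
    (k : ∀ b i, W ≤ wd (path τ ξ n).1 (ac (path τ ξ n).2 ξ) b i) (b : Bool) (i : Fin 3) :
    W ≤ wd τ ξ b i := by
  induction n with
  | zero => rw [u2_zero] at k; exact k b i
  | succ n ih =>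
    refine ih (u2_pv h) fun b j => ?_
    rw [u2_succ, ac_mul] at k
    obtain ⟨i, hi⟩ := step_old (path τ ξ n).1 (sg (path τ ξ n).1 (ac (path τ ξ n).2 ξ)) b j
    exact (k b i).trans ((u2_edge hi _).2 (h n n.le_succ).1)

theorem low_anti {τ : Ty} {ξ η : V} (h : HV τ η) {k n : ℕ} (hk : k ≤ n) {H : ℝ}
    (l : Low (path τ ξ n).1 (ac (path τ ξ n).2 η) H) :
    Low (path τ ξ k).1 (ac (path τ ξ k).2 η) H := by
  induction hk with
  | refl => exact l
  | @step n _ ih =>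
    refine ih fun b j => ?_
    rw [Nat.succ_eq_add_one, u2_succ, ac_mul] at l
    obtain ⟨i, hi⟩ := step_old (path τ ξ n).1 (sg (path τ ξ n).1 (ac (path τ ξ n).2 ξ)) b j
    exact ((u2_edge hi _).1 (u2_hv0 (path_hv h ξ n))).trans (l b i)

theorem u2_sum (s : Finset (Fin 3)) (e : Fin 3 → Z4) (a : V) :
    ev (∑ i ∈ s, e i) a = ∑ i ∈ s, ev (e i) a := by
  simp only [ev, Finset.sum_apply, Int.cast_sum, Finset.sum_mul]
  exact Finset.sum_comm

theorem u2_ev {S : ℕ → ℝ} (hm : ∀ n, S n ≤ S (n + 1)) {B : ℝ} (hb : ∀ n, S n ≤ B) {ε : ℝ}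
    (hε : 0 < ε) : ∃ N, ∀ n ≥ N, S (n + 1) < S n + ε := by
  have h := tendsto_atTop_ciSup (monotone_nat_of_le_succ hm) ⟨B, by rintro _ ⟨n, rfl⟩; exact hb n⟩
  have k := ((tendsto_add_atTop_iff_nat 1).mpr h).sub h
  rw [sub_self] at k
  exact (eventually_atTop.mp (k.eventually (gt_mem_nhds hε))).imp fun N p n hn =>
    sub_lt_iff_lt_add'.mp (p n hn)

/-- Heights are unbounded: steps that add left edges raise the sum of the heights by a fixed
amount, and a tail of steps that keep the right edges lowers `sumW` by a fixed amount. -/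
theorem exists_high {τ : Ty} {ξ η : V} (h : WV τ ξ) (g : Gen τ ξ) (k : HV τ η) (H : ℝ) :
    ∃ n, ¬ Low (path τ ξ (n + 1)).1 (ac (path τ ξ (n + 1)).2 η) H := by
  by_contra! l
  obtain ⟨j, hj⟩ := Finite.exists_min fun i => ev (eL τ i) η
  have hh := u2_ge (c := fun b => if b then 0 else ev (eL τ j) η) (u2_hv0 k)
    (fun b i => by cases b; exacts [hj i, (k i).1]) ξ
  have pv := fun n => (pv_of_gen h g n n le_rfl).1
  obtain ⟨S, hS⟩ : ∃ S : V → Bool → ℕ → ℝ, ∀ a b n,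
    S a b n = ∑ i, ev (ed (path τ ξ n).1 b i) (ac (path τ ξ n).2 a) := ⟨_, fun _ _ _ => rfl⟩
  have K : ∀ n, ∃ b : Bool, ∃ s : Finset (Fin 3), s.Nonempty ∧
      (∀ i, ∃ j, ev (ed (path τ ξ (n + 1)).1 b i) (ac (path τ ξ (n + 1)).2 ξ) =
        ev (ed (path τ ξ n).1 b j) (ac (path τ ξ n).2 ξ)) ∧ ∀ a, S a b (n + 1) = S a b n ∧
      S a (!b) (n + 1) = S a (!b) n + ∑ i ∈ s, ev (ed (path τ ξ n).1 b i) (ac (path τ ξ n).2 a) :=
    fun n => by
      obtain ⟨b, s, h0, h1, h2, h3⟩ :=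
        step_kind (path τ ξ n).1 (sg (path τ ξ n).1 (ac (path τ ξ n).2 ξ))
      refine ⟨b, s, h0, fun i => (h1 i).imp fun j e => ?_, fun a => ⟨?_, ?_⟩⟩
      · rw [u2_succ, ac_mul, ← ev_vecMul, e]
      · simp only [hS, u2_succ, ac_mul, ← ev_vecMul _ (stepS _ _).2, ← u2_sum, h2]
      · simp only [hS, u2_succ, ac_mul, ← ev_vecMul _ (stepS _ _).2, ← u2_sum, h3, add_ev]
  have mono : ∀ n, S η true n + S η false n ≤ S η true (n + 1) + S η false (n + 1) := fun n => by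
    obtain ⟨b, s, -, -, h2⟩ := K n
    obtain ⟨h2, h3⟩ := h2 η
    have := Finset.sum_nonneg fun i (_ : i ∈ s) => (hh n).1 b i
    cases b <;> simp only [Bool.not_true, Bool.not_false] at h3 <;> linarith
  obtain ⟨N, hN⟩ := u2_ev mono (B := 3 * H + 3 * H) (fun n => (mono n).trans (by
    rw [hS, hS, Fin.sum_univ_three, Fin.sum_univ_three]
    linarith [l n true 0, l n true 1, l n true 2, l n false 0, l n false 1, l n false 2])) (k j).2
  obtain ⟨i0, h0⟩ := Finite.exists_min fun i => ev (ed (path τ ξ N).1 true i) (ac (path τ ξ N).2 ξ)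
  have w0 : 0 < ev (ed (path τ ξ N).1 true i0) (ac (path τ ξ N).2 ξ) := pv N true i0
  generalize ev (ed (path τ ξ N).1 true i0) (ac (path τ ξ N).2 ξ) = w at h0 w0
  have main : ∀ m : ℕ,
      (∀ i, w ≤ ev (ed (path τ ξ (N + m)).1 true i) (ac (path τ ξ (N + m)).2 ξ)) ∧
        S ξ false N + m * w ≤ S ξ false (N + m) := fun m => by
    induction m with
    | zero => exact ⟨h0, by simp⟩
    | succ m ih =>
      obtain ⟨b, s, ⟨x, hx⟩, h1, h2⟩ := K (N + m)
      rw [← add_assoc]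
      cases b
      · have p1 := Finset.single_le_sum (fun i (_ : i ∈ s) => (hh (N + m)).1 false i) hx
        have p2 : ev (eL τ j) η ≤ _ := (hh (N + m)).2 false x
        have p3 := hN (N + m) (by omega)
        obtain ⟨h2, h3⟩ := h2 η
        rw [Bool.not_false] at h3
        linarith
      · refine ⟨fun i => ?_, ?_⟩
        · obtain ⟨j, e⟩ := h1 i
          exact e ▸ ih.1 j
        · have p1 := Finset.single_le_sum (fun i (_ : i ∈ s) => w0.le.trans (ih.1 i)) hx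
          have h3 := (h2 ξ).2
          rw [Bool.not_true] at h3
          push_cast
          linarith [ih.1 x, ih.2]
  obtain ⟨m, hm⟩ := exists_nat_gt (-S ξ false N / w)
  have p1 := (main m).2
  have p2 : S ξ false (N + m) ≤ 0 :=
    hS _ _ _ ▸ Finset.sum_nonpos fun i _ => (neg_pos.mp (pv (N + m) false i)).le
  rw [div_lt_iff₀ w0] at hm
  linarith

theorem stage_eq {τ : Ty} {y : Pt} (k : HV τ y.2) {H : ℝ} {n : ℕ}
    (l : Low (path τ y.1 n).1 (ac (path τ y.1 n).2 y.2) H)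
    (l' : ¬ Low (path τ y.1 (n + 1)).1 (ac (path τ y.1 (n + 1)).2 y.2) H) : stage τ y H = n :=
  le_antisymm (Nat.sInf_le l') (le_csInf ⟨n, l'⟩ fun m hm => by_contra fun p =>
    hm (low_anti k (by omega) l))

theorem Base.low {τ : Ty} {y : Pt} {t : ℝ} (h : Base τ y t) :
    Low (St τ y t).1 (ac (St τ y t).2 y.2) (Real.exp t) := by
  rw [St]
  rcases hn : stage τ y (Real.exp t) with _ | n
  · rw [u2_zero]; exact h.2.2.2
  · exact not_not.mp (Nat.notMem_of_lt_sInf (m := n) (hn.ge : n < _))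

theorem Base.high {τ : Ty} {y : Pt} {t : ℝ} (h : Base τ y t) :
    ¬ Low (path τ y.1 (stage τ y (Real.exp t) + 1)).1
      (ac (path τ y.1 (stage τ y (Real.exp t) + 1)).2 y.2) (Real.exp t) :=
  Nat.sInf_mem (exists_high h.1 h.2.2.1 h.2.1 (Real.exp t))

theorem Base.mono {τ : Ty} {y : Pt} {t t' : ℝ} (h : Base τ y t) (k : t ≤ t') : Base τ y t' :=
  ⟨h.1, h.2.1, h.2.2.1, fun b i => (h.2.2.2 b i).trans (Real.exp_le_exp.mpr k)⟩

theorem St_symp (τ : Ty) (y : Pt) (t : ℝ) : Symp (St τ y t).2 := path_symp _ _ _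

theorem Base.reach {τ : Ty} {y : Pt} {t : ℝ} (h : Base τ y t) : Reach y (St τ y t).2 :=
  path_reach (pv_of_gen h.1 h.2.2.1 _) h.2.1

theorem u2_gt (τ : Ty) (y : Pt) (s t : ℝ) :
    St τ (gt s y) t = St τ y (t + s) ∧ nst τ (gt s y) t = nst τ y (t + s) ∧
      (Base τ (gt s y) t ↔ Base τ y (t + s)) := by
  have e : Real.exp t = Real.exp (-s) * Real.exp (t + s) := by rw [← Real.exp_add]; ring_nf
  have p := Real.exp_pos s
  have q := Real.exp_pos (-s)
  have h1 : St τ (gt s y) t = St τ y (t + s) := by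
    simp only [St, stage, gt, path_smul _ _ p, ac_smul, e, u2_low q]
  refine ⟨h1, ?_, ?_⟩
  · simp only [nst, h1]
    simp only [gt, acP, ac_smul, smul_smul, ← Real.exp_add, neg_add]
  · simp only [Base, Gen, gt, path_smul _ _ p, ac_smul, e, u2_low q, u2_wv p, u2_hv q, u2_nz p]

theorem u2_base {τ : Ty} {y : Pt} {t : ℝ} (h : Base τ y t) :
    Base (St τ y t).1 (acP (St τ y t).2 y) t := by
  refine ⟨(pv_of_gen h.1 h.2.2.1 _ _ le_rfl).1, path_hv h.2.1 _ _, fun m => ?_, h.low⟩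
  have := h.2.2.1 (stage τ y (Real.exp t) + m)
  rwa [path_add, ac_mul] at this

theorem Base.nst {τ : Ty} {y : Pt} {t : ℝ} (h : Base τ y t) :
    Base (St τ y t).1 (nst τ y t) 0 :=
  (u2_gt _ _ t 0).2.2.mpr ((zero_add t).symm ▸ u2_base h)

theorem Base.area {τ : Ty} {y : Pt} {t : ℝ} (h : Base τ y t) : area (TW.nst τ y t) = area y := by
  rw [TW.nst, gt_eq, area_lin, ← Real.exp_add, h.reach.area]
  simp

theorem Base.act {τ : Ty} {y : Pt} {t : ℝ} (h : Base τ y t) :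
    Act τ (St τ y t).1 (St τ y t).2 (sg (St τ y t).1 (TW.nst τ y t).1) := by
  have := act_of_pv (pv_of_gen h.1 h.2.2.1 (stage τ y (Real.exp t)))
  rwa [← u2_sg _ _ (Real.exp_pos t)] at this

/-- Atoms are open cones. -/
theorem St_markov {τ : Ty} {y : Pt} {t : ℝ} (h : Base τ y t) {ζ : V}
    (hz : Sg (St τ y t).1 (sg (St τ y t).1 (nst τ y t).1) (ac (St τ y t).2 ζ)) :
    St τ (ζ, y.2) t = St τ y t ∧ WV τ ζ := by
  have hz' : Sg _ (sg _ (Real.exp t • _)) _ := hz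
  rw [u2_sg _ _ (Real.exp_pos t)] at hz'
  obtain ⟨p1, p2⟩ := markov (pv_of_gen h.1 h.2.2.1 (stage τ y (Real.exp t))) hz'
  have e : stage τ (ζ, y.2) (Real.exp t) = stage τ y (Real.exp t) :=
    stage_eq (y := (ζ, y.2)) h.2.1 (by rw [p2 _ (Nat.le_succ _)]; exact h.low)
      (by rw [p2 _ le_rfl]; exact h.high)
  have w := (p1 0 (Nat.zero_le _)).1
  rw [u2_zero] at w
  exact ⟨by rw [St, e]; exact p2 _ (Nat.le_succ _), w⟩

theorem St_add {τ : Ty} {y : Pt} {t t' : ℝ} (h : Base τ y t) (k : t ≤ t') :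
    St τ y t' = ((St (St τ y t).1 (nst τ y t) (t' - t)).1,
      (St (St τ y t).1 (nst τ y t) (t' - t)).2 * (St τ y t).2) ∧
    nst τ y t' = nst (St τ y t).1 (nst τ y t) (t' - t) := by
  have b := (u2_base h).mono k
  have e : stage τ y (Real.exp t') = stage τ y (Real.exp t) +
      stage (St τ y t).1 (acP (St τ y t).2 y) (Real.exp t') :=
    stage_eq h.2.1 (by rw [path_add, ac_mul]; exact b.low)
      (by rw [add_assoc, path_add, ac_mul]; exact b.high)
  have e' : St τ y t' = ((St (St τ y t).1 (acP (St τ y t).2 y) t').1,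
      (St (St τ y t).1 (acP (St τ y t).2 y) t').2 * (St τ y t).2) := by
    rw [St, e, path_add]; rfl
  obtain ⟨g1, g2, -⟩ := u2_gt (St τ y t).1 (acP (St τ y t).2 y) t (t' - t)
  rw [sub_add_cancel] at g1 g2
  rw [nst.eq_1 τ y t, g1, g2]
  exact ⟨e', by rw [nst, e', acP_mul]; rfl⟩

theorem goodAt_add {δ : ℝ} {τ : Ty} {y : Pt} {t t' : ℝ} (h : Base τ y t) (k : t ≤ t') :
    GoodAt δ τ y t' ↔ GoodAt δ (St τ y t).1 (nst τ y t) (t' - t) := by
  obtain ⟨h1, h2⟩ := St_add h k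
  rw [GoodAt, GoodAt, h2, h1]
  exact and_congr_left' (iff_of_true (h.mono k) (h.nst.mono (sub_nonneg.mpr k)))

theorem St_gt (τ : Ty) (y : Pt) (s t : ℝ) :
    St τ (gt s y) t = St τ y (t + s) ∧ nst τ (gt s y) t = nst τ y (t + s) ∧
      (Base τ (gt s y) t ↔ Base τ y (t + s)) := u2_gt τ y s t

theorem goodAt_gt (δ : ℝ) (τ : Ty) (y : Pt) (s t : ℝ) :
    GoodAt δ τ (gt s y) t ↔ GoodAt δ τ y (t + s) := by
  obtain ⟨h1, h2, h3⟩ := St_gt τ y s t
  rw [GoodAt, GoodAt, h1, h2, h3]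

end Pool.Agent.TW
end

-- part Pool.Agent.Lib.MP_4eaecc_an.U4
section

/-! Good states, ratio bounds, norms, bounded overlap. -/

namespace Pool.Agent.TW

open Matrix MeasureTheory Filter Topology
open scoped ENNReal

theorem u4_abs (τ : Ty) (ξ : V) (b : Bool) (i : Fin 3) :
    |ev (ed τ b i) ξ| = |wd τ ξ b i| := by
  cases b
  · simp only [ed, wd, abs_neg]
  · simp only [ed, wd]

theorem u4_wd_sub (τ : Ty) (ξ ζ : V) (b : Bool) (i : Fin 3) :
    wd τ (ξ - ζ) b i = wd τ ξ b i - wd τ ζ b i := by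
  cases b
  · simp only [wd, ev_sub]; ring
  · simp only [wd, ev_sub]

theorem u4_wd_smul (τ : Ty) (c : ℝ) (ξ : V) (b : Bool) (i : Fin 3) :
    wd τ (c • ξ) b i = c * wd τ ξ b i := by
  cases b
  · simp only [wd, ev_smul]; ring
  · simp only [wd, ev_smul]

theorem u4_wd_le (τ : Ty) (ξ : V) (b : Bool) (i : Fin 3) : |wd τ ξ b i| ≤ 2 * ‖ξ‖ := by
  rw [← u4_abs]; exact abs_ed_le τ b i ξ

theorem u4_cont (τ : Ty) (b : Bool) (i : Fin 3) : Continuous fun ξ => wd τ ξ b i := by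
  cases b
  · exact (continuous_ev _).neg
  · exact continuous_ev _

theorem u4_Om (τ : Ty) (ξ a : V) :
    Om ξ a = ∑ i, (wd τ ξ true i * ev (ed τ false i) a + wd τ ξ false i * ev (ed τ true i) a) := by
  rw [Om_edges τ]
  refine Finset.sum_congr rfl fun i _ => ?_
  simp only [wd, ed]; ring

theorem u4_ar (τ : Ty) (y : Pt) (i : Fin 3) :
    ar y i = wd τ y.1 true i * ev (ed τ false i) y.2 + wd τ y.1 false i * ev (ed τ true i) y.2 := by
  cases τ <;> fin_cases i <;>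
    simp [ar, dt, vec, sp, sq, wd, ed, eR, eL, ev_four] <;> ring

theorem u4_ghmono {δ δ' : ℝ} {τ : Ty} {η : V} (h : Gh δ τ η) (k : 0 < δ') (l : δ' ≤ δ) :
    Gh δ' τ η := fun b i => ⟨l.trans (h b i).1, (h b i).2.trans (inv_anti₀ k l)⟩

theorem Gw.mono {δ δ' : ℝ} {τ : Ty} {σ : Fin 3 → Bool} {ξ : V} (h : Gw δ τ σ ξ) (k : 0 < δ')
    (l : δ' ≤ δ) : Gw δ' τ σ ξ := by
  refine ⟨fun b i => ⟨l.trans (h.1 b i).1, (h.1 b i).2.trans (inv_anti₀ k l)⟩, fun i => ?_⟩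
  have := h.2 i
  split_ifs at this ⊢ <;> linarith

theorem Good.mono {δ δ' : ℝ} {τ : Ty} {y : Pt} (h : Good δ τ y) (k : 0 < δ') (l : δ' ≤ δ) :
    Good δ' τ y := by
  obtain ⟨⟨σ, hσ⟩, h2⟩ := h
  exact ⟨⟨σ, hσ.mono k l⟩, u4_ghmono h2 k l⟩

theorem GoodAt.mono {δ δ' : ℝ} {τ : Ty} {y : Pt} {t : ℝ} (h : GoodAt δ τ y t) (k : 0 < δ')
    (l : δ' ≤ δ) : GoodAt δ' τ y t := ⟨h.1, h.2.mono k l⟩

theorem Gw.sg {δ : ℝ} {τ : Ty} {σ : Fin 3 → Bool} {ξ : V} (h : Gw δ τ σ ξ) (k : 0 < δ) :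
    Sg τ σ ξ := by
  refine ⟨fun b i => k.trans_le (h.1 b i).1, fun i => ?_⟩
  have := h.2 i
  split_ifs at this ⊢ <;> linarith

theorem Sg.smul {τ : Ty} {σ : Fin 3 → Bool} {ξ : V} (h : Sg τ σ ξ) {c : ℝ} (k : 0 < c) :
    Sg τ σ (c • ξ) := by
  refine ⟨(u2_wv k).2 h.1, fun i => ?_⟩
  have := h.2 i
  rw [ev_smul]
  split_ifs at this ⊢
  · exact mul_pos k this
  · exact mul_neg_of_pos_of_neg k this

theorem Gw.near {δ : ℝ} {τ : Ty} {σ : Fin 3 → Bool} {ξ ζ : V} (h : Gw δ τ σ ξ) (k : 0 < δ)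
    (l : δ ≤ 1) (n : ‖ζ - ξ‖ ≤ δ / 6) : Gw (δ / 2) τ σ ζ := by
  have h1 : 1 ≤ δ⁻¹ := (one_le_inv₀ k).2 l
  have h2 : (δ / 2)⁻¹ = 2 * δ⁻¹ := by field_simp
  refine ⟨fun b i => ?_, fun i => ?_⟩
  · have a := abs_le.1 (u4_wd_le τ (ζ - ξ) b i)
    rw [u4_wd_sub] at a
    have := h.1 b i
    rw [h2]
    constructor <;> linarith [a.1, a.2, this.1, this.2]
  · have a := abs_le.1 (abs_dg_le τ i (ζ - ξ))
    rw [ev_sub] at a
    have := h.2 i
    split_ifs at this ⊢ <;> linarith [a.1, a.2]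

theorem Gw.norm {δ : ℝ} {τ : Ty} {σ : Fin 3 → Bool} {ξ : V} (h : Gw δ τ σ ξ) (k : 0 < δ) :
    ‖ξ‖ ≤ 2 / δ := by
  rw [div_eq_mul_inv]
  refine norm_le_edges (τ := τ) fun b i => ?_
  rw [u4_abs, abs_of_pos (k.trans_le (h.1 b i).1)]
  exact (h.1 b i).2

theorem Gh.norm {δ : ℝ} {τ : Ty} {η : V} (h : Gh δ τ η) (k : 0 < δ) : ‖η‖ ≤ 2 / δ := by
  rw [div_eq_mul_inv]
  refine norm_le_edges (τ := τ) fun b i => ?_
  rw [abs_of_pos (k.trans_le (h b i).1)]
  exact (h b i).2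

theorem Gh.hv {δ : ℝ} {τ : Ty} {η : V} (h : Gh δ τ η) (k : 0 < δ) : HV τ η :=
  fun i => ⟨(k.trans_le (h true i).1).le, k.trans_le (h false i).1⟩

theorem isClosed_gw (δ : ℝ) (τ : Ty) (σ : Fin 3 → Bool) : IsClosed {ξ | Gw δ τ σ ξ} := by
  unfold Gw
  simp only [Set.ofPred_and, Set.ofPred_forall]
  refine IsClosed.inter (isClosed_iInter fun b => isClosed_iInter fun i => IsClosed.inter ?_ ?_)
    (isClosed_iInter fun i => ?_)
  · exact isClosed_le continuous_const (u4_cont τ b i)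
  · exact isClosed_le (u4_cont τ b i) continuous_const
  · cases σ i
    · simpa using isClosed_le (continuous_ev (dg τ i)) continuous_const
    · simpa using isClosed_le continuous_const (continuous_ev (dg τ i))

theorem u4_closed_gh (δ : ℝ) (τ : Ty) : IsClosed {η | Gh δ τ η} := by
  unfold Gh
  simp only [Set.ofPred_and, Set.ofPred_forall]
  refine isClosed_iInter fun b => isClosed_iInter fun i => IsClosed.inter ?_ ?_
  · exact isClosed_le continuous_const (continuous_ev _)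
  · exact isClosed_le (continuous_ev _) continuous_const

theorem isCompact_good {δ : ℝ} (k : 0 < δ) (τ : Ty) : IsCompact {y | Good δ τ y} := by
  have e : {y : Pt | Good δ τ y} = (⋃ σ, {ξ | Gw δ τ σ ξ}) ×ˢ {η | Gh δ τ η} := by
    ext y; simp [Good]
  rw [e]
  refine IsCompact.prod (isCompact_iUnion fun σ => ?_) ?_
  · refine Metric.isCompact_of_isClosed_isBounded (isClosed_gw δ τ σ) ?_
    exact (Metric.isBounded_closedBall (x := (0 : V)) (r := 2 / δ)).subset fun ξ h =>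
      mem_closedBall_zero_iff.2 (Gw.norm h k)
  · refine Metric.isCompact_of_isClosed_isBounded (u4_closed_gh δ τ) ?_
    exact (Metric.isBounded_closedBall (x := (0 : V)) (r := 2 / δ)).subset fun ξ h =>
      mem_closedBall_zero_iff.2 (Gh.norm h k)

theorem Good.dt {δ : ℝ} {τ : Ty} {y : Pt} (h : Good δ τ y) (k : 0 < δ) : y ∈ Dt τ := by
  obtain ⟨⟨σ, hσ⟩, h2⟩ := h
  exact ⟨(hσ.sg k).1, fun b i => k.trans_le (h2 b i).1⟩

theorem Dt_cell (τ : Ty) : Dt τ ⊆ Cell := fun _ h =>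
  cell_of_valid h.1 fun i => ⟨(h.2 true i).le, h.2 false i⟩

theorem isOpen_Dt (τ : Ty) : IsOpen (Dt τ) := by
  unfold Dt WV HP
  simp only [Set.ofPred_and, Set.ofPred_forall]
  refine IsOpen.inter (isOpen_iInter_of_finite fun b => isOpen_iInter_of_finite fun i => ?_)
    (isOpen_iInter_of_finite fun b => isOpen_iInter_of_finite fun i => ?_)
  · exact isOpen_lt continuous_const ((u4_cont τ b i).comp continuous_fst)
  · exact isOpen_lt continuous_const ((continuous_ev _).comp continuous_snd)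

theorem Good.ar {δ : ℝ} {τ : Ty} {y : Pt} (h : Good δ τ y) (k : 0 < δ) (i : Fin 3) :
    δ ^ 2 ≤ ar y i := by
  obtain ⟨⟨σ, hσ⟩, h2⟩ := h
  rw [u4_ar τ, pow_two]
  have a := mul_le_mul (hσ.1 true i).1 (h2 false i).1 k.le (k.le.trans (hσ.1 true i).1)
  have b := mul_nonneg (k.le.trans (hσ.1 false i).1) (k.le.trans (h2 true i).1)
  linarith

/-- Pairing of good widths with good heights. -/
theorem Om_good {δ δ' : ℝ} {τ : Ty} {σ : Fin 3 → Bool} {ξ η : V} (h : Gw δ τ σ ξ) (k : 0 < δ)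
    (h' : Gh δ' τ η) (k' : 0 < δ') : δ * δ' ≤ Om ξ η ∧ Om ξ η ≤ 6 / (δ * δ') := by
  have lo : ∀ b c i, δ * δ' ≤ wd τ ξ b i * ev (ed τ c i) η := fun b c i =>
    mul_le_mul (h.1 b i).1 (h' c i).1 k'.le (k.le.trans (h.1 b i).1)
  have hi : ∀ b c i, wd τ ξ b i * ev (ed τ c i) η ≤ δ⁻¹ * δ'⁻¹ := fun b c i =>
    mul_le_mul (h.1 b i).2 (h' c i).2 (k'.le.trans (h' c i).1) (inv_nonneg.2 k.le)
  have p := mul_pos k k'
  rw [u4_Om τ, Fin.sum_univ_three, div_eq_mul_inv, mul_inv]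
  constructor
  · linarith [lo true false 0, lo true false 1, lo true false 2, lo false true 0,
      lo false true 1, lo false true 2]
  · linarith [hi true false 0, hi true false 1, hi true false 2, hi false true 0,
      hi false true 1, hi false true 2]

theorem Bnd.path {τ : Ty} {η a : V} {m M : ℝ} (h : Bnd τ η a m M) (ξ : V) (n : ℕ) :
    Bnd (path τ ξ n).1 (ac (path τ ξ n).2 η) (ac (path τ ξ n).2 a) m M := by
  intro b i
  have p := path_nonneg (τ := τ) (a := a - m • η)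
    (fun b i => by rw [ev_sub, ev_smul]; linarith [(h b i).1]) ξ n b i
  have q := path_nonneg (τ := τ) (a := M • η - a)
    (fun b i => by rw [ev_sub, ev_smul]; linarith [(h b i).2]) ξ n b i
  rw [ac_sub, ac_smul, ev_sub, ev_smul] at p q
  constructor <;> linarith

theorem u4_Om_nonneg {τ : Ty} {ξ a : V} (k : WV τ ξ) (h : ∀ b i, 0 ≤ ev (ed τ b i) a) :
    0 ≤ Om ξ a := by
  rw [u4_Om τ]
  exact Finset.sum_nonneg fun i _ =>
    add_nonneg (mul_nonneg (k _ _).le (h _ _)) (mul_nonneg (k _ _).le (h _ _))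

theorem Bnd.ratio {τ : Ty} {ξ η a : V} {m M : ℝ} (h : Bnd τ η a m M) (k : WV τ ξ) (l : HV τ η) :
    0 < Om ξ η ∧ m ≤ Om ξ a / Om ξ η ∧ Om ξ a / Om ξ η ≤ M := by
  have p : 0 < Om ξ η := by
    rw [u4_Om τ]
    exact Finset.sum_pos (fun i _ => add_pos_of_pos_of_nonneg (mul_pos (k _ _) (l i).2)
      (mul_nonneg (k _ _).le (l i).1)) Finset.univ_nonempty
  have q := u4_Om_nonneg (a := a - m • η) k
    fun b i => by rw [ev_sub, ev_smul]; linarith [(h b i).1]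
  have r := u4_Om_nonneg (a := M • η - a) k
    fun b i => by rw [ev_sub, ev_smul]; linarith [(h b i).2]
  rw [Om_sub, Om_smul] at q r
  exact ⟨p, (le_div_iff₀ p).2 (by linarith), (div_le_iff₀ p).2 (by linarith)⟩

theorem Bnd.close {τ : Ty} {ξ η a : V} {m M H : ℝ} (h : Bnd τ η a m M) (k : WV τ ξ) (l : HV τ η)
    (n : Low τ η H) : ‖a - (Om ξ a / Om ξ η) • η‖ ≤ 2 * (M - m) * H := by
  obtain ⟨-, p, q⟩ := h.ratio k l
  generalize Om ξ a / Om ξ η = r at p q ⊢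
  rw [mul_assoc]
  refine norm_le_edges (τ := τ) fun b i => ?_
  rw [ev_sub, ev_smul]
  have e0 := u2_hv0 l b i
  have e1 := n b i
  have e2 := h b i
  have e3 : (M - m) * ev (ed τ b i) η ≤ (M - m) * H :=
    mul_le_mul_of_nonneg_left e1 (by linarith)
  have e4 := mul_nonneg (sub_nonneg.2 p) e0
  have e5 := mul_nonneg (sub_nonneg.2 q) e0
  rw [abs_le]
  constructor <;> nlinarith [e2.1, e2.2]

theorem BndAt.mono {τ : Ty} {y : Pt} {t t' : ℝ} {a : V} {m M : ℝ} (h : BndAt τ y t a m M)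
    (b : Base τ y t) (k : t ≤ t') : BndAt τ y t' a m M := by
  unfold BndAt at h ⊢
  rw [(St_add b k).1]
  simp only [ac_mul]
  exact h.path _ _

theorem mb_St {δ : ℝ} {τ : Ty} {y : Pt} {t : ℝ} (h : Gh δ τ y.2) (k : 0 < δ) (b : Base τ y t) :
    Mb (St τ y t).2 (4 * Real.exp t / δ) := by
  refine mb_of_norm fun a => ?_
  have r0 : 0 ≤ 2 * ‖a‖ / δ := by positivity
  have h0 : Bnd τ y.2 a (-(2 * ‖a‖ / δ)) (2 * ‖a‖ / δ) := by
    intro c i
    have p := abs_le.1 (abs_ed_le τ c i a)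
    have q : 2 * ‖a‖ / δ * δ ≤ 2 * ‖a‖ / δ * ev (ed τ c i) y.2 :=
      mul_le_mul_of_nonneg_left (h c i).1 r0
    rw [div_mul_cancel₀ _ k.ne'] at q
    constructor <;> linarith [p.1, p.2]
  have h1 : Bnd (St τ y t).1 (ac (St τ y t).2 y.2) (ac (St τ y t).2 a) _ _ := h0.path y.1 _
  have e : 4 * Real.exp t / δ * ‖a‖ = 2 * (2 * ‖a‖ / δ * Real.exp t) := by ring
  rw [e]
  refine norm_le_edges (τ := (St τ y t).1) fun c i => ?_
  have q := mul_le_mul_of_nonneg_left (b.low c i) r0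
  rw [abs_le]
  constructor <;> linarith [(h1 c i).1, (h1 c i).2]

/-- Points of a cone pulled back along a path stay bounded. -/
theorem back_norm {τ τ' : Ty} {M : Mat} (h : ∀ ζ, WVc τ' (ac M ζ) → WVc τ ζ) {δ δ' c : ℝ}
    (k : 0 < δ) (k' : 0 < δ') (hc : 0 < c) {σ σ' : Fin 3 → Bool} {ζ ξ : V}
    (hz : Gw δ τ' σ (c • ac M ζ)) (hx : Gw δ' τ' σ' (c • ac M ξ)) :
    ‖ζ‖ ≤ 4 / (δ * δ') * ‖ξ‖ := by
  have K0 : 0 < δ⁻¹ * δ'⁻¹ := by positivity
  have p : WVc τ ζ := h ζ fun b i => by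
    have := k.le.trans (hz.1 b i).1
    rw [u4_wd_smul] at this
    exact (mul_nonneg_iff_of_pos_left hc).1 this
  have q : WVc τ ((δ⁻¹ * δ'⁻¹) • ξ - ζ) := h _ fun b i => by
    have a1 := (hz.1 b i).2
    have a2 := mul_le_mul_of_nonneg_left (hx.1 b i).1 K0.le
    rw [u4_wd_smul] at a1 a2
    rw [mul_assoc, inv_mul_cancel₀ k'.ne', mul_one] at a2
    rw [ac_sub, ac_smul, u4_wd_sub, u4_wd_smul]
    refine (mul_nonneg_iff_of_pos_left hc).1 ?_
    linarith
  have e : 4 / (δ * δ') * ‖ξ‖ = 2 * (δ⁻¹ * δ'⁻¹ * (2 * ‖ξ‖)) := by field_simp; ring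
  rw [e]
  refine norm_le_edges (τ := τ) fun b i => ?_
  have a1 := q b i
  rw [u4_wd_sub, u4_wd_smul] at a1
  have a2 := mul_le_mul_of_nonneg_left (abs_le.1 (u4_wd_le τ ξ b i)).2 K0.le
  rw [u4_abs, abs_of_nonneg (p b i)]
  linarith

theorem u4_drop {τ : Ty} {ξ : V} {W : ℝ} {n : ℕ} (h : PV τ ξ n)
    (k : ∀ b i, W ≤ wd (path τ ξ n).1 (ac (path τ ξ n).2 ξ) b i) :
    sumW (path τ ξ n).1 (ac (path τ ξ n).2 ξ) + n * W ≤ sumW τ ξ := by
  induction n with
  | zero => simp [path, ac_one]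
  | succ n ih =>
    have v := (h n (Nat.le_succ n)).1
    rw [u2_succ] at k ⊢
    simp only [ac_mul] at k ⊢
    have k0 : ∀ b j, W ≤ wd (path τ ξ n).1 (ac (path τ ξ n).2 ξ) b j := fun b j => by
      obtain ⟨i, hi⟩ := step_old (path τ ξ n).1 (sg (path τ ξ n).1 (ac (path τ ξ n).2 ξ)) b j
      exact (k b i).trans ((u2_edge hi _).2 v)
    obtain ⟨b, i, hb⟩ := step_sumW v
    have := ih (u2_pv h) k0
    push_cast
    linarith [k0 b i]

theorem u4_pv_add {τ : Ty} {ξ : V} {n k : ℕ} (h : PV τ ξ (n + k)) :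
    PV (path τ ξ n).1 (ac (path τ ξ n).2 ξ) k := by
  intro j hj
  have := h (n + j) (by omega)
  rw [path_add] at this
  simpa only [ac_mul] using this

theorem u4_gap {δ : ℝ} (k : 0 < δ) {τ : Ty} {ξ : V} {n j : ℕ} {σ σ' : Fin 3 → Bool}
    (h : PV τ ξ (n + j)) (g : Gw δ (path τ ξ n).1 σ (ac (path τ ξ n).2 ξ))
    (g' : Gw δ (path τ ξ (n + j)).1 σ' (ac (path τ ξ (n + j)).2 ξ)) :
    j ≤ ⌈6 * δ⁻¹ / δ⌉₊ := by
  rw [path_add] at g'
  simp only [ac_mul] at g'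
  have d := u4_drop (u4_pv_add h) fun b i => (g'.1 b i).1
  have lo : 0 ≤ sumW (path (path τ ξ n).1 (ac (path τ ξ n).2 ξ) j).1
      (ac (path (path τ ξ n).1 (ac (path τ ξ n).2 ξ) j).2 (ac (path τ ξ n).2 ξ)) :=
    Finset.sum_nonneg fun b _ => Finset.sum_nonneg fun i _ => k.le.trans (g'.1 b i).1
  have hi : sumW (path τ ξ n).1 (ac (path τ ξ n).2 ξ) ≤ 6 * δ⁻¹ := by
    unfold sumW
    rw [Fintype.sum_bool, Fin.sum_univ_three, Fin.sum_univ_three]
    linarith [(g.1 true 0).2, (g.1 true 1).2, (g.1 true 2).2, (g.1 false 0).2, (g.1 false 1).2,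
      (g.1 false 2).2]
  have : (j : ℝ) ≤ 6 * δ⁻¹ / δ := (le_div_iff₀ k).2 (by linarith)
  exact_mod_cast this.trans (Nat.le_ceil _)

/-- Bounded overlap: each step lowers `sumW` by at least the least width. -/
theorem overlap {δ : ℝ} (k : 0 < δ) : ∃ C : ℕ, ∀ (τ : Ty) (ζ : V) (c : ℝ), 0 < c →
    {B : Ty × Mat × (Fin 3 → Bool) | Act τ B.1 B.2.1 B.2.2 ∧
      Gw δ B.1 B.2.2 (c • ac B.2.1 ζ)}.encard ≤ C := by
  refine ⟨⌈6 * δ⁻¹ / δ⌉₊ + 1, fun τ ζ c _ => ?_⟩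
  simp only [← ac_smul]
  generalize c • ζ = ξ
  let N : Set ℕ := {n | PV τ ξ n ∧ ∃ σ, Gw δ (path τ ξ n).1 σ (ac (path τ ξ n).2 ξ)}
  let f : ℕ → Ty × Mat × (Fin 3 → Bool) := fun n =>
    ((path τ ξ n).1, (path τ ξ n).2, sg (path τ ξ n).1 (ac (path τ ξ n).2 ξ))
  have s1 : {B : Ty × Mat × (Fin 3 → Bool) | Act τ B.1 B.2.1 B.2.2 ∧
      Gw δ B.1 B.2.2 (ac B.2.1 ξ)} ⊆ f '' N := by
    rintro ⟨τ', M, σ⟩ ⟨a, g⟩
    obtain ⟨n, p, e⟩ := a.2.2 ξ (g.sg k)
    refine ⟨n, ⟨p, σ, by rw [e]; exact g⟩, ?_⟩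
    simp only [f, e]
    rw [(sg_iff.1 (g.sg k)).2.2]
  have s2 : N ⊆ ↑(Finset.Ico (sInf N) (sInf N + (⌈6 * δ⁻¹ / δ⌉₊ + 1))) := by
    intro n hn
    obtain ⟨j, rfl⟩ := Nat.exists_eq_add_of_le (Nat.sInf_le hn)
    obtain ⟨-, σ, g⟩ := Nat.sInf_mem ⟨_, hn⟩
    obtain ⟨p, σ', g'⟩ := hn
    have := u4_gap k p g g'
    simp only [Finset.coe_Ico, Set.mem_Ico]
    omega
  refine (Set.encard_le_encard s1).trans ((Set.encard_image_le _ _).trans
    ((Set.encard_le_encard s2).trans ?_))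
  rw [Set.encard_coe_eq_coe_finsetCard, Nat.card_Ico, Nat.add_sub_cancel_left]

end Pool.Agent.TW
end

-- part Pool.Agent.Lib.MP_4eaecc_an.N1b
section

/-! Edges of the algorithm are counted classes; thin edges are rare on a line. -/

namespace Pool.Agent.TW

open Matrix MeasureTheory Filter Topology
open scoped ENNReal NNReal

/-- The thresholds. -/
noncomputable def n1bT (ε : ℝ) : ℕ → ℝ
  | 0 => 1 / 2
  | j + 1 => ε * n1bT ε j ^ 2

theorem n1b_T {ε : ℝ} (h0 : 0 < ε) (h1 : ε ≤ 1) (j : ℕ) : 0 < n1bT ε j ∧ n1bT ε j ≤ 1 / 2 := by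
  induction j with
  | zero => simp [n1bT]
  | succ j ih =>
    obtain ⟨a, b⟩ := ih
    rw [n1bT]
    exact ⟨by positivity, by nlinarith [mul_pos a a]⟩

theorem n1b_anti {ε : ℝ} (h0 : 0 < ε) (h1 : ε ≤ 1) : Antitone (n1bT ε) := by
  refine antitone_nat_of_succ_le fun j => ?_
  obtain ⟨a, b⟩ := n1b_T h0 h1 j
  rw [n1bT]
  nlinarith [mul_pos a a]

theorem n1b_five (ε : ℝ) : n1bT ε 5 = ε ^ 31 / 2 ^ 32 := by
  simp only [n1bT]
  ring

theorem n1b_h {τ : Ty} {η : V} (k : HV τ η) (b : Bool) (i : Fin 3) : 0 ≤ ev (ed τ b i) η := by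
  cases b
  · exact (k i).2.le
  · exact (k i).1

theorem n1b_abs {τ : Ty} {ξ : V} (h : WV τ ξ) (b : Bool) (i : Fin 3) :
    |ev (ed τ b i) ξ| = wd τ ξ b i := by
  have := h b i
  cases b
  · exact abs_of_neg (neg_pos.1 this)
  · exact abs_of_pos this

theorem n1b_adj {τ : Ty} {y : Pt} (h : WV τ y.1) (k : HV τ y.2) {i j : Fin 3} (a : Adj τ i j)
    {A T : ℝ} (hA : area y ≤ A) (hT : 0 < T) :
    (T ≤ ev (ed τ true i) y.2 → wd τ y.1 false j ≤ 2 * A / T) ∧
      (T ≤ ev (ed τ false j) y.2 → wd τ y.1 true i ≤ 2 * A / T) := by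
  have e := adj_le h k a
  have p1 := h true i
  have p2 := h false j
  have q1 := mul_nonneg p1.le (k j).2.le
  have q2 := mul_nonneg p2.le (k i).1
  constructor <;> intro t <;> rw [le_div_iff₀ hT]
  · have := mul_le_mul_of_nonneg_left t p2.le
    change _ ≤ _ * ev (eR τ i) y.2 at this
    linarith
  · have := mul_le_mul_of_nonneg_left t p1.le
    change _ ≤ _ * ev (eL τ j) y.2 at this
    linarith

theorem n1b_grow {τ : Ty} {y : Pt} (h : WV τ y.1) (k : HV τ y.2) {A : ℝ} (hA : area y ≤ A)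
    {T : ℕ → ℝ} (hT : ∀ j, 0 < T j) (ha : Antitone T) (h0 : ∃ b i, T 0 ≤ ev (ed τ b i) y.2)
    (no : ∀ j < 5, ∀ b i, wd τ y.1 b i ≤ 2 * A / T j → T (j + 1) ≤ ev (ed τ b i) y.2)
    (b : Bool) (i : Fin 3) : T 5 ≤ ev (ed τ b i) y.2 := by
  classical
  let S : ℕ → Finset (Bool × Fin 3) := fun j =>
    Finset.univ.filter fun p => T j ≤ ev (ed τ p.1 p.2) y.2
  have mem : ∀ j p, p ∈ S j ↔ T j ≤ ev (ed τ p.1 p.2) y.2 := fun j p => by simp [S]
  have sub : ∀ j, S j ⊆ S (j + 1) := fun j p hp =>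
    (mem _ p).2 ((ha j.le_succ).trans ((mem _ p).1 hp))
  have six : (Finset.univ : Finset (Bool × Fin 3)).card = 6 := by simp
  have key : ∀ j ≤ 5, j + 1 ≤ (S j).card := by
    intro j
    induction j with
    | zero =>
      obtain ⟨b, i, hb⟩ := h0
      exact fun _ => Finset.card_pos.2 ⟨(b, i), (mem _ _).2 hb⟩
    | succ j ih =>
      intro hj
      have ih' := ih (by omega)
      by_cases e : S j = Finset.univ
      · have := Finset.card_le_card (sub j)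
        rw [e, six] at this
        omega
      · obtain ⟨p, q, a, c⟩ := adj_conn τ (S j) (Finset.card_pos.1 (by omega)) e
        obtain ⟨a1, a2⟩ := n1b_adj h k a hA (hT j)
        have : S j ⊂ S (j + 1) := by
          rw [Finset.ssubset_iff_of_subset (sub j)]
          rcases c with ⟨c1, c2⟩ | ⟨c1, c2⟩
          · exact ⟨_, (mem _ _).2 (no j (by omega) false q (a1 ((mem _ _).1 c1))), c2⟩
          · exact ⟨_, (mem _ _).2 (no j (by omega) true p (a2 ((mem _ _).1 c2))), c1⟩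
        have := Finset.card_lt_card this
        omega
  have e : S 5 = Finset.univ := Finset.eq_univ_of_card _ (le_antisymm (Finset.card_le_univ _)
    (by rw [← Finset.card_univ, six]; exact key 5 le_rfl))
  exact (mem 5 (b, i)).1 (e ▸ Finset.mem_univ _)

theorem n1b_first {τ : Ty} {y : Pt} (l : Low τ y.2 1)
    (h : ¬ Low (path τ y.1 1).1 (ac (path τ y.1 1).2 y.2) 1) :
    ∃ b i, 1 / 2 ≤ ev (ed τ b i) y.2 := by
  by_contra c
  simp only [not_exists, not_le] at c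
  refine h fun b i => ?_
  have e : path τ y.1 1 = stepS τ (sg τ y.1) := by
    simp [path, ac_one]
  rw [e, ← ev_vecMul]
  rcases step_edge τ (sg τ y.1) b i with ⟨j, hj⟩ | ⟨j, hj⟩
  · rw [hj]; exact l b j
  · obtain ⟨m, hm⟩ := (dg_eq τ j).1
    rw [hj, hm, add_ev]
    have c1 : ev (eR τ j) y.2 < 1 / 2 := c true j
    have c2 : ev (eL τ m) y.2 < 1 / 2 := c false m
    linarith

/-- Thresholds `T 0 = 1 / 2`, `T (j + 1) = ε (T j)²`: a state at its stage is good unless some edge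
or diagonal has a small product of bounds for height and width. -/
theorem hier {A2 : ℝ} (hA : 0 < A2) : ∃ C α : ℝ, 0 < C ∧ 0 < α ∧ ∀ δ : ℝ, 0 < δ → δ ≤ 1 →
    ∃ (x w : Fin 7 → ℝ), (∀ j, 0 ≤ x j ∧ 0 ≤ w j ∧ x j * w j ≤ C * δ ^ α ∧ w j ≤ C / δ) ∧
    (1 ≤ C * δ ^ α ∨ ∀ (τ : Ty) (y : Pt), Base τ y 0 → area y ≤ A2 →
      ¬ Low (path τ y.1 1).1 (ac (path τ y.1 1).2 y.2) 1 → ¬ Good δ τ y →
      ∃ (j : Fin 7) (e : Z4), ((∃ b i, e = ed τ b i) ∨ ∃ i, e = dg τ i) ∧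
        ev e y.2 ≤ x j ∧ |ev e y.1| ≤ w j) := by
  obtain ⟨B, B1, B2⟩ : ∃ B : ℝ, 1 ≤ B ∧ 2 * A2 ≤ B := ⟨_, le_max_left _ _, le_max_right _ _⟩
  obtain ⟨α, hα⟩ : ∃ α : ℝ, α = ((31 : ℕ) : ℝ)⁻¹ := ⟨_, rfl⟩
  have α0 : 0 < α := by rw [hα]; positivity
  have α1 : α ≤ 1 := by rw [hα]; norm_num
  have D1 : (1 : ℝ) ≤ 2 ^ 32 * B := by nlinarith
  have K1 : 1 ≤ (2 ^ 32 * B) ^ α := Real.one_le_rpow D1 α0.le
  refine ⟨(2 + A2) * (2 ^ 32 * B) ^ α, α, by positivity, α0, fun δ hδ δ1 => ?_⟩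
  have d0 : 0 < δ ^ α := Real.rpow_pos_of_pos hδ α
  have d1 : δ ≤ δ ^ α := by simpa using Real.rpow_le_rpow_of_exponent_ge hδ δ1 α1
  obtain ⟨ε, hε⟩ : ∃ ε : ℝ, ε = (2 ^ 32 * B) ^ α * δ ^ α := ⟨_, rfl⟩
  have ε0 : 0 < ε := by rw [hε]; positivity
  have e31 : ε ^ 31 = 2 ^ 32 * B * δ := by
    rw [hε, ← Real.mul_rpow (by positivity) hδ.le, hα,
      Real.rpow_inv_natCast_pow (by positivity) (by norm_num)]
  have eC : (2 + A2) * (2 ^ 32 * B) ^ α * δ ^ α = (2 + A2) * ε := by rw [hε, mul_assoc]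
  have C1 : 1 ≤ (2 + A2) * (2 ^ 32 * B) ^ α := by nlinarith
  rw [eC]
  rcases le_total 1 ε with ε1 | ε1
  · refine ⟨0, 0, fun j => ⟨le_rfl, le_rfl, ?_, ?_⟩, Or.inl (by nlinarith)⟩
    · simp only [Pi.zero_apply, mul_zero]; positivity
    · simp only [Pi.zero_apply]; positivity
  have hT := n1b_T ε0 ε1
  have ha := n1b_anti ε0 ε1
  have T5 : n1bT ε 5 = B * δ := by rw [n1b_five, e31]; ring
  have Bd : 2 * A2 / (B * δ) ≤ δ⁻¹ := by
    rw [div_le_iff₀ (by positivity), mul_left_comm, inv_mul_cancel₀ hδ.ne', mul_one]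
    exact B2
  have i1 : δ⁻¹ ≤ (2 + A2) * (2 ^ 32 * B) ^ α / δ := by
    rw [inv_eq_one_div]
    exact div_le_div_of_nonneg_right C1 hδ.le
  have i2 : 1 ≤ δ⁻¹ := one_le_inv_iff₀.2 ⟨hδ, δ1⟩
  have de : δ ≤ ε := by rw [hε]; nlinarith
  refine ⟨fun j => if j.1 < 5 then n1bT ε (j.1 + 1) else 2,
    fun j => if j.1 < 5 then 2 * A2 / n1bT ε j.1 else δ, fun j => ?_,
    Or.inr fun τ y b hy hl hg => ?_⟩
  · dsimp only
    split_ifs with c
    · have t := hT j.1
      refine ⟨(hT _).1.le, div_nonneg (by positivity) t.1.le, ?_, le_trans ?_ (Bd.trans i1)⟩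
      · have e : n1bT ε (j.1 + 1) * (2 * A2 / n1bT ε j.1) = 2 * A2 * ε * n1bT ε j.1 := by
          rw [n1bT]
          field_simp [t.1.ne']
        rw [e]
        nlinarith [mul_le_mul_of_nonneg_left t.2 (show 0 ≤ 2 * A2 * ε by positivity)]
      · rw [← T5]
        exact div_le_div_of_nonneg_left (by positivity) (hT 5).1 (ha c.le)
    · exact ⟨zero_le_two, hδ.le, by nlinarith, δ1.trans (i2.trans i1)⟩
  obtain ⟨h, k, -, l⟩ := b
  rw [Real.exp_zero] at l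
  by_contra c
  simp only [not_exists, not_and, not_le] at c
  have all := n1b_grow h k hy (fun j => (hT j).1) ha (n1b_first l hl) fun j hj b i t => by
    by_contra s
    have := c ⟨j, by omega⟩ (ed τ b i) (Or.inl ⟨b, i, rfl⟩)
    simp only [hj, if_true, n1b_abs h] at this
    exact absurd t (not_le.2 (this (not_le.1 s).le))
  rw [T5] at all
  have five : ∀ e : Z4, ((∃ b i, e = ed τ b i) ∨ ∃ i, e = dg τ i) → ev e y.2 ≤ 2 →
      δ < |ev e y.1| := fun e he t => by simpa using c 5 e he (by simpa using t)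
  have Bδ : δ ≤ B * δ := le_mul_of_one_le_left hδ.le B1
  refine hg ⟨⟨sg τ y.1, fun b i => ⟨?_, ?_⟩, fun i => ?_⟩,
    fun b i => ⟨Bδ.trans (all b i), (l b i).trans i2⟩⟩
  · rw [← n1b_abs h]
    exact (five _ (Or.inl ⟨b, i, rfl⟩) ((l b i).trans one_le_two)).le
  · obtain ⟨a1, a2⟩ := n1b_adj h k (Or.inl rfl : Adj τ i i) hy (T := B * δ) (by positivity)
    cases b
    · exact (a1 (all true i)).trans Bd
    · exact (a2 (all false i)).trans Bd
  · obtain ⟨m, hm⟩ := (dg_eq τ i).1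
    have t := five _ (Or.inr ⟨i, rfl⟩) (by
      rw [hm, add_ev]
      have c1 : ev (eR τ i) y.2 ≤ 1 := l true i
      have c2 : ev (eL τ m) y.2 ≤ 1 := l false m
      linarith)
    simp only [sg, decide_eq_true_eq]
    split_ifs with s
    · rw [abs_of_pos s] at t
      exact t.le
    · rw [abs_of_nonpos (not_lt.1 s)] at t
      linarith

end Pool.Agent.TW
end

-- part Pool.Agent.Lib.MP_4eaecc_an.U3
section

/-! Measurability, generic points, averaging along lines. -/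

namespace Pool.Agent.TW

open Matrix MeasureTheory Filter Topology
open scoped ENNReal

theorem u3_count : Countable (Ty × Mat) := by
  have : Countable Mat := inferInstanceAs (Countable (Fin 4 → Fin 4 → ℤ))
  infer_instance

theorem u3_comp {Z ι : Type} [MeasurableSpace Z] (hι : Countable ι) {f : Z → ι}
    (hf : ∀ q, MeasurableSet {z | f z = q}) (p : ι → Z → Prop)
    (hp : ∀ q, MeasurableSet {z | p q z}) : MeasurableSet {z | p (f z) z} := by
  have e : {z | p (f z) z} = ⋃ q, {z | f z = q} ∩ {z | p q z} := by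
    ext z
    simp
  rw [e]
  exact MeasurableSet.iUnion fun q => (hf q).inter (hp q)

theorem u3_lt {Z : Type} [MeasurableSpace Z] {f g : Z → ℝ} (hf : Measurable f)
    (hg : Measurable g) : Measurable fun z => f z < g z :=
  measurableSet_setOfPred.1 (measurableSet_lt hf hg)

theorem u3_le {Z : Type} [MeasurableSpace Z] {f g : Z → ℝ} (hf : Measurable f)
    (hg : Measurable g) : Measurable fun z => f z ≤ g z :=
  measurableSet_setOfPred.1 (measurableSet_le hf hg)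

theorem u3_ev (e : Z4) : Measurable (ev e) := (continuous_ev e).measurable

theorem u3_ac (P : Mat) : Measurable (ac P) := (continuous_ac P).measurable

theorem u3_wd (τ : Ty) (b : Bool) (i : Fin 3) : Measurable fun ξ : V => wd τ ξ b i := by
  cases b
  exacts [(u3_ev _).neg, u3_ev _]

theorem u3_low (τ : Ty) (H : ℝ) : Measurable fun η : V => Low τ η H :=
  .forall fun _ => .forall fun _ => u3_le (u3_ev _) measurable_const

theorem u3_hv (τ : Ty) : Measurable fun η : V => HV τ η :=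
  .forall fun _ => (u3_le measurable_const (u3_ev _)).and (u3_lt measurable_const (u3_ev _))

theorem u3_nz (τ : Ty) : Measurable fun ξ : V => NZ τ ξ :=
  .forall fun _ => (measurableSet_setOfPred.1 (measurableSet_eq_fun (u3_ev _) measurable_const)).not

theorem u3_good (δ : ℝ) (τ : Ty) : Measurable fun y : Pt => Good δ τ y := by
  have h1 : ∀ σ, Measurable fun ξ : V => Gw δ τ σ ξ := fun σ => by
    refine Measurable.and (.forall fun _ => .forall fun _ =>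
      (u3_le measurable_const (u3_wd _ _ _)).and (u3_le (u3_wd _ _ _) measurable_const))
      (.forall fun i => ?_)
    split_ifs
    exacts [u3_le measurable_const (u3_ev _), u3_le (u3_ev _) measurable_const]
  have h2 : Measurable fun η : V => Gh δ τ η := .forall fun _ => .forall fun _ =>
    (u3_le measurable_const (u3_ev _)).and (u3_le (u3_ev _) measurable_const)
  exact (Measurable.exists fun σ => (h1 σ).comp measurable_fst).and (h2.comp measurable_snd)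

theorem u3_sg (τ : Ty) (σ : Fin 3 → Bool) : MeasurableSet {ξ : V | sg τ ξ = σ} := by
  have e : {ξ : V | sg τ ξ = σ} = {ξ | ∀ i, (0 < ev (dg τ i) ξ ↔ σ i = true)} := by
    ext ξ
    simp only [Set.mem_ofPred_eq, funext_iff, sg]
    refine forall_congr' fun i => ?_
    cases σ i <;> simp
  rw [e]
  exact measurableSet_setOfPred.2 (.forall fun i => (u3_lt measurable_const (u3_ev _)).iff
    measurable_const)

theorem meas_path (τ : Ty) (n : ℕ) (q : Ty × Mat) : MeasurableSet {ξ : V | path τ ξ n = q} := by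
  induction n generalizing q with
  | zero => exact MeasurableSet.const (((τ, 1) : Ty × Mat) = q)
  | succ n ih =>
    exact u3_comp u3_count ih
      (fun p ξ => ((stepS p.1 (sg p.1 (ac p.2 ξ))).1, (stepS p.1 (sg p.1 (ac p.2 ξ))).2 * p.2) = q)
      fun p => u3_comp (f := fun ξ => sg p.1 (ac p.2 ξ)) inferInstance
        (fun σ => u3_ac p.2 (u3_sg p.1 σ))
        (fun σ _ => ((stepS p.1 σ).1, (stepS p.1 σ).2 * p.2) = q) fun _ => MeasurableSet.const _

theorem u3_sInf (S : Set ℕ) (n : ℕ) :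
    sInf S = n ↔ (n ∈ S ∧ ∀ k, k < n → k ∉ S) ∨ (n = 0 ∧ ∀ k, k ∉ S) := by
  constructor
  · rintro rfl
    rcases S.eq_empty_or_nonempty with rfl | h
    · simp
    · exact Or.inl ⟨Nat.sInf_mem h, fun k => Nat.notMem_of_lt_sInf⟩
  · rintro (⟨h1, h2⟩ | ⟨rfl, h⟩)
    · exact le_antisymm (Nat.sInf_le h1) (not_lt.1 fun h => h2 _ h (Nat.sInf_mem ⟨n, h1⟩))
    · rw [Set.eq_empty_of_forall_notMem h, Nat.sInf_empty]

theorem u3_stage (τ : Ty) (H : ℝ) (n : ℕ) : MeasurableSet {y : Pt | stage τ y H = n} := by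
  have h : ∀ k, Measurable fun y : Pt =>
      ¬ Low (path τ y.1 (k + 1)).1 (ac (path τ y.1 (k + 1)).2 y.2) H := fun k =>
    (measurableSet_setOfPred.1 (u3_comp (f := fun y : Pt => path τ y.1 (k + 1)) u3_count
      (fun q => measurable_fst (meas_path τ (k + 1) q)) (fun q y => Low q.1 (ac q.2 y.2) H)
      fun q => measurableSet_setOfPred.2 ((u3_low _ _).comp ((u3_ac _).comp measurable_snd)))).not
  simp only [stage, u3_sInf]
  exact measurableSet_setOfPred.2 (((h n).and (.forall fun k => measurable_const.imp (h k).not)).or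
    (measurable_const.and (.forall fun k => (h k).not)))

theorem meas_St (τ : Ty) (t : ℝ) (q : Ty × Mat) : MeasurableSet {y : Pt | St τ y t = q} :=
  u3_comp (f := fun y : Pt => stage τ y (Real.exp t)) inferInstance (u3_stage τ _)
    (fun n y => path τ y.1 n = q) fun n => measurable_fst (meas_path τ n q)

theorem meas_comp (τ : Ty) (t : ℝ) (X : Ty × Mat → Set Pt) (h : ∀ q, MeasurableSet (X q)) :
    MeasurableSet {y : Pt | y ∈ X (St τ y t)} :=
  u3_comp (f := fun y : Pt => St τ y t) u3_count (meas_St τ t) (fun q y => y ∈ X q) h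

theorem meas_wv (τ : Ty) : MeasurableSet {ξ : V | WV τ ξ} :=
  measurableSet_setOfPred.2 (.forall fun _ => .forall fun _ => u3_lt measurable_const (u3_wd _ _ _))

theorem meas_gen (τ : Ty) : MeasurableSet {ξ : V | Gen τ ξ} :=
  measurableSet_setOfPred.2 (.forall fun n => measurableSet_setOfPred.1
    (u3_comp (f := fun ξ : V => path τ ξ n) u3_count (meas_path τ n)
      (fun q ξ => NZ q.1 (ac q.2 ξ)) fun _ => measurableSet_setOfPred.2 ((u3_nz _).comp (u3_ac _))))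

theorem meas_base (τ : Ty) (t : ℝ) : MeasurableSet {y : Pt | Base τ y t} :=
  (measurable_fst (meas_wv τ)).inter ((measurableSet_setOfPred.2 ((u3_hv τ).comp measurable_snd)).inter
    ((measurable_fst (meas_gen τ)).inter
      (measurableSet_setOfPred.2 ((u3_low τ _).comp measurable_snd))))

theorem meas_goodAt (δ : ℝ) (τ : Ty) (t : ℝ) : MeasurableSet {y : Pt | GoodAt δ τ y t} := by
  have h : Continuous (gt t) := by
    unfold gt
    fun_prop
  exact (meas_base τ t).inter (meas_comp τ t (fun q => {y | Good δ q.1 (gt t (acP q.2 y))})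
    fun q => measurableSet_setOfPred.2
      ((u3_good δ q.1).comp (h.comp (continuous_acP q.2)).measurable))

theorem u3_y (w : Par) : Continuous w.y := by
  refine Continuous.prodMk (continuous_pi fun i => ?_) continuous_const
  fin_cases i <;> simp [Par.E] <;> fun_prop

theorem meas_lev (w : Par) (t : ℝ) : Measurable fun z => w.lev z t := fun S _ =>
  (u3_y w).measurable (meas_comp .L t (fun q => {_y | ‖cs (q.2 *ᵥ w.v0)‖ ∈ S})
    fun _ => MeasurableSet.const _)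

theorem continuous_y (w : Par) : Continuous w.y := u3_y w

theorem continuous_om (w : Par) : Continuous w.om := by
  refine Continuous.prodMk (continuous_pi fun i => ?_) continuous_const
  fin_cases i <;> simp <;> fun_prop

theorem meas_ZR (R : ℝ) : MeasurableSet (ZR R) :=
  (measurableSet_le measurable_norm measurable_const).inter
    ((measurableSet_le measurable_const (measurable_pi_apply 0)).inter
      (measurableSet_le (measurable_pi_apply 0) measurable_const))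

theorem vol_ZR (R : ℝ) : volume (ZR R) ≤ ENNReal.ofReal ((2 * R) ^ 3) := by
  rcases le_or_gt 0 R with h | h
  · refine (measure_mono (t := Metric.closedBall 0 R) fun z hz =>
      mem_closedBall_zero_iff.2 hz.1).trans ?_
    rw [Real.volume_pi_closedBall _ h, Fintype.card_fin]
  · rw [Set.eq_empty_of_forall_notMem (s := ZR R) fun z hz =>
      absurd ((norm_nonneg z).trans hz.1) h.not_ge, measure_empty]
    exact bot_le

/-- The exceptional `s` are determined by a type, a matrix and an index. -/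
theorem gen_line {τ : Ty} {η : V} (h : HV τ η) (ξ : V) : ∀ᵐ s : ℝ, Gen τ (ξ + s • η) := by
  have := u3_count
  have h1 : ∀ᵐ s : ℝ, ∀ (q : Ty × Mat) (i : Fin 3),
      s ≠ -ev (dg q.1 i) (ac q.2 ξ) / ev (dg q.1 i) (ac q.2 η) :=
    ae_all_iff.2 fun q => ae_all_iff.2 fun i => compl_mem_ae_iff.2 (measure_singleton _)
  filter_upwards [h1] with s hs n i k
  have h2 := path_hv h (ξ + s • η) n
  generalize path τ (ξ + s • η) n = q at h2 k
  obtain ⟨j, hj⟩ := (dg_eq q.1 i).1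
  have h3 : 0 < ev (dg q.1 i) (ac q.2 η) := by
    rw [hj, add_ev]
    exact add_pos_of_nonneg_of_pos (h2 i).1 (h2 j).2
  refine hs q i ?_
  rw [ac_add, ac_smul, ev_add, ev_smul] at k
  rw [eq_div_iff h3.ne']
  linarith

theorem line_avg {E : Type} [NormedAddCommGroup E] [NormedSpace ℝ E] [MeasurableSpace E]
    [BorelSpace E] [SecondCountableTopology E] (μ : Measure E) [SFinite μ] [μ.IsAddRightInvariant]
    {X : Set E} (hX : MeasurableSet X) (ζ : E) (σ : ℝ) :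
    ENNReal.ofReal σ * μ X = ∫⁻ z, volume {s ∈ Set.Icc (0 : ℝ) σ | z + s • ζ ∈ X} ∂μ := by
  have hc : Continuous fun p : E × ℝ => p.1 + p.2 • ζ := by fun_prop
  have hS : MeasurableSet {p : E × ℝ | p.2 ∈ Set.Icc (0 : ℝ) σ ∧ p.1 + p.2 • ζ ∈ X} :=
    (measurable_snd measurableSet_Icc).inter (hc.measurable hX)
  refine Eq.trans ?_ ((Measure.prod_apply_symm hS).symm.trans (Measure.prod_apply hS))
  have h1 : ∀ s : ℝ, μ ((fun z => (z, s)) ⁻¹'
      {p : E × ℝ | p.2 ∈ Set.Icc (0 : ℝ) σ ∧ p.1 + p.2 • ζ ∈ X}) =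
      (Set.Icc (0 : ℝ) σ).indicator (fun _ => μ X) s := fun s => by
    by_cases h : s ∈ Set.Icc (0 : ℝ) σ
    · rw [Set.indicator_of_mem h, ← measure_preimage_add_right μ (s • ζ) X]
      congr 1
      ext z
      simp only [Set.mem_preimage, Set.mem_ofPred_eq, h, true_and]
    · rw [Set.indicator_of_notMem h]
      simp only [Set.preimage_ofPred_eq, h, false_and, Set.ofPred_false, measure_empty]
  simp only [h1]
  rw [lintegral_indicator_const measurableSet_Icc, Real.volume_Icc, sub_zero, mul_comm]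

theorem gen_ae (τ : Ty) : ∀ᵐ ξ : V, Gen τ ξ := by
  have h : HV τ 1 := fun i => by
    cases τ <;> fin_cases i <;> simp [eR, eL, ev_four]
  have h1 := line_avg (volume : Measure V) (meas_gen τ).compl 1 1
  rw [ENNReal.ofReal_one, one_mul] at h1
  refine h1.trans ((lintegral_congr fun ξ => ?_).trans lintegral_zero)
  exact measure_mono_null (fun s hs => hs.2) (gen_line h ξ)

end Pool.Agent.TW
end

-- part Pool.Agent.Lib.MP_4eaecc_an.G3
section

/-! Some core sees the class `v` and is not horizontal. -/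

namespace Pool.Agent.TW

open Matrix MeasureTheory Filter Topology
open scoped ENNReal NNReal

def g3q (j : ℤ) : Mat := !![1, 0, 0, 0; 0, 1, j, 0; 0, 0, 1, 0; 0, 0, 0, 1]

def g3p (j : ℤ) : Mat := !![1, 0, 0, 0; 0, 1, 0, 0; 0, 0, 1, 0; j, 0, 0, 1]

theorem g3_pow {y : Pt} (h : y ∈ Cell) (F : ℤ → Mat) {g g' : Mat} (h0 : F 0 = 1)
    (h1 : ∀ j, F (j + 1) = g * F j) (h2 : ∀ j, F (j - 1) = g' * F j)
    (hg : ∀ x ∈ Cell, Reach x g) (hg' : ∀ x ∈ Cell, Reach x g') (j : ℤ) : Reach y (F j) := by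
  induction j using Int.induction_on with
  | zero => exact h0 ▸ .refl h
  | succ n ih => exact h1 n ▸ ih.trans (hg _ ih.cell)
  | pred n ih => exact h2 (-n) ▸ ih.trans (hg' _ ih.cell)

theorem g3_q {y : Pt} (h : y ∈ Cell) (j : ℤ) : Reach y (g3q j) := by
  refine g3_pow h g3q (g := Tq) (g' := Tr) (by decide) (fun j => ?_) (fun j => ?_)
    (fun x hx => reach_free hx (by simp)) (fun x hx => reach_free hx (by simp)) j
  all_goals
    ext a b
    fin_cases a <;> fin_cases b <;> simp [g3q, Tq, Tr, Matrix.mul_apply, Fin.sum_univ_four]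
  all_goals ring

theorem g3_p {y : Pt} (h : y ∈ Cell) (j : ℤ) : Reach y (g3p j) := by
  refine g3_pow h g3p (g := Tp) (g' := Tm) (by decide) (fun j => ?_) (fun j => ?_)
    (fun x hx => reach_free hx (by simp)) (fun x hx => reach_free hx (by simp)) j
  all_goals
    ext a b
    fin_cases a <;> fin_cases b <;> simp [g3p, Tp, Tm, Matrix.mul_apply, Fin.sum_univ_four]
  all_goals ring

theorem g3_int {d a b : ℝ} (hd : 0 < d) (h : a + d < b) : ∃ j : ℤ, a < j * d ∧ j * d < b := by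
  refine ⟨⌊a / d⌋ + 1, ?_, ?_⟩
  · rw [← div_lt_iff₀ hd]
    exact_mod_cast Int.lt_floor_add_one (a / d)
  · have := (le_div_iff₀ hd).mp (Int.floor_le (a / d))
    push_cast
    linarith

theorem g3_cell {y : Pt} : y ∈ Cell ↔ 0 < y.1 0 * y.2 2 - y.2 0 * y.1 2 ∧
    0 < y.1 1 * y.2 2 - y.2 1 * y.1 2 ∧ 0 < y.1 0 * y.2 3 - y.2 0 * y.1 3 := by
  simp [Cell, Fin.forall_fin_succ, ar, dt, vec, sp, sq]

theorem exists_S {y : Pt} (h : y ∈ Cell) : (∃ n : ℤ, ∃ P, Reach y P ∧ P 0 = ![1, 0, 0, 0] ∧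
    P 2 = ![1, 1, n, 0]) ∧ (∃ n : ℤ, ∃ P, Reach y P ∧ P 2 = ![0, 0, 1, 0] ∧ P 0 = ![n, 0, 1, 1]) ∧
    ∃ n : ℤ, ∃ P, Reach y P ∧ P 2 = ![0, 0, 1, 0] ∧ P 0 = ![n, 0, -1, -1] := by
  obtain ⟨a0, a1, a2⟩ := g3_cell.mp h
  refine ⟨?_, ?_, ?_⟩
  · obtain ⟨j, j1, j2⟩ := g3_int a0
      (a := -(y.1 0 * y.2 2 - y.2 0 * y.1 2) - (y.1 0 * y.2 1 - y.2 0 * y.1 1))
      (b := y.1 1 * y.2 2 - y.2 1 * y.1 2 - (y.1 0 * y.2 1 - y.2 0 * y.1 1)) (by linarith)
    refine ⟨j + 1, Sp * g3q j, (g3_q h j).trans (reach_cond (g3_q h j).cell (by simp) ?_), ?_, ?_⟩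
    · rw [g3_cell]
      simp [acP, ac, ev_four, Sp, g3q]
      refine ⟨?_, ?_, ?_⟩ <;> linarith
    all_goals
      ext b
      fin_cases b <;> simp [g3q, Sp, Matrix.mul_apply, Fin.sum_univ_four]
  · obtain ⟨j, j1, j2⟩ := g3_int a0
      (a := y.1 2 * y.2 3 - y.2 2 * y.1 3 - (y.1 0 * y.2 2 - y.2 0 * y.1 2))
      (b := y.1 2 * y.2 3 - y.2 2 * y.1 3 + (y.1 0 * y.2 3 - y.2 0 * y.1 3)) (by linarith)
    refine ⟨1 + j, Sq * g3p j, (g3_p h j).trans (reach_cond (g3_p h j).cell (by simp) ?_), ?_, ?_⟩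
    · rw [g3_cell]
      simp [acP, ac, ev_four, Sq, g3p]
      refine ⟨?_, ?_, ?_⟩ <;> linarith
    all_goals
      ext b
      fin_cases b <;> simp [g3p, Sq, Matrix.mul_apply, Fin.sum_univ_four]
  · obtain ⟨j, j1, j2⟩ := g3_int a0
      (a := y.1 2 * y.2 3 - y.2 2 * y.1 3 - (y.1 0 * y.2 3 - y.2 0 * y.1 3))
      (b := y.1 2 * y.2 3 - y.2 2 * y.1 3 + (y.1 0 * y.2 2 - y.2 0 * y.1 2)) (by linarith)
    refine ⟨1 - j, Sr * g3p j, (g3_p h j).trans (reach_cond (g3_p h j).cell (by simp) ?_), ?_, ?_⟩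
    · rw [g3_cell]
      simp [acP, ac, ev_four, Sr, g3p]
      refine ⟨?_, ?_, ?_⟩ <;> linarith
    all_goals
      ext b
      fin_cases b <;> simp [g3p, Sr, Matrix.mul_apply, Fin.sum_univ_four, sub_eq_add_neg]

theorem g3_rho (a : V) : ac rho a 0 = a 2 := by simp [ac, ev_four, rho]

theorem g3_some {y : Pt} (h : y ∈ Cell) {v : V} (hv : v ≠ 0) : ∃ P, Reach y P ∧ ac P v 0 ≠ 0 := by
  by_contra hc
  push Not at hc
  obtain ⟨⟨n, P, p1, -, p2⟩, ⟨n', Q, q1, -, q2⟩, -⟩ := exists_S h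
  have h0 := hc 1 (.refl h)
  have h2 := hc rho (reach_free h (.inl rfl))
  have h1 := hc _ (p1.trans (reach_free p1.cell (.inl rfl)))
  have h3 := hc Q q1
  rw [ac_one] at h0
  rw [g3_rho] at h2
  rw [ac_mul, g3_rho, ac, p2, ev_four] at h1
  rw [ac, q2, ev_four] at h3
  simp [h0, h2] at h1 h3
  exact hv (funext fun i => by fin_cases i <;> simp [h0, h1, h2, h3])

theorem g3_hor {y : Pt} (h : y ∈ Cell) {v : V} (hv : v 0 ≠ 0) (h0 : y.2 0 = 0) :
    ∃ P, Reach y P ∧ ac P v 0 ≠ 0 ∧ ac P y.2 0 ≠ 0 := by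
  obtain ⟨a0, -, a2⟩ := g3_cell.mp h
  rw [h0, zero_mul, sub_zero] at a0 a2
  have hs : y.2 2 + y.2 3 ≠ 0 := fun e => by
    have : y.1 0 * (y.2 2 + y.2 3) = 0 := by rw [e, mul_zero]
    linarith
  obtain ⟨-, ⟨n, P, p1, p2, p3⟩, n', Q, q1, q2, q3⟩ := exists_S h
  by_cases k1 : ac P v 0 = 0
  swap
  · exact ⟨P, p1, k1, by simpa [ac, p3, ev_four, h0] using hs⟩
  by_cases k2 : ac Q v 0 = 0
  swap
  · refine ⟨Q, q1, k2, fun e => hs ?_⟩
    simp [ac, q3, ev_four, h0] at e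
    linarith
  have c1 := (g3_cell.mp p1.cell).1
  have c2 := (g3_cell.mp q1.cell).1
  simp [acP, ac, p2, p3, q2, q3, ev_four] at k1 k2 c1 c2
  have e : (n' : ℝ) = -n := mul_right_cancel₀ hv (by linarith)
  rw [e] at c2
  linarith

theorem core_pt {y : Pt} (h : y ∈ Cell) {v : V} (hv : v ≠ 0) :
    ∃ P, Reach y P ∧ ac P v 0 ≠ 0 ∧ ac P y.2 0 ≠ 0 := by
  obtain ⟨P, p1, p2⟩ := g3_some h hv
  by_cases k : ac P y.2 0 = 0
  · obtain ⟨Q, q1, q2, q3⟩ := g3_hor p1.cell p2 k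
    exact ⟨Q * P, p1.trans q1, by rwa [ac_mul], by rwa [ac_mul]⟩
  · exact ⟨P, p1, p2, k⟩

theorem core_unif {K : Set Pt} (hK : IsCompact K) (hc : K ⊆ Cell) : ∃ c : ℝ, 0 < c ∧
    ∀ y ∈ K, ∀ v : V, ∃ P, Reach y P ∧ c * ‖v‖ ≤ |ac P v 0| ∧ c ≤ |ac P y.2 0| ∧
      |ac P y.2 0| ≤ c⁻¹ ∧ |ac P y.1 0| ≤ c⁻¹ ∧ c ≤ ar (acP P y) 2 := by
  let U : ℕ → Set (Pt × V) := fun k => ⋃ P : Mat, {x | Reach x.1 P ∧
    1 / ((k : ℝ) + 1) < |ac P x.2 0| ∧ 1 / ((k : ℝ) + 1) < |ac P x.1.2 0| ∧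
    |ac P x.1.2 0| < k + 1 ∧ |ac P x.1.1 0| < k + 1 ∧ 1 / ((k : ℝ) + 1) < ar (acP P x.1) 2}
  have hO : ∀ k, IsOpen (U k) := fun k => isOpen_iUnion fun P => by
    have c := (continuous_apply 0).comp (continuous_ac P)
    have c1 := (c.comp (continuous_snd (X := Pt) (Y := V))).abs
    have c2 := (c.comp (continuous_fst (X := Pt) (Y := V)).snd).abs
    have c3 := (c.comp (continuous_fst (X := Pt) (Y := V)).fst).abs
    have c4 : Continuous fun y : Pt => ar y 2 := by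
      simp only [ar, dt, vec]
      fun_prop
    exact ((isOpen_reach P).preimage continuous_fst).inter ((isOpen_lt continuous_const c1).inter
      ((isOpen_lt continuous_const c2).inter ((isOpen_lt c2 continuous_const).inter
      ((isOpen_lt c3 continuous_const).inter (isOpen_lt continuous_const
        (c4.comp ((continuous_acP P).comp continuous_fst)))))))
  have hM : Monotone U := fun k l hkl x hx => by
    obtain ⟨P, p0, p1, p2, p3, p4, p5⟩ := Set.mem_iUnion.mp hx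
    have e1 : (k : ℝ) + 1 ≤ l + 1 := by exact_mod_cast Nat.succ_le_succ hkl
    have e2 := one_div_le_one_div_of_le (by positivity) e1
    exact Set.mem_iUnion.mpr ⟨P, p0, e2.trans_lt p1, e2.trans_lt p2, p3.trans_le e1,
      p4.trans_le e1, e2.trans_lt p5⟩
  obtain ⟨k, hk⟩ := (hK.prod (isCompact_sphere (0 : V) 1)).elim_directed_cover U hO
    (fun x hx => by
      obtain ⟨P, p0, p1, p2⟩ := core_pt (hc hx.1) (v := x.2) fun e => by simpa [e] using hx.2
      have t1 := tendsto_one_div_add_atTop_nhds_zero_nat (𝕜 := ℝ)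
      have t2 : Tendsto (fun k : ℕ => (k : ℝ) + 1) atTop atTop :=
        tendsto_atTop_add_const_right _ _ tendsto_natCast_atTop_atTop
      obtain ⟨k, hk⟩ := ((t1.eventually (gt_mem_nhds (abs_pos.mpr p1))).and
        ((t1.eventually (gt_mem_nhds (abs_pos.mpr p2))).and
        ((t2.eventually (eventually_gt_atTop |ac P x.1.2 0|)).and
        ((t2.eventually (eventually_gt_atTop |ac P x.1.1 0|)).and
        (t1.eventually (gt_mem_nhds (p0.cell 2))))))).exists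
      exact Set.mem_iUnion.mpr ⟨k, Set.mem_iUnion.mpr ⟨P, p0, hk⟩⟩) hM.directed_le
  refine ⟨1 / ((k : ℝ) + 1), by positivity, fun y hy v => ?_⟩
  obtain ⟨u, u1, u2⟩ : ∃ u : V, ‖u‖ = 1 ∧ v = ‖v‖ • u := by
    rcases eq_or_ne v 0 with rfl | h
    · exact ⟨1, norm_one, by simp⟩
    · exact ⟨‖v‖⁻¹ • v, norm_smul_inv_norm h, (smul_inv_smul₀ (norm_ne_zero_iff.mpr h) v).symm⟩
  obtain ⟨P, p0, p1, p2, p3, p4, p5⟩ := Set.mem_iUnion.mp
    (hk (Set.mk_mem_prod hy (mem_sphere_zero_iff_norm.mpr u1)))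
  refine ⟨P, p0, ?_, p2.le, by simpa using p3.le, by simpa using p4.le, p5.le⟩
  conv_rhs => rw [u2, ac_smul, Pi.smul_apply, smul_eq_mul, abs_mul, abs_norm, mul_comm]
  exact mul_le_mul_of_nonneg_right p1.le (norm_nonneg _)

end Pool.Agent.TW
end
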