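import Pool.Agent.Lib.MP_4eaecc_an.U3
import Pool.Agent.Lib.MP_4eaecc_an.U4

/-! From segments to the three dimensional family. -/

namespace Pool.Agent.TW

open Matrix MeasureTheory Filter Topology
open scoped ENNReal NNReal

theorem Par.area_y (w : Par) (z : Fin 3 → ℝ) : area (w.y z) = z 0 * w.A := by
  simp [area, Om, Par.y, Par.E, Par.eta, Par.A]
  ring

theorem Par.g5a_a (w : Par) : 0 < w.a := w.ap ▸ mul_pos (Nat.cast_pos.mpr w.p0) w.c0

theorem Par.g5a_b (w : Par) : 0 < w.b := w.bq ▸ mul_pos (Nat.cast_pos.mpr w.q0) w.c0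

theorem Par.A_pos (w : Par) : 0 < w.A := by
  exact add_pos (mul_pos (add_pos w.g5a_a w.g5a_b) w.h10) (mul_pos w.g5a_a w.h20)

theorem Par.hv (w : Par) : HV .L w.eta := by
  intro i
  fin_cases i <;> simp [eR, eL, ev_four, Par.eta, w.h10, w.h20]

theorem Par.Om_E (w : Par) (z : Fin 3 → ℝ) : Om (w.E z) (cs w.v0) = 0 := by
  simp [Om, Par.E, cs, Par.v0, w.ap, w.bq]
  ring

theorem Par.Om_eta (w : Par) : Om w.eta (cs w.v0) = 0 := by
  simp [Om, Par.eta, cs, Par.v0]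

theorem Par.prim (w : Par) {P : Mat} (h : Symp P) : ∃ c : Z4, c ⬝ᵥ (P *ᵥ w.v0) = 1 := by
  obtain ⟨u, v, e⟩ := Nat.isCoprime_iff_coprime.mpr w.cop
  refine ⟨![0, 0, u - v, -v] ᵥ* sinv P, ?_⟩
  rw [dotProduct_mulVec, vecMul_vecMul, h.sinv_mul, vecMul_one]
  simp [dotProduct, Fin.sum_univ_four, Par.v0]
  linear_combination e

theorem Par.one_le_lev (w : Par) (z : Fin 3 → ℝ) (t : ℝ) : 1 ≤ w.lev z t := by
  obtain ⟨c, hc⟩ := w.prim (St_symp .L (w.y z) t)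
  refine one_le_norm_cs fun h => ?_
  rw [Par.v] at h
  rw [h, dotProduct_zero] at hc
  exact zero_ne_one hc

theorem Par.lev_le (w : Par) : ∃ C : ℝ, 0 < C ∧ ∀ z t, Base .L (w.y z) t →
    w.lev z t ≤ C * Real.exp t := by
  have h1 := w.h10
  have h2 := w.h20
  have hp : (0 : ℝ) < w.p := Nat.cast_pos.mpr w.p0
  have hq : (0 : ℝ) < w.q := Nat.cast_pos.mpr w.q0
  obtain ⟨M, M0, M1, M2⟩ : ∃ M : ℝ, 0 < M ∧ w.p ≤ M * w.h1 ∧ w.p + w.q ≤ M * w.h2 := by
    refine ⟨w.p / w.h1 + (w.p + w.q) / w.h2, by positivity, ?_, ?_⟩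
    · rw [add_mul, div_mul_cancel₀ _ h1.ne']
      exact le_add_of_nonneg_right (by positivity)
    · rw [add_mul, div_mul_cancel₀ _ h2.ne']
      exact le_add_of_nonneg_left (by positivity)
  have hB : Bnd .L w.eta (cs w.v0) (-M) M := fun b i => by
    cases b <;> fin_cases i <;> simp [ed, eR, eL, ev_four, Par.eta, cs, Par.v0] <;>
      constructor <;> linarith
  refine ⟨4 * M, by positivity, fun z t h => ?_⟩
  have k := (hB.path (w.E z) (stage .L (w.y z) (Real.exp t))).close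
    (pv_of_gen (ξ := w.E z) h.1 h.2.2.1 _ _ le_rfl).1 (path_hv w.hv _ _) h.low
  rw [(path_symp _ _ _).Om_ac, w.Om_E, zero_div, zero_smul, sub_zero, ac_cs] at k
  exact k.trans_eq (by ring)

theorem Par.lev_add (w : Par) {z : Fin 3 → ℝ} {t t' : ℝ} (h : Base .L (w.y z) t) (k : t ≤ t') :
    cs (w.v z t') = ac (St (St .L (w.y z) t).1 (nst .L (w.y z) t) (t' - t)).2 (cs (w.v z t)) := by
  rw [Par.v, Par.v, (St_add h k).1, ac_cs, mulVec_mulVec]

theorem Par.lev_step (w : Par) {δ : ℝ} (hδ : 0 < δ) {z : Fin 3 → ℝ} {t t' : ℝ}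
    (h : GoodAt δ .L (w.y z) t) (k : t ≤ t') :
    w.lev z t' ≤ 16 * Real.exp (t' - t) / δ * w.lev z t := by
  rw [Par.lev, w.lev_add h.1 k]
  exact ((mb_St h.2.2 hδ (h.1.nst.mono (sub_nonneg.mpr k))).norm_ac _).trans_eq
    (by rw [Par.lev]; ring)

theorem g5a_sg {τ : Ty} {σ : Fin 3 → Bool} {ξ : V} (h : Sg τ σ ξ) : sg τ ξ = σ := by
  funext i
  have k := h.2 i
  cases hσ : σ i <;> simp [hσ] at k <;> simp [sg, k, k.le]

theorem g5a_y (w : Par) (z : Fin 3 → ℝ) (s : ℝ) :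
    w.y (z + s • ![0, w.h1, w.h2]) = us s (w.y z) := by
  refine Prod.ext (funext fun i => ?_) rfl
  fin_cases i <;> simp [Par.y, Par.E, Par.eta, us]

theorem g5a_gt (P : Mat) (y : Pt) (s t : ℝ) :
    gt t (acP P (us s y)) = us (s * Real.exp (2 * t)) (gt t (acP P y)) := by
  refine Prod.ext ?_ rfl
  simp only [gt, acP, us, ac_add, ac_smul, smul_add, smul_smul]
  rw [mul_assoc, ← Real.exp_add, show 2 * t + -t = t by ring, mul_comm]

theorem g5a_near {δ : ℝ} (h0 : 0 < δ) (h1 : δ ≤ 1) {τ : Ty} {σ : Fin 3 → Bool} {y : Pt} {a b : ℝ}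
    (ha : a ∈ Set.Icc 0 (δ ^ 2 / 12)) (hb : b ∈ Set.Icc 0 (δ ^ 2 / 12)) (h : Gw δ τ σ (us a y).1)
    (k : Gh δ τ y.2) : Gw (δ / 2) τ σ (us b y).1 := by
  refine h.near h0 h1 ?_
  have e : (us b y).1 - (us a y).1 = (b - a) • y.2 := by
    simp only [us]
    module
  rw [e, norm_smul, Real.norm_eq_abs]
  refine (mul_le_mul (abs_le.mpr ⟨by linarith [ha.2, hb.1], by linarith [ha.1, hb.2]⟩ :
    |b - a| ≤ δ ^ 2 / 12) (k.norm h0) (norm_nonneg _) (by positivity)).trans_eq ?_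
  field_simp
  norm_num

theorem g5a_seg {δ t : ℝ} (h0 : 0 < δ) (h1 : δ ≤ 1) {τ : Ty} {y : Pt} {a : ℝ}
    (ha : a * Real.exp (2 * t) ∈ Set.Icc 0 (δ ^ 2 / 12)) (h : GoodAt δ τ (us a y) t) :
    Good (δ / 2) (St τ (us a y) t).1 (gt t (acP (St τ (us a y) t).2 y)) ∧
      ∀ b, b * Real.exp (2 * t) ∈ Set.Icc 0 (δ ^ 2 / 12) → St τ (us b y) t = St τ (us a y) t := by
  have g := (h.2.mono (half_pos h0) (half_le_self h0.le)).2
  obtain ⟨hb, ⟨σ, h2⟩, h3⟩ := h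
  have h4 := g5a_sg (h2.sg h0)
  rw [nst, g5a_gt] at h2
  refine ⟨⟨⟨σ, ?_⟩, g⟩, fun b hb' => (St_markov hb (ζ := (us b y).1) ?_).1⟩
  · simpa [us] using g5a_near h0 h1 ha (b := 0) ⟨le_rfl, by positivity⟩ h2 h3
  · have h5 := ((g5a_near h0 h1 ha hb' h2 h3).sg (half_pos h0)).smul (Real.exp_pos (-t))
    rw [← g5a_gt] at h5
    simp only [gt, smul_smul, ← Real.exp_add, neg_add_cancel, Real.exp_zero, one_smul] at h5
    rw [h4]
    exact h5

/-- A segment of length `δ² e^{-2t} / 12` that meets the event stays in one atom. -/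
theorem line_lift (w : Par) (R : ℝ) : ∃ C : ℝ, 0 < C ∧ ∀ (δ t β : ℝ) (Ev : Ty → Pt → V → Prop),
    0 < δ → δ ≤ 1 → 0 ≤ t → 0 ≤ β →
    MeasurableSet {z ∈ ZR R | GoodAt δ .L (w.y z) t ∧
      Ev (St .L (w.y z) t).1 (nst .L (w.y z) t) (cs (w.v z t))} →
    (∀ τ y v, Good (δ / 2) τ y → w.A ≤ area y → area y ≤ 2 * w.A → v ≠ 0 →
      volume {s ∈ Set.Icc (0 : ℝ) (δ ^ 2 / 12) | Ev τ (us s y) v} ≤
        ENNReal.ofReal (β * (δ ^ 2 / 12))) →
    volume {z ∈ ZR R | GoodAt δ .L (w.y z) t ∧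
      Ev (St .L (w.y z) t).1 (nst .L (w.y z) t) (cs (w.v z t))} ≤ ENNReal.ofReal (C * β) := by
  obtain ⟨ζ, hζ⟩ : ∃ ζ : Fin 3 → ℝ, ζ = ![0, w.h1, w.h2] := ⟨_, rfl⟩
  refine ⟨(2 * (|R| + ‖ζ‖)) ^ 3 + 1, by positivity, fun δ t β Ev h0 h1 ht hβ hX hE => ?_⟩
  obtain ⟨r, hr⟩ : ∃ r, r = δ ^ 2 / 12 * Real.exp (-(2 * t)) := ⟨_, rfl⟩
  have r0 : 0 < r := by rw [hr]; positivity
  have r1 : r ≤ 1 := by
    rw [hr]
    exact mul_le_one₀ (by nlinarith) (Real.exp_pos _).le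
      (Real.exp_le_one_iff.mpr (by linarith))
  have r2 : ∀ s ∈ Set.Icc 0 r, s * Real.exp (2 * t) ∈ Set.Icc 0 (δ ^ 2 / 12) := fun s hs => by
    refine ⟨mul_nonneg hs.1 (Real.exp_pos _).le,
      (mul_le_mul_of_nonneg_right hs.2 (Real.exp_pos _).le).trans_eq ?_⟩
    rw [hr, mul_assoc, ← Real.exp_add, neg_add_cancel, Real.exp_zero, mul_one]
  have key := line_avg volume hX ζ r
  generalize hXX : {z ∈ ZR R | GoodAt δ .L (w.y z) t ∧
      Ev (St .L (w.y z) t).1 (nst .L (w.y z) t) (cs (w.v z t))} = X at hX key ⊢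
  have h2 : ∀ z, volume {s ∈ Set.Icc (0 : ℝ) r | z + s • ζ ∈ X} ≤
      (Metric.closedBall (0 : Fin 3 → ℝ) (|R| + ‖ζ‖)).indicator
        (fun _ => ENNReal.ofReal (β * r)) z := fun z => by
    rcases Set.eq_empty_or_nonempty {s ∈ Set.Icc (0 : ℝ) r | z + s • ζ ∈ X} with h | ⟨a, ha, h⟩
    · rw [h, measure_empty]
      exact zero_le
    subst hXX
    obtain ⟨⟨z1, z2, z3⟩, z4, -⟩ := h
    have z5 : z ∈ Metric.closedBall (0 : Fin 3 → ℝ) (|R| + ‖ζ‖) := by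
      rw [mem_closedBall_zero_iff, ← add_sub_cancel_right z (a • ζ)]
      refine (norm_sub_le _ _).trans (add_le_add (z1.trans (le_abs_self R)) ?_)
      rw [norm_smul, Real.norm_of_nonneg ha.1]
      exact mul_le_of_le_one_left (norm_nonneg _) (ha.2.trans r1)
    rw [Set.indicator_of_mem z5]
    subst hζ
    rw [g5a_y] at z4
    obtain ⟨g1, g2⟩ := g5a_seg h0 h1 (r2 a ha) z4
    have g3 : area (gt t (acP (St .L (us a (w.y z)) t).2 (w.y z))) = z 0 * w.A := by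
      rw [gt_eq, area_lin, ← Real.exp_add, add_neg_cancel, Real.exp_zero, mul_zero, sub_zero,
        one_mul, ← w.area_y]
      exact (St_symp _ _ _).Om_ac _ _
    have z6 : 1 ≤ z 0 := by simpa using z2
    have z7 : z 0 ≤ 2 := by simpa using z3
    have g4 := hE _ _ (cs ((St .L (us a (w.y z)) t).2 *ᵥ w.v0)) g1
      (g3 ▸ le_mul_of_one_le_left w.A_pos.le z6) (g3 ▸ mul_le_mul_of_nonneg_right z7 w.A_pos.le)
      fun h => by
        have := w.one_le_lev (z + a • ![0, w.h1, w.h2]) t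
        rw [Par.lev, Par.v, g5a_y, h, norm_zero] at this
        exact absurd this (by norm_num)
    refine le_trans (measure_mono (t := (· * Real.exp (2 * t)) ⁻¹' _) fun s hs => ?_)
      ((Real.volume_preimage_mul_right (Real.exp_pos _).ne' _).trans_le
        ((mul_le_mul_right g4 _).trans_eq ?_))
    · refine ⟨r2 s hs.1, ?_⟩
      have g5 := hs.2.2.2
      rwa [Par.v, nst, g5a_y, g2 s (r2 s hs.1), g5a_gt] at g5
    · rw [← ENNReal.ofReal_mul (abs_nonneg _), abs_of_pos (by positivity), hr, Real.exp_neg]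
      congr 1
      ring
  have h3 := key.trans_le (lintegral_mono h2)
  rw [lintegral_indicator_const Metric.isClosed_closedBall.measurableSet,
    Real.volume_pi_closedBall _ (by positivity), mul_comm β, ENNReal.ofReal_mul r0.le,
    mul_assoc] at h3
  refine ((ENNReal.mul_le_mul_iff_right (by simpa using r0) ENNReal.ofReal_ne_top).mp h3).trans ?_
  rw [← ENNReal.ofReal_mul hβ, Fintype.card_fin]
  exact ENNReal.ofReal_le_ofReal (by linarith)

end Pool.Agent.TW
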