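import Pool.Agent.Lib.MP_4eaecc_an.G4
import Pool.Agent.Lib.MP_4eaecc_an.P1
import Pool.Agent.Lib.MP_4eaecc_an.G5a

/-! From segments to the three dimensional family. -/

namespace Pool.Agent.TW

open Matrix MeasureTheory Filter Topology
open scoped ENNReal NNReal

theorem g5_lift (w : Par) (R : ℝ) : ∃ C : ℝ, 0 < C ∧ ∀ δ l t t' β : ℝ, 0 < δ → δ ≤ 1 → 0 ≤ t →
    t ≤ t' → 0 ≤ β → (∀ τ y v, Good (δ / 2) τ y → w.A ≤ area y → area y ≤ 2 * w.A → v ≠ 0 →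
      volume {s ∈ Set.Icc (0 : ℝ) (δ ^ 2 / 12) | GoodAt (δ / 2) τ (us s y) (t' - t) ∧
        ‖ac (St τ (us s y) (t' - t)).2 v‖ ≤ l * ‖v‖} ≤ ENNReal.ofReal (β * (δ ^ 2 / 12))) →
    volume {z ∈ ZR R | GoodAt δ .L (w.y z) t ∧ GoodAt δ .L (w.y z) t' ∧
      w.lev z t' ≤ l * w.lev z t} ≤ ENNReal.ofReal (C * β) := by
  obtain ⟨C, hC, H⟩ := line_lift w R
  refine ⟨C, hC, fun δ l t t' β d0 d1 t0 tt b0 h => ?_⟩
  have e : {z ∈ ZR R | GoodAt δ .L (w.y z) t ∧ GoodAt δ .L (w.y z) t' ∧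
      w.lev z t' ≤ l * w.lev z t} = {z ∈ ZR R | GoodAt δ .L (w.y z) t ∧
        (GoodAt δ (St .L (w.y z) t).1 (nst .L (w.y z) t) (t' - t) ∧
          ‖ac (St (St .L (w.y z) t).1 (nst .L (w.y z) t) (t' - t)).2 (cs (w.v z t))‖ ≤
            l * ‖cs (w.v z t)‖)} := by
    refine Set.ext fun z => and_congr_right fun _ => and_congr_right fun g => ?_
    rw [← goodAt_add g.1 tt, ← w.lev_add g.1 tt]
    rfl
  have m : MeasurableSet {z ∈ ZR R | GoodAt δ .L (w.y z) t ∧ GoodAt δ .L (w.y z) t' ∧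
      w.lev z t' ≤ l * w.lev z t} :=
    (meas_ZR R).inter (((continuous_y w).measurable (meas_goodAt δ .L t)).inter
      (((continuous_y w).measurable (meas_goodAt δ .L t')).inter
        (measurableSet_le (meas_lev w t') ((meas_lev w t).const_mul l))))
  rw [e] at m ⊢
  refine H δ t β (fun τ y v => GoodAt δ τ y (t' - t) ∧ ‖ac (St τ y (t' - t)).2 v‖ ≤ l * ‖v‖) d0 d1
    t0 b0 m fun τ y v g a1 a2 hv => le_trans (measure_mono fun s hs => ?_) (h τ y v g a1 a2 hv)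
  exact ⟨hs.1, hs.2.1.mono (half_pos d0) (half_le_self d0.le), hs.2.2⟩

theorem ndZ (w : Par) (R : ℝ) : ∃ C : ℝ, 0 < C ∧ ∀ δ l t t' : ℝ, 0 < δ → δ ≤ 1 → 0 < l → 0 ≤ t →
    t ≤ t' → volume {z ∈ ZR R | GoodAt δ .L (w.y z) t ∧ GoodAt δ .L (w.y z) t' ∧
      w.lev z t' ≤ l * w.lev z t} ≤ ENNReal.ofReal (C / δ ^ 10 * l ^ 2) := by
  obtain ⟨C, hC, H⟩ := g5_lift w R
  obtain ⟨C', hC', H'⟩ := nd_loc
  refine ⟨C * (3072 * C'), by positivity, fun δ l t t' d0 d1 l0 t0 tt => ?_⟩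
  refine (H δ l t t' (3072 * C' / δ ^ 10 * l ^ 2) d0 d1 t0 tt (by positivity)
    fun τ y v g _ _ hv => ?_).trans_eq (congrArg _ (by ring))
  have h1 : δ ^ 2 / 12 ≤ 1 := by nlinarith
  refine le_trans (measure_mono fun s hs => ?_)
    ((H' (δ / 2) l (t' - t) τ y v (half_pos d0) (by linarith) l0 (sub_nonneg.2 tt) g hv).trans_eq
      (congrArg _ ?_))
  · exact ⟨⟨hs.1.1, hs.1.2.trans h1⟩, hs.2⟩
  · field_simp
    ring

theorem ugZ (w : Par) (R : ℝ) {δ K ε : ℝ} (hδ : 0 < δ) (h1 : δ ≤ 1) (hK : 0 < K) (hε : 0 < ε) :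
    ∃ t0 : ℝ, 0 < t0 ∧ ∀ t t' : ℝ, 0 ≤ t → t + t0 ≤ t' →
    volume {z ∈ ZR R | GoodAt δ .L (w.y z) t ∧ GoodAt δ .L (w.y z) t' ∧
      w.lev z t' ≤ K * w.lev z t} ≤ ENNReal.ofReal ε := by
  obtain ⟨C, hC, H⟩ := g5_lift w R
  obtain ⟨t0, h0, H'⟩ := ug (A2 := 2 * w.A) (σ := δ ^ 2 / 12) (ε := ε / C * (δ ^ 2 / 12)) w.A_pos
    (half_pos hδ) (by linarith) (by positivity) (by nlinarith [sq_nonneg δ]) hK (by positivity)
  refine ⟨t0, h0, fun t t' k1 k2 => ?_⟩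
  exact (H δ K t t' (ε / C) hδ h1 k1 (by linarith) (by positivity) fun τ y v =>
    H' τ y v (t' - t) (by linarith)).trans_eq (congrArg _ (mul_div_cancel₀ ε hC.ne'))

end Pool.Agent.TW
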