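import Pool.Agent.Lib.MP_4eaecc_an.G5

/-! The level grows exponentially, and more slowly than the heights. -/

namespace Pool.Agent.TW

open Matrix MeasureTheory Filter Topology
open scoped ENNReal NNReal

theorem g6a_nd {C x c d : ℝ} (hC : 0 < C) (hx : 0 ≤ x) (hc : c ≤ 1)
    (hd : Real.exp (-x / 10) ≤ d) :
    C / d ^ 10 * Real.exp (-x) ^ 2 ≤ C * Real.exp (-c * x) := by
  have h0 : 0 < Real.exp (-x) := Real.exp_pos _
  have h1 : Real.exp (-x) ≤ d ^ 10 := by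
    have : Real.exp (-x / 10) ^ 10 = Real.exp (-x) := by
      rw [← Real.exp_nat_mul]; congr 1; push_cast; ring
    rw [← this]
    exact pow_le_pow_left₀ (Real.exp_pos _).le hd 10
  have h2 : Real.exp (-x) ≤ Real.exp (-c * x) := Real.exp_le_exp.2 (by nlinarith)
  calc C / d ^ 10 * Real.exp (-x) ^ 2 ≤ C / Real.exp (-x) * Real.exp (-x) ^ 2 := by gcongr
    _ = C * Real.exp (-x) := by field_simp
    _ ≤ C * Real.exp (-c * x) := by gcongr

theorem g6a_bad {C α x c δ t : ℝ} (hC : 0 < C) (hα : 0 < α) (hx : 0 ≤ x) (hc : c ≤ α / 10)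
    (hδ : 0 < δ) (hd : δ ≤ Real.exp (-x / 10)) (he : Real.exp (-t) ≤ δ ^ (1 + α)) :
    C * (Real.exp (-x / 10) ^ α + Real.exp (-t) / Real.exp (-x / 10)) ≤
      2 * C * Real.exp (-c * x) := by
  have h0 : 0 < Real.exp (-x / 10) := Real.exp_pos _
  have h1 : Real.exp (-t) ≤ Real.exp (-x / 10) * Real.exp (-x / 10) ^ α := by
    refine he.trans ((Real.rpow_le_rpow hδ.le hd (by positivity)).trans_eq ?_)
    rw [Real.rpow_add h0, Real.rpow_one]
  have h2 : Real.exp (-t) / Real.exp (-x / 10) ≤ Real.exp (-x / 10) ^ α := by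
    rw [div_le_iff₀ h0]; linarith
  have h3 : Real.exp (-x / 10) ^ α ≤ Real.exp (-c * x) := by
    rw [← Real.exp_mul]
    exact Real.exp_le_exp.2 (by nlinarith)
  nlinarith

/-- Exponential tail for the drop between two times, on the event that both are `δ`-good. Choose
the quality `max δ (exp (-x / 10))` in `ndZ`. -/
theorem drop_tail (w : Par) (R : ℝ) : ∃ C c : ℝ, 0 < C ∧ 0 < c ∧ ∃ α : ℝ, 0 < α ∧
    ∀ δ t t' x : ℝ, 0 < δ → δ ≤ 1 → 0 ≤ t → t ≤ t' → 0 ≤ x → Real.exp (-t) ≤ δ ^ (1 + α) →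
    volume {z ∈ ZR R | GoodAt δ .L (w.y z) t ∧ GoodAt δ .L (w.y z) t' ∧
      w.lev z t' ≤ Real.exp (-x) * w.lev z t} ≤ ENNReal.ofReal (C * Real.exp (-c * x)) := by
  obtain ⟨C1, α, hC1, hα, h1⟩ := ndivZ w R
  obtain ⟨C2, hC2, h2⟩ := ndZ w R
  refine ⟨C2 + 4 * C1, min 1 (α / 10), by positivity, by positivity, α, hα, ?_⟩
  intro δ t t' x hδ hδ1 ht htt hx he
  have hc1 : min 1 (α / 10) ≤ 1 := min_le_left _ _
  have hc2 : min 1 (α / 10) ≤ α / 10 := min_le_right _ _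
  generalize min 1 (α / 10) = c at hc1 hc2 ⊢
  have hE : 0 < Real.exp (-c * x) := Real.exp_pos _
  rcases le_total (Real.exp (-x / 10)) δ with hd | hd
  · refine (h2 δ _ t t' hδ hδ1 (Real.exp_pos _) ht htt).trans (ENNReal.ofReal_le_ofReal ?_)
    refine (g6a_nd hC2 hx hc1 hd).trans ?_
    nlinarith [mul_pos hC1 hE]
  · have d0 : 0 < Real.exp (-x / 10) := Real.exp_pos _
    have d1 : Real.exp (-x / 10) ≤ 1 := Real.exp_le_one_iff.2 (by linarith)
    have he' : Real.exp (-t') ≤ δ ^ (1 + α) := (Real.exp_le_exp.2 (by linarith)).trans he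
    have a1 := (h2 _ _ t t' d0 d1 (Real.exp_pos (-x)) ht htt).trans
      (ENNReal.ofReal_le_ofReal (g6a_nd hC2 hx hc1 le_rfl))
    have a2 := (h1 _ t d0 d1).trans
      (ENNReal.ofReal_le_ofReal (g6a_bad hC1 hα hx hc2 hδ hd he))
    have a3 := (h1 _ t' d0 d1).trans
      (ENNReal.ofReal_le_ofReal (g6a_bad hC1 hα hx hc2 hδ hd he'))
    have hsub : {z ∈ ZR R | GoodAt δ .L (w.y z) t ∧ GoodAt δ .L (w.y z) t' ∧
        w.lev z t' ≤ Real.exp (-x) * w.lev z t} ⊆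
        ({z ∈ ZR R | GoodAt (Real.exp (-x / 10)) .L (w.y z) t ∧
          GoodAt (Real.exp (-x / 10)) .L (w.y z) t' ∧ w.lev z t' ≤ Real.exp (-x) * w.lev z t} ∪
        {z ∈ ZR R | WV .L (w.E z) ∧ ¬ GoodAt (Real.exp (-x / 10)) .L (w.y z) t}) ∪
        {z ∈ ZR R | WV .L (w.E z) ∧ ¬ GoodAt (Real.exp (-x / 10)) .L (w.y z) t'} := by
      rintro z ⟨hz, g1, -, hl⟩
      have hw : WV .L (w.E z) := g1.1.1
      by_cases b1 : GoodAt (Real.exp (-x / 10)) .L (w.y z) t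
      · by_cases b2 : GoodAt (Real.exp (-x / 10)) .L (w.y z) t'
        · exact Or.inl (Or.inl ⟨hz, b1, b2, hl⟩)
        · exact Or.inr ⟨hz, hw, b2⟩
      · exact Or.inl (Or.inr ⟨hz, hw, b1⟩)
    refine (measure_mono hsub).trans ((measure_union_le _ _).trans ?_)
    refine (add_le_add ((measure_union_le _ _).trans (add_le_add a1 a2)) a3).trans ?_
    rw [← ENNReal.ofReal_add (by positivity) (by positivity),
      ← ENNReal.ofReal_add (by positivity) (by positivity)]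
    exact ENNReal.ofReal_le_ofReal (le_of_eq (by ring))

theorem g6a_layer (d : ℝ) :
    ENNReal.ofReal (max d 0) ≤ ∑' k : ℕ, (if (k : ℝ) ≤ d then (1 : ℝ≥0∞) else 0) := by
  rcases le_total d 0 with h | h
  · rw [max_eq_right h, ENNReal.ofReal_zero]; exact zero_le
  · rw [max_eq_left h]
    refine le_trans ?_ (ENNReal.sum_le_tsum (Finset.range (⌊d⌋₊ + 1)))
    have h1 : ∑ k ∈ Finset.range (⌊d⌋₊ + 1), (if (k : ℝ) ≤ d then (1 : ℝ≥0∞) else 0) =
        ((⌊d⌋₊ + 1 : ℕ) : ℝ≥0∞) := by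
      rw [Finset.sum_congr rfl (g := fun _ => (1 : ℝ≥0∞))]
      · simp
      · intro k hk
        rw [if_pos]
        exact (Nat.le_floor_iff h).1 (Nat.lt_succ_iff.1 (Finset.mem_range.1 hk))
    rw [h1, ← ENNReal.ofReal_natCast]
    refine ENNReal.ofReal_le_ofReal ?_
    push_cast
    exact (Nat.lt_floor_add_one d).le

theorem g6a_geom {C c : ℝ} (hC : 0 < C) (hc : 0 < c) :
    ∑' k : ℕ, ENNReal.ofReal (C * Real.exp (-c * k)) =
      ENNReal.ofReal (C / (1 - Real.exp (-c))) := by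
  have h0 : 0 ≤ Real.exp (-c) := (Real.exp_pos _).le
  have h1 : Real.exp (-c) < 1 := Real.exp_lt_one_iff.2 (by linarith)
  have h2 : ∀ k : ℕ, C * Real.exp (-c * k) = C * Real.exp (-c) ^ k := fun k => by
    rw [← Real.exp_nat_mul, mul_comm (k : ℝ)]
  simp only [h2]
  rw [← ENNReal.ofReal_tsum_of_nonneg (fun k => by positivity)
    ((summable_geometric_of_lt_one h0 h1).mul_left C), tsum_mul_left,
    tsum_geometric_of_lt_one h0 h1, div_eq_mul_inv]

theorem g6a_int {Z : Type} [MeasurableSpace Z] (ν : Measure Z) (D : Z → ℝ)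
    (hD : Measurable D) (G : Set Z) {C c : ℝ} (hC : 0 < C) (hc : 0 < c)
    (h : ∀ k : ℕ, ν {z ∈ G | k ≤ D z} ≤ ENNReal.ofReal (C * Real.exp (-c * k))) :
    ∫⁻ z in G, ENNReal.ofReal (max (D z) 0) ∂ν ≤ ENNReal.ofReal (C / (1 - Real.exp (-c))) := by
  have hm : ∀ k : ℕ, MeasurableSet {z | (k : ℝ) ≤ D z} := fun k =>
    measurableSet_le measurable_const hD
  calc ∫⁻ z in G, ENNReal.ofReal (max (D z) 0) ∂ν
      ≤ ∫⁻ z in G, ∑' k : ℕ, {z | (k : ℝ) ≤ D z}.indicator (fun _ => (1 : ℝ≥0∞)) z ∂ν := by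
        refine lintegral_mono fun z => (g6a_layer (D z)).trans (le_of_eq ?_)
        refine tsum_congr fun k => ?_
        simp only [Set.indicator_apply, Set.mem_ofPred_eq]
    _ = ∑' k : ℕ, ν {z ∈ G | k ≤ D z} := by
        rw [lintegral_tsum fun k => (measurable_const.indicator (hm k)).aemeasurable]
        refine tsum_congr fun k => ?_
        rw [lintegral_indicator_const (hm k), one_mul, Measure.restrict_apply (hm k)]
        congr 1
        ext z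
        simp only [Set.mem_inter_iff, Set.mem_ofPred_eq]
        exact and_comm
    _ ≤ ∑' k : ℕ, ENNReal.ofReal (C * Real.exp (-c * k)) := ENNReal.tsum_le_tsum h
    _ = _ := g6a_geom hC hc

/-- Markov inequality for a sum of variables with exponential tails. -/
theorem sum_tail {Z : Type} [MeasurableSpace Z] (ν : Measure Z) (D : ℕ → Z → ℝ)
    (hD : ∀ j, Measurable (D j)) (G : Set Z) (hG : MeasurableSet G) {C c : ℝ} (hC : 0 < C)
    (hc : 0 < c) (J : ℕ)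
    (h : ∀ j < J, ∀ k : ℕ, ν {z ∈ G | k ≤ D j z} ≤ ENNReal.ofReal (C * Real.exp (-c * k)))
    {x : ℝ} (hx : 0 < x) :
    ν {z ∈ G | x * J < ∑ j ∈ Finset.range J, max (D j z) 0} ≤
      ENNReal.ofReal (C / (1 - Real.exp (-c)) / x) := by
  rcases Nat.eq_zero_or_pos J with rfl | hJ
  · simp
  have hJ' : (0 : ℝ) < J := by exact_mod_cast hJ
  have h1 : Real.exp (-c) < 1 := Real.exp_lt_one_iff.2 (by linarith)
  have hB : 0 < C / (1 - Real.exp (-c)) := div_pos hC (by linarith)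
  have hm : ∀ j, Measurable fun z => ENNReal.ofReal (max (D j z) 0) := fun j =>
    ((hD j).max measurable_const).ennreal_ofReal
  have hf : Measurable fun z => ∑ j ∈ Finset.range J, ENNReal.ofReal (max (D j z) 0) :=
    Finset.measurable_sum _ fun j _ => hm j
  have hM := mul_meas_ge_le_lintegral₀ (μ := ν.restrict G) hf.aemeasurable
    (ENNReal.ofReal (x * J))
  have hI : ∫⁻ z in G, ∑ j ∈ Finset.range J, ENNReal.ofReal (max (D j z) 0) ∂ν ≤
      ENNReal.ofReal (J * (C / (1 - Real.exp (-c)))) := by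
    rw [lintegral_finsetSum _ fun j _ => hm j]
    refine (Finset.sum_le_sum fun j hj =>
      g6a_int ν (D j) (hD j) G hC hc (h j (Finset.mem_range.1 hj))).trans (le_of_eq ?_)
    rw [Finset.sum_const, Finset.card_range, nsmul_eq_mul, ENNReal.ofReal_mul hJ'.le,
      ENNReal.ofReal_natCast]
  have hsub : ν {z ∈ G | x * J < ∑ j ∈ Finset.range J, max (D j z) 0} ≤
      ν.restrict G {z | ENNReal.ofReal (x * J) ≤
        ∑ j ∈ Finset.range J, ENNReal.ofReal (max (D j z) 0)} := by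
    rw [Measure.restrict_apply' hG]
    refine measure_mono ?_
    rintro z ⟨hz, hl⟩
    refine ⟨?_, hz⟩
    rw [Set.mem_ofPred_eq, ← ENNReal.ofReal_sum_of_nonneg fun j _ => le_max_right _ _]
    exact ENNReal.ofReal_le_ofReal hl.le
  refine hsub.trans ?_
  have hx' : 0 < x * J := mul_pos hx hJ'
  have hne : ENNReal.ofReal (x * J) ≠ 0 := (ENNReal.ofReal_pos.2 hx').ne'
  refine (ENNReal.mul_le_mul_iff_right hne ENNReal.ofReal_ne_top).1 ((hM.trans hI).trans (le_of_eq ?_))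
  rw [← ENNReal.ofReal_mul hx'.le]
  congr 1
  field_simp

theorem g6a_bnd (w : Par) :
    Bnd .L w.eta (cs w.v0) (-((w.p + w.q) / w.h1 + (w.p + w.q) / w.h2))
      ((w.p + w.q) / w.h1 + (w.p + w.q) / w.h2) := by
  have h1 := w.h10
  have h2 := w.h20
  have hp : (0 : ℝ) ≤ w.p := Nat.cast_nonneg _
  have hq : (0 : ℝ) ≤ w.q := Nat.cast_nonneg _
  have e1 : ((w.p + w.q : ℝ) / w.h1 + (w.p + w.q) / w.h2) * w.h1 =
      (w.p + w.q) + (w.p + w.q) / w.h2 * w.h1 := by field_simp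
  have e2 : ((w.p + w.q : ℝ) / w.h1 + (w.p + w.q) / w.h2) * w.h2 =
      (w.p + w.q) / w.h1 * w.h2 + (w.p + w.q) := by field_simp
  have f1 : 0 ≤ (w.p + w.q : ℝ) / w.h2 * w.h1 := by positivity
  have f2 : 0 ≤ (w.p + w.q : ℝ) / w.h1 * w.h2 := by positivity
  generalize (w.p + w.q : ℝ) / w.h1 + (w.p + w.q) / w.h2 = M at e1 e2 ⊢
  intro b i
  cases b <;> fin_cases i <;>
    simp [ed, eR, eL, ev_four, Par.eta, Par.v0, cs] <;> constructor <;> linarith

theorem g6a_low (w : Par) {H : ℝ} (h1 : w.h1 ≤ H) (h2 : w.h2 ≤ H) : Low .L w.eta H := by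
  have h0 := w.h10
  intro b i
  cases b <;> fin_cases i <;> simp [ed, eR, eL, ev_four, Par.eta] <;> linarith

theorem g6a_lev (w : Par) {z : Fin 3 → ℝ} {t m M : ℝ} (h : Base .L (w.y z) t)
    (k : BndAt .L (w.y z) t (cs w.v0) m M) : w.lev z t ≤ 2 * (M - m) * Real.exp t := by
  have hw : WV (St .L (w.y z) t).1 (ac (St .L (w.y z) t).2 (w.y z).1) :=
    (pv_of_gen h.1 h.2.2.1 _ _ le_rfl).1
  have hh : HV (St .L (w.y z) t).1 (ac (St .L (w.y z) t).2 (w.y z).2) := path_hv h.2.1 _ _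
  have hc := Bnd.close k hw hh h.low
  have h0 : Om (ac (St .L (w.y z) t).2 (w.y z).1) (ac (St .L (w.y z) t).2 (cs w.v0)) = 0 := by
    rw [(St_symp _ _ _).Om_ac]
    exact w.Om_E z
  rw [h0, zero_div, zero_smul, sub_zero, ac_cs] at hc
  exact hc

theorem g6a_delta {C α ε : ℝ} (hC : 0 < C) (hα : 0 < α) (hε : 0 < ε) :
    ∃ δ : ℝ, 0 < δ ∧ δ ≤ 1 ∧ C * δ ^ α ≤ ε := by
  have h0 : 0 < ε / C := div_pos hε hC
  have h1 : 0 < (ε / C) ^ α⁻¹ := Real.rpow_pos_of_pos h0 _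
  refine ⟨min 1 ((ε / C) ^ α⁻¹), lt_min one_pos h1, min_le_left _ _, ?_⟩
  have h2 : min 1 ((ε / C) ^ α⁻¹) ^ α ≤ ε / C := by
    refine (Real.rpow_le_rpow (lt_min one_pos h1).le (min_le_right _ _) hα.le).trans_eq ?_
    exact Real.rpow_inv_rpow h0.le hα.ne'
  rwa [le_div_iff₀ hC, mul_comm] at h2

theorem g6a_ev (K : ℝ) {c : ℝ} (hc : 0 < c) : ∀ᶠ t : ℝ in atTop, K < Real.exp (c * t) :=
  (Real.tendsto_exp_atTop.comp (tendsto_id.const_mul_atTop hc)).eventually_gt_atTop K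

theorem gapZ (w : Par) (R : ℝ) {ε : ℝ} (hε : 0 < ε) : ∃ c : ℝ, 0 < c ∧ ∀ᶠ t in atTop,
    volume {z ∈ ZR R | WV .L (w.E z) ∧ Real.exp ((1 - c) * t) ≤ w.lev z t} ≤
      ENNReal.ofReal ε := by
  classical
  obtain ⟨C1, α, hC1, hα, h1⟩ := ndivZ w R
  obtain ⟨δ, hδ, hδ1, hδε⟩ := g6a_delta hC1 hα (show 0 < ε / 20 by positivity)
  obtain ⟨τ2, c0, hτ, hc0, hgap⟩ := gap_det hδ hδ1
  have hb := g6a_bnd w
  have hM0 : 0 ≤ ((w.p + w.q : ℝ) / w.h1 + (w.p + w.q) / w.h2) := by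
    have := w.h10
    have := w.h20
    positivity
  generalize (w.p + w.q : ℝ) / w.h1 + (w.p + w.q) / w.h2 = M0 at hb hM0
  refine ⟨c0 / (4 * τ2), by positivity, ?_⟩
  filter_upwards [eventually_ge_atTop (20 * τ2), g6a_ev w.h1 one_half_pos,
    g6a_ev w.h2 one_half_pos, g6a_ev (20 * C1 / (δ * ε)) one_half_pos,
    g6a_ev (4 * M0 * Real.exp c0) (show 0 < c0 / (4 * τ2) by positivity)] with t ta tb tc td te
  have ht0 : 0 ≤ t / (2 * τ2) := div_nonneg (by linarith) (by linarith)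
  obtain ⟨J, hJ⟩ : ∃ J : ℕ, J = ⌊t / (2 * τ2)⌋₊ := ⟨_, rfl⟩
  have hJ10 : 10 ≤ J := by
    rw [hJ]
    refine Nat.le_floor ?_
    rw [le_div_iff₀ (by linarith)]
    push_cast
    linarith
  have hJ1 : (J : ℝ) * τ2 ≤ t / 2 := by
    have : (J : ℝ) ≤ t / (2 * τ2) := hJ ▸ Nat.floor_le ht0
    rw [le_div_iff₀ (by linarith)] at this
    linarith
  have hJ2 : t / (2 * τ2) < J + 1 := hJ ▸ Nat.lt_floor_add_one _
  obtain ⟨t0, ht0'⟩ : ∃ t0 : ℝ, t0 = t - J * τ2 := ⟨_, rfl⟩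
  have ht1 : 1 / 2 * t ≤ t0 := by linarith
  have ht2 : t0 + J * τ2 = t := by linarith
  have hJτ : 0 ≤ (J : ℝ) * τ2 := by positivity
  let X : ℕ → Set (Fin 3 → ℝ) := fun j =>
    {z ∈ ZR R | WV .L (w.E z) ∧ ¬ GoodAt δ .L (w.y z) (t0 + j * τ2)}
  have hX : ∀ j, MeasurableSet (X j) := fun j =>
    (meas_ZR R).inter (((continuous_y w).fst.measurable (meas_wv .L)).inter
      ((continuous_y w).measurable (meas_goodAt δ .L (t0 + j * τ2))).compl)
  have hXv : ∀ j < J + 1, volume (X j) ≤ ENNReal.ofReal (ε / 10) := fun j _ => by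
    refine (h1 δ _ hδ hδ1).trans (ENNReal.ofReal_le_ofReal ?_)
    have a0 : 0 ≤ (j : ℝ) * τ2 := by positivity
    have a1 : Real.exp (-(t0 + j * τ2)) ≤ (Real.exp (1 / 2 * t))⁻¹ := by
      rw [← Real.exp_neg]
      exact Real.exp_le_exp.2 (by linarith)
    have a2 : (Real.exp (1 / 2 * t))⁻¹ ≤ (20 * C1 / (δ * ε))⁻¹ :=
      inv_anti₀ (by positivity) td.le
    have a3 : C1 * (Real.exp (-(t0 + j * τ2)) / δ) ≤ ε / 20 := by
      calc C1 * (Real.exp (-(t0 + j * τ2)) / δ) ≤ C1 * ((20 * C1 / (δ * ε))⁻¹ / δ) := by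
            gcongr
            exact a1.trans a2
        _ = ε / 20 := by field_simp
    rw [mul_add]
    linarith
  have hcnt := count_bad volume X hX (J + 1) (J / 10 + 1) _ hXv
  have hk : ((J + 1 : ℕ) : ℝ≥0∞) * ENNReal.ofReal (ε / 10) ≤
      ((J / 10 + 1 : ℕ) : ℝ≥0∞) * ENNReal.ofReal ε := by
    rw [← ENNReal.ofReal_natCast, ← ENNReal.ofReal_natCast,
      ← ENNReal.ofReal_mul (Nat.cast_nonneg _), ← ENNReal.ofReal_mul (Nat.cast_nonneg _)]
    refine ENNReal.ofReal_le_ofReal ?_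
    have a1 : J + 1 ≤ 10 * (J / 10 + 1) := by omega
    have a2 : ((J + 1 : ℕ) : ℝ) ≤ 10 * ((J / 10 + 1 : ℕ) : ℝ) := by exact_mod_cast a1
    nlinarith
  have hfin := (ENNReal.mul_le_mul_iff_right (Nat.cast_ne_zero.2 (Nat.succ_ne_zero (J / 10)))
    (ENNReal.natCast_ne_top _)).1 (hcnt.trans hk)
  refine le_trans (measure_mono ?_) hfin
  rintro z ⟨hz, hw, hl⟩
  by_contra hcon
  rw [Set.mem_ofPred_eq, not_le] at hcon
  have hfew : 10 * ((Finset.range (J + 1)).filter fun j : ℕ =>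
      ¬ GoodAt δ .L (w.y z) (t0 + j * τ2)).card ≤ J := by
    have a1 : ((Finset.range (J + 1)).filter fun j : ℕ =>
        ¬ GoodAt δ .L (w.y z) (t0 + j * τ2)).card < J / 10 + 1 := by
      refine lt_of_le_of_lt (Finset.card_le_card fun j hj => ?_) hcon
      simp only [Finset.mem_filter] at hj ⊢
      exact ⟨hj.1, hz, hw, hj.2⟩
    omega
  obtain ⟨j, hj⟩ : ∃ j : ℕ, GoodAt δ .L (w.y z) (t0 + j * τ2) := by
    by_contra hno
    have a1 : ∀ j ∈ Finset.range (J + 1), ¬ GoodAt δ .L (w.y z) (t0 + j * τ2) :=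
      fun j _ hg => hno ⟨j, hg⟩
    rw [Finset.filter_true_of_mem a1, Finset.card_range] at hfew
    omega
  have hexp : Real.exp (1 / 2 * t) ≤ Real.exp t0 := Real.exp_le_exp.2 ht1
  have hB : Base .L (w.y z) t0 :=
    ⟨hj.1.1, hj.1.2.1, hj.1.2.2.1, g6a_low w (tb.le.trans hexp) (tc.le.trans hexp)⟩
  have hb0 : BndAt .L (w.y z) t0 (cs w.v0) (-M0) M0 := hb.path _ _
  obtain ⟨m', M', -, -, hd, hb1⟩ := hgap .L (w.y z) t0 J hJ10 hB (by convert hfew) _ _ _ hb0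
  rw [ht2] at hb1
  have hlev := g6a_lev w (hB.mono (by linarith)) hb1
  have a1 : Real.exp (-c0 * J) ≤ Real.exp c0 * Real.exp (-(2 * (c0 / (4 * τ2) * t))) := by
    rw [← Real.exp_add]
    refine Real.exp_le_exp.2 ?_
    have b1 : 2 * (c0 / (4 * τ2) * t) = c0 * (t / (2 * τ2)) := by field_simp; norm_num
    rw [b1]
    nlinarith
  have a2 : Real.exp ((1 - c0 / (4 * τ2)) * t) =
      Real.exp (c0 / (4 * τ2) * t) * Real.exp (-(2 * (c0 / (4 * τ2) * t))) * Real.exp t := by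
    rw [← Real.exp_add, ← Real.exp_add]
    congr 1
    ring
  have a3 : 0 < Real.exp (-(2 * (c0 / (4 * τ2) * t))) * Real.exp t := by positivity
  have a4 : 2 * (M' - m') * Real.exp t ≤
      4 * M0 * Real.exp c0 * (Real.exp (-(2 * (c0 / (4 * τ2) * t))) * Real.exp t) := by
    calc 2 * (M' - m') * Real.exp t ≤ 2 * (Real.exp (-c0 * J) * (M0 - -M0)) * Real.exp t := by
          gcongr
      _ ≤ 2 * (Real.exp c0 * Real.exp (-(2 * (c0 / (4 * τ2) * t))) * (M0 - -M0)) * Real.exp t := by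
          have : 0 ≤ M0 - -M0 := by linarith
          gcongr
      _ = _ := by ring
  have a5 := mul_lt_mul_of_pos_right te a3
  rw [a2, mul_assoc] at hl
  linarith

end Pool.Agent.TW
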