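import Pool.Agent.Lib.MP_4eaecc_an.G5
import Pool.Agent.Lib.MP_4eaecc_an.G6a

/-! The level grows exponentially, and more slowly than the heights. -/

namespace Pool.Agent.TW

open Matrix MeasureTheory Filter Topology
open scoped ENNReal NNReal

open Classical in
theorem g6_det {L : ℕ → ℝ} {k : ℕ} {x : ℝ} (hx : 0 ≤ x) (p : ℕ → Prop)
    (h0 : 0 ≤ L 0) (h1 : ∀ j < 2 * k, ¬ p j → L j + 4 * x ≤ L (j + 1))
    (h2 : ((Finset.range (2 * k)).filter p).card ≤ k)
    (h3 : ∑ j ∈ Finset.range (2 * k), max (L j - L (j + 1)) 0 ≤ x * (2 * k : ℕ)) :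
    2 * x * k ≤ L (2 * k) := by
  have h4 : ∑ j ∈ Finset.range (2 * k),
      (4 * x - 4 * x * (if p j then 1 else 0) - max (L j - L (j + 1)) 0) ≤
      ∑ j ∈ Finset.range (2 * k), (L (j + 1) - L j) := Finset.sum_le_sum fun j hj => by
    have k1 := le_max_left (L j - L (j + 1)) 0
    have k2 := le_max_right (L j - L (j + 1)) 0
    split_ifs with h
    · linarith
    · linarith [h1 j (Finset.mem_range.mp hj) h]
  rw [Finset.sum_range_sub, Finset.sum_sub_distrib, Finset.sum_sub_distrib, Finset.sum_const,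
    Finset.card_range, nsmul_eq_mul, ← Finset.mul_sum, Finset.sum_boole] at h4
  have h5 : (((Finset.range (2 * k)).filter p).card : ℝ) ≤ k := by exact_mod_cast h2
  have h6 := mul_le_mul_of_nonneg_left h5 hx
  push_cast at h3 h4
  linarith

theorem g6_ev (A B : ℝ) {b η : ℝ} (hb : 0 < b) (hη : 0 < η) :
    ∀ᶠ t in atTop, (A * t + B) * Real.exp (-(b * t)) ≤ η := by
  have h0 : Tendsto (fun t : ℝ => b * t) atTop atTop := tendsto_id.const_mul_atTop hb
  have h1 := ((Real.tendsto_pow_mul_exp_neg_atTop_nhds_zero 1).comp h0).const_mul (A / b)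
  have h2 := ((Real.tendsto_pow_mul_exp_neg_atTop_nhds_zero 0).comp h0).const_mul B
  have h3 := h1.add h2
  rw [mul_zero, mul_zero, add_zero] at h3
  refine (h3.eventually (ge_mem_nhds hη)).mono fun t ht => le_trans (le_of_eq ?_) ht
  simp only [Function.comp]
  field_simp

theorem g6_meas (w : Par) (R δ t : ℝ) :
    MeasurableSet {z ∈ ZR R | WV .L (w.E z) ∧ ¬ GoodAt δ .L (w.y z) t} :=
  (meas_ZR R).inter ((((continuous_y w).fst.measurable (meas_wv .L))).inter
    ((continuous_y w).measurable (meas_goodAt δ .L t)).compl)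

theorem g6_meas' (w : Par) (R δ K t t' : ℝ) :
    MeasurableSet {z ∈ ZR R | GoodAt δ .L (w.y z) t ∧ GoodAt δ .L (w.y z) t' ∧
      w.lev z t' ≤ K * w.lev z t} :=
  (meas_ZR R).inter (((continuous_y w).measurable (meas_goodAt δ .L t)).inter
    (((continuous_y w).measurable (meas_goodAt δ .L t')).inter
      (measurableSet_le (meas_lev w t') ((meas_lev w t).const_mul K))))

theorem lgZ (w : Par) (R : ℝ) {ε : ℝ} (hε : 0 < ε) : ∃ c : ℝ, 0 < c ∧ ∀ᶠ t in atTop,
    volume {z ∈ ZR R | WV .L (w.E z) ∧ w.lev z t ≤ Real.exp (c * t)} ≤ ENNReal.ofReal ε := by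
  obtain ⟨C1, c1, hC1, hc1, α1, hα1, hd⟩ := drop_tail w R
  obtain ⟨C2, α2, hC2, hα2, hn⟩ := ndivZ w R
  have e1 : 0 < 1 - Real.exp (-c1) := sub_pos.mpr (Real.exp_lt_one_iff.mpr (neg_lt_zero.mpr hc1))
  obtain ⟨x, hx⟩ : ∃ x, x = 3 * (C1 / (1 - Real.exp (-c1))) / ε := ⟨_, rfl⟩
  have x0 : 0 < x := by rw [hx]; positivity
  have hx' : C1 / (1 - Real.exp (-c1)) / x = ε / 3 := by rw [hx]; field_simp
  have ε30 : 0 < ε / 30 := by positivity
  obtain ⟨u, hu, u0⟩ := ((g6_ev 0 C2 hα2 ε30).and (eventually_ge_atTop 0)).exists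
  obtain ⟨δ, hδ⟩ : ∃ δ, δ = Real.exp (-u) := ⟨_, rfl⟩
  have δ0 : 0 < δ := hδ ▸ Real.exp_pos _
  have δ1 : δ ≤ 1 := hδ ▸ Real.exp_le_one_iff.mpr (neg_nonpos.mpr u0)
  have δ2 : C2 * δ ^ α2 ≤ ε / 30 := by
    rw [hδ, ← Real.exp_mul, neg_mul, mul_comm u]
    simpa using hu
  obtain ⟨t0, ht0, hg⟩ := ugZ w R δ0 δ1 (Real.exp_pos (4 * x)) ε30
  obtain ⟨a, ha⟩ : ∃ a, a = 1 / (4 * (1 + α1)) := ⟨_, rfl⟩
  have a0 : 0 < a := by rw [ha]; positivity
  have a1 : a * (1 + α1) = 1 / 4 := by rw [ha]; field_simp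
  have a2 : a ≤ 1 / 4 := by nlinarith
  refine ⟨x / (4 * t0), by positivity, ?_⟩
  filter_upwards [g6_ev 0 (C2 / δ) one_half_pos ε30,
    g6_ev (C2 / (2 * t0)) C2 (mul_pos a0 hα2) (by positivity : 0 < ε / 6),
    g6_ev (C2 / (2 * t0)) C2 (by norm_num : (0 : ℝ) < 1 / 4) (by positivity : 0 < ε / 6),
    eventually_gt_atTop (8 * t0)] with t v1 v2 v3 v4
  have t1 : 0 < t := by linarith
  obtain ⟨k, hk⟩ : ∃ k : ℕ, k = ⌊t / (4 * t0)⌋₊ := ⟨_, rfl⟩
  have k1 : (k : ℝ) * (4 * t0) ≤ t := by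
    rw [← le_div_iff₀ (by positivity), hk]
    exact Nat.floor_le (by positivity)
  have k2 : t / (4 * t0) < k + 1 := hk ▸ Nat.lt_floor_add_one _
  have k3 : 2 < t / (4 * t0) := by rw [lt_div_iff₀ (by positivity)]; linarith
  have k0 : 0 < k := by
    have : (0 : ℝ) < k := by linarith
    exact_mod_cast this
  obtain ⟨T, hT⟩ : ∃ T : ℕ → ℝ, T = fun j : ℕ => t - 2 * k * t0 + j * t0 := ⟨_, rfl⟩
  have T1 : ∀ j, t / 2 ≤ T j := fun j => by
    have : 0 ≤ (j : ℝ) * t0 := by positivity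
    simp only [hT]
    linarith
  have T2 : ∀ j, T (j + 1) = T j + t0 := fun j => by simp only [hT]; push_cast; ring
  have T3 : T (2 * k) = t := by simp only [hT]; push_cast; ring
  have T0 : ∀ j, 0 ≤ T j := fun j => by linarith [T1 j]
  obtain ⟨d, hdd⟩ : ∃ d, d = Real.exp (-(a * t)) := ⟨_, rfl⟩
  have d0 : 0 < d := hdd ▸ Real.exp_pos _
  have d1 : d ≤ 1 := hdd ▸ Real.exp_le_one_iff.mpr (neg_nonpos.mpr (by positivity))
  have lp : ∀ z s, 0 < w.lev z s := fun z s => zero_lt_one.trans_le (w.one_le_lev z s)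
  let X : ℕ → Set (Fin 3 → ℝ) := fun j =>
    {z ∈ ZR R | WV .L (w.E z) ∧ ¬ GoodAt δ .L (w.y z) (T j)} ∪
      {z ∈ ZR R | WV .L (w.E z) ∧ ¬ GoodAt δ .L (w.y z) (T (j + 1))} ∪
      {z ∈ ZR R | GoodAt δ .L (w.y z) (T j) ∧ GoodAt δ .L (w.y z) (T (j + 1)) ∧
        w.lev z (T (j + 1)) ≤ Real.exp (4 * x) * w.lev z (T j)}
  let G : Set (Fin 3 → ℝ) := {z ∈ ZR R | ∀ j ≤ 2 * k, GoodAt d .L (w.y z) (T j)}
  let D : ℕ → (Fin 3 → ℝ) → ℝ := fun j z =>
    Real.log (w.lev z (T j)) - Real.log (w.lev z (T (j + 1)))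
  have m1 : volume (⋃ j ∈ Finset.range (2 * k + 1),
      {z ∈ ZR R | WV .L (w.E z) ∧ ¬ GoodAt d .L (w.y z) (T j)}) ≤ ENNReal.ofReal (ε / 3) := by
    have h1 : ∀ j ∈ Finset.range (2 * k + 1),
        volume {z ∈ ZR R | WV .L (w.E z) ∧ ¬ GoodAt d .L (w.y z) (T j)} ≤
          ENNReal.ofReal (C2 * (Real.exp (-(a * α2 * t)) + Real.exp (-(1 / 4 * t)))) := fun j _ => by
      refine (hn d (T j) d0 d1).trans (ENNReal.ofReal_le_ofReal
        (mul_le_mul_of_nonneg_left (add_le_add (le_of_eq ?_) ?_) hC2.le))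
      · rw [hdd, ← Real.exp_mul]
        congr 1
        ring
      · rw [hdd, ← Real.exp_sub, Real.exp_le_exp]
        nlinarith [T1 j]
    refine (measure_biUnion_finset_le _ _).trans ((Finset.sum_le_card_nsmul _ _ _ h1).trans ?_)
    rw [Finset.card_range, nsmul_eq_mul, ← ENNReal.ofReal_natCast,
      ← ENNReal.ofReal_mul (Nat.cast_nonneg _)]
    refine ENNReal.ofReal_le_ofReal ?_
    have h2 : ((2 * k + 1 : ℕ) : ℝ) * C2 ≤ C2 / (2 * t0) * t + C2 := by
      have h3 : 2 * (k : ℝ) ≤ t / (2 * t0) := by rw [le_div_iff₀ (by positivity)]; linarith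
      have h4 := mul_le_mul_of_nonneg_left h3 hC2.le
      have h5 : C2 / (2 * t0) * t = C2 * (t / (2 * t0)) := by ring
      push_cast
      linarith
    have h3 := mul_le_mul_of_nonneg_right h2 (Real.exp_pos (-(a * α2 * t))).le
    have h4 := mul_le_mul_of_nonneg_right h2 (Real.exp_pos (-(1 / 4 * t))).le
    linarith
  have m2 : volume {z ∈ G | x * (2 * k : ℕ) < ∑ j ∈ Finset.range (2 * k), max (D j z) 0} ≤
      ENNReal.ofReal (ε / 3) := by
    rw [← hx']
    refine sum_tail volume D (fun j => (meas_lev w _).log.sub (meas_lev w _).log) G ?_ hC1 hc1 _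
      (fun j hj n => ?_) x0
    · refine ((meas_ZR R).inter (MeasurableSet.iInter fun j => MeasurableSet.iInter
        fun _ : j ≤ 2 * k => (continuous_y w).measurable (meas_goodAt d .L (T j)))).congr ?_
      ext z
      simp [G]
    · refine le_trans (measure_mono fun z hz => ?_) (hd d (T j) (T (j + 1)) n d0 d1 (T0 j)
        (by rw [T2]; linarith) (Nat.cast_nonneg n) ?_)
      · refine ⟨hz.1.1, hz.1.2 j hj.le, hz.1.2 (j + 1) hj, ?_⟩
        rw [← Real.log_le_log_iff (lp _ _) (mul_pos (Real.exp_pos _) (lp _ _)),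
          Real.log_mul (Real.exp_pos _).ne' (lp _ _).ne', Real.log_exp]
        have : (n : ℝ) ≤ Real.log (w.lev z (T j)) - Real.log (w.lev z (T (j + 1))) := hz.2
        linarith
      · rw [hdd, ← Real.exp_mul, Real.exp_le_exp]
        have : -(a * t) * (1 + α1) = -(t / 4) := by linear_combination -t * a1
        linarith [T1 j]
  have m3 : volume {z | k ≤ (@Finset.filter _ (fun j => z ∈ X j)
      (fun _ => Classical.propDecidable _) (Finset.range (2 * k))).card} ≤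
      ENNReal.ofReal (ε / 3) := by
    have h1 : ∀ j, volume {z ∈ ZR R | WV .L (w.E z) ∧ ¬ GoodAt δ .L (w.y z) (T j)} ≤
        ENNReal.ofReal (ε / 15) := fun j => by
      refine (hn δ (T j) δ0 δ1).trans (ENNReal.ofReal_le_ofReal ?_)
      have h2 : Real.exp (-T j) ≤ Real.exp (-(1 / 2 * t)) :=
        Real.exp_le_exp.mpr (by linarith [T1 j])
      have h3 := mul_le_mul_of_nonneg_left h2 (by positivity : 0 ≤ C2 / δ)
      have h4 : C2 * (δ ^ α2 + Real.exp (-T j) / δ) =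
          C2 * δ ^ α2 + C2 / δ * Real.exp (-T j) := by ring
      rw [zero_mul, zero_add] at v1
      linarith
    have h2 := count_bad volume X (fun j => ((g6_meas w R δ _).union (g6_meas w R δ _)).union
      (g6_meas' w R δ _ _ _)) (2 * k) k (ENNReal.ofReal (ε / 6)) fun j _ => by
        refine (measure_union_le _ _).trans ((add_le_add ((measure_union_le _ _).trans
          (add_le_add (h1 j) (h1 (j + 1)))) (hg _ _ (T0 j) (T2 j).ge)).trans ?_)
        rw [← ENNReal.ofReal_add (by positivity) (by positivity),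
          ← ENNReal.ofReal_add (by positivity) (by positivity)]
        exact ENNReal.ofReal_le_ofReal (by linarith)
    have h3 : ((2 * k : ℕ) : ℝ≥0∞) * ENNReal.ofReal (ε / 6) = k * ENNReal.ofReal (ε / 3) := by
      rw [show ε / 3 = 2 * (ε / 6) by ring, ENNReal.ofReal_mul zero_le_two, ENNReal.ofReal_ofNat]
      push_cast
      ring
    rw [h3] at h2
    exact (ENNReal.mul_le_mul_iff_right (by exact_mod_cast k0.ne') (ENNReal.natCast_ne_top k)).mp h2
  refine le_trans (measure_mono fun z hz => ?_) (((measure_union_le _ _).trans (add_le_add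
    ((measure_union_le _ _).trans (add_le_add m1 m2)) m3)).trans ?_)
  swap
  · rw [← ENNReal.ofReal_add (by positivity) (by positivity),
      ← ENNReal.ofReal_add (by positivity) (by positivity)]
    exact ENNReal.ofReal_le_ofReal (by linarith)
  obtain ⟨z1, z2, z3⟩ := hz
  by_contra hc
  simp only [Set.mem_union, not_or] at hc
  obtain ⟨⟨n1, n2⟩, n3⟩ := hc
  have hG : z ∈ G := ⟨z1, fun j hj => by_contra fun h => n1
    (Set.mem_biUnion (Finset.mem_coe.mpr (Finset.mem_range.mpr (Nat.lt_succ_of_le hj)))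
      ⟨z1, z2, h⟩)⟩
  have key := g6_det (L := fun j => Real.log (w.lev z (T j))) x0.le (fun j => z ∈ X j)
    (Real.log_nonneg (w.one_le_lev _ _)) (fun j _ h => ?_) (not_le.mp n3).le
    (not_lt.mp fun h => n2 ⟨hG, h⟩)
  · have h1 := (Real.log_le_iff_le_exp (lp z t)).mpr z3
    simp only [T3] at key
    have h2 : x / (4 * t0) * t = x * (t / (4 * t0)) := by ring
    nlinarith
  · have g1 : GoodAt δ .L (w.y z) (T j) := by_contra fun g => h (.inl (.inl ⟨z1, z2, g⟩))
    have g2 : GoodAt δ .L (w.y z) (T (j + 1)) := by_contra fun g => h (.inl (.inr ⟨z1, z2, g⟩))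
    have g3 := Real.log_le_log (mul_pos (Real.exp_pos _) (lp _ _))
      (not_le.mp fun g => h (.inr ⟨z1, g1, g2, g⟩)).le
    rw [Real.log_mul (Real.exp_pos _).ne' (lp _ _).ne', Real.log_exp] at g3
    linarith

end Pool.Agent.TW
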