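import Pool.Agent.Lib.MP_4eaecc_an.R1

/-! The measure `mu1` is finite and invariant. -/

namespace Pool.Agent.TW

open Matrix MeasureTheory Filter Topology
open scoped ENNReal NNReal symmDiff

/-- Every product of two elementary matrices and so on: `SL(2, ℝ)` is generated by `us`, `ls`. -/
theorem sl_induction {p : (Pt → Pt) → Prop} (h1 : ∀ s, p (us s)) (h2 : ∀ s, p (ls s))
    (h3 : ∀ f g, p f → p g → p (f ∘ g)) {a b c d : ℝ} (h : a * d - b * c = 1) :
    p (lin a b c d) := by
  have key : ∀ a b c d : ℝ, a * d - b * c = 1 → c ≠ 0 → p (lin a b c d) := fun a b c d h hc => by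
    have e : lin a b c d = us ((a - 1) / c) ∘ ls c ∘ us ((d - 1) / c) := by
      funext y
      refine Prod.ext (funext fun i => ?_) (funext fun i => ?_)
      · simp only [lin, us, ls, Function.comp_apply, Pi.add_apply, Pi.smul_apply, smul_eq_mul]
        field_simp
        linear_combination (-y.2 i) * h
      · simp only [lin, us, ls, Function.comp_apply, Pi.add_apply, Pi.smul_apply, smul_eq_mul]
        field_simp
        ring
    rw [e]
    exact h3 _ _ (h1 _) (h3 _ _ (h2 _) (h1 _))
  by_cases hc : c = 0
  · subst hc
    have e : lin a b 0 d = ls (-1) ∘ lin a b a (b + d) := by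
      funext y
      refine Prod.ext rfl (funext fun i => ?_)
      simp only [lin, ls, Function.comp_apply, Pi.add_apply, Pi.smul_apply, smul_eq_mul]
      ring
    rw [e]
    refine h3 _ _ (h2 _) (key _ _ _ _ (by linear_combination h) fun k => ?_)
    simp [k] at h
  · exact key a b c d h hc

end Pool.Agent.TW
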