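import Pool.Agent.Lib.MP_4eaecc_an.M4a

-- part Pool.Agent.Lib.MP_4eaecc_an.M4b
section

/-! Ergodicity. -/

namespace Pool.Agent.TW

open Matrix MeasureTheory Filter Topology
open scoped ENNReal NNReal symmDiff

theorem m4b_le (A : ℝ) (Y : Set Pt) : mu1 A Y ≤ volume Y :=
  (Measure.restrict_le_self Y).trans (nu_le_vol Y)

theorem m4b_cont {A : ℝ} (hA : 0 < A) {Y : Set Pt} (hY : MeasurableSet Y) (g : ℝ → Pt → Pt)
    (hc : Continuous fun p : ℝ × Pt => g p.1 p.2) (h0 : ∀ y, g 0 y = y)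
    (hm : ∀ s, MeasurePreserving (g s) volume volume)
    (hn : ∀ s y, |s| ≤ 1 → ‖g s y‖ ≤ 2 * ‖y‖) :
    Tendsto (fun s => mu1 A ((g s ⁻¹' Y) ∆ Y)) (𝓝 0) (𝓝 0) := by
  have := mu1_finite hA
  rw [ENNReal.tendsto_nhds_zero]
  intro ε hε
  have h2 : ε / 2 ≠ 0 := (ENNReal.half_pos hε.ne').ne'
  obtain ⟨K, -, hK, hKε⟩ := MeasurableSet.univ.exists_isCompact_sdiff_lt
    (measure_ne_top (mu1 A) Set.univ) h2
  obtain ⟨R, hR0, hR⟩ := hK.isBounded.subset_closedBall_lt 0 (0 : Pt)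
  let F : C(ℝ × Pt, Pt) := ⟨fun p => g p.1 p.2, hc⟩
  have hB : MeasurableSet (Y ∩ Metric.closedBall (0 : Pt) (2 * R)) :=
    hY.inter Metric.isClosed_closedBall.measurableSet
  have hv : volume (Y ∩ Metric.closedBall (0 : Pt) (2 * R)) ≠ ∞ :=
    ((measure_mono Set.inter_subset_right).trans_lt
      (isCompact_closedBall _ _).measure_lt_top).ne
  have ht := tendsto_measure_symmDiff_preimage_nhds_zero (μ := volume) (ν := volume)
    (F.curry.continuous.tendsto 0) (Eventually.of_forall hm) (hm 0) hB.nullMeasurableSet hv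
  have e1 : ∀ᶠ s : ℝ in 𝓝 0, |s| ≤ 1 := by
    filter_upwards [Metric.closedBall_mem_nhds (0 : ℝ) one_pos] with s hs
    simpa using hs
  filter_upwards [ENNReal.tendsto_nhds_zero.1 ht (ε / 2) (pos_iff_ne_zero.2 h2), e1] with s hs h1
  have hsub : (g s ⁻¹' Y) ∆ Y ⊆ (Set.univ \ K) ∪
      ((F.curry s ⁻¹' (Y ∩ Metric.closedBall (0 : Pt) (2 * R))) ∆
        (F.curry 0 ⁻¹' (Y ∩ Metric.closedBall (0 : Pt) (2 * R)))) := by
    intro y hy
    by_cases hyK : y ∈ K
    · right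
      have a1 : ‖y‖ ≤ R := by simpa using hR hyK
      have a2 : g s y ∈ Metric.closedBall (0 : Pt) (2 * R) := by
        rw [mem_closedBall_zero_iff]
        linarith [hn s y h1]
      have a3 : y ∈ Metric.closedBall (0 : Pt) (2 * R) := by
        rw [mem_closedBall_zero_iff]
        linarith
      have b1 : F.curry s y = g s y := rfl
      have b2 : F.curry 0 y = y := h0 y
      simp only [Set.mem_symmDiff, Set.mem_preimage, Set.mem_inter_iff, b1, b2, a2, a3,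
        and_true] at hy ⊢
      exact hy
    · exact Or.inl ⟨trivial, hyK⟩
  refine (measure_mono hsub).trans ((measure_union_le _ _).trans ?_)
  refine (add_le_add hKε.le ((m4b_le A _).trans hs)).trans (le_of_eq (ENNReal.add_halves ε))

theorem m4b_norm (a b : V) (s : ℝ) (hs : |s| ≤ 1) {N : ℝ} (ha : ‖a‖ ≤ N) (hb : ‖b‖ ≤ N) :
    ‖a + s • b‖ ≤ 2 * N := by
  refine (norm_add_le _ _).trans ?_
  rw [norm_smul, Real.norm_eq_abs]
  nlinarith [norm_nonneg b, abs_nonneg s]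

theorem cont_us {A : ℝ} (hA : 0 < A) {Y : Set Pt} (hY : MeasurableSet Y) :
    Tendsto (fun s => mu1 A ((us s ⁻¹' Y) ∆ Y)) (𝓝 0) (𝓝 0) ∧
      Tendsto (fun s => mu1 A ((ls s ⁻¹' Y) ∆ Y)) (𝓝 0) (𝓝 0) := by
  constructor
  · refine m4b_cont hA hY us (by unfold us; fun_prop) (fun y => by simp [us]) (fun s => ?_)
      fun s y hs => ?_
    · have : us s = lin 1 s 0 1 := funext (us_eq s)
      rw [this]
      exact mp_lin (by ring)
    · refine norm_prod_le_iff.2 ⟨m4b_norm _ _ s hs (norm_fst_le y) (norm_snd_le y), ?_⟩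
      have : ‖y.2‖ ≤ ‖y‖ := norm_snd_le y
      change ‖y.2‖ ≤ _
      linarith [norm_nonneg y]
  · refine m4b_cont hA hY ls (by unfold ls; fun_prop) (fun y => by simp [ls]) (fun s => ?_)
      fun s y hs => ?_
    · have : ls s = lin 1 0 s 1 := funext (ls_eq s)
      rw [this]
      exact mp_lin (by ring)
    · refine norm_prod_le_iff.2 ⟨?_, m4b_norm _ _ s hs (norm_snd_le y) (norm_fst_le y)⟩
      have : ‖y.1‖ ≤ ‖y‖ := norm_fst_le y
      change ‖y.1‖ ≤ _
      linarith [norm_nonneg y]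

/-- The displacement of `Y` under a matrix. -/
noncomputable def m4bD (A : ℝ) (Y : Set Pt) (a b c d : ℝ) : ℝ≥0∞ :=
  mu1 A ((lin a b c d ⁻¹' Y) ∆ Y)

theorem m4b_mul {A : ℝ} (hA : 0 < A) {Y : Set Pt} (hY : MeasurableSet Y) (r : RInv Y)
    {a b c d a' b' c' d' : ℝ} (k : a * d - b * c = 1) (k' : a' * d' - b' * c' = 1)
    {e f g h : ℝ} (he : e = a' * a + b' * c) (hf : f = a' * b + b' * d)
    (hg : g = c' * a + d' * c) (hh : h = c' * b + d' * d) :
    m4bD A Y e f g h ≤ m4bD A Y a' b' c' d' + m4bD A Y a b c d := by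
  have e1 : lin e f g h ⁻¹' Y = lin a b c d ⁻¹' (lin a' b' c' d' ⁻¹' Y) := by
    ext y
    simp only [Set.mem_preimage, m1_lin_lin, he, hf, hg, hh]
  have r' : RInv (lin a' b' c' d' ⁻¹' Y) := r.lin (by rw [k']; exact one_pos)
  have r2 : RInv ((lin a' b' c' d' ⁻¹' Y) ∆ Y) := fun y P hP => by
    rw [Set.mem_symmDiff, Set.mem_symmDiff, r' y P hP, r y P hP]
  have m2 : MeasurableSet ((lin a' b' c' d' ⁻¹' Y) ∆ Y) :=
    ((m1_cont a' b' c' d').measurable hY).symmDiff hY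
  unfold m4bD
  rw [e1]
  refine (measure_symmDiff_le _ (lin a b c d ⁻¹' Y) _).trans (le_of_eq ?_)
  rw [← Set.preimage_symmDiff, mu1_lin hA m2 r2 k]

theorem m4b_int {Y : Set Pt} (h : us 1 ⁻¹' Y = Y) (n : ℕ) :
    lin 1 n 0 1 ⁻¹' Y = Y ∧ lin 1 (-n) 0 1 ⁻¹' Y = Y := by
  have h1 : ∀ y, lin 1 1 0 1 y ∈ Y ↔ y ∈ Y := fun y => by
    rw [← us_eq, ← Set.mem_preimage, h]
  have h2 : ∀ y, lin 1 n 0 1 y ∈ Y ↔ y ∈ Y := by
    induction n with
    | zero => intro y; rw [m1_lin_one rfl (by simp) rfl rfl]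
    | succ n ih =>
      intro y
      rw [← ih y, ← h1 (lin 1 n 0 1 y), m1_lin_lin]
      have e : ((n + 1 : ℕ) : ℝ) = 1 * n + 1 * 1 := by push_cast; ring
      rw [e]
      norm_num
  refine ⟨Set.ext h2, Set.ext fun y => ?_⟩
  rw [Set.mem_preimage, ← h2, m1_lin_lin, m1_lin_one] <;> ring

theorem m4b_zero {x : ℝ≥0∞} {f : ℝ → ℝ≥0∞} (hf : Tendsto f (𝓝 0) (𝓝 0)) {u : ℕ → ℝ}
    (hu : Tendsto u atTop (𝓝 0)) (h : ∀ n, x ≤ f (u n)) : x = 0 :=
  nonpos_iff_eq_zero.1 (ge_of_tendsto' (hf.comp hu) h)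

theorem m4b_diag {A : ℝ} (hA : 0 < A) {Y : Set Pt} (hY : MeasurableSet Y) (r : RInv Y)
    (h : us 1 ⁻¹' Y = Y) : m4bD A Y 2 0 0 (1 / 2) = 0 := by
  have hl : Tendsto (fun s => m4bD A Y 1 0 s 1) (𝓝 0) (𝓝 0) := by
    refine (cont_us hA hY).2.congr fun s => ?_
    have : ls s = lin 1 0 s 1 := funext (ls_eq s)
    rw [this]
    rfl
  have hn : Tendsto (fun s : ℝ => m4bD A Y 1 0 (-s) 1 + m4bD A Y 1 0 (2 * s) 1) (𝓝 0) (𝓝 0) := by
    have a1 : Tendsto (fun s : ℝ => -s) (𝓝 0) (𝓝 0) := by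
      simpa using (continuous_neg (G := ℝ)).tendsto 0
    have a2 : Tendsto (fun s : ℝ => 2 * s) (𝓝 0) (𝓝 0) := by
      simpa using (continuous_const_mul (2 : ℝ)).tendsto 0
    simpa using (hl.comp a1).add (hl.comp a2)
  have hu : Tendsto (fun n : ℕ => 1 / 4 * (1 / ((n : ℝ) + 1))) atTop (𝓝 0) := by
    simpa using tendsto_one_div_add_atTop_nhds_zero_nat.const_mul (1 / 4 : ℝ)
  refine m4b_zero hn hu fun n => ?_
  have hx : (0 : ℝ) < (n : ℝ) + 1 := by positivity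
  have z1 : m4bD A Y 1 (-((n : ℝ) + 1)) 0 1 = 0 := by
    have := (m4b_int h (n + 1)).2
    push_cast at this
    rw [m4bD, this, symmDiff_self, Set.bot_eq_empty, measure_empty]
  have z2 : m4bD A Y 1 (2 * ((n : ℝ) + 1)) 0 1 = 0 := by
    have := (m4b_int h (2 * (n + 1))).1
    push_cast at this
    rw [m4bD, this, symmDiff_self, Set.bot_eq_empty, measure_empty]
  obtain ⟨s, hs⟩ : ∃ s : ℝ, s = 1 / 4 * (1 / ((n : ℝ) + 1)) := ⟨_, rfl⟩
  have hsx : s * ((n : ℝ) + 1) = 1 / 4 := by rw [hs]; field_simp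
  rw [← hs]
  generalize (n : ℝ) + 1 = x at hx z1 z2 hsx
  have b1 : m4bD A Y 1 (-x) (2 * s) (1 / 2) ≤ m4bD A Y 1 0 (2 * s) 1 + m4bD A Y 1 (-x) 0 1 :=
    m4b_mul hA hY r (by ring) (by ring) (by ring) (by ring) (by ring) (by linarith)
  have b2 : m4bD A Y 2 0 (2 * s) (1 / 2) ≤
      m4bD A Y 1 (2 * x) 0 1 + m4bD A Y 1 (-x) (2 * s) (1 / 2) :=
    m4b_mul hA hY r (by linarith) (by ring) (by linarith) (by ring) (by ring) (by ring)
  have b3 : m4bD A Y 2 0 0 (1 / 2) ≤ m4bD A Y 1 0 (-s) 1 + m4bD A Y 2 0 (2 * s) (1 / 2) :=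
    m4b_mul hA hY r (by ring) (by ring) (by ring) (by ring) (by ring) (by ring)
  rw [z1, add_zero] at b1
  rw [z2, zero_add] at b2
  exact b3.trans (add_le_add le_rfl (b2.trans b1))

theorem m4b_diag' {A : ℝ} (hA : 0 < A) {Y : Set Pt} (hY : MeasurableSet Y) (r : RInv Y)
    (h : us 1 ⁻¹' Y = Y) : m4bD A Y (1 / 2) 0 0 2 = 0 := by
  have r' : RInv (lin (1 / 2) 0 0 2 ⁻¹' Y) := r.lin (by norm_num)
  have r2 : RInv ((lin (1 / 2) 0 0 2 ⁻¹' Y) ∆ Y) := fun y P hP => by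
    rw [Set.mem_symmDiff, Set.mem_symmDiff, r' y P hP, r y P hP]
  have m2 : MeasurableSet ((lin (1 / 2) 0 0 2 ⁻¹' Y) ∆ Y) :=
    ((m1_cont _ _ _ _).measurable hY).symmDiff hY
  have e1 : lin 2 0 0 (1 / 2) ⁻¹' (lin (1 / 2) 0 0 2 ⁻¹' Y) = Y := by
    ext y
    rw [Set.mem_preimage, Set.mem_preimage, m1_lin_lin, m1_lin_one] <;> norm_num
  rw [m4bD, ← mu1_lin hA m2 r2 (a := 2) (b := 0) (c := 0) (d := 1 / 2) (by norm_num),
    Set.preimage_symmDiff, e1, symmDiff_comm]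
  exact m4b_diag hA hY r h

theorem m4b_contr {f : ℝ → ℝ≥0∞} (hf : Tendsto f (𝓝 0) (𝓝 0)) (h : ∀ s, f s ≤ f (s * (1 / 4)))
    (s : ℝ) : f s = 0 := by
  have hu : Tendsto (fun n : ℕ => s * (1 / 4 : ℝ) ^ n) atTop (𝓝 0) := by
    simpa using (tendsto_pow_atTop_nhds_zero_of_lt_one (r := (1 / 4 : ℝ)) (by norm_num)
      (by norm_num)).const_mul s
  refine m4b_zero hf hu fun n => ?_
  induction n with
  | zero => simp
  | succ n ih =>
    refine ih.trans ((h _).trans (le_of_eq ?_))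
    rw [pow_succ, mul_assoc]

/-- Mautner: `u (2 n) * v (1 / (2 n)) * u (-n) = v (1 / (4 n)) * diag (2, 1 / 2)`, then contract
`us s` and `ls s` by powers of the diagonal matrix. -/
theorem mautner {A : ℝ} (hA : 0 < A) {Y : Set Pt} (hY : MeasurableSet Y) (r : RInv Y)
    (h : us 1 ⁻¹' Y = Y) {a b c d : ℝ} (k : a * d - b * c = 1) :
    mu1 A ((lin a b c d ⁻¹' Y) ∆ Y) = 0 := by
  have d1 := m4b_diag hA hY r h
  have d2 := m4b_diag' hA hY r h
  have hu : ∀ s, m4bD A Y 1 s 0 1 = 0 := by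
    refine m4b_contr ((cont_us hA hY).1.congr fun s => ?_) fun s => ?_
    · have : us s = lin 1 s 0 1 := funext (us_eq s)
      rw [this]
      rfl
    · have b1 : m4bD A Y (1 / 2) (s / 2) 0 2 ≤
          m4bD A Y 1 (s * (1 / 4)) 0 1 + m4bD A Y (1 / 2) 0 0 2 :=
        m4b_mul hA hY r (by ring) (by ring) (by ring) (by ring) (by ring) (by ring)
      have b2 : m4bD A Y 1 s 0 1 ≤ m4bD A Y 2 0 0 (1 / 2) + m4bD A Y (1 / 2) (s / 2) 0 2 :=
        m4b_mul hA hY r (by ring) (by ring) (by ring) (by ring) (by ring) (by ring)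
      rw [d2, add_zero] at b1
      rw [d1, zero_add] at b2
      exact b2.trans b1
  have hl : ∀ s, m4bD A Y 1 0 s 1 = 0 := by
    refine m4b_contr ((cont_us hA hY).2.congr fun s => ?_) fun s => ?_
    · have : ls s = lin 1 0 s 1 := funext (ls_eq s)
      rw [this]
      rfl
    · have b1 : m4bD A Y 2 0 (s / 2) (1 / 2) ≤
          m4bD A Y 1 0 (s * (1 / 4)) 1 + m4bD A Y 2 0 0 (1 / 2) :=
        m4b_mul hA hY r (by ring) (by ring) (by ring) (by ring) (by ring) (by ring)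
      have b2 : m4bD A Y 1 0 s 1 ≤ m4bD A Y (1 / 2) 0 0 2 + m4bD A Y 2 0 (s / 2) (1 / 2) :=
        m4b_mul hA hY r (by ring) (by ring) (by ring) (by ring) (by ring) (by ring)
      rw [d1, add_zero] at b1
      rw [d2, zero_add] at b2
      exact b2.trans b1
  have key := sl_induction (p := fun f => ∃ a b c d : ℝ, a * d - b * c = 1 ∧ f = lin a b c d ∧
      m4bD A Y a b c d = 0)
    (fun s => ⟨1, s, 0, 1, by ring, funext (us_eq s), hu s⟩)
    (fun s => ⟨1, 0, s, 1, by ring, funext (ls_eq s), hl s⟩) ?_ k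
  · obtain ⟨a', b', c', d', -, e, z⟩ := key
    rw [e]
    exact z
  · rintro f g ⟨a', b', c', d', k', rfl, z'⟩ ⟨a, b, c, d, k, rfl, z⟩
    refine ⟨_, _, _, _, ?_, funext fun y => m1_lin_lin a b c d a' b' c' d' y, ?_⟩
    · linear_combination (a' * d' - b' * c') * k + k'
    · have b1 := m4b_mul hA hY r k k' rfl rfl rfl rfl
      rw [z, z', add_zero] at b1
      exact nonpos_iff_eq_zero.1 b1

end Pool.Agent.TW
end

-- part Pool.Agent.Lib.MP_4eaecc_an.M4
section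

/-! Ergodicity. -/

namespace Pool.Agent.TW

open Matrix MeasureTheory Filter Topology
open scoped ENNReal NNReal symmDiff

/-- Von Neumann's theorem for an ergodic map, as convergence in measure. -/
theorem m4_abs {α : Type} {_ : MeasurableSpace α} {μ : Measure α} [IsFiniteMeasure μ]
    (h0 : μ Set.univ ≠ 0) {T : α → α} (hT : Ergodic T μ) {F : α → ℝ} (hF : Measurable F) {M : ℝ}
    (hM : ∀ y, |F y| ≤ M) {η : ℝ} (hη : 0 < η) :
    Tendsto (fun n : ℕ => μ {y | η ≤ |(∑ k ∈ Finset.range n, F (T^[k] y)) / n -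
      (∫ x, F x ∂μ) / μ.real Set.univ|}) atTop (𝓝 0) := by
  have hL : MemLp F 2 μ := MemLp.of_bound hF.aestronglyMeasurable M (Eventually.of_forall hM)
  let U : Lp ℝ 2 μ →L[ℝ] Lp ℝ 2 μ :=
    (Lp.compMeasurePreservingₗᵢ ℝ T hT.toMeasurePreserving).toContinuousLinearMap
  have hU : ∀ g : Lp ℝ 2 μ, U g =ᵐ[μ] g ∘ T := fun g =>
    Lp.coeFn_compMeasurePreserving g hT.toMeasurePreserving
  have key := U.tendsto_birkhoffAverage_orthogonalProjection
    (LinearIsometry.norm_toContinuousLinearMap_le _) (hL.toLp F)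
  set K := U.eqLocus (1 : Lp ℝ 2 μ →L[ℝ] Lp ℝ 2 μ) with hK
  have hg : U (K.orthogonalProjectionOnto (hL.toLp F) : Lp ℝ 2 μ) =
      (K.orthogonalProjectionOnto (hL.toLp F) : Lp ℝ 2 μ) :=
    (K.orthogonalProjectionOnto (hL.toLp F)).2
  have h1 : (memLp_const (1 : ℝ)).toLp (fun _ => 1) ∈ K := by
    change U _ = _
    refine Lp.ext ((hU _).trans ?_)
    have e := (memLp_const (μ := μ) (p := 2) (1 : ℝ)).coeFn_toLp
    exact (hT.toMeasurePreserving.quasiMeasurePreserving.ae_eq_comp e).trans e.symm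
  have h2 := K.starProjection_inner_eq_zero (hL.toLp F) _ h1
  rw [Submodule.starProjection_apply] at h2
  generalize (K.orthogonalProjectionOnto (hL.toLp F) : Lp ℝ 2 μ) = g at key hg h2
  obtain ⟨c, hc⟩ := hT.ae_eq_const_of_ae_eq_comp_ae (Lp.aestronglyMeasurable g)
    ((hU g).symm.trans (by rw [hg]))
  have h3 : ∫ x, (F x - c) ∂μ = 0 := by
    rw [← h2, L2.inner_def]
    refine integral_congr_ae ?_
    filter_upwards [(memLp_const (μ := μ) (p := 2) (1 : ℝ)).coeFn_toLp, hL.coeFn_toLp, hc,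
      Lp.coeFn_sub (hL.toLp F) g] with x e1 e2 e3 e4
    rw [e1, e4, Pi.sub_apply, e2, e3]
    simp
  rw [integral_sub (hL.integrable one_le_two) (integrable_const c), integral_const,
    smul_eq_mul] at h3
  have m0 : 0 < μ.real Set.univ := ENNReal.toReal_pos h0 (measure_ne_top _ _)
  have h4 : (∫ x, F x ∂μ) / μ.real Set.univ = c := by
    rw [div_eq_iff m0.ne']
    linarith
  have h5 : ∀ k : ℕ, U^[k] (hL.toLp F) =ᵐ[μ] fun y => F (T^[k] y) := fun k => by
    induction k with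
    | zero => exact hL.coeFn_toLp
    | succ k ih =>
      rw [Function.iterate_succ_apply']
      exact (hU _).trans (hT.toMeasurePreserving.quasiMeasurePreserving.ae_eq_comp ih)
  have h6 : ∀ n : ℕ, (birkhoffAverage ℝ U id n (hL.toLp F) : Lp ℝ 2 μ) =ᵐ[μ]
      fun y => (∑ k ∈ Finset.range n, F (T^[k] y)) / n := fun n => by
    filter_upwards [Lp.coeFn_smul ((n : ℝ)⁻¹) (∑ k ∈ Finset.range n, U^[k] (hL.toLp F)),
      Lp.coeFn_fun_finsetSum (Finset.range n) fun k => U^[k] (hL.toLp F), ae_all_iff.2 h5]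
      with y e1 e2 e3
    refine e1.trans ?_
    rw [Pi.smul_apply, e2, smul_eq_mul, div_eq_inv_mul]
    simp only [e3]
  have h7 := tendstoInMeasure_iff_norm.1
    ((tendstoInMeasure_of_tendsto_Lp key).congr h6 hc) η hη
  rw [h4]
  exact h7

/-- The sigma algebra of invariant sets. -/
abbrev m4Sig : MeasurableSpace Pt where
  MeasurableSet' Y := MeasurableSet Y ∧ RInv Y ∧ Rad Y
  measurableSet_empty := ⟨MeasurableSet.empty, fun _ _ _ => Iff.rfl, fun _ _ _ => Iff.rfl⟩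
  measurableSet_compl Y h :=
    ⟨h.1.compl, fun y P k => (h.2.1 y P k).not, fun c y hc => (h.2.2 c y hc).not⟩
  measurableSet_iUnion f h :=
    ⟨MeasurableSet.iUnion fun i => (h i).1,
      fun y P k => by simp only [Set.mem_iUnion]; exact exists_congr fun i => (h i).2.1 y P k,
      fun c y hc => by simp only [Set.mem_iUnion]; exact exists_congr fun i => (h i).2.2 c y hc⟩

theorem m4_le : m4Sig ≤ (inferInstance : MeasurableSpace Pt) := fun _ h => h.1

theorem m4_us : us 1 = lin 1 1 0 1 := funext (us_eq 1)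

theorem m4_meas : Measurable[m4Sig, m4Sig] (us 1) := fun Y h => by
  refine ⟨?_, ?_, fun c y hc => ?_⟩
  · rw [m4_us]
    exact (m1_cont 1 1 0 1).measurable h.1
  · rw [m4_us]
    exact h.2.1.lin (by norm_num)
  · have e : us 1 (c • y) = c • us 1 y := by
      ext <;> simp [us]
    rw [Set.mem_preimage, Set.mem_preimage, e]
    exact h.2.2 c _ hc

theorem m4_erg {A : ℝ} (hA : 0 < A) : @Ergodic Pt m4Sig (us 1) ((mu1 A).trim m4_le) := by
  refine @Ergodic.mk Pt m4Sig _ _ (@MeasurePreserving.mk Pt Pt m4Sig m4Sig _ _ _ m4_meas ?_)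
    (@PreErgodic.mk Pt m4Sig _ _ fun Y hY e => ?_)
  · refine @Measure.ext Pt m4Sig _ _ fun Y hY => ?_
    rw [Measure.map_apply m4_meas hY, trim_measurableSet_eq m4_le hY,
      trim_measurableSet_eq m4_le (m4_meas hY), m4_us]
    exact mu1_lin hA hY.1 hY.2.1 (by norm_num)
  · have h := erg_gt hA hY.1 hY.2.1 hY.2.2 fun t => by
      rw [funext (gt_eq t)]
      exact mautner hA hY.1 hY.2.1 e (by simp [← Real.exp_add])
    refine eventuallyConst_set.2 (h.symm.imp (fun h => ?_) fun h => ?_)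
    · exact (trim_measurableSet_eq m4_le (@MeasurableSet.compl Pt Y m4Sig hY)).trans h
    · exact measure_eq_zero_iff_ae_notMem.1 ((trim_measurableSet_eq m4_le hY).trans h)

theorem m4_iter (k : ℕ) (y : Pt) : (us 1)^[k] y = us k y := by
  induction k with
  | zero => simp [us]
  | succ k ih =>
    rw [Function.iterate_succ_apply', ih]
    ext <;> simp [us, add_mul, add_assoc]

/-- The mean ergodic theorem on the sigma algebra of invariant sets. -/
theorem mean_us {A : ℝ} (hA : 0 < A) {F : Pt → ℝ} (hF : Measurable F) {M : ℝ}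
    (hM : ∀ y, |F y| ≤ M) (r : RInvF F) (s : ∀ (c : ℝ) (y : Pt), 0 < c → F (c • y) = F y) {η : ℝ}
    (hη : 0 < η) : Tendsto (fun n : ℕ => mu1 A {y | η ≤ |(∑ k ∈ Finset.range n, F (us k y)) / n -
      (∫ x, F x ∂mu1 A) / (mu1 A).real Set.univ|}) atTop (𝓝 0) := by
  have := mu1_finite hA
  have hF' : Measurable[m4Sig] F := fun B hB =>
    ⟨hF hB, fun y P k => by rw [Set.mem_preimage, Set.mem_preimage, r y P k],
      fun c y hc => by rw [Set.mem_preimage, Set.mem_preimage, s c y hc]⟩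
  have e : (mu1 A).trim m4_le Set.univ = mu1 A Set.univ :=
    trim_measurableSet_eq m4_le (@MeasurableSet.univ Pt m4Sig)
  have key := m4_abs (μ := (mu1 A).trim m4_le) (e ▸ mu1_ne hA) (m4_erg hA) hF' hM hη
  rw [← integral_trim m4_le hF'.stronglyMeasurable, measureReal_def, e, ← measureReal_def] at key
  simp only [m4_iter] at key
  exact tendsto_of_tendsto_of_tendsto_of_le_of_le tendsto_const_nhds key (fun _ => zero_le)
    fun _ => le_trim m4_le

end Pool.Agent.TW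
end
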