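import Pool.Agent.Lib.MP_4eaecc_an.D

/-! Linear algebra of `ev`, `ac`, `Om`, symplectic matrices. -/

namespace Pool.Agent.TW

open Matrix MeasureTheory Filter Topology
open scoped ENNReal

theorem ev_four (e : Z4) (a : V) :
    ev e a = e 0 * a 0 + e 1 * a 1 + e 2 * a 2 + e 3 * a 3 := by
  simp [ev, Fin.sum_univ_four]

theorem ev_add (e : Z4) (a b : V) : ev e (a + b) = ev e a + ev e b := by
  simp [ev, mul_add, Finset.sum_add_distrib]

theorem ev_sub (e : Z4) (a b : V) : ev e (a - b) = ev e a - ev e b := by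
  simp [ev, mul_sub, Finset.sum_sub_distrib]

theorem ev_smul (e : Z4) (c : ℝ) (a : V) : ev e (c • a) = c * ev e a := by
  simp [ev, Finset.mul_sum, mul_left_comm]

theorem add_ev (e f : Z4) (a : V) : ev (e + f) a = ev e a + ev f a := by
  simp [ev, add_mul, Finset.sum_add_distrib]

theorem neg_ev (e : Z4) (a : V) : ev (-e) a = -ev e a := by
  simp [ev]

theorem ev_vecMul (e : Z4) (P : Mat) (a : V) : ev (e ᵥ* P) a = ev e (ac P a) := by
  simp only [ev_four, ac, vecMul, dotProduct, Fin.sum_univ_four]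
  push_cast
  ring

theorem ac_one (a : V) : ac 1 a = a := by
  funext i
  fin_cases i <;> simp [ac, ev_four, Matrix.one_apply]

theorem ac_mul (P Q : Mat) (a : V) : ac (P * Q) a = ac P (ac Q a) := by
  funext i
  simp only [ac, ← ev_vecMul]
  rfl

theorem ac_add (P : Mat) (a b : V) : ac P (a + b) = ac P a + ac P b := by
  funext i; simp [ac, ev_add]

theorem ac_sub (P : Mat) (a b : V) : ac P (a - b) = ac P a - ac P b := by
  funext i; simp [ac, ev_sub]

theorem ac_smul (P : Mat) (c : ℝ) (a : V) : ac P (c • a) = c • ac P a := by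
  funext i; simp [ac, ev_smul]

theorem ac_cs (P : Mat) (v : Z4) : ac P (cs v) = cs (P *ᵥ v) := by
  funext i
  simp only [ac, ev, cs, mulVec, dotProduct]
  push_cast
  rfl

theorem continuous_ev (e : Z4) : Continuous (ev e) := by
  unfold ev; fun_prop

theorem continuous_ac (P : Mat) : Continuous (ac P) :=
  continuous_pi fun i => continuous_ev (P i)

theorem continuous_acP (P : Mat) : Continuous (acP P) :=
  ((continuous_ac P).comp continuous_fst).prodMk ((continuous_ac P).comp continuous_snd)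

theorem acP_one (y : Pt) : acP 1 y = y := by simp [acP, ac_one]

theorem acP_mul (P Q : Mat) (y : Pt) : acP (P * Q) y = acP P (acP Q y) := by simp [acP, ac_mul]

theorem hol_acP (P : Mat) (y : Pt) (e : Z4) : hol (acP P y) e = hol y (e ᵥ* P) := by
  simp [hol, acP, ev_vecMul]

theorem vec_acP (P : Mat) (y : Pt) (i : Fin 4) : vec (acP P y) i = hol y (P i) := rfl

theorem acP_lin (P : Mat) (a b c d : ℝ) (y : Pt) : acP P (lin a b c d y) = lin a b c d (acP P y) := by
  simp [acP, lin, ac_add, ac_smul]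

theorem gt_eq (t : ℝ) (y : Pt) : gt t y = lin (Real.exp t) 0 0 (Real.exp (-t)) y := by
  simp [gt, lin]

theorem us_eq (s : ℝ) (y : Pt) : us s y = lin 1 s 0 1 y := by simp [us, lin]

theorem ls_eq (s : ℝ) (y : Pt) : ls s y = lin 1 0 s 1 y := by simp [ls, lin, add_comm]

theorem smul_eq_lin (c : ℝ) (y : Pt) : c • y = lin c 0 0 c y := by
  ext <;> simp [lin]

theorem ar_lin (a b c d : ℝ) (y : Pt) (i : Fin 3) :
    ar (lin a b c d y) i = (a * d - b * c) * ar y i := by
  simp only [ar, vec, dt, lin, Pi.add_apply, Pi.smul_apply, smul_eq_mul]; ring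

theorem area_eq (y : Pt) : area y = ar y 0 + ar y 1 + ar y 2 := by
  simp [area, Om, ar, vec, dt, sp, sq]; ring

theorem area_lin (a b c d : ℝ) (y : Pt) : area (lin a b c d y) = (a * d - b * c) * area y := by
  simp only [area_eq, ar_lin]; ring

theorem Om_swap (a b : V) : Om a b = -Om b a := by simp only [Om]; ring

theorem Om_self (a : V) : Om a a = 0 := by simp only [Om]; ring

theorem Om_add (a b c : V) : Om a (b + c) = Om a b + Om a c := by
  simp only [Om, Pi.add_apply]; ring

theorem Om_sub (a b c : V) : Om a (b - c) = Om a b - Om a c := by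
  simp only [Om, Pi.sub_apply]; ring

theorem Om_smul (a b : V) (c : ℝ) : Om a (c • b) = c * Om a b := by
  simp only [Om, Pi.smul_apply, smul_eq_mul]; ring

theorem add_Om (a b c : V) : Om (a + b) c = Om a c + Om b c := by
  simp only [Om, Pi.add_apply]; ring

theorem sub_Om (a b c : V) : Om (a - b) c = Om a c - Om b c := by
  simp only [Om, Pi.sub_apply]; ring

theorem smul_Om (a b : V) (c : ℝ) : Om (c • a) b = c * Om a b := by
  simp only [Om, Pi.smul_apply, smul_eq_mul]; ring

theorem abs_Om_le (a b : V) : |Om a b| ≤ 6 * ‖a‖ * ‖b‖ := by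
  have h : ∀ i j, |a i * b j| ≤ ‖a‖ * ‖b‖ := fun i j => by
    rw [abs_mul]
    exact mul_le_mul (norm_le_pi_norm a i) (norm_le_pi_norm b j) (abs_nonneg _) (norm_nonneg _)
  have h1 := abs_le.1 (h 0 2)
  have h2 := abs_le.1 (h 1 2)
  have h3 := abs_le.1 (h 2 0)
  have h4 := abs_le.1 (h 2 1)
  have h5 := abs_le.1 (h 0 3)
  have h6 := abs_le.1 (h 3 0)
  rw [abs_le, Om]
  constructor <;> linarith [h1.1, h1.2, h2.1, h2.2, h3.1, h3.2, h4.1, h4.2, h5.1, h5.2, h6.1, h6.2]

theorem r1_dual (v : V) (i : Fin 4) : ∃ u : V, ‖u‖ ≤ 2 ∧ Om v u = v i := by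
  have h : ∀ u : V, (∀ j, |u j| ≤ 2) → ‖u‖ ≤ 2 := fun u hu =>
    (pi_norm_le_iff_of_nonneg (by norm_num)).2 hu
  fin_cases i
  · exact ⟨![0, 0, 0, 1], h _ fun j => by fin_cases j <;> simp, by simp [Om]⟩
  · exact ⟨![0, 0, 1, -1], h _ fun j => by fin_cases j <;> simp, by simp [Om]⟩
  · exact ⟨![0, -1, 0, 0], h _ fun j => by fin_cases j <;> simp, by simp [Om]⟩
  · exact ⟨![-1, 1, 0, 0], h _ fun j => by fin_cases j <;> simp, by simp [Om]⟩

/-- For every `v` there is a dual vector of norm at most `2`. -/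
theorem exists_dual (v : V) : ∃ u : V, ‖u‖ ≤ 2 ∧ Om v u = ‖v‖ := by
  obtain ⟨i, -, hi⟩ := Finset.exists_max_image Finset.univ (fun i => ‖v i‖) Finset.univ_nonempty
  have h : ‖v‖ = |v i| := le_antisymm
    ((pi_norm_le_iff_of_nonneg (norm_nonneg _)).2 fun j => hi j (Finset.mem_univ j))
    (norm_le_pi_norm v i)
  obtain ⟨u, h1, h2⟩ := r1_dual v i
  rcases abs_choice (v i) with e | e
  · exact ⟨u, h1, by rw [h, e, h2]⟩
  · exact ⟨(-1 : ℝ) • u, by simpa using h1, by rw [h, e, Om_smul, h2, neg_one_mul]⟩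

theorem r1_ij : Ji * Jm = 1 := by decide +kernel

theorem r1_ji : Jm * Ji = 1 := by decide +kernel

theorem r1_jt : Jmᵀ = -Jm := by decide +kernel

theorem r1_it : Jiᵀ = -Ji := by decide +kernel

theorem Symp.one : Symp 1 := by simp [Symp]

theorem Symp.mul {P Q : Mat} (hP : Symp P) (hQ : Symp Q) : Symp (P * Q) := by
  unfold Symp at *
  calc (P * Q)ᵀ * Jm * (P * Q) = Qᵀ * (Pᵀ * Jm * P) * Q := by
        simp only [transpose_mul, Matrix.mul_assoc]
    _ = Jm := by rw [hP, hQ]

theorem r1_ac (P : Mat) (a : V) : ac P a = P.map (Int.castRingHom ℝ) *ᵥ a := rfl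

theorem r1_Om (a b : V) : Om a b = a ⬝ᵥ ac Jm b := by
  simp [Om, ac, ev_four, Jm, dotProduct, Fin.sum_univ_four]
  ring

theorem r1_dot (P : Mat) (a b : V) : ac P a ⬝ᵥ b = a ⬝ᵥ ac Pᵀ b := by
  rw [r1_ac, r1_ac, transpose_map, mulVec_transpose, dotProduct_comm, dotProduct_mulVec,
    dotProduct_comm]

theorem Symp.Om_ac {P : Mat} (h : Symp P) (a b : V) : Om (ac P a) (ac P b) = Om a b := by
  rw [r1_Om, r1_Om, r1_dot, ← ac_mul, ← ac_mul, show Pᵀ * Jm * P = Jm from h]

theorem Symp.sinv_mul {P : Mat} (h : Symp P) : sinv P * P = 1 := by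
  rw [← r1_ij, ← show Pᵀ * Jm * P = Jm from h]
  simp only [TW.sinv, Matrix.mul_assoc]

theorem Symp.mul_sinv {P : Mat} (h : Symp P) : P * sinv P = 1 := mul_eq_one_comm.1 h.sinv_mul

theorem Symp.sinv {P : Mat} (h : Symp P) : Symp (sinv P) := by
  calc (TW.sinv P)ᵀ * Jm * TW.sinv P = (TW.sinv P)ᵀ * (Pᵀ * Jm * P) * TW.sinv P := by
        rw [show Pᵀ * Jm * P = Jm from h]
    _ = (P * TW.sinv P)ᵀ * Jm * (P * TW.sinv P) := by simp only [transpose_mul, Matrix.mul_assoc]
    _ = Jm := by rw [h.mul_sinv, transpose_one, Matrix.one_mul, Matrix.mul_one]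

theorem sinv_sinv (P : Mat) : sinv (sinv P) = P := by
  calc sinv (sinv P) = (Ji * Jm) * P * (Ji * Jm) := by
        simp only [sinv, transpose_mul, transpose_transpose, r1_jt, r1_it, Matrix.mul_assoc,
          Matrix.mul_neg, Matrix.neg_mul, neg_neg]
    _ = P := by rw [r1_ij, Matrix.one_mul, Matrix.mul_one]

theorem r1_sinv_mul (P Q : Mat) : sinv (P * Q) = sinv Q * sinv P := by
  calc sinv (P * Q) = Ji * Qᵀ * (Jm * Ji) * Pᵀ * Jm := by
        simp only [sinv, r1_ji, transpose_mul, Matrix.mul_assoc, Matrix.one_mul]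
    _ = _ := by simp only [sinv, Matrix.mul_assoc]

theorem Symp.dual {P : Mat} (h : Symp P) : P * Ji * Pᵀ = Ji := by
  calc P * Ji * Pᵀ = P * Ji * Pᵀ * (Jm * Ji) := by rw [r1_ji, Matrix.mul_one]
    _ = P * TW.sinv P * Ji := by simp only [TW.sinv, Matrix.mul_assoc]
    _ = Ji := by rw [h.mul_sinv, Matrix.one_mul]

theorem Symp.mp_ac {P : Mat} (h : Symp P) : MeasurePreserving (ac P) volume volume := by
  have h1 : |(P.map (Int.castRingHom ℝ)).det| = 1 := by
    rw [← RingHom.mapMatrix_apply, ← RingHom.map_det]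
    rcases Int.isUnit_iff.1 (isUnit_det_of_right_inverse h.mul_sinv) with e | e <;> simp [e]
  have h2 := Real.map_matrix_volume_pi_eq_smul_volume_pi (M := P.map (Int.castRingHom ℝ))
    fun e => by rw [e, abs_zero] at h1; exact zero_ne_one h1
  rw [abs_inv, h1, inv_one, ENNReal.ofReal_one, one_smul] at h2
  exact ⟨(continuous_ac P).measurable, h2⟩

theorem Symp.mp_acP {P : Mat} (h : Symp P) : MeasurePreserving (acP P) volume volume :=
  h.mp_ac.prod h.mp_ac

theorem r1_ls (s : ℝ) : MeasurePreserving (ls s) volume volume :=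
  MeasurePreserving.skew_product (MeasurePreserving.id volume) (g := fun x y : V => y + s • x)
    (by fun_prop) (Eventually.of_forall fun x => map_add_right_eq_self volume (s • x))

theorem r1_us (s : ℝ) : MeasurePreserving (us s) volume volume :=
  (Measure.measurePreserving_swap.comp (r1_ls s)).comp Measure.measurePreserving_swap

theorem r1_lin {a b c d : ℝ} (h : a * d - b * c = 1) (hc : c ≠ 0) :
    MeasurePreserving (lin a b c d) volume volume := by
  obtain rfl : b = (a * d - 1) / c := by rw [eq_div_iff hc]; linarith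
  convert ((r1_us ((a - 1) / c)).comp (r1_ls c)).comp (r1_us ((d - 1) / c)) using 1
  funext y
  refine Prod.ext (funext fun i => ?_) (funext fun i => ?_) <;>
    simp only [lin, us, ls, Function.comp_apply, Pi.add_apply, Pi.smul_apply, smul_eq_mul] <;>
    field_simp <;> ring

theorem mp_lin {a b c d : ℝ} (h : a * d - b * c = 1) :
    MeasurePreserving (lin a b c d) volume volume := by
  rcases eq_or_ne c 0 with rfl | hc
  · have ha : a ≠ 0 := by
      rintro rfl
      simp at h
    convert (r1_ls (-1)).comp (r1_lin (a := a) (b := b) (c := a) (d := b + d) (by linarith) ha)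
      using 1
    funext y
    refine Prod.ext rfl (funext fun i => ?_)
    simp only [lin, ls, Function.comp_apply, Pi.add_apply, Pi.smul_apply, smul_eq_mul]
    ring
  · exact r1_lin h hc

theorem Mb.norm_ac {P : Mat} {K : ℝ} (h : Mb P K) (a : V) : ‖ac P a‖ ≤ 4 * K * ‖a‖ := by
  have hK : 0 ≤ K := (abs_nonneg _).trans (h 0 0)
  refine (pi_norm_le_iff_of_nonneg (by positivity)).2 fun i => ?_
  rw [show 4 * K * ‖a‖ = (Finset.univ : Finset (Fin 4)).card • (K * ‖a‖) by simp [mul_assoc]]
  refine (Finset.abs_sum_le_sum_abs (fun j => (P i j : ℝ) * a j) Finset.univ).trans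
    (Finset.sum_le_card_nsmul _ _ _ fun j _ => ?_)
  rw [abs_mul]
  exact mul_le_mul (h i j) (norm_le_pi_norm a j) (abs_nonneg _) hK

theorem Mb.sinv {P : Mat} {K : ℝ} (h : Mb P K) : Mb (sinv P) (4 * K) := by
  have hK : 0 ≤ K := (abs_nonneg _).trans (h 0 0)
  have h1 : ∀ i, ∑ k, |Ji i k| ≤ 2 := by decide +kernel
  have h2 : ∀ j, ∑ l, |Jm l j| ≤ 2 := by decide +kernel
  intro i j
  have h3 : ∑ k, |(Ji i k : ℝ)| ≤ 2 := by exact_mod_cast h1 i
  have h4 : ∑ l, |(Jm l j : ℝ)| ≤ 2 := by exact_mod_cast h2 j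
  have h5 : ∀ l, |∑ k, (Ji i k : ℝ) * P l k| ≤ 2 * K := fun l => by
    refine (Finset.abs_sum_le_sum_abs _ _).trans (le_trans (Finset.sum_le_sum fun k _ => ?_)
      ((Finset.sum_mul ..).symm.trans_le (mul_le_mul_of_nonneg_right h3 hK)))
    rw [abs_mul]
    exact mul_le_mul_of_nonneg_left (h l k) (abs_nonneg _)
  simp only [TW.sinv, mul_apply, transpose_apply]
  push_cast
  refine (Finset.abs_sum_le_sum_abs _ _).trans (le_trans (Finset.sum_le_sum fun l _ => ?_)
    ((Finset.mul_sum ..).symm.trans_le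
      ((mul_le_mul_of_nonneg_left h4 (a := 2 * K) (by positivity)).trans_eq (by ring))))
  rw [abs_mul]
  exact mul_le_mul_of_nonneg_right (h5 l) (abs_nonneg _)

theorem mb_of_norm {P : Mat} {K : ℝ} (h : ∀ a, ‖ac P a‖ ≤ K * ‖a‖) : Mb P K := by
  intro i j
  have h1 := (norm_le_pi_norm _ i).trans (h (Pi.single j 1))
  rw [Pi.norm_single, norm_one, mul_one, r1_ac, mulVec_single_one] at h1
  exact h1

theorem finite_mb (K : ℝ) : {P : Mat | Mb P K}.Finite := by
  refine (Set.Finite.pi' fun _ : Fin 4 => Set.Finite.pi' fun _ : Fin 4 =>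
    Set.finite_Icc (-⌈K⌉) ⌈K⌉).subset fun P hP i j => abs_le.1 ?_
  have := (hP i j).trans (Int.le_ceil K)
  exact_mod_cast this

theorem one_le_norm_cs {v : Z4} (h : v ≠ 0) : 1 ≤ ‖cs v‖ := by
  obtain ⟨i, hi⟩ := Function.ne_iff.1 h
  refine le_trans ?_ (norm_le_pi_norm (cs v) i)
  have : (1 : ℝ) ≤ |(v i : ℝ)| := by exact_mod_cast Int.one_le_abs hi
  exact this

theorem isOpen_cell : IsOpen Cell := by
  unfold Cell
  rw [Set.ofPred_forall]
  refine isOpen_iInter_of_finite fun i => isOpen_lt continuous_const ?_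
  unfold ar dt vec
  fun_prop

theorem IsGen.symp {g : Mat} (h : IsGen g) : Symp g := by
  unfold Symp
  rcases h with rfl | rfl | rfl | rfl | rfl <;> decide +kernel

theorem Reach.cell0 {y : Pt} {P : Mat} (h : Reach y P) : y ∈ Cell := by
  induction h with
  | refl h => exact h
  | step _ _ _ ih => exact ih

theorem Reach.cell {y : Pt} {P : Mat} (h : Reach y P) : acP P y ∈ Cell := by
  cases h with
  | refl h => rwa [acP_one]
  | step _ _ h => exact h

theorem Reach.symp {y : Pt} {P : Mat} (h : Reach y P) : Symp P := by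
  induction h with
  | refl _ => exact Symp.one
  | step _ hg _ ih => exact hg.symp.mul ih

theorem Reach.trans {y : Pt} {P Q : Mat} (h : Reach y P) (k : Reach (acP P y) Q) :
    Reach y (Q * P) := by
  induction k with
  | refl _ => rwa [Matrix.one_mul]
  | step _ hg hc ih =>
    rw [Matrix.mul_assoc]
    exact ih.step hg (by rwa [← Matrix.mul_assoc, acP_mul])

/-- Moves that preserve the cell in both directions. -/
def Fr (g : Mat) : Prop := ∀ y, (acP g y ∈ Cell ↔ y ∈ Cell) ∧ (y ∈ Cell → Reach y g)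

theorem Fr.one : Fr 1 := fun y => ⟨by rw [acP_one], Reach.refl⟩

theorem Fr.mul {g k : Mat} (hg : Fr g) (hk : Fr k) : Fr (g * k) := fun y =>
  ⟨by rw [acP_mul, (hg _).1, (hk _).1], fun h => ((hk y).2 h).trans ((hg _).2 ((hk y).1.2 h))⟩

theorem Fr.of_gen {g : Mat} (hg : IsGen g) (σ : Equiv.Perm (Fin 3))
    (h : ∀ y i, ar (acP g y) i = ar y (σ i)) : Fr g := fun y => by
  have e : acP g y ∈ Cell ↔ y ∈ Cell := by
    simp only [Cell, Set.mem_ofPred_eq, h]
    exact σ.forall_congr_right (q := fun i => 0 < ar y i)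
  refine ⟨e, fun hy => ?_⟩
  have := (Reach.refl hy).step hg (by rw [Matrix.mul_one]; exact e.2 hy)
  rwa [Matrix.mul_one] at this

theorem fr_rho : Fr rho := Fr.of_gen (.inl rfl) (Equiv.swap 1 2) fun y i => by
  fin_cases i <;>
    simp [ar, vec, acP, ac, ev_four, dt, sp, sq, rho, Equiv.swap_apply_def] <;> ring

theorem fr_Tp : Fr Tp := Fr.of_gen (.inr (.inl rfl)) 1 fun y i => by
  fin_cases i <;> simp [ar, vec, acP, ac, ev_four, dt, sp, sq, Tp]
  ring

theorem fr_Tm : Fr Tm := Fr.of_gen (.inr (.inr (.inl rfl))) 1 fun y i => by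
  fin_cases i <;> simp [ar, vec, acP, ac, ev_four, dt, sp, sq, Tm]
  ring

theorem fr_neg : Fr (-rho) :=
  (show rho * rho * rho = -rho by decide +kernel) ▸ (fr_rho.mul fr_rho).mul fr_rho

/-- These moves are always allowed. -/
theorem reach_free {y : Pt} (h : y ∈ Cell) {g : Mat}
    (hg : g = rho ∨ g = Tp ∨ g = Tm ∨ g = Tq ∨ g = Tr ∨ g = -1 ∨ g = -rho) : Reach y g := by
  refine ((show Fr g from ?_) y).2 h
  rcases hg with rfl | rfl | rfl | rfl | rfl | rfl | rfl
  · exact fr_rho
  · exact fr_Tp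
  · exact fr_Tm
  · exact (show rho * Tm * -rho = Tq by decide +kernel) ▸ (fr_rho.mul fr_Tm).mul fr_neg
  · exact (show rho * Tp * -rho = Tr by decide +kernel) ▸ (fr_rho.mul fr_Tp).mul fr_neg
  · exact (show rho * rho = -1 by decide +kernel) ▸ fr_rho.mul fr_rho
  · exact fr_neg

theorem r1_cond {y : Pt} (h : y ∈ Cell) {g A S B : Mat} (hA : Fr A) (hS : IsGen S) (hB : Fr B)
    (e : g = A * (S * B)) (k : acP g y ∈ Cell) : Reach y g := by
  subst e
  rw [acP_mul, (hA _).1] at k
  exact (((hB y).2 h).step hS k).trans ((hA _).2 k)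

/-- These moves are allowed as soon as the target is in the cell. -/
theorem reach_cond {y : Pt} (h : y ∈ Cell) {g : Mat}
    (hg : g = Sp ∨ g = Sm ∨ g = Sq ∨ g = Sr ∨ g = Nb ∨ g = Nc ∨ g = Sr * -rho ∨ g = Sm * -rho)
    (k : acP g y ∈ Cell) : Reach y g := by
  have p : IsGen Sp := .inr (.inr (.inr (.inl rfl)))
  have m : IsGen Sm := .inr (.inr (.inr (.inr rfl)))
  rcases hg with rfl | rfl | rfl | rfl | rfl | rfl | rfl | rfl
  · exact r1_cond h Fr.one p Fr.one (by decide +kernel) k
  · exact r1_cond h Fr.one m Fr.one (by decide +kernel) k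
  · exact r1_cond h fr_rho m fr_neg (by decide +kernel) k
  · exact r1_cond h fr_rho p fr_neg (by decide +kernel) k
  · exact r1_cond h (fr_Tp.mul fr_rho) p fr_Tp (by decide +kernel) k
  · exact r1_cond h ((fr_rho.mul fr_Tm).mul fr_rho) m (fr_Tm.mul fr_rho) (by decide +kernel) k
  · exact r1_cond h fr_rho p (fr_neg.mul fr_neg) (by decide +kernel) k
  · exact r1_cond h Fr.one m fr_neg (by decide +kernel) k

theorem Reach.inv {y : Pt} {P : Mat} (h : Reach y P) : Reach (acP P y) (sinv P) := by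
  induction h with
  | refl h =>
    rw [acP_one, show sinv 1 = 1 by decide +kernel]
    exact .refl h
  | @step P g hP hg hc ih =>
    have e : acP (sinv g) (acP (g * P) y) = acP P y := by
      rw [← acP_mul, ← Matrix.mul_assoc, hg.symp.sinv_mul, Matrix.one_mul]
    have k : acP (sinv g) (acP (g * P) y) ∈ Cell := e ▸ hP.cell
    rw [r1_sinv_mul]
    refine Reach.trans ?_ (e ▸ ih)
    rcases hg with rfl | rfl | rfl | rfl | rfl
    · exact reach_free hc (by decide +kernel)
    · exact reach_free hc (by decide +kernel)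
    · exact reach_free hc (by decide +kernel)
    · exact reach_cond hc (by decide +kernel) k
    · exact reach_cond hc (by decide +kernel) k

theorem Reach.lin {y : Pt} {P : Mat} (h : Reach y P) {a b c d : ℝ} (k : 0 < a * d - b * c) :
    Reach (lin a b c d y) P := by
  have e : ∀ x ∈ Cell, TW.lin a b c d x ∈ Cell := fun x hx i => by
    rw [ar_lin]
    exact mul_pos k (hx i)
  induction h with
  | refl h => exact .refl (e _ h)
  | step _ hg hc ih => exact ih.step hg (by rw [acP_lin]; exact e _ hc)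

theorem isOpen_reach (P : Mat) : IsOpen {y | Reach y P} := by
  refine isOpen_iff_mem_nhds.2 fun y (h : Reach y P) => show ∀ᶠ x in 𝓝 y, Reach x P from ?_
  induction h with
  | refl h => exact mem_of_superset (isOpen_cell.mem_nhds h) fun x hx => Reach.refl hx
  | step _ hg hc ih =>
    filter_upwards [ih, (isOpen_cell.preimage (continuous_acP _)).mem_nhds hc] with x h1 h2
    exact h1.step hg h2

theorem Reach.area {y : Pt} {P : Mat} (h : Reach y P) : area (acP P y) = area y :=
  h.symp.Om_ac y.1 y.2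

end Pool.Agent.TW
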