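import Pool.Agent.Lib.MP_4eaecc_an.D
import Pool.Agent.Lib.MP_4eaecc_an.R1

-- part Pool.Agent.Lib.MP_4eaecc_an.H1
section

/-! The harmonic majorant in an abstract Hilbert space. -/

namespace Pool.Agent.TW

open Matrix MeasureTheory Filter Topology
open scoped ENNReal NNReal

section Aux

variable {E : Type} [NormedAddCommGroup E] [InnerProductSpace ℂ E]

/-- The real orthogonal projection on the closure of a real subspace. -/
private theorem h1_proj [CompleteSpace E] (A : Submodule ℝ E) : ∃ P : E →L[ℝ] E,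
    (∀ x, P x ∈ closure (A : Set E)) ∧
      ∀ x, ∀ y ∈ closure (A : Set E), (inner ℂ (P x) y).re = (inner ℂ x y).re := by
  let _ : InnerProductSpace ℝ E := InnerProductSpace.complexToReal
  have : CompleteSpace A.topologicalClosure := A.isClosed_topologicalClosure.completeSpace_coe
  refine ⟨A.topologicalClosure.starProjection,
    fun x => A.topologicalClosure.starProjection_apply_mem x, fun x y hy => ?_⟩
  have h : (inner ℂ (x - A.topologicalClosure.starProjection x) y).re = 0 :=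
    A.topologicalClosure.starProjection_inner_eq_zero x y hy
  rw [inner_sub_left, Complex.sub_re] at h
  linarith

private theorem h1_iso {A : Set E} (iso : ∀ x ∈ A, ∀ y ∈ A, (inner ℂ x y).im = 0) :
    ∀ x ∈ closure A, ∀ y ∈ closure A, (inner ℂ x y).im = 0 := by
  have h1 : ∀ x ∈ A, ∀ y ∈ closure A, (inner ℂ x y).im = 0 := fun x hx =>
    closure_minimal (t := {y | (inner ℂ x y).im = 0}) (iso x hx)
      (isClosed_eq (by fun_prop) continuous_const)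
  exact fun x hx y hy => closure_minimal (t := {x | (inner ℂ x y).im = 0})
    (fun x hx => h1 x hx y hy) (isClosed_eq (by fun_prop) continuous_const) hx

private theorem h1_re (x : E) : (inner ℂ x x).re = ‖x‖ ^ 2 := inner_self_eq_norm_sq (𝕜 := ℂ) x

private theorem h1_add (x y : E) : ‖x + y‖ ^ 2 = ‖x‖ ^ 2 + 2 * (inner ℂ x y).re + ‖y‖ ^ 2 :=
  norm_add_sq (𝕜 := ℂ) x y

private theorem h1_sub (x y : E) : ‖x - y‖ ^ 2 = ‖x‖ ^ 2 - 2 * (inner ℂ x y).re + ‖y‖ ^ 2 :=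
  norm_sub_sq (𝕜 := ℂ) x y

private theorem h1_symm (x y : E) : (inner ℂ x y).re = (inner ℂ y x).re :=
  inner_re_symm (𝕜 := ℂ) x y

private theorem h1_smul (c : ℂ) (x : E) : c • x = c.re • x + c.im • Complex.I • x := by
  rw [← Complex.coe_smul, ← Complex.coe_smul, smul_smul, ← add_smul, Complex.re_add_im]

/-- The contraction `U` and the vector `β'`. -/
private theorem h1_op [CompleteSpace E] (κ : E →L[ℝ] E)
    (hI : ∀ (c : ℂ) (x : E), κ (c • x) = (starRingEnd ℂ c) • κ x) (hn : ∀ x, ‖κ x‖ = ‖x‖)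
    (A : Submodule ℝ E) (iso : ∀ x ∈ A, ∀ y ∈ A, (inner ℂ x y).im = 0) (β : E) :
    ∃ (U : E →L[ℂ] E) (β' : E), ‖U‖ ≤ 1 ∧ ‖β'‖ ≤ ‖β‖ ∧ ∀ φ ∈ A,
      (inner ℂ β' φ).im = (inner ℂ β φ).im ∧ ∀ z, (inner ℂ (U z + κ z) φ).im = 0 := by
  obtain ⟨P, hP, hP'⟩ := h1_proj A
  have iso' := h1_iso iso
  have hS : ∀ w, ‖P w + Complex.I • P (Complex.I • w)‖ ≤ ‖w‖ := fun w => by
    have h1 := hP' w _ (hP w)
    have h2 := hP' (Complex.I • w) _ (hP (Complex.I • w))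
    have h3 := iso' _ (hP w) _ (hP (Complex.I • w))
    generalize P w = a at h1 h3 ⊢
    generalize P (Complex.I • w) = b at h2 h3 ⊢
    have h4 := h1_add a (Complex.I • b)
    have h5 := h1_sub w (a - Complex.I • b)
    have h6 := h1_sub a (Complex.I • b)
    have h7 := sq_nonneg ‖w - (a - Complex.I • b)‖
    rw [h1_re] at h1 h2
    simp only [inner_sub_right, inner_smul_left, inner_smul_right, norm_smul, Complex.norm_I,
      one_mul, Complex.conj_I, Complex.mul_re, Complex.sub_re, Complex.neg_re, Complex.neg_im,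
      Complex.I_re, Complex.I_im] at h2 h4 h5 h6
    refine (sq_le_sq₀ (norm_nonneg _) (norm_nonneg _)).1 ?_
    linarith
  have hII : ∀ w : E, Complex.I • Complex.I • w = -w := fun w => by
    rw [smul_smul, Complex.I_mul_I, neg_one_smul]
  have hc : ∀ (c : ℂ) (w : E), P (c • w) = (c.re : ℂ) • P w + (c.im : ℂ) • P (Complex.I • w) :=
    fun c w => by rw [h1_smul c, map_add, map_smul, map_smul, Complex.coe_smul, Complex.coe_smul]
  let U0 : E →ₗ[ℂ] E :=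
    { toFun := fun z => P (κ z) + Complex.I • P (Complex.I • κ z)
      map_add' := fun z w => by
        rw [map_add, smul_add, map_add, map_add, smul_add]
        abel
      map_smul' := fun c z => by
        rw [hI, RingHom.id_apply, smul_comm Complex.I (starRingEnd ℂ c), hc (starRingEnd ℂ c),
          hc (starRingEnd ℂ c), hII, map_neg]
        match_scalars <;> apply Complex.ext <;> simp }
  refine ⟨U0.mkContinuous 1 (fun z => ?_), -(Complex.I • P (Complex.I • β)),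
    U0.mkContinuous_norm_le zero_le_one _, ?_, fun φ hφ => ⟨?_, fun z => ?_⟩⟩
  · rw [one_mul, ← hn z]
    exact hS _
  · have h1 := hP' (Complex.I • β) _ (hP (Complex.I • β))
    have h2 : (inner ℂ (Complex.I • β) (P (Complex.I • β))).re ≤ _ := re_inner_le_norm (𝕜 := ℂ) _ _
    rw [← h1, h1_re, norm_smul, Complex.norm_I, one_mul] at h2
    rw [norm_neg, norm_smul, Complex.norm_I, one_mul]
    nlinarith [norm_nonneg β, norm_nonneg (P (Complex.I • β))]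
  · have h1 := hP' (Complex.I • β) φ (subset_closure hφ)
    simp only [inner_neg_left, inner_smul_left, Complex.conj_I, Complex.mul_re, Complex.mul_im,
      Complex.neg_re, Complex.neg_im, Complex.I_re, Complex.I_im] at h1 ⊢
    linarith
  · have h1 := hP' (Complex.I • κ z) φ (subset_closure hφ)
    have h2 := iso' _ (hP (κ z)) φ (subset_closure hφ)
    show (inner ℂ (P (κ z) + Complex.I • P (Complex.I • κ z) + κ z) φ).im = 0
    simp only [inner_add_left, inner_smul_left, Complex.conj_I, Complex.mul_re, Complex.mul_im,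
      Complex.add_im, Complex.neg_re, Complex.neg_im, Complex.I_re, Complex.I_im] at h1 ⊢
    linarith

private theorem h1_cross (κ : E →L[ℝ] E) (hκ : ∀ x, κ (κ x) = x)
    (hI : ∀ (c : ℂ) (x : E), κ (c • x) = (starRingEnd ℂ c) • κ x) (hn : ∀ x, ‖κ x‖ = ‖x‖)
    (k : ℂ) (x φ : E) :
    (inner ℂ (κ (k • x)) φ).im = -(inner ℂ x ((starRingEnd ℂ k) • κ φ)).im := by
  have h0 : ∀ a b : E, (inner ℂ (κ a) (κ b)).re = (inner ℂ a b).re := fun a b => by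
    have h1 := h1_add (κ a) (κ b)
    have h2 := h1_add a b
    rw [← map_add, hn, hn, hn] at h1
    linarith
  have h1 := h0 (Complex.I • k • x) (κ φ)
  rw [hκ, hI] at h1
  generalize κ (k • x) = w at h1 ⊢
  simp only [inner_smul_left, inner_smul_right, Complex.conj_I, Complex.mul_re,
    Complex.mul_im, Complex.neg_re, Complex.neg_im, Complex.I_re, Complex.I_im, map_neg,
    neg_neg] at h1 ⊢
  linarith

end Aux

/-- `κ` is a conjugation, `A` is a real isotropic subspace. Let `L` be the closure of `A`, `P`, `P'`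
the real orthogonal projections on `L` and `i L`, `U = (P - P') ∘ κ` (complex linear, norm at most
one), `β' = P' β`, `x = (1 - k U)⁻¹ β'`, `ψ = x + conj k • κ x`. Then `P' ψ = β'` and
`(1 - |k|²) ‖x‖² ≤ re ⟪(1 + k U) x, β'⟫ = h k`, the real part of an analytic function. The pairing
`im ⟪ψ, φ⟫` is at most `‖ψ - conj k • κ ψ‖ ‖φ - conj k • κ φ‖ / (1 - |k|²)`. -/
theorem majorant {E : Type} [NormedAddCommGroup E] [InnerProductSpace ℂ E] [CompleteSpace E]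
    (κ : E →L[ℝ] E) (hκ : ∀ x, κ (κ x) = x) (hI : ∀ (c : ℂ) (x : E), κ (c • x) = (starRingEnd ℂ c) • κ x)
    (hn : ∀ x, ‖κ x‖ = ‖x‖) (A : Submodule ℝ E)
    (iso : ∀ x ∈ A, ∀ y ∈ A, (inner ℂ x y).im = 0) (β : E) :
    ∃ h : ℂ → ℝ, ContinuousOn h (Metric.ball 0 1) ∧ (∀ k ∈ Metric.ball (0 : ℂ) 1, 0 ≤ h k) ∧
      (∀ r : ℝ, 0 ≤ r → r < 1 → Real.circleAverage h 0 r ≤ ‖β‖ ^ 2) ∧
      ∀ k ∈ Metric.ball (0 : ℂ) 1, ∀ φ ∈ A, (inner ℂ β φ).im ^ 2 * (1 - ‖k‖ ^ 2) ≤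
        h k * ‖φ - (starRingEnd ℂ k) • κ φ‖ ^ 2 := by
  obtain ⟨U, β', hU, hβ, hφ⟩ := h1_op κ hI hn A iso β
  have hu : ∀ k ∈ Metric.ball (0 : ℂ) 1, IsUnit (1 - k • U) := fun k hk =>
    isUnit_one_sub_of_norm_lt_one (by
      rw [norm_smul]
      exact (mul_le_of_le_one_right (norm_nonneg k) hU).trans_lt (mem_ball_zero_iff.1 hk))
  obtain ⟨X, hX⟩ : ∃ X : ℂ → E, X = fun k => (Ring.inverse (1 - k • U) : E →L[ℂ] E) β' :=
    ⟨_, rfl⟩
  have hX1 : ∀ k ∈ Metric.ball (0 : ℂ) 1, β' = X k - k • U (X k) := fun k hk => by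
    have h := congrArg (fun T : E →L[ℂ] E => T β') (Ring.mul_inverse_cancel _ (hu k hk))
    rw [hX]
    exact h.symm
  have hX2 : DifferentiableOn ℂ X (Metric.ball 0 1) := fun k hk => by
    rw [hX]
    exact (((differentiableAt_inverse (hu k hk)).comp k (f := fun k : ℂ => 1 - k • U)
      (by fun_prop)).clm_apply (differentiableAt_const β')).differentiableWithinAt
  have hg : DifferentiableOn ℂ (fun k => 2 * inner ℂ β' (X k) - ((‖β'‖ ^ 2 : ℝ) : ℂ))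
      (Metric.ball 0 1) :=
    (((innerSL ℂ β').differentiable.comp_differentiableOn hX2).const_mul 2).sub_const _
  have hh : ∀ k ∈ Metric.ball (0 : ℂ) 1, (1 - ‖k‖ ^ 2) * ‖X k‖ ^ 2 ≤
      (2 * inner ℂ β' (X k) - ((‖β'‖ ^ 2 : ℝ) : ℂ)).re := fun k hk => by
    have h1 : ‖k • U (X k)‖ ≤ ‖k‖ * ‖X k‖ := by
      rw [norm_smul]
      exact mul_le_mul_of_nonneg_left (by simpa using U.le_of_opNorm_le hU (X k)) (norm_nonneg k)
    have h2 := pow_le_pow_left₀ (norm_nonneg _) h1 2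
    have h3 := h1_sub β' (X k)
    have h4 : β' - X k = -(k • U (X k)) := by
      rw [sub_eq_iff_eq_add, neg_add_eq_sub]
      exact hX1 k hk
    rw [h4, norm_neg] at h3
    simp only [Complex.sub_re, Complex.mul_re, Complex.ofReal_re, Complex.re_ofNat,
      Complex.im_ofNat, zero_mul, sub_zero]
    nlinarith
  have hk1 : ∀ k ∈ Metric.ball (0 : ℂ) 1, 0 ≤ 1 - ‖k‖ ^ 2 := fun k hk => by
    nlinarith [mem_ball_zero_iff.1 hk, norm_nonneg k]
  refine ⟨fun k => (2 * inner ℂ β' (X k) - ((‖β'‖ ^ 2 : ℝ) : ℂ)).re,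
    Complex.continuous_re.comp_continuousOn hg.continuousOn,
    fun k hk => (mul_nonneg (hk1 k hk) (sq_nonneg _)).trans (hh k hk), fun r h0 hr => ?_,
    fun k hk φ hA => ?_⟩
  · have h1 : Metric.closedBall (0 : ℂ) r ⊆ Metric.ball 0 1 := Metric.closedBall_subset_ball hr
    have h2 := Complex.reCLM.circleAverage_comp_comm (c := 0) (R := r)
      (ContinuousOn.circleIntegrable h0
        (hg.continuousOn.mono (Metric.sphere_subset_closedBall.trans h1)))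
    have h3 := DiffContOnCl.circleAverage (c := 0) (R := r)
      (hg.diffContOnCl_ball (by rwa [abs_of_nonneg h0]))
    have h4 := hX1 0 (Metric.mem_ball_self one_pos)
    rw [zero_smul, sub_zero] at h4
    rw [h3, ← h4] at h2
    refine le_trans (le_of_eq h2) ?_
    simp only [Complex.reCLM_apply, Complex.sub_re, Complex.mul_re, Complex.ofReal_re,
      Complex.re_ofNat, Complex.im_ofNat, zero_mul, sub_zero, h1_re]
    nlinarith [norm_nonneg β']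
  · obtain ⟨h1, h2⟩ := hφ φ hA
    have h3 := h2 (k • X k)
    have h4 := h1_cross κ hκ hI hn k (X k) φ
    have h5 : (inner ℂ β φ).im = (inner ℂ (X k) (φ - (starRingEnd ℂ k) • κ φ)).im := by
      rw [inner_add_left, map_smul, Complex.add_im] at h3
      rw [← h1, hX1 k hk, inner_sub_left, inner_sub_right, Complex.sub_im, Complex.sub_im]
      linarith
    have h6 := pow_le_pow_left₀ (abs_nonneg _) ((Complex.abs_im_le_norm _).trans
      (norm_inner_le_norm (𝕜 := ℂ) (X k) (φ - (starRingEnd ℂ k) • κ φ))) 2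
    rw [sq_abs, ← h5, mul_pow] at h6
    calc _ ≤ ‖X k‖ ^ 2 * ‖φ - (starRingEnd ℂ k) • κ φ‖ ^ 2 * (1 - ‖k‖ ^ 2) :=
          mul_le_mul_of_nonneg_right h6 (hk1 k hk)
      _ = (1 - ‖k‖ ^ 2) * ‖X k‖ ^ 2 * ‖φ - (starRingEnd ℂ k) • κ φ‖ ^ 2 := by ring
      _ ≤ _ := mul_le_mul_of_nonneg_right (hh k hk) (sq_nonneg _)

end Pool.Agent.TW
end

-- part Pool.Agent.Lib.MP_4eaecc_an.H2
section

/-! The majorant along horocycle segments. -/

namespace Pool.Agent.TW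

open Matrix MeasureTheory Filter Topology
open scoped ENNReal NNReal

theorem h2_tanh (t : ℝ) : Real.tanh t * (Real.exp (2 * t) + 1) = Real.exp (2 * t) - 1 := by
  have h1 : Real.exp (2 * t) = Real.exp t * Real.exp t := by rw [← Real.exp_add, two_mul]
  have h2 := Real.exp_pos t
  rw [Real.tanh_eq, h1, Real.exp_neg]
  field_simp

theorem h2_tanh_nonneg {t : ℝ} (ht : 0 ≤ t) : 0 ≤ Real.tanh t := by
  have h1 := h2_tanh t
  have h2 : 1 ≤ Real.exp (2 * t) := Real.one_le_exp (by linarith)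
  by_contra! h
  nlinarith

theorem h2_en_nonneg (t s : ℝ) (G : ℝ × ℝ) : 0 ≤ en t s G := by
  unfold en
  positivity

/-- For `|s| ≤ 5`, `θ = ± arctan s`, `r = tanh t`, the norm of the frame `g_t r_θ` is at most a
constant times the norm of the frame `g_t u_s`. -/
theorem frame_le : ∃ C : ℝ, 0 < C ∧ ∀ t s : ℝ, 0 ≤ t → |s| ≤ 5 → ∀ G : ℝ × ℝ,
    ‖(⟨G.1, G.2⟩ : ℂ) - starRingEnd ℂ (circleMap 0 (Real.tanh t) (-2 * Real.arctan s)) *
      starRingEnd ℂ ⟨G.1, G.2⟩‖ ^ 2 ≤ C * (1 - Real.tanh t ^ 2) * en t s G := by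
  refine ⟨52, by norm_num, fun t s ht hs G => ?_⟩
  have hD : 0 < 1 + s ^ 2 := by positivity
  have hc := Real.cos_sq_arctan s
  have hsn : Real.sin (Real.arctan s) = s * Real.cos (Real.arctan s) := by
    have h := Real.tan_arctan s
    rw [Real.tan_eq_sin_div_cos, div_eq_iff (Real.cos_arctan_pos s).ne'] at h
    exact h
  have c2 : Real.cos (-2 * Real.arctan s) = (1 - s ^ 2) / (1 + s ^ 2) := by
    rw [neg_mul, Real.cos_neg, Real.cos_two_mul, hc]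
    field_simp
    ring
  have s2 : Real.sin (-2 * Real.arctan s) = -(2 * s) / (1 + s ^ 2) := by
    rw [neg_mul, Real.sin_neg, Real.sin_two_mul, hsn,
      show 2 * (s * Real.cos (Real.arctan s)) * Real.cos (Real.arctan s) =
        2 * s * Real.cos (Real.arctan s) ^ 2 by ring, hc]
    field_simp
  have hr := h2_tanh t
  have hr1 := Real.tanh_sq_lt_one t
  have hab : Real.exp (2 * t) * Real.exp (-2 * t) = 1 := by
    rw [← Real.exp_add]; simp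
  have ha : 1 ≤ Real.exp (2 * t) := Real.one_le_exp (by linarith)
  have hb : 0 < Real.exp (-2 * t) := Real.exp_pos _
  have hs2 : s ^ 2 ≤ 25 := by
    have := abs_le.1 hs
    nlinarith
  unfold en
  generalize Real.tanh t = r at *
  generalize Real.exp (2 * t) = a at *
  generalize Real.exp (-2 * t) = b at *
  have e1 : ‖(⟨G.1, G.2⟩ : ℂ) - starRingEnd ℂ (circleMap 0 r (-2 * Real.arctan s)) *
      starRingEnd ℂ ⟨G.1, G.2⟩‖ ^ 2 = (1 - r) ^ 2 * ((G.1 + s * G.2) ^ 2 / (1 + s ^ 2)) +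
        (1 + r) ^ 2 * ((G.2 - s * G.1) ^ 2 / (1 + s ^ 2)) := by
    rw [Complex.sq_norm, Complex.normSq_apply]
    simp only [Complex.sub_re, Complex.sub_im, Complex.mul_re, Complex.mul_im, Complex.conj_re,
      Complex.conj_im, circleMap_zero_re, circleMap_zero_im, c2, s2]
    field_simp
    ring
  have e2 : (1 + r) ^ 2 = (1 - r ^ 2) * a := by linear_combination (1 + r) * hr
  have e3 : (1 - r) ^ 2 = (1 - r ^ 2) * b := by
    linear_combination (-(1 - r) * b) * hr + (-(1 - r) * (1 - r)) * hab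
  have hb1 : b ≤ a := by nlinarith
  have u1 : (G.1 + s * G.2) ^ 2 / (1 + s ^ 2) ≤ 52 * G.1 ^ 2 + 2 * (G.2 - s * G.1) ^ 2 := by
    rw [div_le_iff₀ hD]
    have : G.1 + s * G.2 = (1 + s ^ 2) * G.1 + s * (G.2 - s * G.1) := by ring
    rw [this]
    generalize G.2 - s * G.1 = w
    have h1 : 0 ≤ (1 + s ^ 2) * (25 - s ^ 2) * G.1 ^ 2 :=
      mul_nonneg (mul_nonneg hD.le (by linarith)) (sq_nonneg _)
    nlinarith [sq_nonneg ((1 + s ^ 2) * G.1 - s * w), sq_nonneg w]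
  have u2 : (G.2 - s * G.1) ^ 2 / (1 + s ^ 2) ≤ (G.2 - s * G.1) ^ 2 :=
    div_le_self (sq_nonneg _) (by nlinarith [sq_nonneg s])
  rw [e1, e2, e3]
  generalize (G.1 + s * G.2) ^ 2 / (1 + s ^ 2) = U at *
  generalize (G.2 - s * G.1) ^ 2 / (1 + s ^ 2) = W at *
  have w0 : 0 ≤ (G.2 - s * G.1) ^ 2 := sq_nonneg _
  generalize (G.2 - s * G.1) ^ 2 = w at *
  have k1 := mul_le_mul_of_nonneg_left u1 hb.le
  have k2 := mul_le_mul_of_nonneg_left u2 (zero_le_one.trans ha)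
  have k3 := mul_le_mul_of_nonneg_right hb1 w0
  have k4 : 0 ≤ a * w := mul_nonneg (zero_le_one.trans ha) w0
  have k5 : b * U + a * W ≤ 52 * (b * G.1 ^ 2 + a * w) := by nlinarith
  calc _ = (1 - r ^ 2) * (b * U + a * W) := by ring
    _ ≤ (1 - r ^ 2) * (52 * (b * G.1 ^ 2 + a * w)) := mul_le_mul_of_nonneg_left k5 (by linarith)
    _ = _ := by ring

/-- The majorant, with the real structure unbundled. -/
theorem h2_maj {E : Type} [NormedAddCommGroup E] [InnerProductSpace ℂ E] [CompleteSpace E]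
    (κ : E → E) (hadd : ∀ x y, κ (x + y) = κ x + κ y) (hκ : ∀ x, κ (κ x) = x)
    (hI : ∀ (c : ℂ) (x : E), κ (c • x) = (starRingEnd ℂ c) • κ x)
    (hn : ∀ x, ‖κ x‖ = ‖x‖) (A : Set E) (A0 : (0 : E) ∈ A) (A1 : ∀ x ∈ A, ∀ y ∈ A, x + y ∈ A)
    (A2 : ∀ c : ℝ, ∀ x ∈ A, (c : ℂ) • x ∈ A)
    (iso : ∀ x ∈ A, ∀ y ∈ A, (inner ℂ x y).im = 0) (β : E) :
    ∃ h : ℂ → ℝ, ContinuousOn h (Metric.ball 0 1) ∧ (∀ k ∈ Metric.ball (0 : ℂ) 1, 0 ≤ h k) ∧
      (∀ r : ℝ, 0 ≤ r → r < 1 → Real.circleAverage h 0 r ≤ ‖β‖ ^ 2) ∧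
      ∀ k ∈ Metric.ball (0 : ℂ) 1, ∀ φ ∈ A, (inner ℂ β φ).im ^ 2 * (1 - ‖k‖ ^ 2) ≤
        h k * ‖φ - (starRingEnd ℂ k) • κ φ‖ ^ 2 := by
  let κ₀ : E →ₗ[ℝ] E :=
    { toFun := κ
      map_add' := hadd
      map_smul' := fun c x => by
        rw [← Complex.coe_smul, hI, Complex.conj_ofReal, Complex.coe_smul, RingHom.id_apply] }
  let A' : Submodule ℝ E :=
    { carrier := A
      zero_mem' := A0
      add_mem' := fun hx hy => A1 _ hx _ hy
      smul_mem' := fun c x hx => by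
        rw [← Complex.coe_smul]
        exact A2 c x hx }
  exact majorant (κ₀.mkContinuous 1 fun x => by rw [one_mul]; exact (hn x).le) hκ hI hn A' iso β

theorem h2_nsq {α : Type*} [MeasurableSpace α] {m : Measure α} (φ : Lp ℂ 2 m) :
    ‖φ‖ ^ 2 = ∫ x, ‖φ x‖ ^ 2 ∂m := by
  rw [← inner_self_eq_norm_sq (𝕜 := ℂ), L2.inner_def, ← integral_re (L2.integrable_inner φ φ)]
  exact integral_congr_ae (Eventually.of_forall fun x => inner_self_eq_norm_sq (𝕜 := ℂ) (φ x))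

theorem h2_im {α : Type*} [MeasurableSpace α] {m : Measure α} {φ ψ : Lp ℂ 2 m}
    {G G' : α → ℝ × ℝ} (h : ∀ᵐ x ∂m, φ x = ⟨(G x).1, (G x).2⟩)
    (h' : ∀ᵐ x ∂m, ψ x = ⟨(G' x).1, (G' x).2⟩) :
    (inner ℂ φ ψ).im = ∫ x, dt (G x) (G' x) ∂m := by
  rw [L2.inner_def]
  refine (integral_im (L2.integrable_inner (𝕜 := ℂ) φ ψ)).symm.trans (integral_congr_ae ?_)
  filter_upwards [h, h'] with x e e'
  rw [e, e', RCLike.inner_apply]
  simp only [RCLike.im_to_complex, Complex.mul_im, Complex.conj_re, Complex.conj_im, dt]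
  ring

theorem h2_toLp {α : Type*} [MeasurableSpace α] {m : Measure α} {G : α → ℝ × ℝ}
    (h : MemLp G 2 m) : ∃ φ : Lp ℂ 2 m, ∀ᵐ x ∂m, φ x = ⟨(G x).1, (G x).2⟩ :=
  ⟨_, ((Complex.equivRealProdCLM.symm : ℝ × ℝ →L[ℝ] ℂ).comp_memLp' h).coeFn_toLp⟩

theorem h2_int {α : Type*} [MeasurableSpace α] {m : Measure α} {G : α → ℝ × ℝ}
    (h : MemLp G 2 m) (t s : ℝ) : Integrable (fun x => en t s (G x)) m :=
  (h.fst.integrable_sq.const_mul _).add ((h.snd.sub (h.fst.const_mul s)).integrable_sq.const_mul _)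

/-- The majorant for square integrable fields. -/
theorem h2_L2 {α : Type} [MeasurableSpace α] (m : Measure α) (F : Submodule ℝ (α → ℝ × ℝ))
    (hF : ∀ G ∈ F, MemLp G 2 m) (iso : ∀ G ∈ F, ∀ G' ∈ F, ∫ x, dt (G x) (G' x) ∂m = 0)
    {β : α → ℝ × ℝ} (hβ : MemLp β 2 m) :
    ∃ h : ℂ → ℝ, ContinuousOn h (Metric.ball 0 1) ∧ (∀ k ∈ Metric.ball (0 : ℂ) 1, 0 ≤ h k) ∧
      (∀ r : ℝ, 0 ≤ r → r < 1 → Real.circleAverage h 0 r ≤ ∫ x, en 0 0 (β x) ∂m) ∧
      ∀ k ∈ Metric.ball (0 : ℂ) 1, ∀ G ∈ F, (∫ x, dt (β x) (G x) ∂m) ^ 2 * (1 - ‖k‖ ^ 2) ≤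
        h k * ∫ x, ‖(⟨(G x).1, (G x).2⟩ : ℂ) -
          starRingEnd ℂ k * starRingEnd ℂ ⟨(G x).1, (G x).2⟩‖ ^ 2 ∂m := by
  let κ : Lp ℂ 2 m → Lp ℂ 2 m := fun φ => (Complex.conjCLE : ℂ →L[ℝ] ℂ).compLp φ
  have hκ : ∀ φ, ∀ᵐ x ∂m, κ φ x = starRingEnd ℂ (φ x) := fun φ =>
    (Complex.conjCLE : ℂ →L[ℝ] ℂ).coeFn_compLp φ
  obtain ⟨b, hb⟩ := h2_toLp hβ
  obtain ⟨h, h1, h2, h3, h4⟩ := h2_maj κ (fun φ ψ => Lp.ext (by
      filter_upwards [hκ (φ + ψ), hκ φ, hκ ψ, Lp.coeFn_add φ ψ, Lp.coeFn_add (κ φ) (κ ψ)]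
        with x e1 e2 e3 e4 e5
      rw [e1, e5, e4, Pi.add_apply, Pi.add_apply, e2, e3, map_add]))
    (fun φ => Lp.ext (by
      filter_upwards [hκ (κ φ), hκ φ] with x e1 e2
      rw [e1, e2, Complex.conj_conj]))
    (fun c φ => Lp.ext (by
      filter_upwards [hκ (c • φ), hκ φ, Lp.coeFn_smul c φ,
        Lp.coeFn_smul (starRingEnd ℂ c) (κ φ)] with x e1 e2 e3 e4
      rw [e1, e4, e3, Pi.smul_apply, Pi.smul_apply, e2, smul_eq_mul, smul_eq_mul, map_mul]))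
    (fun φ => by
      refine (sq_eq_sq₀ (norm_nonneg _) (norm_nonneg _)).1 ?_
      rw [h2_nsq, h2_nsq]
      refine integral_congr_ae ?_
      filter_upwards [hκ φ] with x e
      rw [e, Complex.norm_conj])
    {φ | ∃ G ∈ F, ∀ᵐ x ∂m, φ x = ⟨(G x).1, (G x).2⟩}
    ⟨0, F.zero_mem, Lp.coeFn_zero ℂ 2 m⟩
    (by
      rintro φ ⟨G, hG, e⟩ ψ ⟨G', hG', e'⟩
      refine ⟨G + G', F.add_mem hG hG', ?_⟩
      filter_upwards [e, e', Lp.coeFn_add φ ψ] with x e1 e2 e3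
      rw [e3, Pi.add_apply, e1, e2]
      rfl)
    (by
      rintro c φ ⟨G, hG, e⟩
      refine ⟨c • G, F.smul_mem c hG, ?_⟩
      filter_upwards [e, Lp.coeFn_smul (c : ℂ) φ] with x e1 e2
      rw [e2, Pi.smul_apply, e1]
      apply Complex.ext <;> simp)
    (by
      rintro φ ⟨G, hG, e⟩ ψ ⟨G', hG', e'⟩
      rw [h2_im e e', iso G hG G' hG']) b
  refine ⟨h, h1, h2, fun r r0 r1 => (h3 r r0 r1).trans_eq ?_, fun k hk G hG => ?_⟩
  · rw [h2_nsq]
    refine integral_congr_ae ?_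
    filter_upwards [hb] with x e
    rw [e, Complex.sq_norm, Complex.normSq_apply]
    simp only [en, mul_zero, Real.exp_zero]
    ring
  · obtain ⟨φ, e⟩ := h2_toLp (hF G hG)
    have h5 := h4 k hk φ ⟨G, hG, e⟩
    rw [h2_im hb e, h2_nsq] at h5
    refine h5.trans_eq (congrArg _ (integral_congr_ae ?_))
    filter_upwards [e, hκ φ, Lp.coeFn_sub φ (starRingEnd ℂ k • κ φ),
      Lp.coeFn_smul (starRingEnd ℂ k) (κ φ)] with x e1 e2 e3 e4
    rw [e3, Pi.sub_apply, e4, Pi.smul_apply, e2, e1, smul_eq_mul]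

/-- Markov inequality along the segment. -/
theorem h2_markov {f : ℝ → ℝ} (hf : Continuous f) (f0 : ∀ θ, 0 ≤ f θ) {Y : ℝ} (hY : 0 < Y) :
    volume {s : ℝ | |s| ≤ 5 ∧ Y ≤ f (2 * Real.arctan s)} ≤
      ENNReal.ofReal (13 * (∫ θ in (-Real.pi)..Real.pi, f θ) / Y) := by
  have hg : Continuous fun s => f (2 * Real.arctan s) :=
    hf.comp (continuous_const.mul Real.continuous_arctan)
  have h1 := mul_meas_ge_le_integral_of_nonneg (μ := volume.restrict (Set.Icc (-5 : ℝ) 5))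
    (f := fun s => f (2 * Real.arctan s)) (Eventually.of_forall fun s => f0 _)
    hg.integrableOn_Icc Y
  have hd : Continuous fun s : ℝ => 2 * (1 / (1 + s ^ 2)) :=
    continuous_const.mul (continuous_const.div (by fun_prop) fun s => by positivity)
  have h2 := intervalIntegral.integral_comp_mul_deriv (a := -5) (b := 5)
    (f := fun s => 2 * Real.arctan s) (f' := fun s => 2 * (1 / (1 + s ^ 2))) (g := f)
    (fun s _ => (Real.hasDerivAt_arctan s).const_mul 2) hd.continuousOn hf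
  have h3 : ∫ s in (-5 : ℝ)..5, f (2 * Real.arctan s) ≤
      ∫ s in (-5 : ℝ)..5, 13 * ((f ∘ fun s => 2 * Real.arctan s) s * (2 * (1 / (1 + s ^ 2)))) := by
    refine intervalIntegral.integral_mono_on (by norm_num) (hg.intervalIntegrable _ _)
      ((continuous_const.mul (hg.mul hd)).intervalIntegrable _ _) fun s hs => ?_
    have e1 : 1 ≤ 13 * (2 * (1 / (1 + s ^ 2))) := by
      rw [← mul_assoc, mul_one_div, le_div_iff₀ (by positivity)]
      nlinarith [hs.1, hs.2]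
    have e2 := mul_le_mul_of_nonneg_left e1 (f0 (2 * Real.arctan s))
    simp only [Function.comp_apply]
    linarith
  rw [intervalIntegral.integral_const_mul, h2] at h3
  have h4 : ∫ θ in (2 * Real.arctan (-5))..(2 * Real.arctan 5), f θ ≤
      ∫ θ in (-Real.pi)..Real.pi, f θ :=
    intervalIntegral.integral_mono_interval
      (by linarith [Real.neg_pi_div_two_lt_arctan (-5)])
      (by linarith [Real.arctan_strictMono.monotone (show (-5 : ℝ) ≤ 5 by norm_num)])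
      (by linarith [Real.arctan_lt_pi_div_two 5]) (Eventually.of_forall fun s => f0 _)
      (hf.intervalIntegrable _ _)
  rw [integral_Icc_eq_integral_Ioc, ← intervalIntegral.integral_of_le (by norm_num)] at h1
  have h5 : {s : ℝ | |s| ≤ 5 ∧ Y ≤ f (2 * Real.arctan s)} =
      {s : ℝ | Y ≤ f (2 * Real.arctan s)} ∩ Set.Icc (-5) 5 := by
    ext s
    simp only [Set.mem_ofPred_eq, Set.mem_inter_iff, Set.mem_Icc, abs_le]
    tauto
  rw [h5, ← Measure.restrict_apply' measurableSet_Icc, ← ofReal_measureReal]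
  refine ENNReal.ofReal_le_ofReal ?_
  rw [le_div_iff₀ hY]
  linarith

theorem lemH0 : ∃ C : ℝ, 0 < C ∧ ∀ (m : Measure Sf) (F : Submodule ℝ (Sf → ℝ × ℝ)),
    (∀ G ∈ F, MemLp G 2 m) → (∀ G ∈ F, ∀ G' ∈ F, ∫ x, dt (G x) (G' x) ∂m = 0) →
    ∀ β : Sf → ℝ × ℝ, MemLp β 2 m → ∀ t X : ℝ, 0 ≤ t → 0 < X →
    volume {s : ℝ | |s| ≤ 5 ∧ ∃ G ∈ F, X * ∫ x, en t s (G x) ∂m < (∫ x, dt (β x) (G x) ∂m) ^ 2} ≤
      ENNReal.ofReal (C * (∫ x, en 0 0 (β x) ∂m) / X) := by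
  obtain ⟨C, hC, hfr⟩ := frame_le
  refine ⟨13 * (2 * Real.pi) * C, by positivity, fun m F hF iso β hβ t X ht hX => ?_⟩
  obtain ⟨h, h1, h2, h3, h4⟩ := h2_L2 m F hF iso hβ
  have r0 := h2_tanh_nonneg ht
  have r1 := Real.tanh_lt_one t
  have r2 := Real.tanh_sq_lt_one t
  have hb : ∀ θ, circleMap 0 (Real.tanh t) θ ∈ Metric.ball (0 : ℂ) 1 := fun θ => by
    rw [mem_ball_zero_iff, norm_circleMap_zero]
    exact Real.abs_tanh_lt_one t
  have hg : Continuous fun θ => h (circleMap 0 (Real.tanh t) θ) :=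
    h1.comp_continuous (continuous_circleMap _ _) hb
  have k1 := h2_markov (f := fun θ => h (circleMap 0 (Real.tanh t) (-θ))) (hg.comp continuous_neg)
    (fun θ => h2 _ (hb _)) (div_pos hX hC)
  have k2 : ∫ θ in (-Real.pi)..Real.pi, h (circleMap 0 (Real.tanh t) (-θ)) ≤
      2 * Real.pi * ∫ x, en 0 0 (β x) ∂m := by
    have e1 := h3 _ r0 r1
    rw [Real.circleAverage_def, smul_eq_mul, inv_mul_le_iff₀ (by positivity)] at e1
    refine le_trans (le_of_eq ?_) e1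
    have e2 : (fun θ => h (circleMap 0 (Real.tanh t) θ)).Periodic (2 * Real.pi) := fun x => by
      simp only [periodic_circleMap 0 (Real.tanh t) x]
    have e3 := e2.intervalIntegral_add_eq (-Real.pi) 0
    rw [intervalIntegral.integral_comp_neg fun θ => h (circleMap 0 (Real.tanh t) θ), neg_neg]
    rwa [zero_add, show -Real.pi + 2 * Real.pi = Real.pi by ring] at e3
  refine (measure_mono ?_).trans (k1.trans (ENNReal.ofReal_le_ofReal ?_))
  · rintro s ⟨hs, G, hG, hlt⟩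
    refine ⟨hs, ?_⟩
    have e1 := h4 _ (hb (-2 * Real.arctan s)) G hG
    have e2 := integral_mono_of_nonneg (Eventually.of_forall fun x => sq_nonneg _)
      ((h2_int (hF G hG) t s).const_mul (C * (1 - Real.tanh t ^ 2)))
      (Eventually.of_forall fun x => hfr t s ht hs (G x))
    rw [integral_const_mul] at e2
    rw [norm_circleMap_zero, sq_abs] at e1
    have e3 := e1.trans (mul_le_mul_of_nonneg_left e2 (h2 _ (hb _)))
    have e4 : 0 ≤ ∫ x, en t s (G x) ∂m := integral_nonneg fun x => h2_en_nonneg t s _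
    rw [← neg_mul, div_le_iff₀ hC]
    generalize h (circleMap 0 (Real.tanh t) (-2 * Real.arctan s)) = H at *
    generalize ∫ x, en t s (G x) ∂m = I at *
    generalize (∫ x, dt (β x) (G x) ∂m) ^ 2 = J at *
    have e5 : J ≤ H * C * I := le_of_mul_le_mul_right (a := 1 - Real.tanh t ^ 2)
      (e3.trans_eq (by ring)) (by linarith)
    by_contra! hc
    nlinarith [mul_le_mul_of_nonneg_right hc.le e4]
  · rw [div_div_eq_mul_div]
    refine div_le_div_of_nonneg_right ?_ hX.le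
    nlinarith [mul_le_mul_of_nonneg_right k2 hC.le]

/-- Change of the base frame. -/
theorem lemH : ∃ C : ℝ, 0 < C ∧ ∀ (m : Measure Sf) (F : Submodule ℝ (Sf → ℝ × ℝ)),
    (∀ G ∈ F, MemLp G 2 m) → (∀ G ∈ F, ∀ G' ∈ F, ∫ x, dt (G x) (G' x) ∂m = 0) →
    ∀ β : Sf → ℝ × ℝ, MemLp β 2 m → ∀ t0 s0 t X : ℝ, t0 ≤ t → 0 < X →
    volume {s : ℝ | |s - s0| ≤ 5 * Real.exp (-2 * t0) ∧
        ∃ G ∈ F, X * ∫ x, en t s (G x) ∂m < (∫ x, dt (β x) (G x) ∂m) ^ 2} ≤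
      ENNReal.ofReal (C * Real.exp (-2 * t0) * (∫ x, en t0 s0 (β x) ∂m) / X) := by
  obtain ⟨C, hC, H⟩ := lemH0
  refine ⟨C, hC, fun m F hF iso β hβ t0 s0 t X ht hX => ?_⟩
  let T : ℝ × ℝ →L[ℝ] ℝ × ℝ := (Real.exp (-t0) • ContinuousLinearMap.fst ℝ ℝ ℝ).prod
    (Real.exp t0 • (ContinuousLinearMap.snd ℝ ℝ ℝ - s0 • ContinuousLinearMap.fst ℝ ℝ ℝ))
  have hT : ∀ G, T G = (Real.exp (-t0) * G.1, Real.exp t0 * (G.2 - s0 * G.1)) := fun G => rfl
  have ha := Real.exp_pos t0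
  have e1 : Real.exp (-t0) = (Real.exp t0)⁻¹ := Real.exp_neg _
  have e2 : Real.exp (2 * t0) = Real.exp t0 ^ 2 := by rw [← Real.exp_nat_mul]; norm_num
  have e3 : Real.exp (-2 * t0) = (Real.exp t0 ^ 2)⁻¹ := by rw [neg_mul, Real.exp_neg, e2]
  have hdt : ∀ a b, dt (T a) (T b) = dt a b := fun a b => by
    simp only [hT, dt, e1]
    field_simp
    ring
  have hen : ∀ u s G, en (u - t0) (Real.exp (2 * t0) * (s - s0)) (T G) = en u s G := fun u s G => by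
    have e4 : Real.exp (-2 * (u - t0)) = Real.exp (-2 * u) * Real.exp t0 ^ 2 := by
      rw [← e2, ← Real.exp_add]; congr 1; ring
    have e5 : Real.exp (2 * (u - t0)) = Real.exp (2 * u) * (Real.exp t0 ^ 2)⁻¹ := by
      rw [← e3, ← Real.exp_add]; congr 1; ring
    simp only [hT, en, e1, e2, e4, e5]
    field_simp
    ring
  have key := H m (F.map (T.toLinearMap.compLeft Sf))
    (by
      rintro _ ⟨G, hG, rfl⟩
      exact T.comp_memLp' (hF G hG))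
    (by
      rintro _ ⟨G, hG, rfl⟩ _ ⟨G', hG', rfl⟩
      exact (integral_congr_ae (Eventually.of_forall fun x => hdt (G x) (G' x))).trans
        (iso G hG G' hG'))
    (T ∘ β) (T.comp_memLp' hβ) (t - t0) X (by linarith) hX
  have e6 : ∫ x, en 0 0 ((T ∘ β) x) ∂m = ∫ x, en t0 s0 (β x) ∂m := by
    refine integral_congr_ae (Eventually.of_forall fun x => ?_)
    have := hen t0 s0 (β x)
    rwa [sub_self, sub_self, mul_zero] at this
  rw [e6] at key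
  have hp := Real.exp_pos (2 * t0)
  have k1 := mul_le_mul_right key (ENNReal.ofReal |(Real.exp (2 * t0))⁻¹|)
  rw [← Real.volume_preimage_mul_left hp.ne', ← measure_preimage_add_right volume (-s0),
    ← ENNReal.ofReal_mul (abs_nonneg _), abs_of_pos (inv_pos.2 hp)] at k1
  refine (measure_mono ?_).trans (k1.trans_eq (congrArg _ (by rw [e2, e3]; ring)))
  rintro s ⟨hs, G, hG, hlt⟩
  refine ⟨?_, _, ⟨G, hG, rfl⟩, ?_⟩
  · beta_reduce
    rw [abs_mul, abs_of_pos hp, ← sub_eq_add_neg, e2]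
    rw [e3, ← div_eq_mul_inv, le_div_iff₀ (by positivity)] at hs
    linarith
  · beta_reduce
    rw [← sub_eq_add_neg]
    have e7 : ∫ x, en (t - t0) (Real.exp (2 * t0) * (s - s0))
        ((T.toLinearMap.compLeft Sf G) x) ∂m = ∫ x, en t s (G x) ∂m :=
      integral_congr_ae (Eventually.of_forall fun x => hen t s (G x))
    have e8 : ∫ x, dt ((T ∘ β) x) ((T.toLinearMap.compLeft Sf G) x) ∂m =
        ∫ x, dt (β x) (G x) ∂m :=
      integral_congr_ae (Eventually.of_forall fun x => hdt (β x) (G x))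
    rw [e7, e8]
    exact hlt

end Pool.Agent.TW
end

-- part Pool.Agent.Lib.MP_4eaecc_an.O1a
section

/-! Gaussian integrals. -/

namespace Pool.Agent.TW

open Matrix MeasureTheory Filter Topology
open scoped ENNReal NNReal

theorem o1a_std : ∫ ξ : V, Real.exp (-(ξ ⬝ᵥ ξ) / 2) = (2 * Real.pi) ^ 2 := by
  have h := integral_fintype_prod_volume_eq_pow (ι := Fin 4)
    fun x : ℝ => Real.exp (-(1 / 2) * x ^ 2)
  have e : ∀ ξ : V, Real.exp (-(ξ ⬝ᵥ ξ) / 2) = ∏ i, Real.exp (-(1 / 2) * ξ i ^ 2) := fun ξ => by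
    rw [← Real.exp_sum]
    simp only [dotProduct, Fin.sum_univ_four]
    congr 1
    ring
  simp only [e]
  rw [h, integral_gaussian, Fintype.card_fin, show 4 = 2 * 2 from rfl, pow_mul,
    Real.sq_sqrt (by positivity)]
  ring

theorem o1a_lin {B : Matrix (Fin 4) (Fin 4) ℝ} (hB : B.det ≠ 0) :
    ∫ ξ : V, Real.exp (-((B *ᵥ ξ) ⬝ᵥ (B *ᵥ ξ)) / 2) = (2 * Real.pi) ^ 2 / |B.det| := by
  have hc : Continuous fun ξ : V => Real.exp (-(ξ ⬝ᵥ ξ) / 2) := by fun_prop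
  have h := integral_map (μ := (volume : Measure V)) (φ := toLin' B)
    (LinearMap.continuous_of_finiteDimensional _).measurable.aemeasurable
    hc.aestronglyMeasurable
  rw [Real.map_matrix_volume_pi_eq_smul_volume_pi hB, integral_smul_measure, o1a_std,
    ENNReal.toReal_ofReal (abs_nonneg _), abs_inv, smul_eq_mul] at h
  simp only [toLin'_apply] at h
  rw [← h, div_eq_inv_mul]

open scoped MatrixOrder in
theorem o1a_root (U : Matrix (Fin 4) (Fin 2) ℝ) :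
    ∃ B : Matrix (Fin 4) (Fin 4) ℝ, 1 + U * Uᵀ = Bᵀ * B := by
  have h : (1 + U * Uᵀ).PosSemidef := PosSemidef.one.add (posSemidef_self_mul_conjTranspose U)
  obtain ⟨B, hB⟩ := CStarAlgebra.nonneg_iff_eq_star_mul_self.mp h.nonneg
  exact ⟨B, hB⟩

theorem o1a_cs (a b : V) : (a ⬝ᵥ b) ^ 2 ≤ (a ⬝ᵥ a) * (b ⬝ᵥ b) := by
  simpa only [dotProduct, pow_two] using Finset.sum_mul_sq_le_sq_mul_sq Finset.univ a b

theorem o1a_pos (a b : V) {ρ r : ℝ} (hρ : 0 < ρ) (hr : 0 < r) :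
    0 < (a ⬝ᵥ a + ρ ^ 2) * (b ⬝ᵥ b + r ^ 2) - (a ⬝ᵥ b) ^ 2 := by
  have h := o1a_cs a b
  have ha : 0 ≤ a ⬝ᵥ a := Finset.sum_nonneg fun i _ => mul_self_nonneg _
  have hb : 0 ≤ b ⬝ᵥ b := Finset.sum_nonneg fun i _ => mul_self_nonneg _
  have h1 : 0 < ρ ^ 2 * r ^ 2 := by positivity
  nlinarith [mul_nonneg ha (sq_nonneg r), mul_nonneg hb (sq_nonneg ρ)]

theorem o1a_eq (a b : V) {ρ r : ℝ} (hρ : 0 < ρ) (hr : 0 < r) :
    ∫ ξ : V, Real.exp (-(ξ ⬝ᵥ ξ) / 2) * (ker ρ (a ⬝ᵥ ξ) * ker r (b ⬝ᵥ ξ)) =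
      (2 * Real.pi) ^ 2 /
        Real.sqrt ((a ⬝ᵥ a + ρ ^ 2) * (b ⬝ᵥ b + r ^ 2) - (a ⬝ᵥ b) ^ 2) := by
  obtain ⟨B, hB⟩ := o1a_root (of fun i => ![a i / ρ, b i / r])
  have hd : (ρ * r * B.det) ^ 2 = (a ⬝ᵥ a + ρ ^ 2) * (b ⬝ᵥ b + r ^ 2) - (a ⬝ᵥ b) ^ 2 := by
    have h := congrArg det hB
    rw [det_one_add_mul_comm, det_mul, det_transpose, det_fin_two] at h
    rw [mul_pow, pow_two B.det, ← h]
    simp [mul_apply, dotProduct, Fin.sum_univ_four]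
    field_simp
    ring
  have h0 : B.det ≠ 0 := fun h => by
    have := o1a_pos a b hρ hr
    rw [← hd, h] at this
    simp at this
  have hq : ∀ ξ : V, (B *ᵥ ξ) ⬝ᵥ (B *ᵥ ξ) =
      ξ ⬝ᵥ ξ + (a ⬝ᵥ ξ) ^ 2 / ρ ^ 2 + (b ⬝ᵥ ξ) ^ 2 / r ^ 2 := fun ξ => by
    rw [dotProduct_mulVec, ← mulVec_transpose, mulVec_mulVec, ← hB]
    simp [mulVec, mul_apply, dotProduct, Fin.sum_univ_four, one_apply]
    field_simp
    ring
  have he : ∀ ξ : V, Real.exp (-(ξ ⬝ᵥ ξ) / 2) * (ker ρ (a ⬝ᵥ ξ) * ker r (b ⬝ᵥ ξ)) =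
      Real.exp (-((B *ᵥ ξ) ⬝ᵥ (B *ᵥ ξ)) / 2) / (ρ * r) := fun ξ => by
    rw [hq, ker, ker, div_mul_div_comm, ← mul_div_assoc, ← Real.exp_add, ← Real.exp_add]
    congr 2
    ring
  simp only [he]
  rw [integral_div, o1a_lin h0, ← hd, Real.sqrt_sq_eq_abs, abs_mul, abs_of_pos (mul_pos hρ hr),
    div_div, mul_comm |B.det|]

theorem gauss_int (a b : V) {ρ r : ℝ} (hρ : 0 < ρ) (hr : 0 < r) :
    Integrable fun ξ : V => Real.exp (-(ξ ⬝ᵥ ξ) / 2) * (ker ρ (a ⬝ᵥ ξ) * ker r (b ⬝ᵥ ξ)) := by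
  refine .of_integral_ne_zero ?_
  rw [o1a_eq a b hρ hr]
  have := Real.sqrt_pos.2 (o1a_pos a b hρ hr)
  positivity

/-- The quadratic form has matrix `1 + a aᵀ / ρ² + b bᵀ / r²`. -/
theorem gauss_eq (a b : V) {ρ r : ℝ} (hρ : 0 < ρ) (hr : 0 < r) :
    ∫ ξ : V, Real.exp (-(ξ ⬝ᵥ ξ) / 2) * (ker ρ (a ⬝ᵥ ξ) * ker r (b ⬝ᵥ ξ)) =
      (2 * Real.pi) ^ 2 /
        Real.sqrt ((a ⬝ᵥ a + ρ ^ 2) * (b ⬝ᵥ b + r ^ 2) - (a ⬝ᵥ b) ^ 2) := o1a_eq a b hρ hr

end Pool.Agent.TW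
end

-- part Pool.Agent.Lib.MP_4eaecc_an.O1b
section

/-! Gaussian integrals. -/

namespace Pool.Agent.TW

open Matrix MeasureTheory Filter Topology
open scoped ENNReal NNReal

theorem o1b_g {σ a b c : ℝ} (h0 : 0 < σ) (ha : σ ≤ a) (hb : σ ≤ b) (hc : a ≤ c) :
    0 ≤ (a * b * (a + b))⁻¹ - (c * b * (c + b))⁻¹ ∧
      (a * b * (a + b))⁻¹ - (c * b * (c + b))⁻¹ ≤ (c ^ 2 - a ^ 2) / (2 * σ ^ 5) := by
  have a0 := h0.trans_le ha
  have b0 := h0.trans_le hb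
  have c0 := a0.trans_le hc
  have e : (a * b * (a + b))⁻¹ - (c * b * (c + b))⁻¹ =
      (c - a) * ((c + a + b) / (a * b * c * (a + b) * (c + b))) := by
    field_simp
    ring
  have h1 := sub_nonneg.2 hc
  rw [e, show (c ^ 2 - a ^ 2) / (2 * σ ^ 5) = (c - a) * ((c + a) / (2 * σ ^ 5)) by ring]
  refine ⟨by positivity, mul_le_mul_of_nonneg_left ?_ h1⟩
  rw [div_le_div_iff₀ (by positivity) (by positivity)]
  have h2 := ha.trans hc
  calc (c + a + b) * (2 * σ ^ 5) ≤ (2 * (c + b)) * (2 * σ ^ 5) := by gcongr; linarith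
    _ = (σ + σ) * (σ * σ * σ * (σ + σ) * (c + b)) := by ring
    _ ≤ _ := by gcongr

theorem o1b_mix {σ a b c d M h u : ℝ} (hM : 1 ≤ M) (h0 : 0 < σ) (h1 : σ ^ 2 ≤ M) (ha : σ ≤ a)
    (hb : σ ≤ b) (hc : a ≤ c) (hd : b ≤ d) (hh : 0 ≤ h) (u0 : 0 ≤ u) (u1 : u ≤ 2 * M)
    (e1 : b ^ 2 - a ^ 2 = u * h) (e2 : d ^ 2 - c ^ 2 = (u + h) * h)
    (e3 : c ^ 2 - a ^ 2 ≤ 2 * M * h) (e4 : d ^ 2 - b ^ 2 ≤ 2 * M * h) :
    |a⁻¹ - b⁻¹ - c⁻¹ + d⁻¹| ≤ 4 * M ^ 2 * h ^ 2 / σ ^ 5 := by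
  have a0 := h0.trans_le ha
  have b0 := h0.trans_le hb
  have c0 := a0.trans_le hc
  have d0 := b0.trans_le hd
  obtain ⟨k1, k2⟩ := o1b_g h0 ha hb hc
  obtain ⟨k3, k4⟩ := o1b_g h0 hb (ha.trans hc) hd
  have f1 : a⁻¹ - b⁻¹ = u * h * (a * b * (a + b))⁻¹ := by
    rw [← e1]
    field_simp
    ring
  have f2 : c⁻¹ - d⁻¹ = (u + h) * h * (d * c * (d + c))⁻¹ := by
    rw [← e2]
    field_simp
    ring
  have f3 : a⁻¹ - b⁻¹ - c⁻¹ + d⁻¹ = u * h * (((a * b * (a + b))⁻¹ - (c * b * (c + b))⁻¹) +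
      ((b * c * (b + c))⁻¹ - (d * c * (d + c))⁻¹)) - h ^ 2 * (d * c * (d + c))⁻¹ := by
    rw [mul_comm c b, add_comm c b]
    linear_combination f1 - f2
  have k5 : (d * c * (d + c))⁻¹ ≤ 4 * M ^ 2 / σ ^ 5 := by
    have l1 := ha.trans hc
    have l2 := hb.trans hd
    rw [inv_eq_one_div, div_le_div_iff₀ (by positivity) (by positivity)]
    calc 1 * σ ^ 5 = σ ^ 2 * (σ * σ * (σ + 0)) := by ring
      _ ≤ (4 * M ^ 2) * (d * c * (d + c)) := by gcongr; nlinarith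
  have k6 : 0 ≤ (d * c * (d + c))⁻¹ := by positivity
  have k7 := (add_le_add k2 k4).trans (add_le_add
    (div_le_div_of_nonneg_right e3 (by positivity)) (div_le_div_of_nonneg_right e4 (by positivity)))
  have k8 := add_nonneg k1 k3
  rw [f3]
  generalize (a * b * (a + b))⁻¹ - (c * b * (c + b))⁻¹ +
    ((b * c * (b + c))⁻¹ - (d * c * (d + c))⁻¹) = T at k7 k8
  generalize (d * c * (d + c))⁻¹ = S at k5 k6
  have l1 : u * h * T ≤ 4 * M ^ 2 * h ^ 2 / σ ^ 5 :=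
    calc u * h * T ≤ 2 * M * h * (2 * M * h / (2 * σ ^ 5) + 2 * M * h / (2 * σ ^ 5)) := by gcongr
      _ = _ := by ring
  have l2 : h ^ 2 * S ≤ 4 * M ^ 2 * h ^ 2 / σ ^ 5 :=
    calc h ^ 2 * S ≤ h ^ 2 * (4 * M ^ 2 / σ ^ 5) := by gcongr
      _ = _ := by ring
  have l3 : 0 ≤ u * h * T := by positivity
  have l4 : 0 ≤ h ^ 2 * S := by positivity
  exact abs_le.2 ⟨by linarith, by linarith⟩

/-- The mixed second difference of `(s + p y + q x + x y)^(-1/2)`. -/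
theorem mixed_le {M : ℝ} (hM : 1 ≤ M) : ∃ C : ℝ, 0 < C ∧ ∀ s p q x y : ℝ, 0 < s → s ≤ M → 0 ≤ p →
    p ≤ M → 0 ≤ q → q ≤ M → 0 ≤ x → x ≤ y → y ≤ 1 →
    |(Real.sqrt (s + p * x + q * x + x * x))⁻¹ - (Real.sqrt (s + p * y + q * x + x * y))⁻¹ -
      (Real.sqrt (s + p * x + q * y + y * x))⁻¹ + (Real.sqrt (s + p * y + q * y + y * y))⁻¹| ≤
      C * y ^ 2 / Real.sqrt s ^ 5 := by
  refine ⟨4 * M ^ 2, by positivity, fun s p q x y s0 s1 p0 p1 q0 q1 x0 xy y1 => ?_⟩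
  have y0 := x0.trans xy
  have h0 := sub_nonneg.2 xy
  have k : ∀ {t : ℝ}, 0 ≤ t → s ≤ s + t := le_add_of_nonneg_right
  refine (o1b_mix (σ := Real.sqrt s) (h := y - x) (u := p + x) hM (Real.sqrt_pos.2 s0)
    (by rwa [Real.sq_sqrt s0.le]) (Real.sqrt_le_sqrt ?_) (Real.sqrt_le_sqrt ?_)
    (Real.sqrt_le_sqrt ?_) (Real.sqrt_le_sqrt ?_) h0 (by positivity) (by linarith)
    ?_ ?_ ?_ ?_).trans ?_
  · simpa only [add_assoc] using k (show 0 ≤ p * x + (q * x + x * x) by positivity)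
  · simpa only [add_assoc] using k (show 0 ≤ p * y + (q * x + x * y) by positivity)
  · gcongr
  · gcongr
  · rw [Real.sq_sqrt (by positivity), Real.sq_sqrt (by positivity)]
    ring
  · rw [Real.sq_sqrt (by positivity), Real.sq_sqrt (by positivity)]
    ring
  · rw [Real.sq_sqrt (by positivity), Real.sq_sqrt (by positivity)]
    calc _ = (q + x) * (y - x) := by ring
      _ ≤ _ := by gcongr; linarith
  · rw [Real.sq_sqrt (by positivity), Real.sq_sqrt (by positivity)]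
    calc _ = (q + y) * (y - x) := by ring
      _ ≤ _ := by gcongr; linarith
  · gcongr
    linarith

theorem ker_cmp {r R s s' : ℝ} (hr : 0 < r) (hR : 1 ≤ R) (h : |s'| ≤ R * (|s| + r)) :
    ker r s ≤ 4 * R * ker (2 * R * r) s' := by
  have R0 : 0 < R := one_pos.trans_le hR
  have h1 : s' ^ 2 ≤ R ^ 2 * (4 * s ^ 2 + 2 * r ^ 2) := by
    have := pow_le_pow_left₀ (abs_nonneg _) h 2
    rw [sq_abs, mul_pow] at this
    refine this.trans (mul_le_mul_of_nonneg_left ?_ (sq_nonneg R))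
    nlinarith [sq_abs s, sq_nonneg (|s| - r), sq_nonneg s]
  have h2 : -s ^ 2 / (2 * r ^ 2) + -(1 / 4) ≤ -s' ^ 2 / (2 * (2 * R * r) ^ 2) := by
    rw [le_div_iff₀ (by positivity)]
    have e : (-s ^ 2 / (2 * r ^ 2) + -(1 / 4)) * (2 * (2 * R * r) ^ 2) =
        -(R ^ 2 * (4 * s ^ 2 + 2 * r ^ 2)) := by
      field_simp
      ring
    rw [e]
    exact neg_le_neg h1
  have h3 := Real.exp_le_exp.2 h2
  have h4 := Real.add_one_le_exp (-(1 / 4))
  have h5 := Real.exp_pos (-s ^ 2 / (2 * r ^ 2))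
  rw [Real.exp_add] at h3
  have e : 4 * R * ker (2 * R * r) s' = 2 * Real.exp (-s' ^ 2 / (2 * (2 * R * r) ^ 2)) / r := by
    rw [ker]
    field_simp
    ring
  rw [e, ker]
  refine div_le_div_of_nonneg_right ?_ hr.le
  nlinarith

end Pool.Agent.TW
end

-- part Pool.Agent.Lib.MP_4eaecc_an.O6a
section

/-! Shear along a bounded number of good times. -/

namespace Pool.Agent.TW

open Matrix MeasureTheory Filter Topology
open scoped ENNReal NNReal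

/-- The Pfaffian of four vectors. -/
def o6Pf (a b c d : V) : ℝ := Om a b * Om c d - Om a c * Om b d + Om a d * Om b c

theorem o6_five (a b c d e : V) : o6Pf a b c d • e =
    o6Pf a c d e • b - o6Pf b c d e • a - o6Pf a b d e • c + o6Pf a b c e • d := by
  funext i
  fin_cases i <;>
    simp only [o6Pf, Om, Pi.add_apply, Pi.sub_apply, Pi.smul_apply, smul_eq_mul, Fin.zero_eta,
      Fin.mk_one, Fin.reduceFinMk] <;> ring

theorem o6_dot_le (a b : V) : |a ⬝ᵥ b| ≤ 4 * ‖a‖ * ‖b‖ := by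
  rw [show 4 * ‖a‖ * ‖b‖ = (Finset.univ : Finset (Fin 4)).card • (‖a‖ * ‖b‖) by simp [mul_assoc]]
  refine (Finset.abs_sum_le_sum_abs (fun j => a j * b j) Finset.univ).trans
    (Finset.sum_le_card_nsmul _ _ _ fun j _ => ?_)
  rw [abs_mul]
  exact mul_le_mul (norm_le_pi_norm a j) (norm_le_pi_norm b j) (abs_nonneg _) (norm_nonneg _)

theorem o6_le_dot (a : V) : ‖a‖ * ‖a‖ ≤ a ⬝ᵥ a := by
  obtain ⟨i, -, hi⟩ := Finset.exists_max_image Finset.univ (fun i => ‖a i‖) Finset.univ_nonempty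
  have h : ‖a‖ ≤ |a i| :=
    (pi_norm_le_iff_of_nonneg (norm_nonneg _)).2 fun j => hi j (Finset.mem_univ j)
  refine (mul_self_le_mul_self (norm_nonneg _) h).trans ?_
  rw [abs_mul_abs_self]
  exact Finset.single_le_sum (f := fun j => a j * a j) (fun j _ => mul_self_nonneg _)
    (Finset.mem_univ i)

theorem o6_dual (v : V) : ∃ u : V, ‖u‖ ≤ 2 * ‖v‖ ∧ ∀ ψ, Om u ψ = v ⬝ᵥ ψ := by
  refine ⟨![v 3, v 2 - v 3, -v 1, v 1 - v 0], ?_, fun ψ => ?_⟩
  · have h : ∀ i, -‖v‖ ≤ v i ∧ v i ≤ ‖v‖ := fun i => abs_le.1 (norm_le_pi_norm v i)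
    refine (pi_norm_le_iff_of_nonneg (by positivity)).2 fun j => abs_le.2 ?_
    have := norm_nonneg v
    fin_cases j <;> simp <;> constructor <;>
      linarith [(h 0).1, (h 0).2, (h 1).1, (h 1).2, (h 2).1, (h 2).2, (h 3).1, (h 3).2]
  · simp [Om, dotProduct, Fin.sum_univ_four]
    ring

theorem o6_unit {K A : ℝ} (hK : 0 < K) {ξ η v : V} (ψ : V) (h1 : ‖ξ‖ ≤ K) (h2 : ‖η‖ ≤ K)
    (h3 : A ≤ Om ξ η) (hA : 0 < A) (h4 : Om ξ v = 0) (h5 : Om η v = 0) (h6 : ‖v‖ = 1) :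
    A * ‖ψ‖ ≤ (36 * K ^ 2 + 16 * K) * (|Om ξ ψ| + |Om η ψ| + |Om v ψ| + |v ⬝ᵥ ψ|) := by
  obtain ⟨u, hu, hd⟩ := o6_dual v
  rw [h6, mul_one] at hu
  have d1 := o6_le_dot v
  have d2 := (le_abs_self _).trans (o6_dot_le v v)
  rw [h6] at d1 d2
  have b : ∀ x : V, ‖x‖ ≤ K → |Om x u| ≤ 12 * K := fun x hx => (abs_Om_le x u).trans (by
    nlinarith [mul_le_mul hx hu (norm_nonneg _) hK.le])
  have w : Om ξ η ≤ 6 * K ^ 2 := (le_abs_self _).trans ((abs_Om_le ξ η).trans (by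
    nlinarith [mul_le_mul h1 h2 (norm_nonneg _) hK.le]))
  have e := congrArg norm (o6_five ξ η v u ψ)
  have e0 : Om v u = -(v ⬝ᵥ v) := by rw [Om_swap, hd]
  have m : ∀ {x y X : ℝ}, |x| ≤ X → |x * y| ≤ X * |y| := fun h => by
    rw [abs_mul]
    exact mul_le_mul_of_nonneg_right h (abs_nonneg _)
  have q : |v ⬝ᵥ v| ≤ 4 := abs_le.2 ⟨by linarith, by linarith⟩
  have w' : |Om ξ η| ≤ 6 * K ^ 2 := abs_le.2 ⟨by nlinarith, w⟩
  have p : ∀ x : V, ‖x‖ ≤ K → Om x v = 0 →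
      |o6Pf x v u ψ| ≤ 12 * K * |Om v ψ| + 4 * |Om x ψ| := fun x hx h0 => by
    rw [show o6Pf x v u ψ = -(Om x u * Om v ψ) + -(v ⬝ᵥ v * Om x ψ) by rw [o6Pf, h0, e0]; ring]
    refine (abs_add_le _ _).trans ?_
    rw [abs_neg, abs_neg]
    exact add_le_add (m (b x hx)) (m q)
  have p3 : |o6Pf ξ η u ψ| ≤ 6 * K ^ 2 * |v ⬝ᵥ ψ| + 12 * K * |Om η ψ| + 12 * K * |Om ξ ψ| := by
    rw [o6Pf, hd, mul_comm (Om ξ ψ)]
    exact (abs_add_le _ _).trans (add_le_add ((abs_sub _ _).trans (add_le_add (m w') (m (b ξ h1))))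
      (m (b η h2)))
  have p4 : |o6Pf ξ η v ψ| ≤ 6 * K ^ 2 * |Om v ψ| := by
    rw [o6Pf, h4, h5, zero_mul, mul_zero, sub_zero, add_zero]
    exact m w'
  have p0 : A ≤ |o6Pf ξ η v u| := by
    rw [o6Pf, h4, h5, e0, zero_mul, mul_zero, sub_zero, add_zero, mul_neg, abs_neg]
    exact le_trans (by nlinarith) (le_abs_self _)
  have n : ∀ {c c' : ℝ} {x : V} {X : ℝ}, |c| ≤ c' → ‖x‖ ≤ X → ‖c • x‖ ≤ c' * X := fun h h' => by
    rw [norm_smul]
    exact mul_le_mul h h' (norm_nonneg _) ((abs_nonneg _).trans h)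
  have k := e.trans_le ((norm_add_le _ _).trans (add_le_add ((norm_sub_le _ _).trans
    (add_le_add ((norm_sub_le _ _).trans (add_le_add (n (p ξ h1 h4) h2) (n (p η h2 h5) h1)))
      (n p3 h6.le))) (n p4 hu)))
  rw [norm_smul] at k
  have k' := (mul_le_mul_of_nonneg_right p0 (norm_nonneg ψ)).trans k
  have hK2 : 0 ≤ K ^ 2 := sq_nonneg K
  nlinarith [mul_nonneg hK2 (abs_nonneg (Om ξ ψ)), mul_nonneg hK2 (abs_nonneg (Om η ψ)),
    mul_nonneg hK2 (abs_nonneg (v ⬝ᵥ ψ)), mul_nonneg hK.le (abs_nonneg (Om v ψ)),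
    mul_nonneg hK.le (abs_nonneg (v ⬝ᵥ ψ))]

theorem four_forms {K A : ℝ} (hK : 0 < K) (hA : 0 < A) : ∃ C : ℝ, 0 < C ∧ ∀ ξ η v ψ : V,
    ‖ξ‖ ≤ K → ‖η‖ ≤ K → A ≤ Om ξ η → Om ξ v = 0 → Om η v = 0 → v ≠ 0 →
    ‖ψ‖ ≤ C * (|Om ξ ψ| + |Om η ψ| + |Om v ψ| / ‖v‖ + |v ⬝ᵥ ψ| / ‖v‖) := by
  refine ⟨(36 * K ^ 2 + 16 * K) / A, by positivity, fun ξ η v ψ h1 h2 h3 h4 h5 h6 => ?_⟩
  have hv := norm_pos_iff.2 h6
  have := o6_unit hK (v := ‖v‖⁻¹ • v) ψ h1 h2 h3 hA (by rw [Om_smul, h4, mul_zero])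
    (by rw [Om_smul, h5, mul_zero]) (by rw [norm_smul, norm_inv, norm_norm, inv_mul_cancel₀ hv.ne'])
  rw [smul_Om, smul_dotProduct, smul_eq_mul, abs_mul, abs_mul, abs_of_pos (inv_pos.2 hv),
    inv_mul_eq_div, inv_mul_eq_div] at this
  rw [div_mul_eq_mul_div, le_div_iff₀' hA]
  exact this

theorem shear {K A : ℝ} (hK : 0 < K) (hA : 0 < A) (n1 : ℕ) : ∃ C : ℝ, 0 < C ∧ ∀ n ≤ n1,
    ∀ (ξ η v u : ℕ → V) (M : ℕ → Mat) (θ : ℕ → ℝ) (Λ l : ℝ), 1 ≤ Λ → 0 < l → l ≤ 1 →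
    (∀ k ≤ n, ‖ξ k‖ ≤ K ∧ ‖η k‖ ≤ K ∧ A ≤ Om (ξ k) (η k) ∧ Om (ξ k) (v k) = 0 ∧
      Om (η k) (v k) = 0 ∧ v k ≠ 0 ∧ l * ‖v 0‖ ≤ ‖v k‖) →
    (∀ k < n, Symp (M k) ∧ (∀ a, ‖ac (M k) a‖ ≤ Λ * ‖a‖) ∧ 1 ≤ θ k ∧
      ξ (k + 1) = θ k • ac (M k) (ξ k) ∧ η (k + 1) = (θ k)⁻¹ • ac (M k) (η k) ∧
      v (k + 1) = ac (M k) (v k) ∧ u (k + 1) = ac (M k) (u k)) →
    Om (ξ 0) (u 0) = 0 → ‖u n‖ * ‖v 0‖ ≤ C * Λ / l ^ 2 * ‖u 0‖ * ‖v n‖ := by
  obtain ⟨C, hC, H⟩ := four_forms hK hA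
  obtain ⟨D, hD1, hD⟩ : ∃ D : ℝ, 1 ≤ D ∧ 6 * C * (K + 1) ≤ D :=
    ⟨_, le_max_left _ _, le_max_right _ _⟩
  refine ⟨5 ^ n1 * D, by positivity, fun n hn ξ η v u M θ Λ l hΛ l0 l1 h1 h2 h0 => ?_⟩
  have v0 := norm_pos_iff.2 (h1 0 n.zero_le).2.2.2.2.2.1
  have u0 := norm_nonneg (u 0)
  obtain ⟨Z, hZ⟩ : ∃ Z, Z = Λ / l ^ 2 * ‖u 0‖ / ‖v 0‖ := ⟨_, rfl⟩
  have Z0 : 0 ≤ Z := by rw [hZ]; positivity
  have Z1 : Z * (l * (l * ‖v 0‖)) = Λ * ‖u 0‖ := by rw [hZ]; field_simp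
  have key : ∀ k ≤ n, Om (ξ k) (u k) = 0 ∧ |Om (η k) (u k)| ≤ 6 * K * ‖u 0‖ ∧
      Om (v k) (u k) = Om (v 0) (u 0) ∧ ‖u k‖ ≤ 5 ^ k * D * Z * ‖v k‖ := by
    intro k hk
    induction k with
    | zero =>
      refine ⟨h0, (abs_Om_le _ _).trans (by gcongr; exact (h1 0 hk).2.1), rfl, ?_⟩
      have a1 : l * (l * ‖v 0‖) ≤ ‖v 0‖ :=
        (mul_le_of_le_one_left (by positivity) l1).trans (mul_le_of_le_one_left v0.le l1)
      have a2 := mul_le_mul_of_nonneg_left a1 Z0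
      have a3 := le_mul_of_one_le_left u0 hΛ
      have a4 := le_mul_of_one_le_left (mul_nonneg Z0 v0.le) hD1
      rw [pow_zero, one_mul, mul_assoc]
      linarith
    | succ k ih =>
      obtain ⟨i1, i2, i3, i4⟩ := ih (by omega)
      obtain ⟨a1, a2, a3, a4, a5, a6, a7⟩ := h1 k (by omega)
      obtain ⟨b1, b2, b3, b4, b5, b6, b7⟩ := h2 k (by omega)
      have c7 := (h1 (k + 1) hk).2.2.2.2.2.2
      have vk := norm_pos_iff.2 a6
      refine ⟨by rw [b4, b7, smul_Om, b1.Om_ac, i1, mul_zero], ?_,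
        by rw [b6, b7, b1.Om_ac, i3], ?_⟩
      · rw [b5, b7, smul_Om, b1.Om_ac, abs_mul, abs_of_nonneg (inv_nonneg.2 (by linarith))]
        exact (mul_le_of_le_one_left (abs_nonneg _) (inv_le_one_of_one_le₀ b3)).trans i2
      have d1 := o6_le_dot (v k)
      have d2 : 0 < v k ⬝ᵥ v k := (mul_pos vk vk).trans_le d1
      obtain ⟨γ, hγ⟩ : ∃ γ, γ = v k ⬝ᵥ u k / v k ⬝ᵥ v k := ⟨_, rfl⟩
      have g1 : |γ| ≤ 4 * (5 ^ k * D * Z) := by
        rw [hγ, abs_div, abs_of_pos d2, div_le_iff₀ d2]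
        calc _ ≤ 4 * ‖v k‖ * ‖u k‖ := o6_dot_le _ _
          _ ≤ 4 * ‖v k‖ * (5 ^ k * D * Z * ‖v k‖) := by gcongr
          _ = 4 * (5 ^ k * D * Z) * (‖v k‖ * ‖v k‖) := by ring
          _ ≤ _ := by gcongr
      have g2 := H (ξ k) (η k) (v k) (u k - γ • v k) a1 a2 a3 a4 a5 a6
      rw [Om_sub, Om_sub, Om_sub, Om_smul, Om_smul, Om_smul, i1, a4, a5, Om_self, i3,
        dotProduct_sub, dotProduct_smul, smul_eq_mul, show γ * v k ⬝ᵥ v k = v k ⬝ᵥ u k by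
          rw [hγ, div_mul_cancel₀ _ d2.ne']] at g2
      simp only [mul_zero, sub_self, sub_zero, abs_zero, zero_div, add_zero, zero_add] at g2
      have g3 : l * (|Om (v 0) (u 0)| / ‖v k‖) ≤ 6 * ‖u 0‖ := by
        rw [← mul_div_assoc, div_le_iff₀ vk]
        nlinarith [mul_le_mul_of_nonneg_left (abs_Om_le (v 0) (u 0)) l0.le,
          mul_le_mul_of_nonneg_left a7 u0]
      have g4 : l * ‖u k - γ • v k‖ ≤ D * ‖u 0‖ := by
        have t1 := (mul_le_of_le_one_left (abs_nonneg (Om (η k) (u k))) l1).trans i2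
        calc _ ≤ l * (C * (|Om (η k) (u k)| + |Om (v 0) (u 0)| / ‖v k‖)) := by gcongr
          _ = C * (l * |Om (η k) (u k)| + l * (|Om (v 0) (u 0)| / ‖v k‖)) := by ring
          _ ≤ C * (6 * K * ‖u 0‖ + 6 * ‖u 0‖) := by gcongr
          _ = 6 * C * (K + 1) * ‖u 0‖ := by ring
          _ ≤ _ := by gcongr
      have g5 : Λ * ‖u k - γ • v k‖ ≤ D * Z * ‖v (k + 1)‖ := by
        refine le_of_mul_le_mul_left ?_ l0
        calc _ = Λ * (l * ‖u k - γ • v k‖) := by ring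
          _ ≤ Λ * (D * ‖u 0‖) := by gcongr
          _ = D * (Z * (l * (l * ‖v 0‖))) := by rw [Z1]; ring
          _ ≤ D * (Z * (l * ‖v (k + 1)‖)) := by gcongr
          _ = _ := by ring
      have g6 : u (k + 1) = γ • v (k + 1) + ac (M k) (u k - γ • v k) := by
        rw [b6, b7, ac_sub, ac_smul, add_sub_cancel]
      have g7 : D * Z * ‖v (k + 1)‖ ≤ 5 ^ k * (D * Z * ‖v (k + 1)‖) :=
        le_mul_of_one_le_left (by positivity) (one_le_pow₀ (by norm_num))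
      have g8 := mul_le_mul_of_nonneg_right g1 (norm_nonneg (v (k + 1)))
      rw [g6]
      refine (norm_add_le _ _).trans ?_
      rw [norm_smul, Real.norm_eq_abs, pow_succ]
      linarith [b2 (u k - γ • v k)]
  calc _ ≤ 5 ^ n * D * Z * ‖v n‖ * ‖v 0‖ := by gcongr; exact (key n le_rfl).2.2.2
    _ ≤ 5 ^ n1 * D * Z * ‖v n‖ * ‖v 0‖ := by gcongr; norm_num
    _ = _ := by rw [hZ]; field_simp

end Pool.Agent.TW
end
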