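import Pool.Agent.Lib.MP_4eaecc_an.N1a
import Pool.Agent.Lib.MP_4eaecc_an.G3
import Pool.Agent.Lib.MP_4eaecc_an.O6a

-- part Pool.Agent.Lib.MP_4eaecc_an.N1
section

/-! Edges of the algorithm are counted classes; thin edges are rare on a line. -/

namespace Pool.Agent.TW

open Matrix MeasureTheory Filter Topology
open scoped ENNReal NNReal

theorem Ecl_mono {y : Pt} {L L' : ℝ} (h : L ≤ L') : Ecl y L ⊆ Ecl y L' := by
  rintro e ⟨P, h1, h2, h3⟩
  exact ⟨P, h1, h2.trans h, h3.imp_right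
    (Or.imp (And.imp_right fun k => k.trans h) (And.imp_right fun k => k.trans h))⟩

theorem n1_norm {y : Pt} {e : Z4} {L : ℝ} :
    ‖hol y e‖ ≤ L ↔ (-L ≤ ev e y.1 ∧ ev e y.1 ≤ L) ∧ -L ≤ ev e y.2 ∧ ev e y.2 ≤ L := by
  rw [Prod.norm_def, max_le_iff, Real.norm_eq_abs, Real.norm_eq_abs, abs_le, abs_le]
  rfl

theorem n1_two {y : Pt} (h : y ∈ Cell) : Reach y (-rho * Tq) := by
  have h1 := reach_free h (g := Tq) (by simp)
  exact h1.trans (reach_free h1.cell (by simp))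

theorem n1_a {y : Pt} {L : ℝ} {P : Mat} {e : Z4} (h : Reach y P) (h0 : e = P 0)
    (k : ‖hol y e‖ ≤ L) : e ∈ Ecl y L := ⟨P, h, h0 ▸ k, Or.inl h0⟩

theorem n1_b {y : Pt} {L : ℝ} {P : Mat} {e f : Z4} (h : Reach y P) (h0 : f = P 0) (h3 : e = P 3)
    (k : ‖hol y f‖ ≤ L) (l : ‖hol y e‖ ≤ L) : e ∈ Ecl y L :=
  ⟨P, h, h0 ▸ k, Or.inr (Or.inl ⟨h3, l⟩)⟩

theorem n1_c {y : Pt} {L : ℝ} (h : y ∈ Cell) (k : ‖hol y ![1, 0, 0, 0]‖ ≤ L)
    (l : ‖hol y ![0, 0, 1, 0]‖ ≤ L) : ![1, 0, 1, 0] ∈ Ecl y L := by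
  have e0 : (1 : Mat) 0 = ![1, 0, 0, 0] := by decide
  have e2 : (1 : Mat) 2 = ![0, 0, 1, 0] := by decide
  exact ⟨1, .refl h, e0 ▸ k, Or.inr (Or.inr ⟨by decide, e2 ▸ l⟩)⟩

theorem ed_mem_Ecl {τ : Ty} {y : Pt} (h : WV τ y.1) (k : HV τ y.2) (b : Bool) (i : Fin 3) :
    ed τ b i ∈ Ecl y (2 * ‖y‖) := by
  have hc := cell_of_valid h k
  have a1 : ∀ j, -‖y‖ ≤ y.1 j ∧ y.1 j ≤ ‖y‖ := fun j =>
    abs_le.mp ((norm_le_pi_norm y.1 j).trans (norm_fst_le y))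
  have a2 : ∀ j, -‖y‖ ≤ y.2 j ∧ y.2 j ≤ ‖y‖ := fun j =>
    abs_le.mp ((norm_le_pi_norm y.2 j).trans (norm_snd_le y))
  have n : ∀ e ∈ [![1, 0, 0, 0], ![0, 1, 0, 0], ![0, 0, 1, 0], ![0, 0, 0, 1], ![0, 0, -1, 0],
      ![0, 1, 1, 0], ![1, 0, 0, 1]], ‖hol y e‖ ≤ 2 * ‖y‖ := by
    have := norm_nonneg y
    simp only [List.forall_mem_cons, n1_norm, ev_four]
    simp
    refine ⟨⟨⟨?_, ?_⟩, ?_, ?_⟩, ⟨⟨?_, ?_⟩, ?_, ?_⟩, ⟨⟨?_, ?_⟩, ?_, ?_⟩, ⟨⟨?_, ?_⟩, ?_, ?_⟩,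
      ⟨⟨?_, ?_⟩, ?_, ?_⟩, ⟨⟨?_, ?_⟩, ?_, ?_⟩, ⟨?_, ?_⟩, ?_, ?_⟩ <;>
    linarith [a1 0, a1 1, a1 2, a1 3, a2 0, a2 1, a2 2, a2 3]
  simp only [List.forall_mem_cons] at n
  obtain ⟨n0, n1, n2, n3, n4, n5, n6, -⟩ := n
  have m0 := n1_a (.refl hc) (by decide) n0
  have m1 := n1_b (reach_free hc (g := -rho) (by simp)) (by decide) (by decide) n4 n1
  have m2 := n1_a (reach_free hc (g := rho) (by simp)) (by decide) n2
  have m3 := n1_b (.refl hc) (by decide) (by decide) n0 n3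
  have m4 := n1_c hc n0 n2
  have m5 := n1_b (n1_two hc) (by decide) (by decide) n4 n5
  have m6 := n1_b (reach_free hc (g := Tp) (by simp)) (by decide) (by decide) n0 n6
  cases τ <;> cases b <;> fin_cases i
  exacts [m2, m2, m3, m0, m1, m0, m4, m5, m3, m0, m1, m0, m2, m2, m3, m4, m1, m6]

/-- A diagonal is a core, a crossing or a sum of two cores, built from edges of the state. -/
theorem dg_mem_Ecl {τ : Ty} {y : Pt} (h : WV τ y.1) (k : HV τ y.2) (i : Fin 3) {L : ℝ}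
    (hw : ∀ b j, wd τ y.1 b j ≤ L) (hh : ev (dg τ i) y.2 ≤ L) : dg τ i ∈ Ecl y L := by
  have hc := cell_of_valid h k
  have tp := reach_free hc (g := Tp) (by simp)
  have nm : ∀ a b c d : ℤ, ((-L ≤ a * y.1 0 + b * y.1 1 + c * y.1 2 + d * y.1 3 ∧
      a * y.1 0 + b * y.1 1 + c * y.1 2 + d * y.1 3 ≤ L) ∧
      -L ≤ a * y.2 0 + b * y.2 1 + c * y.2 2 + d * y.2 3 ∧
      a * y.2 0 + b * y.2 1 + c * y.2 2 + d * y.2 3 ≤ L) → ‖hol y ![a, b, c, d]‖ ≤ L :=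
    fun a b c d e => n1_norm.mpr (by rw [ev_four, ev_four]; exact e)
  have p0 := h true 0
  have p1 := h true 1
  have p2 := h true 2
  have q0 := h false 0
  have q1 := h false 1
  have q2 := h false 2
  have w0 := hw true 0
  have w1 := hw true 1
  have w2 := hw true 2
  have v0 := hw false 0
  have v1 := hw false 1
  have v2 := hw false 2
  obtain ⟨k0, l0⟩ := k 0
  obtain ⟨k1, l1⟩ := k 1
  obtain ⟨k2, l2⟩ := k 2
  cases τ <;> simp [wd, eR, eL, ev_four] at p0 p1 p2 q0 q1 q2 w0 w1 w2 v0 v1 v2 k0 k1 k2 l0 l1 l2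
  · fin_cases i <;> simp [dg, ev_four] at hh
    · refine n1_c hc (nm _ _ _ _ ?_) (nm _ _ _ _ ?_) <;> push_cast <;>
        refine ⟨⟨?_, ?_⟩, ?_, ?_⟩ <;> linarith
    · refine n1_b (f := ![0, 0, -1, 0]) (n1_two hc) (by decide) (by decide) (nm _ _ _ _ ?_)
        (nm 0 1 1 0 ?_) <;> push_cast <;> refine ⟨⟨?_, ?_⟩, ?_, ?_⟩ <;> linarith
    · refine n1_b (f := ![1, 0, 0, 0]) tp (by decide) (by decide) (nm _ _ _ _ ?_)
        (nm 1 0 0 1 ?_) <;> push_cast <;> refine ⟨⟨?_, ?_⟩, ?_, ?_⟩ <;> linarith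
  · have r : Reach y Sp := reach_cond hc (by simp) fun j => by
      fin_cases j <;> simp [ar, dt, vec, sp, sq, acP, ac, ev_four, Sp] <;> nlinarith
    have r' := r.trans (reach_free r.cell (g := rho) (by simp))
    fin_cases i <;> simp [dg, ev_four] at hh
    · refine n1_a r' (by decide) (nm 1 1 1 0 ?_)
      push_cast
      refine ⟨⟨?_, ?_⟩, ?_, ?_⟩ <;> linarith
    · refine n1_a r' (by decide) (nm 1 1 1 0 ?_)
      push_cast
      refine ⟨⟨?_, ?_⟩, ?_, ?_⟩ <;> linarith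
    · refine n1_b (f := ![1, 0, 0, 0]) tp (by decide) (by decide) (nm _ _ _ _ ?_)
        (nm 1 0 0 1 ?_) <;> push_cast <;> refine ⟨⟨?_, ?_⟩, ?_, ?_⟩ <;> linarith
  · have r : Reach y Sq := reach_cond hc (by simp) fun j => by
      fin_cases j <;> simp [ar, dt, vec, sp, sq, acP, ac, ev_four, Sq] <;> nlinarith
    fin_cases i <;> simp [dg, ev_four] at hh
    · refine n1_a r (by decide) (nm 1 0 1 1 ?_)
      push_cast
      refine ⟨⟨?_, ?_⟩, ?_, ?_⟩ <;> linarith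
    · refine n1_b (f := ![0, 0, -1, 0]) (n1_two hc) (by decide) (by decide) (nm _ _ _ _ ?_)
        (nm 0 1 1 0 ?_) <;> push_cast <;> refine ⟨⟨?_, ?_⟩, ?_, ?_⟩ <;> linarith
    · refine n1_a r (by decide) (nm 1 0 1 1 ?_)
      push_cast
      refine ⟨⟨?_, ?_⟩, ?_, ?_⟩ <;> linarith

theorem n1_tr {y : Pt} {P : Mat} (h : Reach y P) {e : Z4} {L : ℝ} (k : e ∈ Ecl (acP P y) L) :
    e ᵥ* P ∈ Ecl y L := by
  obtain ⟨Q, h1, h2, h3⟩ := k
  have r : ∀ i, (Q * P) i = Q i ᵥ* P := fun i => rfl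
  refine ⟨Q * P, h.trans h1, by rwa [r, ← hol_acP], ?_⟩
  rcases h3 with rfl | ⟨rfl, h3⟩ | ⟨rfl, h3⟩
  · exact Or.inl rfl
  · exact Or.inr (Or.inl ⟨rfl, by rwa [← hol_acP]⟩)
  · exact Or.inr (Or.inr ⟨add_vecMul _ _ _, by rwa [r, ← hol_acP]⟩)

theorem n1_us {y : Pt} {s : ℝ} (hs : s ∈ Set.Icc (0 : ℝ) 1) (L : ℝ) :
    Ecl (us s y) L ⊆ Ecl y (2 * L) := by
  have key : ∀ e, ‖hol (us s y) e‖ ≤ L → ‖hol y e‖ ≤ 2 * L := fun e he => by
    rw [n1_norm] at he ⊢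
    simp only [us, ev_add, ev_smul] at he
    obtain ⟨⟨h1, h2⟩, h3, h4⟩ := he
    obtain ⟨s0, s1⟩ := hs
    refine ⟨⟨?_, ?_⟩, ?_, ?_⟩ <;> nlinarith
  rintro e ⟨P, h1, h2, h3⟩
  have h4 := h1.lin (a := 1) (b := -s) (c := 0) (d := 1) (by norm_num)
  rw [show lin 1 (-s) 0 1 (us s y) = y by simp [lin, us]] at h4
  exact ⟨P, h4, key _ h2, h3.imp_right (Or.imp (And.imp_right (key _)) (And.imp_right (key _)))⟩

theorem n1_path {τ : Ty} {x : Pt} {W : ℝ} (hW : 2 * ‖x‖ ≤ W) (k : HV τ x.2) (n : ℕ)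
    (h : PV τ x.1 n) {e : Z4} (he : (∃ b i, e = ed (path τ x.1 n).1 b i ᵥ* (path τ x.1 n).2) ∨
      ∃ i, e = dg (path τ x.1 n).1 i ᵥ* (path τ x.1 n).2) :
    0 ≤ ev e x.2 ∧ e ∈ Ecl x (W + ev e x.2) := by
  have W0 : 0 ≤ W := le_trans (by positivity) hW
  have hd : ∀ n, PV τ x.1 n → ∀ i, ∀ e, e = dg (path τ x.1 n).1 i ᵥ* (path τ x.1 n).2 →
      0 ≤ ev e x.2 ∧ e ∈ Ecl x (W + ev e x.2) := by
    rintro n h i _ rfl
    have hv := path_hv k x.1 n
    have h0 : 0 ≤ ev (dg (path τ x.1 n).1 i ᵥ* (path τ x.1 n).2) x.2 := by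
      obtain ⟨j, hj⟩ := (dg_eq (path τ x.1 n).1 i).1
      rw [ev_vecMul, hj, add_ev]
      exact add_nonneg (hv i).1 (hv j).2.le
    refine ⟨h0, n1_tr (path_reach h k) (dg_mem_Ecl (h n le_rfl).1 hv i (fun b j =>
      (path_wd_le h (W := W) (fun b j => ?_) b j).trans (le_add_of_nonneg_right h0)) ?_)⟩
    · have h1 := abs_le.mp (abs_ed_le τ b j x.1)
      have h2 := norm_fst_le x
      cases b
      · change -ev (ed τ false j) x.1 ≤ W
        linarith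
      · change ev (ed τ true j) x.1 ≤ W
        linarith
    · rw [ev_vecMul]
      exact le_add_of_nonneg_left W0
  rcases he with ⟨b, i, rfl⟩ | ⟨i, he⟩
  swap
  · exact hd n h i e he
  induction n generalizing b i with
  | zero =>
    have h0 := u2_hv0 k b i
    have h1 := (h 0 le_rfl).1
    rw [u2_zero] at h1
    change 0 ≤ ev (ed τ b i ᵥ* 1) x.2 ∧ ed τ b i ᵥ* 1 ∈ Ecl x (W + ev (ed τ b i ᵥ* 1) x.2)
    rw [vecMul_one]
    exact ⟨h0, Ecl_mono (by linarith) (ed_mem_Ecl h1 k b i)⟩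
  | succ n ih =>
    rw [u2_succ, ← vecMul_vecMul]
    rcases step_edge (path τ x.1 n).1 (sg (path τ x.1 n).1 (ac (path τ x.1 n).2 x.1)) b i with
      ⟨j, hj⟩ | ⟨j, hj⟩
    · rw [hj]; exact ih (u2_pv h) b j
    · rw [hj]; exact hd n (u2_pv h) j _ rfl

theorem path_mem_Ecl {τ : Ty} {y : Pt} {s : ℝ} (hs : s ∈ Set.Icc (0 : ℝ) 1) {n : ℕ}
    (h : PV τ (us s y).1 n) (k : HV τ y.2) {e : Z4}
    (he : (∃ b i, e = ed (path τ (us s y).1 n).1 b i ᵥ* (path τ (us s y).1 n).2) ∨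
      ∃ i, e = dg (path τ (us s y).1 n).1 i ᵥ* (path τ (us s y).1 n).2) :
    0 ≤ ev e y.2 ∧ e ∈ Ecl y (8 * ‖y‖ + 2 * ev e y.2) := by
  have h1 : ‖us s y‖ ≤ 2 * ‖y‖ := by
    have a1 := norm_fst_le y
    have a2 := norm_snd_le y
    have a3 := norm_nonneg y.2
    refine max_le ((norm_add_le _ _).trans ?_) (a2.trans (by linarith [norm_nonneg y]))
    rw [norm_smul, Real.norm_eq_abs, abs_of_nonneg hs.1]
    nlinarith [hs.2]
  obtain ⟨h2, h3⟩ := n1_path (x := us s y) (W := 4 * ‖y‖) (by linarith) k n h he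
  refine ⟨h2, Ecl_mono (le_of_eq ?_) (n1_us hs _ h3)⟩
  change 2 * (4 * ‖y‖ + ev e y.2) = _
  ring

end Pool.Agent.TW
end

-- part Pool.Agent.Lib.MP_4eaecc_an.XD
section

/-! The family of the theorem for arbitrary circumferences. The class `v0` is real. -/

namespace Pool.Agent.TW.G

open Matrix MeasureTheory Filter Topology
open scoped ENNReal

structure Par where
  a : ℝ
  b : ℝ
  h1 : ℝ
  h2 : ℝ
  a0 : 0 < a
  b0 : 0 < b
  h10 : 0 < h1
  h20 : 0 < h2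

def Par.E (w : Par) (z : Fin 3 → ℝ) : V := ![w.a * z 0, w.b * z 0, z 1, z 2]
def Par.eta (w : Par) : V := ![0, 0, w.h1, w.h2]
def Par.v0 (w : Par) : V := ![0, 0, w.a, -(w.a + w.b)]
def Par.y (w : Par) (z : Fin 3 → ℝ) : Pt := (w.E z, w.eta)
def Par.om (w : Par) (x : ℝ × ℝ) : Pt := (![w.a, w.b, x.1, x.2], w.eta)
def Par.A (w : Par) : ℝ := (w.a + w.b) * w.h1 + w.a * w.h2
/-- The real class at time `t`. -/
noncomputable def Par.v (w : Par) (z : Fin 3 → ℝ) (t : ℝ) : V := ac (St .L (w.y z) t).2 w.v0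
noncomputable def Par.lev (w : Par) (z : Fin 3 → ℝ) (t : ℝ) : ℝ := ‖w.v z t‖
/-- The ratio of the circumferences. -/
noncomputable def Par.ga (w : Par) : ℝ := (w.a + w.b) / w.a

/-- The integral class of the approximation `p / q` of the ratio. -/
def w0 (p q : ℤ) : Z4 := ![0, 0, q, -p]

def col (P : Mat) (j : Fin 4) : Z4 := fun i => P i j

/-- The largest two by two minor of two real vectors. -/
noncomputable def wr (v a : V) : ℝ := ‖fun p : Fin 4 × Fin 4 => v p.1 * a p.2 - v p.2 * a p.1‖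

theorem continuous_y (w : Par) : Continuous w.y := by
  refine Continuous.prodMk (continuous_pi fun i => ?_) continuous_const
  fin_cases i <;> simp [Par.E] <;> fun_prop

theorem meas_lev (w : Par) (t : ℝ) : Measurable fun z => w.lev z t := fun S _ =>
  (continuous_y w).measurable (meas_comp .L t (fun q => {_y | ‖ac q.2 w.v0‖ ∈ S})
    fun _ => MeasurableSet.const _)

theorem continuous_om (w : Par) : Continuous w.om := by
  refine Continuous.prodMk (continuous_pi fun i => ?_) continuous_const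
  fin_cases i <;> simp <;> fun_prop

theorem Par.ac_v0 (w : Par) (P : Mat) :
    ac P w.v0 = w.a • (cs (col P 2) - w.ga • cs (col P 3)) := by
  have := w.a0
  funext i
  simp [ac, ev_four, Par.v0, Par.ga, cs, col]
  field_simp
  ring

theorem mulVec_w0 (P : Mat) (p q : ℤ) : P *ᵥ w0 p q = q • col P 2 - p • col P 3 := by
  funext i
  simp [w0, col, mulVec, dotProduct, Fin.sum_univ_four]
  ring

theorem prim_w0 {P : Mat} (h : Symp P) {p q : ℤ} (k : IsCoprime p q) :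
    ∃ c : Z4, c ⬝ᵥ (P *ᵥ w0 p q) = 1 := by
  obtain ⟨u, v, e⟩ := k
  refine ⟨![0, 0, v, -u] ᵥ* sinv P, ?_⟩
  rw [dotProduct_mulVec, vecMul_vecMul, h.sinv_mul, vecMul_one]
  simp [dotProduct, Fin.sum_univ_four, w0]
  linear_combination e

theorem Om_col {P : Mat} (h : Symp P) : Om (cs (col P 2)) (cs (col P 3)) = 0 := by
  have k := h.Om_ac ![0, 0, 1, 0] ![0, 0, 0, 1]
  have e2 : ac P ![0, 0, 1, 0] = cs (col P 2) := by
    funext i; simp [ac, ev_four, cs, col]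
  have e3 : ac P ![0, 0, 0, 1] = cs (col P 3) := by
    funext i; simp [ac, ev_four, cs, col]
  rw [e2, e3] at k
  rw [k]
  simp [Om]

theorem Par.v_ne (w : Par) {P : Mat} (h : Symp P) : ac P w.v0 ≠ 0 := fun k => by
  have e : w.v0 = 0 := by
    rw [← ac_one w.v0, ← h.sinv_mul, ac_mul, k]
    funext i
    simp [ac, ev]
  have := congrFun e 2
  simp [Par.v0] at this
  exact w.a0.ne' this

theorem Par.lev_pos (w : Par) (z : Fin 3 → ℝ) (t : ℝ) : 0 < w.lev z t :=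
  norm_pos_iff.2 (w.v_ne (St_symp _ _ _))

end Pool.Agent.TW.G
end

-- part Pool.Agent.Lib.MP_4eaecc_an.XG5a
section

/-! From segments to the three dimensional family. -/

namespace Pool.Agent.TW.G

open Matrix MeasureTheory Filter Topology
open scoped ENNReal NNReal

theorem Par.area_y (w : Par) (z : Fin 3 → ℝ) : area (w.y z) = z 0 * w.A := by
  simp [area, Om, Par.y, Par.E, Par.eta, Par.A]
  ring

theorem Par.A_pos (w : Par) : 0 < w.A := by
  exact add_pos (mul_pos (add_pos w.a0 w.b0) w.h10) (mul_pos w.a0 w.h20)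

theorem Par.hv (w : Par) : HV .L w.eta := by
  intro i
  fin_cases i <;> simp [eR, eL, ev_four, Par.eta, w.h10, w.h20]

theorem Par.Om_E (w : Par) (z : Fin 3 → ℝ) : Om (w.E z) w.v0 = 0 := by
  simp [Om, Par.E, Par.v0]
  ring

theorem Par.Om_eta (w : Par) : Om w.eta w.v0 = 0 := by
  simp [Om, Par.eta, Par.v0]

theorem Par.lev_le (w : Par) : ∃ C : ℝ, 0 < C ∧ ∀ z t, Base .L (w.y z) t →
    w.lev z t ≤ C * Real.exp t := by
  have h1 := w.h10
  have h2 := w.h20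
  have hp := w.a0
  have hq := w.b0
  obtain ⟨M, M0, M1, M2⟩ : ∃ M : ℝ, 0 < M ∧ w.a ≤ M * w.h1 ∧ w.a + w.b ≤ M * w.h2 := by
    refine ⟨w.a / w.h1 + (w.a + w.b) / w.h2, by positivity, ?_, ?_⟩
    · rw [add_mul, div_mul_cancel₀ _ h1.ne']
      exact le_add_of_nonneg_right (by positivity)
    · rw [add_mul, div_mul_cancel₀ _ h2.ne']
      exact le_add_of_nonneg_left (by positivity)
  have hB : Bnd .L w.eta w.v0 (-M) M := fun b i => by
    cases b <;> fin_cases i <;> simp [ed, eR, eL, ev_four, Par.eta, Par.v0] <;>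
      constructor <;> linarith
  refine ⟨4 * M, by positivity, fun z t h => ?_⟩
  have k := (hB.path (w.E z) (stage .L (w.y z) (Real.exp t))).close
    (pv_of_gen (ξ := w.E z) h.1 h.2.2.1 _ _ le_rfl).1 (path_hv w.hv _ _) h.low
  rw [(path_symp _ _ _).Om_ac, w.Om_E, zero_div, zero_smul, sub_zero] at k
  exact k.trans_eq (by ring)

theorem Par.lev_add (w : Par) {z : Fin 3 → ℝ} {t t' : ℝ} (h : Base .L (w.y z) t) (k : t ≤ t') :
    w.v z t' = ac (St (St .L (w.y z) t).1 (nst .L (w.y z) t) (t' - t)).2 (w.v z t) := by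
  rw [Par.v, Par.v, (St_add h k).1, ac_mul]

theorem Par.lev_step (w : Par) {δ : ℝ} (hδ : 0 < δ) {z : Fin 3 → ℝ} {t t' : ℝ}
    (h : GoodAt δ .L (w.y z) t) (k : t ≤ t') :
    w.lev z t' ≤ 16 * Real.exp (t' - t) / δ * w.lev z t := by
  rw [Par.lev, w.lev_add h.1 k]
  exact ((mb_St h.2.2 hδ (h.1.nst.mono (sub_nonneg.mpr k))).norm_ac _).trans_eq
    (by rw [Par.lev]; ring)

theorem g5a_sg {τ : Ty} {σ : Fin 3 → Bool} {ξ : V} (h : Sg τ σ ξ) : sg τ ξ = σ := by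
  funext i
  have k := h.2 i
  cases hσ : σ i <;> simp [hσ] at k <;> simp [sg, k, k.le]

theorem g5a_y (w : Par) (z : Fin 3 → ℝ) (s : ℝ) :
    w.y (z + s • ![0, w.h1, w.h2]) = us s (w.y z) := by
  refine Prod.ext (funext fun i => ?_) rfl
  fin_cases i <;> simp [Par.y, Par.E, Par.eta, us]

theorem g5a_gt (P : Mat) (y : Pt) (s t : ℝ) :
    gt t (acP P (us s y)) = us (s * Real.exp (2 * t)) (gt t (acP P y)) := by
  refine Prod.ext ?_ rfl
  simp only [gt, acP, us, ac_add, ac_smul, smul_add, smul_smul]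
  rw [mul_assoc, ← Real.exp_add, show 2 * t + -t = t by ring, mul_comm]

theorem g5a_near {δ : ℝ} (h0 : 0 < δ) (h1 : δ ≤ 1) {τ : Ty} {σ : Fin 3 → Bool} {y : Pt} {a b : ℝ}
    (ha : a ∈ Set.Icc 0 (δ ^ 2 / 12)) (hb : b ∈ Set.Icc 0 (δ ^ 2 / 12)) (h : Gw δ τ σ (us a y).1)
    (k : Gh δ τ y.2) : Gw (δ / 2) τ σ (us b y).1 := by
  refine h.near h0 h1 ?_
  have e : (us b y).1 - (us a y).1 = (b - a) • y.2 := by
    simp only [us]
    module
  rw [e, norm_smul, Real.norm_eq_abs]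
  refine (mul_le_mul (abs_le.mpr ⟨by linarith [ha.2, hb.1], by linarith [ha.1, hb.2]⟩ :
    |b - a| ≤ δ ^ 2 / 12) (k.norm h0) (norm_nonneg _) (by positivity)).trans_eq ?_
  field_simp
  norm_num

theorem g5a_seg {δ t : ℝ} (h0 : 0 < δ) (h1 : δ ≤ 1) {τ : Ty} {y : Pt} {a : ℝ}
    (ha : a * Real.exp (2 * t) ∈ Set.Icc 0 (δ ^ 2 / 12)) (h : GoodAt δ τ (us a y) t) :
    Good (δ / 2) (St τ (us a y) t).1 (gt t (acP (St τ (us a y) t).2 y)) ∧
      ∀ b, b * Real.exp (2 * t) ∈ Set.Icc 0 (δ ^ 2 / 12) → St τ (us b y) t = St τ (us a y) t := by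
  have g := (h.2.mono (half_pos h0) (half_le_self h0.le)).2
  obtain ⟨hb, ⟨σ, h2⟩, h3⟩ := h
  have h4 := g5a_sg (h2.sg h0)
  rw [nst, g5a_gt] at h2
  refine ⟨⟨⟨σ, ?_⟩, g⟩, fun b hb' => (St_markov hb (ζ := (us b y).1) ?_).1⟩
  · simpa [us] using g5a_near h0 h1 ha (b := 0) ⟨le_rfl, by positivity⟩ h2 h3
  · have h5 := ((g5a_near h0 h1 ha hb' h2 h3).sg (half_pos h0)).smul (Real.exp_pos (-t))
    rw [← g5a_gt] at h5
    simp only [gt, smul_smul, ← Real.exp_add, neg_add_cancel, Real.exp_zero, one_smul] at h5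
    rw [h4]
    exact h5

/-- A segment of length `δ² e^{-2t} / 12` that meets the event stays in one atom. -/
theorem line_lift (w : Par) (R : ℝ) : ∃ C : ℝ, 0 < C ∧ ∀ (δ t β : ℝ) (Ev : Ty → Pt → V → Prop),
    0 < δ → δ ≤ 1 → 0 ≤ t → 0 ≤ β →
    MeasurableSet {z ∈ ZR R | GoodAt δ .L (w.y z) t ∧
      Ev (St .L (w.y z) t).1 (nst .L (w.y z) t) (w.v z t)} →
    (∀ τ y v, Good (δ / 2) τ y → w.A ≤ area y → area y ≤ 2 * w.A → v ≠ 0 →
      volume {s ∈ Set.Icc (0 : ℝ) (δ ^ 2 / 12) | Ev τ (us s y) v} ≤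
        ENNReal.ofReal (β * (δ ^ 2 / 12))) →
    volume {z ∈ ZR R | GoodAt δ .L (w.y z) t ∧
      Ev (St .L (w.y z) t).1 (nst .L (w.y z) t) (w.v z t)} ≤ ENNReal.ofReal (C * β) := by
  obtain ⟨ζ, hζ⟩ : ∃ ζ : Fin 3 → ℝ, ζ = ![0, w.h1, w.h2] := ⟨_, rfl⟩
  refine ⟨(2 * (|R| + ‖ζ‖)) ^ 3 + 1, by positivity, fun δ t β Ev h0 h1 ht hβ hX hE => ?_⟩
  obtain ⟨r, hr⟩ : ∃ r, r = δ ^ 2 / 12 * Real.exp (-(2 * t)) := ⟨_, rfl⟩
  have r0 : 0 < r := by rw [hr]; positivity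
  have r1 : r ≤ 1 := by
    rw [hr]
    exact mul_le_one₀ (by nlinarith) (Real.exp_pos _).le
      (Real.exp_le_one_iff.mpr (by linarith))
  have r2 : ∀ s ∈ Set.Icc 0 r, s * Real.exp (2 * t) ∈ Set.Icc 0 (δ ^ 2 / 12) := fun s hs => by
    refine ⟨mul_nonneg hs.1 (Real.exp_pos _).le,
      (mul_le_mul_of_nonneg_right hs.2 (Real.exp_pos _).le).trans_eq ?_⟩
    rw [hr, mul_assoc, ← Real.exp_add, neg_add_cancel, Real.exp_zero, mul_one]
  have key := line_avg volume hX ζ r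
  generalize hXX : {z ∈ ZR R | GoodAt δ .L (w.y z) t ∧
      Ev (St .L (w.y z) t).1 (nst .L (w.y z) t) (w.v z t)} = X at hX key ⊢
  have h2 : ∀ z, volume {s ∈ Set.Icc (0 : ℝ) r | z + s • ζ ∈ X} ≤
      (Metric.closedBall (0 : Fin 3 → ℝ) (|R| + ‖ζ‖)).indicator
        (fun _ => ENNReal.ofReal (β * r)) z := fun z => by
    rcases Set.eq_empty_or_nonempty {s ∈ Set.Icc (0 : ℝ) r | z + s • ζ ∈ X} with h | ⟨a, ha, h⟩
    · rw [h, measure_empty]
      exact zero_le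
    subst hXX
    obtain ⟨⟨z1, z2, z3⟩, z4, -⟩ := h
    have z5 : z ∈ Metric.closedBall (0 : Fin 3 → ℝ) (|R| + ‖ζ‖) := by
      rw [mem_closedBall_zero_iff, ← add_sub_cancel_right z (a • ζ)]
      refine (norm_sub_le _ _).trans (add_le_add (z1.trans (le_abs_self R)) ?_)
      rw [norm_smul, Real.norm_of_nonneg ha.1]
      exact mul_le_of_le_one_left (norm_nonneg _) (ha.2.trans r1)
    rw [Set.indicator_of_mem z5]
    subst hζ
    rw [g5a_y] at z4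
    obtain ⟨g1, g2⟩ := g5a_seg h0 h1 (r2 a ha) z4
    have g3 : area (gt t (acP (St .L (us a (w.y z)) t).2 (w.y z))) = z 0 * w.A := by
      rw [gt_eq, area_lin, ← Real.exp_add, add_neg_cancel, Real.exp_zero, mul_zero, sub_zero,
        one_mul, ← w.area_y]
      exact (St_symp _ _ _).Om_ac _ _
    have z6 : 1 ≤ z 0 := by simpa using z2
    have z7 : z 0 ≤ 2 := by simpa using z3
    have g4 := hE _ _ (ac (St .L (us a (w.y z)) t).2 w.v0) g1
      (g3 ▸ le_mul_of_one_le_left w.A_pos.le z6) (g3 ▸ mul_le_mul_of_nonneg_right z7 w.A_pos.le)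
      (w.v_ne (St_symp _ _ _))
    refine le_trans (measure_mono (t := (· * Real.exp (2 * t)) ⁻¹' _) fun s hs => ?_)
      ((Real.volume_preimage_mul_right (Real.exp_pos _).ne' _).trans_le
        ((mul_le_mul_right g4 _).trans_eq ?_))
    · refine ⟨r2 s hs.1, ?_⟩
      have g5 := hs.2.2.2
      rwa [Par.v, nst, g5a_y, g2 s (r2 s hs.1), g5a_gt] at g5
    · rw [← ENNReal.ofReal_mul (abs_nonneg _), abs_of_pos (by positivity), hr, Real.exp_neg]
      congr 1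
      ring
  have h3 := key.trans_le (lintegral_mono h2)
  rw [lintegral_indicator_const Metric.isClosed_closedBall.measurableSet,
    Real.volume_pi_closedBall _ (by positivity), mul_comm β, ENNReal.ofReal_mul r0.le,
    mul_assoc] at h3
  refine ((ENNReal.mul_le_mul_iff_right (by simpa using r0) ENNReal.ofReal_ne_top).mp h3).trans ?_
  rw [← ENNReal.ofReal_mul hβ, Fintype.card_fin]
  exact ENNReal.ofReal_le_ofReal (by linarith)

end Pool.Agent.TW.G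
end

-- part Pool.Agent.Lib.MP_4eaecc_an.P1
section

/-! Contraction between good stages. -/

namespace Pool.Agent.TW

open Matrix MeasureTheory Filter Topology
open scoped ENNReal NNReal

/-- The cocycle with value one on every edge. -/
def gone : Ty → V
  | .L => ![1, 1, 1, 1]
  | .B => ![1, 1, 0, 1]
  | .C => ![0, 1, 1, 1]

/-- Cocycles that count a letter met with positive frequency. -/
def IsF (τ : Ty) (f : V) : Prop :=
  match τ with
  | .L => f = ![0, 0, 1, 0]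
  | .B => f = ![0, 1, 0, 0] ∨ f = ![1, 1, -1, 0]
  | .C => f = ![0, 0, 0, 1] ∨ f = ![-1, 0, 1, 1]

private theorem p1_sc {δ x : ℝ} (hδ : 0 < δ) (h : δ ≤ x ∧ x ≤ δ⁻¹) :
    1 ≤ δ⁻¹ * x ∧ δ⁻¹ * x ≤ δ⁻¹ * δ⁻¹ := by
  have h0 : 0 < δ⁻¹ := inv_pos.2 hδ
  refine ⟨?_, mul_le_mul_of_nonneg_left h.2 h0.le⟩
  have := mul_le_mul_of_nonneg_left h.1 h0.le
  rwa [inv_mul_cancel₀ hδ.ne'] at this

private theorem p1_inv {τ : Ty} {u f : V} {D : ℝ} (hD : 1 ≤ D)
    (h : ∀ b i, 1 ≤ wd τ u b i ∧ wd τ u b i ≤ D) (hf : IsF τ f) : ∃ ε : ℝ, |ε| = 1 ∧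
    Inv τ (gone τ + ε • u - (6 * D) • f) (12 * D) := by
  obtain ⟨u0, u1, u2, u3, rfl⟩ : ∃ a b c d, u = ![a, b, c, d] :=
    ⟨u 0, u 1, u 2, u 3, by ext i; fin_cases i <;> rfl⟩
  have h0 := h true 0
  have h1 := h true 1
  have h2 := h true 2
  have h3 := h false 0
  have h4 := h false 1
  have h5 := h false 2
  cases τ
  · simp only [IsF] at hf
    subst hf
    simp [wd, eR, eL, ev_four] at h0 h1 h2 h3 h4 h5
    refine ⟨-1, by simp, ?_⟩
    simp [Inv, gone]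
    refine ⟨⟨?_, ?_, ?_, ?_⟩, ?_, ?_, ?_, ?_⟩ <;>
      linarith [h0.1, h0.2, h1.1, h1.2, h3.1, h3.2, h5.1, h5.2]
  · simp only [IsF] at hf
    simp [wd, eR, eL, ev_four] at h0 h1 h2 h3 h4 h5
    rcases hf with rfl | rfl
    · refine ⟨-1, by simp, ?_⟩
      simp [Inv, gone]
      refine ⟨⟨?_, ?_, ?_, ?_, ?_⟩, ?_, ?_, ?_, ?_, ?_, ?_, ?_, ?_⟩ <;>
        linarith [h0.1, h0.2, h1.1, h1.2, h3.1, h3.2, h4.1, h4.2, h5.1, h5.2]
    · refine ⟨1, by simp, ?_⟩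
      simp [Inv, gone]
      refine ⟨⟨?_, ?_, ?_, ?_, ?_⟩, ?_, ?_, ?_, ?_, ?_, ?_, ?_, ?_⟩ <;>
        linarith [h0.1, h0.2, h1.1, h1.2, h3.1, h3.2, h4.1, h4.2, h5.1, h5.2]
  · simp only [IsF] at hf
    simp [wd, eR, eL, ev_four] at h0 h1 h2 h3 h4 h5
    rcases hf with rfl | rfl
    · refine ⟨1, by simp, ?_⟩
      simp [Inv, gone]
      refine ⟨⟨?_, ?_, ?_, ?_, ?_⟩, ?_, ?_, ?_, ?_, ?_, ?_, ?_, ?_⟩ <;>
        linarith [h0.1, h0.2, h1.1, h1.2, h2.1, h2.2, h3.1, h3.2, h5.1, h5.2]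
    · refine ⟨-1, by simp, ?_⟩
      simp [Inv, gone]
      refine ⟨⟨?_, ?_, ?_, ?_, ?_⟩, ?_, ?_, ?_, ?_, ?_, ?_, ?_, ?_⟩ <;>
        linarith [h0.1, h0.2, h1.1, h1.2, h2.1, h2.2, h3.1, h3.2, h5.1, h5.2]

private theorem p1_wd_smul (τ : Ty) (c : ℝ) (ξ : V) (b : Bool) (i : Fin 3) :
    wd τ (c • ξ) b i = c * wd τ ξ b i := by
  cases b <;> simp [wd, ev_smul]

/-- One of `gone ± δ⁻¹ ξ - C f` satisfies `Inv`. -/
theorem inv_f {δ : ℝ} (hδ : 0 < δ) (h1 : δ ≤ 1) {τ : Ty} {σ : Fin 3 → Bool} {ξ f : V}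
    (h : Gw δ τ σ ξ) (hf : IsF τ f) : ∃ ε : ℝ, |ε| = 1 ∧
    Inv τ (gone τ + (ε / δ) • ξ - (6 / δ ^ 2) • f) (12 / δ ^ 2) := by
  have hi : 1 ≤ δ⁻¹ := (one_le_inv₀ hδ).2 h1
  obtain ⟨ε, h2, h3⟩ := p1_inv (τ := τ) (u := δ⁻¹ • ξ) (f := f) (D := δ⁻¹ * δ⁻¹)
    (by nlinarith) (fun b i => by rw [p1_wd_smul]; exact p1_sc hδ (h.1 b i)) hf
  refine ⟨ε, h2, ?_⟩
  have e1 : 6 / δ ^ 2 = 6 * (δ⁻¹ * δ⁻¹) := by field_simp
  have e2 : 12 / δ ^ 2 = 12 * (δ⁻¹ * δ⁻¹) := by field_simp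
  rw [e1, e2, div_eq_mul_inv, mul_smul]
  exact h3

private def p1_key : Ty → Bool × Fin 3
  | .L => (false, 0)
  | .B => (true, 1)
  | .C => (false, 2)

private theorem p1_dom {τ : Ty} {b : V} {κ : ℝ} (hκ : 0 ≤ κ) (h : ∀ c i, 0 ≤ ev (ed τ c i) b)
    (hk : 2 * κ ≤ ev (ed τ (p1_key τ).1 (p1_key τ).2) b) :
    ∃ f, IsF τ f ∧ ∀ c i, 0 ≤ ev (ed τ c i) (b - κ • f) := by
  obtain ⟨b0, b1, b2, b3, rfl⟩ : ∃ a' b' c d, b = ![a', b', c, d] :=
    ⟨b 0, b 1, b 2, b 3, by ext i; fin_cases i <;> rfl⟩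
  have h0 := h true 0
  have h1 := h true 1
  have h2 := h true 2
  have h3 := h false 0
  have h4 := h false 1
  have h5 := h false 2
  cases τ
  · simp [p1_key, ed, eR, eL, ev_four] at h0 h1 h2 h3 h4 h5 hk
    refine ⟨_, rfl, fun c i => ?_⟩
    cases c <;> fin_cases i <;> simp [ed, eR, eL, ev_four] <;> linarith
  · simp [p1_key, ed, eR, eL, ev_four] at h0 h1 h2 h3 h4 h5 hk
    by_cases hb : κ ≤ b0
    · refine ⟨_, Or.inr rfl, fun c i => ?_⟩
      cases c <;> fin_cases i <;> simp [ed, eR, eL, ev_four] <;> linarith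
    · refine ⟨_, Or.inl rfl, fun c i => ?_⟩
      cases c <;> fin_cases i <;> simp [ed, eR, eL, ev_four] <;> linarith
  · simp [p1_key, ed, eR, eL, ev_four] at h0 h1 h2 h3 h4 h5 hk
    by_cases hb : κ ≤ b2
    · refine ⟨_, Or.inr rfl, fun c i => ?_⟩
      cases c <;> fin_cases i <;> simp [ed, eR, eL, ev_four] <;> linarith
    · refine ⟨_, Or.inl rfl, fun c i => ?_⟩
      cases c <;> fin_cases i <;> simp [ed, eR, eL, ev_four] <;> linarith

/-- Of two nonnegative cocycles with large sum, one dominates a multiple of some `f`. -/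
theorem dom_f {τ : Ty} {b b' : V} {κ : ℝ} (hκ : 0 ≤ κ) (h : ∀ c i, 0 ≤ ev (ed τ c i) b)
    (h' : ∀ c i, 0 ≤ ev (ed τ c i) b') (hs : ∀ c i, 4 * κ ≤ ev (ed τ c i) (b + b')) :
    ∃ f, IsF τ f ∧ ((∀ c i, 0 ≤ ev (ed τ c i) (b - κ • f)) ∨
      ∀ c i, 0 ≤ ev (ed τ c i) (b' - κ • f)) := by
  have h1 := hs (p1_key τ).1 (p1_key τ).2
  rw [ev_add] at h1
  by_cases hb : 2 * κ ≤ ev (ed τ (p1_key τ).1 (p1_key τ).2) b
  · obtain ⟨f, h2, h3⟩ := p1_dom hκ h hb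
    exact ⟨f, h2, Or.inl h3⟩
  · obtain ⟨f, h2, h3⟩ := p1_dom hκ h' (by linarith)
    exact ⟨f, h2, Or.inr h3⟩

private theorem p1_gone (τ : Ty) (c : Bool) (i : Fin 3) : ev (ed τ c i) (gone τ) = 1 := by
  cases τ <;> cases c <;> fin_cases i <;> simp [ed, eR, eL, ev_four, gone]

private theorem p1_abs {τ : Ty} {ξ : V} {b : Bool} {i : Fin 3} {K : ℝ} (h0 : 0 ≤ wd τ ξ b i)
    (h : wd τ ξ b i ≤ K) : |ev (ed τ b i) ξ| ≤ K := by
  cases b <;> simp only [wd, ed] at h0 h ⊢ <;> rw [abs_le] <;> constructor <;> linarith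

/-- On late edges the cocycle `f` is at least a fixed multiple of the height. -/
private theorem p1_freq {δ : ℝ} (hδ : 0 < δ) (h1 : δ ≤ 1) {τ : Ty} {y : Pt} {t : ℝ}
    (ht : 26 / δ ^ 4 ≤ t) (hy : Good δ τ y) (hg : GoodAt δ τ y t) {f : V} (hf : IsF τ f)
    (c : Bool) (i : Fin 3) :
    δ ^ 3 / 12 * ev (ed (St τ y t).1 c i) (ac (St τ y t).2 y.2) ≤
      ev (ed (St τ y t).1 c i) (ac (St τ y t).2 f) := by
  obtain ⟨⟨σ, hw⟩, hh⟩ := hy
  obtain ⟨-, ⟨σ', hw'⟩, hh'⟩ := hg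
  obtain ⟨ε, he, hi⟩ := inv_f hδ h1 hw hf
  have hk : 0 ≤ 12 / δ ^ 2 := by positivity
  have a1 : ev (ed (St τ y t).1 c i)
      (ac (St τ y t).2 (gone τ + (ε / δ) • y.1 - (6 / δ ^ 2) • f)) ≤ 12 / δ ^ 2 :=
    Inv.edge hk (path_inv hk hi y.1 _) c i
  have a2 : 0 ≤ ev (ed (St τ y t).1 c i) (ac (St τ y t).2 (gone τ - δ • y.2)) :=
    path_nonneg (fun b j => by
      rw [ev_sub, ev_smul, p1_gone]
      have := mul_le_mul_of_nonneg_left (hh b j).2 hδ.le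
      rw [mul_inv_cancel₀ hδ.ne'] at this
      linarith) y.1 _ c i
  have a3 : δ ≤ Real.exp (-t) * ev (ed (St τ y t).1 c i) (ac (St τ y t).2 y.2) := by
    have := (hh' c i).1
    rwa [show (nst τ y t).2 = Real.exp (-t) • ac (St τ y t).2 y.2 from rfl, ev_smul] at this
  have a4 : |Real.exp t * ev (ed (St τ y t).1 c i) (ac (St τ y t).2 y.1)| ≤ δ⁻¹ := by
    have := p1_abs (hδ.le.trans (hw'.1 c i).1) (hw'.1 c i).2
    rwa [show (nst τ y t).1 = Real.exp t • ac (St τ y t).2 y.1 from rfl, ev_smul] at this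
  simp only [ac_sub, ac_add, ac_smul, ev_sub, ev_add, ev_smul] at a1 a2
  generalize ev (ed (St τ y t).1 c i) (ac (St τ y t).2 y.1) = x at *
  generalize ev (ed (St τ y t).1 c i) (ac (St τ y t).2 y.2) = η at *
  generalize ev (ed (St τ y t).1 c i) (ac (St τ y t).2 f) = φ at *
  generalize ev (ed (St τ y t).1 c i) (ac (St τ y t).2 (gone τ)) = g at *
  have ht0 : 0 ≤ t := le_trans (by positivity) ht
  have e1 : 1 ≤ Real.exp t := Real.one_le_exp ht0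
  have e2 : 26 / δ ^ 4 ≤ Real.exp t := by linarith [Real.add_one_le_exp t]
  have b1 : |x| ≤ δ⁻¹ := by
    rw [abs_mul, abs_of_pos (Real.exp_pos t)] at a4
    exact le_trans (le_mul_of_one_le_left (abs_nonneg x) e1) a4
  have b2 : -(1 / δ ^ 2) ≤ ε / δ * x := by
    have : |ε / δ * x| ≤ 1 / δ ^ 2 := by
      rw [abs_mul, abs_div, he, abs_of_pos hδ]
      calc 1 / δ * |x| ≤ 1 / δ * δ⁻¹ := by gcongr
        _ = _ := by field_simp
    exact (abs_le.1 this).1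
  have b3 : δ * Real.exp t ≤ η := by
    have := mul_le_mul_of_nonneg_right a3 (Real.exp_pos t).le
    rwa [mul_right_comm, ← Real.exp_add, neg_add_cancel, Real.exp_zero, one_mul] at this
  have b4 : 26 * (1 / δ ^ 2) ≤ δ * η := by
    calc 26 * (1 / δ ^ 2) = δ * (δ * (26 / δ ^ 4)) := by field_simp
      _ ≤ δ * (δ * Real.exp t) := by gcongr
      _ ≤ _ := by gcongr
  have e3 : 12 / δ ^ 2 = 12 * (1 / δ ^ 2) := by ring
  have b5 : δ * η / 2 ≤ 6 / δ ^ 2 * φ := by linarith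
  have b6 := mul_le_mul_of_nonneg_left b5 (show 0 ≤ δ ^ 2 / 6 by positivity)
  have e4 : δ ^ 2 / 6 * (6 / δ ^ 2 * φ) = φ := by field_simp
  rw [e4] at b6
  linarith

theorem contr {δ : ℝ} (hδ : 0 < δ) (h1 : δ ≤ 1) : ∃ τ2 κ : ℝ, 0 < τ2 ∧ 0 < κ ∧ κ < 1 ∧
    ∀ (τ : Ty) (y : Pt) (t : ℝ), τ2 ≤ t → Good δ τ y → GoodAt δ τ y t → ∀ (a : V) (m M : ℝ),
    Bnd τ y.2 a m M → ∃ m' M', m ≤ m' ∧ M' ≤ M ∧ M' - m' ≤ κ * (M - m) ∧ BndAt τ y t a m' M' := by
  have h4 : δ ^ 4 ≤ 1 := pow_le_one₀ hδ.le h1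
  have h5 : 0 < δ ^ 4 := by positivity
  refine ⟨26 / δ ^ 4, 1 - δ ^ 4 / 48, by positivity, by linarith, by linarith,
    fun τ y t ht hy hg a m M hb => ?_⟩
  have hh := hy.2
  have hmM : 0 ≤ M - m := by
    have a1 := hb true 0
    have a2 := (hh true 0).1
    have : m ≤ M := le_of_mul_le_mul_right (a1.1.trans a1.2) (by linarith)
    linarith
  have hp : BndAt τ y t a m M := hb.path y.1 _
  have hg0 : 0 ≤ (M - m) * (δ ^ 4 / 48) := by positivity
  obtain ⟨f, hf, hd⟩ := dom_f (τ := τ) (b := a - m • y.2) (b' := M • y.2 - a)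
    (κ := (M - m) * δ / 4) (by positivity)
    (fun c i => by rw [ev_sub, ev_smul]; linarith [(hb c i).1])
    (fun c i => by rw [ev_sub, ev_smul]; linarith [(hb c i).2])
    (fun c i => by
      simp only [ev_add, ev_sub, ev_smul]
      have := mul_le_mul_of_nonneg_left (hh c i).1 hmM
      linarith)
  have hk : ∀ c i, (M - m) * (δ ^ 4 / 48) * ev (ed (St τ y t).1 c i) (ac (St τ y t).2 y.2) ≤
      (M - m) * δ / 4 * ev (ed (St τ y t).1 c i) (ac (St τ y t).2 f) := fun c i => by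
    have := mul_le_mul_of_nonneg_left (p1_freq hδ h1 ht hy hg hf c i)
      (show 0 ≤ (M - m) * δ / 4 by positivity)
    linarith
  rcases hd with hd | hd
  · refine ⟨m + (M - m) * (δ ^ 4 / 48), M, by linarith, le_rfl, by linarith,
      fun c i => ⟨?_, (hp c i).2⟩⟩
    have a1 : 0 ≤ ev (ed (St τ y t).1 c i)
        (ac (St τ y t).2 (a - m • y.2 - ((M - m) * δ / 4) • f)) := path_nonneg hd y.1 _ c i
    simp only [ac_sub, ac_smul, ev_sub, ev_smul] at a1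
    linarith [hk c i]
  · refine ⟨m, M - (M - m) * (δ ^ 4 / 48), le_rfl, by linarith, by linarith,
      fun c i => ⟨(hp c i).1, ?_⟩⟩
    have a1 : 0 ≤ ev (ed (St τ y t).1 c i)
        (ac (St τ y t).2 (M • y.2 - a - ((M - m) * δ / 4) • f)) := path_nonneg hd y.1 _ c i
    simp only [ac_sub, ac_smul, ev_sub, ev_smul] at a1
    linarith [hk c i]

private theorem p1_bnd_smul {τ : Ty} {η a : V} {m M c : ℝ} (hc : 0 < c) :
    Bnd τ (c • η) (c • a) m M ↔ Bnd τ η a m M := by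
  refine forall_congr' fun b => forall_congr' fun i => ?_
  rw [ev_smul, ev_smul, mul_left_comm m, mul_left_comm M, mul_le_mul_iff_right₀ hc,
    mul_le_mul_iff_right₀ hc]

open Classical in
private theorem p1_count (G : ℕ → Prop) (J : ℕ) :
    J ≤ ((Finset.range J).filter fun j => G j ∧ G (j + 1)).card +
      2 * ((Finset.range (J + 1)).filter fun j => ¬ G j).card := by
  have h1 : ((Finset.range J).filter fun j => ¬ G j).card ≤
      ((Finset.range (J + 1)).filter fun j => ¬ G j).card :=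
    Finset.card_le_card (Finset.filter_subset_filter _ (Finset.range_subset_range.2 (by omega)))
  have h2 : ((Finset.range J).filter fun j => ¬ G (j + 1)).card ≤
      ((Finset.range (J + 1)).filter fun j => ¬ G j).card := by
    refine Finset.card_le_card_of_injOn (fun j => j + 1) (fun j hj => ?_)
      (fun j _ k _ h => by simpa using h)
    simp only [Finset.coe_filter, Finset.mem_range, Set.mem_ofPred_eq] at hj ⊢
    exact ⟨by omega, hj.2⟩
  have h3 : Finset.range J ⊆ ((Finset.range J).filter fun j => G j ∧ G (j + 1)) ∪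
      ((Finset.range J).filter fun j => ¬ G j) ∪ ((Finset.range J).filter fun j => ¬ G (j + 1)) := by
    intro j hj
    simp only [Finset.mem_union, Finset.mem_filter, hj, true_and]
    tauto
  have h4 := (Finset.card_le_card h3).trans ((Finset.card_union_le _ _).trans
    (Nat.add_le_add_right (Finset.card_union_le _ _) _))
  rw [Finset.card_range] at h4
  omega

open Classical in
/-- If few of the times `t + j τ2` are bad, many consecutive pairs are good. -/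
theorem gap_det {δ : ℝ} (hδ : 0 < δ) (h1 : δ ≤ 1) : ∃ τ2 c : ℝ, 0 < τ2 ∧ 0 < c ∧
    ∀ (τ : Ty) (y : Pt) (t : ℝ) (J : ℕ), 10 ≤ J → Base τ y t →
    10 * ((Finset.range (J + 1)).filter fun j : ℕ => ¬ GoodAt δ τ y (t + j * τ2)).card ≤ J →
    ∀ (a : V) (m M : ℝ), BndAt τ y t a m M → ∃ m' M', m ≤ m' ∧ M' ≤ M ∧
      M' - m' ≤ Real.exp (-c * J) * (M - m) ∧ BndAt τ y (t + J * τ2) a m' M' := by
  obtain ⟨τ2, κ, hτ, hκ0, hκ1, H⟩ := contr hδ h1
  have hlog : Real.log κ < 0 := Real.log_neg hκ0 hκ1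
  refine ⟨τ2, -Real.log κ / 2, hτ, by linarith, fun τ y t J _ hB hbad a m M hb => ?_⟩
  have hmM : 0 ≤ M - m := by
    have a1 := hb false 0
    have a2 : 0 < ev (ed (St τ y t).1 false 0) (ac (St τ y t).2 y.2) :=
      (path_hv hB.2.1 y.1 _ 0).2
    have : m ≤ M := le_of_mul_le_mul_right (a1.1.trans a1.2) a2
    linarith
  have key : ∀ j : ℕ, ∃ m' M', m ≤ m' ∧ M' ≤ M ∧
      M' - m' ≤ κ ^ ((Finset.range j).filter fun i : ℕ => GoodAt δ τ y (t + i * τ2) ∧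
        GoodAt δ τ y (t + (i + 1 : ℕ) * τ2)).card * (M - m) ∧ BndAt τ y (t + j * τ2) a m' M' := by
    intro j
    induction j with
    | zero => exact ⟨m, M, le_rfl, le_rfl, by simp, by simpa using hb⟩
    | succ j ih =>
      obtain ⟨m1, M1, a1, a2, a3, a4⟩ := ih
      have hj : t ≤ t + j * τ2 := le_add_of_nonneg_right (by positivity)
      have hBj : Base τ y (t + j * τ2) := hB.mono hj
      have hle : t + j * τ2 ≤ t + (j + 1 : ℕ) * τ2 := by push_cast; linarith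
      have hsub : t + (j + 1 : ℕ) * τ2 - (t + j * τ2) = τ2 := by push_cast; ring
      rw [Finset.range_add_one, Finset.filter_insert]
      split_ifs with hG
      · rw [Finset.card_insert_of_notMem (by simp), pow_succ]
        have g2 := (goodAt_add hBj hle).1 hG.2
        rw [hsub] at g2
        obtain ⟨m2, M2, b1, b2, b3, b4⟩ := H _ _ τ2 le_rfl hG.1.2 g2
          (Real.exp (-(t + j * τ2)) • ac (St τ y (t + j * τ2)).2 a) m1 M1
          ((p1_bnd_smul (Real.exp_pos _)).2 a4)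
        refine ⟨m2, M2, a1.trans b1, b2.trans a2, ?_, ?_⟩
        · have := mul_le_mul_of_nonneg_left a3 hκ0.le
          linarith
        · have s1 := (St_add hBj hle).1
          rw [hsub] at s1
          unfold BndAt at b4 ⊢
          rw [s1]
          rw [show (nst τ y (t + j * τ2)).2 =
            Real.exp (-(t + j * τ2)) • ac (St τ y (t + j * τ2)).2 y.2 from rfl, ac_smul, ac_smul,
            p1_bnd_smul (Real.exp_pos _)] at b4
          simpa only [ac_mul] using b4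
      · exact ⟨m1, M1, a1, a2, a3, a4.mono hBj hle⟩
  obtain ⟨m', M', a1, a2, a3, a4⟩ := key J
  refine ⟨m', M', a1, a2, a3.trans (mul_le_mul_of_nonneg_right ?_ hmM), a4⟩
  have hc := p1_count (fun j : ℕ => GoodAt δ τ y (t + j * τ2)) J
  generalize ((Finset.range J).filter fun i : ℕ => GoodAt δ τ y (t + i * τ2) ∧
    GoodAt δ τ y (t + (i + 1 : ℕ) * τ2)).card = g at hc ⊢
  have hg : J ≤ 2 * g := by omega
  have hg' : (J : ℝ) ≤ 2 * g := by exact_mod_cast hg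
  rw [← Real.exp_log hκ0, ← Real.exp_nat_mul, Real.log_exp, Real.exp_le_exp]
  nlinarith

open Classical in
/-- Markov inequality for the number of bad indices. -/
theorem count_bad {Z : Type} [MeasurableSpace Z] (ν : Measure Z) (X : ℕ → Set Z)
    (hX : ∀ j, MeasurableSet (X j)) (J k : ℕ) (β : ℝ≥0∞) (h : ∀ j < J, ν (X j) ≤ β) :
    k * ν {z | k ≤ ((Finset.range J).filter fun j => z ∈ X j).card} ≤ J * β := by
  have hm : Measurable fun z => ∑ j ∈ Finset.range J, (X j).indicator (1 : Z → ℝ≥0∞) z :=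
    Finset.measurable_sum _ fun j _ => measurable_one.indicator (hX j)
  have e : {z | k ≤ ((Finset.range J).filter fun j => z ∈ X j).card} =
      {z | (k : ℝ≥0∞) ≤ ∑ j ∈ Finset.range J, (X j).indicator (1 : Z → ℝ≥0∞) z} := by
    ext z
    have : ∑ j ∈ Finset.range J, (X j).indicator (1 : Z → ℝ≥0∞) z =
        (((Finset.range J).filter fun j => z ∈ X j).card : ℝ≥0∞) := by
      simp [Set.indicator_apply]
    simp only [Set.mem_ofPred_eq, this, Nat.cast_le]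
  rw [e]
  refine (mul_meas_ge_le_lintegral₀ hm.aemeasurable _).trans ?_
  rw [lintegral_finsetSum _ fun j _ => measurable_one.indicator (hX j)]
  calc _ ≤ ∑ _j ∈ Finset.range J, β := Finset.sum_le_sum fun j hj => by
        rw [lintegral_indicator_one (hX j)]
        exact h j (Finset.mem_range.1 hj)
    _ = _ := by simp

end Pool.Agent.TW
end

-- part Pool.Agent.Lib.MP_4eaecc_an.XO3a
section

/-! Thickening the hyperplane; mass and number of atoms. -/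

namespace Pool.Agent.TW.G

open Matrix MeasureTheory Filter Topology
open scoped ENNReal NNReal

theorem o3a_Om (w : Par) (a : V) : Om w.v0 a = w.b * a 0 - w.a * a 1 := by
  simp [Om, Par.v0]
  ring

theorem o3a_back (w : Par) {P : Mat} (hP : Symp P) (g : V) :
    Om (ac P w.v0) g = Om w.v0 (ac (sinv P) g) := by
  rw [← hP.Om_ac w.v0, ← ac_mul, hP.mul_sinv, ac_one]

theorem o3a_E (w : Par) {P : Mat} (hP : Symp P) (z : Fin 3 → ℝ) :
    Om (ac P w.v0) (ac P (w.E z)) = 0 := by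
  rw [hP.Om_ac, Om_swap, w.Om_E, neg_zero]

/-- The identification of `ℝ³ × ℝ` with `ℝ⁴` keeps the volume of every set. -/
theorem o3a_cons (S : Set ((Fin 3 → ℝ) × ℝ)) :
    volume ((fun q : (Fin 3 → ℝ) × ℝ => (Fin.cons q.2 q.1 : V)) '' S) = volume S := by
  let e : V ≃ᵐ (Fin 3 → ℝ) × ℝ :=
    (MeasurableEquiv.piFinSuccAbove (fun _ : Fin 4 => ℝ) 0).trans MeasurableEquiv.prodComm
  have he : MeasurePreserving e volume volume :=
    (Measure.measurePreserving_swap (μ := (volume : Measure ℝ))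
      (ν := (volume : Measure (Fin 3 → ℝ)))).comp
      (volume_preserving_piFinSuccAbove (fun _ : Fin 4 => ℝ) 0)
  rw [← he.measure_preimage_equiv S]
  congr 1
  ext x
  constructor
  · rintro ⟨q, hq, rfl⟩
    exact hq
  · intro hx
    exact ⟨e x, hx, Fin.cons_self_tail x⟩

/-- The linear map `(z, s) ↦ e^j P E z + s g` has determinant `± e^{3j} N`. -/
theorem theta_vol (w : Par) {P : Mat} (hP : Symp P) (j : ℝ) {g : V} {N : ℝ} (hN : 0 < N)
    (hg : Om (ac P w.v0) g = N) (S : Set ((Fin 3 → ℝ) × ℝ)) :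
    volume ((fun q : (Fin 3 → ℝ) × ℝ => Real.exp j • ac P (w.E q.1) + q.2 • g) '' S) =
      ENNReal.ofReal (Real.exp (3 * j) * N) * volume S := by
  let A : Matrix (Fin 4) (Fin 4) ℝ :=
    !![ac (sinv P) g 0, Real.exp j * w.a, 0, 0; ac (sinv P) g 1, Real.exp j * w.b, 0, 0;
      ac (sinv P) g 2, 0, Real.exp j, 0; ac (sinv P) g 3, 0, 0, Real.exp j]
  have hA : A.det = Real.exp (3 * j) * N := by
    have e3 : Real.exp (3 * j) = Real.exp j ^ 3 := by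
      rw [← Real.exp_nat_mul]; norm_num
    rw [← hg, o3a_back w hP, o3a_Om, e3]
    simp [A, Matrix.det_succ_row_zero, Fin.sum_univ_succ, Fin.succAbove]
    ring
  have h1 : |(P.map (Int.castRingHom ℝ)).det| = 1 := by
    rw [← RingHom.mapMatrix_apply, ← RingHom.map_det]
    rcases Int.isUnit_iff.1 (isUnit_det_of_right_inverse hP.mul_sinv) with e | e <;> simp [e]
  have h2 : (fun q : (Fin 3 → ℝ) × ℝ => Real.exp j • ac P (w.E q.1) + q.2 • g) =
      Matrix.toLin' (P.map (Int.castRingHom ℝ) * A) ∘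
        fun q : (Fin 3 → ℝ) × ℝ => (Fin.cons q.2 q.1 : V) := by
    funext q
    have h3 : A *ᵥ (Fin.cons q.2 q.1 : V) = Real.exp j • w.E q.1 + q.2 • ac (sinv P) g := by
      funext i
      fin_cases i <;> simp [A, Par.E, mulVec, dotProduct, Fin.sum_univ_succ] <;> ring
    rw [Function.comp_apply, Matrix.toLin'_apply, ← mulVec_mulVec, ← r1_ac, h3, ac_add, ac_smul,
      ac_smul, ← ac_mul, hP.mul_sinv, ac_one]
  rw [h2, Set.image_comp, Measure.addHaar_image_linearMap, o3a_cons, LinearMap.det_toLin',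
    det_mul, abs_mul, h1, one_mul, hA,
    abs_of_pos (mul_pos (Real.exp_pos _) hN)]

theorem theta_surj (w : Par) {P : Mat} (hP : Symp P) (j : ℝ) {g : V} {N : ℝ} (hN : 0 < N)
    (hg : Om (ac P w.v0) g = N) (ξ : V) :
    ∃ z, ξ = Real.exp j • ac P (w.E z) + (Om (ac P w.v0) ξ / N) • g := by
  set u := ac (sinv P) (ξ - (Om (ac P w.v0) ξ / N) • g) with hu
  have h0 : w.b * u 0 - w.a * u 1 = 0 := by
    rw [← o3a_Om, hu, ← o3a_back w hP, Om_sub, Om_smul, hg, div_mul_cancel₀ _ hN.ne', sub_self]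
  have hp := w.a0.ne'
  have he := (Real.exp_pos j).ne'
  refine ⟨![u 0 / (w.a * Real.exp j), u 2 / Real.exp j, u 3 / Real.exp j], ?_⟩
  have h1 : Real.exp j • w.E ![u 0 / (w.a * Real.exp j), u 2 / Real.exp j, u 3 / Real.exp j] =
      u := by
    funext i
    fin_cases i <;> simp [Par.E] <;> field_simp
    linarith
  rw [← ac_smul, h1, hu, ← ac_mul, hP.mul_sinv, ac_one, sub_add_cancel]

theorem thick (w : Par) {P : Mat} (hP : Symp P) (j : ℝ) {g : V} {N ρ : ℝ} (hN : 0 < N) (hρ : 0 < ρ)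
    (hg : Om (ac P w.v0) g = N) {X : Set (Fin 3 → ℝ)} {Y : Set V} (hY : MeasurableSet Y)
    (h : ∀ z ∈ X, ∀ s : ℝ, |s| ≤ ρ → Real.exp j • ac P (w.E z) + s • g ∈ Y) :
    volume X ≤ ENNReal.ofReal (Real.exp (-3 * j) / N) *
      ∫⁻ ξ in Y, ENNReal.ofReal (ker ρ (Om (ac P w.v0) ξ / N)) := by
  have hm : MeasurableSet {ξ : V | |Om (ac P w.v0) ξ / N| ≤ ρ} := by
    refine (isClosed_le ?_ continuous_const).measurableSet
    unfold Om
    fun_prop
  have hk : 0 < Real.exp (3 * j) * N := mul_pos (Real.exp_pos _) hN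
  have h1 : (fun q : (Fin 3 → ℝ) × ℝ => Real.exp j • ac P (w.E q.1) + q.2 • g) ''
      (X ×ˢ Set.Icc (-ρ) ρ) ⊆ Y ∩ {ξ : V | |Om (ac P w.v0) ξ / N| ≤ ρ} := by
    rintro _ ⟨⟨z, s⟩, ⟨hz, hs⟩, rfl⟩
    refine ⟨h z hz s (abs_le.2 hs), ?_⟩
    simp only [Set.mem_ofPred_eq]
    rw [Om_add, Om_smul, Om_smul, o3a_E w hP, hg, mul_zero, zero_add, mul_div_cancel_right₀ _ hN.ne']
    exact abs_le.2 hs
  have h2 := measure_mono (μ := volume) h1
  rw [theta_vol w hP j hN hg, Measure.volume_eq_prod, Measure.prod_prod, Real.volume_Icc] at h2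
  have h3 : ENNReal.ofReal (1 / (2 * ρ)) *
      volume (Y ∩ {ξ : V | |Om (ac P w.v0) ξ / N| ≤ ρ}) ≤
      ∫⁻ ξ in Y, ENNReal.ofReal (ker ρ (Om (ac P w.v0) ξ / N)) := by
    rw [← setLIntegral_const]
    refine le_trans (setLIntegral_mono' (hY.inter hm) fun ξ hξ => ENNReal.ofReal_le_ofReal ?_)
      (lintegral_mono_set Set.inter_subset_left)
    have h4 : (Om (ac P w.v0) ξ / N) ^ 2 ≤ ρ ^ 2 := sq_le_sq' (abs_le.1 hξ.2).1 (abs_le.1 hξ.2).2
    have h5 : -(1 / 2 : ℝ) ≤ -(Om (ac P w.v0) ξ / N) ^ 2 / (2 * ρ ^ 2) := by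
      rw [le_div_iff₀ (by positivity)]
      linarith
    have h6 := Real.add_one_le_exp (-(Om (ac P w.v0) ξ / N) ^ 2 / (2 * ρ ^ 2))
    rw [ker, ← div_div]
    exact div_le_div_of_nonneg_right (by linarith) hρ.le
  refine le_trans (le_of_eq ?_) (mul_le_mul_right ((mul_le_mul_right h2 _).trans h3) _)
  have e : Real.exp (-3 * j) / N * (1 / (2 * ρ) * (Real.exp (3 * j) * N *
      (ρ - -ρ))) = 1 := by
    have he := (Real.exp_pos (3 * j)).ne'
    rw [neg_mul, Real.exp_neg]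
    field_simp
    ring
  have e' := congrArg ENNReal.ofReal e
  rw [ENNReal.ofReal_mul (div_pos (Real.exp_pos _) hN).le,
    ENNReal.ofReal_mul (by positivity), ENNReal.ofReal_mul hk.le, ENNReal.ofReal_one] at e'
  rw [mul_comm (volume X), ← mul_assoc (ENNReal.ofReal (Real.exp (3 * j) * N)),
    ← mul_assoc (ENNReal.ofReal (1 / (2 * ρ))), ← mul_assoc, e', one_mul]

end Pool.Agent.TW.G
end

-- part Pool.Agent.Lib.MP_4eaecc_an.XO3
section

/-! Thickening the hyperplane; mass and number of atoms. -/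

namespace Pool.Agent.TW.G

open Matrix MeasureTheory Filter Topology
open scoped ENNReal NNReal

/-- `q` is the state at time `t` of a good point of the family. -/
def Atom (w : Par) (R δ t : ℝ) (q : Ty × Mat) : Prop :=
  ∃ z ∈ ZR R, GoodAt δ .L (w.y z) t ∧ St .L (w.y z) t = q

theorem o3_pos {a : V} (h : ∀ j, 0 ≤ a j) (b : Bool) (i : Fin 3) : 0 ≤ ev (ed .L b i) a := by
  cases b <;> fin_cases i <;> simp [ed, eR, eL, ev_four, h]

theorem atom_mb (w : Par) (R : ℝ) {δ : ℝ} (hδ : 0 < δ) : ∃ C : ℝ, 0 < C ∧ ∀ t q, 0 ≤ t →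
    Atom w R δ t q → Mb q.2 (C * Real.exp t) := by
  have h1 := w.h10
  have h2 := w.h20
  obtain ⟨M, M0, M1, M2⟩ : ∃ M : ℝ, 0 < M ∧ |R| + 1 ≤ M * w.h1 ∧ |R| + 1 ≤ M * w.h2 := by
    refine ⟨(|R| + 1) / w.h1 + (|R| + 1) / w.h2, by positivity, ?_, ?_⟩
    · rw [add_mul, div_mul_cancel₀ _ h1.ne']
      exact le_add_of_nonneg_right (by positivity)
    · rw [add_mul, div_mul_cancel₀ _ h2.ne']
      exact le_add_of_nonneg_left (by positivity)
  obtain ⟨m, m0, m1, m2, m3⟩ : ∃ m : ℝ, 0 < m ∧ m ≤ w.a ∧ m ≤ w.b ∧ m ≤ 1 :=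
    ⟨min w.a (min w.b 1), lt_min w.a0 (lt_min w.b0 one_pos), min_le_left _ _,
      (min_le_right _ _).trans (min_le_left _ _), (min_le_right _ _).trans (min_le_right _ _)⟩
  refine ⟨2 * ((4 / δ + M) / m), by positivity, ?_⟩
  rintro t _ ht ⟨z, ⟨z1, z2, -⟩, ⟨hb, ⟨σ, hg⟩, -⟩, rfl⟩ i j
  have z3 : ∀ k, -|R| ≤ z k := fun k =>
    (abs_le.1 (((norm_le_pi_norm z k).trans z1).trans (le_abs_self R))).1
  have e1 : 1 ≤ Real.exp t := Real.one_le_exp ht
  have a1 : ∀ k, m ≤ (w.E z + M • w.eta) k := fun k => by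
    fin_cases k <;> simp [Par.E, Par.eta] <;> nlinarith [z3 1, z3 2, w.a0, w.b0]
  have a2 : ∀ k, 0 ≤ (Pi.single j 1 : V) k ∧ (Pi.single j 1 : V) k ≤ 1 := fun k => by
    rw [Pi.single_apply]
    split_ifs <;> norm_num
  have a3 : ‖ac (St .L (w.y z) t).2 (w.E z)‖ ≤ 2 / δ * Real.exp t := by
    have := hg.norm hδ
    rw [nst, gt, acP, norm_smul, Real.norm_of_nonneg (Real.exp_pos t).le] at this
    exact ((le_mul_of_one_le_left (norm_nonneg _) e1).trans this).trans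
      (le_mul_of_one_le_right (by positivity) e1)
  have a4 := norm_le_edges (τ := (St .L (w.y z) t).1) (a := ac (St .L (w.y z) t).2 (Pi.single j 1))
    (K := (4 / δ + M) / m * Real.exp t) fun b k => by
      have k1 := path_nonneg (o3_pos fun l => (a2 l).1) (w.E z) (stage .L (w.y z) (Real.exp t)) b k
      have k2 := path_nonneg (a := w.E z + M • w.eta - m • Pi.single j 1) (o3_pos fun l =>
        sub_nonneg.2 ((mul_le_of_le_one_right m0.le (a2 l).2).trans (a1 l))) (w.E z)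
        (stage .L (w.y z) (Real.exp t)) b k
      rw [ac_sub, ac_add, ac_smul, ac_smul, ev_sub, ev_add, ev_smul, ev_smul] at k2
      have k3 := mul_le_mul_of_nonneg_left (hb.low b k) M0.le
      have k4 := (le_abs_self _).trans ((abs_ed_le (St .L (w.y z) t).1 b k _).trans
        (mul_le_mul_of_nonneg_left a3 zero_le_two))
      refine (abs_of_nonneg k1).trans_le ?_
      rw [div_mul_eq_mul_div, le_div_iff₀ m0, mul_comm _ m]
      exact (sub_nonneg.1 k2).trans ((add_le_add k4 k3).trans_eq (by ring))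
  refine le_trans (le_of_eq ?_) (((norm_le_pi_norm _ i).trans a4).trans_eq (by ring))
  simp [ac, ev, Pi.single_apply]

theorem atom_finite (w : Par) (R : ℝ) {δ : ℝ} (hδ : 0 < δ) {t : ℝ} (ht : 0 ≤ t) :
    {q | Atom w R δ t q}.Finite := by
  obtain ⟨C, -, h⟩ := atom_mb w R hδ
  exact (Set.finite_univ.prod (finite_mb (C * Real.exp t))).subset fun q hq =>
    ⟨trivial, h t q ht hq⟩

theorem o3_E (w : Par) (z : Fin 3 → ℝ) :
    ‖w.E z‖ ≤ (w.a + w.b + 1) * ‖z‖ ∧ ‖z‖ ≤ (w.a⁻¹ + 1) * ‖w.E z‖ := by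
  have ha := w.a0
  have hb := w.b0
  have h1 := norm_le_pi_norm z
  have h2 := norm_le_pi_norm (w.E z)
  have h3 := norm_nonneg z
  have h4 := norm_nonneg (w.E z)
  constructor <;> refine (pi_norm_le_iff_of_nonneg (by positivity)).2 fun i => ?_
  · simp only [Real.norm_eq_abs] at h1
    fin_cases i <;> simp [Par.E, abs_of_pos ha, abs_of_pos hb] <;> nlinarith [h1 0, h1 1, h1 2]
  · have k0 := h2 0
    have k1 := h2 2
    have k2 := h2 3
    have k3 : 0 ≤ w.a⁻¹ * ‖w.E z‖ := by positivity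
    simp only [Par.E, cons_val_zero, norm_mul, Real.norm_of_nonneg ha.le, cons_val] at k0 k1 k2
    rw [← le_inv_mul_iff₀ ha] at k0
    rw [add_one_mul]
    fin_cases i
    · exact k0.trans (le_add_of_nonneg_right h4)
    · exact k1.trans (le_add_of_nonneg_left k3)
    · exact k2.trans (le_add_of_nonneg_left k3)

theorem o3_one (w : Par) (R : ℝ) {δ : ℝ} (hδ : 0 < δ) (h1 : δ ≤ 1) : ∃ K R' : ℝ, 0 ≤ K ∧ 0 ≤ R' ∧
    ∀ t q, Atom w R δ t q → ENNReal.ofReal (Real.exp (-3 * t) / ‖ac q.2 w.v0‖) ≤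
      ENNReal.ofReal K * volume {z | St .L (w.y z) t = q ∧ ‖z‖ ≤ R'} := by
  have ha := w.a0
  have hb := w.b0
  obtain ⟨r, hr⟩ : ∃ r, r = δ / 78 := ⟨_, rfl⟩
  have r0 : 0 < r := by rw [hr]; positivity
  refine ⟨12 * r / (2 * r) ^ 4, (w.a⁻¹ + 1) * (4 / (δ / 2 * δ) * ((w.a + w.b + 1) * |R|)),
    by positivity, by positivity, ?_⟩
  rintro t _ ⟨z, ⟨z1, -⟩, ⟨hB, ⟨σ, hg⟩, -⟩, rfl⟩
  have hP := St_symp .L (w.y z) t
  have hN : 0 < ‖ac (St .L (w.y z) t).2 w.v0‖ := w.lev_pos z t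
  obtain ⟨g, g1, g2⟩ := exists_dual (ac (St .L (w.y z) t).2 w.v0)
  have h2 : Om (ac (St .L (w.y z) t).2 w.v0) (nst .L (w.y z) t).1 = 0 := by
    rw [nst, gt, acP, Om_smul, hP.Om_ac, Om_swap, Par.y, w.Om_E, neg_zero, mul_zero]
  have key := theta_vol w hP t hN g2 ({x | St .L (w.y x) t = St .L (w.y z) t ∧
    ‖x‖ ≤ (w.a⁻¹ + 1) * (4 / (δ / 2 * δ) * ((w.a + w.b + 1) * |R|))} ×ˢ Set.Icc (-(6 * r)) (6 * r))
  have h3 := (measure_mono (s := Metric.closedBall (nst .L (w.y z) t).1 r) fun ξ hξ => by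
    obtain ⟨x, hx⟩ := theta_surj w hP t hN g2 ξ
    rw [mem_closedBall_iff_norm] at hξ
    have k1 : |Om (ac (St .L (w.y z) t).2 w.v0) ξ / ‖ac (St .L (w.y z) t).2 w.v0‖| ≤
        6 * r := by
      rw [abs_div, abs_of_pos hN, div_le_iff₀ hN, ← sub_zero (Om _ ξ), ← h2, ← Om_sub]
      exact (abs_Om_le _ _).trans ((mul_le_mul_of_nonneg_left hξ (by positivity)).trans_eq
        (by ring))
    generalize Om _ ξ / _ = s at hx k1
    have k2 := hg.near hδ h1 (ζ := Real.exp t • ac (St .L (w.y z) t).2 (w.E x)) (by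
      rw [← sub_eq_iff_eq_add.2 hx, sub_right_comm]
      refine (norm_sub_le _ _).trans ?_
      rw [norm_smul, Real.norm_eq_abs]
      linarith [mul_le_mul k1 g1 (norm_nonneg _) (by positivity)])
    have k3 := (k2.sg (half_pos hδ)).smul (Real.exp_pos (-t))
    rw [smul_smul, ← Real.exp_add, neg_add_cancel, Real.exp_zero, one_smul,
      ← g5a_sg (hg.sg hδ)] at k3
    refine ⟨(x, s), ⟨⟨(St_markov hB k3).1, (o3_E w x).2.trans (mul_le_mul_of_nonneg_left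
      ((back_norm hB.act.2.1 (half_pos hδ) hδ (Real.exp_pos t) k2 hg).trans
        (mul_le_mul_of_nonneg_left ((o3_E w z).1.trans (mul_le_mul_of_nonneg_left
          (z1.trans (le_abs_self R)) (by positivity))) (by positivity))) (by positivity))⟩,
      abs_le.1 k1⟩, hx.symm⟩).trans_eq key
  rw [Real.volume_pi_closedBall _ r0.le, Fintype.card_fin, Measure.volume_eq_prod,
    Measure.prod_prod, Real.volume_Icc, mul_comm (volume _), ← mul_assoc,
    ← ENNReal.ofReal_mul (by positivity)] at h3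
  generalize ‖ac (St .L (w.y z) t).2 w.v0‖ = N at hN h3 ⊢
  have h4 := mul_le_mul_right h3 (ENNReal.ofReal (Real.exp (-3 * t) / N / (2 * r) ^ 4))
  rw [← mul_assoc, ← ENNReal.ofReal_mul (by positivity), ← ENNReal.ofReal_mul (by positivity),
    div_mul_cancel₀ _ (by positivity)] at h4
  convert h4 using 3
  rw [neg_mul, Real.exp_neg]
  field_simp
  ring

/-- Each atom contains a fat piece, the pieces are disjoint and stay in a bounded set. -/
theorem fat (w : Par) (R : ℝ) {δ : ℝ} (hδ : 0 < δ) (h1 : δ ≤ 1) : ∃ C : ℝ, 0 < C ∧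
    ∀ (t : ℝ) (s : Finset (Ty × Mat)), (∀ q ∈ s, Atom w R δ t q) →
    ∑ q ∈ s, Real.exp (-3 * t) / ‖ac q.2 w.v0‖ ≤ C := by
  obtain ⟨K, R', K0, R0, h⟩ := o3_one w R hδ h1
  refine ⟨K * (2 * R') ^ 3 + 1, by positivity, fun t s hs => ?_⟩
  refine le_trans ((ENNReal.ofReal_le_ofReal_iff (by positivity)).1 ?_) (le_add_of_nonneg_right
    zero_le_one)
  rw [ENNReal.ofReal_sum_of_nonneg fun _ _ => by positivity]
  refine (Finset.sum_le_sum fun q hq => h t q (hs q hq)).trans ?_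
  rw [← Finset.mul_sum, ← measure_biUnion_finset
    (f := fun q => {z | St .L (w.y z) t = q ∧ ‖z‖ ≤ R'}) (fun q _ q' _ e => Set.disjoint_left.2
    fun z k k' => e (k.1.symm.trans k'.1)) fun q _ => ((continuous_y w).measurable
      (meas_St .L t q)).inter (measurableSet_le measurable_norm measurable_const),
    ENNReal.ofReal_mul K0]
  refine mul_le_mul_right ((measure_mono (t := Metric.closedBall 0 R') ?_).trans_eq ?_) _
  · exact Set.iUnion₂_subset fun q _ z hz => mem_closedBall_zero_iff.2 hz.2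
  · rw [Real.volume_pi_closedBall _ R0, Fintype.card_fin]

end Pool.Agent.TW.G
end

-- part Pool.Agent.Lib.MP_4eaecc_an.XO1
section

/-! Gaussian integrals. -/

namespace Pool.Agent.TW.G

open Matrix MeasureTheory Filter Topology
open scoped ENNReal NNReal

/-- The linear form `Om v · / N` as a vector. -/
noncomputable def fv (v : V) (N : ℝ) : V :=
  ![(-v 2 - v 3) / N, -v 2 / N, (v 0 + v 1) / N, v 0 / N]

theorem o1_fv (v : V) (N : ℝ) :
    fv v N = ![(-v 2 - v 3) / N, -v 2 / N, (v 0 + v 1) / N, v 0 / N] := rfl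

theorem fv_dot (v : V) (N : ℝ) (ξ : V) : fv v N ⬝ᵥ ξ = Om v ξ / N := by
  rw [o1_fv]
  simp [dotProduct, Fin.sum_univ_four, Om]
  ring

/-- The vector recovered from its linear form. -/
def o1u (a : V) : V := ![a 3, a 2 - a 3, -a 1, a 1 - a 0]

theorem o1_u (v : V) {N : ℝ} (hN : 0 < N) (i : Fin 4) : v i = N * o1u (fv v N) i := by
  rw [o1_fv]
  fin_cases i <;> simp [o1u] <;> field_simp <;> ring

theorem o1_low (v : V) {N : ℝ} (hN : 0 < N) (h : N ≤ ‖v‖) : 1 / 4 ≤ fv v N ⬝ᵥ fv v N := by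
  by_contra k
  rw [not_le, dotProduct, Fin.sum_univ_four] at k
  have s0 := mul_self_nonneg (fv v N 0)
  have s1 := mul_self_nonneg (fv v N 1)
  have s2 := mul_self_nonneg (fv v N 2)
  have s3 := mul_self_nonneg (fv v N 3)
  have b0 : |fv v N 0| < 1 / 2 := abs_lt_of_sq_lt_sq' (by nlinarith) (by norm_num) |> abs_lt.2
  have b1 : |fv v N 1| < 1 / 2 := abs_lt_of_sq_lt_sq' (by nlinarith) (by norm_num) |> abs_lt.2
  have b2 : |fv v N 2| < 1 / 2 := abs_lt_of_sq_lt_sq' (by nlinarith) (by norm_num) |> abs_lt.2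
  have b3 : |fv v N 3| < 1 / 2 := abs_lt_of_sq_lt_sq' (by nlinarith) (by norm_num) |> abs_lt.2
  rw [abs_lt] at b0 b1 b2 b3
  have u : ∀ i, |o1u (fv v N) i| < 1 := by
    intro i
    rw [abs_lt]
    fin_cases i <;> simp [o1u] <;> constructor <;> linarith
  refine absurd h (not_le.2 ((pi_norm_lt_iff hN).2 fun i => ?_))
  rw [Real.norm_eq_abs, o1_u v hN, abs_mul, abs_of_pos hN]
  exact mul_lt_of_lt_one_right hN (u i)

theorem o1_up (v : V) {N : ℝ} (hN : 0 < N) (h : ‖v‖ ≤ 3 * N) : fv v N ⬝ᵥ fv v N ≤ 144 := by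
  have a : ∀ i, |v i| ≤ 3 * N := fun i => (norm_le_pi_norm v i).trans h
  have a0 := abs_le.1 (a 0)
  have a1 := abs_le.1 (a 1)
  have a2 := abs_le.1 (a 2)
  have a3 := abs_le.1 (a 3)
  have k : ∀ x : ℝ, -(6 * N) ≤ x → x ≤ 6 * N → x / N * (x / N) ≤ 36 := by
    intro x h1 h2
    rw [div_mul_div_comm, div_le_iff₀ (by positivity)]
    nlinarith
  rw [o1_fv, dotProduct, Fin.sum_univ_four]
  have k0 := k (-v 2 - v 3) (by linarith) (by linarith)
  have k1 := k (-v 2) (by linarith) (by linarith)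
  have k2 := k (v 0 + v 1) (by linarith) (by linarith)
  have k3 := k (v 0) (by linarith) (by linarith)
  simp only [Matrix.cons_val_zero, Matrix.cons_val_one, Matrix.cons_val]
  linarith

theorem o1_lag (a b : V) : 2 * ((a ⬝ᵥ a) * (b ⬝ᵥ b) - (a ⬝ᵥ b) ^ 2) =
    ∑ p : Fin 4 × Fin 4, (a p.1 * b p.2 - a p.2 * b p.1) ^ 2 := by
  simp only [dotProduct, Fintype.sum_prod_type, Fin.sum_univ_four]
  ring

theorem o1_cs (a b : V) : 0 ≤ (a ⬝ᵥ a) * (b ⬝ᵥ b) - (a ⬝ᵥ b) ^ 2 := by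
  have : 0 ≤ ∑ p : Fin 4 × Fin 4, (a p.1 * b p.2 - a p.2 * b p.1) ^ 2 :=
    Finset.sum_nonneg fun p _ => sq_nonneg _
  linarith [o1_lag a b]

theorem o1_minor (a b : V) (j k : Fin 4) :
    |a j * b k - a k * b j| ≤ 2 * Real.sqrt ((a ⬝ᵥ a) * (b ⬝ᵥ b) - (a ⬝ᵥ b) ^ 2) := by
  have h := Finset.single_le_sum (f := fun p : Fin 4 × Fin 4 => (a p.1 * b p.2 - a p.2 * b p.1) ^ 2)
    (fun p _ => sq_nonneg _) (Finset.mem_univ (j, k))
  refine abs_le_of_sq_le_sq ?_ (by positivity)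
  rw [mul_pow, Real.sq_sqrt (o1_cs a b)]
  linarith [o1_lag a b, o1_cs a b]

theorem o1_minor_u {a b : V} {T : ℝ} (h : ∀ j k, |a j * b k - a k * b j| ≤ T) (i l : Fin 4) :
    |o1u a i * o1u b l - o1u a l * o1u b i| ≤ 4 * T := by
  have t := (abs_nonneg _).trans (h 0 0)
  have h01 := abs_le.1 (h 0 1)
  have h02 := abs_le.1 (h 0 2)
  have h03 := abs_le.1 (h 0 3)
  have h12 := abs_le.1 (h 1 2)
  have h13 := abs_le.1 (h 1 3)
  have h23 := abs_le.1 (h 2 3)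
  rw [abs_le]
  fin_cases i <;> fin_cases l <;>
    simp only [o1u, Fin.zero_eta, Fin.mk_one, Fin.reduceFinMk, Matrix.cons_val_zero,
      Matrix.cons_val_one, Matrix.cons_val] <;> constructor <;> linarith

theorem o1_inv {p ρ t : ℝ} (hp : 1 / 4 ≤ p) (hρ : 0 < ρ) (h : p * ρ ^ 2 ≤ t) :
    0 ≤ (Real.sqrt t)⁻¹ ∧ (Real.sqrt t)⁻¹ ≤ 2 / ρ := by
  refine ⟨by positivity, ?_⟩
  rw [← inv_div]
  refine inv_anti₀ (by positivity) (Real.le_sqrt_of_sq_le ?_)
  nlinarith [sq_nonneg ρ]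

noncomputable def dk (ρ r N : ℝ) (v : V) (ξ : V) : ℝ :=
  ker ρ (Om v ξ / N) - ker r (Om v ξ / N)

theorem o1_int4 {f g h k : V → ℝ} (hf : Integrable f) (hg : Integrable g) (hh : Integrable h)
    (hk : Integrable k) :
    ∫ x, (f x - g x - h x + k x) = (∫ x, f x) - (∫ x, g x) - (∫ x, h x) + ∫ x, k x := by
  have a : Integrable fun x => f x - g x := hf.sub hg
  have b : Integrable fun x => f x - g x - h x := a.sub hh
  rw [integral_add b hk, integral_sub a hh, integral_sub hf hg]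

theorem pair_le : ∃ C : ℝ, 0 < C ∧ ∀ (N ρ r : ℝ) (v v' : V), 0 < N → 0 < ρ → ρ ≤ r → r ≤ 1 →
    N ≤ ‖v‖ → ‖v‖ ≤ 3 * N → N ≤ ‖v'‖ → ‖v'‖ ≤ 3 * N →
    Integrable (fun ξ : V => Real.exp (-(ξ ⬝ᵥ ξ) / 2) * (dk ρ r N v ξ * dk ρ r N v' ξ)) ∧
    |∫ ξ : V, Real.exp (-(ξ ⬝ᵥ ξ) / 2) * (dk ρ r N v ξ * dk ρ r N v' ξ)| ≤ C / ρ ∧
    ∀ (i l : Fin 4) (Y : ℝ), 0 < Y → Y ≤ |v i * v' l - v l * v' i| →
      |∫ ξ : V, Real.exp (-(ξ ⬝ᵥ ξ) / 2) * (dk ρ r N v ξ * dk ρ r N v' ξ)| ≤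
        C * r ^ 4 * N ^ 10 / Y ^ 5 := by
  obtain ⟨C, hC, hm⟩ := mixed_le (M := 144 ^ 2) (by norm_num)
  have hpi : 0 < (2 * Real.pi) ^ 2 := by positivity
  refine ⟨(2 * Real.pi) ^ 2 * (4 + C * 8 ^ 5), by positivity,
    fun N ρ r v v' hN hρ hρr hr1 l1 u1 l2 u2 => ?_⟩
  have hr : 0 < r := hρ.trans_le hρr
  have p1 := o1_low v hN l1
  have p2 := o1_up v hN u1
  have q1 := o1_low v' hN l2
  have q2 := o1_up v' hN u2
  have s0 := o1_cs (fv v N) (fv v' N)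
  have mn := o1_minor_u (o1_minor (fv v N) (fv v' N))
  have e : (fun ξ : V => Real.exp (-(ξ ⬝ᵥ ξ) / 2) * (dk ρ r N v ξ * dk ρ r N v' ξ)) = fun ξ : V =>
      Real.exp (-(ξ ⬝ᵥ ξ) / 2) * (ker ρ (fv v N ⬝ᵥ ξ) * ker ρ (fv v' N ⬝ᵥ ξ)) -
      Real.exp (-(ξ ⬝ᵥ ξ) / 2) * (ker ρ (fv v N ⬝ᵥ ξ) * ker r (fv v' N ⬝ᵥ ξ)) -
      Real.exp (-(ξ ⬝ᵥ ξ) / 2) * (ker r (fv v N ⬝ᵥ ξ) * ker ρ (fv v' N ⬝ᵥ ξ)) +
      Real.exp (-(ξ ⬝ᵥ ξ) / 2) * (ker r (fv v N ⬝ᵥ ξ) * ker r (fv v' N ⬝ᵥ ξ)) := by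
    funext ξ
    simp only [dk, fv_dot]
    ring
  have i1 := gauss_int (fv v N) (fv v' N) hρ hρ
  have i2 := gauss_int (fv v N) (fv v' N) hρ hr
  have i3 := gauss_int (fv v N) (fv v' N) hr hρ
  have i4 := gauss_int (fv v N) (fv v' N) hr hr
  have hv : ∀ i, v i = N * o1u (fv v N) i := o1_u v hN
  have hv' : ∀ i, v' i = N * o1u (fv v' N) i := o1_u v' hN
  rw [e, o1_int4 i1 i2 i3 i4,
    gauss_eq _ _ hρ hρ, gauss_eq _ _ hρ hr, gauss_eq _ _ hr hρ, gauss_eq _ _ hr hr]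
  refine ⟨((i1.sub i2).sub i3).add i4, ?_⟩
  generalize o1u (fv v N) = u at hv mn
  generalize o1u (fv v' N) = u' at hv' mn
  generalize fv v N ⬝ᵥ fv v N = p at *
  generalize fv v' N ⬝ᵥ fv v' N = q at *
  generalize fv v N ⬝ᵥ fv v' N = c at *
  obtain ⟨s, hs⟩ : ∃ s, s = p * q - c ^ 2 := ⟨_, rfl⟩
  rw [← hs] at s0 mn
  have x0 : 0 < ρ ^ 2 := by positivity
  have xy : ρ ^ 2 ≤ r ^ 2 := pow_le_pow_left₀ hρ.le hρr 2
  have y1 : r ^ 2 ≤ 1 := pow_le_one₀ hr.le hr1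
  have e1 : (p + ρ ^ 2) * (q + ρ ^ 2) - c ^ 2 = s + p * ρ ^ 2 + q * ρ ^ 2 + ρ ^ 2 * ρ ^ 2 := by
    rw [hs]; ring
  have e2 : (p + ρ ^ 2) * (q + r ^ 2) - c ^ 2 = s + p * r ^ 2 + q * ρ ^ 2 + ρ ^ 2 * r ^ 2 := by
    rw [hs]; ring
  have e3 : (p + r ^ 2) * (q + ρ ^ 2) - c ^ 2 = s + p * ρ ^ 2 + q * r ^ 2 + r ^ 2 * ρ ^ 2 := by
    rw [hs]; ring
  have e4 : (p + r ^ 2) * (q + r ^ 2) - c ^ 2 = s + p * r ^ 2 + q * r ^ 2 + r ^ 2 * r ^ 2 := by
    rw [hs]; ring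
  rw [e1, e2, e3, e4]
  simp only [div_eq_mul_inv ((2 * Real.pi) ^ 2), ← mul_sub, ← mul_add]
  rw [abs_mul, abs_of_pos hpi]
  have p0 : 0 ≤ p := by linarith
  have q0 : 0 ≤ q := by linarith
  have pr : p * ρ ^ 2 ≤ p * r ^ 2 := mul_le_mul_of_nonneg_left xy p0
  constructor
  · have k1 := o1_inv (t := s + p * ρ ^ 2 + q * ρ ^ 2 + ρ ^ 2 * ρ ^ 2) p1 hρ
      (by nlinarith [mul_nonneg q0 x0.le])
    have k2 := o1_inv (t := s + p * r ^ 2 + q * ρ ^ 2 + ρ ^ 2 * r ^ 2) p1 hρ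
      (by nlinarith [mul_nonneg q0 x0.le])
    have k3 := o1_inv (t := s + p * ρ ^ 2 + q * r ^ 2 + r ^ 2 * ρ ^ 2) p1 hρ
      (by nlinarith [mul_nonneg q0 (sq_nonneg r)])
    have k4 := o1_inv (t := s + p * r ^ 2 + q * r ^ 2 + r ^ 2 * r ^ 2) p1 hρ
      (by nlinarith [mul_nonneg q0 (sq_nonneg r)])
    rw [mul_div_assoc]
    refine mul_le_mul_of_nonneg_left ?_ hpi.le
    have k5 : 2 / ρ + 2 / ρ ≤ (4 + C * 8 ^ 5) / ρ := by
      rw [← add_div]
      exact div_le_div_of_nonneg_right (by nlinarith) hρ.le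
    exact abs_le.2 ⟨by linarith [k1.1, k2.2, k3.2, k4.1], by linarith [k1.2, k2.1, k3.1, k4.2]⟩
  · intro i l Y hY hle
    have k1 : Y ≤ N ^ 2 * (8 * Real.sqrt s) := by
      refine hle.trans ?_
      rw [hv i, hv l, hv' i, hv' l, show N * u i * (N * u' l) - N * u l * (N * u' i) =
        N ^ 2 * (u i * u' l - u l * u' i) by ring, abs_mul, abs_of_pos (by positivity)]
      exact mul_le_mul_of_nonneg_left (by linarith [mn i l]) (by positivity)
    have k2 : 0 < Real.sqrt s := by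
      by_contra k
      have : Real.sqrt s = 0 := le_antisymm (not_lt.1 k) (Real.sqrt_nonneg _)
      rw [this] at k1
      linarith
    have k3 := hm s p q (ρ ^ 2) (r ^ 2) (Real.sqrt_pos.1 k2) (by nlinarith [sq_nonneg c]) p0
      (by linarith) q0 (by linarith) x0.le xy y1
    have k4 : C * (r ^ 2) ^ 2 / Real.sqrt s ^ 5 ≤ (4 + C * 8 ^ 5) * r ^ 4 * N ^ 10 / Y ^ 5 := by
      rw [div_le_div_iff₀ (by positivity) (by positivity)]
      calc C * (r ^ 2) ^ 2 * Y ^ 5 ≤ C * (r ^ 2) ^ 2 * (N ^ 2 * (8 * Real.sqrt s)) ^ 5 := by gcongr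
        _ = (C * 8 ^ 5) * r ^ 4 * N ^ 10 * Real.sqrt s ^ 5 := by ring
        _ ≤ _ := by gcongr; linarith
    calc _ ≤ (2 * Real.pi) ^ 2 * ((4 + C * 8 ^ 5) * r ^ 4 * N ^ 10 / Y ^ 5) :=
          mul_le_mul_of_nonneg_left (k3.trans k4) hpi.le
      _ = _ := by ring

theorem slab_le (R : ℝ) : ∃ C : ℝ, 0 < C ∧ ∀ (N r : ℝ) (v : V), 0 < N → 0 < r → N ≤ ‖v‖ →
    ∫⁻ ξ in Metric.closedBall (0 : V) R, ENNReal.ofReal (ker r (Om v ξ / N)) ≤
      ENNReal.ofReal C := by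
  have hpi : 0 < (2 * Real.pi) ^ 2 := by positivity
  refine ⟨Real.exp (2 * R ^ 2) * ((2 * Real.pi) ^ 2 * 2), by positivity,
    fun N r v hN hr h => ?_⟩
  have p1 := o1_low v hN h
  have i1 := gauss_int (fv v N) 0 hr one_pos
  have e1 := gauss_eq (fv v N) 0 hr one_pos
  have k0 : ker 1 0 = 1 := by simp [ker]
  have kp : ∀ s, 0 ≤ ker r s := fun s => by rw [ker]; positivity
  simp only [zero_dotProduct, dotProduct_zero, k0, mul_one, fv_dot] at i1 e1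
  have e2 : ∫ ξ : V, Real.exp (-(ξ ⬝ᵥ ξ) / 2) * ker r (Om v ξ / N) ≤ (2 * Real.pi) ^ 2 * 2 := by
    rw [e1, div_eq_mul_inv]
    refine mul_le_mul_of_nonneg_left ?_ hpi.le
    rw [← fv_dot]
    have := (o1_inv (t := (fv v N ⬝ᵥ fv v N + r ^ 2) * (0 + 1 ^ 2) - 0 ^ 2) p1 one_pos
      (by nlinarith [sq_nonneg r])).2
    simpa using this
  calc _ ≤ ∫⁻ ξ in Metric.closedBall (0 : V) R, ENNReal.ofReal (Real.exp (2 * R ^ 2)) *
        ENNReal.ofReal (Real.exp (-(ξ ⬝ᵥ ξ) / 2) * ker r (Om v ξ / N)) :=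
        setLIntegral_mono' measurableSet_closedBall fun ξ hξ => ?_
    _ ≤ ENNReal.ofReal (Real.exp (2 * R ^ 2)) * ENNReal.ofReal ((2 * Real.pi) ^ 2 * 2) := by
        rw [lintegral_const_mul' _ _ ENNReal.ofReal_ne_top]
        refine mul_le_mul_right ((setLIntegral_le_lintegral _ _).trans ?_) _
        rw [← ofReal_integral_eq_lintegral_ofReal i1
          (ae_of_all _ fun ξ => mul_nonneg (Real.exp_pos _).le (kp _))]
        exact ENNReal.ofReal_le_ofReal e2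
    _ = _ := (ENNReal.ofReal_mul (Real.exp_pos _).le).symm
  rw [← ENNReal.ofReal_mul (Real.exp_pos _).le]
  refine ENNReal.ofReal_le_ofReal ?_
  have h1 : ∀ i, ξ i * ξ i ≤ R ^ 2 := fun i => by
    have := (norm_le_pi_norm ξ i).trans (mem_closedBall_zero_iff.1 hξ)
    rw [← pow_two]
    exact sq_le_sq' (abs_le.1 this).1 (abs_le.1 this).2
  have h2 : 1 ≤ Real.exp (2 * R ^ 2) * Real.exp (-(ξ ⬝ᵥ ξ) / 2) := by
    rw [← Real.exp_add, Real.one_le_exp_iff, dotProduct, Fin.sum_univ_four]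
    linarith [h1 0, h1 1, h1 2, h1 3]
  rw [← mul_assoc]
  exact le_mul_of_one_le_left (kp _) h2

end Pool.Agent.TW.G
end
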