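import Pool.Agent.Lib.MP_4eaecc_an.XN2
import Pool.Agent.Lib.MP_4eaecc_an.M2b
import Pool.Agent.Lib.MP_4eaecc_an.XO1

-- part Pool.Agent.Lib.MP_4eaecc_an.M1
section

/-! Sums over the groupoid, the weight and the measure `nu`. -/

namespace Pool.Agent.TW

open Matrix MeasureTheory Filter Topology
open scoped ENNReal NNReal symmDiff

instance m1_countable : Countable Mat := inferInstanceAs (Countable (Fin 4 → Fin 4 → ℤ))

theorem m1_meas {F : Pt → ℝ≥0∞} (hF : Measurable F) (P : Mat) :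
    Measurable ({x | Reach x P}.indicator fun x => F (acP P x)) :=
  (hF.comp (continuous_acP P).measurable).indicator (isOpen_reach P).measurableSet

theorem m1_tsum_pi {α : Type} (g : α → ℝ≥0∞) (n : ℕ) :
    ∑' f : Fin n → α, ∏ i, g (f i) = (∑' a, g a) ^ n := by
  induction n with
  | zero => simp
  | succ n ih =>
    rw [← (Fin.consEquiv fun _ => α).tsum_eq, ENNReal.tsum_prod']
    simp [Fin.prod_univ_succ, ENNReal.tsum_mul_left, ENNReal.tsum_mul_right, ih, pow_succ']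

theorem measurable_Sm {F : Pt → ℝ≥0∞} (hF : Measurable F) : Measurable (Sm' F) := by
  exact Measurable.tsum fun P => m1_meas hF P

theorem Sm_reach (F : Pt → ℝ≥0∞) {x : Pt} {P : Mat} (h : Reach x P) :
    Sm' F (acP P x) = Sm' F x := by
  let e : Mat ≃ Mat := ⟨fun Q => Q * P, fun Q => Q * sinv P,
    fun Q => by simp only [Matrix.mul_assoc, h.symp.mul_sinv, Matrix.mul_one],
    fun Q => by simp only [Matrix.mul_assoc, h.symp.sinv_mul, Matrix.mul_one]⟩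
  rw [Sm', Sm', eq_comm, ← e.tsum_eq]
  refine tsum_congr fun Q => ?_
  have k : Reach (acP P x) Q ↔ Reach x (Q * P) := ⟨h.trans, fun k => by
    have k1 := h.inv.trans (Q := Q * P) (by rwa [← acP_mul, h.symp.sinv_mul, acP_one])
    rwa [Matrix.mul_assoc, h.symp.mul_sinv, Matrix.mul_one] at k1⟩
  classical
  simp only [Set.indicator_apply, Set.mem_ofPred_eq, k, e, Equiv.coe_fn_mk, acP_mul]

/-- Mass transport: reindex by `sinv`. -/
theorem transport {F G : Pt → ℝ≥0∞} (hF : Measurable F) (hG : Measurable G) :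
    ∫⁻ x, Sm' F x * G x = ∫⁻ x, F x * Sm' G x := by
  simp only [Sm', ← ENNReal.tsum_mul_right, ← ENNReal.tsum_mul_left]
  rw [lintegral_tsum fun P => ((m1_meas hF P).fun_mul hG).aemeasurable,
    lintegral_tsum fun P => (hF.fun_mul (m1_meas hG P)).aemeasurable,
    ← (Function.Involutive.toPerm sinv sinv_sinv).tsum_eq]
  refine tsum_congr fun P => ?_
  by_cases hP : Symp P
  · rw [← hP.mp_acP.lintegral_comp ((m1_meas hF _).fun_mul hG)]
    refine lintegral_congr fun x => ?_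
    have e : acP (sinv P) (acP P x) = x := by rw [← acP_mul, hP.sinv_mul, acP_one]
    have k : Reach (acP P x) (sinv P) ↔ Reach x P :=
      ⟨fun k => by simpa only [e, sinv_sinv] using k.inv, Reach.inv⟩
    classical
    simp only [Set.indicator_apply, Set.mem_ofPred_eq, Function.Involutive.coe_toPerm, k, e]
    split_ifs <;> simp
  · have h1 : ∀ x, ¬ Reach x P := fun x k => hP k.symp
    have h2 : ∀ x, ¬ Reach x (sinv P) := fun x k => hP (sinv_sinv P ▸ k.symp.sinv)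
    simp [h1, h2]

theorem Sm_ph_le {K : Set Pt} (hK : IsCompact K) (hc : K ⊆ Cell) : ∃ C : ℝ≥0,
    ∀ y ∈ K, Sm' ph y ≤ C := by
  obtain ⟨C, C0, hC⟩ := mb_reach hK hc
  let g : ℤ → ℝ≥0∞ := fun a => ENNReal.ofReal (Real.exp (|(a : ℝ)| * -(16 * C)⁻¹))
  have h0 : -(16 * C)⁻¹ < 0 := neg_neg_of_pos (by positivity)
  have h1 : ∑' a, g a ≠ ⊤ := Summable.tsum_ofReal_ne_top (Summable.of_nat_of_neg
    (by simpa using Real.summable_exp_nat_mul_iff.2 h0)
    (by simpa using Real.summable_exp_nat_mul_iff.2 h0))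
  have h2 : ∑' P : Fin 4 → Fin 4 → ℤ, ∏ i, ∏ j, g (P i j) ≠ ⊤ := by
    rw [m1_tsum_pi (fun r : Fin 4 → ℤ => ∏ j, g (r j)), m1_tsum_pi]
    exact ENNReal.pow_ne_top (ENNReal.pow_ne_top h1)
  refine ⟨(∑' P : Fin 4 → Fin 4 → ℤ, ∏ i, ∏ j, g (P i j)).toNNReal, fun y hy => ?_⟩
  rw [ENNReal.coe_toNNReal h2]
  refine ENNReal.tsum_le_tsum fun P => Set.indicator_apply_le' (fun hP => ?_) fun _ => zero_le
  simp only [g, ← ENNReal.ofReal_prod_of_nonneg fun _ _ => (Real.exp_pos _).le, ← Real.exp_sum]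
  refine ENNReal.ofReal_le_ofReal (Real.exp_le_exp.2 ?_)
  have h3 : ∑ i, ∑ j, |(P i j : ℝ)| ≤ ∑ _i : Fin 4, ∑ _j : Fin 4, C * ‖acP P y‖ :=
    Finset.sum_le_sum fun i _ => Finset.sum_le_sum fun j _ => hC y hy P hP i j
  simp only [← Finset.sum_mul]
  simp only [Finset.sum_const, Finset.card_univ, Fintype.card_fin, nsmul_eq_mul] at h3
  rw [mul_neg, neg_le_neg_iff, mul_inv_le_iff₀ (by positivity)]
  push_cast at h3
  linarith

theorem m1_ph : Measurable ph := by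
  unfold ph
  fun_prop

theorem m1_le_Sm (F : Pt → ℝ≥0∞) {y : Pt} {P : Mat} (h : Reach y P) : F (acP P y) ≤ Sm' F y :=
  (Set.indicator_of_mem (s := {x | Reach x P}) h fun x => F (acP P x)).ge.trans
    (ENNReal.le_tsum (f := fun P => {x | Reach x P}.indicator (fun x => F (acP P x)) y) P)

theorem m1_Sm_mul (G : Pt → ℝ≥0∞) {F : Pt → ℝ≥0∞} (r : ∀ y P, Reach y P → F (acP P y) = F y)
    (y : Pt) : Sm' (fun x => G x * F x) y = Sm' G y * F y := by
  rw [Sm', Sm', ← ENNReal.tsum_mul_right]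
  refine tsum_congr fun P => ?_
  by_cases h : Reach y P <;> simp [h, r y P]

theorem m1_Sm_zero (G : Pt → ℝ≥0∞) {y : Pt} (h : y ∉ Cell) : Sm' G y = 0 := by
  have k : ∀ P, ¬ Reach y P := fun P k => h k.cell0
  simp [Sm', k]

theorem measurable_wt : Measurable wt := by
  exact m1_ph.div (measurable_Sm m1_ph)

theorem wt_le_one {y : Pt} (h : y ∈ Cell) : wt y ≤ 1 := by
  refine ENNReal.div_le_of_le_mul ?_
  simpa only [acP_one, one_mul] using m1_le_Sm ph (Reach.refl h)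

theorem Sm_wt {y : Pt} (h : y ∈ Cell) : Sm' wt y = 1 := by
  obtain ⟨C, hC⟩ := Sm_ph_le (isCompact_singleton (x := y)) (Set.singleton_subset_iff.2 h)
  refine (m1_Sm_mul ph (F := fun x => (Sm' ph x)⁻¹) (fun y P k => by rw [Sm_reach _ k]) y).trans
    (ENNReal.mul_inv_cancel (fun e => ?_) (ne_top_of_le_ne_top ENNReal.coe_ne_top (hC y rfl)))
  have k := m1_le_Sm ph (Reach.refl h)
  rw [e, nonpos_iff_eq_zero, ph, ENNReal.ofReal_eq_zero] at k
  exact absurd k (not_le.2 (Real.exp_pos _))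

theorem m1_nu {F : Pt → ℝ≥0∞} (hF : Measurable F) :
    ∫⁻ x, F x ∂nu = ∫⁻ x in Cell, wt x * F x :=
  lintegral_withDensity_eq_lintegral_mul _ measurable_wt hF

theorem m1_ae : ∀ᵐ x ∂nu, x ∈ Cell :=
  (withDensity_absolutelyContinuous _ _).ae_le (ae_restrict_mem isOpen_cell.measurableSet)

/-- Unfolding. -/
theorem m1_key {F G : Pt → ℝ≥0∞} (hF : Measurable F) (hG : Measurable G)
    (r : ∀ y P, Reach y P → F (acP P y) = F y) :
    ∫⁻ x, Sm' G x * F x ∂nu = ∫⁻ x in Cell, G x * F x := by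
  rw [m1_nu ((measurable_Sm hG).fun_mul hF), ← lintegral_indicator isOpen_cell.measurableSet,
    ← lintegral_indicator isOpen_cell.measurableSet]
  refine Eq.trans (lintegral_congr fun x => ?_)
    ((transport hG (measurable_wt.fun_mul hF)).trans (lintegral_congr fun x => ?_))
  · by_cases h : x ∈ Cell
    · rw [Set.indicator_of_mem h, mul_left_comm]
    · rw [Set.indicator_of_notMem h, m1_Sm_zero _ h, zero_mul]
  · by_cases h : x ∈ Cell
    · rw [Set.indicator_of_mem h, m1_Sm_mul wt r, Sm_wt h, one_mul]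
    · rw [Set.indicator_of_notMem h, m1_Sm_zero _ h, mul_zero]

theorem vol_le_nu {K : Set Pt} (hK : IsCompact K) (hc : K ⊆ Cell) : ∃ C : ℝ≥0,
    ∀ Y, MeasurableSet Y → volume (Y ∩ K) ≤ C * nu Y := by
  obtain ⟨C, hC⟩ := Sm_ph_le hK hc
  obtain ⟨R, hR⟩ := hK.isBounded.exists_norm_le
  refine ⟨C * (Real.exp R).toNNReal, fun Y hY => ?_⟩
  rw [nu, withDensity_apply _ hY, Measure.restrict_restrict hY,
    ← lintegral_const_mul _ measurable_wt, ← setLIntegral_one]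
  refine (setLIntegral_mono' (hY.inter hK.measurableSet) fun y hy => ?_).trans
    (lintegral_mono_set (Set.inter_subset_inter_right _ hc))
  have h1 : 1 ≤ ENNReal.ofReal (Real.exp R) * ph y := by
    rw [ph, ← ENNReal.ofReal_mul (Real.exp_pos _).le, ← Real.exp_add, ENNReal.one_le_ofReal]
    exact Real.one_le_exp (by linarith [hR y hy.2])
  have h2 : Sm' ph y ≠ 0 := fun e => by
    simpa [wt, Sm', ph, e] using (m1_le_Sm ph (Reach.refl (hc hy.2))).trans_eq e |>.trans_lt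
      (ENNReal.ofReal_pos.2 (Real.exp_pos (-‖acP 1 y‖)))
  have h3 : 1 ≤ (C : ℝ≥0∞) * (Sm' ph y)⁻¹ := by
    rw [← ENNReal.mul_inv_cancel h2 (ne_top_of_le_ne_top ENNReal.coe_ne_top (hC y hy.2))]
    exact mul_le_mul_left (hC y hy.2) _
  refine (one_le_mul h3 h1).trans_eq ?_
  rw [wt, div_eq_mul_inv, ENNReal.coe_mul, ENNReal.ofReal]
  ring

theorem nu_le_vol (Y : Set Pt) : nu Y ≤ volume Y := by
  have h : nu ≤ (volume.restrict Cell).withDensity 1 :=
    withDensity_mono ((ae_restrict_mem isOpen_cell.measurableSet).mono fun y hy => wt_le_one hy)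
  rw [withDensity_one] at h
  exact Measure.le_iff'.1 (h.trans Measure.restrict_le_self) Y

theorem m1_ind {Y : Set Pt} (r : RInv Y) (y : Pt) (P : Mat) (h : Reach y P) :
    Y.indicator (1 : Pt → ℝ≥0∞) (acP P y) = Y.indicator 1 y := by
  by_cases k : y ∈ Y
  · rw [Set.indicator_of_mem k, Set.indicator_of_mem ((r y P h).1 k)]
    rfl
  · rw [Set.indicator_of_notMem k, Set.indicator_of_notMem (mt (r y P h).2 k)]

theorem nu_le_of_cover {Y D : Set Pt} (hY : MeasurableSet Y) (hD : MeasurableSet D) (r : RInv Y)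
    (h : ∀ y ∈ Y, y ∈ Cell → ∃ P, Reach y P ∧ acP P y ∈ D) : nu Y ≤ volume (Y ∩ D) := by
  have k := m1_key (measurable_one.indicator hY) (measurable_one.indicator hD) (m1_ind r)
  rw [← lintegral_indicator_one hY, ← lintegral_indicator_one (hY.inter hD)]
  refine (lintegral_mono_ae (m1_ae.mono fun y hy => ?_)).trans (k.trans_le
    ((setLIntegral_le_lintegral _ _).trans_eq (lintegral_congr fun x => ?_)))
  · by_cases e : y ∈ Y
    · obtain ⟨P, h1, h2⟩ := h y e hy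
      simpa [e, h2] using m1_le_Sm (D.indicator 1) h1
    · simp [e]
  · rw [Set.inter_comm, Set.inter_indicator_one]
    rfl

theorem m1_cont (a b c d : ℝ) : Continuous (lin a b c d) := by
  unfold lin
  fun_prop

theorem m1_lin {F : Pt → ℝ≥0∞} (hF : Measurable F) (r : ∀ y P, Reach y P → F (acP P y) = F y)
    {a b c d a' b' c' d' : ℝ} (h : 0 < a * d - b * c) (h' : 0 < a' * d' - b' * c')
    (e : ∀ y, lin a' b' c' d' (lin a b c d y) = y) (e' : ∀ y, lin a b c d (lin a' b' c' d' y) = y)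
    {k : ℝ≥0∞} (hk : Measure.map (lin a b c d) volume = k • volume) :
    ∫⁻ y, F (lin a b c d y) ∂nu = k * ∫⁻ y, F y ∂nu := by
  have m := (m1_cont a b c d).measurable
  have hG : Measurable fun x => wt (lin a' b' c' d' x) :=
    measurable_wt.comp (m1_cont a' b' c' d').measurable
  have h1 : ∫⁻ y, F y ∂nu = _ := (lintegral_congr_ae (m1_ae.mono fun y hy => ?_)).trans
    (m1_key hF hG r)
  · rw [h1, m1_nu (F := fun y => F (lin a b c d y)) (hF.comp m),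
      ← lintegral_indicator isOpen_cell.measurableSet,
      ← lintegral_indicator isOpen_cell.measurableSet, ← smul_eq_mul, ← lintegral_smul_measure,
      ← hk, lintegral_map ((hG.fun_mul hF).indicator isOpen_cell.measurableSet) m]
    refine lintegral_congr fun x => ?_
    by_cases hx : x ∈ Cell
    · rw [Set.indicator_of_mem hx, Set.indicator_of_mem ((Reach.refl hx).lin h).cell0, e]
    · rw [Set.indicator_of_notMem hx, Set.indicator_of_notMem
        fun k => hx (e x ▸ ((Reach.refl k).lin h').cell0)]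
  · have h2 : Sm' (fun x => wt (lin a' b' c' d' x)) y = Sm' wt (lin a' b' c' d' y) := by
      refine tsum_congr fun P => ?_
      have k : Reach (lin a' b' c' d' y) P ↔ Reach y P :=
        ⟨fun k => e' y ▸ k.lin h, fun k => k.lin h'⟩
      classical
      simp only [Set.indicator_apply, Set.mem_ofPred_eq, k, acP_lin]
    simp only [h2, Sm_wt ((Reach.refl hy).lin h').cell0, one_mul]

theorem m1_lin_lin (a b c d a' b' c' d' : ℝ) (y : Pt) : lin a' b' c' d' (lin a b c d y) =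
    lin (a' * a + b' * c) (a' * b + b' * d) (c' * a + d' * c) (c' * b + d' * d) y := by
  simp only [lin, Prod.mk.injEq]
  constructor <;> module

theorem m1_lin_one {a b c d : ℝ} (ha : a = 1) (hb : b = 0) (hc : c = 0) (hd : d = 1) (y : Pt) :
    lin a b c d y = y := by
  simp [lin, ha, hb, hc, hd]

theorem m1_sl {F : Pt → ℝ≥0∞} (hF : Measurable F)
    (r : ∀ y P, Reach y P → F (acP P y) = F y) {a b c d : ℝ} (h : a * d - b * c = 1) :
    ∫⁻ y, F (lin a b c d y) ∂nu = ∫⁻ y, F y ∂nu := by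
  refine (m1_lin hF r (a' := d) (b' := -b) (c' := -c) (d' := a) (k := 1) (by linarith)
    (by linarith) (fun y => ?_) (fun y => ?_) (by rw [(mp_lin h).map_eq, one_smul])).trans
    (one_mul _) <;> rw [m1_lin_lin] <;> apply m1_lin_one <;> linarith

/-- On invariant sets `nu` does not depend on the weight, so it transforms like Lebesgue
measure. -/
theorem nu_lin {Y : Set Pt} (hY : MeasurableSet Y) (r : RInv Y) {a b c d : ℝ}
    (h : a * d - b * c = 1) : nu (lin a b c d ⁻¹' Y) = nu Y := by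
  rw [← lintegral_indicator_one hY, ← m1_sl (measurable_one.indicator hY) (m1_ind r) h,
    ← lintegral_indicator_one ((m1_cont a b c d).measurable hY)]
  rfl

theorem nu_smul {Y : Set Pt} (hY : MeasurableSet Y) (r : RInv Y) {c : ℝ} (h : 0 < c) :
    nu ((fun y => c • y) ⁻¹' Y) = ENNReal.ofReal (c ^ 8)⁻¹ * nu Y := by
  have e : (fun y : Pt => c • y) = lin c 0 0 c := funext (smul_eq_lin c)
  have k : c * c⁻¹ = 1 := mul_inv_cancel₀ h.ne'
  have : (volume : Measure Pt).IsAddHaarMeasure := Measure.prod.instIsAddHaarMeasure _ _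
  rw [← lintegral_indicator_one hY, ← m1_lin (measurable_one.indicator hY) (m1_ind r)
    (a := c) (b := 0) (c := 0) (d := c) (a' := c⁻¹) (b' := 0) (c' := 0) (d' := c⁻¹)
    (by simpa using h.ne') (by simpa using h.ne')
    (fun y => by rw [m1_lin_lin]; apply m1_lin_one <;> linarith)
    (fun y => by rw [m1_lin_lin]; apply m1_lin_one <;> linarith)
    (by rw [← e, Measure.map_addHaar_smul _ h.ne', abs_of_pos (by positivity)]; simp), e,
    ← lintegral_indicator_one ((m1_cont c 0 0 c).measurable hY)]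
  rfl

theorem lintegral_nu_lin {F : Pt → ℝ≥0∞} (hF : Measurable F)
    (r : ∀ y P, Reach y P → F (acP P y) = F y) {a b c d : ℝ} (h : a * d - b * c = 1) :
    ∫⁻ y, F (lin a b c d y) ∂nu = ∫⁻ y, F y ∂nu := by
  exact m1_sl hF r h

/-- Bounded multiplicity. -/
theorem sum_reach_le {K : Set Pt} (hK : IsCompact K) (hc : K ⊆ Cell) : ∃ C : ℝ≥0,
    ∀ (t : ℝ) (N : Set Pt), MeasurableSet N →
      ∑' P : Mat, volume {y ∈ K | Reach y P ∧ gt t (acP P y) ∈ N} ≤ C * volume N := by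
  obtain ⟨C, hC⟩ := mult_le hK hc
  refine ⟨C, fun t N hN => ?_⟩
  have hg : MeasurePreserving (gt t) volume volume := by
    rw [funext (gt_eq t)]
    exact mp_lin (by simp [← Real.exp_add])
  have hN' := hg.measurable hN
  have k := transport (measurable_one.indicator hN') (measurable_one.indicator hK.measurableSet)
  have h1 : ∑' P : Mat, volume {y ∈ K | Reach y P ∧ gt t (acP P y) ∈ N} =
      ∫⁻ x, Sm' ((gt t ⁻¹' N).indicator 1) x * K.indicator 1 x := by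
    simp only [Sm', ← ENNReal.tsum_mul_right]
    rw [lintegral_tsum fun P => ((m1_meas (measurable_one.indicator hN') P).fun_mul
      (measurable_one.indicator hK.measurableSet)).aemeasurable]
    refine tsum_congr fun P => ?_
    refine (lintegral_indicator_one (hK.measurableSet.inter ((isOpen_reach P).measurableSet.inter
      ((continuous_acP P).measurable hN')))).symm.trans (lintegral_congr fun x => ?_)
    by_cases e1 : x ∈ K <;> by_cases e2 : Reach x P <;> by_cases e3 : gt t (acP P x) ∈ N <;>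
      simp [e1, e2, e3]
  rw [h1, k, ← hg.measure_preimage hN.nullMeasurableSet, ← lintegral_indicator_one hN',
    ← lintegral_const_mul _ (measurable_one.indicator hN')]
  refine lintegral_mono fun x => ?_
  rw [mul_comm]
  refine mul_le_mul_left ?_ _
  have h2 : Sm' (K.indicator 1) x = {P | Reach x P ∧ acP P x ∈ K}.encard := by
    rw [← ENNReal.tsum_set_one, tsum_subtype _ (fun _ => 1)]
    refine tsum_congr fun P => ?_
    by_cases e2 : Reach x P <;> by_cases e3 : acP P x ∈ K <;> simp [e2, e3]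
  rw [h2]
  exact (ENat.toENNReal_le.2 (hC x)).trans_eq (by simp)

theorem RInv.lin {Y : Set Pt} (r : RInv Y) {a b c d : ℝ} (h : 0 < a * d - b * c) :
    RInv (lin a b c d ⁻¹' Y) := by
  intro y P k
  rw [Set.mem_preimage, Set.mem_preimage, ← acP_lin]
  exact r _ P (k.lin h)

end Pool.Agent.TW
end

-- part Pool.Agent.Lib.MP_4eaecc_an.M2a
section

/-! The measure `mu1` is finite and invariant. -/

namespace Pool.Agent.TW

open Matrix MeasureTheory Filter Topology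
open scoped ENNReal NNReal symmDiff

theorem isOpen_S1 : IsOpen S1 := by
  simp only [S1, Set.ofPred_exists]
  exact isOpen_iUnion fun P => isOpen_iUnion fun τ =>
    (isOpen_reach P).inter ((isOpen_Dt τ).preimage (continuous_acP P))

theorem rinv_sat (p : Ty → Pt → Prop) : RInv {y | ∃ P τ, Reach y P ∧ p τ (acP P y)} := by
  intro y P h
  have e : acP (sinv P) (acP P y) = y := by rw [← acP_mul, h.symp.sinv_mul, acP_one]
  refine ⟨fun ⟨Q, τ, k, l⟩ => ⟨Q * sinv P, τ, h.inv.trans (by rwa [e]), ?_⟩,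
    fun ⟨Q, τ, k, l⟩ => ⟨Q * P, τ, h.trans k, ?_⟩⟩
  · rwa [acP_mul, e]
  · rwa [acP_mul]

theorem rinv_S1 : RInv S1 := rinv_sat fun τ y => y ∈ Dt τ

theorem rinv_Sh (A : ℝ) : RInv (Sh A) :=
  fun y P h => by
  simp only [Sh, Set.mem_ofPred_eq, h.area]

theorem meas_Sh (A : ℝ) : MeasurableSet (Sh A) := by
  have ca : Continuous area := by unfold area Om; fun_prop
  exact (isClosed_Icc.preimage ca).measurableSet

theorem S1_scale {c d : ℝ} (hc : 0 < c) (hd : 0 < d) (y : Pt) : lin c 0 0 d y ∈ S1 ↔ y ∈ S1 := by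
  have key : ∀ (c d : ℝ) (y : Pt), 0 < c → 0 < d → y ∈ S1 → lin c 0 0 d y ∈ S1 := by
    rintro c d y hc hd ⟨P, τ, h, k1, k2⟩
    refine ⟨P, τ, h.lin (by simpa using mul_pos hc hd), acP_lin P .. ▸ ⟨fun b i => ?_, fun b i => ?_⟩⟩
    · have := mul_pos hc (k1 b i)
      cases b <;> simpa [lin, wd, ev_smul] using this
    · simpa [lin, ev_smul] using mul_pos hd (k2 b i)
  refine ⟨fun h => ?_, key c d y hc hd⟩
  have := key _ _ _ (inv_pos.2 hc) (inv_pos.2 hd) h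
  rwa [m1_lin_lin, m1_lin_one (by simp [hc.ne']) (by simp) (by simp) (by simp [hd.ne'])] at this

/-- The saturation of the good states. -/
def Sat (δ : ℝ) : Set Pt := {y | ∃ P τ, Reach y P ∧ Good δ τ (acP P y)}

theorem meas_Sat {δ : ℝ} (h : 0 < δ) : MeasurableSet (Sat δ) := by
  simp only [Sat, Set.ofPred_exists]
  exact .iUnion fun P => .iUnion fun τ => (isOpen_reach P).measurableSet.inter
    ((continuous_acP P).measurable (isCompact_good h τ).measurableSet)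

theorem nu_Sat {δ : ℝ} (h : 0 < δ) : nu (Sat δ) < ∞ := by
  have k : IsCompact (⋃ τ, {y | Good δ τ y}) := isCompact_iUnion (isCompact_good h)
  have : (volume : Measure Pt).IsAddHaarMeasure := Measure.prod.instIsAddHaarMeasure _ _
  exact ((nu_le_of_cover (meas_Sat h) k.measurableSet (rinv_sat _) fun y ⟨P, τ, k1, k2⟩ _ =>
    ⟨P, k1, Set.mem_iUnion.2 ⟨τ, k2⟩⟩).trans (measure_mono Set.inter_subset_right)).trans_lt
    k.measure_lt_top

theorem gt_us (t s : ℝ) (y : Pt) :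
    gt t (us s y) = lin (Real.exp t) (Real.exp t * s) 0 (Real.exp (-t)) y := by
  simp [gt, us, lin, smul_smul]

theorem mem_Sat {δ s t : ℝ} {τ : Ty} {y : Pt} {P : Mat} (h : Reach y P)
    (k : GoodAt δ τ (us s (acP P y)) t) : gt t (us s y) ∈ Sat δ := by
  have e : acP P (us s y) = us s (acP P y) := by rw [us_eq, us_eq, acP_lin]
  have h1 : Reach (us s y) P := us_eq s y ▸ h.lin (by norm_num)
  refine ⟨(St τ (us s (acP P y)) t).2 * P, (St τ (us s (acP P y)) t).1,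
    gt_eq t _ ▸ (h1.trans (e.symm ▸ k.1.reach)).lin (by simp [← Real.exp_add]), ?_⟩
  rw [gt_eq, acP_lin, ← gt_eq, acP_mul, e]
  exact k.2

/-- Markov inequality and Tonelli. -/
theorem nu_half {Y : Set Pt} (hY : MeasurableSet Y) (r : RInv Y) {σ : ℝ} (hσ : 0 < σ) (t : ℝ) :
    nu {y | ENNReal.ofReal (σ / 2) ≤ volume ({s | gt t (us s y) ∈ Y} ∩ Set.Icc 0 σ)} ≤
      2 * nu Y := by
  have : SFinite nu := by unfold nu; infer_instance
  have hX : MeasurableSet {p : Pt × ℝ | gt t (us p.2 p.1) ∈ Y} :=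
    (by unfold gt us; fun_prop : Continuous fun p : Pt × ℝ => gt t (us p.2 p.1)).measurable hY
  have h1 := mul_meas_ge_le_lintegral (μ := nu)
    (measurable_measure_prodMk_left (ν := volume.restrict (Set.Icc 0 σ)) hX)
    (ENNReal.ofReal (σ / 2))
  rw [← Measure.prod_apply hX, Measure.prod_apply_symm hX, lintegral_congr (g := fun _ => nu Y)
    fun s => ?_, lintegral_const, Measure.restrict_apply_univ, Real.volume_Icc, sub_zero] at h1
  · simp only [Measure.restrict_apply' measurableSet_Icc] at h1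
    rw [← ENNReal.mul_le_mul_iff_right (ENNReal.ofReal_pos.2 (half_pos hσ)).ne'
      ENNReal.ofReal_ne_top]
    refine h1.trans_eq ?_
    rw [← mul_assoc, ← ENNReal.ofReal_ofNat 2, ← ENNReal.ofReal_mul (half_pos hσ).le,
      div_mul_cancel₀ _ two_ne_zero, mul_comm]
  · simp only [Set.preimage_ofPred_eq, gt_us]
    exact nu_lin hY r (by simp [← Real.exp_add])

/-- Fatou and `ndiv_short`: most of a short segment spends large times in the saturation of a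
compact set of good states, which has finite measure. -/
theorem mu1_finite {A : ℝ} (hA : 0 < A) : IsFiniteMeasure (mu1 A) := by
  obtain ⟨C, α, hC, hα, H⟩ := ndiv_short (A2 := 2 * A) hA
  have t1 : Tendsto (fun d : ℝ => C * d ^ α) (𝓝[>] 0) (𝓝 (C * 0 ^ α)) :=
    (((Real.continuousAt_rpow_const 0 α (Or.inr hα.le)).tendsto.const_mul C).mono_left
      nhdsWithin_le_nhds)
  rw [Real.zero_rpow hα.ne', mul_zero] at t1
  obtain ⟨δ, d1, d2, d3⟩ := ((t1.eventually (gt_mem_nhds (by norm_num : (0 : ℝ) < 1 / 4))).and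
    (Ioc_mem_nhdsGT one_pos)).exists
  have hm : Monotone fun k : ℕ => {y ∈ Sh A | ∃ P τ, Reach y P ∧ HV τ (acP P y).2 ∧
      ∀ s ∈ Set.Icc (0 : ℝ) (1 / (k + 1)), WV τ (us s (acP P y)).1} :=
    fun k l h y ⟨h1, P, τ, h2, h3, h4⟩ => ⟨h1, P, τ, h2, h3, fun s hs =>
      h4 s ⟨hs.1, hs.2.trans (Nat.one_div_le_one_div h)⟩⟩
  refine ⟨?_⟩
  rw [mu1, Measure.restrict_apply_univ]
  refine lt_of_le_of_lt (le_trans (measure_mono ?_) (hm.measure_iUnion.trans_le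
    (iSup_le fun k => ?_))) (ENNReal.mul_lt_top (a := 2) ENNReal.ofNat_lt_top (nu_Sat d2))
  · rintro y ⟨⟨P, τ, h1, h2⟩, h3⟩
    have c : Continuous fun s : ℝ => us s (acP P y) := by unfold us; fun_prop
    obtain ⟨ε, e1, e2⟩ := Metric.isOpen_iff.1 ((isOpen_Dt τ).preimage c) 0 (by simpa [us] using h2)
    obtain ⟨k, hk⟩ := exists_nat_one_div_lt e1
    refine Set.mem_iUnion.2 ⟨k, h3, P, τ, h1, fun i => ⟨(h2.2 true i).le, h2.2 false i⟩,
      fun s hs => (e2 ?_).1⟩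
    rw [mem_ball_zero_iff, Real.norm_of_nonneg hs.1]
    exact hs.2.trans_lt hk
  have hσ : (0 : ℝ) < 1 / (k + 1) := Nat.one_div_pos_of_nat
  generalize (1 : ℝ) / (k + 1) = σ at hσ
  have hm' : Monotone fun N : ℕ => {y : Pt | ∀ n : ℕ, N ≤ n → ENNReal.ofReal (σ / 2) ≤
      volume ({s | gt n (us s y) ∈ Sat δ} ∩ Set.Icc 0 σ)} :=
    fun N N' h y hy n hn => hy n (h.trans hn)
  refine le_trans (measure_mono ?_) (hm'.measure_iUnion.trans_le (iSup_le fun N =>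
    le_trans (measure_mono fun y hy => hy N le_rfl) (nu_half (meas_Sat d2) (rinv_sat _) hσ N)))
  rintro y ⟨h1, P, τ, h2, h3, h4⟩
  obtain ⟨C1, hC1, H⟩ := H {acP P y} isCompact_singleton (Set.singleton_subset_iff.2 h2.cell) σ hσ
  have t3 : Tendsto (fun n : ℕ => C1 * Real.exp (-n) / δ) atTop (𝓝 (C1 * 0 / δ)) :=
    ((Real.tendsto_exp_neg_atTop_nhds_zero.comp tendsto_natCast_atTop_atTop).const_mul
      C1).div_const δ
  rw [mul_zero, zero_div] at t3
  obtain ⟨N, hN⟩ := eventually_atTop.1 (t3.eventually (gt_mem_nhds (by norm_num : (0 : ℝ) < 1 / 4)))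
  refine Set.mem_iUnion.2 ⟨N, fun n hn => ?_⟩
  have b1 := (H τ _ rfl (h2.area ▸ h1.1) (h2.area ▸ h1.2) h3 δ n d2 d3).trans
    (ENNReal.ofReal_le_ofReal (q := σ / 2) (by nlinarith [hN n hn]))
  rw [← ENNReal.add_le_add_iff_right (ENNReal.ofReal_ne_top (r := σ / 2)),
    ← ENNReal.ofReal_add (half_pos hσ).le (half_pos hσ).le, add_halves]
  refine le_trans (le_of_eq ?_) ((measure_mono (s := Set.Icc 0 σ) fun s hs => ?_).trans
    ((measure_union_le _ _).trans (add_le_add_right b1 _)))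
  · rw [Real.volume_Icc, sub_zero]
  · by_cases c : GoodAt δ τ (us s (acP P y)) n
    · exact Or.inl ⟨mem_Sat h2 c, hs⟩
    · exact Or.inr ⟨hs, h4 s hs, c⟩

end Pool.Agent.TW
end

-- part Pool.Agent.Lib.MP_4eaecc_an.M2
section

/-! The measure `mu1` is finite and invariant. -/

namespace Pool.Agent.TW

open Matrix MeasureTheory Filter Topology
open scoped ENNReal NNReal symmDiff

theorem m2_meas (A : ℝ) : MeasurableSet (S1 ∩ Sh A) := isOpen_S1.measurableSet.inter (meas_Sh A)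

theorem m2_inter {Y Z : Set Pt} (r : RInv Y) (s : RInv Z) : RInv (Y ∩ Z) :=
  fun y P k => and_congr (r y P k) (s y P k)

theorem m2_rinv (A : ℝ) : RInv (S1 ∩ Sh A) := m2_inter rinv_S1 (rinv_Sh A)

theorem m2_fin {A : ℝ} (hA : 0 < A) : nu (S1 ∩ Sh A) ≠ ∞ := by
  have h := (mu1_finite hA).measure_univ_lt_top
  rw [mu1, Measure.restrict_apply_univ] at h
  exact h.ne

theorem m2_sh (A : ℝ) {a b c d : ℝ} (h : a * d - b * c = 1) (y : Pt) :
    lin a b c d y ∈ Sh A ↔ y ∈ Sh A := by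
  simp only [Sh, Set.mem_ofPred_eq, area_lin, h, one_mul]

theorem m2_pre (A : ℝ) {a b c d a' b' c' d' : ℝ} (h : a * d - b * c = 1)
    (h' : a' * d' - b' * c' = 1) :
    nu (lin a' b' c' d' ⁻¹' ((S1 ∩ Sh A) \ lin a b c d ⁻¹' (S1 ∩ Sh A))) =
      nu ((S1 ∩ Sh A) \ lin a b c d ⁻¹' (S1 ∩ Sh A)) :=
  nu_lin ((m2_meas A).diff ((m1_cont a b c d).measurable (m2_meas A)))
    (fun y P k => and_congr (m2_rinv A y P k)
      (not_congr ((m2_rinv A).lin (h ▸ one_pos) y P k))) h'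

theorem m2_shear {A : ℝ} (hA : 0 < A) {b c : ℝ} (h0 : b * c = 0)
    (hc : ∀ x : ℝ, 0 < x → ∃ p q : ℝ, 0 < p ∧ 0 < q ∧ p * q = 1 ∧ b * q = p * (b * x ^ 2) ∧
      c * p = q * (c * x ^ 2)) : nu ((S1 ∩ Sh A) \ lin 1 b c 1 ⁻¹' (S1 ∩ Sh A)) = 0 := by
  have h1 : Tendsto (fun x : ℝ => nu ((S1 ∩ Sh A) \
      lin 1 (b * x ^ 2) (c * x ^ 2) 1 ⁻¹' (S1 ∩ Sh A))) (𝓝[>] 0) (𝓝 (nu ∅)) := by
    refine tendsto_measure_of_tendsto_indicator _
      (fun x => (m2_meas A).diff ((m1_cont _ _ _ _).measurable (m2_meas A))) (m2_meas A)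
      (m2_fin hA) (Eventually.of_forall fun _ => Set.sdiff_subset) fun y => ?_
    by_cases hy : y ∈ S1 ∩ Sh A
    · have k : Continuous fun x : ℝ => lin 1 (b * x ^ 2) (c * x ^ 2) 1 y := by
        unfold lin
        fun_prop
      have k2 := (k.tendsto' 0 y (m1_lin_one rfl (by simp) (by simp) rfl y)).eventually
        (isOpen_S1.mem_nhds hy.1)
      filter_upwards [k2.filter_mono nhdsWithin_le_nhds] with x hx
      exact ⟨fun e => e.2 ⟨hx, (m2_sh A (by linear_combination -x ^ 4 * h0) y).2 hy.2⟩,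
        fun e => e.elim⟩
    · exact Eventually.of_forall fun x => ⟨fun e => hy e.1, fun e => e.elim⟩
  rw [measure_empty] at h1
  refine tendsto_nhds_unique (tendsto_const_nhds.congr' ?_) h1
  filter_upwards [self_mem_nhdsWithin] with x hx
  obtain ⟨p, q, hp, hq, e, e1, e2⟩ := hc x hx
  have k : ∀ y, lin p 0 0 q y ∈ S1 ∩ Sh A ↔ y ∈ S1 ∩ Sh A := fun y =>
    and_congr (S1_scale hp hq y) (m2_sh A (by linarith) y)
  rw [← m2_pre A (a' := p) (b' := 0) (c' := 0) (d' := q) (by linarith) (by linarith)]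
  congr 1
  ext y
  refine and_congr (k y) (not_congr ?_)
  rw [Set.mem_preimage, Set.mem_preimage, ← k (lin 1 _ _ 1 y), m1_lin_lin, m1_lin_lin]
  simp only [mul_zero, zero_mul, add_zero, zero_add, mul_one, one_mul, e1, e2]

theorem m2_diff {A : ℝ} (hA : 0 < A) {a b c d : ℝ} (h : a * d - b * c = 1) :
    nu ((S1 ∩ Sh A) \ lin a b c d ⁻¹' (S1 ∩ Sh A)) = 0 := by
  refine (sl_induction (p := fun f => (∃ a b c d : ℝ, a * d - b * c = 1 ∧ f = lin a b c d) ∧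
    nu ((S1 ∩ Sh A) \ f ⁻¹' (S1 ∩ Sh A)) = 0) (fun s => ?_) (fun s => ?_) ?_ h).2
  · rw [funext (us_eq s)]
    refine ⟨⟨1, s, 0, 1, by simp, rfl⟩, m2_shear hA (by simp) fun x hx =>
      ⟨x⁻¹, x, inv_pos.2 hx, hx, inv_mul_cancel₀ hx.ne', ?_, by simp⟩⟩
    field_simp
  · rw [funext (ls_eq s)]
    refine ⟨⟨1, 0, s, 1, by simp, rfl⟩, m2_shear hA (by simp) fun x hx =>
      ⟨x, x⁻¹, hx, inv_pos.2 hx, mul_inv_cancel₀ hx.ne', by simp, ?_⟩⟩
    field_simp
  · rintro _ _ ⟨⟨a, b, c, d, h, rfl⟩, k⟩ ⟨⟨a', b', c', d', h', rfl⟩, k'⟩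
    refine ⟨⟨_, _, _, _, ?_, funext (m1_lin_lin a' b' c' d' a b c d)⟩, ?_⟩
    · linear_combination (a' * d' - b' * c') * h + h'
    · rw [← m2_pre A h h'] at k
      refine measure_mono_null (fun y hy => ?_) (measure_union_null k k')
      by_cases e : lin a' b' c' d' y ∈ S1 ∩ Sh A
      · exact Or.inl ⟨e, hy.2⟩
      · exact Or.inr ⟨hy.1, e⟩

/-- Conjugate by `gt t`, which preserves `S1`, and approximate `S1` by saturations of compact
subsets of the open sets `Dt τ`. -/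
theorem S1_lin {A : ℝ} (hA : 0 < A) {a b c d : ℝ} (h : a * d - b * c = 1) :
    nu ((lin a b c d ⁻¹' (S1 ∩ Sh A)) ∆ (S1 ∩ Sh A)) = 0 := by
  have m := (m2_meas A).nullMeasurableSet (μ := nu)
  have m' := ((m1_cont a b c d).measurable (m2_meas A)).nullMeasurableSet (μ := nu)
  refine measure_union_null ?_ (m2_diff hA h)
  rw [measure_sdiff_symm m' m (nu_lin (m2_meas A) (m2_rinv A) h)
    (ne_top_of_le_ne_top (m2_fin hA) (measure_mono Set.inter_subset_right)), m2_diff hA h]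

theorem mu1_lin {A : ℝ} (hA : 0 < A) {Y : Set Pt} (hY : MeasurableSet Y) (r : RInv Y)
    {a b c d : ℝ} (h : a * d - b * c = 1) : mu1 A (lin a b c d ⁻¹' Y) = mu1 A Y := by
  rw [mu1, ← Measure.restrict_congr_set (measure_symmDiff_eq_zero_iff.1 (S1_lin hA h)),
    Measure.restrict_apply ((m1_cont a b c d).measurable hY), ← Set.preimage_inter,
    nu_lin (hY.inter (m2_meas A)) (m2_inter r (m2_rinv A)) h,
    Measure.restrict_congr_set (measure_symmDiff_eq_zero_iff.1 (S1_lin hA h)),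
    Measure.restrict_apply hY]

/-- Finitely many dilates of the shell cover a compact set. -/
theorem vol_le_mu1 {A : ℝ} (hA : 0 < A) {K : Set Pt} (hK : IsCompact K) (hc : K ⊆ S1) :
    ∃ C : ℝ≥0, ∀ Y, MeasurableSet Y → RInv Y → Rad Y → volume (Y ∩ K) ≤ C * mu1 A Y := by
  have hcell : S1 ⊆ Cell := fun y ⟨_, _, k, _⟩ => k.cell0
  obtain ⟨C, hC⟩ := vol_le_nu hK (hc.trans hcell)
  obtain ⟨C', hC'⟩ : ∃ C : ℝ≥0, ∀ Y, MeasurableSet Y → RInv Y → Rad Y →
      nu (Y ∩ K) ≤ C * mu1 A Y := by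
    refine hK.induction_on (p := fun K => ∃ C : ℝ≥0, ∀ Y, MeasurableSet Y → RInv Y → Rad Y →
      nu (Y ∩ K) ≤ C * mu1 A Y) ⟨0, fun Y _ _ _ => by simp⟩ ?_ ?_ fun x hx => ?_
    · rintro s t hst ⟨C, h⟩
      exact ⟨C, fun Y h1 h2 h3 =>
        (measure_mono (Set.inter_subset_inter_right _ hst)).trans (h Y h1 h2 h3)⟩
    · rintro s t ⟨C, h⟩ ⟨C', h'⟩
      refine ⟨C + C', fun Y h1 h2 h3 => ?_⟩
      rw [Set.inter_union_distrib_left, ENNReal.coe_add, add_mul]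
      exact (measure_union_le _ _).trans (add_le_add (h Y h1 h2 h3) (h' Y h1 h2 h3))
    · have hx' := hcell (hc hx)
      have ha : 0 < area x := by
        rw [area_eq]
        exact add_pos (add_pos (hx' 0) (hx' 1)) (hx' 2)
      obtain ⟨c, c0, hc2⟩ : ∃ c : ℝ, 0 < c ∧ area (c • x) = 3 / 2 * A :=
        ⟨√(3 / 2 * A / area x), by positivity, by
          rw [smul_eq_lin, area_lin, Real.mul_self_sqrt (by positivity), mul_zero, sub_zero,
            div_mul_cancel₀ _ ha.ne']⟩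
      have k : Continuous fun y : Pt => area (c • y) := by
        unfold area Om
        fun_prop
      refine ⟨(fun y => c • y) ⁻¹' (S1 ∩ Sh A), ?_, Real.toNNReal (c ^ 8)⁻¹, fun Y h1 h2 h3 => ?_⟩
      · filter_upwards [self_mem_nhdsWithin, mem_nhdsWithin_of_mem_nhds
          (k.continuousAt.eventually (Icc_mem_nhds (a := A) (b := 2 * A) (by linarith)
            (by linarith)))] with y h1 h2
        exact ⟨(smul_eq_lin c y ▸ (S1_scale c0 c0 y).2 (hc h1) : c • y ∈ S1), h2⟩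
      · have e : Y = (fun y => c • y) ⁻¹' Y := Set.ext fun y => h3 c y c0
        rw [e, ← Set.preimage_inter, nu_smul (h1.inter (m2_meas A)) (m2_inter h2 (m2_rinv A)) c0,
          ← e, mu1, Measure.restrict_apply h1]
        rfl
  refine ⟨C * C', fun Y h1 h2 h3 => ?_⟩
  have k := hC _ (h1.inter hK.measurableSet)
  rw [Set.inter_assoc, Set.inter_self] at k
  rw [ENNReal.coe_mul, mul_assoc]
  exact k.trans (mul_le_mul_right (hC' Y h1 h2 h3) _)

theorem mu1_null {A : ℝ} (hA : 0 < A) {Y : Set Pt} (hY : MeasurableSet Y) (r : RInv Y)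
    (s : Rad Y) : mu1 A Y = 0 ↔ ∀ τ, volume (Y ∩ Dt τ) = 0 := by
  refine ⟨fun h τ => measure_null_of_locally_null _ fun x hx => ?_, fun h => ?_⟩
  · obtain ⟨K, hK, k1, k2⟩ := exists_compact_subset isOpen_S1
      (⟨1, τ, .refl (Dt_cell τ hx.2), by rw [acP_one]; exact hx.2⟩ : x ∈ S1)
    obtain ⟨C, hC⟩ := vol_le_mu1 hA hK k2
    refine ⟨Y ∩ K, inter_mem (mem_of_superset self_mem_nhdsWithin Set.inter_subset_left)
      (mem_nhdsWithin_of_mem_nhds (mem_interior_iff_mem_nhds.1 k1)), ?_⟩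
    simpa [h] using hC Y hY r s
  · rw [mu1, Measure.restrict_apply hY, ← nonpos_iff_eq_zero]
    refine (nu_le_of_cover (D := ⋃ τ, Dt τ) (hY.inter (m2_meas A))
      (isOpen_iUnion isOpen_Dt).measurableSet (m2_inter r (m2_rinv A))
      fun y ⟨_, ⟨P, τ, k, k'⟩, _⟩ _ => ⟨P, k, Set.mem_iUnion.2 ⟨τ, k'⟩⟩).trans_eq ?_
    rw [Set.inter_iUnion]
    exact measure_iUnion_null fun τ => measure_mono_null
      (Set.inter_subset_inter_left _ Set.inter_subset_left) (h τ)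

theorem mu1_cell (A : ℝ) : mu1 A Cellᶜ = 0 :=
  nonpos_iff_eq_zero.1 ((Measure.restrict_le_self _).trans_eq m1_ae)

theorem mu1_ne {A : ℝ} (hA : 0 < A) : mu1 A Set.univ ≠ 0 := by
  intro h
  have : (volume : Measure Pt).IsAddHaarMeasure := Measure.prod.instIsAddHaarMeasure _ _
  have k := (mu1_null hA MeasurableSet.univ (fun _ _ _ => Iff.rfl) fun _ _ _ => Iff.rfl).1 h .L
  rw [Set.univ_inter] at k
  refine (isOpen_Dt .L).measure_ne_zero volume ⟨(![1, 1, -1, -1], ![1, 1, 1, 1]), ?_, ?_⟩ k <;>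
    intro b i <;> cases b <;> fin_cases i <;> simp [wd, ed, eR, eL, ev_four]

end Pool.Agent.TW
end

-- part Pool.Agent.Lib.MP_4eaecc_an.M5a
section

/-! Domination by the invariant measure. -/

namespace Pool.Agent.TW

open Matrix MeasureTheory Filter Topology
open scoped ENNReal NNReal symmDiff

def Th : Set V := Set.Icc 1 2

theorem Th_edge (τ : Ty) {θ : V} (h : θ ∈ Th) (b : Bool) (i : Fin 3) :
    1 ≤ ev (ed τ b i) θ ∧ ev (ed τ b i) θ ≤ 4 := by
  have a0 : 1 ≤ θ 0 := h.1 0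
  have a1 : 1 ≤ θ 1 := h.1 1
  have a2 : 1 ≤ θ 2 := h.1 2
  have a3 : 1 ≤ θ 3 := h.1 3
  have b0 : θ 0 ≤ 2 := h.2 0
  have b1 : θ 1 ≤ 2 := h.2 1
  have b2 : θ 2 ≤ 2 := h.2 2
  have b3 : θ 3 ≤ 2 := h.2 3
  cases τ <;> cases b <;> fin_cases i <;> simp [ed, eR, eL, ev_four] <;> constructor <;> linarith

/-- The future `(τ, τ', M, σ)` of length `a` sends `(ξ, θ)`, with the area normalised, into `N`. -/
def Wf (A δ a : ℝ) (B : Ty × Ty × Mat × (Fin 3 → Bool)) (N : Set Pt) : Set Pt :=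
  {y | (∃ σ, Gw δ B.1 σ y.1) ∧ y.2 ∈ Th ∧ Gw δ B.2.1 B.2.2.2 (Real.exp a • ac B.2.2.1 y.1) ∧
    (Real.exp a • ac B.2.2.1 y.1, (A / Om y.1 y.2 * Real.exp (-a)) • ac B.2.2.1 y.2) ∈ N}

theorem m5a_hv (τ : Ty) {θ : V} (h : θ ∈ Th) : HV τ θ := fun i =>
  ⟨le_trans zero_le_one (Th_edge τ h true i).1, lt_of_lt_of_le one_pos (Th_edge τ h false i).1⟩

theorem m5a_Om {δ : ℝ} (hδ : 0 < δ) {τ : Ty} {σ : Fin 3 → Bool} {ξ θ : V} (h : Gw δ τ σ ξ)
    (k : θ ∈ Th) : δ ≤ Om ξ θ ∧ Om ξ θ ≤ 24 / δ := by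
  have key : ∀ i : Fin 3,
      2 * δ ≤ ev (eR τ i) ξ * ev (eL τ i) θ - ev (eL τ i) ξ * ev (eR τ i) θ ∧
      ev (eR τ i) ξ * ev (eL τ i) θ - ev (eL τ i) ξ * ev (eR τ i) θ ≤ 8 * δ⁻¹ := by
    intro i
    have r1 : δ ≤ ev (eR τ i) ξ ∧ ev (eR τ i) ξ ≤ δ⁻¹ := h.1 true i
    have r2 : δ ≤ -ev (eL τ i) ξ ∧ -ev (eL τ i) ξ ≤ δ⁻¹ := h.1 false i
    have t1 : 1 ≤ ev (eR τ i) θ ∧ ev (eR τ i) θ ≤ 4 := Th_edge τ k true i
    have t2 : 1 ≤ ev (eL τ i) θ ∧ ev (eL τ i) θ ≤ 4 := Th_edge τ k false i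
    have p1 := mul_le_mul r1.1 t2.1 zero_le_one (hδ.le.trans r1.1)
    have p2 := mul_le_mul r2.1 t1.1 zero_le_one (hδ.le.trans r2.1)
    have p3 := mul_le_mul r1.2 t2.2 (zero_le_one.trans t2.1) (inv_pos.mpr hδ).le
    have p4 := mul_le_mul r2.2 t1.2 (zero_le_one.trans t1.1) (inv_pos.mpr hδ).le
    constructor <;> linarith
  rw [Om_edges τ, Fin.sum_univ_three, div_eq_mul_inv]
  have k0 := key 0
  have k1 := key 1
  have k2 := key 2
  constructor <;> linarith [k0.1, k0.2, k1.1, k1.2, k2.1, k2.2]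

theorem m5a_contOm : Continuous (fun y : Pt => Om y.1 y.2) := by
  unfold Om
  fun_prop

theorem m5a_K0 {δ : ℝ} (hδ : 0 < δ) (τ : Ty) :
    IsCompact {y : Pt | (∃ σ, Gw δ τ σ y.1) ∧ y.2 ∈ Th} := by
  have e : {y : Pt | (∃ σ, Gw δ τ σ y.1) ∧ y.2 ∈ Th} = (⋃ σ, {ξ | Gw δ τ σ ξ}) ×ˢ Th := by
    ext y
    simp only [Set.mem_ofPred_eq, Set.mem_prod, Set.mem_iUnion]
  rw [e]
  refine IsCompact.prod (isCompact_iUnion fun σ => ?_) isCompact_Icc
  refine (isCompact_closedBall (0 : V) (2 / δ)).of_isClosed_subset (isClosed_gw δ τ σ) ?_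
  intro ξ hξ
  exact mem_closedBall_zero_iff.mpr (Gw.norm hξ hδ)

theorem isCompact_Wf (A : ℝ) {δ : ℝ} (hδ : 0 < δ) (a : ℝ) (B : Ty × Ty × Mat × (Fin 3 → Bool))
    {N : Set Pt} (hN : IsClosed N) : IsCompact (Wf A δ a B N) := by
  have hK := m5a_K0 hδ B.1
  have c0 := continuous_ac B.2.2.1
  have c1 : Continuous (fun y : Pt => Real.exp a • ac B.2.2.1 y.1) := by fun_prop
  have c2 : ContinuousOn (fun y : Pt => (A / Om y.1 y.2 * Real.exp (-a)) • ac B.2.2.1 y.2)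
      {y : Pt | (∃ σ, Gw δ B.1 σ y.1) ∧ y.2 ∈ Th} := by
    refine ContinuousOn.smul (ContinuousOn.mul (ContinuousOn.div continuousOn_const
      m5a_contOm.continuousOn ?_) continuousOn_const)
      ((continuous_ac _).comp continuous_snd).continuousOn
    rintro y ⟨⟨σ, h1⟩, h2⟩
    exact (lt_of_lt_of_le hδ (m5a_Om hδ h1 h2).1).ne'
  have h1 := (c1.continuousOn.prodMk c2).preimage_isClosed_of_isClosed hK.isClosed hN
  have h2 : IsClosed {y : Pt | Gw δ B.2.1 B.2.2.2 (Real.exp a • ac B.2.2.1 y.1)} :=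
    (isClosed_gw δ B.2.1 B.2.2.2).preimage c1
  refine hK.of_isClosed_subset ?_ (fun y hy => ⟨hy.1, hy.2.1⟩)
  have e : Wf A δ a B N = ({y : Pt | (∃ σ, Gw δ B.1 σ y.1) ∧ y.2 ∈ Th} ∩
      (fun y : Pt => (Real.exp a • ac B.2.2.1 y.1,
        (A / Om y.1 y.2 * Real.exp (-a)) • ac B.2.2.1 y.2)) ⁻¹' N) ∩
      {y : Pt | Gw δ B.2.1 B.2.2.2 (Real.exp a • ac B.2.2.1 y.1)} := by
    ext y
    constructor
    · rintro ⟨a1, a2, a3, a4⟩
      exact ⟨⟨⟨a1, a2⟩, a4⟩, a3⟩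
    · rintro ⟨⟨⟨a1, a2⟩, a4⟩, a3⟩
      exact ⟨a1, a2, a3, a4⟩
  rw [e]
  exact h1.inter h2

theorem m5a_meas (A δ : ℝ) {N : Set Pt} (hN : MeasurableSet N) :
    MeasurableSet {y : Pt | δ ≤ Om y.1 y.2 ∧ Om y.1 y.2 ≤ 24 / δ ∧
      (y.1, (A / Om y.1 y.2) • y.2) ∈ N} := by
  have hO : Measurable (fun y : Pt => Om y.1 y.2) := m5a_contOm.measurable
  have hm : Measurable (fun y : Pt => ((y.1, (A / Om y.1 y.2) • y.2) : Pt)) :=
    measurable_fst.prodMk ((measurable_const.div hO).smul measurable_snd)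
  exact (measurableSet_le measurable_const hO).inter
    ((measurableSet_le hO measurable_const).inter (hm hN))

theorem Wf_sum (A : ℝ) {δ : ℝ} (hδ : 0 < δ) : ∃ C : ℝ≥0, ∀ (a : ℝ)
    (b : Finset (Ty × Ty × Mat × (Fin 3 → Bool))) (N : Set Pt), MeasurableSet N →
    (∀ B ∈ b, Act B.1 B.2.1 B.2.2.1 B.2.2.2) → volume (⋃ B ∈ b, Wf A δ a B N) ≤
      C * volume {y : Pt | δ ≤ Om y.1 y.2 ∧ Om y.1 y.2 ≤ 24 / δ ∧
        (y.1, (A / Om y.1 y.2) • y.2) ∈ N} := by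
  have hK : IsCompact (⋃ τ : Ty, {y : Pt | (∃ σ, Gw δ τ σ y.1) ∧ y.2 ∈ Th}) :=
    isCompact_iUnion fun τ => m5a_K0 hδ τ
  have hc : (⋃ τ : Ty, {y : Pt | (∃ σ, Gw δ τ σ y.1) ∧ y.2 ∈ Th}) ⊆ Cell := by
    intro y hy
    obtain ⟨τ, ⟨σ, h1⟩, h2⟩ := Set.mem_iUnion.mp hy
    exact cell_of_valid (h1.sg hδ).1 (m5a_hv τ h2)
  obtain ⟨C, hC⟩ := sum_reach_le hK hc
  refine ⟨C, fun a b N hN hb => ?_⟩
  refine le_trans ?_ (hC a _ (m5a_meas A δ hN))
  refine le_trans (measure_mono ?_) (measure_iUnion_le _)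
  intro y hy
  obtain ⟨B, hB, ⟨σ, h1⟩, h2, h3, h4⟩ := Set.mem_iUnion₂.mp hy
  obtain ⟨hs, -, hp⟩ := hb B hB
  have h5 : Sg B.2.1 B.2.2.2 (ac B.2.2.1 y.1) := by
    have := (h3.sg hδ).smul (Real.exp_pos (-a))
    rwa [smul_smul, ← Real.exp_add, neg_add_cancel, Real.exp_zero, one_smul] at this
  obtain ⟨n, hn, he⟩ := hp y.1 h5
  have h6 : Reach y B.2.2.1 := by
    have := path_reach hn (m5a_hv B.1 h2)
    rwa [he] at this
  have h7 : Om (Real.exp a • ac B.2.2.1 y.1) (Real.exp (-a) • ac B.2.2.1 y.2) = Om y.1 y.2 := by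
    rw [smul_Om, Om_smul, hs.Om_ac, ← mul_assoc, ← Real.exp_add, add_neg_cancel, Real.exp_zero,
      one_mul]
  refine Set.mem_iUnion.mpr ⟨B.2.2.1, Set.mem_iUnion.mpr ⟨B.1, ⟨σ, h1⟩, h2⟩, h6, ?_⟩
  show δ ≤ Om (Real.exp a • ac B.2.2.1 y.1) (Real.exp (-a) • ac B.2.2.1 y.2) ∧
    Om (Real.exp a • ac B.2.2.1 y.1) (Real.exp (-a) • ac B.2.2.1 y.2) ≤ 24 / δ ∧
    (Real.exp a • ac B.2.2.1 y.1,
      (A / Om (Real.exp a • ac B.2.2.1 y.1) (Real.exp (-a) • ac B.2.2.1 y.2)) •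
        Real.exp (-a) • ac B.2.2.1 y.2) ∈ N
  rw [h7, smul_smul]
  exact ⟨(m5a_Om hδ h1 h2).1, (m5a_Om hδ h1 h2).2, h4⟩

/-- A map of class `C¹` near a compact set expands volumes by a bounded factor. -/
theorem m5a_image {H : Pt → Pt} {U K : Set Pt} (hU : IsOpen U) (hH : ContDiffOn ℝ 1 H U)
    (hK : IsCompact K) (hKU : K ⊆ U) : ∃ C : ℝ≥0, ∀ s, MeasurableSet s → s ⊆ K →
      volume (H '' s) ≤ C * volume s := by
  have h1 : ContinuousOn (fun x => (fderiv ℝ H x).det) K :=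
    ContinuousLinearMap.continuous_det.comp_continuousOn
      ((hH.continuousOn_fderiv_of_isOpen hU le_rfl).mono hKU)
  obtain ⟨c, hc⟩ := hK.exists_bound_of_continuousOn h1
  refine ⟨Real.toNNReal c, fun s hs hsK => ?_⟩
  have h2 : ∀ x ∈ s, HasFDerivWithinAt H (fderiv ℝ H x) s x := by
    intro x hx
    have hx' := hKU (hsK hx)
    exact (((hH.differentiableOn one_ne_zero) x hx').differentiableAt
      (hU.mem_nhds hx')).hasFDerivAt.hasFDerivWithinAt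
  have : (volume : Measure Pt).IsAddHaarMeasure := Measure.prod.instIsAddHaarMeasure _ _
  refine (addHaar_image_le_lintegral_abs_det_fderiv volume hs h2).trans ?_
  rw [← setLIntegral_const]
  refine setLIntegral_mono' hs fun x hx => ?_
  exact ENNReal.ofReal_le_ofReal (hc x (hsK hx))

/-- The map `(ξ, θ) ↦ ((A / Om ξ θ)^(1/2) ξ, θ)` is Lipschitz on compact sets. -/
theorem norm_vol {A δ : ℝ} (hA : 0 < A) (hδ : 0 < δ) {K : Set Pt} (hK : IsCompact K)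
    (hc : K ⊆ S1) : ∃ C : ℝ≥0, ∀ Y, MeasurableSet Y → RInv Y → Rad Y →
    volume {y : Pt | δ ≤ Om y.1 y.2 ∧ Om y.1 y.2 ≤ 24 / δ ∧
      (y.1, (A / Om y.1 y.2) • y.2) ∈ Y ∩ K} ≤ C * mu1 A Y := by
  obtain ⟨K', hK'⟩ : ∃ K' : Set Pt, K' =
    (fun p : ℝ × Pt => p.1 • p.2) '' (Set.Icc (δ / A) (24 / δ / A) ×ˢ K) := ⟨_, rfl⟩
  have k1 : IsCompact K' := by
    rw [hK']
    exact (isCompact_Icc.prod hK).image (continuous_fst.smul continuous_snd)
  have k2 : K' ⊆ S1 := by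
    rw [hK']
    rintro _ ⟨⟨s, k⟩, ⟨hs, hk⟩, rfl⟩
    have hs0 : 0 < s := lt_of_lt_of_le (div_pos hδ hA) hs.1
    show s • k ∈ S1
    rw [smul_eq_lin]
    exact (S1_scale hs0 hs0 k).mpr (hc hk)
  have k3 : K' ⊆ {y : Pt | 0 < Om y.1 y.2} := by
    intro y hy
    obtain ⟨P, τ, hP, -⟩ := k2 hy
    have h0 := hP.cell0
    have := area_eq y
    show 0 < area y
    linarith [h0 0, h0 1, h0 2]
  have hU : IsOpen {y : Pt | 0 < Om y.1 y.2} := isOpen_lt continuous_const m5a_contOm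
  have hO : ContDiff ℝ 1 (fun y : Pt => Om y.1 y.2) := by
    unfold Om
    fun_prop
  have hH : ContDiffOn ℝ 1 (fun y : Pt => ((Real.sqrt (A / Om y.1 y.2) • y.1, y.2) : Pt))
      {y : Pt | 0 < Om y.1 y.2} := by
    refine ContDiffOn.prodMk (ContDiffOn.smul (ContDiffOn.sqrt
      (ContDiffOn.div contDiffOn_const hO.contDiffOn fun y hy => ne_of_gt hy)
      fun y hy => (div_pos hA hy).ne') contDiff_fst.contDiffOn) contDiff_snd.contDiffOn
  obtain ⟨C1, h1⟩ := m5a_image hU hH k1 k3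
  obtain ⟨C2, h2⟩ := vol_le_mu1 hA k1 k2
  refine ⟨C1 * C2, fun Y hY r s => ?_⟩
  have h3 := h1 (Y ∩ K') (hY.inter k1.measurableSet) Set.inter_subset_right
  have h4 := h2 Y hY r s
  refine le_trans (measure_mono ?_) (h3.trans ?_)
  · rintro y ⟨a1, a2, a3, a4⟩
    have ho : 0 < Om y.1 y.2 := lt_of_lt_of_le hδ a1
    have e : (Om y.1 y.2 / A) • ((y.1, (A / Om y.1 y.2) • y.2) : Pt) =
        ((Om y.1 y.2 / A) • y.1, y.2) := by
      rw [Prod.smul_mk, smul_smul]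
      have : Om y.1 y.2 / A * (A / Om y.1 y.2) = 1 := by field_simp
      rw [this, one_smul]
    refine ⟨((Om y.1 y.2 / A) • y.1, y.2), ⟨?_, ?_⟩, ?_⟩
    · rw [← e]
      exact (s _ _ (div_pos ho hA)).mp a3
    · rw [← e, hK']
      exact ⟨(Om y.1 y.2 / A, (y.1, (A / Om y.1 y.2) • y.2)),
        ⟨⟨div_le_div_of_nonneg_right a1 hA.le, div_le_div_of_nonneg_right a2 hA.le⟩, a4⟩, rfl⟩
    · show ((Real.sqrt (A / Om ((Om y.1 y.2 / A) • y.1) y.2) • (Om y.1 y.2 / A) • y.1, y.2) : Pt) = y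
      have e1 : A / Om ((Om y.1 y.2 / A) • y.1) y.2 = (A / Om y.1 y.2) ^ 2 := by
        rw [smul_Om]; field_simp
      have e2 : A / Om y.1 y.2 * (Om y.1 y.2 / A) = 1 := by field_simp
      rw [e1, Real.sqrt_sq (div_pos hA ho).le, smul_smul, e2, one_smul]
  · rw [ENNReal.coe_mul, mul_assoc]
    exact mul_le_mul_right h4 _

theorem thick_lim {A δ : ℝ} (hA : 0 < A) (hδ : 0 < δ) {N : Set Pt} (hN : IsCompact N) :
    Tendsto (fun e : ℝ => volume {y : Pt | δ ≤ Om y.1 y.2 ∧ Om y.1 y.2 ≤ 24 / δ ∧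
      (y.1, (A / Om y.1 y.2) • y.2) ∈ Metric.cthickening e N}) (𝓝[>] 0)
      (𝓝 (volume {y : Pt | δ ≤ Om y.1 y.2 ∧ Om y.1 y.2 ≤ 24 / δ ∧
        (y.1, (A / Om y.1 y.2) • y.2) ∈ N})) := by
  have h := tendsto_measure_biInter_gt (μ := (volume : Measure Pt)) (a := (0 : ℝ))
    (s := fun e : ℝ => {y : Pt | δ ≤ Om y.1 y.2 ∧ Om y.1 y.2 ≤ 24 / δ ∧
      (y.1, (A / Om y.1 y.2) • y.2) ∈ Metric.cthickening e N})
    (fun r _ => (m5a_meas A δ Metric.isClosed_cthickening.measurableSet).nullMeasurableSet)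
    (fun i j _ hij y hy => ⟨hy.1, hy.2.1, Metric.cthickening_mono hij N hy.2.2⟩)
    (by
      refine ⟨1, one_pos, ?_⟩
      have k1 : IsCompact ((fun p : ℝ × Pt => ((p.2.1, p.1 • p.2.2) : Pt)) ''
          (Set.Icc (δ / A) (24 / δ / A) ×ˢ Metric.cthickening 1 N)) :=
        (isCompact_Icc.prod hN.cthickening).image (by fun_prop)
      refine ne_of_lt (lt_of_le_of_lt (measure_mono ?_) k1.measure_lt_top)
      rintro y ⟨a1, a2, a3⟩
      have ho : 0 < Om y.1 y.2 := lt_of_lt_of_le hδ a1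
      refine ⟨(Om y.1 y.2 / A, (y.1, (A / Om y.1 y.2) • y.2)),
        ⟨⟨div_le_div_of_nonneg_right a1 hA.le, div_le_div_of_nonneg_right a2 hA.le⟩, a3⟩, ?_⟩
      show ((y.1, (Om y.1 y.2 / A) • (A / Om y.1 y.2) • y.2) : Pt) = y
      have : Om y.1 y.2 / A * (A / Om y.1 y.2) = 1 := by field_simp
      rw [smul_smul, this, one_smul])
  have e : (⋂ r > (0 : ℝ), {y : Pt | δ ≤ Om y.1 y.2 ∧ Om y.1 y.2 ≤ 24 / δ ∧
      (y.1, (A / Om y.1 y.2) • y.2) ∈ Metric.cthickening r N}) =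
      {y : Pt | δ ≤ Om y.1 y.2 ∧ Om y.1 y.2 ≤ 24 / δ ∧ (y.1, (A / Om y.1 y.2) • y.2) ∈ N} := by
    ext y
    simp only [Set.mem_iInter, Set.mem_ofPred_eq]
    constructor
    · intro hy
      refine ⟨(hy 1 one_pos).1, (hy 1 one_pos).2.1, ?_⟩
      rw [← hN.isClosed.closure_eq, Metric.closure_eq_iInter_cthickening]
      exact Set.mem_iInter₂.mpr fun r hr => (hy r hr).2.2
    · intro hy r _
      exact ⟨hy.1, hy.2.1, Metric.self_subset_cthickening N hy.2.2⟩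
  rw [e] at h
  exact h

end Pool.Agent.TW
end

-- part Pool.Agent.Lib.MP_4eaecc_an.M3a
section

/-! The Hopf argument. -/

namespace Pool.Agent.TW

open Matrix MeasureTheory Filter Topology
open scoped ENNReal NNReal symmDiff

/-- Invariance under separate positive scalars on widths and heights. -/
def Bi (Y : Set Pt) : Prop := ∀ (c d : ℝ) (y : Pt), 0 < c → 0 < d → (y ∈ Y ↔ (c • y.1, d • y.2) ∈ Y)

/-- For most points all cocycles between `m η` and `M η` become parallel to `η`. -/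
theorem gapK {τ : Ty} {B1 B2 : Set V} (h1 : IsCompact B1) (h2 : IsCompact B2)
    (hs : B1 ×ˢ B2 ⊆ Dt τ) {ε : ℝ} (hε : 0 < ε) : ∃ δ : ℝ, 0 < δ ∧ δ ≤ 1 ∧ ∀ κ : ℝ, 0 < κ →
    ∃ t : ℝ, volume {y ∈ B1 ×ˢ B2 | ¬ (GoodAt δ τ y t ∧ ∀ (a : V) (m M : ℝ), Bnd τ y.2 a m M →
      ∃ m' M', M' - m' ≤ κ * (M - m) ∧ BndAt τ y t a m' M')} ≤ ENNReal.ofReal ε := by
  classical
  obtain ⟨C, α, C0, α0, hC⟩ := ndivK h1 h2 hs
  obtain ⟨δ, d0, d1, hδ⟩ : ∃ δ : ℝ, 0 < δ ∧ δ ≤ 1 ∧ C * δ ^ α ≤ ε / 24 := by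
    refine ⟨min 1 ((ε / 24 / C) ^ α⁻¹), by positivity, min_le_left _ _, ?_⟩
    rw [← le_div_iff₀' C0]
    refine (Real.rpow_le_rpow (by positivity) (min_le_right _ _) α0.le).trans_eq ?_
    exact Real.rpow_inv_rpow (by positivity) α0.ne'
  obtain ⟨τ2, c, t0, c0, hg⟩ := gap_det d0 d1
  refine ⟨δ, d0, d1, fun κ hκ => ?_⟩
  obtain ⟨J, hJ, hκ'⟩ : ∃ J : ℕ, 10 ≤ J ∧ Real.exp (-c * J) ≤ κ := ((eventually_ge_atTop 10).and
    ((Real.tendsto_exp_atBot.comp (tendsto_natCast_atTop_atTop.const_mul_atTop_of_neg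
      (neg_lt_zero.mpr c0))).eventually (ge_mem_nhds hκ))).exists
  obtain ⟨t, ht⟩ := eventually_atTop.mp (Real.tendsto_exp_neg_atTop_nhds_zero.eventually
    (ge_mem_nhds (show 0 < ε / 24 / C * δ by positivity)))
  have hB : MeasurableSet (B1 ×ˢ B2) := h1.measurableSet.prod h2.measurableSet
  have key : ∀ j : ℕ, volume.restrict (B1 ×ˢ B2) {y | ¬ GoodAt δ τ y (t + j * τ2)} ≤
      ENNReal.ofReal (ε / 12) := fun j => by
    rw [Measure.restrict_apply' hB, Set.inter_comm]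
    refine (hC δ _ d0 d1).trans (ENNReal.ofReal_le_ofReal ?_)
    have := ht (t + j * τ2) (le_add_of_nonneg_right (by positivity))
    rw [← div_le_iff₀ d0, le_div_iff₀' C0] at this
    linarith
  have cnt := count_bad _ (fun j : ℕ => {y | ¬ GoodAt δ τ y (t + j * τ2)})
    (fun j => (meas_goodAt δ τ _).compl) (J + 1) (J / 10 + 1) _ fun j _ => key j
  have e : ((J + 1 : ℕ) : ℝ≥0∞) ≤ (J / 10 + 1 : ℕ) * 10 := by
    exact_mod_cast (by omega : J + 1 ≤ (J / 10 + 1) * 10)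
  replace cnt := cnt.trans (mul_le_mul_left e _)
  rw [mul_assoc, ENNReal.mul_le_mul_iff_right (by simp) (ENNReal.natCast_ne_top _)] at cnt
  have fin := (measure_union_le _ _).trans (add_le_add ((measure_union_le _ _).trans
    (add_le_add (key 0) (key J))) cnt)
  rw [Measure.restrict_apply' hB] at fin
  refine ⟨t + J * τ2, le_trans (le_trans (measure_mono ?_) fin) (le_of_eq ?_)⟩
  · refine fun y hy => ⟨by_contra fun hn => ?_, hy.1⟩
    simp only [Set.mem_union, Set.mem_ofPred_eq, not_or, not_not, not_le, Nat.cast_zero, zero_mul,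
      add_zero] at hn
    refine hy.2 ⟨hn.1.2, fun a m M hb => ?_⟩
    have b := hn.1.1.1
    have r := hb.ratio b.1 b.2.1
    obtain ⟨m', M', -, -, k1, k2⟩ := hg τ y t J hJ b (by have := hn.2; omega) a m M (hb.path _ _)
    exact ⟨m', M', k1.trans (mul_le_mul_of_nonneg_right hκ' (by linarith [r.2.1, r.2.2])), k2⟩
  · rw [← ENNReal.ofReal_ofNat, ← ENNReal.ofReal_mul (by norm_num),
      ← ENNReal.ofReal_add (by positivity) (by positivity),
      ← ENNReal.ofReal_add (by positivity) (by positivity)]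
    congr 1
    ring

theorem m3a_sep {K1 K2 : Set Pt} (h1 : IsCompact K1) (h2 : IsCompact K2) {Y : Set Pt} (b : Bi Y)
    (s1 : K1 ⊆ Y) (s2 : K2 ⊆ Yᶜ) {C : ℝ} (hC : 1 ≤ C) : ∃ d : ℝ, 0 < d ∧ ∀ ξ η η' : V, ∀ c : ℝ,
    C⁻¹ ≤ c → c ≤ C → ‖η' - c • η‖ ≤ d → ¬ ((ξ, η) ∈ K1 ∧ (ξ, η') ∈ K2) := by
  have hK : IsCompact ((fun p : ℝ × Pt => (p.2.1, p.1 • p.2.2)) '' Set.Icc C⁻¹ C ×ˢ K1) :=
    (isCompact_Icc.prod h1).image (by fun_prop)
  obtain ⟨d, d0, hd⟩ := Disjoint.exists_cthickenings (Set.disjoint_left.mpr (by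
    rintro _ ⟨p, hp, rfl⟩ k
    have := (b 1 p.1 p.2 one_pos (lt_of_lt_of_le (by positivity) hp.1.1)).mp (s1 hp.2)
    rw [one_smul] at this
    exact s2 k this)) hK h2.isClosed
  refine ⟨d, d0, fun ξ η η' c c1 c2 hn k => Set.disjoint_left.mp hd
    (Metric.mem_cthickening_of_dist_le _ (ξ, c • η) d _ ⟨(c, ξ, η), ⟨⟨c1, c2⟩, k.1⟩, rfl⟩ ?_)
    (Metric.self_subset_cthickening _ k.2)⟩
  simpa [Prod.dist_eq, dist_eq_norm, d0.le] using hn

theorem sep_scale {K1 K2 : Set Pt} (h1 : IsCompact K1) (h2 : IsCompact K2) {Y : Set Pt} (b : Bi Y)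
    (s1 : K1 ⊆ Y) (s2 : K2 ⊆ Yᶜ) {C : ℝ} (hC : 1 ≤ C) : ∃ d : ℝ, 0 < d ∧ ∀ ξ η η' : V, ∀ c : ℝ,
    C⁻¹ ≤ c → c ≤ C → ‖η' - c • η‖ ≤ d → ¬ ((ξ, η) ∈ K1 ∧ (ξ, η') ∈ K2) ∧
      ¬ ((ξ, η) ∈ K2 ∧ (ξ, η') ∈ K1) := by
  obtain ⟨d, d0, hd⟩ := m3a_sep h1 h2 b s1 s2 hC
  obtain ⟨e, e0, he⟩ := m3a_sep h2 h1 (Y := Yᶜ) (fun c d y k l => (b c d y k l).not) s2
    (by rwa [compl_compl]) hC
  exact ⟨min d e, lt_min d0 e0, fun ξ η η' c c1 c2 hn =>
    ⟨hd ξ η η' c c1 c2 (hn.trans (min_le_left _ _)), he ξ η η' c c1 c2 (hn.trans (min_le_right _ _))⟩⟩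

end Pool.Agent.TW
end

-- part Pool.Agent.Lib.MP_4eaecc_an.M3
section

/-! The Hopf argument. -/

namespace Pool.Agent.TW

open Matrix MeasureTheory Filter Topology
open scoped ENNReal NNReal symmDiff

theorem m3_zero {x D : ℝ≥0∞} (hD : D ≠ ⊤) (h : ∀ ε : ℝ, 0 < ε → x ≤ ENNReal.ofReal ε * D) :
    x = 0 := by
  have h1 : Tendsto (fun ε : ℝ => ENNReal.ofReal ε * D) (𝓝[>] 0) (𝓝 (0 * D)) := by
    refine ENNReal.Tendsto.mul_const ?_ (Or.inr hD)
    have := (ENNReal.continuous_ofReal.tendsto (0 : ℝ)).mono_left (nhdsWithin_le_nhds (s := Set.Ioi 0))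
    simpa using this
  rw [zero_mul] at h1
  refine le_antisymm (ge_of_tendsto h1 ?_) (zero_le)
  filter_upwards [self_mem_nhdsWithin] with ε hε using h ε hε

theorem m3_gh {τ : Ty} {B : Set V} (h : IsCompact B) (hB : ∀ η ∈ B, HP τ η) :
    ∃ δ : ℝ, 0 < δ ∧ δ ≤ 1 ∧ ∀ η ∈ B, Gh δ τ η := by
  have key : ∀ᶠ δ in 𝓝 (0 : ℝ), ∀ η ∈ B, ∀ b i,
      δ < ev (ed τ b i) η ∧ δ * ev (ed τ b i) η < 1 := by
    refine h.eventually_forall_of_forall_eventually fun η hη => ?_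
    simp only [eventually_all]
    intro b i
    have c1 : Continuous fun z : ℝ × V => ev (ed τ b i) z.2 :=
      (continuous_ev _).comp continuous_snd
    refine Eventually.and ?_ ?_
    · exact (isOpen_lt continuous_fst c1).mem_nhds (hB η hη b i)
    · exact (isOpen_lt (continuous_fst.mul c1) continuous_const).mem_nhds (by simp)
  have k2 : ∀ᶠ δ in 𝓝[>] (0 : ℝ), δ ≤ 1 :=
    nhdsWithin_le_nhds (Iic_mem_nhds (by norm_num : (0 : ℝ) < 1))
  obtain ⟨δ, ⟨h1, h2⟩, h3⟩ :=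
    ((k2.and (self_mem_nhdsWithin (a := (0 : ℝ)) (s := Set.Ioi 0))).and
      (nhdsWithin_le_nhds key)).exists
  have h2' : 0 < δ := h2
  refine ⟨δ, h2', h1, fun η hη b i => ⟨(h3 η hη b i).1.le, ?_⟩⟩
  rw [← one_div, le_div_iff₀ h2', mul_comm]
  exact (h3 η hη b i).2.le

theorem m3_bnd {τ : Ty} {η a : V} {δ : ℝ} (hδ : 0 < δ) (h : Gh δ τ η) (k : Gh δ τ a) :
    Bnd τ η a (δ ^ 2) (δ ^ 2)⁻¹ := by
  intro b i
  constructor
  · calc δ ^ 2 * ev (ed τ b i) η ≤ δ ^ 2 * δ⁻¹ := by gcongr; exact (h b i).2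
      _ = δ := by field_simp
      _ ≤ _ := (k b i).1
  · calc ev (ed τ b i) a ≤ δ⁻¹ := (k b i).2
      _ = (δ ^ 2)⁻¹ * δ := by field_simp
      _ ≤ _ := by gcongr; exact (h b i).1

theorem m3_gh_bnd {τ : Ty} {η a : V} {δ m c : ℝ} (hm : 0 < m)
    (hc : 0 < c) (h : Gh δ τ (c • η)) (k : Bnd τ η a m m⁻¹) : Gh (m * δ) τ (c • a) := by
  intro b i
  have h1 := h b i
  have k1 := k b i
  simp only [ev_smul] at h1 ⊢
  constructor
  · calc m * δ ≤ m * (c * ev (ed τ b i) η) := by gcongr; exact h1.1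
      _ = c * (m * ev (ed τ b i) η) := by ring
      _ ≤ _ := by gcongr; exact k1.1
  · calc c * ev (ed τ b i) a ≤ c * (m⁻¹ * ev (ed τ b i) η) := by gcongr; exact k1.2
      _ = m⁻¹ * (c * ev (ed τ b i) η) := by ring
      _ ≤ m⁻¹ * δ⁻¹ := by gcongr; exact h1.2
      _ = (m * δ)⁻¹ := by rw [mul_inv]

theorem m3_vol1 (Z : Set Pt) (B : Set V) :
    volume {p : V × V × V | (p.1, p.2.1) ∈ Z ∧ p.2.2 ∈ B} ≤ volume Z * volume B := by
  have mp : MeasurePreserving (MeasurableEquiv.prodAssoc.symm : V × V × V → (V × V) × V)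
      volume volume :=
    (measurePreserving_prodAssoc (volume : Measure V) (volume : Measure V)
      (volume : Measure V)).symm _
  have h := Measure.le_map_apply mp.measurable.aemeasurable (μ := volume) (Z ×ˢ B)
  rw [mp.map_eq] at h
  exact h.trans (Measure.prod_prod Z B).le

theorem m3_vol2 (Z : Set Pt) (B : Set V) :
    volume {p : V × V × V | (p.1, p.2.2) ∈ Z ∧ p.2.1 ∈ B} ≤ volume Z * volume B := by
  have mp : MeasurePreserving (Prod.map id Prod.swap : V × V × V → V × V × V) volume volume :=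
    (MeasurePreserving.id (volume : Measure V)).prod Measure.measurePreserving_swap
  have h := Measure.le_map_apply mp.measurable.aemeasurable (μ := volume)
    {p : V × V × V | (p.1, p.2.1) ∈ Z ∧ p.2.2 ∈ B}
  rw [mp.map_eq] at h
  exact h.trans (m3_vol1 Z B)

theorem m3_gt {Y : Set Pt} (r : RInv Y) (b : Bi Y) {y : Pt} {P : Mat} (h : Reach y P) (t : ℝ) :
    y ∈ Y ↔ gt t (acP P y) ∈ Y :=
  (r y P h).trans (b _ _ _ (Real.exp_pos t) (Real.exp_pos (-t)))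

/-- The deterministic step. -/
theorem m3_core {τ : Ty} {ξ η a : V} {δ m κ t : ℝ} (hδ : 0 < δ) (hm : 0 < m) (hm1 : m ≤ 1)
    (hκ : 0 < κ) (ha : HV τ a) (hb : Bnd τ η a m m⁻¹) (hg : GoodAt δ τ (ξ, η) t)
    (hc : ∃ m' M', M' - m' ≤ κ * (m⁻¹ - m) ∧ BndAt τ (ξ, η) t a m' M') :
    ∃ (τ' : Ty) (P : Mat) (c : ℝ), Reach (ξ, η) P ∧ Reach (ξ, a) P ∧
      Good (m * δ) τ' (gt t (acP P (ξ, η))) ∧ Good (m * δ) τ' (gt t (acP P (ξ, a))) ∧
      m ≤ c ∧ c ≤ m⁻¹ ∧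
      ‖(gt t (acP P (ξ, a))).2 - c • (gt t (acP P (ξ, η))).2‖ ≤ 2 * κ * m⁻¹ := by
  obtain ⟨hB, hG⟩ := hg
  obtain ⟨m', M', hd, hb'⟩ := hc
  have hpv := pv_of_gen hB.1 hB.2.2.1 (stage τ (ξ, η) (Real.exp t))
  have hwv : WV (St τ (ξ, η) t).1 (ac (St τ (ξ, η) t).2 ξ) := (hpv _ le_rfl).1
  have hhv : HV (St τ (ξ, η) t).1 (ac (St τ (ξ, η) t).2 η) := path_hv hB.2.1 _ _
  have hbp : Bnd (St τ (ξ, η) t).1 (ac (St τ (ξ, η) t).2 η) (ac (St τ (ξ, η) t).2 a) m m⁻¹ :=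
    hb.path ξ _
  have hmd : m * δ ≤ δ := by nlinarith
  have hr := hbp.ratio hwv hhv
  have hcl := Bnd.close hb' hwv hhv hB.low
  refine ⟨(St τ (ξ, η) t).1, (St τ (ξ, η) t).2, _, hB.reach, path_reach hpv ha,
    Good.mono hG (by positivity) hmd, ⟨?_, ?_⟩, hr.2.1, hr.2.2, ?_⟩
  · obtain ⟨σ, hσ⟩ := hG.1
    exact ⟨σ, Gw.mono hσ (by positivity) hmd⟩
  · exact m3_gh_bnd hm (Real.exp_pos _) hG.2 hbp
  · simp only [gt, acP] at hcl ⊢
    rw [smul_comm, ← smul_sub, norm_smul, Real.norm_eq_abs, abs_of_pos (Real.exp_pos _)]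
    calc _ ≤ Real.exp (-t) * (2 * (M' - m') * Real.exp t) := by gcongr
      _ = 2 * (M' - m') := by rw [Real.exp_neg]; field_simp
      _ ≤ 2 * (κ * (m⁻¹ - m)) := by gcongr
      _ ≤ 2 * κ * m⁻¹ := by nlinarith [mul_pos hκ hm]

theorem hopf_box {τ : Ty} {B1 B2 : Set V} (h1 : IsCompact B1) (h2 : IsCompact B2)
    (hs : B1 ×ˢ B2 ⊆ Dt τ) {Y : Set Pt} (hY : MeasurableSet Y) (r : RInv Y) (b : Bi Y) :
    volume {p : V × V × V | p.1 ∈ B1 ∧ p.2.1 ∈ B2 ∧ p.2.2 ∈ B2 ∧ (p.1, p.2.1) ∈ Y ∧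
      (p.1, p.2.2) ∉ Y} = 0 := by
  rcases B1.eq_empty_or_nonempty with rfl | ⟨ξ0, hξ0⟩
  · simp
  have hp : ∀ η ∈ B2, HP τ η := fun η hη => (hs (Set.mk_mem_prod hξ0 hη)).2
  obtain ⟨δ0, hδ0, hδ1, hgh⟩ := m3_gh h2 hp
  have hm : 0 < δ0 ^ 2 := by positivity
  have hm1 : δ0 ^ 2 ≤ 1 := pow_le_one₀ hδ0.le hδ1
  obtain ⟨C, hC⟩ := sum_reach_le (h1.prod h2) (hs.trans (Dt_cell τ))
  have hB2 : volume B2 ≠ ⊤ := h2.measure_lt_top.ne
  refine m3_zero (D := 2 * ((1 + C * 2) * volume B2)) (by finiteness) fun ε hε => ?_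
  obtain ⟨δ, hδ, -, hgap⟩ := gapK h1 h2 hs hε
  set K0 : Set Pt := ⋃ τ', {y | Good (δ0 ^ 2 * δ) τ' y} with hK0
  have cK0 : IsCompact K0 := isCompact_iUnion fun τ' => isCompact_good (by positivity) τ'
  have hε' : ENNReal.ofReal ε ≠ 0 := by simpa using hε
  have f1 : volume (Y ∩ K0) ≠ ⊤ :=
    ((measure_mono Set.inter_subset_right).trans_lt cK0.measure_lt_top).ne
  have f2 : volume (Yᶜ ∩ K0) ≠ ⊤ :=
    ((measure_mono Set.inter_subset_right).trans_lt cK0.measure_lt_top).ne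
  have m1 : MeasurableSet (Y ∩ K0) := hY.inter cK0.measurableSet
  have m2 : MeasurableSet (Yᶜ ∩ K0) := hY.compl.inter cK0.measurableSet
  obtain ⟨K1, s1, c1, v1⟩ := m1.exists_isCompact_sdiff_lt f1 hε'
  obtain ⟨K2, s2, c2, v2⟩ := m2.exists_isCompact_sdiff_lt f2 hε'
  have hC1 : 1 ≤ (δ0 ^ 2)⁻¹ := one_le_inv_iff₀.2 ⟨hm, hm1⟩
  obtain ⟨d, hd, hsep⟩ := sep_scale c1 c2 b (s1.trans Set.inter_subset_left)
    (s2.trans Set.inter_subset_left) hC1
  obtain ⟨t, ht⟩ := hgap (d * δ0 ^ 2 / 2) (by positivity)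
  set N : Set Pt := ((Y ∩ K0) \ K1) ∪ ((Yᶜ ∩ K0) \ K2) with hN
  have mN : MeasurableSet N := (m1.diff c1.measurableSet).union (m2.diff c2.measurableSet)
  have vN : volume N ≤ ENNReal.ofReal ε * 2 := by
    refine (measure_union_le _ _).trans ?_
    rw [mul_two]
    exact add_le_add v1.le v2.le
  have : Countable Mat := inferInstanceAs (Countable (Fin 4 → Fin 4 → ℤ))
  set Z : Set Pt := {y ∈ B1 ×ˢ B2 | ¬ (GoodAt δ τ y t ∧ ∀ (a : V) (m M : ℝ), Bnd τ y.2 a m M →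
      ∃ m' M', M' - m' ≤ d * δ0 ^ 2 / 2 * (M - m) ∧ BndAt τ y t a m' M')} ∪
    ⋃ P : Mat, {y ∈ B1 ×ˢ B2 | Reach y P ∧ gt t (acP P y) ∈ N} with hZ
  have vZ : volume Z ≤ ENNReal.ofReal ε * (1 + C * 2) := by
    refine (measure_union_le _ _).trans ?_
    rw [mul_add, mul_one]
    refine add_le_add ht ((measure_iUnion_le _).trans ((hC t N mN).trans ?_))
    calc (C : ℝ≥0∞) * volume N ≤ C * (ENNReal.ofReal ε * 2) := by gcongr
      _ = _ := by ring
  have sub : {p : V × V × V | p.1 ∈ B1 ∧ p.2.1 ∈ B2 ∧ p.2.2 ∈ B2 ∧ (p.1, p.2.1) ∈ Y ∧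
      (p.1, p.2.2) ∉ Y} ⊆ {p : V × V × V | (p.1, p.2.1) ∈ Z ∧ p.2.2 ∈ B2} ∪
      {p : V × V × V | (p.1, p.2.2) ∈ Z ∧ p.2.1 ∈ B2} := by
    rintro ⟨ξ, η, a⟩ ⟨hξ, hη, ha, hy, hy'⟩
    simp only at hξ hη ha hy hy'
    by_cases hg : GoodAt δ τ (ξ, η) t ∧ ∀ (a : V) (m M : ℝ), Bnd τ η a m M →
      ∃ m' M', M' - m' ≤ d * δ0 ^ 2 / 2 * (M - m) ∧ BndAt τ (ξ, η) t a m' M'
    swap
    · exact Or.inl ⟨Or.inl ⟨Set.mk_mem_prod hξ hη, hg⟩, ha⟩
    have hb := m3_bnd hδ0 (hgh η hη) (hgh a ha)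
    obtain ⟨τ', P, c, r1, r2, g1, g2, l1, l2, l3⟩ := m3_core hδ hm hm1 (by positivity)
      ((hgh a ha).hv hδ0) hb hg.1 (hg.2 a _ _ hb)
    have l4 : 2 * (d * δ0 ^ 2 / 2) * (δ0 ^ 2)⁻¹ = d := by field_simp
    rw [l4] at l3
    have hn := (hsep (gt t (acP P (ξ, η))).1 _ _ c (by rwa [inv_inv]) l2 l3).1
    have y1 : gt t (acP P (ξ, η)) ∈ Y ∩ K0 :=
      ⟨(m3_gt r b r1 t).1 hy, Set.mem_iUnion.2 ⟨τ', g1⟩⟩
    have y2 : gt t (acP P (ξ, a)) ∈ Yᶜ ∩ K0 :=
      ⟨fun h => hy' ((m3_gt r b r2 t).2 h), Set.mem_iUnion.2 ⟨τ', g2⟩⟩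
    by_cases k1 : gt t (acP P (ξ, η)) ∈ K1
    · have k2 : gt t (acP P (ξ, a)) ∉ K2 := fun k2 => hn ⟨k1, k2⟩
      exact Or.inr ⟨Or.inr (Set.mem_iUnion.2
        ⟨P, Set.mk_mem_prod hξ ha, r2, Or.inr ⟨y2, k2⟩⟩), hη⟩
    · exact Or.inl ⟨Or.inr (Set.mem_iUnion.2
        ⟨P, Set.mk_mem_prod hξ hη, r1, Or.inl ⟨y1, k1⟩⟩), ha⟩
  refine (measure_mono sub).trans ((measure_union_le _ _).trans ?_)
  refine (add_le_add (m3_vol1 Z B2) (m3_vol2 Z B2)).trans ?_
  calc volume Z * volume B2 + volume Z * volume B2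
      ≤ ENNReal.ofReal ε * (1 + C * 2) * volume B2 + ENNReal.ofReal ε * (1 + C * 2) * volume B2 := by
        gcongr
    _ = _ := by ring

theorem m3_exh {U : Set V} (hU : IsOpen U) : ∃ K : ℕ → Set V, (∀ n, IsCompact (K n)) ∧
    (∀ n, K n ⊆ U) ∧ ∀ x ∈ U, ∀ᶠ n in atTop, x ∈ K n := by
  obtain ⟨F, h1, h2, h3, h4⟩ := hU.exists_iUnion_isClosed
  refine ⟨fun n => F n ∩ Metric.closedBall 0 n,
    fun n => (isCompact_closedBall _ _).inter_left (h1 n),
    fun n => Set.inter_subset_left.trans (h2 n), fun x hx => ?_⟩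
  rw [← h3] at hx
  obtain ⟨k, hk⟩ := Set.mem_iUnion.1 hx
  filter_upwards [eventually_ge_atTop k, tendsto_natCast_atTop_atTop.eventually_ge_atTop ‖x‖]
    with n hn hn'
  exact ⟨h4 hn hk, by simpa using hn'⟩

theorem hopf (τ : Ty) {Y : Set Pt} (hY : MeasurableSet Y) (r : RInv Y) (b : Bi Y) :
    volume {p : V × V × V | WV τ p.1 ∧ HP τ p.2.1 ∧ HP τ p.2.2 ∧ (p.1, p.2.1) ∈ Y ∧
      (p.1, p.2.2) ∉ Y} = 0 := by
  have o1 : IsOpen {ξ | WV τ ξ} := by
    simp only [WV, Set.ofPred_forall]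
    refine isOpen_iInter_of_finite fun c => isOpen_iInter_of_finite fun i => ?_
    cases c
    · exact isOpen_lt continuous_const (continuous_ev _).neg
    · exact isOpen_lt continuous_const (continuous_ev _)
  have o2 : IsOpen {η | HP τ η} := by
    simp only [HP, Set.ofPred_forall]
    exact isOpen_iInter_of_finite fun c => isOpen_iInter_of_finite fun i =>
      isOpen_lt continuous_const (continuous_ev _)
  obtain ⟨K1, c1, s1, e1⟩ := m3_exh o1
  obtain ⟨K2, c2, s2, e2⟩ := m3_exh o2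
  refine measure_mono_null (t := ⋃ n, {p : V × V × V | p.1 ∈ K1 n ∧ p.2.1 ∈ K2 n ∧ p.2.2 ∈ K2 n ∧
    (p.1, p.2.1) ∈ Y ∧ (p.1, p.2.2) ∉ Y}) ?_ (measure_iUnion_null fun n =>
      hopf_box (τ := τ) (c1 n) (c2 n) (fun y hy => ⟨s1 n hy.1, s2 n hy.2⟩) hY r b)
  rintro p ⟨h1, h2, h3, h4, h5⟩
  obtain ⟨n, ⟨k1, k2⟩, k3⟩ := (((e1 _ h1).and (e2 _ h2)).and (e2 _ h3)).exists
  exact Set.mem_iUnion.2 ⟨n, k1, k2, k3, h4, h5⟩

end Pool.Agent.TW
end

-- part Pool.Agent.Lib.MP_4eaecc_an.M4a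
section

/-! Ergodicity. -/

namespace Pool.Agent.TW

open Matrix MeasureTheory Filter Topology
open scoped ENNReal NNReal symmDiff

theorem m4a_half {α β : Type} [MeasurableSpace α] [MeasurableSpace β] {μ : Measure α}
    {ν : Measure β} [SFinite ν] {Y : Set (α × β)} (hY : MeasurableSet Y)
    (h : μ.prod (ν.prod ν) {p | (p.1, p.2.1) ∈ Y ∧ (p.1, p.2.2) ∉ Y} = 0) :
    ∃ A : Set α, ∀ᵐ p ∂μ.prod ν, p ∈ Y ↔ p.1 ∈ A := by
  have hA : MeasurableSet {x | ν (Prod.mk x ⁻¹' Yᶜ) = 0} :=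
    measurable_measure_prodMk_left hY.compl (measurableSet_singleton 0)
  refine ⟨_, (Measure.ae_prod_iff_ae_ae (hY.iff (measurable_fst hA))).2
    (((Measure.measure_prod_null ((hY.preimage (by fun_prop)).inter
      (hY.compl.preimage (by fun_prop)))).1 h).mono fun x hx => ?_)⟩
  have h1 : ν (Prod.mk x ⁻¹' Y) * ν (Prod.mk x ⁻¹' Yᶜ) = 0 := (Measure.prod_prod _ _).symm.trans hx
  by_cases e : ν (Prod.mk x ⁻¹' Yᶜ) = 0
  · exact (measure_eq_zero_iff_ae_notMem.1 e).mono fun y hy => iff_of_true (not_not.1 hy) e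
  · exact (measure_eq_zero_iff_ae_notMem.1 ((mul_eq_zero.1 h1).resolve_right e)).mono
      fun y hy => iff_of_false hy e

theorem prod_triv {U W : Set V} (hU : MeasurableSet U) (hW : MeasurableSet W) {Y : Set Pt}
    (hY : MeasurableSet Y)
    (h1 : volume {p : V × V × V | p.1 ∈ U ∧ p.2.1 ∈ W ∧ p.2.2 ∈ W ∧ (p.1, p.2.1) ∈ Y ∧
      (p.1, p.2.2) ∉ Y} = 0)
    (h2 : volume {p : V × V × V | p.1 ∈ W ∧ p.2.1 ∈ U ∧ p.2.2 ∈ U ∧ (p.2.1, p.1) ∈ Y ∧
      (p.2.2, p.1) ∉ Y} = 0) :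
    volume (Y ∩ U ×ˢ W) = 0 ∨ volume (Yᶜ ∩ U ×ˢ W) = 0 := by
  have m1 : MeasurableSet {p : V × V × V | (p.1, p.2.1) ∈ Y ∧ (p.1, p.2.2) ∉ Y} :=
    (hY.preimage (by fun_prop)).inter (hY.compl.preimage (by fun_prop))
  have m2 : MeasurableSet {p : V × V × V | (p.2.1, p.1) ∈ Y ∧ (p.2.2, p.1) ∉ Y} :=
    (hY.preimage (by fun_prop)).inter (hY.compl.preimage (by fun_prop))
  obtain ⟨A, hA⟩ := m4a_half (μ := volume.restrict U) (ν := volume.restrict W) hY (by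
    rw [Measure.prod_restrict, Measure.prod_restrict, Measure.restrict_apply m1]
    refine measure_mono_null ?_ h1
    exact fun p hp => ⟨hp.2.1, hp.2.2.1, hp.2.2.2, hp.1⟩)
  obtain ⟨B, hB⟩ := m4a_half (μ := volume.restrict W) (ν := volume.restrict U)
    (measurable_swap hY) (by
      rw [Measure.prod_restrict, Measure.prod_restrict]
      refine (Measure.restrict_apply m2).trans (measure_mono_null ?_ h2)
      exact fun p hp => ⟨hp.2.1, hp.2.2.1, hp.2.2.2, hp.1⟩)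
  have hB' : ∀ᵐ p ∂(volume.restrict U).prod (volume.restrict W), p ∈ Y ↔ p.2 ∈ B :=
    Measure.measurePreserving_swap.quasiMeasurePreserving.ae hB
  rw [← Measure.restrict_apply hY, ← Measure.restrict_apply hY.compl, Measure.volume_eq_prod,
    ← Measure.prod_restrict]
  have h3 : (volume.restrict U).prod (volume.restrict W) (A ×ˢ Bᶜ) = 0 :=
    measure_eq_zero_iff_ae_notMem.2 ((hA.and hB').mono fun p hp k => k.2 (hp.2.1 (hp.1.2 k.1)))
  rw [Measure.prod_prod, mul_eq_zero] at h3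
  refine h3.imp (fun h => ?_) fun h => ?_
  · exact measure_eq_zero_iff_ae_notMem.2 ((hA.and (Measure.quasiMeasurePreserving_fst.ae
      (measure_eq_zero_iff_ae_notMem.1 h))).mono fun p hp k => hp.2 (hp.1.1 k))
  · exact measure_eq_zero_iff_ae_notMem.2 ((hB'.and (Measure.quasiMeasurePreserving_snd.ae
      (measure_eq_zero_iff_ae_notMem.1 h))).mono fun p hp k => hp.2 fun e => k (hp.1.2 e))

theorem m4a_WV (τ : Ty) : IsOpen {ξ | WV τ ξ} := by
  simp only [WV, Set.ofPred_forall]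
  refine isOpen_iInter_of_finite fun b => isOpen_iInter_of_finite fun i =>
    isOpen_lt continuous_const ?_
  cases b
  exacts [(continuous_ev _).neg, continuous_ev _]

theorem m4a_HP (τ : Ty) : IsOpen {η | HP τ η} := by
  simp only [HP, Set.ofPred_forall]
  exact isOpen_iInter_of_finite fun b => isOpen_iInter_of_finite fun i =>
    isOpen_lt continuous_const (continuous_ev _)

theorem m4a_meet (τ : Ty) : volume (Dt .L ∩ Dt τ) ≠ 0 := by
  have : (volume : Measure Pt).IsOpenPosMeasure := Measure.prod.instIsOpenPosMeasure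
  refine (((m4a_WV .L).prod (m4a_HP .L)).inter ((m4a_WV τ).prod (m4a_HP τ))).measure_ne_zero _ ?_
  cases τ
  · exact ⟨(![1, 1, -2, -1], ![1, 1, 1, 1]), by
      simp [WV, HP, wd, ed, eR, eL, ev_four, Fin.forall_fin_succ]⟩
  · exact ⟨(![1, 1, -2, -1], ![1, 1, 1, 1]), by
      simp [WV, HP, wd, ed, eR, eL, ev_four, Fin.forall_fin_succ]⟩
  · exact ⟨(![2, 1, -1, -1], ![1, 1, 1, 1]), by
      simp [WV, HP, wd, ed, eR, eL, ev_four, Fin.forall_fin_succ]⟩

theorem m4a_one {Y : Set Pt} (hY : MeasurableSet Y) (r : RInv Y) (b : Bi Y) (τ : Ty) :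
    volume (Y ∩ Dt τ) = 0 ∨ volume (Yᶜ ∩ Dt τ) = 0 := by
  refine prod_triv (m4a_WV τ).measurableSet (m4a_HP τ).measurableSet hY (hopf τ hY r b) ?_
  obtain ⟨τ', N, hN, h1, h2, h3⟩ := rot_cone τ
  have r' : RInv (lin 0 1 (-1) 0 ⁻¹' Y) := r.lin (by norm_num)
  have h4 := hopf τ' ((m1_cont 0 1 (-1) 0).measurable hY) r' fun c d y hc hd => by
    simpa [lin] using b d c (y.2, -y.1) hd hc
  have h5 := (hN.mp_ac.comp (Measure.measurePreserving_neg volume)).prod (hN.mp_ac.prod hN.mp_ac)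
  have h6 : ∀ ξ η, WV τ ξ → HP τ η →
      ((ac N (-η), ac N ξ) ∈ lin 0 1 (-1) 0 ⁻¹' Y ↔ (ξ, η) ∈ Y) := fun ξ η k1 k2 => by
    simpa [lin, acP] using (r' _ N (h3 (ξ, η) ⟨k1, k2⟩)).symm
  refine measure_mono_null ?_ (h5.quasiMeasurePreserving.preimage_null h4)
  rintro ⟨η, ξ, ξ'⟩ ⟨k1, k2, k3, k4, k5⟩
  exact ⟨(h2 η).1 k1, (h1 ξ).1 k2, (h1 ξ').1 k3, (h6 ξ η k2 k1).2 k4, mt (h6 ξ' η k3 k1).1 k5⟩

/-- Apply `hopf` to `Y` and to its rotation (`rot_cone`); the three cones overlap. -/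
theorem bi_triv {Y : Set Pt} (hY : MeasurableSet Y) (r : RInv Y) (b : Bi Y) :
    (∀ τ, volume (Y ∩ Dt τ) = 0) ∨ ∀ τ, volume (Yᶜ ∩ Dt τ) = 0 := by
  refine (m4a_one hY r b .L).imp (fun h τ => (m4a_one hY r b τ).resolve_right fun k => ?_)
    fun h τ => (m4a_one hY r b τ).resolve_left fun k => ?_ <;>
  refine m4a_meet τ (measure_mono_null (fun y hy => ?_) (measure_union_null h k)) <;>
  by_cases e : y ∈ Y
  exacts [Or.inl ⟨e, hy.1⟩, Or.inr ⟨e, hy.2⟩, Or.inr ⟨e, hy.2⟩, Or.inl ⟨e, hy.1⟩]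

/-- Replace `Y` by the set of `y` with `gt t y ∈ Y` for almost every `t`. -/
theorem erg_gt {A : ℝ} (hA : 0 < A) {Y : Set Pt} (hY : MeasurableSet Y) (r : RInv Y) (s : Rad Y)
    (h : ∀ t, mu1 A ((gt t ⁻¹' Y) ∆ Y) = 0) : mu1 A Y = 0 ∨ mu1 A Yᶜ = 0 := by
  have := mu1_finite hA
  have m : Measurable fun p : Pt × ℝ => gt p.2 p.1 := by
    unfold gt
    fun_prop
  have m1 : MeasurableSet {y | ∀ᵐ t, gt t y ∈ Y} :=
    measurable_measure_prodMk_left (ν := volume) (m hY.compl) (measurableSet_singleton 0)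
  have r1 : RInv {y | ∀ᵐ t, gt t y ∈ Y} := fun y P k => by
    change (∀ᵐ t, gt t y ∈ Y) ↔ ∀ᵐ t, gt t (acP P y) ∈ Y
    refine eventually_congr (.of_forall fun t => ?_)
    rw [gt_eq, gt_eq, ← acP_lin]
    exact r _ P (k.lin (by simp [← Real.exp_add]))
  have b1 : Bi {y | ∀ᵐ t, gt t y ∈ Y} := fun c d y hc hd => by
    refine (eventually_add_right_iff volume ((Real.log c - Real.log d) / 2)).symm.trans
      (eventually_congr (.of_forall fun t => ?_))
    rw [s _ _ (Real.exp_pos ((Real.log c + Real.log d) / 2))]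
    refine iff_of_eq (congrArg (· ∈ Y) (Prod.ext ?_ ?_)) <;>
      simp only [gt, Prod.smul_fst, Prod.smul_snd, smul_smul, ← Real.exp_add]
    · rw [← Real.exp_log hc, ← Real.exp_add, Real.log_exp]
      congr 2
      ring
    · rw [← Real.exp_log hd, ← Real.exp_add, Real.log_exp]
      congr 2
      ring
  have s1 : Rad {y | ∀ᵐ t, gt t y ∈ Y} := fun c y hc => b1 c c y hc hc
  have e : {y | ∀ᵐ t, gt t y ∈ Y} =ᵐ[mu1 A] Y := by
    have h1 : ∀ᵐ y ∂mu1 A, ∀ᵐ t, gt t y ∈ Y ↔ y ∈ Y :=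
      (Measure.ae_ae_comm ((m hY).iff (measurable_fst hY))).2 (.of_forall fun t =>
        eventuallyEq_set.1 (measure_symmDiff_eq_zero_iff.1 (h t)))
    refine eventuallyEq_set.2 (h1.mono fun y hy => ⟨fun k => ?_, fun k => ?_⟩)
    · obtain ⟨t, k1, k2⟩ := (hy.and k).exists
      exact k1.1 k2
    · exact hy.mono fun t ht => ht.2 k
  rw [← measure_congr e, ← measure_congr e.compl, mu1_null hA m1 r1 s1,
    mu1_null hA m1.compl (fun y P k => (r1 y P k).not) fun c y hc => (s1 c y hc).not]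
  exact bi_triv m1 r1 b1

end Pool.Agent.TW
end
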