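import Pool.Agent.Lib.MP_4eaecc_an.O3

/-! The number of atoms with a given class. -/

namespace Pool.Agent.TW

open Matrix MeasureTheory Filter Topology
open scoped ENNReal NNReal

private theorem o4_abs (u : Z4) (i : Fin 4) : |(u i : ℝ)| ≤ ‖cs u‖ := norm_le_pi_norm (cs u) i

private theorem o4_norm {u : Z4} {X : ℝ} (h : ∀ i, |(u i : ℝ)| ≤ X) : ‖cs u‖ ≤ X :=
  (pi_norm_le_iff_of_nonneg ((abs_nonneg _).trans (h 0))).2 h

private theorem o4_four {u : Z4} {X : ℝ} (h0 : |(u 0 : ℝ)| ≤ X) (h1 : |(u 1 : ℝ)| ≤ X)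
    (h2 : |(u 2 : ℝ)| ≤ X) (h3 : |(u 3 : ℝ)| ≤ X) : ‖cs u‖ ≤ X := o4_norm fun i => by
  fin_cases i
  exacts [h0, h1, h2, h3]

private theorem o4_floor {u : Z4} {X : ℝ} (h : ‖cs u‖ ≤ X) (i : Fin 4) : |u i| ≤ ⌊X⌋ :=
  Int.le_floor.2 (by rw [Int.cast_abs]; exact (o4_abs u i).trans h)

private theorem o4_cong {n c u : Z4} (i : Fin 4) (hc : c ⬝ᵥ n = 1) (hu : n ⬝ᵥ u = 0) (k : ℤ) :
    |n i| ∣ ∑ j : Fin 3, n (i.succAbove j) *
      (u (i.succAbove j) + k * c (i.succAbove j) % |n i|) - k := by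
  obtain ⟨e, he⟩ : |n i| ∣ n i := (abs_dvd _ _).2 dvd_rfl
  rw [dotProduct, Fin.sum_univ_succAbove _ i, Fin.sum_univ_three] at hc hu
  generalize |n i| = N at he ⊢
  simp only [Fin.sum_univ_three, Int.emod_def]
  exact ⟨-(e * u i) - k * e * c i - n (i.succAbove 0) * (k * c (i.succAbove 0) / N) -
    n (i.succAbove 1) * (k * c (i.succAbove 1) / N) -
    n (i.succAbove 2) * (k * c (i.succAbove 2) / N), by
      linear_combination hu + k * hc - (u i + k * c i) * he⟩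

/-- Integer points of a hyperplane: in each box of side `|n i|` the congruence has `|n i|²`
solutions. -/
theorem hyper_count : ∃ C : ℝ, 0 < C ∧ ∀ (n : Z4) (X : ℝ) (s : Finset Z4), (∃ c : Z4, c ⬝ᵥ n = 1) →
    ‖cs n‖ ≤ X → (∀ u ∈ s, n ⬝ᵥ u = 0 ∧ ‖cs u‖ ≤ X) → (s.card : ℝ) ≤ C * X ^ 3 / ‖cs n‖ := by
  refine ⟨64, by norm_num, fun n X s ⟨c, hc⟩ hX hs => ?_⟩
  obtain ⟨i, -, hi⟩ := Finset.exists_max_image Finset.univ (fun i => |(n i : ℝ)|)
    Finset.univ_nonempty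
  have e : ‖cs n‖ = ((|n i| : ℤ) : ℝ) := by
    rw [Int.cast_abs]
    exact le_antisymm (o4_norm fun j => hi j (Finset.mem_univ j)) (o4_abs n i)
  have h1 : 1 ≤ ‖cs n‖ := one_le_norm_cs (by rintro rfl; simp at hc)
  have h2 : 0 < |n i| := by
    have : (0 : ℝ) < ((|n i| : ℤ) : ℝ) := by linarith
    exact_mod_cast this
  have h3 := o4_floor hX i
  have h4 : (s ×ˢ Finset.Ico 0 |n i|).card ≤
      (Fintype.piFinset fun _ : Fin 3 => Finset.Icc (-⌊X⌋) (2 * ⌊X⌋)).card := by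
    refine Finset.card_le_card_of_injOn
      (fun q j => q.1 (i.succAbove j) + q.2 * c (i.succAbove j) % |n i|) (fun q hq => ?_)
      (fun q hq q' hq' h => ?_)
    · refine Finset.mem_coe.2 (Fintype.mem_piFinset.2 fun j => Finset.mem_Icc.2 ?_)
      have k1 := abs_le.1 (o4_floor (hs _ (Finset.mem_product.1 hq).1).2 (i.succAbove j))
      have k2 := Int.emod_nonneg (q.2 * c (i.succAbove j)) h2.ne'
      have k3 := Int.emod_lt_of_pos (q.2 * c (i.succAbove j)) h2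
      dsimp only
      constructor <;> omega
    · obtain ⟨a1, a2⟩ := Finset.mem_product.1 hq
      obtain ⟨b1, b2⟩ := Finset.mem_product.1 hq'
      rw [Finset.mem_Ico] at a2 b2
      have h' : ∀ j, q.1 (i.succAbove j) + q.2 * c (i.succAbove j) % |n i| =
        q'.1 (i.succAbove j) + q'.2 * c (i.succAbove j) % |n i| := congrFun h
      have k1 := o4_cong i hc (hs _ a1).1 q.2
      have k2 := o4_cong i hc (hs _ b1).1 q'.2
      simp only [h'] at k1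
      have k3 : q.2 - q'.2 = 0 := Int.eq_zero_of_abs_lt_dvd (m := |n i|)
        (by simpa using dvd_sub k2 k1) (abs_lt.2 ⟨by omega, by omega⟩)
      have k4 : q.2 = q'.2 := by omega
      have k5 : ∀ j, q.1 (i.succAbove j) = q'.1 (i.succAbove j) := fun j => by
        have := h' j
        rw [k4] at this
        exact add_right_cancel this
      have k6 := (hs _ a1).1.trans (hs _ b1).1.symm
      rw [dotProduct, dotProduct, Fin.sum_univ_succAbove _ i, Fin.sum_univ_succAbove _ i] at k6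
      simp only [k5, add_left_inj] at k6
      exact Prod.ext (funext fun l => i.succAboveCases (mul_left_cancel₀ (abs_pos.1 h2) k6) k5 l) k4
  rw [Finset.card_product, Fintype.card_piFinset_const, Int.card_Ico, Int.card_Icc] at h4
  have h5 : (s.card : ℤ) * |n i| ≤ (3 * ⌊X⌋ + 1) ^ 3 := by
    have := Int.ofNat_le.2 h4
    rw [Nat.cast_mul, Nat.cast_pow, Int.toNat_of_nonneg (by omega),
      Int.toNat_of_nonneg (by omega)] at this
    convert this using 2 <;> ring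
  have h6 : (s.card : ℝ) * ((|n i| : ℤ) : ℝ) ≤ (3 * (⌊X⌋ : ℝ) + 1) ^ 3 := by exact_mod_cast h5
  have h7 := Int.floor_le X
  have h8 : (0 : ℝ) ≤ (⌊X⌋ : ℝ) := by exact_mod_cast h2.le.trans h3
  rw [le_div_iff₀ (by linarith), e]
  calc _ ≤ _ := h6
    _ ≤ (4 * X) ^ 3 := pow_le_pow_left₀ (by linarith) (by linarith) 3
    _ = _ := by ring

private theorem o4_E (w : Par) (z : Fin 3 → ℝ) :
    w.E z = (w.c * z 0) • cs ![w.p, w.q, 0, 0] + ![0, 0, z 1, z 2] := by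
  ext i
  fin_cases i <;> simp [Par.E, cs, w.ap, w.bq] <;> ring

private theorem o4_col {P P' : Mat} (h2 : ∀ i, P i 2 = P' i 2) (h3 : ∀ i, P i 3 = P' i 3)
    (x y : ℝ) : ac P ![0, 0, x, y] = ac P' ![0, 0, x, y] := by
  ext i
  simp [ac, ev_four, h2, h3]

/-- Atoms with the same columns `2` and `3`: the image of `(p, q, 0, 0)` has boundedly many values,
and it determines the atom up to the type and the signs. -/
theorem col_count (w : Par) (R : ℝ) {δ : ℝ} (hδ : 0 < δ) : ∃ C : ℕ, ∀ (t : ℝ) (u u' : Z4)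
    (s : Finset (Ty × Mat)), 0 ≤ t →
    (∀ q ∈ s, Atom w R δ t q ∧ (∀ i, q.2 i 2 = u i) ∧ ∀ i, q.2 i 3 = u' i) → s.card ≤ C := by
  obtain ⟨C, hC, hM⟩ := atom_mb w R hδ
  obtain ⟨B, hB⟩ : ∃ B : ℤ, B = ⌊(32 * C / δ + R) / w.c⌋ := ⟨_, rfl⟩
  refine ⟨((Finset.univ : Finset Ty) ×ˢ (Finset.univ : Finset (Fin 3 → Bool)) ×ˢ
    Fintype.piFinset fun _ : Fin 4 => Finset.Icc (-B) B).card, fun t u u' s ht hs => ?_⟩
  rcases s.eq_empty_or_nonempty with rfl | ⟨q0, hq0⟩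
  · exact Nat.zero_le _
  have h0 : ∀ q : Ty × Mat, ∃ z, q ∈ s → z ∈ ZR R ∧ GoodAt δ .L (w.y z) t ∧
      St .L (w.y z) t = q := fun q => by
    by_cases h : q ∈ s
    · obtain ⟨z, hz⟩ := (hs q h).1
      exact ⟨z, fun _ => hz⟩
    · exact ⟨0, fun k => absurd k h⟩
  choose z hz using h0
  have hS : ∀ q ∈ s, Symp q.2 := fun q hq => (hz q hq).2.2 ▸ St_symp _ _ _
  have hn : ∀ q ∈ s, (nst .L (w.y (z q)) t).1 = Real.exp t • ac q.2 (w.E (z q)) := fun q hq => by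
    rw [nst, (hz q hq).2.2]
    rfl
  have hcol : ∀ q ∈ s, ∀ q' ∈ s, ∀ x y : ℝ, ac q.2 ![0, 0, x, y] = ac q'.2 ![0, 0, x, y] :=
    fun q hq q' hq' => o4_col (fun i => ((hs q hq).2.1 i).trans ((hs q' hq').2.1 i).symm)
      (fun i => ((hs q hq).2.2 i).trans ((hs q' hq').2.2 i).symm)
  refine Finset.card_le_card_of_injOn (fun q => (q.1, sg q.1 (nst .L (w.y (z q)) t).1,
    sinv q0.2 *ᵥ (q.2 *ᵥ ![w.p, w.q, 0, 0]))) (fun q hq => ?_) (fun q hq q' hq' h => ?_)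
  · refine Finset.mem_coe.2 (Finset.mem_product.2 ⟨Finset.mem_univ _, Finset.mem_product.2
      ⟨Finset.mem_univ _, Fintype.mem_piFinset.2 fun i => Finset.mem_Icc.2 (abs_le.1 ?_)⟩⟩)
    rw [hB]
    refine o4_floor ?_ i
    obtain ⟨⟨z1, z2, -⟩, ⟨-, ⟨σ, g⟩, -⟩, -⟩ := hz q hq
    have k1 := g.norm hδ
    rw [hn q hq, norm_smul, Real.norm_of_nonneg (Real.exp_pos t).le] at k1
    have k2 := (hM t q0 ht (hs q0 hq0).1).sinv.norm_ac (ac q.2 (w.E (z q)))
    have k3 : ac (sinv q0.2) (ac q.2 (w.E (z q))) =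
        (w.c * z q 0) • cs (sinv q0.2 *ᵥ (q.2 *ᵥ ![w.p, w.q, 0, 0])) + ![0, 0, z q 1, z q 2] := by
      rw [o4_E, ac_add, ac_add, ac_smul, ac_smul, ac_cs, ac_cs, hcol q hq q0 hq0, ← ac_mul,
        (hS q0 hq0).sinv_mul, ac_one]
    have k4 : ‖(![0, 0, z q 1, z q 2] : V)‖ ≤ R := by
      have r0 := (norm_nonneg _).trans z1
      have r1 := (norm_le_pi_norm (z q) 1).trans z1
      have r2 := (norm_le_pi_norm (z q) 2).trans z1
      refine (pi_norm_le_iff_of_nonneg r0).2 fun j => ?_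
      fin_cases j
      exacts [by simpa using r0, by simpa using r0, r1, r2]
    have k5 := norm_sub_le (ac (sinv q0.2) (ac q.2 (w.E (z q)))) (![0, 0, z q 1, z q 2] : V)
    have c0 := w.c0
    rw [k3, add_sub_cancel_right, ← k3, norm_smul, Real.norm_of_nonneg (by positivity)] at k5
    have k6 : 4 * (4 * (C * Real.exp t)) * ‖ac q.2 (w.E (z q))‖ ≤ 32 * C / δ :=
      calc _ = 16 * C * (Real.exp t * ‖ac q.2 (w.E (z q))‖) := by ring
        _ ≤ 16 * C * (2 / δ) := mul_le_mul_of_nonneg_left k1 (by positivity)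
        _ = _ := by ring
    rw [le_div_iff₀ c0]
    linarith [mul_le_mul_of_nonneg_left z2
      (mul_nonneg c0.le (norm_nonneg (cs (sinv q0.2 *ᵥ (q.2 *ᵥ ![w.p, w.q, 0, 0])))))]
  · obtain ⟨e1, h⟩ := Prod.ext_iff.1 h
    obtain ⟨e2, e3⟩ := Prod.ext_iff.1 h
    have e4 : q.2 *ᵥ ![w.p, w.q, 0, 0] = q'.2 *ᵥ ![w.p, w.q, 0, 0] := by
      have := congrArg (fun x => q0.2 *ᵥ x) e3
      simpa only [mulVec_mulVec, ← Matrix.mul_assoc, (hS q0 hq0).mul_sinv, Matrix.one_mul]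
        using this
    have e5 : ac q.2 (w.E (z q')) = ac q'.2 (w.E (z q')) := by
      rw [o4_E, ac_add, ac_add, ac_smul, ac_smul, ac_cs, ac_cs, hcol q hq q' hq', e4]
    obtain ⟨-, ⟨b, -⟩, a⟩ := hz q hq
    obtain ⟨-, ⟨-, ⟨σ, g⟩, -⟩, a'⟩ := hz q' hq'
    have g1 := g.sg hδ
    rw [a'] at g1
    have g2 := g1.smul (Real.exp_pos (-t))
    rw [← (sg_iff.1 g1).2.2] at g2
    dsimp only at e1 e2
    rw [← e2, ← e1, hn q' hq', smul_smul, ← Real.exp_add, neg_add_cancel, Real.exp_zero, one_smul,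
      ← e5] at g2
    have g3 := (St_markov b (ζ := w.E (z q')) (by rw [a]; exact g2)).1
    exact (a.symm.trans g3.symm).trans a'

theorem atom_count (w : Par) (R : ℝ) {δ : ℝ} (hδ : 0 < δ) : ∃ C : ℝ, 0 < C ∧ ∀ (t : ℝ) (v : Z4)
    (s : Finset (Ty × Mat)), 0 ≤ t → (∀ q ∈ s, Atom w R δ t q ∧ q.2 *ᵥ w.v0 = v) →
    (s.card : ℝ) ≤ C * Real.exp (3 * t) / ‖cs v‖ := by
  obtain ⟨C, hC, hM⟩ := atom_mb w R hδ
  obtain ⟨C1, hC1, h1⟩ := hyper_count
  obtain ⟨C2, h2⟩ := col_count w R hδ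
  obtain ⟨K, hK⟩ : ∃ K : ℝ, K = C * (1 + 8 * ‖cs w.v0‖) := ⟨_, rfl⟩
  have K0 : 0 < K := by rw [hK]; positivity
  refine ⟨(C2 + 1) * (2 * C1 * K ^ 3), by positivity, fun t v s ht hs => ?_⟩
  rcases s.eq_empty_or_nonempty with rfl | ⟨q0, hq0⟩
  · rw [Finset.card_empty, Nat.cast_zero]
    positivity
  have hS : ∀ q ∈ s, Symp q.2 := fun q hq => by
    obtain ⟨z, -, -, rfl⟩ := (hs q hq).1
    exact St_symp _ _ _
  have hv : ∀ q ∈ s, ∀ i, v i = q.2 i 2 * w.p - q.2 i 3 * (w.p + w.q) := fun q hq i => by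
    rw [← (hs q hq).2]
    simp [mulVec, dotProduct, Fin.sum_univ_four, Par.v0]
    ring
  have f1 : s.card ≤ C2 * (s.image fun q i => q.2 i 2).card := by
    refine Finset.card_le_mul_card_image s C2 fun a ha => ?_
    obtain ⟨q1, hq1, rfl⟩ := Finset.mem_image.1 ha
    refine h2 t (fun i => q1.2 i 2) (fun i => q1.2 i 3) _ ht fun q hq => ?_
    obtain ⟨k1, k2⟩ := Finset.mem_filter.1 hq
    refine ⟨(hs q k1).1, congrFun k2, fun i => ?_⟩
    have k3 := hv q k1 i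
    have k4 : (0 : ℤ) < w.p + w.q := by exact_mod_cast add_pos w.p0 w.q0
    rw [hv q1 hq1 i, congrFun k2 i] at k3
    exact mul_right_cancel₀ k4.ne' (by linarith)
  obtain ⟨c, hc⟩ := w.prim (hS q0 hq0)
  rw [(hs q0 hq0).2] at hc
  obtain ⟨n, hn⟩ : ∃ n : Z4, n = ![-v 2 - v 3, -v 2, v 0 + v 1, v 0] := ⟨_, rfl⟩
  have n0 : (n 0 : ℝ) = -v 2 - v 3 := by simp [hn]
  have n1 : (n 1 : ℝ) = -v 2 := by simp [hn]
  have n2 : (n 2 : ℝ) = v 0 + v 1 := by simp [hn]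
  have n3 : (n 3 : ℝ) = v 0 := by simp [hn]
  have a0 := abs_le.1 (o4_abs v 0)
  have a1 := abs_le.1 (o4_abs v 1)
  have a2 := abs_le.1 (o4_abs v 2)
  have a3 := abs_le.1 (o4_abs v 3)
  have b0 := abs_le.1 (o4_abs n 0)
  have b1 := abs_le.1 (o4_abs n 1)
  have b2 := abs_le.1 (o4_abs n 2)
  have b3 := abs_le.1 (o4_abs n 3)
  have u1 : ‖cs n‖ ≤ 2 * ‖cs v‖ := o4_four (abs_le.2 ⟨by linarith, by linarith⟩)
    (abs_le.2 ⟨by linarith, by linarith⟩) (abs_le.2 ⟨by linarith, by linarith⟩)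
    (abs_le.2 ⟨by linarith, by linarith⟩)
  have u2 : ‖cs v‖ ≤ 2 * ‖cs n‖ := o4_four (abs_le.2 ⟨by linarith, by linarith⟩)
    (abs_le.2 ⟨by linarith, by linarith⟩) (abs_le.2 ⟨by linarith, by linarith⟩)
    (abs_le.2 ⟨by linarith, by linarith⟩)
  have u3 : 1 ≤ ‖cs v‖ := one_le_norm_cs (by rintro rfl; simp at hc)
  have u4 := (hM t q0 ht (hs q0 hq0).1).norm_ac (cs w.v0)
  rw [ac_cs, (hs q0 hq0).2] at u4
  have e0 : 0 < C * Real.exp t := by positivity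
  have e1 := mul_nonneg e0.le (norm_nonneg (cs w.v0))
  have f2 := h1 n (K * Real.exp t) (s.image fun q i => q.2 i 2)
    ⟨![-c 3, c 3 - c 2, c 1, c 0 - c 1], by
      rw [← hc, hn]
      simp [dotProduct, Fin.sum_univ_four]
      ring⟩ (by rw [hK]; linarith) (fun a ha => by
      obtain ⟨q, hq, rfl⟩ := Finset.mem_image.1 ha
      refine ⟨?_, (o4_norm fun i => hM t q ht (hs q hq).1 i 2).trans (by rw [hK]; linarith)⟩
      have k := (hS q hq).Om_ac (cs w.v0) (cs ![0, 0, 1, 0])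
      rw [ac_cs, ac_cs, (hs q hq).2] at k
      simp [Om, cs, Par.v0, mulVec, dotProduct, Fin.sum_univ_four] at k
      have k' : ((n ⬝ᵥ fun i => q.2 i 2 : ℤ) : ℝ) = 0 := by
        simp only [dotProduct, Fin.sum_univ_four]
        push_cast
        rw [n0, n1, n2, n3]
        linarith
      exact_mod_cast k')
  have f3 : (s.card : ℝ) ≤ C2 * ((s.image fun q i => q.2 i 2).card : ℝ) := by exact_mod_cast f1
  have f4 : C1 * (K * Real.exp t) ^ 3 / ‖cs n‖ ≤ 2 * C1 * K ^ 3 * Real.exp (3 * t) / ‖cs v‖ := by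
    rw [div_le_div_iff₀ (by linarith) (by linarith), mul_pow, ← Real.exp_nat_mul]
    have : 0 ≤ C1 * K ^ 3 * Real.exp (3 * t) := by positivity
    push_cast
    linarith [mul_le_mul_of_nonneg_left u2 this]
  calc (s.card : ℝ) ≤ C2 * (2 * C1 * K ^ 3 * Real.exp (3 * t) / ‖cs v‖) :=
        f3.trans (mul_le_mul_of_nonneg_left (f2.trans f4) (Nat.cast_nonneg _))
    _ ≤ (C2 + 1) * (2 * C1 * K ^ 3 * Real.exp (3 * t) / ‖cs v‖) :=
        mul_le_mul_of_nonneg_right (by linarith) (by positivity)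
    _ = _ := by ring

end Pool.Agent.TW
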