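import Pool.Agent.Lib.MP_4eaecc_an.G5a
import Pool.Agent.Lib.MP_4eaecc_an.O6a

/-! Shear along a bounded number of good times. -/

namespace Pool.Agent.TW

open Matrix MeasureTheory Filter Topology
open scoped ENNReal NNReal

/-- The bound on the part of the future matrix that preserves the hyperplane of the widths. -/
def Shear (w : Par) (z : Fin 3 → ℝ) (j a S : ℝ) : Prop :=
  ∀ u : V, Om (nst .L (w.y z) j).1 u = 0 →
    ‖ac (St (St .L (w.y z) j).1 (nst .L (w.y z) j) a).2 u‖ * w.lev z j ≤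
      S * ‖u‖ * w.lev z (j + a)

theorem o6_om (w : Par) (z : Fin 3 → ℝ) (t : ℝ) :
    Om (nst .L (w.y z) t).1 (cs (w.v z t)) = 0 ∧ Om (nst .L (w.y z) t).2 (cs (w.v z t)) = 0 := by
  have s := St_symp .L (w.y z) t
  constructor
  · rw [Par.v, ← ac_cs]
    refine (smul_Om _ _ _).trans ?_
    rw [acP, s.Om_ac, Par.y, w.Om_E, mul_zero]
  · rw [Par.v, ← ac_cs]
    refine (smul_Om _ _ _).trans ?_
    rw [acP, s.Om_ac, Par.y, w.Om_eta, mul_zero]

theorem shearZ (w : Par) {δ l : ℝ} (hδ : 0 < δ) (h1 : δ ≤ 1) (hl : 0 < l) (hl1 : l ≤ 1) (n1 : ℕ) :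
    ∃ C : ℝ, 0 < C ∧ ∀ n ≤ n1, ∀ (z : Fin 3 → ℝ) (j β : ℝ), 0 ≤ β →
    (∀ k ≤ n, GoodAt δ .L (w.y z) (j + k * β) ∧ l * w.lev z j ≤ w.lev z (j + k * β)) →
    Shear w z j (n * β) (C * Real.exp β) := by
  obtain ⟨C, C0, hC⟩ := shear (K := 2 / δ) (A := δ * δ) (by positivity) (by positivity) n1
  refine ⟨C * (16 / δ) / l ^ 2, by positivity, fun n hn z j β hβ h u hu => ?_⟩
  have e : ∀ k : ℕ, j + ((k + 1 : ℕ) : ℝ) * β - (j + k * β) = β := fun k => by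
    push_cast
    ring
  have e' : ∀ k : ℕ, j + (k : ℝ) * β ≤ j + ((k + 1 : ℕ) : ℝ) * β := fun k => by linarith [e k]
  have e0 : j + ((0 : ℕ) : ℝ) * β = j := by simp
  have b0 : Base .L (w.y z) j := e0 ▸ (h 0 n.zero_le).1.1
  have s0 := St_symp .L (w.y z) j
  have x1 : 1 ≤ Real.exp β := Real.one_le_exp hβ
  have u0 : ac (St .L (w.y z) j).2 (ac (sinv (St .L (w.y z) j).2) u) = u := by
    rw [← ac_mul, s0.mul_sinv, ac_one]
  have key := hC n hn (fun k => (nst .L (w.y z) (j + k * β)).1)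
    (fun k => (nst .L (w.y z) (j + k * β)).2) (fun k => cs (w.v z (j + k * β)))
    (fun k => ac (St .L (w.y z) (j + k * β)).2 (ac (sinv (St .L (w.y z) j).2) u))
    (fun k => (St (St .L (w.y z) (j + k * β)).1 (nst .L (w.y z) (j + k * β)) β).2)
    (fun _ => Real.exp β) (16 * Real.exp β / δ) l (by rw [le_div_iff₀ hδ]; linarith) hl hl1
    (fun k hk => ?_) (fun k hk => ?_) (by rw [e0, u0]; exact hu)
  · have k := (St_add b0 (t' := j + n * β) (le_add_of_nonneg_right (by positivity))).1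
    rw [e0, u0, k, ac_mul, u0, add_sub_cancel_left] at key
    exact key.trans_eq (by rw [Par.lev]; ring)
  · obtain ⟨⟨-, ⟨σ, g1⟩, g2⟩, g3⟩ := h k hk
    refine ⟨g1.norm hδ, g2.norm hδ, (Om_good g1 hδ g2 hδ).1, (o6_om w z _).1, (o6_om w z _).2,
      fun h0 => ?_, by rw [e0]; exact g3⟩
    have := w.one_le_lev z (j + k * β)
    rw [Par.lev, h0, norm_zero] at this
    exact absurd this (by norm_num)
  · obtain ⟨⟨g0, -, g2⟩, -⟩ := h k hk.le
    obtain ⟨a1, a2⟩ := St_add g0 (e' k)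
    have a3 := w.lev_add g0 (e' k)
    rw [e k] at a1 a2 a3
    refine ⟨St_symp _ _ _, fun a => ((mb_St g2 hδ (g0.nst.mono hβ)).norm_ac a).trans_eq (by ring),
      x1, by rw [a2]; rfl, by rw [a2, ← Real.exp_neg]; rfl, a3, by rw [a1, ac_mul]⟩

theorem o6_num {α p p' e e' lo hi G : ℝ} (l0 : 0 < lo) (h : lo ≤ p) (h0 : 0 ≤ p') (h' : p' ≤ hi)
    (k : |e| ≤ G) (k' : |e'| ≤ G) : |e' - α * p'| ≤ hi / lo * (|e - α * p| + G) + G := by
  have a1 : |α| * lo ≤ |e - α * p| + G := by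
    have := abs_sub e (e - α * p)
    rw [sub_sub_cancel, abs_mul, abs_of_nonneg (l0.le.trans h)] at this
    linarith [mul_le_mul_of_nonneg_left h (abs_nonneg α)]
  have a2 := abs_sub e' (α * p')
  rw [abs_mul, abs_of_nonneg h0] at a2
  have a3 : |α| * p' ≤ hi / lo * (|e - α * p| + G) := by
    refine (mul_le_mul ((le_div_iff₀ l0).mpr a1) h' h0 ?_).trans_eq (by ring)
    exact div_nonneg ((mul_nonneg (abs_nonneg α) l0.le).trans a1) l0.le
  linarith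

/-- On the region of a future, the linear form of any vector is almost a fixed multiple of the
area form. -/
theorem cmp {δ : ℝ} (hδ : 0 < δ) (h1 : δ ≤ 1) : ∃ R1 : ℝ, 1 ≤ R1 ∧ ∀ (τ τ' : Ty) (y : Pt)
    (M : Mat) (a κ : ℝ) (σ : Fin 3 → Bool), Symp M → Good δ τ y → Good δ τ' (gt a (acP M y)) →
    0 ≤ κ → (∀ u : V, Om y.1 u = 0 → Real.exp (-a) * ‖ac M u‖ ≤ κ * ‖u‖) →
    ∀ (f ζ ζ' : V), ‖f‖ ≤ 3 → Gw (δ / 2) τ' σ (Real.exp a • ac M ζ) →
      Gw (δ / 2) τ' σ (Real.exp a • ac M ζ') → |Om f ζ'| ≤ R1 * (|Om f ζ| + κ) := by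
  obtain ⟨F, hF⟩ : ∃ F, F = 3 + 6 * (2 / δ) * 3 / (δ * δ) * (2 / δ) := ⟨_, rfl⟩
  obtain ⟨G, hG⟩ : ∃ G, G = 6 * F * (2 / (δ / 2)) := ⟨_, rfl⟩
  obtain ⟨B, hB⟩ : ∃ B, B = 6 / (δ / 2 * δ) / (δ / 2 * δ) := ⟨_, rfl⟩
  have F0 : 0 < F := by rw [hF]; positivity
  have G0 : 0 < G := by rw [hG]; positivity
  have B0 : 0 < B := by rw [hB]; positivity
  refine ⟨1 + B + B * G + G, by nlinarith, fun τ τ' y M a κ σ hM ⟨⟨σ0, g1⟩, g2⟩ ⟨_, g3⟩ hκ hu f ζ ζ'
    hf hz hz' => ?_⟩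
  have o1 := (Om_good g1 hδ g2 hδ).1
  have o2 : 0 < Om y.1 y.2 := (mul_pos hδ hδ).trans_le o1
  obtain ⟨α, hα⟩ : ∃ α, α = Om y.1 f / Om y.1 y.2 := ⟨_, rfl⟩
  have a1 : |α| ≤ 6 * (2 / δ) * 3 / (δ * δ) := by
    rw [hα, abs_div, abs_of_pos o2]
    refine div_le_div₀ (by positivity) ((abs_Om_le _ _).trans ?_) (mul_pos hδ hδ) o1
    gcongr
    exact g1.norm hδ
  have a2 : ‖f - α • y.2‖ ≤ F := by
    refine (norm_sub_le _ _).trans ?_
    rw [hF, norm_smul, Real.norm_eq_abs]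
    gcongr
    exact g2.norm hδ
  have a3 := hu (f - α • y.2) (by rw [Om_sub, Om_smul, hα, div_mul_cancel₀ _ o2.ne', sub_self])
  have key : ∀ x : V, Gw (δ / 2) τ' σ (Real.exp a • ac M x) → ∃ e p, Om f x = e - α * p ∧
      |e| ≤ G * κ ∧ δ / 2 * δ ≤ p ∧ p ≤ 6 / (δ / 2 * δ) := fun x hx => by
    refine ⟨Om (Real.exp (-a) • ac M (f - α • y.2)) (Real.exp a • ac M x), _, ?_,
      (abs_Om_le _ _).trans ?_, Om_good hx (half_pos hδ) g3 hδ⟩
    · simp only [gt, acP, smul_Om, Om_smul, hM.Om_ac, sub_Om, ← mul_assoc]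
      rw [Om_swap x, Real.exp_neg]
      field_simp
      ring
    · rw [norm_smul (Real.exp (-a)), Real.norm_of_nonneg (Real.exp_pos _).le]
      refine (mul_le_mul (mul_le_mul_of_nonneg_left
        (a3.trans (mul_le_mul_of_nonneg_left a2 hκ)) (by norm_num)) (hx.norm (half_pos hδ))
        (norm_nonneg _) (by positivity)).trans_eq ?_
      rw [hG]
      ring
  obtain ⟨e, p, e1, e2, e3, -⟩ := key ζ hz
  obtain ⟨e', p', e1', e2', e3', e4⟩ := key ζ' hz'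
  have k := o6_num (α := α) (by positivity) e3 (le_trans (by positivity) e3') e4 e2 e2'
  rw [← e1, ← e1', ← hB] at k
  have x0 := abs_nonneg (Om f ζ)
  nlinarith [mul_nonneg B0.le hκ, mul_nonneg G0.le x0, mul_nonneg (mul_pos B0 G0).le x0]

end Pool.Agent.TW
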