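import Pool.Agent.Lib.MP_4eaecc_an.O3

/-! The estimate for one class of atoms. -/

namespace Pool.Agent.TW

open Matrix MeasureTheory Filter Topology
open scoped ENNReal NNReal

/-- The mixture of the thickened hyperplanes of the atoms in `s`. -/
noncomputable def mix (w : Par) (s : Finset Mat) (j N ρ : ℝ) (ξ : V) : ℝ :=
  ∑ P ∈ s, Real.exp (-3 * j) / (w.c * N) * ker ρ (Om (cs (P *ᵥ w.v0)) ξ / N)

/-- The future of `z` between the times `j` and `j + a`. -/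
noncomputable def fut (w : Par) (z : Fin 3 → ℝ) (j a : ℝ) : Ty × Mat × (Fin 3 → Bool) :=
  ((St .L (w.y z) (j + a)).1, (St (St .L (w.y z) j).1 (nst .L (w.y z) j) a).2,
    sg (St .L (w.y z) (j + a)).1 (nst .L (w.y z) (j + a)).1)

/-- The part of the region of the future `B` that lands in `E`. -/
def reg (δ a : ℝ) (B : Ty × Mat × (Fin 3 → Bool)) (E : Set V) : Set V :=
  {ζ | Gw (δ / 2) B.1 B.2.2 (Real.exp a • ac B.2.1 ζ) ∧ Real.exp a • ac B.2.1 ζ ∈ E}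

theorem meas_reg (δ a : ℝ) (B : Ty × Mat × (Fin 3 → Bool)) {E : Set V} (hE : MeasurableSet E) :
    MeasurableSet (reg δ a B E) := by
  have c : Continuous fun ζ : V => Real.exp a • ac B.2.1 ζ :=
    (continuous_ac B.2.1).const_smul (Real.exp a)
  exact (c.measurable (isClosed_gw _ _ _).measurableSet).inter (c.measurable hE)

theorem fut_finite (w : Par) {δ : ℝ} (hδ : 0 < δ) (j a : ℝ) (ha : 0 ≤ a) :
    {B | ∃ z, GoodAt δ .L (w.y z) j ∧ fut w z j a = B}.Finite := by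
  refine (Set.finite_univ.prod ((finite_mb (4 * Real.exp a / δ)).prod Set.finite_univ)).subset ?_
  rintro _ ⟨z, hz, rfl⟩
  exact ⟨trivial, mb_St hz.2.2 hδ (hz.1.nst.mono ha), trivial⟩

theorem o7a_ker (ρ N : ℝ) (v : V) : Measurable fun ξ : V => ENNReal.ofReal (ker ρ (Om v ξ / N)) := by
  refine Continuous.measurable (ENNReal.continuous_ofReal.comp ?_)
  unfold ker Om
  fun_prop

/-- One atom and one future. -/
theorem o7a_one (w : Par) {δ j a N ρ ω : ℝ} (hδ : 0 < δ) (h1 : δ ≤ 1) (ha : 0 ≤ a) (hN : 0 < N)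
    (hρ : 0 < ρ) (hω : ω ≤ δ / 6) (P : Mat) (B : Ty × Mat × (Fin 3 → Bool)) {E : Set V}
    {X : Set (Fin 3 → ℝ)}
    (h : ∀ z ∈ X, GoodAt δ .L (w.y z) j ∧ GoodAt δ .L (w.y z) (j + a) ∧
      (St .L (w.y z) j).2 = P ∧ fut w z j a = B ∧
      (nst .L (w.y z) (j + a)).1 ∈ E ∧ 2 * ρ * Real.exp a * N ≤ ω * w.lev z (j + a)) :
    volume X ≤ ENNReal.ofReal (Real.exp (-3 * j) / (w.c * N)) *
      ∫⁻ ξ in reg δ a B (Metric.cthickening ω E),
        ENNReal.ofReal (ker ρ (Om (cs (P *ᵥ w.v0)) ξ / N)) := by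
  rcases X.eq_empty_or_nonempty with rfl | ⟨z0, hz0⟩
  · simp
  have key : ∀ z ∈ X, (St .L (w.y z) (j + a)).2 = B.2.1 * P := fun z hz => by
    obtain ⟨g, -, e1, e2, -⟩ := h z hz
    rw [(St_add g.1 (le_add_of_nonneg_right ha)).1, add_sub_cancel_left, ← e1, ← e2]
    rfl
  have hP : Symp P := (h z0 hz0).2.2.1 ▸ St_symp _ _ _
  have hM : Symp B.2.1 := (h z0 hz0).2.2.2.1 ▸ St_symp _ _ _
  have lv : ∀ z ∈ X, w.lev z (j + a) = ‖ac B.2.1 (cs (P *ᵥ w.v0))‖ := fun z hz => by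
    rw [Par.lev, Par.v, key z hz, ac_cs, Matrix.mulVec_mulVec]
  obtain ⟨u, u1, u2⟩ := exists_dual (ac B.2.1 (cs (P *ᵥ w.v0)))
  have l0 : 0 < ‖ac B.2.1 (cs (P *ᵥ w.v0))‖ := lv z0 hz0 ▸ one_pos.trans_le (w.one_le_lev _ _)
  generalize ‖ac B.2.1 (cs (P *ᵥ w.v0))‖ = L at lv u2 l0
  have iu : ac B.2.1 (ac (sinv B.2.1) u) = u := by rw [← ac_mul, hM.mul_sinv, ac_one]
  refine thick w hP j (g := (N / L) • ac (sinv B.2.1) u) hN hρ ?_
    (meas_reg _ _ _ Metric.isClosed_cthickening.measurableSet) fun z hz s hs => ?_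
  · rw [Om_smul, ← hM.Om_ac, iu, u2, div_mul_cancel₀ _ l0.ne']
  obtain ⟨-, g, -, e2, e3, e4⟩ := h z hz
  have e5 : Real.exp a • ac B.2.1 (Real.exp j • ac P (w.E z) + s • (N / L) • ac (sinv B.2.1) u) -
      (nst .L (w.y z) (j + a)).1 = (Real.exp a * s * (N / L)) • u := by
    change _ - Real.exp (j + a) • ac (St .L (w.y z) (j + a)).2 (w.E z) = _
    rw [key z hz, ac_mul, ac_add, ac_smul, ac_smul, ac_smul, iu, Real.exp_add]
    module
  have e6 : ‖Real.exp a • ac B.2.1 (Real.exp j • ac P (w.E z) + s • (N / L) • ac (sinv B.2.1) u) -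
      (nst .L (w.y z) (j + a)).1‖ ≤ ω := by
    rw [lv z hz] at e4
    rw [e5, norm_smul, Real.norm_eq_abs, abs_mul, abs_mul, abs_of_pos (Real.exp_pos a),
      abs_of_pos (div_pos hN l0)]
    calc _ ≤ Real.exp a * ρ * (N / L) * 2 := by gcongr
      _ = 2 * ρ * Real.exp a * N / L := by ring
      _ ≤ ω := (div_le_iff₀ l0).2 e4
  obtain ⟨σ, hσ⟩ := g.2.1
  refine ⟨?_, Metric.mem_cthickening_of_dist_le _ _ _ _ e3 (by rwa [dist_eq_norm])⟩
  have e7 : B.1 = (St .L (w.y z) (j + a)).1 := e2 ▸ rfl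
  have e8 : B.2.2 = σ := e2 ▸ g5a_sg (hσ.sg hδ)
  rw [e7, e8]
  exact hσ.near hδ h1 (e6.trans hω)

/-- Thicken each pair (atom, future) in the direction that is shortest at the final time. -/
theorem cls_thick (w : Par) {δ j a N ρ ω : ℝ} (hδ : 0 < δ) (h1 : δ ≤ 1) (ha : 0 ≤ a) (hN : 0 < N)
    (hρ : 0 < ρ) (hω : ω ≤ δ / 6) {τ : Ty} (s : Finset Mat)
    (b : Finset (Ty × Mat × (Fin 3 → Bool))) {E : Set V} {X : Set (Fin 3 → ℝ)}
    (h : ∀ z ∈ X, GoodAt δ .L (w.y z) j ∧ GoodAt δ .L (w.y z) (j + a) ∧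
      (St .L (w.y z) j).1 = τ ∧ (St .L (w.y z) j).2 ∈ s ∧ fut w z j a ∈ b ∧
      (nst .L (w.y z) (j + a)).1 ∈ E ∧ 2 * ρ * Real.exp a * N ≤ ω * w.lev z (j + a)) :
    volume X ≤ ∑ B ∈ b, ∫⁻ ζ in reg δ a B (Metric.cthickening ω E),
      ENNReal.ofReal (mix w s j N ρ ζ) := by
  have c0 : 0 ≤ Real.exp (-3 * j) / (w.c * N) := by have := w.c0; positivity
  have k0 : ∀ t, 0 ≤ ker ρ t := fun t => by unfold ker; positivity
  calc volume X ≤ volume (⋃ B ∈ b, ⋃ P ∈ s,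
        {z ∈ X | (St .L (w.y z) j).2 = P ∧ fut w z j a = B}) := measure_mono fun z hz => by
        obtain ⟨-, -, -, e1, e2, -⟩ := h z hz
        exact Set.mem_biUnion e2 (Set.mem_biUnion e1 ⟨hz, rfl, rfl⟩)
    _ ≤ _ := (measure_biUnion_finset_le _ _).trans (Finset.sum_le_sum fun B _ =>
        (measure_biUnion_finset_le _ _).trans ?_)
  simp only [mix]
  simp_rw [ENNReal.ofReal_sum_of_nonneg fun P _ => mul_nonneg c0 (k0 _), ENNReal.ofReal_mul c0]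
  rw [lintegral_finsetSum _ fun P _ => (o7a_ker ρ N _).const_mul _]
  refine Finset.sum_le_sum fun P _ => ?_
  rw [lintegral_const_mul _ (o7a_ker ρ N _)]
  refine o7a_one w hδ h1 ha hN hρ hω P B fun z hz => ?_
  obtain ⟨e1, e2, -, -, -, e3⟩ := h z hz.1
  exact ⟨e1, e2, hz.2.1, hz.2.2, e3⟩

/-- The futures of `b` come from points that are good at both times and have small shear. -/
def Live (w : Par) (δ j a κ : ℝ) (τ : Ty) (B : Ty × Mat × (Fin 3 → Bool)) : Prop :=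
  ∃ z, GoodAt δ .L (w.y z) j ∧ GoodAt δ .L (w.y z) (j + a) ∧ (St .L (w.y z) j).1 = τ ∧
    fut w z j a = B ∧
    ∀ u : V, Om (nst .L (w.y z) j).1 u = 0 → Real.exp (-a) * ‖ac B.2.1 u‖ ≤ κ * ‖u‖

end Pool.Agent.TW
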