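import Pool.Agent.Lib.MP_4eaecc_an.R1
import Pool.Agent.Lib.MP_4eaecc_an.O1a
import Pool.Agent.Lib.MP_4eaecc_an.O1b

/-! Gaussian integrals. -/

namespace Pool.Agent.TW

open Matrix MeasureTheory Filter Topology
open scoped ENNReal NNReal

/-- The linear form `Om (cs v) · / N` as a vector. -/
noncomputable def fv (v : Z4) (N : ℝ) : V := fun j => ((v ᵥ* Jm) j : ℝ) / N

theorem o1_fv (v : Z4) (N : ℝ) :
    fv v N = ![(-v 2 - v 3) / N, -v 2 / N, (v 0 + v 1) / N, v 0 / N] := by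
  funext j
  fin_cases j <;> simp [fv, Jm, vecMul, dotProduct, Fin.sum_univ_four, sub_eq_add_neg]

theorem fv_dot (v : Z4) (N : ℝ) (ξ : V) : fv v N ⬝ᵥ ξ = Om (cs v) ξ / N := by
  rw [o1_fv]
  simp [dotProduct, Fin.sum_univ_four, Om, cs]
  ring

/-- The vector recovered from its linear form. -/
def o1u (a : V) : V := ![a 3, a 2 - a 3, -a 1, a 1 - a 0]

theorem o1_u (v : Z4) {N : ℝ} (hN : 0 < N) (i : Fin 4) : (v i : ℝ) = N * o1u (fv v N) i := by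
  rw [o1_fv]
  fin_cases i <;> simp [o1u] <;> field_simp <;> ring

theorem o1_low (v : Z4) {N : ℝ} (hN : 0 < N) (h : N ≤ ‖cs v‖) : 1 / 4 ≤ fv v N ⬝ᵥ fv v N := by
  by_contra k
  rw [not_le, dotProduct, Fin.sum_univ_four] at k
  have s0 := mul_self_nonneg (fv v N 0)
  have s1 := mul_self_nonneg (fv v N 1)
  have s2 := mul_self_nonneg (fv v N 2)
  have s3 := mul_self_nonneg (fv v N 3)
  have b0 : |fv v N 0| < 1 / 2 := abs_lt_of_sq_lt_sq' (by nlinarith) (by norm_num) |> abs_lt.2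
  have b1 : |fv v N 1| < 1 / 2 := abs_lt_of_sq_lt_sq' (by nlinarith) (by norm_num) |> abs_lt.2
  have b2 : |fv v N 2| < 1 / 2 := abs_lt_of_sq_lt_sq' (by nlinarith) (by norm_num) |> abs_lt.2
  have b3 : |fv v N 3| < 1 / 2 := abs_lt_of_sq_lt_sq' (by nlinarith) (by norm_num) |> abs_lt.2
  rw [abs_lt] at b0 b1 b2 b3
  have u : ∀ i, |o1u (fv v N) i| < 1 := by
    intro i
    rw [abs_lt]
    fin_cases i <;> simp [o1u] <;> constructor <;> linarith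
  refine absurd h (not_le.2 ((pi_norm_lt_iff hN).2 fun i => ?_))
  rw [Real.norm_eq_abs, cs, o1_u v hN, abs_mul, abs_of_pos hN]
  exact mul_lt_of_lt_one_right hN (u i)

theorem o1_up (v : Z4) {N : ℝ} (hN : 0 < N) (h : ‖cs v‖ ≤ 3 * N) : fv v N ⬝ᵥ fv v N ≤ 144 := by
  have a : ∀ i, |(v i : ℝ)| ≤ 3 * N := fun i => (norm_le_pi_norm (cs v) i).trans h
  have a0 := abs_le.1 (a 0)
  have a1 := abs_le.1 (a 1)
  have a2 := abs_le.1 (a 2)
  have a3 := abs_le.1 (a 3)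
  have k : ∀ x : ℝ, -(6 * N) ≤ x → x ≤ 6 * N → x / N * (x / N) ≤ 36 := by
    intro x h1 h2
    rw [div_mul_div_comm, div_le_iff₀ (by positivity)]
    nlinarith
  rw [o1_fv, dotProduct, Fin.sum_univ_four]
  have k0 := k (-v 2 - v 3) (by linarith) (by linarith)
  have k1 := k (-v 2) (by linarith) (by linarith)
  have k2 := k (v 0 + v 1) (by linarith) (by linarith)
  have k3 := k (v 0) (by linarith) (by linarith)
  simp only [Matrix.cons_val_zero, Matrix.cons_val_one, Matrix.cons_val]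
  linarith

theorem o1_lag (a b : V) : 2 * ((a ⬝ᵥ a) * (b ⬝ᵥ b) - (a ⬝ᵥ b) ^ 2) =
    ∑ p : Fin 4 × Fin 4, (a p.1 * b p.2 - a p.2 * b p.1) ^ 2 := by
  simp only [dotProduct, Fintype.sum_prod_type, Fin.sum_univ_four]
  ring

theorem o1_cs (a b : V) : 0 ≤ (a ⬝ᵥ a) * (b ⬝ᵥ b) - (a ⬝ᵥ b) ^ 2 := by
  have : 0 ≤ ∑ p : Fin 4 × Fin 4, (a p.1 * b p.2 - a p.2 * b p.1) ^ 2 :=
    Finset.sum_nonneg fun p _ => sq_nonneg _
  linarith [o1_lag a b]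

theorem o1_minor (a b : V) (j k : Fin 4) :
    |a j * b k - a k * b j| ≤ 2 * Real.sqrt ((a ⬝ᵥ a) * (b ⬝ᵥ b) - (a ⬝ᵥ b) ^ 2) := by
  have h := Finset.single_le_sum (f := fun p : Fin 4 × Fin 4 => (a p.1 * b p.2 - a p.2 * b p.1) ^ 2)
    (fun p _ => sq_nonneg _) (Finset.mem_univ (j, k))
  refine abs_le_of_sq_le_sq ?_ (by positivity)
  rw [mul_pow, Real.sq_sqrt (o1_cs a b)]
  linarith [o1_lag a b, o1_cs a b]

theorem o1_minor_u {a b : V} {T : ℝ} (h : ∀ j k, |a j * b k - a k * b j| ≤ T) (i l : Fin 4) :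
    |o1u a i * o1u b l - o1u a l * o1u b i| ≤ 4 * T := by
  have t := (abs_nonneg _).trans (h 0 0)
  have h01 := abs_le.1 (h 0 1)
  have h02 := abs_le.1 (h 0 2)
  have h03 := abs_le.1 (h 0 3)
  have h12 := abs_le.1 (h 1 2)
  have h13 := abs_le.1 (h 1 3)
  have h23 := abs_le.1 (h 2 3)
  rw [abs_le]
  fin_cases i <;> fin_cases l <;>
    simp only [o1u, Fin.zero_eta, Fin.mk_one, Fin.reduceFinMk, Matrix.cons_val_zero,
      Matrix.cons_val_one, Matrix.cons_val] <;> constructor <;> linarith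

theorem o1_inv {p ρ t : ℝ} (hp : 1 / 4 ≤ p) (hρ : 0 < ρ) (h : p * ρ ^ 2 ≤ t) :
    0 ≤ (Real.sqrt t)⁻¹ ∧ (Real.sqrt t)⁻¹ ≤ 2 / ρ := by
  refine ⟨by positivity, ?_⟩
  rw [← inv_div]
  refine inv_anti₀ (by positivity) (Real.le_sqrt_of_sq_le ?_)
  nlinarith [sq_nonneg ρ]

noncomputable def dk (ρ r N : ℝ) (v : Z4) (ξ : V) : ℝ :=
  ker ρ (Om (cs v) ξ / N) - ker r (Om (cs v) ξ / N)

theorem o1_int4 {f g h k : V → ℝ} (hf : Integrable f) (hg : Integrable g) (hh : Integrable h)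
    (hk : Integrable k) :
    ∫ x, (f x - g x - h x + k x) = (∫ x, f x) - (∫ x, g x) - (∫ x, h x) + ∫ x, k x := by
  have a : Integrable fun x => f x - g x := hf.sub hg
  have b : Integrable fun x => f x - g x - h x := a.sub hh
  rw [integral_add b hk, integral_sub a hh, integral_sub hf hg]

theorem pair_le : ∃ C : ℝ, 0 < C ∧ ∀ (N ρ r : ℝ) (v v' : Z4), 0 < N → 0 < ρ → ρ ≤ r → r ≤ 1 →
    N ≤ ‖cs v‖ → ‖cs v‖ ≤ 3 * N → N ≤ ‖cs v'‖ → ‖cs v'‖ ≤ 3 * N →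
    Integrable (fun ξ : V => Real.exp (-(ξ ⬝ᵥ ξ) / 2) * (dk ρ r N v ξ * dk ρ r N v' ξ)) ∧
    |∫ ξ : V, Real.exp (-(ξ ⬝ᵥ ξ) / 2) * (dk ρ r N v ξ * dk ρ r N v' ξ)| ≤ C / ρ ∧
    ∀ (i l : Fin 4) (Y : ℝ), 0 < Y → Y ≤ |((v i * v' l - v l * v' i : ℤ) : ℝ)| →
      |∫ ξ : V, Real.exp (-(ξ ⬝ᵥ ξ) / 2) * (dk ρ r N v ξ * dk ρ r N v' ξ)| ≤
        C * r ^ 4 * N ^ 10 / Y ^ 5 := by
  obtain ⟨C, hC, hm⟩ := mixed_le (M := 144 ^ 2) (by norm_num)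
  have hpi : 0 < (2 * Real.pi) ^ 2 := by positivity
  refine ⟨(2 * Real.pi) ^ 2 * (4 + C * 8 ^ 5), by positivity,
    fun N ρ r v v' hN hρ hρr hr1 l1 u1 l2 u2 => ?_⟩
  have hr : 0 < r := hρ.trans_le hρr
  have p1 := o1_low v hN l1
  have p2 := o1_up v hN u1
  have q1 := o1_low v' hN l2
  have q2 := o1_up v' hN u2
  have s0 := o1_cs (fv v N) (fv v' N)
  have mn := o1_minor_u (o1_minor (fv v N) (fv v' N))
  have e : (fun ξ : V => Real.exp (-(ξ ⬝ᵥ ξ) / 2) * (dk ρ r N v ξ * dk ρ r N v' ξ)) = fun ξ : V =>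
      Real.exp (-(ξ ⬝ᵥ ξ) / 2) * (ker ρ (fv v N ⬝ᵥ ξ) * ker ρ (fv v' N ⬝ᵥ ξ)) -
      Real.exp (-(ξ ⬝ᵥ ξ) / 2) * (ker ρ (fv v N ⬝ᵥ ξ) * ker r (fv v' N ⬝ᵥ ξ)) -
      Real.exp (-(ξ ⬝ᵥ ξ) / 2) * (ker r (fv v N ⬝ᵥ ξ) * ker ρ (fv v' N ⬝ᵥ ξ)) +
      Real.exp (-(ξ ⬝ᵥ ξ) / 2) * (ker r (fv v N ⬝ᵥ ξ) * ker r (fv v' N ⬝ᵥ ξ)) := by
    funext ξ
    simp only [dk, fv_dot]
    ring
  have i1 := gauss_int (fv v N) (fv v' N) hρ hρ
  have i2 := gauss_int (fv v N) (fv v' N) hρ hr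
  have i3 := gauss_int (fv v N) (fv v' N) hr hρ
  have i4 := gauss_int (fv v N) (fv v' N) hr hr
  have hv : ∀ i, (v i : ℝ) = N * o1u (fv v N) i := o1_u v hN
  have hv' : ∀ i, (v' i : ℝ) = N * o1u (fv v' N) i := o1_u v' hN
  rw [e, o1_int4 i1 i2 i3 i4,
    gauss_eq _ _ hρ hρ, gauss_eq _ _ hρ hr, gauss_eq _ _ hr hρ, gauss_eq _ _ hr hr]
  refine ⟨((i1.sub i2).sub i3).add i4, ?_⟩
  generalize o1u (fv v N) = u at hv mn
  generalize o1u (fv v' N) = u' at hv' mn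
  generalize fv v N ⬝ᵥ fv v N = p at *
  generalize fv v' N ⬝ᵥ fv v' N = q at *
  generalize fv v N ⬝ᵥ fv v' N = c at *
  obtain ⟨s, hs⟩ : ∃ s, s = p * q - c ^ 2 := ⟨_, rfl⟩
  rw [← hs] at s0 mn
  have x0 : 0 < ρ ^ 2 := by positivity
  have xy : ρ ^ 2 ≤ r ^ 2 := pow_le_pow_left₀ hρ.le hρr 2
  have y1 : r ^ 2 ≤ 1 := pow_le_one₀ hr.le hr1
  have e1 : (p + ρ ^ 2) * (q + ρ ^ 2) - c ^ 2 = s + p * ρ ^ 2 + q * ρ ^ 2 + ρ ^ 2 * ρ ^ 2 := by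
    rw [hs]; ring
  have e2 : (p + ρ ^ 2) * (q + r ^ 2) - c ^ 2 = s + p * r ^ 2 + q * ρ ^ 2 + ρ ^ 2 * r ^ 2 := by
    rw [hs]; ring
  have e3 : (p + r ^ 2) * (q + ρ ^ 2) - c ^ 2 = s + p * ρ ^ 2 + q * r ^ 2 + r ^ 2 * ρ ^ 2 := by
    rw [hs]; ring
  have e4 : (p + r ^ 2) * (q + r ^ 2) - c ^ 2 = s + p * r ^ 2 + q * r ^ 2 + r ^ 2 * r ^ 2 := by
    rw [hs]; ring
  rw [e1, e2, e3, e4]
  simp only [div_eq_mul_inv ((2 * Real.pi) ^ 2), ← mul_sub, ← mul_add]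
  rw [abs_mul, abs_of_pos hpi]
  have p0 : 0 ≤ p := by linarith
  have q0 : 0 ≤ q := by linarith
  have pr : p * ρ ^ 2 ≤ p * r ^ 2 := mul_le_mul_of_nonneg_left xy p0
  constructor
  · have k1 := o1_inv (t := s + p * ρ ^ 2 + q * ρ ^ 2 + ρ ^ 2 * ρ ^ 2) p1 hρ
      (by nlinarith [mul_nonneg q0 x0.le])
    have k2 := o1_inv (t := s + p * r ^ 2 + q * ρ ^ 2 + ρ ^ 2 * r ^ 2) p1 hρ
      (by nlinarith [mul_nonneg q0 x0.le])
    have k3 := o1_inv (t := s + p * ρ ^ 2 + q * r ^ 2 + r ^ 2 * ρ ^ 2) p1 hρ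
      (by nlinarith [mul_nonneg q0 (sq_nonneg r)])
    have k4 := o1_inv (t := s + p * r ^ 2 + q * r ^ 2 + r ^ 2 * r ^ 2) p1 hρ
      (by nlinarith [mul_nonneg q0 (sq_nonneg r)])
    rw [mul_div_assoc]
    refine mul_le_mul_of_nonneg_left ?_ hpi.le
    have k5 : 2 / ρ + 2 / ρ ≤ (4 + C * 8 ^ 5) / ρ := by
      rw [← add_div]
      exact div_le_div_of_nonneg_right (by nlinarith) hρ.le
    exact abs_le.2 ⟨by linarith [k1.1, k2.2, k3.2, k4.1], by linarith [k1.2, k2.1, k3.1, k4.2]⟩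
  · intro i l Y hY hle
    have k1 : Y ≤ N ^ 2 * (8 * Real.sqrt s) := by
      refine hle.trans ?_
      push_cast
      rw [hv i, hv l, hv' i, hv' l, show N * u i * (N * u' l) - N * u l * (N * u' i) =
        N ^ 2 * (u i * u' l - u l * u' i) by ring, abs_mul, abs_of_pos (by positivity)]
      exact mul_le_mul_of_nonneg_left (by linarith [mn i l]) (by positivity)
    have k2 : 0 < Real.sqrt s := by
      by_contra k
      have : Real.sqrt s = 0 := le_antisymm (not_lt.1 k) (Real.sqrt_nonneg _)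
      rw [this] at k1
      linarith
    have k3 := hm s p q (ρ ^ 2) (r ^ 2) (Real.sqrt_pos.1 k2) (by nlinarith [sq_nonneg c]) p0
      (by linarith) q0 (by linarith) x0.le xy y1
    have k4 : C * (r ^ 2) ^ 2 / Real.sqrt s ^ 5 ≤ (4 + C * 8 ^ 5) * r ^ 4 * N ^ 10 / Y ^ 5 := by
      rw [div_le_div_iff₀ (by positivity) (by positivity)]
      calc C * (r ^ 2) ^ 2 * Y ^ 5 ≤ C * (r ^ 2) ^ 2 * (N ^ 2 * (8 * Real.sqrt s)) ^ 5 := by gcongr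
        _ = (C * 8 ^ 5) * r ^ 4 * N ^ 10 * Real.sqrt s ^ 5 := by ring
        _ ≤ _ := by gcongr; linarith
    calc _ ≤ (2 * Real.pi) ^ 2 * ((4 + C * 8 ^ 5) * r ^ 4 * N ^ 10 / Y ^ 5) :=
          mul_le_mul_of_nonneg_left (k3.trans k4) hpi.le
      _ = _ := by ring

theorem slab_le (R : ℝ) : ∃ C : ℝ, 0 < C ∧ ∀ (N r : ℝ) (v : Z4), 0 < N → 0 < r → N ≤ ‖cs v‖ →
    ∫⁻ ξ in Metric.closedBall (0 : V) R, ENNReal.ofReal (ker r (Om (cs v) ξ / N)) ≤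
      ENNReal.ofReal C := by
  have hpi : 0 < (2 * Real.pi) ^ 2 := by positivity
  refine ⟨Real.exp (2 * R ^ 2) * ((2 * Real.pi) ^ 2 * 2), by positivity,
    fun N r v hN hr h => ?_⟩
  have p1 := o1_low v hN h
  have i1 := gauss_int (fv v N) 0 hr one_pos
  have e1 := gauss_eq (fv v N) 0 hr one_pos
  have k0 : ker 1 0 = 1 := by simp [ker]
  have kp : ∀ s, 0 ≤ ker r s := fun s => by rw [ker]; positivity
  simp only [zero_dotProduct, dotProduct_zero, k0, mul_one, fv_dot] at i1 e1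
  have e2 : ∫ ξ : V, Real.exp (-(ξ ⬝ᵥ ξ) / 2) * ker r (Om (cs v) ξ / N) ≤ (2 * Real.pi) ^ 2 * 2 := by
    rw [e1, div_eq_mul_inv]
    refine mul_le_mul_of_nonneg_left ?_ hpi.le
    rw [← fv_dot]
    have := (o1_inv (t := (fv v N ⬝ᵥ fv v N + r ^ 2) * (0 + 1 ^ 2) - 0 ^ 2) p1 one_pos
      (by nlinarith [sq_nonneg r])).2
    simpa using this
  calc _ ≤ ∫⁻ ξ in Metric.closedBall (0 : V) R, ENNReal.ofReal (Real.exp (2 * R ^ 2)) *
        ENNReal.ofReal (Real.exp (-(ξ ⬝ᵥ ξ) / 2) * ker r (Om (cs v) ξ / N)) :=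
        setLIntegral_mono' measurableSet_closedBall fun ξ hξ => ?_
    _ ≤ ENNReal.ofReal (Real.exp (2 * R ^ 2)) * ENNReal.ofReal ((2 * Real.pi) ^ 2 * 2) := by
        rw [lintegral_const_mul' _ _ ENNReal.ofReal_ne_top]
        refine mul_le_mul_right ((setLIntegral_le_lintegral _ _).trans ?_) _
        rw [← ofReal_integral_eq_lintegral_ofReal i1
          (ae_of_all _ fun ξ => mul_nonneg (Real.exp_pos _).le (kp _))]
        exact ENNReal.ofReal_le_ofReal e2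
    _ = _ := (ENNReal.ofReal_mul (Real.exp_pos _).le).symm
  rw [← ENNReal.ofReal_mul (Real.exp_pos _).le]
  refine ENNReal.ofReal_le_ofReal ?_
  have h1 : ∀ i, ξ i * ξ i ≤ R ^ 2 := fun i => by
    have := (norm_le_pi_norm ξ i).trans (mem_closedBall_zero_iff.1 hξ)
    rw [← pow_two]
    exact sq_le_sq' (abs_le.1 this).1 (abs_le.1 this).2
  have h2 : 1 ≤ Real.exp (2 * R ^ 2) * Real.exp (-(ξ ⬝ᵥ ξ) / 2) := by
    rw [← Real.exp_add, Real.one_le_exp_iff, dotProduct, Fin.sum_univ_four]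
    linarith [h1 0, h1 1, h1 2, h1 3]
  rw [← mul_assoc]
  exact le_mul_of_one_le_left (kp _) h2

end Pool.Agent.TW
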