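import Pool.Agent.Lib.MP_4eaecc_an.O7a
import Pool.Agent.Lib.MP_4eaecc_an.O6
import Pool.Agent.Lib.MP_4eaecc_an.O1

/-! The estimate for one class of atoms. -/

namespace Pool.Agent.TW

open Matrix MeasureTheory Filter Topology
open scoped ENNReal NNReal

theorem o7b_live {w : Par} {δ j a κ : ℝ} {τ : Ty} {B : Ty × Mat × (Fin 3 → Bool)} (hδ : 0 < δ)
    (ha : 0 ≤ a) (h : Live w δ j a κ τ B) : ∃ y : Pt, Good δ τ y ∧ Act τ B.1 B.2.1 B.2.2 ∧
      Good δ B.1 (gt a (acP B.2.1 y)) ∧ Gw δ B.1 B.2.2 (Real.exp a • ac B.2.1 y.1) ∧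
      ∀ u : V, Om y.1 u = 0 → Real.exp (-a) * ‖ac B.2.1 u‖ ≤ κ * ‖u‖ := by
  obtain ⟨z, h1, h2, rfl, rfl, h5⟩ := h
  have k : j ≤ j + a := le_add_of_nonneg_right ha
  obtain ⟨e1, e2⟩ := St_add h1.1 k
  have h3 := (goodAt_add h1.1 k).1 h2
  rw [add_sub_cancel_left] at e1 e2 h3
  refine ⟨nst .L (w.y z) j, h1.2, ?_, ?_, ?_, h5⟩
  · simp only [fut, e1, e2]
    exact h3.1.act
  · simp only [fut, e1]
    exact h3.2
  · simp only [fut, e1, e2]
    obtain ⟨σ, hσ⟩ := h3.2.1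
    rw [(sg_iff.1 (hσ.sg hδ)).2.2]
    exact hσ

theorem o7b_avg {Z : Type} [MeasurableSpace Z] (μ : Measure Z) {A Q : Set Z}
    (hA : MeasurableSet A) (hQ : MeasurableSet Q) (hQ' : μ Q ≠ ∞) {F F' : Z → ℝ≥0∞} {K : ℝ≥0∞}
    (hK : K ≠ ∞) (h : ∀ x ∈ A, ∀ y ∈ Q, F x ≤ K * F' y) :
    (∫⁻ x in A, F x ∂μ) * μ Q ≤ K * (∫⁻ y in Q, F' y ∂μ) * μ A := by
  rw [← lintegral_mul_const' _ _ hQ', ← setLIntegral_const]
  refine setLIntegral_mono' hA fun x hx => ?_
  rw [← setLIntegral_const, ← lintegral_const_mul' _ _ hK]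
  exact setLIntegral_mono' hQ fun y hy => h x hx y hy

theorem o7b_vol {M : Mat} (hM : Symp M) (a : ℝ) : ∃ k : ℝ≥0∞, k ≠ 0 ∧ k ≠ ∞ ∧
    ∀ Y : Set V, MeasurableSet Y →
      volume ((fun ζ => Real.exp a • ac M ζ) ⁻¹' Y) = k * volume Y := by
  refine ⟨ENNReal.ofReal |(Real.exp a ^ Module.finrank ℝ V)⁻¹|, ?_, ENNReal.ofReal_ne_top,
    fun Y hY => ?_⟩
  · exact (ENNReal.ofReal_pos.2 (abs_pos.2 (by positivity))).ne'
  · rw [← Measure.addHaar_preimage_smul volume (Real.exp_pos a).ne' Y]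
    exact hM.mp_ac.measure_preimage ((measurable_const_smul _) hY).nullMeasurableSet

theorem o7b_ker (ρ N : ℝ) (v : V) : Continuous fun ξ => ker ρ (Om v ξ / N) := by
  unfold ker Om
  fun_prop

theorem o7b_mix (w : Par) (s : Finset Mat) (j N ρ : ℝ) :
    Measurable fun ζ => ENNReal.ofReal (mix w s j N ρ ζ) :=
  (continuous_finsetSum _ fun _ _ => continuous_const.mul (o7b_ker _ _ _)).measurable.ennreal_ofReal

/-- Bounded overlap inside a bounded set. -/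
theorem cls_overlap (w : Par) {δ : ℝ} (hδ : 0 < δ) (h1 : δ ≤ 1) : ∃ C R0 : ℝ, 0 < C ∧
    ∀ (j a κ : ℝ) (τ : Ty) (b : Finset (Ty × Mat × (Fin 3 → Bool))) (G : V → ℝ≥0∞), 0 ≤ a →
    Measurable G → (∀ B ∈ b, Live w δ j a κ τ B) →
    ∑ B ∈ b, ∫⁻ ζ in reg δ a B Set.univ, G ζ ≤
      ENNReal.ofReal C * ∫⁻ ζ in Metric.closedBall (0 : V) R0, G ζ := by
  classical
  obtain ⟨C, hC⟩ := overlap (half_pos hδ)
  refine ⟨C + 1, 4 / (δ / 2 * δ) * (2 / δ), by positivity, fun j a κ τ b G ha hG hb => ?_⟩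
  simp only [← lintegral_indicator (meas_reg δ a _ MeasurableSet.univ)]
  rw [← lintegral_finsetSum _ fun B _ => hG.indicator (meas_reg δ a B MeasurableSet.univ),
    ← lintegral_indicator measurableSet_closedBall,
    ← lintegral_const_mul' _ _ ENNReal.ofReal_ne_top]
  refine lintegral_mono fun ζ => ?_
  have h2 : (b.filter fun B => ζ ∈ reg δ a B Set.univ).card ≤ C := by
    have k := (Set.encard_le_encard (s := ↑(b.filter fun B => ζ ∈ reg δ a B Set.univ))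
      fun B hB => ?_).trans (hC τ ζ _ (Real.exp_pos a))
    · rw [Set.encard_coe_eq_coe_finsetCard] at k
      exact_mod_cast k
    · obtain ⟨k1, k2⟩ := Finset.mem_filter.1 hB
      obtain ⟨y, -, k3, -⟩ := o7b_live hδ ha (hb B k1)
      exact ⟨k3, k2.1⟩
  simp only [Set.indicator_apply]
  rw [← Finset.sum_filter, Finset.sum_const, nsmul_eq_mul]
  split_ifs with h
  · refine mul_le_mul_left ?_ _
    rw [← ENNReal.ofReal_natCast]
    exact ENNReal.ofReal_le_ofReal ((Nat.cast_le.2 h2).trans (le_add_of_nonneg_right zero_le_one))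
  · rw [Finset.filter_false_of_mem fun B hB k => h ?_, Finset.card_empty, Nat.cast_zero, zero_mul,
      mul_zero]
    obtain ⟨y, ⟨⟨σ, k1⟩, -⟩, k3, -, k4, -⟩ := o7b_live hδ ha (hb B hB)
    refine mem_closedBall_zero_iff.2 ((back_norm k3.2.1 (half_pos hδ) hδ (Real.exp_pos a) k.1
      k4).trans ?_)
    exact mul_le_mul_of_nonneg_left (k1.norm hδ) (by positivity)

/-- At the scale `r` the mixture is almost constant on each region. -/
theorem cls_main (w : Par) {δ : ℝ} (hδ : 0 < δ) (h1 : δ ≤ 1) : ∃ C : ℝ, 0 < C ∧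
    ∀ (j a N r : ℝ) (τ : Ty) (s : Finset Mat) (b : Finset (Ty × Mat × (Fin 3 → Bool)))
    (E : Set V), 0 ≤ a → 0 < N → 0 < r → MeasurableSet E → (∀ B ∈ b, Live w δ j a r τ B) →
    (∀ P ∈ s, N ≤ ‖cs (P *ᵥ w.v0)‖ ∧ ‖cs (P *ᵥ w.v0)‖ ≤ 3 * N) →
    ∑ B ∈ b, ∫⁻ ζ in reg δ a B E, ENNReal.ofReal (mix w s j N r ζ) ≤
      ENNReal.ofReal (C * ∑ P ∈ s, Real.exp (-3 * j) / N) * volume E := by
  obtain ⟨C, R0, hC, hov⟩ := cls_overlap w hδ h1
  obtain ⟨R1, hR, hcmp⟩ := cmp hδ h1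
  obtain ⟨Cs, hCs, hslab⟩ := slab_le R0
  have c0 := w.c0
  have R2 : 0 < R1 := one_pos.trans_le hR
  have v0 : 0 < (2 * (δ / 6)) ^ 4 := by positivity
  refine ⟨4 * R1 / (2 * (δ / 6)) ^ 4 * (C * (Cs / w.c)), by positivity,
    fun j a N r τ s b E ha hN hr hE hb hs => ?_⟩
  have hk : ∀ ρ x : ℝ, 0 < ρ → 0 ≤ ker ρ x := fun ρ x h => by
    unfold ker
    positivity
  have h2 : ∀ B ∈ b, ∫⁻ ζ in reg δ a B E, ENNReal.ofReal (mix w s j N r ζ) ≤
      ENNReal.ofReal (4 * R1 / (2 * (δ / 6)) ^ 4) *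
        (∫⁻ ζ in reg δ a B Set.univ, ENNReal.ofReal (mix w s j N (2 * R1 * r) ζ)) * volume E :=
    fun B hB => by
    obtain ⟨y, k1, k2, k3, k4, k5⟩ := o7b_live hδ ha (hb B hB)
    obtain ⟨k, l1, l2, l3⟩ := o7b_vol k2.1 a
    have hT : Measurable fun ζ => Real.exp a • ac B.2.1 ζ :=
      ((continuous_const_smul (Real.exp a)).comp (continuous_ac B.2.1)).measurable
    have hQ : (fun ζ => Real.exp a • ac B.2.1 ζ) ⁻¹'
        Metric.closedBall (Real.exp a • ac B.2.1 y.1) (δ / 6) ⊆ reg δ a B Set.univ :=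
      fun ζ hζ => ⟨k4.near hδ h1 (mem_closedBall_iff_norm.1 hζ), trivial⟩
    have hV := l3 _ (measurableSet_closedBall (x := Real.exp a • ac B.2.1 y.1) (ε := δ / 6))
    rw [Real.volume_pi_closedBall _ (by positivity), Fintype.card_fin] at hV
    have m1 := o7b_avg volume (meas_reg δ a B hE) (hT measurableSet_closedBall)
      (hV ▸ ENNReal.mul_ne_top l2 ENNReal.ofReal_ne_top)
      (F := fun ζ => ENNReal.ofReal (mix w s j N r ζ))
      (F' := fun ζ => ENNReal.ofReal (mix w s j N (2 * R1 * r) ζ))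
      (K := ENNReal.ofReal (4 * R1)) ENNReal.ofReal_ne_top fun ζ hζ ζ' hζ' => by
        rw [← ENNReal.ofReal_mul (by positivity), mix, mix, Finset.mul_sum]
        refine ENNReal.ofReal_le_ofReal (Finset.sum_le_sum fun P hP => ?_)
        rw [mul_left_comm]
        refine mul_le_mul_of_nonneg_left (ker_cmp hr hR ?_) (by positivity)
        have m2 := hcmp τ B.1 y B.2.1 a r B.2.2 k2.1 k1 k3 hr.le k5 (N⁻¹ • cs (P *ᵥ w.v0)) ζ ζ'
          (by
            rw [norm_smul, Real.norm_of_nonneg (by positivity), inv_mul_le_iff₀ hN, mul_comm]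
            exact (hs P hP).2) hζ.1 (hQ hζ').1
        rwa [smul_Om, smul_Om, ← div_eq_inv_mul, ← div_eq_inv_mul] at m2
    have m3 : volume (reg δ a B E) ≤ k * volume E :=
      (measure_mono fun ζ hζ => hζ.2).trans_eq (l3 E hE)
    have m4 := m1.trans (mul_le_mul' (mul_le_mul_right (lintegral_mono_set hQ) _) m3)
    rw [hV, mul_left_comm, mul_left_comm _ k, ENNReal.mul_le_mul_iff_right l1 l2,
      ← ENNReal.le_div_iff_mul_le (Or.inl (ENNReal.ofReal_pos.2 v0).ne')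
        (Or.inl ENNReal.ofReal_ne_top)] at m4
    refine m4.trans_eq ?_
    rw [ENNReal.ofReal_div_of_pos v0, ENNReal.div_eq_inv_mul, ENNReal.div_eq_inv_mul]
    ring
  have h3 : ∫⁻ ζ in Metric.closedBall (0 : V) R0, ENNReal.ofReal (mix w s j N (2 * R1 * r) ζ) ≤
      ENNReal.ofReal (Cs / w.c * ∑ P ∈ s, Real.exp (-3 * j) / N) := by
    have m1 : ∀ ζ, ENNReal.ofReal (mix w s j N (2 * R1 * r) ζ) =
        ∑ P ∈ s, ENNReal.ofReal (Real.exp (-3 * j) / (w.c * N)) *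
          ENNReal.ofReal (ker (2 * R1 * r) (Om (cs (P *ᵥ w.v0)) ζ / N)) := fun ζ => by
      rw [mix, ENNReal.ofReal_sum_of_nonneg fun P _ =>
        mul_nonneg (by positivity) (hk _ _ (by positivity))]
      exact Finset.sum_congr rfl fun P _ => ENNReal.ofReal_mul (by positivity)
    simp only [m1]
    rw [lintegral_finsetSum _ fun P _ =>
      (o7b_ker _ _ _).measurable.ennreal_ofReal.const_mul _, Finset.mul_sum,
      ENNReal.ofReal_sum_of_nonneg fun P _ => by positivity]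
    refine Finset.sum_le_sum fun P hP => ?_
    rw [lintegral_const_mul' _ _ ENNReal.ofReal_ne_top]
    refine (mul_le_mul_right (hslab N _ _ hN (by positivity) (hs P hP).1) _).trans_eq ?_
    rw [← ENNReal.ofReal_mul (by positivity)]
    congr 1
    field_simp
  refine (Finset.sum_le_sum h2).trans ?_
  rw [← Finset.sum_mul, ← Finset.mul_sum]
  refine mul_le_mul_left ((mul_le_mul_right ((hov j a r τ b _ ha (o7b_mix w s j N _) hb).trans
    (mul_le_mul_right h3 _)) _).trans_eq ?_) _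
  rw [← ENNReal.ofReal_mul hC.le, ← ENNReal.ofReal_mul (by positivity)]
  congr 1
  ring

end Pool.Agent.TW
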