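import Pool.Agent.Lib.MP_4eaecc_an.O2
import Pool.Agent.Lib.MP_4eaecc_an.O4
import Pool.Agent.Lib.MP_4eaecc_an.O6
import Pool.Agent.Lib.MP_4eaecc_an.O7a
import Pool.Agent.Lib.MP_4eaecc_an.O7b

/-! The estimate for one class of atoms. -/

namespace Pool.Agent.TW

open Matrix MeasureTheory Filter Topology
open scoped ENNReal NNReal

theorem o7_meas (ρ r N : ℝ) (v : Z4) : Measurable (dk ρ r N v) := by
  unfold dk ker Om
  fun_prop

theorem o7_thick {a β N l l' ω : ℝ} (hN : 0 < N) (hl : l ≤ 3 * N) (hl' : 0 ≤ l')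
    (hω : 6 * Real.exp (-β) ≤ ω) (h : Real.exp a ≤ Real.exp (-2 * β) * l * l') :
    2 * (Real.exp β / N ^ 2) * Real.exp a * N ≤ ω * l' := by
  have e : Real.exp β * Real.exp (-2 * β) = Real.exp (-β) := by
    rw [← Real.exp_add]
    congr 1
    ring
  have k : Real.exp a ≤ Real.exp (-2 * β) * (3 * N) * l' :=
    h.trans (mul_le_mul_of_nonneg_right (mul_le_mul_of_nonneg_left hl (Real.exp_pos _).le) hl')
  calc 2 * (Real.exp β / N ^ 2) * Real.exp a * N
      ≤ 2 * (Real.exp β / N ^ 2) * (Real.exp (-2 * β) * (3 * N) * l') * N := by gcongr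
    _ = 6 * (Real.exp β * Real.exp (-2 * β)) * l' := by field_simp; ring
    _ ≤ ω * l' := by rw [e]; gcongr

theorem o7_live {a β N l l' S m n : ℝ} (hN : 0 < N) (hl : N ≤ l) (hl' : 0 ≤ l') (hm : 0 ≤ m)
    (hn : 0 ≤ n) (hS : S ≤ Real.exp (2 * β)) (h : Real.exp (-5 * β) * l * l' ≤ Real.exp a)
    (k : m * l ≤ S * n * l') : Real.exp (-a) * m ≤ Real.exp (7 * β) / N ^ 2 * n := by
  have e : Real.exp (7 * β) * Real.exp (-5 * β) = Real.exp (2 * β) := by
    rw [← Real.exp_add]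
    congr 1
    ring
  have l0 : 0 < l := hN.trans_le hl
  rw [Real.exp_neg, div_mul_eq_mul_div, le_div_iff₀ (by positivity), mul_assoc,
    inv_mul_le_iff₀ (Real.exp_pos a)]
  calc m * N ^ 2 ≤ m * l ^ 2 := by gcongr
    _ = m * l * l := by ring
    _ ≤ S * n * l' * l := by gcongr
    _ ≤ Real.exp (2 * β) * n * l' * l := by gcongr
    _ = Real.exp (-5 * β) * l * l' * (Real.exp (7 * β) * n) := by rw [← e]; ring
    _ ≤ Real.exp a * (Real.exp (7 * β) * n) := by gcongr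

theorem o7_num {β N : ℝ} (hβ : 0 ≤ β) (hN : 0 < N) :
    1 / (N ^ 2 * (Real.exp β / N ^ 2)) +
      (Real.exp (7 * β) / N ^ 2 * N ^ 2) ^ 4 / Real.exp (20 * β) ^ 2 ≤
      2 * Real.exp (-β / 2) ^ 2 := by
  have e1 : Real.exp (-β / 2) ^ 2 = Real.exp (-β) := by
    rw [← Real.exp_nat_mul]
    congr 1
    push_cast
    ring
  have e2 : Real.exp (7 * β) ^ 4 / Real.exp (20 * β) ^ 2 ≤ Real.exp (-β) := by
    rw [← Real.exp_nat_mul, ← Real.exp_nat_mul, ← Real.exp_sub, Real.exp_le_exp]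
    push_cast
    linarith
  have n0 : N ^ 2 ≠ 0 := by positivity
  rw [e1, div_mul_cancel₀ _ n0, mul_div_cancel₀ _ n0, one_div, ← Real.exp_neg]
  linarith

theorem cls (w : Par) (R : ℝ) {δ : ℝ} (hδ : 0 < δ) (h1 : δ ≤ 1) : ∃ C : ℝ, 0 < C ∧
    ∀ (j a β N S ω : ℝ) (τ : Ty) (s : Finset Mat) (E : Set V) (X : Set (Fin 3 → ℝ)),
    0 ≤ j → 0 ≤ a → 0 ≤ β → Real.exp (8 * β) ≤ N ^ 2 → 0 < N → 0 ≤ S → S ≤ Real.exp (2 * β) →
    ω ≤ δ / 6 → 6 * Real.exp (-β) ≤ ω →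
    (∀ P ∈ s, Atom w R δ j (τ, P) ∧ N ≤ ‖cs (P *ᵥ w.v0)‖ ∧ ‖cs (P *ᵥ w.v0)‖ ≤ 3 * N ∧
      Vbig (P *ᵥ w.v0) (Real.exp (20 * β))) →
    (∀ z ∈ X, GoodAt δ .L (w.y z) j ∧ GoodAt δ .L (w.y z) (j + a) ∧
      (St .L (w.y z) j).1 = τ ∧ (St .L (w.y z) j).2 ∈ s ∧ (nst .L (w.y z) (j + a)).1 ∈ E ∧
      Shear w z j a S ∧
      Real.exp (-5 * β) * w.lev z j * w.lev z (j + a) ≤ Real.exp a ∧
      Real.exp a ≤ Real.exp (-2 * β) * w.lev z j * w.lev z (j + a)) →
    volume X ≤ ENNReal.ofReal (C * Real.exp (-β / 2)) +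
      ENNReal.ofReal (C * ∑ P ∈ s, Real.exp (-3 * j) / ‖cs (P *ᵥ w.v0)‖) *
        volume (Metric.cthickening ω E) := by
  classical
  obtain ⟨Co, R0, o0, ho⟩ := cls_overlap w hδ h1
  obtain ⟨Cm, m0, hm⟩ := cls_main w hδ h1
  obtain ⟨Cl, l0, hl⟩ := l2_flat
  obtain ⟨C1, c0, hc⟩ := l1_of_l2 R0
  obtain ⟨Cf, f0, hf⟩ := fat w R hδ h1
  obtain ⟨Ca, a0, hca⟩ := atom_count w R hδ
  have w0 := w.c0
  obtain ⟨D, D0, hD⟩ : ∃ D : ℝ, 0 < D ∧ D ^ 2 = Cl * (3 * Cf / w.c) * (Ca / w.c) * 2 :=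
    ⟨Real.sqrt _, Real.sqrt_pos.2 (by positivity), Real.sq_sqrt (by positivity)⟩
  refine ⟨Co * (C1 * D) + Cm * 3, by positivity, ?_⟩
  intro j a β N S ω τ s E X hj ha hβ hN2 hN hS0 hS hω hω' hs hX
  have hfin : ((fun z => fut w z j a) '' X).Finite :=
    (fut_finite w hδ j a ha).subset (by
      rintro _ ⟨z, hz, rfl⟩
      exact ⟨z, (hX z hz).1, rfl⟩)
  have ρ0 : 0 < Real.exp β / N ^ 2 := by positivity
  have r0 : 0 < Real.exp (7 * β) / N ^ 2 := by positivity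
  have ρr : Real.exp β / N ^ 2 ≤ Real.exp (7 * β) / N ^ 2 := by
    gcongr
    linarith
  have r1 : Real.exp (7 * β) / N ^ 2 ≤ 1 :=
    (div_le_one (by positivity)).2 (le_trans (Real.exp_le_exp.2 (by linarith)) hN2)
  have t1 := cls_thick w hδ h1 ha hN ρ0 hω (τ := τ) s hfin.toFinset (E := E) (X := X) (j := j)
    fun z hz => by
      obtain ⟨k1, k2, k3, k4, k5, -, -, k8⟩ := hX z hz
      exact ⟨k1, k2, k3, k4, hfin.mem_toFinset.2 ⟨z, hz, rfl⟩, k5,
        o7_thick hN (hs _ k4).2.2.1 (norm_nonneg _) hω' k8⟩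
  have lv : ∀ B ∈ hfin.toFinset, Live w δ j a (Real.exp (7 * β) / N ^ 2) τ B := fun B hB => by
    obtain ⟨z, hz, rfl⟩ := hfin.mem_toFinset.1 hB
    obtain ⟨k1, k2, k3, k4, -, k6, k7, -⟩ := hX z hz
    exact ⟨z, k1, k2, k3, rfl, fun u hu => o7_live hN (hs _ k4).2.1 (norm_nonneg _)
      (norm_nonneg _) (norm_nonneg _) hS k7 (k6 u hu)⟩
  have t2 := hm j a N _ τ s _ (Metric.cthickening ω E) ha hN r0
    Metric.isClosed_cthickening.measurableSet lv fun P hP => ⟨(hs P hP).2.1, (hs P hP).2.2.1⟩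
  have p3 : ∀ P ∈ s, Real.exp (-3 * j) / N ≤ 3 * (Real.exp (-3 * j) / ‖cs (P *ᵥ w.v0)‖) :=
    fun P hP => by
      have k1 := (hs P hP).2.2.1
      have k2 := hN.trans_le (hs P hP).2.1
      rw [← mul_div_assoc, div_le_div_iff₀ hN k2, mul_comm 3, mul_assoc]
      gcongr
  have s3 := Finset.sum_le_sum p3
  rw [← Finset.mul_sum] at s3
  obtain ⟨F, hF⟩ : ∃ F : V → ℝ, F = fun ξ => ∑ P ∈ s, Real.exp (-3 * j) / (w.c * N) *
      dk (Real.exp β / N ^ 2) (Real.exp (7 * β) / N ^ 2) N (P *ᵥ w.v0) ξ := ⟨_, rfl⟩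
  have mF : Measurable F := by
    rw [hF]
    exact Finset.measurable_sum _ fun P _ => (o7_meas _ _ _ _).const_mul _
  have mG : Measurable fun ξ => ENNReal.ofReal |F ξ| := mF.abs.ennreal_ofReal
  have t3 := hl s (fun P => P *ᵥ w.v0) (fun _ => Real.exp (-3 * j) / (w.c * N)) N _ _
    (Real.exp (20 * β)) (3 * Cf / w.c) (Ca / w.c) hN ρ0 ρr r1 (Real.one_le_exp (by linarith))
    (by positivity) (fun P hP => by
      obtain ⟨⟨z, -, -, k1⟩, k2, k3, k4⟩ := hs P hP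
      have k5 := St_symp .L (w.y z) j
      rw [k1] at k5
      exact ⟨by positivity, k2, k3, w.prim k5, k4⟩) (by
      have k1 := hf j (s.map ⟨fun P => (τ, P), fun _ _ e => (Prod.ext_iff.1 e).2⟩) fun q hq => by
        obtain ⟨P, hP, rfl⟩ := Finset.mem_map.1 hq
        exact (hs P hP).1
      rw [Finset.sum_map] at k1
      simp only [mul_comm w.c N, ← div_div]
      rw [← Finset.sum_div]
      gcongr
      exact s3.trans (mul_le_mul_of_nonneg_left k1 (by norm_num))) (fun v => by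
      rcases (s.filter fun P => P *ᵥ w.v0 = v).eq_empty_or_nonempty with e | ⟨P, hP⟩
      · rw [e, Finset.sum_empty]
        positivity
      obtain ⟨hP', rfl⟩ := Finset.mem_filter.1 hP
      have k1 := hca j (P *ᵥ w.v0) ((s.filter fun Q => Q *ᵥ w.v0 = P *ᵥ w.v0).map
        ⟨fun P => (τ, P), fun _ _ e => (Prod.ext_iff.1 e).2⟩) hj fun q hq => by
          obtain ⟨Q, hQ, rfl⟩ := Finset.mem_map.1 hq
          exact ⟨(hs Q (Finset.mem_filter.1 hQ).1).1, (Finset.mem_filter.1 hQ).2⟩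
      rw [Finset.card_map] at k1
      have k2 := (hs P hP').2.1
      have e : Real.exp (3 * j) * Real.exp (-3 * j) = 1 := by
        rw [← Real.exp_add, ← Real.exp_zero]
        congr 1
        ring
      rw [Finset.sum_const, nsmul_eq_mul]
      calc _ ≤ Ca * Real.exp (3 * j) / N * (Real.exp (-3 * j) / (w.c * N)) := by
            gcongr
            exact k1.trans (by gcongr)
        _ = Ca / w.c / N ^ 2 * (Real.exp (3 * j) * Real.exp (-3 * j)) := by field_simp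
        _ = _ := by rw [e, mul_one])
  have t4 := hc F (D * Real.exp (-β / 2)) mF (by positivity) (by
    rw [hF]
    refine t3.trans (ENNReal.ofReal_le_ofReal ?_)
    rw [mul_pow D, hD, mul_assoc _ 2]
    exact mul_le_mul_of_nonneg_left (o7_num hβ hN) (by positivity))
  have t5 := ho j a _ τ _ _ ha mG lv
  have t6 : ∀ B, ∫⁻ ζ in reg δ a B (Metric.cthickening ω E),
      ENNReal.ofReal (mix w s j N (Real.exp β / N ^ 2) ζ) ≤
      (∫⁻ ζ in reg δ a B (Metric.cthickening ω E),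
        ENNReal.ofReal (mix w s j N (Real.exp (7 * β) / N ^ 2) ζ)) +
      ∫⁻ ζ in reg δ a B Set.univ, ENNReal.ofReal |F ζ| := fun B => by
    refine le_trans ?_ (add_le_add le_rfl (lintegral_mono_set
      (s := reg δ a B (Metric.cthickening ω E)) fun _ h => And.intro h.1 trivial))
    rw [← lintegral_add_right _ mG]
    refine lintegral_mono fun ζ => le_trans (ENNReal.ofReal_le_ofReal ?_) ENNReal.ofReal_add_le
    have e : F ζ = mix w s j N (Real.exp β / N ^ 2) ζ -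
        mix w s j N (Real.exp (7 * β) / N ^ 2) ζ := by
      simp only [hF, mix, dk, mul_sub, Finset.sum_sub_distrib]
    linarith [le_abs_self (F ζ)]
  refine (t1.trans (Finset.sum_le_sum fun B _ => t6 B)).trans ?_
  rw [Finset.sum_add_distrib, add_comm]
  refine add_le_add ((t5.trans (mul_le_mul_right t4 _)).trans ?_)
    (t2.trans (mul_le_mul_left (ENNReal.ofReal_le_ofReal ?_) _))
  · rw [← ENNReal.ofReal_mul o0.le]
    refine ENNReal.ofReal_le_ofReal ?_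
    have : 0 ≤ Cm * 3 * Real.exp (-β / 2) := by positivity
    linarith
  · have k1 : 0 ≤ ∑ P ∈ s, Real.exp (-3 * j) / ‖cs (P *ᵥ w.v0)‖ :=
      Finset.sum_nonneg fun _ _ => by positivity
    have k2 := mul_le_mul_of_nonneg_left s3 m0.le
    have k3 := mul_nonneg (show 0 ≤ Co * (C1 * D) by positivity) k1
    linarith

end Pool.Agent.TW
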