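import Pool.Agent.Lib.MP_4eaecc_an.O5
import Pool.Agent.Lib.MP_4eaecc_an.G6

/-! The law of the renormalised widths is dominated by Lebesgue measure. -/

namespace Pool.Agent.TW

open Matrix MeasureTheory Filter Topology
open scoped ENNReal NNReal

/-- The good event on the grid of times `k β`, `1 ≤ k ≤ n`. -/
def Grid (w : Par) (δ l c : ℝ) (n : ℕ) (β : ℝ) (z : Fin 3 → ℝ) : Prop :=
  (∀ k : ℕ, 1 ≤ k → k ≤ n → GoodAt δ .L (w.y z) (k * β)) ∧
  (∀ k k' : ℕ, 1 ≤ k → k ≤ k' → k' ≤ n → l * w.lev z (k * β) ≤ w.lev z (k' * β)) ∧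
  (∀ k : ℕ, 1 ≤ k → k ≤ n → Real.exp (c * (n * β)) ≤ w.lev z (k * β) →
    Vbig (w.v z (k * β)) (Real.exp (20 * β))) ∧
  ∃ k : ℕ, 1 ≤ k ∧ k ≤ n ∧ Real.exp (c * (n * β)) ≤ w.lev z (k * β) ∧
    Real.exp (-5 * β) * w.lev z (k * β) * w.lev z (n * β) ≤ Real.exp (n * β - k * β) ∧
    Real.exp (n * β - k * β) ≤ Real.exp (-2 * β) * w.lev z (k * β) * w.lev z (n * β)

/-- The crossing index of `f k = (n - k) β - x k - x n`. -/
theorem root (x : ℕ → ℝ) {n k1 : ℕ} {β c c2 D : ℝ} (hβ : 0 < β) (hD : 0 ≤ D) (hDβ : D ≤ β)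
    (hc : 0 < c) (hk : 1 ≤ k1) (hkn : k1 ≤ n) (hn : 5 ≤ c * n) (hcc : 2 * c ≤ c2)
    (hk1 : (k1 : ℝ) ≤ c2 / 2 * n) (up : ∀ k, 1 ≤ k → k < n → x (k + 1) ≤ x k + β + D)
    (first : x 1 ≤ β + D) (low : ∀ k, k1 ≤ k → k ≤ n → c * (n * β) ≤ x k)
    (gap : x n ≤ (1 - c2) * (n * β)) : ∃ k, 1 ≤ k ∧ k ≤ n ∧ c * (n * β) ≤ x k ∧
      -5 * β + x k + x n ≤ n * β - k * β ∧ n * β - k * β ≤ -2 * β + x k + x n := by
  classical
  have h5 : 5 * β ≤ c * (n * β) := by
    rw [← mul_assoc]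
    exact mul_le_mul_of_nonneg_right hn hβ.le
  have hn0 : (0 : ℝ) ≤ n * β := by positivity
  have hc2 : 2 * (c * (n * β)) ≤ c2 * (n * β) := by
    rw [← mul_assoc]
    exact mul_le_mul_of_nonneg_right hcc hn0
  let p : ℕ → Prop := fun k => -5 * β + x k + x n ≤ n * β - k * β
  have h1 : p 1 := by
    simp only [p, Nat.cast_one]
    linarith
  have h2 : 1 ≤ Nat.findGreatest p n := Nat.le_findGreatest (hk.trans hkn) h1
  have h3 : p (Nat.findGreatest p n) := Nat.findGreatest_spec (hk.trans hkn) h1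
  have h4 := Nat.findGreatest_le (P := p) n
  have h6 : ∀ k, Nat.findGreatest p n < k → k ≤ n → ¬ p k := fun k => Nat.findGreatest_is_greatest
  generalize Nat.findGreatest p n = k at h2 h3 h4 h6
  have h7 : k < n := lt_of_le_of_ne h4 fun e => by
    have := low n hkn le_rfl
    simp only [p, e] at h3
    linarith
  have h8 := h6 (k + 1) (Nat.lt_succ_self k) h7
  have h9 := up k h2 h7
  simp only [p, not_le, Nat.cast_add, Nat.cast_one] at h8
  refine ⟨k, h2, h4, ?_, h3, by linarith⟩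
  rcases le_total k1 k with h | h
  · exact low k h h4
  · have k2 : (k : ℝ) * β ≤ c2 / 2 * n * β :=
      mul_le_mul_of_nonneg_right ((Nat.cast_le.2 h).trans hk1) hβ.le
    linarith

theorem o8_small (K : ℝ) {α e : ℝ} (hα : 0 < α) (he : 0 < e) :
    ∃ δ : ℝ, 0 < δ ∧ δ ≤ 1 ∧ K * δ ^ α ≤ e := by
  have h1 := ((Real.continuousAt_rpow_const 0 α (Or.inr hα.le)).tendsto).const_mul K
  rw [Real.zero_rpow hα.ne', mul_zero] at h1
  obtain ⟨δ, h2, h3⟩ := (((h1.eventually (eventually_le_nhds he)).filter_mono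
    nhdsWithin_le_nhds).and (Ioc_mem_nhdsGT (zero_lt_one' ℝ))).exists
  exact ⟨δ, h3.1, h3.2, h2⟩

theorem o8_ev (K : ℝ) {e : ℝ} (he : 0 < e) : ∀ᶠ β in atTop, K * Real.exp (-β) ≤ e := by
  have h1 := Real.tendsto_exp_neg_atTop_nhds_zero.const_mul K
  rw [mul_zero] at h1
  exact h1.eventually (eventually_le_nhds he)

theorem o8_union {ι Z : Type} [MeasurableSpace Z] (μ : Measure Z) (s : Finset ι) (X : ι → Set Z)
    {a e : ℝ} (h : ∀ i ∈ s, μ (X i) ≤ ENNReal.ofReal a) (k : s.card * a ≤ e) :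
    μ (⋃ i ∈ s, X i) ≤ ENNReal.ofReal e := by
  refine (measure_biUnion_finset_le s X).trans ((Finset.sum_le_card_nsmul _ _ _ h).trans ?_)
  rw [nsmul_eq_mul, ← ENNReal.ofReal_natCast, ← ENNReal.ofReal_mul (Nat.cast_nonneg _)]
  exact ENNReal.ofReal_le_ofReal k

/-- The deterministic part. -/
theorem o8_det (w : Par) {δ l c c0 c2 Cv D β : ℝ} {n k1 : ℕ} {z : Fin 3 → ℝ} (hδ : 0 < δ)
    (hl : 0 < l) (hc : 0 < c) (hβ : 1 ≤ β) (hDβ : D ≤ β) (hD1 : 16 / δ ≤ D)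
    (hD2 : ∀ t, Base .L (w.y z) t → w.lev z t ≤ D * Real.exp t) (hn : 300 ≤ c * n)
    (hcc : 2 * c ≤ c2) (hk : 1 ≤ k1) (hkn : k1 ≤ n) (hk1 : (k1 : ℝ) ≤ c2 / 2 * n)
    (hk0 : 2 * (c * n) ≤ c0 * k1) (hlβ : l⁻¹ ≤ β) (hv : Cv ≤ β)
    (good : ∀ k : ℕ, 1 ≤ k → k ≤ n → GoodAt δ .L (w.y z) (k * β))
    (nd : ∀ k k' : ℕ, 1 ≤ k → k ≤ k' → k' ≤ n → l * w.lev z (k * β) ≤ w.lev z (k' * β))
    (lg : Real.exp (c0 * (k1 * β)) ≤ w.lev z (k1 * β))
    (gp : w.lev z (n * β) ≤ Real.exp ((1 - c2) * (n * β)))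
    (vb : ∀ j : ℕ, j < n → GoodAt δ .L (w.y z) (j * β) → GoodAt δ .L (w.y z) (j * β + 40 * β) →
      l * w.lev z (j * β) ≤ w.lev z (j * β + 40 * β) →
      Cv * Real.exp (4 * (40 * β)) * Real.exp (20 * β) ^ 2 ≤ w.lev z (j * β) →
      Vbig (w.v z (j * β + 40 * β)) (Real.exp (20 * β))) : Grid w δ l c n β z := by
  have hβ0 : 0 < β := one_pos.trans_le hβ
  have hD0 : 0 ≤ D := le_trans (by positivity) hD1
  have hex : ∀ u : ℝ, u ≤ Real.exp u := fun u => by linarith [Real.add_one_le_exp u]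
  have hx : ∀ t, Real.exp (Real.log (w.lev z t)) = w.lev z t := fun t =>
    Real.exp_log (one_pos.trans_le (w.one_le_lev z t))
  have h300 : 300 * β ≤ c * (n * β) := by
    rw [← mul_assoc]
    exact mul_le_mul_of_nonneg_right hn hβ0.le
  have step : ∀ t t', GoodAt δ .L (w.y z) t → t ≤ t' →
      Real.log (w.lev z t') ≤ Real.log (w.lev z t) + (t' - t) + D := fun t t' h k => by
    rw [← Real.exp_le_exp, hx, Real.exp_add, Real.exp_add, hx]
    refine (w.lev_step hδ h k).trans ?_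
    have k1 : 0 ≤ w.lev z t * Real.exp (t' - t) := by
      have := w.one_le_lev z t
      positivity
    refine le_trans (le_of_eq ?_) (mul_le_mul_of_nonneg_left (hD1.trans (hex D)) k1)
    ring
  have top : ∀ t, GoodAt δ .L (w.y z) t → Real.log (w.lev z t) ≤ t + D := fun t h => by
    rw [← Real.exp_le_exp, hx, Real.exp_add, mul_comm]
    exact (hD2 t h.1).trans (mul_le_mul_of_nonneg_right (hex D) (Real.exp_pos _).le)
  refine ⟨good, nd, fun k k2 k3 k4 => ?_, ?_⟩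
  · rw [← hx, Real.exp_le_exp] at k4
    have k5 : 41 ≤ k := by
      by_contra! k5
      have k6 : (k : ℝ) * β ≤ 40 * β :=
        mul_le_mul_of_nonneg_right (by exact_mod_cast Nat.lt_succ_iff.1 k5) hβ0.le
      linarith [top _ (good k k2 k3)]
    obtain ⟨j, rfl⟩ : ∃ j, k = j + 40 := ⟨k - 40, by omega⟩
    have e : ((j + 40 : ℕ) : ℝ) * β = j * β + 40 * β := by
      push_cast
      ring
    have g1 := good j (by omega) (by omega)
    have g2 := good _ k2 k3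
    have g3 := nd j _ (by omega) (by omega) k3
    rw [e] at g2 g3 k4 ⊢
    refine vb j (by omega) g1 g2 g3 ?_
    have g4 := step _ (j * β + 40 * β) g1 (by linarith)
    refine (mul_le_mul_of_nonneg_right (mul_le_mul_of_nonneg_right (hv.trans (hex β))
      (Real.exp_pos _).le) (by positivity)).trans ?_
    rw [pow_two, ← Real.exp_add, ← Real.exp_add, ← Real.exp_add, ← hx, Real.exp_le_exp]
    linarith
  · obtain ⟨k, k2, k3, k4, k5, k6⟩ := root (fun k => Real.log (w.lev z (k * β))) hβ0 hD0 hDβ hc hk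
      hkn (by linarith) hcc hk1 (fun k a b => by
        have := step (k * β) ((k + 1 : ℕ) * β) (good k a b.le) (by push_cast; linarith)
        push_cast at this ⊢
        linarith) (by simpa using top _ (good 1 le_rfl (hk.trans hkn))) (fun k a b => by
        have a1 := nd k1 k hk a b
        have a2 : 2 * (c * (n * β)) ≤ c0 * (k1 * β) := by
          have := mul_le_mul_of_nonneg_right hk0 hβ0.le
          linarith
        have a3 : Real.exp (-β) ≤ l := by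
          rw [Real.exp_neg]
          exact (inv_le_comm₀ (Real.exp_pos _) hl).2 (hlβ.trans (hex β))
        have a4 := (mul_le_mul a3 lg (Real.exp_pos _).le hl.le).trans a1
        rw [← Real.exp_add, ← hx, Real.exp_le_exp] at a4
        linarith) (by rwa [← Real.exp_le_exp, hx])
    refine ⟨k, k2, k3, by rwa [← hx, Real.exp_le_exp], ?_, ?_⟩
    · rwa [← Real.exp_le_exp, Real.exp_add, Real.exp_add, hx, hx] at k5
    · rwa [← Real.exp_le_exp, Real.exp_add, Real.exp_add, hx, hx] at k6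

theorem grid_prob (w : Par) (R : ℝ) {ε : ℝ} (hε : 0 < ε) : ∃ (δ l c : ℝ) (n : ℕ), 0 < δ ∧ δ ≤ 1 ∧
    0 < l ∧ l ≤ 1 ∧ 0 < c ∧ 5 ≤ c * n ∧ ∀ᶠ β in atTop,
    volume {z ∈ ZR R | WV .L (w.E z) ∧ ¬ Grid w δ l c n β z} ≤ ENNReal.ofReal ε := by
  have e5 : 0 < ε / 5 := by positivity
  have e10 : 0 < ε / 10 := by positivity
  obtain ⟨c2', hc2', hgap⟩ := gapZ w R e5
  obtain ⟨c0, hc0, hlg⟩ := lgZ w R e5
  obtain ⟨c2, hc2, a1, a2⟩ : ∃ c2 : ℝ, 0 < c2 ∧ c2 ≤ c2' ∧ c2 ≤ 1 :=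
    ⟨min c2' 1, lt_min hc2' one_pos, min_le_left _ _, min_le_right _ _⟩
  obtain ⟨c, hc, a3, a4⟩ : ∃ c : ℝ, 0 < c ∧ c ≤ c0 * c2 / 8 ∧ c ≤ c2 / 2 :=
    ⟨min (c0 * c2 / 8) (c2 / 2), lt_min (by positivity) (by positivity), min_le_left _ _,
      min_le_right _ _⟩
  obtain ⟨n, hn⟩ := exists_nat_ge (300 / c)
  rw [div_le_iff₀ hc, mul_comm] at hn
  have n0 : (0 : ℝ) ≤ n := Nat.cast_nonneg n
  have a5 : c * n ≤ c2 / 2 * n := mul_le_mul_of_nonneg_right a4 n0
  obtain ⟨k1, b1, b2⟩ : ∃ k1 : ℕ, (k1 : ℝ) ≤ c2 / 2 * n ∧ c2 / 2 * n < k1 + 1 :=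
    ⟨⌊c2 / 2 * n⌋₊, Nat.floor_le (by positivity), Nat.lt_floor_add_one _⟩
  have b3 : (1 : ℝ) ≤ k1 := by linarith
  have b4 : (k1 : ℝ) ≤ n := by linarith [mul_le_mul_of_nonneg_right a2 n0]
  have b5 : 2 * (c * n) ≤ c0 * k1 := by
    have k2 := mul_le_mul_of_nonneg_right a3 n0
    have k3 : c0 * (c2 / 4 * n) ≤ c0 * k1 := mul_le_mul_of_nonneg_left (by linarith) hc0.le
    linarith
  obtain ⟨C1, α, hC1, hα, hdiv⟩ := ndivZ w R
  obtain ⟨δ, d0, d1, d2⟩ := o8_small (n * C1) hα e10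
  obtain ⟨C2, hC2, hnd⟩ := ndZ w R
  obtain ⟨l, l0, l1, l2⟩ := o8_small (((n + 1) * (n + 1) : ℕ) * (C2 / δ ^ 10)) two_pos e5
  rw [Real.rpow_two] at l2
  obtain ⟨Cv, hCv, hvb⟩ := vbigZ w R d0 d1 l0
  obtain ⟨C3, hC3, hlev⟩ := w.lev_le
  refine ⟨δ, l, c, n, d0, d1, l0, l1, hc, by linarith, ?_⟩
  filter_upwards [eventually_ge_atTop 1, eventually_ge_atTop (16 / δ + C3), eventually_ge_atTop l⁻¹,
    eventually_ge_atTop Cv, o8_ev (n * C1 / δ) e10, o8_ev (n * Cv) e5,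
    (tendsto_id.const_mul_atTop (one_pos.trans_le b3)).eventually hlg,
    (tendsto_id.const_mul_atTop (one_pos.trans_le (b3.trans b4))).eventually hgap]
    with β β1 β2 β3 β4 β5 β6 β7 β8
  have β0 : 0 < β := one_pos.trans_le β1
  have m1 := o8_union volume (Finset.range n) (e := ε / 5)
    (fun k => {z ∈ ZR R | WV .L (w.E z) ∧ ¬ GoodAt δ .L (w.y z) ((k + 1 : ℕ) * β)})
    (a := C1 * (δ ^ α + Real.exp (-β) / δ)) (fun k _ => (hdiv δ _ d0 d1).trans (by
      have : β ≤ (k + 1 : ℕ) * β := le_mul_of_one_le_left β0.le (by exact_mod_cast k.succ_pos)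
      gcongr)) (by
      rw [Finset.card_range]
      refine le_trans (le_of_eq ?_) ((add_le_add d2 β5).trans (by linarith))
      ring)
  have m2 := o8_union volume (Finset.range (n + 1) ×ˢ Finset.range (n + 1)) (e := ε / 5)
    (fun q => {z ∈ ZR R | GoodAt δ .L (w.y z) (q.1 * β) ∧ GoodAt δ .L (w.y z) ((q.1 + q.2 : ℕ) * β) ∧
      w.lev z ((q.1 + q.2 : ℕ) * β) ≤ l * w.lev z (q.1 * β)})
    (fun q _ => hnd δ l _ _ d0 d1 l0 (by positivity)
      (mul_le_mul_of_nonneg_right (Nat.cast_le.2 (Nat.le_add_right _ _)) β0.le)) (by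
      rwa [Finset.card_product, Finset.card_range, ← mul_assoc])
  have m3 := o8_union volume (Finset.range n) (e := ε / 5) _
    (fun (j : ℕ) _ => hvb (j * β) (40 * β) (Real.exp (20 * β)) (by positivity) (by positivity)
      (Real.exp_pos _)) (by
      rw [Finset.card_range, mul_assoc, ← Real.exp_add, ← mul_assoc]
      refine le_trans ?_ β6
      gcongr
      linarith)
  have m4 := add_le_add (add_le_add (add_le_add (add_le_add m1 m2) m3) β7) β8
  rw [← ENNReal.ofReal_add e5.le e5.le, ← ENNReal.ofReal_add (by positivity) e5.le,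
    ← ENNReal.ofReal_add (by positivity) e5.le, ← ENNReal.ofReal_add (by positivity) e5.le,
    show ε / 5 + ε / 5 + ε / 5 + ε / 5 + ε / 5 = ε by ring] at m4
  refine le_trans ((measure_mono ?_).trans ((measure_union_le _ _).trans (add_le_add_left
    ((measure_union_le _ _).trans (add_le_add_left ((measure_union_le _ _).trans (add_le_add_left
    (measure_union_le _ _) _)) _)) _))) m4
  rintro z ⟨z1, z2, z3⟩
  by_contra hz
  simp only [Set.mem_union, Set.mem_iUnion, not_or, not_exists, Set.mem_ofPred_eq, not_and, z1, z2,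
    true_and, not_not, not_le, id, Finset.mem_range, Finset.mem_product] at hz
  obtain ⟨⟨⟨⟨y1, y2⟩, y3⟩, y4⟩, y5⟩ := hz
  have good : ∀ k : ℕ, 1 ≤ k → k ≤ n → GoodAt δ .L (w.y z) (k * β) := fun k k2 k3 => by
    obtain ⟨j, rfl⟩ : ∃ j, k = j + 1 := ⟨k - 1, by omega⟩
    exact y1 j (by omega)
  have d3 : 0 < 16 / δ := by positivity
  refine z3 (o8_det w (c0 := c0) (c2 := c2) (k1 := k1) (Cv := Cv) d0 l0 hc β1 β2 (by linarith)
    (fun t h => (hlev z t h).trans (by gcongr; linarith)) hn (by linarith) (by exact_mod_cast b3)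
    (by exact_mod_cast b4) b1 b5 β3 β4 good (fun k k' k2 k3 k4 => ?_) y4.le (y5.le.trans ?_) y3)
  · obtain ⟨d, rfl⟩ := Nat.exists_eq_add_of_le k3
    exact (y2 (k, d) ⟨by omega, by omega⟩ (good k k2 (by omega)) (good _ (by omega) k4)).le
  · gcongr

end Pool.Agent.TW
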