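import Pool.Agent.Lib.MP_4eaecc_an.O5
import Pool.Agent.Lib.MP_4eaecc_an.O7
import Pool.Agent.Lib.MP_4eaecc_an.G6
import Pool.Agent.Lib.MP_4eaecc_an.O8a

/-! The law of the renormalised widths is dominated by Lebesgue measure. -/

namespace Pool.Agent.TW

open Matrix MeasureTheory Filter Topology
open scoped ENNReal NNReal

private theorem o8_floor {x : ℝ} (hx : 1 ≤ x) :
    Real.exp (⌊Real.log x⌋₊ : ℝ) ≤ x ∧ x ≤ 3 * Real.exp (⌊Real.log x⌋₊ : ℝ) ∧
      x ≤ Real.exp (⌊Real.log x⌋₊ + 1 : ℝ) := by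
  have h0 : 0 < x := by linarith
  have h1 : x ≤ Real.exp (⌊Real.log x⌋₊ + 1 : ℝ) := by
    conv_lhs => rw [← Real.exp_log h0]
    exact Real.exp_le_exp.2 (Nat.lt_floor_add_one _).le
  refine ⟨?_, h1.trans ?_, h1⟩
  · conv_rhs => rw [← Real.exp_log h0]
    exact Real.exp_le_exp.2 (Nat.floor_le (Real.log_nonneg hx))
  · rw [Real.exp_add, mul_comm]
    exact mul_le_mul_of_nonneg_right (by linarith [Real.exp_one_lt_d9]) (Real.exp_pos _).le

/-- The estimate at one time `j`: sum of `cls` over the level and the type. -/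
private theorem o8_time (w : Par) (R : ℝ) {δ : ℝ} (hδ : 0 < δ) (h1 : δ ≤ 1) : ∃ C : ℝ, 0 < C ∧
    ∀ (j a β S ω : ℝ) (M : ℕ) (E : Set V) (X : Set (Fin 3 → ℝ)),
    0 ≤ j → 0 ≤ a → 1 ≤ β → 0 ≤ S → S ≤ Real.exp (2 * β) → ω ≤ δ / 6 → 6 * Real.exp (-β) ≤ ω →
    (∀ z ∈ X, z ∈ ZR R ∧ GoodAt δ .L (w.y z) j ∧ GoodAt δ .L (w.y z) (j + a) ∧
      (nst .L (w.y z) (j + a)).1 ∈ E ∧ Shear w z j a S ∧
      Real.exp (-5 * β) * w.lev z j * w.lev z (j + a) ≤ Real.exp a ∧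
      Real.exp a ≤ Real.exp (-2 * β) * w.lev z j * w.lev z (j + a) ∧
      Real.exp (5 * β) ≤ w.lev z j ∧ Real.log (w.lev z j) < M ∧
      Vbig (w.v z j) (Real.exp (20 * β))) →
    volume X ≤ ENNReal.ofReal (C * (M * Real.exp (-β / 2))) +
      ENNReal.ofReal C * volume (Metric.cthickening ω E) := by
  classical
  obtain ⟨C1, hC1, H1⟩ := cls w R hδ h1
  obtain ⟨C2, hC2, H2⟩ := fat w R hδ h1
  refine ⟨3 * C1 + C1 * C2, by positivity,
    fun j a β S ω M E X hj ha hβ hS hS2 hω hω2 hX => ?_⟩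
  obtain ⟨A, hA⟩ : ∃ A : Finset (Ty × Mat), ∀ q, q ∈ A ↔
      Atom w R δ j q ∧ Vbig (q.2 *ᵥ w.v0) (Real.exp (20 * β)) :=
    ⟨((atom_finite w R hδ hj).toFinset).filter fun q => Vbig (q.2 *ᵥ w.v0) (Real.exp (20 * β)),
      fun q => by simp⟩
  obtain ⟨cl, hcl⟩ : ∃ cl : Ty × Mat → ℕ × Ty,
      cl = fun q => (⌊Real.log ‖cs (q.2 *ᵥ w.v0)‖⌋₊, q.1) := ⟨_, rfl⟩
  obtain ⟨g, hg⟩ : ∃ g : Mat → ℝ, g = fun P => Real.exp (-3 * j) / ‖cs (P *ᵥ w.v0)‖ := ⟨_, rfl⟩
  have hg0 : ∀ P, 0 ≤ g P := fun P => by rw [hg]; positivity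
  obtain ⟨I, hI⟩ : ∃ I : Finset (ℕ × Ty), I = Finset.range M ×ˢ Finset.univ := ⟨_, rfl⟩
  have hIc : I.card = 3 * M := by
    rw [hI, Finset.card_product, Finset.card_range, mul_comm]
    rfl
  have hcov : X ⊆ ⋃ i ∈ I, {z ∈ X | cl (St .L (w.y z) j) = i} := fun z hz => by
    simp only [Set.mem_iUnion]
    refine ⟨_, ?_, hz, rfl⟩
    rw [hI, hcl]
    simp only [Finset.mem_product, Finset.mem_range, Finset.mem_univ, and_true]
    exact (Nat.floor_lt (Real.log_nonneg (w.one_le_lev z j))).2 (hX z hz).2.2.2.2.2.2.2.2.1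
  have hone : ∀ i, volume {z ∈ X | cl (St .L (w.y z) j) = i} ≤
      ENNReal.ofReal (C1 * Real.exp (-β / 2)) +
        ENNReal.ofReal (C1 * ∑ q ∈ A.filter (fun q => cl q = i), g q.2) *
          volume (Metric.cthickening ω E) := fun i => by
    rcases Set.eq_empty_or_nonempty {z ∈ X | cl (St .L (w.y z) j) = i} with h | ⟨z0, hz0, hz1⟩
    · rw [h]; simp
    have hq : ∀ q ∈ A.filter (fun q => cl q = i),
        q.1 = i.2 ∧ ⌊Real.log ‖cs (q.2 *ᵥ w.v0)‖⌋₊ = i.1 := fun q hq => by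
      have := (Finset.mem_filter.1 hq).2
      rw [hcl] at this
      rw [← this]
      exact ⟨rfl, rfl⟩
    have hN : Real.exp (8 * β) ≤ Real.exp (i.1 : ℝ) ^ 2 := by
      have a1 := (hX z0 hz0).2.2.2.2.2.2.2.1.trans (o8_floor (w.one_le_lev z0 j)).2.2
      have a2 : ⌊Real.log (w.lev z0 j)⌋₊ = i.1 := by
        rw [hcl] at hz1
        rw [← hz1]
        rfl
      rw [a2, Real.exp_le_exp] at a1
      rw [← Real.exp_nat_mul, Real.exp_le_exp]
      push_cast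
      linarith
    have := H1 j a β (Real.exp (i.1 : ℝ)) S ω i.2 ((A.filter (fun q => cl q = i)).image Prod.snd)
      E {z ∈ X | cl (St .L (w.y z) j) = i} hj ha (by linarith) hN (Real.exp_pos _) hS hS2 hω hω2
      (fun P hP => by
        obtain ⟨q, hq1, rfl⟩ := Finset.mem_image.1 hP
        obtain ⟨b1, b2⟩ := hq q hq1
        obtain ⟨b3, b4⟩ := (hA q).1 (Finset.mem_filter.1 hq1).1
        have b5 : 1 ≤ ‖cs (q.2 *ᵥ w.v0)‖ := by
          obtain ⟨z, -, -, rfl⟩ := b3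
          exact w.one_le_lev z j
        have b6 := o8_floor b5
        rw [b2] at b6
        exact ⟨by rw [← b1]; exact b3, b6.1, b6.2.1, b4⟩)
      (fun z hz => by
        obtain ⟨b0, b1, b2, b3, b4, b5, b6, -, -, b9⟩ := hX z hz.1
        have c1 : St .L (w.y z) j ∈ A.filter (fun q => cl q = i) :=
          Finset.mem_filter.2 ⟨(hA _).2 ⟨⟨z, b0, b1, rfl⟩, b9⟩, hz.2⟩
        exact ⟨b1, b2, (hq _ c1).1, Finset.mem_image_of_mem _ c1, b3, b4, b5, b6⟩)
    rw [Finset.sum_image fun q h q' h' e =>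
      Prod.ext ((hq q h).1.trans (hq q' h').1.symm) e] at this
    rw [hg]
    exact this
  have hsum : ∑ i ∈ I, ∑ q ∈ A.filter (fun q => cl q = i), g q.2 ≤ C2 := by
    rw [Finset.sum_fiberwise_eq_sum_filter]
    refine (Finset.sum_le_sum_of_subset_of_nonneg (Finset.filter_subset _ _)
      fun q _ _ => hg0 q.2).trans ?_
    rw [hg]
    exact H2 j A fun q hq => ((hA q).1 hq).1
  refine (measure_mono hcov).trans ((measure_biUnion_finset_le _ _).trans
    ((Finset.sum_le_sum fun i _ => hone i).trans ?_))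
  rw [Finset.sum_add_distrib, ← Finset.sum_mul, ← ENNReal.ofReal_sum_of_nonneg
    (fun i _ => by positivity), ← ENNReal.ofReal_sum_of_nonneg
    (fun i _ => mul_nonneg hC1.le (Finset.sum_nonneg fun q _ => hg0 q.2)), ← Finset.mul_sum,
    ← Finset.mul_sum, Finset.sum_const, hIc, nsmul_eq_mul]
  have e0 : 0 ≤ (M : ℝ) * Real.exp (-β / 2) := by positivity
  refine add_le_add (ENNReal.ofReal_le_ofReal ?_)
    (mul_le_mul_left (ENNReal.ofReal_le_ofReal ?_) _)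
  · have := mul_nonneg (mul_pos hC1 hC2).le e0
    push_cast
    linarith
  · have := mul_le_mul_of_nonneg_left hsum hC1.le
    linarith

private theorem o8_small (a b : ℝ) {ε : ℝ} (hε : 0 < ε) :
    ∀ᶠ β : ℝ in atTop, (a + b * β) * Real.exp (-β / 2) ≤ ε := by
  have h2 : Tendsto (fun β : ℝ => β / 2) atTop atTop := tendsto_id.atTop_div_const two_pos
  have h0 := (Real.tendsto_exp_neg_atTop_nhds_zero.comp h2).const_mul a
  have h1 := ((Real.tendsto_pow_mul_exp_neg_atTop_nhds_zero 1).comp h2).const_mul (2 * b)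
  have h3 := h0.add h1
  rw [mul_zero, mul_zero, add_zero] at h3
  filter_upwards [h3.eventually (ge_mem_nhds hε)] with β hβ
  simp only [Function.comp, pow_one] at hβ
  rw [neg_div]
  linarith

/-- Sum `cls` over the index `k`, the integer part of the logarithm of the level, and the type. -/
theorem grid_dom (w : Par) (R : ℝ) {δ l c : ℝ} {n : ℕ} (hδ : 0 < δ) (h1 : δ ≤ 1) (hl : 0 < l)
    (hl1 : l ≤ 1) (hc : 5 ≤ c * n) : ∃ C : ℝ, 0 < C ∧ ∀ (E : Set V) (ω ε : ℝ), 0 < ω → 0 < ε →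
    ∀ᶠ β in atTop, volume {z ∈ ZR R | Grid w δ l c n β z ∧ (nst .L (w.y z) (n * β)).1 ∈ E} ≤
      ENNReal.ofReal C * volume (Metric.cthickening ω E) + ENNReal.ofReal ε := by
  obtain ⟨C, hC, H⟩ := o8_time w R hδ h1
  obtain ⟨Cs, hCs, Hs⟩ := shearZ w hδ h1 hl hl1 n
  obtain ⟨Cl, hCl, Hl⟩ := w.lev_le
  refine ⟨(n + 1) * C, by positivity, fun E ω ε hω hε => ?_⟩
  have hω' : 0 < min ω (δ / 6) / 6 := by positivity
  filter_upwards [eventually_ge_atTop (1 : ℝ),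
    Real.tendsto_exp_atTop.eventually (eventually_ge_atTop Cs),
    Real.tendsto_exp_neg_atTop_nhds_zero.eventually (ge_mem_nhds hω'),
    o8_small (n * C * (|Real.log Cl| + 1)) (n * C * n) hε] with β hβ hβ1 hβ2 hβ3
  have hβ0 : 0 ≤ β := by linarith
  obtain ⟨M, hM⟩ : ∃ M : ℕ, M = ⌊|Real.log Cl| + n * β⌋₊ + 1 := ⟨_, rfl⟩
  have hM1 : |Real.log Cl| + n * β < M := by
    rw [hM]; push_cast; exact Nat.lt_floor_add_one _
  have hM2 : (M : ℝ) ≤ |Real.log Cl| + n * β + 1 := by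
    rw [hM]; push_cast
    linarith [Nat.floor_le (show 0 ≤ |Real.log Cl| + n * β by positivity)]
  obtain ⟨X, hX⟩ : ∃ X : ℕ → Set (Fin 3 → ℝ), X = fun k : ℕ =>
    {z ∈ ZR R | (Grid w δ l c n β z ∧ (nst .L (w.y z) (n * β)).1 ∈ E) ∧
      Real.exp (c * (n * β)) ≤ w.lev z (k * β) ∧
      Real.exp (-5 * β) * w.lev z (k * β) * w.lev z (n * β) ≤ Real.exp (n * β - k * β) ∧
      Real.exp (n * β - k * β) ≤ Real.exp (-2 * β) * w.lev z (k * β) * w.lev z (n * β)} :=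
    ⟨_, rfl⟩
  have hcov : {z ∈ ZR R | Grid w δ l c n β z ∧ (nst .L (w.y z) (n * β)).1 ∈ E} ⊆
      ⋃ k ∈ Finset.Icc 1 n, X k := fun z hz => by
    obtain ⟨k, a1, a2, a3⟩ := hz.2.1.2.2.2
    simp only [Set.mem_iUnion]
    refine ⟨k, Finset.mem_Icc.2 ⟨a1, a2⟩, ?_⟩
    rw [hX]
    exact ⟨hz.1, hz.2, a3⟩
  have hone : ∀ k ∈ Finset.Icc 1 n, volume (X k) ≤
      ENNReal.ofReal (C * (M * Real.exp (-β / 2))) +
        ENNReal.ofReal C * volume (Metric.cthickening (min ω (δ / 6)) E) := fun k hk => by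
    obtain ⟨k1, k2⟩ := Finset.mem_Icc.1 hk
    have k3 : (k : ℝ) ≤ n := by exact_mod_cast k2
    have k4 : (k : ℝ) * β ≤ n * β := mul_le_mul_of_nonneg_right k3 hβ0
    have e1 : (k : ℝ) * β + (n * β - k * β) = n * β := by ring
    refine H (k * β) (n * β - k * β) β (Cs * Real.exp β) _ M E (X k) (by positivity)
      (by linarith) hβ (by positivity) ?_ (min_le_right _ _) (by linarith) fun z hz => ?_
    · rw [two_mul, Real.exp_add]
      exact mul_le_mul_of_nonneg_right hβ1 (Real.exp_pos _).le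
    rw [hX] at hz
    obtain ⟨a0, ⟨⟨g1, g2, g3, -⟩, a1⟩, a2, a3, a4⟩ := hz
    rw [e1]
    refine ⟨a0, g1 k k1 k2, g1 n (k1.trans k2) le_rfl, a1, ?_, a3, a4, ?_, ?_, g3 k k1 k2 a2⟩
    · have := Hs (n - k) (Nat.sub_le _ _) z (k * β) β hβ0 fun i hi => by
        have e2 : (k : ℝ) * β + i * β = (k + i : ℕ) * β := by push_cast; ring
        rw [e2]
        exact ⟨g1 _ (by omega) (by omega), g2 _ _ k1 (by omega) (by omega)⟩
      rwa [Nat.cast_sub k2, sub_mul] at this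
    · refine le_trans (Real.exp_le_exp.2 ?_) a2
      have := mul_le_mul_of_nonneg_right hc hβ0
      linarith
    · have b1 := Real.log_le_log (lt_of_lt_of_le one_pos (w.one_le_lev z _))
        (Hl z _ (g1 k k1 k2).1)
      rw [Real.log_mul hCl.ne' (Real.exp_pos _).ne', Real.log_exp] at b1
      linarith [le_abs_self (Real.log Cl)]
  refine (measure_mono hcov).trans ((measure_biUnion_finset_le _ _).trans
    ((Finset.sum_le_sum hone).trans ?_))
  rw [Finset.sum_const, Nat.card_Icc, Nat.add_sub_cancel, nsmul_eq_mul, mul_add, add_comm,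
    ← mul_assoc, ← ENNReal.ofReal_natCast, ← ENNReal.ofReal_mul (Nat.cast_nonneg n),
    ← ENNReal.ofReal_mul (Nat.cast_nonneg n)]
  refine add_le_add (mul_le_mul' (ENNReal.ofReal_le_ofReal (by linarith))
    (measure_mono (Metric.cthickening_mono (min_le_left _ _) E))) (ENNReal.ofReal_le_ofReal ?_)
  have := mul_le_mul_of_nonneg_left hM2
    (show 0 ≤ n * C * Real.exp (-β / 2) by positivity)
  linarith

theorem dom (w : Par) (R : ℝ) {ε : ℝ} (hε : 0 < ε) : ∃ C : ℝ, 0 < C ∧ ∀ E : Set V, IsCompact E →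
    ∀ᶠ t in atTop, volume {z ∈ ZR R | WV .L (w.E z) ∧ (nst .L (w.y z) t).1 ∈ E} ≤
      ENNReal.ofReal C * volume E + ENNReal.ofReal ε := by
  have hε3 : 0 < ε / 3 := by positivity
  obtain ⟨δ, l, c, n, hδ, h1, hl, hl1, -, hc, Hp⟩ := grid_prob w R hε3
  obtain ⟨C, hC, H⟩ := grid_dom w R hδ h1 hl hl1 hc
  refine ⟨C, hC, fun E hE => ?_⟩
  have hn : (0 : ℝ) < n := by
    rcases Nat.eq_zero_or_pos n with h | h
    · rw [h] at hc; norm_num at hc
    · exact_mod_cast h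
  have hlt : volume E < volume E + ENNReal.ofReal (ε / 3 / C) :=
    ENNReal.lt_add_right hE.measure_lt_top.ne (ENNReal.ofReal_pos.2 (by positivity)).ne'
  obtain ⟨ω, hω1, hω⟩ := ((((tendsto_measure_cthickening_of_isCompact hE).eventually
    (ge_mem_nhds hlt)).filter_mono nhdsWithin_le_nhds).and
    (self_mem_nhdsWithin (a := (0 : ℝ)) (s := Set.Ioi 0))).exists
  have ht : Tendsto (fun t : ℝ => t / n) atTop atTop := tendsto_id.atTop_div_const hn
  filter_upwards [ht.eventually Hp, ht.eventually (H E ω (ε / 3) hω hε3)] with t a1 a2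
  rw [mul_div_cancel₀ t hn.ne'] at a2
  have hsub : {z ∈ ZR R | WV .L (w.E z) ∧ (nst .L (w.y z) t).1 ∈ E} ⊆
      {z ∈ ZR R | Grid w δ l c n (t / n) z ∧ (nst .L (w.y z) t).1 ∈ E} ∪
        {z ∈ ZR R | WV .L (w.E z) ∧ ¬ Grid w δ l c n (t / n) z} := fun z hz => by
    by_cases h : Grid w δ l c n (t / n) z
    · exact Or.inl ⟨hz.1, h, hz.2.2⟩
    · exact Or.inr ⟨hz.1, hz.2.1, h⟩
  refine (measure_mono hsub).trans ((measure_union_le _ _).trans ((add_le_add a2 a1).trans ?_))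
  have e : ENNReal.ofReal ε = ENNReal.ofReal C * ENNReal.ofReal (ε / 3 / C) +
      ENNReal.ofReal (ε / 3) + ENNReal.ofReal (ε / 3) := by
    rw [← ENNReal.ofReal_mul hC.le, mul_div_cancel₀ _ hC.ne', ← ENNReal.ofReal_add hε3.le hε3.le,
      ← ENNReal.ofReal_add (by positivity) hε3.le]
    congr 1
    ring
  rw [e, ← add_assoc, ← add_assoc, ← mul_add]
  gcongr

end Pool.Agent.TW
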