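import Pool.Agent.Lib.MP_4eaecc_an.M2
import Pool.Agent.Lib.MP_4eaecc_an.O8
import Pool.Agent.Lib.MP_4eaecc_an.M5a
import Pool.Agent.Lib.MP_4eaecc_an.M5b

/-! Domination by the invariant measure. -/

namespace Pool.Agent.TW

open Matrix MeasureTheory Filter Topology
open scoped ENNReal NNReal symmDiff

/-- The point of the twist torus at time `t + log (z 0)`. -/
noncomputable def Par.x (w : Par) (z : Fin 3 → ℝ) (t : ℝ) : Pt :=
  (Real.exp t • w.E z, (Real.exp (-t) / z 0) • w.eta)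

/-- The compact set of good states. -/
def m5K (δ : ℝ) : Set Pt := ⋃ τ, {y | Good δ τ y}

theorem m5_compact {δ : ℝ} (hδ : 0 < δ) : IsCompact (m5K δ) :=
  isCompact_iUnion fun τ => isCompact_good hδ τ

theorem m5_cell {δ : ℝ} (hδ : 0 < δ) : m5K δ ⊆ Cell := by
  intro y hy
  obtain ⟨τ, hτ⟩ := Set.mem_iUnion.1 hy
  exact Dt_cell τ (Good.dt hτ hδ)

theorem m5_S1 {δ : ℝ} (hδ : 0 < δ) : m5K δ ⊆ S1 := by
  intro y hy
  obtain ⟨τ, hτ⟩ := Set.mem_iUnion.1 hy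
  exact ⟨1, τ, Reach.refl (m5_cell hδ hy), by rw [acP_one]; exact Good.dt hτ hδ⟩

theorem m5_scale {δ d : ℝ} (hδ : 0 < δ) {τ : Ty} {y : Pt} (h : Good δ τ y) (d1 : 1 / 2 ≤ d)
    (d2 : d ≤ 1) : (y.1, d • y.2) ∈ m5K (δ / 2) := by
  obtain ⟨⟨σ, g⟩, k⟩ := h
  refine Set.mem_iUnion.2 ⟨τ, ⟨σ, g.mono (by positivity) (by linarith)⟩, fun b i => ?_⟩
  obtain ⟨k1, k2⟩ := k b i
  have k3 : δ⁻¹ ≤ (δ / 2)⁻¹ := inv_anti₀ (by positivity) (by linarith)
  simp only [ev_smul]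
  constructor <;> nlinarith

theorem m5_bnd {τ : Ty} {η a : V} {m M c : ℝ} (h : Bnd τ η a m M) (hc : 0 ≤ c) :
    Bnd τ (c • η) (c • a) m M := by
  intro b i
  obtain ⟨h1, h2⟩ := h b i
  simp only [ev_smul]
  constructor
  · nlinarith [mul_le_mul_of_nonneg_left h1 hc]
  · nlinarith [mul_le_mul_of_nonneg_left h2 hc]

/-- The finitely many futures of length `a`. -/
theorem m5_fin (K : ℝ) : {B : Ty × Ty × Mat × (Fin 3 → Bool) |
    Act B.1 B.2.1 B.2.2.1 B.2.2.2 ∧ Mb B.2.2.1 K}.Finite := by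
  refine (Set.finite_univ.prod (Set.finite_univ.prod ((finite_mb K).prod Set.finite_univ))).subset
    fun B hB => ?_
  exact ⟨Set.mem_univ _, Set.mem_univ _, hB.2, Set.mem_univ _⟩

theorem m5_volTh : volume Th = 1 := by
  rw [Th, Real.volume_Icc_pi]
  simp
  norm_num

/-- The widths all of whose fibres over `Th` lie in `W`. -/
theorem m5_E {W : Set Pt} (hW : IsCompact W) : IsCompact {ξ : V | ∀ θ ∈ Th, (ξ, θ) ∈ W} ∧
    volume {ξ : V | ∀ θ ∈ Th, (ξ, θ) ∈ W} ≤ volume W := by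
  constructor
  · refine (hW.image continuous_fst).of_isClosed_subset ?_ fun ξ hξ => ?_
    · have : {ξ : V | ∀ θ ∈ Th, (ξ, θ) ∈ W} = ⋂ θ ∈ Th, (fun ξ : V => (ξ, θ)) ⁻¹' W := by
        ext ξ; simp
      rw [this]
      exact isClosed_biInter fun θ _ => hW.isClosed.preimage (by fun_prop)
    · refine ⟨(ξ, 1), hξ 1 ⟨le_rfl, fun i => ?_⟩, rfl⟩
      simp
  · calc volume {ξ : V | ∀ θ ∈ Th, (ξ, θ) ∈ W}
        = volume ({ξ : V | ∀ θ ∈ Th, (ξ, θ) ∈ W} ×ˢ Th) := by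
          rw [Measure.volume_eq_prod, Measure.prod_prod, m5_volTh, mul_one]
      _ ≤ volume W := measure_mono fun p hp => hp.1 p.2 hp.2

/-- The final point lies in `Y` and in the compact set. -/
theorem m5_final (w : Par) {δ T : ℝ} (hδ : 0 < δ) {z : Fin 3 → ℝ} (z1 : 1 ≤ z 0) (z2 : z 0 ≤ 2)
    (g : GoodAt δ .L (w.y z) T) {Y : Set Pt} (r : RInv Y) (hx : w.x z T ∈ Y) :
    ((nst .L (w.y z) T).1, (z 0)⁻¹ • (nst .L (w.y z) T).2) ∈ Y ∩ m5K (δ / 2) := by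
  have z0 : 0 < z 0 := by linarith
  refine ⟨?_, m5_scale hδ g.2 ?_ (inv_le_one_of_one_le₀ z1)⟩
  · have e : w.x z T = lin (Real.exp T) 0 0 (Real.exp (-T) / z 0) (w.y z) := by
      simp [Par.x, lin, Par.y]
    have k : Reach (w.x z T) (St .L (w.y z) T).2 := by
      rw [e]
      exact g.1.reach.lin (by simp only [mul_zero, sub_zero]; positivity)
    have k2 := (r _ _ k).1 hx
    rw [e, acP_lin] at k2
    convert k2 using 1
    simp only [nst, gt, lin, zero_smul, add_zero, zero_add, smul_smul, div_eq_inv_mul]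
  · rw [one_div]; exact inv_anti₀ z0 z2

theorem m5_key (w : Par) {δ e κ t a : ℝ} (hδ : 0 < δ) (ha : 0 ≤ a) (he : 0 < e)
    (hκ : κ = e * δ ^ 2 / (32 * w.A)) {z : Fin 3 → ℝ} (z1 : 1 ≤ z 0) (z2 : z 0 ≤ 2)
    (g1 : GoodAt δ .L (w.y z) t) (g2 : GoodAt δ .L (w.y z) (t + a))
    (c : ∀ (u : V) (m M : ℝ), BndAt .L (w.y z) t u m M → ∃ m' M', M' - m' ≤ κ * (M - m) ∧
      BndAt .L (w.y z) (t + a) u m' M') {Y : Set Pt} (r : RInv Y) (hx : w.x z (t + a) ∈ Y) :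
    ∃ B : Ty × Ty × Mat × (Fin 3 → Bool),
      (Act B.1 B.2.1 B.2.2.1 B.2.2.2 ∧ Mb B.2.2.1 (4 * Real.exp a / δ)) ∧ ∀ θ ∈ Th,
      ((nst .L (w.y z) t).1, θ) ∈ Wf w.A δ a B (Metric.cthickening e (Y ∩ m5K (δ / 2))) := by
  have hA := w.A_pos
  have z0 : 0 < z 0 := by linarith
  have fin := m5_final w hδ z1 z2 g2 r hx
  obtain ⟨s1, s2⟩ := St_add g1.1 (le_add_of_nonneg_right ha)
  rw [add_sub_cancel_left] at s1 s2
  have b1 : Base (St .L (w.y z) t).1 (nst .L (w.y z) t) a := g1.1.nst.mono ha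
  have b2 := g2.1.nst
  have ar2 := g2.1.area
  rw [w.area_y] at ar2
  have hP := St_symp .L (w.y z) t
  have hM := St_symp (St .L (w.y z) t).1 (nst .L (w.y z) t) a
  have act := b1.act
  have mb := mb_St g1.2.2 hδ b1
  obtain ⟨⟨σ2, w2⟩, -⟩ := g2.2
  have hσ := (sg_iff.1 (w2.sg hδ)).2.2
  obtain ⟨⟨σ1, w1⟩, h1⟩ := g1.2
  set τ := (St .L (w.y z) t).1 with hτ
  set P := (St .L (w.y z) t).2 with hPd
  set y1 := nst .L (w.y z) t with hy1
  set τ' := (St τ y1 a).1 with hτ'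
  set M := (St τ y1 a).2 with hMd
  have t2 : (St .L (w.y z) (t + a)).1 = τ' := by rw [s1]
  have P2 : (St .L (w.y z) (t + a)).2 = M * P := by rw [s1]
  have e1 : (nst .L (w.y z) (t + a)).1 = Real.exp a • ac M y1.1 := by rw [s2]; rfl
  have e2 : (nst .L (w.y z) (t + a)).2 = Real.exp (-(t + a)) • ac (M * P) w.eta := by
    rw [← P2]; rfl
  have e3 : y1.2 = Real.exp (-t) • ac P w.eta := rfl
  rw [← s2, ← t2, hσ, t2] at act
  rw [t2] at w2 b2
  refine ⟨(τ, τ', M, σ2), ⟨act, mb⟩, fun θ hθ => ⟨⟨σ1, w1⟩, hθ, e1 ▸ w2, ?_⟩⟩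
  have hO : δ * (1 / 4) ≤ Om y1.1 θ := (Om_good w1 hδ (δ' := 1 / 4) (fun b i => by
    obtain ⟨k1, k2⟩ := Th_edge τ hθ b i
    constructor <;> norm_num <;> linarith) (by norm_num)).1
  have hO' : 0 < Om y1.1 θ := lt_of_lt_of_le (by positivity) hO
  have u1 : ac P (Real.exp t • ac (sinv P) θ) = Real.exp t • θ := by
    rw [ac_smul, ← ac_mul, hP.mul_sinv, ac_one]
  have bd : BndAt .L (w.y z) t (Real.exp t • ac (sinv P) θ) 0 (4 / δ) := by
    have k : Bnd τ y1.2 θ 0 (4 / δ) := by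
      intro b i
      obtain ⟨k1, k2⟩ := Th_edge τ hθ b i
      refine ⟨by linarith, k2.trans ?_⟩
      rw [div_mul_eq_mul_div, le_div_iff₀ hδ]
      linarith [(h1 b i).1]
    have k' := m5_bnd k (Real.exp_pos t).le
    rw [e3, smul_smul, ← Real.exp_add, add_neg_cancel, Real.exp_zero, one_smul, ← u1] at k'
    exact k'
  obtain ⟨m', M', gap, bd'⟩ := c _ _ _ bd
  have bd2 : Bnd τ' (nst .L (w.y z) (t + a)).2 (Real.exp (-a) • ac M θ) m' M' := by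
    have k := m5_bnd bd' (Real.exp_pos (-(t + a))).le
    rw [t2, P2, ac_mul M P (Real.exp t • _), u1, ac_smul, smul_smul, ← Real.exp_add] at k
    rw [e2, show -a = -(t + a) + t by ring]
    exact k
  have cl := bd2.close b2.1 b2.2.1 b2.2.2.2
  have o1 : Om (nst .L (w.y z) (t + a)).1 (Real.exp (-a) • ac M θ) = Om y1.1 θ := by
    rw [e1, smul_Om, Om_smul, hM.Om_ac, ← mul_assoc, ← Real.exp_add, add_neg_cancel,
      Real.exp_zero, one_mul]
  have o2 : Om (nst .L (w.y z) (t + a)).1 (nst .L (w.y z) (t + a)).2 = z 0 * w.A := ar2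
  rw [o1, o2, Real.exp_zero, mul_one] at cl
  refine Metric.mem_cthickening_of_dist_le _ _ e _ fin ?_
  have ee : (w.A / Om y1.1 θ * Real.exp (-a)) • ac M θ - (z 0)⁻¹ • (nst .L (w.y z) (t + a)).2 =
      (w.A / Om y1.1 θ) • (Real.exp (-a) • ac M θ -
        (Om y1.1 θ / (z 0 * w.A)) • (nst .L (w.y z) (t + a)).2) := by
    rw [smul_sub, smul_smul, smul_smul]
    congr 2
    field_simp
  rw [e1, Prod.dist_eq, dist_self, dist_eq_norm]
  refine max_le he.le ?_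
  show ‖(w.A / Om y1.1 θ * Real.exp (-a)) • ac M θ - (z 0)⁻¹ • (nst .L (w.y z) (t + a)).2‖ ≤ e
  rw [ee, norm_smul, Real.norm_of_nonneg (by positivity)]
  have q1 : w.A / Om y1.1 θ ≤ w.A / (δ * (1 / 4)) :=
    div_le_div_of_nonneg_left hA.le (by positivity) hO
  have q2 : 2 * (M' - m') ≤ 2 * (κ * (4 / δ - 0)) := by linarith
  calc _ ≤ w.A / (δ * (1 / 4)) * (2 * (κ * (4 / δ - 0))) :=
        mul_le_mul q1 (cl.trans q2) (norm_nonneg _) (by positivity)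
    _ = e := by rw [hκ]; field_simp; ring

theorem thk (w : Par) (R : ℝ) {ε : ℝ} (hε : 0 < ε) : ∃ C : ℝ≥0, ∀ Y, MeasurableSet Y →
    ClosedIn Y → RInv Y → Rad Y → ∀ᶠ t in atTop,
    volume {z ∈ ZR R | WV .L (w.E z) ∧ w.x z t ∈ Y} ≤ C * mu1 w.A Y + ENNReal.ofReal ε := by
  have hA := w.A_pos
  have h3 : 0 < ε / 3 := by positivity
  obtain ⟨δ, hδ, -, hg⟩ := gapW w R h3
  obtain ⟨C1, -, hd⟩ := dom w R h3
  obtain ⟨C2, h2⟩ := Wf_sum w.A hδ
  have hδ2 : 0 < δ / 2 := by positivity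
  obtain ⟨C3, hn⟩ := norm_vol hA hδ (m5_compact hδ2) (m5_S1 hδ2)
  refine ⟨C1.toNNReal * C2 * C3, fun Y hY hcl r rad => ?_⟩
  have := mu1_finite hA
  have hN : IsCompact (Y ∩ m5K (δ / 2)) := (m5_compact hδ2).of_isClosed_subset
    (hcl _ (m5_compact hδ2) (m5_cell hδ2)) Set.inter_subset_right
  have lim := ENNReal.Tendsto.const_mul (a := ((C1.toNNReal * C2 : ℝ≥0) : ℝ≥0∞))
    (thick_lim hA hδ hN) (Or.inr ENNReal.coe_ne_top)
  have fin : ((C1.toNNReal * C2 * C3 : ℝ≥0) : ℝ≥0∞) * mu1 w.A Y ≠ ⊤ :=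
    ENNReal.mul_ne_top ENNReal.coe_ne_top (measure_ne_top _ _)
  have lt : ((C1.toNNReal * C2 : ℝ≥0) : ℝ≥0∞) * volume {y : Pt | δ ≤ Om y.1 y.2 ∧
      Om y.1 y.2 ≤ 24 / δ ∧ (y.1, (w.A / Om y.1 y.2) • y.2) ∈ Y ∩ m5K (δ / 2)} <
      ((C1.toNNReal * C2 * C3 : ℝ≥0) : ℝ≥0∞) * mu1 w.A Y + ENNReal.ofReal (ε / 3) := by
    refine lt_of_le_of_lt ?_ (ENNReal.lt_add_right fin (ENNReal.ofReal_pos.2 h3).ne')
    rw [ENNReal.coe_mul _ C3, mul_assoc]
    exact mul_le_mul_right (hn Y hY r rad) _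
  obtain ⟨e, hlt, he⟩ := ((lim.eventually (gt_mem_nhds lt)).and self_mem_nhdsWithin).exists
  have he0 : 0 < e := he
  obtain ⟨a, ha, hga⟩ := hg (e * δ ^ 2 / (32 * w.A)) (by positivity)
  set b := (m5_fin (4 * Real.exp a / δ)).toFinset with hb
  have hW : IsCompact (⋃ B ∈ b, Wf w.A δ a B (Metric.cthickening e (Y ∩ m5K (δ / 2)))) :=
    b.isCompact_biUnion fun B _ => isCompact_Wf w.A hδ a B Metric.isClosed_cthickening
  have vW := h2 a b _ (Metric.isClosed_cthickening (δ := e) (E := Y ∩ m5K (δ / 2))).measurableSet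
    fun B hB => ((Set.Finite.mem_toFinset _).1 hB).1
  obtain ⟨hE, vE⟩ := m5_E hW
  have ev := (tendsto_atTop_add_const_right atTop (-a) tendsto_id).eventually (hga.and (hd _ hE))
  filter_upwards [ev] with T hT
  obtain ⟨t, rfl⟩ : ∃ t, T = t + a := ⟨T - a, by ring⟩
  simp only [id, add_neg_cancel_right] at hT
  obtain ⟨k1, k2⟩ := hT
  refine le_trans (measure_mono ?_) ((measure_union_le _ _).trans ((add_le_add k1 k2).trans ?_))
  · rintro z ⟨hz, hw, hx⟩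
    by_cases k : GoodAt δ .L (w.y z) t ∧ GoodAt δ .L (w.y z) (t + a) ∧ ∀ (u : V) (m M : ℝ),
        BndAt .L (w.y z) t u m M → ∃ m' M', M' - m' ≤ e * δ ^ 2 / (32 * w.A) * (M - m) ∧
          BndAt .L (w.y z) (t + a) u m' M'
    · obtain ⟨B, hB, hB'⟩ := m5_key w hδ ha he0 rfl hz.2.1 hz.2.2 k.1 k.2.1 k.2.2 r hx
      exact Or.inr ⟨hz, hw, fun θ hθ => Set.mem_biUnion ((Set.Finite.mem_toFinset _).2 hB)
        (hB' θ hθ)⟩
    · exact Or.inl ⟨hz, hw, k⟩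
  · have k3 := mul_le_mul_right (vE.trans vW) (ENNReal.ofReal C1)
    rw [← mul_assoc] at k3
    have k4 := k3.trans (le_trans (le_of_eq (by rw [ENNReal.coe_mul]; rfl)) hlt.le)
    have k5 : ENNReal.ofReal ε = ENNReal.ofReal (ε / 3) + ENNReal.ofReal (ε / 3) +
        ENNReal.ofReal (ε / 3) := by
      rw [← ENNReal.ofReal_add h3.le h3.le, ← ENNReal.ofReal_add (by positivity) h3.le]
      congr 1; ring
    rw [k5]
    refine (add_le_add le_rfl (add_le_add k4 le_rfl)).trans (le_of_eq ?_)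
    ring

end Pool.Agent.TW
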