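import Pool.Agent.Lib.MP_4eaecc_an.M5

/-! Equidistribution for continuous densities with compact support. -/

namespace Pool.Agent.TW

open Matrix MeasureTheory Filter Topology
open scoped ENNReal NNReal symmDiff

theorem Par.m6a_a (w : Par) : 0 < w.a := by
  rw [w.ap]; exact mul_pos (Nat.cast_pos.mpr w.p0) w.c0

theorem Par.m6a_b (w : Par) : 0 < w.b := by
  rw [w.bq]; exact mul_pos (Nat.cast_pos.mpr w.q0) w.c0

theorem Par.om_cell (w : Par) (x : ℝ × ℝ) : w.om x ∈ Cell := by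
  intro i
  fin_cases i
  · simpa [ar, dt, vec, sp, sq, Par.om, Par.eta] using mul_pos w.m6a_a w.h10
  · simpa [ar, dt, vec, sp, sq, Par.om, Par.eta] using mul_pos w.m6a_b w.h10
  · simpa [ar, dt, vec, sp, sq, Par.om, Par.eta] using mul_pos w.m6a_a w.h20

theorem Par.om_area (w : Par) (x : ℝ × ℝ) : area (w.om x) = w.A := by
  simp [area, Om, Par.om, Par.eta, Par.A]

theorem Par.om_us (w : Par) (x : ℝ × ℝ) (s : ℝ) :
    us s (w.om x) = w.om (x + s • (w.h1, w.h2)) := by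
  refine Prod.ext (funext fun i => ?_) rfl
  fin_cases i <;> simp [us, Par.om, Par.eta]

theorem m6a_reach {y : Pt} {g : Mat} (h : y ∈ Cell) (hg : IsGen g) (k : acP g y ∈ Cell) :
    Reach y g := by
  simpa only [mul_one] using (Reach.refl h).step hg (by rwa [mul_one])

theorem Par.om_S (w : Par) (x : ℝ × ℝ) :
    Reach (w.om x) Sp ∧ acP Sp (w.om x) = w.om (x + (w.a + w.b, 0)) := by
  have e : acP Sp (w.om x) = w.om (x + (w.a + w.b, 0)) := by
    refine Prod.ext (funext fun i => ?_) (funext fun i => ?_) <;> fin_cases i <;>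
      simp [acP, ac, ev, Sp, Par.om, Par.eta, Fin.sum_univ_four, add_comm]
  exact ⟨m6a_reach (w.om_cell x) (by simp [IsGen]) (e ▸ w.om_cell _), e⟩

theorem Par.om_T (w : Par) (x : ℝ × ℝ) :
    Reach (w.om x) Tp ∧ acP Tp (w.om x) = w.om (x + (0, w.a)) := by
  have e : acP Tp (w.om x) = w.om (x + (0, w.a)) := by
    refine Prod.ext (funext fun i => ?_) (funext fun i => ?_) <;> fin_cases i <;>
      simp [acP, ac, ev, Tp, Par.om, Par.eta, Fin.sum_univ_four, add_comm]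
  exact ⟨m6a_reach (w.om_cell x) (by simp [IsGen]) (e ▸ w.om_cell _), e⟩

/-- A fundamental rectangle on which the widths are valid. -/
def Par.rect (w : Par) : Set (ℝ × ℝ) :=
  Set.Icc (-2 * (w.a + w.b)) (-(w.a + w.b)) ×ˢ Set.Icc (-2 * w.a) (-w.a)

theorem Par.m6a_rect (w : Par) : MeasurableSet w.rect := measurableSet_Icc.prod measurableSet_Icc

theorem m6a_int {L R x : ℝ} (hL : 0 < L) (h : |x| ≤ R) :
    ∃ i ∈ Finset.Icc (-(⌈R / L⌉ + 2)) (⌈R / L⌉ + 2), x - i * L ∈ Set.Icc (-2 * L) (-L) := by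
  have h1 := Int.floor_le (x / L)
  have h2 := Int.lt_floor_add_one (x / L)
  have h3 := Int.le_ceil (R / L)
  have h4 : x / L ≤ R / L := div_le_div_of_nonneg_right (le_of_abs_le h) hL.le
  have h5 : -(R / L) ≤ x / L := by
    rw [← neg_div]; exact div_le_div_of_nonneg_right (neg_le_of_abs_le h) hL.le
  refine ⟨⌊x / L⌋ + 2, Finset.mem_Icc.mpr ⟨?_, ?_⟩, ?_, ?_⟩
  · have : (-(⌈R / L⌉ + 2) : ℝ) ≤ ⌊x / L⌋ + 2 := by linarith
    exact_mod_cast this
  · have : (⌊x / L⌋ + 2 : ℝ) ≤ ⌈R / L⌉ + 2 := by linarith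
    exact_mod_cast this
  · rw [le_div_iff₀ hL] at h1
    push_cast
    linarith
  · rw [div_lt_iff₀ hL] at h2
    push_cast
    linarith

theorem Par.cover (w : Par) (R : ℝ) : ∃ N : ℝ≥0, ∀ G : ℝ × ℝ → ℝ≥0∞, Measurable G →
    (∀ x, G (x + (w.a + w.b, 0)) = G x) → (∀ x, G (x + (0, w.a)) = G x) →
    ∫⁻ x in Metric.closedBall 0 R, G x ≤ N * ∫⁻ x in w.rect, G x := by
  have hL : 0 < w.a + w.b := add_pos w.m6a_a w.m6a_b
  obtain ⟨S, hS⟩ : ∃ S : Finset (ℤ × ℤ), ∀ x ∈ Metric.closedBall (0 : ℝ × ℝ) R, ∃ i ∈ S,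
      x - (i.1 • (w.a + w.b, 0) + i.2 • (0, w.a)) ∈ w.rect := by
    refine ⟨Finset.Icc (-(⌈R / (w.a + w.b)⌉ + 2)) (⌈R / (w.a + w.b)⌉ + 2) ×ˢ
      Finset.Icc (-(⌈R / w.a⌉ + 2)) (⌈R / w.a⌉ + 2), fun x hx => ?_⟩
    rw [mem_closedBall_zero_iff] at hx
    obtain ⟨i, hi, h1⟩ := m6a_int hL ((norm_fst_le x).trans hx)
    obtain ⟨j, hj, h2⟩ := m6a_int w.m6a_a ((norm_snd_le x).trans hx)
    exact ⟨(i, j), Finset.mem_product.mpr ⟨hi, hj⟩, by simpa [mul_add] using h1,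
      by simpa using h2⟩
  refine ⟨S.card, fun G hG h1 h2 => ?_⟩
  have key : ∀ i : ℤ × ℤ, ∫⁻ x in (fun x => x - (i.1 • (w.a + w.b, 0) + i.2 • (0, w.a))) ⁻¹'
      w.rect, G x = ∫⁻ x in w.rect, G x := fun i => by
    rw [← (measurePreserving_sub_right volume
      (i.1 • (w.a + w.b, (0 : ℝ)) + i.2 • (0, w.a))).setLIntegral_comp_preimage w.m6a_rect hG]
    refine lintegral_congr fun x => ?_
    exact ((((show Function.Periodic G _ from h1).zsmul i.1).add_period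
      ((show Function.Periodic G _ from h2).zsmul i.2)).sub_eq x).symm
  calc ∫⁻ x in Metric.closedBall 0 R, G x
      ≤ ∫⁻ x in ⋃ i : S, (fun x => x - (i.1.1 • (w.a + w.b, 0) + i.1.2 • (0, w.a))) ⁻¹' w.rect,
        G x := lintegral_mono_set fun x hx => by
          obtain ⟨i, hi, h⟩ := hS x hx
          exact Set.mem_iUnion.mpr ⟨⟨i, hi⟩, h⟩
    _ ≤ _ := lintegral_iUnion_le _ _
    _ = _ := by
      simp only [key]
      simp

theorem Par.m6a_om (w : Par) : Continuous w.om := by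
  refine Continuous.prodMk (continuous_pi fun i => ?_) continuous_const
  fin_cases i
  exacts [continuous_const, continuous_const, continuous_fst, continuous_snd]

theorem Par.m6a_meas (w : Par) : Measurable fun p : ℝ × (ℝ × ℝ) => gt p.1 (w.om p.2) := by
  have := w.m6a_om
  refine Continuous.measurable ?_
  unfold gt
  fun_prop

theorem m6a_vol (B : Set (Fin 3 → ℝ)) :
    volume ((fun p : ℝ × (ℝ × ℝ) => ![p.1, p.2.1, p.2.2]) ⁻¹' B) = volume B := by
  have h := ((volume_preserving_piFinSuccAbove (fun _ : Fin 3 => ℝ) 0).trans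
    (e' := MeasurableEquiv.prodCongr (MeasurableEquiv.refl ℝ) MeasurableEquiv.finTwoArrow)
    ((MeasurePreserving.id volume).prod (volume_preserving_finTwoArrow ℝ))).symm
  rw [← h.measure_preimage_equiv B]
  congr 2
  funext p i
  fin_cases i <;> rfl

/-- The substitution `z = e^τ (1, x)`. -/
theorem Par.box (w : Par) : ∃ R : ℝ, ∀ (Y : Set Pt) (t : ℝ), MeasurableSet Y →
    ∫⁻ τ in Set.Icc 0 (Real.log 2), volume {x ∈ w.rect | gt (t + τ) (w.om x) ∈ Y} ≤
      volume {z ∈ ZR R | WV .L (w.E z) ∧ w.x z t ∈ Y} := by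
  have ha := w.m6a_a
  have hb := w.m6a_b
  refine ⟨2 + 4 * (w.a + w.b), fun Y t hY => ?_⟩
  obtain ⟨f, hf⟩ : ∃ f : ℝ → ℝ≥0∞,
      f = fun τ => volume {x ∈ w.rect | gt (t + τ) (w.om x) ∈ Y} := ⟨_, rfl⟩
  have m1 : Measurable fun p : ℝ × (ℝ × ℝ) => p.1⁻¹ • p.2 :=
    measurable_fst.inv.smul measurable_snd
  have hB : MeasurableSet {p : ℝ × (ℝ × ℝ) | p.1 ∈ Set.Icc (1 : ℝ) 2 ∧ p.1⁻¹ • p.2 ∈ w.rect ∧
      gt (t + Real.log p.1) (w.om (p.1⁻¹ • p.2)) ∈ Y} :=
    (measurable_fst measurableSet_Icc).inter ((m1 w.m6a_rect).inter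
      ((w.m6a_meas.comp ((measurable_fst.log.const_add t).prodMk m1)) hY))
  rw [← m6a_vol]
  refine le_trans ?_ (measure_mono (s := {p : ℝ × (ℝ × ℝ) | p.1 ∈ Set.Icc (1 : ℝ) 2 ∧
    p.1⁻¹ • p.2 ∈ w.rect ∧ gt (t + Real.log p.1) (w.om (p.1⁻¹ • p.2)) ∈ Y}) ?_)
  · rw [Measure.volume_eq_prod ℝ (ℝ × ℝ), Measure.prod_apply hB]
    calc ∫⁻ τ in Set.Icc 0 (Real.log 2), volume {x ∈ w.rect | gt (t + τ) (w.om x) ∈ Y}
        ≤ ∫⁻ τ in Set.Icc 0 (Real.log 2),
          ENNReal.ofReal |Real.exp τ| * f (Real.log (Real.exp τ)) := by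
          refine setLIntegral_mono' measurableSet_Icc fun τ hτ => ?_
          rw [Real.log_exp, hf]
          refine le_mul_of_one_le_left' ?_
          rw [abs_of_pos (Real.exp_pos τ)]
          exact ENNReal.one_le_ofReal.mpr (Real.one_le_exp hτ.1)
      _ = ∫⁻ u in Real.exp '' Set.Icc 0 (Real.log 2), f (Real.log u) :=
          (lintegral_image_eq_lintegral_abs_deriv_mul measurableSet_Icc
            (fun x _ => (Real.hasDerivAt_exp x).hasDerivWithinAt) Real.exp_injective.injOn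
            fun u => f (Real.log u)).symm
      _ ≤ ∫⁻ u in Set.Icc (1 : ℝ) 2, f (Real.log u) := lintegral_mono_set (by
          rintro _ ⟨τ, hτ, rfl⟩
          exact ⟨Real.one_le_exp hτ.1, (Real.le_log_iff_exp_le two_pos).mp hτ.2⟩)
      _ ≤ _ := by
          refine (setLIntegral_mono' measurableSet_Icc fun u hu => ?_).trans
            (setLIntegral_le_lintegral _ _)
          have u0 : 0 < u := one_pos.trans_le hu.1
          have e : Prod.mk u ⁻¹' {p : ℝ × (ℝ × ℝ) | p.1 ∈ Set.Icc (1 : ℝ) 2 ∧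
              p.1⁻¹ • p.2 ∈ w.rect ∧ gt (t + Real.log p.1) (w.om (p.1⁻¹ • p.2)) ∈ Y} =
              (u⁻¹ • ·) ⁻¹' {x ∈ w.rect | gt (t + Real.log u) (w.om x) ∈ Y} :=
            Set.ext fun x => and_iff_right hu
          rw [e, Measure.addHaar_preimage_smul _ (inv_ne_zero u0.ne'), hf]
          refine le_mul_of_one_le_left' (ENNReal.one_le_ofReal.mpr ?_)
          rw [inv_pow, inv_inv]
          exact (one_le_pow₀ hu.1).trans (le_abs_self _)
  · rintro ⟨u, y⟩ ⟨hu, ⟨⟨h1, h2⟩, h3, h4⟩, h5⟩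
    have u0 : 0 < u := one_pos.trans_le hu.1
    obtain ⟨x, rfl⟩ : ∃ x : ℝ × ℝ, y = u • x := ⟨u⁻¹ • y, (smul_inv_smul₀ u0.ne' y).symm⟩
    simp only [inv_smul_smul₀ u0.ne'] at h1 h2 h3 h4 h5
    obtain ⟨u1, u2⟩ : 1 ≤ u ∧ u ≤ 2 := hu
    refine ⟨⟨(pi_norm_le_iff_of_nonneg (by positivity)).mpr fun i => ?_, u1, u2⟩, fun b i => ?_,
      ?_⟩
    · rw [Real.norm_eq_abs, abs_le]
      fin_cases i
      · exact ⟨by change _ ≤ u; linarith, by change u ≤ _; linarith⟩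
      · exact ⟨by change _ ≤ u * x.1; nlinarith, by change u * x.1 ≤ _; nlinarith⟩
      · exact ⟨by change _ ≤ u * x.2; nlinarith, by change u * x.2 ≤ _; nlinarith⟩
    · have k1 : u * x.1 < 0 := mul_neg_of_pos_of_neg u0 (by linarith)
      have k2 : u * x.2 < 0 := mul_neg_of_pos_of_neg u0 (by linarith)
      cases b <;> fin_cases i <;>
        simp [wd, ev, eR, eL, Par.E, Fin.sum_univ_four, k1, k2, ha, hb, u0]
    · convert h5 using 1
      refine Prod.ext (funext fun i => ?_) ?_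
      · fin_cases i <;> simp [Par.x, gt, Par.E, Par.om, Real.exp_add, Real.exp_log u0] <;> ring
      · change (Real.exp (-t) / u) • w.eta = Real.exp (-(t + Real.log u)) • w.eta
        rw [neg_add, Real.exp_add, Real.exp_neg (Real.log u), Real.exp_log u0, div_eq_mul_inv]

theorem m6a_gt {Y : Set Pt} (r : RInv Y) {y : Pt} {P : Mat} (h : Reach y P) (s : ℝ) :
    gt s (acP P y) ∈ Y ↔ gt s y ∈ Y := by
  rw [gt_eq, gt_eq, ← acP_lin]
  exact (r _ _ (h.lin (by rw [mul_zero, sub_zero]; positivity))).symm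

theorem thkX (w : Par) (R : ℝ) {ε : ℝ} (hε : 0 < ε) : ∃ C : ℝ≥0, ∀ Y, MeasurableSet Y →
    ClosedIn Y → RInv Y → Rad Y → ∀ᶠ t in atTop,
    ∫⁻ τ in Set.Icc 0 (Real.log 2), volume {x : ℝ × ℝ | ‖x‖ ≤ R ∧ gt (t + τ) (w.om x) ∈ Y} ≤
      C * mu1 w.A Y + ENNReal.ofReal ε := by
  obtain ⟨N, hN⟩ := w.cover R
  obtain ⟨R', hR⟩ := w.box
  have N0 : (0 : ℝ) < N + 1 := by positivity
  obtain ⟨C, hC⟩ := thk w R' (div_pos hε N0)
  refine ⟨N * C, fun Y hY h1 r h2 => (hC Y hY h1 r h2).mono fun t ht => ?_⟩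
  have key : ∀ s, volume {x : ℝ × ℝ | ‖x‖ ≤ R ∧ gt s (w.om x) ∈ Y} ≤
      N * volume {x ∈ w.rect | gt s (w.om x) ∈ Y} := fun s => by
    have m : MeasurableSet {x : ℝ × ℝ | gt s (w.om x) ∈ Y} :=
      (w.m6a_meas.comp measurable_prodMk_left) hY
    have := hN _ (measurable_one.indicator m)
      (fun x => Set.indicator_eq_indicator (by
        rw [Set.mem_ofPred_eq, ← (w.om_S x).2]; exact m6a_gt r (w.om_S x).1 s) rfl)
      (fun x => Set.indicator_eq_indicator (by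
        rw [Set.mem_ofPred_eq, ← (w.om_T x).2]; exact m6a_gt r (w.om_T x).1 s) rfl)
    rw [lintegral_indicator_one m, lintegral_indicator_one m, Measure.restrict_apply m,
      Measure.restrict_apply m] at this
    refine le_trans (measure_mono fun x hx => ?_) (this.trans_eq (by rw [Set.inter_comm]; rfl))
    exact ⟨hx.2, mem_closedBall_zero_iff.mpr hx.1⟩
  refine (lintegral_mono fun τ => key (t + τ)).trans ?_
  rw [lintegral_const_mul' _ _ ENNReal.coe_ne_top]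
  refine (mul_le_mul_right ((hR Y t hY).trans ht) _).trans ?_
  rw [mul_add, ← mul_assoc, ENNReal.coe_mul]
  refine add_le_add_right ?_ _
  rw [← ENNReal.ofReal_coe_nnreal, ← ENNReal.ofReal_mul N.coe_nonneg]
  refine ENNReal.ofReal_le_ofReal ?_
  rw [mul_div_assoc', div_le_iff₀ N0]
  nlinarith

end Pool.Agent.TW
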