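import Pool.Agent.Lib.MP_4eaecc_an.M6a

/-! Equidistribution for continuous densities with compact support. -/

namespace Pool.Agent.TW

open Matrix MeasureTheory Filter Topology
open scoped ENNReal NNReal symmDiff

theorem m6b_gt {F : Pt → ℝ} (r : RInvF F) {y : Pt} {P : Mat} (h : Reach y P) (s : ℝ) :
    F (gt s (acP P y)) = F (gt s y) := by
  rw [gt_eq, gt_eq, ← acP_lin]
  exact r _ _ (h.lin (by rw [mul_zero, sub_zero]; positivity))

theorem m6b_add (s t : ℝ) (y : Pt) : gt (t + s) y = gt s (gt t y) := by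
  simp only [gt, smul_smul, ← Real.exp_add, neg_add, add_comm]

theorem m6b_unif {F : Pt → ℝ} (c : ContinuousOn F Cell) {K : Set Pt} (hK : IsCompact K)
    (hc : K ⊆ Cell) {ε : ℝ} (hε : 0 < ε) :
    ∃ ω : ℝ, 0 < ω ∧ ∀ τ ∈ Set.Icc 0 ω, ∀ y ∈ K, |F (gt τ y) - F y| < ε := by
  have h := hK.eventually_forall_of_forall_eventually (x₀ := (0 : ℝ))
    (P := fun τ y => |F (gt τ y) - F y| < ε) fun y hy => by
      have k := c.continuousAt (isOpen_cell.mem_nhds (hc hy))
      have k1 : Continuous fun z : ℝ × Pt => gt z.1 z.2 := by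
        unfold gt
        fun_prop
      have k2 := ((k.tendsto.comp (k1.tendsto' (0, y) y (by simp [gt]))).sub
        (k.tendsto.comp (continuous_snd.tendsto ((0 : ℝ), y)))).abs
      rw [sub_self, abs_zero] at k2
      exact k2.eventually (gt_mem_nhds hε)
  obtain ⟨ω, h0, h1⟩ := Metric.eventually_nhds_iff.1 h
  refine ⟨ω / 2, half_pos h0, fun τ hτ => h1 ?_⟩
  rw [Real.dist_eq, sub_zero, abs_of_nonneg hτ.1]
  linarith [hτ.2]

/-- Tightness and uniform continuity on the compact set of good states. -/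
theorem time_win (w : Par) (R : ℝ) {F : Pt → ℝ} (hF : Measurable F) (c : ContinuousOn F Cell)
    {M : ℝ} (hM : ∀ y, |F y| ≤ M) (r : RInvF F) {η : ℝ} (hη : 0 < η) : ∃ ω : ℝ, 0 < ω ∧
    ∀ᶠ t in atTop, ∀ τ ∈ Set.Icc 0 ω, ∫⁻ x in Metric.closedBall (0 : ℝ × ℝ) R,
      ENNReal.ofReal |F (gt (t + τ) (w.om x)) - F (gt t (w.om x))| ≤ ENNReal.ofReal η := by
  have ha := w.m6a_a
  have hb := w.m6a_b
  obtain ⟨N, hN⟩ := w.cover R
  obtain ⟨ε, e0, he⟩ := ENNReal.exists_nnreal_pos_mul_lt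
    (a := N * (volume w.rect + ENNReal.ofReal (2 * M))) (b := ENNReal.ofReal η)
    (ENNReal.mul_ne_top ENNReal.coe_ne_top (ENNReal.add_ne_top.2
      ⟨(isCompact_Icc.prod isCompact_Icc).measure_ne_top, ENNReal.ofReal_ne_top⟩))
    (ENNReal.ofReal_pos.2 hη).ne'
  have e1 : (0 : ℝ) < ε := e0
  obtain ⟨C, α, hC, hα, H⟩ := ndivX w (2 * (w.a + w.b))
  obtain ⟨δ, d0, d1, hδ⟩ := m5b_small hC hα e1
  obtain ⟨ω, h0, hω⟩ := m6b_unif c (m5_compact d0) (m5_cell d0) e1
  refine ⟨ω, h0, hδ.mono fun t ht τ hτ => ?_⟩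
  have m : ∀ s, Measurable fun x => F (gt s (w.om x)) := fun s =>
    hF.comp (w.m6a_meas.comp measurable_prodMk_left)
  refine (hN (fun x => ENNReal.ofReal |F (gt (t + τ) (w.om x)) - F (gt t (w.om x))|)
    ((m _).sub (m _)).abs.ennreal_ofReal (fun x => ?_) fun x => ?_).trans ?_
  · simp only [← (w.om_S x).2, m6b_gt r (w.om_S x).1]
  · simp only [← (w.om_T x).2, m6b_gt r (w.om_T x).1]
  have k : ∀ x ∈ w.rect, ENNReal.ofReal |F (gt (t + τ) (w.om x)) - F (gt t (w.om x))| ≤
      ε + {x : ℝ × ℝ | ‖x‖ ≤ 2 * (w.a + w.b) ∧ WV .L (w.om x).1 ∧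
        ¬ GoodAt δ .L (w.om x) t}.indicator (fun _ => ENNReal.ofReal (2 * M)) x := by
    rintro x ⟨⟨h1, h2⟩, h3, h4⟩
    by_cases g : GoodAt δ .L (w.om x) t
    · refine le_add_right (ENNReal.ofReal_le_of_le_toReal ?_)
      rw [← m6b_gt r g.1.reach, ← m6b_gt r g.1.reach t, m6b_add]
      exact (hω τ hτ _ (Set.mem_iUnion.2 ⟨_, g.2⟩)).le
    · rw [Set.indicator_of_mem]
      · refine le_add_left (ENNReal.ofReal_le_ofReal ((abs_sub _ _).trans ?_))
        linarith [hM (gt (t + τ) (w.om x)), hM (gt t (w.om x))]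
      · refine ⟨max_le (abs_le.2 ⟨by linarith, by linarith⟩)
          (abs_le.2 ⟨by linarith, by linarith⟩), fun b i => ?_, g⟩
        have k1 : x.1 < 0 := by linarith
        have k2 : x.2 < 0 := by linarith
        cases b <;> fin_cases i <;> simp [wd, eR, eL, Par.om, ev_four, k1, k2, ha, hb]
  refine (mul_le_mul_right (setLIntegral_mono' w.m6a_rect k) _).trans (le_trans ?_ he.le)
  rw [lintegral_add_left measurable_const, setLIntegral_const, mul_left_comm, mul_add (ε : ℝ≥0∞),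
    mul_comm (ε : ℝ≥0∞) (ENNReal.ofReal _)]
  refine mul_le_mul_right (add_le_add_right ((lintegral_indicator_const_le _ _).trans
    (mul_le_mul_right ((Measure.restrict_le_self _).trans ((H δ t d0 d1).trans ?_)) _)) _) _
  exact ENNReal.ofReal_le_of_le_toReal (ht t le_rfl)

theorem m6b_shift {ρ : ℝ × ℝ → ℝ} (hρ : Continuous ρ) (hc : HasCompactSupport ρ) :
    Tendsto (fun v => ∫ x, |ρ (x - v) - ρ x|) (𝓝 0) (𝓝 0) := by
  have h := continuousOn_integral_of_compact_support (μ := volume)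
    (f := fun v x => |ρ (x - v) - ρ x|) (s := Metric.closedBall 0 1)
    (hc.isCompact.add (isCompact_closedBall (0 : ℝ × ℝ) 1))
    (Continuous.continuousOn (by unfold Function.uncurry; fun_prop)) fun v x hv hx => by
      rw [image_eq_zero_of_notMem_tsupport (f := ρ) fun e => hx ⟨_, e, v, hv, sub_add_cancel x v⟩,
        image_eq_zero_of_notMem_tsupport (f := ρ) fun e =>
          hx ⟨_, e, 0, Metric.mem_closedBall_self zero_le_one, add_zero x⟩, sub_self, abs_zero]
  simpa using (h.continuousAt (Metric.closedBall_mem_nhds 0 one_pos)).tendsto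

/-- `us k ∘ gt t = gt t ∘ us (k e^{-2t})` is a small translation of the twist parameters. -/
theorem shift_small (w : Par) {F : Pt → ℝ} (hF : Measurable F) {M : ℝ} (hM : ∀ y, |F y| ≤ M)
    {ρ : ℝ × ℝ → ℝ} (hρ : Continuous ρ) (hc : HasCompactSupport ρ) (k : ℝ) :
    Tendsto (fun t => (∫ x, F (us k (gt t (w.om x))) * ρ x) - ∫ x, F (gt t (w.om x)) * ρ x)
      atTop (𝓝 0) := by
  have hv : Tendsto (fun t => (k * Real.exp (-t) ^ 2) • (w.h1, w.h2)) atTop (𝓝 0) := by
    simpa only [ne_eq, OfNat.ofNat_ne_zero, not_false_eq_true, zero_pow, mul_zero, zero_smul] using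
      ((Real.tendsto_exp_neg_atTop_nhds_zero.pow 2).const_mul k).smul_const (w.h1, w.h2)
  have h := ((m6b_shift hρ hc).comp hv).const_mul M
  rw [mul_zero] at h
  refine squeeze_zero_norm (fun t => ?_) h
  have e : ∀ x, us k (gt t (w.om x)) =
      gt t (w.om (x + (k * Real.exp (-t) ^ 2) • (w.h1, w.h2))) := fun x => by
    rw [← w.om_us]
    simp only [us, gt, smul_add, smul_smul]
    congr 3
    rw [Real.exp_neg]
    field_simp
  simp only [e, Function.comp_apply]
  generalize (k * Real.exp (-t) ^ 2) • (w.h1, w.h2) = v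
  have i0 := hρ.integrable_of_hasCompactSupport (μ := volume) hc
  have i1 := i0.comp_sub_right v
  have m : AEStronglyMeasurable (fun x => F (gt t (w.om x))) volume :=
    (hF.comp (w.m6a_meas.comp measurable_prodMk_left)).aestronglyMeasurable
  have e2 := integral_add_right_eq_self (μ := volume) (fun x => F (gt t (w.om x)) * ρ (x - v)) v
  simp only [add_sub_cancel_right] at e2
  rw [e2, ← integral_sub (i1.bdd_mul m (.of_forall fun x => hM _))
    (i0.bdd_mul m (.of_forall fun x => hM _)), ← integral_const_mul]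
  refine norm_integral_le_of_norm_le ((i1.sub i0).abs.const_mul M) (.of_forall fun x => ?_)
  rw [← mul_sub, Real.norm_eq_abs, abs_mul]
  exact mul_le_mul_of_nonneg_right (hM _) (abs_nonneg _)

end Pool.Agent.TW
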