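import Pool.Agent.Lib.MP_4eaecc_an.M4
import Pool.Agent.Lib.MP_4eaecc_an.M5
import Pool.Agent.Lib.MP_4eaecc_an.M6a
import Pool.Agent.Lib.MP_4eaecc_an.M6b

/-! Equidistribution for continuous densities with compact support. -/

namespace Pool.Agent.TW

open Matrix MeasureTheory Filter Topology
open scoped ENNReal NNReal symmDiff

theorem m6_bd {ρ : ℝ × ℝ → ℝ} (hρ : Continuous ρ) (hc : HasCompactSupport ρ) :
    ∃ R K : ℝ, 0 < K ∧ ∀ (G : ℝ × ℝ → ℝ) (e : ℝ), 0 ≤ e →
      ∫⁻ x in Metric.closedBall (0 : ℝ × ℝ) R, ENNReal.ofReal |G x| ≤ ENNReal.ofReal e →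
      |∫ x, G x * ρ x| ≤ K * e := by
  obtain ⟨R, hR⟩ := hc.isCompact.isBounded.subset_closedBall 0
  obtain ⟨K, hK⟩ := hρ.bounded_above_of_compact_support hc
  refine ⟨R, |K| + 1, by positivity, fun G e he h => ?_⟩
  have h1 : ‖∫ x, G x * ρ x‖ₑ ≤ ENNReal.ofReal ((|K| + 1) * e) := by
    refine (enorm_integral_le_lintegral_enorm _).trans ?_
    rw [ENNReal.ofReal_mul (by positivity)]
    refine le_trans ?_ (mul_le_mul_right h _)
    rw [← lintegral_const_mul' _ _ ENNReal.ofReal_ne_top,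
      ← lintegral_indicator Metric.isClosed_closedBall.measurableSet]
    refine lintegral_mono fun x => ?_
    by_cases hx : x ∈ Metric.closedBall (0 : ℝ × ℝ) R
    · rw [Set.indicator_of_mem hx, ← ENNReal.ofReal_mul (by positivity), Real.enorm_eq_ofReal_abs,
        abs_mul, mul_comm]
      refine ENNReal.ofReal_le_ofReal (mul_le_mul_of_nonneg_right ?_ (abs_nonneg _))
      linarith [hK x, le_abs_self K, Real.norm_eq_abs (ρ x)]
    · rw [image_eq_zero_of_notMem_tsupport fun k => hx (hR k)]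
      simp
  rwa [Real.enorm_eq_ofReal_abs, ENNReal.ofReal_le_ofReal_iff (by positivity)] at h1

theorem m6_us (k : ℝ) : Continuous (us k) := by
  simpa only [← funext (us_eq k)] using m1_cont 1 k 0 1

theorem m6_pick {f : ℝ → ℝ≥0∞} {ω δ : ℝ} (hω : 0 < ω) (hδ : 0 < δ) (h : ω ≤ Real.log 2)
    (k : ∫⁻ τ in Set.Icc 0 (Real.log 2), f τ ≤
      ENNReal.ofReal (δ * ω / 3) + ENNReal.ofReal (δ * ω / 3)) :
    ∃ τ ∈ Set.Icc 0 ω, f τ ≤ ENNReal.ofReal δ := by
  by_contra! hn
  have h1 : ∫⁻ _ in Set.Icc 0 ω, ENNReal.ofReal δ ≤ _ :=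
    ((setLIntegral_mono' measurableSet_Icc fun τ hτ => (hn τ hτ).le).trans
      (lintegral_mono_set (Set.Icc_subset_Icc_right h))).trans k
  have := mul_pos hδ hω
  rw [setLIntegral_const, Real.volume_Icc, ← ENNReal.ofReal_mul hδ.le,
    ← ENNReal.ofReal_add (by positivity) (by positivity),
    ENNReal.ofReal_le_ofReal_iff (by positivity)] at h1
  linarith

theorem equi_cc (w : Par) {F : Pt → ℝ} (hF : Measurable F) (c : ContinuousOn F Cell) {M : ℝ}
    (hM : ∀ y, |F y| ≤ M) (r : RInvF F) (s : ∀ (c : ℝ) (y : Pt), 0 < c → F (c • y) = F y)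
    {ρ : ℝ × ℝ → ℝ} (hρ : Continuous ρ) (hc : HasCompactSupport ρ) :
    Tendsto (fun t => ∫ x, F (gt t (w.om x)) * ρ x) atTop
      (𝓝 ((∫ x, ρ x) * ((∫ y, F y ∂mu1 w.A) / (mu1 w.A).real Set.univ))) := by
  obtain ⟨R, K, K0, hK⟩ := m6_bd hρ hc
  have hA : 0 < w.A :=
    add_pos (mul_pos (add_pos w.m6a_a w.m6a_b) w.h10) (mul_pos w.m6a_a w.h20)
  have hm := fun η hη => mean_us hA hF hM r s (η := η) hη
  generalize (∫ y, F y ∂mu1 w.A) / (mu1 w.A).real Set.univ = a at hm ⊢
  have M0 : 0 ≤ M := (abs_nonneg _).trans (hM 0)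
  have mg : ∀ t, Measurable fun x => gt t (w.om x) := fun t =>
    w.m6a_meas.comp measurable_prodMk_left
  have hi : ∀ {g : ℝ × ℝ → Pt}, Measurable g → Integrable fun x => F (g x) * ρ x := fun hg =>
    (hρ.integrable_of_hasCompactSupport hc).bdd_mul (hF.comp hg).aestronglyMeasurable
      (ae_of_all _ fun x => hM _)
  rw [Metric.tendsto_nhds]
  intro ε hε
  obtain ⟨ω₀, ω0, h1⟩ := time_win w R hF c hM r (η := ε / (4 * K)) (by positivity)
  obtain ⟨ω, hω, o1, o2⟩ : ∃ ω : ℝ, 0 < ω ∧ ω ≤ ω₀ ∧ ω ≤ Real.log 2 :=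
    ⟨min _ _, lt_min ω0 (Real.log_pos one_lt_two), min_le_left _ _, min_le_right _ _⟩
  obtain ⟨V, V0, hV⟩ : ∃ V : ℝ, 0 < V ∧
      volume (Metric.closedBall (0 : ℝ × ℝ) R) ≤ ENNReal.ofReal V :=
    ⟨(volume (Metric.closedBall (0 : ℝ × ℝ) R)).toReal + 1, by positivity,
      (ENNReal.ofReal_toReal measure_closedBall_lt_top.ne).ge.trans
        (ENNReal.ofReal_le_ofReal (by linarith))⟩
  obtain ⟨δ, hδ, d0⟩ : ∃ δ : ℝ, (M + |a| + 1) * δ = ε / (4 * K) ∧ 0 < δ :=
    ⟨ε / (4 * K) / (M + |a| + 1), mul_div_cancel₀ _ (by positivity), by positivity⟩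
  obtain ⟨η, hη, e0⟩ : ∃ η : ℝ, η * V = ε / (4 * K) ∧ 0 < η :=
    ⟨ε / (4 * K) / V, div_mul_cancel₀ _ V0.ne', by positivity⟩
  obtain ⟨C, hC⟩ := thkX w R (ε := δ * ω / 3) (by positivity)
  have h2 := ENNReal.Tendsto.const_mul (a := C) (hm η e0) (Or.inr ENNReal.coe_ne_top)
  rw [mul_zero] at h2
  obtain ⟨n, hn, n0⟩ := ((h2.eventually (ge_mem_nhds (ENNReal.ofReal_pos.mpr
    (show 0 < δ * ω / 3 by positivity)))).and (eventually_gt_atTop 0)).exists
  have n1 : (0 : ℝ) < n := Nat.cast_pos.mpr n0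
  obtain ⟨A, hA⟩ : ∃ A : Pt → ℝ, A = fun y => (∑ k ∈ Finset.range n, F (us k y)) / n - a :=
    ⟨_, rfl⟩
  have mA : Measurable A := hA ▸ ((Finset.measurable_fun_sum _ fun (k : ℕ) _ =>
    hF.comp (m6_us k).measurable).div_const _).sub_const _
  have mY : MeasurableSet {y | η ≤ |A y|} := measurableSet_le measurable_const mA.abs
  have bA : ∀ y, |A y| ≤ M + |a| + 1 := fun y => by
    have : |(∑ k ∈ Finset.range n, F (us k y)) / n| ≤ M := by
      rw [abs_div, abs_of_pos n1, div_le_iff₀ n1]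
      refine (Finset.abs_sum_le_sum_abs _ _).trans ((Finset.sum_le_card_nsmul _ _ M
        fun k _ => hM _).trans_eq (by simp [mul_comm]))
    rw [hA]
    linarith [abs_sub ((∑ k ∈ Finset.range n, F (us k y)) / n) a]
  have h3 := hC {y | η ≤ |A y|} mY (fun S hS k => by
      rw [Set.inter_comm]
      refine ContinuousOn.preimage_isClosed_of_isClosed (f := fun y => |A y|) (t := Set.Ici η)
        (ContinuousOn.abs ?_) hS.isClosed isClosed_Ici
      rw [hA]
      refine ((continuousOn_finsetSum _ fun (j : ℕ) _ => c.comp (m6_us j).continuousOn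
        fun y hy i => ?_).div_const _).sub continuousOn_const
      simpa [us_eq, ar_lin] using k hy i)
    (fun y P h => by
      have : ∀ k, F (us k (acP P y)) = F (us k y) := fun k => by
        rw [us_eq, us_eq, ← acP_lin, r _ _ (h.lin (by simp))]
      simp only [Set.mem_ofPred_eq, hA, this])
    (fun c y h => by
      have : ∀ k, F (us k (c • y)) = F (us k y) := fun k => by
        rw [← s c (us k y) h]
        simp [us, smul_comm k c]
      simp only [Set.mem_ofPred_eq, hA, this])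
  have e : ∀ t, ∫ x, A (gt t (w.om x)) * ρ x = (∑ k ∈ Finset.range n,
      ∫ x, F (us k (gt t (w.om x))) * ρ x) / n - (∫ x, ρ x) * a := fun t => by
    have i1 : ∀ k : ℕ, Integrable fun x => F (us k (gt t (w.om x))) * ρ x := fun k =>
      hi ((m6_us k).measurable.comp (mg t))
    rw [← integral_finsetSum _ fun k _ => i1 k, ← integral_div, ← integral_mul_const,
      ← integral_sub ((integrable_finsetSum _ fun k _ => i1 k).div_const _)
        ((hρ.integrable_of_hasCompactSupport hc).mul_const _)]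
    refine integral_congr_ae (ae_of_all _ fun x => ?_)
    simp only [hA, ← Finset.sum_mul]
    ring
  have h4 : Tendsto (fun t => (∑ k ∈ Finset.range n, ∫ x, F (us k (gt t (w.om x))) * ρ x) / n -
      ∫ x, F (gt t (w.om x)) * ρ x) atTop (𝓝 0) := by
    have := (tendsto_finsetSum (Finset.range n) fun k _ =>
      shift_small w hF hM hρ hc k).div_const (n : ℝ)
    simp only [Finset.sum_const_zero, zero_div] at this
    refine this.congr fun t => ?_
    rw [Finset.sum_sub_distrib, Finset.sum_const, Finset.card_range, nsmul_eq_mul, sub_div,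
      mul_div_cancel_left₀ _ n1.ne']
  filter_upwards [h1, h3, eventually_forall_ge_atTop.mpr
    (Metric.tendsto_nhds.mp h4 (ε / 4) (by positivity))] with t h1 h3 h4
  obtain ⟨τ, hτ, hv⟩ :=
    m6_pick hω d0 o2 (h3.trans (add_le_add_left (by simpa only [hA] using hn) _))
  have b1 := hK _ _ (by positivity) (h1 τ ⟨hτ.1, hτ.2.trans o1⟩)
  have b2 := hK (fun x => A (gt (t + τ) (w.om x))) (η * V + (M + |a| + 1) * δ) (by positivity) (by
    have m : MeasurableSet {x : ℝ × ℝ | η ≤ |A (gt (t + τ) (w.om x))|} := mg (t + τ) mY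
    calc ∫⁻ x in Metric.closedBall (0 : ℝ × ℝ) R, ENNReal.ofReal |A (gt (t + τ) (w.om x))|
        ≤ ∫⁻ x in Metric.closedBall (0 : ℝ × ℝ) R, ENNReal.ofReal η +
          {x : ℝ × ℝ | η ≤ |A (gt (t + τ) (w.om x))|}.indicator
            (fun _ => ENNReal.ofReal (M + |a| + 1)) x := lintegral_mono fun x => by
          by_cases hx : x ∈ {x : ℝ × ℝ | η ≤ |A (gt (t + τ) (w.om x))|}
          · rw [Set.indicator_of_mem hx]
            exact le_add_left (ENNReal.ofReal_le_ofReal (bA _))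
          · exact le_add_right (ENNReal.ofReal_le_ofReal (le_of_not_ge hx))
      _ ≤ _ := by
          rw [lintegral_add_left measurable_const, lintegral_indicator_const m, setLIntegral_const,
            Measure.restrict_apply m, ENNReal.ofReal_add (p := η * V) (by positivity) (by positivity),
            ENNReal.ofReal_mul e0.le, ENNReal.ofReal_mul (by positivity)]
          refine add_le_add (mul_le_mul_right hV _) (mul_le_mul_right (le_trans
            (measure_mono fun x hx => ?_) hv) _)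
          exact ⟨mem_closedBall_zero_iff.mp hx.2, hx.1⟩)
  have b3 := h4 (t + τ) (le_add_of_nonneg_right hτ.1)
  simp only [sub_mul] at b1
  rw [integral_sub (hi (mg _)) (hi (mg _))] at b1
  rw [e, hη, hδ, mul_add] at b2
  rw [show K * (ε / (4 * K)) = ε / 4 by field_simp] at b1 b2
  rw [Real.dist_eq, sub_zero, abs_lt] at b3
  rw [abs_le] at b1 b2
  rw [Real.dist_eq, abs_lt]
  constructor <;> linarith [b1.1, b1.2, b2.1, b2.2, b3.1, b3.2]

end Pool.Agent.TW
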