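import Pool.Agent.Lib.MP_4eaecc_an.R1

-- part Pool.Agent.Lib.MP_4eaecc_an.E0a
section

/-! Counting lemmas in the plane. -/

namespace Pool.Agent.TW

open Matrix MeasureTheory Filter Topology
open scoped ENNReal NNReal

/-- Dyadic summation. -/
theorem sum_inv {ι : Type} (s : Finset ι) (ν : ι → ℝ) {c C0 C1 L : ℝ} (hc : 0 < c) (h0 : 0 ≤ C0)
    (h1 : 0 ≤ C1) (hL : 0 ≤ L) (hν : ∀ i ∈ s, c ≤ ν i ∧ ν i ≤ L)
    (hN : ∀ x, 0 ≤ x → ∀ u ⊆ s, (∀ i ∈ u, ν i ≤ x) → (u.card : ℝ) ≤ C0 * x ^ 2 + C1) :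
    ∑ i ∈ s, (ν i)⁻¹ ≤ 8 * C0 * L + 4 * C1 / c := by
  classical
  have key : ∀ (n : ℕ) (x : ℝ), c / 2 ≤ x → x < c * 2 ^ n → ∀ u ⊆ s, (∀ i ∈ u, ν i ≤ x) →
      ∑ i ∈ u, (ν i)⁻¹ ≤ 4 * C0 * x + 4 * C1 / c - 2 * C1 / x := by
    have base : ∀ x : ℝ, c / 2 ≤ x → x < c → ∀ u ⊆ s, (∀ i ∈ u, ν i ≤ x) →
        ∑ i ∈ u, (ν i)⁻¹ ≤ 4 * C0 * x + 4 * C1 / c - 2 * C1 / x := fun x k1 k2 u hu k => by
      have x0 := (half_pos hc).trans_le k1
      have : 2 * C1 / x ≤ 4 * C1 / c := by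
        rw [div_le_div_iff₀ x0 hc]
        nlinarith
      rw [Finset.sum_eq_zero fun i hi => absurd ((hν i (hu hi)).1.trans (k i hi)) k2.not_ge]
      linarith [mul_nonneg h0 x0.le]
    intro n
    induction n with
    | zero => simpa using base
    | succ n ih =>
      intro x k1 k2 u hu k
      rcases lt_or_ge x c with k3 | k3
      · exact base x k1 k3 u hu k
      have x0 := hc.trans_le k3
      have a1 := ih (x / 2) (by linarith) (by rw [pow_succ] at k2; linarith)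
        (u.filter fun i => ν i ≤ x / 2) ((Finset.filter_subset _ _).trans hu)
        fun i hi => (Finset.mem_filter.1 hi).2
      have a2 := Finset.sum_le_card_nsmul (u.filter fun i => ¬ ν i ≤ x / 2) (fun i => (ν i)⁻¹)
        (x / 2)⁻¹ fun i hi => inv_anti₀ (half_pos x0) (not_le.1 (Finset.mem_filter.1 hi).2).le
      have a3 := mul_le_mul_of_nonneg_right (hN x x0.le _ ((Finset.filter_subset
        (fun i => ¬ ν i ≤ x / 2) _).trans hu) fun i hi => k i (Finset.mem_filter.1 hi).1)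
        (inv_pos.2 (half_pos x0)).le
      have a4 : (C0 * x ^ 2 + C1) * (x / 2)⁻¹ = 2 * C0 * x + 2 * C1 / x := by field_simp
      have a5 : 2 * C1 / (x / 2) = 2 * (2 * C1 / x) := by field_simp
      rw [← Finset.sum_filter_add_sum_filter_not u fun i => ν i ≤ x / 2]
      rw [nsmul_eq_mul] at a2
      linarith
  have a0 := mul_nonneg h0 hL
  rcases lt_or_ge L c with k | k
  · rw [Finset.sum_eq_zero fun i hi => absurd ((hν i hi).1.trans (hν i hi).2) k.not_ge]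
    positivity
  obtain ⟨n, hn⟩ := pow_unbounded_of_one_lt (L / c) (one_lt_two (α := ℝ))
  have a1 := key n L (by linarith) ((div_lt_iff₀' hc).1 hn) s subset_rfl fun i hi => (hν i hi).2
  have a2 : 0 ≤ 2 * C1 / L := by positivity
  linarith

theorem mink0 {α β γ δ : ℝ} (h : α * δ - γ * β = -1) : ∃ m n : ℤ, IsCoprime m n ∧
    |m * α + n * β| ≤ 1 / 2 ∧ |m * γ + n * δ| ≤ 4 := by
  classical
  have h1 : (Matrix.of ![![α, γ], ![β, δ]]).det = -1 := by rw [Matrix.det_fin_two_of, h]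
  let B := basisOfPiSpaceOfLinearIndependent
    (Matrix.linearIndependent_rows_of_det_ne_zero (h1.trans_ne (by norm_num)))
  have hB : ⇑B = ![![α, γ], ![β, δ]] := coe_basisOfPiSpaceOfLinearIndependent _
  have : Countable (Submodule.span ℤ (Set.range B)).toAddSubgroup :=
    inferInstanceAs (Countable (Submodule.span ℤ (Set.range B)))
  obtain ⟨⟨x, hx⟩, x0, k⟩ := exists_ne_zero_mem_lattice_of_measure_mul_two_pow_lt_measure
    (s := Set.Icc (-![1 / 2, 4]) ![1 / 2, 4]) (ZSpan.isAddFundamentalDomain' B volume)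
    (fun x hx => ⟨neg_le_neg hx.2, neg_le.1 hx.1⟩) (convex_Icc _ _) (by
      rw [ZSpan.volume_fundamentalDomain, hB, h1, Real.volume_Icc_pi]
      simp only [Fin.prod_univ_two, Pi.neg_apply, Matrix.cons_val_zero, Matrix.cons_val_one]
      norm_num)
  obtain ⟨a, rfl⟩ := (Submodule.mem_span_range_iff_exists_fun ℤ).1 hx
  have g0 : 0 < Int.gcd (a 0) (a 1) := Nat.pos_of_ne_zero fun e => x0 (Subtype.ext (by
    obtain ⟨e1, e2⟩ := Int.gcd_eq_zero_iff.1 e
    simp [e1, e2]))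
  obtain ⟨m, n, e, e1, e2⟩ := Int.exists_gcd_one g0
  have g1 : (1 : ℝ) ≤ Int.gcd (a 0) (a 1) := by exact_mod_cast g0
  have k0 := abs_le.2 ⟨k.1 0, k.2 0⟩
  have k1 := abs_le.2 ⟨k.1 1, k.2 1⟩
  generalize Int.gcd (a 0) (a 1) = d at e1 e2 g1
  simp only [Fin.sum_univ_two, hB, e1, e2, Pi.add_apply, zsmul_eq_mul,
    Matrix.cons_val_zero, Matrix.cons_val_one, Int.cast_mul, Int.cast_natCast] at k0 k1
  have key : ∀ u v : ℝ, |m * u + n * v| ≤ |m * d * u + n * d * v| := fun u v => by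
    rw [show m * d * u + n * d * v = d * (m * u + n * v) by ring, abs_mul, Nat.abs_cast]
    exact le_mul_of_one_le_left (abs_nonneg _) g1
  exact ⟨m, n, Int.isCoprime_iff_gcd_eq_one.2 e, (key _ _).trans k0, (key _ _).trans k1⟩

/-- Minkowski for the box `|dt g x| ≤ A / 2`, `|ip g x| ≤ 2 ip g g`. -/
theorem mink {b c g : ℝ × ℝ} (hd : 0 < dt b c) (hg : g ≠ 0) : ∃ m n : ℤ, IsCoprime m n ∧
    |dt g ((m : ℝ) • b + (n : ℝ) • c)| ≤ dt b c / 2 ∧
    ‖(m : ℝ) • b + (n : ℝ) • c‖ ≤ 4 * ‖g‖ + dt b c / ‖g‖ := by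
  have hn : 0 < ‖g‖ := norm_pos_iff.2 hg
  have l1 : |g.1| ≤ ‖g‖ := norm_fst_le g
  have l2 : |g.2| ≤ ‖g‖ := norm_snd_le g
  have hi : ‖g‖ ^ 2 ≤ ip g g := by
    rw [Prod.norm_def, Real.norm_eq_abs, Real.norm_eq_abs, ip]
    rcases le_total |g.1| |g.2| with k | k
    · rw [max_eq_right k, sq_abs]
      nlinarith [mul_self_nonneg g.1]
    · rw [max_eq_left k, sq_abs]
      nlinarith [mul_self_nonneg g.2]
  have h0 : 0 < ip g g := (pow_pos hn 2).trans_le hi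
  obtain ⟨m, n, h1, h2, h3⟩ := mink0 (α := dt g b / dt b c) (β := dt g c / dt b c)
    (γ := ip g b / ip g g) (δ := ip g c / ip g g) (by
      field_simp
      simp only [dt, ip]
      ring)
  refine ⟨m, n, h1, ?_⟩
  have e1 : m * (dt g b / dt b c) + n * (dt g c / dt b c) =
      dt g ((m : ℝ) • b + (n : ℝ) • c) / dt b c := by
    simp only [dt, Prod.fst_add, Prod.snd_add, Prod.smul_fst, Prod.smul_snd, smul_eq_mul]
    ring
  have e2 : m * (ip g b / ip g g) + n * (ip g c / ip g g) =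
      ip g ((m : ℝ) • b + (n : ℝ) • c) / ip g g := by
    simp only [ip, Prod.fst_add, Prod.snd_add, Prod.smul_fst, Prod.smul_snd, smul_eq_mul]
    ring
  rw [e1] at h2
  rw [e2] at h3
  generalize (m : ℝ) • b + (n : ℝ) • c = x at h2 h3
  rw [abs_div, abs_of_pos hd, div_le_iff₀ hd] at h2
  refine ⟨by linarith, ?_⟩
  have h4 : |dt g x / ip g g| * ‖g‖ ≤ dt b c / ‖g‖ := by
    rw [abs_div, abs_of_pos h0, le_div_iff₀ hn, mul_assoc, ← pow_two]
    exact (mul_le_mul_of_nonneg_left hi (by positivity)).trans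
      ((div_mul_cancel₀ _ h0.ne').trans_le (by linarith))
  have key : ∀ p q : ℝ, |p| ≤ ‖g‖ → |q| ≤ ‖g‖ →
      |ip g x / ip g g * p + dt g x / ip g g * q| ≤ 4 * ‖g‖ + dt b c / ‖g‖ := fun p q hp hq => by
    refine (abs_add_le _ _).trans (add_le_add ?_ (le_trans ?_ h4)) <;> rw [abs_mul] <;> gcongr
  refine norm_prod_le_iff.2 ⟨(congrArg abs ?_).trans_le (key g.1 (-g.2) l1 (by rwa [abs_neg])),
    (congrArg abs ?_).trans_le (key g.2 g.1 l2 l1)⟩ <;> field_simp <;> simp only [dt, ip] <;> ring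

end Pool.Agent.TW
end

-- part Pool.Agent.Lib.MP_4eaecc_an.E0
section

/-! Counting lemmas in the plane. -/

namespace Pool.Agent.TW

open Matrix MeasureTheory Filter Topology
open scoped ENNReal NNReal

theorem bin_count {ι : Type} (s : Finset ι) (f : ι → ℝ) {R : ℝ} (hR : 0 ≤ R) (k : ℕ)
    (h : ∀ i ∈ s, 0 ≤ f i ∧ f i ≤ R)
    (hk : ∀ u ⊆ s, (∀ i ∈ u, ∀ j ∈ u, |f i - f j| < 1) → u.card ≤ k) :
    (s.card : ℝ) ≤ k * (R + 1) := by
  classical
  have h1 : s.card ≤ k * (Finset.range (⌊R⌋₊ + 1)).card := by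
    refine Finset.card_le_mul_card_image_of_maps_to (f := fun i => ⌊f i⌋₊) (fun i hi => ?_) k
      fun n _ => hk _ (Finset.filter_subset _ _) fun i hi j hj => ?_
    · exact Finset.mem_range.2 (Nat.lt_succ_of_le (Nat.floor_mono (h i hi).2))
    · rw [Finset.mem_filter] at hi hj
      have a1 := Nat.floor_le (h i hi.1).1
      have a2 := Nat.lt_floor_add_one (f i)
      have a3 := Nat.floor_le (h j hj.1).1
      have a4 := Nat.lt_floor_add_one (f j)
      rw [hi.2] at a1 a2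
      rw [hj.2] at a3 a4
      rw [abs_lt]
      constructor <;> linarith
  rw [Finset.card_range] at h1
  have h2 : (s.card : ℝ) ≤ k * ((⌊R⌋₊ : ℝ) + 1) := by exact_mod_cast h1
  refine h2.trans ?_
  gcongr
  exact Nat.floor_le hR

theorem half_count {ι : Type} (s : Finset ι) (x σ : ι → ℝ) {L θ : ℝ} (k : ℕ) (hθ : 0 < θ)
    (h : ∀ i ∈ s, |x i| ≤ L ∧ |σ i| ≤ 1)
    (hk : ∀ u ⊆ s, (∀ i ∈ u, ∀ j ∈ u, |x i * x j * (σ i - σ j)| < θ) → u.card ≤ k) :
    (s.card : ℝ) ≤ k * (2 * L ^ 2 / θ + 3) := by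
  have hq : 0 < (L ^ 2 + θ) / θ := by positivity
  have := bin_count s (fun i => (σ i + 1) * ((L ^ 2 + θ) / θ)) (R := 2 * ((L ^ 2 + θ) / θ))
    (by positivity) k (fun i hi => ?_) fun u hu hd => hk u hu fun i hi j hj => ?_
  · refine this.trans (le_of_eq ?_)
    field_simp
    ring
  · have := abs_le.1 (h i hi).2
    constructor
    · exact mul_nonneg (by linarith) hq.le
    · gcongr
      linarith
  · have h1 := hd i hi j hj
    have e : (σ i + 1) * ((L ^ 2 + θ) / θ) - (σ j + 1) * ((L ^ 2 + θ) / θ) =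
        (σ i - σ j) * ((L ^ 2 + θ) / θ) := by ring
    simp only [e] at h1
    rw [abs_mul, abs_of_pos hq, ← mul_div_assoc, div_lt_one hθ] at h1
    have a1 := (h i (hu hi)).1
    have a2 := (h j (hu hj)).1
    have a3 : |x i| * |x j| ≤ L ^ 2 := by
      rw [pow_two]
      exact mul_le_mul a1 a2 (abs_nonneg _) ((abs_nonneg _).trans a1)
    rw [abs_mul, abs_mul]
    have a4 := abs_nonneg (σ i - σ j)
    nlinarith [mul_le_mul_of_nonneg_right a3 a4, mul_nonneg a4 hθ.le]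

theorem slope_eq {a b : ℝ} (h : |b| ≤ |a|) : b = a * (b / a) ∧ |b / a| ≤ 1 := by
  rcases eq_or_ne a 0 with rfl | ha
  · have : b = 0 := by simpa using h
    simp [this]
  · refine ⟨by field_simp, ?_⟩
    rw [abs_div]
    exact div_le_one_of_le₀ h (abs_nonneg _)

/-- Vectors in a thin sector have small determinants. -/
theorem sector_count : ∃ C : ℝ, 0 < C ∧ ∀ {ι : Type} (s : Finset ι) (γ : ι → ℝ × ℝ) (L θ : ℝ)
    (k : ℕ), 0 < θ → (∀ i ∈ s, ‖γ i‖ ≤ L) →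
    (∀ u ⊆ s, (∀ i ∈ u, ∀ j ∈ u, |dt (γ i) (γ j)| < θ) → u.card ≤ k) →
    (s.card : ℝ) ≤ k * (C * L ^ 2 / θ + C) := by
  refine ⟨6, by norm_num, fun {ι} s γ L θ k hθ hL hk => ?_⟩
  classical
  have e := Finset.card_filter_add_card_filter_not (s := s) fun i => |(γ i).2| ≤ |(γ i).1|
  have h1 := half_count (s.filter fun i => |(γ i).2| ≤ |(γ i).1|) (fun i => (γ i).1)
    (fun i => (γ i).2 / (γ i).1) (L := L) k hθ (fun i hi => ?_) fun u hu hd =>
      hk u (hu.trans (Finset.filter_subset _ _)) fun i hi j hj => ?_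
  have h2 := half_count (s.filter fun i => ¬ |(γ i).2| ≤ |(γ i).1|) (fun i => (γ i).2)
    (fun i => (γ i).1 / (γ i).2) (L := L) k hθ (fun i hi => ?_) fun u hu hd =>
      hk u (hu.trans (Finset.filter_subset _ _)) fun i hi j hj => ?_
  · rw [← e]
    push_cast
    have a1 : 0 ≤ L ^ 2 / θ := by positivity
    have a2 : (0 : ℝ) ≤ k := k.cast_nonneg
    simp only [mul_div_assoc] at h1 h2 ⊢
    nlinarith [mul_nonneg a1 a2]
  · rw [Finset.mem_filter] at hi
    exact ⟨(norm_snd_le (γ i)).trans (hL i hi.1), (slope_eq (not_le.1 hi.2).le).2⟩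
  · have a1 := (slope_eq (not_le.1 (Finset.mem_filter.1 (hu hi)).2).le).1
    have a2 := (slope_eq (not_le.1 (Finset.mem_filter.1 (hu hj)).2).le).1
    have := hd i hi j hj
    convert this using 2
    simp only [dt]
    linear_combination (γ j).2 * a1 - (γ i).2 * a2
  · rw [Finset.mem_filter] at hi
    exact ⟨(norm_fst_le (γ i)).trans (hL i hi.1), (slope_eq hi.2).2⟩
  · have a1 := (slope_eq (Finset.mem_filter.1 (hu hi)).2).1
    have a2 := (slope_eq (Finset.mem_filter.1 (hu hj)).2).1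
    have := hd j hj i hi
    convert this using 2
    simp only [dt]
    linear_combination (γ i).1 * a2 - (γ j).1 * a1

theorem sep_count {ι : Type} (s : Finset ι) (f : ι → ℝ) {Y : ℝ} (hY : 0 ≤ Y)
    (h : ∀ i ∈ s, |f i| ≤ Y) (hd : ∀ i ∈ s, ∀ j ∈ s, i ≠ j → 1 ≤ |f i - f j|) :
    (s.card : ℝ) ≤ 2 * Y + 1 := by
  have := bin_count s (fun i => f i + Y) (R := 2 * Y) (by positivity) 1 (fun i hi => ?_)
    fun u hu hc => Finset.card_le_one.2 fun i hi j hj => ?_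
  · simpa using this
  · have := abs_le.1 (h i hi)
    constructor <;> linarith
  · by_contra hn
    have a1 := hd i (hu hi) j (hu hj) hn
    have a2 := hc i hi j hj
    simp only [add_sub_add_right_eq_sub] at a2
    linarith

theorem strip_count' {ι : Type} (s : Finset ι) (γ : ι → ℝ × ℝ) {Y : ℝ} (hY : 0 ≤ Y)
    (h : ∀ p ∈ s, 0 < (γ p).1 ∧ (γ p).1 ≤ 1 ∧ |(γ p).2| ≤ Y)
    (hd : ∀ p ∈ s, ∀ q ∈ s, p ≠ q → 1 ≤ |dt (γ p) (γ q)|) : (s.card : ℝ) ≤ 4 * Y + 3 := by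
  classical
  have e := Finset.card_filter_add_card_filter_not (s := s) fun i => |(γ i).2| ≤ Y * (γ i).1
  have h1 := sep_count (s.filter fun i => |(γ i).2| ≤ Y * (γ i).1)
    (fun i => (γ i).2 / (γ i).1) hY (fun i hi => ?_) fun i hi j hj hn => ?_
  have h2 := sep_count (s.filter fun i => ¬ |(γ i).2| ≤ Y * (γ i).1)
    (fun i => (γ i).1 / (γ i).2 * Y ^ 2) hY (fun i hi => ?_) fun i hi j hj hn => ?_
  · rw [← e]
    push_cast
    linarith
  · rw [Finset.mem_filter, not_le] at hi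
    have a1 := (h i hi.1).1
    have a2 : 0 < |(γ i).2| := (mul_nonneg hY a1.le).trans_lt hi.2
    rw [abs_mul, abs_div, abs_of_pos a1, abs_of_nonneg (sq_nonneg Y), div_mul_eq_mul_div,
      div_le_iff₀ a2]
    nlinarith [mul_le_mul_of_nonneg_left hi.2.le hY]
  · rw [Finset.mem_filter, not_le] at hi hj
    have a1 : (γ i).2 ≠ 0 := abs_pos.1 ((mul_nonneg hY (h i hi.1).1.le).trans_lt hi.2)
    have a2 : (γ j).2 ≠ 0 := abs_pos.1 ((mul_nonneg hY (h j hj.1).1.le).trans_lt hj.2)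
    refine (hd i hi.1 j hj.1 hn).trans ?_
    have a3 : dt (γ i) (γ j) = (γ i).2 * (γ j).2 * ((γ i).1 / (γ i).2 - (γ j).1 / (γ j).2) := by
      simp only [dt]
      field_simp
    rw [a3, ← sub_mul, abs_mul, abs_mul, abs_mul, abs_of_nonneg (sq_nonneg Y), mul_comm, pow_two]
    gcongr
    · exact (h i hi.1).2.2
    · exact (h j hj.1).2.2
  · rw [Finset.mem_filter] at hi
    have a1 := (h i hi.1).1
    rw [abs_div, abs_of_pos a1, div_le_iff₀ a1]
    exact hi.2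
  · rw [Finset.mem_filter] at hi hj
    have a1 := (h i hi.1).1
    have a2 := (h j hj.1).1
    refine (hd j hj.1 i hi.1 hn.symm).trans ?_
    have a3 : dt (γ j) (γ i) = (γ i).1 * (γ j).1 * ((γ i).2 / (γ i).1 - (γ j).2 / (γ j).1) := by
      simp only [dt]
      field_simp
    rw [a3, abs_mul, abs_of_pos (mul_pos a1 a2)]
    exact mul_le_of_le_one_left (abs_nonneg _) (mul_le_one₀ (h i hi.1).2.1 a2.le (h j hj.1).2.1)

/-- Points `(x, y)` with `0 < x ≤ 1`, `|y| ≤ Y` and pairwise determinants at least one: slopes of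
size at most `Y` are `1` apart, inverse slopes of the others are `Y⁻²` apart. -/
theorem strip_count (s : Finset (ℝ × ℝ)) {Y : ℝ} (hY : 0 ≤ Y)
    (h : ∀ p ∈ s, 0 < p.1 ∧ p.1 ≤ 1 ∧ |p.2| ≤ Y)
    (hd : ∀ p ∈ s, ∀ q ∈ s, p ≠ q → 1 ≤ |dt p q|) : (s.card : ℝ) ≤ 4 * Y + 3 :=
  strip_count' s id hY h hd

theorem cop_par {p q : ℤ × ℤ} (hp : IsCoprime p.1 p.2) (hq : IsCoprime q.1 q.2)
    (h : p.1 * q.2 - p.2 * q.1 = 0) : q = p ∨ q = -p := by
  obtain ⟨a, b, e⟩ := hp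
  obtain ⟨a', b', e'⟩ := hq
  have h1 : q.1 = (a * q.1 + b * q.2) * p.1 := by linear_combination (-q.1) * e - b * h
  have h2 : q.2 = (a * q.1 + b * q.2) * p.2 := by linear_combination (-q.2) * e + a * h
  have h3 : (a * q.1 + b * q.2) * (a' * p.1 + b' * p.2) = 1 := by
    linear_combination e' - a' * h1 - b' * h2
  rcases Int.eq_one_or_neg_one_of_mul_eq_one h3 with h4 | h4 <;> rw [h4] at h1 h2
  · left
    ext <;> simp [h1.trans (one_mul _), h2.trans (one_mul _)]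
  · right
    ext
    · simpa using h1
    · simpa using h2

/-- Primitive lattice vectors in a strip. -/
theorem prim_count {b c l : ℝ × ℝ} (hd : 0 < dt b c) (hl : l ≠ 0) {L : ℝ} (hL : 0 ≤ L)
    (s : Finset (ℤ × ℤ)) (h : ∀ p ∈ s, IsCoprime p.1 p.2 ∧
      0 < dt ((p.1 : ℝ) • b + (p.2 : ℝ) • c) l ∧ dt ((p.1 : ℝ) • b + (p.2 : ℝ) • c) l ≤ dt b c ∧
      ‖(p.1 : ℝ) • b + (p.2 : ℝ) • c‖ ≤ L) : (s.card : ℝ) ≤ 8 * L / ‖l‖ + 3 := by
  have hn : 0 < ‖l‖ := norm_pos_iff.2 hl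
  have l1 : |l.1| ≤ ‖l‖ := norm_fst_le l
  have l2 : |l.2| ≤ ‖l‖ := norm_snd_le l
  have hi : ‖l‖ ^ 2 ≤ ip l l := by
    rw [Prod.norm_def, Real.norm_eq_abs, Real.norm_eq_abs]
    simp only [ip]
    rcases le_total |l.1| |l.2| with k | k
    · rw [max_eq_right k, sq_abs]
      nlinarith [mul_self_nonneg l.1]
    · rw [max_eq_left k, sq_abs]
      nlinarith [mul_self_nonneg l.2]
  have hi0 : 0 < ip l l := (pow_pos hn 2).trans_le hi
  have := strip_count' s (fun p => (dt ((p.1 : ℝ) • b + (p.2 : ℝ) • c) l / dt b c,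
    ip ((p.1 : ℝ) • b + (p.2 : ℝ) • c) l / ip l l)) (Y := 2 * L / ‖l‖) (by positivity)
    (fun p hp => ?_) fun p hp q hq hpq => ?_
  · refine this.trans (le_of_eq ?_)
    ring
  · obtain ⟨-, a1, a2, a3⟩ := h p hp
    refine ⟨div_pos a1 hd, (div_le_one hd).2 a2, ?_⟩
    generalize (p.1 : ℝ) • b + (p.2 : ℝ) • c = g at a3
    have g1 : |g.1| ≤ L := (norm_fst_le g).trans a3
    have g2 : |g.2| ≤ L := (norm_snd_le g).trans a3
    have a4 : |ip g l| ≤ 2 * L * ‖l‖ := by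
      calc |ip g l| ≤ |g.1 * l.1| + |g.2 * l.2| := abs_add_le _ _
        _ = |g.1| * |l.1| + |g.2| * |l.2| := by rw [abs_mul, abs_mul]
        _ ≤ L * ‖l‖ + L * ‖l‖ := by gcongr
        _ = _ := by ring
    simp only
    rw [abs_div, abs_of_pos hi0]
    calc |ip g l| / ip l l ≤ 2 * L * ‖l‖ / ‖l‖ ^ 2 := by gcongr
      _ = _ := by field_simp
  · have e : dt (dt ((p.1 : ℝ) • b + (p.2 : ℝ) • c) l / dt b c,
        ip ((p.1 : ℝ) • b + (p.2 : ℝ) • c) l / ip l l)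
        (dt ((q.1 : ℝ) • b + (q.2 : ℝ) • c) l / dt b c,
        ip ((q.1 : ℝ) • b + (q.2 : ℝ) • c) l / ip l l) = ((p.1 * q.2 - p.2 * q.1 : ℤ) : ℝ) := by
      rw [dt]
      simp only
      field_simp
      simp only [dt, ip, Prod.fst_add, Prod.snd_add, Prod.smul_fst, Prod.smul_snd, smul_eq_mul]
      push_cast
      ring
    rw [e, ← Int.cast_abs]
    have hne : p.1 * q.2 - p.2 * q.1 ≠ 0 := fun h0 => by
      rcases cop_par (h p hp).1 (h q hq).1 h0 with k | k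
      · exact hpq k.symm
      · have a1 := (h p hp).2.1
        have a2 := (h q hq).2.1
        rw [k] at a2
        simp only [dt, Prod.fst_add, Prod.snd_add, Prod.smul_fst, Prod.smul_snd, smul_eq_mul,
          Prod.fst_neg, Prod.snd_neg, Int.cast_neg] at a1 a2
        linarith
    exact_mod_cast Int.one_le_abs hne

end Pool.Agent.TW
end

-- part Pool.Agent.Lib.MP_4eaecc_an.E1a
section

/-! Cylinders: overlaps and angles. The simple cylinder of `P` is parallelogram `2`, with core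
`P 0` and crossing `P 3`; its form is `whit P (ac (sinv P) e₃)`. If `P 0` and `P 1` are parallel,
parallelograms `0` and `1` make a cylinder with core `P 0 + P 1` and form
`whit P (ac (sinv P) e₂)`. -/

namespace Pool.Agent.TW

open Matrix MeasureTheory Filter Topology
open scoped ENNReal NNReal

/-- The core, and the crossing modulo the core. -/
def ty (P : Mat) : Z4 × Mat := (P 0, fun i j => P 0 i * P 3 j - P 0 j * P 3 i)

def Dbl (y : Pt) (P : Mat) : Prop := dt (hol y (P 0)) (hol y (P 1)) = 0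

theorem ty_neg (P : Mat) : ty (-P) = (-P 0, (ty P).2) := by
  refine Prod.ext rfl ?_
  funext i j
  simp [ty]

theorem ty_eq {P P' : Mat} (h : Symp P) (k : ty P' = ty P) :
    P' 0 = P 0 ∧ ∃ n : ℤ, P' 3 = P 3 + n • P 0 := by
  have h0 : P' 0 = P 0 := congrArg Prod.fst k
  have h1 : ∀ i j, P' 0 i * P' 3 j - P' 0 j * P' 3 i = P 0 i * P 3 j - P 0 j * P 3 i :=
    fun i j => congrFun (congrFun (congrArg Prod.snd k) i) j
  have h2 : (P * sinv P) 0 0 = 1 := by rw [h.mul_sinv]; rfl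
  rw [Matrix.mul_apply, Fin.sum_univ_four] at h2
  rw [h0] at h1
  refine ⟨h0, (P' 3 0 - P 3 0) * sinv P 0 0 + (P' 3 1 - P 3 1) * sinv P 1 0 +
    (P' 3 2 - P 3 2) * sinv P 2 0 + (P' 3 3 - P 3 3) * sinv P 3 0, funext fun i => ?_⟩
  rw [Pi.add_apply, Pi.smul_apply, smul_eq_mul]
  linear_combination (-(P' 3 i - P 3 i)) * h2 + sinv P 0 0 * h1 0 i + sinv P 1 0 * h1 1 i +
    sinv P 2 0 * h1 2 i + sinv P 3 0 * h1 3 i

theorem e1a_int {y : Pt} (W : WC y) {P : Mat} (h : Reach y P) (f : Fin 3 → ℝ) :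
    ∫ x, f (W.C P x) ∂W.m = ∑ i, ar (acP P y) i * f i := by
  have := W.fin
  rw [← integral_map (W.Cm P).aemeasurable (measurable_of_finite f).aestronglyMeasurable,
    integral_fintype Integrable.of_finite]
  refine Finset.sum_congr rfl fun i _ => ?_
  rw [map_measureReal_apply (W.Cm P) (measurableSet_singleton i), smul_eq_mul, ← W.Ca P h i]
  rfl

theorem WC.total {y : Pt} (W : WC y) (h : y ∈ Cell) : W.m.real Set.univ = area y := by
  have e := e1a_int W (Reach.refl h) fun _ => 1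
  rw [integral_const, smul_eq_mul, mul_one, acP_one, Fin.sum_univ_three] at e
  rw [e, area_eq]
  ring

theorem e1a_Om (v w : Z4) : ∃ n : ℤ, Om (cs v) (cs w) = n :=
  ⟨(v 0 + v 1) * w 2 - (w 0 + w 1) * v 2 + v 0 * w 3 - w 0 * v 3, by
    simp only [Om, cs]
    push_cast
    ring⟩

theorem e1a_ac {P : Mat} (h : Symp P) (a : V) : ac P (ac (sinv P) a) = a := by
  rw [← ac_mul, h.mul_sinv, ac_one]

/-- Two forms that are constant on a union of parallelograms and vanish elsewhere. -/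
theorem e1a_core {y : Pt} (W : WC y) {P P' : Mat} (h : Reach y P) (h' : Reach y P') (e : Z4)
    (s : Fin 3 → Prop) [DecidablePred s] {g g' : ℝ × ℝ} {a a' : ℝ} (ha : 0 < a) (ha' : 0 < a')
    (hg : ∀ i, grad (acP P y) i (cs e) = if s i then (-g.2 / a, g.1 / a) else 0)
    (hg' : ∀ i, grad (acP P' y) i (cs e) = if s i then (-g'.2 / a', g'.1 / a') else 0)
    (hm : W.m.real {x | s (W.C P' x)} = a')
    (o : W.m {x | s (W.C P x) ∧ s (W.C P' x)} ≠ 0) (d : dt g g' ≠ 0) : a ≤ |dt g g'| := by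
  have := W.fin
  have q := W.Q _ (W.whit P h (ac (sinv P) (cs e))) _ (W.whit P' h' (ac (sinv P') (cs e)))
  obtain ⟨n, hn⟩ := e1a_Om (sinv P *ᵥ e) (sinv P' *ᵥ e)
  rw [← ac_cs, ← ac_cs] at hn
  simp only [e1a_ac h.symp, e1a_ac h'.symp, hg, hg', hn] at q
  have hT : MeasurableSet {x | s (W.C P x) ∧ s (W.C P' x)} :=
    (W.Cm P (Set.toFinite {i | s i}).measurableSet).inter
      (W.Cm P' (Set.toFinite {i | s i}).measurableSet)
  have e1 : ∀ x, dt (if s (W.C P x) then (-g.2 / a, g.1 / a) else 0)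
      (if s (W.C P' x) then (-g'.2 / a', g'.1 / a') else 0) =
      {x | s (W.C P x) ∧ s (W.C P' x)}.indicator (fun _ => dt g g' / (a * a')) x := fun x => by
    by_cases h1 : s (W.C P x) <;> by_cases h2 : s (W.C P' x) <;>
      simp [h1, h2, Set.indicator, dt]
    field_simp
    ring
  simp only [e1] at q
  rw [integral_indicator_const _ hT, smul_eq_mul] at q
  have m0 : 0 < W.m.real {x | s (W.C P x) ∧ s (W.C P' x)} :=
    ENNReal.toReal_pos o (measure_ne_top _ _)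
  have m1 : W.m.real {x | s (W.C P x) ∧ s (W.C P' x)} ≤ a' :=
    (measureReal_mono fun x hx => hx.2).trans hm.le
  generalize W.m.real {x | s (W.C P x) ∧ s (W.C P' x)} = μ at q m0 m1
  have n0 : n ≠ 0 := by
    intro z
    rw [z, Int.cast_zero] at q
    exact (mul_ne_zero m0.ne' (div_ne_zero d (by positivity))) q
  have n1 : (1 : ℝ) ≤ |(n : ℝ)| := by exact_mod_cast Int.one_le_abs n0
  rw [← q, abs_mul, abs_div, abs_of_pos m0, abs_of_pos (mul_pos ha ha'), ← mul_div_assoc,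
    le_div_iff₀ (mul_pos ha ha')] at n1
  have n2 := mul_le_mul_of_nonneg_right m1 (abs_nonneg (dt g g'))
  exact le_of_mul_le_mul_right (a := a') (by linarith) ha'

theorem e1a_g3 (y : Pt) (i : Fin 3) : grad y i (cs ![0, 0, 0, 1]) =
    if i = 2 then (-(vec y 0).2 / ar y 2, (vec y 0).1 / ar y 2) else 0 := by
  fin_cases i <;> simp [grad, sp, sq, cs, vec]

theorem e1a_g2 {y : Pt} (h : y ∈ Cell) (e : dt (vec y 0) (vec y 1) = 0) (i : Fin 3) :
    grad y i (cs ![0, 0, 1, 0]) = if i ≠ 2 then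
      (-(vec y 0 + vec y 1).2 / (ar y 0 + ar y 1), (vec y 0 + vec y 1).1 / (ar y 0 + ar y 1))
      else 0 := by
  have h0 := h 0
  have h1 := h 1
  have h2 := add_pos h0 h1
  have a0 : ar y 0 = y.1 0 * y.2 2 - y.2 0 * y.1 2 := rfl
  have a1 : ar y 1 = y.1 1 * y.2 2 - y.2 1 * y.1 2 := rfl
  have e' : y.1 0 * y.2 1 - y.2 0 * y.1 1 = 0 := e
  have k1 : y.1 0 * ar y 1 = y.1 1 * ar y 0 := by
    rw [a0, a1]; linear_combination (-y.1 2) * e'
  have k2 : y.2 0 * ar y 1 = y.2 1 * ar y 0 := by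
    rw [a0, a1]; linear_combination (-y.2 2) * e'
  fin_cases i
  · simp [grad, sp, sq, cs, vec]
    constructor
    · field_simp
      linarith
    · field_simp
      linarith
  · simp [grad, sp, sq, cs, vec]
    constructor
    · field_simp
      linarith
    · field_simp
      linarith
  · simp [grad, sp, sq, cs]

theorem e1a_hol (y : Pt) (P : Mat) :
    hol y (P 0 + P 1) = vec (acP P y) 0 + vec (acP P y) 1 := by
  rw [vec_acP, vec_acP]
  simp [hol, add_ev]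

/-- The pairing of the two cylinder forms is an integer. -/
theorem WC.angle {y : Pt} (W : WC y) {P P' : Mat} (h : Reach y P) (h' : Reach y P')
    (o : W.m {x | W.C P x = 2 ∧ W.C P' x = 2} ≠ 0) (d : dt (hol y (P 0)) (hol y (P' 0)) ≠ 0) :
    ar (acP P y) 2 ≤ |dt (hol y (P 0)) (hol y (P' 0))| :=
  e1a_core W h h' ![0, 0, 0, 1] (fun i => i = 2) (h.cell 2) (h'.cell 2) (e1a_g3 _) (e1a_g3 _)
    (W.Ca P' h' 2) o d

theorem WC.angle2 {y : Pt} (W : WC y) {P P' : Mat} (h : Reach y P) (h' : Reach y P')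
    (e : Dbl y P) (e' : Dbl y P') (o : W.m {x | W.C P x ≠ 2 ∧ W.C P' x ≠ 2} ≠ 0)
    (d : dt (hol y (P 0 + P 1)) (hol y (P' 0 + P' 1)) ≠ 0) :
    area y - ar (acP P y) 2 ≤ |dt (hol y (P 0 + P 1)) (hol y (P' 0 + P' 1))| := by
  have := W.fin
  have a : area y - ar (acP P y) 2 = ar (acP P y) 0 + ar (acP P y) 1 := by
    rw [← h.area, area_eq]
    ring
  rw [a]
  rw [e1a_hol, e1a_hol] at d ⊢
  refine e1a_core W h h' ![0, 0, 1, 0] (fun i => i ≠ 2) (add_pos (h.cell 0) (h.cell 1))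
    (add_pos (h'.cell 0) (h'.cell 1)) (e1a_g2 h.cell e) (e1a_g2 h'.cell e') ?_ o d
  have hm : MeasurableSet {x | W.C P' x = 2} := W.Cm P' (measurableSet_singleton 2)
  have e1 := measureReal_add_measureReal_compl (μ := W.m) hm
  rw [W.total h.cell0, W.Ca P' h' 2, ← h'.area, area_eq] at e1
  have e2 : {x | W.C P' x ≠ 2} = {x | W.C P' x = 2}ᶜ := rfl
  rw [e2]
  linarith

end Pool.Agent.TW
end

-- part Pool.Agent.Lib.MP_4eaecc_an.E2
section

/-! Parents and children of cylinders. -/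

namespace Pool.Agent.TW

open Matrix MeasureTheory Filter Topology
open scoped ENNReal NNReal

/-- `r2 += j l1`. -/
def e2T (j : ℤ) : Mat := !![1, 0, 0, 0; 0, 1, j, 0; 0, 0, 1, 0; 0, 0, 0, 1]

/-- `e2T` followed by `Sp` or `Sm`. -/
def e2G (ε k : ℤ) : Mat := !![1, 0, 0, 0; 0, 1, ε * (k - 1), 0; ε, ε, k, 0; 0, 0, 0, 1]

theorem e2_hol (y : Pt) (e : Z4) : hol y e = (e 0 : ℝ) • vec y 0 + (e 1 : ℝ) • vec y 1 +
    (e 2 : ℝ) • vec y 2 + (e 3 : ℝ) • vec y 3 := by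
  ext <;> simp [hol, vec, ev_four]

theorem e2_ar0 (y : Pt) : ar y 0 = dt (vec y 0) (vec y 2) := rfl
theorem e2_ar1 (y : Pt) : ar y 1 = dt (vec y 1) (vec y 2) := rfl
theorem e2_ar2 (y : Pt) : ar y 2 = dt (vec y 0) (vec y 3) := rfl

theorem e2_cell {y : Pt} (h0 : 0 < ar y 0) (h1 : 0 < ar y 1) (h2 : 0 < ar y 2) : y ∈ Cell := by
  intro i
  fin_cases i
  · exact h0
  · exact h1
  · exact h2

theorem e2_row (A B : Mat) (i : Fin 4) : (A * B) i = A i ᵥ* B := rfl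

theorem e2_vm (a b c d : ℤ) (B : Mat) :
    ![a, b, c, d] ᵥ* B = a • B 0 + b • B 1 + c • B 2 + d • B 3 := by
  funext j
  simp [vecMul, dotProduct, Fin.sum_univ_four]

theorem e2_reachT {y : Pt} (h : y ∈ Cell) (j : ℤ) : Reach y (e2T j) := by
  induction j using Int.induction_on with
  | zero =>
    have : e2T 0 = 1 := by
      ext i j; fin_cases i <;> fin_cases j <;> simp [e2T]
    rw [this]; exact Reach.refl h
  | succ j ih =>
    have : e2T ((j : ℤ) + 1) = Tq * e2T j := by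
      ext i l; fin_cases i <;> fin_cases l <;>
        simp [e2T, Tq, Matrix.mul_apply, Fin.sum_univ_four]
    rw [this]
    exact ih.trans (reach_free ih.cell (by simp))
  | pred j ih =>
    have : e2T (-(j : ℤ) - 1) = Tr * e2T (-(j : ℤ)) := by
      ext i l; fin_cases i <;> fin_cases l <;>
        simp [e2T, Tr, Matrix.mul_apply, Fin.sum_univ_four, sub_eq_add_neg]
    rw [this]
    exact ih.trans (reach_free ih.cell (by simp))

theorem e2_G0 (y : Pt) (ε k : ℤ) : vec (acP (e2G ε k) y) 0 = vec y 0 := by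
  rw [vec_acP, e2_hol]; simp [e2G]

theorem e2_G1 (y : Pt) (ε k : ℤ) :
    vec (acP (e2G ε k) y) 1 = vec y 1 + ((ε : ℝ) * ((k : ℝ) - 1)) • vec y 2 := by
  rw [vec_acP, e2_hol]; simp [e2G]

theorem e2_G2 (y : Pt) (ε k : ℤ) :
    vec (acP (e2G ε k) y) 2 = (k : ℝ) • vec y 2 + (ε : ℝ) • (vec y 0 + vec y 1) := by
  rw [vec_acP, e2_hol]; simp [e2G]; abel

theorem e2_G3 (y : Pt) (ε k : ℤ) : vec (acP (e2G ε k) y) 3 = vec y 3 := by
  rw [vec_acP, e2_hol]; simp [e2G]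

theorem e2_dt (y : Pt) (m n : ℝ) : dt (vec y 0) (m • vec y 2 + n • (vec y 0 + vec y 1)) =
    m * ar y 0 + n * dt (vec y 0) (vec y 1) := by
  simp only [e2_ar0, dt, Prod.fst_add, Prod.snd_add, Prod.smul_fst, Prod.smul_snd, smul_eq_mul]
  ring

theorem e2_Gsum (y : Pt) {ε : ℤ} (he : ε = 1 ∨ ε = -1) (k : ℤ) :
    ar (acP (e2G ε k) y) 0 + ar (acP (e2G ε k) y) 1 = ar y 0 + ar y 1 := by
  simp only [e2_ar0, e2_ar1, e2_G0, e2_G1, e2_G2]
  rcases he with rfl | rfl <;>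
    simp only [dt, Prod.fst_add, Prod.snd_add, Prod.smul_fst, Prod.smul_snd, smul_eq_mul] <;>
    push_cast <;> ring

theorem e2_reachG {y : Pt} (h : y ∈ Cell) {ε : ℤ} (he : ε = 1 ∨ ε = -1) (k : ℤ)
    (h1 : 0 < k * ar y 0 + ε * dt (vec y 0) (vec y 1))
    (h2 : k * ar y 0 + ε * dt (vec y 0) (vec y 1) < ar y 0 + ar y 1) : Reach y (e2G ε k) := by
  have a0 : ar (acP (e2G ε k) y) 0 = k * ar y 0 + ε * dt (vec y 0) (vec y 1) := by
    rw [e2_ar0, e2_G0, e2_G2, e2_dt]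
  have hc : acP (e2G ε k) y ∈ Cell := by
    refine e2_cell (a0 ▸ h1) ?_ ?_
    · have := e2_Gsum y he k
      linarith
    · rw [e2_ar2, e2_G0, e2_G3]; exact h 2
  have hT := e2_reachT h (ε * (k - 1))
  rcases he with rfl | rfl
  · have e : e2G 1 k = Sp * e2T (1 * (k - 1)) := by
      ext i l; fin_cases i <;> fin_cases l <;>
        simp [e2T, e2G, Sp, Matrix.mul_apply, Fin.sum_univ_four]
    rw [e] at hc ⊢
    exact hT.trans (reach_cond hT.cell (by simp) (by rwa [← acP_mul]))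
  · have e : e2G (-1) k = Sm * e2T (-1 * (k - 1)) := by
      ext i l; fin_cases i <;> fin_cases l <;>
        simp [e2T, e2G, Sm, Matrix.mul_apply, Fin.sum_univ_four]
    rw [e] at hc ⊢
    exact hT.trans (reach_cond hT.cell (by simp) (by rwa [← acP_mul]))

theorem e2_farey (N : ℕ) : ∀ {y : Pt} (_ : y ∈ Cell) {m n : ℤ} (_ : n.natAbs = N)
    (_ : IsCoprime m n) (_ : 0 < m * ar y 0 + n * dt (vec y 0) (vec y 1))
    (_ : m * ar y 0 + n * dt (vec y 0) (vec y 1) < ar y 0 + ar y 1),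
    ∃ Q, Reach y Q ∧ Q 0 = ![1, 0, 0, 0] ∧ Q 3 = ![0, 0, 0, 1] ∧ Q 2 = ![n, n, m, 0] ∧
      ∃ u v : ℤ, Q 1 = ![u - 1, u, v, 0] := by
  induction N using Nat.strong_induction_on with
  | _ N ih =>
  intro y h m n hN c h1 h2
  have p0 := h 0
  have p1 := h 1
  by_cases hn : n = 0
  · subst hn
    have hm : m = 1 := by
      rcases Int.isUnit_iff.1 (isCoprime_zero_right.1 c) with rfl | rfl
      · rfl
      · exfalso; simp at h1; linarith
    subst hm
    refine ⟨1, Reach.refl h, ?_, ?_, ?_, 1, 0, ?_⟩ <;>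
      (funext j; fin_cases j <;> simp [Matrix.one_apply])
  · obtain ⟨ε, q, he, hq, rfl⟩ : ∃ ε q : ℤ, (ε = 1 ∨ ε = -1) ∧ 0 < q ∧ n = ε * q := by
      rcases lt_or_gt_of_ne hn with k | k
      · exact ⟨-1, -n, Or.inr rfl, by omega, by ring⟩
      · exact ⟨1, n, Or.inl rfl, k, by ring⟩
    obtain ⟨k, r, hr0, hrq, hk⟩ : ∃ k r : ℤ, 0 ≤ r ∧ r < q ∧ m = k * q - r := by
      refine ⟨-((-m) / q), (-m) % q, Int.emod_nonneg _ hq.ne', Int.emod_lt_of_pos _ hq, ?_⟩
      have := Int.emod_add_mul_ediv (-m) q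
      linarith
    subst hk
    have hee : ε * ε = 1 := by rcases he with rfl | rfl <;> norm_num
    have heR : (ε : ℝ) * ε = 1 := by exact_mod_cast hee
    have hqR : (0 : ℝ) < q := by exact_mod_cast hq
    have hr0R : (0 : ℝ) ≤ r := by exact_mod_cast hr0
    have hrqR : (r : ℝ) + 1 ≤ q := by exact_mod_cast hrq
    push_cast at h1 h2
    set d := dt (vec y 0) (vec y 1) with hd
    have key : (q : ℝ) * (k * ar y 0 + ε * d) =
        ((k * q - r) * ar y 0 + ε * q * d) + r * ar y 0 := by ring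
    have g1 : 0 < k * ar y 0 + ε * d := by
      have : 0 < (q : ℝ) * (k * ar y 0 + ε * d) := by
        rw [key]; nlinarith [mul_nonneg hr0R p0.le]
      exact (mul_pos_iff_of_pos_left hqR).1 this
    have g2 : k * ar y 0 + ε * d < ar y 0 + ar y 1 := by
      have : (q : ℝ) * (k * ar y 0 + ε * d) < q * (ar y 0 + ar y 1) := by
        rw [key]
        nlinarith [mul_nonneg hr0R p1.le, mul_nonneg (sub_nonneg.2 hrqR) (add_pos p0 p1).le]
      exact lt_of_mul_lt_mul_left this hqR.le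
    have hG := e2_reachG h he k g1 g2
    have a0 : ar (acP (e2G ε k) y) 0 = k * ar y 0 + ε * d := by
      rw [e2_ar0, e2_G0, e2_G2, e2_dt]
    have d0 : dt (vec (acP (e2G ε k) y) 0) (vec (acP (e2G ε k) y) 1) =
        d + ε * (k - 1) * ar y 0 := by
      rw [e2_G0, e2_G1, hd, e2_ar0]
      simp only [dt, Prod.fst_add, Prod.snd_add, Prod.smul_fst, Prod.smul_snd, smul_eq_mul]
      ring
    have f0 : ((q - r : ℤ) : ℝ) * ar (acP (e2G ε k) y) 0 + ((ε * r : ℤ) : ℝ) *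
        dt (vec (acP (e2G ε k) y) 0) (vec (acP (e2G ε k) y) 1) =
        (k * q - r) * ar y 0 + ε * q * d := by
      rw [a0, d0]; push_cast
      linear_combination (r * (k - 1) * ar y 0) * heR
    have hlt : (ε * r).natAbs < N := by
      rw [← hN]
      rcases he with rfl | rfl <;> omega
    have cop : IsCoprime (q - r) (ε * r) := by
      obtain ⟨a, b, hab⟩ := c
      exact ⟨a * k + b * ε, ε * (a * (k - 1) + b * ε), by
        linear_combination hab + (r * (a * (k - 1) + b * ε)) * hee⟩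
    obtain ⟨Q, hQ, q0, q3, q2, u, v, q1⟩ := ih _ hlt hG.cell rfl cop (by rw [f0]; exact h1)
      (by rw [f0, e2_Gsum y he k]; exact h2)
    refine ⟨Q * e2G ε k, hG.trans hQ, ?_, ?_, ?_, u + v * ε, u * (ε * (k - 1)) + v * k, ?_⟩
    · rw [e2_row, q0, e2_vm]; funext j; fin_cases j <;> simp [e2G]
    · rw [e2_row, q3, e2_vm]; funext j; fin_cases j <;> simp [e2G]
    · rw [e2_row, q2, e2_vm]; funext j; fin_cases j <;> simp [e2G]
      · ring
      · ring
      · linear_combination (r * (k - 1)) * hee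
    · rw [e2_row, q1, e2_vm]; funext j; fin_cases j <;> simp [e2G]
      · ring

/-- Every primitive vector of the lattice spanned by `l1` and `r1 + r2` that lies in the strip is
reached by the moves `Tq, Tr, Sp, Sm`. Induction on `|n|`. -/
theorem farey {y : Pt} (h : y ∈ Cell) {m n : ℤ} (c : IsCoprime m n)
    (h1 : 0 < dt (vec y 0) ((m : ℝ) • vec y 2 + (n : ℝ) • (vec y 0 + vec y 1)))
    (h2 : dt (vec y 0) ((m : ℝ) • vec y 2 + (n : ℝ) • (vec y 0 + vec y 1)) < ar y 0 + ar y 1) :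
    ∃ Q, Reach y Q ∧ Q 0 = ![1, 0, 0, 0] ∧ Q 3 = ![0, 0, 0, 1] ∧ Q 2 = ![n, n, m, 0] ∧
      ∃ u v : ℤ, Q 1 = ![u - 1, u, v, 0] := by
  rw [e2_dt] at h1 h2
  exact e2_farey _ h rfl c h1 h2

theorem e2_hol4 (y : Pt) (a b c d : ℤ) : hol y ![a, b, c, d] = (a : ℝ) • vec y 0 +
    (b : ℝ) • vec y 1 + (c : ℝ) • vec y 2 + (d : ℝ) • vec y 3 := by
  rw [e2_hol]; simp

theorem e2_hol_add (y : Pt) (e f : Z4) : hol y (e + f) = hol y e + hol y f := by
  simp [hol, add_ev]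

theorem e2_hol_smul (y : Pt) (n : ℤ) (e : Z4) : hol y (n • e) = (n : ℝ) • hol y e := by
  ext <;> simp [hol, ev_four] <;> ring

theorem e2_hol_mul (y : Pt) (Q P : Mat) (i : Fin 4) :
    hol y ((Q * P) i) = hol (acP P y) (Q i) := by
  rw [hol_acP, e2_row]

theorem e2_e0 (P : Mat) : ![1, 0, 0, 0] ᵥ* P = P 0 := by rw [e2_vm]; simp

theorem e2_e3 (P : Mat) : ![0, 0, 0, 1] ᵥ* P = P 3 := by rw [e2_vm]; simp

/-- The case of a short lattice vector transverse to the core. -/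
theorem e2_big {x : Pt} (h : x ∈ Cell) {m n : ℤ} (c : IsCoprime m n)
    (h1 : 0 < dt (vec x 0) ((m : ℝ) • (vec x 0 + vec x 1) + (n : ℝ) • vec x 2))
    (h2 : dt (vec x 0) ((m : ℝ) • (vec x 0 + vec x 1) + (n : ℝ) • vec x 2) ≤
      (ar x 0 + ar x 1) / 2) :
    ∃ Q, Reach x Q ∧ Q 0 = ![1, 0, 0, 0] ∧ Q 3 = ![0, 0, 0, 1] ∧
      (ar x 0 + ar x 1) / 2 ≤ ar (acP Q x) 1 ∧
      hol x (Q 2) = (m : ℝ) • (vec x 0 + vec x 1) + (n : ℝ) • vec x 2 := by
  have p0 := h 0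
  have p1 := h 1
  rw [add_comm ((m : ℝ) • _)] at h1 h2
  obtain ⟨Q, hQ, q0, q3, q2, -⟩ := farey h c.symm h1 (by linarith)
  have e2 : hol x (Q 2) = (n : ℝ) • vec x 2 + (m : ℝ) • (vec x 0 + vec x 1) := by
    rw [q2, e2_hol4]; simp; abel
  have e0 : hol x (Q 0) = vec x 0 := by rw [q0, e2_hol4]; simp
  have e3 : hol x (Q 3) = vec x 3 := by rw [q3, e2_hol4]; simp
  refine ⟨Q, hQ, q0, q3, ?_, by rw [e2, add_comm]⟩
  have hA := hQ.area
  rw [area_eq, area_eq, e2_ar0, e2_ar2, vec_acP, vec_acP, vec_acP, e0, e2, e3, ← e2_ar2] at hA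
  linarith

/-- The case of a short lattice vector parallel to the core. -/
theorem e2_dbl {x : Pt} (h : x ∈ Cell) {m n s t : ℤ} (c : s * m + t * n = 1)
    (h0 : dt (vec x 0) ((m : ℝ) • (vec x 0 + vec x 1) + (n : ℝ) • vec x 2) = 0)
    (h1 : 0 < dt (vec x 0) ((s : ℝ) • vec x 2 + ((-t : ℤ) : ℝ) • (vec x 0 + vec x 1)))
    (h2 : dt (vec x 0) ((s : ℝ) • vec x 2 + ((-t : ℤ) : ℝ) • (vec x 0 + vec x 1)) <
      ar x 0 + ar x 1) :
    ∃ Q, Reach x Q ∧ Q 0 = ![1, 0, 0, 0] ∧ Q 3 = ![0, 0, 0, 1] ∧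
      dt (hol x (Q 0)) (hol x (Q 1)) = 0 ∧
      hol x (Q 0) + hol x (Q 1) = (m : ℝ) • (vec x 0 + vec x 1) + (n : ℝ) • vec x 2 := by
  have p0 := h 0
  have p1 := h 1
  obtain ⟨Q, hQ, q0, q3, q2, u, v, q1⟩ := farey h (m := s) (n := -t) ⟨m, -n, by linarith⟩ h1 h2
  have e0 : hol x (Q 0) = vec x 0 := by rw [q0, e2_hol4]; simp
  have e3 : hol x (Q 3) = vec x 3 := by rw [q3, e2_hol4]; simp
  have hA := hQ.area
  rw [area_eq, area_eq, e2_ar0, e2_ar1, e2_ar2, vec_acP, vec_acP, vec_acP, vec_acP, e0, e3, q2, q1,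
    e2_hol4, e2_hol4, ← e2_ar2] at hA
  have hdet : u * s + v * t = 1 := by
    have : ((u * s + v * t - 1 : ℤ) : ℝ) * (ar x 0 + ar x 1) = 0 := by
      simp only [e2_ar0, e2_ar1, dt, Prod.fst_add, Prod.snd_add, Prod.smul_fst, Prod.smul_snd,
        smul_eq_mul] at hA ⊢
      push_cast at hA ⊢
      linear_combination hA
    have k := (mul_eq_zero.1 this).resolve_right (add_pos p0 p1).ne'
    have k' : u * s + v * t - 1 = 0 := by exact_mod_cast k
    linarith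
  have r0 : (e2T (n * u - m * v) * Q) 0 = ![1, 0, 0, 0] := by
    rw [e2_row, ← q0, ← e2_e0 Q]; rfl
  have r3 : (e2T (n * u - m * v) * Q) 3 = ![0, 0, 0, 1] := by
    rw [e2_row, ← q3, ← e2_e3 Q]; rfl
  have r1 : (e2T (n * u - m * v) * Q) 1 = ![m - 1, m, n, 0] := by
    have : e2T (n * u - m * v) 1 = ![0, 1, n * u - m * v, 0] := rfl
    rw [e2_row, this, e2_vm, q1, q2]
    funext j; fin_cases j <;> simp
    · linear_combination m * hdet - u * c
    · linear_combination m * hdet - u * c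
    · linear_combination n * hdet - v * c
  have hs : hol x ((e2T (n * u - m * v) * Q) 0) + hol x ((e2T (n * u - m * v) * Q) 1) =
      (m : ℝ) • (vec x 0 + vec x 1) + (n : ℝ) • vec x 2 := by
    rw [r0, r1, e2_hol4, e2_hol4]
    ext <;> simp <;> ring
  refine ⟨e2T (n * u - m * v) * Q, hQ.trans (e2_reachT hQ.cell _), r0, r3, ?_, hs⟩
  rw [← hs] at h0
  have : hol x ((e2T (n * u - m * v) * Q) 0) = vec x 0 := by rw [r0, e2_hol4]; simp
  rw [this] at h0 ⊢
  simp only [dt, Prod.fst_add, Prod.snd_add] at h0 ⊢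
  linear_combination h0

theorem e2_parent {x : Pt} (h : x ∈ Cell) : ∃ Q, Reach x Q ∧ Q 0 = ![1, 0, 0, 0] ∧
    Q 3 = ![0, 0, 0, 1] ∧ (((ar x 0 + ar x 1) / 2 ≤ ar (acP Q x) 1 ∧
      ‖hol x (Q 2)‖ ≤ 4 * ‖vec x 0‖ + (ar x 0 + ar x 1) / ‖vec x 0‖) ∨
      (dt (hol x (Q 0)) (hol x (Q 1)) = 0 ∧
      ‖hol x (Q 0) + hol x (Q 1)‖ ≤ 4 * ‖vec x 0‖ + (ar x 0 + ar x 1) / ‖vec x 0‖)) := by
  have p0 := h 0
  have p1 := h 1
  have hA : dt (vec x 0 + vec x 1) (vec x 2) = ar x 0 + ar x 1 := by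
    simp only [e2_ar0, e2_ar1, dt, Prod.fst_add, Prod.snd_add]; ring
  have hg : vec x 0 ≠ 0 := by
    intro k
    rw [e2_ar0, k] at p0
    simp [dt] at p0
  obtain ⟨m, n, c, b1, b2⟩ := mink (b := vec x 0 + vec x 1) (c := vec x 2) (g := vec x 0)
    (by rw [hA]; linarith) hg
  rw [hA] at b1 b2
  have hneg : ((-m : ℤ) : ℝ) • (vec x 0 + vec x 1) + ((-n : ℤ) : ℝ) • vec x 2 =
      -((m : ℝ) • (vec x 0 + vec x 1) + (n : ℝ) • vec x 2) := by
    push_cast; rw [neg_smul, neg_smul, neg_add]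
  have dneg : ∀ p q : ℝ × ℝ, dt p (-q) = -dt p q := by
    intro p q; simp only [dt, Prod.fst_neg, Prod.snd_neg]; ring
  rcases lt_trichotomy 0 (dt (vec x 0) ((m : ℝ) • (vec x 0 + vec x 1) + (n : ℝ) • vec x 2))
    with k | k | k
  · obtain ⟨Q, hQ, q0, q3, a, e⟩ := e2_big h c k (le_of_abs_le b1)
    exact ⟨Q, hQ, q0, q3, Or.inl ⟨a, e ▸ b2⟩⟩
  · obtain ⟨s, t, c⟩ := c
    have cR : (s : ℝ) * m + t * n = 1 := by exact_mod_cast c
    set D := dt (vec x 0) ((s : ℝ) • vec x 2 + ((-t : ℤ) : ℝ) • (vec x 0 + vec x 1)) with hD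
    have hk : ar x 0 = m * D := by
      have k' := k
      rw [add_comm ((m : ℝ) • _), e2_dt] at k'
      rw [hD, e2_dt]; push_cast
      linear_combination (-(ar x 0)) * cR - t * k'
    have hm : (1 : ℝ) ≤ |(m : ℝ)| := by
      have : m ≠ 0 := by
        rintro rfl
        simp at hk; linarith
      exact_mod_cast Int.one_le_abs this
    have hDa : |D| ≤ ar x 0 := by
      have : ar x 0 = |(m : ℝ)| * |D| := by rw [← abs_mul, ← hk, abs_of_pos p0]
      nlinarith [abs_nonneg D]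
    rcases lt_trichotomy 0 D with j | j | j
    · obtain ⟨Q, hQ, q0, q3, a, e⟩ := e2_dbl h c k.symm j
        (by have := le_of_abs_le hDa; linarith)
      exact ⟨Q, hQ, q0, q3, Or.inr ⟨a, e ▸ b2⟩⟩
    · exfalso; rw [← j] at hk; linarith
    · have hD' : dt (vec x 0) (((-s : ℤ) : ℝ) • vec x 2 + ((- -t : ℤ) : ℝ) • (vec x 0 + vec x 1))
          = -D := by
        rw [hD, e2_dt, e2_dt]; push_cast; ring
      obtain ⟨Q, hQ, q0, q3, a, e⟩ := e2_dbl h (m := -m) (n := -n) (s := -s) (t := -t)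
        (by linarith) (by rw [hneg, dneg, ← k, neg_zero]) (by rw [hD']; linarith)
        (by rw [hD']; have := neg_le_of_abs_le hDa; linarith)
      exact ⟨Q, hQ, q0, q3, Or.inr ⟨a, by rw [e, hneg, norm_neg]; exact b2⟩⟩
  · obtain ⟨Q, hQ, q0, q3, a, e⟩ := e2_big h c.neg_neg (by rw [hneg, dneg]; linarith)
      (by rw [hneg, dneg]; have := neg_le_of_abs_le b1; linarith)
    exact ⟨Q, hQ, q0, q3, Or.inl ⟨a, by rw [e, hneg, norm_neg]; exact b2⟩⟩

theorem parent {y : Pt} {P : Mat} (h : Reach y P) (s : ar (acP P y) 2 < area y / 4) :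
    ∃ Q, Reach y Q ∧ Q 0 = P 0 ∧ Q 3 = P 3 ∧
      ((area y / 4 ≤ ar (acP Q y) 1 ∧
        ‖hol y (Q 2)‖ ≤ 4 * ‖hol y (P 0)‖ + area y / ‖hol y (P 0)‖) ∨
      (Dbl y Q ∧ ‖hol y (Q 0 + Q 1)‖ ≤ 4 * ‖hol y (P 0)‖ + area y / ‖hol y (P 0)‖)) := by
  obtain ⟨Q, hQ, q0, q3, k⟩ := e2_parent h.cell
  have hA := h.area
  rw [area_eq] at hA
  have p0 := h.cell 0
  have p1 := h.cell 1
  have p2 := h.cell 2
  have hb : (ar (acP P y) 0 + ar (acP P y) 1) / ‖hol y (P 0)‖ ≤ area y / ‖hol y (P 0)‖ :=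
    div_le_div_of_nonneg_right (by linarith) (norm_nonneg _)
  rw [vec_acP] at k
  refine ⟨Q * P, h.trans hQ, by rw [e2_row, q0, e2_e0], by rw [e2_row, q3, e2_e3], ?_⟩
  rcases k with ⟨k1, k2⟩ | ⟨k1, k2⟩
  · refine Or.inl ⟨?_, ?_⟩
    · rw [acP_mul]; linarith
    · rw [e2_hol_mul]; linarith
  · refine Or.inr ⟨?_, ?_⟩
    · rw [Dbl, e2_hol_mul, e2_hol_mul]; exact k1
    · rw [e2_hol_add, e2_hol_mul, e2_hol_mul]; linarith

/-- The shape of a child. -/
theorem e2_child {Q0 Q : Mat} (h0 : Symp Q0) (h : Symp Q) (k : ty (rho * Q) = ty (rho * Q0)) :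
    Q 2 = Q0 2 ∧ (∃ n : ℤ, Q 1 = Q0 1 + n • Q0 2) ∧ ∃ a b c d : ℤ, a * d - b * c = 1 ∧
      Q 0 = a • Q0 0 + b • (Q0 2 + Q0 3) ∧ Q 3 = c • Q0 0 + d • (Q0 2 + Q0 3) - Q0 2 := by
  have hr : Symp rho := IsGen.symp (Or.inl rfl)
  have r0 : ∀ A : Mat, (rho * A) 0 = A 2 := by
    intro A
    have : rho 0 = ![0, 0, 1, 0] := rfl
    rw [e2_row, this, e2_vm]; simp
  have r3 : ∀ A : Mat, (rho * A) 3 = -A 1 := by
    intro A
    have : rho 3 = ![0, -1, 0, 0] := rfl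
    rw [e2_row, this, e2_vm]; simp
  obtain ⟨k2, n, k1⟩ := ty_eq (hr.mul h0) k
  rw [r0, r0] at k2
  rw [r3, r3, r0] at k1
  have k1' : Q 1 = Q0 1 + (-n) • Q0 2 := by
    rw [neg_smul, ← neg_neg (Q 1), k1]; abel
  refine ⟨k2, ⟨-n, k1'⟩, ?_⟩
  set R := Q * sinv Q0 with hR
  have hRs : Symp R := h.mul h0.sinv
  have hQ : R * Q0 = Q := by rw [hR, Matrix.mul_assoc, h0.sinv_mul, Matrix.mul_one]
  have one : ∀ i, Q0 i ᵥ* sinv Q0 = (1 : Mat) i := by
    intro i; rw [← e2_row, h0.mul_sinv]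
  have R2 : R 2 = (1 : Mat) 2 := by rw [hR, e2_row, k2, one]
  have R1 : R 1 = (1 : Mat) 1 + (-n) • (1 : Mat) 2 := by
    rw [hR, e2_row, k1', add_vecMul, smul_vecMul, one, one]
  have dual := hRs.dual
  have w : ∀ i j, -(R i 0 * R j 3) - R i 1 * R j 2 + R i 1 * R j 3 + R i 2 * R j 1 +
      R i 3 * R j 0 - R i 3 * R j 1 = Ji i j := by
    intro i j
    rw [← congrFun (congrFun dual i) j]
    simp [Ji, Matrix.mul_apply, Fin.sum_univ_four]
    ring
  have w02 := w 0 2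
  have w01 := w 0 1
  have w32 := w 3 2
  have w31 := w 3 1
  have w03 := w 0 3
  rw [R2] at w02 w32
  rw [R1] at w01 w31
  simp [Ji] at w02 w32 w01 w31 w03
  have row : ∀ i, Q i = R i 0 • Q0 0 + R i 1 • Q0 1 + R i 2 • Q0 2 + R i 3 • Q0 3 := by
    intro i
    rw [← e2_vm, ← congrFun hQ i, e2_row]
    congr 1
    funext j; fin_cases j <;> rfl
  have a2 : R 0 2 = R 0 3 := by rw [w02] at w01; linarith
  have d2 : R 3 2 = R 3 3 - 1 := by rw [w32] at w31; linarith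
  refine ⟨R 0 0, R 0 3, R 3 0, R 3 3, ?_, ?_, ?_⟩
  · rw [w02, w32] at w03; linarith
  · rw [row 0, w02, a2]; module
  · rw [row 3, w32, d2]; module

/-- The children of the cylinder of `rho * Q0` are primitive in the lattice spanned by `Q0 0` and
`Q0 2 + Q0 3`, and `Q 0` determines `ty Q`. -/
theorem children {y : Pt} {Q0 : Mat} (h0 : Reach y Q0) {L : ℝ} (hL : 0 ≤ L) (s : Finset Mat)
    (h : ∀ Q ∈ s, Reach y Q ∧ ty (rho * Q) = ty (rho * Q0) ∧ ‖hol y (Q 0)‖ ≤ L) :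
    ((s.image ty).card : ℝ) ≤ 8 * L / ‖hol y (Q0 2)‖ + 3 := by
  classical
  have p0 := h0.cell 0
  have p1 := h0.cell 1
  have p2 := h0.cell 2
  have hA := h0.area
  rw [area_eq] at hA
  have hbc : dt (hol y (Q0 0)) (hol y (Q0 2) + hol y (Q0 3)) =
      ar (acP Q0 y) 0 + ar (acP Q0 y) 2 := by
    simp only [e2_ar0, e2_ar2, vec_acP, dt, Prod.fst_add, Prod.snd_add]; ring
  have hl : hol y (Q0 2) ≠ 0 := by
    intro k
    rw [e2_ar0, vec_acP, vec_acP, k] at p0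
    simp [dt] at p0
  let F : ℤ × ℤ → Z4 × Mat := fun p => (p.1 • Q0 0 + p.2 • (Q0 2 + Q0 3), fun i j =>
    Q0 0 i * (Q0 2 j + Q0 3 j) - Q0 0 j * (Q0 2 i + Q0 3 i) -
      ((p.1 * Q0 0 i + p.2 * (Q0 2 i + Q0 3 i)) * Q0 2 j -
        (p.1 * Q0 0 j + p.2 * (Q0 2 j + Q0 3 j)) * Q0 2 i))
  have key : ∀ Q ∈ s, ∃ p : ℤ × ℤ, ty Q = F p ∧ IsCoprime p.1 p.2 ∧
      0 < dt ((p.1 : ℝ) • hol y (Q0 0) + (p.2 : ℝ) • (hol y (Q0 2) + hol y (Q0 3)))
        (hol y (Q0 2)) ∧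
      dt ((p.1 : ℝ) • hol y (Q0 0) + (p.2 : ℝ) • (hol y (Q0 2) + hol y (Q0 3))) (hol y (Q0 2)) ≤
        dt (hol y (Q0 0)) (hol y (Q0 2) + hol y (Q0 3)) ∧
      ‖(p.1 : ℝ) • hol y (Q0 0) + (p.2 : ℝ) • (hol y (Q0 2) + hol y (Q0 3))‖ ≤ L := by
    intro Q hQ
    obtain ⟨hR, ht, hn⟩ := h Q hQ
    obtain ⟨k2, ⟨n, k1⟩, a, b, c, d, det, k0, k3⟩ := e2_child h0.symp hR.symp ht
    have e0 : (a : ℝ) • hol y (Q0 0) + (b : ℝ) • (hol y (Q0 2) + hol y (Q0 3)) = hol y (Q 0) := by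
      rw [k0, e2_hol_add, e2_hol_smul, e2_hol_smul, e2_hol_add]
    have z0 := hR.cell 0
    have z2 := hR.cell 2
    have zA := hR.area
    rw [area_eq] at zA
    have z1 : ar (acP Q y) 1 = ar (acP Q0 y) 1 := by
      rw [e2_ar1, e2_ar1, vec_acP, vec_acP, vec_acP, vec_acP, k2, k1, e2_hol_add, e2_hol_smul]
      simp only [dt, Prod.fst_add, Prod.snd_add, Prod.smul_fst, Prod.smul_snd, smul_eq_mul]
      ring
    have z : dt (hol y (Q 0)) (hol y (Q0 2)) = ar (acP Q y) 0 := by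
      rw [e2_ar0, vec_acP, vec_acP, k2]
    refine ⟨(a, b), ?_, ⟨d, -c, by linarith⟩, ?_, ?_, ?_⟩
    · refine Prod.ext k0 ?_
      funext i j
      simp only [ty, F, k0, k3, Pi.add_apply, Pi.sub_apply, Pi.smul_apply, smul_eq_mul]
      linear_combination (Q0 0 i * (Q0 2 j + Q0 3 j) - Q0 0 j * (Q0 2 i + Q0 3 i)) * det
    · rw [e0, z]; exact z0
    · rw [e0, z, hbc]; linarith
    · rw [e0]; exact hn
  choose! f hf using key
  have hc := prim_count (b := hol y (Q0 0)) (c := hol y (Q0 2) + hol y (Q0 3)) (l := hol y (Q0 2))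
    (by rw [hbc]; linarith) hl hL (s.image f) (by
      intro p hp
      obtain ⟨Q, hQ, rfl⟩ := Finset.mem_image.1 hp
      exact (hf Q hQ).2)
  refine le_trans ?_ hc
  have : s.image ty = (s.image f).image F := by
    rw [Finset.image_image]
    exact Finset.image_congr fun Q hQ => (hf Q hQ).1
  rw [this]
  exact_mod_cast Finset.card_image_le

end Pool.Agent.TW
end

-- part Pool.Agent.Lib.MP_4eaecc_an.E1
section

/-! Cylinders: overlaps and angles. The simple cylinder of `P` is parallelogram `2`, with core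
`P 0` and crossing `P 3`; its form is `whit P (ac (sinv P) e₃)`. If `P 0` and `P 1` are parallel,
parallelograms `0` and `1` make a cylinder with core `P 0 + P 1` and form
`whit P (ac (sinv P) e₂)`. -/

namespace Pool.Agent.TW

open Matrix MeasureTheory Filter Topology
open scoped ENNReal NNReal

theorem e1_ent (M : Mat) (i j : Fin 4) : ac M (Pi.single j 1) i = M i j := by
  simp [ac, ev, Pi.single_apply]

theorem e1_ent' (Q P : Mat) (i j : Fin 4) :
    ac Q (ac (sinv P) (Pi.single j 1)) i = (Q * sinv P) i j := by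
  rw [← ac_mul, e1_ent]

theorem e1_mem {y : Pt} (W : WC y) {P : Mat} (h : Reach y P) (j : Fin 4) :
    ((fun x => grad (acP P y) (W.C P x) (Pi.single j 1)), ac (sinv P) (Pi.single j 1)) ∈ W.F := by
  have k := W.whit P h (ac (sinv P) (Pi.single j 1))
  rwa [← ac_mul, h.symp.mul_sinv, ac_one] at k

theorem e1_g3 (z : Pt) (c : Fin 3) (v : ℝ × ℝ) :
    ip (grad z c (Pi.single 3 1)) v = if c = 2 then dt (vec z 0) v / ar z 2 else 0 := by
  fin_cases c <;> simp [ip, grad, sp, sq, dt, vec]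
  ring

theorem e1_g12 (z : Pt) {j : Fin 4} (hj : j = 1 ∨ j = 2) (v : ℝ × ℝ) :
    ip (grad z 2 (Pi.single j 1)) v = 0 := by
  rcases hj with rfl | rfl <;> simp [ip, grad, sp, sq]

theorem e1_L1 {y : Pt} (W : WC y) {P P' : Mat} (h : Reach y P) (h' : Reach y P') (j : Fin 4)
    (i : Fin 3) (l : Fin 4) (hl : l = sp i ∨ l = sq i)
    (k : ∀ᵐ x ∂W.m, W.C P' x = i →
      ip (grad (acP P y) (W.C P x) (Pi.single j 1)) (hol y (P' l)) = 0) :
    (P' * sinv P) l j = 0 := by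
  have e1 : (1 : Mat) l = eR .L i ∨ (1 : Mat) l = eL .L i ∨ (1 : Mat) l = dg .L i := by
    clear k
    revert i l
    decide
  have e2 : hol (acP P' y) ((1 : Mat) l) = hol y (P' l) := by
    rw [← vec_acP, acP_one]
    rfl
  have k2 := W.L1 P' h' _ (e1_mem W h j) i _ e1 0 (k.mono fun x hx hc => by
    rw [e2, hx hc, abs_zero])
  have e3 : ∀ a : V, ev ((1 : Mat) l) a = a l := fun a => congrFun (ac_one a) l
  rw [e3, e1_ent', abs_nonpos_iff] at k2
  exact_mod_cast k2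

theorem e1_L2 {y : Pt} (W : WC y) {P P' : Mat} (h : Reach y P) (h' : Reach y P')
    (d : dt (hol y (P' 0)) (hol y (P 0)) = 0) :
    ((P * sinv P') 3 3 : ℝ) * ar (acP P y) 2 = W.m.real {x | W.C P x = 2 ∧ W.C P' x = 2} *
      (dt (hol y (P' 0)) (hol y (P 3)) / ar (acP P' y) 2) := by
  have k := W.L2 P h _ (e1_mem W h' 3) (.of_forall fun x _ => by
    simp only [e1_g3, vec_acP, d, zero_div, ite_self])
  have m1 : MeasurableSet {x | W.C P' x = 2} := W.Cm P' (measurableSet_singleton 2)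
  simp only [e1_ent', e1_g3, vec_acP] at k
  have k2 := setIntegral_indicator (μ := W.m) (s := {x | W.C P x = 2})
    (f := fun _ => dt (hol y (P' 0)) (hol y (P 3)) / ar (acP P' y) 2) m1
  rw [setIntegral_const, smul_eq_mul] at k2
  simp only [Set.indicator_apply, Set.mem_ofPred_eq] at k2
  rw [k, k2]
  rfl

theorem e1_row {P : Mat} (h : Symp P) (P' : Mat) (i j : Fin 4) :
    P' i j = (P' * sinv P) i 0 * P 0 j + (P' * sinv P) i 1 * P 1 j + (P' * sinv P) i 2 * P 2 j +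
      (P' * sinv P) i 3 * P 3 j := by
  have e : P' = P' * sinv P * P := by rw [Matrix.mul_assoc, h.sinv_mul, Matrix.mul_one]
  conv_lhs => rw [e, Matrix.mul_apply, Fin.sum_univ_four]

theorem e1_sub {y : Pt} (W : WC y) {P P' : Mat} (h : Reach y P) (h' : Reach y P')
    (o : W.m {x | W.C P x = 2 ∧ W.C P' x = 2} ≠ 0) (d : dt (hol y (P 0)) (hol y (P' 0)) = 0) :
    ar (acP P' y) 2 = ar (acP P y) 2 ∧ ∀ᵐ x ∂W.m, W.C P' x = 2 → W.C P x = 2 := by
  have := W.fin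
  have d' : dt (hol y (P' 0)) (hol y (P 0)) = 0 := by
    simp only [dt] at d ⊢
    linarith
  have k1 := e1_L2 W h h' d'
  have k2 := e1_L2 W h' h d
  have e : {x | W.C P' x = 2 ∧ W.C P x = 2} = {x | W.C P x = 2 ∧ W.C P' x = 2} := by
    simp only [and_comm]
  rw [e] at k2
  have a0 := h.cell 2
  have a0' := h'.cell 2
  have m0 : 0 < W.m.real {x | W.C P x = 2 ∧ W.C P' x = 2} :=
    ENNReal.toReal_pos o (measure_ne_top _ _)
  have m1 : W.m.real {x | W.C P x = 2 ∧ W.C P' x = 2} ≤ ar (acP P y) 2 :=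
    W.Ca P h 2 ▸ measureReal_mono fun _ hx => hx.1
  have m2 : W.m.real {x | W.C P x = 2 ∧ W.C P' x = 2} ≤ ar (acP P' y) 2 :=
    W.Ca P' h' 2 ▸ measureReal_mono fun _ hx => hx.2
  have pl : dt (hol y (P' 0)) (hol y (P 3)) * dt (hol y (P 0)) (hol y (P' 3)) =
      ar (acP P y) 2 * ar (acP P' y) 2 := by
    change _ = dt (hol y (P 0)) (hol y (P 3)) * dt (hol y (P' 0)) (hol y (P' 3))
    simp only [dt] at d ⊢
    linear_combination (-((hol y (P 3)).1 * (hol y (P' 3)).2 - (hol y (P 3)).2 * (hol y (P' 3)).1))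
      * d
  generalize hm : W.m.real {x | W.C P x = 2 ∧ W.C P' x = 2} = m at *
  have k3 : (((P * sinv P') 3 3 * (P' * sinv P) 3 3 : ℤ) : ℝ) * (ar (acP P y) 2 * ar (acP P' y) 2) =
      m * m := by
    rw [Int.cast_mul, mul_mul_mul_comm, k1, k2, mul_mul_mul_comm, div_mul_div_comm, pl,
      mul_comm (ar (acP P' y) 2), div_self (mul_pos a0 a0').ne', mul_one]
  have k4 : (0 : ℝ) < ((P * sinv P') 3 3 * (P' * sinv P) 3 3 : ℤ) :=
    (mul_pos_iff_of_pos_right (mul_pos a0 a0')).1 (k3 ▸ mul_pos m0 m0)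
  have k5 : (1 : ℝ) ≤ ((P * sinv P') 3 3 * (P' * sinv P) 3 3 : ℤ) := by exact_mod_cast k4
  have k6 : ar (acP P y) 2 * ar (acP P' y) 2 ≤ m * m :=
    k3 ▸ le_mul_of_one_le_left (mul_pos a0 a0').le k5
  have k7 : ar (acP P y) 2 ≤ m := le_of_mul_le_mul_right
    (k6.trans (mul_le_mul_of_nonneg_left m2 m0.le)) a0'
  have k8 : ar (acP P' y) 2 ≤ m := le_of_mul_le_mul_left
    (k6.trans (mul_le_mul_of_nonneg_right m1 m0.le)) a0
  refine ⟨by linarith, ?_⟩
  have m3 : MeasurableSet {x | W.C P x = 2} := W.Cm P (measurableSet_singleton 2)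
  have k9 := measureReal_inter_add_sdiff (μ := W.m) (s := {x | W.C P' x = 2}) m3
  have e2 : {x | W.C P' x = 2} ∩ {x | W.C P x = 2} = {x | W.C P x = 2 ∧ W.C P' x = 2} := e
  rw [W.Ca P' h' 2, e2, hm] at k9
  have k10 : W.m.real ({x | W.C P' x = 2} \ {x | W.C P x = 2}) = 0 := by linarith
  rw [measureReal_eq_zero_iff] at k10
  exact measure_mono_null (fun x hx => Classical.not_imp.1 hx) k10

/-- Parallel simple cylinders that overlap are equal (`L2` in both directions). -/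
theorem WC.par_eq {y : Pt} (W : WC y) {P P' : Mat} (h : Reach y P) (h' : Reach y P')
    (o : W.m {x | W.C P x = 2 ∧ W.C P' x = 2} ≠ 0) (d : dt (hol y (P 0)) (hol y (P' 0)) = 0) :
    ty P' = ty P ∨ ty P' = ty (-P) := by
  obtain ⟨ha, hc⟩ := e1_sub W h h' o d
  have z : ∀ j, j = 1 ∨ j = 2 → ∀ l, l = sp 2 ∨ l = sq 2 → (P' * sinv P) l j = 0 :=
    fun j hj l hl => e1_L1 W h h' j 2 l hl (hc.mono fun x hx k => by rw [hx k, e1_g12 _ hj])
  have z3 : (P' * sinv P) 0 3 = 0 := e1_L1 W h h' 3 2 0 (.inl rfl) (.of_forall fun x _ => by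
    simp only [e1_g3, vec_acP, d, zero_div, ite_self])
  have r0 := e1_row h.symp P' 0
  have r3 := e1_row h.symp P' 3
  simp only [z 1 (.inl rfl) 0 (.inl rfl), z 2 (.inr rfl) 0 (.inl rfl), z 1 (.inl rfl) 3 (.inr rfl),
    z 2 (.inr rfl) 3 (.inr rfl), z3, zero_mul, add_zero] at r0 r3
  generalize (P' * sinv P) 0 0 = u at r0
  generalize (P' * sinv P) 3 0 = v at r3
  generalize (P' * sinv P) 3 3 = w at r3
  have a0 := h.cell 2
  have k1 : ar (acP P' y) 2 = (u * w : ℤ) * ar (acP P y) 2 := by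
    change dt (hol y (P' 0)) (hol y (P' 3)) = _ * dt (hol y (P 0)) (hol y (P 3))
    simp only [dt, hol, ev_four, r0, r3]
    push_cast
    ring
  have k2 : u * w = 1 := by
    rw [ha] at k1
    exact_mod_cast (mul_right_cancel₀ a0.ne' ((one_mul _).trans k1)).symm
  have k3 : (ty P').2 = (ty P).2 := by
    funext i j
    simp only [ty, r0, r3]
    linear_combination (P 0 i * P 3 j - P 0 j * P 3 i) * k2
  rcases Int.eq_one_or_neg_one_of_mul_eq_one k2 with rfl | rfl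
  · exact .inl (Prod.ext (funext fun j => (r0 j).trans (one_mul _)) k3)
  · rw [ty_neg]
    exact .inr (Prod.ext (funext fun j => (r0 j).trans (neg_one_mul _)) k3)

/-- A simple cylinder inside the double cylinder has the core of the double cylinder. -/
theorem WC.par_in {y : Pt} (W : WC y) {P P' : Mat} (h : Reach y P) (h' : Reach y P') (e : Dbl y P)
    (o : W.m {x | W.C P x = 2 ∧ W.C P' x = 2} = 0) (d : dt (hol y (P 0)) (hol y (P' 0)) = 0) :
    hol y (P' 0) = hol y (P 0 + P 1) ∨ hol y (P' 0) = -hol y (P 0 + P 1) := by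
  have hc : ∀ᵐ x ∂W.m, W.C P x = 2 → W.C P' x ≠ 2 :=
    measure_mono_null (fun x hx => by simpa using hx) o
  have z : ∀ l, l = sp 2 ∨ l = sq 2 → (P * sinv P') l 3 = 0 :=
    fun l hl => e1_L1 W h' h 3 2 l hl (hc.mono fun x hx k => by rw [e1_g3, if_neg (hx k)])
  have a0 : 0 < dt (hol y (P 0)) (hol y (P 3)) := h.cell 2
  have d1 : dt (hol y (P' 0)) (hol y (P 1)) = 0 := by
    refine mul_left_cancel₀ a0.ne' ?_
    simp only [Dbl, dt] at e d ⊢
    linear_combination ((hol y (P' 0)).1 * (hol y (P 3)).2 - (hol y (P' 0)).2 * (hol y (P 3)).1) * e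
      + ((hol y (P 3)).1 * (hol y (P 1)).2 - (hol y (P 3)).2 * (hol y (P 1)).1) * d
  have z1 : (P * sinv P') 1 3 = 0 := e1_L1 W h' h 3 1 1 (.inl rfl) (.of_forall fun x _ => by
    simp only [e1_g3, vec_acP, d1, zero_div, ite_self])
  have z0 := z 0 (.inl rfl)
  have z3 := z 3 (.inr rfl)
  have k1 : P' * sinv P * (P * sinv P') = 1 := by
    rw [Matrix.mul_assoc, ← Matrix.mul_assoc (sinv P), h.symp.sinv_mul, Matrix.one_mul,
      h'.symp.mul_sinv]
  have k2 := congrFun (congrFun k1 3) 3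
  rw [Matrix.mul_apply, Fin.sum_univ_four, z0, z1, z3, mul_zero, mul_zero, mul_zero, zero_add,
    zero_add, add_zero, Matrix.one_apply_eq] at k2
  have k3 : ∀ a : V, ev (P' 0) a = (P * sinv P') 2 3 * ev (P 0 + P 1) a := fun a => by
    have e1 := h.symp.Om_ac (ac (sinv P') (Pi.single 3 1)) a
    rw [← h'.symp.Om_ac (ac (sinv P') (Pi.single 3 1)) a, ← ac_mul P', h'.symp.mul_sinv,
      ac_one] at e1
    simp only [Om, e1_ent', z0, z1, z3] at e1
    simp [ac] at e1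
    rw [add_ev]
    linarith
  rcases Int.eq_one_or_neg_one_of_mul_eq_one' k2 with ⟨-, k⟩ | ⟨-, k⟩
  · exact .inl (by simp [hol, k3, k])
  · exact .inr (by simp [hol, k3, k])

end Pool.Agent.TW
end

-- part Pool.Agent.Lib.MP_4eaecc_an.N1a
section

/-! Edges of the algorithm are counted classes; thin edges are rare on a line. -/

namespace Pool.Agent.TW

open Matrix MeasureTheory Filter Topology
open scoped ENNReal NNReal

theorem n1a_mono {y : Pt} {L L' : ℝ} (h : L ≤ L') {e : Z4} (he : e ∈ Ecl y L) : e ∈ Ecl y L' := by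
  obtain ⟨P, h1, h2, h3⟩ := he
  exact ⟨P, h1, h2.trans h, h3.imp_right (Or.imp (And.imp_right fun k => k.trans h)
    (And.imp_right fun k => k.trans h))⟩

theorem line_sum : ∃ C : ℝ, 0 < C ∧ ∀ (y : Pt) (W C0 C1 c X w : ℝ), 0 ≤ W → 0 ≤ C0 → 0 ≤ C1 →
    0 < c → 0 ≤ X → 0 ≤ w → w ≤ c / 4 →
    (∀ (L : ℝ) (s : Finset Z4), 0 ≤ L → (∀ e ∈ s, e ∈ Ecl y L) → (s.card : ℝ) ≤ C0 * L ^ 2 + C1) →
    (∀ L, ∀ e ∈ Ecl y L, c ≤ ‖hol y e‖) →
    volume {s ∈ Set.Icc (0 : ℝ) 1 | ∃ e : Z4, 0 ≤ ev e y.2 ∧ e ∈ Ecl y (W + 2 * ev e y.2) ∧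
        ev e y.2 ≤ X ∧ |ev e (us s y).1| ≤ w} ≤
      ENNReal.ofReal (C * (C0 * X * w + (C0 * W ^ 2 + C1) * w / c)) := by
  refine ⟨128, by norm_num, fun y W C0 C1 c X w hW h0 h1 hc hX hw hwc hN hm => ?_⟩
  have hT : {e : Z4 | c / 4 ≤ ev e y.2 ∧ e ∈ Ecl y (W + 2 * ev e y.2) ∧ ev e y.2 ≤ X}.Finite := by
    by_contra h
    obtain ⟨n, hn⟩ := exists_nat_gt (C0 * (W + 2 * X) ^ 2 + C1)
    obtain ⟨s, hs, rfl⟩ := Set.Infinite.exists_subset_card_eq h n
    exact hn.not_ge (hN _ s (by positivity) fun e he =>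
      n1a_mono (by linarith [(hs he).2.2]) (hs he).2.1)
  have hs : ∀ e ∈ hT.toFinset, c / 4 ≤ ev e y.2 ∧ e ∈ Ecl y (W + 2 * ev e y.2) ∧ ev e y.2 ≤ X :=
    fun e he => hT.mem_toFinset.1 he
  have h2 := sum_inv hT.toFinset (fun e => ev e y.2) (C0 := 8 * C0) (C1 := 2 * C0 * W ^ 2 + C1)
    (by positivity : 0 < c / 4) (by positivity) (by positivity) hX
    (fun e he => ⟨(hs e he).1, (hs e he).2.2⟩) fun x hx u hu h => by
      refine (hN (W + 2 * x) u (by positivity) fun e he =>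
        n1a_mono (by linarith [h e he]) (hs e (hu he)).2.1).trans ?_
      nlinarith [mul_nonneg h0 (sq_nonneg (W - 2 * x))]
  refine (measure_mono (t := ⋃ e ∈ hT.toFinset,
    Metric.closedBall (-(ev e y.1 / ev e y.2)) (w / ev e y.2)) ?_).trans
    ((measure_biUnion_finset_le _ _).trans ?_)
  · rintro s ⟨⟨s0, s1⟩, e, k1, k2, k3, k4⟩
    have k5 : ev e (us s y).1 = ev e y.1 + s * ev e y.2 := by simp [us, ev_add, ev_smul]
    rw [k5] at k4
    have k6 : c / 4 ≤ ev e y.2 := by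
      have k7 := hm _ e k2
      have k8 := abs_le.1 k4
      have k9 := mul_le_of_le_one_left k1 s1
      have k10 := mul_nonneg s0 k1
      rw [hol, Prod.norm_mk, Real.norm_eq_abs, Real.norm_of_nonneg k1, le_max_iff, le_abs] at k7
      rcases k7 with (k7 | k7) | k7 <;> linarith [k8.1, k8.2]
    have k7 : 0 < ev e y.2 := by linarith
    refine Set.mem_biUnion (hT.mem_toFinset.2 ⟨k6, k2, k3⟩) ?_
    rw [Metric.mem_closedBall, Real.dist_eq, le_div_iff₀ k7, ← abs_of_pos k7, ← abs_mul,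
      abs_of_pos k7]
    rwa [sub_neg_eq_add, add_mul, div_mul_cancel₀ _ k7.ne', add_comm]
  · simp only [Real.volume_closedBall]
    rw [← ENNReal.ofReal_sum_of_nonneg fun e he => by
      have := (hs e he).1
      have : 0 < ev e y.2 := by linarith
      positivity]
    refine ENNReal.ofReal_le_ofReal ?_
    simp only [div_eq_mul_inv w, ← mul_assoc, ← Finset.mul_sum]
    refine (mul_le_mul_of_nonneg_left h2 (by positivity)).trans ?_
    have h3 : 0 ≤ C0 * W ^ 2 * w / c := by positivity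
    have h4 : 0 ≤ C1 * w / c := by positivity
    have h5 : 2 * w * (8 * (8 * C0) * X + 4 * (2 * C0 * W ^ 2 + C1) / (c / 4)) =
        128 * (C0 * X * w) + 64 * (C0 * W ^ 2 * w / c) + 32 * (C1 * w / c) := by
      field_simp
      ring
    rw [add_mul, add_div]
    linarith

end Pool.Agent.TW
end
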