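import Pool.Agent.Lib.MP_4eaecc_an.O1

/-! The mixture of hyperplanes is flat between the scales `ρ` and `r`. -/

namespace Pool.Agent.TW

open Matrix MeasureTheory Filter Topology
open scoped ENNReal NNReal

/-- The largest two by two minor. -/
noncomputable def wn (v a : Z4) : ℝ := ‖fun p : Fin 4 × Fin 4 => ((v p.1 * a p.2 - v p.2 * a p.1 : ℤ) : ℝ)‖

theorem o2_minor (v a : Z4) (i l : Fin 4) : |((v i * a l - v l * a i : ℤ) : ℝ)| ≤ wn v a :=
  norm_le_pi_norm (fun p : Fin 4 × Fin 4 => ((v p.1 * a p.2 - v p.2 * a p.1 : ℤ) : ℝ)) (i, l)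

/-- The three minors with the index `i`. -/
def o2b (v : Z4) (i : Fin 4) (a : Z4) : Fin 3 → ℤ :=
  fun l => v i * a (i.succAbove l) - v (i.succAbove l) * a i

/-- The largest entry. -/
def o2m (b : Fin 3 → ℤ) : ℕ := Finset.univ.sup fun l => (b l).natAbs

theorem o2m_le {b : Fin 3 → ℤ} {n : ℕ} : o2m b ≤ n ↔ ∀ l, |b l| ≤ n := by
  simp only [o2m, Finset.sup_le_iff, Finset.mem_univ, true_imp_iff]
  exact forall_congr' fun l => by rw [← Int.natCast_natAbs, Int.ofNat_le]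

theorem o2_shell (n : ℕ) (t : Finset (Fin 3 → ℤ)) (h : ∀ b ∈ t, o2m b = n + 1) :
    t.card ≤ 26 * (n + 1) ^ 2 := by
  let B : ℕ → Finset (Fin 3 → ℤ) := fun k => Fintype.piFinset fun _ => Finset.Icc (-(k : ℤ)) k
  have hB : ∀ k b, b ∈ B k ↔ o2m b ≤ k := fun k b => by
    simp only [B, Fintype.mem_piFinset, Finset.mem_Icc, o2m_le, abs_le]
  have hc : ∀ k, (B k).card = (2 * k + 1) ^ 3 := fun k => by
    simp only [B, Fintype.card_piFinset, Int.card_Icc, Finset.prod_const, Finset.card_univ,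
      Fintype.card_fin]
    congr 1
    omega
  have h1 : t.card ≤ (B (n + 1) \ B n).card := Finset.card_le_card fun b hb => by
    rw [Finset.mem_sdiff, hB, hB, h b hb]
    omega
  rw [Finset.card_sdiff_of_subset fun b hb => (hB _ b).2 (((hB _ b).1 hb).trans n.le_succ), hc,
    hc] at h1
  refine h1.trans (Nat.sub_le_iff_le_add.2 ?_)
  nlinarith [Nat.zero_le n, Nat.zero_le (n ^ 2)]

section
variable {v : Z4} {i : Fin 4} (hi : ∀ l, |v l| ≤ |v i|) (h0 : v i ≠ 0)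

theorem o2_all {a : Z4} {n : ℕ} (h : o2m (o2b v i a) ≤ n) (l : Fin 4) :
    |v i * a l - v l * a i| ≤ n := by
  refine Fin.succAboveCases i ?_ (fun k => o2m_le.1 h k) l
  simp

theorem o2m_le_wn (v : Z4) (i : Fin 4) (a : Z4) : (o2m (o2b v i a) : ℝ) ≤ wn v a := by
  obtain ⟨l, -, hl⟩ := Finset.exists_mem_eq_sup Finset.univ Finset.univ_nonempty
    fun l => (o2b v i a l).natAbs
  rw [o2m, hl, Nat.cast_natAbs, Int.cast_abs]
  exact o2_minor v a i _

include hi h0 in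
theorem wn_le_o2m (a : Z4) : wn v a ≤ 2 * o2m (o2b v i a) := by
  refine (pi_norm_le_iff_of_nonneg (by positivity)).2 fun p => ?_
  have h1 := o2_all (le_refl (o2m (o2b v i a))) p.1
  have h2 := o2_all (le_refl (o2m (o2b v i a))) p.2
  have h3 : |v i| * |v p.1 * a p.2 - v p.2 * a p.1| ≤ |v i| * (2 * o2m (o2b v i a)) := by
    rw [← abs_mul, show v i * (v p.1 * a p.2 - v p.2 * a p.1) = v p.1 * (v i * a p.2 - v p.2 * a i) -
      v p.2 * (v i * a p.1 - v p.1 * a i) by ring]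
    refine (abs_sub _ _).trans ?_
    rw [abs_mul, abs_mul, two_mul, mul_add]
    exact add_le_add (mul_le_mul (hi _) h2 (abs_nonneg _) (abs_nonneg _))
      (mul_le_mul (hi _) h1 (abs_nonneg _) (abs_nonneg _))
  rw [Real.norm_eq_abs]
  exact_mod_cast le_of_mul_le_mul_left h3 (abs_pos.2 h0)

include h0 in
theorem o2_fib {c : Z4} (hc : c ⬝ᵥ v = 1) {s : Finset Z4} (hs : ∀ a ∈ s, |a i| ≤ 3 * |v i|)
    (b : Fin 3 → ℤ) : (s.filter fun a => o2b v i a = b).card ≤ 13 := by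
  rcases (s.filter fun a => o2b v i a = b).eq_empty_or_nonempty with h | ⟨a', ha'⟩
  · rw [h]; simp
  rw [Finset.mem_filter] at ha'
  refine (Finset.card_le_card (t := (Finset.Icc (-6 : ℤ) 6).image fun t => a' + t • v)
    fun a ha => ?_).trans (Finset.card_image_le.trans (by simp))
  rw [Finset.mem_filter] at ha
  have h1 : ∀ l, v i * (a l - a' l) = v l * (a i - a' i) := fun l => by
    refine Fin.succAboveCases i rfl (fun k => ?_) l
    have := congrFun (ha.2.trans ha'.2.symm) k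
    simp only [o2b] at this
    linear_combination this
  have h2 : ∀ l, a l - a' l = (c ⬝ᵥ (a - a')) * v l := fun l => by
    refine mul_left_cancel₀ h0 ?_
    simp only [dotProduct, Fin.sum_univ_four, Pi.sub_apply] at hc ⊢
    linear_combination h1 l - v l * (c 0 * h1 0 + c 1 * h1 1 + c 2 * h1 2 + c 3 * h1 3) -
      v l * (a i - a' i) * hc
  refine Finset.mem_image.2 ⟨c ⬝ᵥ (a - a'), ?_, funext fun l => ?_⟩
  · rw [Finset.mem_Icc, ← abs_le]
    refine le_of_mul_le_mul_right ?_ (abs_pos.2 h0)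
    rw [← abs_mul, ← h2]
    linarith [abs_sub (a i) (a' i), hs a ha.1, hs a' ha'.1]
  · rw [Pi.add_apply, Pi.smul_apply, smul_eq_mul, ← h2]
    ring

end

/-- With `i` the index of the largest entry of `v`, the map `a ↦ (v i * a l - v l * a i)` to
integer triples has fibres of size at most `13` on `s`. -/
theorem wedge_sum : ∃ C : ℝ, 0 < C ∧ ∀ (N X : ℝ) (v : Z4) (s : Finset Z4), 0 < N → 1 ≤ X →
    N ≤ ‖cs v‖ → (∃ c : Z4, c ⬝ᵥ v = 1) → (∀ a ∈ s, ‖cs a‖ ≤ 3 * N) →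
    (((s.filter fun a => wn v a = 0).card : ℝ) ≤ C ∧
      ∑ a ∈ s.filter (fun a => X ≤ wn v a), (wn v a ^ 5)⁻¹ ≤ C / X ^ 2) := by
  refine ⟨2704, by norm_num, fun N X v s hN hX hv ⟨c, hc⟩ hs => ?_⟩
  obtain ⟨i, -, hi⟩ := Finset.exists_max_image Finset.univ (fun l => |v l|) Finset.univ_nonempty
  replace hi : ∀ l, |v l| ≤ |v i| := fun l => hi l (Finset.mem_univ l)
  have h1 : N ≤ ((|v i| : ℤ) : ℝ) := hv.trans ((pi_norm_le_iff_of_nonneg (by positivity)).2 fun l => by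
    rw [Real.norm_eq_abs, cs]
    exact_mod_cast hi l)
  have h0 : v i ≠ 0 := fun h => by
    rw [h] at h1
    exact absurd h1 (by simpa using hN)
  have h2 : ∀ a ∈ s, |a i| ≤ 3 * |v i| := fun a ha => by
    have := (norm_le_pi_norm (cs a) i).trans (hs a ha)
    rw [Real.norm_eq_abs, cs] at this
    exact_mod_cast this.trans (mul_le_mul_of_nonneg_left h1 (by norm_num))
  constructor
  · have : (s.filter fun a => wn v a = 0).card ≤ 13 := (Finset.card_le_card fun a ha => by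
      rw [Finset.mem_filter] at ha ⊢
      refine ⟨ha.1, funext fun l => ?_⟩
      have := o2_minor v a i (i.succAbove l)
      rw [ha.2, abs_nonpos_iff] at this
      exact_mod_cast this).trans (o2_fib h0 hc h2 0)
    exact (Nat.cast_le.2 this).trans (by norm_num)
  set t := s.filter fun a => X ≤ wn v a
  let m : Z4 → ℕ := fun a => o2m (o2b v i a)
  have h3 : ∀ a ∈ t, X / 2 ≤ m a := fun a ha => by
    linarith [(Finset.mem_filter.1 ha).2, wn_le_o2m hi h0 a]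
  have hk : 0 < ⌈X / 2⌉₊ := Nat.ceil_pos.2 (by linarith)
  have h4 : ∀ a ∈ t, m a ∈ Finset.Ioo (⌈X / 2⌉₊ - 1) (t.sup m + 1) := fun a ha =>
    Finset.mem_Ioo.2 ⟨by have := Nat.ceil_le.2 (h3 a ha); omega,
      Nat.lt_succ_of_le (Finset.le_sup ha)⟩
  rw [← Finset.sum_fiberwise_of_maps_to h4]
  have h5 := sum_Ioo_inv_sq_le (α := ℝ) (⌈X / 2⌉₊ - 1) (t.sup m + 1)
  rw [Nat.cast_pred hk, sub_add_cancel] at h5
  calc _ ≤ ∑ n ∈ Finset.Ioo (⌈X / 2⌉₊ - 1) (t.sup m + 1), 676 / X * ((n : ℝ) ^ 2)⁻¹ := ?_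
    _ ≤ 676 / X * (2 / (X / 2)) := by
        rw [← Finset.mul_sum]
        exact mul_le_mul_of_nonneg_left (h5.trans (div_le_div_of_nonneg_left zero_le_two
          (by linarith) (Nat.le_ceil _))) (by positivity)
    _ = _ := by field_simp; norm_num
  refine Finset.sum_le_sum fun n hn => ?_
  obtain ⟨k, rfl⟩ : ∃ k, n = k + 1 := ⟨n - 1, by have := (Finset.mem_Ioo.1 hn).1; omega⟩
  have h6 : X / 2 ≤ (k + 1 : ℕ) := Nat.ceil_le.1 (by have := (Finset.mem_Ioo.1 hn).1; omega)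
  have h7 : (t.filter fun a => m a = k + 1).card ≤ 13 * (26 * (k + 1) ^ 2) :=
    (Finset.card_le_mul_card_image (f := o2b v i) _ 13 fun b _ => o2_fib h0 hc
      (fun a ha => h2 a (Finset.mem_filter.1 (Finset.mem_filter.1 ha).1).1) b).trans
      (Nat.mul_le_mul_left _ (o2_shell k _ fun b hb => by
        obtain ⟨a, ha, rfl⟩ := Finset.mem_image.1 hb
        exact (Finset.mem_filter.1 ha).2))
  have h8 : (0 : ℝ) < (k + 1 : ℕ) := by positivity
  refine (Finset.sum_le_card_nsmul _ _ (((k + 1 : ℕ) : ℝ) ^ 5)⁻¹ fun a ha => ?_).trans ?_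
  · have := o2m_le_wn v i a
    rw [show o2m (o2b v i a) = k + 1 from (Finset.mem_filter.1 ha).2] at this
    gcongr
  · rw [nsmul_eq_mul]
    refine (mul_le_mul_of_nonneg_right (Nat.cast_le.2 h7) (by positivity)).trans ?_
    rw [Nat.cast_mul, Nat.cast_mul, Nat.cast_pow]
    generalize ((k + 1 : ℕ) : ℝ) = y at h6 h8
    rw [← sub_nonneg, show 676 / X * (y ^ 2)⁻¹ - (13 : ℕ) * ((26 : ℕ) * y ^ 2) * (y ^ 5)⁻¹ =
      676 * (y - X / 2) / (X * y ^ 3) by push_cast; field_simp; ring]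
    have := sub_nonneg.2 h6
    positivity

theorem l2_flat : ∃ C : ℝ, 0 < C ∧ ∀ {ι : Type} (s : Finset ι) (u : ι → Z4) (p : ι → ℝ)
    (N ρ r X Cf Ca : ℝ), 0 < N → 0 < ρ → ρ ≤ r → r ≤ 1 → 1 ≤ X → 0 ≤ Ca →
    (∀ i ∈ s, 0 ≤ p i ∧ N ≤ ‖cs (u i)‖ ∧ ‖cs (u i)‖ ≤ 3 * N ∧ (∃ c : Z4, c ⬝ᵥ u i = 1) ∧
      Vbig (u i) X) → ∑ i ∈ s, p i ≤ Cf →
    (∀ v, ∑ i ∈ s.filter (fun i => u i = v), p i ≤ Ca / N ^ 2) →
    ∫⁻ ξ : V, ENNReal.ofReal (Real.exp (-(ξ ⬝ᵥ ξ) / 2) * (∑ i ∈ s, p i * dk ρ r N (u i) ξ) ^ 2) ≤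
      ENNReal.ofReal (C * Cf * Ca * (1 / (N ^ 2 * ρ) + (r * N ^ 2) ^ 4 / X ^ 2)) := by
  obtain ⟨C0, hC0, hw⟩ := wedge_sum
  obtain ⟨C1, hC1, hp⟩ := pair_le
  refine ⟨C0 * C1, by positivity, fun {ι} s u p N ρ r X Cf Ca hN hρ hρr hr hX hCa hs hf ha => ?_⟩
  let g : Z4 → Z4 → V → ℝ := fun v v' ξ =>
    Real.exp (-(ξ ⬝ᵥ ξ) / 2) * (dk ρ r N v ξ * dk ρ r N v' ξ)
  have hP := fun i (hi : i ∈ s) j (hj : j ∈ s) => hp N ρ r (u i) (u j) hN hρ hρr hr (hs i hi).2.1
    (hs i hi).2.2.1 (hs j hj).2.1 (hs j hj).2.2.1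
  have e : (fun ξ : V => Real.exp (-(ξ ⬝ᵥ ξ) / 2) * (∑ i ∈ s, p i * dk ρ r N (u i) ξ) ^ 2) =
      fun ξ => ∑ i ∈ s, ∑ j ∈ s, p i * (p j * g (u i) (u j) ξ) := funext fun ξ => by
    rw [pow_two, Finset.sum_mul_sum, Finset.mul_sum]
    refine Finset.sum_congr rfl fun i _ => ?_
    rw [Finset.mul_sum]
    exact Finset.sum_congr rfl fun j _ => by simp only [g]; ring
  have hI : ∀ i ∈ s, ∀ j ∈ s, Integrable fun ξ => p i * (p j * g (u i) (u j) ξ) :=
    fun i hi j hj => ((hP i hi j hj).1.const_mul _).const_mul _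
  rw [← ofReal_integral_eq_lintegral_ofReal (e ▸ integrable_finsetSum _ fun i hi =>
    integrable_finsetSum _ (hI i hi)) (ae_of_all _ fun ξ => by positivity), e,
    integral_finsetSum _ fun i hi => integrable_finsetSum _ (hI i hi)]
  refine ENNReal.ofReal_le_ofReal ?_
  set K := C0 * C1 * Ca * (1 / (N ^ 2 * ρ) + (r * N ^ 2) ^ 4 / X ^ 2) with hK
  have hr0 : 0 < r := hρ.trans_le hρr
  calc _ ≤ ∑ i ∈ s, p i * K := Finset.sum_le_sum fun i hi => ?_
    _ ≤ Cf * K := by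
        rw [← Finset.sum_mul]
        exact mul_le_mul_of_nonneg_right hf (by positivity)
    _ = _ := by rw [hK]; ring
  rw [integral_finsetSum _ (hI i hi)]
  simp only [integral_const_mul]
  rw [← Finset.mul_sum]
  refine mul_le_mul_of_nonneg_left ?_ (hs i hi).1
  obtain ⟨w1, w2⟩ := hw N X (u i) (s.image u) hN hX (hs i hi).2.1 (hs i hi).2.2.2.1 fun a ha => by
    obtain ⟨j, hj, rfl⟩ := Finset.mem_image.1 ha
    exact (hs j hj).2.2.1
  let G : Z4 → ℝ := fun a => (if wn (u i) a = 0 then C1 / ρ else 0) +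
    if X ≤ wn (u i) a then C1 * r ^ 4 * N ^ 10 * (wn (u i) a ^ 5)⁻¹ else 0
  have G0 : ∀ a, 0 ≤ G a := fun a => by
    have : 0 ≤ wn (u i) a := norm_nonneg _
    simp only [G]
    split_ifs <;> positivity
  have G1 : ∀ j ∈ s, ∫ ξ, g (u i) (u j) ξ ≤ G (u j) := fun j hj => by
    refine (le_abs_self _).trans ?_
    by_cases h0 : wn (u i) (u j) = 0
    · simp only [G, h0, if_true, if_neg (not_le.2 (one_pos.trans_le hX)), add_zero]
      exact (hP i hi j hj).2.1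
    obtain ⟨q, -, hq⟩ := Finset.exists_max_image Finset.univ (fun q : Fin 4 × Fin 4 =>
      |((u i q.1 * u j q.2 - u i q.2 * u j q.1 : ℤ) : ℝ)|) Finset.univ_nonempty
    have h1 : wn (u i) (u j) ≤ |((u i q.1 * u j q.2 - u i q.2 * u j q.1 : ℤ) : ℝ)| :=
      (pi_norm_le_iff_of_nonneg (abs_nonneg _)).2 fun q' => hq q' (Finset.mem_univ _)
    have h2 : 0 < wn (u i) (u j) := lt_of_le_of_ne (norm_nonneg _) (Ne.symm h0)
    obtain ⟨k, l, hkl⟩ := (hs i hi).2.2.2.2 (u j) ⟨q.1, q.2, fun h => by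
      rw [h, sub_self] at h1
      exact absurd h1 (by simpa using h2)⟩
    simp only [G, h0, if_false, if_pos (hkl.trans (o2_minor _ _ k l)), zero_add]
    exact (hP i hi j hj).2.2 q.1 q.2 _ h2 h1
  calc _ ≤ ∑ j ∈ s, p j * G (u j) :=
        Finset.sum_le_sum fun j hj => mul_le_mul_of_nonneg_left (G1 j hj) (hs j hj).1
    _ = ∑ a ∈ s.image u, (∑ j ∈ s.filter (fun j => u j = a), p j) * G a := by
        rw [← Finset.sum_fiberwise_of_maps_to fun j hj => Finset.mem_image_of_mem u hj]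
        refine Finset.sum_congr rfl fun a _ => ?_
        rw [Finset.sum_mul]
        exact Finset.sum_congr rfl fun j hj => by rw [(Finset.mem_filter.1 hj).2]
    _ ≤ ∑ a ∈ s.image u, Ca / N ^ 2 * G a :=
        Finset.sum_le_sum fun a _ => mul_le_mul_of_nonneg_right (ha a) (G0 a)
    _ ≤ Ca / N ^ 2 * (C0 * (C1 / ρ) + C1 * r ^ 4 * N ^ 10 * (C0 / X ^ 2)) := by
        rw [← Finset.mul_sum]
        refine mul_le_mul_of_nonneg_left ?_ (by positivity)
        rw [Finset.sum_add_distrib, ← Finset.sum_filter, ← Finset.sum_filter, Finset.sum_const,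
          nsmul_eq_mul, ← Finset.mul_sum]
        gcongr
    _ = K := by rw [hK]; field_simp

/-- Cauchy and Schwarz on a ball. -/
theorem l1_of_l2 (R : ℝ) : ∃ C : ℝ, 0 < C ∧ ∀ (F : V → ℝ) (B : ℝ), Measurable F → 0 ≤ B →
    ∫⁻ ξ : V, ENNReal.ofReal (Real.exp (-(ξ ⬝ᵥ ξ) / 2) * F ξ ^ 2) ≤ ENNReal.ofReal (B ^ 2) →
    ∫⁻ ξ in Metric.closedBall (0 : V) R, ENNReal.ofReal |F ξ| ≤ ENNReal.ofReal (C * B) := by
  have hv : volume (Metric.closedBall (0 : V) R) ≠ ⊤ := measure_closedBall_lt_top.ne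
  refine ⟨Real.exp (2 * R ^ 2) + volume.real (Metric.closedBall (0 : V) R), by positivity,
    fun F B hF hB h => ?_⟩
  have hm : Measurable fun ξ : V => ENNReal.ofReal (Real.exp (-(ξ ⬝ᵥ ξ) / 2) * F ξ ^ 2) :=
    (Measurable.mul (Continuous.measurable (by fun_prop)) (hF.pow_const 2)).ennreal_ofReal
  rcases hB.eq_or_lt with rfl | hB
  · rw [zero_pow two_ne_zero, ENNReal.ofReal_zero, nonpos_iff_eq_zero, lintegral_eq_zero_iff hm] at h
    rw [lintegral_congr_ae (g := fun _ => 0) (ae_restrict_of_ae (h.mono fun ξ hξ => ?_)),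
      lintegral_zero]
    · exact zero_le
    · have h1 := le_antisymm (ENNReal.ofReal_eq_zero.1 hξ) (by positivity)
      rw [pow_eq_zero_iff two_ne_zero |>.1 ((mul_eq_zero.1 h1).resolve_left (Real.exp_pos _).ne'),
        abs_zero, ENNReal.ofReal_zero]
  calc _ ≤ ∫⁻ ξ in Metric.closedBall (0 : V) R, ENNReal.ofReal (Real.exp (2 * R ^ 2) / B) *
        ENNReal.ofReal (Real.exp (-(ξ ⬝ᵥ ξ) / 2) * F ξ ^ 2) + ENNReal.ofReal B :=
        setLIntegral_mono' measurableSet_closedBall fun ξ hξ => ?_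
    _ ≤ ENNReal.ofReal (Real.exp (2 * R ^ 2) / B) * ENNReal.ofReal (B ^ 2) +
        ENNReal.ofReal B * volume (Metric.closedBall (0 : V) R) := by
        rw [lintegral_add_right _ measurable_const, lintegral_const_mul _ hm, setLIntegral_const]
        gcongr
        exact (setLIntegral_le_lintegral _ _).trans h
    _ = _ := by
        rw [← ofReal_measureReal hv, ← ENNReal.ofReal_mul (by positivity), ← ENNReal.ofReal_mul hB.le,
          ← ENNReal.ofReal_add (by positivity) (by positivity)]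
        congr 1
        field_simp
  rw [← ENNReal.ofReal_mul (by positivity), ← ENNReal.ofReal_add (by positivity) hB.le]
  refine ENNReal.ofReal_le_ofReal ?_
  have h1 : ∀ i, ξ i * ξ i ≤ R ^ 2 := fun i => by
    have := (norm_le_pi_norm ξ i).trans (mem_closedBall_zero_iff.1 hξ)
    rw [← pow_two]
    exact sq_le_sq' (abs_le.1 this).1 (abs_le.1 this).2
  have h2 : 1 ≤ Real.exp (2 * R ^ 2) * Real.exp (-(ξ ⬝ᵥ ξ) / 2) := by
    rw [← Real.exp_add, Real.one_le_exp_iff, dotProduct, Fin.sum_univ_four]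
    linarith [h1 0, h1 1, h1 2, h1 3]
  have h3 : |F ξ| ≤ F ξ ^ 2 / B + B := by
    rw [div_add' _ _ _ hB.ne', le_div_iff₀ hB, ← sq_abs]
    nlinarith [sq_nonneg (|F ξ| - B), abs_nonneg (F ξ)]
  refine h3.trans (add_le_add ?_ le_rfl)
  rw [div_mul_eq_mul_div, ← mul_assoc]
  exact div_le_div_of_nonneg_right (le_mul_of_one_le_left (sq_nonneg _) h2) hB.le

end Pool.Agent.TW
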