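import Pool.Agent.Lib.MP_4eaecc_an.G5a

/-! Thickening the hyperplane; mass and number of atoms. -/

namespace Pool.Agent.TW

open Matrix MeasureTheory Filter Topology
open scoped ENNReal NNReal

theorem o3a_Om (w : Par) (a : V) : Om (cs w.v0) a = w.q * a 0 - w.p * a 1 := by
  simp [Om, cs, Par.v0]
  ring

theorem o3a_back (w : Par) {P : Mat} (hP : Symp P) (g : V) :
    Om (cs (P *ᵥ w.v0)) g = Om (cs w.v0) (ac (sinv P) g) := by
  rw [← hP.Om_ac (cs w.v0), ← ac_mul, hP.mul_sinv, ac_one, ac_cs]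

theorem o3a_E (w : Par) {P : Mat} (hP : Symp P) (z : Fin 3 → ℝ) :
    Om (cs (P *ᵥ w.v0)) (ac P (w.E z)) = 0 := by
  rw [← ac_cs, hP.Om_ac, Om_swap, w.Om_E, neg_zero]

/-- The identification of `ℝ³ × ℝ` with `ℝ⁴` keeps the volume of every set. -/
theorem o3a_cons (S : Set ((Fin 3 → ℝ) × ℝ)) :
    volume ((fun q : (Fin 3 → ℝ) × ℝ => (Fin.cons q.2 q.1 : V)) '' S) = volume S := by
  let e : V ≃ᵐ (Fin 3 → ℝ) × ℝ :=
    (MeasurableEquiv.piFinSuccAbove (fun _ : Fin 4 => ℝ) 0).trans MeasurableEquiv.prodComm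
  have he : MeasurePreserving e volume volume :=
    (Measure.measurePreserving_swap (μ := (volume : Measure ℝ))
      (ν := (volume : Measure (Fin 3 → ℝ)))).comp
      (volume_preserving_piFinSuccAbove (fun _ : Fin 4 => ℝ) 0)
  rw [← he.measure_preimage_equiv S]
  congr 1
  ext x
  constructor
  · rintro ⟨q, hq, rfl⟩
    exact hq
  · intro hx
    exact ⟨e x, hx, Fin.cons_self_tail x⟩

/-- The linear map `(z, s) ↦ e^j P E z + s g` has determinant `± e^{3j} c N`. -/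
theorem theta_vol (w : Par) {P : Mat} (hP : Symp P) (j : ℝ) {g : V} {N : ℝ} (hN : 0 < N)
    (hg : Om (cs (P *ᵥ w.v0)) g = N) (S : Set ((Fin 3 → ℝ) × ℝ)) :
    volume ((fun q : (Fin 3 → ℝ) × ℝ => Real.exp j • ac P (w.E q.1) + q.2 • g) '' S) =
      ENNReal.ofReal (Real.exp (3 * j) * w.c * N) * volume S := by
  let A : Matrix (Fin 4) (Fin 4) ℝ :=
    !![ac (sinv P) g 0, Real.exp j * w.a, 0, 0; ac (sinv P) g 1, Real.exp j * w.b, 0, 0;
      ac (sinv P) g 2, 0, Real.exp j, 0; ac (sinv P) g 3, 0, 0, Real.exp j]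
  have hA : A.det = Real.exp (3 * j) * w.c * N := by
    have e3 : Real.exp (3 * j) = Real.exp j ^ 3 := by
      rw [← Real.exp_nat_mul]; norm_num
    rw [← hg, o3a_back w hP, o3a_Om, e3]
    simp [A, Matrix.det_succ_row_zero, Fin.sum_univ_succ, Fin.succAbove, w.ap, w.bq]
    ring
  have h1 : |(P.map (Int.castRingHom ℝ)).det| = 1 := by
    rw [← RingHom.mapMatrix_apply, ← RingHom.map_det]
    rcases Int.isUnit_iff.1 (isUnit_det_of_right_inverse hP.mul_sinv) with e | e <;> simp [e]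
  have h2 : (fun q : (Fin 3 → ℝ) × ℝ => Real.exp j • ac P (w.E q.1) + q.2 • g) =
      Matrix.toLin' (P.map (Int.castRingHom ℝ) * A) ∘
        fun q : (Fin 3 → ℝ) × ℝ => (Fin.cons q.2 q.1 : V) := by
    funext q
    have h3 : A *ᵥ (Fin.cons q.2 q.1 : V) = Real.exp j • w.E q.1 + q.2 • ac (sinv P) g := by
      funext i
      fin_cases i <;> simp [A, Par.E, mulVec, dotProduct, Fin.sum_univ_succ] <;> ring
    rw [Function.comp_apply, Matrix.toLin'_apply, ← mulVec_mulVec, ← r1_ac, h3, ac_add, ac_smul,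
      ac_smul, ← ac_mul, hP.mul_sinv, ac_one]
  rw [h2, Set.image_comp, Measure.addHaar_image_linearMap, o3a_cons, LinearMap.det_toLin',
    det_mul, abs_mul, h1, one_mul, hA,
    abs_of_pos (mul_pos (mul_pos (Real.exp_pos _) w.c0) hN)]

theorem theta_surj (w : Par) {P : Mat} (hP : Symp P) (j : ℝ) {g : V} {N : ℝ} (hN : 0 < N)
    (hg : Om (cs (P *ᵥ w.v0)) g = N) (ξ : V) :
    ∃ z, ξ = Real.exp j • ac P (w.E z) + (Om (cs (P *ᵥ w.v0)) ξ / N) • g := by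
  set u := ac (sinv P) (ξ - (Om (cs (P *ᵥ w.v0)) ξ / N) • g) with hu
  have h0 : w.q * u 0 - w.p * u 1 = 0 := by
    rw [← o3a_Om, hu, ← o3a_back w hP, Om_sub, Om_smul, hg, div_mul_cancel₀ _ hN.ne', sub_self]
  have hp : (w.p : ℝ) ≠ 0 := Nat.cast_ne_zero.2 w.p0.ne'
  have hc := w.c0.ne'
  have he := (Real.exp_pos j).ne'
  refine ⟨![u 0 / (w.a * Real.exp j), u 2 / Real.exp j, u 3 / Real.exp j], ?_⟩
  have h1 : Real.exp j • w.E ![u 0 / (w.a * Real.exp j), u 2 / Real.exp j, u 3 / Real.exp j] =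
      u := by
    funext i
    fin_cases i <;> simp [Par.E, w.ap, w.bq] <;> field_simp
    linarith
  rw [← ac_smul, h1, hu, ← ac_mul, hP.mul_sinv, ac_one, sub_add_cancel]

theorem thick (w : Par) {P : Mat} (hP : Symp P) (j : ℝ) {g : V} {N ρ : ℝ} (hN : 0 < N) (hρ : 0 < ρ)
    (hg : Om (cs (P *ᵥ w.v0)) g = N) {X : Set (Fin 3 → ℝ)} {Y : Set V} (hY : MeasurableSet Y)
    (h : ∀ z ∈ X, ∀ s : ℝ, |s| ≤ ρ → Real.exp j • ac P (w.E z) + s • g ∈ Y) :
    volume X ≤ ENNReal.ofReal (Real.exp (-3 * j) / (w.c * N)) *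
      ∫⁻ ξ in Y, ENNReal.ofReal (ker ρ (Om (cs (P *ᵥ w.v0)) ξ / N)) := by
  have hm : MeasurableSet {ξ : V | |Om (cs (P *ᵥ w.v0)) ξ / N| ≤ ρ} := by
    refine (isClosed_le ?_ continuous_const).measurableSet
    unfold Om
    fun_prop
  have hk : 0 < Real.exp (3 * j) * w.c * N := mul_pos (mul_pos (Real.exp_pos _) w.c0) hN
  have h1 : (fun q : (Fin 3 → ℝ) × ℝ => Real.exp j • ac P (w.E q.1) + q.2 • g) ''
      (X ×ˢ Set.Icc (-ρ) ρ) ⊆ Y ∩ {ξ : V | |Om (cs (P *ᵥ w.v0)) ξ / N| ≤ ρ} := by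
    rintro _ ⟨⟨z, s⟩, ⟨hz, hs⟩, rfl⟩
    refine ⟨h z hz s (abs_le.2 hs), ?_⟩
    simp only [Set.mem_ofPred_eq]
    rw [Om_add, Om_smul, Om_smul, o3a_E w hP, hg, mul_zero, zero_add, mul_div_cancel_right₀ _ hN.ne']
    exact abs_le.2 hs
  have h2 := measure_mono (μ := volume) h1
  rw [theta_vol w hP j hN hg, Measure.volume_eq_prod, Measure.prod_prod, Real.volume_Icc] at h2
  have h3 : ENNReal.ofReal (1 / (2 * ρ)) *
      volume (Y ∩ {ξ : V | |Om (cs (P *ᵥ w.v0)) ξ / N| ≤ ρ}) ≤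
      ∫⁻ ξ in Y, ENNReal.ofReal (ker ρ (Om (cs (P *ᵥ w.v0)) ξ / N)) := by
    rw [← setLIntegral_const]
    refine le_trans (setLIntegral_mono' (hY.inter hm) fun ξ hξ => ENNReal.ofReal_le_ofReal ?_)
      (lintegral_mono_set Set.inter_subset_left)
    have h4 : (Om (cs (P *ᵥ w.v0)) ξ / N) ^ 2 ≤ ρ ^ 2 := sq_le_sq' (abs_le.1 hξ.2).1 (abs_le.1 hξ.2).2
    have h5 : -(1 / 2 : ℝ) ≤ -(Om (cs (P *ᵥ w.v0)) ξ / N) ^ 2 / (2 * ρ ^ 2) := by
      rw [le_div_iff₀ (by positivity)]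
      linarith
    have h6 := Real.add_one_le_exp (-(Om (cs (P *ᵥ w.v0)) ξ / N) ^ 2 / (2 * ρ ^ 2))
    rw [ker, ← div_div]
    exact div_le_div_of_nonneg_right (by linarith) hρ.le
  refine le_trans (le_of_eq ?_) (mul_le_mul_right ((mul_le_mul_right h2 _).trans h3) _)
  have e : Real.exp (-3 * j) / (w.c * N) * (1 / (2 * ρ) * (Real.exp (3 * j) * w.c * N *
      (ρ - -ρ))) = 1 := by
    have hc := w.c0.ne'
    have he := (Real.exp_pos (3 * j)).ne'
    rw [neg_mul, Real.exp_neg]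
    field_simp
    ring
  have e' := congrArg ENNReal.ofReal e
  rw [ENNReal.ofReal_mul (div_pos (Real.exp_pos _) (mul_pos w.c0 hN)).le,
    ENNReal.ofReal_mul (by positivity), ENNReal.ofReal_mul hk.le, ENNReal.ofReal_one] at e'
  rw [mul_comm (volume X), ← mul_assoc (ENNReal.ofReal (Real.exp (3 * j) * w.c * N)),
    ← mul_assoc (ENNReal.ofReal (1 / (2 * ρ))), ← mul_assoc, e', one_mul]

end Pool.Agent.TW
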