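import Pool.Agent.Lib.MP_4eaecc_an.G5a
import Pool.Agent.Lib.MP_4eaecc_an.O3a

/-! Thickening the hyperplane; mass and number of atoms. -/

namespace Pool.Agent.TW

open Matrix MeasureTheory Filter Topology
open scoped ENNReal NNReal

/-- `q` is the state at time `t` of a good point of the family. -/
def Atom (w : Par) (R δ t : ℝ) (q : Ty × Mat) : Prop :=
  ∃ z ∈ ZR R, GoodAt δ .L (w.y z) t ∧ St .L (w.y z) t = q

theorem o3_pos {a : V} (h : ∀ j, 0 ≤ a j) (b : Bool) (i : Fin 3) : 0 ≤ ev (ed .L b i) a := by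
  cases b <;> fin_cases i <;> simp [ed, eR, eL, ev_four, h]

theorem atom_mb (w : Par) (R : ℝ) {δ : ℝ} (hδ : 0 < δ) : ∃ C : ℝ, 0 < C ∧ ∀ t q, 0 ≤ t →
    Atom w R δ t q → Mb q.2 (C * Real.exp t) := by
  have h1 := w.h10
  have h2 := w.h20
  obtain ⟨M, M0, M1, M2⟩ : ∃ M : ℝ, 0 < M ∧ |R| + 1 ≤ M * w.h1 ∧ |R| + 1 ≤ M * w.h2 := by
    refine ⟨(|R| + 1) / w.h1 + (|R| + 1) / w.h2, by positivity, ?_, ?_⟩
    · rw [add_mul, div_mul_cancel₀ _ h1.ne']
      exact le_add_of_nonneg_right (by positivity)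
    · rw [add_mul, div_mul_cancel₀ _ h2.ne']
      exact le_add_of_nonneg_left (by positivity)
  obtain ⟨m, m0, m1, m2, m3⟩ : ∃ m : ℝ, 0 < m ∧ m ≤ w.a ∧ m ≤ w.b ∧ m ≤ 1 :=
    ⟨min w.a (min w.b 1), lt_min w.g5a_a (lt_min w.g5a_b one_pos), min_le_left _ _,
      (min_le_right _ _).trans (min_le_left _ _), (min_le_right _ _).trans (min_le_right _ _)⟩
  refine ⟨2 * ((4 / δ + M) / m), by positivity, ?_⟩
  rintro t _ ht ⟨z, ⟨z1, z2, -⟩, ⟨hb, ⟨σ, hg⟩, -⟩, rfl⟩ i j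
  have z3 : ∀ k, -|R| ≤ z k := fun k =>
    (abs_le.1 (((norm_le_pi_norm z k).trans z1).trans (le_abs_self R))).1
  have e1 : 1 ≤ Real.exp t := Real.one_le_exp ht
  have a1 : ∀ k, m ≤ (w.E z + M • w.eta) k := fun k => by
    fin_cases k <;> simp [Par.E, Par.eta] <;> nlinarith [z3 1, z3 2, w.g5a_a, w.g5a_b]
  have a2 : ∀ k, 0 ≤ (Pi.single j 1 : V) k ∧ (Pi.single j 1 : V) k ≤ 1 := fun k => by
    rw [Pi.single_apply]
    split_ifs <;> norm_num
  have a3 : ‖ac (St .L (w.y z) t).2 (w.E z)‖ ≤ 2 / δ * Real.exp t := by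
    have := hg.norm hδ
    rw [nst, gt, acP, norm_smul, Real.norm_of_nonneg (Real.exp_pos t).le] at this
    exact ((le_mul_of_one_le_left (norm_nonneg _) e1).trans this).trans
      (le_mul_of_one_le_right (by positivity) e1)
  have a4 := norm_le_edges (τ := (St .L (w.y z) t).1) (a := ac (St .L (w.y z) t).2 (Pi.single j 1))
    (K := (4 / δ + M) / m * Real.exp t) fun b k => by
      have k1 := path_nonneg (o3_pos fun l => (a2 l).1) (w.E z) (stage .L (w.y z) (Real.exp t)) b k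
      have k2 := path_nonneg (a := w.E z + M • w.eta - m • Pi.single j 1) (o3_pos fun l =>
        sub_nonneg.2 ((mul_le_of_le_one_right m0.le (a2 l).2).trans (a1 l))) (w.E z)
        (stage .L (w.y z) (Real.exp t)) b k
      rw [ac_sub, ac_add, ac_smul, ac_smul, ev_sub, ev_add, ev_smul, ev_smul] at k2
      have k3 := mul_le_mul_of_nonneg_left (hb.low b k) M0.le
      have k4 := (le_abs_self _).trans ((abs_ed_le (St .L (w.y z) t).1 b k _).trans
        (mul_le_mul_of_nonneg_left a3 zero_le_two))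
      refine (abs_of_nonneg k1).trans_le ?_
      rw [div_mul_eq_mul_div, le_div_iff₀ m0, mul_comm _ m]
      exact (sub_nonneg.1 k2).trans ((add_le_add k4 k3).trans_eq (by ring))
  refine le_trans (le_of_eq ?_) (((norm_le_pi_norm _ i).trans a4).trans_eq (by ring))
  simp [ac, ev, Pi.single_apply]

theorem atom_finite (w : Par) (R : ℝ) {δ : ℝ} (hδ : 0 < δ) {t : ℝ} (ht : 0 ≤ t) :
    {q | Atom w R δ t q}.Finite := by
  obtain ⟨C, -, h⟩ := atom_mb w R hδ
  exact (Set.finite_univ.prod (finite_mb (C * Real.exp t))).subset fun q hq =>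
    ⟨trivial, h t q ht hq⟩

theorem o3_E (w : Par) (z : Fin 3 → ℝ) :
    ‖w.E z‖ ≤ (w.a + w.b + 1) * ‖z‖ ∧ ‖z‖ ≤ (w.a⁻¹ + 1) * ‖w.E z‖ := by
  have ha := w.g5a_a
  have hb := w.g5a_b
  have h1 := norm_le_pi_norm z
  have h2 := norm_le_pi_norm (w.E z)
  have h3 := norm_nonneg z
  have h4 := norm_nonneg (w.E z)
  constructor <;> refine (pi_norm_le_iff_of_nonneg (by positivity)).2 fun i => ?_
  · simp only [Real.norm_eq_abs] at h1
    fin_cases i <;> simp [Par.E, abs_of_pos ha, abs_of_pos hb] <;> nlinarith [h1 0, h1 1, h1 2]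
  · have k0 := h2 0
    have k1 := h2 2
    have k2 := h2 3
    have k3 : 0 ≤ w.a⁻¹ * ‖w.E z‖ := by positivity
    simp only [Par.E, cons_val_zero, norm_mul, Real.norm_of_nonneg ha.le, cons_val] at k0 k1 k2
    rw [← le_inv_mul_iff₀ ha] at k0
    rw [add_one_mul]
    fin_cases i
    · exact k0.trans (le_add_of_nonneg_right h4)
    · exact k1.trans (le_add_of_nonneg_left k3)
    · exact k2.trans (le_add_of_nonneg_left k3)

theorem o3_one (w : Par) (R : ℝ) {δ : ℝ} (hδ : 0 < δ) (h1 : δ ≤ 1) : ∃ K R' : ℝ, 0 ≤ K ∧ 0 ≤ R' ∧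
    ∀ t q, Atom w R δ t q → ENNReal.ofReal (Real.exp (-3 * t) / ‖cs (q.2 *ᵥ w.v0)‖) ≤
      ENNReal.ofReal K * volume {z | St .L (w.y z) t = q ∧ ‖z‖ ≤ R'} := by
  have ha := w.g5a_a
  have hb := w.g5a_b
  have hc := w.c0
  obtain ⟨r, hr⟩ : ∃ r, r = δ / 78 := ⟨_, rfl⟩
  have r0 : 0 < r := by rw [hr]; positivity
  refine ⟨w.c * (12 * r) / (2 * r) ^ 4, (w.a⁻¹ + 1) * (4 / (δ / 2 * δ) * ((w.a + w.b + 1) * |R|)),
    by positivity, by positivity, ?_⟩
  rintro t _ ⟨z, ⟨z1, -⟩, ⟨hB, ⟨σ, hg⟩, -⟩, rfl⟩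
  have hP := St_symp .L (w.y z) t
  have hN : 0 < ‖cs ((St .L (w.y z) t).2 *ᵥ w.v0)‖ := one_pos.trans_le (w.one_le_lev z t)
  obtain ⟨g, g1, g2⟩ := exists_dual (cs ((St .L (w.y z) t).2 *ᵥ w.v0))
  have h2 : Om (cs ((St .L (w.y z) t).2 *ᵥ w.v0)) (nst .L (w.y z) t).1 = 0 := by
    rw [nst, gt, acP, Om_smul, ← ac_cs, hP.Om_ac, Om_swap, Par.y, w.Om_E, neg_zero, mul_zero]
  have key := theta_vol w hP t hN g2 ({x | St .L (w.y x) t = St .L (w.y z) t ∧
    ‖x‖ ≤ (w.a⁻¹ + 1) * (4 / (δ / 2 * δ) * ((w.a + w.b + 1) * |R|))} ×ˢ Set.Icc (-(6 * r)) (6 * r))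
  have h3 := (measure_mono (s := Metric.closedBall (nst .L (w.y z) t).1 r) fun ξ hξ => by
    obtain ⟨x, hx⟩ := theta_surj w hP t hN g2 ξ
    rw [mem_closedBall_iff_norm] at hξ
    have k1 : |Om (cs ((St .L (w.y z) t).2 *ᵥ w.v0)) ξ / ‖cs ((St .L (w.y z) t).2 *ᵥ w.v0)‖| ≤
        6 * r := by
      rw [abs_div, abs_of_pos hN, div_le_iff₀ hN, ← sub_zero (Om _ ξ), ← h2, ← Om_sub]
      exact (abs_Om_le _ _).trans ((mul_le_mul_of_nonneg_left hξ (by positivity)).trans_eq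
        (by ring))
    generalize Om _ ξ / _ = s at hx k1
    have k2 := hg.near hδ h1 (ζ := Real.exp t • ac (St .L (w.y z) t).2 (w.E x)) (by
      rw [← sub_eq_iff_eq_add.2 hx, sub_right_comm]
      refine (norm_sub_le _ _).trans ?_
      rw [norm_smul, Real.norm_eq_abs]
      linarith [mul_le_mul k1 g1 (norm_nonneg _) (by positivity)])
    have k3 := (k2.sg (half_pos hδ)).smul (Real.exp_pos (-t))
    rw [smul_smul, ← Real.exp_add, neg_add_cancel, Real.exp_zero, one_smul,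
      ← g5a_sg (hg.sg hδ)] at k3
    refine ⟨(x, s), ⟨⟨(St_markov hB k3).1, (o3_E w x).2.trans (mul_le_mul_of_nonneg_left
      ((back_norm hB.act.2.1 (half_pos hδ) hδ (Real.exp_pos t) k2 hg).trans
        (mul_le_mul_of_nonneg_left ((o3_E w z).1.trans (mul_le_mul_of_nonneg_left
          (z1.trans (le_abs_self R)) (by positivity))) (by positivity))) (by positivity))⟩,
      abs_le.1 k1⟩, hx.symm⟩).trans_eq key
  rw [Real.volume_pi_closedBall _ r0.le, Fintype.card_fin, Measure.volume_eq_prod,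
    Measure.prod_prod, Real.volume_Icc, mul_comm (volume _), ← mul_assoc,
    ← ENNReal.ofReal_mul (by positivity)] at h3
  generalize ‖cs ((St .L (w.y z) t).2 *ᵥ w.v0)‖ = N at hN h3 ⊢
  have h4 := mul_le_mul_right h3 (ENNReal.ofReal (Real.exp (-3 * t) / N / (2 * r) ^ 4))
  rw [← mul_assoc, ← ENNReal.ofReal_mul (by positivity), ← ENNReal.ofReal_mul (by positivity),
    div_mul_cancel₀ _ (by positivity)] at h4
  convert h4 using 3
  rw [neg_mul, Real.exp_neg]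
  field_simp
  ring

/-- Each atom contains a fat piece, the pieces are disjoint and stay in a bounded set. -/
theorem fat (w : Par) (R : ℝ) {δ : ℝ} (hδ : 0 < δ) (h1 : δ ≤ 1) : ∃ C : ℝ, 0 < C ∧
    ∀ (t : ℝ) (s : Finset (Ty × Mat)), (∀ q ∈ s, Atom w R δ t q) →
    ∑ q ∈ s, Real.exp (-3 * t) / ‖cs (q.2 *ᵥ w.v0)‖ ≤ C := by
  obtain ⟨K, R', K0, R0, h⟩ := o3_one w R hδ h1
  refine ⟨K * (2 * R') ^ 3 + 1, by positivity, fun t s hs => ?_⟩
  refine le_trans ((ENNReal.ofReal_le_ofReal_iff (by positivity)).1 ?_) (le_add_of_nonneg_right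
    zero_le_one)
  rw [ENNReal.ofReal_sum_of_nonneg fun _ _ => by positivity]
  refine (Finset.sum_le_sum fun q hq => h t q (hs q hq)).trans ?_
  rw [← Finset.mul_sum, ← measure_biUnion_finset
    (f := fun q => {z | St .L (w.y z) t = q ∧ ‖z‖ ≤ R'}) (fun q _ q' _ e => Set.disjoint_left.2
    fun z k k' => e (k.1.symm.trans k'.1)) fun q _ => ((continuous_y w).measurable
      (meas_St .L t q)).inter (measurableSet_le measurable_norm measurable_const),
    ENNReal.ofReal_mul K0]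
  refine mul_le_mul_right ((measure_mono (t := Metric.closedBall 0 R') ?_).trans_eq ?_) _
  · exact Set.iUnion₂_subset fun q _ z hz => mem_closedBall_zero_iff.2 hz.2
  · rw [Real.volume_pi_closedBall _ R0, Fintype.card_fin]

end Pool.Agent.TW
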