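import Pool.Agent.Lib.MP_4eaecc_an.O3
import Pool.Agent.Lib.MP_4eaecc_an.O2

/-! The class is far from rational planes of small height. -/

namespace Pool.Agent.TW

open Matrix MeasureTheory Filter Topology
open scoped ENNReal NNReal

theorem o5_wn_nonneg (v a : Z4) : 0 ≤ wn v a := norm_nonneg _

theorem o5_le_wn (v a : Z4) (i l : Fin 4) : |((v i * a l - v l * a i : ℤ) : ℝ)| ≤ wn v a :=
  norm_le_pi_norm (fun p : Fin 4 × Fin 4 => ((v p.1 * a p.2 - v p.2 * a p.1 : ℤ) : ℝ)) (i, l)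

theorem o5_wn_le {v a : Z4} {X : ℝ} (hX : 0 ≤ X)
    (h : ∀ i l, |((v i * a l - v l * a i : ℤ) : ℝ)| ≤ X) : wn v a ≤ X :=
  (pi_norm_le_iff_of_nonneg hX).mpr fun p => h p.1 p.2

theorem wn_ac {P : Mat} {K : ℝ} (h : Mb P K) (v a : Z4) :
    wn (P *ᵥ v) (P *ᵥ a) ≤ 16 * K ^ 2 * wn v a := by
  have hK : 0 ≤ K := (abs_nonneg _).trans (h 0 0)
  have hw := o5_wn_nonneg v a
  refine o5_wn_le (by positivity) fun i l => ?_
  have e : (((P *ᵥ v) i * (P *ᵥ a) l - (P *ᵥ v) l * (P *ᵥ a) i : ℤ) : ℝ) =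
      ∑ p : Fin 4 × Fin 4, (P i p.1 : ℝ) * P l p.2 * ((v p.1 * a p.2 - v p.2 * a p.1 : ℤ) : ℝ) := by
    simp only [mulVec, dotProduct, Fintype.sum_prod_type, Fin.sum_univ_four]
    push_cast
    ring
  rw [e]
  refine (Finset.abs_sum_le_sum_abs _ _).trans ?_
  have k : ∀ p ∈ (Finset.univ : Finset (Fin 4 × Fin 4)),
      |(P i p.1 : ℝ) * P l p.2 * ((v p.1 * a p.2 - v p.2 * a p.1 : ℤ) : ℝ)| ≤ K * K * wn v a := by
    intro p _
    rw [abs_mul, abs_mul]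
    exact mul_le_mul (mul_le_mul (h _ _) (h _ _) (abs_nonneg _) hK) (o5_le_wn v a _ _)
      (abs_nonneg _) (by positivity)
  refine (Finset.sum_le_sum k).trans (le_of_eq ?_)
  simp only [Finset.sum_const, Finset.card_univ, Fintype.card_prod, Fintype.card_fin, nsmul_eq_mul]
  push_cast
  ring

theorem o5_exists_idx (u : V) : ∃ i, |u i| = ‖u‖ := by
  obtain ⟨i, -, hi⟩ := Finset.exists_max_image Finset.univ (fun i => |u i|) Finset.univ_nonempty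
  exact ⟨i, le_antisymm (norm_le_pi_norm u i)
    ((pi_norm_le_iff_of_nonneg (abs_nonneg _)).mpr fun j => hi j (Finset.mem_univ j))⟩

/-- The minors of `v` and `a` that contain the index `i`. -/
def o5b (v a : Z4) (i : Fin 4) : Z4 := fun l => v i * a l - v l * a i

theorem o5b_ne {v a : Z4} {i : Fin 4} (hv : v i ≠ 0) (h : wn v a ≠ 0) : o5b v a i ≠ 0 := by
  intro hb
  refine h (le_antisymm (o5_wn_le le_rfl fun k l => ?_) (o5_wn_nonneg v a))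
  have h1 : v i * a l - v l * a i = 0 := congrFun hb l
  have h2 : v i * a k - v k * a i = 0 := congrFun hb k
  have h3 : v i * (v k * a l - v l * a k) = 0 := by linear_combination v k * h1 - v l * h2
  rw [(mul_eq_zero.mp h3).resolve_left hv]
  simp

theorem o5b_dec {v : Z4} {i : Fin 4} (hv : (v i : ℝ) ≠ 0) (a : Z4) :
    cs a = ((a i : ℝ) / v i) • cs v + (1 / (v i : ℝ)) • cs (o5b v a i) := by
  funext l
  simp only [cs, o5b, Pi.add_apply, Pi.smul_apply, smul_eq_mul]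
  push_cast
  field_simp
  ring

theorem o5b_norm (v a : Z4) (i : Fin 4) : ‖cs (o5b v a i)‖ ≤ wn v a :=
  (pi_norm_le_iff_of_nonneg (o5_wn_nonneg v a)).mpr fun l => o5_le_wn v a i l

theorem o5b_par {v a a' : Z4} {i : Fin 4} (h : 2 * wn v a ^ 2 < |(v i : ℝ)|)
    (h' : 2 * wn v a' ^ 2 < |(v i : ℝ)|) (k l : Fin 4) :
    o5b v a i k * o5b v a' i l = o5b v a i l * o5b v a' i k := by
  have hd : v i ∣ o5b v a i k * o5b v a' i l - o5b v a i l * o5b v a' i k :=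
    ⟨v i * (a k * a' l - a l * a' k) - v l * a k * a' i - v k * a i * a' l + v k * a l * a' i +
      v l * a i * a' k, by simp only [o5b]; ring⟩
  refine sub_eq_zero.mp (Int.eq_zero_of_abs_lt_dvd ((abs_dvd _ _).mpr hd) ?_)
  have h1 : |((o5b v a i k : ℤ) : ℝ)| ≤ wn v a := o5_le_wn v a i k
  have h2 : |((o5b v a i l : ℤ) : ℝ)| ≤ wn v a := o5_le_wn v a i l
  have h3 : |((o5b v a' i k : ℤ) : ℝ)| ≤ wn v a' := o5_le_wn v a' i k
  have h4 : |((o5b v a' i l : ℤ) : ℝ)| ≤ wn v a' := o5_le_wn v a' i l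
  have h5 := mul_le_mul h1 h4 (abs_nonneg _) (o5_wn_nonneg _ _)
  have h6 := mul_le_mul h2 h3 (abs_nonneg _) (o5_wn_nonneg _ _)
  rw [← abs_mul] at h5 h6
  have h7 := abs_sub ((o5b v a i k : ℝ) * o5b v a' i l) ((o5b v a i l : ℝ) * o5b v a' i k)
  have h8 : |(o5b v a i k : ℝ) * o5b v a' i l - (o5b v a i l : ℝ) * o5b v a' i k| < |(v i : ℝ)| := by
    nlinarith [sq_nonneg (wn v a - wn v a')]
  exact_mod_cast h8

/-- Two short wedges are proportional: there is one direction `d` for all of them. -/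
theorem one_plane (v : Z4) (hv : v ≠ 0) : ∃ (d : V) (i : Fin 4), ‖d‖ = 1 ∧ d i = 0 ∧
    |(v i : ℝ)| = ‖cs v‖ ∧ ∀ a : Z4, wn v a ≠ 0 → 2 * wn v a ^ 2 < ‖cs v‖ →
      ∃ x y : ℝ, cs a = x • cs v + y • d ∧ 1 / ‖cs v‖ ≤ |y| := by
  obtain ⟨i, hi⟩ := o5_exists_idx (cs v)
  have hi' : |(v i : ℝ)| = ‖cs v‖ := hi
  have hN := one_le_norm_cs hv
  have hvi : (v i : ℝ) ≠ 0 := abs_pos.mp (by linarith)
  have hvi' : v i ≠ 0 := by exact_mod_cast hvi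
  by_cases hex : ∃ a : Z4, wn v a ≠ 0 ∧ 2 * wn v a ^ 2 < ‖cs v‖
  · obtain ⟨a0, h0, h0'⟩ := hex
    have hb0 := o5b_ne hvi' h0
    have hn0 := one_le_norm_cs hb0
    obtain ⟨k, hk⟩ := Function.ne_iff.mp hb0
    have hk' : (o5b v a0 i k : ℝ) ≠ 0 := by exact_mod_cast hk
    have hd : ‖‖cs (o5b v a0 i)‖⁻¹ • cs (o5b v a0 i)‖ = 1 := by
      rw [norm_smul, norm_inv, norm_norm, inv_mul_cancel₀ (by linarith)]
    refine ⟨‖cs (o5b v a0 i)‖⁻¹ • cs (o5b v a0 i), i, hd, by simp [cs, o5b], hi', fun a ha ha' => ?_⟩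
    have e : cs (o5b v a i) = ((o5b v a i k : ℝ) / o5b v a0 i k * ‖cs (o5b v a0 i)‖) •
        ‖cs (o5b v a0 i)‖⁻¹ • cs (o5b v a0 i) := by
      funext l
      have h1 : (o5b v a i k : ℝ) * o5b v a0 i l = (o5b v a i l : ℝ) * o5b v a0 i k := by
        exact_mod_cast o5b_par (hi' ▸ ha') (hi' ▸ h0') k l
      have h2 : ‖cs (o5b v a0 i)‖ ≠ 0 := by linarith
      simp only [Pi.smul_apply, smul_eq_mul]
      show (o5b v a i l : ℝ) = _ * (_ * (o5b v a0 i l : ℝ))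
      field_simp
      linarith
    obtain ⟨μ, hμ⟩ : ∃ μ : ℝ, cs (o5b v a i) = μ • ‖cs (o5b v a0 i)‖⁻¹ • cs (o5b v a0 i) := ⟨_, e⟩
    have h3 := one_le_norm_cs (o5b_ne hvi' ha)
    rw [hμ, norm_smul, hd, mul_one, Real.norm_eq_abs] at h3
    refine ⟨a i / v i, 1 / (v i : ℝ) * μ, ?_, ?_⟩
    · rw [mul_smul, ← hμ]
      exact o5b_dec hvi a
    · rw [abs_mul, abs_div, abs_one, hi']
      exact le_mul_of_one_le_right (by positivity) h3
  · refine ⟨Pi.single (i + 1) 1, i, by simp [Pi.norm_single], ?_, hi',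
      fun a ha ha' => absurd ⟨a, ha, ha'⟩ hex⟩
    fin_cases i <;> simp

theorem strip_vol (R : ℝ) : ∃ C : ℝ, 0 < C ∧ ∀ (d : V) (θ : ℝ), ‖d‖ = 1 → 0 ≤ θ →
    volume {ξ : V | ‖ξ‖ ≤ R ∧ |Om ξ d| ≤ θ} ≤ ENNReal.ofReal (C * θ) := by
  refine ⟨2 * (2 * (|R| + 2)) ^ 4, by positivity, fun d θ hd hθ => ?_⟩
  obtain ⟨u, hu, hdu⟩ := exists_dual d
  have hm : MeasurableSet {ξ : V | ‖ξ‖ ≤ R ∧ |Om ξ d| ≤ θ} := by
    have k : Continuous fun ξ : V => |Om ξ d| := by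
      unfold Om
      fun_prop
    exact ((isClosed_le (continuous_norm (E := V)) continuous_const).inter
      (isClosed_le k continuous_const)).measurableSet
  have h1 := line_avg (volume : Measure V) hm u 1
  rw [ENNReal.ofReal_one, one_mul] at h1
  rw [h1]
  have h2 : ∀ z : V, volume {s ∈ Set.Icc (0 : ℝ) 1 | z + s • u ∈ {ξ : V | ‖ξ‖ ≤ R ∧ |Om ξ d| ≤ θ}} ≤
      (Metric.closedBall (0 : V) (|R| + 2)).indicator (fun _ => ENNReal.ofReal (2 * θ)) z := by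
    intro z
    by_cases hz : z ∈ Metric.closedBall (0 : V) (|R| + 2)
    · rw [Set.indicator_of_mem hz]
      refine (measure_mono (t := Set.Icc (Om z d - θ) (Om z d + θ)) fun s hs => ?_).trans ?_
      · have k := hs.2.2
        rw [add_Om, smul_Om, Om_swap u d, hdu, hd, abs_le] at k
        exact ⟨by linarith [k.2], by linarith [k.1]⟩
      · rw [Real.volume_Icc]
        exact ENNReal.ofReal_le_ofReal (by linarith)
    · rw [Set.indicator_of_notMem hz]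
      refine (measure_mono (t := ∅) fun s hs => hz ?_).trans (by simp)
      have k1 : ‖z + s • u‖ ≤ R := hs.2.1
      have k2 : ‖s • u‖ ≤ 2 := by
        rw [norm_smul, Real.norm_of_nonneg hs.1.1]
        exact (mul_le_of_le_one_left (norm_nonneg _) hs.1.2).trans hu
      have k3 := norm_sub_le (z + s • u) (s • u)
      rw [add_sub_cancel_right] at k3
      rw [mem_closedBall_zero_iff]
      linarith [le_abs_self R]
  refine (lintegral_mono h2).trans ?_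
  rw [lintegral_indicator_const measurableSet_closedBall,
    Real.volume_pi_closedBall _ (by positivity), ← ENNReal.ofReal_mul (by positivity)]
  refine ENNReal.ofReal_le_ofReal (le_of_eq ?_)
  simp only [Fintype.card_fin]
  ring

theorem o5_dual (i : Fin 4) : ∃ g : V, ‖g‖ ≤ 1 ∧ ∀ u : V, Om u g = u i := by
  refine ⟨fun j => (Ji j i : ℝ), (pi_norm_le_iff_of_nonneg zero_le_one).mpr fun j => ?_, fun u => ?_⟩
  · fin_cases i <;> fin_cases j <;> simp [Ji]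
  · fin_cases i <;> simp [Om, Ji]

/-- The part of the hyperplane of an atom that lies in a strip. -/
theorem o5_atom (w : Par) (R : ℝ) : ∃ C : ℝ, 0 < C ∧ ∀ (P : Mat) (t θ : ℝ) (d : V) (i : Fin 4),
    Symp P → 0 ≤ θ → ‖d‖ = 1 → d i = 0 → |((P *ᵥ w.v0) i : ℝ)| = ‖cs (P *ᵥ w.v0)‖ →
    0 < ‖cs (P *ᵥ w.v0)‖ →
    volume {z | ‖Real.exp t • ac P (w.E z)‖ ≤ R ∧ |Om (Real.exp t • ac P (w.E z)) d| ≤ θ} ≤
      ENNReal.ofReal (C * θ * (Real.exp (-3 * t) / ‖cs (P *ᵥ w.v0)‖)) := by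
  obtain ⟨C, hC, H⟩ := strip_vol (R + 1)
  have hc := w.c0
  refine ⟨C / w.c, by positivity, fun P t θ d i hP hθ hd hdi hi hN => ?_⟩
  obtain ⟨g, hg1, hg⟩ := o5_dual i
  obtain ⟨ε, hε, hεv⟩ : ∃ ε : ℝ, |ε| = 1 ∧ ε * ((P *ᵥ w.v0) i : ℝ) = ‖cs (P *ᵥ w.v0)‖ := by
    rcases abs_choice ((P *ᵥ w.v0) i : ℝ) with h | h
    · exact ⟨1, abs_one, by linarith⟩
    · exact ⟨-1, by simp, by linarith⟩
  have h1 : Om (cs (P *ᵥ w.v0)) (ε • g) = ‖cs (P *ᵥ w.v0)‖ := by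
    rw [Om_smul, hg]
    exact hεv
  set X := {z | ‖Real.exp t • ac P (w.E z)‖ ≤ R ∧ |Om (Real.exp t • ac P (w.E z)) d| ≤ θ} with hX
  have h2 := theta_vol w hP t hN h1 (X ×ˢ Set.Icc (0 : ℝ) 1)
  rw [Measure.volume_eq_prod, Measure.prod_prod, Real.volume_Icc, sub_zero, ENNReal.ofReal_one,
    mul_one] at h2
  have h3 : volume ((fun q : (Fin 3 → ℝ) × ℝ => Real.exp t • ac P (w.E q.1) + q.2 • ε • g) ''
      (X ×ˢ Set.Icc (0 : ℝ) 1)) ≤ ENNReal.ofReal (C * θ) := by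
    refine (measure_mono ?_).trans (H d θ hd hθ)
    rintro _ ⟨⟨z, s⟩, ⟨⟨k1, k2⟩, k3, k4⟩, rfl⟩
    refine ⟨(norm_add_le _ _).trans (add_le_add k1 ?_), ?_⟩
    · rw [norm_smul, norm_smul, Real.norm_eq_abs ε, hε, one_mul, Real.norm_of_nonneg k3]
      exact (mul_le_of_le_one_left (norm_nonneg _) k4).trans hg1
    · rw [add_Om, smul_Om (ε • g), smul_Om g, Om_swap g d, hg, hdi]
      simpa using k2
  rw [h2] at h3
  have hD : 0 < Real.exp (3 * t) * w.c * ‖cs (P *ᵥ w.v0)‖ := by positivity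
  have h4 : volume X = ENNReal.ofReal (Real.exp (3 * t) * w.c * ‖cs (P *ᵥ w.v0)‖)⁻¹ *
      (ENNReal.ofReal (Real.exp (3 * t) * w.c * ‖cs (P *ᵥ w.v0)‖) * volume X) := by
    rw [← mul_assoc, ← ENNReal.ofReal_mul (by positivity), inv_mul_cancel₀ hD.ne',
      ENNReal.ofReal_one, one_mul]
  rw [h4]
  refine (mul_le_mul_right h3 _).trans ?_
  rw [← ENNReal.ofReal_mul (by positivity)]
  refine ENNReal.ofReal_le_ofReal (le_of_eq ?_)
  rw [neg_mul, Real.exp_neg]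
  field_simp

/-- A short wedge at the later time puts the widths at the earlier time into a strip. -/
theorem o5_pt {δ l a X : ℝ} (hδ : 0 < δ) (hl : 0 < l) (hX : 0 < X) {M : Mat} (hM : Symp M)
    (hb : Mb M (4 * Real.exp a / δ)) {v : Z4} {ξ d : V} (hv : Om ξ (cs v) = 0)
    (hξ : ‖Real.exp a • ac M ξ‖ ≤ 2 / δ) (hN : 1 ≤ ‖cs v‖) (hlev : l * ‖cs v‖ ≤ ‖cs (M *ᵥ v)‖)
    (hC : (2 * (4096 / δ ^ 2) ^ 2 + 1) * Real.exp (4 * a) * X ^ 2 ≤ ‖cs v‖)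
    (hd : ∀ b : Z4, wn v b ≠ 0 → 2 * wn v b ^ 2 < ‖cs v‖ →
      ∃ x y : ℝ, cs b = x • cs v + y • d ∧ 1 / ‖cs v‖ ≤ |y|)
    (hV : ¬ Vbig (M *ᵥ v) X) : |Om ξ d| ≤ 12 / (δ * l) * (Real.exp (-a) * X) := by
  unfold Vbig at hV
  push Not at hV
  obtain ⟨b, ⟨i0, l0, hb0⟩, hbX⟩ := hV
  have hw : wn (M *ᵥ v) b ≤ X := o5_wn_le hX.le fun i l => (hbX i l).le
  have e1 : sinv M *ᵥ (M *ᵥ v) = v := by rw [mulVec_mulVec, hM.sinv_mul, one_mulVec]
  have e2 : M *ᵥ (sinv M *ᵥ b) = b := by rw [mulVec_mulVec, hM.mul_sinv, one_mulVec]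
  have h1 := wn_ac hb.sinv (M *ᵥ v) b
  have h2 := wn_ac hb v (sinv M *ᵥ b)
  rw [e1] at h1
  rw [e2] at h2
  have h3 : wn v (sinv M *ᵥ b) ≠ 0 := by
    intro h
    rw [h, mul_zero] at h2
    have k := (o5_le_wn (M *ᵥ v) b i0 l0).trans h2
    have k2 : (((M *ᵥ v) i0 * b l0 - (M *ᵥ v) l0 * b i0 : ℤ) : ℝ) = 0 := abs_nonpos_iff.mp k
    exact hb0 (sub_eq_zero.mp (by exact_mod_cast k2))
  have hE := Real.exp_pos a
  have h4 : wn v (sinv M *ᵥ b) ≤ 4096 / δ ^ 2 * Real.exp a ^ 2 * X := by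
    refine h1.trans ((mul_le_mul_of_nonneg_left hw (by positivity)).trans (le_of_eq ?_))
    field_simp
    norm_num
  have h5 : 2 * wn v (sinv M *ᵥ b) ^ 2 < ‖cs v‖ := by
    have k1 := pow_le_pow_left₀ (o5_wn_nonneg _ _) h4 2
    have k2 : Real.exp (4 * a) = Real.exp a ^ 4 := by
      rw [← Real.exp_nat_mul]
      norm_num
    have k3 : 0 < Real.exp a ^ 4 * X ^ 2 := by positivity
    rw [k2] at hC
    nlinarith
  obtain ⟨x, y, hxy, hy⟩ := hd _ h3 h5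
  have h6 : Om ξ (cs (sinv M *ᵥ b)) = y * Om ξ d := by
    rw [hxy, Om_add, Om_smul, Om_smul, hv, mul_zero, zero_add]
  have h7 : Om (ac M ξ) (cs b) = y * Om ξ d := by
    rw [← h6, ← hM.Om_ac ξ, ac_cs, e2]
  have h8 : Om (ac M ξ) (cs (M *ᵥ v)) = 0 := by rw [← ac_cs, hM.Om_ac, hv]
  obtain ⟨i, hi⟩ := o5_exists_idx (cs (M *ᵥ v))
  have hi' : |((M *ᵥ v) i : ℝ)| = ‖cs (M *ᵥ v)‖ := hi
  have hN' : 0 < ‖cs (M *ᵥ v)‖ := lt_of_lt_of_le (by positivity) hlev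
  have hvi : ((M *ᵥ v) i : ℝ) ≠ 0 := abs_pos.mp (by linarith)
  rw [o5b_dec hvi b, Om_add, Om_smul, Om_smul, h8, mul_zero, zero_add] at h7
  have h9 := congrArg abs h7
  rw [abs_mul, abs_mul, abs_div, abs_one, hi'] at h9
  have h10 : ‖ac M ξ‖ ≤ Real.exp (-a) * (2 / δ) := by
    rw [norm_smul, Real.norm_of_nonneg hE.le] at hξ
    rw [Real.exp_neg, inv_mul_eq_div, le_div_iff₀ hE]
    linarith
  have h11 : |Om (ac M ξ) (cs (o5b (M *ᵥ v) b i))| ≤ 6 * (Real.exp (-a) * (2 / δ)) * X :=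
    (abs_Om_le _ _).trans (mul_le_mul (by linarith) ((o5b_norm _ _ _).trans hw) (norm_nonneg _)
      (by positivity))
  have h12 : 1 / ‖cs v‖ * |Om ξ d| ≤ 1 / (l * ‖cs v‖) * (6 * (Real.exp (-a) * (2 / δ)) * X) := by
    refine (mul_le_mul_of_nonneg_right hy (abs_nonneg _)).trans ?_
    rw [← h9]
    exact mul_le_mul (one_div_le_one_div_of_le (by positivity) hlev) h11 (abs_nonneg _)
      (by positivity)
  refine le_of_mul_le_mul_left (h12.trans (le_of_eq ?_)) (by positivity : 0 < 1 / ‖cs v‖)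
  field_simp
  norm_num

theorem vbigZ (w : Par) (R : ℝ) {δ l : ℝ} (hδ : 0 < δ) (h1 : δ ≤ 1) (hl : 0 < l) :
    ∃ C : ℝ, 0 < C ∧ ∀ t a X : ℝ, 0 ≤ t → 0 ≤ a → 0 < X →
    volume {z ∈ ZR R | GoodAt δ .L (w.y z) t ∧ GoodAt δ .L (w.y z) (t + a) ∧
      l * w.lev z t ≤ w.lev z (t + a) ∧ C * Real.exp (4 * a) * X ^ 2 ≤ w.lev z t ∧
      ¬ Vbig (w.v z (t + a)) X} ≤ ENNReal.ofReal (C * Real.exp (-a) * X) := by
  obtain ⟨C1, hC1, H1⟩ := o5_atom w (2 / δ)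
  obtain ⟨C2, hC2, H2⟩ := fat w R hδ h1
  refine ⟨(2 * (4096 / δ ^ 2) ^ 2 + 1) + C1 * (12 / (δ * l)) * C2, by positivity,
    fun t a X ht ha hX => ?_⟩
  have hne : ∀ q, Atom w R δ t q → Symp q.2 ∧ 1 ≤ ‖cs (q.2 *ᵥ w.v0)‖ := by
    rintro _ ⟨z, -, -, rfl⟩
    exact ⟨St_symp _ _ _, w.one_le_lev z t⟩
  have hex : ∀ q : Ty × Mat, ∃ (d : V) (i : Fin 4), Atom w R δ t q → ‖d‖ = 1 ∧ d i = 0 ∧
      |((q.2 *ᵥ w.v0) i : ℝ)| = ‖cs (q.2 *ᵥ w.v0)‖ ∧ ∀ b : Z4, wn (q.2 *ᵥ w.v0) b ≠ 0 →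
      2 * wn (q.2 *ᵥ w.v0) b ^ 2 < ‖cs (q.2 *ᵥ w.v0)‖ →
      ∃ x y : ℝ, cs b = x • cs (q.2 *ᵥ w.v0) + y • d ∧ 1 / ‖cs (q.2 *ᵥ w.v0)‖ ≤ |y| := by
    intro q
    by_cases hq : Atom w R δ t q
    · have h0 : q.2 *ᵥ w.v0 ≠ 0 := by
        intro h
        have k := (hne q hq).2
        have k2 : cs (0 : Z4) = 0 := by funext i; simp [cs]
        rw [h, k2, norm_zero] at k
        linarith
      obtain ⟨d, i, h⟩ := one_plane _ h0
      exact ⟨d, i, fun _ => h⟩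
    · exact ⟨0, 0, fun h => absurd h hq⟩
  choose d i hdi using hex
  have hθ : 0 ≤ 12 / (δ * l) * (Real.exp (-a) * X) := by positivity
  obtain ⟨s, hs⟩ : ∃ s : Finset (Ty × Mat), ∀ q, q ∈ s ↔ Atom w R δ t q :=
    ⟨(atom_finite w R hδ ht).toFinset, fun q => (atom_finite w R hδ ht).mem_toFinset⟩
  have hsq : ∀ q ∈ s, Atom w R δ t q := fun q hq => (hs q).mp hq
  refine (measure_mono (t := ⋃ q ∈ s, {z | ‖Real.exp t • ac q.2 (w.E z)‖ ≤ 2 / δ ∧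
    |Om (Real.exp t • ac q.2 (w.E z)) (d q)| ≤ 12 / (δ * l) * (Real.exp (-a) * X)}) ?_).trans ?_
  · rintro z ⟨hz, g1, g2, k1, k2, k3⟩
    have hq : Atom w R δ t (St .L (w.y z) t) := ⟨z, hz, g1, rfl⟩
    refine Set.mem_biUnion (show St .L (w.y z) t ∈ (s : Set _) from (hs _).mpr hq) ?_
    obtain ⟨σ1, w1⟩ := g1.2.1
    obtain ⟨σ2, w2⟩ := g2.2.1
    obtain ⟨e1, e2⟩ := St_add g1.1 (le_add_of_nonneg_right ha : t ≤ t + a)
    rw [add_sub_cancel_left] at e1 e2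
    have e3 : w.v z (t + a) =
        (St (St .L (w.y z) t).1 (nst .L (w.y z) t) a).2 *ᵥ ((St .L (w.y z) t).2 *ᵥ w.v0) := by
      rw [mulVec_mulVec]
      unfold Par.v
      rw [e1]
    have n2 := w2.norm hδ
    rw [e2] at n2
    unfold Par.lev at k1 k2
    rw [e3] at k1 k3
    have e4 : (nst .L (w.y z) t).1 = Real.exp t • ac (St .L (w.y z) t).2 (w.E z) := rfl
    have e5 : (nst (St .L (w.y z) t).1 (nst .L (w.y z) t) a).1 = Real.exp a •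
        ac (St (St .L (w.y z) t).1 (nst .L (w.y z) t) a).2 (nst .L (w.y z) t).1 := rfl
    have n1 := w1.norm hδ
    have m1 := mb_St g1.2.2 hδ (g1.1.nst.mono ha)
    have m2 := St_symp (St .L (w.y z) t).1 (nst .L (w.y z) t) a
    have m3 := St_symp .L (w.y z) t
    have m4 : (2 * (4096 / δ ^ 2) ^ 2 + 1) * Real.exp (4 * a) * X ^ 2 ≤
        ‖cs ((St .L (w.y z) t).2 *ᵥ w.v0)‖ := by
      refine le_trans ?_ k2
      refine mul_le_mul_of_nonneg_right (mul_le_mul_of_nonneg_right ?_ (Real.exp_pos _).le)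
        (sq_nonneg _)
      exact le_add_of_nonneg_right (by positivity)
    have m5 : l * ‖cs ((St .L (w.y z) t).2 *ᵥ w.v0)‖ ≤ _ := k1
    rw [e5, e4] at n2
    rw [e4] at n1
    have m6 : Om (Real.exp t • ac (St .L (w.y z) t).2 (w.E z))
        (cs ((St .L (w.y z) t).2 *ᵥ w.v0)) = 0 := by
      rw [smul_Om, ← ac_cs, m3.Om_ac, w.Om_E, mul_zero]
    exact ⟨n1, o5_pt hδ hl hX m2 m1 m6 n2 (hne _ hq).2 m5 m4 (hdi _ hq).2.2.2 k3⟩
  · refine (measure_biUnion_finset_le _ _).trans ?_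
    have k : ∀ q ∈ s, volume {z | ‖Real.exp t • ac q.2 (w.E z)‖ ≤ 2 / δ ∧
        |Om (Real.exp t • ac q.2 (w.E z)) (d q)| ≤ 12 / (δ * l) * (Real.exp (-a) * X)} ≤
        ENNReal.ofReal (C1 * (12 / (δ * l) * (Real.exp (-a) * X)) *
          (Real.exp (-3 * t) / ‖cs (q.2 *ᵥ w.v0)‖)) := by
      intro q hq
      obtain ⟨k1, k2, k3, -⟩ := hdi q (hsq q hq)
      obtain ⟨k4, k5⟩ := hne q (hsq q hq)
      exact H1 q.2 t _ (d q) (i q) k4 hθ k1 k2 k3 (by linarith)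
    refine (Finset.sum_le_sum k).trans ?_
    rw [← ENNReal.ofReal_sum_of_nonneg (fun q _ => by positivity), ← Finset.mul_sum]
    refine ENNReal.ofReal_le_ofReal ((mul_le_mul_of_nonneg_left (H2 t s hsq)
      (by positivity)).trans ?_)
    have : 0 ≤ (2 * (4096 / δ ^ 2) ^ 2 + 1) * Real.exp (-a) * X := by positivity
    linarith

end Pool.Agent.TW
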