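import Mathlib

/-! Genus two translation surfaces with one zero, as triangulations up to flips. -/

namespace Pool.Agent.TW

open Matrix MeasureTheory

/-- The determinant of two plane vectors. -/
def dt (p q : ℝ × ℝ) : ℝ := p.1 * q.2 - p.2 * q.1

/-- Raw data on 18 half-edges: next half-edge of the face, opposite half-edge, edge vector. -/
abbrev Raw := (Fin 18 → Fin 18) × (Fin 18 → Fin 18) × (Fin 18 → ℝ × ℝ)

/-- Six positively oriented plane triangles glued by translations, with a single vertex. -/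
def IsTri (D : Raw) : Prop :=
  (∀ h, D.1 (D.1 (D.1 h)) = h) ∧ (∀ h, D.2.1 (D.2.1 h) = h) ∧
  (∀ h, D.2.2 (D.2.1 h) = -D.2.2 h) ∧
  (∀ h, D.2.2 h + D.2.2 (D.1 h) + D.2.2 (D.1 (D.1 h)) = 0) ∧
  (∀ h, 0 < dt (D.2.2 h) (D.2.2 (D.1 h))) ∧
  (∀ h, ∃ n : ℕ, (D.1 ∘ D.2.1)^[n] 0 = h)

/-- `E` is obtained from `D` by flipping the edge `h`: the triangles `(h, a, b)` and `(k, c, d)`,
`k` opposite to `h`, become `(h, b, c)` and `(k, d, a)`. -/
def FlipAt (D E : Raw) (h : Fin 18) : Prop :=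
  let a := D.1 h
  let b := D.1 a
  let k := D.2.1 h
  let c := D.1 k
  let d := D.1 c
  E.2.1 = D.2.1 ∧ E.1 h = b ∧ E.1 b = c ∧ E.1 c = h ∧ E.1 k = d ∧ E.1 d = a ∧ E.1 a = k ∧
  (∀ e, e ≠ h → e ≠ a → e ≠ b → e ≠ k → e ≠ c → e ≠ d → E.1 e = D.1 e) ∧
  E.2.2 h = D.2.2 d + D.2.2 a ∧ (∀ e, e ≠ h → e ≠ k → E.2.2 e = D.2.2 e)

/-- `E` is `D` with the half-edges renamed by `σ`. -/
def RelabBy (D E : Raw) (σ : Equiv.Perm (Fin 18)) : Prop :=
  ∀ h, E.1 (σ h) = σ (D.1 h) ∧ E.2.1 (σ h) = σ (D.2.1 h) ∧ E.2.2 (σ h) = D.2.2 h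

/-- Triangulated surfaces. -/
def Tri : Type := {D : Raw // IsTri D}

instance : TopologicalSpace Tri := inferInstanceAs (TopologicalSpace {D : Raw // IsTri D})

/-- One flip or one renaming. -/
def Move (S T : Tri) : Prop := (∃ h, FlipAt S.1 T.1 h) ∨ ∃ σ, RelabBy S.1 T.1 σ

/-- The stratum `H(2)`: triangulated surfaces up to flips and renaming, quotient topology. -/
def H2 : Type := Quot Move

instance : TopologicalSpace H2 := inferInstanceAs (TopologicalSpace (Quot Move))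

instance : MeasurableSpace H2 := borel H2

/-- A matrix acts on plane vectors. -/
def mv (g : SpecialLinearGroup (Fin 2) ℝ) (p : ℝ × ℝ) : ℝ × ℝ :=
  (g 0 0 * p.1 + g 0 1 * p.2, g 1 0 * p.1 + g 1 1 * p.2)

theorem dt_mv (g : SpecialLinearGroup (Fin 2) ℝ) (p q : ℝ × ℝ) : dt (mv g p) (mv g q) = dt p q := by
  have h := g.det_coe
  rw [Matrix.det_fin_two] at h
  simp only [dt, mv]
  linear_combination (p.1 * q.2 - p.2 * q.1) * h

theorem mv_add (g : SpecialLinearGroup (Fin 2) ℝ) (p q : ℝ × ℝ) :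
    mv g (p + q) = mv g p + mv g q := by
  ext <;> simp [mv] <;> ring

theorem mv_neg (g : SpecialLinearGroup (Fin 2) ℝ) (p : ℝ × ℝ) : mv g (-p) = -mv g p := by
  ext <;> simp [mv] <;> ring

theorem mv_zero (g : SpecialLinearGroup (Fin 2) ℝ) : mv g 0 = 0 := by
  ext <;> simp [mv]

/-- The linear action on triangulated surfaces. -/
def Tri.act (g : SpecialLinearGroup (Fin 2) ℝ) (T : Tri) : Tri :=
  ⟨(T.1.1, T.1.2.1, fun h => mv g (T.1.2.2 h)), T.2.1, T.2.2.1,
    fun h => by simp only [T.2.2.2.1 h, mv_neg],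
    fun h => by simp only [← mv_add, T.2.2.2.2.1 h, mv_zero],
    fun h => by simp only [dt_mv]; exact T.2.2.2.2.2.1 h, T.2.2.2.2.2.2⟩

theorem Move.act (g : SpecialLinearGroup (Fin 2) ℝ) (S T : Tri) (h : Move S T) :
    Move (S.act g) (T.act g) := by
  rcases h with ⟨e, h1, h2, h3, h4, h5, h6, h7, h8, h9, h10⟩ | ⟨σ, h⟩
  · refine Or.inl ⟨e, h1, h2, h3, h4, h5, h6, h7, h8, ?_, fun x hx hy => ?_⟩
    · simp only [Tri.act]; rw [h9, mv_add]
    · simp only [Tri.act]; rw [h10 x hx hy]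
  · refine Or.inr ⟨σ, fun x => ⟨(h x).1, (h x).2.1, ?_⟩⟩
    simp only [Tri.act]; rw [(h x).2.2]

/-- The action of `SL(2, ℝ)` on the stratum. -/
def act (g : SpecialLinearGroup (Fin 2) ℝ) : H2 → H2 := Quot.map (Tri.act g) (Move.act g)

/-- The diagonal matrix `diag(e^t, e^{-t})`. -/
noncomputable def geo (t : ℝ) : SpecialLinearGroup (Fin 2) ℝ :=
  ⟨!![Real.exp t, 0; 0, Real.exp (-t)], by simp [Matrix.det_fin_two, ← Real.exp_add]⟩

/-- Three parallelograms with sides `(r, l)`, `(q, l)`, `(r, m)`, each cut by the diagonal from its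
first vertex. The first two are glued along the sides `l` into a cycle, the third is glued to
itself along `m`, the sides `r` join the first and the third, the sides `q` are glued together. -/
def three (r q l m : ℝ × ℝ) : Raw :=
  (![1, 2, 0, 4, 5, 3, 7, 8, 6, 10, 11, 9, 13, 14, 12, 16, 17, 15],
   ![16, 11, 3, 2, 12, 7, 10, 5, 9, 8, 6, 1, 4, 17, 15, 14, 0, 13],
   ![r, l, -(r + l), r + l, -r, -l, q, l, -(q + l), q + l, -q, -l, r, m, -(r + m), r + m, -r, -m])

theorem isTri_three {r q l m : ℝ × ℝ} (h1 : 0 < dt r l) (h2 : 0 < dt q l) (h3 : 0 < dt r m) :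
    IsTri (three r q l m) := by
  refine ⟨by simp only [three]; decide, by simp only [three]; decide, fun h => ?_, fun h => ?_,
    fun h => ?_, fun h => ?_⟩
  · fin_cases h <;> simp [three]
  · fin_cases h <;> simp [three] <;> abel
  · simp only [dt] at h1 h2 h3
    fin_cases h <;> simp [three, dt] <;> linarith
  · have : ∀ h : Fin 18, ∃ n : Fin 18, ((three r q l m).1 ∘ (three r q l m).2.1)^[n.1] 0 = h := by
      simp only [three]; decide
    obtain ⟨n, hn⟩ := this h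
    exact ⟨n.1, hn⟩

/-- The surface with two horizontal cylinders of circumferences `a + b` and `a`, heights `h₁`, `h₂`
and twists `x₁`, `x₂`. -/
def surf {a b h₁ h₂ : ℝ} (ha : 0 < a) (hb : 0 < b) (k₁ : 0 < h₁) (k₂ : 0 < h₂) (x₁ x₂ : ℝ) : H2 :=
  Quot.mk Move ⟨three (a, 0) (b, 0) (x₁, h₁) (x₂, h₂),
    isTri_three (by simpa [dt] using mul_pos ha k₁) (by simpa [dt] using mul_pos hb k₁)
      (by simpa [dt] using mul_pos ha k₂)⟩

end Pool.Agent.TW
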