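import Pool.Agent.Lib.MP_4eaecc_an.R1

/-! One step of the algorithm: finite checks (`decide` or cases and `linarith`). -/

namespace Pool.Agent.TW

open Matrix MeasureTheory Filter Topology
open scoped ENNReal

theorem stepS_symp (τ : Ty) (σ : Fin 3 → Bool) : Symp (stepS τ σ).2 := by
  unfold Symp
  revert τ σ
  decide +kernel

/-- A new edge is an old edge of the same side or an old diagonal. -/
theorem step_edge (τ : Ty) (σ : Fin 3 → Bool) (b : Bool) (i : Fin 3) :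
    (∃ j, ed (stepS τ σ).1 b i ᵥ* (stepS τ σ).2 = ed τ b j) ∨
      ∃ j, ed (stepS τ σ).1 b i ᵥ* (stepS τ σ).2 = dg τ j := by
  revert τ σ b i
  decide +kernel

theorem step_new (τ : Ty) (σ : Fin 3 → Bool) (b : Bool) (i : Fin 3) :
    ∃ j, ed (stepS τ σ).1 b i ᵥ* (stepS τ σ).2 = ed τ b j ∨
      ∃ k, ed (stepS τ σ).1 b i ᵥ* (stepS τ σ).2 = ed τ b j + ed τ (!b) k := by
  revert τ σ b i
  decide +kernel

theorem step_old (τ : Ty) (σ : Fin 3 → Bool) (b : Bool) (j : Fin 3) :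
    ∃ i, ed (stepS τ σ).1 b i ᵥ* (stepS τ σ).2 = ed τ b j ∨
      ∃ k, ed (stepS τ σ).1 b i ᵥ* (stepS τ σ).2 = ed τ b j + ed τ (!b) k := by
  revert τ σ b j
  decide +kernel

theorem dg_eq (τ : Ty) (i : Fin 3) :
    (∃ j, dg τ i = eR τ i + eL τ j) ∧ ∃ j, dg τ i = eL τ i + eR τ j := by
  revert τ i
  decide +kernel

private theorem u1_wd (τ : Ty) (ξ : V) (b : Bool) (i : Fin 3) :
    wd τ ξ b i = (if b then 1 else -1) * ev (ed τ b i) ξ := by
  cases b <;> simp [wd, ed]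

private theorem u1_old (τ : Ty) (σ : Fin 3 → Bool) (ζ : V) (b : Bool) (j : Fin 3) :
    ∃ i, wd τ ζ b j = wd (stepS τ σ).1 (ac (stepS τ σ).2 ζ) b i ∨
      ∃ l, wd τ ζ b j = wd (stepS τ σ).1 (ac (stepS τ σ).2 ζ) b i +
        wd (stepS τ σ).1 (ac (stepS τ σ).2 ζ) (!b) l := by
  have key : ∃ i, ed τ b j = ed (stepS τ σ).1 b i ᵥ* (stepS τ σ).2 ∨
      ∃ l, ed τ b j = ed (stepS τ σ).1 b i ᵥ* (stepS τ σ).2 +
        -(ed (stepS τ σ).1 (!b) l ᵥ* (stepS τ σ).2) := by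
    revert τ σ b j
    decide +kernel
  obtain ⟨i, h | ⟨l, h⟩⟩ := key
  · exact ⟨i, .inl (by rw [u1_wd, u1_wd, h, ev_vecMul])⟩
  · refine ⟨i, .inr ⟨l, ?_⟩⟩
    rw [u1_wd, u1_wd, u1_wd, h, add_ev, neg_ev, ev_vecMul, ev_vecMul]
    cases b <;> simp [add_comm]

theorem stepS_wvc (τ : Ty) (σ : Fin 3 → Bool) (ζ : V)
    (h : WVc (stepS τ σ).1 (ac (stepS τ σ).2 ζ)) : WVc τ ζ := by
  intro b j
  obtain ⟨i, k | ⟨l, k⟩⟩ := u1_old τ σ ζ b j
  · exact k ▸ h b i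
  · exact k ▸ add_nonneg (h b i) (h _ l)

theorem step_wv {τ : Ty} {ξ : V} (h : WV τ ξ) (k : NZ τ ξ) :
    WV (stepS τ (sg τ ξ)).1 (ac (stepS τ (sg τ ξ)).2 ξ) := by
  have key : ∀ (τ : Ty) (σ : Fin 3 → Bool) (b : Bool) (i : Fin 3),
      (∃ j, ed (stepS τ σ).1 b i ᵥ* (stepS τ σ).2 = ed τ b j) ∨
        ∃ j, ed (stepS τ σ).1 b i ᵥ* (stepS τ σ).2 = dg τ j ∧ σ j = b := by
    decide +kernel
  intro b i
  rw [u1_wd, ← ev_vecMul]
  obtain ⟨j, e⟩ | ⟨j, e, e'⟩ := key τ (sg τ ξ) b i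
  · rw [e, ← u1_wd]
    exact h b j
  · rw [e]
    have := k j
    cases b
    · have := of_decide_eq_false e'
      simpa using lt_of_le_of_ne (not_lt.1 this) (k j)
    · simpa using of_decide_eq_true e'

theorem sg_iff {τ : Ty} {σ : Fin 3 → Bool} {ξ : V} :
    Sg τ σ ξ ↔ WV τ ξ ∧ NZ τ ξ ∧ sg τ ξ = σ := by
  refine and_congr_right fun _ => ⟨fun h => ⟨fun i => ?_, funext fun i => ?_⟩, ?_⟩
  · have := h i
    split_ifs at this
    exacts [this.ne', this.ne]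
  · have := h i
    split_ifs at this with k
    · exact (decide_eq_true this).trans k.symm
    · exact (decide_eq_false this.not_gt).trans (Bool.eq_false_iff.2 k).symm
  · rintro ⟨k, rfl⟩ i
    split_ifs with l
    · exact of_decide_eq_true l
    · exact lt_of_le_of_ne (not_lt.1 fun m => l (decide_eq_true m)) (k i)

/-- Each old diagonal is a new edge or a new diagonal, so the new cone determines the old one. -/
theorem step_markov {τ : Ty} {ξ ζ : V} (h : WV τ ξ) (k : NZ τ ξ)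
    (k' : NZ (stepS τ (sg τ ξ)).1 (ac (stepS τ (sg τ ξ)).2 ξ))
    (hz : Sg (stepS τ (sg τ ξ)).1 (sg (stepS τ (sg τ ξ)).1 (ac (stepS τ (sg τ ξ)).2 ξ))
      (ac (stepS τ (sg τ ξ)).2 ζ)) : Sg τ (sg τ ξ) ζ := by
  have _ := k'
  have key : ∀ (τ : Ty) (σ : Fin 3 → Bool) (j : Fin 3),
      (∃ i, dg τ j = dg (stepS τ σ).1 i ᵥ* (stepS τ σ).2) ∨
        ∃ b i, dg τ j = ed (stepS τ σ).1 b i ᵥ* (stepS τ σ).2 := by
    decide +kernel
  refine ⟨fun b j => ?_, fun j => ?_⟩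
  · obtain ⟨i, e | ⟨l, e⟩⟩ := u1_old τ (sg τ ξ) ζ b j
    · exact e ▸ hz.1 b i
    · exact e ▸ add_pos (hz.1 b i) (hz.1 _ l)
  · obtain ⟨i, e⟩ | ⟨b, i, e⟩ := key τ (sg τ ξ) j
    · have h1 := hz.2 i
      have h2 : sg τ ξ j = sg (stepS τ (sg τ ξ)).1 (ac (stepS τ (sg τ ξ)).2 ξ) i :=
        congrArg (fun x : ℝ => decide (0 < x)) ((congrArg (ev · ξ) e).trans (ev_vecMul _ _ _))
      rwa [← h2, ← ev_vecMul, ← e] at h1
    · have h1 := hz.1 b i
      have h2 := step_wv h k b i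
      rw [u1_wd, ← ev_vecMul, ← e] at h1 h2
      cases b
      · rw [if_neg (show ¬ sg τ ξ j = true from fun m => by
          have := of_decide_eq_true m
          simp at h2
          linarith)]
        simpa using h1
      · rw [if_pos (show sg τ ξ j = true from decide_eq_true (by simpa using h2))]
        simpa using h1

theorem step_sumW {τ : Ty} {ξ : V} (h : WV τ ξ) :
    ∃ b i, sumW (stepS τ (sg τ ξ)).1 (ac (stepS τ (sg τ ξ)).2 ξ) + wd τ ξ b i ≤ sumW τ ξ := by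
  have key : ∀ q : Ty × Mat, ∀ σ, q = stepS τ σ →
      ∃ b, sumW q.1 (ac q.2 ξ) + wd τ ξ b 0 ≤ sumW τ ξ := by
    intro q σ hq
    have a0 := h true 0
    have a1 := h true 1
    have a2 := h true 2
    have b0 := h false 0
    have b1 := h false 1
    have b2 := h false 2
    cases τ <;> simp only [stepS] at hq <;> split_ifs at hq <;> subst hq <;>
      simp [sumW, wd, eR, eL, Fin.sum_univ_three, ac, ev_four, Tp, Tq, Sp, Sq, Nb, Nc,
        -add_le_add_iff_left, -add_le_add_iff_right] at a0 a1 a2 b0 b1 b2 ⊢ <;>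
      first
      | exact .inl (by linarith)
      | exact .inr (by linarith)
  obtain ⟨b, hb⟩ := key _ _ rfl
  exact ⟨b, 0, hb⟩

/-- A step keeps all edges of one side `b` (up to the order) and adds at least one of them to the
sum of the edges of the other side. -/
theorem step_kind (τ : Ty) (σ : Fin 3 → Bool) : ∃ b : Bool, ∃ s : Finset (Fin 3), s.Nonempty ∧
    (∀ i, ∃ j, ed (stepS τ σ).1 b i ᵥ* (stepS τ σ).2 = ed τ b j) ∧
    ∑ i, ed (stepS τ σ).1 b i ᵥ* (stepS τ σ).2 = ∑ i, ed τ b i ∧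
    ∑ i, ed (stepS τ σ).1 (!b) i ᵥ* (stepS τ σ).2 = ∑ i, ed τ (!b) i + ∑ i ∈ s, ed τ b i := by
  revert τ σ
  decide +kernel

theorem Om_edges (τ : Ty) (ξ a : V) :
    Om ξ a = ∑ i, (ev (eR τ i) ξ * ev (eL τ i) a - ev (eL τ i) ξ * ev (eR τ i) a) := by
  cases τ <;> simp [Om, eR, eL, Fin.sum_univ_three, ev_four] <;> ring

private theorem u1_ar (τ : Ty) (y : Pt) (i : Fin 3) :
    ar y i = wd τ y.1 true i * ev (eL τ i) y.2 + wd τ y.1 false i * ev (eR τ i) y.2 := by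
  cases τ <;> fin_cases i <;> simp [ar, dt, vec, sp, sq, wd, eR, eL, ev_four] <;> ring

private theorem u1_hv {τ : Ty} {η : V} (h : HV τ η) (σ : Fin 3 → Bool) :
    HV (stepS τ σ).1 (ac (stepS τ σ).2 η) := fun i => by
  rw [← ev_vecMul, ← ev_vecMul]
  constructor
  · obtain ⟨j, e | ⟨l, e⟩⟩ := step_new τ σ true i
    · exact (h j).1.trans_eq (congrArg (ev · η) e).symm
    · exact (add_nonneg (h j).1 (h l).2.le).trans_eq
        ((congrArg (ev · η) e).trans (add_ev _ _ _)).symm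
  · obtain ⟨j, e | ⟨l, e⟩⟩ := step_new τ σ false i
    · exact (h j).2.trans_eq (congrArg (ev · η) e).symm
    · exact (add_pos_of_pos_of_nonneg (h j).2 (h l).1).trans_eq
        ((congrArg (ev · η) e).trans (add_ev _ _ _)).symm

theorem cell_of_valid {τ : Ty} {y : Pt} (h : WV τ y.1) (k : HV τ y.2) : y ∈ Cell := fun i => by
  rw [u1_ar τ]
  exact add_pos_of_pos_of_nonneg (mul_pos (h true i) (k i).2) (mul_nonneg (h false i).le (k i).1)

theorem step_reach {τ : Ty} {y : Pt} (h : WV τ y.1) (n : NZ τ y.1) (k : HV τ y.2) :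
    Reach y (stepS τ (sg τ y.1)).2 := by
  have c := cell_of_valid h k
  have c' : acP (stepS τ (sg τ y.1)).2 y ∈ Cell := cell_of_valid (step_wv h n) (u1_hv k _)
  have key : ∀ τ σ, (stepS τ σ).2 = 1 ∨ ((stepS τ σ).2 = Tp ∨ (stepS τ σ).2 = Tq) ∨
      (stepS τ σ).2 = Sp ∨ (stepS τ σ).2 = Sq ∨ (stepS τ σ).2 = Nb ∨ (stepS τ σ).2 = Nc := by
    decide +kernel
  obtain e | e | e := key τ (sg τ y.1)
  · rw [e]
    exact Reach.refl c
  · exact reach_free c (by tauto)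
  · exact reach_cond c (by tauto) c'

theorem norm_le_edges {τ : Ty} {a : V} {K : ℝ} (h : ∀ b i, |ev (ed τ b i) a| ≤ K) :
    ‖a‖ ≤ 2 * K := by
  have K0 : 0 ≤ K := (abs_nonneg _).trans (h true 0)
  have a0 := abs_le.1 (h true 0)
  have a1 := abs_le.1 (h true 1)
  have b0 := abs_le.1 (h false 0)
  have b2 := abs_le.1 (h false 2)
  refine (pi_norm_le_iff_of_nonneg (by linarith)).2 fun i => abs_le.2 ?_
  cases τ <;> simp [ed, eR, eL, ev_four] at a0 a1 b0 b2 <;> fin_cases i <;> simp <;>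
    constructor <;> linarith [a0.1, a0.2, a1.1, a1.2, b0.1, b0.2, b2.1, b2.2]

private theorem u1_abs {e : Z4} {n : ℤ} (h : ∑ i, |e i| ≤ n) (a : V) : |ev e a| ≤ n * ‖a‖ :=
  calc |ev e a| ≤ ∑ i, |(e i : ℝ) * a i| := Finset.abs_sum_le_sum_abs _ _
    _ ≤ ∑ i, |(e i : ℝ)| * ‖a‖ := Finset.sum_le_sum fun i _ => by
        rw [abs_mul]
        exact mul_le_mul_of_nonneg_left (norm_le_pi_norm a i) (abs_nonneg _)
    _ ≤ n * ‖a‖ := by
        rw [← Finset.sum_mul]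
        exact mul_le_mul_of_nonneg_right (by exact_mod_cast h) (norm_nonneg a)

theorem abs_ed_le (τ : Ty) (b : Bool) (i : Fin 3) (a : V) : |ev (ed τ b i) a| ≤ 2 * ‖a‖ := by
  have h : ∑ j, |ed τ b i j| ≤ 2 := by
    revert τ b i
    decide +kernel
  exact_mod_cast u1_abs h a

theorem abs_dg_le (τ : Ty) (i : Fin 3) (a : V) : |ev (dg τ i) a| ≤ 3 * ‖a‖ := by
  have h : ∑ j, |dg τ i j| ≤ 3 := by
    revert τ i
    decide +kernel
  exact_mod_cast u1_abs h a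

/-- Two sides of one quadrilateral. -/
def Adj (τ : Ty) (i j : Fin 3) : Prop :=
  j = i ∨ dg τ i = eR τ i + eL τ j ∨ dg τ j = eL τ j + eR τ i

theorem adj_le {τ : Ty} {y : Pt} (h : WV τ y.1) (k : HV τ y.2) {i j : Fin 3} (a : Adj τ i j) :
    wd τ y.1 true i * ev (eL τ j) y.2 + wd τ y.1 false j * ev (eR τ i) y.2 ≤ 2 * area y := by
  have h0 : ∀ i j, 0 ≤ wd τ y.1 true i * ev (eL τ j) y.2 + wd τ y.1 false j * ev (eR τ i) y.2 :=
    fun i j => add_nonneg (mul_pos (h true i) (k j).2).le (mul_nonneg (h false j).le (k i).1)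
  have h1 : ∀ π : Fin 3 → Fin 3, area y = ∑ i, (wd τ y.1 true i * ev (eL τ (π i)) y.2 +
      wd τ y.1 false (π i) * ev (eR τ i) y.2) → ∀ i, wd τ y.1 true i * ev (eL τ (π i)) y.2 +
      wd τ y.1 false (π i) * ev (eR τ i) y.2 ≤ 2 * area y := fun π e i => by
    have := Finset.single_le_sum (fun i _ => h0 i (π i)) (Finset.mem_univ i)
    linarith [h0 i (π i)]
  obtain ⟨π, p1, p2, p3⟩ : ∃ π : Fin 3 → Fin 3, (∀ i, dg τ i = eR τ i + eL τ (π i)) ∧
      (∀ j, ∃ i, π i = j ∧ dg τ j = eL τ j + eR τ i) ∧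
      area y = ∑ i, (wd τ y.1 true i * ev (eL τ (π i)) y.2 +
        wd τ y.1 false (π i) * ev (eR τ i) y.2) := by
    cases τ
    · exact ⟨![0, 1, 2], by decide +kernel, by decide +kernel, by
        simp [area, Om, wd, eR, eL, Fin.sum_univ_three, ev_four]; ring⟩
    · exact ⟨![1, 0, 2], by decide +kernel, by decide +kernel, by
        simp [area, Om, wd, eR, eL, Fin.sum_univ_three, ev_four]; ring⟩
    · exact ⟨![2, 1, 0], by decide +kernel, by decide +kernel, by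
        simp [area, Om, wd, eR, eL, Fin.sum_univ_three, ev_four]; ring⟩
  obtain rfl | a | a := a
  · exact h1 id (by rw [area_eq, Fin.sum_univ_three, u1_ar τ, u1_ar τ, u1_ar τ]; rfl) j
  · have := h1 π p3 i
    simp only [wd] at this ⊢
    rwa [add_left_cancel (a.symm.trans (p1 i))]
  · obtain ⟨l, rfl, e⟩ := p2 j
    have := h1 π p3 l
    simp only [wd] at this ⊢
    rwa [add_left_cancel (a.symm.trans e)]

/-- The six edges are connected through `Adj`. -/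
theorem adj_conn (τ : Ty) (s : Finset (Bool × Fin 3)) (h : s.Nonempty) (k : s ≠ Finset.univ) :
    ∃ i j, Adj τ i j ∧ (((true, i) ∈ s ∧ (false, j) ∉ s) ∨ ((true, i) ∉ s ∧ (false, j) ∈ s)) := by
  have key : ∀ (τ : Ty) (r l : Fin 3 → Bool), (∀ i j, Adj τ i j → r i = l j) →
      ∀ i, r i = r 0 ∧ l i = r 0 := by
    unfold Adj
    decide +kernel
  by_contra hc
  have h1 := key τ (fun i => decide ((true, i) ∈ s)) (fun j => decide ((false, j) ∈ s))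
    fun i j a => decide_eq_decide.2 ⟨fun m => by_contra fun n => hc ⟨i, j, a, .inl ⟨m, n⟩⟩,
      fun m => by_contra fun n => hc ⟨i, j, a, .inr ⟨n, m⟩⟩⟩
  have h2 : ∀ x : Bool × Fin 3, x ∈ s ↔ (true, 0) ∈ s := fun ⟨b, i⟩ => by
    cases b
    exacts [decide_eq_decide.1 (h1 i).2, decide_eq_decide.1 (h1 i).1]
  obtain ⟨x, hx⟩ := h
  exact k (Finset.eq_univ_of_forall fun z => (h2 z).2 ((h2 x).1 hx))

/-- Cycles of the crossing graph have value at most `0`, simple paths at most `k`. -/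
def Inv (τ : Ty) (h : V) (k : ℝ) : Prop :=
  match τ with
  | .L => (h 2 ≤ 0 ∧ h 2 + h 3 ≤ 0 ∧ h 0 ≤ 0 ∧ h 0 + h 1 ≤ 0) ∧
      h 3 ≤ k ∧ h 1 ≤ k ∧ h 1 + h 2 ≤ k ∧ h 0 + h 3 ≤ k
  | .B => (h 0 ≤ 0 ∧ h 0 + h 1 ≤ 0 ∧ h 0 + h 1 + h 2 ≤ 0 ∧ h 0 + h 1 + h 2 + h 3 ≤ 0 ∧
      h 0 + h 1 + 2 * h 2 + h 3 ≤ 0) ∧
      h 3 ≤ k ∧ h 1 ≤ k ∧ h 1 + h 2 ≤ k ∧ h 1 + h 2 + h 3 ≤ k ∧ h 0 + h 3 ≤ k ∧ h 0 + h 2 ≤ k ∧
      h 0 + h 2 + h 3 ≤ k ∧ h 0 + h 1 + 2 * h 2 ≤ k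
  | .C => (h 2 ≤ 0 ∧ h 2 + h 3 ≤ 0 ∧ h 0 + h 2 + h 3 ≤ 0 ∧ h 0 + h 1 + h 2 + h 3 ≤ 0 ∧
      2 * h 0 + h 1 + h 2 + h 3 ≤ 0) ∧
      h 3 ≤ k ∧ h 1 ≤ k ∧ h 1 + h 2 ≤ k ∧ h 0 + h 3 ≤ k ∧ h 0 + h 2 ≤ k ∧ h 0 + h 1 + h 3 ≤ k ∧
      h 0 + h 1 + h 2 ≤ k ∧ 2 * h 0 + h 2 + h 3 ≤ k

theorem step_inv {τ : Ty} {h : V} {k : ℝ} (hk : 0 ≤ k) (H : Inv τ h k) (σ : Fin 3 → Bool) :
    Inv (stepS τ σ).1 (ac (stepS τ σ).2 h) k := by
  have key : ∀ q : Ty × Mat, q = stepS τ σ → Inv q.1 (ac q.2 h) k := by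
    intro q hq
    cases τ <;> simp only [stepS] at hq <;> split_ifs at hq <;> subst hq <;>
      simp only [Inv] at H ⊢ <;>
      simp [ac, ev_four, Tp, Tq, Sp, Sq, Nb, Nc, Matrix.one_apply] <;>
      (refine ⟨⟨?_, ?_, ?_, ?_⟩, ?_⟩ <;> (try refine ⟨?_, ?_⟩) <;> (try refine ⟨?_, ?_⟩) <;>
        (try refine ⟨?_, ?_⟩) <;> (try refine ⟨?_, ?_⟩) <;> (try refine ⟨?_, ?_⟩) <;>
        (try refine ⟨?_, ?_⟩) <;> (try refine ⟨?_, ?_⟩) <;> (try refine ⟨?_, ?_⟩) <;>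
        linarith [H.1.1, H.1.2.1, H.1.2.2.1, H.1.2.2.2, H.2.1, H.2.2.1, H.2.2.2.1, H.2.2.2.2])
  exact key _ rfl

theorem Inv.edge {τ : Ty} {h : V} {k : ℝ} (hk : 0 ≤ k) (H : Inv τ h k) (b : Bool) (i : Fin 3) :
    ev (ed τ b i) h ≤ k := by
  cases τ <;> simp only [Inv] at H <;> cases b <;> fin_cases i <;> simp [ed, eR, eL, ev_four] <;>
    linarith

/-- The rotation by a quarter turn exchanges the cones of widths and of heights. -/
theorem rot_cone (τ : Ty) : ∃ (τ' : Ty) (N : Mat), Symp N ∧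
    (∀ ξ, WV τ ξ ↔ HP τ' (ac N ξ)) ∧ (∀ η, HP τ η ↔ WV τ' (ac N (-η))) ∧
    ∀ y ∈ Dt τ, Reach (lin 0 (-1) 1 0 y) N := by
  have key : ∀ (τ' : Ty) (N : Mat), (N = -rho ∨ N = Sr * -rho ∨ N = Sm * -rho) →
      (∀ i, ∃ j, eR τ i = eL τ' j ᵥ* N) → (∀ i, ∃ j, eL τ i = -(eR τ' j ᵥ* N)) →
      (∀ j, ∃ i, eR τ i = eL τ' j ᵥ* N) → (∀ j, ∃ i, eL τ i = -(eR τ' j ᵥ* N)) →
      Symp N ∧ (∀ ξ, WV τ ξ ↔ HP τ' (ac N ξ)) ∧ (∀ η, HP τ η ↔ WV τ' (ac N (-η))) ∧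
        ∀ y ∈ Dt τ, Reach (lin 0 (-1) 1 0 y) N := by
    intro τ' N hN r1 l1 r2 l2
    have hr : ∀ {i j} (a : V), eR τ i = eL τ' j ᵥ* N → ev (eR τ i) a = ev (eL τ' j) (ac N a) :=
      fun a e => by rw [e, ev_vecMul]
    have hl : ∀ {i j} (a : V), eL τ i = -(eR τ' j ᵥ* N) →
        -ev (eL τ i) a = ev (eR τ' j) (ac N a) := fun a e => by
      rw [e, neg_ev, neg_neg, ev_vecMul]
    have hn : ∀ (e : Z4) (a : V), ev e (-a) = -ev e a := fun e a => by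
      rw [← neg_one_smul ℝ a, ev_smul, neg_one_mul]
    have h1 : ∀ ξ, WV τ ξ ↔ HP τ' (ac N ξ) := fun ξ =>
      ⟨fun h => Bool.forall_bool.2 ⟨fun j => (r2 j).elim fun i e => (h true i).trans_eq (hr ξ e),
        fun j => (l2 j).elim fun i e => (h false i).trans_eq (hl ξ e)⟩,
      fun h => Bool.forall_bool.2 ⟨fun i => (l1 i).elim fun j e =>
        (h true j).trans_eq (hl ξ e).symm,
        fun i => (r1 i).elim fun j e => (h false j).trans_eq (hr ξ e).symm⟩⟩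
    have hr' : ∀ {i j} (a : V), eR τ i = eL τ' j ᵥ* N →
        ev (eR τ i) a = -ev (eL τ' j) (ac N (-a)) := fun a e => by rw [← hr _ e, hn, neg_neg]
    have hl' : ∀ {i j} (a : V), eL τ i = -(eR τ' j ᵥ* N) →
        ev (eL τ i) a = ev (eR τ' j) (ac N (-a)) := fun a e => by rw [← hl _ e, hn, neg_neg]
    have h2 : ∀ η, HP τ η ↔ WV τ' (ac N (-η)) := fun η =>
      ⟨fun h => Bool.forall_bool.2 ⟨fun j => (r2 j).elim fun i e => (h true i).trans_eq (hr' η e),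
        fun j => (l2 j).elim fun i e => (h false i).trans_eq (hl' η e)⟩,
      fun h => Bool.forall_bool.2 ⟨fun i => (l1 i).elim fun j e =>
        (h true j).trans_eq (hl' η e).symm,
        fun i => (r1 i).elim fun j e => (h false j).trans_eq (hr' η e).symm⟩⟩
    refine ⟨?_, h1, h2, fun y hy => ?_⟩
    · unfold Symp
      rcases hN with rfl | rfl | rfl <;> decide +kernel
    have c : lin 0 (-1) 1 0 y ∈ Cell := fun i => by
      rw [ar_lin]
      exact mul_pos (by norm_num)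
        (cell_of_valid hy.1 (fun i => ⟨(hy.2 true i).le, hy.2 false i⟩) i)
    have e : lin 0 (-1) 1 0 y = (-y.2, y.1) := by simp [lin]
    have c' : acP N (lin 0 (-1) 1 0 y) ∈ Cell := by
      rw [e]
      exact cell_of_valid ((h2 _).1 hy.2)
        fun i => ⟨((h1 _).1 hy.1 true i).le, (h1 _).1 hy.1 false i⟩
    rcases hN with hN | hN
    · exact reach_free c (by tauto)
    · exact reach_cond c (by tauto) c'
  cases τ
  · exact ⟨.L, -rho, key _ _ (.inl rfl) (by decide +kernel) (by decide +kernel)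
      (by decide +kernel) (by decide +kernel)⟩
  · exact ⟨.C, Sr * -rho, key _ _ (.inr (.inl rfl)) (by decide +kernel) (by decide +kernel)
      (by decide +kernel) (by decide +kernel)⟩
  · exact ⟨.B, Sm * -rho, key _ _ (.inr (.inr rfl)) (by decide +kernel) (by decide +kernel)
      (by decide +kernel) (by decide +kernel)⟩

end Pool.Agent.TW
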