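import Pool.Agent.Lib.MP_4eaecc_an.W7a

-- part Pool.Agent.Lib.MP_4eaecc_an.W6
section

/-! The tent function of a flip. -/

namespace Pool.Agent.TW

open Matrix MeasureTheory Filter Topology
open scoped ENNReal NNReal

/-- The linear form of a covector. -/
noncomputable def w6L (G : ℝ × ℝ) : (ℝ × ℝ) →L[ℝ] ℝ :=
  G.1 • ContinuousLinearMap.fst ℝ ℝ ℝ + G.2 • ContinuousLinearMap.snd ℝ ℝ ℝ

theorem w6_ip (G x : ℝ × ℝ) : ip G x = w6L G x := by simp [w6L, ip]

theorem w6_g2 {p q : ℝ × ℝ} (hd : 0 < dt p q) (α β : ℝ) :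
    w6L (g2 p q α β) p = α ∧ w6L (g2 p q α β) q = β := by
  have h := hd.ne'
  simp only [← w6_ip, ip, g2]
  constructor <;> field_simp <;> simp only [dt] <;> ring

theorem w6_next {T : Raw} (hT : IsTri T) {c : Fin 18 → ℝ} (hc : IsCo T c) (e : Fin 18)
    (x y : ℝ × ℝ) : wh T c (T.1 e, x) = wh T c (e, y) := by
  have h1 : T.2.2 (T.1 (T.1 e)) = -(T.2.2 e + T.2.2 (T.1 e)) :=
    eq_neg_of_add_eq_zero_right (hT.2.2.2.1 e)
  have h2 : c (T.1 (T.1 e)) = -(c e + c (T.1 e)) := eq_neg_of_add_eq_zero_right (hc.2 e)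
  simp only [wh, g2, h1, h2, dt, Prod.fst_neg, Prod.snd_neg, Prod.fst_add, Prod.snd_add]
  congr 2 <;> ring

theorem w6_nodup {T : Raw} (hT : IsTri T) (h : Fin 18) :
    [h, T.1 h, T.1 (T.1 h), T.2.1 h, T.1 (T.2.1 h), T.1 (T.1 (T.2.1 h))].Nodup :=
  Multiset.toFinset_card_eq_card_iff_nodup.1 (by
    have := six_card hT h
    simpa [six] using this :
    (↑[h, T.1 h, T.1 (T.1 h), T.2.1 h, T.1 (T.2.1 h), T.1 (T.1 (T.2.1 h))] :
      Multiset (Fin 18)).toFinset.card = _)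

theorem w6_zero {T : Raw} (hT : IsTri T) (e : Fin 18) {t : ℝ} (ht : t ∈ Set.Icc (0 : ℝ) 1) :
    t • T.2.2 e ∈ Dl T e :=
  (mem_tr (by simpa [dt, mul_add, mul_comm] using hT.2.2.2.2.1 e)).2
    ⟨t, 0, ht.1, le_rfl, by simpa using ht.2, by simp⟩

theorem w6_cpt {T : Raw} (hT : IsTri T) (e : Fin 18) (p : ℝ × ℝ) :
    IsCompact ((fun x => x + p) '' Dl T e) :=
  (isCompact_tr (by simpa [dt, mul_add, mul_comm] using hT.2.2.2.2.1 e)).image (by fun_prop)

theorem w6_img {S : Set (ℝ × ℝ)} {p x : ℝ × ℝ} : x ∈ (fun x => x + p) '' S ↔ x - p ∈ S := by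
  simp [sub_eq_add_neg]

/-- The half-edge `e` lies in the face of `j`. -/
def w6F (T : Raw) (o : Fin 18 → ℝ × ℝ) (e j : Fin 18) : Prop :=
  (∀ x, x + o e - o j ∈ Dl T j ↔ x ∈ Dl T e) ∧ ∀ c, IsCo T c → ∀ x, wh T c (e, x) = wh T c (j, 0)

theorem w6F_refl (T : Raw) (o : Fin 18 → ℝ × ℝ) (e : Fin 18) : w6F T o e e :=
  ⟨fun x => by rw [add_sub_cancel_right], fun _ _ _ => rfl⟩

theorem w6F_next {T : Raw} (hT : IsTri T) {o : Fin 18 → ℝ × ℝ} {e j : Fin 18} (h : w6F T o e j)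
    (ho : o (T.1 e) = o e + T.2.2 e) : w6F T o (T.1 e) j :=
  ⟨fun x => by
    rw [ho, add_comm (o e), ← add_assoc, h.1, ← Dl_next hT, add_sub_cancel_right],
    fun c hc x => (w6_next hT hc e x x).trans (h.2 c hc x)⟩

theorem w6_faces {T : Raw} (hT : IsTri T) {h : Fin 18} {o : Fin 18 → ℝ × ℝ} {Q : Set (ℝ × ℝ)}
    (q : Quad T h o Q) : (w6F T o (T.1 h) h ∧ w6F T o (T.1 (T.1 h)) h) ∧
      w6F T o (T.1 (T.2.1 h)) (T.2.1 h) ∧ w6F T o (T.1 (T.1 (T.2.1 h))) (T.2.1 h) := by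
  have h1 := w6F_next hT (w6F_refl T o h) (q.1 _ (by simp [six]))
  have h2 := w6F_next hT (w6F_refl T o (T.2.1 h)) (q.1 _ (by simp [six]))
  exact ⟨⟨h1, w6F_next hT h1 (q.1 _ (by simp [six]))⟩, h2, w6F_next hT h2 (q.1 _ (by simp [six]))⟩

theorem w6_face {T : Raw} (hT : IsTri T) {h : Fin 18} {o : Fin 18 → ℝ × ℝ} {Q : Set (ℝ × ℝ)}
    (q : Quad T h o Q) {e : Fin 18} (he : e ∈ six T h) : w6F T o e h ∨ w6F T o e (T.2.1 h) := by
  obtain ⟨⟨h1, h2⟩, h3, h4⟩ := w6_faces hT q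
  simp only [six, Finset.mem_insert, Finset.mem_singleton] at he
  rcases he with rfl | rfl | rfl | rfl | rfl | rfl
  exacts [.inl (w6F_refl _ _ _), .inl h1, .inl h2, .inr (w6F_refl _ _ _), .inr h3, .inr h4]

theorem w6_aff {U : ℝ × ℝ → ℝ} {S : Set (ℝ × ℝ)} {G p : ℝ × ℝ} {u : ℝ}
    (h : ∀ x ∈ S, U x = u + w6L G (x - p)) : LipschitzOnWith ‖w6L G‖₊ U S :=
  .of_dist_le_mul fun x hx y hy => by
    rw [h x hx, h y hy, dist_add_left, ← dist_sub_right x y p]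
    exact (w6L G).lipschitz.dist_le_mul _ _

/-- A primitive of the piecewise constant form on the quadrilateral. -/
theorem Quad.prim {T : Raw} (hT : IsTri T) {h : Fin 18} {o : Fin 18 → ℝ × ℝ} {Q : Set (ℝ × ℝ)}
    (q : Quad T h o Q) {c : Fin 18 → ℝ} (hc : IsCo T c) (u0 : ℝ) :
    ∃ (U : ℝ × ℝ → ℝ) (K : ℝ≥0), LipschitzOnWith K U Q ∧ U (o (T.1 h)) = u0 ∧
      ∀ e ∈ six T h, ∀ x ∈ Dl T e, U (x + o e) = U (o e) + ip (wh T c (e, x)) x := by
  classical
  obtain ⟨U, hU⟩ : ∃ U : ℝ × ℝ → ℝ, ∀ x, U x = u0 + w6L (wh T c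
    (if x - o h ∈ Dl T h then h else T.2.1 h, 0)) (x - o (T.2.1 h)) := ⟨_, fun _ => rfl⟩
  have h1 : ∀ x, x - o h ∈ Dl T h → U x = u0 + w6L (wh T c (h, 0)) (x - o (T.2.1 h)) :=
    fun x hx => by rw [hU, if_pos hx]
  have h2 : ∀ x, x - o (T.2.1 h) ∈ Dl T (T.2.1 h) →
      U x = u0 + w6L (wh T c (T.2.1 h, 0)) (x - o (T.2.1 h)) := fun x hx => by
    rw [hU]
    split_ifs with k
    · obtain ⟨t, -, rfl⟩ := q.inter hT k hx
      have a1 := (w6_g2 (hT.2.2.2.2.1 h) (c h) (c (T.1 h))).1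
      have a2 := (w6_g2 (hT.2.2.2.2.1 (T.2.1 h)) (c (T.2.1 h)) (c (T.1 (T.2.1 h)))).1
      change w6L (wh T c (h, 0)) _ = _ at a1
      change w6L (wh T c (T.2.1 h, 0)) _ = _ at a2
      rw [hT.2.2.1, hc.1, map_neg, neg_inj] at a2
      rw [q.2.1, add_sub_add_left_eq_sub, map_sub, map_sub, map_smul, map_smul, a1, a2]
    · rfl
  refine ⟨U, max ‖w6L (wh T c (h, 0))‖₊ ‖w6L (wh T c (T.2.1 h, 0))‖₊, ?_, ?_, fun e he x hx => ?_⟩
  · rw [q.2.2.1]
    exact glue (w6_cpt hT _ _).isClosed (w6_cpt hT _ _).isClosed (q.2.2.1 ▸ q.2.2.2)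
      ((w6_aff fun x hx => h1 x (w6_img.1 hx)).weaken (le_max_left _ _))
      ((w6_aff fun x hx => h2 x (w6_img.1 hx)).weaken (le_max_right _ _))
  · rw [hU, q.1 h (by simp [six]), q.2.1, sub_self, map_zero, add_zero]
  · have h0 := w6_zero hT e (Set.left_mem_Icc.2 zero_le_one)
    rw [zero_smul] at h0
    rcases w6_face hT q he with k | k
    · rw [h1 _ ((k.1 x).2 hx), h1 _ (by simpa using (k.1 0).2 h0), k.2 c hc, w6_ip, add_assoc,
        ← map_add, add_sub_assoc, add_comm x]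
    · rw [h2 _ ((k.1 x).2 hx), h2 _ (by simpa using (k.1 0).2 h0), k.2 c hc, w6_ip, add_assoc,
        ← map_add, add_sub_assoc, add_comm x]

theorem w6_int (T : Raw) : ∀ᵐ x ∂mT T, x.2 ∈ interior (Dl T x.1) :=
  (ae_mT T).2 fun _ => (ae_diff (f := fun _ => 0) (K := 0) (convex_tr _ _)
    (isClosed_tr _ _).measurableSet (LipschitzWith.const _).lipschitzOnWith).mono fun _ h => h.1

theorem w6_gd_add (U : ℝ × ℝ → ℝ) (p x : ℝ × ℝ) : gd (fun y => U (y + p)) x = gd U (x + p) := by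
  simp only [gd, fderiv_comp_add_right]

theorem w6_gd_eq {U f : ℝ × ℝ → ℝ} {S : Set (ℝ × ℝ)} {p x : ℝ × ℝ} (h : ∀ y ∈ S, f y = U (y + p))
    (hx : x ∈ interior S) : gd f x = gd U (x + p) := by
  have h1 : f =ᶠ[𝓝 x] fun y => U (y + p) :=
    mem_of_superset (mem_interior_iff_mem_nhds.1 hx) h
  rw [← w6_gd_add, gd, gd, h1.fderiv_eq]

theorem w6_gd {U : ℝ × ℝ → ℝ} {S : Set (ℝ × ℝ)} {G p x : ℝ × ℝ} {u : ℝ}
    (h : ∀ y ∈ S, U (y + p) = u + ip G y) (hx : x ∈ interior S) :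
    DifferentiableAt ℝ U (x + p) ∧ gd U (x + p) = G := by
  have h1 : (fun y => U (y + p)) =ᶠ[𝓝 x] fun y => u + w6L G y :=
    mem_of_superset (mem_interior_iff_mem_nhds.1 hx) fun y hy => (h y hy).trans (by rw [w6_ip])
  have h2 : HasFDerivAt U (w6L G) (x + p) := (hasFDerivAt_comp_add_right p).1
    (((w6L G).hasFDerivAt.const_add u).congr_of_eventuallyEq h1)
  exact ⟨h2.differentiableAt, by simp [gd, h2.fderiv, w6L]⟩

theorem w6_sum {T : Raw} (hT : IsTri T) {h : Fin 18} {o : Fin 18 → ℝ × ℝ} {Q : Set (ℝ × ℝ)}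
    (q : Quad T h o Q) {H : ℝ × ℝ → ℝ} (hH : IntegrableOn H Q) :
    ∑ e ∈ six T h, ∫ x in Dl T e, H (x + o e) = 3 * ∫ x in Q, H x := by
  have h1 : ∀ {e j}, w6F T o e j →
      ∫ x in Dl T e, H (x + o e) = ∫ x in (fun x => x + o j) '' Dl T j, H x := fun {e j} k => by
    rw [← (measurePreserving_add_right volume (o e)).setIntegral_preimage_emb
      (measurableEmbedding_addRight _) H]
    congr 2
    ext x
    rw [Set.mem_preimage, w6_img, k.1]
  obtain ⟨⟨a1, a2⟩, a3, a4⟩ := w6_faces hT q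
  have h2 := List.sum_toFinset (fun e => ∫ x in Dl T e, H (x + o e)) (w6_nodup hT h)
  simp only [List.toFinset_cons, List.toFinset_nil, List.map_cons, List.map_nil, List.sum_cons,
    List.sum_nil, h1 a1, h1 a2, h1 a3, h1 a4, h1 (w6F_refl T o h), h1 (w6F_refl T o (T.2.1 h)),
    insert_empty_eq] at h2
  rw [q.2.2.1] at hH
  rw [six, h2, q.2.2.1, setIntegral_union₀ _ (w6_cpt hT _ _).measurableSet.nullMeasurableSet
    (hH.mono_set Set.subset_union_left) (hH.mono_set Set.subset_union_right)]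
  · ring
  · refine measure_mono_null (fun x hx => ?_) (volume_line (p := T.2.2 h) (fun k => ?_) (o h))
    · obtain ⟨t, -, rfl⟩ := q.inter hT (w6_img.1 hx.1) (w6_img.1 hx.2)
      simp [dt, mul_left_comm, mul_comm]
    · simpa [k, dt] using hT.2.2.2.2.1 h

theorem w6_pair {T : Raw} (hT : IsTri T) {h : Fin 18} {o : Fin 18 → ℝ × ℝ} {Q : Set (ℝ × ℝ)}
    (q : Quad T h o Q) {U F : ℝ × ℝ → ℝ} {K L : ℝ≥0} (hU : LipschitzOnWith K U Q)
    (hF : LipschitzOnWith L F Q) (h0 : ∀ x ∈ frontier Q, U x = 0)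
    (hf : (fun e x => if e ∈ six T h then U (x + o e) else 0) ∈ Fn T) {G : Sf → ℝ × ℝ}
    (hG : MemLp G ⊤ (mT T))
    (e1 : ∀ e ∈ six T h, ∀ x ∈ interior (Dl T e), G (e, x) = gd F (x + o e)) :
    ∫ x, dt (gr (fun e x => if e ∈ six T h then U (x + o e) else 0) x) (G x) ∂mT T = 0 := by
  have := finite_mT hT
  have cQ : IsCompact Q := q.2.2.1 ▸ (w6_cpt hT _ _).union (w6_cpt hT _ _)
  have h1 : IntegrableOn (fun x => dt (gd U x) (gd F x)) Q := by
    have m1 := measurable_gd U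
    have m2 := measurable_gd F
    refine Measure.integrableOn_of_bounded (M := K * L + K * L) cQ.measure_lt_top.ne
      (Measurable.aestronglyMeasurable (by unfold dt; fun_prop)) ?_
    filter_upwards [ae_diff q.2.2.2 cQ.measurableSet hU, ae_diff q.2.2.2 cQ.measurableSet hF]
      with x a b
    refine (norm_sub_le _ _).trans (add_le_add ?_ ?_) <;> rw [norm_mul]
    · exact mul_le_mul ((norm_fst_le _).trans a.2.2) ((norm_snd_le _).trans b.2.2) (norm_nonneg _)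
        K.2
    · exact mul_le_mul ((norm_snd_le _).trans a.2.2) ((norm_fst_le _).trans b.2.2) (norm_nonneg _)
        K.2
  have h2 := w6_sum hT q h1
  rw [jac_zero_on q.2.2.2 cQ hU hF h0, mul_zero] at h2
  rw [integral_mT T (integrable_dt (memLp_gr hf) hG), ← Finset.sum_subset (six T h).subset_univ,
    Finset.sum_congr rfl fun e he => ?_, h2, mul_zero]
  · refine integral_congr_ae (((ae_mT T).1 (w6_int T) e).mono fun x hx => ?_)
    simp only [gr, if_pos he, w6_gd_add, e1 e he x hx]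
  · intro e _ he
    simp [gr, if_neg he, gd, dt]

/-- A function on `Q` that vanishes on the four sides gives an element of `Fn0`. -/
theorem Quad.tent {T : Raw} (hT : IsTri T) {h : Fin 18} {o : Fin 18 → ℝ × ℝ} {Q : Set (ℝ × ℝ)}
    (q : Quad T h o Q) {U : ℝ × ℝ → ℝ} {K : ℝ≥0} (hU : LipschitzOnWith K U Q)
    (h0 : ∀ e ∈ six T h, e ≠ h → e ≠ T.2.1 h → ∀ t ∈ Set.Icc (0 : ℝ) 1,
      U (o e + t • T.2.2 e) = 0) :
    (fun e x => if e ∈ six T h then U (x + o e) else 0) ∈ Fn0 T := by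
  have m1 : h ∈ six T h := by simp [six]
  have m2 : T.2.1 h ∈ six T h := by simp [six]
  have hf : (fun e x => if e ∈ six T h then U (x + o e) else 0) ∈ Fn T := by
    refine ⟨⟨K, fun e => ?_⟩, fun e x _ => ?_, fun e t ht => ?_⟩
    · refine .of_dist_le_mul fun x hx y hy => ?_
      beta_reduce
      split_ifs with he
      · have k : ∀ x ∈ Dl T e, x + o e ∈ Q := fun x hx => q.2.2.1 ▸
          (w6_face hT q he).imp (fun k => w6_img.2 ((k.1 x).2 hx)) fun k => w6_img.2 ((k.1 x).2 hx)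
        simpa using hU.dist_le_mul _ (k x hx) _ (k y hy)
      · rw [dist_self]
        positivity
    · simp only [six_next hT]
      split_ifs with he
      · rw [q.1 e he, add_comm (o e), ← add_assoc, sub_add_cancel]
      · rfl
    · beta_reduce
      by_cases e1 : e = h
      · rw [e1, if_pos m1, if_pos m2, q.2.1]
        congr 1
        module
      by_cases e2 : e = T.2.1 h
      · rw [e2, hT.2.1, if_pos m1, if_pos m2, q.2.1, hT.2.2.1]
        congr 1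
        module
      trans 0
      · refine ite_eq_right_iff.2 fun he => ?_
        rw [← h0 _ he (fun k => e2 (by rw [← k, hT.2.1])) (fun k => e1 (by
          rw [← hT.2.1 e, k, hT.2.1])) (1 - t) ⟨by linarith [ht.2], by linarith [ht.1]⟩, hT.2.2.1]
        congr 1
        module
      · exact (ite_eq_right_iff.2 fun he => by rw [add_comm, h0 e he e1 e2 t ht]).symm
  have h1 : ∀ x ∈ _root_.frontier Q, U x = 0 := fun x hx => by
    obtain ⟨e, he, e1, e2, t, ht, rfl⟩ := q.frontier hT hx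
    exact h0 e he e1 e2 t ht
  refine ⟨hf, fun g hg => ?_, fun c hc => ?_⟩
  · obtain ⟨F, L, hF, k⟩ := q.lift hT hg
    exact w6_pair hT q hU hF h1 hf (memLp_gr hg) fun e he x hx => w6_gd_eq (k e he) hx
  · obtain ⟨F, L, hF, -, k⟩ := q.prim hT hc 0
    exact w6_pair hT q hU hF h1 hf (memLp_wh T c) fun e he x hx => (w6_gd (k e he) hx).2.symm

theorem w6_side {T : Raw} (hT : IsTri T) {c : Fin 18 → ℝ} {U : ℝ × ℝ → ℝ} {p : ℝ × ℝ} {e : Fin 18}
    (h : ∀ x ∈ Dl T e, U (x + p) = U p + ip (wh T c (e, x)) x) {t : ℝ}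
    (ht : t ∈ Set.Icc (0 : ℝ) 1) : U (p + t • T.2.2 e) = U p + t * c e := by
  rw [add_comm, h _ (w6_zero hT e ht), w6_ip, map_smul, smul_eq_mul]
  exact congrArg (U p + t * ·) (w6_g2 (hT.2.2.2.2.1 e) _ _).1

theorem w6_co {T : Raw} (hT : IsTri T) {h : Fin 18} {c : Fin 18 → ℝ}
    (h1 : c (T.2.1 h) = -c h) (h2 : ∀ e, e ≠ h → e ≠ T.2.1 h → c (T.2.1 e) = -c e)
    (h3 : c h + c (T.1 h) + c (T.1 (T.1 h)) = 0)
    (h4 : c (T.2.1 h) + c (T.1 (T.2.1 h)) + c (T.1 (T.1 (T.2.1 h))) = 0)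
    (h5 : ∀ e, e ∉ six T h → c e + c (T.1 e) + c (T.1 (T.1 e)) = 0) : IsCo T c := by
  refine ⟨fun e => ?_, fun e => ?_⟩
  · by_cases e1 : e = h
    · rw [e1, h1]
    by_cases e2 : e = T.2.1 h
    · rw [e2, hT.2.1, h1, neg_neg]
    exact h2 e e1 e2
  · by_cases he : e ∈ six T h
    · simp only [six, Finset.mem_insert, Finset.mem_singleton] at he
      rcases he with rfl | rfl | rfl | rfl | rfl | rfl <;> (try simp only [hT.1]) <;> linarith
    · exact h5 e he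

theorem gt_flip {T T' : Raw} (hT : IsTri T) (hT' : IsTri T') {h : Fin 18} (f : FlipAt T T' h) :
    ∃ Φ, GT T T' (kf T h) Φ := by
  obtain ⟨o, o', Q, q⟩ := qp_of_flip hT hT' f
  obtain ⟨Φ, p1, p2, p3⟩ := q.phi
  have qs := q.symm
  obtain ⟨-, -, q1, q2, q3, q4, q5, q6⟩ := id q
  obtain ⟨-, f1, f2, -, f3, f4, -⟩ := f
  have nd := w6_nodup hT h
  simp only [List.nodup_cons, List.mem_cons, List.not_mem_nil, or_false, not_or] at nd
  obtain ⟨⟨n1, n2, n3, n4, n5⟩, ⟨-, n6, -⟩, ⟨n7, -⟩, ⟨n8, n9⟩, -⟩ := nd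
  have m1 : h ∈ six T h := by simp [six]
  have m2 : T.2.1 h ∈ six T h := by simp [six]
  have o1 : ∀ e, e ≠ h → e ≠ T.2.1 h → T.2.1 e ≠ h ∧ T.2.1 e ≠ T.2.1 h := fun e e1 e2 =>
    ⟨fun k => e2 (by rw [← k, hT.2.1]), fun k => e1 (by rw [← hT.2.1 e, k, hT.2.1])⟩
  have o2 : ∀ e, e ∉ six T h → e ≠ h ∧ e ≠ T.2.1 h := fun e he =>
    ⟨fun k => he (k ▸ m1), fun k => he (k ▸ m2)⟩
  have o3 : ∀ e, e ∉ six T h → T.1 e ∉ six T h := fun e he => mt (six_next hT h e).1 he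
  have k1 : ∀ c e, e ≠ h → e ≠ T.2.1 h → kf T h c e = c e := fun c e e1 e2 => by
    rw [kf, if_neg e1, if_neg e2]
  have k2 : ∀ c, kf T h c h = c (T.1 (T.1 (T.2.1 h))) + c (T.1 h) := fun c => if_pos rfl
  have k3 : ∀ c, kf T h c (T.2.1 h) = -(c (T.1 (T.1 (T.2.1 h))) + c (T.1 h)) := fun c => by
    rw [kf, if_neg (Ne.symm n3), if_pos rfl]
  refine ⟨Φ, p1, fun g hg => ?_, fun g hg => ?_, fun c hc => ?_, fun c hc => ?_⟩
  · obtain ⟨g', hg', F, a1, a2, a3⟩ := q.transfer hg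
    exact ⟨g', hg', q.gr_eq p1 p2 p3 a1 a2 a3⟩
  · obtain ⟨g', hg', F, a1, a2, a3⟩ := qs.transfer hg
    rw [q4] at a1 a2 a3
    exact ⟨g', hg', q.gr_eq p1 p2 p3 a2 a1 fun e he => (a3 e he).symm⟩
  · have hc' : IsCo T' (kf T h c) := by
      have a1 := hc.2 h
      have a2 := hc.2 (T.2.1 h)
      have a3 := hc.1 h
      refine w6_co hT' (h := h) (by rw [q3, k2, k3]) (fun e e1 e2 => ?_) ?_ ?_ fun e he => ?_
      · rw [q3] at e2 ⊢
        rw [k1 c e e1 e2, k1 c _ (o1 e e1 e2).1 (o1 e e1 e2).2, hc.1]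
      · rw [f1, f2, k2, k1 c _ (Ne.symm n2) n7, k1 c _ (Ne.symm n4) (Ne.symm n8)]
        linarith
      · rw [q3, f3, f4, k3, k1 c _ (Ne.symm n5) (Ne.symm n9), k1 c _ (Ne.symm n1) n6]
        ring
      · rw [q4] at he
        have b1 := o3 e he
        have b2 := o3 _ b1
        rw [q5 e he, q5 _ b1, k1 c _ (o2 _ he).1 (o2 _ he).2, k1 c _ (o2 _ b1).1 (o2 _ b1).2,
          k1 c _ (o2 _ b2).1 (o2 _ b2).2, hc.2]
    obtain ⟨U, K, u1, -, u2⟩ := q1.prim hT hc 0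
    obtain ⟨U', K', v1, v2, v3⟩ := q2.prim hT' hc' (U (o' (T'.1 h)))
    rw [q4] at v3
    have s1 : ∀ e ∈ six T h, e ≠ h → e ≠ T.2.1 h → U (o e) = U' (o e) → ∀ t ∈ Set.Icc (0 : ℝ) 1,
        U (o e + t • T.2.2 e) = U' (o e + t • T.2.2 e) := fun e he e1 e2 k t ht => by
      have a1 := w6_side hT' (v3 e he) ht
      rw [(q6 e e1 e2).1, (q6 e e1 e2).2, k1 c e e1 e2] at a1
      rw [a1, w6_side hT (u2 e he) ht, k]
    have s2 : ∀ e ∈ six T h, e ≠ h → e ≠ T.2.1 h → U (o e) = U' (o e) →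
        U (o (T.1 e)) = U' (o (T.1 e)) ∧ U (o' (T'.1 e)) = U' (o' (T'.1 e)) :=
      fun e he e1 e2 k => by
        have a1 := s1 e he e1 e2 k 1 (Set.right_mem_Icc.2 zero_le_one)
        rw [one_smul] at a1
        rw [q1.1 e he, q2.1 e (q4 ▸ he), (q6 e e1 e2).1, (q6 e e1 e2).2]
        exact ⟨a1, a1⟩
    rw [f1, (q6 _ (Ne.symm n2) n7).2] at v2
    have z1 := (s2 _ (by simp [six]) (Ne.symm n2) n7 v2.symm).2
    rw [f2, (q6 _ (Ne.symm n4) (Ne.symm n8)).2] at z1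
    have z2 := (s2 _ (by simp [six]) (Ne.symm n4) (Ne.symm n8) z1).1
    have z3 := (s2 _ (by simp [six]) (Ne.symm n5) (Ne.symm n9) z2).2
    rw [f4, (q6 _ (Ne.symm n1) n6).2] at z3
    refine ⟨hc', _, q2.tent hT' (u1.sub v1) fun e he e1 e2 t ht => ?_, ?_⟩
    · rw [q3] at e2
      rw [q4] at he
      rw [(q6 e e1 e2).1, (q6 e e1 e2).2, sub_eq_zero]
      refine s1 e he e1 e2 ?_ t ht
      simp only [six, Finset.mem_insert, Finset.mem_singleton] at he
      rcases he with rfl | rfl | rfl | rfl | rfl | rfl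
      exacts [absurd rfl e1, z3, v2.symm, absurd rfl e2, z1, z2]
    · filter_upwards [w6_int T, p1.quasiMeasurePreserving.ae (w6_int T')] with x a1 a2
      rw [Function.comp_apply, Pi.add_apply, gr, q4]
      by_cases he : x.1 ∈ six T h
      · obtain ⟨b1, b2⟩ := p3 x he
        obtain ⟨c1, c2⟩ := w6_gd (G := wh T c x) (u2 _ he) a1
        obtain ⟨d1, d2⟩ := w6_gd (G := wh T' (kf T h c) (Φ x)) (v3 _ b1) a2
        simp only [if_pos b1]
        rw [w6_gd_add fun x => U x - U' x, ← c2, ← d2, ← b2]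
        rw [← b2] at c1
        simp [gd, fderiv_fun_sub c1 d1]
      · have b1 := o3 _ he
        rw [p2 x he, wh, wh, q5 _ he, k1 c _ (o2 _ he).1 (o2 _ he).2,
          k1 c _ (o2 _ b1).1 (o2 _ b1).2, (q6 _ (o2 _ he).1 (o2 _ he).2).1,
          (q6 _ (o2 _ b1).1 (o2 _ b1).2).1]
        simp [if_neg he, gd]
  · obtain ⟨c₀, e1, e2, e3⟩ : ∃ c₀ : Fin 18 → ℝ, c₀ h = -(c (T.1 h) + c (T.1 (T.1 h))) ∧
        c₀ (T.2.1 h) = c (T.1 h) + c (T.1 (T.1 h)) ∧ ∀ e, e ≠ h → e ≠ T.2.1 h → c₀ e = c e :=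
      ⟨fun e => if e = h then -(c (T.1 h) + c (T.1 (T.1 h))) else
        if e = T.2.1 h then c (T.1 h) + c (T.1 (T.1 h)) else c e, if_pos rfl,
        (if_neg (Ne.symm n3)).trans (if_pos rfl), fun e e1 e2 => (if_neg e1).trans (if_neg e2)⟩
    have a1 := hc.2 h
    have a2 := hc.2 (T.2.1 h)
    have a3 := hc.1 h
    rw [f1, f2] at a1
    rw [f3, f4] at a2
    rw [q3] at a3
    refine ⟨c₀, w6_co hT (h := h) (by rw [e1, e2, neg_neg]) (fun e b1 b2 => ?_) ?_ ?_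
      fun e he => ?_, funext fun e => ?_⟩
    · rw [e3 e b1 b2, e3 _ (o1 e b1 b2).1 (o1 e b1 b2).2, ← hc.1, q3]
    · rw [e1, e3 _ (Ne.symm n1) n6, e3 _ (Ne.symm n2) n7]
      ring
    · rw [e2, e3 _ (Ne.symm n4) (Ne.symm n8), e3 _ (Ne.symm n5) (Ne.symm n9)]
      linarith
    · have b1 := o3 e he
      have b2 := o3 _ b1
      rw [e3 _ (o2 _ he).1 (o2 _ he).2, e3 _ (o2 _ b1).1 (o2 _ b1).2, e3 _ (o2 _ b2).1 (o2 _ b2).2,
        ← q5 _ b1, ← q5 e he, hc.2]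
    · by_cases b1 : e = h
      · rw [b1, k2, e3 _ (Ne.symm n5) (Ne.symm n9), e3 _ (Ne.symm n1) n6]
        linarith
      by_cases b2 : e = T.2.1 h
      · rw [b2, k3, e3 _ (Ne.symm n5) (Ne.symm n9), e3 _ (Ne.symm n1) n6]
        linarith
      rw [k1 _ e b1 b2, e3 e b1 b2]

theorem tr_of_lm {S S' : Raw × (Fin 18 → Z4)} (h : LM S S') (hL : Lab S) :
    Lab S' ∧ ∃ Φ, TR S S' Φ := by
  obtain ⟨hT, hT', k⟩ := h
  obtain ⟨κ, Φ, h1, h2⟩ : ∃ κ Φ, GT S.1 S'.1 κ Φ ∧ ∀ a, κ (co S.2 a) = co S'.2 a := by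
    rcases k with ⟨h, f, e1, e2, e3⟩ | ⟨σ, f, e1⟩
    · obtain ⟨Φ, g⟩ := gt_flip hT hT' f
      refine ⟨_, Φ, g, fun a => funext fun e => ?_⟩
      rw [kf]
      split_ifs with b1 b2
      · simp [b1, co, e1, ev, add_mul, Finset.sum_add_distrib]
      · simp [b2, co, e1, e2, ev, add_mul, Finset.sum_add_distrib]
      · rw [co, co, e3 e b1 b2]
    · exact ⟨_, _, gt_relab f, fun a => funext fun e => by
        rw [co, co, ← e1, Equiv.apply_symm_apply]⟩
  exact ⟨fun a => h2 a ▸ (h1.2.2.2.1 _ (hL a)).1, Φ, tr_of_gt hT hT' hL h1 h2⟩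

end Pool.Agent.TW
end

-- part Pool.Agent.Lib.MP_4eaecc_an.W2
section

/-! From derivatives almost everywhere to increments. -/

namespace Pool.Agent.TW

open Matrix MeasureTheory Filter Topology
open scoped ENNReal NNReal

theorem w2_ip (f : ℝ × ℝ → ℝ) (x e : ℝ × ℝ) : ip (gd f x) e = fderiv ℝ f x e := by
  have h : e = e.1 • ((1, 0) : ℝ × ℝ) + e.2 • ((0, 1) : ℝ × ℝ) := by ext <;> simp
  conv_rhs => rw [h, map_add, map_smul, map_smul]
  simp [ip, gd, mul_comm]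

theorem w2_int {X : Type} [MeasurableSpace X] {μ : Measure X} {s : Set X} (hs : μ s ≠ ⊤)
    {g : ℝ × ℝ → ℝ} {K : ℝ≥0} (hg : LipschitzWith K g) {φ : X → ℝ × ℝ} (hφ : Measurable φ)
    (e : ℝ × ℝ) : IntegrableOn (fun z => fderiv ℝ g (φ z) e) s μ :=
  Measure.integrableOn_of_bounded (M := K * ‖e‖) hs
    ((measurable_fderiv_apply_const ℝ g e).comp hφ).aestronglyMeasurable
    (Eventually.of_forall fun z => ((fderiv ℝ g (φ z)).le_opNorm e).trans
      (mul_le_mul_of_nonneg_right (norm_fderiv_le_of_lipschitz ℝ hg) (norm_nonneg _)))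

theorem w2_ftc {g : ℝ × ℝ → ℝ} {K : ℝ≥0} (hg : LipschitzWith K g) (y e : ℝ × ℝ)
    (h : ∀ᵐ t : ℝ, DifferentiableAt ℝ g (y + t • e)) :
    ∫ t in (0 : ℝ)..1, fderiv ℝ g (y + t • e) e = g (y + e) - g y := by
  have h1 : LipschitzWith ‖e‖₊ fun t : ℝ => y + t • e := LipschitzWith.of_dist_le_mul fun s t => by
    rw [dist_add_left, dist_eq_norm, ← sub_smul, norm_smul, dist_eq_norm, mul_comm, coe_nnnorm]
  have h2 := ((hg.comp h1).lipschitzOnWith (s := Set.uIcc 0 1)).absolutelyContinuousOnInterval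
  have h3 := h2.integral_deriv_eq_sub
  simp only [Function.comp_apply, one_smul, zero_smul, add_zero] at h3
  rw [← h3]
  refine intervalIntegral.integral_congr_ae ?_
  filter_upwards [h] with t ht _
  have h4 : HasDerivAt (fun t : ℝ => y + t • e) e t := by
    simpa using ((hasDerivAt_id t).smul_const e).const_add y
  exact (ht.hasFDerivAt.comp_hasDerivAt t h4).deriv.symm

theorem w2_line {P : ℝ × ℝ → Prop} (h : ∀ᵐ x, P x) (e : ℝ × ℝ) :
    ∀ᵐ y : ℝ × ℝ, ∀ᵐ t : ℝ, P (y + t • e) := by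
  obtain ⟨s, hs, ms, h0⟩ := exists_measurable_superset_of_null h
  have := (ae_ae_add_linearMap_mem_iff (LinearMap.toSpanSingleton ℝ (ℝ × ℝ) e) volume volume
    ms.compl).2 (measure_eq_zero_iff_ae_notMem.1 h0)
  filter_upwards [this] with y hy
  filter_upwards [hy] with t ht
  exact by_contra fun k => ht (hs k)

theorem w2_open {g : ℝ × ℝ → ℝ} {K : ℝ≥0} (hg : LipschitzWith K g) {U : Set (ℝ × ℝ)}
    (hU : IsOpen U) (cU : Convex ℝ U) {e : ℝ × ℝ} {C : ℝ}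
    (h : ∀ᵐ x, x ∈ U → fderiv ℝ g x e ≤ C) {y : ℝ × ℝ} (hy : y ∈ U) (he : y + e ∈ U) :
    g (y + e) - g y ≤ C := by
  have h1 : ∀ᵐ y, y ∈ U → y + e ∈ U → g (y + e) - g y ≤ C := by
    filter_upwards [w2_line h e, w2_line (hg.ae_differentiableAt (μ := volume)) e] with y k1 k2
      hy he
    rw [← w2_ftc hg y e k2]
    have := intervalIntegral.integral_mono_ae_restrict (μ := volume) zero_le_one
      ((intervalIntegrable_iff_integrableOn_Ioc_of_le zero_le_one).mpr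
        (w2_int (by simp) hg (φ := fun t : ℝ => y + t • e) (by fun_prop) e))
      (intervalIntegrable_const (c := C)) (by
        refine (ae_restrict_iff' measurableSet_Icc).mpr ?_
        filter_upwards [k1] with t ht hI
        exact ht (cU.add_smul_mem hy he hI))
    simpa using this
  have hV : IsOpen (U ∩ (fun y => y + e) ⁻¹' U) := hU.inter (hU.preimage (by fun_prop))
  have hc := hg.continuous
  refine closure_minimal (t := {y | g (y + e) - g y ≤ C}) ?_ (isClosed_le (by fun_prop)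
    continuous_const) ((Measure.dense_of_ae h1).open_subset_closure_inter hV ⟨hy, he⟩)
  exact fun z hz => hz.2 hz.1.1 hz.1.2

theorem w2_fd {f g : ℝ × ℝ → ℝ} {Q : Set (ℝ × ℝ)} (h : Set.EqOn f g Q) {x : ℝ × ℝ}
    (hx : x ∈ interior Q) : fderiv ℝ f x = fderiv ℝ g x :=
  (h.eventuallyEq_of_mem (mem_interior_iff_mem_nhds.mp hx)).fderiv_eq

/-- Extend `f`, integrate along almost every segment parallel to `e`, then shrink. -/
theorem incr_le {f : ℝ × ℝ → ℝ} {K : ℝ≥0} {Q : Set (ℝ × ℝ)} (hQ : Convex ℝ Q)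
    (cQ : IsClosed Q) (iQ : (interior Q).Nonempty) (hf : LipschitzOnWith K f Q) {e : ℝ × ℝ} {C : ℝ}
    (h : ∀ᵐ x ∂volume.restrict Q, ip (gd f x) e ≤ C) {x : ℝ × ℝ} (hx : x ∈ Q) (he : x + e ∈ Q) :
    f (x + e) - f x ≤ C := by
  obtain ⟨g, hg, hfg⟩ := hf.extend_real
  obtain ⟨x0, h0⟩ := iQ
  rw [ae_restrict_iff' cQ.measurableSet] at h
  have hc := hg.continuous
  have h1 : Tendsto (fun u : ℝ => g ((1 - u) • x + u • x0 + (1 - u) • e) -
      g ((1 - u) • x + u • x0) - (1 - u) * C) (𝓝[>] 0) (𝓝 (g (x + e) - g x - C)) :=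
    (Continuous.tendsto' (by fun_prop) 0 _ (by simp)).mono_left nhdsWithin_le_nhds
  rw [hfg hx, hfg he, ← sub_nonpos]
  refine le_of_tendsto h1 ?_
  filter_upwards [Ioo_mem_nhdsGT zero_lt_one] with u hu
  have h2 : 0 ≤ 1 - u := sub_nonneg.mpr hu.2.le
  refine sub_nonpos.mpr (w2_open hg isOpen_interior hQ.interior ?_
    (hQ.combo_self_interior_mem_interior hx h0 h2 hu.1 (by ring)) ?_)
  · filter_upwards [h] with z hz hi
    have := hz (interior_subset hi)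
    rw [w2_ip, w2_fd hfg hi] at this
    rw [map_smul]
    exact mul_le_mul_of_nonneg_left this h2
  · rw [add_right_comm, ← smul_add]
    exact hQ.combo_self_interior_mem_interior he h0 h2 hu.1 (by ring)

theorem w2_par {p q : ℝ × ℝ} (hd : 0 < dt p q) : tr p (p + q) ∪ tr (p + q) q =
    (fun z : ℝ × ℝ => z.1 • p + z.2 • q) '' Set.Icc 0 1 ×ˢ Set.Icc 0 1 := by
  have h1 : 0 < dt p (p + q) := hd.trans_eq (by simp only [dt, Prod.fst_add, Prod.snd_add]; ring)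
  have h2 : 0 < dt (p + q) q := hd.trans_eq (by simp only [dt, Prod.fst_add, Prod.snd_add]; ring)
  ext x
  rw [Set.mem_union, mem_tr h1, mem_tr h2]
  constructor
  · rintro (⟨a, b, ha, hb, k, rfl⟩ | ⟨a, b, ha, hb, k, rfl⟩)
    · exact ⟨(a + b, b), ⟨⟨by linarith, k⟩, hb, by linarith⟩, by module⟩
    · exact ⟨(a, a + b), ⟨⟨ha, by linarith⟩, by linarith, k⟩, by module⟩
  · rintro ⟨⟨s, t⟩, ⟨⟨s0, s1⟩, t0, t1⟩, rfl⟩
    rcases le_total t s with k | k
    · exact Or.inl ⟨s - t, t, by linarith, t0, by linarith, by module⟩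
    · exact Or.inr ⟨s, t - s, s0, by linarith, by linarith, by module⟩

/-- On a parallelogram where `f` is constant in the direction `p`. -/
theorem par_int {f : ℝ × ℝ → ℝ} {K : ℝ≥0} {p q : ℝ × ℝ} (hd : 0 < dt p q)
    (hf : LipschitzOnWith K f (tr p (p + q) ∪ tr (p + q) q))
    (h : ∀ᵐ x ∂volume.restrict (tr p (p + q) ∪ tr (p + q) q), ip (gd f x) p = 0) :
    (f q - f 0) * dt p q = ∫ x in tr p (p + q) ∪ tr (p + q) q, ip (gd f x) q := by
  have hQ := convex_par hd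
  have cQ := (isClosed_tr p (p + q)).union (isClosed_tr (p + q) q)
  have iQ : (interior (tr p (p + q) ∪ tr (p + q) q)).Nonempty :=
    (interior_tr (hd.trans_eq (by simp only [dt, Prod.fst_add, Prod.snd_add]; ring))).mono
      (interior_mono Set.subset_union_left)
  have hP := w2_par hd
  generalize tr p (p + q) ∪ tr (p + q) q = Q at *
  obtain ⟨g, hg, hfg⟩ := hf.extend_real
  have inc : ∀ (s : ℝ) x, x ∈ Q → x + s • p ∈ Q → f (x + s • p) - f x ≤ 0 := fun s x hx he => by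
    refine incr_le hQ cQ iQ hf ?_ hx he
    filter_upwards [h] with z hz
    rw [w2_ip] at hz ⊢
    rw [map_smul, hz, smul_zero]
  have mem : ∀ s ∈ Set.Icc (0 : ℝ) 1, ∀ t ∈ Set.Icc (0 : ℝ) 1, s • p + t • q ∈ Q :=
    fun s hs t ht => hP ▸ ⟨(s, t), ⟨hs, ht⟩, rfl⟩
  have con : ∀ s ∈ Set.Icc (0 : ℝ) 1, ∀ t ∈ Set.Icc (0 : ℝ) 1, g (s • p + t • q) = f (t • q) :=
    fun s hs t ht => by
      have m1 := mem s hs t ht
      have m2 : t • q ∈ Q := by simpa using mem 0 (by simp) t ht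
      have k1 := inc s (t • q) m2 (add_comm (s • p) _ ▸ m1)
      have e : s • p + t • q + -s • p = t • q := by module
      have k2 := inc (-s) _ m1 (e.symm ▸ m2)
      rw [e] at k2
      rw [add_comm] at k1
      rw [← hfg m1]
      linarith
  let L := Matrix.toLin (Module.Basis.finTwoProd ℝ) (Module.Basis.finTwoProd ℝ)
    !![p.1, q.1; p.2, q.2]
  have hL : (fun z : ℝ × ℝ => z.1 • p + z.2 • q) = L := by
    ext z <;> simp [L, Matrix.toLin_finTwoProd_apply, mul_comm]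
  have dL : LinearMap.det L = dt p q := by
    rw [LinearMap.det_toLin, Matrix.det_fin_two_of, dt]; ring
  have e1 : ∫ x in Q, ip (gd f x) q = ∫ x in Q, fderiv ℝ g x q := by
    refine setIntegral_congr_ae cQ.measurableSet ?_
    filter_upwards [measure_eq_zero_iff_ae_notMem.1 (hQ.addHaar_frontier volume)] with x k hx
    rw [w2_ip, w2_fd hfg (by_contra fun n => k ⟨subset_closure hx, n⟩)]
  have e2 := integral_image_eq_integral_abs_det_fderiv_smul volume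
    (s := Set.Icc (0 : ℝ) 1 ×ˢ Set.Icc (0 : ℝ) 1) (measurableSet_Icc.prod measurableSet_Icc)
    (f := L) (f' := fun _ => LinearMap.toContinuousLinearMap L)
    (fun x _ => (LinearMap.toContinuousLinearMap L).hasFDerivWithinAt)
    (LinearMap.equivOfDetNeZero L (dL ▸ hd.ne')).injective.injOn fun x => fderiv ℝ g x q
  have d2 : ∀ᵐ z : ℝ × ℝ, DifferentiableAt ℝ g (z.1 • p + z.2 • q) := by
    have k := Measure.addHaar_preimage_linearMap volume (f := L) (dL ▸ hd.ne')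
      {x | ¬ DifferentiableAt ℝ g x}
    rw [ae_iff.mp hg.ae_differentiableAt, mul_zero, ← hL] at k
    exact k
  rw [LinearMap.det_toContinuousLinearMap, dL, abs_of_pos hd, integral_smul, ← hL, ← hP] at e2
  rw [e1, e2, smul_eq_mul, mul_comm, Measure.volume_eq_prod,
    setIntegral_prod _ (w2_int (by rw [Measure.prod_prod]; simp) hg (by fun_prop) q),
    setIntegral_congr_ae (g := fun _ => f q - f 0) measurableSet_Icc]
  · simp
  · filter_upwards [Measure.ae_ae_of_ae_prod d2] with s k hs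
    have k1 := con s hs 1 (by simp)
    have k0 := con s hs 0 (by simp)
    rw [one_smul] at k1
    rw [zero_smul, add_zero] at k0
    rw [integral_Icc_eq_integral_Ioc, ← intervalIntegral.integral_of_le zero_le_one,
      w2_ftc hg _ q k, k1, k0]

end Pool.Agent.TW
end
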