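import Pool.Agent.Lib.MP_4eaecc_an.R1
import Pool.Agent.Lib.MP_4eaecc_an.A1

-- part Pool.Agent.Lib.MP_4eaecc_an.W0
section

/-! Definitions for the closed forms on a triangulated surface. -/

namespace Pool.Agent.TW

open Matrix MeasureTheory Filter Topology
open scoped ENNReal NNReal

/-- The triangle with vertices `0, p, q`. -/
def tr (p q : ℝ × ℝ) : Set (ℝ × ℝ) := {x | 0 ≤ dt p x ∧ 0 ≤ dt (q - p) (x - p) ∧ 0 ≤ dt x q}

/-- The face on the left of `h`, with the origin at the start of `h`. -/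
def Dl (T : Raw) (h : Fin 18) : Set (ℝ × ℝ) := tr (T.2.2 h) (T.2.2 h + T.2.2 (T.1 h))

/-- Area measure; each face appears three times. -/
noncomputable def mT (T : Raw) : Measure Sf :=
  (3⁻¹ : ℝ≥0∞) • ((Measure.count : Measure (Fin 18)).prod volume).restrict {x | x.2 ∈ Dl T x.1}

noncomputable def gd (f : ℝ × ℝ → ℝ) (x : ℝ × ℝ) : ℝ × ℝ :=
  (fderiv ℝ f x (1, 0), fderiv ℝ f x (0, 1))

noncomputable def gr (f : Fin 18 → ℝ × ℝ → ℝ) (x : Sf) : ℝ × ℝ := gd (f x.1) x.2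

/-- Lipschitz functions on the surface. -/
def Fn (T : Raw) : Set (Fin 18 → ℝ × ℝ → ℝ) :=
  {f | (∃ K, ∀ h, LipschitzOnWith K (f h) (Dl T h)) ∧
    (∀ h, ∀ x ∈ Dl T h, f (T.1 h) (x - T.2.2 h) = f h x) ∧
    ∀ h, ∀ t ∈ Set.Icc (0 : ℝ) 1, f (T.2.1 h) ((t - 1) • T.2.2 h) = f h (t • T.2.2 h)}

def IsCo (T : Raw) (c : Fin 18 → ℝ) : Prop :=
  (∀ h, c (T.2.1 h) = -c h) ∧ ∀ h, c h + c (T.1 h) + c (T.1 (T.1 h)) = 0

/-- The covector with values `α` on `p` and `β` on `q`. -/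
noncomputable def g2 (p q : ℝ × ℝ) (α β : ℝ) : ℝ × ℝ :=
  ((α * q.2 - β * p.2) / dt p q, (β * p.1 - α * q.1) / dt p q)

/-- The piecewise constant form of a cocycle. -/
noncomputable def wh (T : Raw) (c : Fin 18 → ℝ) (x : Sf) : ℝ × ℝ :=
  g2 (T.2.2 x.1) (T.2.2 (T.1 x.1)) (c x.1) (c (T.1 x.1))

/-- Functions whose gradient pairs to zero with all gradients and all piecewise constant forms. -/
def Fn0 (T : Raw) : Set (Fin 18 → ℝ × ℝ → ℝ) :=
  {f | f ∈ Fn T ∧ (∀ g ∈ Fn T, ∫ x, dt (gr f x) (gr g x) ∂mT T = 0) ∧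
    ∀ c, IsCo T c → ∫ x, dt (gr f x) (wh T c x) ∂mT T = 0}

def co (α : Fin 18 → Z4) (a : V) : Fin 18 → ℝ := fun h => ev (α h) a

def Frm (S : Raw × (Fin 18 → Z4)) : Set ((Sf → ℝ × ℝ) × V) :=
  {p | ∃ f ∈ Fn0 S.1, p.1 =ᵐ[mT S.1] wh S.1 (co S.2 p.2) + gr f}

def Lab (S : Raw × (Fin 18 → Z4)) : Prop := ∀ a, IsCo S.1 (co S.2 a)

/-- Transport of functions and cocycles; `κ` is the map on cocycles. -/
def GT (T T' : Raw) (κ : (Fin 18 → ℝ) → Fin 18 → ℝ) (Φ : Sf → Sf) : Prop :=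
  MeasurePreserving Φ (mT T) (mT T') ∧
  (∀ f ∈ Fn T, ∃ f' ∈ Fn T', gr f =ᵐ[mT T] gr f' ∘ Φ) ∧
  (∀ f' ∈ Fn T', ∃ f ∈ Fn T, gr f =ᵐ[mT T] gr f' ∘ Φ) ∧
  (∀ c, IsCo T c → IsCo T' (κ c) ∧ ∃ u ∈ Fn0 T', wh T c =ᵐ[mT T] (wh T' (κ c) + gr u) ∘ Φ) ∧
  ∀ c', IsCo T' c' → ∃ c, IsCo T c ∧ κ c = c'

/-- Transport of forms. -/
def TR (S S' : Raw × (Fin 18 → Z4)) (Φ : Sf → Sf) : Prop :=
  MeasurePreserving Φ (mT S.1) (mT S'.1) ∧ (∀ p ∈ Frm S', (p.1 ∘ Φ, p.2) ∈ Frm S) ∧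
    ∀ p ∈ Frm S, ∃ G, (G, p.2) ∈ Frm S' ∧ p.1 =ᵐ[mT S.1] G ∘ Φ

/-- The six half-edges of the two faces along `h`. -/
def six (T : Raw) (h : Fin 18) : Finset (Fin 18) :=
  {h, T.1 h, T.1 (T.1 h), T.2.1 h, T.1 (T.2.1 h), T.1 (T.1 (T.2.1 h))}

/-- `o` places the two faces along `h` in the plane, and their union is `Q`. -/
def Quad (T : Raw) (h : Fin 18) (o : Fin 18 → ℝ × ℝ) (Q : Set (ℝ × ℝ)) : Prop :=
  (∀ e ∈ six T h, o (T.1 e) = o e + T.2.2 e) ∧ o (T.2.1 h) = o h + T.2.2 h ∧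
    Q = (fun x => x + o h) '' Dl T h ∪ (fun x => x + o (T.2.1 h)) '' Dl T (T.2.1 h) ∧ Convex ℝ Q

/-- Two triangulations that differ by the diagonal of the convex quadrilateral `Q`. -/
def QP (T T' : Raw) (h : Fin 18) (o o' : Fin 18 → ℝ × ℝ) (Q : Set (ℝ × ℝ)) : Prop :=
  IsTri T ∧ IsTri T' ∧ Quad T h o Q ∧ Quad T' h o' Q ∧ T'.2.1 = T.2.1 ∧ six T' h = six T h ∧
    (∀ e, e ∉ six T h → T'.1 e = T.1 e) ∧
    ∀ e, e ≠ h → e ≠ T.2.1 h → T'.2.2 e = T.2.2 e ∧ o' e = o e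

/-- The map on cocycles of a flip. -/
def kf (T : Raw) (h : Fin 18) (c : Fin 18 → ℝ) : Fin 18 → ℝ := fun e =>
  if e = h then c (T.1 (T.1 (T.2.1 h))) + c (T.1 h)
  else if e = T.2.1 h then -(c (T.1 (T.1 (T.2.1 h))) + c (T.1 h)) else c e

end Pool.Agent.TW
end

-- part Pool.Agent.Lib.MP_4eaecc_an.W3a
section

/-! Triangles, gluing, the quadrilateral of a flip. -/

namespace Pool.Agent.TW

open Matrix MeasureTheory Filter Topology
open scoped ENNReal NNReal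

theorem mem_tr {p q : ℝ × ℝ} (hd : 0 < dt p q) {x : ℝ × ℝ} :
    x ∈ tr p q ↔ ∃ α β : ℝ, 0 ≤ α ∧ 0 ≤ β ∧ α + β ≤ 1 ∧ x = α • p + β • q := by
  constructor
  · rintro ⟨h1, h2, h3⟩
    refine ⟨dt x q / dt p q, dt p x / dt p q, div_nonneg h3 hd.le, div_nonneg h1 hd.le, ?_, ?_⟩
    · rw [← add_div, div_le_one hd]
      simp only [dt, Prod.fst_sub, Prod.snd_sub] at h2 ⊢
      linarith
    · have h := hd.ne'
      ext <;> simp only [Prod.fst_add, Prod.snd_add, Prod.smul_fst, Prod.smul_snd, smul_eq_mul] <;>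
        field_simp <;> simp only [dt] <;> ring
  · rintro ⟨α, β, h1, h2, h3, rfl⟩
    have k1 := mul_nonneg h1 hd.le
    have k2 := mul_nonneg h2 hd.le
    have k3 := mul_nonneg (sub_nonneg.2 h3) hd.le
    simp only [tr, dt, Set.mem_ofPred_eq, Prod.fst_sub, Prod.snd_sub, Prod.fst_add, Prod.snd_add,
      Prod.smul_fst, Prod.smul_snd, smul_eq_mul] at *
    exact ⟨by linarith, by linarith, by linarith⟩

theorem convex_tr (p q : ℝ × ℝ) : Convex ℝ (tr p q) := by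
  rintro x ⟨h1, h2, h3⟩ y ⟨k1, k2, k3⟩ a b ha hb hab
  obtain rfl : b = 1 - a := by linarith
  have e1 := add_nonneg (mul_nonneg ha h1) (mul_nonneg hb k1)
  have e2 := add_nonneg (mul_nonneg ha h2) (mul_nonneg hb k2)
  have e3 := add_nonneg (mul_nonneg ha h3) (mul_nonneg hb k3)
  simp only [tr, dt, Set.mem_ofPred_eq, Prod.fst_sub, Prod.snd_sub, Prod.fst_add, Prod.snd_add,
    Prod.smul_fst, Prod.smul_snd, smul_eq_mul] at e1 e2 e3 ⊢
  exact ⟨by linarith, by linarith, by linarith⟩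

theorem isClosed_tr (p q : ℝ × ℝ) : IsClosed (tr p q) := by
  unfold tr dt
  refine IsClosed.and (isClosed_le ?_ ?_) (IsClosed.and (isClosed_le ?_ ?_) (isClosed_le ?_ ?_)) <;>
    fun_prop

theorem isCompact_tr {p q : ℝ × ℝ} (hd : 0 < dt p q) : IsCompact (tr p q) := by
  refine Metric.isCompact_of_isClosed_isBounded (isClosed_tr p q)
    (isBounded_iff_forall_norm_le.2 ⟨‖p‖ + ‖q‖, fun x hx => ?_⟩)
  obtain ⟨α, β, h1, h2, h3, rfl⟩ := (mem_tr hd).1 hx
  refine (norm_add_le _ _).trans (add_le_add ?_ ?_) <;> rw [norm_smul, Real.norm_of_nonneg ‹_›] <;>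
    exact mul_le_of_le_one_left (norm_nonneg _) (by linarith)

theorem interior_tr {p q : ℝ × ℝ} (hd : 0 < dt p q) : (interior (tr p q)).Nonempty := by
  have h : IsOpen {x : ℝ × ℝ | 0 < dt p x ∧ 0 < dt (q - p) (x - p) ∧ 0 < dt x q} := by
    unfold dt
    refine IsOpen.and (isOpen_lt ?_ ?_) (IsOpen.and (isOpen_lt ?_ ?_) (isOpen_lt ?_ ?_)) <;>
      fun_prop
  refine ⟨((p.1 + q.1) / 3, (p.2 + q.2) / 3),
    interior_maximal (fun x hx => (⟨hx.1.le, hx.2.1.le, hx.2.2.le⟩ : x ∈ tr p q)) h ?_⟩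
  simp only [dt, Set.mem_ofPred_eq, Prod.fst_sub, Prod.snd_sub] at hd ⊢
  exact ⟨by linarith, by linarith, by linarith⟩

theorem w3a_std : volume {x : ℝ × ℝ | x.1 ∈ Set.Icc 0 1 ∧ x.2 ∈ Set.Icc 0 (1 - x.1)} =
    ENNReal.ofReal (1 / 2) := by
  rw [Measure.volume_eq_prod, Measure.prod_apply (measurableSet_region_between_cc
    measurable_const (by fun_prop) measurableSet_Icc)]
  have h : ∀ a : ℝ, volume (Prod.mk a ⁻¹'
      {x : ℝ × ℝ | x.1 ∈ Set.Icc 0 1 ∧ x.2 ∈ Set.Icc 0 (1 - x.1)}) =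
      (Set.Icc (0 : ℝ) 1).indicator (fun a => ENNReal.ofReal (1 - a)) a := fun a => by
    by_cases k : a ∈ Set.Icc (0 : ℝ) 1
    · rw [Set.indicator_of_mem k, ← sub_zero (1 - a), ← Real.volume_Icc]
      exact congrArg _ (Set.ext fun b => and_iff_right k)
    · rw [Set.indicator_of_notMem k, ← measure_empty (μ := (volume : Measure ℝ))]
      exact congrArg _ (Set.eq_empty_of_forall_notMem fun b e => k e.1)
  simp only [h]
  rw [lintegral_indicator measurableSet_Icc, ← ofReal_integral_eq_lintegral_ofReal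
    (by fun_prop : Continuous fun a : ℝ => 1 - a).integrableOn_Icc
    ((ae_restrict_mem measurableSet_Icc).mono fun a ha => sub_nonneg.2 ha.2),
    integral_Icc_eq_integral_Ioc, ← intervalIntegral.integral_of_le zero_le_one]
  norm_num [intervalIntegral.integral_comp_sub_left fun x : ℝ => x]

theorem volume_tr {p q : ℝ × ℝ} (hd : 0 < dt p q) :
    volume (tr p q) = ENNReal.ofReal (dt p q / 2) := by
  have : (volume : Measure (ℝ × ℝ)).IsAddHaarMeasure := Measure.prod.instIsAddHaarMeasure _ _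
  have e : tr p q = Matrix.toLin (Module.Basis.finTwoProd ℝ) (Module.Basis.finTwoProd ℝ)
      !![p.1, q.1; p.2, q.2] '' {x : ℝ × ℝ | x.1 ∈ Set.Icc 0 1 ∧ x.2 ∈ Set.Icc 0 (1 - x.1)} := by
    ext x
    rw [mem_tr hd]
    simp only [Set.mem_image, Matrix.toLin_finTwoProd_apply]
    constructor
    · rintro ⟨α, β, h1, h2, h3, rfl⟩
      exact ⟨(α, β), ⟨⟨h1, by linarith⟩, h2, by linarith⟩, by ext <;> simp [mul_comm]⟩
    · rintro ⟨⟨α, β⟩, ⟨⟨h1, -⟩, h2, h3⟩, rfl⟩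
      exact ⟨α, β, h1, h2, by linarith, by ext <;> simp [mul_comm]⟩
  rw [e, Measure.addHaar_image_linearMap, LinearMap.det_toLin, Matrix.det_fin_two_of, w3a_std,
    ← ENNReal.ofReal_mul (abs_nonneg _), mul_comm q.1, ← dt, abs_of_pos hd, mul_one_div]

theorem volume_line {p : ℝ × ℝ} (hp : p ≠ 0) (o : ℝ × ℝ) : volume {x | dt p (x - o) = 0} = 0 := by
  have : (volume : Measure (ℝ × ℝ)).IsAddHaarMeasure := Measure.prod.instIsAddHaarMeasure _ _
  let L : ℝ × ℝ →ₗ[ℝ] ℝ := p.1 • LinearMap.snd ℝ ℝ ℝ - p.2 • LinearMap.fst ℝ ℝ ℝ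
  simp only [sub_eq_add_neg _ o]
  refine (measure_preimage_add_right volume (-o) (LinearMap.ker L)).trans
    (Measure.addHaar_submodule volume _ fun h => hp ?_)
  have k : ∀ x, L x = 0 := fun x => (h ▸ Submodule.mem_top : x ∈ LinearMap.ker L)
  exact Prod.ext (by simpa [L] using k (0, 1)) (by simpa [L] using k (1, 0))

theorem w3a_par {p q x : ℝ × ℝ} : x ∈ tr p (p + q) ∪ tr (p + q) q ↔
    0 ≤ dt p x ∧ dt p x ≤ dt p q ∧ 0 ≤ dt x q ∧ dt x q ≤ dt p q := by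
  simp only [tr, dt, Set.mem_union, Set.mem_ofPred_eq, Prod.fst_sub, Prod.snd_sub, Prod.fst_add,
    Prod.snd_add]
  constructor
  · rintro (⟨h1, h2, h3⟩ | ⟨h1, h2, h3⟩) <;>
      exact ⟨by linarith, by linarith, by linarith, by linarith⟩
  · rintro ⟨h1, h2, h3, h4⟩
    rcases le_total (p.1 * x.2 - p.2 * x.1) (x.1 * q.2 - x.2 * q.1) with h | h
    · exact Or.inl ⟨h1, by linarith, by linarith⟩
    · exact Or.inr ⟨by linarith, by linarith, h3⟩

theorem convex_par {p q : ℝ × ℝ} (hd : 0 < dt p q) : Convex ℝ (tr p (p + q) ∪ tr (p + q) q) := by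
  intro x hx y hy a b ha hb hab
  obtain ⟨h1, h2, h3, h4⟩ := w3a_par.1 hx
  obtain ⟨k1, k2, k3, k4⟩ := w3a_par.1 hy
  obtain rfl : b = 1 - a := by linarith
  have e1 := add_nonneg (mul_nonneg ha h1) (mul_nonneg hb k1)
  have e2 := add_le_add (mul_le_mul_of_nonneg_left h2 ha) (mul_le_mul_of_nonneg_left k2 hb)
  have e3 := add_nonneg (mul_nonneg ha h3) (mul_nonneg hb k3)
  have e4 := add_le_add (mul_le_mul_of_nonneg_left h4 ha) (mul_le_mul_of_nonneg_left k4 hb)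
  rw [w3a_par]
  simp only [dt, Prod.fst_add, Prod.snd_add, Prod.smul_fst, Prod.smul_snd, smul_eq_mul]
    at e1 e2 e3 e4 ⊢
  exact ⟨by linarith, by linarith, by linarith, by linarith⟩

/-- A segment of `A ∪ B` from `A` to `B` meets `A ∩ B`. -/
theorem glue {A B : Set (ℝ × ℝ)} (cA : IsClosed A) (cB : IsClosed B) (h : Convex ℝ (A ∪ B))
    {F : ℝ × ℝ → ℝ} {K : ℝ≥0} (hA : LipschitzOnWith K F A) (hB : LipschitzOnWith K F B) :
    LipschitzOnWith K F (A ∪ B) := by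
  have key : ∀ x ∈ A, ∀ y ∈ B, dist (F x) (F y) ≤ K * dist x y := fun x hx y hy => by
    obtain ⟨z, hz, k1, k2⟩ := isPreconnected_closed_iff.1 (convex_segment x y).isPreconnected
      A B cA cB (h.segment_subset (Or.inl hx) (Or.inr hy)) ⟨x, left_mem_segment ℝ x y, hx⟩
      ⟨y, right_mem_segment ℝ x y, hy⟩
    rw [← dist_add_dist_of_mem_segment hz, mul_add]
    exact (dist_triangle _ (F z) _).trans
      (add_le_add (hA.dist_le_mul x hx z k1) (hB.dist_le_mul z k2 y hy))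
  refine LipschitzOnWith.of_dist_le_mul ?_
  rintro x (hx | hx) y (hy | hy)
  · exact hA.dist_le_mul x hx y hy
  · exact key x hx y hy
  · rw [dist_comm, dist_comm x]
    exact key y hy x hx
  · exact hB.dist_le_mul x hx y hy

end Pool.Agent.TW
end

-- part Pool.Agent.Lib.MP_4eaecc_an.W3
section

/-! Triangles, gluing, the quadrilateral of a flip. -/

namespace Pool.Agent.TW

open Matrix MeasureTheory Filter Topology
open scoped ENNReal NNReal

theorem w3_third {T : Raw} (hT : IsTri T) (h : Fin 18) :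
    T.2.2 (T.1 (T.1 h)) = -(T.2.2 h + T.2.2 (T.1 h)) :=
  eq_neg_of_add_eq_zero_right (hT.2.2.2.1 h)

theorem w3_pos {T : Raw} (hT : IsTri T) (h : Fin 18) :
    0 < dt (T.2.2 h) (T.2.2 h + T.2.2 (T.1 h)) := by
  have := hT.2.2.2.2.1 h
  simp only [dt, Prod.fst_add, Prod.snd_add] at this ⊢
  linarith

theorem Dl_next {T : Raw} (hT : IsTri T) (h : Fin 18) (x : ℝ × ℝ) :
    x - T.2.2 h ∈ Dl T (T.1 h) ↔ x ∈ Dl T h := by
  simp only [Dl, tr, Set.mem_ofPred_eq, w3_third hT h, dt, Prod.fst_add, Prod.snd_add, Prod.fst_sub,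
    Prod.snd_sub, Prod.fst_neg, Prod.snd_neg]
  constructor <;> rintro ⟨h1, h2, h3⟩ <;> refine ⟨?_, ?_, ?_⟩ <;> linarith

theorem w3_inj {T : Raw} (hT : IsTri T) : Function.Injective T.1 := fun x y e => by
  rw [← hT.1 x, e, hT.1 y]

theorem w3_fix {T : Raw} (hT : IsTri T) (h : Fin 18) : T.1 h ≠ h := fun e => by
  have := hT.2.2.2.2.1 h
  rw [e] at this
  simp [dt, mul_comm] at this

theorem w3_fix2 {T : Raw} (hT : IsTri T) (h : Fin 18) : T.1 (T.1 h) ≠ h := fun e =>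
  w3_fix hT h (by have := hT.1 h; rwa [e] at this)

theorem w3_op {T : Raw} (hT : IsTri T) (h : Fin 18) :
    T.2.1 h ≠ h ∧ T.2.1 h ≠ T.1 h ∧ T.2.1 h ≠ T.1 (T.1 h) := by
  have h1 := hT.2.2.2.2.1 h
  have h2 := hT.2.2.1 h
  have h3 := w3_third hT h
  refine ⟨fun e => ?_, fun e => ?_, fun e => ?_⟩ <;> rw [e] at h2
  · have a1 := congrArg Prod.fst h2
    have a2 := congrArg Prod.snd h2
    simp only [Prod.fst_neg, Prod.snd_neg] at a1 a2
    have b1 : (T.2.2 h).1 = 0 := by linarith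
    have b2 : (T.2.2 h).2 = 0 := by linarith
    simp [dt, b1, b2] at h1
  · rw [h2] at h1
    simp [dt, mul_comm] at h1
  · have : T.2.2 (T.1 h) = 0 := by
      rw [h2, neg_inj] at h3
      exact left_eq_add.1 h3
    rw [this] at h1
    simp [dt] at h1

/-- The six half-edges are distinct. -/
theorem w3_ne {T : Raw} (hT : IsTri T) (h : Fin 18) :
    (h ≠ T.1 h ∧ h ≠ T.1 (T.1 h) ∧ h ≠ T.2.1 h ∧ h ≠ T.1 (T.2.1 h) ∧ h ≠ T.1 (T.1 (T.2.1 h))) ∧
    (T.1 h ≠ T.1 (T.1 h) ∧ T.1 h ≠ T.2.1 h ∧ T.1 h ≠ T.1 (T.2.1 h) ∧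
      T.1 h ≠ T.1 (T.1 (T.2.1 h))) ∧
    (T.1 (T.1 h) ≠ T.2.1 h ∧ T.1 (T.1 h) ≠ T.1 (T.2.1 h) ∧ T.1 (T.1 h) ≠ T.1 (T.1 (T.2.1 h))) ∧
    (T.2.1 h ≠ T.1 (T.2.1 h) ∧ T.2.1 h ≠ T.1 (T.1 (T.2.1 h))) ∧
    T.1 (T.2.1 h) ≠ T.1 (T.1 (T.2.1 h)) := by
  obtain ⟨k1, k2, k3⟩ := w3_op hT h
  have i := w3_inj hT
  have c1 : h ≠ T.1 (T.2.1 h) := fun e => k3 (i (by rw [hT.1, ← e]))
  have d1 : h ≠ T.1 (T.1 (T.2.1 h)) := fun e => k2 (i (i (by rw [hT.1, ← e])))
  refine ⟨⟨(w3_fix hT h).symm, (w3_fix2 hT h).symm, k1.symm, c1, d1⟩,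
    ⟨(w3_fix hT _).symm, k2.symm, i.ne k1.symm, i.ne c1⟩, ⟨k3.symm, i.ne k2.symm,
    i.ne (i.ne k1.symm)⟩, ⟨(w3_fix hT _).symm, (w3_fix2 hT _).symm⟩, (w3_fix hT _).symm⟩

theorem six_card {T : Raw} (hT : IsTri T) (h : Fin 18) : (six T h).card = 6 := by
  obtain ⟨⟨a1, a2, a3, a4, a5⟩, ⟨b1, b2, b3, b4⟩, ⟨c1, c2, c3⟩, ⟨d1, d2⟩, e1⟩ := w3_ne hT h
  rw [six, Finset.card_insert_of_notMem (by simp only [Finset.mem_insert, Finset.mem_singleton]; tauto),
    Finset.card_insert_of_notMem (by simp only [Finset.mem_insert, Finset.mem_singleton]; tauto),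
    Finset.card_insert_of_notMem (by simp only [Finset.mem_insert, Finset.mem_singleton]; tauto),
    Finset.card_insert_of_notMem (by simp only [Finset.mem_insert, Finset.mem_singleton]; tauto),
    Finset.card_pair e1]

theorem w3_mem {T : Raw} {h e : Fin 18} : e ∈ six T h ↔ e = h ∨ e = T.1 h ∨ e = T.1 (T.1 h) ∨
    e = T.2.1 h ∨ e = T.1 (T.2.1 h) ∨ e = T.1 (T.1 (T.2.1 h)) := by
  simp only [six, Finset.mem_insert, Finset.mem_singleton]

theorem six_next {T : Raw} (hT : IsTri T) (h e : Fin 18) : T.1 e ∈ six T h ↔ e ∈ six T h := by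
  have key : ∀ e, e ∈ six T h → T.1 e ∈ six T h := by
    intro e he
    rw [w3_mem] at he ⊢
    rcases he with rfl | rfl | rfl | rfl | rfl | rfl <;> simp only [hT.1, true_or, or_true]
  refine ⟨fun he => ?_, key e⟩
  have := key _ (key _ he)
  rwa [hT.1] at this

theorem w3_edge {T : Raw} (hT : IsTri T) {e : Fin 18} {y : ℝ × ℝ} (hy : y ∈ Dl T e)
    (h0 : dt (T.2.2 e) y = 0) : ∃ t ∈ Set.Icc (0 : ℝ) 1, y = t • T.2.2 e := by
  have hp := w3_pos hT e
  obtain ⟨α, β, h1, h2, h3, rfl⟩ := (mem_tr hp).1 hy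
  have : β * dt (T.2.2 e) (T.2.2 e + T.2.2 (T.1 e)) = 0 := by
    rw [← h0]
    simp only [dt, Prod.fst_add, Prod.snd_add, Prod.smul_fst, Prod.smul_snd, smul_eq_mul]
    ring
  obtain rfl : β = 0 := (mul_eq_zero.1 this).resolve_right hp.ne'
  exact ⟨α, ⟨h1, by linarith⟩, by simp⟩

theorem w3_zero {T : Raw} (hT : IsTri T) (e : Fin 18) {t : ℝ} (ht : t ∈ Set.Icc (0 : ℝ) 1) :
    t • T.2.2 e ∈ Dl T e :=
  (mem_tr (w3_pos hT e)).2 ⟨t, 0, ht.1, le_rfl, by simpa using ht.2, by simp⟩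

/-- The two faces meet along the common edge only. -/
theorem Quad.inter {T : Raw} (hT : IsTri T) {h : Fin 18} {o : Fin 18 → ℝ × ℝ} {Q : Set (ℝ × ℝ)}
    (q : Quad T h o Q) {x : ℝ × ℝ} (h1 : x - o h ∈ Dl T h)
    (h2 : x - o (T.2.1 h) ∈ Dl T (T.2.1 h)) :
    ∃ t ∈ Set.Icc (0 : ℝ) 1, x = o h + t • T.2.2 h := by
  have a1 := h1.1
  have a2 := h2.1
  rw [hT.2.2.1, q.2.1] at a2
  obtain ⟨t, ht, e⟩ := w3_edge hT h1 (by
    simp only [dt, Prod.fst_add, Prod.snd_add, Prod.fst_sub, Prod.snd_sub, Prod.fst_neg,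
      Prod.snd_neg] at a1 a2 ⊢
    linarith)
  exact ⟨t, ht, by rw [← e, add_sub_cancel]⟩

theorem w3_img {S : Set (ℝ × ℝ)} {p x : ℝ × ℝ} : x ∈ (fun x => x + p) '' S ↔ x - p ∈ S := by
  simp [sub_eq_add_neg]

theorem w3_six_op {T : Raw} (hT : IsTri T) (h : Fin 18) : six T (T.2.1 h) = six T h := by
  ext e
  rw [w3_mem, w3_mem, hT.2.1]
  tauto

theorem w3_quad_op {T : Raw} (hT : IsTri T) {h : Fin 18} {o : Fin 18 → ℝ × ℝ} {Q : Set (ℝ × ℝ)}
    (q : Quad T h o Q) : Quad T (T.2.1 h) o Q := by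
  refine ⟨by rw [w3_six_op hT]; exact q.1, ?_, ?_, q.2.2.2⟩
  · rw [hT.2.1, hT.2.2.1, q.2.1, add_neg_cancel_right]
  · rw [hT.2.1, Set.union_comm]
    exact q.2.2.1

/-- A placed face is cut out by its three sides. -/
theorem w3_face {T : Raw} (hT : IsTri T) {h : Fin 18} {o : Fin 18 → ℝ × ℝ}
    (h1 : o (T.1 h) = o h + T.2.2 h) (h2 : o (T.1 (T.1 h)) = o (T.1 h) + T.2.2 (T.1 h))
    (x : ℝ × ℝ) : x - o h ∈ Dl T h ↔ 0 ≤ dt (T.2.2 h) (x - o h) ∧
      0 ≤ dt (T.2.2 (T.1 h)) (x - o (T.1 h)) ∧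
      0 ≤ dt (T.2.2 (T.1 (T.1 h))) (x - o (T.1 (T.1 h))) := by
  rw [h2, h1]
  simp only [Dl, tr, Set.mem_ofPred_eq, w3_third hT h, dt, Prod.fst_add, Prod.snd_add, Prod.fst_sub,
    Prod.snd_sub, Prod.fst_neg, Prod.snd_neg]
  constructor <;> rintro ⟨a1, a2, a3⟩ <;> refine ⟨?_, ?_, ?_⟩ <;> linarith

theorem w3_open (w z : ℝ × ℝ) : IsOpen {x : ℝ × ℝ | 0 < dt w (x - z)} :=
  isOpen_lt continuous_const (by unfold dt; fun_prop)

theorem w3_sides {T : Raw} (hT : IsTri T) {h : Fin 18} {o : Fin 18 → ℝ × ℝ} {Q : Set (ℝ × ℝ)}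
    (q : Quad T h o Q) {x : ℝ × ℝ} (hx : x - o h ∈ Dl T h)
    (h0 : ¬ (0 < dt (T.2.2 (T.1 h)) (x - o (T.1 h)) ∧
      0 < dt (T.2.2 (T.1 (T.1 h))) (x - o (T.1 (T.1 h))))) :
    ∃ e ∈ six T h, e ≠ h ∧ e ≠ T.2.1 h ∧ ∃ t ∈ Set.Icc (0 : ℝ) 1, x = o e + t • T.2.2 e := by
  obtain ⟨⟨a1, a2, -⟩, ⟨-, b2, -⟩, ⟨c1, -⟩, -⟩ := w3_ne hT h
  have ma : T.1 h ∈ six T h := by simp [six]
  have mb : T.1 (T.1 h) ∈ six T h := by simp [six]
  have o1 := q.1 h (by simp [six])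
  have o2 := q.1 _ ma
  obtain ⟨-, s2, s3⟩ := (w3_face hT o1 o2 x).1 hx
  have x1 : x - o (T.1 h) ∈ Dl T (T.1 h) := by
    rw [o1, ← sub_sub]
    exact (Dl_next hT h _).2 hx
  have x2 : x - o (T.1 (T.1 h)) ∈ Dl T (T.1 (T.1 h)) := by
    rw [o2, ← sub_sub]
    exact (Dl_next hT _ _).2 x1
  rcases not_and_or.1 h0 with h0 | h0
  · obtain ⟨t, ht, e⟩ := w3_edge hT x1 (le_antisymm (not_lt.1 h0) s2)
    exact ⟨_, ma, a1.symm, b2, t, ht, by rw [← e, add_sub_cancel]⟩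
  · obtain ⟨t, ht, e⟩ := w3_edge hT x2 (le_antisymm (not_lt.1 h0) s3)
    exact ⟨_, mb, a2.symm, c1, t, ht, by rw [← e, add_sub_cancel]⟩

theorem w3_front {T : Raw} (hT : IsTri T) {h : Fin 18} {o : Fin 18 → ℝ × ℝ} {Q : Set (ℝ × ℝ)}
    (q : Quad T h o Q) {x : ℝ × ℝ} (hi : x ∉ interior Q) (hx : x - o h ∈ Dl T h) :
    ∃ e ∈ six T h, e ≠ h ∧ e ≠ T.2.1 h ∧ ∃ t ∈ Set.Icc (0 : ℝ) 1, x = o e + t • T.2.2 e := by
  have f1 := w3_face hT (q.1 h (by simp [six])) (q.1 (T.1 h) (by simp [six]))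
  have f2 := w3_face hT (q.1 (T.2.1 h) (by simp [six])) (q.1 (T.1 (T.2.1 h)) (by simp [six]))
  have hop : ∀ y, dt (T.2.2 (T.2.1 h)) (y - o (T.2.1 h)) = -dt (T.2.2 h) (y - o h) := by
    intro y
    rw [hT.2.2.1, q.2.1]
    simp only [dt, Prod.fst_add, Prod.snd_add, Prod.fst_sub, Prod.snd_sub, Prod.fst_neg,
      Prod.snd_neg]
    ring
  by_contra hc
  obtain ⟨s1, s2⟩ := not_not.1 fun h0 => hc (w3_sides hT q hx h0)
  apply hi
  rcases hx.1.lt_or_eq with s0 | s0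
  · refine mem_interior.2 ⟨_, ?_, (w3_open _ _).inter ((w3_open _ _).inter (w3_open _ _)),
      s0, s1, s2⟩
    rintro y ⟨y0, y1, y2⟩
    rw [q.2.2.1]
    exact Or.inl (w3_img.2 ((f1 y).2 ⟨y0.le, y1.le, y2.le⟩))
  · obtain ⟨t, ht, e⟩ := w3_edge hT hx s0.symm
    have hk : x - o (T.2.1 h) ∈ Dl T (T.2.1 h) := by
      have : x - o (T.2.1 h) = (1 - t) • T.2.2 (T.2.1 h) := by
        rw [q.2.1, ← sub_sub, e, hT.2.2.1, smul_neg, sub_smul, one_smul, neg_sub]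
      rw [this]
      exact w3_zero hT _ ⟨by linarith [ht.2], by linarith [ht.1]⟩
    obtain ⟨s3, s4⟩ := not_not.1 fun h0 => hc (by
      obtain ⟨e, e1, e2, e3, e4⟩ := w3_sides hT (w3_quad_op hT q) hk h0
      rw [w3_six_op hT] at e1
      rw [hT.2.1] at e3
      exact ⟨e, e1, e3, e2, e4⟩)
    refine mem_interior.2 ⟨_, ?_, ((w3_open _ _).inter (w3_open _ _)).inter
      ((w3_open _ _).inter (w3_open _ _)), ⟨s1, s2⟩, s3, s4⟩
    rintro y ⟨⟨y1, y2⟩, y3, y4⟩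
    rw [q.2.2.1]
    rcases le_total 0 (dt (T.2.2 h) (y - o h)) with y0 | y0
    · exact Or.inl (w3_img.2 ((f1 y).2 ⟨y0, y1.le, y2.le⟩))
    · exact Or.inr (w3_img.2 ((f2 y).2 ⟨by rw [hop]; linarith, y3.le, y4.le⟩))

theorem Quad.frontier {T : Raw} (hT : IsTri T) {h : Fin 18} {o : Fin 18 → ℝ × ℝ}
    {Q : Set (ℝ × ℝ)} (q : Quad T h o Q) {x : ℝ × ℝ} (hx : x ∈ frontier Q) :
    ∃ e ∈ six T h, e ≠ h ∧ e ≠ T.2.1 h ∧ ∃ t ∈ Set.Icc (0 : ℝ) 1, x = o e + t • T.2.2 e := by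
  have hc : IsClosed Q := by
    rw [q.2.2.1]
    exact (((isCompact_tr (w3_pos hT _)).image (by fun_prop)).union
      ((isCompact_tr (w3_pos hT _)).image (by fun_prop))).isClosed
  have hQ : x ∈ Q := hc.closure_eq ▸ hx.1
  rw [q.2.2.1] at hQ
  rcases hQ with hQ | hQ
  · exact w3_front hT q hx.2 (w3_img.1 hQ)
  · obtain ⟨e, e1, e2, e3, e4⟩ := w3_front hT (w3_quad_op hT q) hx.2 (w3_img.1 hQ)
    rw [w3_six_op hT] at e1
    rw [hT.2.1] at e3
    exact ⟨e, e1, e3, e2, e4⟩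

theorem w3_vec {P A C y : ℝ × ℝ} (h1 : 0 < dt P (P + A)) (h2 : 0 < dt (-P) (-P + C))
    (h3 : 0 ≤ dt (-(P + A)) C) (h4 : 0 ≤ dt (-(-P + C)) A) :
    (y ∈ tr P (P + A) ∨ y - P ∈ tr (-P) (-P + C)) ↔ 0 ≤ dt A (y - P) ∧
      0 ≤ dt (-(P + A)) (y - (P + A)) ∧ 0 ≤ dt C y ∧ 0 ≤ dt (-(-P + C)) (y - C) := by
  constructor
  · rintro (hy | hy)
    · obtain ⟨α, β, a1, a2, a3, rfl⟩ := (mem_tr h1).1 hy
      have b1 := mul_nonneg a1 h1.le
      have b2 := mul_nonneg (sub_nonneg.2 a3) h1.le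
      have b3 := mul_nonneg a1 h2.le
      have b4 := mul_nonneg (sub_nonneg.2 a3) h2.le
      have b5 := mul_nonneg a2 h3
      have b6 := mul_nonneg a2 h4
      simp only [dt, Prod.fst_add, Prod.snd_add, Prod.fst_sub, Prod.snd_sub, Prod.fst_neg,
        Prod.snd_neg, Prod.smul_fst, Prod.smul_snd, smul_eq_mul] at b1 b2 b3 b4 b5 b6 ⊢
      refine ⟨?_, ?_, ?_, ?_⟩ <;> linarith
    · obtain ⟨α, β, a1, a2, a3, e⟩ := (mem_tr h2).1 hy
      obtain rfl := eq_add_of_sub_eq e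
      have b1 := mul_nonneg a1 h1.le
      have b2 := mul_nonneg (sub_nonneg.2 a3) h1.le
      have b3 := mul_nonneg a1 h2.le
      have b4 := mul_nonneg (sub_nonneg.2 a3) h2.le
      have b5 := mul_nonneg a2 h3
      have b6 := mul_nonneg a2 h4
      simp only [dt, Prod.fst_add, Prod.snd_add, Prod.fst_sub, Prod.snd_sub, Prod.fst_neg,
        Prod.snd_neg, Prod.smul_fst, Prod.smul_snd, smul_eq_mul] at b1 b2 b3 b4 b5 b6 ⊢
      refine ⟨?_, ?_, ?_, ?_⟩ <;> linarith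
  · rintro ⟨a1, a2, a3, a4⟩
    simp only [tr, Set.mem_ofPred_eq, dt, Prod.fst_add, Prod.snd_add, Prod.fst_sub, Prod.snd_sub,
      Prod.fst_neg, Prod.snd_neg] at a1 a2 a3 a4 ⊢
    rcases le_total 0 (P.1 * y.2 - P.2 * y.1) with y0 | y0
    · exact Or.inl ⟨y0, by linarith, by linarith⟩
    · exact Or.inr ⟨by linarith, by linarith, by linarith⟩

theorem w3_half (w z : ℝ × ℝ) : Convex ℝ {x : ℝ × ℝ | 0 ≤ dt w (x - z)} := by
  intro x hx y hy a b ha hb hab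
  have h1 := mul_nonneg ha hx
  have h2 := mul_nonneg hb hy
  obtain rfl : b = 1 - a := by linarith
  simp only [Set.mem_ofPred_eq, dt, Prod.fst_add, Prod.snd_add, Prod.fst_sub, Prod.snd_sub,
    Prod.smul_fst, Prod.smul_snd, smul_eq_mul] at h1 h2 ⊢
  linarith

/-- The region inside four placed sides. -/
def w3Q (v o : Fin 18 → ℝ × ℝ) (a b c d : Fin 18) : Set (ℝ × ℝ) :=
  {x | 0 ≤ dt (v a) (x - o a) ∧ 0 ≤ dt (v b) (x - o b) ∧ 0 ≤ dt (v c) (x - o c) ∧
    0 ≤ dt (v d) (x - o d)}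

theorem w3_quad {T : Raw} (hT : IsTri T) {h : Fin 18} {o : Fin 18 → ℝ × ℝ}
    (ho : ∀ e ∈ six T h, o (T.1 e) = o e + T.2.2 e) (hk : o (T.2.1 h) = o h + T.2.2 h)
    (h3 : 0 < dt (T.2.2 (T.1 (T.1 h))) (T.2.2 (T.1 (T.2.1 h))))
    (h4 : 0 < dt (T.2.2 (T.1 (T.1 (T.2.1 h)))) (T.2.2 (T.1 h))) :
    Quad T h o (w3Q T.2.2 o (T.1 h) (T.1 (T.1 h)) (T.1 (T.2.1 h)) (T.1 (T.1 (T.2.1 h)))) := by
  refine ⟨ho, hk, ?_, (w3_half _ _).inter ((w3_half _ _).inter ((w3_half _ _).inter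
    (w3_half _ _)))⟩
  have o1 := ho h (by simp [six])
  have o2 := ho (T.1 h) (by simp [six])
  have o3 := ho (T.2.1 h) (by simp [six])
  have o4 := ho (T.1 (T.2.1 h)) (by simp [six])
  have p2 := w3_pos hT (T.2.1 h)
  rw [hk, hT.2.2.1, add_neg_cancel_right] at o3
  rw [w3_third hT] at h3 h4
  rw [hT.2.2.1] at h4 p2
  ext x
  have := w3_vec (y := x - o h) (w3_pos hT h) p2 h3.le h4.le
  rw [Set.mem_union, w3_img, w3_img, hk, ← sub_sub, Dl, Dl, hT.2.2.1, this, w3Q, Set.mem_ofPred_eq,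
    o4, o3, o2, o1, w3_third hT, w3_third hT, hT.2.2.1]
  simp only [sub_sub, add_assoc]

theorem qp_of_flip {T T' : Raw} (hT : IsTri T) (hT' : IsTri T') {h : Fin 18} (f : FlipAt T T' h) :
    ∃ o o' Q, QP T T' h o o' Q := by
  obtain ⟨⟨a1, a2, a3, a4, a5⟩, ⟨b1, b2, b3, b4⟩, ⟨c1, c2, c3⟩, ⟨d1, d2⟩, e1⟩ := w3_ne hT h
  obtain ⟨f0, f1, f2, f3, f4, f5, f6, f7, f8, f9⟩ := f
  have t1 := hT.1 h
  have t2 := hT.1 (T.2.1 h)
  have v1 := w3_third hT h
  have v2 := w3_third hT (T.2.1 h)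
  have v3 := hT.2.2.1 h
  have v4 := hT'.2.2.1 h
  have p1 := hT.2.2.2.2.1 (T.1 h)
  have p2 := hT.2.2.2.2.1 (T.1 (T.2.1 h))
  have p3 := hT'.2.2.2.2.1 (T.1 (T.1 h))
  have p4 := hT'.2.2.2.2.1 (T.1 (T.1 (T.2.1 h)))
  have m1 := @w3_mem T h
  have m2 := @w3_mem T' h
  have q1 := @w3_quad T hT h
  have q2 := @w3_quad T' hT' h
  rw [f0] at v4 m2 q2
  rw [f1, f2, f4, f5] at m2 q2
  rw [f2] at p3
  rw [f5] at p4
  have hk0 : T'.2.1 h = T.2.1 h := by rw [f0]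
  generalize hb : T.1 (T.1 h) = b at *
  generalize ha : T.1 h = a at *
  generalize hd : T.1 (T.1 (T.2.1 h)) = d at *
  generalize hc : T.1 (T.2.1 h) = c at *
  generalize hk : T.2.1 h = k at *
  have wa := f9 a a1.symm b2
  have wb := f9 b a2.symm c1
  have wc := f9 c a4.symm d1.symm
  have wd := f9 d a5.symm d2.symm
  rw [wb, wc] at p3
  rw [wd, wa] at p4
  rw [wa, wb, wc, wd] at q2
  obtain ⟨o, oh, oa, ob, ok, oc, od⟩ : ∃ o : Fin 18 → ℝ × ℝ, o h = 0 ∧ o a = T.2.2 h ∧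
      o b = T.2.2 h + T.2.2 a ∧ o k = T.2.2 h ∧ o c = 0 ∧ o d = T.2.2 c := by
    refine ⟨fun e => if e = a then T.2.2 h else if e = b then T.2.2 h + T.2.2 a else
      if e = k then T.2.2 h else if e = d then T.2.2 c else 0, ?_, ?_, ?_, ?_, ?_, ?_⟩
    · simp only [if_neg a1, if_neg a2, if_neg a3, if_neg a5]
    · simp only [if_true]
    · simp only [if_neg b1.symm, if_true]
    · simp only [if_neg b2.symm, if_neg c1.symm, if_true]
    · simp only [if_neg b3.symm, if_neg c2.symm, if_neg d1.symm, if_neg e1]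
    · simp only [if_neg b4.symm, if_neg c3.symm, if_neg d2.symm, if_true]
  obtain ⟨o', oh', ok', oe⟩ : ∃ o' : Fin 18 → ℝ × ℝ, o' h = T.2.2 c ∧ o' k = T.2.2 h + T.2.2 a ∧
      ∀ e, e ≠ h → e ≠ k → o' e = o e := by
    refine ⟨fun e => if e = h then T.2.2 c else if e = k then T.2.2 h + T.2.2 a else o e, ?_, ?_,
      fun e e1 e2 => ?_⟩
    · simp only [if_true]
    · simp only [if_neg a3.symm, if_true]
    · simp only [if_neg e1, if_neg e2]
  have oa' := oe a a1.symm b2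
  have ob' := oe b a2.symm c1
  have oc' := oe c a4.symm d1.symm
  have od' := oe d a5.symm d2.symm
  have hs : six T' h = six T h := by
    ext e
    rw [m1, m2]
    tauto
  rw [v3] at v2
  have k1 : o' k = o' h + T'.2.2 h := by
    rw [ok', oh', f8, v2]
    abel
  have Q1 := q1 (o := o) (fun e he => by
    rcases m1.1 he with rfl | rfl | rfl | rfl | rfl | rfl
    · rw [ha, oa, oh, zero_add]
    · rw [hb, ob, oa]
    · rw [t1, oh, ob, v1, add_neg_cancel]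
    · rw [hc, oc, ok, v3, add_neg_cancel]
    · rw [hd, od, oc, zero_add]
    · rw [t2, ok, od, v2]
      abel) (by rw [ok, oh, zero_add]) p3 p4
  have Q2 := q2 (o := o') (fun e he => by
    rcases m2.1 he with rfl | rfl | rfl | rfl | rfl | rfl
    · rw [f1, ob', ob, ← k1, ok']
    · rw [f2, oc', ob', oc, ob, wb, v1, add_neg_cancel]
    · rw [f3, oh', oc', oc, wc, zero_add]
    · rw [f4, od', od, k1, v4, add_neg_cancel_right, oh']
    · rw [f5, oa', od', oa, od, wd, v2]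
      abel
    · rw [f6, ok', oa', oa, wa]) k1 p2 p1
  have hQ : w3Q T'.2.2 o' b c d a = w3Q T.2.2 o a b c d := by
    ext x
    simp only [w3Q, Set.mem_ofPred_eq, wa, wb, wc, wd, oa', ob', oc', od']
    tauto
  rw [hQ] at Q2
  refine ⟨o, o', _, hT, hT', Q1, Q2, f0, hs, fun e he => ?_, fun e e1 e2 => ?_⟩
  · rw [m1] at he
    simp only [not_or] at he
    exact f7 e he.1 he.2.1 he.2.2.1 he.2.2.2.1 he.2.2.2.2.1 he.2.2.2.2.2
  · rw [hk] at e2
    exact ⟨f9 e e1 e2, oe e e1 e2⟩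

theorem QP.symm {T T' : Raw} {h : Fin 18} {o o' : Fin 18 → ℝ × ℝ} {Q : Set (ℝ × ℝ)}
    (q : QP T T' h o o' Q) : QP T' T h o' o Q := by
  obtain ⟨a1, a2, a3, a4, a5, a6, a7, a8⟩ := q
  refine ⟨a2, a1, a4, a3, a5.symm, a6.symm, fun e he => (a7 e (a6 ▸ he)).symm, fun e e1 e2 => ?_⟩
  rw [a5] at e2
  exact ⟨(a8 e e1 e2).1.symm, (a8 e e1 e2).2.symm⟩

end Pool.Agent.TW
end

-- part Pool.Agent.Lib.MP_4eaecc_an.W1
section

/-! Lipschitz functions in the plane: the Jacobian integrates to zero. -/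

namespace Pool.Agent.TW

open Matrix MeasureTheory Filter Topology
open scoped ENNReal NNReal

theorem w1_parts {f g : ℝ × ℝ → ℝ} {K L : ℝ≥0} (hf : LipschitzWith K f) (hg : LipschitzWith L g)
    (hc : HasCompactSupport f) (a v : ℝ × ℝ) :
    ∫ x, (g (x + a) - g x) * lineDeriv ℝ f x v = -∫ y, (f (y + -a) - f y) * lineDeriv ℝ g y v := by
  have hga : LipschitzWith L fun x => g (x + a) := by
    simpa [Function.comp_def] using hg.comp (isometry_add_right a).lipschitz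
  have h1 := (hga.sub hg).integral_lineDeriv_mul_eq (μ := volume) hf hc v
  simp only [lineDeriv_neg, neg_mul, integral_neg] at h1
  have i1 := (hg.locallyIntegrable_lineDeriv (μ := volume) v).integrable_smul_right_of_hasCompactSupport
    hf.continuous hc
  have i2 := (hg.locallyIntegrable_lineDeriv (μ := volume) v).integrable_smul_right_of_hasCompactSupport
    (g := fun y => f (y + -a)) (hf.continuous.comp (continuous_add_const _))
    (hc.comp_homeomorph (Homeomorph.addRight (-a)))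
  simp only [smul_eq_mul] at i1 i2
  have h2 : ∫ x, lineDeriv ℝ (fun x => g (x + a) - g x) x v * f x =
      ∫ x, (lineDeriv ℝ g (x + a) v * f (x + a + -a) - lineDeriv ℝ g x v * f x) := by
    refine integral_congr_ae ?_
    filter_upwards [hga.ae_lineDifferentiableAt (μ := volume) v,
      hg.ae_lineDifferentiableAt (μ := volume) v] with x k1 k2
    have k3 : HasLineDerivAt ℝ (fun x => g (x + a) - g x)
        (lineDeriv ℝ (fun x => g (x + a)) x v - lineDeriv ℝ g x v) x v :=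
      HasDerivAt.sub k1.hasLineDerivAt k2.hasLineDerivAt
    have k4 : lineDeriv ℝ (fun x => g (x + a)) x v = lineDeriv ℝ g (x + a) v := by
      simp only [lineDeriv, add_right_comm x _ a]
    rw [k3.lineDeriv, k4, add_neg_cancel_right, sub_mul]
  rw [h2, integral_sub (i2.comp_add_right a) i1,
    integral_add_right_eq_self (fun y => lineDeriv ℝ g y v * f (y + -a)) a,
    ← integral_sub i2 i1] at h1
  simp only [mul_comm (_ - _ : ℝ)]
  rw [eq_neg_iff_add_eq_zero, add_comm, ← eq_neg_iff_add_eq_zero, ← h1]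
  simp only [mul_sub]

theorem w1_zero {f : ℝ × ℝ → ℝ} {x : ℝ × ℝ} (hx : x ∉ tsupport f) (v : ℝ × ℝ) :
    lineDeriv ℝ f x v = 0 := by
  rw [(notMem_tsupport_iff_eventuallyEq.mp hx).lineDeriv_eq]
  simp [lineDeriv]

theorem w1_int {f : ℝ × ℝ → ℝ} {K : ℝ≥0} (hf : LipschitzWith K f) (hc : HasCompactSupport f)
    (v : ℝ × ℝ) : Integrable fun x => lineDeriv ℝ f x v :=
  (integrableOn_iff_integrable_of_support_subset fun _ hx =>
    by_contra fun h => hx (w1_zero h v)).mp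
    ((hf.locallyIntegrable_lineDeriv v).integrableOn_isCompact hc)

theorem w1_symm {f g : ℝ × ℝ → ℝ} {K L : ℝ≥0} (hf : LipschitzWith K f) (hg : LipschitzWith L g)
    (hc : HasCompactSupport f) (u v : ℝ × ℝ) :
    ∫ x, lineDeriv ℝ f x u * lineDeriv ℝ g x v = ∫ x, lineDeriv ℝ g x u * lineDeriv ℝ f x v := by
  have hK : IsCompact (Metric.cthickening ‖u‖ (tsupport f)) := IsCompact.cthickening hc
  have h0 : ∀ y, y ∉ Metric.cthickening ‖u‖ (tsupport f) → y ∉ tsupport f :=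
    fun y hy h => hy (Metric.self_subset_cthickening _ h)
  have A := hg.integral_inv_smul_sub_mul_tendsto_integral_lineDeriv_mul (w1_int hf hc v) u
  have B := (hf.integral_inv_smul_sub_mul_tendsto_integral_lineDeriv_mul
    (((hg.locallyIntegrable_lineDeriv (μ := volume) v).integrableOn_isCompact hK).integrable_indicator
      hK.measurableSet) (-u)).neg
  have e : -∫ x, lineDeriv ℝ f x (-u) * (Metric.cthickening ‖u‖ (tsupport f)).indicator
      (fun x => lineDeriv ℝ g x v) x = ∫ x, lineDeriv ℝ f x u * lineDeriv ℝ g x v := by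
    rw [← integral_neg]
    refine integral_congr_ae (.of_forall fun x => ?_)
    by_cases hx : x ∈ Metric.cthickening ‖u‖ (tsupport f)
    · simp [hx, lineDeriv_neg]
    · simp [hx, w1_zero (h0 x hx)]
  rw [e] at B
  refine tendsto_nhds_unique (B.congr' ?_) A
  filter_upwards [Ioc_mem_nhdsGT zero_lt_one] with t ht
  simp only [smul_eq_mul, mul_assoc, integral_const_mul]
  rw [w1_parts hf hg hc, mul_neg, smul_neg]
  congr 2
  refine integral_congr_ae (.of_forall fun y => ?_)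
  by_cases hy : y ∈ Metric.cthickening ‖u‖ (tsupport f)
  · simp [hy]
  · have h1 : y + -(t • u) ∉ tsupport f := fun h => hy (Metric.mem_cthickening_of_dist_le _ _ _ _ h
      (by
        rw [dist_self_add_right, norm_neg, norm_smul, Real.norm_of_nonneg ht.1.le]
        exact mul_le_of_le_one_left (norm_nonneg _) ht.2))
    simp [image_eq_zero_of_notMem_tsupport h1, image_eq_zero_of_notMem_tsupport (h0 y hy)]

theorem w1_congr {f g : ℝ × ℝ → ℝ} {x : ℝ × ℝ} (h : f =ᶠ[𝓝 x] g) : gd f x = gd g x := by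
  rw [gd, gd, h.fderiv_eq]

theorem w1_ae {Q : Set (ℝ × ℝ)} (hQ : Convex ℝ Q) : ∀ᵐ x, x ∈ Q → x ∈ interior Q := by
  filter_upwards [measure_eq_zero_iff_ae_notMem.mp (hQ.addHaar_frontier volume)] with x hx h
  exact by_contra fun k => hx ⟨subset_closure h, k⟩

/-- Replace `∂₁ g` by a difference quotient, use `LipschitzWith.integral_lineDeriv_mul_eq`,
translate, and pass to the limit by dominated convergence. -/
theorem jac_zero {f g : ℝ × ℝ → ℝ} {K L : ℝ≥0} (hf : LipschitzWith K f) (hg : LipschitzWith L g)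
    (hc : HasCompactSupport f) : ∫ x, dt (gd f x) (gd g x) = 0 := by
  have h1 : ∫ x, dt (gd f x) (gd g x) = ∫ x, (lineDeriv ℝ f x (1, 0) * lineDeriv ℝ g x (0, 1) -
      lineDeriv ℝ g x (1, 0) * lineDeriv ℝ f x (0, 1)) := by
    refine integral_congr_ae ?_
    filter_upwards [hf.ae_differentiableAt (μ := volume), hg.ae_differentiableAt (μ := volume)]
      with x k1 k2
    simp only [k1.lineDeriv_eq_fderiv, k2.lineDeriv_eq_fderiv, dt, gd]
    ring
  exact h1.trans ((integral_sub ((w1_int hf hc _).mul_of_top_left (hg.memLp_lineDeriv _))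
    ((w1_int hf hc _).mul_of_top_right (hg.memLp_lineDeriv _))).trans
    (sub_eq_zero.mpr (w1_symm hf hg hc _ _)))

/-- Extend `f` by zero and `g` by `LipschitzOnWith.extend_real`. -/
theorem jac_zero_on {f g : ℝ × ℝ → ℝ} {K L : ℝ≥0} {Q : Set (ℝ × ℝ)} (hQ : Convex ℝ Q)
    (cQ : IsCompact Q) (hf : LipschitzOnWith K f Q) (hg : LipschitzOnWith L g Q)
    (h0 : ∀ x ∈ frontier Q, f x = 0) : ∫ x in Q, dt (gd f x) (gd g x) = 0 := by
  obtain ⟨G, hG, eG⟩ := hg.extend_real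
  have key : ∀ x ∈ Q, ∀ y, y ∉ Q → dist (f x) 0 ≤ K * dist x y := fun x hx y hy => by
    obtain ⟨z, hz, e⟩ := exists_mem_frontier_infDist_compl_eq_dist hx
      fun h => hy (h ▸ Set.mem_univ y)
    rw [← h0 z hz]
    exact (hf.dist_le_mul x hx z (cQ.isClosed.frontier_subset hz)).trans
      (mul_le_mul_of_nonneg_left (e ▸ Metric.infDist_le_dist_of_mem hy) K.2)
  have hF : LipschitzWith K (Q.indicator f) := LipschitzWith.of_dist_le_mul fun x y => by
    by_cases hx : x ∈ Q <;> by_cases hy : y ∈ Q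
    · simpa [hx, hy] using hf.dist_le_mul x hx y hy
    · simpa [hx, hy] using key x hx y hy
    · simpa [hx, hy, dist_comm x] using key y hy x hx
    · simpa [hx, hy] using mul_nonneg K.2 dist_nonneg
  refine Eq.trans ?_ ((setIntegral_eq_integral_of_forall_compl_eq_zero (s := Q) fun x hx => ?_).trans
    (jac_zero hF hG (HasCompactSupport.intro cQ fun x hx => Set.indicator_of_notMem hx f)))
  · refine setIntegral_congr_ae cQ.measurableSet ?_
    filter_upwards [w1_ae hQ] with x hx h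
    have h1 := mem_interior_iff_mem_nhds.mp (hx h)
    rw [w1_congr (eG.eventuallyEq_of_mem h1),
      w1_congr ((Q.eqOn_indicator (f := f)).eventuallyEq_of_mem h1)]
  · rw [w1_congr ((Q.eqOn_indicator' (f := f)).eventuallyEq_of_mem
      (cQ.isClosed.isOpen_compl.mem_nhds hx))]
    simp [dt, gd]

theorem measurable_gd (f : ℝ × ℝ → ℝ) : Measurable (gd f) :=
  (measurable_fderiv_apply_const ℝ f _).prodMk (measurable_fderiv_apply_const ℝ f _)

theorem ae_diff {f : ℝ × ℝ → ℝ} {K : ℝ≥0} {Q : Set (ℝ × ℝ)} (hQ : Convex ℝ Q)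
    (mQ : MeasurableSet Q) (hf : LipschitzOnWith K f Q) :
    ∀ᵐ x ∂volume.restrict Q, x ∈ interior Q ∧ DifferentiableAt ℝ f x ∧ ‖gd f x‖ ≤ K := by
  rw [ae_restrict_iff' mQ]
  filter_upwards [w1_ae hQ, hf.ae_differentiableWithinAt_of_mem (μ := volume)] with x k1 k2 hx
  have h1 := mem_interior_iff_mem_nhds.mp (k1 hx)
  have h2 := norm_fderiv_le_of_lipschitzOn ℝ h1 hf
  refine ⟨k1 hx, (k2 hx).differentiableAt h1, max_le ?_ ?_⟩ <;>
    exact ((fderiv ℝ f x).le_opNorm _).trans (by simpa using h2)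

end Pool.Agent.TW
end

-- part Pool.Agent.Lib.MP_4eaecc_an.W4
section

/-! The measure `mT`, linear structure, abstract transport. -/

namespace Pool.Agent.TW

open Matrix MeasureTheory Filter Topology
open scoped ENNReal NNReal

theorem w4_ms (T : Raw) (h : Fin 18) : MeasurableSet (Dl T h) := (isClosed_tr _ _).measurableSet

theorem w4_eq (T : Raw) :
    mT T = (3⁻¹ : ℝ≥0∞) • ∑ h, (volume.restrict (Dl T h)).map (Prod.mk h) := by
  have h1 : MeasurableSet {x : Sf | x.2 ∈ Dl T x.1} :=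
    measurableSet_setOfPred.2 (measurable_from_prod_countable_right fun h =>
      measurableSet_setOfPred.1 (w4_ms T h))
  rw [mT]
  congr 1
  ext s hs
  rw [Measure.restrict_apply hs, Measure.prod_apply (hs.inter h1), lintegral_count, tsum_fintype,
    Measure.finsetSum_apply]
  refine Finset.sum_congr rfl fun h _ => ?_
  rw [Measure.map_apply measurable_prodMk_left hs, Measure.restrict_apply (measurable_prodMk_left hs)]
  rfl

theorem lintegral_mT (T : Raw) {F : Sf → ℝ≥0∞} (hF : Measurable F) :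
    ∫⁻ x, F x ∂mT T = 3⁻¹ * ∑ h, ∫⁻ x in Dl T h, F (h, x) := by
  have _ := hF
  simp only [w4_eq, lintegral_smul_measure, lintegral_finsetSum_measure,
    (measurableEmbedding_prodMk_left _).lintegral_map, smul_eq_mul]

theorem integral_mT (T : Raw) {F : Sf → ℝ} (hF : Integrable F (mT T)) :
    ∫ x, F x ∂mT T = 3⁻¹ * ∑ h, ∫ x in Dl T h, F (h, x) := by
  rw [w4_eq, integrable_smul_measure (by simp) (by simp), integrable_finsetSum_measure] at hF
  rw [w4_eq, integral_smul_measure, integral_finsetSum_measure hF]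
  simp [(measurableEmbedding_prodMk_left _).integral_map]

theorem ae_mT (T : Raw) {p : Sf → Prop} :
    (∀ᵐ x ∂mT T, p x) ↔ ∀ h, ∀ᵐ x ∂volume.restrict (Dl T h), p (h, x) := by
  rw [w4_eq, Measure.ae_ennreal_smul_measure_iff (by simp), ae_finsetSum_measure_iff]
  simp only [(measurableEmbedding_prodMk_left _).ae_map_iff, Finset.mem_univ, forall_true_left]

theorem finite_mT {T : Raw} (hT : IsTri T) : IsFiniteMeasure (mT T) := by
  have : ∀ h, IsFiniteMeasure (volume.restrict (Dl T h)) := fun h => isFiniteMeasure_restrict.2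
    (isCompact_tr (by simpa [dt, mul_add, mul_comm] using hT.2.2.2.2.1 h)).measure_lt_top.ne
  rw [w4_eq]
  exact Measure.smul_finite _ (by simp)

theorem measurable_gr (f : Fin 18 → ℝ × ℝ → ℝ) : Measurable (gr f) := by
  exact measurable_from_prod_countable_right fun h => measurable_gd (f h)

theorem measurable_wh (T : Raw) (c : Fin 18 → ℝ) : Measurable (wh T c) := by
  exact measurable_from_prod_countable_right fun h => measurable_const (a := wh T c (h, 0))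

theorem memLp_gr {T : Raw} {f : Fin 18 → ℝ × ℝ → ℝ} (hf : f ∈ Fn T) : MemLp (gr f) ⊤ (mT T) := by
  obtain ⟨K, hK⟩ := hf.1
  exact memLp_top_of_bound (measurable_gr f).aestronglyMeasurable K ((ae_mT T).2 fun h =>
    (ae_diff (convex_tr _ _) (w4_ms T h) (hK h)).mono fun x hx => hx.2.2)

theorem memLp_wh (T : Raw) (c : Fin 18 → ℝ) : MemLp (wh T c) ⊤ (mT T) := by
  exact memLp_top_of_bound (measurable_wh T c).aestronglyMeasurable (∑ h, ‖wh T c (h, 0)‖)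
    (.of_forall fun x => Finset.single_le_sum (f := fun h => ‖wh T c (h, 0)‖)
      (fun _ _ => norm_nonneg _) (Finset.mem_univ x.1))

theorem integrable_dt {m : Measure Sf} [IsFiniteMeasure m] {G H : Sf → ℝ × ℝ} (hG : MemLp G ⊤ m)
    (hH : MemLp H ⊤ m) : Integrable (fun x => dt (G x) (H x)) m := by
  exact ((hG.fst.integrable le_top).mul_of_top_left hH.snd).sub
    ((hG.snd.integrable le_top).mul_of_top_left hH.fst)

theorem Fn_lin {T : Raw} {f g : Fin 18 → ℝ × ℝ → ℝ} (hf : f ∈ Fn T) (hg : g ∈ Fn T) (a b : ℝ) :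
    a • f + b • g ∈ Fn T ∧ gr (a • f + b • g) =ᵐ[mT T] a • gr f + b • gr g := by
  obtain ⟨⟨K, hK⟩, f1, f2⟩ := hf
  obtain ⟨⟨L, hL⟩, g1, g2⟩ := hg
  refine ⟨⟨⟨‖a‖₊ * K + ‖b‖₊ * L, fun h => ((lipschitzWith_smul a).comp_lipschitzOnWith (hK h)).add
    ((lipschitzWith_smul b).comp_lipschitzOnWith (hL h))⟩, fun h x hx => ?_, fun h t ht => ?_⟩,
    (ae_mT T).2 fun h => ?_⟩
  · simp only [Pi.add_apply, Pi.smul_apply, f1 h x hx, g1 h x hx]
  · simp only [Pi.add_apply, Pi.smul_apply, f2 h t ht, g2 h t ht]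
  · filter_upwards [ae_diff (convex_tr _ _) (w4_ms T h) (hK h),
      ae_diff (convex_tr _ _) (w4_ms T h) (hL h)] with x h1 h2
    simp [gr, gd, fderiv_add (h1.2.1.const_smul a) (h2.2.1.const_smul b),
      fderiv_const_smul h1.2.1, fderiv_const_smul h2.2.1]

theorem Fn0_lin {T : Raw} (hT : IsTri T) {f g : Fin 18 → ℝ × ℝ → ℝ} (hf : f ∈ Fn0 T)
    (hg : g ∈ Fn0 T) (a b : ℝ) : a • f + b • g ∈ Fn0 T := by
  have := finite_mT hT
  obtain ⟨h1, h2⟩ := Fn_lin hf.1 hg.1 a b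
  have key : ∀ G : Sf → ℝ × ℝ, MemLp G ⊤ (mT T) → ∫ x, dt (gr f x) (G x) ∂mT T = 0 →
      ∫ x, dt (gr g x) (G x) ∂mT T = 0 → ∫ x, dt (gr (a • f + b • g) x) (G x) ∂mT T = 0 :=
    fun G hG e1 e2 => by
      rw [integral_congr_ae (g := fun x => a * dt (gr f x) (G x) + b * dt (gr g x) (G x))
        (h2.mono fun x hx => by simp only [hx]; simp [dt]; ring),
        integral_add ((integrable_dt (memLp_gr hf.1) hG).const_mul a)
          ((integrable_dt (memLp_gr hg.1) hG).const_mul b), integral_const_mul, integral_const_mul,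
        e1, e2, mul_zero, mul_zero, add_zero]
  exact ⟨h1, fun u hu => key _ (memLp_gr hu) (hf.2.1 u hu) (hg.2.1 u hu),
    fun c hc => key _ (memLp_wh T c) (hf.2.2 c hc) (hg.2.2 c hc)⟩

theorem w4_zero : gr 0 = 0 := funext fun x => by simp [gr, gd]

theorem zero_Fn0 (T : Raw) : (0 : Fin 18 → ℝ × ℝ → ℝ) ∈ Fn0 T := by
  exact ⟨⟨⟨0, fun _ => (LipschitzWith.const _).lipschitzOnWith⟩, fun _ _ _ => rfl,
    fun _ _ _ => rfl⟩, fun _ _ => by simp [w4_zero, dt], fun _ _ => by simp [w4_zero, dt]⟩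

theorem Frm_lin {S : Raw × (Fin 18 → Z4)} (hT : IsTri S.1) {p q : (Sf → ℝ × ℝ) × V}
    (hp : p ∈ Frm S) (hq : q ∈ Frm S) (a b : ℝ) : a • p + b • q ∈ Frm S := by
  obtain ⟨f, hf, e1⟩ := hp
  obtain ⟨g, hg, e2⟩ := hq
  refine ⟨_, Fn0_lin hT hf hg a b, ?_⟩
  filter_upwards [e1, e2, (Fn_lin hf.1 hg.1 a b).2] with x h1 h2 h3
  simp only [Prod.fst_add, Prod.snd_add, Prod.smul_fst, Prod.smul_snd, Pi.add_apply, Pi.smul_apply,
    h1, h2, h3, wh, g2, co, ev_add, ev_smul]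
  ext <;> simp <;> ring

theorem wh_Frm (S : Raw × (Fin 18 → Z4)) (a : V) : (wh S.1 (co S.2 a), a) ∈ Frm S := by
  exact ⟨0, zero_Fn0 _, by rw [w4_zero, add_zero]⟩

theorem TR.trans {S S' S'' : Raw × (Fin 18 → Z4)} {Φ Ψ : Sf → Sf} (h : TR S S' Φ)
    (k : TR S' S'' Ψ) : TR S S'' (Ψ ∘ Φ) := by
  refine ⟨k.1.comp h.1, fun p hp => h.2.1 _ (k.2.1 p hp), fun p hp => ?_⟩
  obtain ⟨G, h1, h2⟩ := h.2.2 p hp
  obtain ⟨H, h3, h4⟩ := k.2.2 _ h1
  exact ⟨H, h3, h2.trans (h.1.quasiMeasurePreserving.ae_eq h4)⟩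

theorem TR.refl (S : Raw × (Fin 18 → Z4)) : TR S S id := by
  exact ⟨.id _, fun _ hp => hp, fun p hp => ⟨p.1, hp, .rfl⟩⟩

theorem tr_of_gt {S S' : Raw × (Fin 18 → Z4)} (hT : IsTri S.1) (hT' : IsTri S'.1) (hL : Lab S)
    {κ : (Fin 18 → ℝ) → Fin 18 → ℝ} {Φ : Sf → Sf} (h : GT S.1 S'.1 κ Φ)
    (hκ : ∀ a, κ (co S.2 a) = co S'.2 a) : TR S S' Φ := by
  obtain ⟨h1, h2, h3, h4, h5⟩ := h
  have _ := hT
  have := finite_mT hT'
  have k0 : ∀ {G H : Sf → ℝ × ℝ} {G' H' : Sf → ℝ × ℝ}, Measurable G' → Measurable H' →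
      G =ᵐ[mT S.1] G' ∘ Φ → H =ᵐ[mT S.1] H' ∘ Φ →
      ∫ x, dt (G x) (H x) ∂mT S.1 = ∫ x, dt (G' x) (H' x) ∂mT S'.1 :=
    fun {G H G' H'} m1 m2 e1 e2 => by
      rw [← h1.map_eq, integral_map h1.measurable.aemeasurable
        (Measurable.aestronglyMeasurable (by unfold dt; fun_prop))]
      refine integral_congr_ae ?_
      filter_upwards [e1, e2] with x a b
      rw [a, b]
      rfl
  have k1 : ∀ {f c u}, f ∈ Fn S'.1 → u ∈ Fn0 S'.1 →
      ∫ x, dt (gr f x) ((wh S'.1 c + gr u) x) ∂mT S'.1 = ∫ x, dt (gr f x) (wh S'.1 c x) ∂mT S'.1 :=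
    fun {f c u} hf hu => by
      rw [← sub_zero (∫ x, dt (gr f x) (wh S'.1 c x) ∂mT S'.1), ← hu.2.1 f hf, ← integral_sub
        (integrable_dt (memLp_gr hf) (memLp_wh _ c)) (integrable_dt (memLp_gr hu.1) (memLp_gr hf))]
      congr 1
      funext x
      simp only [dt, Pi.add_apply, Prod.fst_add, Prod.snd_add]
      ring
  have k2 : ∀ {f f'}, f ∈ Fn S.1 → f' ∈ Fn S'.1 → gr f =ᵐ[mT S.1] gr f' ∘ Φ →
      (f ∈ Fn0 S.1 ↔ f' ∈ Fn0 S'.1) := fun {f f'} hf hf' e => by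
    refine ⟨fun a => ⟨hf', fun g hg => ?_, fun c hc => ?_⟩, fun a => ⟨hf, fun g hg => ?_,
      fun c hc => ?_⟩⟩
    · obtain ⟨g', a1, a2⟩ := h3 g hg
      rw [← k0 (measurable_gr _) (measurable_gr _) e a2, a.2.1 g' a1]
    · obtain ⟨c, a1, rfl⟩ := h5 c hc
      obtain ⟨-, u, a2, a3⟩ := h4 c a1
      rw [← k1 hf' a2, ← k0 (measurable_gr _) ((measurable_wh _ _).add (measurable_gr _)) e a3,
        a.2.2 c a1]
    · obtain ⟨g', a1, a2⟩ := h2 g hg
      rw [k0 (measurable_gr _) (measurable_gr _) e a2, a.2.1 g' a1]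
    · obtain ⟨a1, u, a2, a3⟩ := h4 c hc
      rw [k0 (measurable_gr _) ((measurable_wh _ _).add (measurable_gr _)) e a3, k1 hf' a2,
        a.2.2 _ a1]
  refine ⟨h1, fun p ⟨f, hf, e⟩ => ?_, fun p ⟨f, hf, e⟩ => ?_⟩
  · obtain ⟨-, u, a1, a2⟩ := h4 _ (hL p.2)
    have a3 := Fn0_lin hT' hf a1 1 (-1)
    obtain ⟨g, a4, a5⟩ := h3 _ a3.1
    refine ⟨g, (k2 a4 a3.1 a5).2 a3, ?_⟩
    filter_upwards [h1.quasiMeasurePreserving.ae_eq e, a2, a5,
      h1.quasiMeasurePreserving.ae_eq (Fn_lin hf.1 a1.1 1 (-1)).2] with x b1 b2 b3 b4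
    rw [b1, Pi.add_apply, b2, b3, b4, hκ]
    simp [add_assoc]
  · obtain ⟨-, u, a1, a2⟩ := h4 _ (hL p.2)
    obtain ⟨g, a3, a4⟩ := h2 f hf.1
    refine ⟨wh S'.1 (co S'.2 p.2) + gr ((1 : ℝ) • u + (1 : ℝ) • g),
      ⟨_, Fn0_lin hT' a1 ((k2 hf.1 a3 a4).1 hf) 1 1, .rfl⟩, ?_⟩
    filter_upwards [e, a2, a4, h1.quasiMeasurePreserving.ae_eq (Fn_lin a1.1 a3 1 1).2]
      with x b1 b2 b3 b4
    rw [b1, Pi.add_apply, b2, b3, hκ]
    simp only [Function.comp_apply, Pi.add_apply] at b4 ⊢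
    rw [b4]
    simp [add_assoc]

theorem gt_relab {T T' : Raw} {σ : Equiv.Perm (Fin 18)} (h : RelabBy T T' σ) :
    GT T T' (fun c e => c (σ.symm e)) (fun x => (σ x.1, x.2)) := by
  have h1 : ∀ e, Dl T' (σ e) = Dl T e := fun e => by
    rw [Dl, Dl, (h e).1, (h e).2.2, (h _).2.2]
  have h2 : ∀ f' : Fin 18 → ℝ × ℝ → ℝ, f' ∈ Fn T' ↔ f' ∘ σ ∈ Fn T := fun f' => by
    refine and_congr (exists_congr fun K => ?_) (and_congr ?_ ?_) <;>
      refine σ.forall_congr_right.symm.trans ?_ <;>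
      simp only [h1, (h _).1, (h _).2.1, (h _).2.2, Function.comp_apply]
  have h3 : ∀ c' : Fin 18 → ℝ, IsCo T' c' ↔ IsCo T (c' ∘ σ) := fun c' => by
    refine and_congr ?_ ?_ <;> refine σ.forall_congr_right.symm.trans ?_ <;>
      simp only [(h _).1, (h _).2.1, Function.comp_apply]
  have h4 : Measurable fun x : Sf => (σ x.1, x.2) := by fun_prop
  refine ⟨⟨h4, ?_⟩, fun f hf => ⟨f ∘ σ.symm, (h2 _).2 (by simpa [Function.comp_def] using hf),
    .of_forall fun x => by simp [gr]⟩, fun f hf => ⟨f ∘ σ, (h2 f).1 hf, .rfl⟩, fun c hc =>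
    ⟨(h3 _).2 (by simpa [Function.comp_def] using hc), 0, zero_Fn0 _, .of_forall fun x => ?_⟩,
    fun c hc => ⟨c ∘ σ, (h3 c).1 hc, by simp⟩⟩
  · rw [w4_eq, w4_eq, Measure.map_smul, Measure.map_finset_sum h4.aemeasurable,
      ← Equiv.sum_comp σ fun e => (volume.restrict (Dl T' e)).map (Prod.mk e)]
    simp only [Measure.map_map h4 measurable_prodMk_left, h1]
    rfl
  · simp [w4_zero, wh, (h _).1, (h _).2.2]

end Pool.Agent.TW
end

-- part Pool.Agent.Lib.MP_4eaecc_an.W5a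
section

/-! Transport through a flip: functions and the measure. -/

namespace Pool.Agent.TW

open Matrix MeasureTheory Filter Topology
open scoped ENNReal NNReal

/-- The six half-edges, listed by layer and face. -/
def w5a_e (T : Raw) (h : Fin 18) (j : Fin 3 × Bool) : Fin 18 :=
  T.1^[j.1] (cond j.2 h (T.2.1 h))

theorem w5a_image (T : Raw) (h : Fin 18) : Finset.univ.image (w5a_e T h) = six T h := by
  ext e
  simp only [Finset.mem_image, Finset.mem_univ, true_and, Prod.exists, Fin.exists_fin_succ,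
    Bool.exists_bool, six, Finset.mem_insert, Finset.mem_singleton, w5a_e, eq_comm (b := e)]
  simp
  tauto

theorem w5a_mem (T : Raw) (h : Fin 18) (j : Fin 3 × Bool) : w5a_e T h j ∈ six T h :=
  w5a_image T h ▸ Finset.mem_image_of_mem _ (Finset.mem_univ j)

theorem w5a_inj {T : Raw} (hT : IsTri T) (h : Fin 18) : Function.Injective (w5a_e T h) :=
  Set.injOn_univ.1 (by
    simpa using Finset.injOn_of_card_image_eq (s := Finset.univ) (f := w5a_e T h)
      (by rw [w5a_image, six_card hT]; rfl))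

open Classical in
/-- The point of layer `i` at the position `p`. -/
noncomputable def w5a_s (T : Raw) (h : Fin 18) (o : Fin 18 → ℝ × ℝ) (i : Fin 3) (p : ℝ × ℝ) : Sf :=
  if p - o h ∈ Dl T h then (w5a_e T h (i, true), p - o (w5a_e T h (i, true)))
  else (w5a_e T h (i, false), p - o (w5a_e T h (i, false)))

theorem w5a_spec (T : Raw) (h : Fin 18) (o : Fin 18 → ℝ × ℝ) (i : Fin 3) (p : ℝ × ℝ) :
    ∃ b, w5a_s T h o i p = (w5a_e T h (i, b), p - o (w5a_e T h (i, b))) := by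
  unfold w5a_s
  split_ifs
  exacts [⟨_, rfl⟩, ⟨_, rfl⟩]

theorem w5a_Dl (T : Raw) (e : Fin 18) : MeasurableSet (Dl T e) := (isClosed_tr _ _).measurableSet

theorem w5a_meas (T : Raw) (h : Fin 18) (o : Fin 18 → ℝ × ℝ) (i : Fin 3) :
    Measurable (w5a_s T h o i) :=
  Measurable.ite (measurable_sub_const _ (w5a_Dl T h))
    (measurable_const.prodMk (measurable_sub_const _))
    (measurable_const.prodMk (measurable_sub_const _))

variable {T T' : Raw} {h : Fin 18} {o o' : Fin 18 → ℝ × ℝ} {Q : Set (ℝ × ℝ)}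

theorem w5a_pos (hT : IsTri T) (q : Quad T h o Q) {e : Fin 18} (he : e ∈ six T h) (n : ℕ) :
    T.1^[n] e ∈ six T h ∧
      (· - o (T.1^[n] e)) ⁻¹' Dl T (T.1^[n] e) = (· - o e) ⁻¹' Dl T e := by
  induction n with
  | zero => exact ⟨he, rfl⟩
  | succ n ih =>
    rw [Function.iterate_succ_apply', ← ih.2, q.1 _ ih.1]
    refine ⟨(six_next hT h _).2 ih.1, Set.ext fun p => ?_⟩
    rw [Set.mem_preimage, ← sub_sub]
    exact Dl_next hT _ _

theorem w5a_face (hT : IsTri T) (q : Quad T h o Q) {F : Sf → ℝ≥0∞} (hF : Measurable F)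
    {e : Fin 18} (he : e ∈ six T h) (n : ℕ) :
    ∫⁻ p in (· - o e) ⁻¹' Dl T e, F (T.1^[n] e, p - o (T.1^[n] e)) =
      ∫⁻ x in Dl T (T.1^[n] e), F (T.1^[n] e, x) := by
  rw [← (w5a_pos hT q he n).2]
  exact (measurePreserving_sub_right volume _).setLIntegral_comp_preimage (w5a_Dl T _)
    (hF.comp measurable_prodMk_left)

theorem w5a_sum (hT : IsTri T) (q : Quad T h o Q) {F : Sf → ℝ≥0∞} (hF : Measurable F) :
    ∑ e ∈ six T h, ∫⁻ x in Dl T e, F (e, x) = ∑ i, ∫⁻ p in Q, F (w5a_s T h o i p) := by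
  have m : ∀ e, MeasurableSet ((· - o e) ⁻¹' Dl T e) := fun e => measurable_sub_const _ (w5a_Dl T e)
  have e1 : ∀ e, (fun x => x + o e) '' Dl T e = (· - o e) ⁻¹' Dl T e := fun e => by
    simp only [Set.image_add_right, sub_eq_add_neg]
  have e2 : ((· - o (T.2.1 h)) ⁻¹' Dl T (T.2.1 h) \ (· - o h) ⁻¹' Dl T h : Set (ℝ × ℝ)) =ᵐ[volume]
      (· - o (T.2.1 h)) ⁻¹' Dl T (T.2.1 h) := by
    refine sdiff_ae_eq_self.2 (measure_mono_null (fun p hp => ?_) (volume_line (p := T.2.2 h)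
      (fun e => by simpa [e, dt] using hT.2.2.2.2.1 h) (o h)))
    obtain ⟨t, -, rfl⟩ := q.inter hT hp.2 hp.1
    simp [dt, mul_left_comm, mul_comm]
  rw [← w5a_image, Finset.sum_image (w5a_inj hT h).injOn, Fintype.sum_prod_type]
  refine Finset.sum_congr rfl fun i _ => ?_
  rw [q.2.2.1, e1, e1, ← Set.union_sdiff_self, lintegral_union ((m _).diff (m _))
    Set.disjoint_sdiff_right, Fintype.sum_bool]
  exact congrArg₂ _ ((w5a_face hT q hF (w5a_mem T h (0, true)) i).symm.trans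
    (setLIntegral_congr_fun (m _) fun p hp => congrArg F (if_pos hp).symm))
    ((w5a_face hT q hF (w5a_mem T h (0, false)) i).symm.trans ((setLIntegral_congr e2).symm.trans
      (setLIntegral_congr_fun ((m _).diff (m _)) fun p hp => congrArg F (if_neg hp.2).symm)))

/-- Pair the old half-edges of the two faces in three layers, the same for the new ones, and keep
the position in `Q`. -/
theorem QP.phi {T T' : Raw} {h : Fin 18} {o o' : Fin 18 → ℝ × ℝ} {Q : Set (ℝ × ℝ)}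
    (q : QP T T' h o o' Q) : ∃ Φ : Sf → Sf, MeasurePreserving Φ (mT T) (mT T') ∧
      (∀ x, x.1 ∉ six T h → Φ x = x) ∧
      ∀ x, x.1 ∈ six T h → (Φ x).1 ∈ six T h ∧ (Φ x).2 + o' (Φ x).1 = x.2 + o x.1 := by
  obtain ⟨hT, hT', q, q', -, e6, e1, e2⟩ := q
  let Φ : Sf → Sf := fun x => if x.1 ∈ six T h then
    w5a_s T' h o' (Function.invFun (w5a_e T h) x.1).1 (x.2 + o x.1) else x
  have m : Measurable Φ := measurable_from_prod_countable_right fun e => by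
    by_cases he : e ∈ six T h
    · simp only [Φ, if_pos he]
      exact (w5a_meas _ _ _ _).comp (measurable_add_const _)
    · simp only [Φ, if_neg he]
      exact measurable_prodMk_left
  have h1 : ∀ i p, Φ (w5a_s T h o i p) = w5a_s T' h o' i p := fun i p => by
    obtain ⟨b, hb⟩ := w5a_spec T h o i p
    simp only [hb, Φ, if_pos (w5a_mem T h _), Function.leftInverse_invFun (w5a_inj hT h) _,
      sub_add_cancel]
  have h2 : ∀ e, e ∉ six T h → T'.2.2 e = T.2.2 e := fun e he =>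
    (e2 e (fun r => he (r ▸ w5a_mem T h (0, true))) fun r => he (r ▸ w5a_mem T h (0, false))).1
  refine ⟨Φ, ⟨m, Measure.ext_of_lintegral _ fun F hF => ?_⟩, fun x hx => if_neg hx,
    fun x hx => ?_⟩
  · rw [lintegral_map hF m, lintegral_mT T (F := fun x => F (Φ x)) (hF.comp m), lintegral_mT T' hF,
      ← Finset.sum_add_sum_compl (six T h), ← Finset.sum_add_sum_compl (six T' h),
      w5a_sum hT q (F := fun x => F (Φ x)) (hF.comp m), w5a_sum hT' q' hF, e6]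
    simp only [h1]
    congr 2
    refine Finset.sum_congr rfl fun e he => ?_
    rw [Finset.mem_compl] at he
    simp only [Φ, if_neg he, Dl, e1 e he, h2 e he, h2 _ (mt (six_next hT h e).1 he)]
  · obtain ⟨b, hb⟩ := w5a_spec T' h o' (Function.invFun (w5a_e T h) x.1).1 (x.2 + o x.1)
    simp only [Φ, if_pos hx, hb, sub_add_cancel, and_true]
    exact e6 ▸ w5a_mem T' h _

end Pool.Agent.TW
end

-- part Pool.Agent.Lib.MP_4eaecc_an.W5
section

/-! Transport through a flip: functions and the measure. -/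

namespace Pool.Agent.TW

open Matrix MeasureTheory Filter Topology
open scoped ENNReal NNReal

theorem w5_six {T : Raw} (hT : IsTri T) {h : Fin 18} {p : Fin 18 → Prop} (h1 : p h)
    (h2 : p (T.2.1 h)) (h3 : ∀ e ∈ six T h, p e → p (T.1 e)) : ∀ e ∈ six T h, p e := by
  have m1 : h ∈ six T h := w5a_mem T h (0, true)
  have m2 : T.2.1 h ∈ six T h := w5a_mem T h (0, false)
  intro e he
  simp only [six, Finset.mem_insert, Finset.mem_singleton] at he
  rcases he with rfl | rfl | rfl | rfl | rfl | rfl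
  exacts [h1, h3 _ m1 h1, h3 _ ((six_next hT _ _).2 m1) (h3 _ m1 h1), h2, h3 _ m2 h2,
    h3 _ ((six_next hT _ _).2 m2) (h3 _ m2 h2)]

theorem w5_mem {T : Raw} (hT : IsTri T) {h : Fin 18} {o : Fin 18 → ℝ × ℝ} {Q : Set (ℝ × ℝ)}
    (q : Quad T h o Q) {e : Fin 18} (he : e ∈ six T h) {x : ℝ × ℝ} (hx : x ∈ Dl T e) :
    x + o e ∈ Q := by
  refine w5_six (p := fun e => ∀ x ∈ Dl T e, x + o e ∈ Q) hT
    (fun x hx => q.2.2.1 ▸ Or.inl ⟨x, hx, rfl⟩) (fun x hx => q.2.2.1 ▸ Or.inr ⟨x, hx, rfl⟩)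
    (fun e he ih x hx => ?_) e he x hx
  rw [q.1 e he, add_comm (o e), ← add_assoc]
  exact ih _ ((Dl_next hT e _).1 (by rwa [add_sub_cancel_right]))

theorem w5_edge {T : Raw} (hT : IsTri T) (e : Fin 18) {t : ℝ} (ht : t ∈ Set.Icc (0 : ℝ) 1) :
    t • T.2.2 e ∈ Dl T e := by
  have h := hT.2.2.2.2.1 e
  refine (mem_tr ?_).2 ⟨t, 0, ht.1, le_rfl, by linarith [ht.2], by simp⟩
  simp only [dt, Prod.fst_add, Prod.snd_add] at h ⊢
  linarith

theorem w5_int (T : Raw) : ∀ᵐ x ∂mT T, x.2 ∈ interior (Dl T x.1) :=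
  (ae_mT T).2 fun e => (ae_restrict_iff' (w4_ms T e)).2 (w1_ae (convex_tr _ _))

theorem w5_gd {f F : ℝ × ℝ → ℝ} {S : Set (ℝ × ℝ)} {a x : ℝ × ℝ} (h : ∀ x ∈ S, f x = F (x + a))
    (hx : x ∈ interior S) : gd f x = gd F (x + a) := by
  rw [w1_congr (g := fun y => F (y + a))
    (eventually_of_mem (mem_interior_iff_mem_nhds.1 hx) h), gd, gd, fderiv_comp_add_right]

theorem Quad.lift {T : Raw} (hT : IsTri T) {h : Fin 18} {o : Fin 18 → ℝ × ℝ} {Q : Set (ℝ × ℝ)}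
    (q : Quad T h o Q) {f : Fin 18 → ℝ × ℝ → ℝ} (hf : f ∈ Fn T) :
    ∃ (F : ℝ × ℝ → ℝ) (K : ℝ≥0), LipschitzOnWith K F Q ∧
      ∀ e ∈ six T h, ∀ x ∈ Dl T e, f e x = F (x + o e) := by
  classical
  obtain ⟨⟨K, hK⟩, h2, h3⟩ := hf
  let F : ℝ × ℝ → ℝ := fun x =>
    if x - o h ∈ Dl T h then f h (x - o h) else f (T.2.1 h) (x - o (T.2.1 h))
  have k1 : ∀ x ∈ Dl T h, f h x = F (x + o h) := fun x hx => by
    simp only [F, add_sub_cancel_right, if_pos hx]
  have k2 : ∀ x ∈ Dl T (T.2.1 h), f (T.2.1 h) x = F (x + o (T.2.1 h)) := fun x hx => by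
    simp only [F, add_sub_cancel_right]
    split_ifs with e
    · obtain ⟨t, ht, e'⟩ := q.inter hT e (by rwa [add_sub_cancel_right])
      rw [e', add_sub_cancel_left, ← h3 h t ht]
      rw [q.2.1] at e'
      congr 1
      linear_combination (norm := module) e'
    · rfl
  have k3 : ∀ e, (∀ x ∈ Dl T e, f e x = F (x + o e)) →
      LipschitzOnWith K F ((fun x => x + o e) '' Dl T e) := by
    rintro e he _ ⟨x, hx, rfl⟩ _ ⟨y, hy, rfl⟩
    rw [← he x hx, ← he y hy, edist_add_right]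
    exact hK e hx hy
  have k4 : ∀ e, IsClosed ((fun x => x + o e) '' Dl T e) := fun e =>
    isClosedMap_add_right _ _ (isClosed_tr _ _)
  refine ⟨F, K, q.2.2.1 ▸ glue (k4 _) (k4 _) (q.2.2.1 ▸ q.2.2.2) (k3 _ k1) (k3 _ k2),
    w5_six (p := fun e => ∀ x ∈ Dl T e, f e x = F (x + o e)) hT k1 k2 fun e he ih x hx => ?_⟩
  have k5 := (Dl_next hT e (x + T.2.2 e)).1 (by rwa [add_sub_cancel_right])
  rw [q.1 e he, add_comm (o e), ← add_assoc, ← ih _ k5, ← h2 e _ k5, add_sub_cancel_right]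

theorem QP.transfer {T T' : Raw} {h : Fin 18} {o o' : Fin 18 → ℝ × ℝ} {Q : Set (ℝ × ℝ)}
    (q : QP T T' h o o' Q) {f : Fin 18 → ℝ × ℝ → ℝ} (hf : f ∈ Fn T) :
    ∃ f' ∈ Fn T', ∃ F : ℝ × ℝ → ℝ, (∀ e ∈ six T h, ∀ x ∈ Dl T e, f e x = F (x + o e)) ∧
      (∀ e ∈ six T h, ∀ x ∈ Dl T' e, f' e x = F (x + o' e)) ∧
      ∀ e, e ∉ six T h → f' e = f e := by
  obtain ⟨hT, hT', q, q', e5, e6, e1, e2⟩ := q
  obtain ⟨F, K, hF, hF'⟩ := q.lift hT hf
  obtain ⟨⟨L, hL⟩, h2, h3⟩ := hf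
  let g : Fin 18 → ℝ × ℝ → ℝ := fun e => if e ∈ six T h then fun x => F (x + o' e) else f e
  have g1 : ∀ e ∈ six T h, ∀ x, g e x = F (x + o' e) := fun e he x => by simp only [g, if_pos he]
  have g2 : ∀ e, e ∉ six T h → g e = f e := fun e he => if_neg he
  have m1 : h ∈ six T h := w5a_mem T h (0, true)
  have m2 : T.2.1 h ∈ six T h := w5a_mem T h (0, false)
  have k1 : ∀ e, e ∉ six T h → T'.2.2 e = T.2.2 e := fun e he =>
    (e2 e (fun r => he (r ▸ m1)) fun r => he (r ▸ m2)).1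
  have k2 : ∀ e, e ∉ six T h → Dl T' e = Dl T e := fun e he => by
    rw [Dl, Dl, e1 e he, k1 e he, k1 _ (mt (six_next hT h e).1 he)]
  have k3 : ∀ e, e ≠ h → e ≠ T.2.1 h → ∀ t ∈ Set.Icc (0 : ℝ) 1,
      g e (t • T.2.2 e) = f e (t • T.2.2 e) := fun e a b t ht => by
    by_cases he : e ∈ six T h
    · rw [g1 e he, (e2 e a b).2, hF' e he _ (w5_edge hT e ht)]
    · rw [g2 e he]
  refine ⟨g, ⟨⟨max K L, fun e => ?_⟩, fun e x hx => ?_, fun e t ht => ?_⟩, F, hF',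
    fun e he x _ => g1 e he x, g2⟩
  · by_cases he : e ∈ six T h
    · intro x hx y hy
      rw [g1 e he, g1 e he, ← edist_add_right x y (o' e)]
      exact hF.weaken (le_max_left _ _) (w5_mem hT' q' (e6 ▸ he) hx) (w5_mem hT' q' (e6 ▸ he) hy)
    · rw [g2 e he, k2 e he]
      exact (hL e).weaken (le_max_right _ _)
  · by_cases he : e ∈ six T h
    · rw [g1 e he, g1 _ (e6 ▸ (six_next hT' h e).2 (e6 ▸ he)), q'.1 e (e6 ▸ he)]
      congr 1
      abel
    · rw [e1 e he, k1 e he, g2 e he, g2 _ (mt (six_next hT h e).1 he)]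
      exact h2 e x (k2 e he ▸ hx)
  · have k4 := q'.2.1
    rw [e5] at k4 ⊢
    by_cases a : e = h
    · rw [a, g1 _ m1, g1 _ m2, k4]
      congr 1
      module
    by_cases b : e = T.2.1 h
    · rw [b, hT.2.1, g1 _ m1, g1 _ m2, k4, ← e5, hT'.2.2.1]
      congr 1
      module
    have k5 : (t - 1) • T.2.2 e = (1 - t) • T.2.2 (T.2.1 e) := by
      rw [hT.2.2.1]
      module
    rw [(e2 e a b).1, k3 e a b t ht, ← h3 e t ht, k5]
    exact k3 _ (fun r => b (by rw [← r, hT.2.1])) (fun r => a (by rw [← hT.2.1 e, r, hT.2.1])) _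
      ⟨by linarith [ht.2], by linarith [ht.1]⟩

/-- Two families given by the same function on `Q` have the same gradient. -/
theorem QP.gr_eq {T T' : Raw} {h : Fin 18} {o o' : Fin 18 → ℝ × ℝ} {Q : Set (ℝ × ℝ)}
    (q : QP T T' h o o' Q) {Φ : Sf → Sf} (hΦ : MeasurePreserving Φ (mT T) (mT T'))
    (h1 : ∀ x, x.1 ∉ six T h → Φ x = x)
    (h2 : ∀ x, x.1 ∈ six T h → (Φ x).1 ∈ six T h ∧ (Φ x).2 + o' (Φ x).1 = x.2 + o x.1)
    {f f' : Fin 18 → ℝ × ℝ → ℝ} {F : ℝ × ℝ → ℝ}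
    (e1 : ∀ e ∈ six T h, ∀ x ∈ Dl T e, f e x = F (x + o e))
    (e2 : ∀ e ∈ six T h, ∀ x ∈ Dl T' e, f' e x = F (x + o' e))
    (e3 : ∀ e, e ∉ six T h → f' e = f e) : gr f =ᵐ[mT T] gr f' ∘ Φ := by
  filter_upwards [w5_int T, hΦ.quasiMeasurePreserving.ae (w5_int T')] with x k1 k2
  by_cases hx : x.1 ∈ six T h
  · obtain ⟨k3, k4⟩ := h2 x hx
    rw [Function.comp_apply, gr, gr, w5_gd (e1 _ hx) k1, w5_gd (e2 _ k3) k2, k4]
  · rw [Function.comp_apply, h1 x hx, gr, gr, e3 _ hx]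

end Pool.Agent.TW
end

-- part Pool.Agent.Lib.MP_4eaecc_an.W7a
section

/-! The closed forms of a point of the cell. -/

namespace Pool.Agent.TW

open Matrix MeasureTheory Filter Topology
open scoped ENNReal NNReal

/-- The parallelogram that contains the face of a half-edge. -/
def pc (h : Fin 18) : Fin 3 := ⟨h.1 / 6, by omega⟩

theorem lab_raw (y : Pt) : Lab (raw y, al0) := fun a => by
  have h1 : ∀ h, al0 ((raw y).2.1 h) = -al0 h := by
    simp only [raw, three]; decide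
  have h2 : ∀ h, al0 h + al0 ((raw y).1 h) + al0 ((raw y).1 ((raw y).1 h)) = 0 := by
    simp only [raw, three]; decide
  refine ⟨fun h => ?_, fun h => ?_⟩
  · simp only [co, h1, neg_ev]
  · simp only [co, ← add_ev, h2]
    simp [ev]

theorem w7a_wedge (y : Pt) (u v : V) (h : Fin 18) :
    ev (al0 h) u * ev (al0 ((raw y).1 h)) v - ev (al0 ((raw y).1 h)) u * ev (al0 h) v =
      u (sp (pc h)) * v (sq (pc h)) - u (sq (pc h)) * v (sp (pc h)) := by
  fin_cases h <;> simp [raw, three, al0, ev_four, pc, sp, sq] <;> ring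

theorem w7a_dt (y : Pt) (h : Fin 18) :
    dt ((raw y).2.2 h) ((raw y).2.2 ((raw y).1 h)) = ar y (pc h) := by
  have := w7a_wedge y y.1 y.2 h
  simp only [raw_vec, dt, hol, ar, vec]
  linarith

theorem wh_raw (y : Pt) (P : Mat) (a : V) (x : Sf) :
    wh (raw y) (co (fun e => al0 e ᵥ* P) a) x = grad y (pc x.1) (ac P a) := by
  have h1 := w7a_wedge y (ac P a) y.2 x.1
  have h2 := w7a_wedge y (ac P a) y.1 x.1
  simp only [wh, g2, grad, w7a_dt]
  simp only [co, ev_vecMul, raw_vec, hol, h1]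
  congr 2
  linarith

theorem w7a_int {y : Pt} (h : y ∈ Cell) (G : Fin 3 → ℝ) :
    ∫ x, G (pc x.1) ∂mT (raw y) = ∑ i, G i * ar y i := by
  have hT := isTri_raw h
  have := finite_mT hT
  have e : ∀ k, (volume (Dl (raw y) k)).toReal = ar y (pc k) / 2 := fun k => by
    rw [Dl, volume_tr (w3_pos hT k), ENNReal.toReal_ofReal (half_pos (w3_pos hT k)).le, ← w7a_dt]
    simp only [dt, Prod.fst_add, Prod.snd_add]
    ring
  rw [integral_mT _ (F := fun x => G (pc x.1)) (Integrable.of_bound (C := ‖G‖)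
    ((measurable_of_finite fun k => G (pc k)).comp measurable_fst).aestronglyMeasurable
    (.of_forall fun x => norm_le_pi_norm G _))]
  simp only [setIntegral_const, Measure.real, e, smul_eq_mul]
  simp [Fin.sum_univ_succ, pc]
  ring

theorem area_raw {y : Pt} (h : y ∈ Cell) (i : Fin 3) :
    (mT (raw y)).real {x | pc x.1 = i} = ar y i := by
  have m : MeasurableSet {x : Sf | pc x.1 = i} :=
    measurable_fst (MeasurableSet.of_discrete (s := {k | pc k = i}))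
  have := w7a_int h fun j => if j = i then 1 else 0
  rw [← integral_indicator_one m]
  simpa [Set.indicator_apply] using this

theorem Q_raw {y : Pt} (h : y ∈ Cell) {p q : (Sf → ℝ × ℝ) × V} (hp : p ∈ Frm (raw y, al0))
    (hq : q ∈ Frm (raw y, al0)) : ∫ x, dt (p.1 x) (q.1 x) ∂mT (raw y) = Om p.2 q.2 := by
  have := finite_mT (isTri_raw h)
  obtain ⟨f, hf, e1⟩ := hp
  obtain ⟨g, hg, e2⟩ := hq
  dsimp only at hf hg e1 e2
  have e : ∀ a x, wh (raw y) (co al0 a) x = grad y (pc x.1) a := fun a x => by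
    simpa [ac_one] using wh_raw y 1 a x
  have i1 := integrable_dt (memLp_wh (raw y) (co al0 p.2)) (memLp_wh (raw y) (co al0 q.2))
  have i2 := integrable_dt (memLp_gr hg.1) (memLp_wh (raw y) (co al0 p.2))
  have i3 := integrable_dt (memLp_gr hf.1) (memLp_wh (raw y) (co al0 q.2))
  have i4 := integrable_dt (memLp_gr hf.1) (memLp_gr hg.1)
  have e3 : ∫ x, dt (p.1 x) (q.1 x) ∂mT (raw y) =
      ∫ x, (dt (wh (raw y) (co al0 p.2) x) (wh (raw y) (co al0 q.2) x) -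
        dt (gr g x) (wh (raw y) (co al0 p.2) x) + dt (gr f x) (wh (raw y) (co al0 q.2) x) +
        dt (gr f x) (gr g x)) ∂mT (raw y) := by
    refine integral_congr_ae ?_
    filter_upwards [e1, e2] with x k1 k2
    simp only [k1, k2, dt, Pi.add_apply, Prod.fst_add, Prod.snd_add]
    ring
  rw [e3, integral_add (by exact (i1.sub i2).add i3) i4, integral_add (by exact i1.sub i2) i3,
    integral_sub i1 i2, hf.2.1 g hg.1, hf.2.2 _ (lab_raw y q.2), hg.2.2 _ (lab_raw y p.2)]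
  simp only [e]
  have e4 : ∀ i, dt (grad y i p.2) (grad y i q.2) * ar y i =
      p.2 (sp i) * q.2 (sq i) - p.2 (sq i) * q.2 (sp i) := fun i => by
    have h0 := (h i).ne'
    simp only [grad, dt]
    field_simp
    simp only [ar, dt, vec]
    ring
  rw [w7a_int h fun i => dt (grad y i p.2) (grad y i q.2)]
  simp [e4, Fin.sum_univ_three, Om, sp, sq]
  ring

end Pool.Agent.TW
end
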