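import Pool.Agent.Lib.MP_4eaecc_an.W7a
import Pool.Agent.Lib.MP_4eaecc_an.W2


/-! The closed forms of a point of the cell. -/

namespace Pool.Agent.TW

open Matrix MeasureTheory Filter Topology
open scoped ENNReal NNReal

theorem w7b_end {T : Raw} (hT : IsTri T) (h : Fin 18) : (0 : ℝ × ℝ) ∈ Dl T h ∧ T.2.2 h ∈ Dl T h :=
  ⟨by simpa using w3_zero hT h (Set.left_mem_Icc.2 zero_le_one),
    by simpa using w3_zero hT h (Set.right_mem_Icc.2 zero_le_one)⟩

theorem w7b_op {T : Raw} {f : Fin 18 → ℝ × ℝ → ℝ} (hf : f ∈ Fn T) (h : Fin 18) :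
    f (T.2.1 h) 0 = f h (T.2.2 h) := by
  simpa using hf.2.2 h 1 (Set.right_mem_Icc.2 zero_le_one)

theorem w7b_vertex {T : Raw} (hT : IsTri T) {f : Fin 18 → ℝ × ℝ → ℝ} (hf : f ∈ Fn T)
    (h : Fin 18) : f h 0 = f 0 0 := by
  have h1 : ∀ e, f (T.1 (T.2.1 e)) 0 = f e 0 := fun e => by
    have a1 := hf.2.1 (T.2.1 e) _ (w7b_end hT _).2
    have a2 := w7b_op hf (T.2.1 e)
    rw [sub_self] at a1
    rw [hT.2.1] at a2
    rw [a1, a2]
  obtain ⟨n, rfl⟩ := hT.2.2.2.2.2 h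
  induction n with
  | zero => rfl
  | succ n ih => rw [Function.iterate_succ_apply', Function.comp_apply, h1, ih]

theorem w7b_incr {T : Raw} (hT : IsTri T) {f : Fin 18 → ℝ × ℝ → ℝ} (hf : f ∈ Fn T) (h : Fin 18)
    {γ K : ℝ} (hK : ∀ᵐ x ∂volume.restrict (Dl T h), |γ + ip (gd (f h) x) (T.2.2 h)| ≤ K) :
    |γ| ≤ K := by
  obtain ⟨L, hL⟩ := hf.1
  have e : f h (T.2.2 h) = f h 0 := by
    rw [← w7b_op hf, w7b_vertex hT hf, w7b_vertex hT hf h]
  obtain ⟨m0, m1⟩ := w7b_end hT h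
  have a1 := incr_le (e := T.2.2 h) (C := K - γ) (convex_tr _ _) (isClosed_tr _ _)
    (interior_tr (w3_pos hT h)) (hL h) (hK.mono fun x hx => by linarith [(abs_le.1 hx).2]) m0
    (by rwa [zero_add])
  have a2 := incr_le (e := -T.2.2 h) (C := K + γ) (convex_tr _ _) (isClosed_tr _ _)
    (interior_tr (w3_pos hT h)) (hL h) (hK.mono fun x hx => by
      have : ip (gd (f h) x) (-T.2.2 h) = -ip (gd (f h) x) (T.2.2 h) := by
        simp only [ip, Prod.fst_neg, Prod.snd_neg]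
        ring
      linarith [(abs_le.1 hx).1]) m1 (by rwa [add_neg_cancel])
  rw [zero_add, e] at a1
  rw [add_neg_cancel, e] at a2
  exact abs_le.2 ⟨by linarith, by linarith⟩

theorem w7b_add (a b e : ℝ × ℝ) : ip (a + b) e = ip a e + ip b e := by
  simp only [ip, Prod.fst_add, Prod.snd_add]
  ring

theorem w7b_tab (i : Fin 3) : (∃ h, pc h = i ∧ al0 h = eR .L i) ∧ (∃ h, pc h = i ∧ al0 h = eL .L i) ∧
    ∃ h, pc h = i ∧ al0 h = dg .L i := by
  revert i
  decide +kernel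

/-- Functions of `Fn (raw y)` take one value at all vertices. -/
theorem L1_raw {y : Pt} (h : y ∈ Cell) (P : Mat) {p : (Sf → ℝ × ℝ) × V}
    (hp : p ∈ Frm (raw y, fun e => al0 e ᵥ* P)) (i : Fin 3) (e : Z4)
    (he : e = eR .L i ∨ e = eL .L i ∨ e = dg .L i) (K : ℝ)
    (hK : ∀ᵐ x ∂mT (raw y), pc x.1 = i → |ip (p.1 x) (hol y e)| ≤ K) :
    |ev e (ac P p.2)| ≤ K := by
  have hT := isTri_raw h
  obtain ⟨k, k1, rfl⟩ : ∃ k, pc k = i ∧ al0 k = e := by
    obtain ⟨a, b, c⟩ := w7b_tab i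
    rcases he with rfl | rfl | rfl
    exacts [a, b, c]
  obtain ⟨f, hf, e1⟩ := hp
  refine w7b_incr hT hf.1 k ?_
  filter_upwards [(ae_mT _).1 hK k, (ae_mT _).1 e1 k] with x a b
  have c := a k1
  rw [b, Pi.add_apply, w7b_add, ← raw_vec, w6_ip] at c
  have d := (w6_g2 (hT.2.2.2.2.1 k) (co (fun e => al0 e ᵥ* P) p.2 k)
    (co (fun e => al0 e ᵥ* P) p.2 ((raw y).1 k))).1
  change w6L (wh (raw y) (co (fun e => al0 e ᵥ* P) p.2) (k, x)) _ = _ at d
  rw [d, co, ev_vecMul] at c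
  exact c

theorem w7b_par {T : Raw} (hT : IsTri T) {h : Fin 18} {o : Fin 18 → ℝ × ℝ} {p r : ℝ × ℝ}
    (q : Quad T h o (tr p (p + r) ∪ tr (p + r) r)) (hd : 0 < dt p r) {f : Fin 18 → ℝ × ℝ → ℝ}
    (hf : f ∈ Fn T) {e1 e2 : Fin 18} (m1 : e1 ∈ six T h) (m2 : e2 ∈ six T h) (o1 : o e1 = 0)
    (o2 : o e2 = r)
    (h0 : ∀ e ∈ six T h, ∀ᵐ x ∂volume.restrict (Dl T e), ip (gd (f e) x) p = 0) :
    ∑ e ∈ six T h, ∫ x in Dl T e, ip (gd (f e) x) r = 0 := by
  obtain ⟨F, K, hF, hfF⟩ := q.lift hT hf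
  have g1 : ∀ e ∈ six T h, ∀ᵐ x ∂volume.restrict (Dl T e), gd (f e) x = gd F (x + o e) :=
    fun e he => ((ae_mT T).1 (w6_int T) e).mono fun x hx => w6_gd_eq (hfF e he) hx
  have g2 : ∀ e ∈ six T h, ∀ᵐ x ∂volume.restrict ((fun x => x + o e) '' Dl T e),
      ip (gd F x) p = 0 := fun e he => by
    rw [← ((measurePreserving_add_right volume (o e)).restrict_image_emb
      (measurableEmbedding_addRight _) (Dl T e)).map_eq, (measurableEmbedding_addRight _).ae_map_iff]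
    filter_upwards [g1 e he, h0 e he] with x a b
    rwa [← a]
  have g3 : ∀ᵐ x ∂volume.restrict (tr p (p + r) ∪ tr (p + r) r), ip (gd F x) p = 0 := by
    rw [q.2.2.1, ae_restrict_union_iff]
    exact ⟨g2 _ (by simp [six]), g2 _ (by simp [six])⟩
  have g4 := par_int hd hF g3
  have a1 := hfF e1 m1 0 (w7b_end hT _).1
  have a2 := hfF e2 m2 0 (w7b_end hT _).1
  rw [o1, zero_add, w7b_vertex hT hf] at a1
  rw [o2, zero_add, w7b_vertex hT hf] at a2
  rw [← a1, ← a2, sub_self, zero_mul] at g4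
  have cQ : IsCompact (tr p (p + r) ∪ tr (p + r) r) :=
    q.2.2.1 ▸ (w6_cpt hT _ _).union (w6_cpt hT _ _)
  have g5 : IntegrableOn (fun x => ip (gd F x) r) (tr p (p + r) ∪ tr (p + r) r) := by
    have m := measurable_gd F
    refine Measure.integrableOn_of_bounded (M := K * ‖r.1‖ + K * ‖r.2‖) cQ.measure_lt_top.ne
      (Measurable.aestronglyMeasurable (by unfold ip; fun_prop)) ?_
    filter_upwards [ae_diff q.2.2.2 cQ.measurableSet hF] with x a
    refine (norm_add_le _ _).trans (add_le_add ?_ ?_) <;> rw [norm_mul]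
    · exact mul_le_mul_of_nonneg_right ((norm_fst_le _).trans a.2.2) (norm_nonneg _)
    · exact mul_le_mul_of_nonneg_right ((norm_snd_le _).trans a.2.2) (norm_nonneg _)
  have g6 := w6_sum hT q g5
  rw [← g4, mul_zero] at g6
  rw [← g6]
  refine Finset.sum_congr rfl fun e he => integral_congr_ae ((g1 e he).mono fun x hx => ?_)
  simp only [hx]

theorem w7b_six (y : Pt) (e : Fin 18) : e ∈ six (raw y) 15 ↔ pc e = 2 := by
  revert e
  simp only [six, raw, three]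
  decide +kernel

theorem w7b_quad {y : Pt} (h : y ∈ Cell) : ∃ o : Fin 18 → ℝ × ℝ, o 15 = 0 ∧ o 17 = vec y 3 ∧
    Quad (raw y) 15 o
      (tr (vec y 0) (vec y 0 + vec y 3) ∪ tr (vec y 0 + vec y 3) (vec y 3)) := by
  have hT := isTri_raw h
  have hd : 0 < dt (vec y 0) (vec y 3) := h 2
  refine ⟨![0, 0, 0, 0, 0, 0, 0, 0, 0, 0, 0, 0, 0, vec y 0, vec y 0 + vec y 3, 0,
    vec y 0 + vec y 3, vec y 3], rfl, rfl, fun e he => ?_, (zero_add _).symm, ?_, convex_par hd⟩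
  · rcases w3_mem.1 he with rfl | rfl | rfl | rfl | rfl | rfl
    · exact (zero_add _).symm
    · change vec y 3 = vec y 0 + vec y 3 + -vec y 0
      abel
    · exact (add_neg_cancel _).symm
    · exact (add_neg_cancel _).symm
    · exact (zero_add _).symm
    · rfl
  · ext x
    rw [Set.mem_union, Set.mem_union, w3_img, w3_img, or_comm]
    refine or_congr ?_ ?_
    · change _ ↔ x - 0 ∈ tr (vec y 0 + vec y 3) (vec y 0 + vec y 3 + -vec y 0)
      rw [sub_zero, add_neg_cancel_comm]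
    · have a1 := Dl_next hT 12 x
      have a2 := Dl_next hT 13 (x - vec y 0)
      rw [sub_sub] at a2
      exact (a2.trans a1).symm

theorem L2_raw {y : Pt} (h : y ∈ Cell) (P : Mat) {p : (Sf → ℝ × ℝ) × V}
    (hp : p ∈ Frm (raw y, fun e => al0 e ᵥ* P))
    (h0 : ∀ᵐ x ∂mT (raw y), pc x.1 = 2 → ip (p.1 x) (vec y 0) = 0) :
    ac P p.2 3 * ar y 2 = ∫ x in {x | pc x.1 = 2}, ip (p.1 x) (vec y 3) ∂mT (raw y) := by
  have hT := isTri_raw h
  have := finite_mT hT
  have hd : 0 < dt (vec y 0) (vec y 3) := h 2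
  have c0 : hol y (eR .L 2) = vec y 0 := by simp [hol, vec, eR, ev_four]
  have c1 := L1_raw h P hp 2 (eR .L 2) (Or.inl rfl) 0 (h0.mono fun x hx k => by
    rw [c0, hx k, abs_zero])
  have c2 : ac P p.2 0 = 0 := by simpa [eR, ev_four] using c1
  have c3 := w6_g2 hd (ac P p.2 0) (ac P p.2 3)
  rw [← w6_ip, ← w6_ip] at c3
  obtain ⟨f, hf, e1⟩ := hp
  have e2 : ∀ᵐ x ∂mT (raw y), pc x.1 = 2 → ip (p.1 x) (vec y 0) = ip (gr f x) (vec y 0) ∧
      ip (p.1 x) (vec y 3) = ac P p.2 3 + ip (gr f x) (vec y 3) := e1.mono fun x hx k => by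
    have : wh (raw y) (co (fun e => al0 e ᵥ* P) p.2) x =
        g2 (vec y 0) (vec y 3) (ac P p.2 0) (ac P p.2 3) := by
      rw [wh_raw, k]
      rfl
    rw [hx, Pi.add_apply, w7b_add, w7b_add, this, c3.1, c3.2, c2, zero_add]
    exact ⟨rfl, rfl⟩
  have mS : MeasurableSet {x : Sf | pc x.1 = 2} :=
    measurable_fst (MeasurableSet.of_discrete (s := {e | pc e = 2}))
  have iG : Integrable (fun x => ip (gr f x) (vec y 3)) (mT (raw y)) :=
    (((memLp_gr hf.1).fst.integrable le_top).mul_const _).add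
      (((memLp_gr hf.1).snd.integrable le_top).mul_const _)
  obtain ⟨o, o1, o2, q⟩ := w7b_quad h
  have k := w7b_par hT q hd hf.1 ((w7b_six y 15).2 rfl) ((w7b_six y 17).2 rfl) o1 o2
    fun e he => by
      filter_upwards [(ae_mT _).1 h0 e, (ae_mT _).1 e2 e] with x a b
      exact (b ((w7b_six y e).1 he)).1.symm.trans (a ((w7b_six y e).1 he))
  have k2 : ∫ x in {x | pc x.1 = 2}, ip (gr f x) (vec y 3) ∂mT (raw y) = 0 := by
    rw [← integral_indicator mS, integral_mT _ (iG.indicator mS),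
      ← Finset.sum_subset (six (raw y) 15).subset_univ, Finset.sum_congr rfl fun e he => ?_, k,
      mul_zero]
    · simp only [Set.indicator, Set.mem_ofPred_eq, if_pos ((w7b_six y e).1 he), gr]
    · intro e _ he
      simp only [Set.indicator, Set.mem_ofPred_eq, if_neg (mt (w7b_six y e).2 he), integral_zero]
  rw [setIntegral_congr_ae mS (e2.mono fun x hx k => (hx k).2),
    integral_add (integrable_const _) iG.integrableOn, k2, add_zero, setIntegral_const, area_raw h,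
    smul_eq_mul, mul_comm]

end Pool.Agent.TW
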