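import Pool.Agent.Lib.MP_4eaecc_an.XN2
import Pool.Agent.Lib.MP_4eaecc_an.O6a
import Pool.Agent.Lib.MP_4eaecc_an.G3
import Pool.Agent.Lib.MP_4eaecc_an.XO1

-- part Pool.Agent.Lib.MP_4eaecc_an.G2
section

/-! The majorant applied to the algorithm: windows, no drop. -/

namespace Pool.Agent.TW

open Matrix MeasureTheory Filter Topology
open scoped ENNReal NNReal

theorem g2_ar (y : Pt) (i : Fin 3) (t s : ℝ) : ar (gt t (us s y)) i = ar y i := by
  rw [gt_eq, ar_lin, us_eq, ar_lin, ← Real.exp_add]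
  simp

theorem g2_us (P : Mat) (s : ℝ) (y : Pt) : acP P (us s y) = us s (acP P y) := by
  rw [us_eq, acP_lin, us_eq]

theorem g2_reach {y : Pt} {s : ℝ} {P : Mat} (h : Reach (us s y) P) : Reach y P := by
  have k := h.lin (a := 1) (b := -s) (c := 0) (d := 1) (by norm_num)
  have e : lin 1 (-s) 0 1 (us s y) = y := by
    ext <;> simp [lin, us]
  rwa [e] at k

theorem g2_int {y : Pt} (W : WC y) {P : Mat} (h : Reach y P) (f : Fin 3 → ℝ) :
    ∫ x, f (W.C P x) ∂W.m = ∑ i, ar (acP P y) i * f i := by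
  have := W.fin
  rw [← integral_map (W.Cm P).aemeasurable (measurable_of_finite f).aestronglyMeasurable,
    integral_fintype Integrable.of_finite]
  refine Finset.sum_congr rfl fun i _ => ?_
  rw [map_measureReal_apply (W.Cm P) (measurableSet_singleton i), smul_eq_mul, ← W.Ca P h i]
  rfl

theorem en_grad (y : Pt) (i : Fin 3) (a : V) (t s : ℝ) :
    en t s (grad y i a) = en 0 0 (grad (gt t (us s y)) i a) := by
  have e1 : Real.exp (-2 * t) = Real.exp (-t) ^ 2 := by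
    rw [← Real.exp_nat_mul]; congr 1; push_cast; ring
  have e2 : Real.exp (2 * t) = Real.exp t ^ 2 := by
    rw [← Real.exp_nat_mul]; congr 1
  simp only [en, grad, g2_ar, e1, e2, mul_zero, Real.exp_zero]
  simp only [gt, us, Pi.smul_apply, Pi.add_apply, smul_eq_mul]
  ring

theorem WC.en_whit {y : Pt} (W : WC y) {P : Mat} (h : Reach y P) (a : V) (t s : ℝ) :
    ∫ x, en t s (grad (acP P y) (W.C P x) (ac P a)) ∂W.m =
      ∑ i, ar (acP P y) i * en 0 0 (grad (gt t (us s (acP P y))) i (ac P a)) := by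
  rw [g2_int W h fun i => en t s (grad (acP P y) i (ac P a))]
  simp only [en_grad _ _ _ t s]

theorem g2_sq {a b c d A K : ℝ} (ha : |a| ≤ A) (hb : |b| ≤ K) (hc : |c| ≤ A) (hd : |d| ≤ K) :
    (a * b - c * d) ^ 2 ≤ 4 * A ^ 2 * K ^ 2 := by
  have h1 : |a * b| ≤ A * K := by
    rw [abs_mul]; exact mul_le_mul ha hb (abs_nonneg _) ((abs_nonneg _).trans ha)
  have h2 : |c * d| ≤ A * K := by
    rw [abs_mul]; exact mul_le_mul hc hd (abs_nonneg _) ((abs_nonneg _).trans ha)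
  have h3 : |a * b - c * d| ≤ 2 * (A * K) := (abs_sub _ _).trans (by linarith)
  have h4 := pow_le_pow_left₀ (abs_nonneg _) h3 2
  rw [sq_abs] at h4
  linarith [show (2 * (A * K)) ^ 2 = 4 * A ^ 2 * K ^ 2 by ring]

theorem en_good : ∃ C : ℝ, 0 < C ∧ ∀ (δ : ℝ) (τ : Ty) (y : Pt) (a : V), 0 < δ → δ ≤ 1 →
    Good δ τ y → ∑ i, ar y i * en 0 0 (grad y i a) ≤ C / δ ^ 4 * ‖a‖ ^ 2 := by
  refine ⟨96, by norm_num, fun δ τ y a hδ _ h => ?_⟩
  obtain ⟨σ, hw⟩ := h.1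
  have n1 : ∀ j, |y.1 j| ≤ 2 / δ := fun j => (norm_le_pi_norm y.1 j).trans (hw.norm hδ)
  have n2 : ∀ j, |y.2 j| ≤ 2 / δ := fun j => (norm_le_pi_norm y.2 j).trans (h.2.norm hδ)
  have n3 : ∀ j, |a j| ≤ ‖a‖ := fun j => norm_le_pi_norm a j
  have key : ∀ i, ar y i * en 0 0 (grad y i a) ≤ 32 / δ ^ 4 * ‖a‖ ^ 2 := fun i => by
    have a1 := h.ar hδ i
    have a0 : 0 < ar y i := lt_of_lt_of_le (by positivity) a1
    have s1 := g2_sq (n3 (sp i)) (n2 (sq i)) (n3 (sq i)) (n2 (sp i))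
    have s2 := g2_sq (n3 (sq i)) (n1 (sp i)) (n3 (sp i)) (n1 (sq i))
    have e : ar y i * en 0 0 (grad y i a) =
        ((a (sp i) * y.2 (sq i) - a (sq i) * y.2 (sp i)) ^ 2 +
          (a (sq i) * y.1 (sp i) - a (sp i) * y.1 (sq i)) ^ 2) / ar y i := by
      simp only [en, grad, mul_zero, Real.exp_zero]
      field_simp
      ring
    rw [e]
    calc _ ≤ (4 * ‖a‖ ^ 2 * (2 / δ) ^ 2 + 4 * ‖a‖ ^ 2 * (2 / δ) ^ 2) / δ ^ 2 := by
          gcongr
      _ = _ := by field_simp; ring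
  rw [Fin.sum_univ_three]
  have := key 0
  have := key 1
  have := key 2
  have e : (96 : ℝ) / δ ^ 4 * ‖a‖ ^ 2 = 3 * (32 / δ ^ 4 * ‖a‖ ^ 2) := by ring
  linarith

/-- Apply `lemH` to the forms whose class is a multiple of `v`. -/
theorem window : ∃ C : ℝ, 0 < C ∧ ∀ (y : Pt) (W : WC y) (β : Sf → ℝ × ℝ) (u v : V),
    (β, u) ∈ W.F → Om u v ≠ 0 → ∀ (t0 s0 t δ X : ℝ) (τ : Ty), t0 ≤ t → 0 < δ → δ ≤ 1 → 0 < X →
    volume {s : ℝ | |s - s0| ≤ 5 * Real.exp (-2 * t0) ∧ GoodAt δ τ (us s y) t ∧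
        ‖ac (St τ (us s y) t).2 v‖ ≤ X} ≤
      ENNReal.ofReal (C / δ ^ 4 * Real.exp (-2 * t0) * (∫ x, en t0 s0 (β x) ∂W.m) * X ^ 2 /
        Om u v ^ 2) := by
  obtain ⟨C, hC, H⟩ := lemH
  obtain ⟨C0, hC0, H0⟩ := en_good
  refine ⟨2 * C * C0, by positivity, fun y W β u v hβ huv t0 s0 t δ X τ ht hδ hδ1 hX => ?_⟩
  have := W.fin
  let F : Submodule ℝ (Sf → ℝ × ℝ) :=
    { carrier := {G | ∃ c : ℝ, (G, c • v) ∈ W.F}
      zero_mem' := ⟨0, by rw [zero_smul]; exact W.F.zero_mem⟩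
      add_mem' := by
        rintro G G' ⟨c, hc⟩ ⟨c', hc'⟩
        exact ⟨c + c', by rw [add_smul]; exact W.F.add_mem hc hc'⟩
      smul_mem' := by
        rintro r G ⟨c, hc⟩
        exact ⟨r * c, by rw [mul_smul]; exact W.F.smul_mem r hc⟩ }
  have o2 : 0 < Om u v ^ 2 := by positivity
  have key := H W.m F
    (by
      rintro G ⟨c, hc⟩
      exact (W.bdd _ hc).mono_exponent le_top)
    (by
      rintro G ⟨c, hc⟩ G' ⟨c', hc'⟩
      have := W.Q _ hc _ hc'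
      rw [smul_Om, Om_smul, Om_self, mul_zero, mul_zero] at this
      exact this)
    β ((W.bdd _ hβ).mono_exponent le_top) t0 s0 t (Om u v ^ 2 * δ ^ 4 / (2 * C0 * X ^ 2)) ht
    (by positivity)
  refine (measure_mono ?_).trans (key.trans (le_of_eq ?_))
  · rintro s ⟨hs, hg, hn⟩
    have hr : Reach y (St τ (us s y) t).2 := g2_reach hg.1.reach
    have hw := W.whit _ hr v
    refine ⟨hs, _, ⟨1, by rw [one_smul]; exact hw⟩, ?_⟩
    have e1 := W.Q _ hβ _ hw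
    have e2 := W.en_whit hr v t s
    have e3 := H0 δ _ _ (ac (St τ (us s y) t).2 v) hδ hδ1 hg.2
    rw [nst, g2_us] at e3
    simp only [g2_ar] at e3
    rw [← e2] at e3
    have e4 : C0 / δ ^ 4 * ‖ac (St τ (us s y) t).2 v‖ ^ 2 ≤ C0 / δ ^ 4 * X ^ 2 := by gcongr
    have e5 : Om u v ^ 2 * δ ^ 4 / (2 * C0 * X ^ 2) * (C0 / δ ^ 4 * X ^ 2) = Om u v ^ 2 / 2 := by
      field_simp
    have e6 := mul_le_mul_of_nonneg_left (e3.trans e4)
      (show 0 ≤ Om u v ^ 2 * δ ^ 4 / (2 * C0 * X ^ 2) by positivity)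
    rw [e5] at e6
    simp only at e1
    rw [e1]
    linarith
  · congr 1
    field_simp

theorem nd_loc : ∃ C : ℝ, 0 < C ∧ ∀ (δ l t : ℝ) (τ : Ty) (y : Pt) (v : V), 0 < δ → δ ≤ 1 → 0 < l →
    0 ≤ t → Good δ τ y → v ≠ 0 →
    volume {s ∈ Set.Icc (0 : ℝ) 1 | GoodAt δ τ (us s y) t ∧
      ‖ac (St τ (us s y) t).2 v‖ ≤ l * ‖v‖} ≤ ENNReal.ofReal (C / δ ^ 8 * l ^ 2) := by
  obtain ⟨C, hC, H⟩ := window
  obtain ⟨C0, hC0, H0⟩ := en_good
  refine ⟨4 * C * C0, by positivity, fun δ l t τ y v hδ hδ1 hl ht hg hv => ?_⟩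
  have hc : y ∈ Cell := Dt_cell τ (hg.dt hδ)
  obtain ⟨W⟩ := wc_exists hc
  obtain ⟨u, hu, hO⟩ := exists_dual v
  have v0 : 0 < ‖v‖ := norm_pos_iff.2 hv
  have hO' : Om u v = -‖v‖ := by rw [Om_swap, hO]
  have hr : Reach y 1 := Reach.refl hc
  have key := H y W _ u v (W.whit 1 hr u) (by rw [hO']; exact neg_ne_zero.2 v0.ne') 0 0 t δ
    (l * ‖v‖) τ ht hδ hδ1 (by positivity)
  refine (measure_mono ?_).trans (key.trans (ENNReal.ofReal_le_ofReal ?_))
  · rintro s ⟨hs, h1, h2⟩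
    refine ⟨?_, h1, h2⟩
    rw [mul_zero, Real.exp_zero, sub_zero, abs_le]
    constructor <;> linarith [hs.1, hs.2]
  · have e1 := g2_int W hr fun i => en 0 0 (grad (acP 1 y) i (ac 1 u))
    have e2 := H0 δ τ y u hδ hδ1 hg
    rw [e1, acP_one, ac_one, hO', mul_zero, Real.exp_zero]
    have e3 : C0 / δ ^ 4 * ‖u‖ ^ 2 ≤ C0 / δ ^ 4 * 2 ^ 2 := by gcongr
    calc _ ≤ C / δ ^ 4 * 1 * (C0 / δ ^ 4 * 2 ^ 2) * (l * ‖v‖) ^ 2 / (-‖v‖) ^ 2 := by
          gcongr
          exact e2.trans e3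
      _ = _ := by field_simp; ring

/-- A window around the direction in which the core of `P` is vertical. -/
theorem core_window : ∃ C : ℝ, 0 < C ∧ ∀ (y : Pt) (P : Mat) (v : V), Reach y P →
    ac P v 0 ≠ 0 → ac P y.2 0 ≠ 0 → ∀ (t0 t δ X : ℝ) (τ : Ty), t0 ≤ t → 0 < δ → δ ≤ 1 → 0 < X →
    volume {s : ℝ | |s + ac P y.1 0 / ac P y.2 0| ≤ 5 * Real.exp (-2 * t0) ∧
        GoodAt δ τ (us s y) t ∧ ‖ac (St τ (us s y) t).2 v‖ ≤ X} ≤
      ENNReal.ofReal (C / δ ^ 4 * X ^ 2 * Real.exp (-2 * t0) *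
        (Real.exp (-2 * t0) * ac P y.2 0 ^ 2 / (ar (acP P y) 2 * ac P v 0 ^ 2))) := by
  obtain ⟨C, hC, H⟩ := window
  refine ⟨C, hC, fun y P v hr hv hh t0 t δ X τ ht hδ hδ1 hX => ?_⟩
  obtain ⟨W⟩ := wc_exists hr.cell0
  have hu : ac P (ac (sinv P) ![0, 0, 0, 1]) = ![0, 0, 0, 1] := by
    rw [← ac_mul, hr.symp.mul_sinv, ac_one]
  have hO : Om (ac (sinv P) ![0, 0, 0, 1]) v = -ac P v 0 := by
    rw [← hr.symp.Om_ac, hu]
    simp [Om]
  have key := H y W _ _ v (W.whit P hr (ac (sinv P) ![0, 0, 0, 1]))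
    (by rw [hO]; exact neg_ne_zero.2 hv) t0 (-(ac P y.1 0 / ac P y.2 0)) t δ X τ ht hδ hδ1 hX
  simp only [sub_neg_eq_add] at key
  refine key.trans (le_of_eq ?_)
  congr 1
  have a0 := (hr.cell 2).ne'
  rw [g2_int W hr fun i => en t0 (-(ac P y.1 0 / ac P y.2 0))
    (grad (acP P y) i (ac P (ac (sinv P) ![0, 0, 0, 1]))), hO, hu, Fin.sum_univ_three]
  have g0 : grad (acP P y) 0 ![0, 0, 0, 1] = 0 := by simp [grad, sp, sq]
  have g1 : grad (acP P y) 1 ![0, 0, 0, 1] = 0 := by simp [grad, sp, sq]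
  have g2 : grad (acP P y) 2 ![0, 0, 0, 1] =
      (-ac P y.2 0 / ar (acP P y) 2, ac P y.1 0 / ar (acP P y) 2) := by
    simp [grad, sp, sq, acP]
  rw [g0, g1, g2]
  simp only [en, Prod.fst_zero, Prod.snd_zero]
  field_simp
  ring

end Pool.Agent.TW
end

-- part Pool.Agent.Lib.MP_4eaecc_an.G4a
section

/-! Uniform growth of a class along horocycle segments. -/

namespace Pool.Agent.TW

open Matrix MeasureTheory Filter Topology
open scoped ENNReal NNReal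

/-- `(P, n)` is an admissible window for `(y, v)` at level `η`. -/
def Adm (η : ℝ) (y : Pt) (v : V) (q : Mat × ℕ) : Prop :=
  Reach y q.1 ∧ ac q.1 v 0 ≠ 0 ∧ ac q.1 y.2 0 ≠ 0 ∧
    Real.exp (-2 * q.2) * ac q.1 y.2 0 ^ 2 / (ar (acP q.1 y) 2 * ac q.1 v 0 ^ 2) < η

noncomputable def win (y : Pt) (q : Mat × ℕ) : Set ℝ :=
  Metric.closedBall (-(ac q.1 y.1 0 / ac q.1 y.2 0)) (Real.exp (-2 * q.2))

/-- Vitali covering. -/
theorem win_cover : ∃ C : ℝ, 0 < C ∧ ∀ (η δ X t : ℝ) (τ : Ty) (y : Pt) (v : V)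
    (s : Finset (Mat × ℕ)), 0 < δ → δ ≤ 1 → 0 < X → 0 < η → (∀ q ∈ s, Adm η y v q ∧ (q.2 : ℝ) ≤ t) →
    volume {x ∈ Set.Icc (0 : ℝ) 1 | (∃ q ∈ s, x ∈ win y q) ∧ GoodAt δ τ (us x y) t ∧
      ‖ac (St τ (us x y) t).2 v‖ ≤ X} ≤ ENNReal.ofReal (C / δ ^ 4 * X ^ 2 * η) := by
  classical
  obtain ⟨C, hC, H⟩ := core_window
  refine ⟨3 * C, by positivity, fun η δ X t τ y v s hδ h1 hX hη hs => ?_⟩
  have hr : ∀ q : Mat × ℕ, Real.exp (-2 * q.2) ≤ 1 := fun q =>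
    Real.exp_le_one_iff.2 (by linarith [(Nat.cast_nonneg q.2 : (0 : ℝ) ≤ q.2)])
  obtain ⟨u, u1, u2, u3⟩ := Vitali.exists_disjoint_subfamily_covering_enlargement_closedBall
    {q : Mat × ℕ | q ∈ s ∧ ∃ x ∈ Set.Icc (0 : ℝ) 1, x ∈ win y q}
    (fun q => -(ac q.1 y.1 0 / ac q.1 y.2 0)) (fun q => Real.exp (-2 * q.2)) 1
    (fun q _ => hr q) 5 (by norm_num)
  lift u to Finset (Mat × ℕ) using s.finite_toSet.subset fun q hq => (u1 hq).1
  have k1 : ∑ q ∈ u, Real.exp (-2 * q.2) ≤ 3 := by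
    have a1 : volume (⋃ q ∈ u, win y q) ≤ volume (Set.Icc (-2 : ℝ) 3) := by
      refine measure_mono (Set.iUnion₂_subset fun q hq z hz => ?_)
      obtain ⟨-, x, hx, hw⟩ := u1 hq
      have a2 := (dist_triangle_right z x _).trans (add_le_add hz hw)
      rw [Real.dist_eq, abs_le] at a2
      constructor <;> linarith [hx.1, hx.2, hr q, a2.1, a2.2]
    unfold win at a1
    rw [measure_biUnion_finset u2 fun q _ => measurableSet_closedBall, Real.volume_Icc] at a1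
    simp only [Real.volume_closedBall] at a1
    rw [← ENNReal.ofReal_sum_of_nonneg fun q _ => by positivity,
      ENNReal.ofReal_le_ofReal_iff (by norm_num), ← Finset.mul_sum] at a1
    linarith
  refine (measure_mono (t := ⋃ q ∈ u, {x : ℝ | |x + ac q.1 y.1 0 / ac q.1 y.2 0| ≤
    5 * Real.exp (-2 * q.2) ∧ GoodAt δ τ (us x y) t ∧ ‖ac (St τ (us x y) t).2 v‖ ≤ X}) ?_).trans
    ((measure_biUnion_finset_le _ _).trans ?_)
  · rintro x ⟨hx, ⟨q, hq, hw⟩, hg⟩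
    obtain ⟨b, hb, k2⟩ := u3 q ⟨hq, x, hx, hw⟩
    have k3 := k2 hw
    rw [Metric.mem_closedBall, Real.dist_eq, sub_neg_eq_add] at k3
    exact Set.mem_iUnion₂.2 ⟨b, hb, k3, hg⟩
  · refine (Finset.sum_le_sum (g := fun q : Mat × ℕ =>
      ENNReal.ofReal (C / δ ^ 4 * X ^ 2 * η * Real.exp (-2 * q.2))) fun q hq => ?_).trans ?_
    · obtain ⟨⟨a1, a2, a3, a4⟩, a5⟩ := hs q (u1 hq).1
      refine (H y q.1 v a1 a2 a3 q.2 t δ X τ a5 hδ h1 hX).trans (ENNReal.ofReal_le_ofReal ?_)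
      rw [mul_right_comm _ η]
      exact mul_le_mul_of_nonneg_left a4.le (by positivity)
    · rw [← ENNReal.ofReal_sum_of_nonneg fun q _ => by positivity, ← Finset.mul_sum]
      refine ENNReal.ofReal_le_ofReal ((mul_le_mul_of_nonneg_left k1 (by positivity)).trans_eq ?_)
      ring

end Pool.Agent.TW
end

-- part Pool.Agent.Lib.MP_4eaecc_an.G4b
section

/-! Uniform growth of a class along horocycle segments. -/

namespace Pool.Agent.TW

open Matrix MeasureTheory Filter Topology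
open scoped ENNReal NNReal

theorem g4b_dens {W : Set ℝ} (hW : MeasurableSet W) {θ : ℝ} (hθ : 0 < θ) {r : ℕ → ℝ}
    (hr : Tendsto r atTop (𝓝[>] 0)) : ∀ᵐ x : ℝ, (∃ᶠ n in atTop, ∃ c,
      Metric.closedBall c (θ * r n) ⊆ W ∩ Metric.closedBall x (r n)) → x ∈ W := by
  filter_upwards [Besicovitch.ae_tendsto_measure_inter_div_of_measurableSet volume hW] with x hx h
  by_contra k
  rw [Set.indicator_of_notMem k] at hx
  obtain ⟨n, ⟨⟨c, h1⟩, h2⟩, h3⟩ := ((h.and_eventually ((hx.comp hr).eventually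
    (gt_mem_nhds (ENNReal.ofReal_pos.mpr hθ)))).and_eventually
      (hr.eventually self_mem_nhdsWithin)).exists
  replace h3 : 0 < r n := h3
  refine h2.not_ge (le_trans ?_ (ENNReal.div_le_div_right (measure_mono h1) _))
  rw [Real.volume_closedBall, Real.volume_closedBall, ← ENNReal.ofReal_div_of_pos (by positivity)]
  exact ENNReal.ofReal_le_ofReal (le_of_eq (by field_simp))

/-- A point with infinitely many good times without drop is not a density point of the complement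
of the windows. -/
theorem win_ae {δ l η : ℝ} (hδ : 0 < δ) (hl : 0 < l) (hη : 0 < η) (τ : Ty) (y : Pt) {v : V}
    (hv : v ≠ 0) : ∀ᵐ x : ℝ, (∃ᶠ n : ℕ in atTop, GoodAt δ τ (us x y) n ∧
      l * ‖v‖ ≤ ‖ac (St τ (us x y) n).2 v‖) → ∃ q, Adm η y v q ∧ x ∈ win y q := by
  obtain ⟨c, c0, hc⟩ := core_unif (isCompact_iUnion fun τ => isCompact_good hδ τ) (by
    rintro z ⟨_, ⟨τ, rfl⟩, hz⟩
    exact Dt_cell τ (Good.dt hz hδ))
  have v0 : 0 < l * ‖v‖ := mul_pos hl (norm_pos_iff.mpr hv)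
  obtain ⟨m, hm⟩ := exists_pow_lt_of_lt_one (x := η / (c⁻¹ ^ 2 / (c * (c * (l * ‖v‖)) ^ 2)))
    (by positivity) (Real.exp_lt_one_iff.mpr (by norm_num : (-2 : ℝ) < 0))
  rw [← Real.exp_nat_mul, lt_div_iff₀ (by positivity), ← mul_div_assoc] at hm
  have m1 : Real.exp (m * -2) ≤ 1 := Real.exp_le_one_iff.mpr (by linarith [m.cast_nonneg (α := ℝ)])
  have : Countable Mat := inferInstanceAs (Countable (Fin 4 → Fin 4 → ℤ))
  have hW : MeasurableSet (⋃ q, ⋃ _ : Adm η y v q, win y q) :=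
    .iUnion fun q => .iUnion fun _ => Metric.isClosed_closedBall.measurableSet
  have hr : Tendsto (fun n : ℕ => Real.exp (-n) ^ 2 * (c⁻¹ ^ 2 + 1)) atTop (𝓝[>] 0) := by
    refine tendsto_nhdsWithin_iff.mpr ⟨?_, Eventually.of_forall fun n => ?_⟩
    · simpa [-inv_pow] using ((Real.tendsto_exp_neg_atTop_nhds_zero.comp
        tendsto_natCast_atTop_atTop).pow 2).mul_const (c⁻¹ ^ 2 + 1)
    · exact Set.mem_Ioi.mpr (by positivity)
  filter_upwards [g4b_dens hW (θ := Real.exp (m * -2) / (c⁻¹ ^ 2 + 1)) (by positivity) hr]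
    with x hx hf
  refine (Set.mem_iUnion₂.mp (hx (hf.mono fun n ⟨hg, hn⟩ => ?_))).imp fun q => exists_prop.mp
  obtain ⟨P, r1, k1, k2, k3, k4, k5⟩ := hc _ (Set.mem_iUnion.mpr ⟨_, hg.2⟩)
    (ac (St τ (us x y) n).2 v)
  have r0 := hg.1.reach
  rw [nst] at r1 k2 k3 k4 k5
  generalize (St τ (us x y) n).2 = M at *
  have e0 := Real.exp_pos (-n)
  have e1 : Real.exp n = (Real.exp (-n))⁻¹ := by rw [Real.exp_neg, inv_inv]
  have r2 : Reach y (P * M) := by
    have := r1.lin (a := Real.exp (-n)) (b := 0) (c := 0) (d := Real.exp n) (by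
      simpa using mul_pos e0 (Real.exp_pos _))
    refine g2_reach (r0.trans ((congrArg (Reach · P) ?_).mp this))
    simp [lin, gt, smul_smul, ← Real.exp_add]
  have a1 : ac P (gt n (acP M (us x y))).1 0 =
      (Real.exp (-n))⁻¹ * (ac (P * M) y.1 0 + x * ac (P * M) y.2 0) := by
    simp only [gt, acP, us, ac_smul, ac_add, ac_mul, e1, Pi.smul_apply, Pi.add_apply, smul_eq_mul]
  have a2 : ac P (gt n (acP M (us x y))).2 0 = Real.exp (-n) * ac (P * M) y.2 0 := by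
    simp only [gt, acP, us, ac_smul, ac_mul, Pi.smul_apply, smul_eq_mul]
  have a3 : ar (acP P (gt n (acP M (us x y)))) 2 = ar (acP (P * M) y) 2 := by
    rw [gt_eq, acP_lin, ← gt_eq, ← acP_mul, g2_us, g2_ar]
  have a4 : Real.exp (-2 * ((n + m : ℕ) : ℝ)) = Real.exp (m * -2) * Real.exp (-n) ^ 2 := by
    rw [← Real.exp_nat_mul, ← Real.exp_add]; push_cast; ring_nf
  rw [a1] at k4
  rw [a2] at k2 k3
  rw [a3] at k5
  rw [← ac_mul] at k1
  replace k1 := (mul_le_mul_of_nonneg_left hn c0.le).trans k1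
  have H0 : ac (P * M) y.2 0 ≠ 0 := fun e => by simp [e, c0.not_ge] at k2
  have ad : Adm η y v (P * M, n + m) := by
    refine ⟨r2, abs_pos.mp ((mul_pos c0 v0).trans_le k1), H0, lt_of_le_of_lt ?_ hm⟩
    simp only [a4]
    rw [mul_assoc, ← mul_pow, ← sq_abs (_ * _), ← sq_abs (ac (P * M) v 0)]
    have := c0.le.trans k5
    gcongr
  have e2 : Real.exp (m * -2) / (c⁻¹ ^ 2 + 1) * (Real.exp (-n) ^ 2 * (c⁻¹ ^ 2 + 1)) =
      Real.exp (-2 * ((n + m : ℕ) : ℝ)) := by rw [a4]; field_simp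
  refine ⟨-(ac (P * M) y.1 0 / ac (P * M) y.2 0), Set.subset_inter ?_
    (Metric.closedBall_subset_closedBall' ?_)⟩
  · rw [e2]
    exact Set.subset_iUnion₂ (s := fun q (_ : Adm η y v q) => win y q) (P * M, n + m) ad
  · have e3 : dist (-(ac (P * M) y.1 0 / ac (P * M) y.2 0)) x = Real.exp (-n) ^ 2 *
        (|(Real.exp (-n))⁻¹ * (ac (P * M) y.1 0 + x * ac (P * M) y.2 0)| /
          |Real.exp (-n) * ac (P * M) y.2 0|) := by
      rw [← abs_div, ← abs_of_pos (pow_pos e0 2), ← abs_mul, Real.dist_eq, ← abs_neg]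
      refine congrArg _ ?_
      field_simp
      ring
    have e4 := div_le_div₀ (inv_pos.mpr c0).le k4 c0 k2
    rw [e2, a4, e3]
    rw [div_eq_mul_inv c⁻¹, ← pow_two] at e4
    have e5 := mul_le_mul_of_nonneg_left e4 (pow_pos e0 2).le
    have e6 := mul_le_mul_of_nonneg_right m1 (pow_pos e0 2).le
    linarith

end Pool.Agent.TW
end

-- part Pool.Agent.Lib.MP_4eaecc_an.G4
section

/-! Uniform growth of a class along horocycle segments. -/

namespace Pool.Agent.TW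

open Matrix MeasureTheory Filter Topology
open scoped ENNReal NNReal

theorem wv_us {δ x : ℝ} (hδ : 0 < δ) (h0 : 0 ≤ x) (hx : x ≤ δ ^ 2 / 2) {τ : Ty} {y : Pt}
    (hy : Good δ τ y) : WV τ (us x y).1 := by
  obtain ⟨⟨σ, h1, -⟩, h2⟩ := hy
  intro b i
  have a1 := (h1 b i).1
  have a2 := h2 b i
  have a3 : x * ev (ed τ b i) y.2 ≤ δ ^ 2 / 2 * δ⁻¹ :=
    mul_le_mul hx a2.2 (hδ.le.trans a2.1) (by positivity)
  have a4 : 0 ≤ x * ev (ed τ b i) y.2 := mul_nonneg h0 (hδ.le.trans a2.1)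
  have a5 : δ ^ 2 / 2 * δ⁻¹ = δ / 2 := by field_simp
  cases b <;> simp only [wd, ed, us, ev_add, ev_smul] at a1 a3 a4 ⊢ <;> linarith

/-- Most points have infinitely many good times without drop. -/
theorem freq_good {A1 A2 δ σ ε : ℝ} (hA : 0 < A1) (hδ : 0 < δ) (h1 : δ ≤ 1) (hσ : 0 < σ)
    (hs : σ ≤ δ ^ 2 / 2) (hε : 0 < ε) {τ : Ty} {y : Pt} {v : V} (hy : Good δ τ y)
    (a1 : A1 ≤ area y) (a2 : area y ≤ A2) (hv : v ≠ 0) : ∃ d l : ℝ, 0 < d ∧ 0 < l ∧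
    volume {x ∈ Set.Icc (0 : ℝ) σ | ¬ ∃ᶠ n : ℕ in atTop, GoodAt d τ (us x y) n ∧
      l * ‖v‖ ≤ ‖ac (St τ (us x y) n).2 v‖} ≤ ENNReal.ofReal ε := by
  obtain ⟨C, α, hC, hα, H⟩ := ndiv_short (A2 := A2) hA
  obtain ⟨C1, hC1, H⟩ := H {y} isCompact_singleton
    (Set.singleton_subset_iff.2 (Dt_cell τ (hy.dt hδ))) σ hσ
  obtain ⟨C', hC', H'⟩ := nd_loc
  have e3 : 0 < ε / 3 := by positivity
  have t1 : Tendsto (fun d : ℝ => σ * (C * d ^ α)) (𝓝[>] 0) (𝓝 (σ * (C * 0 ^ α))) :=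
    ((((Real.continuousAt_rpow_const 0 α (Or.inr hα.le)).tendsto.const_mul C).const_mul σ).mono_left
      nhdsWithin_le_nhds)
  rw [Real.zero_rpow hα.ne', mul_zero, mul_zero] at t1
  obtain ⟨d, d1, d2, d3⟩ := ((t1.eventually (gt_mem_nhds e3)).and (Ioc_mem_nhdsGT hδ)).exists
  have t2 : Tendsto (fun l : ℝ => C' / d ^ 8 * l ^ 2) (𝓝[>] 0) (𝓝 (C' / d ^ 8 * 0 ^ 2)) :=
    (Continuous.tendsto (by fun_prop) 0).mono_left nhdsWithin_le_nhds
  rw [zero_pow two_ne_zero, mul_zero] at t2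
  obtain ⟨l, l1, l2⟩ := ((t2.eventually (gt_mem_nhds e3)).and self_mem_nhdsWithin).exists
  have t3 : Tendsto (fun n : ℕ => σ * (C1 * Real.exp (-n) / d)) atTop (𝓝 (σ * (C1 * 0 / d))) :=
    (((Real.tendsto_exp_neg_atTop_nhds_zero.comp tendsto_natCast_atTop_atTop).const_mul
      C1).div_const d).const_mul σ
  rw [mul_zero, zero_div, mul_zero] at t3
  obtain ⟨N, hN⟩ := eventually_atTop.1 (t3.eventually (gt_mem_nhds e3))
  refine ⟨d, l, d2, l2, ?_⟩
  have hm : Monotone fun m : ℕ => {x ∈ Set.Icc (0 : ℝ) σ | ∀ n : ℕ, m ≤ n →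
      ¬ (GoodAt d τ (us x y) n ∧ l * ‖v‖ ≤ ‖ac (St τ (us x y) n).2 v‖)} :=
    fun m m' h x hx => ⟨hx.1, fun n hn => hx.2 n (h.trans hn)⟩
  refine le_trans (measure_mono fun x hx => ?_) (hm.measure_iUnion.trans_le (iSup_le fun m => ?_))
  · obtain ⟨m, k⟩ := eventually_atTop.1 (not_frequently.1 hx.2)
    exact Set.mem_iUnion.2 ⟨m, hx.1, k⟩
  · have b1 := H τ y rfl a1 a2 (hy.2.hv hδ) d (max m N : ℕ) d2 (d3.trans h1)
    have b2 := H' d l (max m N : ℕ) τ y v d2 (d3.trans h1) l2 (Nat.cast_nonneg _)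
      (hy.mono d2 d3) hv
    have b3 := hN _ (le_max_right m N)
    refine le_trans (measure_mono fun x hx => ?_) ((measure_union_le _ _).trans
      ((add_le_add b1 b2).trans ?_))
    · by_cases c : GoodAt d τ (us x y) (max m N : ℕ)
      · exact Or.inr ⟨⟨hx.1.1, hx.1.2.trans (hs.trans (by nlinarith))⟩, c,
          (not_le.1 fun k => hx.2 _ (le_max_left m N) ⟨c, k⟩).le⟩
      · exact Or.inl ⟨hx.1, wv_us hδ hx.1.1 (hx.1.2.trans hs) hy, c⟩
    · rw [← ENNReal.ofReal_add (by positivity) (by positivity)]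
      exact ENNReal.ofReal_le_ofReal (by linarith)

theorem win_pt {A1 A2 δ σ ε η : ℝ} (hA : 0 < A1) (hδ : 0 < δ) (h1 : δ ≤ 1) (hσ : 0 < σ)
    (hs : σ ≤ δ ^ 2 / 2) (hε : 0 < ε) (hη : 0 < η) {τ : Ty} {y : Pt} {v : V} (hy : Good δ τ y)
    (a1 : A1 ≤ area y) (a2 : area y ≤ A2) (hv : v ≠ 0) : ∃ s : Finset (Mat × ℕ),
    (∀ q ∈ s, Adm η y v q) ∧
    volume {x ∈ Set.Icc (0 : ℝ) σ | ∀ q ∈ s, x ∉ win y q} ≤ ENNReal.ofReal ε := by
  classical
  have : Countable Mat := inferInstanceAs (Countable (Fin 4 → Fin 4 → ℤ))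
  obtain ⟨d, l, hd, hl, H⟩ := freq_good hA hδ h1 hσ hs (half_pos hε) hy a1 a2 hv
  have ha : Antitone fun s : Finset (Mat × ℕ) =>
      {x ∈ Set.Icc (0 : ℝ) σ | ∀ q ∈ s, Adm η y v q → x ∉ win y q} :=
    fun s s' h x hx => ⟨hx.1, fun q hq => hx.2 q (h hq)⟩
  have e := ha.measure_iInter (μ := volume) (fun s => (measurableSet_Icc.inter ?_).nullMeasurableSet)
    ⟨∅, ((measure_mono (Set.sep_subset _ _)).trans_lt measure_Icc_lt_top).ne⟩
  · have b : volume (⋂ s : Finset (Mat × ℕ), {x ∈ Set.Icc (0 : ℝ) σ |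
        ∀ q ∈ s, Adm η y v q → x ∉ win y q}) < ENNReal.ofReal ε := by
      refine (le_trans (measure_mono_ae ?_) H).trans_lt
        ((ENNReal.ofReal_lt_ofReal_iff hε).2 (half_lt_self hε))
      filter_upwards [win_ae hd hl hη τ y hv] with x hx k
      refine ⟨(Set.mem_iInter.1 k ∅).1, fun c => ?_⟩
      obtain ⟨q, k1, k2⟩ := hx c
      exact (Set.mem_iInter.1 k {q}).2 q (Finset.mem_singleton_self q) k1 k2
    obtain ⟨s, k⟩ := iInf_lt_iff.1 (e ▸ b)
    refine ⟨s.filter (Adm η y v), fun q hq => (Finset.mem_filter.1 hq).2,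
      le_trans (measure_mono fun x hx => ?_) k.le⟩
    exact ⟨hx.1, fun q hq c => hx.2 q (Finset.mem_filter.2 ⟨hq, c⟩)⟩
  · change MeasurableSet {x | ∀ q ∈ s, Adm η y v q → x ∉ win y q}
    simp only [Set.ofPred_forall]
    exact MeasurableSet.iInter fun q => MeasurableSet.iInter fun _ => MeasurableSet.iInter fun _ =>
      measurableSet_closedBall.compl

theorem adm_nhds {η : ℝ} {y : Pt} {v : V} {q : Mat × ℕ} (h : Adm η y v q) :
    ∀ᶠ z : Pt × V in 𝓝 (y, v), Adm η z.1 z.2 q := by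
  obtain ⟨h1, h2, h3, h4⟩ := h
  have c1 : Continuous fun z : Pt × V => ac q.1 z.2 0 := (continuous_ev _).comp continuous_snd
  have c2 : Continuous fun z : Pt × V => ac q.1 z.1.2 0 := (continuous_ev _).comp (by fun_prop)
  have c3 : Continuous fun z : Pt × V => ar (acP q.1 z.1) 2 :=
    (by unfold ar vec dt; fun_prop : Continuous fun y => ar y 2).comp
      ((continuous_acP _).comp continuous_fst)
  refine (((isOpen_reach q.1).preimage continuous_fst).eventually_mem (x := (y, v)) h1).and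
    ((c1.continuousAt.eventually_ne h2).and ((c2.continuousAt.eventually_ne h3).and ?_))
  exact (((c2.pow 2).const_mul _).continuousAt.div (c3.mul (c1.pow 2)).continuousAt
    (mul_ne_zero (h1.cell 2).ne' (pow_ne_zero 2 h2))).eventually (gt_mem_nhds h4)

theorem ball_diff {c c' d : ℝ} (r : ℝ) (h : |c' - c| ≤ d) :
    volume (Metric.closedBall c r \ Metric.closedBall c' r) ≤ ENNReal.ofReal (2 * d) := by
  have h0 := (abs_nonneg _).trans h
  obtain ⟨h1, h2⟩ := abs_le.1 h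
  rw [Real.closedBall_eq_Icc, Real.closedBall_eq_Icc]
  refine le_trans (measure_mono (t := Set.Icc (c - r) (c - r + d) ∪ Set.Icc (c + r - d) (c + r))
    fun x hx => ?_) ((measure_union_le _ _).trans_eq ?_)
  · rcases not_and_or.1 hx.2 with k | k
    · exact Or.inl ⟨hx.1.1, by linarith [not_le.1 k]⟩
    · exact Or.inr ⟨by linarith [not_le.1 k], hx.1.2⟩
  · rw [Real.volume_Icc, Real.volume_Icc, ← ENNReal.ofReal_add (by linarith) (by linarith)]
    congr 1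
    ring

theorem ug_loc {A1 A2 δ σ K ε : ℝ} (hA : 0 < A1) (hδ : 0 < δ) (h1 : δ ≤ 1) (hσ : 0 < σ)
    (hs : σ ≤ δ ^ 2 / 2) (hK : 0 < K) (hε : 0 < ε) {τ : Ty} {y : Pt} {v : V} (hy : Good δ τ y)
    (a1 : A1 ≤ area y) (a2 : area y ≤ A2) (hv : v ≠ 0) : ∃ N ∈ 𝓝 (y, v), ∀ᶠ t : ℝ in atTop,
    ∀ z ∈ N, volume {s ∈ Set.Icc (0 : ℝ) σ | GoodAt δ τ (us s z.1) t ∧
      ‖ac (St τ (us s z.1) t).2 z.2‖ ≤ K} ≤ ENNReal.ofReal ε := by
  obtain ⟨C, hC, H⟩ := win_cover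
  have hη : 0 < ε / 3 / (C / δ ^ 4 * K ^ 2) := by positivity
  obtain ⟨s, k1, k2⟩ := win_pt hA hδ h1 hσ hs (by positivity : 0 < ε / 3) hη hy a1 a2 hv
  have hd : 0 < ε / 6 / (s.card + 1) := by positivity
  refine ⟨{z | ∀ q ∈ s, Adm (ε / 3 / (C / δ ^ 4 * K ^ 2)) z.1 z.2 q ∧
    |-(ac q.1 z.1.1 0 / ac q.1 z.1.2 0) - -(ac q.1 y.1 0 / ac q.1 y.2 0)| ≤ ε / 6 / (s.card + 1)},
    (eventually_all_finset s).2 fun q hq => (adm_nhds (k1 q hq)).and ?_, ?_⟩
  · have c1 : Continuous fun z : Pt × V => ac q.1 z.1.1 0 := (continuous_ev _).comp (by fun_prop)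
    have c2 : Continuous fun z : Pt × V => ac q.1 z.1.2 0 := (continuous_ev _).comp (by fun_prop)
    exact (c1.continuousAt.div c2.continuousAt (k1 q hq).2.2.1).neg.eventually
      (Metric.closedBall_mem_nhds _ hd)
  filter_upwards [(eventually_all_finset s).2 fun q _ => eventually_ge_atTop (q.2 : ℝ)]
    with t ht z hz
  have b1 := H _ δ K t τ z.1 z.2 s hδ h1 hK hη fun q hq => ⟨(hz q hq).1, ht q hq⟩
  have b2 : volume (⋃ q ∈ s, win y q \ win z.1 q) ≤ ENNReal.ofReal (ε / 3) := by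
    refine (measure_biUnion_finset_le _ _).trans ((Finset.sum_le_card_nsmul _ _ _
      fun q hq => ball_diff _ (hz q hq).2).trans ?_)
    rw [nsmul_eq_mul, ← ENNReal.ofReal_natCast, ← ENNReal.ofReal_mul (Nat.cast_nonneg _)]
    refine ENNReal.ofReal_le_ofReal ?_
    have := div_mul_cancel₀ (ε / 6) (by positivity : (s.card : ℝ) + 1 ≠ 0)
    linarith
  rw [mul_div_cancel₀ _ (by positivity)] at b1
  refine le_trans (measure_mono fun x hx => ?_) ((measure_union_le _ _).trans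
    ((add_le_add ((measure_union_le _ _).trans (add_le_add k2 b2)) b1).trans_eq ?_))
  · by_cases c : ∃ q ∈ s, x ∈ win z.1 q
    · exact Or.inr ⟨⟨hx.1.1, hx.1.2.trans (hs.trans (by nlinarith))⟩, c, hx.2⟩
    · refine Or.inl (or_iff_not_imp_left.2 fun k => ?_)
      by_contra k'
      exact k ⟨hx.1, fun q hq e => k' (Set.mem_biUnion hq ⟨e, fun e' => c ⟨q, hq, e'⟩⟩)⟩
  · rw [← ENNReal.ofReal_add (by positivity) (by positivity),
      ← ENNReal.ofReal_add (by positivity) (by positivity)]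
    congr 1
    ring

/-- Compactness of the set of pairs `(y, v)` with `‖v‖ = 1`. -/
theorem ug {A1 A2 δ σ K ε : ℝ} (hA : 0 < A1) (hδ : 0 < δ) (h1 : δ ≤ 1) (hσ : 0 < σ)
    (hs : σ ≤ δ ^ 2 / 2) (hK : 0 < K) (hε : 0 < ε) : ∃ t0 : ℝ, 0 < t0 ∧
    ∀ (τ : Ty) (y : Pt) (v : V) (t : ℝ), t0 ≤ t → Good δ τ y → A1 ≤ area y → area y ≤ A2 → v ≠ 0 →
    volume {s ∈ Set.Icc (0 : ℝ) σ | GoodAt δ τ (us s y) t ∧
      ‖ac (St τ (us s y) t).2 v‖ ≤ K * ‖v‖} ≤ ENNReal.ofReal ε := by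
  have ca : Continuous area := by unfold area Om; fun_prop
  have key : ∀ τ, ∀ᶠ t : ℝ in atTop, ∀ z ∈ ({y | Good δ τ y} ∩ area ⁻¹' Set.Icc A1 A2) ×ˢ
      Metric.sphere (0 : V) 1, volume {s ∈ Set.Icc (0 : ℝ) σ | GoodAt δ τ (us s z.1) t ∧
        ‖ac (St τ (us s z.1) t).2 z.2‖ ≤ K} ≤ ENNReal.ofReal ε := fun τ => by
    refine (((isCompact_good hδ τ).inter_right (isClosed_Icc.preimage ca)).prod
      (isCompact_sphere (0 : V) 1)).induction_on
      (p := fun S => ∀ᶠ t : ℝ in atTop, ∀ z ∈ S, volume {s ∈ Set.Icc (0 : ℝ) σ |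
        GoodAt δ τ (us s z.1) t ∧ ‖ac (St τ (us s z.1) t).2 z.2‖ ≤ K} ≤ ENNReal.ofReal ε)
      (Eventually.of_forall fun _ _ h => h.elim) (fun S T h k => k.mono fun t k z hz => k z (h hz))
      (fun S T h k => (h.and k).mono fun t k z hz => hz.elim (k.1 z) (k.2 z)) fun z hz => ?_
    obtain ⟨N, h, k⟩ := ug_loc hA hδ h1 hσ hs hK hε hz.1.1 hz.1.2.1 hz.1.2.2
      (norm_ne_zero_iff.1 ((mem_sphere_zero_iff_norm.1 hz.2).trans_ne one_ne_zero))
    exact ⟨N, mem_nhdsWithin_of_mem_nhds h, k⟩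
  obtain ⟨t0, H⟩ := eventually_atTop.1 (eventually_all.2 key)
  refine ⟨max t0 1, lt_max_of_lt_right one_pos, fun τ y v t ht hy a1 a2 hv => ?_⟩
  have n0 := norm_pos_iff.2 hv
  refine le_trans (measure_mono fun s h => ?_) (H t ((le_max_left _ _).trans ht) τ (y, ‖v‖⁻¹ • v)
    ⟨⟨hy, a1, a2⟩, mem_sphere_zero_iff_norm.2 (norm_smul_inv_norm hv)⟩)
  refine ⟨h.1, h.2.1, ?_⟩
  rw [ac_smul, norm_smul, norm_inv, norm_norm, inv_mul_le_iff₀ n0, mul_comm]
  exact h.2.2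

end Pool.Agent.TW
end

-- part Pool.Agent.Lib.MP_4eaecc_an.XG5
section

/-! From segments to the three dimensional family. -/

namespace Pool.Agent.TW.G

open Matrix MeasureTheory Filter Topology
open scoped ENNReal NNReal

theorem g5_lift (w : Par) (R : ℝ) : ∃ C : ℝ, 0 < C ∧ ∀ δ l t t' β : ℝ, 0 < δ → δ ≤ 1 → 0 ≤ t →
    t ≤ t' → 0 ≤ β → (∀ τ y v, Good (δ / 2) τ y → w.A ≤ area y → area y ≤ 2 * w.A → v ≠ 0 →
      volume {s ∈ Set.Icc (0 : ℝ) (δ ^ 2 / 12) | GoodAt (δ / 2) τ (us s y) (t' - t) ∧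
        ‖ac (St τ (us s y) (t' - t)).2 v‖ ≤ l * ‖v‖} ≤ ENNReal.ofReal (β * (δ ^ 2 / 12))) →
    volume {z ∈ ZR R | GoodAt δ .L (w.y z) t ∧ GoodAt δ .L (w.y z) t' ∧
      w.lev z t' ≤ l * w.lev z t} ≤ ENNReal.ofReal (C * β) := by
  obtain ⟨C, hC, H⟩ := line_lift w R
  refine ⟨C, hC, fun δ l t t' β d0 d1 t0 tt b0 h => ?_⟩
  have e : {z ∈ ZR R | GoodAt δ .L (w.y z) t ∧ GoodAt δ .L (w.y z) t' ∧
      w.lev z t' ≤ l * w.lev z t} = {z ∈ ZR R | GoodAt δ .L (w.y z) t ∧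
        (GoodAt δ (St .L (w.y z) t).1 (nst .L (w.y z) t) (t' - t) ∧
          ‖ac (St (St .L (w.y z) t).1 (nst .L (w.y z) t) (t' - t)).2 (w.v z t)‖ ≤
            l * ‖w.v z t‖)} := by
    refine Set.ext fun z => and_congr_right fun _ => and_congr_right fun g => ?_
    rw [← goodAt_add g.1 tt, ← w.lev_add g.1 tt]
    rfl
  have m : MeasurableSet {z ∈ ZR R | GoodAt δ .L (w.y z) t ∧ GoodAt δ .L (w.y z) t' ∧
      w.lev z t' ≤ l * w.lev z t} :=
    (meas_ZR R).inter (((continuous_y w).measurable (meas_goodAt δ .L t)).inter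
      (((continuous_y w).measurable (meas_goodAt δ .L t')).inter
        (measurableSet_le (meas_lev w t') ((meas_lev w t).const_mul l))))
  rw [e] at m ⊢
  refine H δ t β (fun τ y v => GoodAt δ τ y (t' - t) ∧ ‖ac (St τ y (t' - t)).2 v‖ ≤ l * ‖v‖) d0 d1
    t0 b0 m fun τ y v g a1 a2 hv => le_trans (measure_mono fun s hs => ?_) (h τ y v g a1 a2 hv)
  exact ⟨hs.1, hs.2.1.mono (half_pos d0) (half_le_self d0.le), hs.2.2⟩

theorem ndZ (w : Par) (R : ℝ) : ∃ C : ℝ, 0 < C ∧ ∀ δ l t t' : ℝ, 0 < δ → δ ≤ 1 → 0 < l → 0 ≤ t →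
    t ≤ t' → volume {z ∈ ZR R | GoodAt δ .L (w.y z) t ∧ GoodAt δ .L (w.y z) t' ∧
      w.lev z t' ≤ l * w.lev z t} ≤ ENNReal.ofReal (C / δ ^ 10 * l ^ 2) := by
  obtain ⟨C, hC, H⟩ := g5_lift w R
  obtain ⟨C', hC', H'⟩ := nd_loc
  refine ⟨C * (3072 * C'), by positivity, fun δ l t t' d0 d1 l0 t0 tt => ?_⟩
  refine (H δ l t t' (3072 * C' / δ ^ 10 * l ^ 2) d0 d1 t0 tt (by positivity)
    fun τ y v g _ _ hv => ?_).trans_eq (congrArg _ (by ring))
  have h1 : δ ^ 2 / 12 ≤ 1 := by nlinarith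
  refine le_trans (measure_mono fun s hs => ?_)
    ((H' (δ / 2) l (t' - t) τ y v (half_pos d0) (by linarith) l0 (sub_nonneg.2 tt) g hv).trans_eq
      (congrArg _ ?_))
  · exact ⟨⟨hs.1.1, hs.1.2.trans h1⟩, hs.2⟩
  · field_simp
    ring

theorem ugZ (w : Par) (R : ℝ) {δ K ε : ℝ} (hδ : 0 < δ) (h1 : δ ≤ 1) (hK : 0 < K) (hε : 0 < ε) :
    ∃ t0 : ℝ, 0 < t0 ∧ ∀ t t' : ℝ, 0 ≤ t → t + t0 ≤ t' →
    volume {z ∈ ZR R | GoodAt δ .L (w.y z) t ∧ GoodAt δ .L (w.y z) t' ∧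
      w.lev z t' ≤ K * w.lev z t} ≤ ENNReal.ofReal ε := by
  obtain ⟨C, hC, H⟩ := g5_lift w R
  obtain ⟨t0, h0, H'⟩ := ug (A2 := 2 * w.A) (σ := δ ^ 2 / 12) (ε := ε / C * (δ ^ 2 / 12)) w.A_pos
    (half_pos hδ) (by linarith) (by positivity) (by nlinarith [sq_nonneg δ]) hK (by positivity)
  refine ⟨t0, h0, fun t t' k1 k2 => ?_⟩
  exact (H δ K t t' (ε / C) hδ h1 k1 (by linarith) (by positivity) fun τ y v =>
    H' τ y v (t' - t) (by linarith)).trans_eq (congrArg _ (mul_div_cancel₀ ε hC.ne'))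

end Pool.Agent.TW.G
end

-- part Pool.Agent.Lib.MP_4eaecc_an.XG6a
section

/-! The level grows exponentially, and more slowly than the heights. -/

namespace Pool.Agent.TW.G

open Matrix MeasureTheory Filter Topology
open scoped ENNReal NNReal

theorem g6a_nd {C x c d : ℝ} (hC : 0 < C) (hx : 0 ≤ x) (hc : c ≤ 1)
    (hd : Real.exp (-x / 10) ≤ d) :
    C / d ^ 10 * Real.exp (-x) ^ 2 ≤ C * Real.exp (-c * x) := by
  have h0 : 0 < Real.exp (-x) := Real.exp_pos _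
  have h1 : Real.exp (-x) ≤ d ^ 10 := by
    have : Real.exp (-x / 10) ^ 10 = Real.exp (-x) := by
      rw [← Real.exp_nat_mul]; congr 1; push_cast; ring
    rw [← this]
    exact pow_le_pow_left₀ (Real.exp_pos _).le hd 10
  have h2 : Real.exp (-x) ≤ Real.exp (-c * x) := Real.exp_le_exp.2 (by nlinarith)
  calc C / d ^ 10 * Real.exp (-x) ^ 2 ≤ C / Real.exp (-x) * Real.exp (-x) ^ 2 := by gcongr
    _ = C * Real.exp (-x) := by field_simp
    _ ≤ C * Real.exp (-c * x) := by gcongr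

theorem g6a_bad {C α x c δ t : ℝ} (hC : 0 < C) (hα : 0 < α) (hx : 0 ≤ x) (hc : c ≤ α / 10)
    (hδ : 0 < δ) (hd : δ ≤ Real.exp (-x / 10)) (he : Real.exp (-t) ≤ δ ^ (1 + α)) :
    C * (Real.exp (-x / 10) ^ α + Real.exp (-t) / Real.exp (-x / 10)) ≤
      2 * C * Real.exp (-c * x) := by
  have h0 : 0 < Real.exp (-x / 10) := Real.exp_pos _
  have h1 : Real.exp (-t) ≤ Real.exp (-x / 10) * Real.exp (-x / 10) ^ α := by
    refine he.trans ((Real.rpow_le_rpow hδ.le hd (by positivity)).trans_eq ?_)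
    rw [Real.rpow_add h0, Real.rpow_one]
  have h2 : Real.exp (-t) / Real.exp (-x / 10) ≤ Real.exp (-x / 10) ^ α := by
    rw [div_le_iff₀ h0]; linarith
  have h3 : Real.exp (-x / 10) ^ α ≤ Real.exp (-c * x) := by
    rw [← Real.exp_mul]
    exact Real.exp_le_exp.2 (by nlinarith)
  nlinarith

/-- Exponential tail for the drop between two times, on the event that both are `δ`-good. Choose
the quality `max δ (exp (-x / 10))` in `ndZ`. -/
theorem drop_tail (w : Par) (R : ℝ) : ∃ C c : ℝ, 0 < C ∧ 0 < c ∧ ∃ α : ℝ, 0 < α ∧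
    ∀ δ t t' x : ℝ, 0 < δ → δ ≤ 1 → 0 ≤ t → t ≤ t' → 0 ≤ x → Real.exp (-t) ≤ δ ^ (1 + α) →
    volume {z ∈ ZR R | GoodAt δ .L (w.y z) t ∧ GoodAt δ .L (w.y z) t' ∧
      w.lev z t' ≤ Real.exp (-x) * w.lev z t} ≤ ENNReal.ofReal (C * Real.exp (-c * x)) := by
  obtain ⟨C1, α, hC1, hα, h1⟩ := ndivZ w R
  obtain ⟨C2, hC2, h2⟩ := ndZ w R
  refine ⟨C2 + 4 * C1, min 1 (α / 10), by positivity, by positivity, α, hα, ?_⟩
  intro δ t t' x hδ hδ1 ht htt hx he
  have hc1 : min 1 (α / 10) ≤ 1 := min_le_left _ _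
  have hc2 : min 1 (α / 10) ≤ α / 10 := min_le_right _ _
  generalize min 1 (α / 10) = c at hc1 hc2 ⊢
  have hE : 0 < Real.exp (-c * x) := Real.exp_pos _
  rcases le_total (Real.exp (-x / 10)) δ with hd | hd
  · refine (h2 δ _ t t' hδ hδ1 (Real.exp_pos _) ht htt).trans (ENNReal.ofReal_le_ofReal ?_)
    refine (g6a_nd hC2 hx hc1 hd).trans ?_
    nlinarith [mul_pos hC1 hE]
  · have d0 : 0 < Real.exp (-x / 10) := Real.exp_pos _
    have d1 : Real.exp (-x / 10) ≤ 1 := Real.exp_le_one_iff.2 (by linarith)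
    have he' : Real.exp (-t') ≤ δ ^ (1 + α) := (Real.exp_le_exp.2 (by linarith)).trans he
    have a1 := (h2 _ _ t t' d0 d1 (Real.exp_pos (-x)) ht htt).trans
      (ENNReal.ofReal_le_ofReal (g6a_nd hC2 hx hc1 le_rfl))
    have a2 := (h1 _ t d0 d1).trans
      (ENNReal.ofReal_le_ofReal (g6a_bad hC1 hα hx hc2 hδ hd he))
    have a3 := (h1 _ t' d0 d1).trans
      (ENNReal.ofReal_le_ofReal (g6a_bad hC1 hα hx hc2 hδ hd he'))
    have hsub : {z ∈ ZR R | GoodAt δ .L (w.y z) t ∧ GoodAt δ .L (w.y z) t' ∧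
        w.lev z t' ≤ Real.exp (-x) * w.lev z t} ⊆
        ({z ∈ ZR R | GoodAt (Real.exp (-x / 10)) .L (w.y z) t ∧
          GoodAt (Real.exp (-x / 10)) .L (w.y z) t' ∧ w.lev z t' ≤ Real.exp (-x) * w.lev z t} ∪
        {z ∈ ZR R | WV .L (w.E z) ∧ ¬ GoodAt (Real.exp (-x / 10)) .L (w.y z) t}) ∪
        {z ∈ ZR R | WV .L (w.E z) ∧ ¬ GoodAt (Real.exp (-x / 10)) .L (w.y z) t'} := by
      rintro z ⟨hz, g1, -, hl⟩
      have hw : WV .L (w.E z) := g1.1.1
      by_cases b1 : GoodAt (Real.exp (-x / 10)) .L (w.y z) t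
      · by_cases b2 : GoodAt (Real.exp (-x / 10)) .L (w.y z) t'
        · exact Or.inl (Or.inl ⟨hz, b1, b2, hl⟩)
        · exact Or.inr ⟨hz, hw, b2⟩
      · exact Or.inl (Or.inr ⟨hz, hw, b1⟩)
    refine (measure_mono hsub).trans ((measure_union_le _ _).trans ?_)
    refine (add_le_add ((measure_union_le _ _).trans (add_le_add a1 a2)) a3).trans ?_
    rw [← ENNReal.ofReal_add (by positivity) (by positivity),
      ← ENNReal.ofReal_add (by positivity) (by positivity)]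
    exact ENNReal.ofReal_le_ofReal (le_of_eq (by ring))

theorem g6a_layer (d : ℝ) :
    ENNReal.ofReal (max d 0) ≤ ∑' k : ℕ, (if (k : ℝ) ≤ d then (1 : ℝ≥0∞) else 0) := by
  rcases le_total d 0 with h | h
  · rw [max_eq_right h, ENNReal.ofReal_zero]; exact zero_le
  · rw [max_eq_left h]
    refine le_trans ?_ (ENNReal.sum_le_tsum (Finset.range (⌊d⌋₊ + 1)))
    have h1 : ∑ k ∈ Finset.range (⌊d⌋₊ + 1), (if (k : ℝ) ≤ d then (1 : ℝ≥0∞) else 0) =
        ((⌊d⌋₊ + 1 : ℕ) : ℝ≥0∞) := by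
      rw [Finset.sum_congr rfl (g := fun _ => (1 : ℝ≥0∞))]
      · simp
      · intro k hk
        rw [if_pos]
        exact (Nat.le_floor_iff h).1 (Nat.lt_succ_iff.1 (Finset.mem_range.1 hk))
    rw [h1, ← ENNReal.ofReal_natCast]
    refine ENNReal.ofReal_le_ofReal ?_
    push_cast
    exact (Nat.lt_floor_add_one d).le

theorem g6a_geom {C c : ℝ} (hC : 0 < C) (hc : 0 < c) :
    ∑' k : ℕ, ENNReal.ofReal (C * Real.exp (-c * k)) =
      ENNReal.ofReal (C / (1 - Real.exp (-c))) := by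
  have h0 : 0 ≤ Real.exp (-c) := (Real.exp_pos _).le
  have h1 : Real.exp (-c) < 1 := Real.exp_lt_one_iff.2 (by linarith)
  have h2 : ∀ k : ℕ, C * Real.exp (-c * k) = C * Real.exp (-c) ^ k := fun k => by
    rw [← Real.exp_nat_mul, mul_comm (k : ℝ)]
  simp only [h2]
  rw [← ENNReal.ofReal_tsum_of_nonneg (fun k => by positivity)
    ((summable_geometric_of_lt_one h0 h1).mul_left C), tsum_mul_left,
    tsum_geometric_of_lt_one h0 h1, div_eq_mul_inv]

theorem g6a_int {Z : Type} [MeasurableSpace Z] (ν : Measure Z) (D : Z → ℝ)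
    (hD : Measurable D) (G : Set Z) {C c : ℝ} (hC : 0 < C) (hc : 0 < c)
    (h : ∀ k : ℕ, ν {z ∈ G | k ≤ D z} ≤ ENNReal.ofReal (C * Real.exp (-c * k))) :
    ∫⁻ z in G, ENNReal.ofReal (max (D z) 0) ∂ν ≤ ENNReal.ofReal (C / (1 - Real.exp (-c))) := by
  have hm : ∀ k : ℕ, MeasurableSet {z | (k : ℝ) ≤ D z} := fun k =>
    measurableSet_le measurable_const hD
  calc ∫⁻ z in G, ENNReal.ofReal (max (D z) 0) ∂ν
      ≤ ∫⁻ z in G, ∑' k : ℕ, {z | (k : ℝ) ≤ D z}.indicator (fun _ => (1 : ℝ≥0∞)) z ∂ν := by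
        refine lintegral_mono fun z => (g6a_layer (D z)).trans (le_of_eq ?_)
        refine tsum_congr fun k => ?_
        simp only [Set.indicator_apply, Set.mem_ofPred_eq]
    _ = ∑' k : ℕ, ν {z ∈ G | k ≤ D z} := by
        rw [lintegral_tsum fun k => (measurable_const.indicator (hm k)).aemeasurable]
        refine tsum_congr fun k => ?_
        rw [lintegral_indicator_const (hm k), one_mul, Measure.restrict_apply (hm k)]
        congr 1
        ext z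
        simp only [Set.mem_inter_iff, Set.mem_ofPred_eq]
        exact and_comm
    _ ≤ ∑' k : ℕ, ENNReal.ofReal (C * Real.exp (-c * k)) := ENNReal.tsum_le_tsum h
    _ = _ := g6a_geom hC hc

/-- Markov inequality for a sum of variables with exponential tails. -/
theorem sum_tail {Z : Type} [MeasurableSpace Z] (ν : Measure Z) (D : ℕ → Z → ℝ)
    (hD : ∀ j, Measurable (D j)) (G : Set Z) (hG : MeasurableSet G) {C c : ℝ} (hC : 0 < C)
    (hc : 0 < c) (J : ℕ)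
    (h : ∀ j < J, ∀ k : ℕ, ν {z ∈ G | k ≤ D j z} ≤ ENNReal.ofReal (C * Real.exp (-c * k)))
    {x : ℝ} (hx : 0 < x) :
    ν {z ∈ G | x * J < ∑ j ∈ Finset.range J, max (D j z) 0} ≤
      ENNReal.ofReal (C / (1 - Real.exp (-c)) / x) := by
  rcases Nat.eq_zero_or_pos J with rfl | hJ
  · simp
  have hJ' : (0 : ℝ) < J := by exact_mod_cast hJ
  have h1 : Real.exp (-c) < 1 := Real.exp_lt_one_iff.2 (by linarith)
  have hB : 0 < C / (1 - Real.exp (-c)) := div_pos hC (by linarith)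
  have hm : ∀ j, Measurable fun z => ENNReal.ofReal (max (D j z) 0) := fun j =>
    ((hD j).max measurable_const).ennreal_ofReal
  have hf : Measurable fun z => ∑ j ∈ Finset.range J, ENNReal.ofReal (max (D j z) 0) :=
    Finset.measurable_sum _ fun j _ => hm j
  have hM := mul_meas_ge_le_lintegral₀ (μ := ν.restrict G) hf.aemeasurable
    (ENNReal.ofReal (x * J))
  have hI : ∫⁻ z in G, ∑ j ∈ Finset.range J, ENNReal.ofReal (max (D j z) 0) ∂ν ≤
      ENNReal.ofReal (J * (C / (1 - Real.exp (-c)))) := by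
    rw [lintegral_finsetSum _ fun j _ => hm j]
    refine (Finset.sum_le_sum fun j hj =>
      g6a_int ν (D j) (hD j) G hC hc (h j (Finset.mem_range.1 hj))).trans (le_of_eq ?_)
    rw [Finset.sum_const, Finset.card_range, nsmul_eq_mul, ENNReal.ofReal_mul hJ'.le,
      ENNReal.ofReal_natCast]
  have hsub : ν {z ∈ G | x * J < ∑ j ∈ Finset.range J, max (D j z) 0} ≤
      ν.restrict G {z | ENNReal.ofReal (x * J) ≤
        ∑ j ∈ Finset.range J, ENNReal.ofReal (max (D j z) 0)} := by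
    rw [Measure.restrict_apply' hG]
    refine measure_mono ?_
    rintro z ⟨hz, hl⟩
    refine ⟨?_, hz⟩
    rw [Set.mem_ofPred_eq, ← ENNReal.ofReal_sum_of_nonneg fun j _ => le_max_right _ _]
    exact ENNReal.ofReal_le_ofReal hl.le
  refine hsub.trans ?_
  have hx' : 0 < x * J := mul_pos hx hJ'
  have hne : ENNReal.ofReal (x * J) ≠ 0 := (ENNReal.ofReal_pos.2 hx').ne'
  refine (ENNReal.mul_le_mul_iff_right hne ENNReal.ofReal_ne_top).1 ((hM.trans hI).trans (le_of_eq ?_))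
  rw [← ENNReal.ofReal_mul hx'.le]
  congr 1
  field_simp

theorem g6a_bnd (w : Par) :
    Bnd .L w.eta w.v0 (-((w.a + w.b) / w.h1 + (w.a + w.b) / w.h2))
      ((w.a + w.b) / w.h1 + (w.a + w.b) / w.h2) := by
  have h1 := w.h10
  have h2 := w.h20
  have hp := w.a0
  have hq := w.b0
  have e1 : ((w.a + w.b : ℝ) / w.h1 + (w.a + w.b) / w.h2) * w.h1 =
      (w.a + w.b) + (w.a + w.b) / w.h2 * w.h1 := by field_simp
  have e2 : ((w.a + w.b : ℝ) / w.h1 + (w.a + w.b) / w.h2) * w.h2 =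
      (w.a + w.b) / w.h1 * w.h2 + (w.a + w.b) := by field_simp
  have f1 : 0 ≤ (w.a + w.b : ℝ) / w.h2 * w.h1 := by positivity
  have f2 : 0 ≤ (w.a + w.b : ℝ) / w.h1 * w.h2 := by positivity
  generalize (w.a + w.b : ℝ) / w.h1 + (w.a + w.b) / w.h2 = M at e1 e2 ⊢
  intro b i
  cases b <;> fin_cases i <;>
    simp [ed, eR, eL, ev_four, Par.eta, Par.v0] <;> constructor <;> linarith

theorem g6a_low (w : Par) {H : ℝ} (h1 : w.h1 ≤ H) (h2 : w.h2 ≤ H) : Low .L w.eta H := by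
  have h0 := w.h10
  intro b i
  cases b <;> fin_cases i <;> simp [ed, eR, eL, ev_four, Par.eta] <;> linarith

theorem g6a_lev (w : Par) {z : Fin 3 → ℝ} {t m M : ℝ} (h : Base .L (w.y z) t)
    (k : BndAt .L (w.y z) t w.v0 m M) : w.lev z t ≤ 2 * (M - m) * Real.exp t := by
  have hw : WV (St .L (w.y z) t).1 (ac (St .L (w.y z) t).2 (w.y z).1) :=
    (pv_of_gen h.1 h.2.2.1 _ _ le_rfl).1
  have hh : HV (St .L (w.y z) t).1 (ac (St .L (w.y z) t).2 (w.y z).2) := path_hv h.2.1 _ _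
  have hc := Bnd.close k hw hh h.low
  have h0 : Om (ac (St .L (w.y z) t).2 (w.y z).1) (ac (St .L (w.y z) t).2 w.v0) = 0 := by
    rw [(St_symp _ _ _).Om_ac]
    exact w.Om_E z
  rw [h0, zero_div, zero_smul, sub_zero] at hc
  exact hc

theorem g6a_delta {C α ε : ℝ} (hC : 0 < C) (hα : 0 < α) (hε : 0 < ε) :
    ∃ δ : ℝ, 0 < δ ∧ δ ≤ 1 ∧ C * δ ^ α ≤ ε := by
  have h0 : 0 < ε / C := div_pos hε hC
  have h1 : 0 < (ε / C) ^ α⁻¹ := Real.rpow_pos_of_pos h0 _
  refine ⟨min 1 ((ε / C) ^ α⁻¹), lt_min one_pos h1, min_le_left _ _, ?_⟩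
  have h2 : min 1 ((ε / C) ^ α⁻¹) ^ α ≤ ε / C := by
    refine (Real.rpow_le_rpow (lt_min one_pos h1).le (min_le_right _ _) hα.le).trans_eq ?_
    exact Real.rpow_inv_rpow h0.le hα.ne'
  rwa [le_div_iff₀ hC, mul_comm] at h2

theorem g6a_ev (K : ℝ) {c : ℝ} (hc : 0 < c) : ∀ᶠ t : ℝ in atTop, K < Real.exp (c * t) :=
  (Real.tendsto_exp_atTop.comp (tendsto_id.const_mul_atTop hc)).eventually_gt_atTop K

theorem gapZ (w : Par) (R : ℝ) {ε : ℝ} (hε : 0 < ε) : ∃ c : ℝ, 0 < c ∧ ∀ᶠ t in atTop,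
    volume {z ∈ ZR R | WV .L (w.E z) ∧ ∃ t', t ≤ t' ∧ Real.exp (t' - c * t) ≤ w.lev z t'} ≤
      ENNReal.ofReal ε := by
  classical
  obtain ⟨C1, α, hC1, hα, h1⟩ := ndivZ w R
  obtain ⟨δ, hδ, hδ1, hδε⟩ := g6a_delta hC1 hα (show 0 < ε / 20 by positivity)
  obtain ⟨τ2, c0, hτ, hc0, hgap⟩ := gap_det hδ hδ1
  have hb := g6a_bnd w
  have hM0 : 0 ≤ ((w.a + w.b : ℝ) / w.h1 + (w.a + w.b) / w.h2) := by
    have := w.h10
    have := w.h20
    have := w.a0
    have := w.b0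
    positivity
  generalize (w.a + w.b : ℝ) / w.h1 + (w.a + w.b) / w.h2 = M0 at hb hM0
  refine ⟨c0 / (4 * τ2), by positivity, ?_⟩
  filter_upwards [eventually_ge_atTop (20 * τ2), g6a_ev w.h1 one_half_pos,
    g6a_ev w.h2 one_half_pos, g6a_ev (20 * C1 / (δ * ε)) one_half_pos,
    g6a_ev (4 * M0 * Real.exp c0) (show 0 < c0 / (4 * τ2) by positivity)] with t ta tb tc td te
  have ht0 : 0 ≤ t / (2 * τ2) := div_nonneg (by linarith) (by linarith)
  obtain ⟨J, hJ⟩ : ∃ J : ℕ, J = ⌊t / (2 * τ2)⌋₊ := ⟨_, rfl⟩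
  have hJ10 : 10 ≤ J := by
    rw [hJ]
    refine Nat.le_floor ?_
    rw [le_div_iff₀ (by linarith)]
    push_cast
    linarith
  have hJ1 : (J : ℝ) * τ2 ≤ t / 2 := by
    have : (J : ℝ) ≤ t / (2 * τ2) := hJ ▸ Nat.floor_le ht0
    rw [le_div_iff₀ (by linarith)] at this
    linarith
  have hJ2 : t / (2 * τ2) < J + 1 := hJ ▸ Nat.lt_floor_add_one _
  obtain ⟨t0, ht0'⟩ : ∃ t0 : ℝ, t0 = t - J * τ2 := ⟨_, rfl⟩
  have ht1 : 1 / 2 * t ≤ t0 := by linarith
  have ht2 : t0 + J * τ2 = t := by linarith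
  have hJτ : 0 ≤ (J : ℝ) * τ2 := by positivity
  let X : ℕ → Set (Fin 3 → ℝ) := fun j =>
    {z ∈ ZR R | WV .L (w.E z) ∧ ¬ GoodAt δ .L (w.y z) (t0 + j * τ2)}
  have hX : ∀ j, MeasurableSet (X j) := fun j =>
    (meas_ZR R).inter (((continuous_y w).fst.measurable (meas_wv .L)).inter
      ((continuous_y w).measurable (meas_goodAt δ .L (t0 + j * τ2))).compl)
  have hXv : ∀ j < J + 1, volume (X j) ≤ ENNReal.ofReal (ε / 10) := fun j _ => by
    refine (h1 δ _ hδ hδ1).trans (ENNReal.ofReal_le_ofReal ?_)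
    have a0 : 0 ≤ (j : ℝ) * τ2 := by positivity
    have a1 : Real.exp (-(t0 + j * τ2)) ≤ (Real.exp (1 / 2 * t))⁻¹ := by
      rw [← Real.exp_neg]
      exact Real.exp_le_exp.2 (by linarith)
    have a2 : (Real.exp (1 / 2 * t))⁻¹ ≤ (20 * C1 / (δ * ε))⁻¹ :=
      inv_anti₀ (by positivity) td.le
    have a3 : C1 * (Real.exp (-(t0 + j * τ2)) / δ) ≤ ε / 20 := by
      calc C1 * (Real.exp (-(t0 + j * τ2)) / δ) ≤ C1 * ((20 * C1 / (δ * ε))⁻¹ / δ) := by
            gcongr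
            exact a1.trans a2
        _ = ε / 20 := by field_simp
    rw [mul_add]
    linarith
  have hcnt := count_bad volume X hX (J + 1) (J / 10 + 1) _ hXv
  have hk : ((J + 1 : ℕ) : ℝ≥0∞) * ENNReal.ofReal (ε / 10) ≤
      ((J / 10 + 1 : ℕ) : ℝ≥0∞) * ENNReal.ofReal ε := by
    rw [← ENNReal.ofReal_natCast, ← ENNReal.ofReal_natCast,
      ← ENNReal.ofReal_mul (Nat.cast_nonneg _), ← ENNReal.ofReal_mul (Nat.cast_nonneg _)]
    refine ENNReal.ofReal_le_ofReal ?_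
    have a1 : J + 1 ≤ 10 * (J / 10 + 1) := by omega
    have a2 : ((J + 1 : ℕ) : ℝ) ≤ 10 * ((J / 10 + 1 : ℕ) : ℝ) := by exact_mod_cast a1
    nlinarith
  have hfin := (ENNReal.mul_le_mul_iff_right (Nat.cast_ne_zero.2 (Nat.succ_ne_zero (J / 10)))
    (ENNReal.natCast_ne_top _)).1 (hcnt.trans hk)
  refine le_trans (measure_mono ?_) hfin
  rintro z ⟨hz, hw, t', htt, hl⟩
  by_contra hcon
  rw [Set.mem_ofPred_eq, not_le] at hcon
  have hfew : 10 * ((Finset.range (J + 1)).filter fun j : ℕ =>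
      ¬ GoodAt δ .L (w.y z) (t0 + j * τ2)).card ≤ J := by
    have a1 : ((Finset.range (J + 1)).filter fun j : ℕ =>
        ¬ GoodAt δ .L (w.y z) (t0 + j * τ2)).card < J / 10 + 1 := by
      refine lt_of_le_of_lt (Finset.card_le_card fun j hj => ?_) hcon
      simp only [Finset.mem_filter] at hj ⊢
      exact ⟨hj.1, hz, hw, hj.2⟩
    omega
  obtain ⟨j, hj⟩ : ∃ j : ℕ, GoodAt δ .L (w.y z) (t0 + j * τ2) := by
    by_contra hno
    have a1 : ∀ j ∈ Finset.range (J + 1), ¬ GoodAt δ .L (w.y z) (t0 + j * τ2) :=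
      fun j _ hg => hno ⟨j, hg⟩
    rw [Finset.filter_true_of_mem a1, Finset.card_range] at hfew
    omega
  have hexp : Real.exp (1 / 2 * t) ≤ Real.exp t0 := Real.exp_le_exp.2 ht1
  have hB : Base .L (w.y z) t0 :=
    ⟨hj.1.1, hj.1.2.1, hj.1.2.2.1, g6a_low w (tb.le.trans hexp) (tc.le.trans hexp)⟩
  have hb0 : BndAt .L (w.y z) t0 w.v0 (-M0) M0 := hb.path _ _
  obtain ⟨m', M', -, -, hd, hb1⟩ := hgap .L (w.y z) t0 J hJ10 hB (by convert hfew) _ _ _ hb0
  rw [ht2] at hb1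
  have hlev := g6a_lev w (hB.mono (by linarith)) (hb1.mono (hB.mono (by linarith)) htt)
  have a1 : Real.exp (-c0 * J) ≤ Real.exp c0 * Real.exp (-(2 * (c0 / (4 * τ2) * t))) := by
    rw [← Real.exp_add]
    refine Real.exp_le_exp.2 ?_
    have b1 : 2 * (c0 / (4 * τ2) * t) = c0 * (t / (2 * τ2)) := by field_simp; norm_num
    rw [b1]
    nlinarith
  have a2 : Real.exp (t' - c0 / (4 * τ2) * t) =
      Real.exp (c0 / (4 * τ2) * t) * Real.exp (-(2 * (c0 / (4 * τ2) * t))) * Real.exp t' := by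
    rw [← Real.exp_add, ← Real.exp_add]
    congr 1
    ring
  have a3 : 0 < Real.exp (-(2 * (c0 / (4 * τ2) * t))) * Real.exp t' := by positivity
  have a4 : 2 * (M' - m') * Real.exp t' ≤
      4 * M0 * Real.exp c0 * (Real.exp (-(2 * (c0 / (4 * τ2) * t))) * Real.exp t') := by
    calc 2 * (M' - m') * Real.exp t' ≤ 2 * (Real.exp (-c0 * J) * (M0 - -M0)) * Real.exp t' := by
          gcongr
      _ ≤ 2 * (Real.exp c0 * Real.exp (-(2 * (c0 / (4 * τ2) * t))) * (M0 - -M0)) * Real.exp t' := by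
          have : 0 ≤ M0 - -M0 := by linarith
          gcongr
      _ = _ := by ring
  have a5 := mul_lt_mul_of_pos_right te a3
  rw [a2, mul_assoc] at hl
  linarith

end Pool.Agent.TW.G
end

-- part Pool.Agent.Lib.MP_4eaecc_an.XG0
section

/-! The level does not drop below its initial size. -/

namespace Pool.Agent.TW.G

open Matrix MeasureTheory Filter Topology
open scoped ENNReal NNReal

theorem xg0_cell (w : Par) {z : Fin 3 → ℝ} (hz : 1 ≤ z 0) : w.y z ∈ Cell := fun i => by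
  have ha := w.a0
  have hb := w.b0
  have k1 := w.h10
  have k2 := w.h20
  have : 0 < z 0 := by linarith
  fin_cases i <;> simp [ar, dt, vec, sp, sq, Par.y, Par.E, Par.eta, *]

theorem xg0_en (w : Par) {z : Fin 3 → ℝ} {R : ℝ} (hz : z ∈ ZR R) :
    ∑ i, ar (w.y z) i * en 0 0 (grad (w.y z) i ![0, 1, 0, 0]) ≤
      (w.h1 ^ 2 + R ^ 2) / (w.b * w.h1) := by
  have hb := w.b0
  have k1 := w.h10
  have z0 := hz.2.1
  have z1 : |z 1| ≤ R := (norm_le_pi_norm z 1).trans hz.1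
  have z2 : z 1 ^ 2 ≤ R ^ 2 := sq_le_sq' (abs_le.1 z1).1 (abs_le.1 z1).2
  have g0 : grad (w.y z) 0 ![0, 1, 0, 0] = 0 := by simp [grad, sp, sq]
  have g2 : grad (w.y z) 2 ![0, 1, 0, 0] = 0 := by simp [grad, sp, sq]
  have a1 : ar (w.y z) 1 = w.b * z 0 * w.h1 := by
    simp [ar, dt, vec, sp, sq, Par.y, Par.E, Par.eta]
  have g1 : grad (w.y z) 1 ![0, 1, 0, 0] =
      (w.h1 / (w.b * z 0 * w.h1), -z 1 / (w.b * z 0 * w.h1)) := by
    rw [grad, a1]
    simp [sp, sq, Par.y, Par.E, Par.eta]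
  rw [Fin.sum_univ_three, g0, g1, g2, a1]
  simp only [en, Prod.fst_zero, Prod.snd_zero, mul_zero, Real.exp_zero]
  have z3 : 0 < z 0 := by linarith
  calc _ = (w.h1 ^ 2 + z 1 ^ 2) / (w.b * w.h1 * z 0) := by
        field_simp
        ring
    _ ≤ (w.h1 ^ 2 + R ^ 2) / (w.b * w.h1 * 1) := by gcongr
    _ = _ := by rw [mul_one]

/-- `window` at the base point `w.y z` with the piecewise constant form of a fixed `u` with
`Om u v0 ≠ 0`, `t0 = s0 = 0`; then average along lines as in `ndivZ`. -/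
theorem nd0 (w : Par) (R : ℝ) : ∃ C : ℝ, 0 < C ∧ ∀ δ t X : ℝ, 0 < δ → δ ≤ 1 → 0 ≤ t → 0 < X →
    volume {z ∈ ZR R | GoodAt δ .L (w.y z) t ∧ w.lev z t ≤ X} ≤
      ENNReal.ofReal (C / δ ^ 4 * X ^ 2) := by
  have ha := w.a0
  have hb := w.b0
  have k1 := w.h10
  obtain ⟨C, hC, H⟩ := window
  set ζ : Fin 3 → ℝ := ![0, w.h1, w.h2] with hζ
  set E : ℝ := (w.h1 ^ 2 + (R + ‖ζ‖) ^ 2) / (w.b * w.h1) with hE
  have E0 : 0 < E := by positivity
  refine ⟨C * E / w.a ^ 2 * (|(2 * (R + ‖ζ‖)) ^ 3| + 1), by positivity,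
    fun δ t X hδ hδ1 ht hX => ?_⟩
  have hm : MeasurableSet {z ∈ ZR R | GoodAt δ .L (w.y z) t ∧ w.lev z t ≤ X} :=
    (meas_ZR R).inter (((continuous_y w).measurable (meas_goodAt δ .L t)).inter
      (measurableSet_le (meas_lev w t) measurable_const))
  have hO : Om ![0, 1, 0, 0] w.v0 = w.a := by simp [Om, Par.v0]
  have := n2_avg volume hm (meas_ZR (R + ‖ζ‖)) ζ 1
    (ENNReal.ofReal (C / δ ^ 4 * E * X ^ 2 / w.a ^ 2)) (by
      intro z s hs hx
      have z0 : (z + s • ζ) 0 = z 0 := by simp [hζ]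
      have hz : z ∈ ZR (R + ‖ζ‖) := by
        refine ⟨?_, z0 ▸ hx.1.2.1, z0 ▸ hx.1.2.2⟩
        have a1 : ‖z‖ ≤ ‖z + s • ζ‖ + ‖s • ζ‖ := by
          simpa using norm_sub_le (z + s • ζ) (s • ζ)
        have a2 : ‖s • ζ‖ ≤ ‖ζ‖ := by
          rw [norm_smul, Real.norm_eq_abs, abs_of_nonneg hs.1]
          nlinarith [hs.2, norm_nonneg ζ]
        linarith [hx.1.1]
      have hc := xg0_cell w hz.2.1
      obtain ⟨W⟩ := wc_exists hc
      have hr : Reach (w.y z) 1 := Reach.refl hc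
      have key := H (w.y z) W _ _ w.v0 (W.whit 1 hr ![0, 1, 0, 0]) (by rw [hO]; exact ha.ne')
        0 0 t δ X .L ht hδ hδ1 hX
      refine ⟨hz, (measure_mono ?_).trans (key.trans (ENNReal.ofReal_le_ofReal ?_))⟩
      · rintro s' ⟨hs', -, h1, h2⟩
        rw [Par.lev, Par.v] at h2
        rw [hζ, g5a_y] at h1 h2
        refine ⟨?_, h1, h2⟩
        rw [mul_zero, Real.exp_zero, sub_zero, abs_le]
        constructor <;> linarith [hs'.1, hs'.2]
      · rw [g2_int W hr fun i => en 0 0 (grad (acP 1 (w.y z)) i (ac 1 ![0, 1, 0, 0])), acP_one,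
          ac_one, hO, mul_zero, Real.exp_zero, mul_one]
        gcongr
        exact xg0_en w hz)
  rw [ENNReal.ofReal_one, one_mul] at this
  refine this.trans ((mul_le_mul_right (vol_ZR _) _).trans ?_)
  rw [← ENNReal.ofReal_mul (by positivity)]
  refine ENNReal.ofReal_le_ofReal ?_
  calc _ ≤ C / δ ^ 4 * E * X ^ 2 / w.a ^ 2 * (|(2 * (R + ‖ζ‖)) ^ 3| + 1) := by
        gcongr
        exact (le_abs_self _).trans (le_add_of_nonneg_right zero_le_one)
    _ = _ := by ring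

end Pool.Agent.TW.G
end

-- part Pool.Agent.Lib.MP_4eaecc_an.XG6
section

/-! The level grows exponentially, and more slowly than the heights. -/

namespace Pool.Agent.TW.G

open Matrix MeasureTheory Filter Topology
open scoped ENNReal NNReal

open Classical in
theorem g6_det {L : ℕ → ℝ} {k : ℕ} {x : ℝ} (hx : 0 ≤ x) (p : ℕ → Prop)
    (h1 : ∀ j < 2 * k, ¬ p j → L j + 4 * x ≤ L (j + 1))
    (h2 : ((Finset.range (2 * k)).filter p).card ≤ k)
    (h3 : ∑ j ∈ Finset.range (2 * k), max (L j - L (j + 1)) 0 ≤ x * (2 * k : ℕ)) :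
    L 0 + 2 * x * k ≤ L (2 * k) := by
  have h4 : ∑ j ∈ Finset.range (2 * k),
      (4 * x - 4 * x * (if p j then 1 else 0) - max (L j - L (j + 1)) 0) ≤
      ∑ j ∈ Finset.range (2 * k), (L (j + 1) - L j) := Finset.sum_le_sum fun j hj => by
    have k1 := le_max_left (L j - L (j + 1)) 0
    have k2 := le_max_right (L j - L (j + 1)) 0
    split_ifs with h
    · linarith
    · linarith [h1 j (Finset.mem_range.mp hj) h]
  rw [Finset.sum_range_sub, Finset.sum_sub_distrib, Finset.sum_sub_distrib, Finset.sum_const,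
    Finset.card_range, nsmul_eq_mul, ← Finset.mul_sum, Finset.sum_boole] at h4
  have h5 : (((Finset.range (2 * k)).filter p).card : ℝ) ≤ k := by exact_mod_cast h2
  have h6 := mul_le_mul_of_nonneg_left h5 hx
  push_cast at h3 h4
  linarith

theorem g6_ev (A B : ℝ) {b η : ℝ} (hb : 0 < b) (hη : 0 < η) :
    ∀ᶠ t in atTop, (A * t + B) * Real.exp (-(b * t)) ≤ η := by
  have h0 : Tendsto (fun t : ℝ => b * t) atTop atTop := tendsto_id.const_mul_atTop hb
  have h1 := ((Real.tendsto_pow_mul_exp_neg_atTop_nhds_zero 1).comp h0).const_mul (A / b)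
  have h2 := ((Real.tendsto_pow_mul_exp_neg_atTop_nhds_zero 0).comp h0).const_mul B
  have h3 := h1.add h2
  rw [mul_zero, mul_zero, add_zero] at h3
  refine (h3.eventually (ge_mem_nhds hη)).mono fun t ht => le_trans (le_of_eq ?_) ht
  simp only [Function.comp]
  field_simp

theorem g6_meas (w : Par) (R δ t : ℝ) :
    MeasurableSet {z ∈ ZR R | WV .L (w.E z) ∧ ¬ GoodAt δ .L (w.y z) t} :=
  (meas_ZR R).inter ((((continuous_y w).fst.measurable (meas_wv .L))).inter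
    ((continuous_y w).measurable (meas_goodAt δ .L t)).compl)

theorem g6_meas' (w : Par) (R δ K t t' : ℝ) :
    MeasurableSet {z ∈ ZR R | GoodAt δ .L (w.y z) t ∧ GoodAt δ .L (w.y z) t' ∧
      w.lev z t' ≤ K * w.lev z t} :=
  (meas_ZR R).inter (((continuous_y w).measurable (meas_goodAt δ .L t)).inter
    (((continuous_y w).measurable (meas_goodAt δ .L t')).inter
      (measurableSet_le (meas_lev w t') ((meas_lev w t).const_mul K))))

theorem lgZ0 (w : Par) (R : ℝ) {ε : ℝ} (hε : 0 < ε) : ∃ c : ℝ, 0 < c ∧ ∀ᶠ t in atTop,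
    ∃ s, t / 2 ≤ s ∧ volume {z ∈ ZR R | WV .L (w.E z) ∧
      w.lev z t ≤ Real.exp (c * t) * w.lev z s} ≤ ENNReal.ofReal ε := by
  obtain ⟨C1, c1, hC1, hc1, α1, hα1, hd⟩ := drop_tail w R
  obtain ⟨C2, α2, hC2, hα2, hn⟩ := ndivZ w R
  have e1 : 0 < 1 - Real.exp (-c1) := sub_pos.mpr (Real.exp_lt_one_iff.mpr (neg_lt_zero.mpr hc1))
  obtain ⟨x, hx⟩ : ∃ x, x = 3 * (C1 / (1 - Real.exp (-c1))) / ε := ⟨_, rfl⟩
  have x0 : 0 < x := by rw [hx]; positivity
  have hx' : C1 / (1 - Real.exp (-c1)) / x = ε / 3 := by rw [hx]; field_simp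
  have ε30 : 0 < ε / 30 := by positivity
  obtain ⟨u, hu, u0⟩ := ((g6_ev 0 C2 hα2 ε30).and (eventually_ge_atTop 0)).exists
  obtain ⟨δ, hδ⟩ : ∃ δ, δ = Real.exp (-u) := ⟨_, rfl⟩
  have δ0 : 0 < δ := hδ ▸ Real.exp_pos _
  have δ1 : δ ≤ 1 := hδ ▸ Real.exp_le_one_iff.mpr (neg_nonpos.mpr u0)
  have δ2 : C2 * δ ^ α2 ≤ ε / 30 := by
    rw [hδ, ← Real.exp_mul, neg_mul, mul_comm u]
    simpa using hu
  obtain ⟨t0, ht0, hg⟩ := ugZ w R δ0 δ1 (Real.exp_pos (4 * x)) ε30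
  obtain ⟨a, ha⟩ : ∃ a, a = 1 / (4 * (1 + α1)) := ⟨_, rfl⟩
  have a0 : 0 < a := by rw [ha]; positivity
  have a1 : a * (1 + α1) = 1 / 4 := by rw [ha]; field_simp
  have a2 : a ≤ 1 / 4 := by nlinarith
  refine ⟨x / (4 * t0), by positivity, ?_⟩
  filter_upwards [g6_ev 0 (C2 / δ) one_half_pos ε30,
    g6_ev (C2 / (2 * t0)) C2 (mul_pos a0 hα2) (by positivity : 0 < ε / 6),
    g6_ev (C2 / (2 * t0)) C2 (by norm_num : (0 : ℝ) < 1 / 4) (by positivity : 0 < ε / 6),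
    eventually_gt_atTop (8 * t0)] with t v1 v2 v3 v4
  have t1 : 0 < t := by linarith
  obtain ⟨k, hk⟩ : ∃ k : ℕ, k = ⌊t / (4 * t0)⌋₊ := ⟨_, rfl⟩
  have k1 : (k : ℝ) * (4 * t0) ≤ t := by
    rw [← le_div_iff₀ (by positivity), hk]
    exact Nat.floor_le (by positivity)
  have k2 : t / (4 * t0) < k + 1 := hk ▸ Nat.lt_floor_add_one _
  have k3 : 2 < t / (4 * t0) := by rw [lt_div_iff₀ (by positivity)]; linarith
  have k0 : 0 < k := by
    have : (0 : ℝ) < k := by linarith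
    exact_mod_cast this
  obtain ⟨T, hT⟩ : ∃ T : ℕ → ℝ, T = fun j : ℕ => t - 2 * k * t0 + j * t0 := ⟨_, rfl⟩
  have T1 : ∀ j, t / 2 ≤ T j := fun j => by
    have : 0 ≤ (j : ℝ) * t0 := by positivity
    simp only [hT]
    linarith
  have T2 : ∀ j, T (j + 1) = T j + t0 := fun j => by simp only [hT]; push_cast; ring
  have T3 : T (2 * k) = t := by simp only [hT]; push_cast; ring
  have T0 : ∀ j, 0 ≤ T j := fun j => by linarith [T1 j]
  obtain ⟨d, hdd⟩ : ∃ d, d = Real.exp (-(a * t)) := ⟨_, rfl⟩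
  have d0 : 0 < d := hdd ▸ Real.exp_pos _
  have d1 : d ≤ 1 := hdd ▸ Real.exp_le_one_iff.mpr (neg_nonpos.mpr (by positivity))
  have lp : ∀ z s, 0 < w.lev z s := w.lev_pos
  let X : ℕ → Set (Fin 3 → ℝ) := fun j =>
    {z ∈ ZR R | WV .L (w.E z) ∧ ¬ GoodAt δ .L (w.y z) (T j)} ∪
      {z ∈ ZR R | WV .L (w.E z) ∧ ¬ GoodAt δ .L (w.y z) (T (j + 1))} ∪
      {z ∈ ZR R | GoodAt δ .L (w.y z) (T j) ∧ GoodAt δ .L (w.y z) (T (j + 1)) ∧
        w.lev z (T (j + 1)) ≤ Real.exp (4 * x) * w.lev z (T j)}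
  let G : Set (Fin 3 → ℝ) := {z ∈ ZR R | ∀ j ≤ 2 * k, GoodAt d .L (w.y z) (T j)}
  let D : ℕ → (Fin 3 → ℝ) → ℝ := fun j z =>
    Real.log (w.lev z (T j)) - Real.log (w.lev z (T (j + 1)))
  have m1 : volume (⋃ j ∈ Finset.range (2 * k + 1),
      {z ∈ ZR R | WV .L (w.E z) ∧ ¬ GoodAt d .L (w.y z) (T j)}) ≤ ENNReal.ofReal (ε / 3) := by
    have h1 : ∀ j ∈ Finset.range (2 * k + 1),
        volume {z ∈ ZR R | WV .L (w.E z) ∧ ¬ GoodAt d .L (w.y z) (T j)} ≤
          ENNReal.ofReal (C2 * (Real.exp (-(a * α2 * t)) + Real.exp (-(1 / 4 * t)))) := fun j _ => by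
      refine (hn d (T j) d0 d1).trans (ENNReal.ofReal_le_ofReal
        (mul_le_mul_of_nonneg_left (add_le_add (le_of_eq ?_) ?_) hC2.le))
      · rw [hdd, ← Real.exp_mul]
        congr 1
        ring
      · rw [hdd, ← Real.exp_sub, Real.exp_le_exp]
        nlinarith [T1 j]
    refine (measure_biUnion_finset_le _ _).trans ((Finset.sum_le_card_nsmul _ _ _ h1).trans ?_)
    rw [Finset.card_range, nsmul_eq_mul, ← ENNReal.ofReal_natCast,
      ← ENNReal.ofReal_mul (Nat.cast_nonneg _)]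
    refine ENNReal.ofReal_le_ofReal ?_
    have h2 : ((2 * k + 1 : ℕ) : ℝ) * C2 ≤ C2 / (2 * t0) * t + C2 := by
      have h3 : 2 * (k : ℝ) ≤ t / (2 * t0) := by rw [le_div_iff₀ (by positivity)]; linarith
      have h4 := mul_le_mul_of_nonneg_left h3 hC2.le
      have h5 : C2 / (2 * t0) * t = C2 * (t / (2 * t0)) := by ring
      push_cast
      linarith
    have h3 := mul_le_mul_of_nonneg_right h2 (Real.exp_pos (-(a * α2 * t))).le
    have h4 := mul_le_mul_of_nonneg_right h2 (Real.exp_pos (-(1 / 4 * t))).le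
    linarith
  have m2 : volume {z ∈ G | x * (2 * k : ℕ) < ∑ j ∈ Finset.range (2 * k), max (D j z) 0} ≤
      ENNReal.ofReal (ε / 3) := by
    rw [← hx']
    refine sum_tail volume D (fun j => (meas_lev w _).log.sub (meas_lev w _).log) G ?_ hC1 hc1 _
      (fun j hj n => ?_) x0
    · refine ((meas_ZR R).inter (MeasurableSet.iInter fun j => MeasurableSet.iInter
        fun _ : j ≤ 2 * k => (continuous_y w).measurable (meas_goodAt d .L (T j)))).congr ?_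
      ext z
      simp [G]
    · refine le_trans (measure_mono fun z hz => ?_) (hd d (T j) (T (j + 1)) n d0 d1 (T0 j)
        (by rw [T2]; linarith) (Nat.cast_nonneg n) ?_)
      · refine ⟨hz.1.1, hz.1.2 j hj.le, hz.1.2 (j + 1) hj, ?_⟩
        rw [← Real.log_le_log_iff (lp _ _) (mul_pos (Real.exp_pos _) (lp _ _)),
          Real.log_mul (Real.exp_pos _).ne' (lp _ _).ne', Real.log_exp]
        have : (n : ℝ) ≤ Real.log (w.lev z (T j)) - Real.log (w.lev z (T (j + 1))) := hz.2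
        linarith
      · rw [hdd, ← Real.exp_mul, Real.exp_le_exp]
        have : -(a * t) * (1 + α1) = -(t / 4) := by linear_combination -t * a1
        linarith [T1 j]
  have m3 : volume {z | k ≤ (@Finset.filter _ (fun j => z ∈ X j)
      (fun _ => Classical.propDecidable _) (Finset.range (2 * k))).card} ≤
      ENNReal.ofReal (ε / 3) := by
    have h1 : ∀ j, volume {z ∈ ZR R | WV .L (w.E z) ∧ ¬ GoodAt δ .L (w.y z) (T j)} ≤
        ENNReal.ofReal (ε / 15) := fun j => by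
      refine (hn δ (T j) δ0 δ1).trans (ENNReal.ofReal_le_ofReal ?_)
      have h2 : Real.exp (-T j) ≤ Real.exp (-(1 / 2 * t)) :=
        Real.exp_le_exp.mpr (by linarith [T1 j])
      have h3 := mul_le_mul_of_nonneg_left h2 (by positivity : 0 ≤ C2 / δ)
      have h4 : C2 * (δ ^ α2 + Real.exp (-T j) / δ) =
          C2 * δ ^ α2 + C2 / δ * Real.exp (-T j) := by ring
      rw [zero_mul, zero_add] at v1
      linarith
    have h2 := count_bad volume X (fun j => ((g6_meas w R δ _).union (g6_meas w R δ _)).union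
      (g6_meas' w R δ _ _ _)) (2 * k) k (ENNReal.ofReal (ε / 6)) fun j _ => by
        refine (measure_union_le _ _).trans ((add_le_add ((measure_union_le _ _).trans
          (add_le_add (h1 j) (h1 (j + 1)))) (hg _ _ (T0 j) (T2 j).ge)).trans ?_)
        rw [← ENNReal.ofReal_add (by positivity) (by positivity),
          ← ENNReal.ofReal_add (by positivity) (by positivity)]
        exact ENNReal.ofReal_le_ofReal (by linarith)
    have h3 : ((2 * k : ℕ) : ℝ≥0∞) * ENNReal.ofReal (ε / 6) = k * ENNReal.ofReal (ε / 3) := by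
      rw [show ε / 3 = 2 * (ε / 6) by ring, ENNReal.ofReal_mul zero_le_two, ENNReal.ofReal_ofNat]
      push_cast
      ring
    rw [h3] at h2
    exact (ENNReal.mul_le_mul_iff_right (by exact_mod_cast k0.ne') (ENNReal.natCast_ne_top k)).mp h2
  refine ⟨T 0, T1 0, le_trans (measure_mono fun z hz => ?_) (((measure_union_le _ _).trans
    (add_le_add ((measure_union_le _ _).trans (add_le_add m1 m2)) m3)).trans ?_)⟩
  swap
  · rw [← ENNReal.ofReal_add (by positivity) (by positivity),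
      ← ENNReal.ofReal_add (by positivity) (by positivity)]
    exact ENNReal.ofReal_le_ofReal (by linarith)
  obtain ⟨z1, z2, z3⟩ := hz
  by_contra hc
  simp only [Set.mem_union, not_or] at hc
  obtain ⟨⟨n1, n2⟩, n3⟩ := hc
  have hG : z ∈ G := ⟨z1, fun j hj => by_contra fun h => n1
    (Set.mem_biUnion (Finset.mem_coe.mpr (Finset.mem_range.mpr (Nat.lt_succ_of_le hj)))
      ⟨z1, z2, h⟩)⟩
  have key := g6_det (L := fun j => Real.log (w.lev z (T j))) x0.le (fun j => z ∈ X j)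
    (fun j _ h => ?_) (not_le.mp n3).le
    (not_lt.mp fun h => n2 ⟨hG, h⟩)
  · have h1 := Real.log_le_log (lp z t) z3
    rw [Real.log_mul (Real.exp_pos _).ne' (lp _ _).ne', Real.log_exp] at h1
    simp only [T3] at key
    have h2 : x / (4 * t0) * t = x * (t / (4 * t0)) := by ring
    nlinarith
  · have g1 : GoodAt δ .L (w.y z) (T j) := by_contra fun g => h (.inl (.inl ⟨z1, z2, g⟩))
    have g2 : GoodAt δ .L (w.y z) (T (j + 1)) := by_contra fun g => h (.inl (.inr ⟨z1, z2, g⟩))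
    have g3 := Real.log_le_log (mul_pos (Real.exp_pos _) (lp _ _))
      (not_le.mp fun g => h (.inr ⟨z1, g1, g2, g⟩)).le
    rw [Real.log_mul (Real.exp_pos _).ne' (lp _ _).ne', Real.log_exp] at g3
    linarith

theorem lgZ (w : Par) (R : ℝ) {ε : ℝ} (hε : 0 < ε) : ∃ c : ℝ, 0 < c ∧ ∀ᶠ t in atTop,
    volume {z ∈ ZR R | WV .L (w.E z) ∧ w.lev z t ≤ Real.exp (c * t)} ≤ ENNReal.ofReal ε := by
  have e4 : 0 < ε / 4 := by positivity
  obtain ⟨c, hc, h0⟩ := lgZ0 w R e4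
  obtain ⟨C2, α, hC2, hα, hn⟩ := ndivZ w R
  obtain ⟨C3, hC3, h3⟩ := nd0 w R
  obtain ⟨δ, δ0, δ1, δ2⟩ := g6a_delta hC2 hα e4
  refine ⟨c / 2, by positivity, ?_⟩
  filter_upwards [h0, g6_ev 0 (C2 / δ) one_half_pos e4, g6_ev 0 (C3 / δ ^ 4) hc e4,
    eventually_ge_atTop 0] with t ⟨s, hs, v0⟩ v1 v2 t0
  rw [zero_mul, zero_add] at v1 v2
  have m1 : volume {z ∈ ZR R | WV .L (w.E z) ∧ ¬ GoodAt δ .L (w.y z) s} ≤
      ENNReal.ofReal (ε / 2) := by
    refine (hn δ s δ0 δ1).trans (ENNReal.ofReal_le_ofReal ?_)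
    have h2 : Real.exp (-s) ≤ Real.exp (-(1 / 2 * t)) := Real.exp_le_exp.mpr (by linarith)
    have h3 := mul_le_mul_of_nonneg_left h2 (by positivity : 0 ≤ C2 / δ)
    have h4 : C2 * (δ ^ α + Real.exp (-s) / δ) = C2 * δ ^ α + C2 / δ * Real.exp (-s) := by ring
    linarith
  have m2 := (h3 δ s (Real.exp (-(c / 2 * t))) δ0 δ1 (by linarith) (Real.exp_pos _)).trans
    (ENNReal.ofReal_le_ofReal (le_trans (le_of_eq (by
      rw [← Real.exp_nat_mul]
      congr 2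
      push_cast
      ring)) v2))
  refine le_trans (measure_mono fun z hz => ?_) (((measure_union_le _ _).trans
    (add_le_add ((measure_union_le _ _).trans (add_le_add v0 m1)) m2)).trans ?_)
  · obtain ⟨z1, z2, z3⟩ := hz
    by_cases g : GoodAt δ .L (w.y z) s
    · rcases le_total (w.lev z s) (Real.exp (-(c / 2 * t))) with k | k
      · exact .inr ⟨z1, g, k⟩
      · refine .inl (.inl ⟨z1, z2, z3.trans (le_trans (le_of_eq ?_)
          (mul_le_mul_of_nonneg_left k (Real.exp_pos _).le))⟩)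
        rw [← Real.exp_add]
        congr 1
        ring
    · exact .inl (.inr ⟨z1, z2, g⟩)
  · rw [← ENNReal.ofReal_add (by positivity) (by positivity),
      ← ENNReal.ofReal_add (by positivity) (by positivity)]
    exact ENNReal.ofReal_le_ofReal (by linarith)

end Pool.Agent.TW.G
end
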