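import Pool.Agent.Lib.MP_4eaecc_an.W2
import Pool.Agent.Lib.MP_4eaecc_an.A1
import Pool.Agent.Lib.MP_4eaecc_an.W7a
import Pool.Agent.Lib.MP_4eaecc_an.W7b
import Pool.Agent.Lib.MP_4eaecc_an.U1
import Pool.Agent.Lib.MP_4eaecc_an.N1a
import Pool.Agent.Lib.MP_4eaecc_an.XO1
import Pool.Agent.Lib.MP_4eaecc_an.G3

-- part Pool.Agent.Lib.MP_4eaecc_an.W7
section

/-! The closed forms of a point of the cell. -/

namespace Pool.Agent.TW

open Matrix MeasureTheory Filter Topology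
open scoped ENNReal NNReal

theorem w7_tr {S S' : Raw × (Fin 18 → Z4)} (h : Relation.ReflTransGen LM S S') (hL : Lab S) :
    Lab S' ∧ ∃ Φ, TR S S' Φ := by
  induction h with
  | refl => exact ⟨hL, id, TR.refl _⟩
  | tail _ k ih =>
    obtain ⟨h1, Φ, h2⟩ := ih
    obtain ⟨h3, Ψ, h4⟩ := tr_of_lm k h1
    exact ⟨h3, _, h2.trans h4⟩

theorem w7_phi (y : Pt) (P : Mat) : ∃ Φ : Sf → Sf, Measurable Φ ∧
    (Reach y P → TR (raw y, al0) (raw (acP P y), fun e => al0 e ᵥ* P) Φ) := by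
  by_cases h : Reach y P
  · obtain ⟨-, Φ, k⟩ := w7_tr (chain h) (lab_raw y)
    exact ⟨Φ, k.1.measurable, fun _ => k⟩
  · exact ⟨id, measurable_id, fun k => (h k).elim⟩

theorem w7_pc : Measurable fun x : Sf => pc x.1 := (measurable_of_finite pc).comp measurable_fst

theorem w7_ms (i : Fin 3) : MeasurableSet {x : Sf | pc x.1 = i} :=
  w7_pc (measurableSet_singleton i)

/-- A measurable representative on the other side of a transport. -/
theorem w7_rep {S S' : Raw × (Fin 18 → Z4)} {Φ : Sf → Sf} (h : TR S S' Φ)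
    {p : (Sf → ℝ × ℝ) × V} (hp : p ∈ Frm S) :
    ∃ G, Measurable G ∧ (G, p.2) ∈ Frm S' ∧ p.1 =ᵐ[mT S.1] G ∘ Φ := by
  obtain ⟨G, ⟨f, hf, e⟩, k⟩ := h.2.2 p hp
  exact ⟨_, (measurable_wh _ _).add (measurable_gr f), ⟨f, hf, .rfl⟩,
    k.trans (h.1.quasiMeasurePreserving.ae_eq e)⟩

theorem w7_ip {G : Sf → ℝ × ℝ} (hG : Measurable G) (v : ℝ × ℝ) :
    Measurable fun x => ip (G x) v := by
  unfold ip
  fun_prop

theorem w7_ae {m m' : Measure Sf} {Φ : Sf → Sf} (h : MeasurePreserving Φ m m') {i : Fin 3}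
    {q : Sf → Prop} (hq : MeasurableSet {x | q x})
    (k : ∀ᵐ x ∂m, pc (Φ x).1 = i → q (Φ x)) : ∀ᵐ x ∂m', pc x.1 = i → q x := by
  rw [← h.map_eq]
  refine (ae_map_iff h.measurable.aemeasurable ?_).2 k
  convert (w7_ms i).compl.union hq using 1
  ext x
  simp only [Set.mem_ofPred_eq, Set.mem_union, Set.mem_compl_iff]
  tauto

theorem wc_exists {y : Pt} (h : y ∈ Cell) : Nonempty (WC y) := by
  choose Φ hm hΦ using w7_phi y
  have hT : IsTri (raw y, al0).1 := isTri_raw h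
  refine ⟨{
    m := mT (raw y)
    F := { carrier := Frm (raw y, al0)
           add_mem' := fun ha hb => by simpa using Frm_lin hT ha hb 1 1
           zero_mem' := by simpa using Frm_lin hT (wh_Frm _ 0) (wh_Frm _ 0) 0 0
           smul_mem' := fun c _ ha => by simpa using Frm_lin hT ha ha c 0 }
    C := fun P x => pc (Φ P x).1
    fin := finite_mT hT
    bdd := fun p ⟨f, hf, e⟩ => ((memLp_wh _ _).add (memLp_gr hf.1)).ae_eq e.symm
    Q := fun p hp q hq => Q_raw h hp hq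
    Cm := fun P => w7_pc.comp (hm P)
    Ca := fun P hP i => ?_
    whit := fun P hP a => ?_
    L1 := fun P hP p hp i e he K hK => ?_
    L2 := fun P hP p hp h0 => ?_ }⟩
  · rw [← area_raw hP.cell i]
    exact (hΦ P hP).1.measureReal_preimage (w7_ms i).nullMeasurableSet
  · have := (hΦ P hP).2.1 _ (wh_Frm _ a)
    simp only [Function.comp_def, funext (wh_raw (acP P y) P a)] at this
    exact this
  · obtain ⟨G, g1, g2, g3⟩ := w7_rep (hΦ P hP) hp
    refine L1_raw hP.cell P g2 i e he K (w7_ae (hΦ P hP).1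
      (measurableSet_le (w7_ip g1 _).abs measurable_const) ?_)
    filter_upwards [hK, g3] with x k1 k2
    rwa [k2] at k1
  · obtain ⟨G, g1, g2, g3⟩ := w7_rep (hΦ P hP) hp
    have e := L2_raw hP.cell P g2 (w7_ae (hΦ P hP).1
      (measurableSet_eq_fun (w7_ip g1 _) measurable_const) (by
        filter_upwards [h0, g3] with x k1 k2
        rwa [k2] at k1))
    refine e.trans ?_
    have e2 := (hΦ P hP).1.map_eq
    simp only at e2
    rw [← e2, setIntegral_map (w7_ms 2) (w7_ip g1 _).aestronglyMeasurable (hm P).aemeasurable]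
    refine integral_congr_ae (ae_restrict_of_ae ?_)
    filter_upwards [g3] with x k
    rw [k]
    rfl

end Pool.Agent.TW
end

-- part Pool.Agent.Lib.MP_4eaecc_an.G1
section

/-! Local finiteness. -/

namespace Pool.Agent.TW

open Matrix MeasureTheory Filter Topology
open scoped ENNReal NNReal

theorem g1_ip (p q : ℝ × ℝ) : |ip p q| ≤ 2 * ‖p‖ * ‖q‖ := by
  have a1 : |p.1| ≤ ‖p‖ := norm_fst_le p
  have a2 : |p.2| ≤ ‖p‖ := norm_snd_le p
  have a3 : |q.1| ≤ ‖q‖ := norm_fst_le q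
  have a4 : |q.2| ≤ ‖q‖ := norm_snd_le q
  calc |ip p q| ≤ |p.1 * q.1| + |p.2 * q.2| := abs_add_le _ _
    _ = |p.1| * |q.1| + |p.2| * |q.2| := by rw [abs_mul, abs_mul]
    _ ≤ ‖p‖ * ‖q‖ + ‖p‖ * ‖q‖ := by gcongr
    _ = _ := by ring

theorem g1_grad {K : Set Pt} (hK : IsCompact K) (hc : K ⊆ Cell) : ∃ C : ℝ, 0 < C ∧
    ∀ y ∈ K, ∀ i j, ‖grad y i (Pi.single j 1)‖ ≤ C := by
  have h : ContinuousOn (fun (y : Pt) (q : Fin 3 × Fin 4) => grad y q.1 (Pi.single q.2 1)) K := by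
    refine continuousOn_pi.2 fun q => ?_
    have h0 : Continuous fun y : Pt => ar y q.1 := by
      unfold ar vec dt
      fun_prop
    refine ContinuousOn.prodMk (ContinuousOn.div ?_ h0.continuousOn fun y hy => (hc hy _).ne')
      (ContinuousOn.div ?_ h0.continuousOn fun y hy => (hc hy _).ne') <;> fun_prop
  obtain ⟨C, hC⟩ := hK.exists_bound_of_continuousOn h
  refine ⟨max C 1, by positivity, fun y hy i j => ?_⟩
  exact ((norm_le_pi_norm (fun q : Fin 3 × Fin 4 => grad y q.1 (Pi.single q.2 1)) (i, j)).trans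
    (hC y hy)).trans (le_max_left _ _)

theorem g1_rows (P : Mat) : eR .L 0 ᵥ* P = P 0 ∧ eR .L 1 ᵥ* P = P 1 ∧ eL .L 0 ᵥ* P = P 2 ∧
    eL .L 2 ᵥ* P = P 3 ∧ dg .L 0 ᵥ* P = P 0 + P 2 := by
  refine ⟨?_, ?_, ?_, ?_, ?_⟩ <;> funext j <;>
    simp [eR, eL, dg, vecMul, dotProduct, Fin.sum_univ_four]

/-- Apply `L1` to the piecewise constant forms of the basis cocycles. -/
theorem loc_fin {K : Set Pt} (hK : IsCompact K) (hc : K ⊆ Cell) : ∃ C : ℝ, 0 < C ∧
    ∀ y ∈ K, ∀ P, Reach y P → ∀ (i : Fin 3) (e : Z4), (e = eR .L i ∨ e = eL .L i ∨ e = dg .L i) →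
      ∀ j, |((e ᵥ* P) j : ℝ)| ≤ C * ‖hol y (e ᵥ* P)‖ := by
  obtain ⟨C, hC0, hC⟩ := g1_grad hK hc
  refine ⟨2 * C, by positivity, fun y hy P hP i e he j => ?_⟩
  obtain ⟨W⟩ := wc_exists (hc hy)
  have h := W.L1 P hP _ (W.whit 1 (Reach.refl (hc hy)) (Pi.single j 1)) i e he
    (2 * C * ‖hol y (e ᵥ* P)‖) (Eventually.of_forall fun x _ => ?_)
  · rw [← ev_vecMul] at h
    simpa [ev, Pi.single_apply] using h
  · simp only [acP_one, ac_one, hol_acP]
    refine (g1_ip _ _).trans ?_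
    gcongr
    exact hC y hy _ _

theorem mb_reach {K : Set Pt} (hK : IsCompact K) (hc : K ⊆ Cell) : ∃ C : ℝ, 0 < C ∧
    ∀ y ∈ K, ∀ P, Reach y P → Mb P (C * ‖acP P y‖) := by
  obtain ⟨C, hC0, hC⟩ := loc_fin hK hc
  refine ⟨C, hC0, fun y hy P hP i j => ?_⟩
  have h1 : ‖hol y (P i)‖ ≤ ‖acP P y‖ := by
    rw [← vec_acP]
    exact max_le_max (norm_le_pi_norm (acP P y).1 i) (norm_le_pi_norm (acP P y).2 i)
  obtain ⟨r0, r1, r2, r3, -⟩ := g1_rows P
  refine le_trans ?_ (mul_le_mul_of_nonneg_left h1 hC0.le)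
  have a0 := hC y hy P hP 0 _ (Or.inl rfl) j
  have a1 := hC y hy P hP 1 _ (Or.inl rfl) j
  have a2 := hC y hy P hP 0 _ (Or.inr (Or.inl rfl)) j
  have a3 := hC y hy P hP 2 _ (Or.inr (Or.inl rfl)) j
  rw [r0] at a0
  rw [r1] at a1
  rw [r2] at a2
  rw [r3] at a3
  fin_cases i
  exacts [a0, a1, a2, a3]

theorem min_len {K : Set Pt} (hK : IsCompact K) (hc : K ⊆ Cell) : ∃ c : ℝ, 0 < c ∧
    ∀ y ∈ K, ∀ L, ∀ e ∈ Ecl y L, c ≤ ‖hol y e‖ := by
  obtain ⟨C, hC0, hC⟩ := loc_fin hK hc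
  refine ⟨C⁻¹, by positivity, fun y hy L e ⟨P, hP, _, he⟩ => ?_⟩
  have key : ∀ (i : Fin 3) (f : Z4), (f = eR .L i ∨ f = eL .L i ∨ f = dg .L i) → f ≠ 0 →
      C⁻¹ ≤ ‖hol y (f ᵥ* P)‖ := fun i f hf h0 => by
    have h1 : f ᵥ* P ≠ 0 := fun h => h0 (by
      rw [← vecMul_one f, ← hP.symp.mul_sinv, ← vecMul_vecMul, h, zero_vecMul])
    obtain ⟨j, hj⟩ := Function.ne_iff.1 h1
    have h2 : (1 : ℝ) ≤ |((f ᵥ* P) j : ℝ)| := by exact_mod_cast Int.one_le_abs hj
    rw [inv_le_iff_one_le_mul₀' hC0]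
    exact h2.trans (hC y hy P hP i f hf j)
  obtain ⟨r0, -, -, r3, r4⟩ := g1_rows P
  rcases he with rfl | ⟨rfl, -⟩ | ⟨rfl, -⟩
  · rw [← r0]
    exact key 0 _ (Or.inl rfl) (by decide)
  · rw [← r3]
    exact key 2 _ (Or.inr (Or.inl rfl)) (by decide)
  · rw [← r4]
    exact key 0 _ (Or.inr (Or.inr rfl)) (by decide)

theorem mult_le {K : Set Pt} (hK : IsCompact K) (hc : K ⊆ Cell) : ∃ C : ℕ,
    ∀ x, {P | Reach x P ∧ acP P x ∈ K}.encard ≤ C := by
  obtain ⟨C, hC0, hC⟩ := mb_reach hK hc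
  obtain ⟨R, hR⟩ := hK.isBounded.exists_norm_le
  refine ⟨{P : Mat | Mb P (C * R)}.ncard, fun x => ?_⟩
  rcases {P | Reach x P ∧ acP P x ∈ K}.eq_empty_or_nonempty with h | ⟨P0, h0, k0⟩
  · simp [h]
  rw [(finite_mb (C * R)).cast_ncard_eq]
  refine Set.encard_le_encard_of_injOn (f := fun P => P * sinv P0) (fun P hP i j => ?_)
    fun P _ Q _ h => ?_
  · have e : acP (sinv P0) (acP P0 x) = x := by rw [← acP_mul, h0.symp.sinv_mul, acP_one]
    have h1 : Reach (acP P0 x) (P * sinv P0) := h0.inv.trans (by rw [e]; exact hP.1)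
    refine (hC _ k0 _ h1 i j).trans (mul_le_mul_of_nonneg_left ?_ hC0.le)
    rw [acP_mul, e]
    exact hR _ hP.2
  · have := congrArg (· * P0) h
    simpa only [Matrix.mul_assoc, h0.symp.sinv_mul, Matrix.mul_one] using this

end Pool.Agent.TW
end

-- part Pool.Agent.Lib.MP_4eaecc_an.E3
section

/-! The quadratic count. -/

namespace Pool.Agent.TW

open Matrix MeasureTheory Filter Topology
open scoped ENNReal NNReal

theorem e3_pack {α ι : Type} [MeasurableSpace α] (m : Measure α) [IsFiniteMeasure m]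
    (u : Finset ι) (A : ι → Set α) {a : ℝ} (hA : ∀ i ∈ u, MeasurableSet (A i))
    (hd : ∀ i ∈ u, ∀ j ∈ u, i ≠ j → m (A i ∩ A j) = 0) (ha : ∀ i ∈ u, a ≤ m.real (A i)) :
    (u.card : ℝ) * a ≤ m.real Set.univ := by
  have h1 : m (⋃ i ∈ u, A i) = ∑ i ∈ u, m (A i) :=
    measure_biUnion_finset₀ (fun i hi j hj hij => hd i hi j hj hij)
      (fun i hi => (hA i hi).nullMeasurableSet)
  have h2 : m.real (⋃ i ∈ u, A i) = ∑ i ∈ u, m.real (A i) := by
    rw [Measure.real, h1, ENNReal.toReal_sum (fun i _ => measure_ne_top m _)]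
    rfl
  calc (u.card : ℝ) * a = ∑ _i ∈ u, a := by rw [Finset.sum_const, nsmul_eq_mul]
    _ ≤ ∑ i ∈ u, m.real (A i) := Finset.sum_le_sum ha
    _ = m.real (⋃ i ∈ u, A i) := h2.symm
    _ ≤ _ := measureReal_mono (Set.subset_univ _)

theorem e3_split2 {ι : Type} (s : Finset ι) (p q : ι → Prop) {B1 B2 : ℝ}
    (h : ∀ i ∈ s, p i ∨ q i) (h1 : ∀ u ⊆ s, (∀ i ∈ u, p i) → (u.card : ℝ) ≤ B1)
    (h2 : ∀ u ⊆ s, (∀ i ∈ u, q i) → (u.card : ℝ) ≤ B2) : (s.card : ℝ) ≤ B1 + B2 := by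
  classical
  have e := Finset.card_filter_add_card_filter_not (s := s) p
  have a1 := h1 (s.filter p) (Finset.filter_subset _ _) (fun i hi => (Finset.mem_filter.1 hi).2)
  have a2 := h2 (s.filter (fun i => ¬ p i)) (Finset.filter_subset _ _)
    (fun i hi => (h i (Finset.mem_filter.1 hi).1).resolve_left (Finset.mem_filter.1 hi).2)
  rw [← e]
  push_cast
  linarith

theorem e3_split3 {ι : Type} (s : Finset ι) (p q r : ι → Prop) {B1 B2 B3 : ℝ}
    (h : ∀ i ∈ s, p i ∨ q i ∨ r i) (h1 : ∀ u ⊆ s, (∀ i ∈ u, p i) → (u.card : ℝ) ≤ B1)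
    (h2 : ∀ u ⊆ s, (∀ i ∈ u, q i) → (u.card : ℝ) ≤ B2)
    (h3 : ∀ u ⊆ s, (∀ i ∈ u, r i) → (u.card : ℝ) ≤ B3) : (s.card : ℝ) ≤ B1 + (B2 + B3) := by
  refine e3_split2 s p (fun i => q i ∨ r i) h h1 (fun u hu hq => ?_)
  exact e3_split2 u q r hq (fun v hv => h2 v (hv.trans hu)) (fun v hv => h3 v (hv.trans hu))

theorem e3_of_ty {p : Mat → Prop} {B : ℝ}
    (H : ∀ s : Finset Mat, (∀ P ∈ s, p P) → ((s.image ty).card : ℝ) ≤ B)
    (u : Finset (Z4 × Mat)) (hu : ∀ π ∈ u, ∃ P, p P ∧ ty P = π) : (u.card : ℝ) ≤ B := by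
  choose! R hR using hu
  refine le_trans ?_ (H (u.image R) ?_)
  · have : u ⊆ (u.image R).image ty := fun π hπ =>
      Finset.mem_image.2 ⟨R π, Finset.mem_image_of_mem _ hπ, (hR π hπ).2⟩
    exact_mod_cast Finset.card_le_card this
  · intro P hP
    obtain ⟨π, hπ, rfl⟩ := Finset.mem_image.1 hP
    exact (hR π hπ).1

theorem e3_grp {ι κ : Type} [DecidableEq κ] (s : Finset ι) (par : ι → κ) (ν : κ → ℝ)
    {c C0 C1 L a b : ℝ} (hc : 0 < c) (h0 : 0 ≤ C0) (h1 : 0 ≤ C1) (hL : 0 ≤ L) (ha : 0 ≤ a)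
    (hb : 0 ≤ b) (hν : ∀ i ∈ s, c ≤ ν (par i) ∧ ν (par i) ≤ L)
    (hN : ∀ x, 0 ≤ x → ∀ u ⊆ s.image par, (∀ π ∈ u, ν π ≤ x) → (u.card : ℝ) ≤ C0 * x ^ 2 + C1)
    (hf : ∀ π ∈ s.image par, ((s.filter (fun i => par i = π)).card : ℝ) ≤ a / ν π + b) :
    (s.card : ℝ) ≤ a * (8 * C0 * L + 4 * C1 / c) + b * (C0 * L ^ 2 + C1) := by
  have hν' : ∀ π ∈ s.image par, c ≤ ν π ∧ ν π ≤ L := by
    intro π hπ
    obtain ⟨i, hi, rfl⟩ := Finset.mem_image.1 hπ
    exact hν i hi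
  have e1 := sum_inv (s.image par) ν hc h0 h1 hL hν' hN
  have e2 := hN L hL _ subset_rfl (fun π hπ => (hν' π hπ).2)
  calc (s.card : ℝ) = ∑ π ∈ s.image par, ((s.filter (fun i => par i = π)).card : ℝ) := by
        rw [Finset.card_eq_sum_card_image par s]
        push_cast
        rfl
    _ ≤ ∑ π ∈ s.image par, (a / ν π + b) := Finset.sum_le_sum hf
    _ = a * ∑ π ∈ s.image par, (ν π)⁻¹ + b * (s.image par).card := by
        rw [Finset.sum_add_distrib, Finset.mul_sum, Finset.sum_const, nsmul_eq_mul, mul_comm b]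
        rfl
    _ ≤ _ := add_le_add (mul_le_mul_of_nonneg_left e1 ha) (mul_le_mul_of_nonneg_left e2 hb)

theorem e3_area_pos {y : Pt} (h : y ∈ Cell) : 0 < area y := by
  rw [area_eq]
  have h0 := h 0
  have h1 := h 1
  have h2 := h 2
  linarith

theorem e3_ar0 (P : Mat) (y : Pt) : ar (acP P y) 0 = dt (hol y (P 0)) (hol y (P 2)) := rfl

theorem e3_ar1 (P : Mat) (y : Pt) : ar (acP P y) 1 = dt (hol y (P 1)) (hol y (P 2)) := rfl

theorem e3_ar2 (P : Mat) (y : Pt) : ar (acP P y) 2 = dt (hol y (P 0)) (hol y (P 3)) := rfl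

theorem e3_hol_add (y : Pt) (e f : Z4) : hol y (e + f) = hol y e + hol y f := by
  simp [hol, add_ev]

theorem e3_hol_neg (y : Pt) (e : Z4) : hol y (-e) = -hol y e := by
  simp [hol, neg_ev]

theorem e3_hol_smul (y : Pt) (n : ℤ) (e : Z4) : hol y (n • e) = (n : ℝ) • hol y e := by
  simp only [hol, ev_four, Pi.smul_apply, smul_eq_mul, Prod.smul_mk, Prod.mk.injEq]
  push_cast
  constructor <;> ring

theorem e3_rho0 (Q : Mat) : (rho * Q) 0 = Q 2 := by
  funext j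
  simp [rho, Matrix.mul_apply, Fin.sum_univ_four]

theorem e3_rho3 (Q : Mat) : (rho * Q) 3 = -Q 1 := by
  funext j
  simp [rho, Matrix.mul_apply, Fin.sum_univ_four]

theorem e3_rho_ar (Q : Mat) (y : Pt) : ar (acP (rho * Q) y) 2 = ar (acP Q y) 1 := by
  rw [e3_ar2, e3_ar1, e3_rho0, e3_rho3, e3_hol_neg]
  simp only [dt, Prod.fst_neg, Prod.snd_neg]
  ring

theorem e3_reach_rho {y : Pt} {Q : Mat} (h : Reach y Q) : Reach y (rho * Q) :=
  h.trans (reach_free h.cell (Or.inl rfl))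

theorem e3_core_ne {y : Pt} {P : Mat} (h : Reach y P) : hol y (P 0) ≠ 0 := by
  intro e
  have h0 := h.cell 0
  rw [e3_ar0, e] at h0
  simp [dt] at h0

theorem e3_core_mem {y : Pt} {P : Mat} (h : Reach y P) : P 0 ∈ Ecl y ‖hol y (P 0)‖ :=
  ⟨P, h, le_rfl, Or.inl rfl⟩

theorem e3_dbl {y : Pt} {P : Mat} (h : Reach y P) (e : Dbl y P) :
    ∃ μ : ℝ, 1 < μ ∧ hol y (P 0 + P 1) = μ • hol y (P 0) := by
  have h0 := h.cell 0
  have h1 := h.cell 1
  rw [e3_ar0] at h0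
  rw [e3_ar1] at h1
  rw [Dbl] at e
  rw [e3_hol_add]
  generalize hol y (P 0) = a at *
  generalize hol y (P 1) = b at *
  generalize hol y (P 2) = l at *
  refine ⟨1 + dt b l / dt a l, by linarith [div_pos h1 h0], ?_⟩
  have k1 : b.1 * dt a l = dt b l * a.1 := by
    simp only [dt] at e ⊢
    linear_combination l.1 * e
  have k2 : b.2 * dt a l = dt b l * a.2 := by
    simp only [dt] at e ⊢
    linear_combination l.2 * e
  ext
  · simp only [Prod.fst_add, Prod.smul_fst, smul_eq_mul]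
    field_simp
    linarith
  · simp only [Prod.snd_add, Prod.smul_snd, smul_eq_mul]
    field_simp
    linarith

theorem e3_meas {y : Pt} (W : WC y) (P : Mat) : MeasurableSet {x | W.C P x = 2} :=
  W.Cm P (measurableSet_singleton 2)

theorem e3_int_count {v g : ℝ × ℝ} (hg : g ≠ 0) {L : ℝ} (hL : 0 ≤ L) (s : Finset ℤ)
    (h : ∀ n ∈ s, ‖v + (n : ℝ) • g‖ ≤ L) : (s.card : ℝ) ≤ 2 * L / ‖g‖ + 1 := by
  have hg0 : 0 < ‖g‖ := norm_pos_iff.2 hg
  have hq : 0 ≤ 2 * L / ‖g‖ := by positivity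
  rcases s.eq_empty_or_nonempty with rfl | hne
  · simp only [Finset.card_empty, Nat.cast_zero]
    linarith
  set n0 := s.min' hne with hn0
  set F := ⌊2 * L / ‖g‖⌋₊ with hF
  have hsub : s ⊆ Finset.Icc n0 (n0 + F) := by
    intro n hn
    have h1 : n0 ≤ n := s.min'_le n hn
    refine Finset.mem_Icc.2 ⟨h1, ?_⟩
    have h2 : ‖((n - n0 : ℤ) : ℝ) • g‖ ≤ 2 * L := by
      have : ((n - n0 : ℤ) : ℝ) • g = (v + (n : ℝ) • g) - (v + (n0 : ℝ) • g) := by
        push_cast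
        rw [sub_smul]
        abel
      rw [this]
      have a1 := h n hn
      have a2 := h n0 (s.min'_mem hne)
      linarith [norm_sub_le (v + (n : ℝ) • g) (v + (n0 : ℝ) • g)]
    obtain ⟨d, hd⟩ := Int.eq_ofNat_of_zero_le (sub_nonneg.2 h1)
    rw [hd, norm_smul, Int.cast_natCast, Real.norm_natCast] at h2
    have h3 : d ≤ F := Nat.le_floor ((le_div_iff₀ hg0).2 h2)
    omega
  have h4 := Finset.card_le_card hsub
  rw [Int.card_Icc] at h4
  have h5 : (n0 + F + 1 - n0).toNat = F + 1 := by omega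
  rw [h5] at h4
  have h6 : (s.card : ℝ) ≤ F + 1 := by exact_mod_cast h4
  linarith [Nat.floor_le hq]

theorem count_big : ∃ C : ℝ, 0 < C ∧ ∀ y ∈ Cell, ∀ (L : ℝ) (s : Finset Mat),
    (∀ P ∈ s, Reach y P ∧ area y / 4 ≤ ar (acP P y) 2 ∧ ‖hol y (P 0)‖ ≤ L) →
    ((s.image ty).card : ℝ) ≤ C * L ^ 2 / area y + C := by
  obtain ⟨C, hC, H⟩ := sector_count
  refine ⟨32 * C, by positivity, fun y hy L s hs => ?_⟩
  obtain ⟨W⟩ := wc_exists hy
  have := W.fin
  have hA := e3_area_pos hy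
  have hR : ∀ π ∈ s.image ty, ∃ P, P ∈ s ∧ ty P = π := fun π hπ => Finset.mem_image.1 hπ
  choose! R hR using hR
  have hR0 : ∀ π ∈ s.image ty, R π 0 = π.1 := fun π hπ => congrArg Prod.fst (hR π hπ).2
  obtain ⟨f, hf⟩ := Countable.exists_injective_nat Z4
  have key := H (s.image ty) (fun π => hol y π.1) L (area y / 4) 8 (by positivity)
    (fun π hπ => by
      rw [← hR0 π hπ]
      exact (hs _ (hR π hπ).1).2.2)
    (fun u hu hd => by
      have ov : ∀ π ∈ u, ∀ π' ∈ u, π ≠ π' →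
          W.m ({x | W.C (R π) x = 2} ∩ {x | W.C (R π') x = 2}) = 0 ∨ π' = (-π.1, π.2) := by
        intro π hπ π' hπ' hne
        have r1 := hs _ (hR π (hu hπ)).1
        have r2 := hs _ (hR π' (hu hπ')).1
        by_contra hcon
        rw [not_or] at hcon
        by_cases d : dt (hol y (R π 0)) (hol y (R π' 0)) = 0
        · rcases W.par_eq r1.1 r2.1 hcon.1 d with e | e
          · rw [(hR π (hu hπ)).2, (hR π' (hu hπ')).2] at e
            exact hne e.symm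
          · rw [ty_neg, (hR π (hu hπ)).2, (hR π' (hu hπ')).2, hR0 π (hu hπ)] at e
            exact hcon.2 e
        · have a1 := W.angle r1.1 r2.1 hcon.1 d
          have a2 := hd π hπ π' hπ'
          rw [hR0 π (hu hπ), hR0 π' (hu hπ')] at a1
          linarith [r1.2.1]
      have four : ∀ v ⊆ u, (∀ π ∈ v, ∀ π' ∈ v, π' = (-π.1, π.2) → π = π') →
          (v.card : ℝ) ≤ 4 := by
        intro v hv hn
        have h1 := e3_pack W.m v (fun π => {x | W.C (R π) x = 2}) (a := area y / 4)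
          (fun π _ => e3_meas W _)
          (fun π hπ π' hπ' hne =>
            (ov π (hv hπ) π' (hv hπ') hne).resolve_right (fun e => hne (hn π hπ π' hπ' e)))
          (fun π hπ => by
            have r1 := hs _ (hR π (hu (hv hπ))).1
            rw [W.Ca _ r1.1 2]
            exact r1.2.1)
        rw [W.total hy] at h1
        by_contra hcon
        rw [not_le] at hcon
        nlinarith
      have h8 := e3_split2 u (fun π => f π.1 ≤ f (-π.1)) (fun π => f (-π.1) < f π.1)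
        (B1 := 4) (B2 := 4) (fun π _ => le_or_gt _ _)
        (fun v hv hp => four v hv (fun π hπ π' hπ' e => by
          have a1 := hp π hπ
          have a2 := hp π' hπ'
          rw [e] at a2
          simp only [neg_neg] at a2
          have a3 : π.1 = -π.1 := hf (le_antisymm a1 a2)
          rw [e, ← a3]))
        (fun v hv hp => four v hv (fun π hπ π' hπ' e => by
          have a1 := hp π hπ
          have a2 := hp π' hπ'
          rw [e] at a2
          simp only [neg_neg] at a2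
          omega))
      have h9 : (u.card : ℝ) ≤ (8 : ℕ) := by
        push_cast
        linarith
      exact_mod_cast h9)
  have e : ((8 : ℕ) : ℝ) * (C * L ^ 2 / (area y / 4) + C) = 32 * C * L ^ 2 / area y + 8 * C := by
    push_cast
    field_simp
    ring
  rw [e] at key
  linarith

theorem count_dbl : ∃ C : ℝ, 0 < C ∧ ∀ y ∈ Cell, ∀ (L : ℝ) (s : Finset Mat),
    (∀ P ∈ s, Reach y P ∧ ar (acP P y) 2 < area y / 4 ∧ Dbl y P ∧ ‖hol y (P 0 + P 1)‖ ≤ L) →
    ((s.image ty).card : ℝ) ≤ C * L ^ 2 / area y + C := by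
  obtain ⟨C, hC, H⟩ := sector_count
  refine ⟨8 * C, by positivity, fun y hy L s hs => ?_⟩
  obtain ⟨W⟩ := wc_exists hy
  have := W.fin
  have hA := e3_area_pos hy
  have hR : ∀ π ∈ s.image ty, ∃ P, P ∈ s ∧ ty P = π := fun π hπ => Finset.mem_image.1 hπ
  choose! R hR using hR
  have hR0 : ∀ π ∈ s.image ty, R π 0 = π.1 := fun π hπ => congrArg Prod.fst (hR π hπ).2
  have pair : ∀ P ∈ s, ∀ P' ∈ s,
      |dt (hol y (P 0 + P 1)) (hol y (P' 0 + P' 1))| < area y / 4 →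
      ty P' = ty P ∨ ty P' = ty (-P) := by
    intro P hP P' hP' hd
    obtain ⟨r1, a1, d1, -⟩ := hs P hP
    obtain ⟨r2, a2, d2, -⟩ := hs P' hP'
    have o : W.m {x | W.C P x ≠ 2 ∧ W.C P' x ≠ 2} ≠ 0 := by
      intro h0
      have h1 : (Set.univ : Set Sf) ⊆ {x | W.C P x ≠ 2 ∧ W.C P' x ≠ 2} ∪
          ({x | W.C P x = 2} ∪ {x | W.C P' x = 2}) := by
        intro x _
        simp only [Set.mem_union, Set.mem_ofPred_eq]
        tauto
      have h2 := measureReal_mono (μ := W.m) h1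
      have h3 := measureReal_union_le (μ := W.m) {x | W.C P x ≠ 2 ∧ W.C P' x ≠ 2}
        ({x | W.C P x = 2} ∪ {x | W.C P' x = 2})
      have h4 := measureReal_union_le (μ := W.m) {x | W.C P x = 2} {x | W.C P' x = 2}
      have h5 : W.m.real {x | W.C P x ≠ 2 ∧ W.C P' x ≠ 2} = 0 := by
        rw [Measure.real, h0]
        rfl
      rw [W.total hy] at h2
      rw [W.Ca _ r1 2, W.Ca _ r2 2] at h4
      linarith
    have d0 : dt (hol y (P 0 + P 1)) (hol y (P' 0 + P' 1)) = 0 := by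
      by_contra d
      have := W.angle2 r1 r2 d1 d2 o d
      linarith
    obtain ⟨μ, hμ, e1⟩ := e3_dbl r1 d1
    obtain ⟨μ', hμ', e2⟩ := e3_dbl r2 d2
    have d : dt (hol y (P 0)) (hol y (P' 0)) = 0 := by
      rw [e1, e2] at d0
      have : μ * μ' * dt (hol y (P 0)) (hol y (P' 0)) = 0 := by
        rw [← d0]
        simp only [dt, Prod.smul_fst, Prod.smul_snd, smul_eq_mul]
        ring
      exact (mul_eq_zero.1 this).resolve_left (by positivity)
    have d' : dt (hol y (P' 0)) (hol y (P 0)) = 0 := by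
      simp only [dt] at d ⊢
      linarith
    by_cases o2 : W.m {x | W.C P x = 2 ∧ W.C P' x = 2} = 0
    · exfalso
      have o3 : W.m {x | W.C P' x = 2 ∧ W.C P x = 2} = 0 := by
        simpa only [and_comm] using o2
      have n1 : ‖hol y (P' 0)‖ = μ * ‖hol y (P 0)‖ := by
        rcases W.par_in r1 r2 d1 o2 d with e | e
        · rw [e, e1, norm_smul, Real.norm_of_nonneg (by linarith)]
        · rw [e, norm_neg, e1, norm_smul, Real.norm_of_nonneg (by linarith)]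
      have n2 : ‖hol y (P 0)‖ = μ' * ‖hol y (P' 0)‖ := by
        rcases W.par_in r2 r1 d2 o3 d' with e | e
        · rw [e, e2, norm_smul, Real.norm_of_nonneg (by linarith)]
        · rw [e, norm_neg, e2, norm_smul, Real.norm_of_nonneg (by linarith)]
      have p1 : 0 < ‖hol y (P 0)‖ := norm_pos_iff.2 (e3_core_ne r1)
      have p2 : 0 < ‖hol y (P' 0)‖ := norm_pos_iff.2 (e3_core_ne r2)
      nlinarith
    · exact W.par_eq r1 r2 o2 d
  have key := H (s.image ty) (fun π => hol y (R π 0 + R π 1)) L (area y / 4) 2 (by positivity)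
    (fun π hπ => (hs _ (hR π hπ).1).2.2.2)
    (fun u hu hd => by
      rcases u.eq_empty_or_nonempty with rfl | ⟨π, hπ⟩
      · simp
      have hsub : u ⊆ {ty (R π), ty (-R π)} := by
        intro π' hπ'
        have := pair _ (hR π (hu hπ)).1 _ (hR π' (hu hπ')).1 (hd π hπ π' hπ')
        rw [(hR π' (hu hπ')).2] at this
        simpa using this
      exact (Finset.card_le_card hsub).trans Finset.card_le_two)
  have e : ((2 : ℕ) : ℝ) * (C * L ^ 2 / (area y / 4) + C) = 8 * C * L ^ 2 / area y + 2 * C := by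
    push_cast
    field_simp
    ring
  rw [e] at key
  linarith

theorem e3_div_le {C x A A1 : ℝ} (hC : 0 ≤ C) (hA : 0 < A1) (h : A1 ≤ A) :
    C * x ^ 2 / A + C ≤ C / A1 * x ^ 2 + C := by
  have : C * x ^ 2 / A ≤ C * x ^ 2 / A1 := div_le_div_of_nonneg_left (by positivity) hA h
  have e : C / A1 * x ^ 2 = C * x ^ 2 / A1 := by ring
  linarith

theorem e3_num {b d Cb Cd c B L : ℝ} (hb : 0 ≤ b) (hd : 0 ≤ d) (hL : 0 ≤ L) (hB : 0 ≤ B) :
    b * L ^ 2 + Cb + (d * (4 * L + B) ^ 2 + Cd +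
      (8 * L * (8 * b * (4 * L + B) + 4 * Cb / c) + 3 * (b * (4 * L + B) ^ 2 + Cb))) ≤
      (b + 32 * (d + 67 * b) + 1) * L ^ 2 +
        (4 * Cb + Cd + 2 * B ^ 2 * (d + 67 * b) + (16 * (Cb / c)) ^ 2) := by
  have h1 : (4 * L + B) ^ 2 ≤ 32 * L ^ 2 + 2 * B ^ 2 := by nlinarith [sq_nonneg (4 * L - B)]
  have h2 : L * (4 * L + B) ≤ (4 * L + B) ^ 2 := by nlinarith
  have h3 : 32 * (Cb / c) * L ≤ L ^ 2 + (16 * (Cb / c)) ^ 2 := by
    nlinarith [sq_nonneg (L - 16 * (Cb / c))]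
  have h4 := mul_le_mul_of_nonneg_left h2 hb
  have h5 := mul_le_mul_of_nonneg_left h1 hb
  have h6 := mul_le_mul_of_nonneg_left h1 hd
  have e : 4 * Cb / c = 4 * (Cb / c) := by ring
  rw [e]
  nlinarith

theorem count_ty {A1 : ℝ} (hA : 0 < A1) : ∃ C0 : ℝ, 0 < C0 ∧ ∀ K : Set Pt, IsCompact K →
    K ⊆ Cell → ∃ C1 : ℝ, 0 < C1 ∧ ∀ y ∈ K, A1 ≤ area y → ∀ (L : ℝ) (s : Finset Mat), 0 ≤ L →
    (∀ P ∈ s, Reach y P ∧ ‖hol y (P 0)‖ ≤ L) → ((s.image ty).card : ℝ) ≤ C0 * L ^ 2 + C1 := by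
  obtain ⟨Cb, hCb, Hb⟩ := count_big
  obtain ⟨Cd, hCd, Hd⟩ := count_dbl
  refine ⟨Cb / A1 + 32 * (Cd / A1 + 67 * (Cb / A1)) + 1, by positivity, fun K hK hc => ?_⟩
  obtain ⟨c, hc0, Hc⟩ := min_len hK hc
  have hcont : Continuous area := by
    unfold area Om
    fun_prop
  obtain ⟨M, hM⟩ := hK.exists_bound_of_continuousOn hcont.continuousOn
  refine ⟨4 * Cb + Cd + 2 * (|M| / c) ^ 2 * (Cd / A1 + 67 * (Cb / A1)) + (16 * (Cb / c)) ^ 2,
    by positivity, fun y hy hyA L s hL hs => ?_⟩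
  have hyc := hc hy
  have hlen : ∀ P, Reach y P → c ≤ ‖hol y (P 0)‖ := fun P h => Hc y hy _ _ (e3_core_mem h)
  have hB : 0 ≤ |M| / c := by positivity
  refine le_trans ?_ (e3_num (by positivity) (by positivity) hL hB)
  set L' := 4 * L + |M| / c with hL'
  have hL'0 : 0 ≤ L' := by positivity
  refine e3_split3 (s.image ty)
    (fun π => ∃ P, (Reach y P ∧ area y / 4 ≤ ar (acP P y) 2 ∧ ‖hol y (P 0)‖ ≤ L) ∧ ty P = π)
    (fun π => ∃ P, (Reach y P ∧ ar (acP P y) 2 < area y / 4 ∧ Dbl y P ∧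
      ‖hol y (P 0 + P 1)‖ ≤ L') ∧ ty P = π)
    (fun π => ∃ Q, (Reach y Q ∧ area y / 4 ≤ ar (acP Q y) 1 ∧ ‖hol y (Q 2)‖ ≤ L' ∧
      ‖hol y (Q 0)‖ ≤ L) ∧ ty Q = π) ?_ ?_ ?_ ?_
  · intro π hπ
    obtain ⟨P, hP, rfl⟩ := Finset.mem_image.1 hπ
    obtain ⟨r, l⟩ := hs P hP
    rcases le_or_gt (area y / 4) (ar (acP P y) 2) with a | a
    · exact Or.inl ⟨P, ⟨r, a, l⟩, rfl⟩
    obtain ⟨Q, rQ, q0, q3, hQ⟩ := parent r a
    have ety : ty Q = ty P := by simp only [ty, q0, q3]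
    have bd : 4 * ‖hol y (P 0)‖ + area y / ‖hol y (P 0)‖ ≤ L' := by
      have a1 : area y ≤ |M| := ((le_abs_self _).trans (hM y hy)).trans (le_abs_self _)
      have a2 : area y / ‖hol y (P 0)‖ ≤ |M| / c :=
        div_le_div₀ (abs_nonneg _) a1 hc0 (hlen P r)
      linarith
    rcases hQ with ⟨b1, b2⟩ | ⟨b1, b2⟩
    · exact Or.inr (Or.inr ⟨Q, ⟨rQ, b1, b2.trans bd, by rw [q0]; exact l⟩, ety⟩)
    · refine Or.inr (Or.inl ⟨Q, ⟨rQ, ?_, b1, b2.trans bd⟩, ety⟩)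
      rw [e3_ar2, q0, q3, ← e3_ar2]
      exact a
  · intro u _ hu
    exact (e3_of_ty (Hb y hyc L) u hu).trans (e3_div_le hCb.le hA hyA)
  · intro u _ hu
    exact (e3_of_ty (Hd y hyc L') u hu).trans (e3_div_le hCd.le hA hyA)
  · intro u _ hu
    choose! R hR using hu
    refine e3_grp u (fun π => ty (rho * R π)) (fun π => ‖hol y π.1‖) hc0 (by positivity) hCb.le
      hL'0 (by positivity) (by norm_num) ?_ ?_ ?_
    · intro π hπ
      refine ⟨hlen _ (e3_reach_rho (hR π hπ).1.1), ?_⟩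
      show ‖hol y ((rho * R π) 0)‖ ≤ L'
      rw [e3_rho0]
      exact (hR π hπ).1.2.2.1
    · intro x _ v hv hx
      refine (e3_of_ty (Hb y hyc x) v (fun π' hπ' => ?_)).trans (e3_div_le hCb.le hA hyA)
      obtain ⟨π, hπ, e⟩ := Finset.mem_image.1 (hv hπ')
      refine ⟨rho * R π, ⟨e3_reach_rho (hR π hπ).1.1, ?_, ?_⟩, e⟩
      · rw [e3_rho_ar]
        exact (hR π hπ).1.2.1
      · have := hx π' hπ'
        rw [← e] at this
        exact this
    · intro π' hπ'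
      obtain ⟨π0, hπ0, rfl⟩ := Finset.mem_image.1 hπ'
      have := e3_of_ty (children (hR π0 hπ0).1.1 hL)
        (u.filter (fun π => ty (rho * R π) = ty (rho * R π0))) (fun π hπ => by
          obtain ⟨a1, a2⟩ := Finset.mem_filter.1 hπ
          exact ⟨R π, ⟨(hR π a1).1.1, a2, (hR π a1).1.2.2.2⟩, (hR π a1).2⟩)
      rw [← e3_rho0 (R π0)] at this
      exact this

theorem e3_num2 {C0 C1 c L : ℝ} :
    C0 * L ^ 2 + C1 + ((2 * L * (8 * C0 * L + 4 * C1 / c) + 1 * (C0 * L ^ 2 + C1)) +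
      (8 * L * (8 * C0 * L + 4 * C1 / c) + 3 * (C0 * L ^ 2 + C1))) ≤
      (85 * C0 + 1) * L ^ 2 + (5 * C1 + (20 * (C1 / c)) ^ 2) := by
  have e : 4 * C1 / c = 4 * (C1 / c) := by ring
  rw [e]
  nlinarith [sq_nonneg (L - 20 * (C1 / c))]

theorem count_Ecl {A1 : ℝ} (hA : 0 < A1) : ∃ C0 : ℝ, 0 < C0 ∧ ∀ K : Set Pt, IsCompact K →
    K ⊆ Cell → ∃ C1 : ℝ, 0 < C1 ∧ ∀ y ∈ K, A1 ≤ area y → ∀ (L : ℝ) (s : Finset Z4), 0 ≤ L →
    (∀ e ∈ s, e ∈ Ecl y L) → (s.card : ℝ) ≤ C0 * L ^ 2 + C1 := by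
  obtain ⟨C0, h0, H⟩ := count_ty hA
  refine ⟨85 * C0 + 1, by positivity, fun K hK hc => ?_⟩
  obtain ⟨C1, h1, H⟩ := H K hK hc
  obtain ⟨c, hc0, Hc⟩ := min_len hK hc
  refine ⟨5 * C1 + (20 * (C1 / c)) ^ 2, by positivity, fun y hy hyA L s hL hs => ?_⟩
  have hlen : ∀ P, Reach y P → c ≤ ‖hol y (P 0)‖ := fun P h => Hc y hy _ _ (e3_core_mem h)
  have Hx : ∀ x, 0 ≤ x → ∀ v : Finset (Z4 × Mat),
      (∀ π ∈ v, ∃ P, (Reach y P ∧ ‖hol y (P 0)‖ ≤ x) ∧ ty P = π) →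
      (v.card : ℝ) ≤ C0 * x ^ 2 + C1 :=
    fun x hx v hv => e3_of_ty (fun s' hs' => H y hy hyA x s' hx hs') v hv
  refine le_trans ?_ (e3_num2 (c := c))
  refine e3_split3 s
    (fun e => ∃ P, (Reach y P ∧ ‖hol y (P 0)‖ ≤ L) ∧ e = P 0)
    (fun e => ∃ P, (Reach y P ∧ ‖hol y (P 0)‖ ≤ L) ∧ e = P 3 ∧ ‖hol y e‖ ≤ L)
    (fun e => ∃ P, (Reach y P ∧ ‖hol y (P 0)‖ ≤ L) ∧ e = P 0 + P 2 ∧ ‖hol y (P 2)‖ ≤ L)
    ?_ ?_ ?_ ?_
  · intro e he
    obtain ⟨P, r, l, h | h | h⟩ := hs e he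
    · exact Or.inl ⟨P, ⟨r, l⟩, h⟩
    · exact Or.inr (Or.inl ⟨P, ⟨r, l⟩, h⟩)
    · exact Or.inr (Or.inr ⟨P, ⟨r, l⟩, h⟩)
  · intro u _ hu
    choose! R hR using hu
    have e1 : u.card = (u.image (fun e => ty (R e))).card := by
      rw [Finset.card_image_of_injOn]
      intro e he e' he' h
      have h' : R e 0 = R e' 0 := congrArg Prod.fst h
      rw [(hR e he).2, h', ← (hR e' he').2]
    rw [e1]
    refine Hx L hL _ (fun π hπ => ?_)
    obtain ⟨e, he, rfl⟩ := Finset.mem_image.1 hπ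
    exact ⟨R e, (hR e he).1, rfl⟩
  · intro u _ hu
    choose! R hR using hu
    refine e3_grp u (fun e => ty (R e)) (fun π => ‖hol y π.1‖) hc0 h0.le h1.le
      hL (by positivity) (by norm_num) ?_ ?_ ?_
    · intro e he
      exact ⟨hlen _ (hR e he).1.1, (hR e he).1.2⟩
    · intro x hx0 v hv hx
      refine Hx x hx0 v (fun π hπ => ?_)
      obtain ⟨e, he, h⟩ := Finset.mem_image.1 (hv hπ)
      refine ⟨R e, ⟨(hR e he).1.1, ?_⟩, h⟩
      have := hx π hπ
      rw [← h] at this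
      exact this
    · intro π hπ
      obtain ⟨e0, he0, rfl⟩ := Finset.mem_image.1 hπ
      have hn : ∀ e ∈ u.filter (fun e => ty (R e) = ty (R e0)),
          ∃ n : ℤ, e = R e0 3 + n • R e0 0 := by
        intro e he
        obtain ⟨a1, a2⟩ := Finset.mem_filter.1 he
        obtain ⟨n, hn⟩ := (ty_eq (hR e0 he0).1.1.symp a2).2
        exact ⟨n, (hR e a1).2.1.trans hn⟩
      choose! n hn using hn
      have e1 : (u.filter (fun e => ty (R e) = ty (R e0))).card =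
          ((u.filter (fun e => ty (R e) = ty (R e0))).image n).card := by
        rw [Finset.card_image_of_injOn]
        intro e he e' he' h
        rw [hn e he, h, ← hn e' he']
      rw [e1]
      refine e3_int_count (v := hol y (R e0 3)) (e3_core_ne (hR e0 he0).1.1) hL _ ?_
      intro k hk
      obtain ⟨e, he, rfl⟩ := Finset.mem_image.1 hk
      rw [← e3_hol_smul, ← e3_hol_add, ← hn e he]
      exact (hR e (Finset.mem_filter.1 he).1).2.2
  · intro u _ hu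
    choose! R hR using hu
    refine e3_grp u (fun e => ty (rho * R e)) (fun π => ‖hol y π.1‖) hc0 h0.le h1.le
      hL (by positivity) (by norm_num) ?_ ?_ ?_
    · intro e he
      refine ⟨hlen _ (e3_reach_rho (hR e he).1.1), ?_⟩
      show ‖hol y ((rho * R e) 0)‖ ≤ L
      rw [e3_rho0]
      exact (hR e he).2.2
    · intro x hx0 v hv hx
      refine Hx x hx0 v (fun π hπ => ?_)
      obtain ⟨e, he, h⟩ := Finset.mem_image.1 (hv hπ)
      refine ⟨rho * R e, ⟨e3_reach_rho (hR e he).1.1, ?_⟩, h⟩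
      have := hx π hπ
      rw [← h] at this
      exact this
    · intro π hπ
      obtain ⟨e0, he0, rfl⟩ := Finset.mem_image.1 hπ
      have e1 : (u.filter (fun e => ty (rho * R e) = ty (rho * R e0))).card =
          ((u.filter (fun e => ty (rho * R e) = ty (rho * R e0))).image
            (fun e => ty (R e))).card := by
        rw [Finset.card_image_of_injOn]
        intro e he e' he' h
        obtain ⟨a1, a2⟩ := Finset.mem_filter.1 (Finset.mem_coe.1 he)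
        obtain ⟨b1, b2⟩ := Finset.mem_filter.1 (Finset.mem_coe.1 he')
        have h' : R e 0 = R e' 0 := congrArg Prod.fst h
        have h2 : (rho * R e) 0 = (rho * R e') 0 := congrArg Prod.fst (a2.trans b2.symm)
        rw [e3_rho0, e3_rho0] at h2
        rw [(hR e a1).2.1, h', h2, ← (hR e' b1).2.1]
      rw [e1]
      have := e3_of_ty (children (hR e0 he0).1.1 hL)
        ((u.filter (fun e => ty (rho * R e) = ty (rho * R e0))).image (fun e => ty (R e)))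
        (fun π hπ => by
          obtain ⟨e, he, rfl⟩ := Finset.mem_image.1 hπ
          obtain ⟨a1, a2⟩ := Finset.mem_filter.1 he
          exact ⟨R e, ⟨(hR e a1).1.1, a2, (hR e a1).1.2⟩, rfl⟩)
      rw [← e3_rho0 (R e0)] at this
      exact this

end Pool.Agent.TW
end

-- part Pool.Agent.Lib.MP_4eaecc_an.N2
section

/-! Nondivergence. -/

namespace Pool.Agent.TW

open Matrix MeasureTheory Filter Topology
open scoped ENNReal NNReal

theorem n2_area_us (s : ℝ) (y : Pt) : area (us s y) = area y := by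
  rw [us_eq, area_lin]; ring

theorem n2_area_gt (r : ℝ) (y : Pt) : area (gt r y) = area y := by
  rw [gt_eq, area_lin, ← Real.exp_add]; simp

/-- A generic valid point that is not good has a counted class of small height and width. -/
theorem n2_pt {τ : Ty} {y : Pt} {s δ t A : ℝ} (hs : s ∈ Set.Icc (0 : ℝ) 1) (k : HV τ y.2)
    (hb : Base τ (us s y) t) (hA : area y ≤ A) (hg : ¬ GoodAt δ τ (us s y) t)
    {x w : Fin 7 → ℝ}
    (H : ∀ (τ : Ty) (y : Pt), Base τ y 0 → area y ≤ A →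
      ¬ Low (path τ y.1 1).1 (ac (path τ y.1 1).2 y.2) 1 → ¬ Good δ τ y →
      ∃ (j : Fin 7) (e : Z4), ((∃ b i, e = ed τ b i) ∨ ∃ i, e = dg τ i) ∧
        ev e y.2 ≤ x j ∧ |ev e y.1| ≤ w j) :
    ∃ (j : Fin 7) (e : Z4), 0 ≤ ev e y.2 ∧ e ∈ Ecl y (8 * ‖y‖ + 2 * ev e y.2) ∧
      ev e y.2 ≤ x j * Real.exp t ∧ |ev e (us s y).1| ≤ w j * Real.exp (-t) := by
  set u := us s y with hu
  have hu2 : u.2 = y.2 := rfl
  set n := stage τ u (Real.exp t) with hn
  have hSt : St τ u t = path τ u.1 n := rfl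
  have e1 : (nst τ u t).1 = Real.exp t • ac (path τ u.1 n).2 u.1 := rfl
  have e2 : (nst τ u t).2 = Real.exp (-t) • ac (path τ u.1 n).2 y.2 := rfl
  have et : Real.exp (-t) * Real.exp t = 1 := by rw [← Real.exp_add]; simp
  have hp := Real.exp_pos t
  have hm := Real.exp_pos (-t)
  have hng : ¬ Good δ (St τ u t).1 (nst τ u t) := fun h => hg ⟨hb, h⟩
  have har : area (nst τ u t) ≤ A := by rw [hb.area, hu, n2_area_us]; exact hA
  have hhi : ¬ Low (path (St τ u t).1 (nst τ u t).1 1).1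
      (ac (path (St τ u t).1 (nst τ u t).1 1).2 (nst τ u t).2) 1 := by
    intro hl
    apply hb.high
    rw [← hn, path_add τ u.1 n 1]
    rw [hSt, e1, e2, path_smul _ _ hp] at hl
    intro b i
    have := hl b i
    rw [ac_smul, ev_smul] at this
    dsimp only
    rw [ac_mul, hu2]
    have h3 := mul_le_mul_of_nonneg_left this hp.le
    rwa [← mul_assoc, mul_comm (Real.exp t) (Real.exp (-t)), et, one_mul, mul_one] at h3
  obtain ⟨j, e, he, h1, h2⟩ := H _ _ hb.nst har hhi hng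
  have hpv : PV τ u.1 n := pv_of_gen hb.1 hb.2.2.1 n
  have hm' := path_mem_Ecl (τ := τ) (y := y) hs (n := n) hpv k (e := e ᵥ* (path τ u.1 n).2) (by
    rcases he with ⟨b, i, rfl⟩ | ⟨i, rfl⟩
    · exact Or.inl ⟨b, i, rfl⟩
    · exact Or.inr ⟨i, rfl⟩)
  refine ⟨j, e ᵥ* (path τ u.1 n).2, hm'.1, hm'.2, ?_, ?_⟩
  · rw [e2, ev_smul] at h1
    rw [ev_vecMul]
    have h3 := mul_le_mul_of_nonneg_left h1 hp.le
    rwa [← mul_assoc, mul_comm (Real.exp t) (Real.exp (-t)), et, one_mul, mul_comm] at h3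
  · rw [e1, ev_smul, abs_mul, abs_of_pos hp] at h2
    rw [ev_vecMul]
    have h3 := mul_le_mul_of_nonneg_left h2 hm.le
    rwa [← mul_assoc, et, one_mul, mul_comm] at h3

theorem ndiv {A1 A2 : ℝ} (hA : 0 < A1) : ∃ C α : ℝ, 0 < C ∧ 0 < α ∧ ∀ K : Set Pt, IsCompact K →
    K ⊆ Cell → ∃ C1 : ℝ, 0 < C1 ∧ ∀ (τ : Ty), ∀ y ∈ K, A1 ≤ area y → area y ≤ A2 → HV τ y.2 →
    ∀ δ t : ℝ, 0 < δ → δ ≤ 1 →
    volume {s ∈ Set.Icc (0 : ℝ) 1 | WV τ (us s y).1 ∧ ¬ GoodAt δ τ (us s y) t} ≤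
      ENNReal.ofReal (C * δ ^ α + C1 * Real.exp (-t) / δ) := by
  obtain ⟨Ch, α, hCh, hα, hier⟩ := hier (A2 := max A2 1) (lt_max_of_lt_right one_pos)
  obtain ⟨Cl, hCl, line⟩ := line_sum
  obtain ⟨C0, hC0, count⟩ := count_Ecl hA
  refine ⟨Ch + 7 * (Cl * C0 * Ch), α, by positivity, hα, fun K hK hc => ?_⟩
  obtain ⟨C1, hC1, count⟩ := count K hK hc
  obtain ⟨c, hc0, hmin⟩ := min_len hK hc
  obtain ⟨R, hR0, hR⟩ := hK.isBounded.exists_pos_norm_le
  set D : ℝ := Cl * (C0 * (8 * R) ^ 2 + C1) * Ch / c with hD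
  have hD0 : 0 < D := by positivity
  refine ⟨2 * R + 4 * Ch / c + 7 * D, by positivity, fun τ y hy h1 h2 hv δ t hδ hδ1 => ?_⟩
  obtain ⟨x, w, hxw, H⟩ := hier δ hδ hδ1
  have hp := Real.exp_pos t
  have hm := Real.exp_pos (-t)
  have et : Real.exp (-t) * Real.exp t = 1 := by rw [← Real.exp_add]; simp
  have hda : 0 < δ ^ α := Real.rpow_pos_of_pos hδ α
  set q : ℝ := Real.exp (-t) / δ with hq
  have hq0 : 0 < q := by positivity
  have eq1 : (Ch + 7 * (Cl * C0 * Ch)) * δ ^ α + (2 * R + 4 * Ch / c + 7 * D) * Real.exp (-t) / δ =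
      Ch * δ ^ α + 7 * (Cl * C0 * (Ch * δ ^ α)) + 2 * R * q + 4 * Ch / c * q + 7 * (D * q) := by
    rw [hq]; ring
  rw [eq1]
  have p1 : 0 < Ch * δ ^ α := by positivity
  have p2 : 0 < Cl * C0 * (Ch * δ ^ α) := by positivity
  have p3 : 0 < 2 * R * q := by positivity
  have p4 : 0 < 4 * Ch / c * q := by positivity
  have p5 : 0 < D * q := by positivity
  by_cases big : 1 ≤ Ch * δ ^ α + 7 * (Cl * C0 * (Ch * δ ^ α)) + 2 * R * q + 4 * Ch / c * q +
      7 * (D * q)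
  · calc _ ≤ volume (Set.Icc (0 : ℝ) 1) := measure_mono (fun s hs => hs.1)
      _ = ENNReal.ofReal 1 := by rw [Real.volume_Icc]; norm_num
      _ ≤ _ := ENNReal.ofReal_le_ofReal big
  have big' := not_le.mp big
  have H := H.resolve_left (by linarith)
  have hqe : Real.exp (-t) ≤ q := by
    rw [hq, le_div_iff₀ hδ]; nlinarith
  have hlow : Low τ y.2 (Real.exp t) := by
    intro b i
    have a1 := (le_abs_self _).trans (abs_ed_le τ b i y.2)
    have a2 : ‖y.2‖ ≤ R := (norm_snd_le y).trans (hR y hy)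
    have a3 : 2 * R * Real.exp (-t) ≤ 1 := by nlinarith
    have a4 := mul_le_mul_of_nonneg_right a3 hp.le
    rw [mul_assoc, et] at a4
    linarith
  have hwq : ∀ j, w j * Real.exp (-t) ≤ Ch * q := fun j => by
    have := mul_le_mul_of_nonneg_right (hxw j).2.2.2 hm.le
    rw [hq]
    calc _ ≤ _ := this
      _ = _ := by ring
  have hcq : Ch * q ≤ c / 4 := by
    have a1 : 4 * Ch / c * q ≤ 1 := by linarith
    rw [div_mul_eq_mul_div, div_le_one hc0] at a1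
    linarith
  set S : Fin 7 → Set ℝ := fun j => {s ∈ Set.Icc (0 : ℝ) 1 | ∃ e : Z4, 0 ≤ ev e y.2 ∧
    e ∈ Ecl y (8 * ‖y‖ + 2 * ev e y.2) ∧ ev e y.2 ≤ x j * Real.exp t ∧
      |ev e (us s y).1| ≤ w j * Real.exp (-t)} with hS
  have sub : {s ∈ Set.Icc (0 : ℝ) 1 | WV τ (us s y).1 ∧ ¬ GoodAt δ τ (us s y) t} ⊆
      {s : ℝ | ¬ Gen τ (y.1 + s • y.2)} ∪ ⋃ j, S j := by
    rintro s ⟨hs, hw, hg⟩
    by_cases g : Gen τ (y.1 + s • y.2)
    · right
      obtain ⟨j, e, he⟩ := n2_pt hs hv ⟨hw, hv, g, hlow⟩ (h2.trans (le_max_left _ _)) hg H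
      exact Set.mem_iUnion.2 ⟨j, hs, e, he⟩
    · exact Or.inl g
  have z : volume {s : ℝ | ¬ Gen τ (y.1 + s • y.2)} = 0 := ae_iff.1 (gen_line hv y.1)
  have each : ∀ j, volume (S j) ≤ ENNReal.ofReal (Cl * C0 * (Ch * δ ^ α) + D * q) := fun j => by
    have hx := (hxw j).1
    have hw := (hxw j).2.1
    refine (line y (8 * ‖y‖) C0 C1 c (x j * Real.exp t) (w j * Real.exp (-t)) (by positivity)
      hC0.le hC1.le hc0 (by positivity) (by positivity) ((hwq j).trans hcq)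
      (count y hy h1) (hmin y hy)).trans (ENNReal.ofReal_le_ofReal ?_)
    have b1 : C0 * (x j * Real.exp t) * (w j * Real.exp (-t)) ≤ C0 * (Ch * δ ^ α) := by
      have : C0 * (x j * Real.exp t) * (w j * Real.exp (-t)) =
          C0 * (x j * w j) * (Real.exp (-t) * Real.exp t) := by ring
      rw [this, et, mul_one]
      exact mul_le_mul_of_nonneg_left (hxw j).2.2.1 hC0.le
    have b2 : (C0 * (8 * ‖y‖) ^ 2 + C1) * (w j * Real.exp (-t)) / c ≤
        (C0 * (8 * R) ^ 2 + C1) * (Ch * q) / c := by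
      have := hR y hy
      have := hwq j
      gcongr
    have b3 : D * q = Cl * ((C0 * (8 * R) ^ 2 + C1) * (Ch * q) / c) := by rw [hD]; ring
    rw [b3, mul_assoc Cl C0, ← mul_add]
    exact mul_le_mul_of_nonneg_left (add_le_add b1 b2) hCl.le
  calc _ ≤ volume ({s : ℝ | ¬ Gen τ (y.1 + s • y.2)} ∪ ⋃ j, S j) := measure_mono sub
    _ ≤ volume {s : ℝ | ¬ Gen τ (y.1 + s • y.2)} + volume (⋃ j, S j) := measure_union_le _ _
    _ ≤ 0 + ∑ j, volume (S j) := by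
      rw [z]; exact add_le_add le_rfl (measure_iUnion_fintype_le _ _)
    _ ≤ 0 + ∑ _j : Fin 7, ENNReal.ofReal (Cl * C0 * (Ch * δ ^ α) + D * q) :=
      add_le_add le_rfl (Finset.sum_le_sum fun j _ => each j)
    _ = ENNReal.ofReal (7 * (Cl * C0 * (Ch * δ ^ α) + D * q)) := by
      rw [zero_add, Finset.sum_const, Finset.card_univ, Fintype.card_fin, nsmul_eq_mul,
        ENNReal.ofReal_mul (by norm_num)]
      norm_num
    _ ≤ _ := ENNReal.ofReal_le_ofReal (by linarith)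

theorem n2_wv_smul {τ : Ty} {ξ : V} (h : WV τ ξ) {c : ℝ} (hc : 0 < c) : WV τ (c • ξ) := by
  intro b i
  have := h b i
  cases b
  · simp only [wd, ev_smul] at this ⊢
    nlinarith
  · simp only [wd, ev_smul] at this ⊢
    positivity

theorem n2_hv_smul {τ : Ty} {η : V} (h : HV τ η) {c : ℝ} (hc : 0 < c) : HV τ (c • η) := by
  intro i
  rw [ev_smul, ev_smul]
  exact ⟨mul_nonneg hc.le (h i).1, mul_pos hc (h i).2⟩

theorem n2_cont_gt (r : ℝ) : Continuous (gt r) := by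
  unfold gt
  fun_prop

/-- Segments of length `σ`: apply `ndiv` to `gt (-log σ / 2) y`. -/
theorem ndiv_short {A1 A2 : ℝ} (hA : 0 < A1) : ∃ C α : ℝ, 0 < C ∧ 0 < α ∧ ∀ K : Set Pt,
    IsCompact K → K ⊆ Cell → ∀ σ : ℝ, 0 < σ → ∃ C1 : ℝ, 0 < C1 ∧ ∀ (τ : Ty), ∀ y ∈ K,
    A1 ≤ area y → area y ≤ A2 → HV τ y.2 → ∀ δ t : ℝ, 0 < δ → δ ≤ 1 →
    volume {s ∈ Set.Icc (0 : ℝ) σ | WV τ (us s y).1 ∧ ¬ GoodAt δ τ (us s y) t} ≤
      ENNReal.ofReal (σ * (C * δ ^ α + C1 * Real.exp (-t) / δ)) := by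
  obtain ⟨C, α, hC, hα, H⟩ := ndiv (A2 := A2) hA
  refine ⟨C, α, hC, hα, fun K hK hc σ hσ => ?_⟩
  set r : ℝ := -Real.log σ / 2 with hr
  have hc' : gt r '' K ⊆ Cell := by
    rintro _ ⟨y, hy, rfl⟩ i
    rw [gt_eq, ar_lin, ← Real.exp_add]
    simpa using hc hy i
  obtain ⟨C1, hC1, H⟩ := H (gt r '' K) (hK.image (n2_cont_gt r)) hc'
  refine ⟨C1 * Real.exp r, by positivity, fun τ y hy h1 h2 hv δ t hδ hδ1 => ?_⟩
  have H := H τ (gt r y) ⟨y, hy, rfl⟩ (by rwa [n2_area_gt]) (by rwa [n2_area_gt])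
    (n2_hv_smul hv (Real.exp_pos _)) δ (t - r) hδ hδ1
  have e1 : σ⁻¹ * Real.exp (-r) = Real.exp r := by
    have : σ⁻¹ = Real.exp (-Real.log σ) := by rw [Real.exp_neg, Real.exp_log hσ]
    rw [this, ← Real.exp_add, hr]
    congr 1
    ring
  have e2 : ∀ s : ℝ, us (s * σ⁻¹) (gt r y) = gt r (us s y) := fun s => by
    simp only [us, gt, smul_add, smul_smul, mul_assoc, e1, mul_comm s (Real.exp r)]
  have sub : {s ∈ Set.Icc (0 : ℝ) σ | WV τ (us s y).1 ∧ ¬ GoodAt δ τ (us s y) t} ⊆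
      (fun s => s * σ⁻¹) ⁻¹' {s ∈ Set.Icc (0 : ℝ) 1 | WV τ (us s (gt r y)).1 ∧
        ¬ GoodAt δ τ (us s (gt r y)) (t - r)} := by
    rintro s ⟨hs, hw, hg⟩
    refine ⟨⟨mul_nonneg hs.1 (inv_pos.2 hσ).le, ?_⟩, ?_, ?_⟩
    · show s * σ⁻¹ ≤ 1
      rw [← div_eq_mul_inv, div_le_one hσ]; exact hs.2
    · rw [e2]; exact n2_wv_smul hw (Real.exp_pos r)
    · rw [e2, goodAt_gt, sub_add_cancel]; exact hg
  refine (measure_mono sub).trans ?_
  rw [Real.volume_preimage_mul_right (inv_pos.2 hσ).ne', inv_inv, abs_of_pos hσ,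
    ENNReal.ofReal_mul hσ.le]
  refine mul_le_mul_right (H.trans (le_of_eq ?_)) _
  congr 2
  rw [neg_sub, sub_eq_add_neg, Real.exp_add]
  ring

theorem n2_avg {E : Type} [NormedAddCommGroup E] [NormedSpace ℝ E] [MeasurableSpace E]
    [BorelSpace E] [SecondCountableTopology E] (μ : Measure E) [SFinite μ] [μ.IsAddRightInvariant]
    {X Z : Set E} (hX : MeasurableSet X) (hZ : MeasurableSet Z) (ζ : E) (σ : ℝ) (B : ℝ≥0∞)
    (h : ∀ z, ∀ s ∈ Set.Icc (0 : ℝ) σ, z + s • ζ ∈ X →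
      z ∈ Z ∧ volume {s ∈ Set.Icc (0 : ℝ) σ | z + s • ζ ∈ X} ≤ B) :
    ENNReal.ofReal σ * μ X ≤ B * μ Z := by
  rw [line_avg μ hX ζ σ, ← lintegral_indicator_const hZ]
  refine lintegral_mono fun z => ?_
  rcases Set.eq_empty_or_nonempty {s ∈ Set.Icc (0 : ℝ) σ | z + s • ζ ∈ X} with e | ⟨s, hs, hx⟩
  · simp only [e, measure_empty, zero_le]
  · obtain ⟨h1, h2⟩ := h z s hs hx
    rw [Set.indicator_of_mem h1]
    exact h2

/-- Collecting constants. -/
theorem n2_fin {C C1 α δ t : ℝ} (hC : 0 < C) (hC1 : 0 < C1) (hδ : 0 < δ) {m : ℝ≥0∞}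
    (hm : m ≠ ⊤) : ENNReal.ofReal (C * δ ^ α + C1 * Real.exp (-t) / δ) * m ≤
      ENNReal.ofReal ((C + C1) * (m.toReal + 1) * (δ ^ α + Real.exp (-t) / δ)) := by
  have hda : 0 < δ ^ α := Real.rpow_pos_of_pos hδ α
  have hq : 0 < Real.exp (-t) / δ := by positivity
  have h0 : 0 ≤ m.toReal := ENNReal.toReal_nonneg
  conv_lhs => rw [← ENNReal.ofReal_toReal hm]
  rw [← ENNReal.ofReal_mul (by positivity), mul_div_assoc]
  apply ENNReal.ofReal_le_ofReal
  have a : C * δ ^ α + C1 * (Real.exp (-t) / δ) ≤ (C + C1) * (δ ^ α + Real.exp (-t) / δ) := by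
    nlinarith [mul_pos hC hq, mul_pos hC1 hda]
  calc _ ≤ (C + C1) * (δ ^ α + Real.exp (-t) / δ) * (m.toReal + 1) := by gcongr; linarith
    _ = _ := by ring

theorem n2_pos (w : Par) : 0 < w.a ∧ 0 < w.b := by
  have := w.c0
  have hp : (0 : ℝ) < w.p := Nat.cast_pos.2 w.p0
  have hq : (0 : ℝ) < w.q := Nat.cast_pos.2 w.q0
  rw [w.ap, w.bq]
  exact ⟨by positivity, by positivity⟩

theorem n2_hv (w : Par) : HV .L w.eta := by
  intro i
  have := w.h10
  have := w.h20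
  fin_cases i <;> simp [eR, eL, ev_four, Par.eta, *]

theorem ndivZ (w : Par) (R : ℝ) : ∃ C α : ℝ, 0 < C ∧ 0 < α ∧ ∀ δ t : ℝ, 0 < δ → δ ≤ 1 →
    volume {z ∈ ZR R | WV .L (w.E z) ∧ ¬ GoodAt δ .L (w.y z) t} ≤
      ENNReal.ofReal (C * (δ ^ α + Real.exp (-t) / δ)) := by
  obtain ⟨ha, hb⟩ := n2_pos w
  have k1 := w.h10
  have k2 := w.h20
  have hA : 0 < w.A := by unfold Par.A; positivity
  obtain ⟨C, α, hC, hα, H⟩ := ndiv (A2 := 2 * w.A) hA
  set ζ : Fin 3 → ℝ := ![0, w.h1, w.h2] with hζ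
  have hZ : IsCompact (ZR (R + ‖ζ‖)) := by
    refine (isCompact_closedBall (0 : Fin 3 → ℝ) (R + ‖ζ‖)).of_isClosed_subset ?_ ?_
    · exact (isClosed_le continuous_norm continuous_const).inter
        ((isClosed_le continuous_const (continuous_apply 0)).inter
          (isClosed_le (continuous_apply 0) continuous_const))
    · intro z hz
      exact mem_closedBall_zero_iff.2 hz.1
  have hc : w.y '' ZR (R + ‖ζ‖) ⊆ Cell := by
    rintro _ ⟨z, hz, rfl⟩ i
    have : 0 < z 0 := by linarith [hz.2.1]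
    fin_cases i <;> simp [ar, dt, vec, sp, sq, Par.y, Par.E, Par.eta, *]
  obtain ⟨C1, hC1, H⟩ := H _ (hZ.image (continuous_y w)) hc
  refine ⟨(C + C1) * ((volume (ZR (R + ‖ζ‖))).toReal + 1), α, by positivity, hα,
    fun δ t hδ hδ1 => ?_⟩
  have hX : MeasurableSet {z ∈ ZR R | WV .L (w.E z) ∧ ¬ GoodAt δ .L (w.y z) t} :=
    (meas_ZR R).inter (((continuous_y w).fst.measurable (meas_wv .L)).inter
      ((continuous_y w).measurable (meas_goodAt δ .L t)).compl)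
  have e : ∀ (z : Fin 3 → ℝ) (s : ℝ), w.y (z + s • ζ) = us s (w.y z) := fun z s => by
    refine Prod.ext ?_ rfl
    ext i
    fin_cases i <;> simp [us, Par.y, Par.E, Par.eta, hζ]
  have := n2_avg volume hX (meas_ZR (R + ‖ζ‖)) ζ 1
    (ENNReal.ofReal (C * δ ^ α + C1 * Real.exp (-t) / δ)) (by
      intro z s hs hx
      have z0 : (z + s • ζ) 0 = z 0 := by simp [hζ]
      have hz : z ∈ ZR (R + ‖ζ‖) := by
        refine ⟨?_, z0 ▸ hx.1.2.1, z0 ▸ hx.1.2.2⟩
        have a1 : ‖z‖ ≤ ‖z + s • ζ‖ + ‖s • ζ‖ := by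
          simpa using norm_sub_le (z + s • ζ) (s • ζ)
        have a2 : ‖s • ζ‖ ≤ ‖ζ‖ := by
          rw [norm_smul, Real.norm_eq_abs, abs_of_nonneg hs.1]
          nlinarith [hs.2, norm_nonneg ζ]
        linarith [hx.1.1]
      refine ⟨hz, le_trans (measure_mono ?_) (H .L (w.y z) ⟨z, hz, rfl⟩ ?_ ?_ (n2_hv w) δ t hδ hδ1)⟩
      · rintro s' ⟨hs', -, h1, h2⟩
        rw [e] at h2
        refine ⟨hs', ?_, h2⟩
        rw [← e]
        exact h1
      · have : area (w.y z) = z 0 * w.A := by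
          simp [area, Om, Par.y, Par.E, Par.eta, Par.A]; ring
        nlinarith [hz.2.1]
      · have : area (w.y z) = z 0 * w.A := by
          simp [area, Om, Par.y, Par.E, Par.eta, Par.A]; ring
        nlinarith [hz.2.2])
  rw [ENNReal.ofReal_one, one_mul] at this
  exact this.trans (n2_fin hC hC1 hδ hZ.measure_lt_top.ne)

/-- The same on the twist plane. -/
theorem ndivX (w : Par) (R : ℝ) : ∃ C α : ℝ, 0 < C ∧ 0 < α ∧ ∀ δ t : ℝ, 0 < δ → δ ≤ 1 →
    volume {x : ℝ × ℝ | ‖x‖ ≤ R ∧ WV .L (w.om x).1 ∧ ¬ GoodAt δ .L (w.om x) t} ≤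
      ENNReal.ofReal (C * (δ ^ α + Real.exp (-t) / δ)) := by
  obtain ⟨ha, hb⟩ := n2_pos w
  have k1 := w.h10
  have k2 := w.h20
  have hA : 0 < w.A := by unfold Par.A; positivity
  obtain ⟨C, α, hC, hα, H⟩ := ndiv (A2 := w.A) hA
  set ζ : ℝ × ℝ := (w.h1, w.h2) with hζ
  have hZ : IsCompact (Metric.closedBall (0 : ℝ × ℝ) (R + ‖ζ‖)) := isCompact_closedBall _ _
  have hc : w.om '' Metric.closedBall (0 : ℝ × ℝ) (R + ‖ζ‖) ⊆ Cell := by
    rintro _ ⟨z, -, rfl⟩ i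
    fin_cases i <;> simp [ar, dt, vec, sp, sq, Par.om, Par.eta, *]
  obtain ⟨C1, hC1, H⟩ := H _ (hZ.image (continuous_om w)) hc
  refine ⟨(C + C1) * ((volume (Metric.closedBall (0 : ℝ × ℝ) (R + ‖ζ‖))).toReal + 1), α,
    by positivity, hα, fun δ t hδ hδ1 => ?_⟩
  have hX : MeasurableSet {x : ℝ × ℝ | ‖x‖ ≤ R ∧ WV .L (w.om x).1 ∧ ¬ GoodAt δ .L (w.om x) t} :=
    (measurableSet_le measurable_norm measurable_const).inter
      (((continuous_om w).fst.measurable (meas_wv .L)).inter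
      ((continuous_om w).measurable (meas_goodAt δ .L t)).compl)
  have e : ∀ (z : ℝ × ℝ) (s : ℝ), w.om (z + s • ζ) = us s (w.om z) := fun z s => by
    refine Prod.ext ?_ rfl
    ext i
    fin_cases i <;> simp [us, Par.om, Par.eta, hζ]
  have har : ∀ z, area (w.om z) = w.A := fun z => by
    simp [area, Om, Par.om, Par.eta, Par.A]
  have := n2_avg volume hX hZ.measurableSet ζ 1
    (ENNReal.ofReal (C * δ ^ α + C1 * Real.exp (-t) / δ)) (by
      intro z s hs hx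
      have hz : z ∈ Metric.closedBall (0 : ℝ × ℝ) (R + ‖ζ‖) := by
        rw [mem_closedBall_zero_iff]
        have a1 : ‖z‖ ≤ ‖z + s • ζ‖ + ‖s • ζ‖ := by
          simpa using norm_sub_le (z + s • ζ) (s • ζ)
        have a2 : ‖s • ζ‖ ≤ ‖ζ‖ := by
          rw [norm_smul, Real.norm_eq_abs, abs_of_nonneg hs.1]
          nlinarith [hs.2, norm_nonneg ζ]
        linarith [hx.1]
      refine ⟨hz, le_trans (measure_mono ?_) (H .L (w.om z) ⟨z, hz, rfl⟩ (har z).ge (har z).le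
        (n2_hv w) δ t hδ hδ1)⟩
      rintro s' ⟨hs', -, h1, h2⟩
      rw [e] at h1 h2
      exact ⟨hs', h1, h2⟩)
  rw [ENNReal.ofReal_one, one_mul] at this
  exact this.trans (n2_fin hC hC1 hδ hZ.measure_lt_top.ne)

/-- The same for Lebesgue measure on a compact set of valid states. -/
theorem ndivK {τ : Ty} {B1 B2 : Set V} (h1 : IsCompact B1) (h2 : IsCompact B2)
    (hs : B1 ×ˢ B2 ⊆ Dt τ) : ∃ C α : ℝ, 0 < C ∧ 0 < α ∧ ∀ δ t : ℝ, 0 < δ → δ ≤ 1 →
    volume {y ∈ B1 ×ˢ B2 | ¬ GoodAt δ τ y t} ≤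
      ENNReal.ofReal (C * (δ ^ α + Real.exp (-t) / δ)) := by
  obtain ⟨ε, hε, hsub⟩ := (h1.prod h2).exists_cthickening_subset_open (isOpen_Dt τ) hs
  set K := Metric.cthickening ε (B1 ×ˢ B2) with hKd
  have hK : IsCompact K := (h1.prod h2).cthickening
  have hc : K ⊆ Cell := hsub.trans (Dt_cell τ)
  have hcont : Continuous area := by
    unfold area Om
    fun_prop
  obtain ⟨A1, hA1, hlo⟩ := hK.exists_forall_le' (a := (0 : ℝ)) hcont.continuousOn (fun y hy => by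
    rw [area_eq]
    have := hc hy
    linarith [this 0, this 1, this 2])
  obtain ⟨A2, hhi⟩ := hK.bddAbove_image hcont.continuousOn
  obtain ⟨R, hR0, hR⟩ := hK.isBounded.exists_pos_norm_le
  obtain ⟨C, α, hC, hα, H⟩ := ndiv_short (A2 := A2) hA1
  have hσ : 0 < ε / R := by positivity
  obtain ⟨C1, hC1, H⟩ := H K hK hc (ε / R) hσ
  have hZ : IsCompact (Metric.closedBall (0 : V) R) := isCompact_closedBall _ _
  refine ⟨(C + C1) * ((volume (Metric.closedBall (0 : V) R) * volume B2).toReal + 1), α,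
    by positivity, hα, fun δ t hδ hδ1 => ?_⟩
  have hX : MeasurableSet {y ∈ B1 ×ˢ B2 | ¬ GoodAt δ τ y t} :=
    (h1.prod h2).measurableSet.inter (meas_goodAt δ τ t).compl
  have slice : ∀ η : V, volume ((fun ξ : V => (ξ, η)) ⁻¹' {y ∈ B1 ×ˢ B2 | ¬ GoodAt δ τ y t}) ≤
      B2.indicator (fun _ => ENNReal.ofReal (C * δ ^ α + C1 * Real.exp (-t) / δ) *
        volume (Metric.closedBall (0 : V) R)) η := by
    intro η
    by_cases hη : η ∈ B2
    · rw [Set.indicator_of_mem hη]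
      have := n2_avg volume (measurable_prodMk_right hX) hZ.measurableSet η (ε / R)
        (ENNReal.ofReal (ε / R * (C * δ ^ α + C1 * Real.exp (-t) / δ))) (by
          intro ξ s hs' hx
          have m1 : (ξ + s • η, η) ∈ K := Metric.self_subset_cthickening _ hx.1
          have n1 : ‖η‖ ≤ R := (norm_snd_le (ξ + s • η, η)).trans (hR _ m1)
          have m2 : (ξ, η) ∈ K := by
            refine Metric.mem_cthickening_of_dist_le _ _ _ _ hx.1 ?_
            rw [Prod.dist_eq, dist_self, dist_eq_norm]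
            refine max_le ?_ hε.le
            rw [sub_add_cancel_left, norm_neg, norm_smul, Real.norm_eq_abs, abs_of_nonneg hs'.1]
            calc s * ‖η‖ ≤ ε / R * R := mul_le_mul hs'.2 n1 (norm_nonneg _) hσ.le
              _ = ε := by field_simp
          have hv : HV τ η := fun i => ⟨((hsub m2).2 true i).le, (hsub m2).2 false i⟩
          refine ⟨mem_closedBall_zero_iff.2 ((norm_fst_le (ξ, η)).trans (hR _ m2)),
            le_trans (measure_mono ?_) (H τ (ξ, η) m2 (hlo _ m2) (hhi ⟨_, m2, rfl⟩) hv δ t hδ hδ1)⟩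
          rintro s' ⟨k1, k2, k3⟩
          exact ⟨k1, (hs k2).1, k3⟩)
      rw [ENNReal.ofReal_mul hσ.le, mul_assoc] at this
      exact (ENNReal.mul_le_mul_iff_right (ENNReal.ofReal_pos.2 hσ).ne' ENNReal.ofReal_ne_top).1 this
    · have : (fun ξ : V => (ξ, η)) ⁻¹' {y ∈ B1 ×ˢ B2 | ¬ GoodAt δ τ y t} = ∅ := by
        ext ξ
        simp [hη]
      rw [this, measure_empty]
      exact zero_le
  rw [Measure.volume_eq_prod, Measure.prod_apply_symm hX]
  refine (lintegral_mono slice).trans ?_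
  rw [lintegral_indicator_const h2.measurableSet, mul_assoc]
  exact n2_fin hC hC1 hδ (ENNReal.mul_ne_top hZ.measure_lt_top.ne h2.measure_lt_top.ne)

end Pool.Agent.TW
end

-- part Pool.Agent.Lib.MP_4eaecc_an.XN2
section

/-! Nondivergence on the family. -/

namespace Pool.Agent.TW.G

open Matrix MeasureTheory Filter Topology
open scoped ENNReal NNReal

theorem n2_hv (w : Par) : HV .L w.eta := by
  intro i
  have := w.h10
  have := w.h20
  fin_cases i <;> simp [eR, eL, ev_four, Par.eta, *]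

theorem ndivZ (w : Par) (R : ℝ) : ∃ C α : ℝ, 0 < C ∧ 0 < α ∧ ∀ δ t : ℝ, 0 < δ → δ ≤ 1 →
    volume {z ∈ ZR R | WV .L (w.E z) ∧ ¬ GoodAt δ .L (w.y z) t} ≤
      ENNReal.ofReal (C * (δ ^ α + Real.exp (-t) / δ)) := by
  have ha := w.a0
  have hb := w.b0
  have k1 := w.h10
  have k2 := w.h20
  have hA : 0 < w.A := by unfold Par.A; positivity
  obtain ⟨C, α, hC, hα, H⟩ := ndiv (A2 := 2 * w.A) hA
  set ζ : Fin 3 → ℝ := ![0, w.h1, w.h2] with hζ
  have hZ : IsCompact (ZR (R + ‖ζ‖)) := by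
    refine (isCompact_closedBall (0 : Fin 3 → ℝ) (R + ‖ζ‖)).of_isClosed_subset ?_ ?_
    · exact (isClosed_le continuous_norm continuous_const).inter
        ((isClosed_le continuous_const (continuous_apply 0)).inter
          (isClosed_le (continuous_apply 0) continuous_const))
    · intro z hz
      exact mem_closedBall_zero_iff.2 hz.1
  have hc : w.y '' ZR (R + ‖ζ‖) ⊆ Cell := by
    rintro _ ⟨z, hz, rfl⟩ i
    have : 0 < z 0 := by linarith [hz.2.1]
    fin_cases i <;> simp [ar, dt, vec, sp, sq, Par.y, Par.E, Par.eta, *]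
  obtain ⟨C1, hC1, H⟩ := H _ (hZ.image (continuous_y w)) hc
  refine ⟨(C + C1) * ((volume (ZR (R + ‖ζ‖))).toReal + 1), α, by positivity, hα,
    fun δ t hδ hδ1 => ?_⟩
  have hX : MeasurableSet {z ∈ ZR R | WV .L (w.E z) ∧ ¬ GoodAt δ .L (w.y z) t} :=
    (meas_ZR R).inter (((continuous_y w).fst.measurable (meas_wv .L)).inter
      ((continuous_y w).measurable (meas_goodAt δ .L t)).compl)
  have e : ∀ (z : Fin 3 → ℝ) (s : ℝ), w.y (z + s • ζ) = us s (w.y z) := fun z s => by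
    refine Prod.ext ?_ rfl
    ext i
    fin_cases i <;> simp [us, Par.y, Par.E, Par.eta, hζ]
  have := n2_avg volume hX (meas_ZR (R + ‖ζ‖)) ζ 1
    (ENNReal.ofReal (C * δ ^ α + C1 * Real.exp (-t) / δ)) (by
      intro z s hs hx
      have z0 : (z + s • ζ) 0 = z 0 := by simp [hζ]
      have hz : z ∈ ZR (R + ‖ζ‖) := by
        refine ⟨?_, z0 ▸ hx.1.2.1, z0 ▸ hx.1.2.2⟩
        have a1 : ‖z‖ ≤ ‖z + s • ζ‖ + ‖s • ζ‖ := by
          simpa using norm_sub_le (z + s • ζ) (s • ζ)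
        have a2 : ‖s • ζ‖ ≤ ‖ζ‖ := by
          rw [norm_smul, Real.norm_eq_abs, abs_of_nonneg hs.1]
          nlinarith [hs.2, norm_nonneg ζ]
        linarith [hx.1.1]
      refine ⟨hz, le_trans (measure_mono ?_) (H .L (w.y z) ⟨z, hz, rfl⟩ ?_ ?_ (n2_hv w) δ t hδ hδ1)⟩
      · rintro s' ⟨hs', -, h1, h2⟩
        rw [e] at h2
        refine ⟨hs', ?_, h2⟩
        rw [← e]
        exact h1
      · have : area (w.y z) = z 0 * w.A := by
          simp [area, Om, Par.y, Par.E, Par.eta, Par.A]; ring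
        nlinarith [hz.2.1]
      · have : area (w.y z) = z 0 * w.A := by
          simp [area, Om, Par.y, Par.E, Par.eta, Par.A]; ring
        nlinarith [hz.2.2])
  rw [ENNReal.ofReal_one, one_mul] at this
  exact this.trans (n2_fin hC hC1 hδ hZ.measure_lt_top.ne)

/-- The same on the twist plane. -/
theorem ndivX (w : Par) (R : ℝ) : ∃ C α : ℝ, 0 < C ∧ 0 < α ∧ ∀ δ t : ℝ, 0 < δ → δ ≤ 1 →
    volume {x : ℝ × ℝ | ‖x‖ ≤ R ∧ WV .L (w.om x).1 ∧ ¬ GoodAt δ .L (w.om x) t} ≤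
      ENNReal.ofReal (C * (δ ^ α + Real.exp (-t) / δ)) := by
  have ha := w.a0
  have hb := w.b0
  have k1 := w.h10
  have k2 := w.h20
  have hA : 0 < w.A := by unfold Par.A; positivity
  obtain ⟨C, α, hC, hα, H⟩ := ndiv (A2 := w.A) hA
  set ζ : ℝ × ℝ := (w.h1, w.h2) with hζ
  have hZ : IsCompact (Metric.closedBall (0 : ℝ × ℝ) (R + ‖ζ‖)) := isCompact_closedBall _ _
  have hc : w.om '' Metric.closedBall (0 : ℝ × ℝ) (R + ‖ζ‖) ⊆ Cell := by
    rintro _ ⟨z, -, rfl⟩ i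
    fin_cases i <;> simp [ar, dt, vec, sp, sq, Par.om, Par.eta, *]
  obtain ⟨C1, hC1, H⟩ := H _ (hZ.image (continuous_om w)) hc
  refine ⟨(C + C1) * ((volume (Metric.closedBall (0 : ℝ × ℝ) (R + ‖ζ‖))).toReal + 1), α,
    by positivity, hα, fun δ t hδ hδ1 => ?_⟩
  have hX : MeasurableSet {x : ℝ × ℝ | ‖x‖ ≤ R ∧ WV .L (w.om x).1 ∧ ¬ GoodAt δ .L (w.om x) t} :=
    (measurableSet_le measurable_norm measurable_const).inter
      (((continuous_om w).fst.measurable (meas_wv .L)).inter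
      ((continuous_om w).measurable (meas_goodAt δ .L t)).compl)
  have e : ∀ (z : ℝ × ℝ) (s : ℝ), w.om (z + s • ζ) = us s (w.om z) := fun z s => by
    refine Prod.ext ?_ rfl
    ext i
    fin_cases i <;> simp [us, Par.om, Par.eta, hζ]
  have har : ∀ z, area (w.om z) = w.A := fun z => by
    simp [area, Om, Par.om, Par.eta, Par.A]
  have := n2_avg volume hX hZ.measurableSet ζ 1
    (ENNReal.ofReal (C * δ ^ α + C1 * Real.exp (-t) / δ)) (by
      intro z s hs hx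
      have hz : z ∈ Metric.closedBall (0 : ℝ × ℝ) (R + ‖ζ‖) := by
        rw [mem_closedBall_zero_iff]
        have a1 : ‖z‖ ≤ ‖z + s • ζ‖ + ‖s • ζ‖ := by
          simpa using norm_sub_le (z + s • ζ) (s • ζ)
        have a2 : ‖s • ζ‖ ≤ ‖ζ‖ := by
          rw [norm_smul, Real.norm_eq_abs, abs_of_nonneg hs.1]
          nlinarith [hs.2, norm_nonneg ζ]
        linarith [hx.1]
      refine ⟨hz, le_trans (measure_mono ?_) (H .L (w.om z) ⟨z, hz, rfl⟩ (har z).ge (har z).le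
        (n2_hv w) δ t hδ hδ1)⟩
      rintro s' ⟨hs', -, h1, h2⟩
      rw [e] at h1 h2
      exact ⟨hs', h1, h2⟩)
  rw [ENNReal.ofReal_one, one_mul] at this
  exact this.trans (n2_fin hC hC1 hδ hZ.measure_lt_top.ne)

end Pool.Agent.TW.G
end
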