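import Pool.Agent.Lib.MP_4eaecc_an.XO1
import Pool.Agent.Lib.MP_4eaecc_an.XN2


/-! Domination by the invariant measure. -/

namespace Pool.Agent.TW.G

open Matrix MeasureTheory Filter Topology
open scoped ENNReal NNReal symmDiff

theorem m5b_le {δ t m M : ℝ} (hδ : 0 < δ) {τ : Ty} {y : Pt} {u : V} (h : GoodAt δ τ y t)
    (k : BndAt τ y t u m M) : m ≤ M := by
  have h1 : δ ≤ ev (ed (St τ y t).1 true 0) (Real.exp (-t) • ac (St τ y t).2 y.2) :=
    (h.2.2 true 0).1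
  rw [ev_smul] at h1
  have h2 := (mul_pos_iff_of_pos_left (Real.exp_pos _)).1 (hδ.trans_le h1)
  exact le_of_mul_le_mul_right ((k true 0).1.trans (k true 0).2) h2

theorem m5b_small {C α ε : ℝ} (hC : 0 < C) (hα : 0 < α) (hε : 0 < ε) :
    ∃ δ : ℝ, 0 < δ ∧ δ ≤ 1 ∧ ∀ᶠ t in atTop, ∀ s, t ≤ s → C * (δ ^ α + Real.exp (-s) / δ) ≤ ε := by
  have h0 : 0 < ε / (2 * C) := by positivity
  have h1 : 0 < min 1 (ε / (2 * C)) := lt_min one_pos h0
  refine ⟨min 1 (ε / (2 * C)) ^ α⁻¹, Real.rpow_pos_of_pos h1 _,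
    Real.rpow_le_one h1.le (min_le_left _ _) (inv_pos.2 hα).le, ?_⟩
  rw [Real.rpow_inv_rpow h1.le hα.ne']
  have h2 := Real.rpow_pos_of_pos h1 α⁻¹
  generalize min 1 (ε / (2 * C)) ^ α⁻¹ = δ at h2
  filter_upwards [Real.tendsto_exp_neg_atTop_nhds_zero.eventually
    (gt_mem_nhds (mul_pos h0 h2))] with t ht s hs
  have h3 : Real.exp (-s) / δ ≤ ε / (2 * C) :=
    (div_le_iff₀ h2).2 ((Real.exp_le_exp.2 (neg_le_neg hs)).trans ht.le)
  refine (mul_le_mul_of_nonneg_left (add_le_add (min_le_right _ _) h3) hC.le).trans_eq ?_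
  field_simp
  ring

theorem gapW (w : Par) (R : ℝ) {ε : ℝ} (hε : 0 < ε) : ∃ δ : ℝ, 0 < δ ∧ δ ≤ 1 ∧ ∀ κ : ℝ, 0 < κ →
    ∃ a : ℝ, 0 ≤ a ∧ ∀ᶠ t in atTop, volume {z ∈ ZR R | WV .L (w.E z) ∧
      ¬ (GoodAt δ .L (w.y z) t ∧ GoodAt δ .L (w.y z) (t + a) ∧ ∀ (u : V) (m M : ℝ),
        BndAt .L (w.y z) t u m M → ∃ m' M', M' - m' ≤ κ * (M - m) ∧
          BndAt .L (w.y z) (t + a) u m' M')} ≤ ENNReal.ofReal ε := by
  classical
  obtain ⟨C, α, hC, hα, H⟩ := ndivZ w R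
  obtain ⟨δ, d0, d1, hδ⟩ := m5b_small hC hα (show 0 < ε / 12 by positivity)
  refine ⟨δ, d0, d1, fun κ hκ => ?_⟩
  obtain ⟨τ2, c, t0, c0, G⟩ := gap_det d0 d1
  obtain ⟨J, J1, J2⟩ : ∃ J : ℕ, 10 ≤ J ∧ Real.exp (-c * J) ≤ κ := by
    have h1 : Tendsto (fun J : ℕ => Real.exp (-c * J)) atTop (𝓝 0) := by
      simp only [neg_mul]
      exact Real.tendsto_exp_neg_atTop_nhds_zero.comp
        (tendsto_natCast_atTop_atTop.const_mul_atTop c0)
    exact ((eventually_ge_atTop 10).and (h1.eventually (ge_mem_nhds hκ))).exists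
  refine ⟨J * τ2, by positivity, ?_⟩
  filter_upwards [hδ] with t ht
  let X : ℕ → Set (Fin 3 → ℝ) := fun j =>
    toMeasurable volume {z ∈ ZR R | WV .L (w.E z) ∧ ¬ GoodAt δ .L (w.y z) (t + j * τ2)}
  have h1 : ∀ j, volume (X j) ≤ ENNReal.ofReal (ε / 12) := fun j => by
    rw [measure_toMeasurable]
    exact (H δ _ d0 d1).trans (ENNReal.ofReal_le_ofReal
      (ht _ (le_add_of_nonneg_right (by positivity))))
  have h2 := count_bad volume X (fun j => measurableSet_toMeasurable _ _) (J + 1) (J / 10 + 1) _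
    fun j _ => h1 j
  have h3 : ((J + 1 : ℕ) : ℝ≥0∞) * ENNReal.ofReal (ε / 12) ≤
      (J / 10 + 1 : ℕ) * (10 * ENNReal.ofReal (ε / 12)) := by
    rw [← mul_assoc]
    refine mul_le_mul_left ?_ _
    exact_mod_cast (show J + 1 ≤ (J / 10 + 1) * 10 by omega)
  have h4 := (ENNReal.mul_le_mul_iff_right (by simp) (ENNReal.natCast_ne_top _)).1 (h2.trans h3)
  have h5 : ENNReal.ofReal ε =
      ENNReal.ofReal (ε / 12) + ENNReal.ofReal (ε / 12) + 10 * ENNReal.ofReal (ε / 12) := by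
    rw [← ENNReal.ofReal_ofNat 10, ← ENNReal.ofReal_mul (by norm_num),
      ← ENNReal.ofReal_add (by positivity) (by positivity),
      ← ENNReal.ofReal_add (by positivity) (by positivity)]
    congr 1
    ring
  rw [h5]
  refine le_trans (measure_mono ?_) ((measure_union_le _ _).trans
    (add_le_add ((measure_union_le (X 0) (X J)).trans (add_le_add (h1 0) (h1 J))) h4))
  rintro z ⟨z1, z2, z3⟩
  have k : ∀ j : ℕ, ¬ GoodAt δ .L (w.y z) (t + j * τ2) → z ∈ X j := fun j hj =>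
    subset_toMeasurable _ _ ⟨z1, z2, hj⟩
  by_cases g1 : GoodAt δ .L (w.y z) t
  swap
  · exact Or.inl (Or.inl (k 0 (by rwa [Nat.cast_zero, zero_mul, add_zero])))
  by_cases g2 : GoodAt δ .L (w.y z) (t + J * τ2)
  swap
  · exact Or.inl (Or.inr (k J g2))
  refine Or.inr ?_
  rw [Set.mem_ofPred_eq]
  refine not_lt.1 fun g3 => z3 ⟨g1, g2, fun u m M hu => ?_⟩
  have g4 : ((Finset.range (J + 1)).filter fun j : ℕ =>
      ¬ GoodAt δ .L (w.y z) (t + j * τ2)).card ≤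
        ((Finset.range (J + 1)).filter fun j => z ∈ X j).card :=
    Finset.card_le_card (Finset.monotone_filter_right _ fun j _ => k j)
  obtain ⟨m', M', -, -, g5, g6⟩ := G .L (w.y z) t J J1 g1.1 (by omega) u m M hu
  exact ⟨m', M', g5.trans (mul_le_mul_of_nonneg_right J2 (sub_nonneg.2 (m5b_le d0 g1 hu))), g6⟩

end Pool.Agent.TW.G
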