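import Pool.Agent.Lib.MP_4eaecc_an.XO7c
import Pool.Agent.Lib.MP_4eaecc_an.XG6
import Pool.Agent.Lib.MP_4eaecc_an.M4a
import Pool.Agent.Lib.MP_4eaecc_an.XM5b
import Pool.Agent.Lib.MP_4eaecc_an.M4

-- part Pool.Agent.Lib.MP_4eaecc_an.XO8a
section

/-! The good event on the grid is likely. -/

namespace Pool.Agent.TW.G

open Matrix MeasureTheory Filter Topology
open scoped ENNReal NNReal

/-- The good event on the grid of times `k β`, `k1 ≤ k ≤ n`; `ap m` is a fraction. -/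
def Grid (w : Par) (δ l : ℝ) (n k1 : ℕ) (β : ℝ) (ap : ℕ → ℤ × ℤ) (z : Fin 3 → ℝ) : Prop :=
  (∀ k : ℕ, k1 ≤ k → k ≤ n → GoodAt δ .L (w.y z) (k * β) ∧
    Real.exp (30 * β) ≤ w.lev z (k * β) ∧ w.lev z (k * β) ≤ Real.exp (k * β - 20 * β)) ∧
  (∀ k k' : ℕ, k1 ≤ k → k ≤ k' → k' ≤ n → l * w.lev z (k * β) ≤ w.lev z (k' * β)) ∧
  w.lev z (n * β) ≤ Real.exp (n * β - 2 * k1 * β) ∧
  ∀ k m : ℕ, k1 ≤ k → k ≤ n → m ≤ n → IsCoprime (ap m).1 (ap m).2 → 1 ≤ (ap m).2 →
    |(ap m).2 * w.ga - (ap m).1| * Real.exp (k * β) ≤ 1 →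
    Vbig ((St .L (w.y z) (k * β)).2 *ᵥ w0 (ap m).1 (ap m).2) (Real.exp (90 * β))

theorem o8a_small (K : ℝ) {α e : ℝ} (hα : 0 < α) (he : 0 < e) :
    ∃ δ : ℝ, 0 < δ ∧ δ ≤ 1 ∧ K * δ ^ α ≤ e := by
  have h1 := ((Real.continuousAt_rpow_const 0 α (Or.inr hα.le)).tendsto).const_mul K
  rw [Real.zero_rpow hα.ne', mul_zero] at h1
  obtain ⟨δ, h2, h3⟩ := (((h1.eventually (eventually_le_nhds he)).filter_mono
    nhdsWithin_le_nhds).and (Ioc_mem_nhdsGT (zero_lt_one' ℝ))).exists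
  exact ⟨δ, h3.1, h3.2, h2⟩

theorem o8a_ev (K : ℝ) {e : ℝ} (he : 0 < e) : ∀ᶠ β in atTop, K * Real.exp (-β) ≤ e := by
  have h1 := Real.tendsto_exp_neg_atTop_nhds_zero.const_mul K
  rw [mul_zero] at h1
  exact h1.eventually (eventually_le_nhds he)

theorem o8a_union {ι Z : Type} [MeasurableSpace Z] (μ : Measure Z) (s : Finset ι) (X : ι → Set Z)
    {a e : ℝ} (h : ∀ i ∈ s, μ (X i) ≤ ENNReal.ofReal a) (k : s.card * a ≤ e) :
    μ (⋃ i ∈ s, X i) ≤ ENNReal.ofReal e := by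
  refine (measure_biUnion_finset_le s X).trans ((Finset.sum_le_card_nsmul _ _ _ h).trans ?_)
  rw [nsmul_eq_mul, ← ENNReal.ofReal_natCast, ← ENNReal.ofReal_mul (Nat.cast_nonneg _)]
  exact ENNReal.ofReal_le_ofReal k

/-- The deterministic part. -/
theorem o8a_det (w : Par) {δ l Cv β : ℝ} {n k0 : ℕ} {ap : ℕ → ℤ × ℤ} {z : Fin 3 → ℝ}
    (hl : 0 < l) (hβ : 0 < β) (hlβ : l⁻¹ ≤ β) (hv : Cv ≤ β)
    (good : ∀ k : ℕ, k0 ≤ k → k ≤ n → GoodAt δ .L (w.y z) (k * β))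
    (nd : ∀ k k' : ℕ, k0 ≤ k → k ≤ k' → k' ≤ n → l * w.lev z (k * β) ≤ w.lev z (k' * β))
    (lg : Real.exp (902 * β) ≤ w.lev z (k0 * β))
    (g1 : ∀ t, (k0 + 180 : ℕ) * β ≤ t → w.lev z t ≤ Real.exp (t - 20 * β))
    (g2 : w.lev z (n * β) ≤ Real.exp (n * β - 2 * (k0 + 180 : ℕ) * β))
    (vb : ∀ j m : ℕ, j ≤ n → m ≤ n → IsCoprime (ap m).1 (ap m).2 → 1 ≤ (ap m).2 →
      |(ap m).2 * w.ga - (ap m).1| * Real.exp (j * β + 180 * β) ≤ 1 →
      GoodAt δ .L (w.y z) (j * β) → GoodAt δ .L (w.y z) (j * β + 180 * β) →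
      l * w.lev z (j * β) ≤ w.lev z (j * β + 180 * β) →
      Cv * Real.exp (4 * (180 * β)) * Real.exp (90 * β) ^ 2 ≤ w.lev z (j * β) →
      Vbig ((St .L (w.y z) (j * β + 180 * β)).2 *ᵥ w0 (ap m).1 (ap m).2) (Real.exp (90 * β))) :
    Grid w δ l n (k0 + 180) β ap z := by
  have hex : ∀ u : ℝ, u ≤ Real.exp u := fun u => by linarith [Real.add_one_le_exp u]
  have low : ∀ k : ℕ, k0 ≤ k → k ≤ n → Real.exp (901 * β) ≤ w.lev z (k * β) := fun k a b => by
    have a3 : Real.exp (-β) ≤ l := by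
      rw [Real.exp_neg]
      exact (inv_le_comm₀ (Real.exp_pos _) hl).2 (hlβ.trans (hex β))
    refine le_trans (le_of_eq ?_)
      ((mul_le_mul a3 lg (Real.exp_pos _).le hl.le).trans (nd k0 k le_rfl a b))
    rw [← Real.exp_add]
    congr 1
    ring
  refine ⟨fun k a b => ⟨good k (by omega) b, le_trans (Real.exp_le_exp.2 (by linarith))
    (low k (by omega) b), g1 _ (mul_le_mul_of_nonneg_right (Nat.cast_le.2 a) hβ.le)⟩,
    fun k k' a => nd k k' (by omega), g2, fun k m a b c p1 p2 p3 => ?_⟩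
  obtain ⟨j, rfl⟩ : ∃ j, k = j + 180 := ⟨k - 180, by omega⟩
  have e : ((j + 180 : ℕ) : ℝ) * β = j * β + 180 * β := by
    push_cast
    ring
  have f2 := good (j + 180) (by omega) b
  have f3 := nd j _ (by omega) (by omega) b
  rw [e] at f2 f3 p3 ⊢
  refine vb j m (by omega) c p1 p2 p3 (good j (by omega) (by omega)) f2 f3
    (le_trans ?_ (low j (by omega) (by omega)))
  refine (mul_le_mul_of_nonneg_right (mul_le_mul_of_nonneg_right (hv.trans (hex β))
    (Real.exp_pos _).le) (by positivity)).trans_eq ?_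
  rw [pow_two, ← Real.exp_add, ← Real.exp_add, ← Real.exp_add]
  congr 1
  ring

/-- `c2` from `gapZ`, `c0` from `lgZ`; `k1 = k0 + 180` with `c2 k1 ≥ 20` and `c0 k0 ≥ 902`; `n` with
`c2 n ≥ 2 k1`; then `δ` and `l` for the times `k0 ≤ k ≤ n`; `vbigZ` with `a = 180 β`. -/
theorem grid_prob (w : Par) (R : ℝ) {ε : ℝ} (hε : 0 < ε) : ∃ (δ l : ℝ) (n k1 : ℕ), 0 < δ ∧ δ ≤ 1 ∧
    0 < l ∧ l ≤ 1 ∧ 1 ≤ k1 ∧ k1 ≤ n ∧ ∀ᶠ β in atTop, ∀ ap : ℕ → ℤ × ℤ,
    volume {z ∈ ZR R | WV .L (w.E z) ∧ ¬ Grid w δ l n k1 β ap z} ≤ ENNReal.ofReal ε := by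
  have e6 : 0 < ε / 6 := by positivity
  have e12 : 0 < ε / 12 := by positivity
  obtain ⟨c2, hc2, hgap⟩ := gapZ w R e6
  obtain ⟨c0, hc0, hlg⟩ := lgZ w R e6
  obtain ⟨k0, a1⟩ := exists_nat_ge (1 + 902 / c0 + 20 / c2)
  have a2 : 0 < 902 / c0 := by positivity
  have a3 : 0 < 20 / c2 := by positivity
  have a4 : (1 : ℝ) ≤ k0 := by linarith
  have a5 : 902 ≤ k0 * c0 := (div_le_iff₀ hc0).1 (by linarith)
  have a6 : (k0 : ℝ) ≤ (k0 + 180 : ℕ) := Nat.cast_le.2 (Nat.le_add_right _ _)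
  have a7 : 20 ≤ (k0 + 180 : ℕ) * c2 := (div_le_iff₀ hc2).1 (by linarith)
  obtain ⟨n, b1⟩ := exists_nat_ge ((k0 + 180 : ℕ) + 2 * (k0 + 180 : ℕ) / c2)
  have b2 : 0 ≤ 2 * (k0 + 180 : ℕ) / c2 := by positivity
  have b3 : ((k0 + 180 : ℕ) : ℝ) ≤ n := by linarith
  have b4 : 2 * (k0 + 180 : ℕ) ≤ n * c2 := (div_le_iff₀ hc2).1 (by linarith)
  obtain ⟨C1, α, hC1, hα, hdiv⟩ := ndivZ w R
  obtain ⟨δ, d0, d1, d2⟩ := o8a_small (n * C1) hα e12
  obtain ⟨C2, hC2, hnd⟩ := ndZ w R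
  obtain ⟨l, l0, l1, l2⟩ := o8a_small (((n + 1) * (n + 1) : ℕ) * (C2 / δ ^ 10)) two_pos e6
  rw [Real.rpow_two] at l2
  obtain ⟨Cv, hCv, hvb⟩ := vbigZ w R d0 d1 l0
  refine ⟨δ, l, n, k0 + 180, d0, d1, l0, l1, by omega, Nat.cast_le.1 b3, ?_⟩
  filter_upwards [eventually_gt_atTop 0, eventually_ge_atTop l⁻¹, eventually_ge_atTop Cv,
    o8a_ev (n * C1 / δ) e12, o8a_ev (((n + 1) * (n + 1) : ℕ) * Cv) e6,
    (tendsto_id.const_mul_atTop (one_pos.trans_le a4)).eventually hlg,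
    (tendsto_id.const_mul_atTop (one_pos.trans_le (a4.trans a6))).eventually hgap,
    (tendsto_id.const_mul_atTop (one_pos.trans_le (a4.trans (a6.trans b3)))).eventually hgap]
    with β β0 β3 β4 β5 β6 β7 β8 β9 ap
  have m1 := o8a_union volume (Finset.range n) (e := ε / 6)
    (fun k => {z ∈ ZR R | WV .L (w.E z) ∧ ¬ GoodAt δ .L (w.y z) ((k + 1 : ℕ) * β)})
    (a := C1 * (δ ^ α + Real.exp (-β) / δ)) (fun k _ => (hdiv δ _ d0 d1).trans (by
      have : β ≤ (k + 1 : ℕ) * β := le_mul_of_one_le_left β0.le (by exact_mod_cast k.succ_pos)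
      gcongr)) (by
      rw [Finset.card_range]
      refine le_trans (le_of_eq ?_) ((add_le_add d2 β5).trans (by linarith))
      ring)
  have m2 := o8a_union volume (Finset.range (n + 1) ×ˢ Finset.range (n + 1)) (e := ε / 6)
    (fun q => {z ∈ ZR R | GoodAt δ .L (w.y z) (q.1 * β) ∧ GoodAt δ .L (w.y z) ((q.1 + q.2 : ℕ) * β) ∧
      w.lev z ((q.1 + q.2 : ℕ) * β) ≤ l * w.lev z (q.1 * β)})
    (fun q _ => hnd δ l _ _ d0 d1 l0 (by positivity)
      (mul_le_mul_of_nonneg_right (Nat.cast_le.2 (Nat.le_add_right _ _)) β0.le)) (by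
      rwa [Finset.card_product, Finset.card_range, ← mul_assoc])
  have m3 := o8a_union volume (Finset.range (n + 1) ×ˢ Finset.range (n + 1)) (e := ε / 6)
    (fun q => {z ∈ ZR R | IsCoprime (ap q.2).1 (ap q.2).2 ∧ 1 ≤ (ap q.2).2 ∧
      |(ap q.2).2 * w.ga - (ap q.2).1| * Real.exp (q.1 * β + 180 * β) ≤ 1 ∧
      GoodAt δ .L (w.y z) (q.1 * β) ∧ GoodAt δ .L (w.y z) (q.1 * β + 180 * β) ∧
      l * w.lev z (q.1 * β) ≤ w.lev z (q.1 * β + 180 * β) ∧
      Cv * Real.exp (4 * (180 * β)) * Real.exp (90 * β) ^ 2 ≤ w.lev z (q.1 * β) ∧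
      ¬ Vbig ((St .L (w.y z) (q.1 * β + 180 * β)).2 *ᵥ w0 (ap q.2).1 (ap q.2).2)
        (Real.exp (90 * β))})
    (a := Cv * Real.exp (-(180 * β)) * Real.exp (90 * β)) (fun q _ => by
      by_cases c : IsCoprime (ap q.2).1 (ap q.2).2 ∧ 1 ≤ (ap q.2).2 ∧
          |(ap q.2).2 * w.ga - (ap q.2).1| * Real.exp (q.1 * β + 180 * β) ≤ 1
      · refine le_trans (measure_mono ?_) (hvb (q.1 * β) (180 * β) _ _ _
          (by positivity) (by positivity) (Real.one_le_exp (by positivity)) c.1 c.2.1 c.2.2)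
        exact fun z hz => ⟨hz.1, hz.2.2.2.2⟩
      · exact (measure_mono (t := ∅) fun z hz => c ⟨hz.2.1, hz.2.2.1, hz.2.2.2.1⟩).trans
          (measure_empty.trans_le bot_le)) (by
      rw [Finset.card_product, Finset.card_range, mul_assoc, ← Real.exp_add, ← mul_assoc]
      refine le_trans ?_ β6
      gcongr
      linarith)
  have m4 := add_le_add (add_le_add (add_le_add (add_le_add (add_le_add m1 m2) m3) β7) β8) β9
  rw [← ENNReal.ofReal_add e6.le e6.le, ← ENNReal.ofReal_add (by positivity) e6.le,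
    ← ENNReal.ofReal_add (by positivity) e6.le, ← ENNReal.ofReal_add (by positivity) e6.le,
    ← ENNReal.ofReal_add (by positivity) e6.le,
    show ε / 6 + ε / 6 + ε / 6 + ε / 6 + ε / 6 + ε / 6 = ε by ring] at m4
  refine le_trans ((measure_mono ?_).trans ((measure_union_le _ _).trans (add_le_add_left
    ((measure_union_le _ _).trans (add_le_add_left ((measure_union_le _ _).trans (add_le_add_left
    ((measure_union_le _ _).trans (add_le_add_left (measure_union_le _ _) _)) _)) _)) _))) m4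
  rintro z ⟨z1, z2, z3⟩
  by_contra hz
  simp only [Set.mem_union, Set.mem_iUnion, not_or, not_exists, Set.mem_ofPred_eq, not_and, z1, z2,
    true_and, not_not, not_le, id, Finset.mem_range, Finset.mem_product] at hz
  obtain ⟨⟨⟨⟨⟨y1, y2⟩, y3⟩, y4⟩, y5⟩, y6⟩ := hz
  have a8 : 1 ≤ k0 := by exact_mod_cast a4
  have good : ∀ k : ℕ, k0 ≤ k → k ≤ n → GoodAt δ .L (w.y z) (k * β) := fun k k2 k3 => by
    obtain ⟨j, rfl⟩ : ∃ j, k = j + 1 := ⟨k - 1, by omega⟩
    exact y1 j (by omega)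
  refine z3 (o8a_det w (Cv := Cv) l0 β0 β3 β4 good (fun k k' k2 k3 k4 => ?_)
    (le_trans (Real.exp_le_exp.2 ?_) y4.le) (fun t ht => (y5 t ht).le.trans (Real.exp_le_exp.2 ?_))
    ((y6 _ le_rfl).le.trans (Real.exp_le_exp.2 ?_))
    fun j m k2 k3 => y3 (j, m) ⟨by omega, by omega⟩)
  · obtain ⟨d, rfl⟩ := Nat.exists_eq_add_of_le k3
    exact (y2 (k, d) ⟨by omega, by omega⟩ (good k k2 (by omega)) (good _ (by omega) k4)).le
  · linarith [mul_le_mul_of_nonneg_right a5 β0.le]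
  · linarith [mul_le_mul_of_nonneg_right a7 β0.le]
  · linarith [mul_le_mul_of_nonneg_right b4 β0.le]

end Pool.Agent.TW.G
end

-- part Pool.Agent.Lib.MP_4eaecc_an.XO8b
section

/-! Choice of the scale and of the time. -/

namespace Pool.Agent.TW.G

open Matrix MeasureTheory Filter Topology
open scoped ENNReal NNReal

theorem xo8b_first (P : ℕ → Prop) {a b : ℕ} (hab : a ≤ b) (hb : P b) :
    ∃ k, a ≤ k ∧ k ≤ b ∧ P k ∧ (k = a ∨ ∃ j, k = j + 1 ∧ a ≤ j ∧ ¬ P j) := by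
  classical
  have e : ∃ k, a ≤ k ∧ P k := ⟨b, hab, hb⟩
  refine ⟨Nat.find e, (Nat.find_spec e).1, Nat.find_min' e ⟨hab, hb⟩, (Nat.find_spec e).2, ?_⟩
  rcases (Nat.find_spec e).1.eq_or_lt with h | h
  · exact .inl h.symm
  · refine .inr ⟨Nat.find e - 1, by omega, by omega, fun k => ?_⟩
    exact Nat.find_min e (m := Nat.find e - 1) (by omega) ⟨by omega, k⟩

/-- `m` is the integer part of `(n β - log (lev (n β))) / β`. If `sig` is large, `k` is the least
integer with `Λ ≤ e^{k β} sig`; otherwise the least `k ≥ k1` with `e^{4 β} Λ ≤ e^{k β} lev`. -/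
theorem pick (w : Par) {δ l β : ℝ} {n k1 : ℕ} {ap : ℕ → ℤ × ℤ} {z : Fin 3 → ℝ} (hδ : 0 < δ)
    (hβ : 16 / δ ≤ Real.exp β) (h0 : 0 < β) (hk : k1 ≤ n)
    (hd : ∀ m : ℕ, Dir w (Real.exp (m * β)) (ap m).1 (ap m).2) (h : Grid w δ l n k1 β ap z) :
    ∃ m k : ℕ, m ≤ n ∧ k1 ≤ k ∧ k ≤ n ∧ Real.exp (m * β) * w.lev z (n * β) ≤ Real.exp (n * β) ∧
      Real.exp (n * β) ≤ Real.exp β * Real.exp (m * β) * w.lev z (n * β) ∧
      Suit w β (k * β) (Real.exp (m * β)) (ap m).1 (ap m).2 z := by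
  obtain ⟨h1, -, h3, h4⟩ := h
  obtain ⟨L, hL⟩ : ∃ L : ℕ → ℝ, ∀ k : ℕ, w.lev z (k * β) = Real.exp (L k) :=
    ⟨fun k => Real.log (w.lev z (k * β)), fun k => (Real.exp_log (w.lev_pos _ _)).symm⟩
  have b1 : ∀ k : ℕ, k1 ≤ k → k ≤ n → 30 * β ≤ L k ∧ L k ≤ k * β - 20 * β := fun k a b => by
    obtain ⟨-, c, d⟩ := h1 k a b
    rw [hL, Real.exp_le_exp] at c d
    exact ⟨c, d⟩
  have st : ∀ j : ℕ, k1 ≤ j → j ≤ n → L (j + 1) ≤ L j + 2 * β := fun j a b => by
    have := w.lev_step hδ (h1 j a b).1 (t' := (j + 1 : ℕ) * β) (by push_cast; nlinarith)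
    rw [hL, hL, show ((j + 1 : ℕ) : ℝ) * β - j * β = β by push_cast; ring] at this
    rw [← Real.exp_le_exp, two_mul, Real.exp_add, Real.exp_add]
    refine this.trans ?_
    rw [mul_comm, mul_div_right_comm]
    gcongr
  rw [hL, Real.exp_le_exp] at h3
  have bn := b1 n hk le_rfl
  obtain ⟨m, -, m1, m2, m3⟩ := xo8b_first (fun m => n * β < (m + 1) * β + L n) n.zero_le
    (by linarith)
  have m4 : m * β + L n ≤ n * β := by
    rcases m3 with rfl | ⟨j, rfl, -, c⟩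
    · simp only [Nat.cast_zero, zero_mul]
      linarith
    · push_cast
      exact not_lt.1 c
  have m5 : 2 * k1 ≤ m := by
    have : (2 * k1 : ℝ) < m + 1 := lt_of_mul_lt_mul_right (by linarith) h0.le
    exact Nat.lt_succ_iff.1 (by exact_mod_cast this)
  have m6 : 2 * (k1 * β) ≤ m * β := by
    rw [← mul_assoc]
    exact mul_le_mul_of_nonneg_right (by exact_mod_cast m5) h0.le
  have mb : 0 ≤ m * β := by positivity
  obtain ⟨d1, d2, d3, d4⟩ := hd m
  have q1 : (1 : ℝ) ≤ (ap m).2 := by exact_mod_cast d2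
  have s1 : 1 ≤ sig w (Real.exp (m * β)) (ap m).1 (ap m).2 := q1.trans (le_max_left _ _)
  have s2 : sig w (Real.exp (m * β)) (ap m).1 (ap m).2 ^ 2 ≤ Real.exp (m * β) := by
    rcases max_choice ((ap m).2 : ℝ) (Real.exp (m * β) * |(ap m).2 * w.ga - (ap m).1|) with c | c <;>
      rw [sig, c]
    · exact d3
    · rw [mul_pow, sq_abs, pow_two, mul_assoc]
      exact mul_le_of_le_one_right (Real.exp_pos _).le d4
  have s3 : Real.exp (m * β) * |(ap m).2 * w.ga - (ap m).1| ≤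
      sig w (Real.exp (m * β)) (ap m).1 (ap m).2 := le_max_right _ _
  obtain ⟨s, hs⟩ : ∃ s, sig w (Real.exp (m * β)) (ap m).1 (ap m).2 = Real.exp s :=
    ⟨_, (Real.exp_log (one_pos.trans_le s1)).symm⟩
  rw [hs] at s1 s2 s3
  rw [pow_two, ← Real.exp_add, Real.exp_le_exp] at s2
  rw [Real.one_le_exp_iff] at s1
  suffices ∃ k : ℕ, k1 ≤ k ∧ k ≤ n ∧
      ((13 * β ≤ s ∧ m * β ≤ k * β + s ∧ k * β + s ≤ β + m * β) ∨
        (s < 13 * β ∧ 4 * β + m * β ≤ k * β + L k ∧ k * β + L k ≤ 7 * β + m * β)) by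
    obtain ⟨k, a, b, c⟩ := this
    refine ⟨m, k, m1, a, b, ?_, ?_, (h1 k a b).2.1, (h1 k a b).2.2, ?_⟩
    · rwa [hL, ← Real.exp_add, Real.exp_le_exp]
    · rw [hL, ← Real.exp_add, ← Real.exp_add, Real.exp_le_exp]
      linarith
    simp only [hs, hL, ← Real.exp_add, Real.exp_le_exp, Real.exp_lt_exp]
    refine c.imp id fun c => ⟨c.1, c.2.1, c.2.2, h4 k m a b m1 d1 d2 ?_⟩
    have e : k * β + s ≤ m * β := by linarith [c.1, c.2.2, (b1 k a b).1]
    refine le_of_mul_le_mul_left ?_ (Real.exp_pos (m * β))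
    rw [← mul_assoc, mul_one]
    refine (mul_le_mul_of_nonneg_right s3 (Real.exp_pos _).le).trans ?_
    rwa [← Real.exp_add, Real.exp_le_exp, add_comm]
  rcases le_or_gt (13 * β) s with c | c
  · obtain ⟨k, -, a2, a3, a4⟩ := xo8b_first (fun k => m * β ≤ k * β + s) m.zero_le (by linarith)
    have : (k1 : ℝ) ≤ k := le_of_mul_le_mul_right (by linarith) h0
    refine ⟨k, by exact_mod_cast this, a2.trans m1, .inl ⟨c, a3, ?_⟩⟩
    rcases a4 with rfl | ⟨j, rfl, -, e⟩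
    · simp only [Nat.cast_zero, zero_mul]
      linarith
    · push_cast
      linarith [not_le.1 e]
  · obtain ⟨k, a1, a2, a3, a4⟩ := xo8b_first (fun k => 4 * β + m * β ≤ k * β + L k) hk (by
      have : (m : ℝ) * β ≤ n * β := mul_le_mul_of_nonneg_right (by exact_mod_cast m1) h0.le
      linarith)
    refine ⟨k, a1, a2, .inr ⟨c, a3, ?_⟩⟩
    rcases a4 with rfl | ⟨j, rfl, e1, e⟩
    · linarith [(b1 k a1 a2).2]
    · have := st j e1 (by omega)
      push_cast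
      linarith [not_le.1 e]

end Pool.Agent.TW.G
end

-- part Pool.Agent.Lib.MP_4eaecc_an.XO8
section

/-! The law of the renormalised widths is dominated by Lebesgue measure. -/

namespace Pool.Agent.TW.G

open Matrix MeasureTheory Filter Topology
open scoped ENNReal NNReal

theorem xo8_small (a b : ℝ) {ε : ℝ} (hε : 0 < ε) :
    ∀ᶠ β : ℝ in atTop, (a + b * β) * Real.exp (-β / 2) ≤ ε := by
  have h2 : Tendsto (fun β : ℝ => β / 2) atTop atTop := tendsto_id.atTop_div_const two_pos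
  have h0 := (Real.tendsto_exp_neg_atTop_nhds_zero.comp h2).const_mul a
  have h1 := ((Real.tendsto_pow_mul_exp_neg_atTop_nhds_zero 1).comp h2).const_mul (2 * b)
  have h3 := h0.add h1
  rw [mul_zero, mul_zero, add_zero] at h3
  filter_upwards [h3.eventually (ge_mem_nhds hε)] with β hβ
  simp only [Function.comp, pow_one] at hβ
  rw [neg_div]
  linarith

theorem xo8_mono {w : Par} {z : Fin 3 → ℝ} {j a S S' : ℝ} (h : Shear w z j a S) (k : S ≤ S') :
    Shear w z j a S' := fun u hu => (h u hu).trans (mul_le_mul_of_nonneg_right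
  (mul_le_mul_of_nonneg_right k (norm_nonneg _)) (w.lev_pos z _).le)

/-- Sum `cls3` over `m` and `k`. -/
theorem grid_dom (w : Par) (R : ℝ) {δ l : ℝ} {n k1 : ℕ} (hδ : 0 < δ) (h1 : δ ≤ 1) (hl : 0 < l)
    (hl1 : l ≤ 1) (hk : k1 ≤ n) : ∃ C : ℝ, 0 < C ∧ ∀ (E : Set V) (ω ε : ℝ), 0 < ω → 0 < ε →
    ∀ᶠ β in atTop, ∀ ap : ℕ → ℤ × ℤ, (∀ m : ℕ, Dir w (Real.exp (m * β)) (ap m).1 (ap m).2) →
      volume {z ∈ ZR R | Grid w δ l n k1 β ap z ∧ (nst .L (w.y z) (n * β)).1 ∈ E} ≤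
        ENNReal.ofReal C * volume (Metric.cthickening ω E) + ENNReal.ofReal ε := by
  obtain ⟨C, hC, H⟩ := cls3 w R hδ h1
  obtain ⟨Cs, hCs, Hs⟩ := shearZ w hδ h1 hl hl1 n
  refine ⟨(n + 1) ^ 2 * C, by positivity, fun E ω ε hω hε => ?_⟩
  have hω' : 0 < min ω (δ / 6) / 2 := by positivity
  filter_upwards [eventually_gt_atTop (0 : ℝ), eventually_ge_atTop C,
    Real.tendsto_exp_atTop.eventually (eventually_ge_atTop Cs),
    Real.tendsto_exp_atTop.eventually (eventually_ge_atTop (16 / δ)),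
    Real.tendsto_exp_neg_atTop_nhds_zero.eventually (ge_mem_nhds hω'),
    xo8_small ((n + 1) ^ 2 * C) ((n + 1) ^ 2 * C * n) hε] with β hβ hβ0 hβ1 hβ4 hβ2 hβ3 ap hap
  obtain ⟨X, hX⟩ : ∃ X : ℕ × ℕ → Set (Fin 3 → ℝ), X = fun i : ℕ × ℕ =>
    {z ∈ ZR R | (Grid w δ l n k1 β ap z ∧ (nst .L (w.y z) (n * β)).1 ∈ E) ∧ k1 ≤ i.2 ∧
      Real.exp (i.1 * β) * w.lev z (n * β) ≤ Real.exp (n * β) ∧
      Real.exp (n * β) ≤ Real.exp β * Real.exp (i.1 * β) * w.lev z (n * β) ∧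
      Suit w β (i.2 * β) (Real.exp (i.1 * β)) (ap i.1).1 (ap i.1).2 z} := ⟨_, rfl⟩
  obtain ⟨I, hI⟩ : ∃ I : Finset (ℕ × ℕ), I = Finset.range (n + 1) ×ˢ Finset.range (n + 1) :=
    ⟨_, rfl⟩
  have hIc : (I.card : ℝ) = (n + 1) ^ 2 := by
    rw [hI, Finset.card_product, Finset.card_range]
    push_cast
    ring
  have hcov : {z ∈ ZR R | Grid w δ l n k1 β ap z ∧ (nst .L (w.y z) (n * β)).1 ∈ E} ⊆
      ⋃ i ∈ I, X i := fun z hz => by
    obtain ⟨m, k, a1, a2, a3, a4⟩ := pick w hδ hβ4 hβ hk hap hz.2.1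
    simp only [Set.mem_iUnion]
    refine ⟨(m, k), ?_, ?_⟩
    · rw [hI, Finset.mem_product, Finset.mem_range, Finset.mem_range]
      exact ⟨Nat.lt_succ_of_le a1, Nat.lt_succ_of_le a3⟩
    · rw [hX]
      exact ⟨hz.1, hz.2, a2, a4⟩
  have hone : ∀ i ∈ I, volume (X i) ≤
      ENNReal.ofReal (C * ((n * β + 1) * Real.exp (-β / 2))) +
        ENNReal.ofReal C * volume (Metric.cthickening (min ω (δ / 6)) E) := by
    rintro ⟨m, k⟩ hi
    rw [hI, Finset.mem_product, Finset.mem_range, Finset.mem_range] at hi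
    have k2 : k ≤ n := Nat.le_of_lt_succ hi.2
    have k3 : (k : ℝ) ≤ n := by exact_mod_cast k2
    have k4 : (k : ℝ) * β ≤ n * β := mul_le_mul_of_nonneg_right k3 hβ.le
    have e1 : (k : ℝ) * β + (n * β - k * β) = n * β := by ring
    refine (H β (k * β) (n * β - k * β) (Real.exp (m * β)) _ (ap m).1 (ap m).2 E (X (m, k)) hβ0
      (by positivity) (by linarith) (hap m) (min_le_right _ _) (by linarith)
      fun z hz => ?_).trans (add_le_add (ENNReal.ofReal_le_ofReal (by gcongr)) le_rfl)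
    rw [hX] at hz
    obtain ⟨a0, ⟨⟨g1, g2, -⟩, a1⟩, k0, a2, a3, a4⟩ := hz
    rw [e1]
    refine ⟨a0, (g1 k k0 k2).1, (g1 n hk le_rfl).1, a1, ?_, a2, a3, a4⟩
    have := Hs (n - k) (Nat.sub_le _ _) z (k * β) β hβ.le fun i hi => by
      have e2 : (k : ℝ) * β + i * β = (k + i : ℕ) * β := by push_cast; ring
      have k5 : k1 ≤ k := k0
      rw [e2]
      exact ⟨(g1 _ (by omega) (by omega)).1, g2 _ _ k0 (by omega) (by omega)⟩
    rw [Nat.cast_sub k2, sub_mul] at this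
    refine xo8_mono this ?_
    rw [two_mul, Real.exp_add]
    exact mul_le_mul_of_nonneg_right hβ1 (Real.exp_pos _).le
  refine (measure_mono hcov).trans ((measure_biUnion_finset_le _ _).trans
    ((Finset.sum_le_sum hone).trans ?_))
  rw [Finset.sum_const, nsmul_eq_mul, mul_add, add_comm, ← mul_assoc, ← ENNReal.ofReal_natCast,
    hIc, ← ENNReal.ofReal_mul (by positivity), ← ENNReal.ofReal_mul (by positivity)]
  refine add_le_add (mul_le_mul' le_rfl
    (measure_mono (Metric.cthickening_mono (min_le_left _ _) E))) (ENNReal.ofReal_le_ofReal ?_)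
  linarith

theorem dom (w : Par) (R : ℝ) {ε : ℝ} (hε : 0 < ε) : ∃ C : ℝ, 0 < C ∧ ∀ E : Set V, IsCompact E →
    ∀ᶠ t in atTop, volume {z ∈ ZR R | WV .L (w.E z) ∧ (nst .L (w.y z) t).1 ∈ E} ≤
      ENNReal.ofReal C * volume E + ENNReal.ofReal ε := by
  have hε3 : 0 < ε / 3 := by positivity
  obtain ⟨δ, l, n, k1, hδ, h1, hl, hl1, hk1, hk, Hp⟩ := grid_prob w R hε3
  obtain ⟨C, hC, H⟩ := grid_dom w R hδ h1 hl hl1 hk
  refine ⟨C, hC, fun E hE => ?_⟩
  have hn : (0 : ℝ) < n := by exact_mod_cast lt_of_lt_of_le one_pos (hk1.trans hk)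
  have hlt : volume E < volume E + ENNReal.ofReal (ε / 3 / C) :=
    ENNReal.lt_add_right hE.measure_lt_top.ne (ENNReal.ofReal_pos.2 (by positivity)).ne'
  obtain ⟨ω, hω1, hω⟩ := ((((tendsto_measure_cthickening_of_isCompact hE).eventually
    (ge_mem_nhds hlt)).filter_mono nhdsWithin_le_nhds).and
    (self_mem_nhdsWithin (a := (0 : ℝ)) (s := Set.Ioi 0))).exists
  have ht : Tendsto (fun t : ℝ => t / n) atTop atTop := tendsto_id.atTop_div_const hn
  filter_upwards [ht.eventually Hp, ht.eventually (H E ω (ε / 3) hω hε3),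
    ht.eventually (eventually_ge_atTop 0)] with t b1 b2 b3
  choose p q hpq using fun m : ℕ =>
    exists_dir w (Real.one_le_exp (mul_nonneg (Nat.cast_nonneg m) b3))
  have a1 := b1 fun m => (p m, q m)
  have a2 := b2 (fun m => (p m, q m)) hpq
  rw [mul_div_cancel₀ t hn.ne'] at a2
  generalize (fun m => (p m, q m)) = ap at a1 a2
  have hsub : {z ∈ ZR R | WV .L (w.E z) ∧ (nst .L (w.y z) t).1 ∈ E} ⊆
      {z ∈ ZR R | Grid w δ l n k1 (t / n) ap z ∧ (nst .L (w.y z) t).1 ∈ E} ∪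
        {z ∈ ZR R | WV .L (w.E z) ∧ ¬ Grid w δ l n k1 (t / n) ap z} := fun z hz => by
    by_cases h : Grid w δ l n k1 (t / n) ap z
    · exact Or.inl ⟨hz.1, h, hz.2.2⟩
    · exact Or.inr ⟨hz.1, hz.2.1, h⟩
  refine (measure_mono hsub).trans ((measure_union_le _ _).trans ((add_le_add a2 a1).trans ?_))
  have e : ENNReal.ofReal ε = ENNReal.ofReal C * ENNReal.ofReal (ε / 3 / C) +
      ENNReal.ofReal (ε / 3) + ENNReal.ofReal (ε / 3) := by
    rw [← ENNReal.ofReal_mul hC.le, mul_div_cancel₀ _ hC.ne', ← ENNReal.ofReal_add hε3.le hε3.le,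
      ← ENNReal.ofReal_add (by positivity) hε3.le]
    congr 1
    ring
  rw [e, ← add_assoc, ← add_assoc, ← mul_add]
  gcongr

end Pool.Agent.TW.G
end

-- part Pool.Agent.Lib.MP_4eaecc_an.XM5
section

/-! Domination by the invariant measure. -/

namespace Pool.Agent.TW.G

open Matrix MeasureTheory Filter Topology
open scoped ENNReal NNReal symmDiff

/-- The point of the twist torus at time `t + log (z 0)`. -/
noncomputable def Par.x (w : Par) (z : Fin 3 → ℝ) (t : ℝ) : Pt :=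
  (Real.exp t • w.E z, (Real.exp (-t) / z 0) • w.eta)

/-- The compact set of good states. -/
def m5K (δ : ℝ) : Set Pt := ⋃ τ, {y | Good δ τ y}

theorem m5_compact {δ : ℝ} (hδ : 0 < δ) : IsCompact (m5K δ) :=
  isCompact_iUnion fun τ => isCompact_good hδ τ

theorem m5_cell {δ : ℝ} (hδ : 0 < δ) : m5K δ ⊆ Cell := by
  intro y hy
  obtain ⟨τ, hτ⟩ := Set.mem_iUnion.1 hy
  exact Dt_cell τ (Good.dt hτ hδ)

theorem m5_S1 {δ : ℝ} (hδ : 0 < δ) : m5K δ ⊆ S1 := by
  intro y hy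
  obtain ⟨τ, hτ⟩ := Set.mem_iUnion.1 hy
  exact ⟨1, τ, Reach.refl (m5_cell hδ hy), by rw [acP_one]; exact Good.dt hτ hδ⟩

theorem m5_scale {δ d : ℝ} (hδ : 0 < δ) {τ : Ty} {y : Pt} (h : Good δ τ y) (d1 : 1 / 2 ≤ d)
    (d2 : d ≤ 1) : (y.1, d • y.2) ∈ m5K (δ / 2) := by
  obtain ⟨⟨σ, g⟩, k⟩ := h
  refine Set.mem_iUnion.2 ⟨τ, ⟨σ, g.mono (by positivity) (by linarith)⟩, fun b i => ?_⟩
  obtain ⟨k1, k2⟩ := k b i
  have k3 : δ⁻¹ ≤ (δ / 2)⁻¹ := inv_anti₀ (by positivity) (by linarith)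
  simp only [ev_smul]
  constructor <;> nlinarith

theorem m5_bnd {τ : Ty} {η a : V} {m M c : ℝ} (h : Bnd τ η a m M) (hc : 0 ≤ c) :
    Bnd τ (c • η) (c • a) m M := by
  intro b i
  obtain ⟨h1, h2⟩ := h b i
  simp only [ev_smul]
  constructor
  · nlinarith [mul_le_mul_of_nonneg_left h1 hc]
  · nlinarith [mul_le_mul_of_nonneg_left h2 hc]

/-- The finitely many futures of length `a`. -/
theorem m5_fin (K : ℝ) : {B : Ty × Ty × Mat × (Fin 3 → Bool) |
    Act B.1 B.2.1 B.2.2.1 B.2.2.2 ∧ Mb B.2.2.1 K}.Finite := by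
  refine (Set.finite_univ.prod (Set.finite_univ.prod ((finite_mb K).prod Set.finite_univ))).subset
    fun B hB => ?_
  exact ⟨Set.mem_univ _, Set.mem_univ _, hB.2, Set.mem_univ _⟩

theorem m5_volTh : volume Th = 1 := by
  rw [Th, Real.volume_Icc_pi]
  simp
  norm_num

/-- The widths all of whose fibres over `Th` lie in `W`. -/
theorem m5_E {W : Set Pt} (hW : IsCompact W) : IsCompact {ξ : V | ∀ θ ∈ Th, (ξ, θ) ∈ W} ∧
    volume {ξ : V | ∀ θ ∈ Th, (ξ, θ) ∈ W} ≤ volume W := by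
  constructor
  · refine (hW.image continuous_fst).of_isClosed_subset ?_ fun ξ hξ => ?_
    · have : {ξ : V | ∀ θ ∈ Th, (ξ, θ) ∈ W} = ⋂ θ ∈ Th, (fun ξ : V => (ξ, θ)) ⁻¹' W := by
        ext ξ; simp
      rw [this]
      exact isClosed_biInter fun θ _ => hW.isClosed.preimage (by fun_prop)
    · refine ⟨(ξ, 1), hξ 1 ⟨le_rfl, fun i => ?_⟩, rfl⟩
      simp
  · calc volume {ξ : V | ∀ θ ∈ Th, (ξ, θ) ∈ W}
        = volume ({ξ : V | ∀ θ ∈ Th, (ξ, θ) ∈ W} ×ˢ Th) := by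
          rw [Measure.volume_eq_prod, Measure.prod_prod, m5_volTh, mul_one]
      _ ≤ volume W := measure_mono fun p hp => hp.1 p.2 hp.2

/-- The final point lies in `Y` and in the compact set. -/
theorem m5_final (w : Par) {δ T : ℝ} (hδ : 0 < δ) {z : Fin 3 → ℝ} (z1 : 1 ≤ z 0) (z2 : z 0 ≤ 2)
    (g : GoodAt δ .L (w.y z) T) {Y : Set Pt} (r : RInv Y) (hx : w.x z T ∈ Y) :
    ((nst .L (w.y z) T).1, (z 0)⁻¹ • (nst .L (w.y z) T).2) ∈ Y ∩ m5K (δ / 2) := by
  have z0 : 0 < z 0 := by linarith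
  refine ⟨?_, m5_scale hδ g.2 ?_ (inv_le_one_of_one_le₀ z1)⟩
  · have e : w.x z T = lin (Real.exp T) 0 0 (Real.exp (-T) / z 0) (w.y z) := by
      simp [Par.x, lin, Par.y]
    have k : Reach (w.x z T) (St .L (w.y z) T).2 := by
      rw [e]
      exact g.1.reach.lin (by simp only [mul_zero, sub_zero]; positivity)
    have k2 := (r _ _ k).1 hx
    rw [e, acP_lin] at k2
    convert k2 using 1
    simp only [nst, gt, lin, zero_smul, add_zero, zero_add, smul_smul, div_eq_inv_mul]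
  · rw [one_div]; exact inv_anti₀ z0 z2

theorem m5_key (w : Par) {δ e κ t a : ℝ} (hδ : 0 < δ) (ha : 0 ≤ a) (he : 0 < e)
    (hκ : κ = e * δ ^ 2 / (32 * w.A)) {z : Fin 3 → ℝ} (z1 : 1 ≤ z 0) (z2 : z 0 ≤ 2)
    (g1 : GoodAt δ .L (w.y z) t) (g2 : GoodAt δ .L (w.y z) (t + a))
    (c : ∀ (u : V) (m M : ℝ), BndAt .L (w.y z) t u m M → ∃ m' M', M' - m' ≤ κ * (M - m) ∧
      BndAt .L (w.y z) (t + a) u m' M') {Y : Set Pt} (r : RInv Y) (hx : w.x z (t + a) ∈ Y) :
    ∃ B : Ty × Ty × Mat × (Fin 3 → Bool),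
      (Act B.1 B.2.1 B.2.2.1 B.2.2.2 ∧ Mb B.2.2.1 (4 * Real.exp a / δ)) ∧ ∀ θ ∈ Th,
      ((nst .L (w.y z) t).1, θ) ∈ Wf w.A δ a B (Metric.cthickening e (Y ∩ m5K (δ / 2))) := by
  have hA := w.A_pos
  have z0 : 0 < z 0 := by linarith
  have fin := m5_final w hδ z1 z2 g2 r hx
  obtain ⟨s1, s2⟩ := St_add g1.1 (le_add_of_nonneg_right ha)
  rw [add_sub_cancel_left] at s1 s2
  have b1 : Base (St .L (w.y z) t).1 (nst .L (w.y z) t) a := g1.1.nst.mono ha
  have b2 := g2.1.nst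
  have ar2 := g2.1.area
  rw [w.area_y] at ar2
  have hP := St_symp .L (w.y z) t
  have hM := St_symp (St .L (w.y z) t).1 (nst .L (w.y z) t) a
  have act := b1.act
  have mb := mb_St g1.2.2 hδ b1
  obtain ⟨⟨σ2, w2⟩, -⟩ := g2.2
  have hσ := (sg_iff.1 (w2.sg hδ)).2.2
  obtain ⟨⟨σ1, w1⟩, h1⟩ := g1.2
  set τ := (St .L (w.y z) t).1 with hτ
  set P := (St .L (w.y z) t).2 with hPd
  set y1 := nst .L (w.y z) t with hy1
  set τ' := (St τ y1 a).1 with hτ'
  set M := (St τ y1 a).2 with hMd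
  have t2 : (St .L (w.y z) (t + a)).1 = τ' := by rw [s1]
  have P2 : (St .L (w.y z) (t + a)).2 = M * P := by rw [s1]
  have e1 : (nst .L (w.y z) (t + a)).1 = Real.exp a • ac M y1.1 := by rw [s2]; rfl
  have e2 : (nst .L (w.y z) (t + a)).2 = Real.exp (-(t + a)) • ac (M * P) w.eta := by
    rw [← P2]; rfl
  have e3 : y1.2 = Real.exp (-t) • ac P w.eta := rfl
  rw [← s2, ← t2, hσ, t2] at act
  rw [t2] at w2 b2
  refine ⟨(τ, τ', M, σ2), ⟨act, mb⟩, fun θ hθ => ⟨⟨σ1, w1⟩, hθ, e1 ▸ w2, ?_⟩⟩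
  have hO : δ * (1 / 4) ≤ Om y1.1 θ := (Om_good w1 hδ (δ' := 1 / 4) (fun b i => by
    obtain ⟨k1, k2⟩ := Th_edge τ hθ b i
    constructor <;> norm_num <;> linarith) (by norm_num)).1
  have hO' : 0 < Om y1.1 θ := lt_of_lt_of_le (by positivity) hO
  have u1 : ac P (Real.exp t • ac (sinv P) θ) = Real.exp t • θ := by
    rw [ac_smul, ← ac_mul, hP.mul_sinv, ac_one]
  have bd : BndAt .L (w.y z) t (Real.exp t • ac (sinv P) θ) 0 (4 / δ) := by
    have k : Bnd τ y1.2 θ 0 (4 / δ) := by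
      intro b i
      obtain ⟨k1, k2⟩ := Th_edge τ hθ b i
      refine ⟨by linarith, k2.trans ?_⟩
      rw [div_mul_eq_mul_div, le_div_iff₀ hδ]
      linarith [(h1 b i).1]
    have k' := m5_bnd k (Real.exp_pos t).le
    rw [e3, smul_smul, ← Real.exp_add, add_neg_cancel, Real.exp_zero, one_smul, ← u1] at k'
    exact k'
  obtain ⟨m', M', gap, bd'⟩ := c _ _ _ bd
  have bd2 : Bnd τ' (nst .L (w.y z) (t + a)).2 (Real.exp (-a) • ac M θ) m' M' := by
    have k := m5_bnd bd' (Real.exp_pos (-(t + a))).le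
    rw [t2, P2, ac_mul M P (Real.exp t • _), u1, ac_smul, smul_smul, ← Real.exp_add] at k
    rw [e2, show -a = -(t + a) + t by ring]
    exact k
  have cl := bd2.close b2.1 b2.2.1 b2.2.2.2
  have o1 : Om (nst .L (w.y z) (t + a)).1 (Real.exp (-a) • ac M θ) = Om y1.1 θ := by
    rw [e1, smul_Om, Om_smul, hM.Om_ac, ← mul_assoc, ← Real.exp_add, add_neg_cancel,
      Real.exp_zero, one_mul]
  have o2 : Om (nst .L (w.y z) (t + a)).1 (nst .L (w.y z) (t + a)).2 = z 0 * w.A := ar2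
  rw [o1, o2, Real.exp_zero, mul_one] at cl
  refine Metric.mem_cthickening_of_dist_le _ _ e _ fin ?_
  have ee : (w.A / Om y1.1 θ * Real.exp (-a)) • ac M θ - (z 0)⁻¹ • (nst .L (w.y z) (t + a)).2 =
      (w.A / Om y1.1 θ) • (Real.exp (-a) • ac M θ -
        (Om y1.1 θ / (z 0 * w.A)) • (nst .L (w.y z) (t + a)).2) := by
    rw [smul_sub, smul_smul, smul_smul]
    congr 2
    field_simp
  rw [e1, Prod.dist_eq, dist_self, dist_eq_norm]
  refine max_le he.le ?_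
  show ‖(w.A / Om y1.1 θ * Real.exp (-a)) • ac M θ - (z 0)⁻¹ • (nst .L (w.y z) (t + a)).2‖ ≤ e
  rw [ee, norm_smul, Real.norm_of_nonneg (by positivity)]
  have q1 : w.A / Om y1.1 θ ≤ w.A / (δ * (1 / 4)) :=
    div_le_div_of_nonneg_left hA.le (by positivity) hO
  have q2 : 2 * (M' - m') ≤ 2 * (κ * (4 / δ - 0)) := by linarith
  calc _ ≤ w.A / (δ * (1 / 4)) * (2 * (κ * (4 / δ - 0))) :=
        mul_le_mul q1 (cl.trans q2) (norm_nonneg _) (by positivity)
    _ = e := by rw [hκ]; field_simp; ring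

theorem thk (w : Par) (R : ℝ) {ε : ℝ} (hε : 0 < ε) : ∃ C : ℝ≥0, ∀ Y, MeasurableSet Y →
    ClosedIn Y → RInv Y → Rad Y → ∀ᶠ t in atTop,
    volume {z ∈ ZR R | WV .L (w.E z) ∧ w.x z t ∈ Y} ≤ C * mu1 w.A Y + ENNReal.ofReal ε := by
  have hA := w.A_pos
  have h3 : 0 < ε / 3 := by positivity
  obtain ⟨δ, hδ, -, hg⟩ := gapW w R h3
  obtain ⟨C1, -, hd⟩ := dom w R h3
  obtain ⟨C2, h2⟩ := Wf_sum w.A hδ
  have hδ2 : 0 < δ / 2 := by positivity
  obtain ⟨C3, hn⟩ := norm_vol hA hδ (m5_compact hδ2) (m5_S1 hδ2)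
  refine ⟨C1.toNNReal * C2 * C3, fun Y hY hcl r rad => ?_⟩
  have := mu1_finite hA
  have hN : IsCompact (Y ∩ m5K (δ / 2)) := (m5_compact hδ2).of_isClosed_subset
    (hcl _ (m5_compact hδ2) (m5_cell hδ2)) Set.inter_subset_right
  have lim := ENNReal.Tendsto.const_mul (a := ((C1.toNNReal * C2 : ℝ≥0) : ℝ≥0∞))
    (thick_lim hA hδ hN) (Or.inr ENNReal.coe_ne_top)
  have fin : ((C1.toNNReal * C2 * C3 : ℝ≥0) : ℝ≥0∞) * mu1 w.A Y ≠ ⊤ :=
    ENNReal.mul_ne_top ENNReal.coe_ne_top (measure_ne_top _ _)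
  have lt : ((C1.toNNReal * C2 : ℝ≥0) : ℝ≥0∞) * volume {y : Pt | δ ≤ Om y.1 y.2 ∧
      Om y.1 y.2 ≤ 24 / δ ∧ (y.1, (w.A / Om y.1 y.2) • y.2) ∈ Y ∩ m5K (δ / 2)} <
      ((C1.toNNReal * C2 * C3 : ℝ≥0) : ℝ≥0∞) * mu1 w.A Y + ENNReal.ofReal (ε / 3) := by
    refine lt_of_le_of_lt ?_ (ENNReal.lt_add_right fin (ENNReal.ofReal_pos.2 h3).ne')
    rw [ENNReal.coe_mul _ C3, mul_assoc]
    exact mul_le_mul_right (hn Y hY r rad) _
  obtain ⟨e, hlt, he⟩ := ((lim.eventually (gt_mem_nhds lt)).and self_mem_nhdsWithin).exists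
  have he0 : 0 < e := he
  obtain ⟨a, ha, hga⟩ := hg (e * δ ^ 2 / (32 * w.A)) (by positivity)
  set b := (m5_fin (4 * Real.exp a / δ)).toFinset with hb
  have hW : IsCompact (⋃ B ∈ b, Wf w.A δ a B (Metric.cthickening e (Y ∩ m5K (δ / 2)))) :=
    b.isCompact_biUnion fun B _ => isCompact_Wf w.A hδ a B Metric.isClosed_cthickening
  have vW := h2 a b _ (Metric.isClosed_cthickening (δ := e) (E := Y ∩ m5K (δ / 2))).measurableSet
    fun B hB => ((Set.Finite.mem_toFinset _).1 hB).1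
  obtain ⟨hE, vE⟩ := m5_E hW
  have ev := (tendsto_atTop_add_const_right atTop (-a) tendsto_id).eventually (hga.and (hd _ hE))
  filter_upwards [ev] with T hT
  obtain ⟨t, rfl⟩ : ∃ t, T = t + a := ⟨T - a, by ring⟩
  simp only [id, add_neg_cancel_right] at hT
  obtain ⟨k1, k2⟩ := hT
  refine le_trans (measure_mono ?_) ((measure_union_le _ _).trans ((add_le_add k1 k2).trans ?_))
  · rintro z ⟨hz, hw, hx⟩
    by_cases k : GoodAt δ .L (w.y z) t ∧ GoodAt δ .L (w.y z) (t + a) ∧ ∀ (u : V) (m M : ℝ),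
        BndAt .L (w.y z) t u m M → ∃ m' M', M' - m' ≤ e * δ ^ 2 / (32 * w.A) * (M - m) ∧
          BndAt .L (w.y z) (t + a) u m' M'
    · obtain ⟨B, hB, hB'⟩ := m5_key w hδ ha he0 rfl hz.2.1 hz.2.2 k.1 k.2.1 k.2.2 r hx
      exact Or.inr ⟨hz, hw, fun θ hθ => Set.mem_biUnion ((Set.Finite.mem_toFinset _).2 hB)
        (hB' θ hθ)⟩
    · exact Or.inl ⟨hz, hw, k⟩
  · have k3 := mul_le_mul_right (vE.trans vW) (ENNReal.ofReal C1)
    rw [← mul_assoc] at k3
    have k4 := k3.trans (le_trans (le_of_eq (by rw [ENNReal.coe_mul]; rfl)) hlt.le)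
    have k5 : ENNReal.ofReal ε = ENNReal.ofReal (ε / 3) + ENNReal.ofReal (ε / 3) +
        ENNReal.ofReal (ε / 3) := by
      rw [← ENNReal.ofReal_add h3.le h3.le, ← ENNReal.ofReal_add (by positivity) h3.le]
      congr 1; ring
    rw [k5]
    refine (add_le_add le_rfl (add_le_add k4 le_rfl)).trans (le_of_eq ?_)
    ring

end Pool.Agent.TW.G
end

-- part Pool.Agent.Lib.MP_4eaecc_an.XM6a
section

/-! Equidistribution for continuous densities with compact support. -/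

namespace Pool.Agent.TW.G

open Matrix MeasureTheory Filter Topology
open scoped ENNReal NNReal symmDiff

theorem Par.m6a_a (w : Par) : 0 < w.a := by
  exact w.a0

theorem Par.m6a_b (w : Par) : 0 < w.b := by
  exact w.b0

theorem Par.om_cell (w : Par) (x : ℝ × ℝ) : w.om x ∈ Cell := by
  intro i
  fin_cases i
  · simpa [ar, dt, vec, sp, sq, Par.om, Par.eta] using mul_pos w.m6a_a w.h10
  · simpa [ar, dt, vec, sp, sq, Par.om, Par.eta] using mul_pos w.m6a_b w.h10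
  · simpa [ar, dt, vec, sp, sq, Par.om, Par.eta] using mul_pos w.m6a_a w.h20

theorem Par.om_area (w : Par) (x : ℝ × ℝ) : area (w.om x) = w.A := by
  simp [area, Om, Par.om, Par.eta, Par.A]

theorem Par.om_us (w : Par) (x : ℝ × ℝ) (s : ℝ) :
    us s (w.om x) = w.om (x + s • (w.h1, w.h2)) := by
  refine Prod.ext (funext fun i => ?_) rfl
  fin_cases i <;> simp [us, Par.om, Par.eta]

theorem m6a_reach {y : Pt} {g : Mat} (h : y ∈ Cell) (hg : IsGen g) (k : acP g y ∈ Cell) :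
    Reach y g := by
  simpa only [mul_one] using (Reach.refl h).step hg (by rwa [mul_one])

theorem Par.om_S (w : Par) (x : ℝ × ℝ) :
    Reach (w.om x) Sp ∧ acP Sp (w.om x) = w.om (x + (w.a + w.b, 0)) := by
  have e : acP Sp (w.om x) = w.om (x + (w.a + w.b, 0)) := by
    refine Prod.ext (funext fun i => ?_) (funext fun i => ?_) <;> fin_cases i <;>
      simp [acP, ac, ev, Sp, Par.om, Par.eta, Fin.sum_univ_four, add_comm]
  exact ⟨m6a_reach (w.om_cell x) (by simp [IsGen]) (e ▸ w.om_cell _), e⟩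

theorem Par.om_T (w : Par) (x : ℝ × ℝ) :
    Reach (w.om x) Tp ∧ acP Tp (w.om x) = w.om (x + (0, w.a)) := by
  have e : acP Tp (w.om x) = w.om (x + (0, w.a)) := by
    refine Prod.ext (funext fun i => ?_) (funext fun i => ?_) <;> fin_cases i <;>
      simp [acP, ac, ev, Tp, Par.om, Par.eta, Fin.sum_univ_four, add_comm]
  exact ⟨m6a_reach (w.om_cell x) (by simp [IsGen]) (e ▸ w.om_cell _), e⟩

/-- A fundamental rectangle on which the widths are valid. -/
def Par.rect (w : Par) : Set (ℝ × ℝ) :=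
  Set.Icc (-2 * (w.a + w.b)) (-(w.a + w.b)) ×ˢ Set.Icc (-2 * w.a) (-w.a)

theorem Par.m6a_rect (w : Par) : MeasurableSet w.rect := measurableSet_Icc.prod measurableSet_Icc

theorem m6a_int {L R x : ℝ} (hL : 0 < L) (h : |x| ≤ R) :
    ∃ i ∈ Finset.Icc (-(⌈R / L⌉ + 2)) (⌈R / L⌉ + 2), x - i * L ∈ Set.Icc (-2 * L) (-L) := by
  have h1 := Int.floor_le (x / L)
  have h2 := Int.lt_floor_add_one (x / L)
  have h3 := Int.le_ceil (R / L)
  have h4 : x / L ≤ R / L := div_le_div_of_nonneg_right (le_of_abs_le h) hL.le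
  have h5 : -(R / L) ≤ x / L := by
    rw [← neg_div]; exact div_le_div_of_nonneg_right (neg_le_of_abs_le h) hL.le
  refine ⟨⌊x / L⌋ + 2, Finset.mem_Icc.mpr ⟨?_, ?_⟩, ?_, ?_⟩
  · have : (-(⌈R / L⌉ + 2) : ℝ) ≤ ⌊x / L⌋ + 2 := by linarith
    exact_mod_cast this
  · have : (⌊x / L⌋ + 2 : ℝ) ≤ ⌈R / L⌉ + 2 := by linarith
    exact_mod_cast this
  · rw [le_div_iff₀ hL] at h1
    push_cast
    linarith
  · rw [div_lt_iff₀ hL] at h2
    push_cast
    linarith

theorem Par.cover (w : Par) (R : ℝ) : ∃ N : ℝ≥0, ∀ G : ℝ × ℝ → ℝ≥0∞, Measurable G →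
    (∀ x, G (x + (w.a + w.b, 0)) = G x) → (∀ x, G (x + (0, w.a)) = G x) →
    ∫⁻ x in Metric.closedBall 0 R, G x ≤ N * ∫⁻ x in w.rect, G x := by
  have hL : 0 < w.a + w.b := add_pos w.m6a_a w.m6a_b
  obtain ⟨S, hS⟩ : ∃ S : Finset (ℤ × ℤ), ∀ x ∈ Metric.closedBall (0 : ℝ × ℝ) R, ∃ i ∈ S,
      x - (i.1 • (w.a + w.b, 0) + i.2 • (0, w.a)) ∈ w.rect := by
    refine ⟨Finset.Icc (-(⌈R / (w.a + w.b)⌉ + 2)) (⌈R / (w.a + w.b)⌉ + 2) ×ˢ
      Finset.Icc (-(⌈R / w.a⌉ + 2)) (⌈R / w.a⌉ + 2), fun x hx => ?_⟩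
    rw [mem_closedBall_zero_iff] at hx
    obtain ⟨i, hi, h1⟩ := m6a_int hL ((norm_fst_le x).trans hx)
    obtain ⟨j, hj, h2⟩ := m6a_int w.m6a_a ((norm_snd_le x).trans hx)
    exact ⟨(i, j), Finset.mem_product.mpr ⟨hi, hj⟩, by simpa [mul_add] using h1,
      by simpa using h2⟩
  refine ⟨S.card, fun G hG h1 h2 => ?_⟩
  have key : ∀ i : ℤ × ℤ, ∫⁻ x in (fun x => x - (i.1 • (w.a + w.b, 0) + i.2 • (0, w.a))) ⁻¹'
      w.rect, G x = ∫⁻ x in w.rect, G x := fun i => by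
    rw [← (measurePreserving_sub_right volume
      (i.1 • (w.a + w.b, (0 : ℝ)) + i.2 • (0, w.a))).setLIntegral_comp_preimage w.m6a_rect hG]
    refine lintegral_congr fun x => ?_
    exact ((((show Function.Periodic G _ from h1).zsmul i.1).add_period
      ((show Function.Periodic G _ from h2).zsmul i.2)).sub_eq x).symm
  calc ∫⁻ x in Metric.closedBall 0 R, G x
      ≤ ∫⁻ x in ⋃ i : S, (fun x => x - (i.1.1 • (w.a + w.b, 0) + i.1.2 • (0, w.a))) ⁻¹' w.rect,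
        G x := lintegral_mono_set fun x hx => by
          obtain ⟨i, hi, h⟩ := hS x hx
          exact Set.mem_iUnion.mpr ⟨⟨i, hi⟩, h⟩
    _ ≤ _ := lintegral_iUnion_le _ _
    _ = _ := by
      simp only [key]
      simp

theorem Par.m6a_om (w : Par) : Continuous w.om := by
  refine Continuous.prodMk (continuous_pi fun i => ?_) continuous_const
  fin_cases i
  exacts [continuous_const, continuous_const, continuous_fst, continuous_snd]

theorem Par.m6a_meas (w : Par) : Measurable fun p : ℝ × (ℝ × ℝ) => gt p.1 (w.om p.2) := by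
  have := w.m6a_om
  refine Continuous.measurable ?_
  unfold gt
  fun_prop

theorem m6a_vol (B : Set (Fin 3 → ℝ)) :
    volume ((fun p : ℝ × (ℝ × ℝ) => ![p.1, p.2.1, p.2.2]) ⁻¹' B) = volume B := by
  have h := ((volume_preserving_piFinSuccAbove (fun _ : Fin 3 => ℝ) 0).trans
    (e' := MeasurableEquiv.prodCongr (MeasurableEquiv.refl ℝ) MeasurableEquiv.finTwoArrow)
    ((MeasurePreserving.id volume).prod (volume_preserving_finTwoArrow ℝ))).symm
  rw [← h.measure_preimage_equiv B]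
  congr 2
  funext p i
  fin_cases i <;> rfl

/-- The substitution `z = e^τ (1, x)`. -/
theorem Par.box (w : Par) : ∃ R : ℝ, ∀ (Y : Set Pt) (t : ℝ), MeasurableSet Y →
    ∫⁻ τ in Set.Icc 0 (Real.log 2), volume {x ∈ w.rect | gt (t + τ) (w.om x) ∈ Y} ≤
      volume {z ∈ ZR R | WV .L (w.E z) ∧ w.x z t ∈ Y} := by
  have ha := w.m6a_a
  have hb := w.m6a_b
  refine ⟨2 + 4 * (w.a + w.b), fun Y t hY => ?_⟩
  obtain ⟨f, hf⟩ : ∃ f : ℝ → ℝ≥0∞,
      f = fun τ => volume {x ∈ w.rect | gt (t + τ) (w.om x) ∈ Y} := ⟨_, rfl⟩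
  have m1 : Measurable fun p : ℝ × (ℝ × ℝ) => p.1⁻¹ • p.2 :=
    measurable_fst.inv.smul measurable_snd
  have hB : MeasurableSet {p : ℝ × (ℝ × ℝ) | p.1 ∈ Set.Icc (1 : ℝ) 2 ∧ p.1⁻¹ • p.2 ∈ w.rect ∧
      gt (t + Real.log p.1) (w.om (p.1⁻¹ • p.2)) ∈ Y} :=
    (measurable_fst measurableSet_Icc).inter ((m1 w.m6a_rect).inter
      ((w.m6a_meas.comp ((measurable_fst.log.const_add t).prodMk m1)) hY))
  rw [← m6a_vol]
  refine le_trans ?_ (measure_mono (s := {p : ℝ × (ℝ × ℝ) | p.1 ∈ Set.Icc (1 : ℝ) 2 ∧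
    p.1⁻¹ • p.2 ∈ w.rect ∧ gt (t + Real.log p.1) (w.om (p.1⁻¹ • p.2)) ∈ Y}) ?_)
  · rw [Measure.volume_eq_prod ℝ (ℝ × ℝ), Measure.prod_apply hB]
    calc ∫⁻ τ in Set.Icc 0 (Real.log 2), volume {x ∈ w.rect | gt (t + τ) (w.om x) ∈ Y}
        ≤ ∫⁻ τ in Set.Icc 0 (Real.log 2),
          ENNReal.ofReal |Real.exp τ| * f (Real.log (Real.exp τ)) := by
          refine setLIntegral_mono' measurableSet_Icc fun τ hτ => ?_
          rw [Real.log_exp, hf]
          refine le_mul_of_one_le_left' ?_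
          rw [abs_of_pos (Real.exp_pos τ)]
          exact ENNReal.one_le_ofReal.mpr (Real.one_le_exp hτ.1)
      _ = ∫⁻ u in Real.exp '' Set.Icc 0 (Real.log 2), f (Real.log u) :=
          (lintegral_image_eq_lintegral_abs_deriv_mul measurableSet_Icc
            (fun x _ => (Real.hasDerivAt_exp x).hasDerivWithinAt) Real.exp_injective.injOn
            fun u => f (Real.log u)).symm
      _ ≤ ∫⁻ u in Set.Icc (1 : ℝ) 2, f (Real.log u) := lintegral_mono_set (by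
          rintro _ ⟨τ, hτ, rfl⟩
          exact ⟨Real.one_le_exp hτ.1, (Real.le_log_iff_exp_le two_pos).mp hτ.2⟩)
      _ ≤ _ := by
          refine (setLIntegral_mono' measurableSet_Icc fun u hu => ?_).trans
            (setLIntegral_le_lintegral _ _)
          have u0 : 0 < u := one_pos.trans_le hu.1
          have e : Prod.mk u ⁻¹' {p : ℝ × (ℝ × ℝ) | p.1 ∈ Set.Icc (1 : ℝ) 2 ∧
              p.1⁻¹ • p.2 ∈ w.rect ∧ gt (t + Real.log p.1) (w.om (p.1⁻¹ • p.2)) ∈ Y} =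
              (u⁻¹ • ·) ⁻¹' {x ∈ w.rect | gt (t + Real.log u) (w.om x) ∈ Y} :=
            Set.ext fun x => and_iff_right hu
          rw [e, Measure.addHaar_preimage_smul _ (inv_ne_zero u0.ne'), hf]
          refine le_mul_of_one_le_left' (ENNReal.one_le_ofReal.mpr ?_)
          rw [inv_pow, inv_inv]
          exact (one_le_pow₀ hu.1).trans (le_abs_self _)
  · rintro ⟨u, y⟩ ⟨hu, ⟨⟨h1, h2⟩, h3, h4⟩, h5⟩
    have u0 : 0 < u := one_pos.trans_le hu.1
    obtain ⟨x, rfl⟩ : ∃ x : ℝ × ℝ, y = u • x := ⟨u⁻¹ • y, (smul_inv_smul₀ u0.ne' y).symm⟩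
    simp only [inv_smul_smul₀ u0.ne'] at h1 h2 h3 h4 h5
    obtain ⟨u1, u2⟩ : 1 ≤ u ∧ u ≤ 2 := hu
    refine ⟨⟨(pi_norm_le_iff_of_nonneg (by positivity)).mpr fun i => ?_, u1, u2⟩, fun b i => ?_,
      ?_⟩
    · rw [Real.norm_eq_abs, abs_le]
      fin_cases i
      · exact ⟨by change _ ≤ u; linarith, by change u ≤ _; linarith⟩
      · exact ⟨by change _ ≤ u * x.1; nlinarith, by change u * x.1 ≤ _; nlinarith⟩
      · exact ⟨by change _ ≤ u * x.2; nlinarith, by change u * x.2 ≤ _; nlinarith⟩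
    · have k1 : u * x.1 < 0 := mul_neg_of_pos_of_neg u0 (by linarith)
      have k2 : u * x.2 < 0 := mul_neg_of_pos_of_neg u0 (by linarith)
      cases b <;> fin_cases i <;>
        simp [wd, ev, eR, eL, Par.E, Fin.sum_univ_four, k1, k2, ha, hb, u0]
    · convert h5 using 1
      refine Prod.ext (funext fun i => ?_) ?_
      · fin_cases i <;> simp [Par.x, gt, Par.E, Par.om, Real.exp_add, Real.exp_log u0] <;> ring
      · change (Real.exp (-t) / u) • w.eta = Real.exp (-(t + Real.log u)) • w.eta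
        rw [neg_add, Real.exp_add, Real.exp_neg (Real.log u), Real.exp_log u0, div_eq_mul_inv]

theorem m6a_gt {Y : Set Pt} (r : RInv Y) {y : Pt} {P : Mat} (h : Reach y P) (s : ℝ) :
    gt s (acP P y) ∈ Y ↔ gt s y ∈ Y := by
  rw [gt_eq, gt_eq, ← acP_lin]
  exact (r _ _ (h.lin (by rw [mul_zero, sub_zero]; positivity))).symm

theorem thkX (w : Par) (R : ℝ) {ε : ℝ} (hε : 0 < ε) : ∃ C : ℝ≥0, ∀ Y, MeasurableSet Y →
    ClosedIn Y → RInv Y → Rad Y → ∀ᶠ t in atTop,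
    ∫⁻ τ in Set.Icc 0 (Real.log 2), volume {x : ℝ × ℝ | ‖x‖ ≤ R ∧ gt (t + τ) (w.om x) ∈ Y} ≤
      C * mu1 w.A Y + ENNReal.ofReal ε := by
  obtain ⟨N, hN⟩ := w.cover R
  obtain ⟨R', hR⟩ := w.box
  have N0 : (0 : ℝ) < N + 1 := by positivity
  obtain ⟨C, hC⟩ := thk w R' (div_pos hε N0)
  refine ⟨N * C, fun Y hY h1 r h2 => (hC Y hY h1 r h2).mono fun t ht => ?_⟩
  have key : ∀ s, volume {x : ℝ × ℝ | ‖x‖ ≤ R ∧ gt s (w.om x) ∈ Y} ≤
      N * volume {x ∈ w.rect | gt s (w.om x) ∈ Y} := fun s => by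
    have m : MeasurableSet {x : ℝ × ℝ | gt s (w.om x) ∈ Y} :=
      (w.m6a_meas.comp measurable_prodMk_left) hY
    have := hN _ (measurable_one.indicator m)
      (fun x => Set.indicator_eq_indicator (by
        rw [Set.mem_ofPred_eq, ← (w.om_S x).2]; exact m6a_gt r (w.om_S x).1 s) rfl)
      (fun x => Set.indicator_eq_indicator (by
        rw [Set.mem_ofPred_eq, ← (w.om_T x).2]; exact m6a_gt r (w.om_T x).1 s) rfl)
    rw [lintegral_indicator_one m, lintegral_indicator_one m, Measure.restrict_apply m,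
      Measure.restrict_apply m] at this
    refine le_trans (measure_mono fun x hx => ?_) (this.trans_eq (by rw [Set.inter_comm]; rfl))
    exact ⟨hx.2, mem_closedBall_zero_iff.mpr hx.1⟩
  refine (lintegral_mono fun τ => key (t + τ)).trans ?_
  rw [lintegral_const_mul' _ _ ENNReal.coe_ne_top]
  refine (mul_le_mul_right ((hR Y t hY).trans ht) _).trans ?_
  rw [mul_add, ← mul_assoc, ENNReal.coe_mul]
  refine add_le_add_right ?_ _
  rw [← ENNReal.ofReal_coe_nnreal, ← ENNReal.ofReal_mul N.coe_nonneg]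
  refine ENNReal.ofReal_le_ofReal ?_
  rw [mul_div_assoc', div_le_iff₀ N0]
  nlinarith

end Pool.Agent.TW.G
end

-- part Pool.Agent.Lib.MP_4eaecc_an.XM6b
section

/-! Equidistribution for continuous densities with compact support. -/

namespace Pool.Agent.TW.G

open Matrix MeasureTheory Filter Topology
open scoped ENNReal NNReal symmDiff

theorem m6b_gt {F : Pt → ℝ} (r : RInvF F) {y : Pt} {P : Mat} (h : Reach y P) (s : ℝ) :
    F (gt s (acP P y)) = F (gt s y) := by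
  rw [gt_eq, gt_eq, ← acP_lin]
  exact r _ _ (h.lin (by rw [mul_zero, sub_zero]; positivity))

theorem m6b_add (s t : ℝ) (y : Pt) : gt (t + s) y = gt s (gt t y) := by
  simp only [gt, smul_smul, ← Real.exp_add, neg_add, add_comm]

theorem m6b_unif {F : Pt → ℝ} (c : ContinuousOn F Cell) {K : Set Pt} (hK : IsCompact K)
    (hc : K ⊆ Cell) {ε : ℝ} (hε : 0 < ε) :
    ∃ ω : ℝ, 0 < ω ∧ ∀ τ ∈ Set.Icc 0 ω, ∀ y ∈ K, |F (gt τ y) - F y| < ε := by
  have h := hK.eventually_forall_of_forall_eventually (x₀ := (0 : ℝ))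
    (P := fun τ y => |F (gt τ y) - F y| < ε) fun y hy => by
      have k := c.continuousAt (isOpen_cell.mem_nhds (hc hy))
      have k1 : Continuous fun z : ℝ × Pt => gt z.1 z.2 := by
        unfold gt
        fun_prop
      have k2 := ((k.tendsto.comp (k1.tendsto' (0, y) y (by simp [gt]))).sub
        (k.tendsto.comp (continuous_snd.tendsto ((0 : ℝ), y)))).abs
      rw [sub_self, abs_zero] at k2
      exact k2.eventually (gt_mem_nhds hε)
  obtain ⟨ω, h0, h1⟩ := Metric.eventually_nhds_iff.1 h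
  refine ⟨ω / 2, half_pos h0, fun τ hτ => h1 ?_⟩
  rw [Real.dist_eq, sub_zero, abs_of_nonneg hτ.1]
  linarith [hτ.2]

/-- Tightness and uniform continuity on the compact set of good states. -/
theorem time_win (w : Par) (R : ℝ) {F : Pt → ℝ} (hF : Measurable F) (c : ContinuousOn F Cell)
    {M : ℝ} (hM : ∀ y, |F y| ≤ M) (r : RInvF F) {η : ℝ} (hη : 0 < η) : ∃ ω : ℝ, 0 < ω ∧
    ∀ᶠ t in atTop, ∀ τ ∈ Set.Icc 0 ω, ∫⁻ x in Metric.closedBall (0 : ℝ × ℝ) R,
      ENNReal.ofReal |F (gt (t + τ) (w.om x)) - F (gt t (w.om x))| ≤ ENNReal.ofReal η := by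
  have ha := w.m6a_a
  have hb := w.m6a_b
  obtain ⟨N, hN⟩ := w.cover R
  obtain ⟨ε, e0, he⟩ := ENNReal.exists_nnreal_pos_mul_lt
    (a := N * (volume w.rect + ENNReal.ofReal (2 * M))) (b := ENNReal.ofReal η)
    (ENNReal.mul_ne_top ENNReal.coe_ne_top (ENNReal.add_ne_top.2
      ⟨(isCompact_Icc.prod isCompact_Icc).measure_ne_top, ENNReal.ofReal_ne_top⟩))
    (ENNReal.ofReal_pos.2 hη).ne'
  have e1 : (0 : ℝ) < ε := e0
  obtain ⟨C, α, hC, hα, H⟩ := ndivX w (2 * (w.a + w.b))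
  obtain ⟨δ, d0, d1, hδ⟩ := m5b_small hC hα e1
  obtain ⟨ω, h0, hω⟩ := m6b_unif c (m5_compact d0) (m5_cell d0) e1
  refine ⟨ω, h0, hδ.mono fun t ht τ hτ => ?_⟩
  have m : ∀ s, Measurable fun x => F (gt s (w.om x)) := fun s =>
    hF.comp (w.m6a_meas.comp measurable_prodMk_left)
  refine (hN (fun x => ENNReal.ofReal |F (gt (t + τ) (w.om x)) - F (gt t (w.om x))|)
    ((m _).sub (m _)).abs.ennreal_ofReal (fun x => ?_) fun x => ?_).trans ?_
  · simp only [← (w.om_S x).2, m6b_gt r (w.om_S x).1]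
  · simp only [← (w.om_T x).2, m6b_gt r (w.om_T x).1]
  have k : ∀ x ∈ w.rect, ENNReal.ofReal |F (gt (t + τ) (w.om x)) - F (gt t (w.om x))| ≤
      ε + {x : ℝ × ℝ | ‖x‖ ≤ 2 * (w.a + w.b) ∧ WV .L (w.om x).1 ∧
        ¬ GoodAt δ .L (w.om x) t}.indicator (fun _ => ENNReal.ofReal (2 * M)) x := by
    rintro x ⟨⟨h1, h2⟩, h3, h4⟩
    by_cases g : GoodAt δ .L (w.om x) t
    · refine le_add_right (ENNReal.ofReal_le_of_le_toReal ?_)
      rw [← m6b_gt r g.1.reach, ← m6b_gt r g.1.reach t, m6b_add]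
      exact (hω τ hτ _ (Set.mem_iUnion.2 ⟨_, g.2⟩)).le
    · rw [Set.indicator_of_mem]
      · refine le_add_left (ENNReal.ofReal_le_ofReal ((abs_sub _ _).trans ?_))
        linarith [hM (gt (t + τ) (w.om x)), hM (gt t (w.om x))]
      · refine ⟨max_le (abs_le.2 ⟨by linarith, by linarith⟩)
          (abs_le.2 ⟨by linarith, by linarith⟩), fun b i => ?_, g⟩
        have k1 : x.1 < 0 := by linarith
        have k2 : x.2 < 0 := by linarith
        cases b <;> fin_cases i <;> simp [wd, eR, eL, Par.om, ev_four, k1, k2, ha, hb]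
  refine (mul_le_mul_right (setLIntegral_mono' w.m6a_rect k) _).trans (le_trans ?_ he.le)
  rw [lintegral_add_left measurable_const, setLIntegral_const, mul_left_comm, mul_add (ε : ℝ≥0∞),
    mul_comm (ε : ℝ≥0∞) (ENNReal.ofReal _)]
  refine mul_le_mul_right (add_le_add_right ((lintegral_indicator_const_le _ _).trans
    (mul_le_mul_right ((Measure.restrict_le_self _).trans ((H δ t d0 d1).trans ?_)) _)) _) _
  exact ENNReal.ofReal_le_of_le_toReal (ht t le_rfl)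

theorem m6b_shift {ρ : ℝ × ℝ → ℝ} (hρ : Continuous ρ) (hc : HasCompactSupport ρ) :
    Tendsto (fun v => ∫ x, |ρ (x - v) - ρ x|) (𝓝 0) (𝓝 0) := by
  have h := continuousOn_integral_of_compact_support (μ := volume)
    (f := fun v x => |ρ (x - v) - ρ x|) (s := Metric.closedBall 0 1)
    (hc.isCompact.add (isCompact_closedBall (0 : ℝ × ℝ) 1))
    (Continuous.continuousOn (by unfold Function.uncurry; fun_prop)) fun v x hv hx => by
      rw [image_eq_zero_of_notMem_tsupport (f := ρ) fun e => hx ⟨_, e, v, hv, sub_add_cancel x v⟩,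
        image_eq_zero_of_notMem_tsupport (f := ρ) fun e =>
          hx ⟨_, e, 0, Metric.mem_closedBall_self zero_le_one, add_zero x⟩, sub_self, abs_zero]
  simpa using (h.continuousAt (Metric.closedBall_mem_nhds 0 one_pos)).tendsto

/-- `us k ∘ gt t = gt t ∘ us (k e^{-2t})` is a small translation of the twist parameters. -/
theorem shift_small (w : Par) {F : Pt → ℝ} (hF : Measurable F) {M : ℝ} (hM : ∀ y, |F y| ≤ M)
    {ρ : ℝ × ℝ → ℝ} (hρ : Continuous ρ) (hc : HasCompactSupport ρ) (k : ℝ) :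
    Tendsto (fun t => (∫ x, F (us k (gt t (w.om x))) * ρ x) - ∫ x, F (gt t (w.om x)) * ρ x)
      atTop (𝓝 0) := by
  have hv : Tendsto (fun t => (k * Real.exp (-t) ^ 2) • (w.h1, w.h2)) atTop (𝓝 0) := by
    simpa only [ne_eq, OfNat.ofNat_ne_zero, not_false_eq_true, zero_pow, mul_zero, zero_smul] using
      ((Real.tendsto_exp_neg_atTop_nhds_zero.pow 2).const_mul k).smul_const (w.h1, w.h2)
  have h := ((m6b_shift hρ hc).comp hv).const_mul M
  rw [mul_zero] at h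
  refine squeeze_zero_norm (fun t => ?_) h
  have e : ∀ x, us k (gt t (w.om x)) =
      gt t (w.om (x + (k * Real.exp (-t) ^ 2) • (w.h1, w.h2))) := fun x => by
    rw [← w.om_us]
    simp only [us, gt, smul_add, smul_smul]
    congr 3
    rw [Real.exp_neg]
    field_simp
  simp only [e, Function.comp_apply]
  generalize (k * Real.exp (-t) ^ 2) • (w.h1, w.h2) = v
  have i0 := hρ.integrable_of_hasCompactSupport (μ := volume) hc
  have i1 := i0.comp_sub_right v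
  have m : AEStronglyMeasurable (fun x => F (gt t (w.om x))) volume :=
    (hF.comp (w.m6a_meas.comp measurable_prodMk_left)).aestronglyMeasurable
  have e2 := integral_add_right_eq_self (μ := volume) (fun x => F (gt t (w.om x)) * ρ (x - v)) v
  simp only [add_sub_cancel_right] at e2
  rw [e2, ← integral_sub (i1.bdd_mul m (.of_forall fun x => hM _))
    (i0.bdd_mul m (.of_forall fun x => hM _)), ← integral_const_mul]
  refine norm_integral_le_of_norm_le ((i1.sub i0).abs.const_mul M) (.of_forall fun x => ?_)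
  rw [← mul_sub, Real.norm_eq_abs, abs_mul]
  exact mul_le_mul_of_nonneg_right (hM _) (abs_nonneg _)

end Pool.Agent.TW.G
end

-- part Pool.Agent.Lib.MP_4eaecc_an.XM6
section

/-! Equidistribution for continuous densities with compact support. -/

namespace Pool.Agent.TW.G

open Matrix MeasureTheory Filter Topology
open scoped ENNReal NNReal symmDiff

theorem m6_bd {ρ : ℝ × ℝ → ℝ} (hρ : Continuous ρ) (hc : HasCompactSupport ρ) :
    ∃ R K : ℝ, 0 < K ∧ ∀ (G : ℝ × ℝ → ℝ) (e : ℝ), 0 ≤ e →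
      ∫⁻ x in Metric.closedBall (0 : ℝ × ℝ) R, ENNReal.ofReal |G x| ≤ ENNReal.ofReal e →
      |∫ x, G x * ρ x| ≤ K * e := by
  obtain ⟨R, hR⟩ := hc.isCompact.isBounded.subset_closedBall 0
  obtain ⟨K, hK⟩ := hρ.bounded_above_of_compact_support hc
  refine ⟨R, |K| + 1, by positivity, fun G e he h => ?_⟩
  have h1 : ‖∫ x, G x * ρ x‖ₑ ≤ ENNReal.ofReal ((|K| + 1) * e) := by
    refine (enorm_integral_le_lintegral_enorm _).trans ?_
    rw [ENNReal.ofReal_mul (by positivity)]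
    refine le_trans ?_ (mul_le_mul_right h _)
    rw [← lintegral_const_mul' _ _ ENNReal.ofReal_ne_top,
      ← lintegral_indicator Metric.isClosed_closedBall.measurableSet]
    refine lintegral_mono fun x => ?_
    by_cases hx : x ∈ Metric.closedBall (0 : ℝ × ℝ) R
    · rw [Set.indicator_of_mem hx, ← ENNReal.ofReal_mul (by positivity), Real.enorm_eq_ofReal_abs,
        abs_mul, mul_comm]
      refine ENNReal.ofReal_le_ofReal (mul_le_mul_of_nonneg_right ?_ (abs_nonneg _))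
      linarith [hK x, le_abs_self K, Real.norm_eq_abs (ρ x)]
    · rw [image_eq_zero_of_notMem_tsupport fun k => hx (hR k)]
      simp
  rwa [Real.enorm_eq_ofReal_abs, ENNReal.ofReal_le_ofReal_iff (by positivity)] at h1

theorem m6_us (k : ℝ) : Continuous (us k) := by
  simpa only [← funext (us_eq k)] using m1_cont 1 k 0 1

theorem m6_pick {f : ℝ → ℝ≥0∞} {ω δ : ℝ} (hω : 0 < ω) (hδ : 0 < δ) (h : ω ≤ Real.log 2)
    (k : ∫⁻ τ in Set.Icc 0 (Real.log 2), f τ ≤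
      ENNReal.ofReal (δ * ω / 3) + ENNReal.ofReal (δ * ω / 3)) :
    ∃ τ ∈ Set.Icc 0 ω, f τ ≤ ENNReal.ofReal δ := by
  by_contra! hn
  have h1 : ∫⁻ _ in Set.Icc 0 ω, ENNReal.ofReal δ ≤ _ :=
    ((setLIntegral_mono' measurableSet_Icc fun τ hτ => (hn τ hτ).le).trans
      (lintegral_mono_set (Set.Icc_subset_Icc_right h))).trans k
  have := mul_pos hδ hω
  rw [setLIntegral_const, Real.volume_Icc, ← ENNReal.ofReal_mul hδ.le,
    ← ENNReal.ofReal_add (by positivity) (by positivity),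
    ENNReal.ofReal_le_ofReal_iff (by positivity)] at h1
  linarith

theorem equi_cc (w : Par) {F : Pt → ℝ} (hF : Measurable F) (c : ContinuousOn F Cell) {M : ℝ}
    (hM : ∀ y, |F y| ≤ M) (r : RInvF F) (s : ∀ (c : ℝ) (y : Pt), 0 < c → F (c • y) = F y)
    {ρ : ℝ × ℝ → ℝ} (hρ : Continuous ρ) (hc : HasCompactSupport ρ) :
    Tendsto (fun t => ∫ x, F (gt t (w.om x)) * ρ x) atTop
      (𝓝 ((∫ x, ρ x) * ((∫ y, F y ∂mu1 w.A) / (mu1 w.A).real Set.univ))) := by
  obtain ⟨R, K, K0, hK⟩ := m6_bd hρ hc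
  have hA : 0 < w.A :=
    add_pos (mul_pos (add_pos w.m6a_a w.m6a_b) w.h10) (mul_pos w.m6a_a w.h20)
  have hm := fun η hη => mean_us hA hF hM r s (η := η) hη
  generalize (∫ y, F y ∂mu1 w.A) / (mu1 w.A).real Set.univ = a at hm ⊢
  have M0 : 0 ≤ M := (abs_nonneg _).trans (hM 0)
  have mg : ∀ t, Measurable fun x => gt t (w.om x) := fun t =>
    w.m6a_meas.comp measurable_prodMk_left
  have hi : ∀ {g : ℝ × ℝ → Pt}, Measurable g → Integrable fun x => F (g x) * ρ x := fun hg =>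
    (hρ.integrable_of_hasCompactSupport hc).bdd_mul (hF.comp hg).aestronglyMeasurable
      (ae_of_all _ fun x => hM _)
  rw [Metric.tendsto_nhds]
  intro ε hε
  obtain ⟨ω₀, ω0, h1⟩ := time_win w R hF c hM r (η := ε / (4 * K)) (by positivity)
  obtain ⟨ω, hω, o1, o2⟩ : ∃ ω : ℝ, 0 < ω ∧ ω ≤ ω₀ ∧ ω ≤ Real.log 2 :=
    ⟨min _ _, lt_min ω0 (Real.log_pos one_lt_two), min_le_left _ _, min_le_right _ _⟩
  obtain ⟨V, V0, hV⟩ : ∃ V : ℝ, 0 < V ∧
      volume (Metric.closedBall (0 : ℝ × ℝ) R) ≤ ENNReal.ofReal V :=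
    ⟨(volume (Metric.closedBall (0 : ℝ × ℝ) R)).toReal + 1, by positivity,
      (ENNReal.ofReal_toReal measure_closedBall_lt_top.ne).ge.trans
        (ENNReal.ofReal_le_ofReal (by linarith))⟩
  obtain ⟨δ, hδ, d0⟩ : ∃ δ : ℝ, (M + |a| + 1) * δ = ε / (4 * K) ∧ 0 < δ :=
    ⟨ε / (4 * K) / (M + |a| + 1), mul_div_cancel₀ _ (by positivity), by positivity⟩
  obtain ⟨η, hη, e0⟩ : ∃ η : ℝ, η * V = ε / (4 * K) ∧ 0 < η :=
    ⟨ε / (4 * K) / V, div_mul_cancel₀ _ V0.ne', by positivity⟩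
  obtain ⟨C, hC⟩ := thkX w R (ε := δ * ω / 3) (by positivity)
  have h2 := ENNReal.Tendsto.const_mul (a := C) (hm η e0) (Or.inr ENNReal.coe_ne_top)
  rw [mul_zero] at h2
  obtain ⟨n, hn, n0⟩ := ((h2.eventually (ge_mem_nhds (ENNReal.ofReal_pos.mpr
    (show 0 < δ * ω / 3 by positivity)))).and (eventually_gt_atTop 0)).exists
  have n1 : (0 : ℝ) < n := Nat.cast_pos.mpr n0
  obtain ⟨A, hA⟩ : ∃ A : Pt → ℝ, A = fun y => (∑ k ∈ Finset.range n, F (us k y)) / n - a :=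
    ⟨_, rfl⟩
  have mA : Measurable A := hA ▸ ((Finset.measurable_fun_sum _ fun (k : ℕ) _ =>
    hF.comp (m6_us k).measurable).div_const _).sub_const _
  have mY : MeasurableSet {y | η ≤ |A y|} := measurableSet_le measurable_const mA.abs
  have bA : ∀ y, |A y| ≤ M + |a| + 1 := fun y => by
    have : |(∑ k ∈ Finset.range n, F (us k y)) / n| ≤ M := by
      rw [abs_div, abs_of_pos n1, div_le_iff₀ n1]
      refine (Finset.abs_sum_le_sum_abs _ _).trans ((Finset.sum_le_card_nsmul _ _ M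
        fun k _ => hM _).trans_eq (by simp [mul_comm]))
    rw [hA]
    linarith [abs_sub ((∑ k ∈ Finset.range n, F (us k y)) / n) a]
  have h3 := hC {y | η ≤ |A y|} mY (fun S hS k => by
      rw [Set.inter_comm]
      refine ContinuousOn.preimage_isClosed_of_isClosed (f := fun y => |A y|) (t := Set.Ici η)
        (ContinuousOn.abs ?_) hS.isClosed isClosed_Ici
      rw [hA]
      refine ((continuousOn_finsetSum _ fun (j : ℕ) _ => c.comp (m6_us j).continuousOn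
        fun y hy i => ?_).div_const _).sub continuousOn_const
      simpa [us_eq, ar_lin] using k hy i)
    (fun y P h => by
      have : ∀ k, F (us k (acP P y)) = F (us k y) := fun k => by
        rw [us_eq, us_eq, ← acP_lin, r _ _ (h.lin (by simp))]
      simp only [Set.mem_ofPred_eq, hA, this])
    (fun c y h => by
      have : ∀ k, F (us k (c • y)) = F (us k y) := fun k => by
        rw [← s c (us k y) h]
        simp [us, smul_comm k c]
      simp only [Set.mem_ofPred_eq, hA, this])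
  have e : ∀ t, ∫ x, A (gt t (w.om x)) * ρ x = (∑ k ∈ Finset.range n,
      ∫ x, F (us k (gt t (w.om x))) * ρ x) / n - (∫ x, ρ x) * a := fun t => by
    have i1 : ∀ k : ℕ, Integrable fun x => F (us k (gt t (w.om x))) * ρ x := fun k =>
      hi ((m6_us k).measurable.comp (mg t))
    rw [← integral_finsetSum _ fun k _ => i1 k, ← integral_div, ← integral_mul_const,
      ← integral_sub ((integrable_finsetSum _ fun k _ => i1 k).div_const _)
        ((hρ.integrable_of_hasCompactSupport hc).mul_const _)]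
    refine integral_congr_ae (ae_of_all _ fun x => ?_)
    simp only [hA, ← Finset.sum_mul]
    ring
  have h4 : Tendsto (fun t => (∑ k ∈ Finset.range n, ∫ x, F (us k (gt t (w.om x))) * ρ x) / n -
      ∫ x, F (gt t (w.om x)) * ρ x) atTop (𝓝 0) := by
    have := (tendsto_finsetSum (Finset.range n) fun k _ =>
      shift_small w hF hM hρ hc k).div_const (n : ℝ)
    simp only [Finset.sum_const_zero, zero_div] at this
    refine this.congr fun t => ?_
    rw [Finset.sum_sub_distrib, Finset.sum_const, Finset.card_range, nsmul_eq_mul, sub_div,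
      mul_div_cancel_left₀ _ n1.ne']
  filter_upwards [h1, h3, eventually_forall_ge_atTop.mpr
    (Metric.tendsto_nhds.mp h4 (ε / 4) (by positivity))] with t h1 h3 h4
  obtain ⟨τ, hτ, hv⟩ :=
    m6_pick hω d0 o2 (h3.trans (add_le_add_left (by simpa only [hA] using hn) _))
  have b1 := hK _ _ (by positivity) (h1 τ ⟨hτ.1, hτ.2.trans o1⟩)
  have b2 := hK (fun x => A (gt (t + τ) (w.om x))) (η * V + (M + |a| + 1) * δ) (by positivity) (by
    have m : MeasurableSet {x : ℝ × ℝ | η ≤ |A (gt (t + τ) (w.om x))|} := mg (t + τ) mY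
    calc ∫⁻ x in Metric.closedBall (0 : ℝ × ℝ) R, ENNReal.ofReal |A (gt (t + τ) (w.om x))|
        ≤ ∫⁻ x in Metric.closedBall (0 : ℝ × ℝ) R, ENNReal.ofReal η +
          {x : ℝ × ℝ | η ≤ |A (gt (t + τ) (w.om x))|}.indicator
            (fun _ => ENNReal.ofReal (M + |a| + 1)) x := lintegral_mono fun x => by
          by_cases hx : x ∈ {x : ℝ × ℝ | η ≤ |A (gt (t + τ) (w.om x))|}
          · rw [Set.indicator_of_mem hx]
            exact le_add_left (ENNReal.ofReal_le_ofReal (bA _))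
          · exact le_add_right (ENNReal.ofReal_le_ofReal (le_of_not_ge hx))
      _ ≤ _ := by
          rw [lintegral_add_left measurable_const, lintegral_indicator_const m, setLIntegral_const,
            Measure.restrict_apply m, ENNReal.ofReal_add (p := η * V) (by positivity) (by positivity),
            ENNReal.ofReal_mul e0.le, ENNReal.ofReal_mul (by positivity)]
          refine add_le_add (mul_le_mul_right hV _) (mul_le_mul_right (le_trans
            (measure_mono fun x hx => ?_) hv) _)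
          exact ⟨mem_closedBall_zero_iff.mp hx.2, hx.1⟩)
  have b3 := h4 (t + τ) (le_add_of_nonneg_right hτ.1)
  simp only [sub_mul] at b1
  rw [integral_sub (hi (mg _)) (hi (mg _))] at b1
  rw [e, hη, hδ, mul_add] at b2
  rw [show K * (ε / (4 * K)) = ε / 4 by field_simp] at b1 b2
  rw [Real.dist_eq, sub_zero, abs_lt] at b3
  rw [abs_le] at b1 b2
  rw [Real.dist_eq, abs_lt]
  constructor <;> linarith [b1.1, b1.2, b2.1, b2.2, b3.1, b3.2]

end Pool.Agent.TW.G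
end
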