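import Pool.Agent.Lib.MP_4eaecc_an.XO1
import Pool.Agent.Lib.MP_4eaecc_an.O6a

-- part Pool.Agent.Lib.MP_4eaecc_an.XO7a
section

/-! The estimate for one class of atoms. -/

namespace Pool.Agent.TW.G

open Matrix MeasureTheory Filter Topology
open scoped ENNReal NNReal

/-- The mixture of the thickened hyperplanes of the atoms in `s`. -/
noncomputable def mix (w : Par) (s : Finset Mat) (j N ρ : ℝ) (ξ : V) : ℝ :=
  ∑ P ∈ s, Real.exp (-3 * j) / N * ker ρ (Om (ac P w.v0) ξ / N)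

/-- The future of `z` between the times `j` and `j + a`. -/
noncomputable def fut (w : Par) (z : Fin 3 → ℝ) (j a : ℝ) : Ty × Mat × (Fin 3 → Bool) :=
  ((St .L (w.y z) (j + a)).1, (St (St .L (w.y z) j).1 (nst .L (w.y z) j) a).2,
    sg (St .L (w.y z) (j + a)).1 (nst .L (w.y z) (j + a)).1)

/-- The part of the region of the future `B` that lands in `E`. -/
def reg (δ a : ℝ) (B : Ty × Mat × (Fin 3 → Bool)) (E : Set V) : Set V :=
  {ζ | Gw (δ / 2) B.1 B.2.2 (Real.exp a • ac B.2.1 ζ) ∧ Real.exp a • ac B.2.1 ζ ∈ E}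

theorem meas_reg (δ a : ℝ) (B : Ty × Mat × (Fin 3 → Bool)) {E : Set V} (hE : MeasurableSet E) :
    MeasurableSet (reg δ a B E) := by
  have c : Continuous fun ζ : V => Real.exp a • ac B.2.1 ζ :=
    (continuous_ac B.2.1).const_smul (Real.exp a)
  exact (c.measurable (isClosed_gw _ _ _).measurableSet).inter (c.measurable hE)

theorem fut_finite (w : Par) {δ : ℝ} (hδ : 0 < δ) (j a : ℝ) (ha : 0 ≤ a) :
    {B | ∃ z, GoodAt δ .L (w.y z) j ∧ fut w z j a = B}.Finite := by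
  refine (Set.finite_univ.prod ((finite_mb (4 * Real.exp a / δ)).prod Set.finite_univ)).subset ?_
  rintro _ ⟨z, hz, rfl⟩
  exact ⟨trivial, mb_St hz.2.2 hδ (hz.1.nst.mono ha), trivial⟩

theorem o7a_ker (ρ N : ℝ) (v : V) : Measurable fun ξ : V => ENNReal.ofReal (ker ρ (Om v ξ / N)) := by
  refine Continuous.measurable (ENNReal.continuous_ofReal.comp ?_)
  unfold ker Om
  fun_prop

/-- One atom and one future. -/
theorem o7a_one (w : Par) {δ j a N ρ ω : ℝ} (hδ : 0 < δ) (h1 : δ ≤ 1) (ha : 0 ≤ a) (hN : 0 < N)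
    (hρ : 0 < ρ) (hω : ω ≤ δ / 6) (P : Mat) (B : Ty × Mat × (Fin 3 → Bool)) {E : Set V}
    {X : Set (Fin 3 → ℝ)}
    (h : ∀ z ∈ X, GoodAt δ .L (w.y z) j ∧ GoodAt δ .L (w.y z) (j + a) ∧
      (St .L (w.y z) j).2 = P ∧ fut w z j a = B ∧
      (nst .L (w.y z) (j + a)).1 ∈ E ∧ 2 * ρ * Real.exp a * N ≤ ω * w.lev z (j + a)) :
    volume X ≤ ENNReal.ofReal (Real.exp (-3 * j) / N) *
      ∫⁻ ξ in reg δ a B (Metric.cthickening ω E),
        ENNReal.ofReal (ker ρ (Om (ac P w.v0) ξ / N)) := by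
  rcases X.eq_empty_or_nonempty with rfl | ⟨z0, hz0⟩
  · simp
  have key : ∀ z ∈ X, (St .L (w.y z) (j + a)).2 = B.2.1 * P := fun z hz => by
    obtain ⟨g, -, e1, e2, -⟩ := h z hz
    rw [(St_add g.1 (le_add_of_nonneg_right ha)).1, add_sub_cancel_left, ← e1, ← e2]
    rfl
  have hP : Symp P := (h z0 hz0).2.2.1 ▸ St_symp _ _ _
  have hM : Symp B.2.1 := (h z0 hz0).2.2.2.1 ▸ St_symp _ _ _
  have lv : ∀ z ∈ X, w.lev z (j + a) = ‖ac B.2.1 (ac P w.v0)‖ := fun z hz => by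
    rw [Par.lev, Par.v, key z hz, ac_mul]
  obtain ⟨u, u1, u2⟩ := exists_dual (ac B.2.1 (ac P w.v0))
  have l0 : 0 < ‖ac B.2.1 (ac P w.v0)‖ := lv z0 hz0 ▸ w.lev_pos _ _
  generalize ‖ac B.2.1 (ac P w.v0)‖ = L at lv u2 l0
  have iu : ac B.2.1 (ac (sinv B.2.1) u) = u := by rw [← ac_mul, hM.mul_sinv, ac_one]
  refine thick w hP j (g := (N / L) • ac (sinv B.2.1) u) hN hρ ?_
    (meas_reg _ _ _ Metric.isClosed_cthickening.measurableSet) fun z hz s hs => ?_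
  · rw [Om_smul, ← hM.Om_ac, iu, u2, div_mul_cancel₀ _ l0.ne']
  obtain ⟨-, g, -, e2, e3, e4⟩ := h z hz
  have e5 : Real.exp a • ac B.2.1 (Real.exp j • ac P (w.E z) + s • (N / L) • ac (sinv B.2.1) u) -
      (nst .L (w.y z) (j + a)).1 = (Real.exp a * s * (N / L)) • u := by
    change _ - Real.exp (j + a) • ac (St .L (w.y z) (j + a)).2 (w.E z) = _
    rw [key z hz, ac_mul, ac_add, ac_smul, ac_smul, ac_smul, iu, Real.exp_add]
    module
  have e6 : ‖Real.exp a • ac B.2.1 (Real.exp j • ac P (w.E z) + s • (N / L) • ac (sinv B.2.1) u) -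
      (nst .L (w.y z) (j + a)).1‖ ≤ ω := by
    rw [lv z hz] at e4
    rw [e5, norm_smul, Real.norm_eq_abs, abs_mul, abs_mul, abs_of_pos (Real.exp_pos a),
      abs_of_pos (div_pos hN l0)]
    calc _ ≤ Real.exp a * ρ * (N / L) * 2 := by gcongr
      _ = 2 * ρ * Real.exp a * N / L := by ring
      _ ≤ ω := (div_le_iff₀ l0).2 e4
  obtain ⟨σ, hσ⟩ := g.2.1
  refine ⟨?_, Metric.mem_cthickening_of_dist_le _ _ _ _ e3 (by rwa [dist_eq_norm])⟩
  have e7 : B.1 = (St .L (w.y z) (j + a)).1 := e2 ▸ rfl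
  have e8 : B.2.2 = σ := e2 ▸ g5a_sg (hσ.sg hδ)
  rw [e7, e8]
  exact hσ.near hδ h1 (e6.trans hω)

/-- Thicken each pair (atom, future) in the direction that is shortest at the final time. -/
theorem cls_thick (w : Par) {δ j a N ρ ω : ℝ} (hδ : 0 < δ) (h1 : δ ≤ 1) (ha : 0 ≤ a) (hN : 0 < N)
    (hρ : 0 < ρ) (hω : ω ≤ δ / 6) {τ : Ty} (s : Finset Mat)
    (b : Finset (Ty × Mat × (Fin 3 → Bool))) {E : Set V} {X : Set (Fin 3 → ℝ)}
    (h : ∀ z ∈ X, GoodAt δ .L (w.y z) j ∧ GoodAt δ .L (w.y z) (j + a) ∧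
      (St .L (w.y z) j).1 = τ ∧ (St .L (w.y z) j).2 ∈ s ∧ fut w z j a ∈ b ∧
      (nst .L (w.y z) (j + a)).1 ∈ E ∧ 2 * ρ * Real.exp a * N ≤ ω * w.lev z (j + a)) :
    volume X ≤ ∑ B ∈ b, ∫⁻ ζ in reg δ a B (Metric.cthickening ω E),
      ENNReal.ofReal (mix w s j N ρ ζ) := by
  have c0 : 0 ≤ Real.exp (-3 * j) / N := by positivity
  have k0 : ∀ t, 0 ≤ ker ρ t := fun t => by unfold ker; positivity
  calc volume X ≤ volume (⋃ B ∈ b, ⋃ P ∈ s,
        {z ∈ X | (St .L (w.y z) j).2 = P ∧ fut w z j a = B}) := measure_mono fun z hz => by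
        obtain ⟨-, -, -, e1, e2, -⟩ := h z hz
        exact Set.mem_biUnion e2 (Set.mem_biUnion e1 ⟨hz, rfl, rfl⟩)
    _ ≤ _ := (measure_biUnion_finset_le _ _).trans (Finset.sum_le_sum fun B _ =>
        (measure_biUnion_finset_le _ _).trans ?_)
  simp only [mix]
  simp_rw [ENNReal.ofReal_sum_of_nonneg fun P _ => mul_nonneg c0 (k0 _), ENNReal.ofReal_mul c0]
  rw [lintegral_finsetSum _ fun P _ => (o7a_ker ρ N _).const_mul _]
  refine Finset.sum_le_sum fun P _ => ?_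
  rw [lintegral_const_mul _ (o7a_ker ρ N _)]
  refine o7a_one w hδ h1 ha hN hρ hω P B fun z hz => ?_
  obtain ⟨e1, e2, -, -, -, e3⟩ := h z hz.1
  exact ⟨e1, e2, hz.2.1, hz.2.2, e3⟩

/-- The futures of `b` come from points that are good at both times and have small shear. -/
def Live (w : Par) (δ j a κ : ℝ) (τ : Ty) (B : Ty × Mat × (Fin 3 → Bool)) : Prop :=
  ∃ z, GoodAt δ .L (w.y z) j ∧ GoodAt δ .L (w.y z) (j + a) ∧ (St .L (w.y z) j).1 = τ ∧
    fut w z j a = B ∧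
    ∀ u : V, Om (nst .L (w.y z) j).1 u = 0 → Real.exp (-a) * ‖ac B.2.1 u‖ ≤ κ * ‖u‖

end Pool.Agent.TW.G
end

-- part Pool.Agent.Lib.MP_4eaecc_an.XO6
section

/-! Shear along a bounded number of good times. -/

namespace Pool.Agent.TW.G

open Matrix MeasureTheory Filter Topology
open scoped ENNReal NNReal

/-- The bound on the part of the future matrix that preserves the hyperplane of the widths. -/
def Shear (w : Par) (z : Fin 3 → ℝ) (j a S : ℝ) : Prop :=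
  ∀ u : V, Om (nst .L (w.y z) j).1 u = 0 →
    ‖ac (St (St .L (w.y z) j).1 (nst .L (w.y z) j) a).2 u‖ * w.lev z j ≤
      S * ‖u‖ * w.lev z (j + a)

theorem o6_om (w : Par) (z : Fin 3 → ℝ) (t : ℝ) :
    Om (nst .L (w.y z) t).1 (w.v z t) = 0 ∧ Om (nst .L (w.y z) t).2 (w.v z t) = 0 := by
  have s := St_symp .L (w.y z) t
  constructor
  · rw [Par.v]
    refine (smul_Om _ _ _).trans ?_
    rw [acP, s.Om_ac, Par.y, w.Om_E, mul_zero]
  · rw [Par.v]
    refine (smul_Om _ _ _).trans ?_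
    rw [acP, s.Om_ac, Par.y, w.Om_eta, mul_zero]

theorem shearZ (w : Par) {δ l : ℝ} (hδ : 0 < δ) (h1 : δ ≤ 1) (hl : 0 < l) (hl1 : l ≤ 1) (n1 : ℕ) :
    ∃ C : ℝ, 0 < C ∧ ∀ n ≤ n1, ∀ (z : Fin 3 → ℝ) (j β : ℝ), 0 ≤ β →
    (∀ k ≤ n, GoodAt δ .L (w.y z) (j + k * β) ∧ l * w.lev z j ≤ w.lev z (j + k * β)) →
    Shear w z j (n * β) (C * Real.exp β) := by
  obtain ⟨C, C0, hC⟩ := shear (K := 2 / δ) (A := δ * δ) (by positivity) (by positivity) n1
  refine ⟨C * (16 / δ) / l ^ 2, by positivity, fun n hn z j β hβ h u hu => ?_⟩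
  have e : ∀ k : ℕ, j + ((k + 1 : ℕ) : ℝ) * β - (j + k * β) = β := fun k => by
    push_cast
    ring
  have e' : ∀ k : ℕ, j + (k : ℝ) * β ≤ j + ((k + 1 : ℕ) : ℝ) * β := fun k => by linarith [e k]
  have e0 : j + ((0 : ℕ) : ℝ) * β = j := by simp
  have b0 : Base .L (w.y z) j := e0 ▸ (h 0 n.zero_le).1.1
  have s0 := St_symp .L (w.y z) j
  have x1 : 1 ≤ Real.exp β := Real.one_le_exp hβ
  have u0 : ac (St .L (w.y z) j).2 (ac (sinv (St .L (w.y z) j).2) u) = u := by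
    rw [← ac_mul, s0.mul_sinv, ac_one]
  have key := hC n hn (fun k => (nst .L (w.y z) (j + k * β)).1)
    (fun k => (nst .L (w.y z) (j + k * β)).2) (fun k => w.v z (j + k * β))
    (fun k => ac (St .L (w.y z) (j + k * β)).2 (ac (sinv (St .L (w.y z) j).2) u))
    (fun k => (St (St .L (w.y z) (j + k * β)).1 (nst .L (w.y z) (j + k * β)) β).2)
    (fun _ => Real.exp β) (16 * Real.exp β / δ) l (by rw [le_div_iff₀ hδ]; linarith) hl hl1
    (fun k hk => ?_) (fun k hk => ?_) (by rw [e0, u0]; exact hu)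
  · have k := (St_add b0 (t' := j + n * β) (le_add_of_nonneg_right (by positivity))).1
    rw [e0, u0, k, ac_mul, u0, add_sub_cancel_left] at key
    exact key.trans_eq (by rw [Par.lev]; ring)
  · obtain ⟨⟨-, ⟨σ, g1⟩, g2⟩, g3⟩ := h k hk
    refine ⟨g1.norm hδ, g2.norm hδ, (Om_good g1 hδ g2 hδ).1, (o6_om w z _).1, (o6_om w z _).2,
      fun h0 => ?_, by rw [e0]; exact g3⟩
    exact w.v_ne (St_symp _ _ _) h0
  · obtain ⟨⟨g0, -, g2⟩, -⟩ := h k hk.le
    obtain ⟨a1, a2⟩ := St_add g0 (e' k)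
    have a3 := w.lev_add g0 (e' k)
    rw [e k] at a1 a2 a3
    refine ⟨St_symp _ _ _, fun a => ((mb_St g2 hδ (g0.nst.mono hβ)).norm_ac a).trans_eq (by ring),
      x1, by rw [a2]; rfl, by rw [a2, ← Real.exp_neg]; rfl, a3, by rw [a1, ac_mul]⟩

theorem o6_num {α p p' e e' lo hi G : ℝ} (l0 : 0 < lo) (h : lo ≤ p) (h0 : 0 ≤ p') (h' : p' ≤ hi)
    (k : |e| ≤ G) (k' : |e'| ≤ G) : |e' - α * p'| ≤ hi / lo * (|e - α * p| + G) + G := by
  have a1 : |α| * lo ≤ |e - α * p| + G := by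
    have := abs_sub e (e - α * p)
    rw [sub_sub_cancel, abs_mul, abs_of_nonneg (l0.le.trans h)] at this
    linarith [mul_le_mul_of_nonneg_left h (abs_nonneg α)]
  have a2 := abs_sub e' (α * p')
  rw [abs_mul, abs_of_nonneg h0] at a2
  have a3 : |α| * p' ≤ hi / lo * (|e - α * p| + G) := by
    refine (mul_le_mul ((le_div_iff₀ l0).mpr a1) h' h0 ?_).trans_eq (by ring)
    exact div_nonneg ((mul_nonneg (abs_nonneg α) l0.le).trans a1) l0.le
  linarith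

/-- On the region of a future, the linear form of any vector is almost a fixed multiple of the
area form. -/
theorem cmp {δ : ℝ} (hδ : 0 < δ) (h1 : δ ≤ 1) : ∃ R1 : ℝ, 1 ≤ R1 ∧ ∀ (τ τ' : Ty) (y : Pt)
    (M : Mat) (a κ : ℝ) (σ : Fin 3 → Bool), Symp M → Good δ τ y → Good δ τ' (gt a (acP M y)) →
    0 ≤ κ → (∀ u : V, Om y.1 u = 0 → Real.exp (-a) * ‖ac M u‖ ≤ κ * ‖u‖) →
    ∀ (f ζ ζ' : V), ‖f‖ ≤ 3 → Gw (δ / 2) τ' σ (Real.exp a • ac M ζ) →
      Gw (δ / 2) τ' σ (Real.exp a • ac M ζ') → |Om f ζ'| ≤ R1 * (|Om f ζ| + κ) := by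
  obtain ⟨F, hF⟩ : ∃ F, F = 3 + 6 * (2 / δ) * 3 / (δ * δ) * (2 / δ) := ⟨_, rfl⟩
  obtain ⟨G, hG⟩ : ∃ G, G = 6 * F * (2 / (δ / 2)) := ⟨_, rfl⟩
  obtain ⟨B, hB⟩ : ∃ B, B = 6 / (δ / 2 * δ) / (δ / 2 * δ) := ⟨_, rfl⟩
  have F0 : 0 < F := by rw [hF]; positivity
  have G0 : 0 < G := by rw [hG]; positivity
  have B0 : 0 < B := by rw [hB]; positivity
  refine ⟨1 + B + B * G + G, by nlinarith, fun τ τ' y M a κ σ hM ⟨⟨σ0, g1⟩, g2⟩ ⟨_, g3⟩ hκ hu f ζ ζ'
    hf hz hz' => ?_⟩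
  have o1 := (Om_good g1 hδ g2 hδ).1
  have o2 : 0 < Om y.1 y.2 := (mul_pos hδ hδ).trans_le o1
  obtain ⟨α, hα⟩ : ∃ α, α = Om y.1 f / Om y.1 y.2 := ⟨_, rfl⟩
  have a1 : |α| ≤ 6 * (2 / δ) * 3 / (δ * δ) := by
    rw [hα, abs_div, abs_of_pos o2]
    refine div_le_div₀ (by positivity) ((abs_Om_le _ _).trans ?_) (mul_pos hδ hδ) o1
    gcongr
    exact g1.norm hδ
  have a2 : ‖f - α • y.2‖ ≤ F := by
    refine (norm_sub_le _ _).trans ?_
    rw [hF, norm_smul, Real.norm_eq_abs]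
    gcongr
    exact g2.norm hδ
  have a3 := hu (f - α • y.2) (by rw [Om_sub, Om_smul, hα, div_mul_cancel₀ _ o2.ne', sub_self])
  have key : ∀ x : V, Gw (δ / 2) τ' σ (Real.exp a • ac M x) → ∃ e p, Om f x = e - α * p ∧
      |e| ≤ G * κ ∧ δ / 2 * δ ≤ p ∧ p ≤ 6 / (δ / 2 * δ) := fun x hx => by
    refine ⟨Om (Real.exp (-a) • ac M (f - α • y.2)) (Real.exp a • ac M x), _, ?_,
      (abs_Om_le _ _).trans ?_, Om_good hx (half_pos hδ) g3 hδ⟩
    · simp only [gt, acP, smul_Om, Om_smul, hM.Om_ac, sub_Om, ← mul_assoc]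
      rw [Om_swap x, Real.exp_neg]
      field_simp
      ring
    · rw [norm_smul (Real.exp (-a)), Real.norm_of_nonneg (Real.exp_pos _).le]
      refine (mul_le_mul (mul_le_mul_of_nonneg_left
        (a3.trans (mul_le_mul_of_nonneg_left a2 hκ)) (by norm_num)) (hx.norm (half_pos hδ))
        (norm_nonneg _) (by positivity)).trans_eq ?_
      rw [hG]
      ring
  obtain ⟨e, p, e1, e2, e3, -⟩ := key ζ hz
  obtain ⟨e', p', e1', e2', e3', e4⟩ := key ζ' hz'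
  have k := o6_num (α := α) (by positivity) e3 (le_trans (by positivity) e3') e4 e2 e2'
  rw [← e1, ← e1', ← hB] at k
  have x0 := abs_nonneg (Om f ζ)
  nlinarith [mul_nonneg B0.le hκ, mul_nonneg G0.le x0, mul_nonneg (mul_pos B0 G0).le x0]

end Pool.Agent.TW.G
end

-- part Pool.Agent.Lib.MP_4eaecc_an.XO7b
section

/-! The estimate for one class of atoms. -/

namespace Pool.Agent.TW.G

open Matrix MeasureTheory Filter Topology
open scoped ENNReal NNReal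

theorem o7b_live {w : Par} {δ j a κ : ℝ} {τ : Ty} {B : Ty × Mat × (Fin 3 → Bool)} (hδ : 0 < δ)
    (ha : 0 ≤ a) (h : Live w δ j a κ τ B) : ∃ y : Pt, Good δ τ y ∧ Act τ B.1 B.2.1 B.2.2 ∧
      Good δ B.1 (gt a (acP B.2.1 y)) ∧ Gw δ B.1 B.2.2 (Real.exp a • ac B.2.1 y.1) ∧
      ∀ u : V, Om y.1 u = 0 → Real.exp (-a) * ‖ac B.2.1 u‖ ≤ κ * ‖u‖ := by
  obtain ⟨z, h1, h2, rfl, rfl, h5⟩ := h
  have k : j ≤ j + a := le_add_of_nonneg_right ha
  obtain ⟨e1, e2⟩ := St_add h1.1 k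
  have h3 := (goodAt_add h1.1 k).1 h2
  rw [add_sub_cancel_left] at e1 e2 h3
  refine ⟨nst .L (w.y z) j, h1.2, ?_, ?_, ?_, h5⟩
  · simp only [fut, e1, e2]
    exact h3.1.act
  · simp only [fut, e1]
    exact h3.2
  · simp only [fut, e1, e2]
    obtain ⟨σ, hσ⟩ := h3.2.1
    rw [(sg_iff.1 (hσ.sg hδ)).2.2]
    exact hσ

theorem o7b_avg {Z : Type} [MeasurableSpace Z] (μ : Measure Z) {A Q : Set Z}
    (hA : MeasurableSet A) (hQ : MeasurableSet Q) (hQ' : μ Q ≠ ∞) {F F' : Z → ℝ≥0∞} {K : ℝ≥0∞}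
    (hK : K ≠ ∞) (h : ∀ x ∈ A, ∀ y ∈ Q, F x ≤ K * F' y) :
    (∫⁻ x in A, F x ∂μ) * μ Q ≤ K * (∫⁻ y in Q, F' y ∂μ) * μ A := by
  rw [← lintegral_mul_const' _ _ hQ', ← setLIntegral_const]
  refine setLIntegral_mono' hA fun x hx => ?_
  rw [← setLIntegral_const, ← lintegral_const_mul' _ _ hK]
  exact setLIntegral_mono' hQ fun y hy => h x hx y hy

theorem o7b_vol {M : Mat} (hM : Symp M) (a : ℝ) : ∃ k : ℝ≥0∞, k ≠ 0 ∧ k ≠ ∞ ∧
    ∀ Y : Set V, MeasurableSet Y →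
      volume ((fun ζ => Real.exp a • ac M ζ) ⁻¹' Y) = k * volume Y := by
  refine ⟨ENNReal.ofReal |(Real.exp a ^ Module.finrank ℝ V)⁻¹|, ?_, ENNReal.ofReal_ne_top,
    fun Y hY => ?_⟩
  · exact (ENNReal.ofReal_pos.2 (abs_pos.2 (by positivity))).ne'
  · rw [← Measure.addHaar_preimage_smul volume (Real.exp_pos a).ne' Y]
    exact hM.mp_ac.measure_preimage ((measurable_const_smul _) hY).nullMeasurableSet

theorem o7b_ker (ρ N : ℝ) (v : V) : Continuous fun ξ => ker ρ (Om v ξ / N) := by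
  unfold ker Om
  fun_prop

theorem o7b_mix (w : Par) (s : Finset Mat) (j N ρ : ℝ) :
    Measurable fun ζ => ENNReal.ofReal (mix w s j N ρ ζ) :=
  (continuous_finsetSum _ fun _ _ => continuous_const.mul (o7b_ker _ _ _)).measurable.ennreal_ofReal

/-- Bounded overlap inside a bounded set. -/
theorem cls_overlap (w : Par) {δ : ℝ} (hδ : 0 < δ) (h1 : δ ≤ 1) : ∃ C R0 : ℝ, 0 < C ∧
    ∀ (j a κ : ℝ) (τ : Ty) (b : Finset (Ty × Mat × (Fin 3 → Bool))) (G : V → ℝ≥0∞), 0 ≤ a →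
    Measurable G → (∀ B ∈ b, Live w δ j a κ τ B) →
    ∑ B ∈ b, ∫⁻ ζ in reg δ a B Set.univ, G ζ ≤
      ENNReal.ofReal C * ∫⁻ ζ in Metric.closedBall (0 : V) R0, G ζ := by
  classical
  obtain ⟨C, hC⟩ := overlap (half_pos hδ)
  refine ⟨C + 1, 4 / (δ / 2 * δ) * (2 / δ), by positivity, fun j a κ τ b G ha hG hb => ?_⟩
  simp only [← lintegral_indicator (meas_reg δ a _ MeasurableSet.univ)]
  rw [← lintegral_finsetSum _ fun B _ => hG.indicator (meas_reg δ a B MeasurableSet.univ),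
    ← lintegral_indicator measurableSet_closedBall,
    ← lintegral_const_mul' _ _ ENNReal.ofReal_ne_top]
  refine lintegral_mono fun ζ => ?_
  have h2 : (b.filter fun B => ζ ∈ reg δ a B Set.univ).card ≤ C := by
    have k := (Set.encard_le_encard (s := ↑(b.filter fun B => ζ ∈ reg δ a B Set.univ))
      fun B hB => ?_).trans (hC τ ζ _ (Real.exp_pos a))
    · rw [Set.encard_coe_eq_coe_finsetCard] at k
      exact_mod_cast k
    · obtain ⟨k1, k2⟩ := Finset.mem_filter.1 hB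
      obtain ⟨y, -, k3, -⟩ := o7b_live hδ ha (hb B k1)
      exact ⟨k3, k2.1⟩
  simp only [Set.indicator_apply]
  rw [← Finset.sum_filter, Finset.sum_const, nsmul_eq_mul]
  split_ifs with h
  · refine mul_le_mul_left ?_ _
    rw [← ENNReal.ofReal_natCast]
    exact ENNReal.ofReal_le_ofReal ((Nat.cast_le.2 h2).trans (le_add_of_nonneg_right zero_le_one))
  · rw [Finset.filter_false_of_mem fun B hB k => h ?_, Finset.card_empty, Nat.cast_zero, zero_mul,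
      mul_zero]
    obtain ⟨y, ⟨⟨σ, k1⟩, -⟩, k3, -, k4, -⟩ := o7b_live hδ ha (hb B hB)
    refine mem_closedBall_zero_iff.2 ((back_norm k3.2.1 (half_pos hδ) hδ (Real.exp_pos a) k.1
      k4).trans ?_)
    exact mul_le_mul_of_nonneg_left (k1.norm hδ) (by positivity)

/-- At the scale `r` the mixture is almost constant on each region. -/
theorem cls_main (w : Par) {δ : ℝ} (hδ : 0 < δ) (h1 : δ ≤ 1) : ∃ C : ℝ, 0 < C ∧
    ∀ (j a N r : ℝ) (τ : Ty) (s : Finset Mat) (b : Finset (Ty × Mat × (Fin 3 → Bool)))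
    (E : Set V), 0 ≤ a → 0 < N → 0 < r → MeasurableSet E → (∀ B ∈ b, Live w δ j a r τ B) →
    (∀ P ∈ s, N ≤ ‖ac P w.v0‖ ∧ ‖ac P w.v0‖ ≤ 3 * N) →
    ∑ B ∈ b, ∫⁻ ζ in reg δ a B E, ENNReal.ofReal (mix w s j N r ζ) ≤
      ENNReal.ofReal (C * ∑ P ∈ s, Real.exp (-3 * j) / N) * volume E := by
  obtain ⟨C, R0, hC, hov⟩ := cls_overlap w hδ h1
  obtain ⟨R1, hR, hcmp⟩ := cmp hδ h1
  obtain ⟨Cs, hCs, hslab⟩ := slab_le R0
  have R2 : 0 < R1 := one_pos.trans_le hR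
  have v0 : 0 < (2 * (δ / 6)) ^ 4 := by positivity
  refine ⟨4 * R1 / (2 * (δ / 6)) ^ 4 * (C * Cs), by positivity,
    fun j a N r τ s b E ha hN hr hE hb hs => ?_⟩
  have hk : ∀ ρ x : ℝ, 0 < ρ → 0 ≤ ker ρ x := fun ρ x h => by
    unfold ker
    positivity
  have h2 : ∀ B ∈ b, ∫⁻ ζ in reg δ a B E, ENNReal.ofReal (mix w s j N r ζ) ≤
      ENNReal.ofReal (4 * R1 / (2 * (δ / 6)) ^ 4) *
        (∫⁻ ζ in reg δ a B Set.univ, ENNReal.ofReal (mix w s j N (2 * R1 * r) ζ)) * volume E :=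
    fun B hB => by
    obtain ⟨y, k1, k2, k3, k4, k5⟩ := o7b_live hδ ha (hb B hB)
    obtain ⟨k, l1, l2, l3⟩ := o7b_vol k2.1 a
    have hT : Measurable fun ζ => Real.exp a • ac B.2.1 ζ :=
      ((continuous_const_smul (Real.exp a)).comp (continuous_ac B.2.1)).measurable
    have hQ : (fun ζ => Real.exp a • ac B.2.1 ζ) ⁻¹'
        Metric.closedBall (Real.exp a • ac B.2.1 y.1) (δ / 6) ⊆ reg δ a B Set.univ :=
      fun ζ hζ => ⟨k4.near hδ h1 (mem_closedBall_iff_norm.1 hζ), trivial⟩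
    have hV := l3 _ (measurableSet_closedBall (x := Real.exp a • ac B.2.1 y.1) (ε := δ / 6))
    rw [Real.volume_pi_closedBall _ (by positivity), Fintype.card_fin] at hV
    have m1 := o7b_avg volume (meas_reg δ a B hE) (hT measurableSet_closedBall)
      (hV ▸ ENNReal.mul_ne_top l2 ENNReal.ofReal_ne_top)
      (F := fun ζ => ENNReal.ofReal (mix w s j N r ζ))
      (F' := fun ζ => ENNReal.ofReal (mix w s j N (2 * R1 * r) ζ))
      (K := ENNReal.ofReal (4 * R1)) ENNReal.ofReal_ne_top fun ζ hζ ζ' hζ' => by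
        rw [← ENNReal.ofReal_mul (by positivity), mix, mix, Finset.mul_sum]
        refine ENNReal.ofReal_le_ofReal (Finset.sum_le_sum fun P hP => ?_)
        rw [mul_left_comm]
        refine mul_le_mul_of_nonneg_left (ker_cmp hr hR ?_) (by positivity)
        have m2 := hcmp τ B.1 y B.2.1 a r B.2.2 k2.1 k1 k3 hr.le k5 (N⁻¹ • ac P w.v0) ζ ζ'
          (by
            rw [norm_smul, Real.norm_of_nonneg (by positivity), inv_mul_le_iff₀ hN, mul_comm]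
            exact (hs P hP).2) hζ.1 (hQ hζ').1
        rwa [smul_Om, smul_Om, ← div_eq_inv_mul, ← div_eq_inv_mul] at m2
    have m3 : volume (reg δ a B E) ≤ k * volume E :=
      (measure_mono fun ζ hζ => hζ.2).trans_eq (l3 E hE)
    have m4 := m1.trans (mul_le_mul' (mul_le_mul_right (lintegral_mono_set hQ) _) m3)
    rw [hV, mul_left_comm, mul_left_comm _ k, ENNReal.mul_le_mul_iff_right l1 l2,
      ← ENNReal.le_div_iff_mul_le (Or.inl (ENNReal.ofReal_pos.2 v0).ne')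
        (Or.inl ENNReal.ofReal_ne_top)] at m4
    refine m4.trans_eq ?_
    rw [ENNReal.ofReal_div_of_pos v0, ENNReal.div_eq_inv_mul, ENNReal.div_eq_inv_mul]
    ring
  have h3 : ∫⁻ ζ in Metric.closedBall (0 : V) R0, ENNReal.ofReal (mix w s j N (2 * R1 * r) ζ) ≤
      ENNReal.ofReal (Cs * ∑ P ∈ s, Real.exp (-3 * j) / N) := by
    have m1 : ∀ ζ, ENNReal.ofReal (mix w s j N (2 * R1 * r) ζ) =
        ∑ P ∈ s, ENNReal.ofReal (Real.exp (-3 * j) / N) *
          ENNReal.ofReal (ker (2 * R1 * r) (Om (ac P w.v0) ζ / N)) := fun ζ => by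
      rw [mix, ENNReal.ofReal_sum_of_nonneg fun P _ =>
        mul_nonneg (by positivity) (hk _ _ (by positivity))]
      exact Finset.sum_congr rfl fun P _ => ENNReal.ofReal_mul (by positivity)
    simp only [m1]
    rw [lintegral_finsetSum _ fun P _ =>
      (o7b_ker _ _ _).measurable.ennreal_ofReal.const_mul _, Finset.mul_sum,
      ENNReal.ofReal_sum_of_nonneg fun P _ => by positivity]
    refine Finset.sum_le_sum fun P hP => ?_
    rw [lintegral_const_mul' _ _ ENNReal.ofReal_ne_top]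
    refine (mul_le_mul_right (hslab N _ _ hN (by positivity) (hs P hP).1) _).trans_eq ?_
    rw [← ENNReal.ofReal_mul (by positivity)]
    congr 1
    field_simp
  refine (Finset.sum_le_sum h2).trans ?_
  rw [← Finset.sum_mul, ← Finset.mul_sum]
  refine mul_le_mul_left ((mul_le_mul_right ((hov j a r τ b _ ha (o7b_mix w s j N _) hb).trans
    (mul_le_mul_right h3 _)) _).trans_eq ?_) _
  rw [← ENNReal.ofReal_mul hC.le, ← ENNReal.ofReal_mul (by positivity)]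
  congr 1
  ring

end Pool.Agent.TW.G
end
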