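import Pool.Agent.Lib.MP_4eaecc_an.XO1
import Pool.Agent.Lib.MP_4eaecc_an.XO7b

-- part Pool.Agent.Lib.MP_4eaecc_an.XO2
section

/-! The mixture of hyperplanes is flat between the scales `ρ` and `r`. -/

namespace Pool.Agent.TW.G

open Matrix MeasureTheory Filter Topology
open scoped ENNReal NNReal

/-- The largest two by two minor. -/
noncomputable def wn (v a : Z4) : ℝ := ‖fun p : Fin 4 × Fin 4 => ((v p.1 * a p.2 - v p.2 * a p.1 : ℤ) : ℝ)‖

theorem o2_minor (v a : Z4) (i l : Fin 4) : |((v i * a l - v l * a i : ℤ) : ℝ)| ≤ wn v a :=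
  norm_le_pi_norm (fun p : Fin 4 × Fin 4 => ((v p.1 * a p.2 - v p.2 * a p.1 : ℤ) : ℝ)) (i, l)

/-- The three minors with the index `i`. -/
def o2b (v : Z4) (i : Fin 4) (a : Z4) : Fin 3 → ℤ :=
  fun l => v i * a (i.succAbove l) - v (i.succAbove l) * a i

/-- The largest entry. -/
def o2m (b : Fin 3 → ℤ) : ℕ := Finset.univ.sup fun l => (b l).natAbs

theorem o2m_le {b : Fin 3 → ℤ} {n : ℕ} : o2m b ≤ n ↔ ∀ l, |b l| ≤ n := by
  simp only [o2m, Finset.sup_le_iff, Finset.mem_univ, true_imp_iff]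
  exact forall_congr' fun l => by rw [← Int.natCast_natAbs, Int.ofNat_le]

section
variable {v : Z4} {i : Fin 4} (hi : ∀ l, |v l| ≤ |v i|) (h0 : v i ≠ 0)

theorem o2_all {a : Z4} {n : ℕ} (h : o2m (o2b v i a) ≤ n) (l : Fin 4) :
    |v i * a l - v l * a i| ≤ n := by
  refine Fin.succAboveCases i ?_ (fun k => o2m_le.1 h k) l
  simp

theorem o2m_le_wn (v : Z4) (i : Fin 4) (a : Z4) : (o2m (o2b v i a) : ℝ) ≤ wn v a := by
  obtain ⟨l, -, hl⟩ := Finset.exists_mem_eq_sup Finset.univ Finset.univ_nonempty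
    fun l => (o2b v i a l).natAbs
  rw [o2m, hl, Nat.cast_natAbs, Int.cast_abs]
  exact o2_minor v a i _

include hi h0 in
theorem wn_le_o2m (a : Z4) : wn v a ≤ 2 * o2m (o2b v i a) := by
  refine (pi_norm_le_iff_of_nonneg (by positivity)).2 fun p => ?_
  have h1 := o2_all (le_refl (o2m (o2b v i a))) p.1
  have h2 := o2_all (le_refl (o2m (o2b v i a))) p.2
  have h3 : |v i| * |v p.1 * a p.2 - v p.2 * a p.1| ≤ |v i| * (2 * o2m (o2b v i a)) := by
    rw [← abs_mul, show v i * (v p.1 * a p.2 - v p.2 * a p.1) = v p.1 * (v i * a p.2 - v p.2 * a i) -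
      v p.2 * (v i * a p.1 - v p.1 * a i) by ring]
    refine (abs_sub _ _).trans ?_
    rw [abs_mul, abs_mul, two_mul, mul_add]
    exact add_le_add (mul_le_mul (hi _) h2 (abs_nonneg _) (abs_nonneg _))
      (mul_le_mul (hi _) h1 (abs_nonneg _) (abs_nonneg _))
  rw [Real.norm_eq_abs]
  exact_mod_cast le_of_mul_le_mul_left h3 (abs_pos.2 h0)

include h0 in
theorem o2_fib {c : Z4} (hc : c ⬝ᵥ v = 1) {s : Finset Z4} (hs : ∀ a ∈ s, |a i| ≤ 7 * |v i|)
    (b : Fin 3 → ℤ) : (s.filter fun a => o2b v i a = b).card ≤ 29 := by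
  rcases (s.filter fun a => o2b v i a = b).eq_empty_or_nonempty with h | ⟨a', ha'⟩
  · rw [h]; simp
  rw [Finset.mem_filter] at ha'
  refine (Finset.card_le_card (t := (Finset.Icc (-14 : ℤ) 14).image fun t => a' + t • v)
    fun a ha => ?_).trans (Finset.card_image_le.trans (by simp))
  rw [Finset.mem_filter] at ha
  have h1 : ∀ l, v i * (a l - a' l) = v l * (a i - a' i) := fun l => by
    refine Fin.succAboveCases i rfl (fun k => ?_) l
    have := congrFun (ha.2.trans ha'.2.symm) k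
    simp only [o2b] at this
    linear_combination this
  have h2 : ∀ l, a l - a' l = (c ⬝ᵥ (a - a')) * v l := fun l => by
    refine mul_left_cancel₀ h0 ?_
    simp only [dotProduct, Fin.sum_univ_four, Pi.sub_apply] at hc ⊢
    linear_combination h1 l - v l * (c 0 * h1 0 + c 1 * h1 1 + c 2 * h1 2 + c 3 * h1 3) -
      v l * (a i - a' i) * hc
  refine Finset.mem_image.2 ⟨c ⬝ᵥ (a - a'), ?_, funext fun l => ?_⟩
  · rw [Finset.mem_Icc, ← abs_le]
    refine le_of_mul_le_mul_right ?_ (abs_pos.2 h0)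
    rw [← abs_mul, ← h2]
    linarith [abs_sub (a i) (a' i), hs a ha.1, hs a' ha'.1]
  · rw [Pi.add_apply, Pi.smul_apply, smul_eq_mul, ← h2]
    ring

end

theorem wn_eq (v a : Z4) : wn v a = wr (cs v) (cs a) := by
  simp only [wn, wr, cs, Int.cast_sub, Int.cast_mul]

/-- With `i` the index of the largest entry of `v`, the map `o2b v i` to integer triples has fibres
of size at most `29` on `s`. -/
theorem wedge_count : ∃ C : ℝ, 0 < C ∧ ∀ (W : ℝ) (v : Z4) (s : Finset Z4), 0 ≤ W →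
    (∃ c : Z4, c ⬝ᵥ v = 1) → (∀ a ∈ s, ‖cs a‖ ≤ 7 * ‖cs v‖ ∧ wn v a ≤ W) →
    (s.card : ℝ) ≤ C * (1 + W) ^ 3 := by
  refine ⟨232, by norm_num, fun W v s hW ⟨c, hc⟩ hs => ?_⟩
  obtain ⟨i, -, hi⟩ := Finset.exists_max_image Finset.univ (fun l => |v l|) Finset.univ_nonempty
  replace hi : ∀ l, |v l| ≤ |v i| := fun l => hi l (Finset.mem_univ l)
  have h1 : ‖cs v‖ ≤ ((|v i| : ℤ) : ℝ) := (pi_norm_le_iff_of_nonneg (by positivity)).2 fun l => by
    rw [Real.norm_eq_abs, cs]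
    exact_mod_cast hi l
  have h0 : v i ≠ 0 := fun h => by
    have : v = 0 := funext fun l => abs_nonpos_iff.1 (by simpa [h] using hi l)
    simp [this] at hc
  have h2 : ∀ a ∈ s, |a i| ≤ 7 * |v i| := fun a ha => by
    have := (norm_le_pi_norm (cs a) i).trans (hs a ha).1
    rw [Real.norm_eq_abs, cs] at this
    exact_mod_cast this.trans (mul_le_mul_of_nonneg_left h1 (by norm_num))
  have h3 : s.image (o2b v i) ⊆ Fintype.piFinset fun _ => Finset.Icc (-(⌊W⌋₊ : ℤ)) ⌊W⌋₊ := by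
    intro b hb
    obtain ⟨a, ha, rfl⟩ := Finset.mem_image.1 hb
    refine Fintype.mem_piFinset.2 fun l => ?_
    rw [Finset.mem_Icc, ← abs_le]
    exact o2m_le.1 (Nat.le_floor ((o2m_le_wn v i a).trans (hs a ha).2)) l
  have h4 : s.card ≤ 29 * (2 * ⌊W⌋₊ + 1) ^ 3 := by
    refine (Finset.card_le_mul_card_image (f := o2b v i) _ 29 fun b _ =>
      o2_fib h0 hc h2 b).trans (Nat.mul_le_mul_left _ ((Finset.card_le_card h3).trans_eq ?_))
    rw [Fintype.card_piFinset_const, Int.card_Icc]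
    congr 1
    omega
  have h5 := Nat.floor_le hW
  calc (s.card : ℝ) ≤ 29 * (2 * ⌊W⌋₊ + 1) ^ 3 := by exact_mod_cast h4
    _ ≤ 29 * (2 * (1 + W)) ^ 3 := by gcongr; linarith
    _ = _ := by ring

theorem o2_dy {Y w : ℝ} (h : Y < w) (M : ℕ) (hM : w ≤ 2 ^ M * Y) :
    ∃ m ∈ Finset.range M, 2 ^ m * Y < w ∧ w ≤ 2 ^ (m + 1) * Y := by
  induction M with
  | zero => exact absurd hM (by simpa using h)
  | succ M ih =>
    rcases le_or_gt w (2 ^ M * Y) with k | k
    · obtain ⟨m, hm, e⟩ := ih k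
      exact ⟨m, Finset.mem_range.2 ((Finset.mem_range.1 hm).trans M.lt_succ_self), e⟩
    · exact ⟨M, Finset.self_mem_range_succ M, k, hM⟩

/-- `pair_le` and the dyadic classes `2 ^ m Y < wr ≤ 2 ^ (m + 1) Y`. -/
theorem l2_gen : ∃ C : ℝ, 0 < C ∧ ∀ {ι : Type} (s : Finset ι) (u : ι → V) (p : ι → ℝ)
    (N ρ r Y Cf B0 B1 : ℝ), 0 < N → 0 < ρ → ρ ≤ r → r ≤ 1 → 0 < Y → 0 ≤ B0 → 0 ≤ B1 →
    (∀ i ∈ s, 0 ≤ p i ∧ N ≤ ‖u i‖ ∧ ‖u i‖ ≤ 3 * N) → ∑ i ∈ s, p i ≤ Cf →
    (∀ i ∈ s, ∑ k ∈ s.filter (fun k => wr (u i) (u k) ≤ Y), p k ≤ B0) →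
    (∀ i ∈ s, ∀ x : ℝ, 1 ≤ x →
      ∑ k ∈ s.filter (fun k => wr (u i) (u k) ≤ x * Y), p k ≤ B1 * x ^ 3) →
    ∫⁻ ξ : V, ENNReal.ofReal (Real.exp (-(ξ ⬝ᵥ ξ) / 2) * (∑ i ∈ s, p i * dk ρ r N (u i) ξ) ^ 2) ≤
      ENNReal.ofReal (C * Cf * (B0 / ρ + B1 * r ^ 4 * N ^ 10 / Y ^ 5)) := by
  obtain ⟨C1, hC1, hp⟩ := pair_le
  refine ⟨16 * C1, by positivity,
    fun {ι} s u p N ρ r Y Cf B0 B1 hN hρ hρr hr hY hB0 hB1 hs hf ha hb => ?_⟩
  let g : V → V → V → ℝ := fun v v' ξ =>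
    Real.exp (-(ξ ⬝ᵥ ξ) / 2) * (dk ρ r N v ξ * dk ρ r N v' ξ)
  have hP := fun i (hi : i ∈ s) j (hj : j ∈ s) => hp N ρ r (u i) (u j) hN hρ hρr hr (hs i hi).2.1
    (hs i hi).2.2 (hs j hj).2.1 (hs j hj).2.2
  have e : (fun ξ : V => Real.exp (-(ξ ⬝ᵥ ξ) / 2) * (∑ i ∈ s, p i * dk ρ r N (u i) ξ) ^ 2) =
      fun ξ => ∑ i ∈ s, ∑ j ∈ s, p i * (p j * g (u i) (u j) ξ) := funext fun ξ => by
    rw [pow_two, Finset.sum_mul_sum, Finset.mul_sum]
    refine Finset.sum_congr rfl fun i _ => ?_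
    rw [Finset.mul_sum]
    exact Finset.sum_congr rfl fun j _ => by simp only [g]; ring
  have hI : ∀ i ∈ s, ∀ j ∈ s, Integrable fun ξ => p i * (p j * g (u i) (u j) ξ) :=
    fun i hi j hj => ((hP i hi j hj).1.const_mul _).const_mul _
  rw [← ofReal_integral_eq_lintegral_ofReal (e ▸ integrable_finsetSum _ fun i hi =>
    integrable_finsetSum _ (hI i hi)) (ae_of_all _ fun ξ => by positivity), e,
    integral_finsetSum _ fun i hi => integrable_finsetSum _ (hI i hi)]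
  refine ENNReal.ofReal_le_ofReal ?_
  set K := 16 * C1 * (B0 / ρ + B1 * r ^ 4 * N ^ 10 / Y ^ 5) with hK
  have hr0 : 0 < r := hρ.trans_le hρr
  calc _ ≤ ∑ i ∈ s, p i * K := Finset.sum_le_sum fun i hi => ?_
    _ ≤ Cf * K := by
        rw [← Finset.sum_mul]
        exact mul_le_mul_of_nonneg_right hf (by positivity)
    _ = _ := by rw [hK]; ring
  rw [integral_finsetSum _ (hI i hi)]
  simp only [integral_const_mul]
  rw [← Finset.mul_sum]
  refine mul_le_mul_of_nonneg_left ?_ (hs i hi).1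
  obtain ⟨M, hM⟩ := pow_unbounded_of_one_lt ((∑ j ∈ s, wr (u i) (u j)) / Y) (one_lt_two (α := ℝ))
  replace hM : ∀ j ∈ s, wr (u i) (u j) ≤ 2 ^ M * Y := fun j hj =>
    (Finset.single_le_sum (f := fun j => wr (u i) (u j)) (fun _ _ => norm_nonneg _) hj).trans
      ((div_le_iff₀ hY).1 hM.le)
  let G : ι → ℝ := fun j => (if wr (u i) (u j) ≤ Y then C1 / ρ else 0) +
    ∑ m ∈ Finset.range M, if wr (u i) (u j) ≤ 2 ^ (m + 1) * Y then
      C1 * r ^ 4 * N ^ 10 / (2 ^ m * Y) ^ 5 else 0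
  have G0 : ∀ j (m : ℕ), 0 ≤ if wr (u i) (u j) ≤ 2 ^ (m + 1) * Y then
      C1 * r ^ 4 * N ^ 10 / (2 ^ m * Y) ^ 5 else 0 := fun j m => by
    split_ifs <;> positivity
  have G1 : ∀ j ∈ s, ∫ ξ, g (u i) (u j) ξ ≤ G j := fun j hj => by
    refine (le_abs_self _).trans ?_
    by_cases h0 : wr (u i) (u j) ≤ Y
    · simp only [G, h0, if_true]
      exact (hP i hi j hj).2.1.trans (le_add_of_nonneg_right (Finset.sum_nonneg fun m _ => G0 j m))
    obtain ⟨q, -, hq⟩ := Finset.exists_max_image Finset.univ (fun q : Fin 4 × Fin 4 =>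
      |u i q.1 * u j q.2 - u i q.2 * u j q.1|) Finset.univ_nonempty
    have h1 : wr (u i) (u j) ≤ |u i q.1 * u j q.2 - u i q.2 * u j q.1| :=
      (pi_norm_le_iff_of_nonneg (abs_nonneg _)).2 fun q' => hq q' (Finset.mem_univ _)
    obtain ⟨m, hm, k1, k2⟩ := o2_dy (not_le.1 h0) M (hM j hj)
    simp only [G, h0, if_false, zero_add]
    refine le_trans ?_ (Finset.single_le_sum (fun m _ => G0 j m) hm)
    rw [if_pos k2]
    exact (hP i hi j hj).2.2 q.1 q.2 _ (by positivity) (k1.le.trans h1)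
  have hT : ∀ (c : ℝ) (P : ι → Prop) [DecidablePred P],
      ∑ j ∈ s, p j * (if P j then c else 0) = (∑ j ∈ s.filter P, p j) * c := fun c P _ => by
    rw [Finset.sum_filter, Finset.sum_mul]
    exact Finset.sum_congr rfl fun j _ => by split_ifs <;> simp
  calc _ ≤ ∑ j ∈ s, p j * G j :=
        Finset.sum_le_sum fun j hj => mul_le_mul_of_nonneg_left (G1 j hj) (hs j hj).1
    _ = (∑ j ∈ s.filter (fun j => wr (u i) (u j) ≤ Y), p j) * (C1 / ρ) +
        ∑ m ∈ Finset.range M, (∑ j ∈ s.filter (fun j => wr (u i) (u j) ≤ 2 ^ (m + 1) * Y), p j) *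
          (C1 * r ^ 4 * N ^ 10 / (2 ^ m * Y) ^ 5) := by
        simp only [G, mul_add, Finset.sum_add_distrib, Finset.mul_sum]
        rw [Finset.sum_comm]
        simp only [hT]
    _ ≤ B0 * (C1 / ρ) + ∑ m ∈ Finset.range M,
        8 * C1 * (B1 * r ^ 4 * N ^ 10 / Y ^ 5) * (1 / 2) ^ m := by
        refine add_le_add (mul_le_mul_of_nonneg_right (ha i hi) (by positivity))
          (Finset.sum_le_sum fun m _ => ?_)
        have h2 : (1 : ℝ) ≤ 2 ^ m := one_le_pow₀ one_le_two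
        refine (mul_le_mul_of_nonneg_right (hb i hi _ (one_le_pow₀ one_le_two))
          (by positivity)).trans ?_
        rw [pow_succ 2 m, one_div, inv_pow]
        generalize (2 : ℝ) ^ m = t at h2
        have h3 : 0 < t := one_pos.trans_le h2
        rw [show B1 * (t * 2) ^ 3 * (C1 * r ^ 4 * N ^ 10 / (t * Y) ^ 5) =
          8 * C1 * (B1 * r ^ 4 * N ^ 10 / Y ^ 5) * t⁻¹ * t⁻¹ by field_simp; ring]
        exact mul_le_of_le_one_right (by positivity) (inv_le_one_of_one_le₀ h2)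
    _ ≤ B0 * (C1 / ρ) + 8 * C1 * (B1 * r ^ 4 * N ^ 10 / Y ^ 5) * 2 := by
        rw [← Finset.mul_sum]
        gcongr
        exact sum_geometric_two_le M
    _ ≤ K := by
        have : 0 ≤ C1 * (B0 / ρ) := by positivity
        rw [hK, show B0 * (C1 / ρ) = C1 * (B0 / ρ) by ring]
        linarith

/-- Cauchy and Schwarz on a ball. -/
theorem l1_of_l2 (R : ℝ) : ∃ C : ℝ, 0 < C ∧ ∀ (F : V → ℝ) (B : ℝ), Measurable F → 0 ≤ B →
    ∫⁻ ξ : V, ENNReal.ofReal (Real.exp (-(ξ ⬝ᵥ ξ) / 2) * F ξ ^ 2) ≤ ENNReal.ofReal (B ^ 2) →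
    ∫⁻ ξ in Metric.closedBall (0 : V) R, ENNReal.ofReal |F ξ| ≤ ENNReal.ofReal (C * B) := by
  have hv : volume (Metric.closedBall (0 : V) R) ≠ ⊤ := measure_closedBall_lt_top.ne
  refine ⟨Real.exp (2 * R ^ 2) + volume.real (Metric.closedBall (0 : V) R), by positivity,
    fun F B hF hB h => ?_⟩
  have hm : Measurable fun ξ : V => ENNReal.ofReal (Real.exp (-(ξ ⬝ᵥ ξ) / 2) * F ξ ^ 2) :=
    (Measurable.mul (Continuous.measurable (by fun_prop)) (hF.pow_const 2)).ennreal_ofReal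
  rcases hB.eq_or_lt with rfl | hB
  · rw [zero_pow two_ne_zero, ENNReal.ofReal_zero, nonpos_iff_eq_zero, lintegral_eq_zero_iff hm] at h
    rw [lintegral_congr_ae (g := fun _ => 0) (ae_restrict_of_ae (h.mono fun ξ hξ => ?_)),
      lintegral_zero]
    · exact zero_le
    · have h1 := le_antisymm (ENNReal.ofReal_eq_zero.1 hξ) (by positivity)
      rw [pow_eq_zero_iff two_ne_zero |>.1 ((mul_eq_zero.1 h1).resolve_left (Real.exp_pos _).ne'),
        abs_zero, ENNReal.ofReal_zero]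
  calc _ ≤ ∫⁻ ξ in Metric.closedBall (0 : V) R, ENNReal.ofReal (Real.exp (2 * R ^ 2) / B) *
        ENNReal.ofReal (Real.exp (-(ξ ⬝ᵥ ξ) / 2) * F ξ ^ 2) + ENNReal.ofReal B :=
        setLIntegral_mono' measurableSet_closedBall fun ξ hξ => ?_
    _ ≤ ENNReal.ofReal (Real.exp (2 * R ^ 2) / B) * ENNReal.ofReal (B ^ 2) +
        ENNReal.ofReal B * volume (Metric.closedBall (0 : V) R) := by
        rw [lintegral_add_right _ measurable_const, lintegral_const_mul _ hm, setLIntegral_const]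
        gcongr
        exact (setLIntegral_le_lintegral _ _).trans h
    _ = _ := by
        rw [← ofReal_measureReal hv, ← ENNReal.ofReal_mul (by positivity), ← ENNReal.ofReal_mul hB.le,
          ← ENNReal.ofReal_add (by positivity) (by positivity)]
        congr 1
        field_simp
  rw [← ENNReal.ofReal_mul (by positivity), ← ENNReal.ofReal_add (by positivity) hB.le]
  refine ENNReal.ofReal_le_ofReal ?_
  have h1 : ∀ i, ξ i * ξ i ≤ R ^ 2 := fun i => by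
    have := (norm_le_pi_norm ξ i).trans (mem_closedBall_zero_iff.1 hξ)
    rw [← pow_two]
    exact sq_le_sq' (abs_le.1 this).1 (abs_le.1 this).2
  have h2 : 1 ≤ Real.exp (2 * R ^ 2) * Real.exp (-(ξ ⬝ᵥ ξ) / 2) := by
    rw [← Real.exp_add, Real.one_le_exp_iff, dotProduct, Fin.sum_univ_four]
    linarith [h1 0, h1 1, h1 2, h1 3]
  have h3 : |F ξ| ≤ F ξ ^ 2 / B + B := by
    rw [div_add' _ _ _ hB.ne', le_div_iff₀ hB, ← sq_abs]
    nlinarith [sq_nonneg (|F ξ| - B), abs_nonneg (F ξ)]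
  refine h3.trans (add_le_add ?_ le_rfl)
  rw [div_mul_eq_mul_div, ← mul_assoc]
  exact div_le_div_of_nonneg_right (le_mul_of_one_le_left (sq_nonneg _) h2) hB.le

end Pool.Agent.TW.G
end

-- part Pool.Agent.Lib.MP_4eaecc_an.XC1
section

/-! Integer points of a hyperplane in a tube. -/

namespace Pool.Agent.TW.G

open Matrix MeasureTheory Filter Topology
open scoped ENNReal NNReal

/-- The residues of `n ⬝ᵥ c` modulo `n i`: a set of residues that is not everything is not closed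
under adding the entries of `n`, so it can be enlarged by one step at a time. -/
theorem shifts {n : Z4} (h : ∃ c : Z4, c ⬝ᵥ n = 1) (i : Fin 4) (K : ℕ) (hK : (K : ℤ) ≤ |n i|) :
    ∃ f : Fin K → Z4, (∀ k, f k i = 0 ∧ ∀ l, |f k l| ≤ K) ∧
      ∀ k k', n i ∣ n ⬝ᵥ f k - n ⬝ᵥ f k' → k = k' := by
  obtain ⟨c, hc⟩ := h
  induction K with
  | zero => exact ⟨Fin.elim0, fun k => k.elim0, fun k => k.elim0⟩
  | succ K ih =>
    push_cast at hK ⊢
    obtain ⟨f, h1, h2⟩ := ih (by omega)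
    have key : ∃ x : Z4, (x i = 0 ∧ ∀ l, |x l| ≤ K + 1) ∧ ∀ k, ¬ n i ∣ n ⬝ᵥ x - n ⬝ᵥ f k := by
      by_contra! k0
      have k1 : ∀ (l : Fin 4) (e z : ℤ), |e| = 1 → (∃ k, n i ∣ z - n ⬝ᵥ f k) →
          ∃ k, n i ∣ z + e * n l - n ⬝ᵥ f k := fun l e z he ⟨k, hk⟩ => by
        by_cases hl : l = i
        · exact ⟨k, by rw [hl, add_sub_right_comm]; exact hk.add (dvd_mul_left _ _)⟩
        obtain ⟨k', hk'⟩ := k0 (f k + Pi.single l e) ⟨by simp [(h1 k).1, Ne.symm hl], fun m =>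
          (abs_add_le _ _).trans (add_le_add ((h1 k).2 m) (by
            by_cases hm : m = l <;> simp [hm, he]))⟩
        refine ⟨k', (hk.add hk').trans (dvd_of_eq ?_)⟩
        rw [dotProduct_add, dotProduct_single]
        ring
      have k2 : ∀ (l : Fin 4) (z t : ℤ), (∃ k, n i ∣ z - n ⬝ᵥ f k) →
          ∃ k, n i ∣ z + t * n l - n ⬝ᵥ f k := fun l z t hz => by
        induction t using Int.induction_on with
        | zero => simpa using hz
        | succ t ih => simpa only [add_mul, add_assoc] using k1 l 1 _ rfl ih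
        | pred t ih => simpa only [sub_eq_add_neg, add_mul, add_assoc] using k1 l (-1) _ rfl ih
      have k3 : ∀ z : ℤ, ∃ k, n i ∣ z - n ⬝ᵥ f k := fun z => by
        have := k2 3 _ (z * c 3) (k2 2 _ (z * c 2) (k2 1 _ (z * c 1) (k2 0 _ (z * c 0)
          (k0 0 ⟨rfl, fun _ => by simp; positivity⟩))))
        rw [dotProduct, Fin.sum_univ_four] at hc
        rwa [dotProduct_zero, show 0 + z * c 0 * n 0 + z * c 1 * n 1 + z * c 2 * n 2 +
          z * c 3 * n 3 = z by linear_combination z * hc] at this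
      choose g hg using k3
      obtain ⟨a, b, k4, k5⟩ := Fintype.exists_ne_map_eq_of_card_lt
        (fun a : Fin (K + 1) => g (a : ℕ)) (by simp)
      have k6 := (hg (a : ℕ)).sub (k5 ▸ hg (b : ℕ))
      rw [sub_sub_sub_cancel_right, ← abs_dvd] at k6
      have := Int.eq_zero_of_abs_lt_dvd k6 (abs_lt.2 ⟨by omega, by omega⟩)
      omega
    obtain ⟨x, k1, k2⟩ := key
    refine ⟨Fin.cons x f, Fin.cases k1 fun k => ⟨(h1 k).1, fun l => ((h1 k).2 l).trans (by omega)⟩,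
      Fin.cases (Fin.cases (fun _ => rfl) fun k e => absurd e (k2 k)) fun k =>
        Fin.cases (fun e => absurd (dvd_sub_comm.1 e) (k2 k)) fun k' e => congrArg _ (h2 k k' e)⟩

theorem xc1_icc (c : ℝ) {Y : ℝ} (hY : 0 ≤ Y) :
    ((Finset.Icc ⌈c - Y⌉ ⌊c + Y⌋).card : ℝ) ≤ 2 * Y + 1 := by
  rw [Int.card_Icc, ← Int.cast_natCast, Int.ofNat_toNat, Int.cast_max]
  push_cast
  exact max_le (by linarith [Int.le_ceil (c - Y), Int.floor_le (c + Y)]) (by linarith)

theorem xc1_count {ι : Type} [Fintype ι] [DecidableEq ι] (i : ι) (t : ι → ℝ) {X Y : ℝ}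
    (hX : 0 ≤ X) (hY : 0 ≤ Y) (s : Finset (ι → ℤ))
    (h : ∀ x ∈ s, |(x i : ℝ)| ≤ X ∧ ∀ l, |(x l : ℝ) - t l * x i| ≤ Y) :
    (s.card : ℝ) ≤ (2 * X + 1) * (2 * Y + 1) ^ (Fintype.card ι - 1) := by
  have m : ∀ {c Y : ℝ} {a : ℤ}, |a - c| ≤ Y → a ∈ Finset.Icc ⌈c - Y⌉ ⌊c + Y⌋ := fun k =>
    Finset.mem_Icc.2 ⟨Int.ceil_le.2 (by linarith [(abs_le.1 k).1]),
      Int.le_floor.2 (by linarith [(abs_le.1 k).2])⟩
  have h1 : s ⊆ (Finset.Icc ⌈0 - X⌉ ⌊0 + X⌋).biUnion fun a => Fintype.piFinset fun l =>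
      if l = i then {a} else Finset.Icc ⌈t l * a - Y⌉ ⌊t l * a + Y⌋ := fun x hx =>
    Finset.mem_biUnion.2 ⟨x i, m (by simpa using (h x hx).1), Fintype.mem_piFinset.2 fun l => by
      split_ifs with e
      · rw [e, Finset.mem_singleton]
      · exact m ((h x hx).2 l)⟩
  refine (Nat.cast_le.2 ((Finset.card_le_card h1).trans Finset.card_biUnion_le)).trans ?_
  rw [Nat.cast_sum]
  refine (Finset.sum_le_card_nsmul _ _ ((2 * Y + 1) ^ (Fintype.card ι - 1)) fun a _ => ?_).trans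
    ((nsmul_eq_mul _ _).trans_le (mul_le_mul_of_nonneg_right (xc1_icc 0 hX) (by positivity)))
  rw [Fintype.card_piFinset, ← Finset.mul_prod_erase _ _ (Finset.mem_univ i), if_pos rfl,
    Finset.card_singleton, one_mul, Nat.cast_prod, ← Finset.card_univ,
    ← Finset.card_erase_of_mem (Finset.mem_univ i), ← Finset.prod_const]
  refine Finset.prod_le_prod (fun _ _ => Nat.cast_nonneg _) fun l hl => ?_
  rw [if_neg (Finset.ne_of_mem_erase hl)]
  exact xc1_icc _ hY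

theorem xc1_abs (x : Z4) (i : Fin 4) : |(x i : ℝ)| ≤ ‖cs x‖ := norm_le_pi_norm (cs x) i

theorem xc1_sq {a : ℝ} (h : |a| = 1) : a * a = 1 := by rw [← abs_mul_abs_self, h, one_mul]

/-- Integer points in a tube of length `X` and width `Y` in the direction `g`. -/
theorem box_count (g : V) (i : Fin 4) {X Y : ℝ} (hX : 0 ≤ X) (hY : 0 ≤ Y) (hg : |g i| = 1)
    (s : Finset Z4) (h : ∀ x ∈ s, ‖cs x‖ ≤ X ∧ ∀ l, |cs x l * g i - cs x i * g l| ≤ Y) :
    (s.card : ℝ) ≤ (2 * X + 1) * (2 * Y + 1) ^ 3 := by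
  refine xc1_count i (fun l => g i * g l) hX hY s fun x hx =>
    ⟨(xc1_abs x i).trans (h x hx).1, fun l => le_trans (le_of_eq ?_) ((h x hx).2 l)⟩
  rw [← one_mul |cs x l * g i - _|, ← hg, ← abs_mul]
  congr 1
  simp only [cs]
  linear_combination -(x l : ℝ) * xc1_sq hg

/-- Drop the coordinate where `n` is largest and add the vectors of `shifts`. -/
theorem tube_count : ∃ C : ℝ, 0 < C ∧ ∀ (n : Z4) (g : V) (i : Fin 4) (X Y : ℝ) (s : Finset Z4),
    (∃ c : Z4, c ⬝ᵥ n = 1) → (∀ l, |g l| ≤ 1) → |g i| = 1 → 1 ≤ Y → Y ≤ X →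
    (∀ x ∈ s, n ⬝ᵥ x = 0 ∧ ‖cs x‖ ≤ X ∧ ∀ l, |cs x l * g i - cs x i * g l| ≤ Y) →
    (s.card : ℝ) * min Y ‖cs n‖ ≤ C * X * Y ^ 2 := by
  refine ⟨810, by norm_num, fun n g i X Y s hc _ hg hY hX hs => ?_⟩
  obtain ⟨m, -, hm⟩ := Finset.exists_max_image Finset.univ (fun i => |(n i : ℝ)|)
    Finset.univ_nonempty
  obtain ⟨p, -, hp⟩ := Finset.exists_max_image Finset.univ (fun j => |g (m.succAbove j)|)
    Finset.univ_nonempty
  obtain ⟨K, hK⟩ : ∃ K, K = min ⌊Y⌋₊ (n m).natAbs := ⟨_, rfl⟩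
  have K1 : (K : ℤ) ≤ |n m| := by rw [← Int.natCast_natAbs]; omega
  have K2 : (K : ℝ) ≤ Y := (Nat.cast_le.2 (by omega)).trans (Nat.floor_le (by linarith))
  have K3 : min Y ‖cs n‖ ≤ 2 * K := by
    rcases min_choice ⌊Y⌋₊ (n m).natAbs with e | e <;> rw [hK, e]
    · have := Nat.lt_floor_add_one Y
      have : (1 : ℝ) ≤ ⌊Y⌋₊ := by exact_mod_cast Nat.le_floor (by exact_mod_cast hY)
      linarith [min_le_left Y ‖cs n‖]
    · have : ‖cs n‖ ≤ |(n m : ℝ)| :=
        (pi_norm_le_iff_of_nonneg (abs_nonneg _)).2 fun l => hm l (Finset.mem_univ l)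
      rw [Nat.cast_natAbs, Int.cast_abs]
      linarith [min_le_right Y ‖cs n‖, abs_nonneg (n m : ℝ)]
  obtain ⟨f, h1, h2⟩ := shifts hc m K K1
  have h3 : ∀ k l, |(f k l : ℝ)| ≤ Y := fun k l => le_trans (by exact_mod_cast (h1 k).2 l) K2
  have h4 := xc1_count p (fun j => g (m.succAbove j) / g (m.succAbove p)) (X := 2 * X) (Y := 4 * Y)
    (by linarith) (by linarith) ((s ×ˢ Finset.univ).image
      fun (q : Z4 × Fin K) j => (q.1 + f q.2) (m.succAbove j)) (Finset.forall_mem_image.2 ?_)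
  · rw [Finset.card_image_of_injOn, Finset.card_product, Finset.card_fin, Fintype.card_fin,
      Nat.cast_mul] at h4
    · have a1 : (2 * (2 * X) + 1) * (2 * (4 * Y) + 1) ^ 2 ≤ 5 * X * (9 * Y) ^ 2 := by
        gcongr <;> linarith
      linarith [mul_le_mul_of_nonneg_left K3 (Nat.cast_nonneg (α := ℝ) s.card), h4.trans a1]
    rintro ⟨x, k⟩ hq ⟨x', k'⟩ hq' e
    have a1 : n ⬝ᵥ (x + f k) - n ⬝ᵥ (x' + f k') = n m * (x m - x' m) := by
      rw [dotProduct, dotProduct, Fin.sum_univ_succAbove _ m, Fin.sum_univ_succAbove _ m,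
        Finset.sum_congr rfl fun j _ => congrArg (n (m.succAbove j) * ·) (congrFun e j)]
      simp only [Pi.add_apply, (h1 _).1]
      ring
    rw [dotProduct_add, dotProduct_add, (hs x (Finset.mem_product.1 hq).1).1,
      (hs x' (Finset.mem_product.1 hq').1).1, zero_add, zero_add] at a1
    obtain rfl := h2 k k' ⟨_, a1⟩
    have a2 : n m ≠ 0 := abs_pos.1 (by have := k.pos; omega)
    rw [sub_self, eq_comm, mul_eq_zero, or_iff_right a2, sub_eq_zero] at a1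
    exact Prod.ext (funext fun l => m.succAboveCases a1
      (fun j => add_right_cancel (congrFun e j)) l) rfl
  rintro ⟨x, k⟩ hq
  obtain ⟨-, a1, a2⟩ := hs x (Finset.mem_product.1 hq).1
  simp only [Pi.add_apply, Int.cast_add]
  refine ⟨(abs_add_le _ _).trans (by linarith [xc1_abs x (m.succAbove p), h3 k (m.succAbove p)]),
    fun j => ?_⟩
  have a3 := hp j (Finset.mem_univ j)
  generalize m.succAbove j = l at a3
  generalize m.succAbove p = l' at a3
  have a4 : |g l / g l'| ≤ 1 := (abs_div _ _).trans_le (div_le_one_of_le₀ a3 (abs_nonneg _))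
  have a5 : g l = g l / g l' * g l' := by
    by_cases e : g l' = 0
    · rw [e, mul_zero]
      rwa [e, abs_zero, abs_nonpos_iff] at a3
    · rw [div_mul_cancel₀ _ e]
  generalize g l / g l' = t at a4 a5
  have key : ∀ {a b : ℝ}, |a| ≤ 1 → |b| ≤ Y → -Y ≤ a * b ∧ a * b ≤ Y := fun ha hb =>
    abs_le.1 ((abs_mul _ _).trans_le ((mul_le_of_le_one_left (abs_nonneg _) ha).trans hb))
  have b1 := key hg.le (a2 l)
  have b2 := key a4 (abs_le.2 (key hg.le (a2 l')))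
  have b3 := key a4 (h3 k l')
  have b4 := abs_le.1 (h3 k l)
  have b5 : (x l : ℝ) - t * x l' = g i * (cs x l * g i - cs x i * g l) -
      t * (g i * (cs x l' * g i - cs x i * g l')) := by
    simp only [cs]
    linear_combination (t * x l' - x l) * xc1_sq hg + g i * x i * a5
  rw [abs_le]
  constructor <;> linarith

/-- The same with the intersection form. -/
theorem tube_count' : ∃ C : ℝ, 0 < C ∧ ∀ (v : Z4) (g : V) (i : Fin 4) (X Y : ℝ) (s : Finset Z4),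
    (∃ c : Z4, c ⬝ᵥ v = 1) → (∀ l, |g l| ≤ 1) → |g i| = 1 → 1 ≤ Y → Y ≤ X →
    (∀ x ∈ s, Om (cs v) (cs x) = 0 ∧ ‖cs x‖ ≤ X ∧ ∀ l, |cs x l * g i - cs x i * g l| ≤ Y) →
    (s.card : ℝ) * min Y ‖cs v‖ ≤ C * X * Y ^ 2 := by
  obtain ⟨C, hC, H⟩ := tube_count
  refine ⟨2 * C, by positivity, fun v g i X Y s ⟨c, hc⟩ h1 h2 h3 h4 hs => ?_⟩
  obtain ⟨n, hn⟩ : ∃ n : Z4, n = ![-v 2 - v 3, -v 2, v 0 + v 1, v 0] := ⟨_, rfl⟩
  have k := H n g i X Y s ⟨![-c 3, c 3 - c 2, c 1, c 0 - c 1], by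
    rw [← hc, hn]
    simp [dotProduct, Fin.sum_univ_four]
    ring⟩ h1 h2 h3 h4 fun x hx => ⟨Int.cast_injective (α := ℝ) ?_, (hs x hx).2⟩
  · have n0 : (n 0 : ℝ) = -v 2 - v 3 := by simp [hn]
    have n1 : (n 1 : ℝ) = -v 2 := by simp [hn]
    have n2 : (n 2 : ℝ) = v 0 + v 1 := by simp [hn]
    have n3 : (n 3 : ℝ) = v 0 := by simp [hn]
    have b0 := abs_le.1 (xc1_abs n 0)
    have b1 := abs_le.1 (xc1_abs n 1)
    have b2 := abs_le.1 (xc1_abs n 2)
    have b3 := abs_le.1 (xc1_abs n 3)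
    have u : ‖cs v‖ ≤ 2 * ‖cs n‖ := (pi_norm_le_iff_of_nonneg (by positivity)).2 fun l => by
      fin_cases l <;> refine abs_le.2 ⟨?_, ?_⟩ <;> simp only [cs] <;> simp <;> linarith
    have u' : min Y ‖cs v‖ ≤ 2 * min Y ‖cs n‖ := by
      rw [mul_min_of_nonneg _ _ zero_le_two]
      exact min_le_min (by linarith) u
    linarith [mul_le_mul_of_nonneg_left u' (Nat.cast_nonneg s.card)]
  · rw [Int.cast_zero, ← (hs x hx).1, hn]
    simp [dotProduct, Fin.sum_univ_four, Om, cs]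
    ring

end Pool.Agent.TW.G
end

-- part Pool.Agent.Lib.MP_4eaecc_an.XO5
section

/-! The class is far from rational planes of small height. -/

namespace Pool.Agent.TW.G

open Matrix MeasureTheory Filter Topology
open scoped ENNReal NNReal

theorem o5_wn_nonneg (v a : Z4) : 0 ≤ wn v a := norm_nonneg _

theorem o5_le_wn (v a : Z4) (i l : Fin 4) : |((v i * a l - v l * a i : ℤ) : ℝ)| ≤ wn v a :=
  norm_le_pi_norm (fun p : Fin 4 × Fin 4 => ((v p.1 * a p.2 - v p.2 * a p.1 : ℤ) : ℝ)) (i, l)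

theorem o5_wn_le {v a : Z4} {X : ℝ} (hX : 0 ≤ X)
    (h : ∀ i l, |((v i * a l - v l * a i : ℤ) : ℝ)| ≤ X) : wn v a ≤ X :=
  (pi_norm_le_iff_of_nonneg hX).mpr fun p => h p.1 p.2

theorem wn_ac {P : Mat} {K : ℝ} (h : Mb P K) (v a : Z4) :
    wn (P *ᵥ v) (P *ᵥ a) ≤ 16 * K ^ 2 * wn v a := by
  have hK : 0 ≤ K := (abs_nonneg _).trans (h 0 0)
  have hw := o5_wn_nonneg v a
  refine o5_wn_le (by positivity) fun i l => ?_
  have e : (((P *ᵥ v) i * (P *ᵥ a) l - (P *ᵥ v) l * (P *ᵥ a) i : ℤ) : ℝ) =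
      ∑ p : Fin 4 × Fin 4, (P i p.1 : ℝ) * P l p.2 * ((v p.1 * a p.2 - v p.2 * a p.1 : ℤ) : ℝ) := by
    simp only [mulVec, dotProduct, Fintype.sum_prod_type, Fin.sum_univ_four]
    push_cast
    ring
  rw [e]
  refine (Finset.abs_sum_le_sum_abs _ _).trans ?_
  have k : ∀ p ∈ (Finset.univ : Finset (Fin 4 × Fin 4)),
      |(P i p.1 : ℝ) * P l p.2 * ((v p.1 * a p.2 - v p.2 * a p.1 : ℤ) : ℝ)| ≤ K * K * wn v a := by
    intro p _
    rw [abs_mul, abs_mul]
    exact mul_le_mul (mul_le_mul (h _ _) (h _ _) (abs_nonneg _) hK) (o5_le_wn v a _ _)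
      (abs_nonneg _) (by positivity)
  refine (Finset.sum_le_sum k).trans (le_of_eq ?_)
  simp only [Finset.sum_const, Finset.card_univ, Fintype.card_prod, Fintype.card_fin, nsmul_eq_mul]
  push_cast
  ring

theorem o5_exists_idx (u : V) : ∃ i, |u i| = ‖u‖ := by
  obtain ⟨i, -, hi⟩ := Finset.exists_max_image Finset.univ (fun i => |u i|) Finset.univ_nonempty
  exact ⟨i, le_antisymm (norm_le_pi_norm u i)
    ((pi_norm_le_iff_of_nonneg (abs_nonneg _)).mpr fun j => hi j (Finset.mem_univ j))⟩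

/-- The minors of `v` and `a` that contain the index `i`. -/
def o5b (v a : Z4) (i : Fin 4) : Z4 := fun l => v i * a l - v l * a i

theorem o5b_ne {v a : Z4} {i : Fin 4} (hv : v i ≠ 0) (h : wn v a ≠ 0) : o5b v a i ≠ 0 := by
  intro hb
  refine h (le_antisymm (o5_wn_le le_rfl fun k l => ?_) (o5_wn_nonneg v a))
  have h1 : v i * a l - v l * a i = 0 := congrFun hb l
  have h2 : v i * a k - v k * a i = 0 := congrFun hb k
  have h3 : v i * (v k * a l - v l * a k) = 0 := by linear_combination v k * h1 - v l * h2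
  rw [(mul_eq_zero.mp h3).resolve_left hv]
  simp

theorem o5b_dec {v : Z4} {i : Fin 4} (hv : (v i : ℝ) ≠ 0) (a : Z4) :
    cs a = ((a i : ℝ) / v i) • cs v + (1 / (v i : ℝ)) • cs (o5b v a i) := by
  funext l
  simp only [cs, o5b, Pi.add_apply, Pi.smul_apply, smul_eq_mul]
  push_cast
  field_simp
  ring

theorem o5b_norm (v a : Z4) (i : Fin 4) : ‖cs (o5b v a i)‖ ≤ wn v a :=
  (pi_norm_le_iff_of_nonneg (o5_wn_nonneg v a)).mpr fun l => o5_le_wn v a i l

theorem o5b_par {v a a' : Z4} {i : Fin 4} (h : 2 * wn v a ^ 2 < |(v i : ℝ)|)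
    (h' : 2 * wn v a' ^ 2 < |(v i : ℝ)|) (k l : Fin 4) :
    o5b v a i k * o5b v a' i l = o5b v a i l * o5b v a' i k := by
  have hd : v i ∣ o5b v a i k * o5b v a' i l - o5b v a i l * o5b v a' i k :=
    ⟨v i * (a k * a' l - a l * a' k) - v l * a k * a' i - v k * a i * a' l + v k * a l * a' i +
      v l * a i * a' k, by simp only [o5b]; ring⟩
  refine sub_eq_zero.mp (Int.eq_zero_of_abs_lt_dvd ((abs_dvd _ _).mpr hd) ?_)
  have h1 : |((o5b v a i k : ℤ) : ℝ)| ≤ wn v a := o5_le_wn v a i k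
  have h2 : |((o5b v a i l : ℤ) : ℝ)| ≤ wn v a := o5_le_wn v a i l
  have h3 : |((o5b v a' i k : ℤ) : ℝ)| ≤ wn v a' := o5_le_wn v a' i k
  have h4 : |((o5b v a' i l : ℤ) : ℝ)| ≤ wn v a' := o5_le_wn v a' i l
  have h5 := mul_le_mul h1 h4 (abs_nonneg _) (o5_wn_nonneg _ _)
  have h6 := mul_le_mul h2 h3 (abs_nonneg _) (o5_wn_nonneg _ _)
  rw [← abs_mul] at h5 h6
  have h7 := abs_sub ((o5b v a i k : ℝ) * o5b v a' i l) ((o5b v a i l : ℝ) * o5b v a' i k)
  have h8 : |(o5b v a i k : ℝ) * o5b v a' i l - (o5b v a i l : ℝ) * o5b v a' i k| < |(v i : ℝ)| := by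
    nlinarith [sq_nonneg (wn v a - wn v a')]
  exact_mod_cast h8

/-- Two short wedges are proportional: there is one direction `d` for all of them. -/
theorem one_plane (v : Z4) (hv : v ≠ 0) : ∃ (d : V) (i : Fin 4), ‖d‖ = 1 ∧ d i = 0 ∧
    |(v i : ℝ)| = ‖cs v‖ ∧ ∀ a : Z4, wn v a ≠ 0 → 2 * wn v a ^ 2 < ‖cs v‖ →
      ∃ x y : ℝ, cs a = x • cs v + y • d ∧ 1 / ‖cs v‖ ≤ |y| := by
  obtain ⟨i, hi⟩ := o5_exists_idx (cs v)
  have hi' : |(v i : ℝ)| = ‖cs v‖ := hi
  have hN := one_le_norm_cs hv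
  have hvi : (v i : ℝ) ≠ 0 := abs_pos.mp (by linarith)
  have hvi' : v i ≠ 0 := by exact_mod_cast hvi
  by_cases hex : ∃ a : Z4, wn v a ≠ 0 ∧ 2 * wn v a ^ 2 < ‖cs v‖
  · obtain ⟨a0, h0, h0'⟩ := hex
    have hb0 := o5b_ne hvi' h0
    have hn0 := one_le_norm_cs hb0
    obtain ⟨k, hk⟩ := Function.ne_iff.mp hb0
    have hk' : (o5b v a0 i k : ℝ) ≠ 0 := by exact_mod_cast hk
    have hd : ‖‖cs (o5b v a0 i)‖⁻¹ • cs (o5b v a0 i)‖ = 1 := by
      rw [norm_smul, norm_inv, norm_norm, inv_mul_cancel₀ (by linarith)]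
    refine ⟨‖cs (o5b v a0 i)‖⁻¹ • cs (o5b v a0 i), i, hd, by simp [cs, o5b], hi', fun a ha ha' => ?_⟩
    have e : cs (o5b v a i) = ((o5b v a i k : ℝ) / o5b v a0 i k * ‖cs (o5b v a0 i)‖) •
        ‖cs (o5b v a0 i)‖⁻¹ • cs (o5b v a0 i) := by
      funext l
      have h1 : (o5b v a i k : ℝ) * o5b v a0 i l = (o5b v a i l : ℝ) * o5b v a0 i k := by
        exact_mod_cast o5b_par (hi' ▸ ha') (hi' ▸ h0') k l
      have h2 : ‖cs (o5b v a0 i)‖ ≠ 0 := by linarith
      simp only [Pi.smul_apply, smul_eq_mul]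
      show (o5b v a i l : ℝ) = _ * (_ * (o5b v a0 i l : ℝ))
      field_simp
      linarith
    obtain ⟨μ, hμ⟩ : ∃ μ : ℝ, cs (o5b v a i) = μ • ‖cs (o5b v a0 i)‖⁻¹ • cs (o5b v a0 i) := ⟨_, e⟩
    have h3 := one_le_norm_cs (o5b_ne hvi' ha)
    rw [hμ, norm_smul, hd, mul_one, Real.norm_eq_abs] at h3
    refine ⟨a i / v i, 1 / (v i : ℝ) * μ, ?_, ?_⟩
    · rw [mul_smul, ← hμ]
      exact o5b_dec hvi a
    · rw [abs_mul, abs_div, abs_one, hi']
      exact le_mul_of_one_le_right (by positivity) h3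
  · refine ⟨Pi.single (i + 1) 1, i, by simp [Pi.norm_single], ?_, hi',
      fun a ha ha' => absurd ⟨a, ha, ha'⟩ hex⟩
    fin_cases i <;> simp

theorem strip_vol (R : ℝ) : ∃ C : ℝ, 0 < C ∧ ∀ (d : V) (θ : ℝ), ‖d‖ = 1 → 0 ≤ θ →
    volume {ξ : V | ‖ξ‖ ≤ R ∧ |Om ξ d| ≤ θ} ≤ ENNReal.ofReal (C * θ) := by
  refine ⟨2 * (2 * (|R| + 2)) ^ 4, by positivity, fun d θ hd hθ => ?_⟩
  obtain ⟨u, hu, hdu⟩ := exists_dual d
  have hm : MeasurableSet {ξ : V | ‖ξ‖ ≤ R ∧ |Om ξ d| ≤ θ} := by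
    have k : Continuous fun ξ : V => |Om ξ d| := by
      unfold Om
      fun_prop
    exact ((isClosed_le (continuous_norm (E := V)) continuous_const).inter
      (isClosed_le k continuous_const)).measurableSet
  have h1 := line_avg (volume : Measure V) hm u 1
  rw [ENNReal.ofReal_one, one_mul] at h1
  rw [h1]
  have h2 : ∀ z : V, volume {s ∈ Set.Icc (0 : ℝ) 1 | z + s • u ∈ {ξ : V | ‖ξ‖ ≤ R ∧ |Om ξ d| ≤ θ}} ≤
      (Metric.closedBall (0 : V) (|R| + 2)).indicator (fun _ => ENNReal.ofReal (2 * θ)) z := by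
    intro z
    by_cases hz : z ∈ Metric.closedBall (0 : V) (|R| + 2)
    · rw [Set.indicator_of_mem hz]
      refine (measure_mono (t := Set.Icc (Om z d - θ) (Om z d + θ)) fun s hs => ?_).trans ?_
      · have k := hs.2.2
        rw [add_Om, smul_Om, Om_swap u d, hdu, hd, abs_le] at k
        exact ⟨by linarith [k.2], by linarith [k.1]⟩
      · rw [Real.volume_Icc]
        exact ENNReal.ofReal_le_ofReal (by linarith)
    · rw [Set.indicator_of_notMem hz]
      refine (measure_mono (t := ∅) fun s hs => hz ?_).trans (by simp)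
      have k1 : ‖z + s • u‖ ≤ R := hs.2.1
      have k2 : ‖s • u‖ ≤ 2 := by
        rw [norm_smul, Real.norm_of_nonneg hs.1.1]
        exact (mul_le_of_le_one_left (norm_nonneg _) hs.1.2).trans hu
      have k3 := norm_sub_le (z + s • u) (s • u)
      rw [add_sub_cancel_right] at k3
      rw [mem_closedBall_zero_iff]
      linarith [le_abs_self R]
  refine (lintegral_mono h2).trans ?_
  rw [lintegral_indicator_const measurableSet_closedBall,
    Real.volume_pi_closedBall _ (by positivity), ← ENNReal.ofReal_mul (by positivity)]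
  refine ENNReal.ofReal_le_ofReal (le_of_eq ?_)
  simp only [Fintype.card_fin]
  ring

theorem o5_dual (i : Fin 4) : ∃ g : V, ‖g‖ ≤ 1 ∧ ∀ u : V, Om u g = u i := by
  refine ⟨fun j => (Ji j i : ℝ), (pi_norm_le_iff_of_nonneg zero_le_one).mpr fun j => ?_, fun u => ?_⟩
  · fin_cases i <;> fin_cases j <;> simp [Ji]
  · fin_cases i <;> simp [Om, Ji]

end Pool.Agent.TW.G
end

-- part Pool.Agent.Lib.MP_4eaecc_an.XC2
section

/-! Isotropic pairs of integer vectors near a direction. -/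

namespace Pool.Agent.TW.G

open Matrix MeasureTheory Filter Topology
open scoped ENNReal NNReal

theorem xc2_wedge {g : V} {i : Fin 4} (hg : ∀ l, |g l| ≤ 1) (v : V) (l : Fin 4) :
    |v l * g i - v i * g l| ≤ 2 * ‖v‖ := by
  have e : ∀ a b, |v a * g b| ≤ ‖v‖ := fun a b => by
    rw [abs_mul]
    exact (mul_le_of_le_one_right (abs_nonneg _) (hg b)).trans (norm_le_pi_norm v a)
  linarith [abs_sub (v l * g i) (v i * g l), e l i, e i l]

theorem xc2_one {w c : Z4} (h : c ⬝ᵥ w = 1) : 1 ≤ ‖cs w‖ := by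
  obtain ⟨l, hl⟩ : ∃ l, w l ≠ 0 := by
    by_contra! k
    rw [show w = 0 from funext k, dotProduct_zero] at h
    exact zero_ne_one h
  refine le_trans ?_ (norm_le_pi_norm (cs w) l)
  rw [Real.norm_eq_abs, cs]
  exact_mod_cast Int.one_le_abs hl

/-- The pairs with a given class. -/
theorem xc2_fib : ∃ C : ℝ, 0 < C ∧ ∀ (γ H Y E : ℝ) (p q : ℤ) (g : V) (i : Fin 4) (w : Z4)
    (s : Finset (Z4 × Z4)), IsCoprime p q → 1 ≤ q → (∃ c : Z4, c ⬝ᵥ w = 1) → (∀ l, |g l| ≤ 1) →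
    |g i| = 1 → 1 ≤ Y → Y ≤ 4 * H / q → (∀ t, t ≤ 4 * H / q → |q * γ - p| * t ≤ 2 * E → t ≤ Y) →
    (∀ u ∈ s, q • u.1 - p • u.2 = w ∧ Om (cs u.1) (cs u.2) = 0 ∧ ‖cs u.2‖ ≤ H ∧
      ∀ l, |(cs u.1 - γ • cs u.2) l * g i - (cs u.1 - γ • cs u.2) i * g l| ≤ E) →
    (s.card : ℝ) * min Y ‖cs w‖ ≤ C * (4 * H / q) * Y ^ 2 := by
  obtain ⟨C, hC, h⟩ := tube_count'
  refine ⟨C, hC, fun γ H Y E p q g i w s ⟨α, β, e⟩ hq hw hg hi h1 h2 h3 hs => ?_⟩
  have q0 : (0 : ℝ) < q := by exact_mod_cast hq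
  rcases s.eq_empty_or_nonempty with rfl | ⟨v, hv⟩
  · rw [Finset.card_empty, Nat.cast_zero, zero_mul]
    exact mul_nonneg (mul_nonneg hC.le ((zero_le_one.trans h1).trans h2)) (sq_nonneg _)
  let y : Z4 × Z4 → Z4 := fun u => α • (u.1 - v.1) + β • (u.2 - v.2)
  have k : ∀ u ∈ s, ∀ l, u.1 l - v.1 l = p * y u l ∧ u.2 l - v.2 l = q * y u l := fun u hu l => by
    have := congrFun ((hs u hu).1.trans (hs v hv).1.symm) l
    simp only [y, Pi.sub_apply, Pi.add_apply, Pi.smul_apply, smul_eq_mul] at this ⊢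
    constructor
    · linear_combination (-(u.1 l - v.1 l)) * e + β * this
    · linear_combination (-(u.2 l - v.2 l)) * e - α * this
  have k0 : Set.InjOn y s := fun u hu u' hu' h => Prod.ext
    (funext fun l => by linarith [(k u hu l).1, (k u' hu' l).1, congrArg (p * · l) h])
    (funext fun l => by linarith [(k u hu l).2, (k u' hu' l).2, congrArg (q * · l) h])
  rw [← Finset.card_image_of_injOn k0]
  refine h w g i _ Y _ hw hg hi h1 h2 fun z hz => ?_
  obtain ⟨u, hu, rfl⟩ := Finset.mem_image.1 hz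
  have k1 : cs u.1 - cs v.1 = (p : ℝ) • cs (y u) := funext fun l => by
    simp only [cs, Pi.sub_apply, Pi.smul_apply, smul_eq_mul]
    exact_mod_cast (k u hu l).1
  have k2 : cs u.2 - cs v.2 = (q : ℝ) • cs (y u) := funext fun l => by
    simp only [cs, Pi.sub_apply, Pi.smul_apply, smul_eq_mul]
    exact_mod_cast (k u hu l).2
  have k3 : ∀ u ∈ s, Om (cs w) (cs u.2) = 0 := fun u hu => by
    have := (hs u hu).2.1
    rw [← (hs u hu).1]
    simp only [Om, cs, Pi.sub_apply, Pi.smul_apply, smul_eq_mul] at this ⊢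
    push_cast
    linear_combination q * this
  have k4 : ‖cs (y u)‖ ≤ 2 * H / q := by
    have := norm_sub_le (cs u.2) (cs v.2)
    rw [k2, norm_smul, Real.norm_eq_abs, abs_of_pos q0] at this
    rw [le_div_iff₀ q0]
    linarith [(hs u hu).2.2.1, (hs v hv).2.2.1]
  have k5 : 4 * H / q = 2 * (2 * H / q) := by ring
  refine ⟨?_, by linarith [norm_nonneg (cs (y u))], fun l => h3 _
    (by linarith [xc2_wedge (i := i) hg (cs (y u)) l]) ?_⟩
  · have := Om_sub (cs w) (cs u.2) (cs v.2)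
    rw [k2, Om_smul, k3 u hu, k3 v hv, sub_zero] at this
    exact (mul_eq_zero.1 this).resolve_left q0.ne'
  · have a1 := congrFun k1
    have a2 := congrFun k2
    have a3 := (hs u hu).2.2.2 l
    have a4 := (hs v hv).2.2.2 l
    simp only [Pi.sub_apply, Pi.smul_apply, smul_eq_mul] at a1 a2 a3 a4
    rw [← abs_mul, show (q * γ - p) * (cs (y u) l * g i - cs (y u) i * g l) =
      ((cs v.1 l - γ * cs v.2 l) * g i - (cs v.1 i - γ * cs v.2 i) * g l) -
        ((cs u.1 l - γ * cs u.2 l) * g i - (cs u.1 i - γ * cs u.2 i) * g l) by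
      linear_combination g i * a1 l - g l * a1 i - γ * g i * a2 l + γ * g l * a2 i]
    exact (abs_sub _ _).trans (by linarith)

theorem xc2_num {W Y M q σ H F N x : ℝ} (hq : 1 ≤ q) (hσ : 0 < σ) (hH : 0 ≤ H) (hF : 1 ≤ F)
    (hN : 0 ≤ N) (hx : 1 ≤ x) (hW : 0 ≤ W) (hY : 0 ≤ Y) (hM : M = q * N + F)
    (h1 : W ≤ 3 * x * F) (h2 : W * Y ≤ 12 * x * F * H / σ) :
    W ^ 3 * (4 * H / q * (M * Y + 3 * F * Y ^ 2)) ≤
      5184 * x ^ 3 * F ^ 4 * H ^ 2 * ((N + 1) / σ + H / σ ^ 2) := by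
  have h3 : M / q ≤ F * (N + 1) := by
    rw [div_le_iff₀ (by linarith), hM]
    nlinarith [mul_nonneg (mul_nonneg (sub_nonneg.2 hF) hN) (zero_le_one.trans hq),
      mul_nonneg (sub_nonneg.2 hq) (zero_le_one.trans hF)]
  have h4 : W / q ≤ 3 * x * F := (div_le_self hW hq).trans h1
  have h5 : 0 ≤ M / q := by rw [hM]; positivity
  calc _ = 4 * H * (W ^ 2 * (W * Y) * (M / q) + 3 * F * (W * Y) ^ 2 * (W / q)) := by ring
    _ ≤ 4 * H * ((3 * x * F) ^ 2 * (12 * x * F * H / σ) * (F * (N + 1)) +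
        3 * F * (12 * x * F * H / σ) ^ 2 * (3 * x * F)) := by gcongr
    _ = 432 * (x ^ 3 * F ^ 4 * H ^ 2 * ((N + 1) / σ)) +
        5184 * (x ^ 3 * F ^ 4 * H ^ 2 * (H / σ ^ 2)) := by ring
    _ ≤ 5184 * (x ^ 3 * F ^ 4 * H ^ 2 * ((N + 1) / σ)) +
        5184 * (x ^ 3 * F ^ 4 * H ^ 2 * (H / σ ^ 2)) := by gcongr; norm_num
    _ = _ := by ring

/-- Count first the classes `q u - p u'` (`box_count`), then the pairs with a given class: two of
them differ by `(p y, q y)` (`tube_count'`). -/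
theorem pair_count : ∃ C : ℝ, 0 < C ∧ ∀ (γ Λ σ H F N x : ℝ) (p q : ℤ) (g : V) (i : Fin 4)
    (s : Finset (Z4 × Z4)), IsCoprime p q → 1 ≤ q → (q : ℝ) ≤ σ → Λ * |q * γ - p| ≤ σ →
    (σ ≤ q ∨ σ ≤ Λ * |q * γ - p|) → σ ^ 2 ≤ Λ → Λ ≤ H * σ → H * σ ≤ F * Λ → 0 ≤ N → 1 ≤ x →
    (∀ l, |g l| ≤ 1) → |g i| = 1 →
    (∀ u ∈ s, Om (cs u.1) (cs u.2) = 0 ∧ (∃ c : Z4, c ⬝ᵥ (q • u.1 - p • u.2) = 1) ∧
      ‖cs u.2‖ ≤ H ∧ N ≤ ‖cs u.1 - γ • cs u.2‖ ∧ ‖cs u.1 - γ • cs u.2‖ ≤ 3 * N ∧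
      ∀ l, |(cs u.1 - γ • cs u.2) l * g i - (cs u.1 - γ • cs u.2) i * g l| ≤ x * H / Λ) →
    (s.card : ℝ) ≤ C * x ^ 3 * F ^ 4 * H ^ 2 * ((N + 1) / σ + H / σ ^ 2) := by
  obtain ⟨C, hC, h⟩ := xc2_fib
  refine ⟨162 * C * 5184, by positivity,
    fun γ Λ σ H F N x p q g i s hc hq h1 h2 h3 h4 h5 h6 hN hx hg hi hs => ?_⟩
  have q1 : (1 : ℝ) ≤ q := by exact_mod_cast hq
  have q0 : (0 : ℝ) < q := by linarith
  have σ0 : 0 < σ := by linarith
  have Λ0 : 0 < Λ := (pow_pos σ0 2).trans_le h4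
  have F1 : 1 ≤ F := le_of_mul_le_mul_right (by linarith) Λ0
  have H1 : σ ≤ H := le_of_mul_le_mul_right (by linarith) σ0
  have H0 : 0 < H := σ0.trans_le H1
  have d1 : |q * γ - p| * H ≤ F := le_of_mul_le_mul_right
    (by linarith [mul_le_mul_of_nonneg_right h2 H0.le]) Λ0
  have a1 : 1 ≤ H / σ := (one_le_div σ0).2 H1
  have a2 : H / σ ≤ H / q := div_le_div_of_nonneg_left H0.le q0 h1
  have a3 : H / σ ≤ x * (H / σ) := le_mul_of_one_le_left (by positivity) hx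
  have a4 : x * q / σ ≤ x := by
    rw [div_le_iff₀ σ0]
    exact mul_le_mul_of_nonneg_left h1 (by linarith)
  have a5 : 0 ≤ x * q / σ := by positivity
  set W := F * (2 + x * q / σ) with hW
  set Y := min (4 * (x * (H / σ))) (4 * H / q) with hY
  set M := q * N + F with hM
  have W1 : 1 ≤ W := by nlinarith
  have Y1 : 1 ≤ Y := le_min (by linarith) (by rw [mul_div_assoc]; linarith)
  have M0 : 0 < M := by positivity
  let w : Z4 × Z4 → Z4 := fun u => q • u.1 - p • u.2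
  have e : ∀ u, cs (w u) = (q : ℝ) • (cs u.1 - γ • cs u.2) + (q * γ - p) • cs u.2 := fun u =>
    funext fun l => by
      simp only [w, cs, Pi.sub_apply, Pi.add_apply, Pi.smul_apply, smul_eq_mul]
      push_cast
      ring
  have n2 : ∀ u ∈ s, ‖(q * γ - p) • cs u.2‖ ≤ F := fun u hu => by
    rw [norm_smul, Real.norm_eq_abs]
    exact (mul_le_mul_of_nonneg_left (hs u hu).2.2.1 (abs_nonneg _)).trans d1
  have b1 := box_count g i (X := 3 * q * N + F) (Y := W) (by positivity) (by linarith) hi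
    (s.image w) fun z hz => by
      obtain ⟨u, hu, rfl⟩ := Finset.mem_image.1 hz
      refine ⟨?_, fun l => ?_⟩
      · rw [e]
        refine (norm_add_le _ _).trans (add_le_add ?_ (n2 u hu))
        rw [norm_smul, Real.norm_eq_abs, abs_of_pos q0]
        linarith [mul_le_mul_of_nonneg_left (hs u hu).2.2.2.2.1 q0.le]
      · have k1 := xc2_wedge (i := i) hg ((q * γ - p) • cs u.2) l
        have k2 := mul_le_mul_of_nonneg_left ((hs u hu).2.2.2.2.2 l) q0.le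
        have k3 : q * (x * H / Λ) ≤ F * (x * q / σ) := by
          have : H / Λ ≤ F / σ := by rwa [div_le_div_iff₀ Λ0 σ0]
          calc _ = x * q * (H / Λ) := by ring
            _ ≤ x * q * (F / σ) := by gcongr
            _ = _ := by ring
        rw [← abs_of_pos q0, ← abs_mul, abs_of_pos q0] at k2
        rw [e]
        generalize cs u.1 - γ • cs u.2 = r at k2 ⊢
        have k4 := n2 u hu
        generalize (q * γ - p) • cs u.2 = r' at k1 k4 ⊢
        rw [show ((q : ℝ) • r + r') l * g i - ((q : ℝ) • r + r') i * g l =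
          q * (r l * g i - r i * g l) + (r' l * g i - r' i * g l) by
          simp only [Pi.add_apply, Pi.smul_apply, smul_eq_mul]; ring]
        exact (abs_add_le _ _).trans (by linarith)
  have b2 : ∀ z ∈ s.image w, ((s.filter fun u => w u = z).card : ℝ) * M ≤
      C * (4 * H / q * (M * Y + 3 * F * Y ^ 2)) := fun z hz => by
    obtain ⟨v, hv, rfl⟩ := Finset.mem_image.1 hz
    have k1 := h γ H Y (x * H / Λ) p q g i (w v) (s.filter fun u => w u = w v) hc hq (hs v hv).2.1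
      hg hi Y1 (min_le_right _ _) (fun t t1 t2 => le_min ?_ t1) fun u hu =>
        have k := hs u (Finset.mem_filter.1 hu).1
        ⟨(Finset.mem_filter.1 hu).2, k.1, k.2.2.1, k.2.2.2.2.2⟩
    · have k2 : M ≤ 3 * F * ‖cs (w v)‖ := by
        obtain ⟨c, hc⟩ := (hs v hv).2.1
        have k3 := xc2_one (w := w v) hc
        have k4 := norm_sub_le (cs (w v)) ((q * γ - p) • cs v.2)
        rw [e, add_sub_cancel_right, ← e, norm_smul, Real.norm_eq_abs, abs_of_pos q0] at k4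
        have k5 := mul_le_mul_of_nonneg_left (hs v hv).2.2.2.1 q0.le
        have k6 := n2 v hv
        nlinarith
      have n0 : (0 : ℝ) ≤ (s.filter fun u => w u = w v).card := Nat.cast_nonneg _
      generalize ((s.filter fun u => w u = w v).card : ℝ) = n at k1 n0 ⊢
      have k7 : 0 ≤ C * (4 * H / q) := by positivity
      rw [← mul_assoc]
      generalize C * (4 * H / q) = B at k1 k7 ⊢
      rcases le_total Y ‖cs (w v)‖ with k | k
      · rw [min_eq_left k] at k1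
        have k8 : n ≤ B * Y := le_of_mul_le_mul_right (by linarith) (zero_lt_one.trans_le Y1)
        have k9 : 0 ≤ B * (3 * F * Y ^ 2) := by positivity
        linarith [mul_le_mul_of_nonneg_right k8 M0.le]
      · rw [min_eq_right k] at k1
        have k9 : 0 ≤ B * (M * Y) := by positivity
        linarith [mul_le_mul_of_nonneg_left k2 n0,
          mul_le_mul_of_nonneg_left k1 (show 0 ≤ 3 * F by linarith)]
    · rcases h3 with k | k
      · have : H / q ≤ H / σ := div_le_div_of_nonneg_left H0.le σ0 k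
        rw [mul_div_assoc] at t1
        linarith
      · rcases le_total t 0 with t0 | t0
        · exact t0.trans (by positivity)
        rw [mul_div_assoc', mul_div_assoc', le_div_iff₀ σ0]
        rw [mul_div_assoc', le_div_iff₀ Λ0] at t2
        nlinarith [mul_le_mul_of_nonneg_left k t0, mul_pos (zero_lt_one.trans_le hx) H0]
  have b3 : (s.card : ℝ) * M ≤ (s.image w).card * (C * (4 * H / q * (M * Y + 3 * F * Y ^ 2))) := by
    rw [Finset.card_eq_sum_card_image w s, Nat.cast_sum, Finset.sum_mul, ← nsmul_eq_mul]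
    exact Finset.sum_le_card_nsmul _ _ _ b2
  have b4 : ((s.image w).card : ℝ) ≤ 6 * M * (3 * W) ^ 3 := b1.trans (by
    gcongr
    · linarith
    · linarith)
  have b5 := xc2_num (W := W) (Y := Y) q1 σ0 H0.le F1 hN hx (by linarith) (by linarith) hM
    (by nlinarith) (by
      have k1 : Y ≤ 4 * (x * (H / σ)) := min_le_left _ _
      have k2 : x * q / σ * Y ≤ x * q / σ * (4 * H / q) :=
        mul_le_mul_of_nonneg_left (min_le_right _ _) a5
      rw [show x * q / σ * (4 * H / q) = 4 * (x * (H / σ)) by field_simp] at k2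
      calc _ = F * (2 * Y + x * q / σ * Y) := by rw [hW]; ring
        _ ≤ F * (12 * (x * (H / σ))) := by gcongr; linarith
        _ = _ := by ring)
  refine le_of_mul_le_mul_right (b3.trans ?_) M0
  calc _ ≤ 6 * M * (3 * W) ^ 3 * (C * (4 * H / q * (M * Y + 3 * F * Y ^ 2))) := by gcongr
    _ = 162 * C * M * (W ^ 3 * (4 * H / q * (M * Y + 3 * F * Y ^ 2))) := by ring
    _ ≤ 162 * C * M * (5184 * x ^ 3 * F ^ 4 * H ^ 2 * ((N + 1) / σ + H / σ ^ 2)) := by gcongr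
    _ = _ := by ring

end Pool.Agent.TW.G
end

-- part Pool.Agent.Lib.MP_4eaecc_an.XO7
section

/-! The estimate for one class of atoms. -/

namespace Pool.Agent.TW.G

open Matrix MeasureTheory Filter Topology
open scoped ENNReal NNReal

theorem o7_meas (ρ r N : ℝ) (v : V) : Measurable (dk ρ r N v) := by
  unfold dk ker Om
  fun_prop

theorem o7_live {a r l l' S m n : ℝ} (hl : 0 < l) (hn : 0 ≤ n)
    (h : S * l' ≤ r * Real.exp a * l) (k : m * l ≤ S * n * l') : Real.exp (-a) * m ≤ r * n := by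
  rw [Real.exp_neg, inv_mul_le_iff₀ (Real.exp_pos a)]
  refine le_of_mul_le_mul_right (k.trans ?_) hl
  calc S * n * l' = n * (S * l') := by ring
    _ ≤ n * (r * Real.exp a * l) := mul_le_mul_of_nonneg_left h hn
    _ = _ := by ring

theorem cls (w : Par) {δ : ℝ} (hδ : 0 < δ) (h1 : δ ≤ 1) : ∃ C : ℝ, 0 < C ∧
    ∀ (j a N ρ r S ω B : ℝ) (τ : Ty) (s : Finset Mat) (E : Set V) (X : Set (Fin 3 → ℝ)),
    0 ≤ a → 0 < N → 0 < ρ → 0 < r → 0 ≤ B → ω ≤ δ / 6 →
    (∀ P ∈ s, N ≤ ‖ac P w.v0‖ ∧ ‖ac P w.v0‖ ≤ 3 * N) →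
    ∫⁻ ξ : V, ENNReal.ofReal (Real.exp (-(ξ ⬝ᵥ ξ) / 2) *
      (∑ P ∈ s, Real.exp (-3 * j) / N * dk ρ r N (ac P w.v0) ξ) ^ 2) ≤ ENNReal.ofReal (B ^ 2) →
    (∀ z ∈ X, GoodAt δ .L (w.y z) j ∧ GoodAt δ .L (w.y z) (j + a) ∧
      (St .L (w.y z) j).1 = τ ∧ (St .L (w.y z) j).2 ∈ s ∧ (nst .L (w.y z) (j + a)).1 ∈ E ∧
      Shear w z j a S ∧ 2 * ρ * Real.exp a * N ≤ ω * w.lev z (j + a) ∧
      S * w.lev z (j + a) ≤ r * Real.exp a * w.lev z j) →
    volume X ≤ ENNReal.ofReal (C * B) +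
      ENNReal.ofReal (C * ∑ P ∈ s, Real.exp (-3 * j) / ‖ac P w.v0‖) *
        volume (Metric.cthickening ω E) := by
  classical
  obtain ⟨Co, R0, o0, ho⟩ := cls_overlap w hδ h1
  obtain ⟨Cm, m0, hm⟩ := cls_main w hδ h1
  obtain ⟨C1, c0, hc⟩ := l1_of_l2 R0
  refine ⟨Co * C1 + Cm * 3, by positivity, ?_⟩
  intro j a N ρ r S ω B0 τ s E X ha hN ρ0 r0 hB hω hs hI hX
  have hfin : ((fun z => fut w z j a) '' X).Finite :=
    (fut_finite w hδ j a ha).subset (by
      rintro _ ⟨z, hz, rfl⟩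
      exact ⟨z, (hX z hz).1, rfl⟩)
  have t1 := cls_thick w hδ h1 ha hN ρ0 hω (τ := τ) s hfin.toFinset (E := E) (X := X) (j := j)
    fun z hz => by
      obtain ⟨k1, k2, k3, k4, k5, -, k7, -⟩ := hX z hz
      exact ⟨k1, k2, k3, k4, hfin.mem_toFinset.2 ⟨z, hz, rfl⟩, k5, k7⟩
  have lv : ∀ B ∈ hfin.toFinset, Live w δ j a r τ B := fun B hB => by
    obtain ⟨z, hz, rfl⟩ := hfin.mem_toFinset.1 hB
    obtain ⟨k1, k2, k3, -, -, k6, -, k8⟩ := hX z hz
    exact ⟨z, k1, k2, k3, rfl, fun u hu => o7_live (w.lev_pos z j) (norm_nonneg _) k8 (k6 u hu)⟩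
  have t2 := hm j a N r τ s _ (Metric.cthickening ω E) ha hN r0
    Metric.isClosed_cthickening.measurableSet lv hs
  have p3 : ∀ P ∈ s, Real.exp (-3 * j) / N ≤ 3 * (Real.exp (-3 * j) / ‖ac P w.v0‖) :=
    fun P hP => by
      have k1 := (hs P hP).2
      have k2 := hN.trans_le (hs P hP).1
      rw [← mul_div_assoc, div_le_div_iff₀ hN k2, mul_comm 3, mul_assoc]
      gcongr
  have s3 := Finset.sum_le_sum p3
  rw [← Finset.mul_sum] at s3
  obtain ⟨F, hF⟩ : ∃ F : V → ℝ, F = fun ξ => ∑ P ∈ s, Real.exp (-3 * j) / N *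
      dk ρ r N (ac P w.v0) ξ := ⟨_, rfl⟩
  have mF : Measurable F := by
    rw [hF]
    exact Finset.measurable_sum _ fun P _ => (o7_meas _ _ _ _).const_mul _
  have mG : Measurable fun ξ => ENNReal.ofReal |F ξ| := mF.abs.ennreal_ofReal
  have t4 := hc F B0 mF hB (by
    rw [hF]
    exact hI)
  have t5 := ho j a _ τ _ _ ha mG lv
  have t6 : ∀ B, ∫⁻ ζ in reg δ a B (Metric.cthickening ω E),
      ENNReal.ofReal (mix w s j N ρ ζ) ≤
      (∫⁻ ζ in reg δ a B (Metric.cthickening ω E), ENNReal.ofReal (mix w s j N r ζ)) +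
      ∫⁻ ζ in reg δ a B Set.univ, ENNReal.ofReal |F ζ| := fun B => by
    refine le_trans ?_ (add_le_add le_rfl (lintegral_mono_set
      (s := reg δ a B (Metric.cthickening ω E)) fun _ h => And.intro h.1 trivial))
    rw [← lintegral_add_right _ mG]
    refine lintegral_mono fun ζ => le_trans (ENNReal.ofReal_le_ofReal ?_) ENNReal.ofReal_add_le
    have e : F ζ = mix w s j N ρ ζ - mix w s j N r ζ := by
      simp only [hF, mix, dk, mul_sub, Finset.sum_sub_distrib]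
    linarith [le_abs_self (F ζ)]
  refine (t1.trans (Finset.sum_le_sum fun B _ => t6 B)).trans ?_
  rw [Finset.sum_add_distrib, add_comm]
  refine add_le_add ((t5.trans (mul_le_mul_right t4 _)).trans ?_)
    (t2.trans (mul_le_mul_left (ENNReal.ofReal_le_ofReal ?_) _))
  · rw [← ENNReal.ofReal_mul o0.le]
    refine ENNReal.ofReal_le_ofReal ?_
    have : 0 ≤ Cm * 3 * B0 := by positivity
    linarith
  · have k1 : 0 ≤ ∑ P ∈ s, Real.exp (-3 * j) / ‖ac P w.v0‖ :=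
      Finset.sum_nonneg fun _ _ => by positivity
    have k2 := mul_le_mul_of_nonneg_left s3 m0.le
    have k3 := mul_nonneg (show 0 ≤ Co * C1 by positivity) k1
    linarith

end Pool.Agent.TW.G
end
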