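import Pool.Agent.Lib.MP_4eaecc_an.XO1
import Pool.Agent.Lib.MP_4eaecc_an.N1a
import Pool.Agent.Lib.MP_4eaecc_an.XN2
import Pool.Agent.Lib.MP_4eaecc_an.XO7

-- part Pool.Agent.Lib.MP_4eaecc_an.XC3
section

/-! Atoms with the same last two columns. -/

namespace Pool.Agent.TW.G

open Matrix MeasureTheory Filter Topology
open scoped ENNReal NNReal

/-- A chain of moves that fixes the horizontal cylinders is a product of twists. -/
theorem rigid {y : Pt} {Q : Mat} (h : Reach y Q) (h0 : y.2 0 = 0) (h1 : y.2 1 = 0)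
    (c2 : col Q 2 = ![0, 0, 1, 0]) (c3 : col Q 3 = ![0, 0, 0, 1]) :
    ∃ m n : ℤ, Q = !![1, 0, 0, 0; 0, 1, 0, 0; m, m, 1, 0; n, 0, 0, 1] := by
  have a0 : Q 0 2 = 0 := congrFun c2 0
  have a1 : Q 1 2 = 0 := congrFun c2 1
  have a2 : Q 2 2 = 1 := congrFun c2 2
  have a3 : Q 3 2 = 0 := congrFun c2 3
  have b0 : Q 0 3 = 0 := congrFun c3 0
  have b1 : Q 1 3 = 0 := congrFun c3 1
  have b2 : Q 2 3 = 0 := congrFun c3 2
  have b3 : Q 3 3 = 1 := congrFun c3 3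
  have s := fun i j => congrFun (congrFun h.symp i) j
  have s1 := s 0 3
  have s2 := s 0 2
  have s3 := s 1 3
  have s4 := s 1 2
  have s5 := s 0 1
  simp [Matrix.mul_apply, Fin.sum_univ_four, Jm, a0, a1, a2, a3, b0, b1, b2, b3] at s1 s2 s3 s4 s5
  rw [s1, add_eq_left] at s2
  rw [s3, zero_add] at s4
  have e0 : Q 0 = (1 : Mat) 0 := by
    funext i
    fin_cases i <;> simp [s1, s3, a0, b0, Matrix.one_apply]
  have z : Q 3 1 = 0 := by
    obtain ⟨W⟩ := wc_exists h.cell0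
    have d : dt (hol y ((1 : Mat) 0)) (hol y (Q 0)) = 0 := by
      rw [e0, dt]
      ring
    by_cases o : W.m {x | W.C 1 x = 2 ∧ W.C Q x = 2} = 0
    · have k0 := h.cell0 0
      have k1 := h.cell0 1
      simp [ar, dt, vec, sp, sq, h0, h1] at k0 k1
      rcases W.par_in (.refl h.cell0) h (by simp [Dbl, dt, hol, ev_four, h0, h1]) o d with k | k <;>
        have k2 := congrArg (fun p => p.1 * y.2 2) k <;>
        simp only [e0, hol, ev_four, Prod.fst_neg, Pi.add_apply, Matrix.one_apply] at k2 <;>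
        norm_num [Fin.ext_iff, -mul_eq_mul_right_iff] at k2 <;> linarith
    · rcases W.par_eq (.refl h.cell0) h o d with k | k
      · obtain ⟨-, n, k⟩ := ty_eq Symp.one k
        simpa using congrFun k 1
      · have := congrFun (congrArg Prod.fst k) 0
        simp [ty, s1] at this
  refine ⟨Q 2 1, Q 3 0, ?_⟩
  simp [s1, s2, s3, s4, z] at s5
  ext i j
  fin_cases i <;> fin_cases j <;> simp [a0, a1, a2, a3, b0, b1, b2, b3, s1, s2, s3, s4, z]
  linarith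

theorem xc3_mb (w : Par) (R : ℝ) {δ : ℝ} (hδ : 0 < δ) : ∃ K : ℝ, ∀ (t : ℝ) (τ : Ty)
    (σ : Fin 3 → Bool) (P P' : Mat), ∀ z ∈ ZR R, ∀ z' ∈ ZR R, Base .L (w.y z) t →
    Base .L (w.y z') t → St .L (w.y z) t = (τ, P) → St .L (w.y z') t = (τ, P') →
    Gw δ τ σ (Real.exp t • ac P (w.E z)) → Gw δ τ σ (Real.exp t • ac P' (w.E z')) →
    col P' 2 = col P 2 → col P' 3 = col P 3 → Mb (sinv P * P') K := by
  have ha := w.a0
  have hb := w.b0
  obtain ⟨B, hB⟩ : ∃ B, B = 4 / (δ * δ) * ((w.a + w.b + 1) * |R|) + |R| := ⟨_, rfl⟩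
  have B0 : 0 ≤ B / w.a := by rw [hB]; positivity
  refine ⟨B / w.a + 1, fun t τ σ P P' z hz z' hz' b b' e e' g g' c2 c3 => ?_⟩
  have A := b.act
  have r' := b'.reach
  rw [nst, e] at A
  replace A : Act .L τ P σ := g5a_sg (g.sg hδ) ▸ A
  rw [e'] at r'
  have c : ∀ j, col P' j = col P j → ∀ i, (sinv P * P') i j = (1 : Mat) i j := fun j k i => by
    rw [← A.1.sinv_mul, Matrix.mul_apply, Matrix.mul_apply]
    exact Finset.sum_congr rfl fun l _ => congrArg _ (congrFun k l)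
  have k1 : ac P (ac (sinv P * P') (w.E z')) = ac P' (w.E z') := by
    rw [← ac_mul, ← Matrix.mul_assoc, A.1.mul_sinv, Matrix.one_mul]
  have k2 := (g'.sg hδ).smul (Real.exp_pos (-t))
  rw [smul_smul, ← Real.exp_add, neg_add_cancel, Real.exp_zero, one_smul, ← k1] at k2
  obtain ⟨n, p1, p2⟩ := A.2.2 _ k2
  have r := path_reach p1 b.2.1
  rw [p2] at r
  have k3 : acP P (ac (sinv P * P') (w.E z'), (w.y z).2) = acP P' (w.y z') := by
    refine Prod.ext k1 (funext fun i => ?_)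
    have u2 : P' i 2 = P i 2 := congrFun c2 i
    have u3 : P' i 3 = P i 3 := congrFun c3 i
    simp [acP, ac, ev_four, Par.y, Par.eta, u2, u3]
  obtain ⟨m, n, k4⟩ := rigid (r'.trans (k3 ▸ r.inv)) rfl rfl
    (funext fun i => (c 2 c2 i).trans (by fin_cases i <;> rfl))
    (funext fun i => (c 3 c3 i).trans (by fin_cases i <;> rfl))
  have k5 := (back_norm A.2.1 hδ hδ (Real.exp_pos t) (k1.symm ▸ g') g).trans
    (mul_le_mul_of_nonneg_left ((o3_E w z).1.trans (mul_le_mul_of_nonneg_left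
      (hz.1.trans (le_abs_self R)) (by positivity))) (by positivity))
  have k6 := fun i => (norm_le_pi_norm _ i).trans k5
  have k7 := fun i => (norm_le_pi_norm _ i).trans (hz'.1.trans (le_abs_self R))
  have k8 : ∀ (x c u : ℝ), w.a ≤ c → |u| ≤ |R| → |x * c + u| ≤ B - |R| → |x| ≤ B / w.a + 1 :=
    fun x c u l1 l2 l3 => by
      have l4 := abs_sub (x * c + u) u
      rw [add_sub_cancel_right, abs_mul, abs_of_pos (ha.trans_le l1)] at l4
      refine ((le_div_iff₀ ha).2 ?_).trans (le_add_of_nonneg_right zero_le_one)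
      linarith [mul_le_mul_of_nonneg_left l1 (abs_nonneg x)]
  have l0 := hz'.2.1
  have l1 := k8 m (w.a * z' 0 + w.b * z' 0) (z' 1) (by nlinarith) (k7 1) (by
    have := k6 2
    rw [k4] at this
    rw [hB, add_sub_cancel_right, mul_add]
    simpa [ac, ev_four, Par.E] using this)
  have l2 := k8 n (w.a * z' 0) (z' 2) (by nlinarith) (k7 2) (by
    have := k6 3
    rw [k4] at this
    rw [hB, add_sub_cancel_right]
    simpa [ac, ev_four, Par.E] using this)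
  rw [k4]
  intro i j
  fin_cases i <;> fin_cases j <;> simp [l1, l2, B0] <;> linarith

/-- Two atoms with the same type, signs and columns differ by a bounded product of twists. -/
theorem col_count (w : Par) (R : ℝ) {δ : ℝ} (hδ : 0 < δ) : ∃ C : ℕ, ∀ (t : ℝ) (u u' : Z4)
    (s : Finset (Ty × Mat)), (∀ q ∈ s, Atom w R δ t q ∧ col q.2 2 = u ∧ col q.2 3 = u') →
    s.card ≤ C := by
  obtain ⟨K, hK⟩ := xc3_mb w R hδ
  refine ⟨(finite_mb K).toFinset.card * (Finset.univ : Finset (Ty × (Fin 3 → Bool))).card,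
    fun t u u' s hs => ?_⟩
  have h1 : ∀ q ∈ s, ∃ σ, ∃ z ∈ ZR R, Base .L (w.y z) t ∧ St .L (w.y z) t = q ∧
      Gw δ q.1 σ (Real.exp t • ac q.2 (w.E z)) := fun q hq => by
    obtain ⟨z, z1, ⟨b, ⟨σ, g⟩, -⟩, rfl⟩ := (hs q hq).1
    exact ⟨σ, z, z1, b, rfl, g⟩
  choose! f hf using h1
  refine Finset.card_le_mul_card_image_of_maps_to (f := fun q => (q.1, f q))
    (fun _ _ => Finset.mem_univ _) _ fun c _ => ?_
  rcases Finset.eq_empty_or_nonempty {q ∈ s | (q.1, f q) = c} with e | ⟨p, hp'⟩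
  · rw [e]
    exact Nat.zero_le _
  obtain ⟨hp, rfl⟩ := Finset.mem_filter.1 hp'
  obtain ⟨z, z1, b, e, g⟩ := hf p hp
  have hP : Symp p.2 := e ▸ St_symp _ _ _
  refine Finset.card_le_card_of_injOn (fun q => sinv p.2 * q.2) (fun q hq => ?_)
    fun q hq q' hq' k => ?_
  · obtain ⟨hq, k⟩ := Finset.mem_filter.1 hq
    obtain ⟨z', z2, b', e', g'⟩ := hf q hq
    obtain ⟨k1, k2⟩ := Prod.ext_iff.1 k
    rw [show q.1 = p.1 from k1, show f q = f p from k2] at g'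
    exact (finite_mb K).mem_toFinset.2 (hK t p.1 (f p) p.2 q.2 z z1 z' z2 b b' e
      (e'.trans (Prod.ext k1 rfl)) g g' ((hs q hq).2.1.trans (hs p hp).2.1.symm)
      ((hs q hq).2.2.trans (hs p hp).2.2.symm))
  · refine Prod.ext ((Prod.ext_iff.1 (Finset.mem_filter.1 hq).2).1.trans
      (Prod.ext_iff.1 (Finset.mem_filter.1 hq').2).1.symm) ?_
    have := congrArg (p.2 * ·) k
    simpa only [← Matrix.mul_assoc, hP.mul_sinv, Matrix.one_mul] using this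

end Pool.Agent.TW.G
end

-- part Pool.Agent.Lib.MP_4eaecc_an.XC5
section

/-! Flatness when the ratio is very close to a fraction with a small denominator. -/

namespace Pool.Agent.TW.G

open Matrix MeasureTheory Filter Topology
open scoped ENNReal NNReal

theorem xc5_norm {u : V} {X : ℝ} (h : ∀ i, |u i| ≤ X) : ‖u‖ ≤ X :=
  (pi_norm_le_iff_of_nonneg ((abs_nonneg _).trans (h 0))).2 h

theorem xc5_symp {w : Par} {R δ t : ℝ} {x : Ty × Mat} (h : Atom w R δ t x) : Symp x.2 := by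
  obtain ⟨z, -, -, rfl⟩ := h
  exact St_symp _ _ _

theorem xc5_near (w : Par) (R : ℝ) {δ : ℝ} (hδ : 0 < δ) : ∃ C : ℝ, 0 < C ∧
    ∀ (j : ℝ) (p q : ℤ) (x : Ty × Mat), 0 ≤ j → Atom w R δ j x →
    ‖cs (x.2 *ᵥ w0 p q) - (q / w.a) • ac x.2 w.v0‖ ≤ C * (|q * w.ga - p| * Real.exp j) := by
  obtain ⟨C, hC, hM⟩ := atom_mb w R hδ
  refine ⟨C, hC, fun j p q x hj hx => xc5_norm fun i => ?_⟩
  have a0 := w.a0
  have e : (cs (x.2 *ᵥ w0 p q) - (q / w.a) • ac x.2 w.v0) i = (q * w.ga - p) * (x.2 i 3 : ℝ) := by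
    rw [mulVec_w0, Par.ac_v0]
    simp [cs, col]
    field_simp
    ring
  rw [e, abs_mul]
  calc _ ≤ |q * w.ga - p| * (C * Real.exp j) :=
        mul_le_mul_of_nonneg_left (hM j x hj hx i 3) (abs_nonneg _)
    _ = _ := by ring

theorem xc5_mass {ι : Type} {s : Finset ι} {f : ι → Z4} {K B : ℝ}
    (hK : ((s.image f).card : ℝ) ≤ K) (hB0 : 0 ≤ B)
    (hB : ∀ c ∈ s.image f, ((s.filter fun P => f P = c).card : ℝ) ≤ B) : (s.card : ℝ) ≤ K * B := by
  rw [Finset.card_eq_sum_card_image f s, Nat.cast_sum]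
  refine (Finset.sum_le_card_nsmul _ _ B hB).trans ?_
  rw [nsmul_eq_mul]
  exact mul_le_mul_of_nonneg_right hK hB0

theorem xc5_wn {c c' : Z4} {v v' : V} {k N D : ℝ} (hk : 0 ≤ k) (hv : ‖v‖ ≤ 3 * N)
    (hv' : ‖v'‖ ≤ 3 * N) (h : ‖cs c - k • v‖ ≤ D) (h' : ‖cs c' - k • v'‖ ≤ D) :
    wn c c' ≤ k ^ 2 * wr v v' + 12 * k * (N * D) + 2 * D ^ 2 := by
  have D0 : 0 ≤ D := (norm_nonneg _).trans h
  have N0 : 0 ≤ 3 * N := (norm_nonneg _).trans hv
  have N1 : 0 ≤ N := by linarith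
  have w0 : 0 ≤ wr v v' := norm_nonneg _
  rw [wn_eq]
  refine (pi_norm_le_iff_of_nonneg (by positivity)).2 fun p => ?_
  obtain ⟨e, he⟩ : ∃ e : V, e = cs c - k • v := ⟨_, rfl⟩
  obtain ⟨e', he'⟩ : ∃ e : V, e = cs c' - k • v' := ⟨_, rfl⟩
  have k1 : ∀ i, cs c i = k * v i + e i := fun i => by simp [he]
  have k2 : ∀ i, cs c' i = k * v' i + e' i := fun i => by simp [he']
  rw [← he] at h
  rw [← he'] at h'
  have b1 : ∀ i, |v i| ≤ 3 * N := fun i => (norm_le_pi_norm v i).trans hv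
  have b2 : ∀ i, |v' i| ≤ 3 * N := fun i => (norm_le_pi_norm v' i).trans hv'
  have b3 : ∀ i, |e i| ≤ D := fun i => (norm_le_pi_norm e i).trans h
  have b4 : ∀ i, |e' i| ≤ D := fun i => (norm_le_pi_norm e' i).trans h'
  have b5 : |v p.1 * v' p.2 - v p.2 * v' p.1| ≤ wr v v' :=
    norm_le_pi_norm (fun p : Fin 4 × Fin 4 => v p.1 * v' p.2 - v p.2 * v' p.1) p
  have m : ∀ {x y X Y : ℝ}, |x| ≤ X → |y| ≤ Y → |x * y| ≤ X * Y := fun hx hy => by
    rw [abs_mul]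
    exact mul_le_mul hx hy (abs_nonneg _) ((abs_nonneg _).trans hx)
  have c1 := abs_le.1 (m (b1 p.1) (b4 p.2))
  have c2 := abs_le.1 (m (b1 p.2) (b4 p.1))
  have c3 := abs_le.1 (m (b2 p.1) (b3 p.2))
  have c4 := abs_le.1 (m (b2 p.2) (b3 p.1))
  have c5 := abs_le.1 (m (b3 p.1) (b4 p.2))
  have c6 := abs_le.1 (m (b3 p.2) (b4 p.1))
  have c7 : |v p.1 * e' p.2 - v p.2 * e' p.1 - v' p.1 * e p.2 + v' p.2 * e p.1| ≤ 12 * (N * D) :=
    abs_le.2 ⟨by linarith, by linarith⟩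
  have c8 : |e p.1 * e' p.2 - e p.2 * e' p.1| ≤ 2 * D ^ 2 := abs_le.2 ⟨by linarith, by linarith⟩
  have c9 := abs_le.1 (m (abs_of_nonneg (sq_nonneg k)).le b5)
  have c10 := abs_le.1 (m (abs_of_nonneg hk).le c7)
  have c11 := abs_le.1 c8
  rw [Real.norm_eq_abs, k1, k1, k2, k2]
  exact abs_le.2 ⟨by linarith, by linarith⟩

theorem xc5_big {c c' : Z4} {X : ℝ} (h : Vbig c X) (k : wn c c' < X) : wn c c' ≤ 0 := by
  refine (pi_norm_le_iff_of_nonneg le_rfl).2 fun p => ?_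
  by_contra hp
  obtain ⟨i, l, hil⟩ := h c' ⟨p.1, p.2, fun e => hp (by rw [e]; simp)⟩
  exact absurd (hil.trans (o2_minor c c' i l)) (not_le.2 k)

theorem xc5_num {β N q a ρ r A : ℝ} (hβ : 0 ≤ β) (hN : 0 < N) (hq0 : 0 < q) (ha : 0 < a)
    (hA : 0 ≤ A) (hq : q ≤ Real.exp (13 * β)) (hρ : Real.exp β ≤ ρ * N ^ 2)
    (r0 : 0 ≤ r) (hr : r * N ^ 2 ≤ Real.exp (9 * β)) :
    A / N ^ 2 / ρ + 8 * A * Real.exp (90 * β) ^ 3 / N ^ 2 * r ^ 4 * N ^ 10 /
      (a ^ 2 * Real.exp (90 * β) / (2 * q ^ 2)) ^ 5 ≤ (A + 256 * A / a ^ 10) * Real.exp (-β) := by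
  have e1 : A / N ^ 2 / ρ ≤ A * Real.exp (-β) := by
    rw [div_div, Real.exp_neg, ← div_eq_mul_inv]
    exact div_le_div_of_nonneg_left hA (Real.exp_pos _) (by linarith)
  have e2 : Real.exp (9 * β) ^ 4 * Real.exp (13 * β) ^ 10 / Real.exp (90 * β) ^ 2 ≤
      Real.exp (-β) := by
    rw [← Real.exp_nat_mul, ← Real.exp_nat_mul, ← Real.exp_nat_mul, ← Real.exp_add, ← Real.exp_sub,
      Real.exp_le_exp]
    push_cast
    linarith
  have X0 := Real.exp_pos (90 * β)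
  generalize Real.exp (90 * β) = X at *
  have e3 : 8 * A * X ^ 3 / N ^ 2 * r ^ 4 * N ^ 10 / (a ^ 2 * X / (2 * q ^ 2)) ^ 5 =
      256 * A / a ^ 10 * ((r * N ^ 2) ^ 4 * q ^ 10 / X ^ 2) := by
    field_simp
    ring
  have e4 : (r * N ^ 2) ^ 4 * q ^ 10 / X ^ 2 ≤ Real.exp (-β) := le_trans (by gcongr) e2
  rw [e3, add_mul]
  exact add_le_add e1 (mul_le_mul_of_nonneg_left e4 (by positivity))

/-- Atoms with a given integral class. -/
theorem class_count (w : Par) (R : ℝ) {δ : ℝ} (hδ : 0 < δ) : ∃ C : ℝ, 0 < C ∧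
    ∀ (j N : ℝ) (p q : ℤ) (c : Z4) (s : Finset (Ty × Mat)), 0 ≤ j → IsCoprime p q → 1 ≤ q →
    |q * w.ga - p| * Real.exp j ≤ 1 → 0 < N → N ≤ Real.exp j →
    (∀ x ∈ s, Atom w R δ j x ∧ N ≤ ‖ac x.2 w.v0‖ ∧ x.2 *ᵥ w0 p q = c) →
    (s.card : ℝ) ≤ C * Real.exp (3 * j) / N := by
  obtain ⟨C1, hC1, hM⟩ := atom_mb w R hδ
  obtain ⟨C2, hC2, hn⟩ := xc5_near w R hδ
  obtain ⟨Ct, hCt, ht⟩ := tube_count'
  obtain ⟨C3, h3⟩ := col_count w R hδ
  have a0 := w.a0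
  refine ⟨Ct * (C1 + 1) ^ 3 * (1 + w.a * (1 + C2)) * (C3 + 1), by positivity, ?_⟩
  intro j N p q c s hj hpq hq hd hN hNj hs
  rcases s.eq_empty_or_nonempty with rfl | ⟨x0, hx0⟩
  · rw [Finset.card_empty, Nat.cast_zero]
    positivity
  have e1 : 1 ≤ Real.exp j := Real.one_le_exp hj
  have hc : ∃ n : Z4, n ⬝ᵥ c = 1 := (hs x0 hx0).2.2 ▸ prim_w0 (xc5_symp (hs x0 hx0).1) hpq
  have c1 : 1 ≤ ‖cs c‖ := one_le_norm_cs (by rintro rfl; simp at hc)
  have q1 : (1 : ℝ) ≤ q := by exact_mod_cast hq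
  have c2 : N ≤ w.a * (1 + C2) * ‖cs c‖ := by
    have k1 := hn j p q x0 hj (hs x0 hx0).1
    rw [(hs x0 hx0).2.2] at k1
    have k2 := norm_sub_le (cs c) (cs c - (q / w.a) • ac x0.2 w.v0)
    rw [sub_sub_cancel, norm_smul, Real.norm_of_nonneg (by positivity)] at k2
    have k3 : C2 * (|q * w.ga - p| * Real.exp j) ≤ C2 * ‖cs c‖ :=
      mul_le_mul_of_nonneg_left (hd.trans c1) hC2.le
    have k4 : 1 / w.a * N ≤ q / w.a * ‖ac x0.2 w.v0‖ := by
      have := (hs x0 hx0).2.1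
      gcongr
    have k5 : 1 / w.a * N ≤ (1 + C2) * ‖cs c‖ := by linarith
    rw [one_div, inv_mul_le_iff₀ a0] at k5
    linarith
  have X1 : Real.exp j ≤ (C1 + 1) * Real.exp j := le_mul_of_one_le_left (by positivity) (by linarith)
  have f2 := ht c ![1, 0, 0, 0] 0 ((C1 + 1) * Real.exp j) ((C1 + 1) * Real.exp j)
    (s.image fun x => col x.2 3) hc (fun l => by fin_cases l <;> simp) (by simp) (e1.trans X1) le_rfl
    fun u hu => by
      obtain ⟨x, hx, rfl⟩ := Finset.mem_image.1 hu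
      have b : ∀ l, |cs (col x.2 3) l| ≤ (C1 + 1) * Real.exp j := fun l =>
        (hM j x hj (hs x hx).1 l 3).trans (by linarith)
      refine ⟨?_, xc5_norm b, fun l => ?_⟩
      · have k := Om_col (xc5_symp (hs x hx).1)
        rw [← (hs x hx).2.2, mulVec_w0]
        simp only [Om, cs, Pi.sub_apply, Pi.smul_apply, smul_eq_mul] at k ⊢
        push_cast
        linear_combination q * k
      · fin_cases l
        · simp
          positivity
        · simpa using b 1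
        · simpa using b 2
        · simpa using b 3
  have m1 : N ≤ (1 + w.a * (1 + C2)) * min ((C1 + 1) * Real.exp j) ‖cs c‖ := by
    have u0 : 0 ≤ w.a * (1 + C2) := by positivity
    rcases le_total ((C1 + 1) * Real.exp j) ‖cs c‖ with k | k
    · rw [min_eq_left k]
      exact (hNj.trans X1).trans (le_mul_of_one_le_left (by positivity) (by linarith))
    · rw [min_eq_right k]
      linarith
  have f3 : ((s.image fun x => col x.2 3).card : ℝ) ≤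
      Ct * (C1 + 1) ^ 3 * (1 + w.a * (1 + C2)) * Real.exp (3 * j) / N := by
    rw [le_div_iff₀ hN]
    have e3 : Real.exp (3 * j) = Real.exp j ^ 3 := by
      rw [← Real.exp_nat_mul]
      norm_num
    calc _ ≤ ((s.image fun x => col x.2 3).card : ℝ) *
          ((1 + w.a * (1 + C2)) * min ((C1 + 1) * Real.exp j) ‖cs c‖) :=
          mul_le_mul_of_nonneg_left m1 (Nat.cast_nonneg _)
      _ = (1 + w.a * (1 + C2)) * (((s.image fun x => col x.2 3).card : ℝ) *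
          min ((C1 + 1) * Real.exp j) ‖cs c‖) := by ring
      _ ≤ (1 + w.a * (1 + C2)) * (Ct * ((C1 + 1) * Real.exp j) * ((C1 + 1) * Real.exp j) ^ 2) :=
          mul_le_mul_of_nonneg_left f2 (by positivity)
      _ = _ := by rw [e3]; ring
  refine (xc5_mass f3 (B := C3 + 1) (by positivity) fun u hu => ?_).trans (le_of_eq (by ring))
  obtain ⟨x1, hx1, rfl⟩ := Finset.mem_image.1 hu
  have k := h3 j (col x1.2 2) (col x1.2 3) (s.filter fun x => col x.2 3 = col x1.2 3) fun x hx => by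
    obtain ⟨k1, k2⟩ := Finset.mem_filter.1 hx
    refine ⟨(hs x k1).1, ?_, k2⟩
    have k3 := (hs x k1).2.2.trans (hs x1 hx1).2.2.symm
    rw [mulVec_w0, mulVec_w0, k2, sub_left_inj] at k3
    exact smul_right_injective _ (by omega : q ≠ 0) k3
  have k' : ((s.filter fun x => col x.2 3 = col x1.2 3).card : ℝ) ≤ C3 := by exact_mod_cast k
  linarith

/-- The integral class is close to `q / a` times the real class. -/
theorem class_near (w : Par) (R : ℝ) {δ : ℝ} (hδ : 0 < δ) : ∃ C : ℝ, 0 < C ∧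
    ∀ (j : ℝ) (p q : ℤ) (x : Ty × Mat), 0 ≤ j → Atom w R δ j x →
    ‖cs (x.2 *ᵥ w0 p q) - (q / w.a) • ac x.2 w.v0‖ ≤ C * (|q * w.ga - p| * Real.exp j) :=
  xc5_near w R hδ

/-- `l2_gen` with `Y = a² X / (2 q²)`, `X = e^{90 β}`; `wedge_count`, `class_count`, `fat`. -/
theorem l2B (w : Par) (R : ℝ) {δ : ℝ} (hδ : 0 < δ) (h1 : δ ≤ 1) : ∃ C : ℝ, 0 < C ∧
    ∀ (β j Λ N : ℝ) (p q : ℤ) (τ : Ty) (s : Finset Mat), C ≤ β → 0 ≤ j → IsCoprime p q →
    1 ≤ q → (q : ℝ) ≤ Real.exp (13 * β) → 0 < Λ → Λ * |q * w.ga - p| ≤ Real.exp (13 * β) →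
    Real.exp (3 * β) * Λ ≤ Real.exp j * N → Real.exp j * N ≤ Real.exp (7 * β) * Λ →
    Real.exp (20 * β) ≤ N → N ≤ Real.exp j →
    (∀ P ∈ s, Atom w R δ j (τ, P) ∧ N ≤ ‖ac P w.v0‖ ∧ ‖ac P w.v0‖ ≤ 3 * N ∧
      Vbig (P *ᵥ w0 p q) (Real.exp (90 * β))) →
    ∫⁻ ξ : V, ENNReal.ofReal (Real.exp (-(ξ ⬝ᵥ ξ) / 2) * (∑ P ∈ s, Real.exp (-3 * j) / N *
      dk (Real.exp (j - 2 * β) / (Λ * N)) (Real.exp (j + 2 * β) / (Λ * N)) N (ac P w.v0) ξ) ^ 2) ≤
      ENNReal.ofReal (C * Real.exp (-β)) := by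
  obtain ⟨Cl, l0, hl⟩ := l2_gen
  obtain ⟨Cf, f0, hf⟩ := fat w R hδ h1
  obtain ⟨Cc, c0, hc⟩ := class_count w R hδ
  obtain ⟨C2, n0, hn⟩ := class_near w R hδ
  obtain ⟨Cw, w0', hw⟩ := wedge_count
  have a0 := w.a0
  obtain ⟨K, hK⟩ : ∃ K : ℝ, K = Cl * (3 * Cf) * (Cw * Cc + 256 * (Cw * Cc) / w.a ^ 10) := ⟨_, rfl⟩
  obtain ⟨K1, hK1⟩ : ∃ K : ℝ, K = 4 * (12 * C2 / w.a + 2 * C2 ^ 2) := ⟨_, rfl⟩
  have K0 : 0 < K := by rw [hK]; positivity
  have K10 : 0 < K1 := by rw [hK1]; positivity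
  have K20 : 0 < 2 * w.a * C2 := by positivity
  refine ⟨K + K1 + 2 * w.a * C2, by positivity, ?_⟩
  intro β j Λ N p q τ s hβ hj hpq hq hq' hΛ hd h3 h7 h20 hNj hs
  have β0 : 0 ≤ β := by linarith
  have N0 : 0 < N := (Real.exp_pos _).trans_le h20
  have q1 : (1 : ℝ) ≤ q := by exact_mod_cast hq
  have ex : ∀ x y z : ℝ, x + y = z → Real.exp x * Real.exp y = Real.exp z := fun x y z e => by
    rw [← Real.exp_add, e]
  have d1 : N * (|q * w.ga - p| * Real.exp j) ≤ Real.exp (20 * β) :=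
    calc _ = |q * w.ga - p| * (Real.exp j * N) := by ring
      _ ≤ |q * w.ga - p| * (Real.exp (7 * β) * Λ) := mul_le_mul_of_nonneg_left h7 (abs_nonneg _)
      _ = Real.exp (7 * β) * (Λ * |q * w.ga - p|) := by ring
      _ ≤ Real.exp (7 * β) * Real.exp (13 * β) := mul_le_mul_of_nonneg_left hd (Real.exp_pos _).le
      _ = _ := ex _ _ _ (by ring)
  have d2 : |q * w.ga - p| * Real.exp j ≤ 1 :=
    le_of_mul_le_mul_left (by linarith) N0
  obtain ⟨D, hD⟩ : ∃ D : ℝ, D = C2 * (|q * w.ga - p| * Real.exp j) := ⟨_, rfl⟩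
  have D0 : 0 ≤ D := by rw [hD]; positivity
  have D1 : D ≤ C2 := by rw [hD]; exact mul_le_of_le_one_right n0.le d2
  have D2 : N * D ≤ C2 * Real.exp (20 * β) := by
    rw [hD, mul_left_comm]
    exact mul_le_mul_of_nonneg_left d1 n0.le
  have nr : ∀ P ∈ s, ‖cs (P *ᵥ w0 p q) - (q / w.a) • ac P w.v0‖ ≤ D := fun P hP => by
    rw [hD]
    exact hn j p q (τ, P) hj (hs P hP).1
  have k0 : 0 < (q : ℝ) / w.a := by positivity
  have X0 := Real.exp_pos (90 * β)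
  have X1 : 1 ≤ Real.exp (90 * β) := Real.one_le_exp (by linarith)
  have er : 12 * (q / w.a) * (N * D) + 2 * D ^ 2 ≤ Real.exp (90 * β) / 4 := by
    have u1 : 12 * (q / w.a) * (N * D) ≤ 12 * C2 / w.a * Real.exp (33 * β) :=
      calc _ ≤ 12 * (Real.exp (13 * β) / w.a) * (C2 * Real.exp (20 * β)) := by gcongr
        _ = 12 * C2 / w.a * (Real.exp (13 * β) * Real.exp (20 * β)) := by ring
        _ = _ := by rw [ex _ _ (33 * β) (by ring)]
    have u2 : 2 * D ^ 2 ≤ 2 * C2 ^ 2 * Real.exp (33 * β) :=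
      le_trans (by gcongr) (le_mul_of_one_le_right (by positivity) (Real.one_le_exp (by linarith)))
    have u3 : K1 ≤ Real.exp (57 * β) := by linarith [Real.add_one_le_exp (57 * β)]
    have u4 := mul_le_mul_of_nonneg_right u3 (Real.exp_pos (33 * β)).le
    rw [ex _ _ (90 * β) (by ring), hK1] at u4
    linarith
  have wb : ∀ P ∈ s, ∀ P' ∈ s, ∀ x : ℝ, wr (ac P w.v0) (ac P' w.v0) ≤
      x * (w.a ^ 2 * Real.exp (90 * β) / (2 * q ^ 2)) →
      wn (P *ᵥ w0 p q) (P' *ᵥ w0 p q) ≤ x * Real.exp (90 * β) / 2 + Real.exp (90 * β) / 4 :=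
    fun P hP P' hP' x hx => by
      have u1 := xc5_wn k0.le (hs P hP).2.2.1 (hs P' hP').2.2.1 (nr P hP) (nr P' hP')
      have u2 := mul_le_mul_of_nonneg_left hx (sq_nonneg ((q : ℝ) / w.a))
      have u3 : ((q : ℝ) / w.a) ^ 2 * (x * (w.a ^ 2 * Real.exp (90 * β) / (2 * q ^ 2))) =
          x * Real.exp (90 * β) / 2 := by field_simp
      linarith
  have s7 : ∀ P ∈ s, ∀ P' ∈ s, ‖cs (P' *ᵥ w0 p q)‖ ≤ 7 * ‖cs (P *ᵥ w0 p q)‖ :=
    fun P hP P' hP' => by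
      have u1 := norm_sub_le (cs (P *ᵥ w0 p q)) (cs (P *ᵥ w0 p q) - (q / w.a) • ac P w.v0)
      have u2 := norm_add_le (cs (P' *ᵥ w0 p q) - (q / w.a) • ac P' w.v0) ((q / w.a) • ac P' w.v0)
      rw [sub_sub_cancel, norm_smul, Real.norm_of_nonneg k0.le] at u1
      rw [sub_add_cancel, norm_smul, Real.norm_of_nonneg k0.le] at u2
      have u3 := mul_le_mul_of_nonneg_left (hs P hP).2.1 k0.le
      have u4 := mul_le_mul_of_nonneg_left (hs P' hP').2.2.1 k0.le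
      have u5 : 2 * w.a * C2 ≤ N := by linarith [Real.add_one_le_exp (20 * β)]
      have u6 : 1 / w.a * (2 * w.a * C2) ≤ q / w.a * N := by gcongr
      have u7 : 1 / w.a * (2 * w.a * C2) = 2 * C2 := by field_simp
      linarith [nr P hP, nr P' hP']
  have ms : ∀ P ∈ s, ∀ (t : Finset Mat) (W : ℝ), 0 ≤ W → (∀ P' ∈ t, P' ∈ s ∧
      wn (P *ᵥ w0 p q) (P' *ᵥ w0 p q) ≤ W) →
      ∑ _k ∈ t, Real.exp (-3 * j) / N ≤ Cw * Cc * (1 + W) ^ 3 / N ^ 2 := fun P hP t W hW ht => by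
    have u1 := hw W (P *ᵥ w0 p q) (t.image fun P' => P' *ᵥ w0 p q) hW
      (prim_w0 (xc5_symp (hs P hP).1) hpq) fun a ha => by
        obtain ⟨P', hP', rfl⟩ := Finset.mem_image.1 ha
        exact ⟨s7 P hP P' (ht P' hP').1, (ht P' hP').2⟩
    have u2 := xc5_mass u1 (B := Cc * Real.exp (3 * j) / N) (by positivity) fun c _ => by
      have u3 := hc j N p q c ((t.filter fun P' => P' *ᵥ w0 p q = c).map
        ⟨fun P => (τ, P), fun _ _ e => (Prod.ext_iff.1 e).2⟩) hj hpq hq d2 N0 hNj fun x hx => by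
          obtain ⟨Q, hQ, rfl⟩ := Finset.mem_map.1 hx
          obtain ⟨k1, k2⟩ := Finset.mem_filter.1 hQ
          exact ⟨(hs Q (ht Q k1).1).1, (hs Q (ht Q k1).1).2.1, k2⟩
      rwa [Finset.card_map] at u3
    rw [Finset.sum_const, nsmul_eq_mul]
    calc _ ≤ Cw * (1 + W) ^ 3 * (Cc * Real.exp (3 * j) / N) * (Real.exp (-3 * j) / N) :=
          mul_le_mul_of_nonneg_right u2 (by positivity)
      _ = Cw * Cc * (1 + W) ^ 3 / N ^ 2 * (Real.exp (3 * j) * Real.exp (-3 * j)) := by field_simp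
      _ = _ := by rw [ex _ _ 0 (by ring), Real.exp_zero, mul_one]
  have ρ0 : 0 < Real.exp (j - 2 * β) / (Λ * N) := by positivity
  have r0 : 0 < Real.exp (j + 2 * β) / (Λ * N) := by positivity
  have hρ : Real.exp β ≤ Real.exp (j - 2 * β) / (Λ * N) * N ^ 2 := by
    have e : Real.exp (j - 2 * β) / (Λ * N) * N ^ 2 =
        Real.exp (-2 * β) * (Real.exp j * N) / Λ := by
      rw [← ex (-2 * β) j (j - 2 * β) (by ring)]
      field_simp
    rw [e, le_div_iff₀ hΛ, ← ex (-2 * β) (3 * β) β (by ring), mul_assoc]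
    exact mul_le_mul_of_nonneg_left h3 (Real.exp_pos _).le
  have hr : Real.exp (j + 2 * β) / (Λ * N) * N ^ 2 ≤ Real.exp (9 * β) := by
    have e : Real.exp (j + 2 * β) / (Λ * N) * N ^ 2 =
        Real.exp (2 * β) * (Real.exp j * N) / Λ := by
      rw [← ex (2 * β) j (j + 2 * β) (by ring)]
      field_simp
    rw [e, div_le_iff₀ hΛ, ← ex (2 * β) (7 * β) (9 * β) (by ring), mul_assoc]
    exact mul_le_mul_of_nonneg_left h7 (Real.exp_pos _).le
  have r1 : Real.exp (j + 2 * β) / (Λ * N) ≤ 1 := by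
    have u1 : Real.exp (9 * β) ≤ N := (Real.exp_le_exp.2 (by linarith)).trans h20
    have u2 : 1 ≤ N := (Real.one_le_exp (by linarith)).trans u1
    have u3 : N ≤ 1 * N ^ 2 := by nlinarith
    exact le_of_mul_le_mul_right (hr.trans (u1.trans u3)) (by positivity)
  have p3 : ∀ P ∈ s, Real.exp (-3 * j) / N ≤ 3 * (Real.exp (-3 * j) / ‖ac P w.v0‖) :=
    fun P hP => by
      have k1 := (hs P hP).2.2.1
      have k2 := N0.trans_le (hs P hP).2.1
      rw [← mul_div_assoc, div_le_div_iff₀ N0 k2, mul_comm 3, mul_assoc]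
      gcongr
  have s3 := Finset.sum_le_sum p3
  rw [← Finset.mul_sum] at s3
  have t3 := hl s (fun P => ac P w.v0) (fun _ => Real.exp (-3 * j) / N) N _ _
    (w.a ^ 2 * Real.exp (90 * β) / (2 * q ^ 2)) (3 * Cf) (Cw * Cc / N ^ 2)
    (8 * (Cw * Cc) * Real.exp (90 * β) ^ 3 / N ^ 2) N0 ρ0 (by gcongr; linarith) r1 (by positivity)
    (by positivity) (by positivity) (fun P hP => ⟨by positivity, (hs P hP).2.1, (hs P hP).2.2.1⟩)
    (by
      have k1 := hf j (s.map ⟨fun P => (τ, P), fun _ _ e => (Prod.ext_iff.1 e).2⟩) fun q hq => by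
        obtain ⟨P, hP, rfl⟩ := Finset.mem_map.1 hq
        exact (hs P hP).1
      rw [Finset.sum_map] at k1
      exact s3.trans (mul_le_mul_of_nonneg_left k1 (by norm_num)))
    (fun P hP => (ms P hP _ 0 le_rfl fun P' hP' => by
      obtain ⟨k1, k2⟩ := Finset.mem_filter.1 hP'
      have k3 := wb P hP P' k1 1 (by rwa [one_mul])
      exact ⟨k1, xc5_big (hs P hP).2.2.2 (by linarith)⟩).trans (le_of_eq (by ring)))
    (fun P hP x hx => (ms P hP _ (x * Real.exp (90 * β)) (by positivity) fun P' hP' => by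
      obtain ⟨k1, k2⟩ := Finset.mem_filter.1 hP'
      have k3 := wb P hP P' k1 x k2
      have k4 : Real.exp (90 * β) ≤ x * Real.exp (90 * β) := le_mul_of_one_le_left X0.le hx
      exact ⟨k1, by linarith⟩).trans (by
        have k4 : 1 ≤ x * Real.exp (90 * β) := X1.trans (le_mul_of_one_le_left X0.le hx)
        calc _ ≤ Cw * Cc * (2 * (x * Real.exp (90 * β))) ^ 3 / N ^ 2 := by gcongr; linarith
          _ = _ := by ring))
  refine t3.trans (ENNReal.ofReal_le_ofReal ?_)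
  have t4 := mul_le_mul_of_nonneg_left (xc5_num (A := Cw * Cc) β0 N0 (by linarith) a0
    (by positivity) hq' hρ r0.le hr) (show 0 ≤ Cl * (3 * Cf) by positivity)
  refine t4.trans ?_
  rw [← mul_assoc, ← hK]
  exact mul_le_mul_of_nonneg_right (by linarith) (Real.exp_pos _).le

end Pool.Agent.TW.G
end

-- part Pool.Agent.Lib.MP_4eaecc_an.XO5b
section

/-! The integral class is far from rational planes. -/

namespace Pool.Agent.TW.G

open Matrix MeasureTheory Filter Topology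
open scoped ENNReal NNReal

/-- The part of the hyperplane of an atom that lies in a strip. -/
theorem o5_atom (w : Par) (R : ℝ) : ∃ C : ℝ, 0 < C ∧ ∀ (P : Mat) (t θ : ℝ) (d : V) (i : Fin 4),
    Symp P → 0 ≤ θ → ‖d‖ = 1 → d i = 0 → ‖ac P w.v0‖ ≤ 2 * |ac P w.v0 i| →
    volume {z | ‖Real.exp t • ac P (w.E z)‖ ≤ R ∧ |Om (Real.exp t • ac P (w.E z)) d| ≤ θ} ≤
      ENNReal.ofReal (C * θ * (Real.exp (-3 * t) / ‖ac P w.v0‖)) := by
  obtain ⟨C, hC, H⟩ := strip_vol (R + 1)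
  refine ⟨2 * C, by positivity, fun P t θ d i hP hθ hd hdi hi => ?_⟩
  have hN := norm_pos_iff.2 (w.v_ne hP)
  have hN' : 0 < |ac P w.v0 i| := by linarith
  obtain ⟨g, hg1, hg⟩ := o5_dual i
  obtain ⟨ε, hε, hεv⟩ : ∃ ε : ℝ, |ε| = 1 ∧ ε * ac P w.v0 i = |ac P w.v0 i| := by
    rcases abs_choice (ac P w.v0 i) with h | h
    · exact ⟨1, abs_one, by linarith⟩
    · exact ⟨-1, by simp, by linarith⟩
  have h1 : Om (ac P w.v0) (ε • g) = |ac P w.v0 i| := by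
    rw [Om_smul, hg]
    exact hεv
  set X := {z | ‖Real.exp t • ac P (w.E z)‖ ≤ R ∧ |Om (Real.exp t • ac P (w.E z)) d| ≤ θ} with hX
  have h2 := theta_vol w hP t hN' h1 (X ×ˢ Set.Icc (0 : ℝ) 1)
  rw [Measure.volume_eq_prod, Measure.prod_prod, Real.volume_Icc, sub_zero, ENNReal.ofReal_one,
    mul_one] at h2
  have h3 : volume ((fun q : (Fin 3 → ℝ) × ℝ => Real.exp t • ac P (w.E q.1) + q.2 • ε • g) ''
      (X ×ˢ Set.Icc (0 : ℝ) 1)) ≤ ENNReal.ofReal (C * θ) := by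
    refine (measure_mono ?_).trans (H d θ hd hθ)
    rintro _ ⟨⟨z, s⟩, ⟨⟨k1, k2⟩, k3, k4⟩, rfl⟩
    refine ⟨(norm_add_le _ _).trans (add_le_add k1 ?_), ?_⟩
    · rw [norm_smul, norm_smul, Real.norm_eq_abs ε, hε, one_mul, Real.norm_of_nonneg k3]
      exact (mul_le_of_le_one_left (norm_nonneg _) k4).trans hg1
    · rw [add_Om, smul_Om (ε • g), smul_Om g, Om_swap g d, hg, hdi]
      simpa using k2
  rw [h2] at h3
  have hD : 0 < Real.exp (3 * t) * |ac P w.v0 i| := by positivity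
  have h4 : volume X = ENNReal.ofReal (Real.exp (3 * t) * |ac P w.v0 i|)⁻¹ *
      (ENNReal.ofReal (Real.exp (3 * t) * |ac P w.v0 i|) * volume X) := by
    rw [← mul_assoc, ← ENNReal.ofReal_mul (by positivity), inv_mul_cancel₀ hD.ne',
      ENNReal.ofReal_one, one_mul]
  rw [h4]
  refine (mul_le_mul_right h3 _).trans ?_
  rw [← ENNReal.ofReal_mul (by positivity)]
  refine ENNReal.ofReal_le_ofReal ?_
  calc _ = 2 * C * θ * (Real.exp (-3 * t) / (2 * |ac P w.v0 i|)) := by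
        rw [neg_mul, Real.exp_neg]
        field_simp
    _ ≤ _ := by gcongr

/-- A short wedge at the later time puts the widths at the earlier time into a strip. -/
theorem o5_pt {δ l a X K : ℝ} (hδ : 0 < δ) (hl : 0 < l) (hX : 0 < X) {M : Mat} (hM : Symp M)
    (hb : Mb M (4 * Real.exp a / δ)) {v : Z4} {ξ d : V} {i : Fin 4}
    (hv : |Om ξ (cs v)| ≤ K * Real.exp (-a)) (hξ : ‖Real.exp a • ac M ξ‖ ≤ 2 / δ)
    (hN : 1 ≤ ‖cs v‖) (hlev : l * ‖cs v‖ ≤ ‖cs (M *ᵥ v)‖) (ha : Real.exp a ≤ ‖cs (M *ᵥ v)‖)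
    (hC : (2 * (4096 / δ ^ 2) ^ 2 + 1) * (Real.exp (4 * a) * X ^ 2) ≤ ‖cs v‖) (d0 : d i = 0)
    (vi : |(v i : ℝ)| = ‖cs v‖) (hd : ∀ b : Z4, wn v b ≠ 0 → 2 * wn v b ^ 2 < ‖cs v‖ →
      ∃ x y : ℝ, cs b = x • cs v + y • d ∧ 1 / ‖cs v‖ ≤ |y|)
    (hV : ¬ Vbig (M *ᵥ v) X) : |Om ξ d| ≤ (12 / (δ * l) + 64 * K / δ) * (Real.exp (-a) * X) := by
  unfold Vbig at hV
  push Not at hV
  obtain ⟨b, ⟨i0, l0, hb0⟩, hbX⟩ := hV
  have hw : wn (M *ᵥ v) b ≤ X := o5_wn_le hX.le fun i l => (hbX i l).le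
  have e1 : sinv M *ᵥ (M *ᵥ v) = v := by rw [mulVec_mulVec, hM.sinv_mul, one_mulVec]
  have e2 : M *ᵥ (sinv M *ᵥ b) = b := by rw [mulVec_mulVec, hM.mul_sinv, one_mulVec]
  have h1 := wn_ac hb.sinv (M *ᵥ v) b
  have h2 := wn_ac hb v (sinv M *ᵥ b)
  rw [e1] at h1
  rw [e2] at h2
  have h3 : wn v (sinv M *ᵥ b) ≠ 0 := by
    intro h
    rw [h, mul_zero] at h2
    have k := (o5_le_wn (M *ᵥ v) b i0 l0).trans h2
    have k2 : (((M *ᵥ v) i0 * b l0 - (M *ᵥ v) l0 * b i0 : ℤ) : ℝ) = 0 := abs_nonpos_iff.mp k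
    exact hb0 (sub_eq_zero.mp (by exact_mod_cast k2))
  have hE := Real.exp_pos a
  have hE' := Real.exp_pos (-a)
  have hK : 0 ≤ K := nonneg_of_mul_nonneg_left ((abs_nonneg _).trans hv) hE'
  have h4 : wn v (sinv M *ᵥ b) ≤ 4096 / δ ^ 2 * Real.exp a ^ 2 * X := by
    refine h1.trans ((mul_le_mul_of_nonneg_left hw (by positivity)).trans (le_of_eq ?_))
    field_simp
    norm_num
  have h5 : 2 * wn v (sinv M *ᵥ b) ^ 2 < ‖cs v‖ := by
    have k1 := pow_le_pow_left₀ (o5_wn_nonneg _ _) h4 2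
    have k2 : Real.exp (4 * a) = Real.exp a ^ 4 := by
      rw [← Real.exp_nat_mul]
      norm_num
    have k3 : 0 < Real.exp a ^ 4 * X ^ 2 := by positivity
    rw [k2] at hC
    nlinarith
  obtain ⟨x, y, hxy, hy⟩ := hd _ h3 h5
  obtain ⟨j, hj⟩ := o5_exists_idx (cs (M *ᵥ v))
  have hj' : |((M *ᵥ v) j : ℝ)| = ‖cs (M *ᵥ v)‖ := hj
  have hN' : 0 < ‖cs (M *ᵥ v)‖ := hE.trans_le ha
  obtain ⟨x', e, he, hn⟩ : ∃ (x' : ℝ) (e : V), cs b = x' • cs (M *ᵥ v) + e ∧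
      ‖e‖ ≤ X / ‖cs (M *ᵥ v)‖ := by
    refine ⟨_, _, o5b_dec (i := j) (abs_pos.mp (by linarith)) b, ?_⟩
    rw [norm_smul, Real.norm_eq_abs, abs_div, abs_one, hj', one_div, ← div_eq_inv_mul]
    exact div_le_div_of_nonneg_right ((o5b_norm _ _ _).trans hw) hN'.le
  have h6 : (x - x') • cs v + y • d = ac (sinv M) e := by
    rw [← ac_cs, he, ac_add, ac_smul, ac_cs, e1] at hxy
    linear_combination (norm := module) -hxy
  have h7 : |x - x'| * ‖cs v‖ ≤ 64 * Real.exp a / δ * (X / ‖cs (M *ᵥ v)‖) := by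
    have k := congrFun h6 i
    simp only [Pi.add_apply, Pi.smul_apply, smul_eq_mul, d0, mul_zero, add_zero] at k
    rw [← vi, ← abs_mul]
    refine (congrArg abs k).trans_le ((norm_le_pi_norm _ i).trans ((hb.sinv.norm_ac e).trans ?_))
    exact mul_le_mul (le_of_eq (by ring)) hn (norm_nonneg _) (by positivity)
  have h8 : y * Om ξ d = Om (ac M ξ) e - (x - x') * Om ξ (cs v) := by
    have k := congrArg (Om ξ) h6
    rw [Om_add, Om_smul, Om_smul, ← hM.Om_ac ξ (ac _ e), ← ac_mul, hM.mul_sinv, ac_one] at k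
    linarith
  have h10 : ‖ac M ξ‖ ≤ Real.exp (-a) * (2 / δ) := by
    rw [norm_smul, Real.norm_of_nonneg hE.le] at hξ
    rw [Real.exp_neg, inv_mul_eq_div, le_div_iff₀ hE]
    linarith
  have h11 : |Om (ac M ξ) e| * ‖cs v‖ ≤ 12 / (δ * l) * (Real.exp (-a) * X) := by
    calc _ ≤ 6 * (Real.exp (-a) * (2 / δ)) * (X / (l * ‖cs v‖)) * ‖cs v‖ := by
          refine mul_le_mul_of_nonneg_right ((abs_Om_le _ _).trans ?_) (norm_nonneg _)
          gcongr
          exact hn.trans (by gcongr)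
      _ = _ := by
          field_simp
          norm_num
  have h12 : |x - x'| * |Om ξ (cs v)| * ‖cs v‖ ≤ 64 * K / δ * (Real.exp (-a) * X) := by
    calc _ = |x - x'| * ‖cs v‖ * |Om ξ (cs v)| := by ring
      _ ≤ 64 * Real.exp a / δ * (X / Real.exp a) * (K * Real.exp (-a)) :=
          mul_le_mul (h7.trans (by gcongr)) hv (abs_nonneg _) (by positivity)
      _ = _ := by field_simp
  have h13 := (congrArg abs h8).trans_le (abs_sub _ _)
  rw [abs_mul, abs_mul] at h13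
  rw [div_le_iff₀ (by linarith)] at hy
  nlinarith [mul_le_mul_of_nonneg_right h13 (norm_nonneg (cs v)),
    mul_le_mul_of_nonneg_right hy (abs_nonneg (Om ξ d))]

/-- Sizes of the integral classes. -/
theorem o5_size {l κ B D E : ℝ} (hl : 0 < l) (hκ : 0 < κ) (hB : 0 < B) (hD : 0 < D) (hE : 1 ≤ E)
    {u u' v v' : V} {i : Fin 4} (h : ‖u - κ • v‖ ≤ D) (h' : ‖u' - κ • v'‖ ≤ D)
    (k : l * ‖v‖ ≤ ‖v'‖) (n : (B + 4 * D + (2 * D + 2) / l) * E ≤ κ * ‖v‖) (hi : |u i| = ‖u‖) :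
    B * E ≤ ‖u‖ ∧ l / 4 * ‖u‖ ≤ ‖u'‖ ∧ E ≤ ‖u'‖ ∧ ‖v‖ ≤ 2 * |v i| := by
  have a1 := abs_le.1 ((abs_norm_sub_norm_le _ _).trans h)
  have a2 := abs_le.1 ((abs_norm_sub_norm_le _ _).trans h')
  have a3 := (abs_sub_abs_le_abs_sub _ _).trans ((norm_le_pi_norm (u - κ • v) i).trans h)
  rw [norm_smul, Real.norm_of_nonneg hκ.le] at a1 a2
  rw [hi, Pi.smul_apply, smul_eq_mul, abs_mul, abs_of_pos hκ] at a3
  have a4 := mul_le_mul_of_nonneg_left k hκ.le
  have a5 : D ≤ D * E := le_mul_of_one_le_right hD.le hE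
  have a6 : 0 ≤ B * E := by positivity
  have a7 : 0 ≤ (2 * D + 2) / l * E := by positivity
  have a8 : (2 * D + 2) * E ≤ l * (κ * ‖v‖) := by
    refine le_trans (le_of_eq ?_) (mul_le_mul_of_nonneg_left
      (by linarith : (2 * D + 2) / l * E ≤ κ * ‖v‖) hl.le)
    field_simp
  have a9 := mul_le_mul_of_nonneg_left (by linarith : ‖u‖ ≤ 2 * (κ * ‖v‖)) hl.le
  exact ⟨by linarith, by linarith, by linarith, le_of_mul_le_mul_left (by linarith) hκ⟩

theorem o5_om (w : Par) (z : Fin 3 → ℝ) (p q : ℤ) :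
    Om (w.E z) (cs (w0 p q)) = w.a * z 0 * (q * w.ga - p) := by
  have := w.a0
  simp [Om, Par.E, cs, w0, Par.ga]
  field_simp
  ring

theorem vbigZ (w : Par) (R : ℝ) {δ l : ℝ} (hδ : 0 < δ) (h1 : δ ≤ 1) (hl : 0 < l) :
    ∃ C : ℝ, 0 < C ∧ ∀ (t a X : ℝ) (p q : ℤ), 0 ≤ t → 0 ≤ a → 1 ≤ X → IsCoprime p q → 1 ≤ q →
    |q * w.ga - p| * Real.exp (t + a) ≤ 1 →
    volume {z ∈ ZR R | GoodAt δ .L (w.y z) t ∧ GoodAt δ .L (w.y z) (t + a) ∧
      l * w.lev z t ≤ w.lev z (t + a) ∧ C * Real.exp (4 * a) * X ^ 2 ≤ w.lev z t ∧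
      ¬ Vbig ((St .L (w.y z) (t + a)).2 *ᵥ w0 p q) X} ≤
      ENNReal.ofReal (C * Real.exp (-a) * X) := by
  obtain ⟨C1, hC1, H1⟩ := o5_atom w (2 / δ)
  obtain ⟨C2, hC2, H2⟩ := fat w R hδ h1
  obtain ⟨D, hD, H3⟩ := class_near w R hδ
  have a0 := w.a0
  obtain ⟨B, hB⟩ : ∃ B, B = 2 * (4096 / δ ^ 2) ^ 2 + 1 := ⟨_, rfl⟩
  obtain ⟨K, hK⟩ : ∃ K, K = 12 / (δ * (l / 4)) + 64 * (w.a * 2) / δ := ⟨_, rfl⟩
  have B0 : 0 < B := by rw [hB]; positivity
  have K0 : 0 < K := by rw [hK]; positivity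
  refine ⟨w.a * (B + 4 * D + (2 * D + 2) / l) + C1 * K * C2, by positivity,
    fun t a X p q ht ha hX hpq hq hd => ?_⟩
  have X0 : 0 < X := one_pos.trans_le hX
  have hne : ∀ P, Symp P → P *ᵥ w0 p q ≠ 0 := fun P hP h => by
    obtain ⟨c, hc⟩ := prim_w0 hP hpq
    rw [h, dotProduct_zero] at hc
    exact zero_ne_one hc
  have hex : ∀ P : Mat, ∃ (d : V) (i : Fin 4), Symp P → ‖d‖ = 1 ∧ d i = 0 ∧
      |((P *ᵥ w0 p q) i : ℝ)| = ‖cs (P *ᵥ w0 p q)‖ ∧ ∀ b : Z4, wn (P *ᵥ w0 p q) b ≠ 0 →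
      2 * wn (P *ᵥ w0 p q) b ^ 2 < ‖cs (P *ᵥ w0 p q)‖ →
      ∃ x y : ℝ, cs b = x • cs (P *ᵥ w0 p q) + y • d ∧ 1 / ‖cs (P *ᵥ w0 p q)‖ ≤ |y| := fun P => by
    by_cases hP : Symp P
    · obtain ⟨d, i, h⟩ := one_plane _ (hne P hP)
      exact ⟨d, i, fun _ => h⟩
    · exact ⟨0, 0, fun h => absurd h hP⟩
  choose d i hdi using hex
  have hθ : 0 ≤ K * (Real.exp (-a) * X) := by positivity
  obtain ⟨s, hs⟩ : ∃ s : Finset (Ty × Mat), ∀ x, x ∈ s ↔
      Atom w R δ t x ∧ ‖ac x.2 w.v0‖ ≤ 2 * |ac x.2 w.v0 (i x.2)| :=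
    ⟨((atom_finite w R hδ ht).subset (t := {x | Atom w R δ t x ∧ _}) fun _ h => h.1).toFinset,
      fun x => Set.Finite.mem_toFinset _⟩
  refine (measure_mono (t := ⋃ x ∈ s, {z | ‖Real.exp t • ac x.2 (w.E z)‖ ≤ 2 / δ ∧
    |Om (Real.exp t • ac x.2 (w.E z)) (d x.2)| ≤ K * (Real.exp (-a) * X)}) ?_).trans ?_
  · rintro z ⟨hz, g1, g2, k1, k2, k3⟩
    have hA : Atom w R δ t (St .L (w.y z) t) := ⟨z, hz, g1, rfl⟩
    have d1 : |q * w.ga - p| * Real.exp t ≤ Real.exp (-a) := by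
      rw [Real.exp_neg, ← one_div, le_div_iff₀ (Real.exp_pos a), mul_assoc, ← Real.exp_add]
      exact hd
    have c1 := (H3 t p q _ ht hA).trans (mul_le_of_le_one_right hD.le
      (d1.trans (Real.exp_le_one_iff.2 (by linarith))))
    have c2 := (H3 (t + a) p q _ (by linarith) ⟨z, hz, g2, rfl⟩).trans
      (mul_le_of_le_one_right hD.le hd)
    have m3 := St_symp .L (w.y z) t
    obtain ⟨-, i1, i2, i3⟩ := hdi _ m3
    have x1 : Real.exp a ≤ Real.exp (4 * a) * X ^ 2 :=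
      (Real.exp_le_exp.2 (by linarith)).trans
        (le_mul_of_one_le_right (Real.exp_pos _).le (one_le_pow₀ hX))
    have q1 : (1 : ℝ) ≤ q := by exact_mod_cast hq
    obtain ⟨s1, s2, s3, s4⟩ := o5_size (E := Real.exp (4 * a) * X ^ 2) hl (by positivity) B0 hD
      ((Real.one_le_exp ha).trans x1) c1 c2 k1 (by
        rw [div_mul_eq_mul_div, le_div_iff₀ a0]
        refine le_trans ?_ (k2.trans (le_mul_of_one_le_left (norm_nonneg _) q1))
        have : 0 ≤ C1 * K * C2 * (Real.exp (4 * a) * X ^ 2) := by positivity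
        linarith) i2
    refine Set.mem_biUnion (show St .L (w.y z) t ∈ (s : Set _) from (hs _).mpr ⟨hA, s4⟩) ?_
    obtain ⟨σ1, w1⟩ := g1.2.1
    obtain ⟨σ2, w2⟩ := g2.2.1
    obtain ⟨e1, e2⟩ := St_add g1.1 (le_add_of_nonneg_right ha : t ≤ t + a)
    rw [add_sub_cancel_left] at e1 e2
    have n2 := w2.norm hδ
    rw [e2] at n2
    rw [e1, ← mulVec_mulVec] at s2 s3 k3
    refine ⟨w1.norm hδ, hK ▸ o5_pt hδ (by positivity) X0 (St_symp _ _ _)
      (mb_St g1.2.2 hδ (g1.1.nst.mono ha)) ?_ n2 (one_le_norm_cs (hne _ m3)) s2 (x1.trans s3)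
      (hB ▸ s1) i1 i2 i3 k3⟩
    rw [smul_Om, ← ac_cs, m3.Om_ac, o5_om, abs_mul, abs_mul, abs_of_pos (Real.exp_pos t),
      abs_of_nonneg (mul_nonneg a0.le (by linarith [hz.2.1])), mul_left_comm, mul_comm (Real.exp t)]
    exact mul_le_mul (mul_le_mul_of_nonneg_left hz.2.2 a0.le) d1 (by positivity) (by positivity)
  · refine (measure_biUnion_finset_le _ _).trans ?_
    have k : ∀ x ∈ s, volume {z | ‖Real.exp t • ac x.2 (w.E z)‖ ≤ 2 / δ ∧
        |Om (Real.exp t • ac x.2 (w.E z)) (d x.2)| ≤ K * (Real.exp (-a) * X)} ≤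
        ENNReal.ofReal (C1 * (K * (Real.exp (-a) * X)) * (Real.exp (-3 * t) / ‖ac x.2 w.v0‖)) := by
      intro x hx
      obtain ⟨⟨z, -, -, rfl⟩, k5⟩ := (hs x).1 hx
      obtain ⟨k1, k2, -⟩ := hdi _ (St_symp .L (w.y z) t)
      exact H1 _ t _ _ _ (St_symp _ _ _) hθ k1 k2 k5
    refine (Finset.sum_le_sum k).trans ?_
    rw [← ENNReal.ofReal_sum_of_nonneg (fun q _ => by positivity), ← Finset.mul_sum]
    refine ENNReal.ofReal_le_ofReal ((mul_le_mul_of_nonneg_left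
      (H2 t s fun x hx => ((hs x).1 hx).1) (by positivity)).trans ?_)
    have : 0 ≤ w.a * (B + 4 * D + (2 * D + 2) / l) * Real.exp (-a) * X := by positivity
    linarith

end Pool.Agent.TW.G
end

-- part Pool.Agent.Lib.MP_4eaecc_an.XC4
section

/-! Flatness when the ratio has no very good approximation at the scale. -/

namespace Pool.Agent.TW.G

open Matrix MeasureTheory Filter Topology
open scoped ENNReal NNReal

theorem massA (w : Par) (R : ℝ) {δ : ℝ} (hδ : 0 < δ) : ∃ C : ℝ, 0 < C ∧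
    ∀ (j Λ σ F N x : ℝ) (p q : ℤ) (τ : Ty) (s : Finset Mat) (v : V), 0 ≤ j → IsCoprime p q →
    1 ≤ q → (q : ℝ) ≤ σ → Λ * |q * w.ga - p| ≤ σ → (σ ≤ q ∨ σ ≤ Λ * |q * w.ga - p|) →
    σ ^ 2 ≤ Λ → Λ ≤ Real.exp j * σ → Real.exp j * σ ≤ F * Λ → 0 < N → 1 ≤ x → N ≤ ‖v‖ →
    (∀ P ∈ s, Atom w R δ j (τ, P) ∧ N ≤ ‖ac P w.v0‖ ∧ ‖ac P w.v0‖ ≤ 3 * N ∧
      wr v (ac P w.v0) ≤ x * (N * Real.exp j / Λ)) →
    (s.card : ℝ) ≤ C * x ^ 3 * F ^ 4 * Real.exp j ^ 2 * ((N + 1) / σ + Real.exp j / σ ^ 2) := by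
  classical
  obtain ⟨C1, c1, h1⟩ := atom_mb w R hδ
  obtain ⟨C2, c2, h2⟩ := pair_count
  obtain ⟨C3, h3⟩ := col_count w R hδ
  have a0 := w.a0
  obtain ⟨K, K1, K2, K3⟩ : ∃ K : ℝ, 1 ≤ K ∧ C1 ≤ K ∧ w.a⁻¹ ≤ K := by
    have := inv_pos.2 a0
    exact ⟨1 + C1 + w.a⁻¹, by linarith, by linarith, by linarith⟩
  have K0 : 0 < K := one_pos.trans_le K1
  refine ⟨(C3 + 1) * C2 * K ^ 10, by positivity, ?_⟩
  intro j Λ σ F N x p q τ s v hj co q1 qσ d1 d2 σΛ ΛH HF N0 x1 Nv hs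
  have σ0 : 0 < σ := lt_of_lt_of_le (by exact_mod_cast q1) qσ
  have Λ0 : 0 < Λ := lt_of_lt_of_le (by positivity) σΛ
  have H0 := Real.exp_pos j
  have v0 : 0 < ‖v‖ := N0.trans_le Nv
  obtain ⟨i, -, hi⟩ := Finset.exists_max_image Finset.univ (fun l => |v l|) Finset.univ_nonempty
  have e : |v i| = ‖v‖ := le_antisymm (norm_le_pi_norm v i)
    ((pi_norm_le_iff_of_nonneg (abs_nonneg _)).2 fun l => hi l (Finset.mem_univ l))
  have k1 := h2 w.ga Λ σ (K * Real.exp j) (K * F) (N / w.a) (K * x) p q (fun l => v l / ‖v‖) i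
    (s.image fun P => (col P 2, col P 3)) co q1 qσ d1 d2 σΛ
    (ΛH.trans (by gcongr; exact le_mul_of_one_le_left H0.le K1))
    (by rw [mul_assoc, mul_assoc]; gcongr) (by positivity) (one_le_mul_of_one_le_of_one_le K1 x1)
    (fun l => by
      rw [abs_div, abs_norm, div_le_one v0]
      exact norm_le_pi_norm v l) (by rw [abs_div, abs_norm, e, div_self v0.ne']) fun u hu => by
      obtain ⟨P, hP, rfl⟩ := Finset.mem_image.1 hu
      obtain ⟨k0, k2, k3, k4⟩ := hs P hP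
      have sy : Symp P := by
        obtain ⟨z, -, -, k⟩ := k0
        simpa only [k] using St_symp .L (w.y z) j
      have e1 : cs (col P 2) - w.ga • cs (col P 3) = w.a⁻¹ • ac P w.v0 := by
        rw [w.ac_v0, inv_smul_smul₀ a0.ne']
      have e2 : ‖cs (col P 2) - w.ga • cs (col P 3)‖ = ‖ac P w.v0‖ / w.a := by
        rw [e1, norm_smul, norm_inv, Real.norm_of_nonneg a0.le, inv_mul_eq_div]
      refine ⟨Om_col sy, mulVec_w0 P p q ▸ prim_w0 sy co, (pi_norm_le_iff_of_nonneg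
        (by positivity)).2 fun l => (h1 j _ hj k0 l 3).trans (by gcongr), ?_, ?_, fun l => ?_⟩
      · rw [e2]
        gcongr
      · rw [e2, ← mul_div_assoc]
        gcongr
      have k5 : |v i * ac P w.v0 l - v l * ac P w.v0 i| ≤ x * (N * Real.exp j / Λ) :=
        (norm_le_pi_norm (fun p : Fin 4 × Fin 4 => v p.1 * ac P w.v0 p.2 - v p.2 * ac P w.v0 p.1)
          (i, l)).trans k4
      calc _ = w.a⁻¹ * (|v i * ac P w.v0 l - v l * ac P w.v0 i| / ‖v‖) := by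
            rw [e1, ← abs_of_pos v0, ← abs_div, ← abs_of_pos (inv_pos.2 a0), ← abs_mul,
              abs_of_pos v0, abs_of_pos (inv_pos.2 a0)]
            congr 1
            simp only [Pi.smul_apply, smul_eq_mul]
            ring
        _ ≤ K * (x * (N * Real.exp j / Λ) / N) := by gcongr
        _ = K * x * (1 * Real.exp j) / Λ := by field_simp
        _ ≤ _ := by gcongr
  have k2 := Finset.card_le_mul_card_image (f := fun P => (col P 2, col P 3)) s C3 fun u _ => by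
    have := h3 j u.1 u.2 ((s.filter fun P => (col P 2, col P 3) = u).map
      ⟨fun P => (τ, P), fun _ _ e => (Prod.ext_iff.1 e).2⟩) fun q hq => by
        obtain ⟨Q, hQ, rfl⟩ := Finset.mem_map.1 hq
        exact ⟨(hs Q (Finset.mem_filter.1 hQ).1).1, Prod.ext_iff.1 (Finset.mem_filter.1 hQ).2⟩
    rwa [Finset.card_map] at this
  have k3 : N / w.a + 1 ≤ K * (N + 1) := by
    rw [mul_add, mul_one, div_eq_inv_mul]
    gcongr
  calc (s.card : ℝ) ≤ C3 * (s.image fun P => (col P 2, col P 3)).card := by exact_mod_cast k2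
    _ ≤ (C3 + 1) * (C2 * (K * x) ^ 3 * (K * F) ^ 4 * (K * Real.exp j) ^ 2 *
        (K * (N + 1) / σ + K * Real.exp j / σ ^ 2)) := by
      refine mul_le_mul (by linarith) (k1.trans ?_) (by positivity) (by positivity)
      gcongr
    _ = _ := by ring

theorem xc4_num {b H Λ σ N C : ℝ} (b1 : 1 ≤ b) (Λ0 : 0 < Λ) (N1 : 1 ≤ N) (C0 : 0 < C)
    (h1 : Λ ≤ H * σ) (h2 : b ^ 13 ≤ σ) (h3 : N * b ^ 13 ≤ H) :
    C * b ^ 4 * H ^ 2 * ((N + 1) / σ + H / σ ^ 2) * ((H ^ 3)⁻¹ / N) / (H / b ^ 2 / (Λ * N)) +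
      C * b ^ 4 * H ^ 2 * ((N + 1) / σ + H / σ ^ 2) * ((H ^ 3)⁻¹ / N) *
        (H * b ^ 2 / (Λ * N)) ^ 4 * N ^ 10 / (N * H / Λ) ^ 5 ≤ 6 * C * b⁻¹ := by
  have b0 : 0 < b := one_pos.trans_le b1
  have N0 : 0 < N := one_pos.trans_le N1
  have σ0 : 0 < σ := lt_of_lt_of_le (by positivity) h2
  have H0 : 0 < H := lt_of_lt_of_le (by positivity) h3
  calc _ = C * (b ^ 6 + b ^ 12) * (((N + 1) / σ + H / σ ^ 2) * Λ / H ^ 2) := by field_simp
    _ ≤ C * (b ^ 12 + b ^ 12) * (((N + N) / σ + H / σ ^ 2) * (H * σ) / H ^ 2) := by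
      gcongr
      norm_num
    _ = C * (b ^ 12 + b ^ 12) * ((N + N) / H + 1 / σ) := by field_simp
    _ ≤ C * (b ^ 12 + b ^ 12) * ((N + N) / (N * b ^ 13) + 1 / b ^ 13) := by gcongr
    _ = _ := by
      field_simp
      ring

/-- `l2_gen` with `Y = N e^j / Λ`, `fat` and `massA`. -/
theorem l2A (w : Par) (R : ℝ) {δ : ℝ} (hδ : 0 < δ) (h1 : δ ≤ 1) : ∃ C : ℝ, 0 < C ∧
    ∀ (β j Λ σ N : ℝ) (p q : ℤ) (τ : Ty) (s : Finset Mat), 0 ≤ β → 0 ≤ j → IsCoprime p q →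
    1 ≤ q → (q : ℝ) ≤ σ → Λ * |q * w.ga - p| ≤ σ → (σ ≤ q ∨ σ ≤ Λ * |q * w.ga - p|) →
    σ ^ 2 ≤ Λ → Λ ≤ Real.exp j * σ → Real.exp j * σ ≤ Real.exp β * Λ →
    Real.exp (13 * β) ≤ σ → 1 ≤ N → N * Real.exp (13 * β) ≤ Real.exp j →
    (∀ P ∈ s, Atom w R δ j (τ, P) ∧ N ≤ ‖ac P w.v0‖ ∧ ‖ac P w.v0‖ ≤ 3 * N) →
    ∫⁻ ξ : V, ENNReal.ofReal (Real.exp (-(ξ ⬝ᵥ ξ) / 2) * (∑ P ∈ s, Real.exp (-3 * j) / N *
      dk (Real.exp (j - 2 * β) / (Λ * N)) (Real.exp (j + 2 * β) / (Λ * N)) N (ac P w.v0) ξ) ^ 2) ≤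
      ENNReal.ofReal (C * Real.exp (-β)) := by
  classical
  obtain ⟨Cm, m0, hm⟩ := massA w R hδ
  obtain ⟨Cl, l0, hl⟩ := l2_gen
  obtain ⟨Cf, f0, hf⟩ := fat w R hδ h1
  refine ⟨Cl * (3 * Cf) * (6 * Cm), by positivity, ?_⟩
  intro β j Λ σ N p q τ s hβ hj co q1 qσ d1 d2 σΛ ΛH HF hσ N1 hN hs
  have σ0 : 0 < σ := (Real.exp_pos _).trans_le hσ
  have Λ0 : 0 < Λ := lt_of_lt_of_le (by positivity) σΛ
  have N0 : 0 < N := one_pos.trans_le N1
  have b1 := Real.one_le_exp hβ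
  have H0 := Real.exp_pos j
  have e1 : Real.exp (13 * β) = Real.exp β ^ 13 := Real.exp_nat_mul β 13
  have e2 : Real.exp (2 * β) = Real.exp β ^ 2 := Real.exp_nat_mul β 2
  have e3 : Real.exp (-3 * j) = (Real.exp j ^ 3)⁻¹ := by
    rw [neg_mul, Real.exp_neg]
    exact congrArg _ (Real.exp_nat_mul j 3)
  rw [e1] at hσ hN
  have key : ∀ P ∈ s, ∀ x : ℝ, 1 ≤ x → ∑ _k ∈ s.filter (fun k => wr (ac P w.v0) (ac k w.v0) ≤
      x * (N * Real.exp j / Λ)), Real.exp (-3 * j) / N ≤ Cm * Real.exp β ^ 4 * Real.exp j ^ 2 *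
      ((N + 1) / σ + Real.exp j / σ ^ 2) * (Real.exp (-3 * j) / N) * x ^ 3 := fun P hP x hx => by
    rw [Finset.sum_const, nsmul_eq_mul, mul_right_comm]
    refine mul_le_mul_of_nonneg_right ((hm j Λ σ _ N x p q τ _ _ hj co q1 qσ d1 d2 σΛ ΛH HF N0 hx
      (hs P hP).2.1 fun Q hQ => ?_).trans_eq (by ring)) (by positivity)
    obtain ⟨k1, k2⟩ := Finset.mem_filter.1 hQ
    exact ⟨(hs Q k1).1, (hs Q k1).2.1, (hs Q k1).2.2, k2⟩
  have B0 : 0 ≤ Cm * Real.exp β ^ 4 * Real.exp j ^ 2 * ((N + 1) / σ + Real.exp j / σ ^ 2) *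
      (Real.exp (-3 * j) / N) := by positivity
  refine (hl s (fun P => ac P w.v0) (fun _ => Real.exp (-3 * j) / N) N _ _ (N * Real.exp j / Λ)
    (3 * Cf) _ _ N0 (by positivity) (by gcongr; linarith) ?_ (by positivity) B0 B0
    (fun P hP => ⟨by positivity, (hs P hP).2⟩) ?_
    (fun P hP => by simpa only [one_mul, one_pow, mul_one] using key P hP 1 le_rfl) key).trans
    (ENNReal.ofReal_le_ofReal ?_)
  · rw [div_le_one (by positivity), Real.exp_add, e2]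
    refine le_trans (le_of_mul_le_mul_right ?_ σ0) (le_mul_of_one_le_right Λ0.le N1)
    calc Real.exp j * Real.exp β ^ 2 * σ = Real.exp j * σ * Real.exp β ^ 2 := by ring
      _ ≤ Real.exp β * Λ * Real.exp β ^ 2 := by gcongr
      _ = Λ * Real.exp β ^ 3 := by ring
      _ ≤ Λ * Real.exp β ^ 13 := by gcongr; norm_num
      _ ≤ _ := by gcongr
  · have k1 := hf j (s.map ⟨fun P => (τ, P), fun _ _ e => (Prod.ext_iff.1 e).2⟩) fun q hq => by
      obtain ⟨P, hP, rfl⟩ := Finset.mem_map.1 hq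
      exact (hs P hP).1
    rw [Finset.sum_map] at k1
    refine le_trans ?_ (mul_le_mul_of_nonneg_left k1 (by norm_num))
    rw [Finset.mul_sum]
    refine Finset.sum_le_sum fun P hP => ?_
    have k2 := (hs P hP).2.2
    change _ ≤ 3 * (_ / ‖ac P w.v0‖)
    rw [← mul_div_assoc, div_le_div_iff₀ N0 (N0.trans_le (hs P hP).2.1), mul_comm 3, mul_assoc]
    gcongr
  · rw [mul_assoc (Cl * (3 * Cf)), Real.exp_add, Real.exp_sub, e2, e3, Real.exp_neg]
    exact mul_le_mul_of_nonneg_left (xc4_num b1 Λ0 N1 m0 ΛH hσ hN) (by positivity)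

end Pool.Agent.TW.G
end

-- part Pool.Agent.Lib.MP_4eaecc_an.XO7c
section

/-! The estimate at one time, in both regimes. -/

namespace Pool.Agent.TW.G

open Matrix MeasureTheory Filter Topology
open scoped ENNReal NNReal

/-- `p / q` is a Dirichlet approximation of the ratio at the scale `Λ`. -/
def Dir (w : Par) (Λ : ℝ) (p q : ℤ) : Prop :=
  IsCoprime p q ∧ 1 ≤ q ∧ (q : ℝ) ^ 2 ≤ Λ ∧ Λ * (q * w.ga - p) ^ 2 ≤ 1

theorem exists_dir (w : Par) {Λ : ℝ} (h : 1 ≤ Λ) : ∃ p q : ℤ, Dir w Λ p q := by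
  have h0 : 0 ≤ Λ := by linarith
  have h2 : 1 ≤ √Λ := Real.one_le_sqrt.2 h
  have h3 := Real.sq_sqrt h0
  obtain ⟨x, a1, a2⟩ := Real.exists_rat_abs_sub_le_and_den_le w.ga (Nat.floor_pos.2 h2)
  have b0 : (0 : ℝ) < x.den := by exact_mod_cast x.den_pos
  have b1 : (x.den : ℝ) ≤ √Λ := (Nat.cast_le.2 a2).trans (Nat.floor_le (by linarith))
  have b2 := (Nat.lt_floor_add_one √Λ).le
  refine ⟨x.num, x.den, x.isCoprime_num_den, by exact_mod_cast x.den_pos, ?_, ?_⟩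
  · push_cast
    nlinarith
  · have e : ((x.den : ℤ) : ℝ) * w.ga - x.num = x.den * (w.ga - x) := by
      rw [Rat.cast_def]
      push_cast
      field_simp
    have b3 : √Λ * (x.den * |w.ga - x|) ≤ 1 := by
      rw [le_div_iff₀ (by positivity)] at a1
      have := mul_le_mul_of_nonneg_right b2 (mul_nonneg b0.le (abs_nonneg (w.ga - x)))
      linarith
    have b4 := pow_le_one₀ (by positivity) b3 (n := 2)
    rw [mul_pow, mul_pow, h3, sq_abs] at b4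
    rw [e, mul_pow]
    exact b4

noncomputable def sig (w : Par) (Λ : ℝ) (p q : ℤ) : ℝ := max (q : ℝ) (Λ * |q * w.ga - p|)

/-- The time `j` suits the point `z`. -/
def Suit (w : Par) (β j Λ : ℝ) (p q : ℤ) (z : Fin 3 → ℝ) : Prop :=
  Real.exp (30 * β) ≤ w.lev z j ∧ w.lev z j ≤ Real.exp (j - 20 * β) ∧
  ((Real.exp (13 * β) ≤ sig w Λ p q ∧ Λ ≤ Real.exp j * sig w Λ p q ∧
      Real.exp j * sig w Λ p q ≤ Real.exp β * Λ) ∨
    (sig w Λ p q < Real.exp (13 * β) ∧ Real.exp (4 * β) * Λ ≤ Real.exp j * w.lev z j ∧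
      Real.exp j * w.lev z j ≤ Real.exp (7 * β) * Λ ∧
      Vbig ((St .L (w.y z) j).2 *ᵥ w0 p q) (Real.exp (90 * β))))

/-- One class: `cls` with `ρ = e^{j - 2 β} / (Λ N)`, `r = e^{j + 2 β} / (Λ N)` and `l2A` or `l2B`,
for the set of the matrices of the points of `X`. -/
theorem cls2 (w : Par) (R : ℝ) {δ : ℝ} (hδ : 0 < δ) (h1 : δ ≤ 1) : ∃ C : ℝ, 0 < C ∧
    ∀ (β j a Λ N ω : ℝ) (p q : ℤ) (τ : Ty) (s : Finset Mat) (E : Set V) (X : Set (Fin 3 → ℝ)),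
    C ≤ β → 0 ≤ j → 0 ≤ a → Dir w Λ p q → ω ≤ δ / 6 → 2 * Real.exp (-β) ≤ ω →
    (∀ z ∈ X, z ∈ ZR R ∧ GoodAt δ .L (w.y z) j ∧ GoodAt δ .L (w.y z) (j + a) ∧
      (St .L (w.y z) j).1 = τ ∧ (St .L (w.y z) j).2 ∈ s ∧ (nst .L (w.y z) (j + a)).1 ∈ E ∧
      N ≤ w.lev z j ∧ w.lev z j ≤ 3 * N ∧ Shear w z j a (Real.exp (2 * β)) ∧
      Λ * w.lev z (j + a) ≤ Real.exp (j + a) ∧
      Real.exp (j + a) ≤ Real.exp β * Λ * w.lev z (j + a) ∧ Suit w β j Λ p q z) →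
    volume X ≤ ENNReal.ofReal (C * Real.exp (-β / 2)) +
      ENNReal.ofReal (C * ∑ P ∈ s, Real.exp (-3 * j) / ‖ac P w.v0‖) *
        volume (Metric.cthickening ω E) := by
  classical
  obtain ⟨C1, hC1, H1⟩ := cls w hδ h1
  obtain ⟨CA, hCA, HA⟩ := l2A w R hδ h1
  obtain ⟨CB, hCB, HB⟩ := l2B w R hδ h1
  have hC : 0 < C1 * (CA + CB) := by positivity
  refine ⟨C1 * (CA + CB + 1) + CB + 2, by positivity,
    fun β j a Λ N ω p q τ s E X hβ hj ha ⟨d1, d2, d3, d4⟩ hω hω2 hX => ?_⟩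
  rcases X.eq_empty_or_nonempty with rfl | ⟨z0, hz0⟩
  · simp
  have hβ2 : 2 ≤ β := by linarith
  have hq : (1 : ℝ) ≤ q := by exact_mod_cast d2
  have hΛ : 0 < Λ := by nlinarith
  have e3 : 3 ≤ Real.exp β := by linarith [Real.add_one_le_exp β]
  obtain ⟨-, -, -, -, -, -, n1, n2, -, -, -, n3, n4, n5⟩ := hX z0 hz0
  have hN : Real.exp (20 * β) ≤ N := by
    have k1 : Real.exp β * Real.exp (20 * β) ≤ Real.exp (30 * β) := by
      rw [← Real.exp_add, Real.exp_le_exp]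
      linarith
    nlinarith [Real.exp_pos (20 * β)]
  have hN1 : 1 ≤ N := (Real.one_le_exp (by linarith)).trans hN
  have hN0 : 0 < N := by linarith
  obtain ⟨s', hs'⟩ : ∃ s' : Finset Mat, s' = s.filter fun P => ∃ z ∈ X, (St .L (w.y z) j).2 = P :=
    ⟨_, rfl⟩
  have hP : ∀ P ∈ s', Atom w R δ j (τ, P) ∧ N ≤ ‖ac P w.v0‖ ∧ ‖ac P w.v0‖ ≤ 3 * N ∧
      (sig w Λ p q < Real.exp (13 * β) → Vbig (P *ᵥ w0 p q) (Real.exp (90 * β))) := fun P hP => by
    rw [hs'] at hP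
    obtain ⟨z, hz, rfl⟩ := (Finset.mem_filter.1 hP).2
    obtain ⟨b0, b1, -, b2, -, -, b3, b4, -, -, -, -, -, b5⟩ := hX z hz
    exact ⟨⟨z, b0, b1, Prod.ext b2 rfl⟩, b3, b4,
      fun k => b5.elim (fun b => absurd b.1 (not_le.2 k)) fun b => b.2.2.2⟩
  have hsq : ∀ D : ℝ, D ≤ CA + CB → ENNReal.ofReal (D * Real.exp (-β)) ≤
      ENNReal.ofReal (((CA + CB + 1) * Real.exp (-β / 2)) ^ 2) := fun D hD => by
    rw [mul_pow, ← Real.exp_nat_mul, show ((2 : ℕ) : ℝ) * (-β / 2) = -β by push_cast; ring]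
    exact ENNReal.ofReal_le_ofReal
      (mul_le_mul_of_nonneg_right (by nlinarith) (Real.exp_pos _).le)
  have s1 : (q : ℝ) ≤ sig w Λ p q := le_max_left _ _
  have s2 : Λ * |q * w.ga - p| ≤ sig w Λ p q := le_max_right _ _
  have := H1 j a N (Real.exp (j - 2 * β) / (Λ * N)) (Real.exp (j + 2 * β) / (Λ * N))
    (Real.exp (2 * β)) ω ((CA + CB + 1) * Real.exp (-β / 2)) τ s' E X ha hN0 (by positivity)
    (by positivity) (by positivity) hω (fun P h => ⟨(hP P h).2.1, (hP P h).2.2.1⟩) ?_ fun z hz => ?_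
  · refine this.trans (add_le_add (ENNReal.ofReal_le_ofReal ?_)
      (mul_le_mul_left (ENNReal.ofReal_le_ofReal ?_) _))
    · rw [← mul_assoc]
      exact mul_le_mul_of_nonneg_right (by linarith) (Real.exp_pos _).le
    · have g0 : ∀ P, 0 ≤ Real.exp (-3 * j) / ‖ac P w.v0‖ := fun P =>
        div_nonneg (Real.exp_pos _).le (norm_nonneg _)
      refine mul_le_mul (by linarith) ?_ (Finset.sum_nonneg fun P _ => g0 P) (by linarith)
      rw [hs']
      exact Finset.sum_le_sum_of_subset_of_nonneg (Finset.filter_subset _ _) fun P _ _ => g0 P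
  · rcases n5 with ⟨m1, m2, m3⟩ | ⟨m1, m2, m3, -⟩
    · refine (HA β j Λ _ N p q τ s' (by linarith) hj d1 d2 s1 s2
        ((max_choice _ _).imp le_of_eq le_of_eq) ?_ m2 m3 m1 hN1 ?_
        fun P h => ⟨(hP P h).1, (hP P h).2.1, (hP P h).2.2.1⟩).trans (hsq _ (by linarith))
      · rcases max_choice (q : ℝ) (Λ * |q * w.ga - p|) with k | k
        · rw [sig, k]
          exact d3
        · rw [sig, k, mul_pow, sq_abs]
          nlinarith
      · refine (mul_le_mul_of_nonneg_right (n1.trans n4) (Real.exp_pos _).le).trans ?_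
        rw [← Real.exp_add, Real.exp_le_exp]
        linarith
    · refine (HB β j Λ N p q τ s' (by linarith) hj d1 d2 (s1.trans m1.le) hΛ (s2.trans m1.le) ?_
        ((mul_le_mul_of_nonneg_left n1 (Real.exp_pos _).le).trans m3) hN
        ((n1.trans n4).trans (Real.exp_le_exp.2 (by linarith)))
        fun P h => ⟨(hP P h).1, (hP P h).2.1, (hP P h).2.2.1, (hP P h).2.2.2 m1⟩).trans
        (hsq _ (by linarith))
      rw [show 4 * β = β + 3 * β by ring, Real.exp_add] at m2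
      have k1 := mul_le_mul_of_nonneg_left n2 (Real.exp_pos j).le
      have k2 := mul_le_mul_of_nonneg_right e3
        (show 0 ≤ Real.exp (3 * β) * Λ by positivity)
      linarith
  · obtain ⟨-, b1, b2, b3, b4, b5, b6, -, b7, b8, b9, -⟩ := hX z hz
    refine ⟨b1, b2, b3, ?_, b5, b7, ?_, ?_⟩
    · rw [hs']
      exact Finset.mem_filter.2 ⟨b4, z, hz, rfl⟩
    · refine le_trans ?_ (mul_le_mul_of_nonneg_right hω2 (w.lev_pos z _).le)
      have e : 2 * (Real.exp (j - 2 * β) / (Λ * N)) * Real.exp a * N =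
          2 * Real.exp (-β) * (Real.exp (j + a) / (Real.exp β * Λ)) := by
        rw [show j - 2 * β = j + (-β + -β) by ring]
        simp only [Real.exp_add, Real.exp_neg]
        field_simp
      rw [e]
      exact mul_le_mul_of_nonneg_left ((div_le_iff₀' (by positivity)).2 b9) (by positivity)
    · have e : Real.exp (j + 2 * β) / (Λ * N) * Real.exp a * w.lev z j =
          Real.exp (2 * β) * (Real.exp (j + a) / Λ * (w.lev z j / N)) := by
        simp only [Real.exp_add]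
        field_simp
      rw [e]
      refine mul_le_mul_of_nonneg_left (((le_div_iff₀' hΛ).2 b8).trans
        (le_mul_of_one_le_right (by positivity) ((one_le_div hN0).2 b6))) (by positivity)

theorem c3_floor {x : ℝ} (hx : 1 ≤ x) :
    Real.exp (⌊Real.log x⌋₊ : ℝ) ≤ x ∧ x ≤ 3 * Real.exp (⌊Real.log x⌋₊ : ℝ) := by
  have h0 : 0 < x := by linarith
  constructor
  · conv_rhs => rw [← Real.exp_log h0]
    exact Real.exp_le_exp.2 (Nat.floor_le (Real.log_nonneg hx))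
  · conv_lhs => rw [← Real.exp_log h0]
    refine (Real.exp_le_exp.2 (Nat.lt_floor_add_one _).le).trans ?_
    rw [Real.exp_add, mul_comm]
    exact mul_le_mul_of_nonneg_right (by linarith [Real.exp_one_lt_d9]) (Real.exp_pos _).le

/-- Sum of `cls2` over the integer part of the logarithm of the level and the type. -/
theorem cls3 (w : Par) (R : ℝ) {δ : ℝ} (hδ : 0 < δ) (h1 : δ ≤ 1) : ∃ C : ℝ, 0 < C ∧
    ∀ (β j a Λ ω : ℝ) (p q : ℤ) (E : Set V) (X : Set (Fin 3 → ℝ)),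
    C ≤ β → 0 ≤ j → 0 ≤ a → Dir w Λ p q → ω ≤ δ / 6 → 2 * Real.exp (-β) ≤ ω →
    (∀ z ∈ X, z ∈ ZR R ∧ GoodAt δ .L (w.y z) j ∧ GoodAt δ .L (w.y z) (j + a) ∧
      (nst .L (w.y z) (j + a)).1 ∈ E ∧ Shear w z j a (Real.exp (2 * β)) ∧
      Λ * w.lev z (j + a) ≤ Real.exp (j + a) ∧
      Real.exp (j + a) ≤ Real.exp β * Λ * w.lev z (j + a) ∧ Suit w β j Λ p q z) →
    volume X ≤ ENNReal.ofReal (C * ((j + 1) * Real.exp (-β / 2))) +
      ENNReal.ofReal C * volume (Metric.cthickening ω E) := by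
  classical
  obtain ⟨C1, hC1, H1⟩ := cls2 w R hδ h1
  obtain ⟨C2, hC2, H2⟩ := fat w R hδ h1
  have hC := mul_pos hC1 hC2
  refine ⟨3 * C1 + C1 * C2, by positivity,
    fun β j a Λ ω p q E X hβ hj ha hD hω hω2 hX => ?_⟩
  obtain ⟨A, hA⟩ : ∃ A : Finset (Ty × Mat), ∀ q, q ∈ A ↔ Atom w R δ j q :=
    ⟨(atom_finite w R hδ hj).toFinset, fun q => by simp⟩
  obtain ⟨cl, hcl⟩ : ∃ cl : Ty × Mat → ℕ × Ty,
      cl = fun q => (⌊Real.log ‖ac q.2 w.v0‖⌋₊, q.1) := ⟨_, rfl⟩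
  obtain ⟨g, hg⟩ : ∃ g : Mat → ℝ, g = fun P => Real.exp (-3 * j) / ‖ac P w.v0‖ := ⟨_, rfl⟩
  have hg0 : ∀ P, 0 ≤ g P := fun P => by rw [hg]; positivity
  obtain ⟨I, hI⟩ : ∃ I : Finset (ℕ × Ty), I = Finset.range (⌊j⌋₊ + 1) ×ˢ Finset.univ := ⟨_, rfl⟩
  have hIc : I.card = 3 * (⌊j⌋₊ + 1) := by
    rw [hI, Finset.card_product, Finset.card_range, mul_comm]
    rfl
  have hcov : X ⊆ ⋃ i ∈ I, {z ∈ X | cl (St .L (w.y z) j) = i} := fun z hz => by
    simp only [Set.mem_iUnion]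
    refine ⟨_, ?_, hz, rfl⟩
    rw [hI, hcl]
    simp only [Finset.mem_product, Finset.mem_range, Finset.mem_univ, and_true]
    refine Nat.lt_succ_of_le (Nat.floor_le_floor ((Real.log_le_iff_le_exp (w.lev_pos z j)).2 ?_))
    exact (hX z hz).2.2.2.2.2.2.2.2.1.trans (Real.exp_le_exp.2 (by linarith))
  have hone : ∀ i, volume {z ∈ X | cl (St .L (w.y z) j) = i} ≤
      ENNReal.ofReal (C1 * Real.exp (-β / 2)) +
        ENNReal.ofReal (C1 * ∑ q ∈ A.filter (fun q => cl q = i), g q.2) *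
          volume (Metric.cthickening ω E) := fun i => by
    have hq : ∀ q : Ty × Mat, cl q = i → q.1 = i.2 ∧ ⌊Real.log ‖ac q.2 w.v0‖⌋₊ = i.1 :=
      fun q hq => by
        rw [hcl] at hq
        rw [← hq]
        exact ⟨rfl, rfl⟩
    have := H1 β j a Λ (Real.exp (i.1 : ℝ)) ω p q i.2
      ((A.filter (fun q => cl q = i)).image Prod.snd) E {z ∈ X | cl (St .L (w.y z) j) = i}
      (by linarith) hj ha hD hω hω2 fun z hz => by
        obtain ⟨b0, b1, b2, b3, b4, b5, b6, b7⟩ := hX z hz.1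
        obtain ⟨c1, c2⟩ := hq _ hz.2
        have c3 := c3_floor (x := w.lev z j) ((Real.one_le_exp (by linarith)).trans b7.1)
        rw [show ⌊Real.log (w.lev z j)⌋₊ = i.1 from c2] at c3
        exact ⟨b0, b1, b2, c1, Finset.mem_image_of_mem _
          (Finset.mem_filter.2 ⟨(hA _).2 ⟨z, b0, b1, rfl⟩, hz.2⟩), b3, c3.1, c3.2, b4, b5, b6, b7⟩
    rw [Finset.sum_image fun q h q' h' e => Prod.ext
      ((hq q (Finset.mem_filter.1 h).2).1.trans (hq q' (Finset.mem_filter.1 h').2).1.symm) e]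
      at this
    rw [hg]
    exact this
  have hsum : ∑ i ∈ I, ∑ q ∈ A.filter (fun q => cl q = i), g q.2 ≤ C2 := by
    rw [Finset.sum_fiberwise_eq_sum_filter]
    refine (Finset.sum_le_sum_of_subset_of_nonneg (Finset.filter_subset _ _)
      fun q _ _ => hg0 q.2).trans ?_
    rw [hg]
    exact H2 j A fun q hq => (hA q).1 hq
  refine (measure_mono hcov).trans ((measure_biUnion_finset_le _ _).trans
    ((Finset.sum_le_sum fun i _ => hone i).trans ?_))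
  rw [Finset.sum_add_distrib, ← Finset.sum_mul, ← ENNReal.ofReal_sum_of_nonneg
    (fun i _ => by positivity), ← ENNReal.ofReal_sum_of_nonneg
    (fun i _ => mul_nonneg hC1.le (Finset.sum_nonneg fun q _ => hg0 q.2)), ← Finset.mul_sum,
    ← Finset.mul_sum, Finset.sum_const, hIc, nsmul_eq_mul]
  refine add_le_add (ENNReal.ofReal_le_ofReal ?_)
    (mul_le_mul_left (ENNReal.ofReal_le_ofReal ?_) _)
  · have k1 := mul_nonneg hC.le (show 0 ≤ (j + 1) * Real.exp (-β / 2) by positivity)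
    have k2 := mul_le_mul_of_nonneg_right (Nat.floor_le hj)
      (show 0 ≤ C1 * Real.exp (-β / 2) by positivity)
    push_cast
    linarith
  · have := mul_le_mul_of_nonneg_left hsum hC1.le
    linarith

end Pool.Agent.TW.G
end
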